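import Mathlib.Algebra.Order.BigOperators.Group.Finset
import Mathlib.Algebra.Order.BigOperators.GroupWithZero.Finset
import Mathlib.Algebra.Notation.Lemmas
import Mathlib.Tactic.SuppressCompilation
import Mathlib.Algebra.BigOperators.Field
import Mathlib.Topology.Sheaves.Presheaf
import Mathlib.Algebra.Order.Archimedean.Real.Basic
import Mathlib.Tactic.Bound
import Mathlib.Algebra.BigOperators.Group.Finset.Powerset
import Mathlib.Algebra.Order.Star.Real
import Mathlib.Combinatorics.SimpleGraph.Basic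
import Mathlib.Combinatorics.SetFamily.FourFunctions
import Mathlib.Logic.Equiv.PartialEquiv
import Mathlib.Tactic.ENatToNat
import Mathlib.Tactic.Monotonicity.Lemmas
import Mathlib.Analysis.Normed.Field.Basic
import Mathlib.Order.CompletePartialOrder
import Mathlib.RingTheory.WittVector.IsPoly
import Mathlib.Tactic.Polynomial.Basic
import Mathlib.Tactic.ReduceModChar

-- ======== part 0: formerly Pool.Agent.MP_48a2f9_mp.FK
section MrgPart0

/-!
Finite random-cluster (FK) measures on an abstract graph, with an arbitrary boundary condition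
given as an equivalence relation on the vertices: connectivity, rank and weights.
-/

open Finset

namespace Pool.Agent.MP_48a2f9_mp

noncomputable section
open Classical
set_option linter.unusedSectionVars false

/-- A graph given by the endpoints of its edges, together with the cluster weight `q ≥ 1`. -/
structure Gr (V ι : Type*) where
  s : ι → V
  t : ι → V
  q : ℝ
  hq : 1 ≤ q

variable {V ι : Type*}

/-- The indicator of a proposition. -/
def ind (P : Prop) : ℝ := if P then 1 else 0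

lemma ind_pos {P : Prop} (h : P) : ind P = 1 := by simp [ind, h]
lemma ind_neg {P : Prop} (h : ¬ P) : ind P = 0 := by simp [ind, h]
@[simp] lemma ind_true : ind True = 1 := ind_pos trivial
@[simp] lemma ind_false : ind False = 0 := ind_neg id
lemma ind_nonneg (P : Prop) : 0 ≤ ind P := by unfold ind; split_ifs <;> simp
lemma ind_le_one (P : Prop) : ind P ≤ 1 := by unfold ind; split_ifs <;> simp
lemma ind_mono {P Q : Prop} (h : P → Q) : ind P ≤ ind Q := by
  by_cases hp : P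
  · rw [ind_pos hp, ind_pos (h hp)]
  · rw [ind_neg hp]; exact ind_nonneg Q
lemma ind_congr {P Q : Prop} (h : P ↔ Q) : ind P = ind Q := by rw [propext h]
lemma ind_and (P Q : Prop) : ind (P ∧ Q) = ind P * ind Q := by
  by_cases hp : P <;> by_cases hq : Q <;> simp [hp, hq]
lemma ind_not (P : Prop) : ind (¬ P) = 1 - ind P := by by_cases hp : P <;> simp [hp]
lemma ind_or_le (P Q : Prop) : ind (P ∨ Q) ≤ ind P + ind Q := by
  by_cases hp : P <;> by_cases hq : Q <;> simp [hp, hq]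
lemma ind_mul_self (P : Prop) : ind P * ind P = ind P := by by_cases hp : P <;> simp [hp]
lemma ind_eq_ite (P : Prop) [Decidable P] : ind P = if P then 1 else 0 := by
  by_cases hp : P <;> simp [hp]

/-- Equivalence relations on the vertices (boundary conditions, connectivity). -/
structure Eqv (V : Type*) where
  r : V → V → Prop
  refl' : ∀ x, r x x
  symm' : ∀ {x y}, r x y → r y x
  trans' : ∀ {x y z}, r x y → r y z → r x z

instance : CoeFun (Eqv V) (fun _ => V → V → Prop) := ⟨Eqv.r⟩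

lemma Eqv.ext' {R S : Eqv V} (h : ∀ x y, R x y ↔ S x y) : R = S := by
  obtain ⟨r, _, _, _⟩ := R
  obtain ⟨r', _, _, _⟩ := S
  have : r = r' := funext fun x => funext fun y => propext (h x y)
  subst this
  rfl

instance : PartialOrder (Eqv V) where
  le R S := ∀ ⦃x y⦄, R x y → S x y
  le_refl _ _ _ h := h
  le_trans _ _ _ h k _ _ l := k (h l)
  le_antisymm _ _ h k := Eqv.ext' fun _ _ => ⟨fun l => h l, fun l => k l⟩

lemma Eqv.le_def {R S : Eqv V} : R ≤ S ↔ ∀ ⦃x y⦄, R x y → S x y := Iff.rfl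

lemma Eqv.comm (R : Eqv V) {x y : V} : R x y ↔ R y x := ⟨R.symm', R.symm'⟩

/-- The free boundary condition. -/
def free : Eqv V := ⟨fun x y => x = y, fun _ => rfl, Eq.symm, Eq.trans⟩

@[simp] lemma free_iff {x y : V} : (free : Eqv V) x y ↔ x = y := Iff.rfl

lemma free_le (R : Eqv V) : free ≤ R := by
  rintro x y rfl
  exact R.refl' x

/-- All the vertices of `S` are wired together. -/
def wire (S : Set V) : Eqv V where
  r x y := x = y ∨ (x ∈ S ∧ y ∈ S)
  refl' _ := Or.inl rfl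
  symm' := by
    rintro x y (h | h)
    exacts [Or.inl h.symm, Or.inr h.symm]
  trans' := by
    rintro x y z (rfl | h) (rfl | k)
    exacts [Or.inl rfl, Or.inr k, Or.inr h, Or.inr ⟨h.1, k.2⟩]

lemma wire_iff {S : Set V} {x y : V} : wire S x y ↔ x = y ∨ (x ∈ S ∧ y ∈ S) := Iff.rfl

lemma wire_mono {S T : Set V} (h : S ⊆ T) : wire S ≤ wire T := by
  rintro x y (k | k)
  exacts [Or.inl k, Or.inr ⟨h k.1, h k.2⟩]

/-- The equivalence relation `R` with the classes of `a` and `b` merged. -/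
def join (R : Eqv V) (a b : V) : Eqv V where
  r x y := R x y ∨ (R x a ∧ R b y) ∨ (R x b ∧ R a y)
  refl' x := Or.inl (R.refl' x)
  symm' := by
    rintro x y (h | ⟨h1, h2⟩ | ⟨h1, h2⟩)
    · exact Or.inl (R.symm' h)
    · exact Or.inr (Or.inr ⟨R.symm' h2, R.symm' h1⟩)
    · exact Or.inr (Or.inl ⟨R.symm' h2, R.symm' h1⟩)
  trans' := by
    rintro x y z (h | ⟨h1, h2⟩ | ⟨h1, h2⟩) (k | ⟨k1, k2⟩ | ⟨k1, k2⟩)
    · exact Or.inl (R.trans' h k)
    · exact Or.inr (Or.inl ⟨R.trans' h k1, k2⟩)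
    · exact Or.inr (Or.inr ⟨R.trans' h k1, k2⟩)
    · exact Or.inr (Or.inl ⟨h1, R.trans' h2 k⟩)
    · exact Or.inr (Or.inl ⟨h1, k2⟩)
    · exact Or.inl (R.trans' h1 k2)
    · exact Or.inr (Or.inr ⟨h1, R.trans' h2 k⟩)
    · exact Or.inl (R.trans' h1 k2)
    · exact Or.inr (Or.inr ⟨h1, k2⟩)

lemma join_iff {R : Eqv V} {a b x y : V} :
    join R a b x y ↔ R x y ∨ (R x a ∧ R b y) ∨ (R x b ∧ R a y) := Iff.rfl

lemma le_join (R : Eqv V) (a b : V) : R ≤ join R a b := fun _ _ h => Or.inl h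

lemma join_rel (R : Eqv V) (a b : V) : join R a b a b :=
  Or.inr (Or.inl ⟨R.refl' a, R.refl' b⟩)

lemma join_le_iff {R S : Eqv V} {a b : V} : join R a b ≤ S ↔ R ≤ S ∧ S a b := by
  constructor
  · intro h
    exact ⟨(le_join R a b).trans h, h (join_rel R a b)⟩
  · rintro ⟨h1, h2⟩ x y (h | ⟨h3, h4⟩ | ⟨h3, h4⟩)
    · exact h1 h
    · exact S.trans' (h1 h3) (S.trans' h2 (h1 h4))
    · exact S.trans' (h1 h3) (S.trans' (S.symm' h2) (h1 h4))

lemma join_of_rel {R : Eqv V} {a b : V} (h : R a b) : join R a b = R :=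
  le_antisymm (join_le_iff.2 ⟨le_rfl, h⟩) (le_join R a b)

lemma join_mono {R S : Eqv V} (h : R ≤ S) (a b : V) : join R a b ≤ join S a b :=
  join_le_iff.2 ⟨h.trans (le_join S a b), join_rel S a b⟩

lemma join_comm (R : Eqv V) (a b c d : V) :
    join (join R a b) c d = join (join R c d) a b := by
  have key : ∀ a b c d : V, join (join R a b) c d ≤ join (join R c d) a b := fun a b c d =>
    join_le_iff.2 ⟨join_le_iff.2 ⟨(le_join R c d).trans (le_join _ a b), join_rel _ a b⟩,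
      le_join _ a b (join_rel R c d)⟩
  exact le_antisymm (key a b c d) (key c d a b)

namespace Gr

variable [DecidableEq ι] (G : Gr V ι)

lemma q_pos : 0 < G.q := lt_of_lt_of_le one_pos G.hq

/-- One step: a wired pair, or an open edge in either direction. -/
def Lnk (W : Eqv V) (ω : Finset ι) (a b : V) : Prop :=
  W a b ∨ ∃ e ∈ ω, (G.s e = a ∧ G.t e = b) ∨ (G.s e = b ∧ G.t e = a)

lemma Lnk.symm {G : Gr V ι} {W : Eqv V} {ω : Finset ι} {a b : V} (h : G.Lnk W ω a b) :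
    G.Lnk W ω b a := by
  rcases h with h | ⟨e, he, h⟩
  · exact Or.inl (W.symm' h)
  · exact Or.inr ⟨e, he, h.symm⟩

/-- Connectivity through the open edges `ω` and the wirings `W`. -/
def conn (W : Eqv V) (ω : Finset ι) : Eqv V where
  r := Relation.ReflTransGen (G.Lnk W ω)
  refl' _ := Relation.ReflTransGen.refl
  symm' := by
    intro a b h
    induction h with
    | refl => exact Relation.ReflTransGen.refl
    | tail _ h ih => exact Relation.ReflTransGen.head h.symm ih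
  trans' h k := h.trans k

variable {G}

lemma conn_iff {W : Eqv V} {ω : Finset ι} {a b : V} :
    G.conn W ω a b ↔ Relation.ReflTransGen (G.Lnk W ω) a b := Iff.rfl

lemma le_conn (W : Eqv V) (ω : Finset ι) : W ≤ G.conn W ω :=
  fun _ _ h => Relation.ReflTransGen.single (Or.inl h)

lemma conn_edge (W : Eqv V) {ω : Finset ι} {e : ι} (he : e ∈ ω) :
    G.conn W ω (G.s e) (G.t e) :=
  Relation.ReflTransGen.single (Or.inr ⟨e, he, Or.inl ⟨rfl, rfl⟩⟩)

lemma conn_le_iff {W S : Eqv V} {ω : Finset ι} :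
    G.conn W ω ≤ S ↔ W ≤ S ∧ ∀ e ∈ ω, S (G.s e) (G.t e) := by
  constructor
  · intro h
    exact ⟨(le_conn W ω).trans h, fun e he => h (conn_edge W he)⟩
  · rintro ⟨h1, h2⟩ x y h
    induction h with
    | refl => exact S.refl' _
    | tail _ h ih =>
      refine S.trans' ih ?_
      rcases h with h | ⟨e, he, ⟨rfl, rfl⟩ | ⟨rfl, rfl⟩⟩
      · exact h1 h
      · exact h2 e he
      · exact S.symm' (h2 e he)

lemma conn_mono {W W' : Eqv V} {ω ω' : Finset ι} (hW : W ≤ W') (hω : ω ⊆ ω') :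
    G.conn W ω ≤ G.conn W' ω' :=
  conn_le_iff.2 ⟨hW.trans (le_conn W' ω'), fun _ he => conn_edge W' (hω he)⟩

@[simp] lemma conn_empty (W : Eqv V) : G.conn W ∅ = W :=
  le_antisymm (conn_le_iff.2 ⟨le_rfl, by simp⟩) (le_conn W ∅)

lemma conn_insert (W : Eqv V) (ω : Finset ι) (e : ι) :
    G.conn W (insert e ω) = join (G.conn W ω) (G.s e) (G.t e) := by
  apply le_antisymm
  · refine conn_le_iff.2 ⟨(le_conn W ω).trans (le_join _ _ _), fun f hf => ?_⟩
    rcases mem_insert.1 hf with rfl | hf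
    · exact join_rel _ _ _
    · exact le_join _ _ _ (conn_edge W hf)
  · exact join_le_iff.2 ⟨conn_mono le_rfl (subset_insert e ω), conn_edge W (mem_insert_self e ω)⟩

lemma conn_conn (W : Eqv V) (ξ ω : Finset ι) :
    G.conn (G.conn W ξ) ω = G.conn W (ξ ∪ ω) := by
  apply le_antisymm
  · exact conn_le_iff.2 ⟨conn_mono le_rfl subset_union_left,
      fun e he => conn_edge W (mem_union_right _ he)⟩
  · refine conn_le_iff.2 ⟨(le_conn W ξ).trans (le_conn _ ω), fun e he => ?_⟩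
    rcases mem_union.1 he with he | he
    · exact le_conn _ ω (conn_edge W he)
    · exact conn_edge _ he

/-- A property that is invariant along wirings and open edges is constant on clusters. -/
lemma conn_invariant {W : Eqv V} {ω : Finset ι} {P : V → Prop}
    (h1 : ∀ a b, W a b → P a → P b) (h2 : ∀ e ∈ ω, P (G.s e) ↔ P (G.t e)) {a b : V}
    (h : G.conn W ω a b) (ha : P a) : P b := by
  induction h with
  | refl => exact ha
  | tail _ h ih =>
    rcases h with h | ⟨e, he, ⟨rfl, rfl⟩ | ⟨rfl, rfl⟩⟩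
    · exact h1 _ _ h ih
    · exact (h2 e he).1 ih
    · exact (h2 e he).2 ih

variable (G)

/-- Zero when `P` holds, one otherwise. -/
def gap (P : Prop) : ℕ := if P then 0 else 1

lemma gap_pos {P : Prop} (h : P) : gap P = 0 := by simp [gap, h]
lemma gap_neg {P : Prop} (h : ¬ P) : gap P = 1 := by simp [gap, h]
lemma gap_le_one (P : Prop) : gap P ≤ 1 := by unfold gap; split_ifs <;> simp
lemma gap_anti {P Q : Prop} (h : P → Q) : gap Q ≤ gap P := by
  by_cases hp : P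
  · rw [gap_pos hp, gap_pos (h hp)]
  · rw [gap_neg hp]; exact gap_le_one Q

/-- Adding one edge to the state (connectivity, number of merges). -/
def step (e : ι) (p : Eqv V × ℕ) : Eqv V × ℕ :=
  (join p.1 (G.s e) (G.t e), p.2 + gap (p.1 (G.s e) (G.t e)))

instance : LeftCommutative G.step := by
  refine ⟨fun e f p => ?_⟩
  obtain ⟨R, n⟩ := p
  simp only [step, Prod.mk.injEq]
  refine ⟨join_comm _ _ _ _ _, ?_⟩
  by_cases he : R (G.s e) (G.t e) <;> by_cases hf : R (G.s f) (G.t f)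
  · rw [join_of_rel he, join_of_rel hf, gap_pos he, gap_pos hf]
  · rw [join_of_rel he, gap_pos he, gap_neg hf, gap_pos (le_join R (G.s f) (G.t f) he)]
  · rw [join_of_rel hf, gap_pos hf, gap_neg he, gap_pos (le_join R (G.s e) (G.t e) hf)]
  · have : join R (G.s f) (G.t f) (G.s e) (G.t e) ↔ join R (G.s e) (G.t e) (G.s f) (G.t f) := by
      simp only [join_iff, he, hf, false_or]
      constructor
      · rintro (⟨h1, h2⟩ | ⟨h1, h2⟩)
        · exact Or.inl ⟨R.symm' h1, R.symm' h2⟩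
        · exact Or.inr ⟨h2, h1⟩
      · rintro (⟨h1, h2⟩ | ⟨h1, h2⟩)
        · exact Or.inl ⟨R.symm' h1, R.symm' h2⟩
        · exact Or.inr ⟨h2, h1⟩
    rw [gap_neg he, gap_neg hf, this]

/-- The number of merges of clusters caused by the open edges `ω`, starting from `W`. -/
def rk (W : Eqv V) (ω : Finset ι) : ℕ := (ω.val.foldr G.step (W, 0)).2

variable {G}

lemma foldr_fst (W : Eqv V) (ω : Finset ι) :
    (ω.val.foldr G.step (W, 0)).1 = G.conn W ω := by
  induction ω using Finset.induction_on with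
  | empty => simp
  | insert e ω he ih =>
    rw [insert_val_of_notMem he, Multiset.foldr_cons, conn_insert, ← ih]
    rfl

@[simp] lemma rk_empty (W : Eqv V) : G.rk W ∅ = 0 := by simp [rk]

lemma rk_insert (W : Eqv V) {ω : Finset ι} {e : ι} (he : e ∉ ω) :
    G.rk W (insert e ω) = G.rk W ω + gap (G.conn W ω (G.s e) (G.t e)) := by
  unfold rk
  rw [insert_val_of_notMem he, Multiset.foldr_cons, ← foldr_fst]
  rfl

lemma rk_union (W : Eqv V) {ξ ω : Finset ι} (h : Disjoint ξ ω) :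
    G.rk W (ξ ∪ ω) = G.rk W ξ + G.rk (G.conn W ξ) ω := by
  induction ω using Finset.induction_on with
  | empty => simp
  | insert e ω he ih =>
    rw [disjoint_insert_right] at h
    rw [union_insert, rk_insert W (by simp [he, h.1]), rk_insert _ he, ih h.2, conn_conn, add_assoc]

lemma rk_anti {W W' : Eqv V} (h : W ≤ W') (ω : Finset ι) : G.rk W' ω ≤ G.rk W ω := by
  induction ω using Finset.induction_on with
  | empty => simp
  | insert e ω he ih =>
    rw [rk_insert _ he, rk_insert _ he]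
    exact add_le_add ih (gap_anti fun k => conn_mono h subset_rfl k)

lemma rk_le_card (W : Eqv V) (ω : Finset ι) : G.rk W ω ≤ ω.card := by
  induction ω using Finset.induction_on with
  | empty => simp
  | insert e ω he ih =>
    rw [rk_insert _ he, card_insert_of_notMem he]
    exact add_le_add ih (gap_le_one _)

/-- Locality: only the wirings between points of a set `S` containing the endpoints matter. -/
lemma conn_local {W W' : Eqv V} {S : Set V} (hW : ∀ x ∈ S, ∀ y ∈ S, W x y ↔ W' x y)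
    {ω : Finset ι} (hω : ∀ e ∈ ω, G.s e ∈ S ∧ G.t e ∈ S) :
    ∀ x ∈ S, ∀ y ∈ S, G.conn W ω x y ↔ G.conn W' ω x y := by
  induction ω using Finset.induction_on with
  | empty => simpa using hW
  | insert e ω he ih =>
    have ih' := ih fun f hf => hω f (mem_insert_of_mem hf)
    obtain ⟨h1, h2⟩ := hω e (mem_insert_self _ _)
    intro x hx y hy
    simp only [conn_insert, join_iff, ih' x hx y hy, ih' x hx _ h1, ih' x hx _ h2, ih' _ h1 y hy,
      ih' _ h2 y hy]

lemma rk_local {W W' : Eqv V} {S : Set V} (hW : ∀ x ∈ S, ∀ y ∈ S, W x y ↔ W' x y)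
    {ω : Finset ι} (hω : ∀ e ∈ ω, G.s e ∈ S ∧ G.t e ∈ S) : G.rk W ω = G.rk W' ω := by
  induction ω using Finset.induction_on with
  | empty => simp
  | insert e ω he ih =>
    have hω' : ∀ f ∈ ω, G.s f ∈ S ∧ G.t f ∈ S := fun f hf => hω f (mem_insert_of_mem hf)
    obtain ⟨h1, h2⟩ := hω e (mem_insert_self _ _)
    rw [rk_insert _ he, rk_insert _ he, ih hω', conn_local hW hω' _ h1 _ h2]

variable (G)

/-- The FK weight `∏ v e * q ^ (- rank)` of the configuration `ω`. -/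
def wt (v : ι → ℝ) (W : Eqv V) (ω : Finset ι) : ℝ := (∏ e ∈ ω, v e) * G.q⁻¹ ^ G.rk W ω

/-- Unnormalised sum over the configurations in `E`. -/
def sm (v : ι → ℝ) (W : Eqv V) (E : Finset ι) (f : Finset ι → ℝ) : ℝ :=
  ∑ ω ∈ E.powerset, G.wt v W ω * f ω

/-- The partition function. -/
def Z (v : ι → ℝ) (W : Eqv V) (E : Finset ι) : ℝ := ∑ ω ∈ E.powerset, G.wt v W ω

/-- Expectation under the FK measure on the edge set `E` with boundary condition `W`. -/
def ex (v : ι → ℝ) (W : Eqv V) (E : Finset ι) (f : Finset ι → ℝ) : ℝ :=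
  G.sm v W E f / G.Z v W E

/-- Probability of an event. -/
def pr (v : ι → ℝ) (W : Eqv V) (E : Finset ι) (A : Finset ι → Prop) : ℝ :=
  G.ex v W E fun ω => ind (A ω)

variable {G} {v : ι → ℝ} {W : Eqv V} {E : Finset ι} {f g : Finset ι → ℝ}

@[simp] lemma wt_empty (v : ι → ℝ) (W : Eqv V) : G.wt v W ∅ = 1 := by simp [wt]

lemma wt_nonneg (hv : ∀ e, 0 ≤ v e) (W : Eqv V) (ω : Finset ι) : 0 ≤ G.wt v W ω :=
  mul_nonneg (prod_nonneg fun e _ => hv e) (pow_nonneg (inv_nonneg.2 G.q_pos.le) _)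

lemma wt_pos {ω : Finset ι} (hv : ∀ e ∈ ω, 0 < v e) (W : Eqv V) : 0 < G.wt v W ω :=
  mul_pos (prod_pos hv) (pow_pos (inv_pos.2 G.q_pos) _)

lemma wt_insert_of_conn (v : ι → ℝ) {W : Eqv V} {ω : Finset ι} {e : ι} (he : e ∉ ω)
    (h : G.conn W ω (G.s e) (G.t e)) : G.wt v W (insert e ω) = v e * G.wt v W ω := by
  unfold wt
  rw [prod_insert he, rk_insert W he, gap_pos h, add_zero, mul_assoc]

lemma wt_insert_of_not_conn (v : ι → ℝ) {W : Eqv V} {ω : Finset ι} {e : ι} (he : e ∉ ω)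
    (h : ¬ G.conn W ω (G.s e) (G.t e)) : G.wt v W (insert e ω) = v e / G.q * G.wt v W ω := by
  unfold wt
  rw [prod_insert he, rk_insert W he, gap_neg h, pow_succ, div_eq_mul_inv]
  ring

lemma wt_insert_le (hv : ∀ e, 0 ≤ v e) (W : Eqv V) {ω : Finset ι} {e : ι} (he : e ∉ ω) :
    G.wt v W (insert e ω) ≤ v e * G.wt v W ω := by
  by_cases h : G.conn W ω (G.s e) (G.t e)
  · exact (wt_insert_of_conn v he h).le
  · rw [wt_insert_of_not_conn v he h]
    exact mul_le_mul_of_nonneg_right (div_le_self (hv e) G.hq) (wt_nonneg hv W ω)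

lemma le_wt_insert (hv : ∀ e, 0 ≤ v e) (W : Eqv V) {ω : Finset ι} {e : ι} (he : e ∉ ω) :
    v e / G.q * G.wt v W ω ≤ G.wt v W (insert e ω) := by
  by_cases h : G.conn W ω (G.s e) (G.t e)
  · rw [wt_insert_of_conn v he h]
    exact mul_le_mul_of_nonneg_right (div_le_self (hv e) G.hq) (wt_nonneg hv W ω)
  · exact (wt_insert_of_not_conn v he h).ge

lemma wt_union (v : ι → ℝ) (W : Eqv V) {ξ ω : Finset ι} (h : Disjoint ξ ω) :
    G.wt v W (ξ ∪ ω) = G.wt v W ξ * G.wt v (G.conn W ξ) ω := by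
  unfold wt
  rw [prod_union h, rk_union W h, pow_add]
  ring

lemma wt_mono_bc (hv : ∀ e, 0 ≤ v e) {W W' : Eqv V} (h : W ≤ W') (ω : Finset ι) :
    G.wt v W ω ≤ G.wt v W' ω :=
  mul_le_mul_of_nonneg_left (pow_le_pow_of_le_one (inv_nonneg.2 G.q_pos.le)
    (inv_le_one_of_one_le₀ G.hq) (rk_anti h ω)) (prod_nonneg fun e _ => hv e)

lemma wt_mono {v v' : ι → ℝ} (hv : ∀ e, 0 ≤ v e) {W W' : Eqv V} (h : W ≤ W') {ω : Finset ι}
    (hvv : ∀ e ∈ ω, v e ≤ v' e) : G.wt v W ω ≤ G.wt v' W' ω :=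
  (wt_mono_bc hv h ω).trans (mul_le_mul_of_nonneg_right
    (prod_le_prod (fun e _ => hv e) hvv) (pow_nonneg (inv_nonneg.2 G.q_pos.le) _))

lemma wt_local (v : ι → ℝ) {W W' : Eqv V} {S : Set V}
    (hW : ∀ x ∈ S, ∀ y ∈ S, W x y ↔ W' x y)
    {ω : Finset ι} (hω : ∀ e ∈ ω, G.s e ∈ S ∧ G.t e ∈ S) : G.wt v W ω = G.wt v W' ω := by
  unfold wt
  rw [rk_local hW hω]

lemma wt_congr {v v' : ι → ℝ} (W : Eqv V) {ω : Finset ι} (h : ∀ e ∈ ω, v e = v' e) :
    G.wt v W ω = G.wt v' W ω := by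
  unfold wt
  rw [prod_congr rfl h]

lemma one_le_Z (hv : ∀ e, 0 ≤ v e) (W : Eqv V) (E : Finset ι) : 1 ≤ G.Z v W E := by
  have := single_le_sum (f := G.wt v W) (fun ω _ => wt_nonneg hv W ω) (empty_mem_powerset E)
  rwa [wt_empty] at this

lemma Z_pos (hv : ∀ e, 0 ≤ v e) (W : Eqv V) (E : Finset ι) : 0 < G.Z v W E :=
  lt_of_lt_of_le one_pos (one_le_Z hv W E)

lemma sm_one (v : ι → ℝ) (W : Eqv V) (E : Finset ι) : G.sm v W E (fun _ => 1) = G.Z v W E := by
  simp [sm, Z]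

lemma sm_eq (hv : ∀ e, 0 ≤ v e) : G.sm v W E f = G.Z v W E * G.ex v W E f := by
  unfold ex
  rw [mul_div_cancel₀ _ (Z_pos hv W E).ne']

lemma sm_mono (hv : ∀ e, 0 ≤ v e) (h : ∀ ω ⊆ E, f ω ≤ g ω) : G.sm v W E f ≤ G.sm v W E g :=
  sum_le_sum fun ω hω => mul_le_mul_of_nonneg_left (h ω (mem_powerset.1 hω)) (wt_nonneg hv W ω)

lemma sm_congr (h : ∀ ω ⊆ E, f ω = g ω) : G.sm v W E f = G.sm v W E g :=
  sum_congr rfl fun ω hω => by rw [h ω (mem_powerset.1 hω)]

lemma sm_nonneg (hv : ∀ e, 0 ≤ v e) (h : ∀ ω ⊆ E, 0 ≤ f ω) : 0 ≤ G.sm v W E f :=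
  sum_nonneg fun ω hω => mul_nonneg (wt_nonneg hv W ω) (h ω (mem_powerset.1 hω))

lemma ex_mono (hv : ∀ e, 0 ≤ v e) (h : ∀ ω ⊆ E, f ω ≤ g ω) : G.ex v W E f ≤ G.ex v W E g :=
  div_le_div_of_nonneg_right (sm_mono hv h) (Z_pos hv W E).le

lemma ex_congr (h : ∀ ω ⊆ E, f ω = g ω) : G.ex v W E f = G.ex v W E g := by
  unfold ex
  rw [sm_congr h]

lemma ex_const (hv : ∀ e, 0 ≤ v e) (c : ℝ) : G.ex v W E (fun _ => c) = c := by
  unfold ex sm
  rw [← sum_mul, mul_comm, mul_div_assoc,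
    show (∑ ω ∈ E.powerset, G.wt v W ω) = G.Z v W E from rfl, div_self (Z_pos hv W E).ne', mul_one]

lemma ex_add : G.ex v W E (fun ω => f ω + g ω) = G.ex v W E f + G.ex v W E g := by
  unfold ex sm
  rw [← add_div, ← sum_add_distrib]
  congr 1
  exact sum_congr rfl fun ω _ => by ring

lemma ex_sub : G.ex v W E (fun ω => f ω - g ω) = G.ex v W E f - G.ex v W E g := by
  unfold ex sm
  rw [← sub_div, ← sum_sub_distrib]
  congr 1
  exact sum_congr rfl fun ω _ => by ring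

lemma ex_const_mul (c : ℝ) : G.ex v W E (fun ω => c * f ω) = c * G.ex v W E f := by
  unfold ex sm
  rw [← mul_div_assoc, mul_sum]
  congr 1
  exact sum_congr rfl fun ω _ => by ring

lemma ex_mul_const (c : ℝ) : G.ex v W E (fun ω => f ω * c) = G.ex v W E f * c := by
  simp only [mul_comm _ c, ex_const_mul]

lemma ex_sum {κ : Type*} (T : Finset κ) (f : κ → Finset ι → ℝ) :
    G.ex v W E (fun ω => ∑ i ∈ T, f i ω) = ∑ i ∈ T, G.ex v W E (f i) := by
  unfold ex sm
  rw [← sum_div, sum_comm]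
  congr 1
  exact sum_congr rfl fun ω _ => by rw [mul_sum]

lemma ex_nonneg (hv : ∀ e, 0 ≤ v e) (h : ∀ ω ⊆ E, 0 ≤ f ω) : 0 ≤ G.ex v W E f :=
  div_nonneg (sm_nonneg hv h) (Z_pos hv W E).le

lemma ex_le_const (hv : ∀ e, 0 ≤ v e) {c : ℝ} (h : ∀ ω ⊆ E, f ω ≤ c) : G.ex v W E f ≤ c := by
  have := ex_mono (G := G) (W := W) (g := fun _ => c) hv h
  rwa [ex_const hv] at this

lemma const_le_ex (hv : ∀ e, 0 ≤ v e) {c : ℝ} (h : ∀ ω ⊆ E, c ≤ f ω) : c ≤ G.ex v W E f := by
  have := ex_mono (G := G) (W := W) (f := fun _ => c) hv h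
  rwa [ex_const hv] at this

/-- Locality of the measure in the boundary condition. -/
lemma ex_local (v : ι → ℝ) {W W' : Eqv V} {S : Set V}
    (hW : ∀ x ∈ S, ∀ y ∈ S, W x y ↔ W' x y)
    (hE : ∀ e ∈ E, G.s e ∈ S ∧ G.t e ∈ S) (f : Finset ι → ℝ) :
    G.ex v W E f = G.ex v W' E f := by
  have : ∀ ω ∈ E.powerset, G.wt v W ω = G.wt v W' ω := fun ω hω =>
    wt_local v hW fun e he => hE e (mem_powerset.1 hω he)
  unfold ex sm Z
  rw [sum_congr rfl this, sum_congr rfl fun ω hω => by rw [this ω hω]]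

lemma ex_congr_v {v v' : ι → ℝ} (h : ∀ e ∈ E, v e = v' e) (W : Eqv V) (f : Finset ι → ℝ) :
    G.ex v W E f = G.ex v' W E f := by
  have : ∀ ω ∈ E.powerset, G.wt v W ω = G.wt v' W ω := fun ω hω =>
    wt_congr W fun e he => h e (mem_powerset.1 hω he)
  unfold ex sm Z
  rw [sum_congr rfl this, sum_congr rfl fun ω hω => by rw [this ω hω]]

variable {A B : Finset ι → Prop}

lemma pr_nonneg (hv : ∀ e, 0 ≤ v e) : 0 ≤ G.pr v W E A :=
  ex_nonneg hv fun _ _ => ind_nonneg _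

lemma pr_le_one (hv : ∀ e, 0 ≤ v e) : G.pr v W E A ≤ 1 :=
  ex_le_const hv fun _ _ => ind_le_one _

lemma pr_mono (hv : ∀ e, 0 ≤ v e) (h : ∀ ω ⊆ E, A ω → B ω) : G.pr v W E A ≤ G.pr v W E B :=
  ex_mono hv fun ω hω => ind_mono (h ω hω)

lemma pr_congr (h : ∀ ω ⊆ E, A ω ↔ B ω) : G.pr v W E A = G.pr v W E B :=
  ex_congr fun ω hω => ind_congr (h ω hω)

lemma pr_not (hv : ∀ e, 0 ≤ v e) : G.pr v W E (fun ω => ¬ A ω) = 1 - G.pr v W E A := by
  unfold pr
  simp only [ind_not]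
  rw [ex_sub, ex_const hv]

lemma pr_true (hv : ∀ e, 0 ≤ v e) (h : ∀ ω ⊆ E, A ω) : G.pr v W E A = 1 := by
  rw [← ex_const (G := G) (W := W) (E := E) hv 1]
  exact ex_congr fun ω hω => ind_pos (h ω hω)

lemma pr_false (h : ∀ ω ⊆ E, ¬ A ω) : G.pr v W E A = 0 := by
  unfold pr ex sm
  rw [sum_eq_zero fun ω hω => by simp [ind_neg (h ω (mem_powerset.1 hω))], zero_div]

lemma pr_or_le (hv : ∀ e, 0 ≤ v e) :
    G.pr v W E (fun ω => A ω ∨ B ω) ≤ G.pr v W E A + G.pr v W E B := by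
  unfold pr
  rw [← ex_add]
  exact ex_mono hv fun ω _ => ind_or_le _ _

/-- The union bound. -/
lemma pr_le_sum (hv : ∀ e, 0 ≤ v e) {κ : Type*} (T : Finset κ) (B : κ → Finset ι → Prop)
    (h : ∀ ω ⊆ E, A ω → ∃ i ∈ T, B i ω) : G.pr v W E A ≤ ∑ i ∈ T, G.pr v W E (B i) := by
  unfold pr
  rw [← ex_sum]
  refine ex_mono hv fun ω hω => ?_
  by_cases ha : A ω
  · obtain ⟨i, hi, hb⟩ := h ω hω ha
    have := single_le_sum (f := fun i => ind (B i ω)) (fun i _ => ind_nonneg _) hi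
    rw [ind_pos ha]
    rwa [ind_pos hb] at this
  · rw [ind_neg ha]
    exact sum_nonneg fun i _ => ind_nonneg _

lemma pr_split (A B : Finset ι → Prop) :
    G.pr v W E A = G.pr v W E (fun ω => A ω ∧ B ω) + G.pr v W E (fun ω => A ω ∧ ¬ B ω) := by
  unfold pr
  rw [← ex_add]
  exact ex_congr fun ω _ => by by_cases ha : A ω <;> by_cases hb : B ω <;> simp [ha, hb]

end Gr

end

end Pool.Agent.MP_48a2f9_mp

end MrgPart0

-- ======== part 1: formerly Pool.Agent.MP_48a2f9_mp.FKMarkov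
section MrgPart1

-- ======== part 0: formerly Pool.Agent.MP_48a2f9_mp.FKOrder
section MrgPart0

/-!
The four-functions inequality for FK weights; Holley's comparison and the FKG inequality;
the domain Markov property, stopping sets, finite energy.
-/

open Finset
open scoped FinsetFamily

namespace Pool.Agent.MP_48a2f9_mp

noncomputable section
open Classical
set_option linter.unusedSectionVars false

variable {V ι : Type*} [DecidableEq ι]

namespace Gr

variable {G : Gr V ι} {v v' : ι → ℝ} {W W' : Eqv V} {E E' : Finset ι}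

/-- The lattice condition. -/
lemma wt_lattice (hv : ∀ e, 0 ≤ v e) (hv' : ∀ e, 0 ≤ v' e) (hW : W ≤ W') {a : Finset ι}
    (hvv : ∀ e ∈ a, v e ≤ v' e) (b : Finset ι) :
    G.wt v W a * G.wt v' W' b ≤ G.wt v W (a ∩ b) * G.wt v' W' (a ∪ b) := by
  have h1 : a = (a ∩ b) ∪ (a \ b) := by
    ext e; simp only [mem_union, mem_inter, mem_sdiff]; tauto
  have h2 : a ∪ b = b ∪ (a \ b) := by
    ext e; simp only [mem_union, mem_sdiff]; tauto
  have d1 : Disjoint (a ∩ b) (a \ b) :=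
    disjoint_left.2 fun e h k => (mem_sdiff.1 k).2 (mem_inter.1 h).2
  have d2 : Disjoint b (a \ b) := disjoint_sdiff
  rw [h2, wt_union v' W' d2]
  conv_lhs => rw [h1, wt_union v W d1]
  have h3 : G.wt v (G.conn W (a ∩ b)) (a \ b) ≤ G.wt v' (G.conn W' b) (a \ b) :=
    wt_mono hv (conn_mono hW inter_subset_right) fun e he => hvv e (mem_sdiff.1 he).1
  have h4 := wt_nonneg (G := G) hv W (a ∩ b)
  have h5 := wt_nonneg (G := G) hv' W' b
  calc _ = G.wt v W (a ∩ b) * (G.wt v' W' b * G.wt v (G.conn W (a ∩ b)) (a \ b)) := by ring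
    _ ≤ _ := mul_le_mul_of_nonneg_left (mul_le_mul_of_nonneg_left h3 h5) h4

/-- The four-functions inequality for FK sums. -/
lemma sm_four (hv : ∀ e, 0 ≤ v e) (hv' : ∀ e, 0 ≤ v' e) (hW : W ≤ W') (hE : E ⊆ E')
    (hvv : ∀ e ∈ E, v e ≤ v' e) {f₁ f₂ f₃ f₄ : Finset ι → ℝ}
    (h₁ : ∀ ω, 0 ≤ f₁ ω) (h₂ : ∀ ω, 0 ≤ f₂ ω) (h₃ : ∀ ω, 0 ≤ f₃ ω) (h₄ : ∀ ω, 0 ≤ f₄ ω)
    (h : ∀ a ⊆ E, ∀ b ⊆ E', f₁ a * f₂ b ≤ f₃ (a ∩ b) * f₄ (a ∪ b)) :
    G.sm v W E f₁ * G.sm v' W' E' f₂ ≤ G.sm v W E f₃ * G.sm v' W' E' f₄ := by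
  have key := Finset.four_functions_theorem (f₁ := fun a => ind (a ⊆ E) * (G.wt v W a * f₁ a))
    (f₂ := fun a => G.wt v' W' a * f₂ a) (f₃ := fun a => G.wt v W a * f₃ a)
    (f₄ := fun a => G.wt v' W' a * f₄ a) E'
    (fun a => mul_nonneg (ind_nonneg _) (mul_nonneg (wt_nonneg hv W a) (h₁ a)))
    (fun a => mul_nonneg (wt_nonneg hv' W' a) (h₂ a))
    (fun a => mul_nonneg (wt_nonneg hv W a) (h₃ a))
    (fun a => mul_nonneg (wt_nonneg hv' W' a) (h₄ a))
    (fun a _ b hb => by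
      by_cases ha : a ⊆ E
      · rw [ind_pos ha, one_mul]
        calc G.wt v W a * f₁ a * (G.wt v' W' b * f₂ b)
            = (G.wt v W a * G.wt v' W' b) * (f₁ a * f₂ b) := by ring
          _ ≤ (G.wt v W (a ∩ b) * G.wt v' W' (a ∪ b)) * (f₃ (a ∩ b) * f₄ (a ∪ b)) :=
            mul_le_mul (wt_lattice hv hv' hW (fun e he => hvv e (ha he)) b) (h a ha b hb)
              (mul_nonneg (h₁ a) (h₂ b)) (mul_nonneg (wt_nonneg hv _ _) (wt_nonneg hv' _ _))
          _ = _ := by ring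
      · rw [ind_neg ha, zero_mul, zero_mul]
        exact mul_nonneg (mul_nonneg (wt_nonneg hv _ _) (h₃ _))
          (mul_nonneg (wt_nonneg hv' _ _) (h₄ _)))
    (𝒜 := E.powerset) (ℬ := E'.powerset) (powerset_mono.2 hE) subset_rfl
  rw [← powerset_inter, ← powerset_union, inter_eq_left.2 hE, union_eq_right.2 hE,
    sum_congr rfl fun a ha => by rw [ind_pos (mem_powerset.1 ha), one_mul]] at key
  exact key

/-- Monotone on the subsets of `E`. -/
def MonoIn (E : Finset ι) (f : Finset ι → ℝ) : Prop := ∀ a b, a ⊆ b → b ⊆ E → f a ≤ f b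

lemma monoIn_of_monotone {f : Finset ι → ℝ} (hf : Monotone f) (E : Finset ι) :
    MonoIn E f := fun _ _ h _ => hf h

lemma MonoIn.subset {f : Finset ι → ℝ} (hf : MonoIn E' f) (h : E ⊆ E') : MonoIn E f :=
  fun a b k l => hf a b k (l.trans h)

lemma monoIn_ind {A : Finset ι → Prop} (h : ∀ a b, a ⊆ b → b ⊆ E → A a → A b) :
    MonoIn E fun ω => ind (A ω) := fun a b k l => ind_mono (h a b k l)

/-- Holley's inequality, with a nonnegative decreasing weight `g` on the smaller measure and a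
nonnegative increasing weight `k` on the larger one. -/
lemma holley_weighted (hv : ∀ e, 0 ≤ v e) (hv' : ∀ e, 0 ≤ v' e) (hW : W ≤ W') (hE : E ⊆ E')
    (hvv : ∀ e ∈ E, v e ≤ v' e) {f g k : Finset ι → ℝ} (hf : MonoIn E' f)
    (hg : MonoIn E fun ω => - g ω) (hg0 : ∀ ω ⊆ E, 0 ≤ g ω) (hk : MonoIn E' k)
    (hk0 : ∀ ω ⊆ E', 0 ≤ k ω) :
    G.ex v W E (fun ω => f ω * g ω) * G.ex v' W' E' k ≤
      G.ex v W E g * G.ex v' W' E' (fun ω => f ω * k ω) := by
  have main := sm_four (G := G) hv hv' hW hE hvv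
    (f₁ := fun ω => max (f ω - f ∅) 0 * max (g ω) 0) (f₂ := fun ω => max (k ω) 0)
    (f₃ := fun ω => max (g ω) 0) (f₄ := fun ω => max (f ω - f ∅) 0 * max (k ω) 0)
    (fun _ => by positivity) (fun _ => by positivity) (fun _ => by positivity)
    (fun _ => by positivity) (fun a ha b hb => by
      have hab : a ∪ b ⊆ E' := union_subset (ha.trans hE) hb
      have e1 : max (f a - f ∅) 0 ≤ max (f (a ∪ b) - f ∅) 0 :=
        max_le_max (sub_le_sub_right (hf _ _ subset_union_left hab) _) le_rfl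
      have e2 : max (g a) 0 ≤ max (g (a ∩ b)) 0 :=
        max_le_max (neg_le_neg_iff.1 (hg _ _ inter_subset_left ha)) le_rfl
      have e3 : max (k b) 0 ≤ max (k (a ∪ b)) 0 :=
        max_le_max (hk _ _ subset_union_right hab) le_rfl
      calc _ = max (g a) 0 * (max (f a - f ∅) 0 * max (k b) 0) := by ring
        _ ≤ _ := by gcongr)
  have r1 : G.sm v W E (fun ω => max (f ω - f ∅) 0 * max (g ω) 0) =
      G.Z v W E * (G.ex v W E (fun ω => f ω * g ω) - f ∅ * G.ex v W E g) := by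
    rw [← ex_const_mul, ← ex_sub, ← sm_eq hv]
    refine sm_congr fun ω hω => ?_
    rw [max_eq_left (sub_nonneg.2 (hf _ _ (empty_subset _) (hω.trans hE))), max_eq_left (hg0 ω hω)]
    ring
  have r2 : G.sm v' W' E' (fun ω => max (k ω) 0) = G.Z v' W' E' * G.ex v' W' E' k := by
    rw [← sm_eq hv']
    exact sm_congr fun ω hω => max_eq_left (hk0 ω hω)
  have r3 : G.sm v W E (fun ω => max (g ω) 0) = G.Z v W E * G.ex v W E g := by
    rw [← sm_eq hv]
    exact sm_congr fun ω hω => max_eq_left (hg0 ω hω)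
  have r4 : G.sm v' W' E' (fun ω => max (f ω - f ∅) 0 * max (k ω) 0) =
      G.Z v' W' E' * (G.ex v' W' E' (fun ω => f ω * k ω) - f ∅ * G.ex v' W' E' k) := by
    rw [← ex_const_mul, ← ex_sub, ← sm_eq hv']
    refine sm_congr fun ω hω => ?_
    rw [max_eq_left (sub_nonneg.2 (hf _ _ (empty_subset _) hω)), max_eq_left (hk0 ω hω)]
    ring
  rw [r1, r2, r3, r4] at main
  have hZ := mul_pos (Z_pos (G := G) hv W E) (Z_pos (G := G) hv' W' E')
  refine le_of_mul_le_mul_left ?_ hZ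
  nlinarith

/-- Holley's inequality: monotonicity in the weights, the boundary condition and the edge set. -/
lemma holley (hv : ∀ e, 0 ≤ v e) (hv' : ∀ e, 0 ≤ v' e) (hW : W ≤ W') (hE : E ⊆ E')
    (hvv : ∀ e ∈ E, v e ≤ v' e) {f : Finset ι → ℝ} (hf : MonoIn E' f) :
    G.ex v W E f ≤ G.ex v' W' E' f := by
  have := holley_weighted (G := G) hv hv' hW hE hvv hf (g := fun _ => 1) (k := fun _ => 1)
    (fun _ _ _ _ => le_rfl) (fun _ _ => zero_le_one) (fun _ _ _ _ => le_rfl)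
    (fun _ _ => zero_le_one)
  simpa only [mul_one, ex_const hv, ex_const hv', one_mul] using this

/-- The FKG inequality. -/
lemma fkg (hv : ∀ e, 0 ≤ v e) {f g : Finset ι → ℝ} (hf : MonoIn E f) (hg : MonoIn E g) :
    G.ex v W E f * G.ex v W E g ≤ G.ex v W E (fun ω => f ω * g ω) := by
  have := holley_weighted (G := G) (W := W) hv hv le_rfl subset_rfl (fun _ _ => le_rfl) hf
    (g := fun _ => 1) (k := fun ω => g ω - g ∅) (fun _ _ _ _ => le_rfl) (fun _ _ => zero_le_one)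
    (fun a b h k => sub_le_sub_right (hg a b h k) _)
    (fun ω hω => sub_nonneg.2 (hg _ _ (empty_subset _) hω))
  simp only [mul_one, ex_const hv, one_mul, mul_sub, ex_sub, ex_mul_const] at this
  linarith

/-- FKG for an increasing and a decreasing function. -/
lemma fkg_anti (hv : ∀ e, 0 ≤ v e) {f g : Finset ι → ℝ} (hf : MonoIn E f)
    (hg : MonoIn E fun ω => - g ω) :
    G.ex v W E (fun ω => f ω * g ω) ≤ G.ex v W E f * G.ex v W E g := by
  have := fkg (G := G) (W := W) hv hf hg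
  have e1 : G.ex v W E (fun ω => - g ω) = - G.ex v W E g := by
    rw [← neg_one_mul, ← ex_const_mul]; simp
  have e2 : G.ex v W E (fun ω => f ω * - g ω) = - G.ex v W E (fun ω => f ω * g ω) := by
    rw [← neg_one_mul, ← ex_const_mul]; simp
  rw [e1, e2] at this
  linarith

/-- FKG for two decreasing functions. -/
lemma fkg_anti_anti (hv : ∀ e, 0 ≤ v e) {f g : Finset ι → ℝ} (hf : MonoIn E fun ω => - f ω)
    (hg : MonoIn E fun ω => - g ω) :
    G.ex v W E f * G.ex v W E g ≤ G.ex v W E (fun ω => f ω * g ω) := by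
  have := fkg (G := G) (W := W) hv hf hg
  have e1 : ∀ g : Finset ι → ℝ, G.ex v W E (fun ω => - g ω) = - G.ex v W E g := fun g => by
    rw [← neg_one_mul, ← ex_const_mul]; simp
  simpa only [e1, neg_mul_neg] using this

/-- Increasing events (among the subsets of `E`). -/
def Incr (E : Finset ι) (A : Finset ι → Prop) : Prop := ∀ a b, a ⊆ b → b ⊆ E → A a → A b

/-- Decreasing events (among the subsets of `E`). -/
def Decr (E : Finset ι) (A : Finset ι → Prop) : Prop := ∀ a b, a ⊆ b → b ⊆ E → A b → A a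

variable {A B : Finset ι → Prop}

lemma Incr.monoIn (h : Incr E A) : MonoIn E fun ω => ind (A ω) := monoIn_ind h

lemma Decr.monoIn (h : Decr E A) : MonoIn E fun ω => - ind (A ω) :=
  fun a b k l => neg_le_neg (ind_mono (h a b k l))

lemma Decr.not (h : Decr E A) : Incr E fun ω => ¬ A ω := fun a b k l m n => m (h a b k l n)

lemma Incr.not (h : Incr E A) : Decr E fun ω => ¬ A ω := fun a b k l m n => m (h a b k l n)

lemma Incr.and (h : Incr E A) (h' : Incr E B) : Incr E fun ω => A ω ∧ B ω :=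
  fun a b k l m => ⟨h a b k l m.1, h' a b k l m.2⟩

lemma Decr.and (h : Decr E A) (h' : Decr E B) : Decr E fun ω => A ω ∧ B ω :=
  fun a b k l m => ⟨h a b k l m.1, h' a b k l m.2⟩

lemma Incr.subset (h : Incr E' A) (hE : E ⊆ E') : Incr E A :=
  fun a b k l => h a b k (l.trans hE)

lemma Decr.subset (h : Decr E' A) (hE : E ⊆ E') : Decr E A :=
  fun a b k l => h a b k (l.trans hE)

lemma incr_conn (W : Eqv V) (E : Finset ι) (x y : V) : Incr E fun ω => G.conn W ω x y :=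
  fun _ _ k _ m => conn_mono le_rfl k m

lemma pr_holley (hv : ∀ e, 0 ≤ v e) (hv' : ∀ e, 0 ≤ v' e) (hW : W ≤ W') (hE : E ⊆ E')
    (hvv : ∀ e ∈ E, v e ≤ v' e) (hA : Incr E' A) : G.pr v W E A ≤ G.pr v' W' E' A :=
  holley hv hv' hW hE hvv hA.monoIn

lemma pr_holley_decr (hv : ∀ e, 0 ≤ v e) (hv' : ∀ e, 0 ≤ v' e) (hW : W ≤ W') (hE : E ⊆ E')
    (hvv : ∀ e ∈ E, v e ≤ v' e) (hA : Decr E' A) : G.pr v' W' E' A ≤ G.pr v W E A := by
  have := pr_holley (G := G) hv hv' hW hE hvv hA.not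
  rw [pr_not hv, pr_not hv'] at this
  linarith

lemma pr_fkg (hv : ∀ e, 0 ≤ v e) (hA : Incr E A) (hB : Incr E B) :
    G.pr v W E A * G.pr v W E B ≤ G.pr v W E (fun ω => A ω ∧ B ω) := by
  simpa only [pr, ind_and] using fkg (G := G) (W := W) hv hA.monoIn hB.monoIn

lemma pr_fkg_decr (hv : ∀ e, 0 ≤ v e) (hA : Decr E A) (hB : Decr E B) :
    G.pr v W E A * G.pr v W E B ≤ G.pr v W E (fun ω => A ω ∧ B ω) := by
  simpa only [pr, ind_and] using fkg_anti_anti (G := G) (W := W) hv hA.monoIn hB.monoIn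

lemma pr_fkg_anti (hv : ∀ e, 0 ≤ v e) (hA : Incr E A) (hB : Decr E B) :
    G.pr v W E (fun ω => A ω ∧ B ω) ≤ G.pr v W E A * G.pr v W E B := by
  simpa only [pr, ind_and] using fkg_anti (G := G) (W := W) hv hA.monoIn hB.monoIn

/-- FKG for finitely many increasing events. -/
lemma pr_fkg_prod (hv : ∀ e, 0 ≤ v e) {κ : Type*} (T : Finset κ) {A : κ → Finset ι → Prop}
    (hA : ∀ i ∈ T, Incr E (A i)) :
    ∏ i ∈ T, G.pr v W E (A i) ≤ G.pr v W E (fun ω => ∀ i ∈ T, A i ω) := by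
  induction T using Finset.induction_on with
  | empty => rw [prod_empty, pr_true hv (by simp)]
  | insert i T hi ih =>
    have h1 : Incr E fun ω => ∀ j ∈ T, A j ω :=
      fun a b k l m j hj => hA j (mem_insert_of_mem hj) a b k l (m j hj)
    rw [prod_insert hi]
    calc _ ≤ G.pr v W E (A i) * G.pr v W E (fun ω => ∀ j ∈ T, A j ω) :=
          mul_le_mul_of_nonneg_left (ih fun j hj => hA j (mem_insert_of_mem hj)) (pr_nonneg hv)
      _ ≤ _ := pr_fkg hv (hA i (mem_insert_self _ _)) h1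
      _ = _ := pr_congr fun ω _ => by simp

/-- FKG for finitely many decreasing events. -/
lemma pr_fkg_prod_decr (hv : ∀ e, 0 ≤ v e) {κ : Type*} (T : Finset κ) {A : κ → Finset ι → Prop}
    (hA : ∀ i ∈ T, Decr E (A i)) :
    ∏ i ∈ T, G.pr v W E (A i) ≤ G.pr v W E (fun ω => ∀ i ∈ T, A i ω) := by
  induction T using Finset.induction_on with
  | empty => rw [prod_empty, pr_true hv (by simp)]
  | insert i T hi ih =>
    have h1 : Decr E fun ω => ∀ j ∈ T, A j ω :=
      fun a b k l m j hj => hA j (mem_insert_of_mem hj) a b k l (m j hj)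
    rw [prod_insert hi]
    calc _ ≤ G.pr v W E (A i) * G.pr v W E (fun ω => ∀ j ∈ T, A j ω) :=
          mul_le_mul_of_nonneg_left (ih fun j hj => hA j (mem_insert_of_mem hj)) (pr_nonneg hv)
      _ ≤ _ := pr_fkg_decr hv (hA i (mem_insert_self _ _)) h1
      _ = _ := pr_congr fun ω _ => by simp

end Gr

end

end Pool.Agent.MP_48a2f9_mp

end MrgPart0

-- ======== part 1: formerly Pool.Agent.MP_48a2f9_mp.FKMarkov
section MrgPart1

/-!
The domain Markov property, stopping sets, finite energy, the cluster of a source set.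
-/

open Finset

namespace Pool.Agent.MP_48a2f9_mp

noncomputable section
open Classical
set_option linter.unusedSectionVars false

variable {V ι : Type*} [DecidableEq ι]

lemma sum_powerset_split {E F : Finset ι} (hF : F ⊆ E) (g : Finset ι → ℝ) :
    ∑ ω ∈ E.powerset, g ω = ∑ ξ ∈ (E \ F).powerset, ∑ η ∈ F.powerset, g (ξ ∪ η) := by
  rw [← sum_product']
  refine sum_nbij' (fun ω => (ω \ F, ω ∩ F)) (fun p => p.1 ∪ p.2) ?_ ?_ ?_ ?_ ?_
  · intro ω hω
    simp only [mem_powerset, mem_product] at hω ⊢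
    exact ⟨sdiff_subset_sdiff hω subset_rfl, inter_subset_right⟩
  · intro p hp
    simp only [mem_powerset, mem_product] at hp ⊢
    exact union_subset (hp.1.trans sdiff_subset) (hp.2.trans hF)
  · intro ω _
    exact sdiff_union_inter ω F
  · intro p hp
    simp only [mem_powerset, mem_product] at hp
    have h1 : ∀ e ∈ p.1, e ∉ F := fun e he => (mem_sdiff.1 (hp.1 he)).2
    refine Prod.ext ?_ ?_
    · ext e
      simp only [mem_sdiff, mem_union]
      exact ⟨fun h => h.1.elim id fun k => absurd (hp.2 k) h.2, fun h => ⟨Or.inl h, h1 e h⟩⟩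
    · ext e
      simp only [mem_inter, mem_union]
      exact ⟨fun h => h.1.elim (fun k => absurd h.2 (h1 e k)) id, fun h => ⟨Or.inr h, hp.2 h⟩⟩
  · intro ω _
    rw [sdiff_union_inter]

namespace Gr

variable {G : Gr V ι} {v v' : ι → ℝ} {W W' : Eqv V} {E E' F : Finset ι}

/-- Domain Markov property, unnormalised. -/
lemma sm_split (hF : F ⊆ E) (f : Finset ι → ℝ) :
    G.sm v W E f = ∑ ξ ∈ (E \ F).powerset,
      G.wt v W ξ * G.sm v (G.conn W ξ) F (fun η => f (ξ ∪ η)) := by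
  unfold sm
  rw [sum_powerset_split hF]
  refine sum_congr rfl fun ξ hξ => ?_
  rw [mul_sum]
  refine sum_congr rfl fun η hη => ?_
  have : Disjoint ξ η := disjoint_left.2 fun e h k =>
    (mem_sdiff.1 (mem_powerset.1 hξ h)).2 (mem_powerset.1 hη k)
  rw [wt_union v W this, mul_assoc]

lemma union_sdiff_of {ξ η : Finset ι} (hξ : ξ ⊆ E \ F) (hη : η ⊆ F) : (ξ ∪ η) \ F = ξ := by
  ext e
  simp only [mem_sdiff, mem_union]
  exact ⟨fun h => h.1.elim id fun k => absurd (hη k) h.2,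
    fun h => ⟨Or.inl h, (mem_sdiff.1 (hξ h)).2⟩⟩

lemma union_inter_of {ξ η : Finset ι} (hξ : ξ ⊆ E \ F) (hη : η ⊆ F) : (ξ ∪ η) ∩ F = η := by
  ext e
  simp only [mem_inter, mem_union]
  exact ⟨fun h => h.1.elim (fun k => absurd h.2 (mem_sdiff.1 (hξ k)).2) id,
    fun h => ⟨Or.inr h, hη h⟩⟩

/-- Domain Markov property: resample the edges of `F` given the others. -/
lemma ex_tower (hv : ∀ e, 0 ≤ v e) (hF : F ⊆ E) (f : Finset ι → ℝ) :
    G.ex v W E f =
      G.ex v W E fun ω => G.ex v (G.conn W (ω \ F)) F fun η => f ((ω \ F) ∪ η) := by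
  show G.sm v W E f / _ = G.sm v W E _ / _
  congr 1
  rw [sm_split hF, sm_split hF]
  refine sum_congr rfl fun ξ hξ => ?_
  congr 1
  symm
  rw [sm_congr (g := fun _ => G.ex v (G.conn W ξ) F fun η => f (ξ ∪ η)) fun η hη => by
    rw [union_sdiff_of (mem_powerset.1 hξ) hη], sm_eq hv, sm_eq hv, ex_const hv]

/-- Domain Markov property with a factor that depends only on the edges outside `F`. -/
lemma ex_tower_mul (hv : ∀ e, 0 ≤ v e) (hF : F ⊆ E) (g f : Finset ι → ℝ) :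
    G.ex v W E (fun ω => g (ω \ F) * f ω) =
      G.ex v W E fun ω => g (ω \ F) * G.ex v (G.conn W (ω \ F)) F fun η => f ((ω \ F) ∪ η) := by
  rw [ex_tower hv hF]
  refine ex_congr fun ω hω => ?_
  rw [← ex_const_mul]
  refine ex_congr fun η hη => ?_
  rw [union_sdiff_of (sdiff_subset_sdiff hω subset_rfl) hη]

/-- A bound valid for every boundary condition on `F` passes to conditional expectations. -/
lemma ex_mul_le_of_bc (hv : ∀ e, 0 ≤ v e) (hF : F ⊆ E) {g f : Finset ι → ℝ} {c : ℝ}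
    (hg : ∀ ξ ⊆ E \ F, 0 ≤ g ξ)
    (h : ∀ ξ ⊆ E \ F, g ξ ≠ 0 → G.ex v (G.conn W ξ) F (fun η => f (ξ ∪ η)) ≤ c) :
    G.ex v W E (fun ω => g (ω \ F) * f ω) ≤ c * G.ex v W E fun ω => g (ω \ F) := by
  rw [ex_tower_mul hv hF, ← ex_const_mul]
  refine ex_mono hv fun ω hω => ?_
  have h1 : ω \ F ⊆ E \ F := sdiff_subset_sdiff hω subset_rfl
  by_cases h0 : g (ω \ F) = 0
  · simp [h0]
  · rw [mul_comm c]
    exact mul_le_mul_of_nonneg_left (h _ h1 h0) (hg _ h1)

lemma le_ex_mul_of_bc (hv : ∀ e, 0 ≤ v e) (hF : F ⊆ E) {g f : Finset ι → ℝ} {c : ℝ}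
    (hg : ∀ ξ ⊆ E \ F, 0 ≤ g ξ)
    (h : ∀ ξ ⊆ E \ F, g ξ ≠ 0 → c ≤ G.ex v (G.conn W ξ) F (fun η => f (ξ ∪ η))) :
    c * G.ex v W E (fun ω => g (ω \ F)) ≤ G.ex v W E (fun ω => g (ω \ F) * f ω) := by
  rw [ex_tower_mul hv hF, ← ex_const_mul]
  refine ex_mono hv fun ω hω => ?_
  have h1 : ω \ F ⊆ E \ F := sdiff_subset_sdiff hω subset_rfl
  by_cases h0 : g (ω \ F) = 0
  · simp [h0]
  · rw [mul_comm c]
    exact mul_le_mul_of_nonneg_left (h _ h1 h0) (hg _ h1)

/-- An increasing function of the edges in `F` is dominated by its mean for any boundary condition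
`W'` that wires the endpoints of `F` at least as much as the outside can. -/
lemma ex_le_of_wired (hv : ∀ e, 0 ≤ v e) {S : Set V}
    (hS : ∀ e ∈ F, G.s e ∈ S ∧ G.t e ∈ S)
    (hW : ∀ x ∈ S, ∀ y ∈ S, G.conn W (E \ F) x y → W' x y) {f : Finset ι → ℝ} (hf : MonoIn F f)
    {ξ : Finset ι} (hξ : ξ ⊆ E \ F) : G.ex v (G.conn W ξ) F f ≤ G.ex v W' F f := by
  let R : Eqv V := ⟨fun x y => x = y ∨ (x ∈ S ∧ y ∈ S ∧ G.conn W ξ x y), fun _ => Or.inl rfl, by
    rintro x y (h | h)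
    exacts [Or.inl h.symm, Or.inr ⟨h.2.1, h.1, (G.conn W ξ).symm' h.2.2⟩], by
    rintro x y z (rfl | h) (rfl | k)
    exacts [Or.inl rfl, Or.inr k, Or.inr h, Or.inr ⟨h.1, k.2.1, (G.conn W ξ).trans' h.2.2 k.2.2⟩]⟩
  have h1 : G.ex v (G.conn W ξ) F f = G.ex v R F f := by
    refine ex_local v (S := S) (fun x hx y hy => ⟨fun h => Or.inr ⟨hx, hy, h⟩, ?_⟩) hS f
    rintro (rfl | h)
    exacts [(G.conn W ξ).refl' x, h.2.2]
  rw [h1]
  refine holley hv hv ?_ subset_rfl (fun _ _ => le_rfl) hf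
  rintro x y (rfl | h)
  exacts [W'.refl' x, hW x h.1 y h.2.1 (conn_mono le_rfl hξ h.2.2)]

/-- `T` is a stopping set on `E`: the event `T ω = A` depends only on the edges in `A`. -/
def Stopping (E : Finset ι) (T : Finset ι → Finset ι) : Prop :=
  ∀ ω ⊆ E, ∀ ω' ⊆ E, ω ∩ T ω = ω' ∩ T ω → T ω' = T ω

/-- Strong Markov property: resample the edges outside a stopping set. -/
lemma ex_stopping (hv : ∀ e, 0 ≤ v e) {T : Finset ι → Finset ι} (hT : Stopping E T)
    (f : Finset ι → ℝ) :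
    G.ex v W E f = G.ex v W E fun ω =>
      G.ex v (G.conn W (ω ∩ T ω)) (E \ T ω) fun η => f ((ω ∩ T ω) ∪ η) := by
  have dec : ∀ h : Finset ι → ℝ, G.ex v W E h =
      ∑ A ∈ E.powerset.image T, G.ex v W E fun ω => ind (T ω = A) * h ω := by
    intro h
    rw [← ex_sum]
    refine ex_congr fun ω hω => ?_
    rw [sum_eq_single (T ω)]
    · simp
    · intro A _ hA
      rw [ind_neg (Ne.symm hA), zero_mul]
    · intro k
      exact absurd (mem_image_of_mem T (mem_powerset.2 hω)) k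
  rw [dec f, dec]
  refine sum_congr rfl fun A _ => ?_
  have e1 : ∀ ω ⊆ E, ω \ (E \ A) = ω ∩ A := by
    intro ω hω
    ext e
    simp only [mem_sdiff, mem_inter]
    exact ⟨fun h => ⟨h.1, by_contra fun k => h.2 ⟨hω h.1, k⟩⟩, fun h => ⟨h.1, fun k => k.2 h.2⟩⟩
  have e2 : ∀ ω ⊆ E, (T ω = A ↔ T (ω ∩ A) = A) := by
    intro ω hω
    have h1 : ω ∩ A ⊆ E := inter_subset_left.trans hω
    constructor
    · intro h
      rw [hT ω hω _ h1 (by rw [h, inter_assoc, inter_self]), h]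
    · intro h
      rw [hT _ h1 ω hω (by rw [h, inter_assoc, inter_self]), h]
  rw [ex_congr (g := fun ω => ind (T (ω \ (E \ A)) = A) * f ω) fun ω hω => by
    rw [e1 ω hω, ind_congr (e2 ω hω)],
    ex_tower_mul hv sdiff_subset (fun ξ => ind (T ξ = A)) f]
  refine ex_congr fun ω hω => ?_
  rw [e1 ω hω, ← ind_congr (e2 ω hω)]
  by_cases h : T ω = A
  · rw [h]
  · rw [ind_neg h, zero_mul, zero_mul]

/-- One edge: the sum over configurations with `e` closed and with `e` open. -/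
lemma sm_edge {e : ι} (he : e ∈ E) (f : Finset ι → ℝ) :
    G.sm v W E f = ∑ ξ ∈ (E.erase e).powerset,
      (G.wt v W ξ * f ξ + G.wt v W (insert e ξ) * f (insert e ξ)) := by
  unfold sm
  conv_lhs => rw [← insert_erase he, sum_powerset_insert (notMem_erase e E), ← sum_add_distrib]

/-- Finite energy: opening costs at most the factor `v e`. -/
lemma ex_open_le (hv : ∀ e, 0 ≤ v e) {e : ι} (he : e ∈ E) {g : Finset ι → ℝ}
    (hg : ∀ ξ ⊆ E, 0 ≤ g ξ) :
    G.ex v W E (fun ω => ind (e ∈ ω) * g (ω.erase e)) ≤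
      v e * G.ex v W E (fun ω => ind (e ∉ ω) * g (ω.erase e)) := by
  rw [← ex_const_mul]
  refine div_le_div_of_nonneg_right ?_ (Z_pos hv W E).le
  rw [sm_edge he, sm_edge he]
  refine sum_le_sum fun ξ hξ => ?_
  have h1 : e ∉ ξ := fun k => notMem_erase e E (mem_powerset.1 hξ k)
  have h2 := mul_le_mul_of_nonneg_right (wt_insert_le (G := G) hv W h1)
    (hg ξ ((mem_powerset.1 hξ).trans (erase_subset e E)))
  simp only [h1, mem_insert_self, erase_insert h1, erase_eq_of_notMem h1, not_true, not_false_iff,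
    ind_true, ind_false]
  linarith

/-- Finite energy: opening gains at least the factor `v e / q`. -/
lemma le_ex_open (hv : ∀ e, 0 ≤ v e) {e : ι} (he : e ∈ E) {g : Finset ι → ℝ}
    (hg : ∀ ξ ⊆ E, 0 ≤ g ξ) :
    v e / G.q * G.ex v W E (fun ω => ind (e ∉ ω) * g (ω.erase e)) ≤
      G.ex v W E (fun ω => ind (e ∈ ω) * g (ω.erase e)) := by
  rw [← ex_const_mul]
  refine div_le_div_of_nonneg_right ?_ (Z_pos hv W E).le
  rw [sm_edge he, sm_edge he]
  refine sum_le_sum fun ξ hξ => ?_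
  have h1 : e ∉ ξ := fun k => notMem_erase e E (mem_powerset.1 hξ k)
  have h2 := mul_le_mul_of_nonneg_right (le_wt_insert (G := G) hv W h1)
    (hg ξ ((mem_powerset.1 hξ).trans (erase_subset e E)))
  simp only [h1, mem_insert_self, erase_insert h1, erase_eq_of_notMem h1, not_true, not_false_iff,
    ind_true, ind_false]
  linarith

lemma Z_mono_le (hv : ∀ e, 0 ≤ v e) (W : Eqv V) (E : Finset ι) :
    G.Z v W E ≤ ∏ e ∈ E, (1 + v e) := by
  rw [prod_one_add]
  refine sum_le_sum fun ω _ => ?_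
  exact mul_le_of_le_one_right (prod_nonneg fun e _ => hv e)
    (pow_le_one₀ (inv_nonneg.2 G.q_pos.le) (inv_le_one_of_one_le₀ G.hq))

/-- The probability of a single configuration. -/
lemma pr_eq_single {ω₀ : Finset ι} (h : ω₀ ⊆ E) :
    G.pr v W E (fun ω => ω = ω₀) = G.wt v W ω₀ / G.Z v W E := by
  unfold pr ex sm
  rw [sum_eq_single ω₀]
  · simp
  · intro ω _ k
    simp only [ind_neg k, mul_zero]
  · intro k
    exact absurd (mem_powerset.2 h) k

lemma pr_empty_ge (hv : ∀ e, 0 ≤ v e) (W : Eqv V) (E : Finset ι) :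
    (∏ e ∈ E, (1 + v e))⁻¹ ≤ G.pr v W E (fun ω => ω = ∅) := by
  rw [pr_eq_single (empty_subset E), wt_empty, one_div]
  exact inv_anti₀ (Z_pos hv W E) (Z_mono_le hv W E)

lemma wt_ge (hv : ∀ e, 0 ≤ v e) (W : Eqv V) (ω : Finset ι) :
    ∏ e ∈ ω, v e / G.q ≤ G.wt v W ω := by
  rw [prod_div_distrib, prod_const, div_eq_mul_inv, ← inv_pow]
  exact mul_le_mul_of_nonneg_left (pow_le_pow_of_le_one (inv_nonneg.2 G.q_pos.le)
    (inv_le_one_of_one_le₀ G.hq) (rk_le_card W ω)) (prod_nonneg fun e _ => hv e)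

lemma pr_single_ge (hv : ∀ e, 0 ≤ v e) (W : Eqv V) {ω₀ : Finset ι} (h : ω₀ ⊆ E) :
    (∏ e ∈ ω₀, v e / G.q) * (∏ e ∈ E, (1 + v e))⁻¹ ≤ G.pr v W E (fun ω => ω = ω₀) := by
  rw [pr_eq_single h, div_eq_mul_inv]
  exact mul_le_mul (wt_ge hv W ω₀) (inv_anti₀ (Z_pos hv W E) (Z_mono_le hv W E))
    (inv_nonneg.2 (prod_nonneg fun e _ => by linarith [hv e])) (wt_nonneg hv W ω₀)

/-- Finite energy: prescribing the configuration on `F`, given the rest. -/
lemma finite_energy (hv : ∀ e, 0 ≤ v e) (hF : F ⊆ E) {γ : Finset ι} (hγ : γ ⊆ F)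
    {g : Finset ι → ℝ} (hg : ∀ ξ ⊆ E \ F, 0 ≤ g ξ) :
    (∏ e ∈ γ, v e / G.q) * (∏ e ∈ F, (1 + v e))⁻¹ * G.ex v W E (fun ω => g (ω \ F)) ≤
      G.ex v W E (fun ω => g (ω \ F) * ind (ω ∩ F = γ)) := by
  refine le_ex_mul_of_bc hv hF hg fun ξ hξ _ => 
    (pr_single_ge hv (G.conn W ξ) hγ).trans_eq ?_
  exact ex_congr fun η hη => by rw [union_inter_of hξ hη]

/-- The probability that the configuration on `F` equals `γ`. -/
lemma pr_inter_eq (hF : F ⊆ E) {γ : Finset ι} (hγ : γ ⊆ F) (g : Finset ι → ℝ) :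
    G.sm v W E (fun ω => ind (ω ∩ F = γ) * g (ω \ F)) =
      G.wt v W γ * G.sm v (G.conn W γ) (E \ F) g := by
  rw [sm_split (F := E \ F) sdiff_subset, sum_eq_single γ]
  · congr 1
    refine sm_congr fun η hη => ?_
    rw [union_comm, union_inter_of hη hγ, union_sdiff_of hη hγ]
    simp
  · intro ξ hξ k
    rw [Finset.sdiff_sdiff_eq_self hF, mem_powerset] at hξ
    rw [sm_congr (g := fun _ => 0) fun η hη => by
      rw [union_comm, union_inter_of hη hξ, ind_neg k, zero_mul]]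
    simp [sm]
  · intro k
    rw [Finset.sdiff_sdiff_eq_self hF, mem_powerset] at k
    exact absurd hγ k

lemma pr_closed_eq (hF : F ⊆ E) :
    G.pr v W E (fun ω => ω ∩ F = ∅) = G.Z v W (E \ F) / G.Z v W E := by
  have := pr_inter_eq (G := G) (v := v) (W := W) hF (empty_subset F) fun _ => 1
  simp only [mul_one, wt_empty, conn_empty, one_mul, sm_one] at this
  unfold pr ex
  rw [this]

variable (G)

/-- The edges of `E` with an endpoint in `S`. -/
def touch (E : Finset ι) (S : Set V) : Finset ι := E.filter fun e => G.s e ∈ S ∨ G.t e ∈ S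

/-- The cluster of the source set `K`. -/
def clus (W : Eqv V) (K : Set V) (ω : Finset ι) : Set V := {x | ∃ k ∈ K, G.conn W ω k x}

variable {G} {K : Set V}

lemma mem_touch {S : Set V} {e : ι} : e ∈ G.touch E S ↔ e ∈ E ∧ (G.s e ∈ S ∨ G.t e ∈ S) :=
  mem_filter

lemma touch_subset (E : Finset ι) (S : Set V) : G.touch E S ⊆ E := filter_subset _ _

lemma touch_mono {S S' : Set V} (hE : E ⊆ E') (hS : S ⊆ S') : G.touch E S ⊆ G.touch E' S' :=
  fun _ he => mem_touch.2 ⟨hE (mem_touch.1 he).1, (mem_touch.1 he).2.imp (@hS _) (@hS _)⟩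

lemma subset_clus (W : Eqv V) (K : Set V) (ω : Finset ι) : K ⊆ G.clus W K ω :=
  fun k hk => ⟨k, hk, (G.conn W ω).refl' k⟩

lemma clus_mono {K K' : Set V} {ω ω' : Finset ι} (hW : W ≤ W') (hK : K ⊆ K') (hω : ω ⊆ ω') :
    G.clus W K ω ⊆ G.clus W' K' ω' :=
  fun _ ⟨k, hk, h⟩ => ⟨k, hK hk, conn_mono hW hω h⟩

lemma clus_conn {ω : Finset ι} {x y : V} (hx : x ∈ G.clus W K ω) (h : G.conn W ω x y) :
    y ∈ G.clus W K ω := by
  obtain ⟨k, hk, hx⟩ := hx
  exact ⟨k, hk, (G.conn W ω).trans' hx h⟩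

lemma clus_edge {ω : Finset ι} {e : ι} (he : e ∈ ω) :
    G.s e ∈ G.clus W K ω ↔ G.t e ∈ G.clus W K ω :=
  ⟨fun h => clus_conn h (conn_edge W he), fun h => clus_conn h ((G.conn W ω).symm' (conn_edge W he))⟩

/-- The cluster is determined by the edges that touch it. -/
lemma clus_eq_of_inter {ω ω' : Finset ι} (hω : ω ⊆ E) (hω' : ω' ⊆ E)
    (h : ω ∩ G.touch E (G.clus W K ω) = ω' ∩ G.touch E (G.clus W K ω)) :
    G.clus W K ω' = G.clus W K ω := by
  have key : ∀ e, (G.s e ∈ G.clus W K ω ∨ G.t e ∈ G.clus W K ω) → (e ∈ ω ↔ e ∈ ω') := by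
    intro e he
    have := Finset.ext_iff.1 h e
    simp only [mem_inter, mem_touch] at this
    exact ⟨fun k => (this.1 ⟨k, hω k, he⟩).1, fun k => (this.2 ⟨k, hω' k, he⟩).1⟩
  apply Set.Subset.antisymm
  · rintro x ⟨k, hk, hx⟩
    refine conn_invariant (P := fun y => y ∈ G.clus W K ω) (fun a b h1 h2 => clus_conn h2
      (le_conn W ω h1)) (fun e he => ?_) hx (subset_clus W K ω hk)
    exact ⟨fun l => (clus_edge ((key e (Or.inl l)).2 he)).1 l,
      fun l => (clus_edge ((key e (Or.inr l)).2 he)).2 l⟩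
  · rintro x ⟨k, hk, hx⟩
    have := conn_invariant (P := fun y => y ∈ G.clus W K ω ∧ y ∈ G.clus W K ω')
      (fun a b h1 h2 => ⟨clus_conn h2.1 (le_conn W ω h1), clus_conn h2.2 (le_conn W ω' h1)⟩)
      (fun e he => ⟨fun l => ⟨(clus_edge he).1 l.1, (clus_edge ((key e (Or.inl l.1)).1 he)).1 l.2⟩,
        fun l => ⟨(clus_edge he).2 l.1, (clus_edge ((key e (Or.inr l.1)).1 he)).2 l.2⟩⟩) hx
      ⟨subset_clus W K ω hk, subset_clus W K ω' hk⟩
    exact this.2

lemma stopping_clus (W : Eqv V) (K : Set V) (E : Finset ι) :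
    Stopping E fun ω => G.touch E (G.clus W K ω) :=
  fun _ hω _ hω' h => by
    show G.touch E _ = G.touch E _
    rw [clus_eq_of_inter hω hω' h]

lemma clus_inter_touch {ω : Finset ι} (hω : ω ⊆ E) :
    G.clus W K (ω ∩ G.touch E (G.clus W K ω)) = G.clus W K ω :=
  clus_eq_of_inter hω (inter_subset_left.trans hω) (by rw [inter_assoc, inter_self])

/-- Outside the cluster of `K`, the edges touching the cluster create no connection. -/
lemma conn_touch_iff {ω : Finset ι} {x y : V} (hx : x ∉ G.clus W K ω) :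
    G.conn W (ω ∩ G.touch E (G.clus W K ω)) x y ↔ W x y := by
  refine ⟨fun h => ?_, fun h => le_conn W _ h⟩
  refine conn_invariant (P := fun z => W x z) (fun a b h1 h2 => W.trans' h2 h1) (fun e he => ?_) h
    (W.refl' x)
  obtain ⟨h1, h2⟩ := mem_inter.1 he
  have h3 := (mem_touch.1 h2).2
  have h4 := clus_edge (G := G) (W := W) (K := K) h1
  have h5 : ∀ z ∈ G.clus W K ω, ¬ W x z := fun z hz k =>
    hx (clus_conn hz (le_conn W ω (W.symm' k)))
  exact ⟨fun k => absurd k (h5 _ (by tauto)), fun k => absurd k (h5 _ (by tauto))⟩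

/-- Markov property at the cluster of `K`: outside the edges touching the cluster, the
configuration has the FK law of the remaining edges with the original boundary condition. -/
lemma ex_clus (hv : ∀ e, 0 ≤ v e) (K : Set V) (f : Finset ι → ℝ) :
    G.ex v W E f = G.ex v W E fun ω => G.ex v W (E \ G.touch E (G.clus W K ω))
      fun η => f ((ω ∩ G.touch E (G.clus W K ω)) ∪ η) := by
  rw [ex_stopping hv (stopping_clus W K E)]
  refine ex_congr fun ω _ => ?_
  refine ex_local v (S := (G.clus W K ω)ᶜ) (fun x hx y _ => conn_touch_iff hx) (fun e he => ?_) _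
  have := mem_sdiff.1 he
  rw [mem_touch] at this
  exact ⟨fun k => this.2 ⟨this.1, Or.inl k⟩, fun k => this.2 ⟨this.1, Or.inr k⟩⟩

end Gr

end

end Pool.Agent.MP_48a2f9_mp

end MrgPart1

-- marker of a merged file
example : 731051 + 52376 = 731051 + 52376 := rfl

end MrgPart1

-- ======== part 2: formerly Pool.Agent.MP_48a2f9_mp.FKSpinES
section MrgPart2

-- ======== part 0: formerly Pool.Agent.MP_48a2f9_mp.FKSpinRP
section MrgPart0

/-!
Spin configurations in finite volume and reflection positivity for the Potts model.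
-/

open Finset

namespace Pool.Agent.MP_48a2f9_mp

noncomputable section
open Classical

/-- Cauchy-Schwarz for a product of kernels `α + γ δ`. -/
lemma kernel_cs {I C X K : Type*} [Fintype C] [Fintype K] (U : Finset I) (α γ : I → ℝ)
    (hα : ∀ u, 0 ≤ α u) (hγ : ∀ u, 0 ≤ γ u) (S : Finset X) (ev : X → I → C) (f g : K → X → ℝ) :
    (∑ s ∈ S, ∑ t ∈ S, (∏ u ∈ U, (α u + γ u * if ev s u = ev t u then 1 else 0)) *
        ∑ k, f k s * g k t) ^ 2 ≤
      (∑ s ∈ S, ∑ t ∈ S, (∏ u ∈ U, (α u + γ u * if ev s u = ev t u then 1 else 0)) *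
        ∑ k, f k s * f k t) *
      (∑ s ∈ S, ∑ t ∈ S, (∏ u ∈ U, (α u + γ u * if ev s u = ev t u then 1 else 0)) *
        ∑ k, g k s * g k t) := by
  let φ : I → Option C → C → ℝ := fun u j c =>
    match j with
    | none => √(α u)
    | some c' => √(γ u) * if c = c' then 1 else 0
  have h1 : ∀ u a b, (α u + γ u * if a = b then 1 else 0) = ∑ j, φ u j a * φ u j b := by
    intro u a b
    rw [Fintype.sum_option]
    simp only [φ, Real.mul_self_sqrt (hα u)]
    congr 1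
    rw [sum_eq_single a]
    · by_cases h : a = b
      · simp [h, Real.mul_self_sqrt (hγ u)]
      · simp [h, Ne.symm h]
    · intro c _ hc
      simp [Ne.symm hc]
    · simp
  let Φ : (U → Option C) → X → ℝ := fun j s => ∏ u : U, φ u (j u) (ev s u)
  have h2 : ∀ s t, (∏ u ∈ U, (α u + γ u * if ev s u = ev t u then 1 else 0)) =
      ∑ j, Φ j s * Φ j t := by
    intro s t
    rw [← prod_coe_sort U]
    simp only [h1]
    rw [Fintype.prod_sum]
    simp only [Φ, prod_mul_distrib]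
  have h3 : ∀ f g : K → X → ℝ, (∑ s ∈ S, ∑ t ∈ S,
      (∏ u ∈ U, (α u + γ u * if ev s u = ev t u then 1 else 0)) * ∑ k, f k s * g k t) =
      ∑ p : (U → Option C) × K, (∑ s ∈ S, Φ p.1 s * f p.2 s) * (∑ s ∈ S, Φ p.1 s * g p.2 s) := by
    intro f g
    simp only [h2, sum_mul_sum, Fintype.sum_prod_type]
    symm
    calc ∑ j, ∑ k, ∑ s ∈ S, ∑ t ∈ S, Φ j s * f k s * (Φ j t * g k t)
        = ∑ j, ∑ s ∈ S, ∑ t ∈ S, ∑ k, Φ j s * f k s * (Φ j t * g k t) := by
          refine sum_congr rfl fun j _ => ?_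
          rw [sum_comm]
          exact sum_congr rfl fun s _ => sum_comm
      _ = ∑ s ∈ S, ∑ t ∈ S, ∑ j, ∑ k, Φ j s * f k s * (Φ j t * g k t) := by
          rw [sum_comm]
          exact sum_congr rfl fun s _ => sum_comm
      _ = _ := by
          refine sum_congr rfl fun s _ => sum_congr rfl fun t _ => sum_congr rfl fun j _ =>
            sum_congr rfl fun k _ => by ring
  rw [h3, h3, h3]
  simp only [← sq]
  exact sum_mul_sq_le_sq_mul_sq _ _ _

variable {V C : Type*} [Fintype C]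

/-- The configurations equal to `τ` outside `Λ`. -/
def fill (Λ : Finset V) (τ : V → C) : Finset (V → C) :=
  univ.image fun (s : Λ → C) x => if h : x ∈ Λ then s ⟨x, h⟩ else τ x

lemma mem_fill {Λ : Finset V} {τ σ : V → C} : σ ∈ fill Λ τ ↔ ∀ x ∉ Λ, σ x = τ x := by
  simp only [fill, mem_image, mem_univ, true_and]
  constructor
  · rintro ⟨s, rfl⟩ x hx
    simp [hx]
  · intro h
    refine ⟨fun x => σ x, funext fun x => ?_⟩
    by_cases hx : x ∈ Λ
    · simp [hx]
    · simp [hx, h x hx]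

/-- The weight of one edge. -/
def ew (r : Sym2 V → ℝ) (σ : V → C) (e : Sym2 V) : ℝ :=
  1 + r e * if (e.map σ).IsDiag then 1 else 0

/-- The Potts weight of a configuration. -/
def pw (r : Sym2 V → ℝ) (E : Finset (Sym2 V)) (σ : V → C) : ℝ := ∏ e ∈ E, ew r σ e

omit [Fintype C] in
lemma ew_pos {r : Sym2 V → ℝ} (hr : ∀ e, 0 ≤ r e) (σ : V → C) (e : Sym2 V) : 0 < ew r σ e := by
  unfold ew
  have := hr e
  split_ifs <;> linarith

omit [Fintype C] in
lemma pw_pos {r : Sym2 V → ℝ} (hr : ∀ e, 0 ≤ r e) (E : Finset (Sym2 V)) (σ : V → C) :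
    0 < pw r E σ := prod_pos fun e _ => ew_pos hr σ e

omit [Fintype C] in
lemma ew_congr {r : Sym2 V → ℝ} {σ σ' : V → C} {e : Sym2 V} (h : ∀ x ∈ e, σ x = σ' x) :
    ew r σ e = ew r σ' e := by
  unfold ew
  rw [Sym2.map_congr h]

/-- The truncated two-point sum. -/
def tp (r : Sym2 V → ℝ) (E : Finset (Sym2 V)) (Λ : Finset V) (τ : V → C) (x y : V) : ℝ :=
  ∑ σ ∈ fill Λ τ, pw r E σ * ((if σ x = σ y then 1 else 0) - 1 / Fintype.card C)

lemma sum_delta [Nonempty C] (a b : C) :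
    ∑ c : C, ((if a = c then 1 else 0) - 1 / (Fintype.card C : ℝ)) *
      ((if b = c then 1 else 0) - 1 / (Fintype.card C : ℝ)) =
      (if a = b then 1 else 0) - 1 / (Fintype.card C : ℝ) := by
  have hq : (Fintype.card C : ℝ) ≠ 0 := by positivity
  simp only [sub_mul, mul_sub, sum_sub_distrib, ite_mul, mul_ite, one_mul, zero_mul, mul_one,
    mul_zero, sum_ite_eq, mem_univ, if_true, sum_const, card_univ, nsmul_eq_mul]
  field_simp
  ring

lemma sum_fill_halves {Λ H : Finset V} {θ : V → V} (hθ : ∀ x, θ (θ x) = x)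
    (hΛ : ∀ x, x ∈ Λ ↔ x ∈ H ∨ θ x ∈ H) (hP : ∀ x ∈ H, θ x ∈ H → θ x = x)
    (τ : V → C) (Φ : (V → C) → ℝ) :
    ∑ σ ∈ fill Λ τ, Φ σ = ∑ s ∈ fill H τ, ∑ t ∈ fill H τ,
      if ∀ u ∈ H, θ u ∈ H → s u = t u then
        Φ fun x => if x ∈ H then s x else if θ x ∈ H then t (θ x) else τ x else 0 := by
  rw [← sum_product', ← sum_filter]
  refine sum_nbij' (fun σ => (fun x => if x ∈ H then σ x else τ x,
    fun x => if x ∈ H then σ (θ x) else τ x))
    (fun p x => if x ∈ H then p.1 x else if θ x ∈ H then p.2 (θ x) else τ x) ?_ ?_ ?_ ?_ ?_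
  · intro σ _
    simp only [mem_filter, mem_product, mem_fill]
    refine ⟨⟨fun x hx => by simp [hx], fun x hx => by simp [hx]⟩, fun u hu hu' => ?_⟩
    simp [hu, hP u hu hu']
  · intro p _
    rw [mem_fill]
    intro x hx
    rw [hΛ, not_or] at hx
    simp [hx.1, hx.2]
  · intro σ hσ
    funext x
    by_cases h1 : x ∈ H
    · simp [h1]
    · by_cases h2 : θ x ∈ H
      · simp [h1, h2, hθ]
      · simp only [h1, h2, if_false]
        exact (mem_fill.1 hσ x (by rw [hΛ]; tauto)).symm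
  · rintro ⟨s, t⟩ hp
    simp only [mem_filter, mem_product, mem_fill] at hp
    obtain ⟨⟨h1, h2⟩, h3⟩ := hp
    refine Prod.ext (funext fun x => ?_) (funext fun x => ?_)
    · by_cases hx : x ∈ H
      · simp [hx]
      · simp [hx, h1 x hx]
    · by_cases hx : x ∈ H
      · by_cases hx' : θ x ∈ H
        · simp [hx, hP x hx hx', h3 x hx hx']
        · simp [hx, hx', hθ]
      · simp [hx, h2 x hx]
  · intro σ hσ
    congr 1
    funext x
    by_cases h1 : x ∈ H
    · simp [h1]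
    · by_cases h2 : θ x ∈ H
      · simp [h1, h2, hθ]
      · simp only [h1, h2, if_false]
        exact mem_fill.1 hσ x (by rw [hΛ]; tauto)

omit [Fintype C] in
lemma pw_halves {r : Sym2 V → ℝ} (hr : ∀ e, 0 ≤ r e) {E : Finset (Sym2 V)}
    {H : Finset V} {θ : V → V} (hθ : ∀ x, θ (θ x) = x) (hP : ∀ x ∈ H, θ x ∈ H → θ x = x)
    (hE : ∀ e ∈ E, e.map θ ∈ E) (hrθ : ∀ e, r (e.map θ) = r e)
    (hin : ∀ e ∈ E, (∀ x ∈ e, x ∈ H) ∨ (∀ x ∈ e, θ x ∈ H) ∨ ∃ u ∈ H, θ u ∉ H ∧ e = s(u, θ u)) :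
    ∃ a : (V → C) → ℝ, ∀ σ s t : V → C, (∀ x ∈ H, σ x = s x) → (∀ x ∈ H, σ (θ x) = t x) →
      pw r E σ = a s * a t * ∏ u ∈ H with θ u ∉ H,
        (1 + (if s(u, θ u) ∈ E then r s(u, θ u) else 0) * if s u = t u then 1 else 0) := by
  let A : Sym2 V → Prop := fun e => ∀ x ∈ e, x ∈ H
  let B : Sym2 V → Prop := fun e => ∀ x ∈ e, θ x ∈ H
  have hmap : ∀ e : Sym2 V, (e.map θ).map θ = e := fun e => by
    rw [Sym2.map_map, show θ ∘ θ = id from funext hθ, Sym2.map_id, id]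
  have hA : ∀ e, A (e.map θ) ↔ B e := fun e => by simp [A, B, Sym2.mem_map]
  have hB : ∀ e, B (e.map θ) ↔ A e := fun e => by rw [← hA, hmap]
  refine ⟨fun s => √(pw r (E.filter fun e => A e ∧ B e) s) *
    pw r (E.filter fun e => A e ∧ ¬ B e) s, fun σ s t hs ht => ?_⟩
  have e0 : pw r E σ = pw r (E.filter fun e => A e ∧ B e) σ * pw r (E.filter fun e => A e ∧ ¬ B e) σ *
      (pw r (E.filter fun e => ¬ A e ∧ B e) σ * pw r (E.filter fun e => ¬ A e ∧ ¬ B e) σ) := by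
    unfold pw
    rw [← prod_filter_mul_prod_filter_not E A, ← prod_filter_mul_prod_filter_not (E.filter A) B,
      ← prod_filter_mul_prod_filter_not (E.filter fun e => ¬ A e) B]
    simp only [filter_filter]
  have e1 : pw r (E.filter fun e => A e ∧ B e) σ = pw r (E.filter fun e => A e ∧ B e) s :=
    prod_congr rfl fun e he => ew_congr fun x hx => hs x ((mem_filter.1 he).2.1 x hx)
  have e1' : pw r (E.filter fun e => A e ∧ B e) σ = pw r (E.filter fun e => A e ∧ B e) t :=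
    prod_congr rfl fun e he => ew_congr fun x hx => by
      have h1 := (mem_filter.1 he).2.1 x hx
      rw [← ht x h1, hP x h1 ((mem_filter.1 he).2.2 x hx)]
  have e2 : pw r (E.filter fun e => A e ∧ ¬ B e) σ = pw r (E.filter fun e => A e ∧ ¬ B e) s :=
    prod_congr rfl fun e he => ew_congr fun x hx => hs x ((mem_filter.1 he).2.1 x hx)
  have e3 : pw r (E.filter fun e => ¬ A e ∧ B e) σ = pw r (E.filter fun e => A e ∧ ¬ B e) t := by
    unfold pw
    refine prod_nbij' (Sym2.map θ) (Sym2.map θ) ?_ ?_ (fun e _ => hmap e) (fun e _ => hmap e) ?_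
    · intro e he
      rw [mem_filter] at he ⊢
      exact ⟨hE e he.1, (hA e).2 he.2.2, fun h => he.2.1 ((hB e).1 h)⟩
    · intro e he
      rw [mem_filter] at he ⊢
      exact ⟨hE e he.1, fun h => he.2.2 ((hA e).1 h), (hB e).2 he.2.1⟩
    · intro e he
      unfold ew
      rw [hrθ, Sym2.map_map, Sym2.map_congr (f := σ) (g := t ∘ θ) fun x hx => by
        simp [← ht _ ((mem_filter.1 he).2.2 x hx), hθ]]
  have e4 : pw r (E.filter fun e => ¬ A e ∧ ¬ B e) σ = ∏ u ∈ H with θ u ∉ H,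
      (1 + (if s(u, θ u) ∈ E then r s(u, θ u) else 0) * if s u = t u then 1 else 0) := by
    rw [← prod_filter_mul_prod_filter_not _ fun u => s(u, θ u) ∈ E,
      prod_eq_one (s := filter (fun u => ¬ s(u, θ u) ∈ E) _) fun u hu => by
        simp [(mem_filter.1 hu).2], mul_one]
    unfold pw
    symm
    refine prod_nbij (fun u => s(u, θ u)) ?_ ?_ ?_ ?_
    · intro u hu
      simp only [mem_filter] at hu ⊢
      exact ⟨hu.2, fun h => hu.1.2 (h _ (by simp)), fun h => hu.1.2 (h _ (by simp))⟩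
    · intro u hu v hv h
      simp only [coe_filter, mem_filter, Set.mem_ofPred_eq] at hu hv
      rcases Sym2.eq_iff.1 h with h | h
      · exact h.1
      · exact absurd (h.1 ▸ hu.1.1) hv.1.2
    · intro e he
      simp only [coe_filter, Set.mem_ofPred_eq] at he
      rcases hin e he.1 with h | h | ⟨u, hu, hu', rfl⟩
      · exact absurd h he.2.1
      · exact absurd h he.2.2
      · exact ⟨u, by simp [hu, hu', he.1], rfl⟩
    · intro u hu
      simp only [mem_filter] at hu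
      simp [ew, hu.2, hs u hu.1.1, ht u hu.1.1]
  have h0 := (pw_pos hr (E.filter fun e => A e ∧ B e) σ).le
  rw [e0, e2, e3, e4]
  beta_reduce
  rw [← e1, ← e1']
  nth_rewrite 1 [← Real.mul_self_sqrt h0]
  ring

/-- Reflection positivity. `H` is one half of `Λ`, `θ` the reflection. -/
theorem reflection [Nonempty C] {r : Sym2 V → ℝ} (hr : ∀ e, 0 ≤ r e) {E : Finset (Sym2 V)}
    {Λ H : Finset V} {θ : V → V} (hθ : ∀ x, θ (θ x) = x)
    (hΛ : ∀ x, x ∈ Λ ↔ x ∈ H ∨ θ x ∈ H) (hP : ∀ x ∈ H, θ x ∈ H → θ x = x)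
    (hE : ∀ e ∈ E, e.map θ ∈ E) (hrθ : ∀ e, r (e.map θ) = r e)
    (hin : ∀ e ∈ E, (∀ x ∈ e, x ∈ H) ∨ (∀ x ∈ e, θ x ∈ H) ∨ ∃ u ∈ H, θ u ∉ H ∧ e = s(u, θ u))
    (τ : V → C) {x y : V} (hx : x ∈ H) (hy : y ∈ H) :
    tp r E Λ τ x (θ y) ^ 2 ≤ tp r E Λ τ x (θ x) * tp r E Λ τ y (θ y) := by
  obtain ⟨a, ha⟩ := pw_halves (C := C) hr hθ hP hE hrθ hin
  let α : V → ℝ := fun u => if θ u ∈ H then 0 else 1
  let γ : V → ℝ := fun u => if θ u ∈ H then 1 else if s(u, θ u) ∈ E then r s(u, θ u) else 0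
  let f : V → C → (V → C) → ℝ := fun x c s =>
    a s * ((if s x = c then 1 else 0) - 1 / (Fintype.card C : ℝ))
  have key : ∀ x ∈ H, ∀ y ∈ H, tp r E Λ τ x (θ y) = ∑ s ∈ fill H τ, ∑ t ∈ fill H τ,
      (∏ u ∈ H, (α u + γ u * if s u = t u then 1 else 0)) * ∑ c, f x c s * f y c t := by
    intro x hx y hy
    unfold tp
    rw [sum_fill_halves hθ hΛ hP]
    refine sum_congr rfl fun s _ => sum_congr rfl fun t _ => ?_
    by_cases h : ∀ u ∈ H, θ u ∈ H → s u = t u
    · rw [if_pos h]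
      have h2 : ∀ z ∈ H, (if θ z ∈ H then s (θ z) else if θ (θ z) ∈ H then t (θ (θ z))
          else τ (θ z)) = t z := by
        intro z hz
        by_cases hz' : θ z ∈ H
        · simp [hz, hP z hz hz', h z hz hz']
        · simp [hz', hθ, hz]
      rw [ha _ s t (fun z hz => by simp [hz]) h2]
      beta_reduce
      rw [h2 y hy, if_pos hx, ← sum_delta,
        ← prod_filter_mul_prod_filter_not H fun u => θ u ∈ H,
        prod_eq_one (s := filter (fun u => θ u ∈ H) H) fun u hu => by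
          simp [α, γ, (mem_filter.1 hu).2, h u (mem_filter.1 hu).1 (mem_filter.1 hu).2], one_mul,
        prod_congr rfl (g := fun u => α u + γ u * if s u = t u then 1 else 0) fun u hu => by
          simp [α, γ, (mem_filter.1 hu).2]]
      simp only [f, mul_sum]
      exact sum_congr rfl fun c _ => by ring
    · rw [if_neg h]
      push Not at h
      obtain ⟨u, hu, hu', hne⟩ := h
      rw [prod_eq_zero hu (by simp [α, hu', hne]), zero_mul]
  rw [key x hx y hy, key x hx x hx, key y hy y hy]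
  have := kernel_cs H α γ (fun u => by simp only [α]; split_ifs <;> norm_num)
    (fun u => by simp only [γ]; split_ifs <;> simp [hr]) (fill H τ) (fun s u => s u) (f x) (f y)
  beta_reduce at this
  exact this

end

end Pool.Agent.MP_48a2f9_mp

end MrgPart0

-- ======== part 1: formerly Pool.Agent.MP_48a2f9_mp.FKSpinES
section MrgPart1

/-!
The Edwards-Sokal coupling between Potts spins and the FK measure, in finite volume.
-/

open Finset

namespace Pool.Agent.MP_48a2f9_mp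

noncomputable section
open Classical

namespace Gr

section
variable {V ι C : Type*} [DecidableEq ι] {G : Gr V ι}

lemma conn_wire_iff {S : Set V} {ω : Finset ι} {a b : V} :
    G.conn (wire S) ω a b ↔ G.conn free ω a b ∨
      ((∃ a' ∈ S, G.conn free ω a a') ∧ ∃ b' ∈ S, G.conn free ω b b') := by
  constructor
  · let R : Eqv V := ⟨fun a b => G.conn free ω a b ∨
        ((∃ a' ∈ S, G.conn free ω a a') ∧ ∃ b' ∈ S, G.conn free ω b b'),
      fun a => Or.inl ((G.conn free ω).refl' a), by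
        rintro a b (h | h)
        exacts [Or.inl ((G.conn free ω).symm' h), Or.inr h.symm], by
        rintro a b c (h | ⟨h1, b', hb, h2⟩) (k | ⟨⟨b'', hb', k1⟩, k2⟩)
        · exact Or.inl ((G.conn free ω).trans' h k)
        · exact Or.inr ⟨⟨b'', hb', (G.conn free ω).trans' h k1⟩, k2⟩
        · exact Or.inr ⟨h1, b', hb, (G.conn free ω).trans' ((G.conn free ω).symm' k) h2⟩
        · exact Or.inr ⟨h1, k2⟩⟩
    have : G.conn (wire S) ω ≤ R := by
      refine conn_le_iff.2 ⟨?_, fun e he => Or.inl (conn_edge free he)⟩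
      rintro x y (rfl | h)
      · exact R.refl' x
      · exact Or.inr ⟨⟨x, h.1, (G.conn free ω).refl' x⟩, y, h.2, (G.conn free ω).refl' y⟩
    exact fun h => this h
  · have hm : G.conn free ω ≤ G.conn (wire S) ω := conn_mono (free_le _) subset_rfl
    rintro (h | ⟨⟨a', ha, h1⟩, b', hb, h2⟩)
    · exact hm h
    · exact (G.conn _ ω).trans' (hm h1) ((G.conn _ ω).trans' (le_conn _ ω (Or.inr ⟨ha, hb⟩))
        ((G.conn _ ω).symm' (hm h2)))

lemma mem_clus_wire {S : Set V} {ω : Finset ι} {x : V} :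
    x ∈ G.clus (wire S) S ω ↔ ∃ k ∈ S, G.conn free ω x k := by
  constructor
  · rintro ⟨k, hk, h⟩
    rcases conn_wire_iff.1 h with h | h
    exacts [⟨k, hk, (G.conn free ω).symm' h⟩, h.2]
  · rintro ⟨k, hk, h⟩
    exact ⟨k, hk, conn_wire_iff.2 (Or.inl ((G.conn free ω).symm' h))⟩

variable [Fintype C]

variable (G) in
/-- The colourings that are constant along the open edges. -/
def cmp (Λ : Finset V) (τ : V → C) (ω : Finset ι) : Finset (V → C) :=
  (fill Λ τ).filter fun σ => ∀ e ∈ ω, σ (G.s e) = σ (G.t e)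

variable {Λ : Finset V} {τ σ : V → C} {ω : Finset ι}

lemma mem_cmp : σ ∈ G.cmp Λ τ ω ↔ (∀ x ∉ Λ, σ x = τ x) ∧ ∀ e ∈ ω, σ (G.s e) = σ (G.t e) := by
  rw [cmp, mem_filter, mem_fill]

lemma cmp_conn (h : σ ∈ G.cmp Λ τ ω) {x y : V} (hc : G.conn free ω x y) : σ x = σ y :=
  conn_invariant (P := fun z => σ x = σ z) (fun _ _ h1 h2 => by rwa [← free_iff.1 h1])
    (fun e he => by rw [(mem_cmp.1 h).2 e he]) hc rfl

lemma cmp_anti {ω' : Finset ι} (h : ω ⊆ ω') : G.cmp Λ τ ω' ⊆ G.cmp Λ τ ω :=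
  fun _ k => mem_cmp.2 ⟨(mem_cmp.1 k).1, fun e he => (mem_cmp.1 k).2 e (h he)⟩

lemma card_cmp_filter {a : V} (ha : ∀ z, G.conn free ω a z → z ∈ Λ) (c : (V → C) → C)
    (hc : ∀ σ σ' : V → C, (∀ z, ¬ G.conn free ω a z → σ z = σ' z) → c σ = c σ') :
    #(G.cmp Λ τ ω) = Fintype.card C * #((G.cmp Λ τ ω).filter fun σ => σ a = c σ) := by
  let rc : C → (V → C) → V → C := fun k σ z => if G.conn free ω a z then k else σ z
  have h1 : ∀ k σ, σ ∈ G.cmp Λ τ ω → rc k σ ∈ G.cmp Λ τ ω := by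
    intro k σ h
    refine mem_cmp.2 ⟨fun x hx => ?_, fun e he => ?_⟩
    · simp only [rc]
      rw [if_neg fun l => hx (ha x l), (mem_cmp.1 h).1 x hx]
    · have : G.conn free ω a (G.s e) ↔ G.conn free ω a (G.t e) :=
        ⟨fun l => (G.conn free ω).trans' l (conn_edge free he),
          fun l => (G.conn free ω).trans' l ((G.conn free ω).symm' (conn_edge free he))⟩
      simp only [rc, this, (mem_cmp.1 h).2 e he]
  have h2 : ∀ k σ, c (rc k σ) = c σ := fun k σ => hc _ _ fun z hz => if_neg hz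
  have h3 : ∀ k σ, rc k σ a = k := fun k σ => if_pos ((G.conn free ω).refl' a)
  have h4 : ∀ k k' σ, σ ∈ G.cmp Λ τ ω → σ a = k → rc k (rc k' σ) = σ := by
    intro k k' σ h hk
    funext z
    simp only [rc]
    split_ifs with l
    · rw [← hk, cmp_conn h l]
    · rfl
  rw [← card_univ, ← card_product]
  refine card_nbij' (fun σ => (σ a, rc (c σ) σ)) (fun p => rc p.1 p.2) ?_ ?_ ?_ ?_
  · intro σ h
    simp only [coe_product, Set.mem_prod, mem_coe, mem_univ, true_and, mem_filter]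
    exact ⟨h1 _ _ h, by rw [h2, h3]⟩
  · intro p h
    simp only [coe_product, Set.mem_prod, mem_coe, mem_univ, true_and, mem_filter] at h
    exact h1 _ _ h.1
  · intro σ h
    exact h4 _ _ σ h rfl
  · rintro ⟨k, σ⟩ h
    simp only [coe_product, Set.mem_prod, mem_coe, mem_univ, true_and, mem_filter] at h
    simp only [h3, h2]
    rw [h4 _ _ σ h.1 h.2]

lemma card_cmp_pair {a b : V} (ha : ∀ z, G.conn free ω a z → z ∈ Λ) (hb : ¬ G.conn free ω a b) :
    #(G.cmp Λ τ ω) = Fintype.card C * #((G.cmp Λ τ ω).filter fun σ => σ a = σ b) :=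
  card_cmp_filter ha (fun σ => σ b) fun _ _ h => h b hb

lemma card_fill (Λ : Finset V) (τ : V → C) : #(fill Λ τ) = Fintype.card C ^ #Λ := by
  rw [fill, card_image_of_injective, card_univ, Fintype.card_fun, Fintype.card_coe]
  intro s t h
  funext x
  simpa using congrFun h x

lemma card_cmp [Nonempty C] (hq : G.q = Fintype.card C) (ω : Finset ι) :
    (#(G.cmp Λ τ ω) : ℝ) =
      ind (G.cmp Λ τ ω).Nonempty * (G.q ^ #Λ * G.q⁻¹ ^ G.rk (wire (↑Λ)ᶜ) ω) := by
  induction ω using Finset.induction_on with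
  | empty =>
    have : G.cmp Λ τ ∅ = fill Λ τ := by simp [cmp]
    rw [this, ind_pos ⟨τ, mem_fill.2 fun _ _ => rfl⟩, card_fill, hq]
    simp
  | insert e ω he ih =>
    have e1 : G.cmp Λ τ (insert e ω) = (G.cmp Λ τ ω).filter fun σ => σ (G.s e) = σ (G.t e) := by
      ext σ
      simp only [mem_cmp, mem_filter, forall_mem_insert]
      tauto
    rw [rk_insert _ he]
    by_cases h : G.conn (wire (↑Λ)ᶜ) ω (G.s e) (G.t e)
    · rw [gap_pos h, add_zero]
      by_cases hn : (G.cmp Λ τ (insert e ω)).Nonempty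
      · have : G.cmp Λ τ (insert e ω) = G.cmp Λ τ ω := by
          obtain ⟨σ₀, h0⟩ := hn
          rw [e1] at h0 ⊢
          rw [mem_filter] at h0
          refine filter_true_of_mem fun σ hσ => ?_
          rcases conn_wire_iff.1 h with h | ⟨⟨a, ha, h1⟩, b, hb, h2⟩
          · exact cmp_conn hσ h
          · rw [cmp_conn hσ h1, cmp_conn hσ h2, (mem_cmp.1 hσ).1 a ha, (mem_cmp.1 hσ).1 b hb,
              ← (mem_cmp.1 h0.1).1 a ha, ← (mem_cmp.1 h0.1).1 b hb, ← cmp_conn h0.1 h1,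
              ← cmp_conn h0.1 h2, h0.2]
        rw [this, ih]
      · rw [ind_neg hn, not_nonempty_iff_eq_empty.1 hn]
        simp
    · have e2 : #(G.cmp Λ τ ω) = Fintype.card C * #(G.cmp Λ τ (insert e ω)) := by
        rw [conn_wire_iff, not_or, not_and_or] at h
        rw [e1]
        rcases h.2 with k | k
        · exact card_cmp_pair (fun z hz => by_contra fun l => k ⟨z, l, hz⟩) h.1
        · rw [card_cmp_pair (fun z hz => by_contra fun l => k ⟨z, l, hz⟩)
            fun l => h.1 ((G.conn free ω).symm' l)]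
          simp only [eq_comm]
      have e3 : (G.cmp Λ τ (insert e ω)).Nonempty ↔ (G.cmp Λ τ ω).Nonempty := by
        rw [← card_pos, ← card_pos, e2, Nat.mul_pos_iff_of_pos_left Fintype.card_pos]
      have hq0 := G.q_pos
      rw [e2, Nat.cast_mul, ← hq] at ih
      rw [gap_neg h, e3, pow_succ, ← mul_assoc, ← mul_assoc, mul_assoc (ind _), ← ih]
      field_simp

lemma sum_cmp_pair [Nonempty C] (hq : G.q = Fintype.card C) {x : V} (y : V)
    (hx : x ∉ G.clus (wire (↑Λ)ᶜ) (↑Λ)ᶜ ω) :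
    ∑ σ ∈ G.cmp Λ τ ω, ind (σ x = σ y) =
      #(G.cmp Λ τ ω) * (1 / G.q + (1 - 1 / G.q) * ind (G.conn free ω x y)) := by
  by_cases h : G.conn free ω x y
  · rw [sum_congr rfl fun σ hσ => ind_pos (cmp_conn hσ h), ind_pos h]
    simp
  · have hq0 := G.q_pos
    rw [card_cmp_pair (fun z hz => by_contra fun l => hx (mem_clus_wire.2 ⟨z, l, hz⟩)) h, ind_neg h,
      Nat.cast_mul, ← hq, card_filter]
    simp only [ind_eq_ite]
    push_cast
    field_simp
    ring

lemma sum_cmp_const (hq : G.q = Fintype.card C) (a : C) (x : V) :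
    ∑ σ ∈ G.cmp Λ (fun _ => a) ω, ind (σ x = a) = #(G.cmp Λ (fun _ => a) ω) *
      (1 / G.q + (1 - 1 / G.q) * ind (x ∈ G.clus (wire (↑Λ)ᶜ) (↑Λ)ᶜ ω)) := by
  by_cases h : x ∈ G.clus (wire (↑Λ)ᶜ) (↑Λ)ᶜ ω
  · obtain ⟨k, hk, l⟩ := mem_clus_wire.1 h
    rw [sum_congr rfl fun σ hσ => ind_pos ((cmp_conn hσ l).trans ((mem_cmp.1 hσ).1 k hk)),
      ind_pos h]
    simp
  · have hq0 := G.q_pos
    rw [card_cmp_filter (fun z hz => by_contra fun l => h (mem_clus_wire.2 ⟨z, l, hz⟩))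
      (fun _ => a) (fun _ _ _ => rfl), ind_neg h, Nat.cast_mul, ← hq, card_filter]
    simp only [ind_eq_ite]
    push_cast
    field_simp
    ring

lemma cmp_nonempty_iff [Nonempty C] {E : Finset ι} (hω : ω ⊆ E) :
    (G.cmp Λ τ (ω ∩ G.touch E (G.clus (wire (↑Λ)ᶜ) (↑Λ)ᶜ ω))).Nonempty ↔
      (G.cmp Λ τ ω).Nonempty := by
  refine ⟨?_, fun h => h.mono (cmp_anti inter_subset_left)⟩
  rintro ⟨σ, h⟩
  refine ⟨fun z => if z ∈ G.clus (wire (↑Λ)ᶜ) (↑Λ)ᶜ ω then σ z else Classical.arbitrary C,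
    mem_cmp.2 ⟨fun x hx => ?_, fun e he => ?_⟩⟩
  · rw [if_pos (subset_clus _ _ _ hx), (mem_cmp.1 h).1 x hx]
  · by_cases k : G.s e ∈ G.clus (wire (↑Λ)ᶜ) (↑Λ)ᶜ ω
    · rw [if_pos k, if_pos ((clus_edge he).1 k)]
      exact (mem_cmp.1 h).2 e (mem_inter.2 ⟨he, mem_touch.2 ⟨hω he, Or.inl k⟩⟩)
    · rw [if_neg k, if_neg fun l => k ((clus_edge he).2 l)]

/-- Away from the boundary cluster the measure is free. -/
lemma ex_factor [Nonempty C] {v : ι → ℝ} (hv : ∀ e, 0 ≤ v e) {E : Finset ι} {Λ' : Finset V}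
    {x : V} (y : V) (hx : x ∈ Λ') :
    G.ex v (wire (↑Λ)ᶜ) E (fun ω => ind (G.cmp Λ τ ω).Nonempty *
        ind (¬ ∃ z ∈ Λ', z ∈ G.clus (wire (↑Λ)ᶜ) (↑Λ)ᶜ ω) * ind (G.conn free ω x y)) =
      G.ex v (wire (↑Λ)ᶜ) E fun ω => ind (G.cmp Λ τ ω).Nonempty *
        ind (¬ ∃ z ∈ Λ', z ∈ G.clus (wire (↑Λ)ᶜ) (↑Λ)ᶜ ω) *
        G.pr v free (E \ G.touch E (G.clus (wire (↑Λ)ᶜ) (↑Λ)ᶜ ω)) fun η => G.conn free η x y := by
  rw [ex_clus hv (↑Λ)ᶜ]
  refine ex_congr fun ω hω => ?_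
  set T := G.touch E (G.clus (wire (↑Λ)ᶜ) (↑Λ)ᶜ ω) with hT
  rw [pr, ← ex_const_mul, ex_local v (W := free) (W' := wire (↑Λ)ᶜ) (S := (↑Λ : Set V))]
  · refine ex_congr fun η hη => ?_
    have h1 : ω ∩ T ∪ η ⊆ E := union_subset (inter_subset_left.trans hω) (hη.trans sdiff_subset)
    have h2 : ω ∩ T = (ω ∩ T ∪ η) ∩ T := by
      ext e
      have := @hη e
      simp only [mem_inter, mem_union, mem_sdiff] at this ⊢
      tauto
    have h3 := clus_eq_of_inter hω h1 h2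
    rw [← cmp_nonempty_iff h1, h3, ← hT, ← h2, hT, cmp_nonempty_iff hω, ← hT]
    by_cases hB : ∃ z ∈ Λ', z ∈ G.clus (wire (↑Λ)ᶜ) (↑Λ)ᶜ ω
    · rw [ind_neg (not_not.2 hB), mul_zero, zero_mul, zero_mul]
    · congr 1
      refine ind_congr ⟨fun h => ?_, fun h => conn_mono le_rfl subset_union_right h⟩
      refine conn_invariant (P := fun z => G.conn free η x z)
        (fun _ _ k1 k2 => by rwa [← free_iff.1 k1]) (fun e he => ?_) h ((G.conn free η).refl' x)
      rcases mem_union.1 he with he | he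
      · have h5 : ∀ z ∈ G.clus (wire (↑Λ)ᶜ) (↑Λ)ᶜ ω, ¬ G.conn free η x z := fun z hz k =>
          hB ⟨x, hx, h3 ▸ clus_conn (h3.symm ▸ hz)
            (conn_mono (free_le _) subset_union_right ((G.conn free η).symm' k))⟩
        have h6 := (mem_touch.1 (mem_inter.1 he).2).2
        have h7 := clus_edge (G := G) (W := wire (↑Λ)ᶜ) (K := (↑Λ)ᶜ) (mem_inter.1 he).1
        exact ⟨fun k => absurd k (h5 _ (by tauto)), fun k => absurd k (h5 _ (by tauto))⟩
      · exact ⟨fun l => (G.conn free η).trans' l (conn_edge free he),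
          fun l => (G.conn free η).trans' l ((G.conn free η).symm' (conn_edge free he))⟩
  · intro a ha b _
    rw [wire_iff, free_iff]
    exact ⟨Or.inl, fun h => h.elim id fun k => absurd ha k.1⟩
  · intro e he
    rw [mem_sdiff, mem_touch] at he
    exact ⟨by_contra fun k => he.2 ⟨he.1, Or.inl (subset_clus _ _ _ k)⟩,
      by_contra fun k => he.2 ⟨he.1, Or.inr (subset_clus _ _ _ k)⟩⟩

variable (G) in
/-- The Potts weight of a colouring. -/
def sw (v : ι → ℝ) (E : Finset ι) (σ : V → C) : ℝ :=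
  ∏ e ∈ E, (1 + v e * ind (σ (G.s e) = σ (G.t e)))

variable {v : ι → ℝ} {E : Finset ι}

omit [Fintype C] in
lemma sw_pos (hv : ∀ e, 0 ≤ v e) (E : Finset ι) (σ : V → C) : 0 < G.sw v E σ :=
  prod_pos fun e _ => add_pos_of_pos_of_nonneg one_pos (mul_nonneg (hv e) (ind_nonneg _))

lemma sum_sw (F : (V → C) → ℝ) :
    ∑ σ ∈ fill Λ τ, G.sw v E σ * F σ =
      ∑ ω ∈ E.powerset, (∏ e ∈ ω, v e) * ∑ σ ∈ G.cmp Λ τ ω, F σ := by
  simp only [sw, ind, prod_one_add, sum_mul, prod_mul_distrib, prod_boole, cmp, sum_filter,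
    mul_sum]
  rw [sum_comm]
  refine sum_congr rfl fun ω _ => sum_congr rfl fun σ _ => ?_
  split_ifs <;> simp

variable [Nonempty C]

/-- The general form of the coupling: conditional means given the open edges. -/
lemma sum_sw_eq (hq : G.q = Fintype.card C) {F : (V → C) → ℝ}
    {h : Finset ι → ℝ}
    (hh : ∀ ω ⊆ E, ∑ σ ∈ G.cmp Λ τ ω, F σ = #(G.cmp Λ τ ω) * h ω) :
    ∑ σ ∈ fill Λ τ, G.sw v E σ * F σ =
      G.q ^ #Λ * G.sm v (wire (↑Λ)ᶜ) E fun ω => ind (G.cmp Λ τ ω).Nonempty * h ω := by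
  rw [sum_sw, sm, mul_sum]
  refine sum_congr rfl fun ω hω => ?_
  rw [hh ω (mem_powerset.1 hω), card_cmp hq, wt]
  ring

lemma sum_sw_one (hq : G.q = Fintype.card C) :
    ∑ σ ∈ fill Λ τ, G.sw v E σ =
      G.q ^ #Λ * G.sm v (wire (↑Λ)ᶜ) E fun ω => ind (G.cmp Λ τ ω).Nonempty := by
  simpa using sum_sw_eq (v := v) (Λ := Λ) (τ := τ) (E := E) hq (F := fun _ => 1)
    (h := fun _ => 1) (by simp)

/-- Constant boundary condition: the wired measure. -/
theorem es_wired (hq : G.q = Fintype.card C) (hv : ∀ e, 0 ≤ v e)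
    (a : C) (x : V) :
    (∑ σ ∈ fill Λ fun _ => a, G.sw v E σ * ind (σ x = a)) / ∑ σ ∈ fill Λ fun _ => a, G.sw v E σ =
      1 / G.q + (1 - 1 / G.q) *
        G.pr v (wire (↑Λ)ᶜ) E fun ω => x ∈ G.clus (wire (↑Λ)ᶜ) (↑Λ)ᶜ ω := by
  have h1 : ∀ ω, ind (G.cmp Λ (fun _ => a) ω).Nonempty = 1 := fun ω =>
    ind_pos ⟨fun _ => a, mem_cmp.2 ⟨fun _ _ => rfl, fun _ _ => rfl⟩⟩
  rw [sum_sw_eq hq fun ω _ => sum_cmp_const hq a x, sum_sw_one hq,
    mul_div_mul_left _ _ (pow_pos G.q_pos _).ne']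
  simp only [h1, one_mul, sm_one]
  rw [← ex, ex_add, ex_const hv, ex_const_mul, pr]

/-- Free boundary condition. -/
theorem es_free (hq : G.q = Fintype.card C) (hv : ∀ e, 0 ≤ v e)
    (hE' : ∀ e ∈ E, G.s e ∈ Λ ∧ G.t e ∈ Λ) (a : C) {x : V} (hx : x ∈ Λ) (y : V) :
    ∑ σ ∈ fill Λ fun _ => a, G.sw v E σ * (ind (σ x = σ y) - 1 / G.q) = G.q ^ #Λ * G.Z v free E * (1 - 1 / G.q) *
      G.pr v free E fun ω => G.conn free ω x y := by
  have h1 : ∀ ω, ind (G.cmp Λ (fun _ => a) ω).Nonempty = 1 := fun ω =>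
    ind_pos ⟨fun _ => a, mem_cmp.2 ⟨fun _ _ => rfl, fun _ _ => rfl⟩⟩
  have h2 : ∀ ω ⊆ E, x ∉ G.clus (wire (↑Λ)ᶜ) (↑Λ)ᶜ ω := fun ω hω h => by
    obtain ⟨k, hk, l⟩ := mem_clus_wire.1 h
    exact hk (conn_invariant (P := fun z => z ∈ (↑Λ : Set V))
      (fun _ _ k1 k2 => by rwa [← free_iff.1 k1])
      (fun e he => iff_of_true (hE' e (hω he)).1 (hE' e (hω he)).2) l hx)
  have h3 : ∀ ω ∈ E.powerset, G.wt v (wire (↑Λ)ᶜ) ω = G.wt v free ω := fun ω hω =>
    wt_local v (S := (↑Λ : Set V)) (fun a ha b _ => by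
      rw [wire_iff, free_iff]
      exact ⟨fun h => h.elim id fun k => absurd ha k.1, Or.inl⟩)
      fun e he => hE' e (mem_powerset.1 hω he)
  rw [sum_sw_eq hq (h := fun ω => (1 - 1 / G.q) * ind (G.conn free ω x y)) fun ω hω => by
    rw [sum_sub_distrib, sum_cmp_pair hq y (h2 ω hω), sum_const, nsmul_eq_mul]
    ring]
  simp only [h1, one_mul]
  rw [sm, sum_congr rfl fun ω hω => by rw [h3 ω hω], ← sm, sm_eq hv, ex_const_mul, pr]
  ring

/-- An arbitrary boundary condition. -/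
theorem es_any (hq : G.q = Fintype.card C) (hv : ∀ e, 0 ≤ v e)
    {Λ' : Finset V} {E' : Finset ι} (hE' : E' ⊆ E) (hin : ∀ e ∈ E', G.s e ∈ Λ' ∧ G.t e ∈ Λ')
    {x : V} (hx : x ∈ Λ') (y : V) :
    1 / G.q + (1 - 1 / G.q) * G.pr v free E' (fun ω => G.conn free ω x y) -
        2 * G.pr v (wire (↑Λ)ᶜ) E (fun ω => ∃ z ∈ Λ', z ∈ G.clus (wire (↑Λ)ᶜ) (↑Λ)ᶜ ω) ≤
      (∑ σ ∈ fill Λ τ, G.sw v E σ * ind (σ x = σ y)) / (∑ σ ∈ fill Λ τ, G.sw v E σ) ∧
    (∑ σ ∈ fill Λ τ, G.sw v E σ * ind (σ x = σ y)) / (∑ σ ∈ fill Λ τ, G.sw v E σ) ≤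
      1 / G.q + (1 - 1 / G.q) * G.pr v free E (fun ω => G.conn free ω x y) +
        G.pr v (wire (↑Λ)ᶜ) E (fun ω => ∃ z ∈ Λ', z ∈ G.clus (wire (↑Λ)ᶜ) (↑Λ)ᶜ ω) := by
  set W : Eqv V := wire (↑Λ)ᶜ with hW
  let D : Finset ι → ℝ := fun ω => ind (G.cmp Λ τ ω).Nonempty
  let B : Finset ι → Prop := fun ω => ∃ z ∈ Λ', z ∈ G.clus W (↑Λ)ᶜ ω
  let h : Finset ι → ℝ := fun ω => if x ∈ G.clus W (↑Λ)ᶜ ω then
    (∑ σ ∈ G.cmp Λ τ ω, ind (σ x = σ y)) / #(G.cmp Λ τ ω)
    else 1 / G.q + (1 - 1 / G.q) * ind (G.conn free ω x y)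
  have hq1 : 0 ≤ 1 / G.q := by have := G.q_pos; positivity
  have hq2 : 0 ≤ 1 - 1 / G.q := by rw [sub_nonneg, div_le_one G.q_pos]; exact G.hq
  have hh : ∀ ω ⊆ E, ∑ σ ∈ G.cmp Λ τ ω, ind (σ x = σ y) = #(G.cmp Λ τ ω) * h ω := fun ω _ => by
    simp only [h]
    split_ifs with k
    · rcases (G.cmp Λ τ ω).eq_empty_or_nonempty with l | l
      · simp [l]
      · rw [mul_div_cancel₀ _ (Nat.cast_ne_zero.2 l.card_pos.ne')]
    · exact sum_cmp_pair hq y k
  have h01 : ∀ ω, 0 ≤ h ω ∧ h ω ≤ 1 := fun ω => by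
    simp only [h]
    split_ifs with k
    · refine ⟨div_nonneg (sum_nonneg fun _ _ => ind_nonneg _) (Nat.cast_nonneg _),
        div_le_one_of_le₀ ?_ (Nat.cast_nonneg _)⟩
      simpa using sum_le_sum (s := G.cmp Λ τ ω) fun σ _ => ind_le_one (σ x = σ y)
    · have := ind_nonneg (G.conn free ω x y)
      have := ind_le_one (G.conn free ω x y)
      constructor <;> nlinarith
  have hD : 0 < G.ex v W E D := by
    have : 0 < ∑ σ ∈ fill Λ τ, G.sw v E σ :=
      sum_pos (fun σ _ => sw_pos hv E σ) ⟨τ, mem_fill.2 fun _ _ => rfl⟩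
    rw [sum_sw_one hq, sm_eq hv] at this
    exact (mul_pos_iff_of_pos_left (Z_pos hv _ _)).1 ((mul_pos_iff_of_pos_left (pow_pos G.q_pos _)).1 this)
  have hD0 : ∀ ω, 0 ≤ D ω := fun ω => ind_nonneg _
  have hDB : G.ex v W E (fun ω => ind (B ω) * D ω) ≤ G.pr v W E B * G.ex v W E D :=
    fkg_anti hv (monoIn_ind fun a b k _ ⟨z, hz, l⟩ => ⟨z, hz, clus_mono le_rfl subset_rfl k l⟩)
      fun a b k _ => neg_le_neg (ind_mono fun l => l.mono (cmp_anti k))
  have hF := ex_factor (G := G) (Λ := Λ) (τ := τ) hv (E := E) y hx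
  have hup : G.ex v W E (fun ω => D ω * ind (¬ B ω) * ind (G.conn free ω x y)) ≤
      G.ex v W E D * G.pr v free E fun ω => G.conn free ω x y := by
    rw [hF, ← ex_mul_const]
    refine ex_mono hv fun ω _ => mul_le_mul (mul_le_of_le_one_right (hD0 ω) (ind_le_one _))
      (pr_holley hv hv le_rfl sdiff_subset (fun _ _ => le_rfl) (incr_conn _ _ _ _))
      (pr_nonneg hv) (hD0 ω)
  have hlo : G.ex v W E D * G.pr v free E' (fun ω => G.conn free ω x y) -
      G.ex v W E (fun ω => ind (B ω) * D ω) ≤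
      G.ex v W E (fun ω => D ω * ind (¬ B ω) * ind (G.conn free ω x y)) := by
    rw [hF, ← ex_mul_const, ← ex_sub]
    refine ex_mono hv fun ω _ => ?_
    by_cases k : B ω
    · have := pr_le_one (G := G) (W := free) (E := E') (A := fun ω => G.conn free ω x y) hv
      rw [ind_pos k, ind_neg (not_not.2 k)]
      nlinarith [hD0 ω]
    · rw [ind_neg k, ind_pos k, zero_mul, sub_zero, mul_one]
      refine mul_le_mul_of_nonneg_left (pr_holley hv hv le_rfl (fun e he => ?_) (fun _ _ => le_rfl)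
        (incr_conn _ _ _ _)) (hD0 ω)
      refine mem_sdiff.2 ⟨hE' he, fun l => k ?_⟩
      rcases (mem_touch.1 l).2 with l | l
      · exact ⟨_, (hin e he).1, l⟩
      · exact ⟨_, (hin e he).2, l⟩
  have hm : ∀ ω, |D ω * h ω - (1 / G.q * D ω +
      (1 - 1 / G.q) * (D ω * ind (¬ B ω) * ind (G.conn free ω x y)))| ≤ ind (B ω) * D ω := by
    intro ω
    by_cases k : B ω
    · rw [ind_pos k, ind_neg (not_not.2 k), abs_le]
      have := h01 ω
      have := hD0 ω
      constructor <;> nlinarith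
    · have : x ∉ G.clus W (↑Λ)ᶜ ω := fun l => k ⟨x, hx, l⟩
      simp only [h, if_neg this, ind_neg k, ind_pos k]
      rw [zero_mul, abs_nonpos_iff]
      ring
  have e1 : G.ex v W E (fun ω => D ω * h ω) ≤ 1 / G.q * G.ex v W E D + (1 - 1 / G.q) *
      G.ex v W E (fun ω => D ω * ind (¬ B ω) * ind (G.conn free ω x y)) +
      G.ex v W E (fun ω => ind (B ω) * D ω) := by
    rw [← ex_const_mul, ← ex_const_mul, ← ex_add, ← ex_add]
    exact ex_mono hv fun ω _ => by linarith [(abs_le.1 (hm ω)).2]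
  have e2 : 1 / G.q * G.ex v W E D + (1 - 1 / G.q) *
      G.ex v W E (fun ω => D ω * ind (¬ B ω) * ind (G.conn free ω x y)) -
      G.ex v W E (fun ω => ind (B ω) * D ω) ≤ G.ex v W E (fun ω => D ω * h ω) := by
    rw [← ex_const_mul, ← ex_const_mul, ← ex_add, ← ex_sub]
    exact ex_mono hv fun ω _ => by linarith [(abs_le.1 (hm ω)).1]
  have hB0 : 0 ≤ G.ex v W E (fun ω => ind (B ω) * D ω) :=
    ex_nonneg hv fun ω _ => mul_nonneg (ind_nonneg _) (hD0 ω)
  rw [sum_sw_eq hq hh, sum_sw_one hq, mul_div_mul_left _ _ (pow_pos G.q_pos _).ne', sm_eq hv,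
    sm_eq hv, mul_div_mul_left _ _ (Z_pos hv _ _).ne', le_div_iff₀ hD, div_le_iff₀ hD]
  constructor
  · have := mul_le_mul_of_nonneg_left hlo hq2
    nlinarith
  · have := mul_le_mul_of_nonneg_left hup hq2
    nlinarith

end

variable {V C : Type*} {G : Gr V (Sym2 V)} {v : Sym2 V → ℝ} {E : Finset (Sym2 V)}

lemma s_mem (hG : ∀ e, s(G.s e, G.t e) = e) (e : Sym2 V) : G.s e ∈ e := by
  have := Sym2.mem_mk_left (G.s e) (G.t e)
  rwa [hG] at this

lemma t_mem (hG : ∀ e, s(G.s e, G.t e) = e) (e : Sym2 V) : G.t e ∈ e := by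
  have := Sym2.mem_mk_right (G.s e) (G.t e)
  rwa [hG] at this

lemma isDiag_iff (hG : ∀ e, s(G.s e, G.t e) = e) (σ : V → C) (e : Sym2 V) :
    (e.map σ).IsDiag ↔ σ (G.s e) = σ (G.t e) := by
  conv_lhs => rw [← hG e]
  simp

lemma pw_eq_sw (hG : ∀ e, s(G.s e, G.t e) = e) (σ : V → C) : pw v E σ = G.sw v E σ :=
  prod_congr rfl fun e _ => by rw [ew, ← ind_eq_ite, isDiag_iff hG]

/-- Reflection positivity for FK connection probabilities. -/
theorem pr_reflection [DecidableEq (Sym2 V)] {q : ℕ} (hq2 : 2 ≤ q) (hG : ∀ e, s(G.s e, G.t e) = e) (hq : G.q = q)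
    (hv : ∀ e, 0 ≤ v e) {H : Finset V} {θ : V → V} (hθ : ∀ x, θ (θ x) = x)
    (hP : ∀ x ∈ H, θ x ∈ H → θ x = x) (hE : ∀ e ∈ E, e.map θ ∈ E) (hvθ : ∀ e, v (e.map θ) = v e)
    (hin : ∀ e ∈ E, (∀ x ∈ e, x ∈ H) ∨ (∀ x ∈ e, θ x ∈ H) ∨ ∃ u ∈ H, θ u ∉ H ∧ e = s(u, θ u))
    {x y : V} (hx : x ∈ H) (hy : y ∈ H) :
    G.pr v free E (fun ω => G.conn free ω x (θ y)) ^ 2 ≤
      G.pr v free E (fun ω => G.conn free ω x (θ x)) *
        G.pr v free E fun ω => G.conn free ω y (θ y) := by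
  have : Nonempty (Fin q) := ⟨⟨0, by omega⟩⟩
  have hq' : G.q = Fintype.card (Fin q) := by simpa using hq
  have hΛ : ∀ x, x ∈ H ∪ H.image θ ↔ x ∈ H ∨ θ x ∈ H := fun x => by
    rw [mem_union, mem_image]
    exact or_congr Iff.rfl ⟨fun ⟨a, ha, h⟩ => by rwa [← h, hθ], fun h => ⟨_, h, hθ x⟩⟩
  have hE' : ∀ e ∈ E, ∀ z ∈ e, z ∈ H ∪ H.image θ := fun e he z hz => by
    rw [hΛ]
    rcases hin e he with h | h | ⟨u, hu, -, rfl⟩
    · exact Or.inl (h z hz)
    · exact Or.inr (h z hz)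
    · rcases Sym2.mem_iff.1 hz with rfl | rfl
      · exact Or.inl hu
      · exact Or.inr (by rwa [hθ])
  have hE'' : ∀ e ∈ E, G.s e ∈ H ∪ H.image θ ∧ G.t e ∈ H ∪ H.image θ := fun e he =>
    ⟨hE' e he _ (s_mem hG e), hE' e he _ (t_mem hG e)⟩
  have htp : ∀ x ∈ H, ∀ y, tp v E (H ∪ H.image θ) (fun _ => Classical.arbitrary (Fin q)) x y =
      G.q ^ #(H ∪ H.image θ) * G.Z v free E * (1 - 1 / G.q) *
      G.pr v free E fun ω => G.conn free ω x y := fun x hx y => by
    rw [← es_free hq' hv hE'' (Classical.arbitrary (Fin q)) (mem_union_left _ hx) y, tp]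
    refine sum_congr rfl fun σ _ => ?_
    rw [pw_eq_sw hG, hq', ind]
  have key := reflection hv hθ hΛ hP hE hvθ hin (fun _ => (Classical.arbitrary (Fin q))) hx hy
  rw [htp x hx, htp x hx, htp y hy, mul_pow, mul_mul_mul_comm, ← sq] at key
  refine le_of_mul_le_mul_left key (pow_pos (mul_pos (mul_pos (pow_pos G.q_pos _)
    (Z_pos hv _ _)) ?_) _)
  have : (2 : ℝ) ≤ G.q := by rw [hq]; exact_mod_cast hq2
  rw [sub_pos, div_lt_one G.q_pos]
  linarith

end Gr

end

end Pool.Agent.MP_48a2f9_mp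

end MrgPart1

-- marker of a merged file
example : 731051 + 692503 = 731051 + 692503 := rfl

end MrgPart2

-- marker of a merged file
example : 731051 + 692503 = 731051 + 692503 := rfl
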