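import Mathlib.MeasureTheory.Integral.Bochner.Basic
import Mathlib.Analysis.InnerProductSpace.Basic
import Mathlib.Data.Pi.Interval

/-!
Statement-level definitions: the Potts model on `Z^d = Z × Z^D` (`d = D + 1`) with a defect line.
-/

open Finset Filter Topology MeasureTheory

namespace Pool.Agent.MP_48a2f9_mp

noncomputable section
open Classical

/-- A site `i = (i_1, i^perp)` of `Z^d`, `d = D + 1`. -/
abbrev Site (D : ℕ) : Type := ℤ × (Fin D → ℤ)

variable {D q : ℕ}

/-- Nearest neighbours: `l^1` distance one. -/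
def Adj (x y : Site D) : Prop := |x.1 - y.1| + ∑ k, |x.2 k - y.2 k| = 1

/-- The box of radius `r` (sup norm) around `x`. -/
def box (x : Site D) (r : ℕ) : Finset (Site D) :=
  Finset.Icc (x.1 - r, fun k => x.2 k - r) (x.1 + r, fun k => x.2 k + r)

/-- The nearest-neighbour edges with at least one endpoint in `Λ`. -/
def edgesOf (Λ : Finset (Site D)) : Finset (Sym2 (Site D)) :=
  Λ.biUnion fun x => ((box x 1).filter (Adj x)).image fun y => s(x, y)

/-- The coupling of an edge: `J` if both endpoints lie on the line `i^perp = 0`, else `1`. -/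
def edgeJ (J : ℝ) (e : Sym2 (Site D)) : ℝ := if ∀ x ∈ e, x.2 = 0 then J else 1

/-- The Hamiltonian in the finite volume `Λ`. -/
def ham (J : ℝ) (Λ : Finset (Site D)) (ω : Site D → Fin q) : ℝ :=
  -∑ e ∈ edgesOf Λ, edgeJ J e * (if (e.map ω).IsDiag then 1 else 0)

/-- The configuration equal to `σ` in `Λ` and to `η` outside. -/
def glue (Λ : Finset (Site D)) (σ : Λ → Fin q) (η : Site D → Fin q) : Site D → Fin q :=
  fun x => if h : x ∈ Λ then σ ⟨x, h⟩ else η x

/-- The finite-volume Gibbs probability of `A` in `Λ` with boundary condition `η`. -/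
def gibbs (β J : ℝ) (Λ : Finset (Site D)) (η : Site D → Fin q) (A : Set (Site D → Fin q)) : ℝ :=
  (∑ σ : Λ → Fin q, Real.exp (-β * ham J Λ (glue Λ σ η)) * (if glue Λ σ η ∈ A then 1 else 0)) /
    ∑ σ : Λ → Fin q, Real.exp (-β * ham J Λ (glue Λ σ η))

/-- The DLR condition. -/
def IsGibbs (β J : ℝ) (μ : Measure (Site D → Fin q)) : Prop :=
  IsProbabilityMeasure μ ∧
    ∀ (Λ : Finset (Site D)) (A : Set (Site D → Fin q)), MeasurableSet A →
      μ.real A = ∫ η, gibbs β J Λ η A ∂μ

/-- No spontaneous magnetisation in the homogeneous model. -/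
def Disordered (D q : ℕ) (β : ℝ) : Prop :=
  ∀ a : Fin q, Tendsto
    (fun n : ℕ => gibbs β 1 (box (0 : Site D) n) (fun _ => a) {ω | ω 0 = a}) atTop (𝓝 (1 / (q : ℝ)))

/-- The critical inverse temperature of the homogeneous model. -/
def betaC (D q : ℕ) : EReal := sSup ((fun b : ℝ => (b : EReal)) '' {b | 0 ≤ b ∧ Disordered D q b})

/-- The two-point function along the line. -/
def G (μ : Measure (Site D → Fin q)) (n : ℕ) : ℝ := μ.real {ω | ω 0 = ω ((n : ℤ), 0)}

/-- The longitudinal inverse correlation length. -/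
def xi (μ : Measure (Site D → Fin q)) : ℝ :=
  limUnder atTop fun n : ℕ => -(1 / (n : ℝ)) * Real.log (G μ n - 1 / (q : ℝ))

/-- The critical coupling. -/
def Jc (μ : ℝ → Measure (Site D → Fin q)) : ℝ := sSup {J | 0 ≤ J ∧ xi (μ J) = xi (μ 1)}

/-- The prefactor for `J < J_c` in dimension `d`. -/
def gSub (d : ℕ) (n : ℝ) : ℝ :=
  if d = 2 then n ^ (-(3 / 2 : ℝ))
  else if d = 3 then n⁻¹ * (Real.log n ^ 2)⁻¹
  else n ^ (-(((d : ℝ) - 1) / 2))

/-- The prefactor for `J = J_c` in dimension `d`. -/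
def gCrit (d : ℕ) (n : ℝ) : ℝ :=
  if d ≤ 3 then n ^ (-(((d : ℝ) - 1) / 2))
  else if d = 4 then n ^ (-(1 / 2 : ℝ))
  else if d = 5 then (Real.log n)⁻¹
  else 1

end

end Pool.Agent.MP_48a2f9_mp
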