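import Mathlib.Data.Int.Range
import Pool.Agent.MP_48a2f9_mp.Defs

/-!
Interface between the random-cluster part and the renewal part (structure `OZ.Model.CW`), and the
statements of the two-point and mass-gap modules.
-/

open MeasureTheory Filter Topology
open scoped ENNReal

namespace Pool.Agent.MP_48a2f9_mp.OZ

noncomputable section
open Classical

/-- Unordered pairs of sites. -/
abbrev Ed (D : ℕ) := Sym2 (Site D)

variable {D : ℕ}

/-- The first unit vector. -/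
def e1 : Site D := (1, 0)
/-- The edge from `v` to `v + e₁`. -/
def fwd (v : Site D) : Ed D := s(v, v + e1)
/-- Nearest-neighbour edges. -/
def IsEdge (e : Ed D) : Prop := ∃ x y : Site D, Adj x y ∧ e = s(x, y)
/-- The random-cluster edge weight. -/
def rr (β J : ℝ) (e : Ed D) : ℝ := Real.exp (β * edgeJ J e) - 1
/-- Connection through the edges of `E`. -/
def Conn (E : Finset (Ed D)) (a b : Site D) : Prop :=
  Relation.ReflTransGen (fun u v => s(u, v) ∈ E) a b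
/-- The root and the endpoints of the edges of `E`. -/
def verts (x : Site D) (E : Finset (Ed D)) : Finset (Site D) :=
  insert x (E.biUnion Sym2.toFinset)
/-- `E` is the edge set of a finite cluster that contains `x`. -/
def IsClu (x : Site D) (E : Finset (Ed D)) : Prop :=
  (∀ e ∈ E, IsEdge e) ∧ ∀ v ∈ verts x E, Conn E x v
/-- The edges of `E` from level `t` to level `t + 1`. -/
def cross (E : Finset (Ed D)) (t : ℤ) : Finset (Ed D) :=
  E.filter fun e => ∃ v : Site D, v.1 = t ∧ e = fwd v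
/-- The number of levels `0 ≤ t < n` crossed by the line edge only. -/
def lineBreaks (E : Finset (Ed D)) (n : ℕ) : ℕ :=
  ((Finset.range n).filter fun t : ℕ => cross E t = {fwd ((t : ℤ), 0)}).card

/-- The data of the cluster-weight system. `Ψ J S W` stands for the limit (the infimum) of
`Z (Λ \ W) / Z Λ` as the finite set `Λ ⊇ W` exhausts `S`, where `Z Λ` is the sum over the subsets
`ω` of the edges inside `Λ` of `∏ rr * q ^ (number of clusters of ω in Λ)`. -/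
structure Model (D : ℕ) where
  q : ℕ
  β : ℝ
  Ψ : ℝ → Set (Site D) → Finset (Site D) → ℝ

namespace Model

variable (M : Model D)

/-- The probability that the cluster of `x` in the free measure on `S` has edge set `E`. -/
def wtR (J : ℝ) (S : Set (Site D)) (x : Site D) (E : Finset (Ed D)) : ℝ :=
  (M.q : ℝ) * (∏ e ∈ E, rr M.β J e) * M.Ψ J S (verts x E)

/-- The same in `ℝ≥0∞`, and zero when `E` is not a cluster of `x` inside `S`. -/
def wt (J : ℝ) (S : Set (Site D)) (x : Site D) (E : Finset (Ed D)) : ℝ≥0∞ :=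
  if IsClu x E ∧ (↑(verts x E) : Set (Site D)) ⊆ S then ENNReal.ofReal (M.wtR J S x E) else 0

/-- The connection probability. -/
def tau (J : ℝ) (S : Set (Site D)) (x y : Site D) : ℝ≥0∞ :=
  ∑' E : Finset (Ed D), if y ∈ verts x E then M.wt J S x E else 0

/-- The connection probability along the line. -/
def b (J : ℝ) (n : ℕ) : ℝ := (M.tau J Set.univ 0 ((n : ℤ), 0)).toReal

/-- The properties of the cluster weights that the renewal part uses. -/
structure CW : Prop where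
  two_le : 2 ≤ M.q
  beta_pos : 0 < M.β
  pos : ∀ J, 0 ≤ J → ∃ c : ℝ, 0 < c ∧ ∀ (S : Set (Site D)) (W : Finset (Site D)),
    (↑W : Set (Site D)) ⊆ S → c ^ W.card ≤ M.Ψ J S W
  le_one : ∀ J, 0 ≤ J → ∀ (S : Set (Site D)) (W : Finset (Site D)), (↑W : Set (Site D)) ⊆ S →
    M.Ψ J S W ≤ 1
  anti : ∀ J, 0 ≤ J → ∀ (S S' : Set (Site D)) (W : Finset (Site D)), S' ⊆ S →
    (↑W : Set (Site D)) ⊆ S' → M.Ψ J S W ≤ M.Ψ J S' W
  cocycle : ∀ J, 0 ≤ J → ∀ (S : Set (Site D)) (A B : Finset (Site D)), Disjoint A B →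
    (↑A : Set (Site D)) ⊆ S → (↑B : Set (Site D)) ⊆ S →
    M.Ψ J S (A ∪ B) = M.Ψ J S A * M.Ψ J (S \ ↑A) B
  mix : ∀ J, 0 ≤ J → ∃ C c : ℝ, 0 ≤ C ∧ 0 < c ∧
    ∀ (S S' : Set (Site D)) (W : Finset (Site D)) (δ : Site D → ℝ), S' ⊆ S →
      (↑W : Set (Site D)) ⊆ S' → (∀ v ∈ W, ∀ u ∈ S, u ∉ S' → δ v ≤ ‖u - v‖) →
      M.Ψ J S' W ≤ M.Ψ J S W * Real.exp (C * ∑ v ∈ W, Real.exp (-c * δ v))
  symm : ∀ J, 0 ≤ J → ∀ g : Site D ≃ Site D, (∀ x y, Adj (g x) (g y) ↔ Adj x y) →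
    (∀ x y, Adj x y → edgeJ J s(g x, g y) = edgeJ J s(x, y)) →
    ∀ (S : Set (Site D)) (W : Finset (Site D)), (↑W : Set (Site D)) ⊆ S →
      M.Ψ J (g '' S) (W.image g) = M.Ψ J S W
  off_line : ∀ J J', 0 ≤ J → 0 ≤ J' → ∀ (S : Set (Site D)) (W : Finset (Site D)),
    (↑W : Set (Site D)) ⊆ S → (∀ v ∈ S, v.2 ≠ 0) → M.Ψ J S W = M.Ψ J' S W
  total : ∀ J, 0 ≤ J → ∀ (S : Set (Site D)) (x : Site D),
    ∑' E : Finset (Ed D), M.wt J S x E ≤ 1
  vol : ∀ J, 0 ≤ J → ∃ ε C : ℝ, 0 < ε ∧ ∀ (S : Set (Site D)) (x : Site D),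
    ∑' E : Finset (Ed D), M.wt J S x E * ENNReal.ofReal (Real.exp (ε * (verts x E).card)) ≤
      ENNReal.ofReal C
  tau_mono : ∀ J, 0 ≤ J → ∀ (S : Set (Site D)) (x y : Site D),
    M.tau J S x y ≤ M.tau J Set.univ x y
  fkg : ∀ J, 0 ≤ J → ∀ x y z : Site D,
    M.tau J Set.univ x y * M.tau J Set.univ y z ≤ M.tau J Set.univ x z
  psi_anti_J : ∀ J J', 0 ≤ J → J ≤ J' → ∀ W : Finset (Site D),
    M.Ψ J' Set.univ W ≤ M.Ψ J Set.univ W
  tau_mono_J : ∀ J J', 0 ≤ J → J ≤ J' → ∀ x y : Site D,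
    M.tau J Set.univ x y ≤ M.tau J' Set.univ x y
  line_lower : ∀ J, 0 ≤ J →
    (Real.exp (M.β * J) - 1) / (Real.exp (M.β * J) - 1 + M.q) ≤ M.b J 1
  sprinkle : ∀ J J', 0 < J → J < J' → ∃ κ : ℝ, 0 < κ ∧ ∀ n : ℕ,
    (∑' E : Finset (Ed D), if ((n : ℤ), 0) ∈ verts 0 E then
        M.wt J Set.univ 0 E * ENNReal.ofReal ((1 + κ) ^ lineBreaks E n) else 0) ≤
      M.tau J' Set.univ 0 ((n : ℤ), 0)
  es : ∀ J, 0 ≤ J → ∀ μ : Measure (Site D → Fin M.q), IsGibbs M.β J μ → ∀ n : ℕ,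
    G μ n = 1 / (M.q : ℝ) + (1 - 1 / (M.q : ℝ)) * M.b J n

/-- The inverse correlation length of the connection probability. -/
def xiF (J : ℝ) : ℝ := limUnder atTop fun n : ℕ => -(1 / (n : ℝ)) * Real.log (M.b J n)

/-- The critical coupling of the cluster-weight system. -/
def JcF : ℝ := sSup {J : ℝ | 0 ≤ J ∧ M.xiF J = M.xiF 1}

/-- All connection probabilities decay at rate `ξ` in the first coordinate. -/
def Good (J ξ : ℝ) : Prop :=
  0 ≤ J ∧ 0 < ξ ∧ ∀ x y : Site D,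
    M.tau J Set.univ x y ≤ ENNReal.ofReal (Real.exp (-ξ * |((y.1 - x.1 : ℤ) : ℝ)|))

end Model

/-- The whole random-cluster part. -/
def CWStmt : Prop :=
  ∀ (D q : ℕ) (β : ℝ), 1 ≤ D → 2 ≤ q → 0 < β → (β : EReal) < betaC D q →
    ∃ Ψ : ℝ → Set (Site D) → Finset (Site D) → ℝ, (Model.mk q β Ψ).CW

/-- Module TP: the inverse correlation length and the critical coupling. -/
def TPStmt : Prop :=
  ∀ (D : ℕ) (M : Model D), 1 ≤ D → M.CW →
    (∀ J, 0 ≤ J → (∀ n, 0 < M.b J n) ∧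
      Tendsto (fun n : ℕ => -(1 / (n : ℝ)) * Real.log (M.b J n)) atTop (𝓝 (M.xiF J)) ∧
      M.Good J (M.xiF J)) ∧
    (∀ J J', 0 ≤ J → J ≤ J' → M.xiF J' ≤ M.xiF J) ∧
    BddAbove {J : ℝ | 0 ≤ J ∧ M.xiF J = M.xiF 1} ∧ 1 ≤ M.JcF ∧
    ∀ J, 0 ≤ J → J ≤ M.JcF → M.xiF J = M.xiF 1

/-- Module MG0: the probability of spanning `a + b` levels. -/
def MG0Stmt : Prop :=
  ∀ (D : ℕ) (M : Model D) (J ξ : ℝ), M.CW → M.Good J ξ → ∃ C : ℝ, 0 ≤ C ∧
    ∀ (S : Set (Site D)) (x : Site D) (a b : ℕ),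
      (∑' E : Finset (Ed D), if (∃ u ∈ verts x E, u.1 ≤ x.1 - a) ∧
          (∃ v ∈ verts x E, x.1 + b ≤ v.1) then M.wt J S x E else 0) ≤
        ENNReal.ofReal (C * ((a : ℝ) + b + 1) ^ (2 * D) * Real.exp (-ξ * (a + b)))

/-- A cluster of `x` that reaches level `n`, cut at the levels of the list into parts that
overlap by at most `K` levels on each side of a cut. -/
inductive Chain (K : ℕ) (n : ℤ) : Site D → Finset (Ed D) → List ℤ → Prop
  | nil (x : Site D) (E : Finset (Ed D)) :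
      IsClu x E → (∃ y ∈ verts x E, n ≤ y.1) → Chain K n x E []
  | cons (x x' : Site D) (EA F EB : Finset (Ed D)) (u : ℤ) (T : List ℤ) :
      IsClu x EA → Chain K n x' EB T → Disjoint (verts x EA) (verts x' EB) → F.Nonempty →
      (∀ e ∈ F, ∃ a ∈ verts x EA, a.1 = u ∧ a + e1 ∈ verts x' EB ∧ e = fwd a) →
      u + 1 ≤ x'.1 → (∀ v ∈ verts x EA, v.1 ≤ u + K) → (∀ v ∈ verts x' EB, u - K < v.1) →
      x.1 + 2 * K ≤ u → u < n → Chain K n x (EA ∪ F ∪ EB) (u :: T)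

/-- The cluster reaches `s` levels beyond its root. -/
def Reach (x : Site D) (E : Finset (Ed D)) (s : ℕ) : Prop := ∃ y ∈ verts x E, x.1 + s ≤ y.1

/-- Module MG1: long clusters have many cuts. -/
def MG1Stmt : Prop :=
  ∀ (D : ℕ) (M : Model D) (J ξ : ℝ), M.CW → M.Good J ξ →
    ∃ (K : ℕ) (κ c C : ℝ), 1 ≤ K ∧ 0 < κ ∧ 0 < c ∧ ∀ (S : Set (Site D)) (x : Site D) (s : ℕ),
      (∑' E : Finset (Ed D), if Reach x E s ∧
          ¬ ∃ T, Chain K (x.1 + s) x E T ∧ κ * s ≤ T.length then M.wt J S x E else 0) ≤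
        ENNReal.ofReal (C * Real.exp (-(ξ + c) * s))

/-- The number of levels `a ≤ t < a + s` crossed by exactly one edge. -/
def brkCount (E : Finset (Ed D)) (a : ℤ) (s : ℕ) : ℕ :=
  ((Finset.range s).filter fun t : ℕ => (cross E (a + t)).card = 1).card

/-- Module MG2: long clusters have many breaks. -/
def MG2Stmt : Prop :=
  ∀ (D : ℕ) (M : Model D) (J ξ : ℝ), M.CW → M.Good J ξ →
    ∃ δ c C : ℝ, 0 < δ ∧ 0 < c ∧ ∀ (S : Set (Site D)) (x : Site D) (s : ℕ),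
      (∀ v : Site D, x.1 ≤ v.1 → v ∈ S) →
      (∑' E : Finset (Ed D), if Reach x E s ∧ (brkCount E x.1 s : ℝ) ≤ δ * s
          then M.wt J S x E else 0) ≤ ENNReal.ofReal (C * Real.exp (-(ξ + c) * s))

/-- The number of vertices of `W` with level in `(t, s]`. -/
def slab (W : Finset (Site D)) (t s : ℤ) : ℕ := (W.filter fun v => t < v.1 ∧ v.1 ≤ s).card

/-- The volume after level `t` grows at most linearly. -/
def Fwd (A : ℕ) (W : Finset (Site D)) (t : ℤ) : Prop :=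
  ∀ s : ℤ, t < s → (slab W t s : ℤ) ≤ A * (s - t)

/-- A nice break level. -/
def Nice (A : ℕ) (x : Site D) (E : Finset (Ed D)) (t : ℤ) : Prop :=
  (cross E t).card = 1 ∧ Fwd A (verts x E) t

/-- Module MG3: the mass gap. -/
def MG3Stmt : Prop :=
  ∀ (D : ℕ) (M : Model D) (J ξ : ℝ), M.CW → M.Good J ξ →
    ∃ (A₀ : ℕ) (c C : ℝ), 0 < c ∧ ∀ A : ℕ, A₀ ≤ A →
      ∀ (S : Set (Site D)) (x : Site D) (s : ℕ), (∀ v : Site D, x.1 ≤ v.1 → v ∈ S) →
      (∑' E : Finset (Ed D), if Reach x E s ∧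
          (∀ t, x.1 ≤ t → t < x.1 + s → ¬ Nice A x E t) then M.wt J S x E else 0) ≤
        ENNReal.ofReal (C * Real.exp (-(ξ + c) * s))

end

end Pool.Agent.MP_48a2f9_mp.OZ
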