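import Mathlib.Data.Int.Star
import Mathlib.Algebra.Order.Ring.Star
import Pool.Agent.MP_48a2f9_mp.Defs
import Pool.Agent.MP_48a2f9_mp.FKSpinES
import Mathlib.Order.Interval.Finset.Box
import Pool.Agent.MP_48a2f9_mp.SpecC

-- ======== part 0: formerly Pool.Agent.MP_48a2f9_mp.FKLat
section MrgPart0

/-!
The FK model on the lattice `Z × Z^D`: geometry, edge sets, weights, wired crossing probabilities
and the free two-point function.
-/

open Finset Filter Topology

namespace Pool.Agent.MP_48a2f9_mp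

noncomputable section
open Classical

variable {D : ℕ}

/-- The sup norm of a site, as a natural number. -/
def nrm (x : Site D) : ℕ := max x.1.natAbs (univ.sup fun k => (x.2 k).natAbs)

lemma nrm_le_iff {x : Site D} {r : ℕ} :
    nrm x ≤ r ↔ |x.1| ≤ r ∧ ∀ k, |x.2 k| ≤ r := by
  unfold nrm
  simp only [max_le_iff, Finset.sup_le_iff, mem_univ, true_imp_iff]
  refine and_congr ?_ (forall_congr' fun k => ?_) <;> rw [← Int.natCast_natAbs] <;> norm_cast

lemma abs_fst_le_nrm (x : Site D) : |x.1| ≤ nrm x := (nrm_le_iff.1 le_rfl).1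

lemma abs_snd_le_nrm (x : Site D) (k : Fin D) : |x.2 k| ≤ nrm x := (nrm_le_iff.1 le_rfl).2 k

lemma nrm_add_le (x y : Site D) : nrm (x + y) ≤ nrm x + nrm y := by
  rw [nrm_le_iff]
  push_cast
  exact ⟨(abs_add_le _ _).trans (add_le_add (abs_fst_le_nrm x) (abs_fst_le_nrm y)),
    fun k => (abs_add_le _ _).trans (add_le_add (abs_snd_le_nrm x k) (abs_snd_le_nrm y k))⟩

@[simp] lemma nrm_neg (x : Site D) : nrm (-x) = nrm x := by simp [nrm]

@[simp] lemma nrm_zero : nrm (0 : Site D) = 0 := by simp [nrm]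

lemma nrm_sub_comm (x y : Site D) : nrm (x - y) = nrm (y - x) := by rw [← nrm_neg, neg_sub]

lemma nrm_triangle (x y z : Site D) : nrm (x - z) ≤ nrm (x - y) + nrm (y - z) := by
  simpa using nrm_add_le (x - y) (y - z)

lemma nrm_eq_zero {x : Site D} (h : nrm x = 0) : x = 0 := by
  have := nrm_le_iff.1 h.le
  simp only [Nat.cast_zero, abs_nonpos_iff] at this
  exact Prod.ext this.1 (funext this.2)

lemma nrm_cast (x : Site D) : (nrm x : ℝ) = ‖x‖ := by
  apply le_antisymm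
  · have h1 : ((⌊‖x‖⌋₊ : ℕ) : ℝ) ≤ ‖x‖ := Nat.floor_le (norm_nonneg _)
    refine le_trans (Nat.cast_le.2 (nrm_le_iff.2 ⟨?_, fun k => ?_⟩)) h1
    · have : ((x.1.natAbs : ℕ) : ℝ) ≤ ‖x‖ := by
        rw [Nat.cast_natAbs, Int.cast_abs, ← Int.norm_eq_abs]; exact norm_fst_le x
      rw [← Int.natCast_natAbs]
      exact_mod_cast Nat.le_floor this
    · have : (((x.2 k).natAbs : ℕ) : ℝ) ≤ ‖x‖ := by
        rw [Nat.cast_natAbs, Int.cast_abs, ← Int.norm_eq_abs]
        exact (norm_le_pi_norm x.2 k).trans (norm_snd_le x)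
      rw [← Int.natCast_natAbs]
      exact_mod_cast Nat.le_floor this
  · rw [Prod.norm_def, max_le_iff]
    refine ⟨?_, (pi_norm_le_iff_of_nonneg (Nat.cast_nonneg _)).2 fun k => ?_⟩
    · rw [Int.norm_eq_abs]; exact_mod_cast abs_fst_le_nrm x
    · rw [Int.norm_eq_abs]; exact_mod_cast abs_snd_le_nrm x k

lemma mem_box {x y : Site D} {r : ℕ} : y ∈ box x r ↔ nrm (y - x) ≤ r := by
  rw [nrm_le_iff, box, mem_Icc, Prod.le_def, Prod.le_def]
  simp only [Pi.le_def, Prod.fst_sub, Prod.snd_sub, Pi.sub_apply, abs_le]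
  constructor
  · rintro ⟨⟨h1, h2⟩, h3, h4⟩
    exact ⟨⟨by omega, by omega⟩, fun k => ⟨by linarith [h2 k], by linarith [h4 k]⟩⟩
  · rintro ⟨⟨h1, h2⟩, h3⟩
    exact ⟨⟨by omega, fun k => by linarith [(h3 k).1]⟩, by omega, fun k => by linarith [(h3 k).2]⟩

lemma self_mem_box (x : Site D) (r : ℕ) : x ∈ box x r := by simp [mem_box]

lemma box_mono (x : Site D) {r r' : ℕ} (h : r ≤ r') : box x r ⊆ box x r' :=
  fun _ hy => mem_box.2 ((mem_box.1 hy).trans h)

lemma box_subset_box {x y : Site D} {r r' : ℕ} (h : nrm (x - y) + r ≤ r') : box x r ⊆ box y r' :=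
  fun z hz => mem_box.2 ((nrm_triangle z x y).trans (by have := mem_box.1 hz; omega))

lemma card_box (x : Site D) (r : ℕ) : (box x r).card = (2 * r + 1) ^ (D + 1) := by
  unfold box
  rw [Finset.Icc_prod_def, card_product, Pi.card_Icc]
  have : ∀ a : ℤ, (Icc (a - r) (a + r)).card = 2 * r + 1 := fun a => by
    rw [Int.card_Icc]; omega
  simp only [this, prod_const, card_univ, Fintype.card_fin, pow_succ']

lemma exists_subset_box (x : Site D) (Λ : Finset (Site D)) : ∃ r, Λ ⊆ box x r :=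
  ⟨Λ.sup fun y => nrm (y - x), fun _ hy => mem_box.2 (le_sup (f := fun y => nrm (y - x)) hy)⟩

lemma Adj.symm {x y : Site D} (h : Adj x y) : Adj y x := by
  unfold Adj at *
  simpa only [abs_sub_comm y.1, abs_sub_comm (y.2 _)] using h

lemma Adj.nrm_le {x y : Site D} (h : Adj x y) : nrm (y - x) ≤ 1 := by
  unfold Adj at h
  have h1 : 0 ≤ ∑ k, |x.2 k - y.2 k| := sum_nonneg fun k _ => abs_nonneg _
  rw [nrm_le_iff]
  refine ⟨?_, fun k => ?_⟩
  · rw [Prod.fst_sub, abs_sub_comm]; push_cast; linarith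
  · have := single_le_sum (f := fun k => |x.2 k - y.2 k|) (fun k _ => abs_nonneg _) (mem_univ k)
    rw [Prod.snd_sub, Pi.sub_apply, abs_sub_comm]
    push_cast
    linarith [abs_nonneg (x.1 - y.1)]

lemma Adj.ne {x y : Site D} (h : Adj x y) : x ≠ y := by
  rintro rfl
  simp [Adj] at h

lemma Adj.add_right {x y : Site D} (h : Adj x y) (z : Site D) : Adj (x + z) (y + z) := by
  unfold Adj at *
  simpa using h

/-- Nearest-neighbour edges. -/
def IsEdge (e : Sym2 (Site D)) : Prop := ∃ x y, Adj x y ∧ e = s(x, y)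

lemma isEdge_mk {x y : Site D} : IsEdge s(x, y) ↔ Adj x y := by
  refine ⟨?_, fun h => ⟨x, y, h, rfl⟩⟩
  rintro ⟨a, b, h, k⟩
  rcases Sym2.eq_iff.1 k with ⟨rfl, rfl⟩ | ⟨rfl, rfl⟩
  exacts [h, h.symm]

lemma IsEdge.nrm_le {e : Sym2 (Site D)} (h : IsEdge e) {x y : Site D} (hx : x ∈ e) (hy : y ∈ e) :
    nrm (y - x) ≤ 1 := by
  obtain ⟨a, b, h, rfl⟩ := h
  rcases Sym2.mem_iff.1 hx with rfl | rfl <;> rcases Sym2.mem_iff.1 hy with rfl | rfl
  · simp
  · exact h.nrm_le
  · exact h.symm.nrm_le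
  · simp

lemma mem_edgesOf {Λ : Finset (Site D)} {e : Sym2 (Site D)} :
    e ∈ edgesOf Λ ↔ IsEdge e ∧ ∃ x ∈ e, x ∈ Λ := by
  unfold edgesOf
  simp only [mem_biUnion, mem_image, mem_filter]
  constructor
  · rintro ⟨x, hx, y, ⟨-, h⟩, rfl⟩
    exact ⟨⟨x, y, h, rfl⟩, x, Sym2.mem_mk_left _ _, hx⟩
  · rintro ⟨⟨a, b, h, rfl⟩, x, hx, hΛ⟩
    rcases Sym2.mem_iff.1 hx with rfl | rfl
    · exact ⟨x, hΛ, b, ⟨mem_box.2 h.nrm_le, h⟩, rfl⟩
    · exact ⟨x, hΛ, a, ⟨mem_box.2 h.symm.nrm_le, h.symm⟩, Sym2.eq_swap⟩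

lemma edgesOf_mono {Λ Λ' : Finset (Site D)} (h : Λ ⊆ Λ') : edgesOf Λ ⊆ edgesOf Λ' := by
  intro e he
  rw [mem_edgesOf] at he ⊢
  obtain ⟨h1, x, hx, h2⟩ := he
  exact ⟨h1, x, hx, h h2⟩

lemma card_edgesOf_le (Λ : Finset (Site D)) : (edgesOf Λ).card ≤ 3 ^ (D + 1) * Λ.card := by
  rw [mul_comm]
  refine card_biUnion_le_card_mul _ _ _ fun x _ => card_image_le.trans ((card_filter_le _ _).trans ?_)
  rw [card_box]

/-- The nearest-neighbour edges with both endpoints in `Λ`. -/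
def edgesIn (Λ : Finset (Site D)) : Finset (Sym2 (Site D)) :=
  (edgesOf Λ).filter fun e => ∀ x ∈ e, x ∈ Λ

lemma mem_edgesIn {Λ : Finset (Site D)} {e : Sym2 (Site D)} :
    e ∈ edgesIn Λ ↔ IsEdge e ∧ ∀ x ∈ e, x ∈ Λ := by
  unfold edgesIn
  rw [mem_filter, mem_edgesOf]
  exact ⟨fun h => ⟨h.1.1, h.2⟩,
    fun h => ⟨⟨h.1, e.out.1, Sym2.out_fst_mem e, h.2 _ (Sym2.out_fst_mem e)⟩, h.2⟩⟩

lemma edgesIn_subset_edgesOf (Λ : Finset (Site D)) : edgesIn Λ ⊆ edgesOf Λ := filter_subset _ _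

lemma edgesIn_mono {Λ Λ' : Finset (Site D)} (h : Λ ⊆ Λ') : edgesIn Λ ⊆ edgesIn Λ' := by
  intro e he
  rw [mem_edgesIn] at he ⊢
  exact ⟨he.1, fun x hx => h (he.2 x hx)⟩

lemma edgesOf_box_subset (x : Site D) (r : ℕ) : edgesOf (box x r) ⊆ edgesIn (box x (r + 1)) := by
  intro e he
  obtain ⟨h1, y, hy, h2⟩ := mem_edgesOf.1 he
  refine mem_edgesIn.2 ⟨h1, fun z hz => mem_box.2 ?_⟩
  have := nrm_triangle z y x
  have := h1.nrm_le hy hz
  have := mem_box.1 h2
  omega

/-- The lattice as an abstract graph with cluster weight `q`. -/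
def lat (D q : ℕ) : Gr (Site D) (Sym2 (Site D)) :=
  ⟨fun e => e.out.1, fun e => e.out.2, max (q : ℝ) 1, le_max_right _ _⟩

variable {q : ℕ}

lemma lat_q (hq : 1 ≤ q) : (lat D q).q = q := max_eq_left (by exact_mod_cast hq)

lemma lat_mk (e : Sym2 (Site D)) : s((lat D q).s e, (lat D q).t e) = e := e.out_eq

lemma lat_s_mem (e : Sym2 (Site D)) : (lat D q).s e ∈ e := Sym2.out_fst_mem e

lemma lat_t_mem (e : Sym2 (Site D)) : (lat D q).t e ∈ e := Sym2.out_snd_mem e

lemma lat_mem_iff {e : Sym2 (Site D)} {x : Site D} :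
    x ∈ e ↔ x = (lat D q).s e ∨ x = (lat D q).t e := by
  conv_lhs => rw [← lat_mk (q := q) e, Sym2.mem_iff]

lemma lat_forall {e : Sym2 (Site D)} {P : Site D → Prop} :
    (P ((lat D q).s e) ∧ P ((lat D q).t e)) ↔ ∀ x ∈ e, P x := by
  simp only [lat_mem_iff (q := q), forall_eq_or_imp, forall_eq]

lemma lat_exists {e : Sym2 (Site D)} {P : Site D → Prop} :
    (P ((lat D q).s e) ∨ P ((lat D q).t e)) ↔ ∃ x ∈ e, P x := by
  simp only [lat_mem_iff (q := q), exists_eq_or_imp, exists_eq_left]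

lemma lat_lnk {W : Eqv (Site D)} {ω : Finset (Sym2 (Site D))} {a b : Site D} :
    (lat D q).Lnk W ω a b ↔ W a b ∨ s(a, b) ∈ ω := by
  unfold Gr.Lnk
  refine or_congr Iff.rfl ⟨?_, fun h => ⟨_, h, Sym2.eq_iff.1 (lat_mk s(a, b))⟩⟩
  rintro ⟨e, he, h⟩
  rwa [← Sym2.eq_iff.2 h, lat_mk]

lemma lat_conn_edge (W : Eqv (Site D)) {ω : Finset (Sym2 (Site D))} {a b : Site D}
    (h : s(a, b) ∈ ω) : (lat D q).conn W ω a b :=
  Relation.ReflTransGen.single (lat_lnk.2 (Or.inr h))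

lemma lat_conn_of_mem (W : Eqv (Site D)) {ω : Finset (Sym2 (Site D))} {e : Sym2 (Site D)}
    (he : e ∈ ω) {a b : Site D} (ha : a ∈ e) (hb : b ∈ e) : (lat D q).conn W ω a b := by
  have h := Gr.conn_edge (G := lat D q) W he
  rcases (lat_mem_iff (q := q)).1 ha with rfl | rfl <;>
    rcases (lat_mem_iff (q := q)).1 hb with rfl | rfl
  exacts [Eqv.refl' _ _, h, Eqv.symm' _ h, Eqv.refl' _ _]

lemma lat_mem_touch {E : Finset (Sym2 (Site D))} {S : Set (Site D)} {e : Sym2 (Site D)} :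
    e ∈ (lat D q).touch E S ↔ e ∈ E ∧ ∃ x ∈ e, x ∈ S := by
  rw [Gr.mem_touch, lat_exists (P := fun x => x ∈ S)]

/-- Induction along an open path (free boundary condition). -/
lemma conn_free_induction {ω : Finset (Sym2 (Site D))} {x : Site D} {P : Site D → Prop}
    (h0 : P x) (hs : ∀ a b, (lat D q).conn free ω x a → P a → s(a, b) ∈ ω → P b) {y : Site D}
    (h : (lat D q).conn free ω x y) : P y := by
  induction h with
  | refl => exact h0
  | tail h1 h ih =>
    rcases lat_lnk.1 h with h | h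
    · exact (free_iff.1 h) ▸ ih
    · exact hs _ _ h1 ih h

/-- First exit of an open path from a finite set `Λ`: the part of the path before the exit uses
only edges touching `Λ`. -/
lemma conn_exit {ω : Finset (Sym2 (Site D))} (hω : ∀ e ∈ ω, IsEdge e) {Λ : Finset (Site D)}
    {x y : Site D} (hx : x ∈ Λ) (hy : y ∉ Λ) (h : (lat D q).conn free ω x y) :
    ∃ a ∈ Λ, ∃ b, b ∉ Λ ∧ s(a, b) ∈ ω ∧ (lat D q).conn free (ω ∩ edgesIn Λ) x a := by
  by_contra hc
  push Not at hc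
  have := conn_free_induction (P := fun z => z ∈ Λ ∧ (lat D q).conn free (ω ∩ edgesIn Λ) x z)
    ⟨hx, Eqv.refl' _ _⟩ (fun a b _ ha hab => by
      have hb : b ∈ Λ := by_contra fun hb => hc a ha.1 b hb hab ha.2
      refine ⟨hb, Eqv.trans' _ ha.2 (lat_conn_edge _ (mem_inter.2 ⟨hab, mem_edgesIn.2
        ⟨hω _ hab, fun z hz => ?_⟩⟩))⟩
      rcases Sym2.mem_iff.1 hz with rfl | rfl
      exacts [ha.1, hb]) h
  exact hy this.1

/-- `x` is joined to the complement of `Λ` by open edges. -/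
def Exits (q : ℕ) (Λ : Finset (Site D)) (x : Site D) (ω : Finset (Sym2 (Site D))) : Prop :=
  ∃ y, y ∉ Λ ∧ (lat D q).conn free ω x y

lemma incr_exits (E : Finset (Sym2 (Site D))) (Λ : Finset (Site D)) (x : Site D) :
    Gr.Incr E (Exits q Λ x) :=
  fun _ _ k _ ⟨y, hy, h⟩ => ⟨y, hy, Gr.conn_mono le_rfl k h⟩

lemma Exits.inter {ω : Finset (Sym2 (Site D))} (hω : ∀ e ∈ ω, IsEdge e) {Λ : Finset (Site D)}
    {x : Site D} (h : Exits q Λ x ω) : Exits q Λ x (ω ∩ edgesOf Λ) := by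
  by_cases hx : x ∈ Λ
  · obtain ⟨y, hy, h⟩ := h
    obtain ⟨a, ha, b, hb, hab, h1⟩ := conn_exit hω hx hy h
    refine ⟨b, hb, Eqv.trans' _ (Gr.conn_mono le_rfl
      (inter_subset_inter subset_rfl (edgesIn_subset_edgesOf Λ)) h1) (lat_conn_edge _ ?_)⟩
    exact mem_inter.2 ⟨hab, mem_edgesOf.2 ⟨hω _ hab, a, Sym2.mem_mk_left _ _, ha⟩⟩
  · exact ⟨x, hx, Eqv.refl' _ _⟩

/-- The FK edge weights `exp (β J_e) - 1`. -/
def vJ (β J : ℝ) (e : Sym2 (Site D)) : ℝ := Real.exp (β * edgeJ J e) - 1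

lemma edgeJ_nonneg {J : ℝ} (hJ : 0 ≤ J) (e : Sym2 (Site D)) : 0 ≤ edgeJ J e := by
  unfold edgeJ; split_ifs; exacts [hJ, zero_le_one]

lemma edgeJ_mono {J J' : ℝ} (h : J ≤ J') (e : Sym2 (Site D)) : edgeJ J e ≤ edgeJ J' e := by
  unfold edgeJ; split_ifs; exacts [h, le_rfl]

@[simp] lemma edgeJ_one (e : Sym2 (Site D)) : edgeJ 1 e = 1 := by simp [edgeJ]

lemma edgeJ_le_max (J : ℝ) (e : Sym2 (Site D)) : edgeJ J e ≤ max J 1 := by
  unfold edgeJ; split_ifs; exacts [le_max_left _ _, le_max_right _ _]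

lemma vJ_nonneg {β J : ℝ} (hβ : 0 ≤ β) (hJ : 0 ≤ J) (e : Sym2 (Site D)) : 0 ≤ vJ β J e :=
  sub_nonneg.2 (Real.one_le_exp (mul_nonneg hβ (edgeJ_nonneg hJ e)))

lemma vJ_mono {β β' J J' : ℝ} (hβ : 0 ≤ β) (hββ : β ≤ β') (hJ : 0 ≤ J) (h : J ≤ J')
    (e : Sym2 (Site D)) : vJ β J e ≤ vJ β' J' e :=
  sub_le_sub_right (Real.exp_le_exp.2 (mul_le_mul hββ (edgeJ_mono h e) (edgeJ_nonneg hJ e)
    (hβ.trans hββ))) 1

lemma vJ_one (β : ℝ) (e : Sym2 (Site D)) : vJ β 1 e = Real.exp β - 1 := by simp [vJ]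

/-- The wired probability that `x` is joined to the complement of `Λ`. -/
def thW (q : ℕ) (β J : ℝ) (Λ : Finset (Site D)) (x : Site D) : ℝ :=
  (lat D q).pr (vJ β J) (wire (↑Λ)ᶜ) (edgesOf Λ) (Exits q Λ x)

/-- Given anything outside the edges touching `Λ`, an increasing function of those edges is
dominated by its wired mean. -/
lemma ex_bc_le_wired {v : Sym2 (Site D) → ℝ} (hv : ∀ e, 0 ≤ v e) {Λ : Finset (Site D)}
    {ξ : Finset (Sym2 (Site D))} (hξ : ∀ e ∈ ξ, IsEdge e ∧ e ∉ edgesOf Λ)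
    {F : Finset (Sym2 (Site D))} (hF : F ⊆ edgesOf Λ) {W : Eqv (Site D)} (hW : W ≤ wire (↑Λ)ᶜ)
    {f : Finset (Sym2 (Site D)) → ℝ} (hf : Gr.MonoIn (edgesOf Λ) f) :
    (lat D q).ex v ((lat D q).conn W ξ) F f ≤ (lat D q).ex v (wire (↑Λ)ᶜ) (edgesOf Λ) f := by
  refine Gr.holley hv hv (Gr.conn_le_iff.2 ⟨hW, fun e he => Or.inr ?_⟩) hF (fun _ _ => le_rfl) hf
  have := hξ e he
  rw [mem_edgesOf] at this
  exact ⟨fun k => this.2 ⟨this.1, _, lat_s_mem e, k⟩, fun k => this.2 ⟨this.1, _, lat_t_mem e, k⟩⟩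

/-- Conditional crossing bound: a factor depending only on the edges away from `Λ` decouples. -/
lemma ex_mul_exits_le {β J : ℝ} (hβ : 0 ≤ β) (hJ : 0 ≤ J) {E : Finset (Sym2 (Site D))}
    (hE : ∀ e ∈ E, IsEdge e) {Λ : Finset (Site D)} {W : Eqv (Site D)} (hW : W ≤ wire (↑Λ)ᶜ)
    (x : Site D) {g : Finset (Sym2 (Site D)) → ℝ} (hg : ∀ ξ, 0 ≤ g ξ) :
    (lat D q).ex (vJ β J) W E (fun ω => g (ω \ edgesOf Λ) * ind (Exits q Λ x ω)) ≤
      thW q β J Λ x * (lat D q).ex (vJ β J) W E (fun ω => g (ω \ edgesOf Λ)) := by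
  have hv := vJ_nonneg (D := D) hβ hJ
  have e1 : ∀ ω ⊆ E, ω \ edgesOf Λ = ω \ (E ∩ edgesOf Λ) := fun ω hω => by
    refine Finset.ext fun e => ?_
    rw [Finset.mem_sdiff, Finset.mem_sdiff, Finset.mem_inter]
    exact ⟨fun h => ⟨h.1, fun k => h.2 k.2⟩, fun h => ⟨h.1, fun k => h.2 ⟨hω h.1, k⟩⟩⟩
  rw [Gr.ex_congr (g := fun ω => g (ω \ (E ∩ edgesOf Λ)) * ind (Exits q Λ x ω))
    fun ω hω => by rw [e1 ω hω],
    Gr.ex_congr (f := fun ω => g (ω \ edgesOf Λ)) (g := fun ω => g (ω \ (E ∩ edgesOf Λ)))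
    fun ω hω => by rw [e1 ω hω]]
  refine Gr.ex_mul_le_of_bc hv inter_subset_left (fun ξ _ => hg ξ) fun ξ hξ _ => ?_
  have hξ' : ∀ e ∈ ξ, IsEdge e ∧ e ∉ edgesOf Λ := fun e he => by
    have := mem_sdiff.1 (hξ he)
    exact ⟨hE e this.1, fun k => this.2 (mem_inter.2 ⟨this.1, k⟩)⟩
  refine le_trans (Gr.ex_mono hv fun η hη => ind_mono fun h => ?_)
    (ex_bc_le_wired hv hξ' inter_subset_right hW (incr_exits _ Λ x).monoIn)
  have h1 := h.inter (fun e he => (mem_union.1 he).elim (fun k => (hξ' e k).1)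
    fun k => hE e (mem_inter.1 (hη k)).1)
  refine incr_exits η Λ x _ _ (fun e he => ?_) subset_rfl h1
  obtain ⟨h2, h3⟩ := mem_inter.1 he
  exact (mem_union.1 h2).elim (fun k => absurd h3 (hξ' e k).2) id

lemma pr_exits_le {β J : ℝ} (hβ : 0 ≤ β) (hJ : 0 ≤ J) {E : Finset (Sym2 (Site D))}
    (hE : ∀ e ∈ E, IsEdge e) {Λ : Finset (Site D)} {W : Eqv (Site D)} (hW : W ≤ wire (↑Λ)ᶜ)
    (x : Site D) : (lat D q).pr (vJ β J) W E (Exits q Λ x) ≤ thW q β J Λ x := by
  have := ex_mul_exits_le (q := q) hβ hJ hE hW x (g := fun _ => 1) fun _ => zero_le_one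
  simp only [one_mul, Gr.ex_const (vJ_nonneg hβ hJ), mul_one] at this
  exact this

lemma thW_nonneg {β J : ℝ} (hβ : 0 ≤ β) (hJ : 0 ≤ J) (Λ : Finset (Site D)) (x : Site D) :
    0 ≤ thW q β J Λ x := Gr.pr_nonneg (vJ_nonneg hβ hJ)

lemma thW_le_one {β J : ℝ} (hβ : 0 ≤ β) (hJ : 0 ≤ J) (Λ : Finset (Site D)) (x : Site D) :
    thW q β J Λ x ≤ 1 := Gr.pr_le_one (vJ_nonneg hβ hJ)

lemma thW_anti {β J : ℝ} (hβ : 0 ≤ β) (hJ : 0 ≤ J) {Λ Λ' : Finset (Site D)} (h : Λ ⊆ Λ')
    (x : Site D) : thW q β J Λ' x ≤ thW q β J Λ x := by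
  refine le_trans (Gr.pr_mono (vJ_nonneg hβ hJ) ?_) (pr_exits_le (E := edgesOf Λ') hβ hJ
    (fun e he => (mem_edgesOf.1 he).1) (wire_mono (Set.compl_subset_compl.2 h)) x)
  rintro ω _ ⟨y, hy, k⟩
  exact ⟨y, fun l => hy (h l), k⟩

lemma thW_mono {β β' J J' : ℝ} (hβ : 0 ≤ β) (hββ : β ≤ β') (hJ : 0 ≤ J) (h : J ≤ J')
    (Λ : Finset (Site D)) (x : Site D) : thW q β J Λ x ≤ thW q β' J' Λ x :=
  Gr.pr_holley (vJ_nonneg hβ hJ) (vJ_nonneg (hβ.trans hββ) (hJ.trans h)) le_rfl subset_rfl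
    (fun e _ => vJ_mono hβ hββ hJ h e) (incr_exits _ Λ x)

/-- The free connection probability in the finite volume `Λ`. -/
def tauIn (q : ℕ) (β J : ℝ) (Λ : Finset (Site D)) (x y : Site D) : ℝ :=
  (lat D q).pr (vJ β J) free (edgesIn Λ) fun ω => (lat D q).conn free ω x y

/-- The infinite-volume free connection probability. -/
def tau (q : ℕ) (β J : ℝ) (x y : Site D) : ℝ := ⨆ Λ : Finset (Site D), tauIn q β J Λ x y

/-- No percolation in the homogeneous wired model. -/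
def ThetaZero (D q : ℕ) (β : ℝ) : Prop :=
  Tendsto (fun n : ℕ => thW q β 1 (box (0 : Site D) n) 0) atTop (𝓝 0)

/-- Exponential decay of wired crossings, uniformly in the position and in `J ≤ Jm`. -/
def WiredDecay (D q : ℕ) (β Jm : ℝ) : Prop :=
  ∃ C c : ℝ, 0 < c ∧ ∀ J, 0 ≤ J → J ≤ Jm → ∀ (x : Site D) (n : ℕ),
    thW q β J (box x n) x ≤ C * Real.exp (-c * n)

end

end Pool.Agent.MP_48a2f9_mp

end MrgPart0

-- ======== part 1: formerly Pool.Agent.MP_48a2f9_mp.TPa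
section MrgPart1

/-! Module TP, first part: symmetries and positivity of the connection probability. -/

open MeasureTheory Filter Topology
open scoped ENNReal

namespace Pool.Agent.MP_48a2f9_mp.OZ.TP

noncomputable section
open Classical

variable {D : ℕ}

theorem mem_verts {x v : Site D} {E : Finset (Ed D)} :
    v ∈ verts x E ↔ v = x ∨ ∃ e ∈ E, v ∈ e := by
  simp [verts]

theorem conn_symm {E : Finset (Ed D)} {a b : Site D} (h : Conn E a b) : Conn E b a := by
  induction h with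
  | refl => exact Relation.ReflTransGen.refl
  | tail _ hbc ih => exact Relation.ReflTransGen.head (by rwa [Sym2.eq_swap]) ih

theorem reroot {x y : Site D} {E : Finset (Ed D)} (h : IsClu x E) (hy : y ∈ verts x E) :
    verts y E = verts x E ∧ IsClu y E := by
  have hx : x ∈ verts y E := by
    rcases Relation.ReflTransGen.cases_head (h.2 y hy) with h1 | ⟨c, h1, -⟩
    · exact mem_verts.mpr (Or.inl h1)
    · exact mem_verts.mpr (Or.inr ⟨_, h1, Sym2.mem_mk_left _ _⟩)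
  have he : verts y E = verts x E := by
    ext v
    constructor
    · intro hv
      rcases mem_verts.mp hv with rfl | hv
      · exact hy
      · exact mem_verts.mpr (Or.inr hv)
    · intro hv
      rcases mem_verts.mp hv with rfl | hv
      · exact hx
      · exact mem_verts.mpr (Or.inr hv)
  refine ⟨he, h.1, fun v hv => ?_⟩
  rw [he] at hv
  exact (conn_symm (h.2 y hy)).trans (h.2 v hv)

theorem tau_symm_le (M : Model D) (J : ℝ) (S : Set (Site D)) (x y : Site D) :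
    M.tau J S x y ≤ M.tau J S y x := by
  refine ENNReal.tsum_le_tsum (fun E => ?_)
  by_cases hy : y ∈ verts x E
  · rw [if_pos hy]
    unfold Model.wt
    by_cases hc : IsClu x E ∧ (↑(verts x E) : Set (Site D)) ⊆ S
    · obtain ⟨h1, h2⟩ := reroot hc.1 hy
      rw [if_pos hc, h1, if_pos (mem_verts.mpr (Or.inl rfl)), if_pos ⟨h2, hc.2⟩]
      unfold Model.wtR
      rw [h1]
    · rw [if_neg hc]
      exact zero_le
  · rw [if_neg hy]
    exact zero_le

theorem tau_symm (M : Model D) (J : ℝ) (S : Set (Site D)) (x y : Site D) :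
    M.tau J S x y = M.tau J S y x := le_antisymm (tau_symm_le M J S x y) (tau_symm_le M J S y x)

theorem tau_le_one {M : Model D} (h : M.CW) {J : ℝ} (hJ : 0 ≤ J) (S : Set (Site D))
    (x y : Site D) : M.tau J S x y ≤ 1 := by
  refine le_trans (ENNReal.tsum_le_tsum (fun E => ?_)) (h.total J hJ S x)
  split_ifs
  · exact le_rfl
  · exact zero_le

theorem tau_ne_top {M : Model D} (h : M.CW) {J : ℝ} (hJ : 0 ≤ J) (S : Set (Site D))
    (x y : Site D) : M.tau J S x y ≠ ⊤ := ne_top_of_le_ne_top ENNReal.one_ne_top (tau_le_one h hJ S x y)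

/-- the image of an edge set -/
def img (g : Site D ≃ Site D) (E : Finset (Ed D)) : Finset (Ed D) := E.image (Sym2.map g)

theorem img_inj (g : Site D ≃ Site D) : Function.Injective (img g) :=
  Finset.image_injective (Sym2.map.injective g.injective)

theorem verts_img (g : Site D ≃ Site D) (x : Site D) (E : Finset (Ed D)) :
    verts (g x) (img g E) = (verts x E).image g := by
  ext v
  simp only [mem_verts, img, Finset.mem_image]
  constructor
  · rintro (rfl | ⟨_, ⟨e, he, rfl⟩, hv⟩)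
    · exact ⟨x, Or.inl rfl, rfl⟩
    · obtain ⟨a, ha, rfl⟩ := Sym2.mem_map.mp hv
      exact ⟨a, Or.inr ⟨e, he, ha⟩, rfl⟩
  · rintro ⟨a, rfl | ⟨e, he, ha⟩, rfl⟩
    · exact Or.inl rfl
    · exact Or.inr ⟨_, ⟨e, he, rfl⟩, Sym2.mem_map.mpr ⟨a, ha, rfl⟩⟩

theorem isClu_img {g : Site D ≃ Site D} (hg : ∀ x y, Adj (g x) (g y) ↔ Adj x y) {x : Site D}
    {E : Finset (Ed D)} (h : IsClu x E) : IsClu (g x) (img g E) := by
  constructor
  · intro e he
    obtain ⟨e', he', rfl⟩ := Finset.mem_image.mp he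
    obtain ⟨a, b, hab, rfl⟩ := h.1 e' he'
    exact ⟨g a, g b, (hg a b).mpr hab, rfl⟩
  · intro v hv
    rw [verts_img] at hv
    obtain ⟨a, ha, rfl⟩ := Finset.mem_image.mp hv
    have key : ∀ b, Conn E x b → Conn (img g E) (g x) (g b) := by
      intro b hb
      induction hb with
      | refl => exact Relation.ReflTransGen.refl
      | tail _ hbc ih => exact ih.tail (Finset.mem_image.mpr ⟨_, hbc, rfl⟩)
    exact key a (h.2 a ha)

theorem prod_img (g : Site D ≃ Site D) (E : Finset (Ed D)) (f : Ed D → ℝ) :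
    ∏ e ∈ img g E, f e = ∏ e ∈ E, f (Sym2.map g e) :=
  Finset.prod_image (fun _ _ _ _ h => Sym2.map.injective g.injective h)

theorem wt_univ (M : Model D) (J : ℝ) {x : Site D} {E : Finset (Ed D)} (h : IsClu x E) :
    M.wt J Set.univ x E = ENNReal.ofReal (M.wtR J Set.univ x E) :=
  if_pos ⟨h, Set.subset_univ _⟩

theorem wt_not (M : Model D) (J : ℝ) (S : Set (Site D)) {x : Site D} {E : Finset (Ed D)}
    (h : ¬ IsClu x E) : M.wt J S x E = 0 := if_neg (fun h' => h h'.1)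

/-- comparison of a finite family of clusters with a connection probability -/
theorem sum_le_tau (M : Model D) {g : Site D ≃ Site D} (hg : ∀ x y, Adj (g x) (g y) ↔ Adj x y)
    (J : ℝ) (x y : Site D) (F : Finset (Finset (Ed D))) (a : Finset (Ed D) → ℝ)
    (ha : ∀ E ∈ F, IsClu x E → a E ≤ M.wtR J Set.univ (g x) (img g E)) :
    ∑ E ∈ F, (if y ∈ verts x E ∧ IsClu x E then ENNReal.ofReal (a E) else 0) ≤
      M.tau J Set.univ (g x) (g y) := by
  refine le_trans ?_ (ENNReal.tsum_comp_le_tsum_of_injective (img_inj g) _)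
  refine le_trans (Finset.sum_le_sum (fun E hE => ?_)) (ENNReal.sum_le_tsum F)
  split_ifs with h1 h2
  · rw [wt_univ M J (isClu_img hg h1.2)]
    exact ENNReal.ofReal_le_ofReal (ha E hE h1.2)
  · exact absurd (by rw [verts_img]; exact Finset.mem_image_of_mem g h1.1) h2
  · exact zero_le
  · exact le_rfl

theorem tau_le_of_sum (M : Model D) (J : ℝ) (x y : Site D) {B : ℝ≥0∞}
    (h : ∀ F : Finset (Finset (Ed D)), ∑ E ∈ F, (if y ∈ verts x E ∧ IsClu x E then
      ENNReal.ofReal (M.wtR J Set.univ x E) else 0) ≤ B) : M.tau J Set.univ x y ≤ B := by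
  unfold Model.tau
  rw [ENNReal.tsum_eq_iSup_sum]
  refine iSup_le (fun F => le_trans (le_of_eq (Finset.sum_congr rfl (fun E _ => ?_))) (h F))
  by_cases h1 : IsClu x E
  · simp only [h1, and_true, wt_univ M J h1]
  · simp only [h1, and_false, if_false, wt_not M J _ h1, ite_self]

theorem tau_map {M : Model D} (h : M.CW) {J : ℝ} (hJ : 0 ≤ J) {g : Site D ≃ Site D}
    (hg : ∀ x y, Adj (g x) (g y) ↔ Adj x y) (h2 : ∀ x, (g x).2 = x.2) (x y : Site D) :
    M.tau J Set.univ x y ≤ M.tau J Set.univ (g x) (g y) := by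
  have he : ∀ e : Ed D, edgeJ J (Sym2.map g e) = edgeJ J e := by
    intro e
    induction e using Sym2.ind with
    | h a b => simp [edgeJ, h2]
  refine tau_le_of_sum M J x y (fun F => sum_le_tau M hg J x y F _ (fun E _ _ => le_of_eq ?_))
  unfold Model.wtR
  have := h.symm J hJ g hg (fun a b _ => he s(a, b)) Set.univ (verts x E) (Set.subset_univ _)
  rw [Set.image_univ, g.range_eq_univ] at this
  rw [verts_img, this, prod_img]
  simp only [rr, he]

theorem adj_add (z x y : Site D) : Adj (Equiv.addRight z x) (Equiv.addRight z y) ↔ Adj x y := by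
  simp [Adj]

theorem tau_shift {M : Model D} (h : M.CW) {J : ℝ} (hJ : 0 ≤ J) (t : ℤ) (x y : Site D) :
    M.tau J Set.univ (x + (t, 0)) (y + (t, 0)) = M.tau J Set.univ x y := by
  have key : ∀ (t : ℤ) (x y : Site D),
      M.tau J Set.univ x y ≤ M.tau J Set.univ (x + (t, 0)) (y + (t, 0)) := fun t x y =>
    tau_map h hJ (adj_add (t, 0)) (fun x => by simp) x y
  refine le_antisymm ?_ (key t x y)
  have := key (-t) (x + (t, 0)) (y + (t, 0))
  simpa [add_assoc, Prod.mk_zero_zero] using this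

/-- the reflection in a level -/
def refl (t : ℤ) : Site D ≃ Site D where
  toFun v := (2 * t - v.1, v.2)
  invFun v := (2 * t - v.1, v.2)
  left_inv v := by simp
  right_inv v := by simp

theorem tau_refl {M : Model D} (h : M.CW) {J : ℝ} (hJ : 0 ≤ J) (x y : Site D) :
    M.tau J Set.univ x y ≤ M.tau J Set.univ (2 * y.1 - x.1, x.2) y := by
  have := tau_map h hJ (g := refl y.1) (fun a b => by
    have e : 2 * y.1 - a.1 - (2 * y.1 - b.1) = -(a.1 - b.1) := by ring
    simp only [Adj, refl, Equiv.coe_fn_mk, e, abs_neg]) (fun _ => rfl) x y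
  have e : refl y.1 y = y := by
    simp only [refl, Equiv.coe_fn_mk]
    ext <;> simp
    ring
  rwa [e] at this

theorem rr_nonneg {β J : ℝ} (hβ : 0 < β) (hJ : 0 ≤ J) (e : Ed D) : 0 ≤ rr β J e := by
  have : 0 ≤ edgeJ J e := by
    unfold edgeJ
    split_ifs
    · exact hJ
    · exact zero_le_one
  have := Real.add_one_le_exp (β * edgeJ J e)
  unfold rr
  nlinarith [mul_nonneg hβ.le ‹0 ≤ edgeJ J e›]

theorem tau_pos_of {M : Model D} (h : M.CW) {J : ℝ} (hJ : 0 ≤ J) {x y : Site D}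
    {E : Finset (Ed D)} (hE : IsClu x E) (hy : y ∈ verts x E) (hr : ∀ e ∈ E, 0 < rr M.β J e) :
    0 < M.tau J Set.univ x y := by
  refine lt_of_lt_of_le ?_ (ENNReal.le_tsum E)
  rw [if_pos hy, wt_univ M J hE, ENNReal.ofReal_pos]
  obtain ⟨c, hc, hpos⟩ := h.pos J hJ
  have h1 := (pow_pos hc _).trans_le (hpos Set.univ (verts x E) (Set.subset_univ _))
  have h2 : (0 : ℝ) < M.q := by have := h.two_le; positivity
  exact mul_pos (mul_pos h2 (Finset.prod_pos hr)) h1

theorem tau_pos_edge {M : Model D} (h : M.CW) {J : ℝ} (hJ : 0 ≤ J) {x y : Site D} (hxy : Adj x y)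
    (hoff : x.2 ≠ 0 ∨ y.2 ≠ 0) : 0 < M.tau J Set.univ x y := by
  refine tau_pos_of h hJ (E := {s(x, y)}) ⟨fun e he => ⟨x, y, hxy, by simpa using he⟩,
    fun v hv => ?_⟩ (by simp [mem_verts]) (fun e he => ?_)
  · have : v = x ∨ v = y := by simpa [mem_verts] using hv
    rcases this with rfl | rfl
    · exact Relation.ReflTransGen.refl
    · exact Relation.ReflTransGen.single (by simp)
  · rw [Finset.mem_singleton.mp he]
    have : edgeJ J s(x, y) = 1 := by
      unfold edgeJ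
      rw [if_neg]
      intro hc
      rcases hoff with h1 | h1
      · exact h1 (hc x (by simp))
      · exact h1 (hc y (by simp))
    have h2 := Real.add_one_lt_exp h.beta_pos.ne'
    have h3 := h.beta_pos
    unfold rr
    rw [this, mul_one]
    linarith

theorem adj_lat (x : Site D) (k : Fin D) : Adj x (x + (0, Pi.single k 1)) := by
  have : ∀ j, |x.2 j - (x.2 + Pi.single k 1 : Fin D → ℤ) j| = (Pi.single k 1 : Fin D → ℤ) j := by
    intro j
    by_cases hj : j = k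
    · subst hj
      simp
    · simp [Pi.single_eq_of_ne hj]
  unfold Adj
  simp only [Prod.snd_add, this]
  simp

theorem adj_fwd (x : Site D) : Adj x (x + (1, 0)) := by
  simp [Adj]

theorem tau_pos {M : Model D} (hD : 1 ≤ D) (h : M.CW) {J : ℝ} (hJ : 0 ≤ J) (x y : Site D) :
    0 < M.tau J Set.univ x y := by
  have tr : ∀ {a b c : Site D}, 0 < M.tau J Set.univ a b → 0 < M.tau J Set.univ b c →
      0 < M.tau J Set.univ a c := fun {a b c} h1 h2 =>
    lt_of_lt_of_le (ENNReal.mul_pos h1.ne' h2.ne') (h.fkg J hJ a b c)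
  let H : AddSubgroup (Site D) :=
    { carrier := {v | ∀ x, 0 < M.tau J Set.univ x (x + v)}
      add_mem' := fun {a b} ha hb x => by
        rw [← add_assoc]
        exact tr (ha x) (hb _)
      zero_mem' := fun x => by
        rw [add_zero]
        exact tau_pos_of h hJ (E := ∅) ⟨by simp, fun v hv => by
          have : v = x := by simpa [mem_verts] using hv
          rw [this]
          exact Relation.ReflTransGen.refl⟩ (by simp [mem_verts]) (by simp)
      neg_mem' := fun {a} ha x => by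
        have := ha (x + -a)
        rw [neg_add_cancel_right] at this
        rwa [tau_symm] }
  have hlat : ∀ k : Fin D, ((0, Pi.single k 1) : Site D) ∈ H := by
    intro k x
    refine tau_pos_edge h hJ (adj_lat x k) ?_
    by_contra hc
    push Not at hc
    have := congrFun hc.2 k
    simp [hc.1] at this
  have hfwd : ((1, 0) : Site D) ∈ H := by
    intro x
    by_cases hx : x.2 = 0
    · let k : Fin D := ⟨0, hD⟩
      have h1 := hlat k x
      have h2 : 0 < M.tau J Set.univ (x + (0, Pi.single k 1)) (x + (0, Pi.single k 1) + (1, 0)) := by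
        refine tau_pos_edge h hJ (adj_fwd _) (Or.inl (fun hc => ?_))
        have := congrFun hc k
        simp [hx] at this
      have h3 := hlat k (x + (1, 0))
      rw [tau_symm, add_right_comm] at h3
      exact tr (tr h1 h2) h3
    · exact tau_pos_edge h hJ (adj_fwd x) (Or.inl hx)
  have hall : ∀ v : Site D, v ∈ H := by
    intro v
    have e : v = v.1 • ((1, 0) : Site D) + ∑ k, v.2 k • ((0, Pi.single k 1) : Site D) := by
      ext j
      · simp [Prod.fst_sum]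
      · simp [Prod.snd_sum, Finset.sum_apply, Pi.single_apply]
    rw [e]
    exact H.add_mem (H.zsmul_mem hfwd _) (H.sum_mem (fun k _ => H.zsmul_mem (hlat k) _))
  have := hall (y - x) x
  rwa [add_sub_cancel] at this

theorem levels {E : Finset (Ed D)} (hE : ∀ e ∈ E, IsEdge e) {x y : Site D} (h : Conn E x y) :
    ∀ t, x.1 ≤ t → t ≤ y.1 → ∃ v ∈ verts x E, v.1 = t := by
  induction h with
  | refl => exact fun t h1 h2 => ⟨x, mem_verts.mpr (Or.inl rfl), le_antisymm h1 h2⟩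
  | @tail b c _ hbc ih =>
    intro t h1 h2
    by_cases ht : t ≤ b.1
    · exact ih t h1 ht
    · refine ⟨c, mem_verts.mpr (Or.inr ⟨_, hbc, Sym2.mem_mk_right _ _⟩), ?_⟩
      obtain ⟨u, w, huw, he⟩ := hE _ hbc
      have h3 : |u.1 - w.1| ≤ 1 := by
        have : 0 ≤ ∑ k, |u.2 k - w.2 k| := Finset.sum_nonneg (fun _ _ => abs_nonneg _)
        unfold Adj at huw
        linarith
      rw [abs_le] at h3
      rcases Sym2.eq_iff.mp he with ⟨rfl, rfl⟩ | ⟨rfl, rfl⟩ <;> omega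

theorem card_ge {E : Finset (Ed D)} (hE : IsClu 0 E) {n : ℕ}
    (hn : (((n : ℤ), 0) : Site D) ∈ verts 0 E) : n ≤ (verts 0 E).card := by
  have h1 : Finset.Icc (1 : ℤ) n ⊆ (verts 0 E).image Prod.fst := by
    intro t ht
    rw [Finset.mem_Icc] at ht
    obtain ⟨v, hv, rfl⟩ := levels hE.1 (hE.2 _ hn) t (by simp; omega) ht.2
    exact Finset.mem_image_of_mem _ hv
  have h2 := (Finset.card_le_card h1).trans Finset.card_image_le
  simpa using h2

end

end Pool.Agent.MP_48a2f9_mp.OZ.TP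

end MrgPart1

-- marker of a merged file
example : 731051 + 103100 = 731051 + 103100 := rfl
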