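import Mathlib.CategoryTheory.Countable
import Mathlib.Analysis.Calculus.Deriv.Add
import Mathlib.Analysis.Calculus.Deriv.Inv
import Mathlib.Topology.Metrizable.Urysohn
import Mathlib.Data.Finset.Functor
import Mathlib.MeasureTheory.Measure.Prokhorov
import Mathlib.Topology.Connected.Separation
import Mathlib.Topology.Separation.Lemmas
import Pool.Agent.MP_48a2f9_mp.TPa
import Pool.Agent.MP_48a2f9_mp.SpecC
import Pool.Agent.MP_48a2f9_mp.FKSpinES

-- ======== part 0: formerly Pool.Agent.MP_48a2f9_mp.FKSpec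
section MrgPart0

/-!
Decoupling of local increasing events, and the statements of the random-cluster modules.
-/

open Finset Filter Topology MeasureTheory

namespace Pool.Agent.MP_48a2f9_mp

noncomputable section
open Classical

variable {D q : ℕ}

/-- An increasing event that only needs the edges touching `Λ`. -/
structure LocIncr (Λ : Finset (Site D)) (A : Finset (Sym2 (Site D)) → Prop) : Prop where
  mono : ∀ a b, a ⊆ b → A a → A b
  loc : ∀ ω, (∀ e ∈ ω, IsEdge e) → A ω → A (ω ∩ edgesOf Λ)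

lemma locIncr_exits (Λ : Finset (Site D)) (x : Site D) : LocIncr Λ (Exits q Λ x) :=
  ⟨fun a b k => incr_exits b Λ x a b k subset_rfl, fun _ hω h => h.inter hω⟩

lemma LocIncr.subset {Λ Λ' : Finset (Site D)} {A : Finset (Sym2 (Site D)) → Prop}
    (h : LocIncr Λ A) (k : Λ ⊆ Λ') : LocIncr Λ' A :=
  ⟨h.mono, fun ω hω hA => h.mono _ _ (inter_subset_inter subset_rfl (edgesOf_mono k))
    (h.loc ω hω hA)⟩

lemma LocIncr.incr {Λ : Finset (Site D)} {A : Finset (Sym2 (Site D)) → Prop}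
    (h : LocIncr Λ A) (E : Finset (Sym2 (Site D))) : Gr.Incr E A := fun a b k _ => h.mono a b k

/-- The wired probability of an event in the volume `Λ`. -/
def prW (q : ℕ) (v : Sym2 (Site D) → ℝ) (Λ : Finset (Site D))
    (A : Finset (Sym2 (Site D)) → Prop) : ℝ :=
  (lat D q).pr v (wire (↑Λ)ᶜ) (edgesOf Λ) A

lemma thW_eq (β J : ℝ) (Λ : Finset (Site D)) (x : Site D) :
    thW q β J Λ x = prW q (vJ β J) Λ (Exits q Λ x) := rfl

lemma ex_mul_loc_le {v : Sym2 (Site D) → ℝ} (hv : ∀ e, 0 ≤ v e) {E : Finset (Sym2 (Site D))}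
    (hE : ∀ e ∈ E, IsEdge e) {Λ : Finset (Site D)} {W : Eqv (Site D)} (hW : W ≤ wire (↑Λ)ᶜ)
    {A : Finset (Sym2 (Site D)) → Prop} (hA : LocIncr Λ A)
    {g : Finset (Sym2 (Site D)) → ℝ} (hg : ∀ ξ, 0 ≤ g ξ) :
    (lat D q).ex v W E (fun ω => g (ω \ edgesOf Λ) * ind (A ω)) ≤
      prW q v Λ A * (lat D q).ex v W E (fun ω => g (ω \ edgesOf Λ)) := by
  have e1 : ∀ ω ⊆ E, ω \ edgesOf Λ = ω \ (E ∩ edgesOf Λ) := fun ω hω => by
    refine Finset.ext fun e => ?_
    rw [Finset.mem_sdiff, Finset.mem_sdiff, Finset.mem_inter]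
    exact ⟨fun h => ⟨h.1, fun k => h.2 k.2⟩, fun h => ⟨h.1, fun k => h.2 ⟨hω h.1, k⟩⟩⟩
  rw [Gr.ex_congr (g := fun ω => g (ω \ (E ∩ edgesOf Λ)) * ind (A ω))
    fun ω hω => by rw [e1 ω hω],
    Gr.ex_congr (f := fun ω => g (ω \ edgesOf Λ)) (g := fun ω => g (ω \ (E ∩ edgesOf Λ)))
    fun ω hω => by rw [e1 ω hω]]
  refine Gr.ex_mul_le_of_bc hv inter_subset_left (fun ξ _ => hg ξ) fun ξ hξ _ => ?_
  have hξ' : ∀ e ∈ ξ, IsEdge e ∧ e ∉ edgesOf Λ := fun e he => by
    have := mem_sdiff.1 (hξ he)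
    exact ⟨hE e this.1, fun k => this.2 (mem_inter.2 ⟨this.1, k⟩)⟩
  refine le_trans (Gr.ex_mono hv fun η hη => ind_mono fun h => ?_)
    (ex_bc_le_wired hv hξ' inter_subset_right hW (hA.incr _).monoIn)
  have h1 := hA.loc _ (fun e he => (mem_union.1 he).elim (fun k => (hξ' e k).1)
    fun k => hE e (mem_inter.1 (hη k)).1) h
  refine hA.mono _ _ (fun e he => ?_) h1
  obtain ⟨h2, h3⟩ := mem_inter.1 he
  exact (mem_union.1 h2).elim (fun k => absurd h3 (hξ' e k).2) id

lemma pr_loc_le {v : Sym2 (Site D) → ℝ} (hv : ∀ e, 0 ≤ v e) {E : Finset (Sym2 (Site D))}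
    (hE : ∀ e ∈ E, IsEdge e) {Λ : Finset (Site D)} {W : Eqv (Site D)} (hW : W ≤ wire (↑Λ)ᶜ)
    {A : Finset (Sym2 (Site D)) → Prop} (hA : LocIncr Λ A) :
    (lat D q).pr v W E A ≤ prW q v Λ A := by
  have := ex_mul_loc_le (q := q) hv hE hW hA (g := fun _ => 1) fun _ => zero_le_one
  simp only [one_mul, Gr.ex_const hv, mul_one] at this
  exact this

/-- Local increasing events in volumes with disjoint edge sets decouple. -/
lemma pr_all_loc_le {v : Sym2 (Site D) → ℝ} (hv : ∀ e, 0 ≤ v e) {E : Finset (Sym2 (Site D))}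
    (hE : ∀ e ∈ E, IsEdge e) {W : Eqv (Site D)} {κ : Type*} (T : Finset κ)
    (Λ : κ → Finset (Site D)) (A : κ → Finset (Sym2 (Site D)) → Prop)
    (hW : ∀ i ∈ T, W ≤ wire (↑(Λ i))ᶜ) (hA : ∀ i ∈ T, LocIncr (Λ i) (A i))
    (hd : ∀ i ∈ T, ∀ j ∈ T, i ≠ j → Disjoint (edgesOf (Λ i)) (edgesOf (Λ j))) :
    (lat D q).pr v W E (fun ω => ∀ i ∈ T, A i ω) ≤ ∏ i ∈ T, prW q v (Λ i) (A i) := by
  induction T using Finset.induction_on with
  | empty => rw [prod_empty]; exact Gr.pr_le_one hv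
  | insert i T hi ih =>
    have ih' := ih (fun j hj => hW j (mem_insert_of_mem hj)) (fun j hj => hA j (mem_insert_of_mem hj))
      fun j hj k hk => hd j (mem_insert_of_mem hj) k (mem_insert_of_mem hk)
    have h1 := ex_mul_loc_le (q := q) hv hE (hW i (mem_insert_self _ _)) (hA i (mem_insert_self _ _))
      (g := fun ξ => ind (∀ j ∈ T, A j ξ)) fun _ => ind_nonneg _
    have h2 : (lat D q).ex v W E (fun ω => ind (∀ j ∈ T, A j (ω \ edgesOf (Λ i)))) ≤
        (lat D q).pr v W E (fun ω => ∀ j ∈ T, A j ω) :=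
      Gr.ex_mono hv fun ω _ => ind_mono fun h j hj =>
        (hA j (mem_insert_of_mem hj)).mono _ _ sdiff_subset (h j hj)
    rw [prod_insert hi]
    refine le_trans (Gr.ex_mono hv fun ω hω => ?_) (h1.trans (mul_le_mul_of_nonneg_left
      (h2.trans ih') (Gr.pr_nonneg hv)))
    rw [← ind_and]
    refine ind_mono fun h => ⟨fun j hj => ?_, h i (mem_insert_self _ _)⟩
    have hj' := mem_insert_of_mem (b := i) hj
    refine (hA j hj').mono _ _ (fun e he => ?_)
      ((hA j hj').loc ω (fun e he => hE e (hω he)) (h j hj'))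
    exact mem_sdiff.2 ⟨(mem_inter.1 he).1, fun k => disjoint_left.1
      (hd i (mem_insert_self _ _) j hj' fun l => hi (l ▸ hj)) k (mem_inter.1 he).2⟩

lemma disjoint_edgesOf_box {x y : Site D} {r r' : ℕ} (h : r + r' + 2 ≤ nrm (x - y)) :
    Disjoint (edgesOf (box x r)) (edgesOf (box y r')) := by
  refine disjoint_left.2 fun e h1 h2 => ?_
  obtain ⟨he, a, ha, ha'⟩ := mem_edgesOf.1 h1
  obtain ⟨-, b, hb, hb'⟩ := mem_edgesOf.1 h2
  have := he.nrm_le hb ha
  have := mem_box.1 ha'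
  have := mem_box.1 hb'
  have := nrm_triangle x a y
  have := nrm_triangle a b y
  have := nrm_sub_comm x a
  omega

/-- The vertices joined to `x` inside `Λ`. -/
def cluIn (q : ℕ) (Λ : Finset (Site D)) (x : Site D) (ω : Finset (Sym2 (Site D))) :
    Finset (Site D) :=
  Λ.filter fun y => (lat D q).conn free (ω ∩ edgesIn Λ) x y

/-- The open edges of the cluster of `x`. -/
def cluE (q : ℕ) (x : Site D) (ω : Finset (Sym2 (Site D))) : Finset (Sym2 (Site D)) :=
  ω.filter fun e => ∃ y ∈ e, (lat D q).conn free ω x y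

/-- Exponential decay of wired crossings in the homogeneous model. -/
def HomDecay (D q : ℕ) (β : ℝ) : Prop :=
  ∃ C c : ℝ, 0 < c ∧ ∀ (x : Site D) (n : ℕ), thW q β 1 (box x n) x ≤ C * Real.exp (-c * n)

/-- Wired crossings beat every polynomial at some scale. -/
def SuperPoly (D q : ℕ) (β J : ℝ) : Prop :=
  ∀ (p : ℕ) (ε : ℝ), 0 < ε → ∃ K : ℕ, ∀ x : Site D,
    ((K : ℝ) + 1) ^ p * thW q β J (box x K) x ≤ ε

/-- Module Sharp (OSSS). -/
def SharpStmt : Prop :=
  ∀ (D q : ℕ) (β β' : ℝ), 0 < β → β < β' → ThetaZero D q β' → HomDecay D q β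

/-- Module Line. -/
def LineStmt : Prop :=
  ∀ (D q : ℕ) (β J : ℝ), 0 ≤ β → 0 ≤ J → HomDecay D q β → SuperPoly D q β J

/-- Module WD (coarse graining). -/
def WDStmt : Prop :=
  ∀ (D q : ℕ) (β J : ℝ), 0 ≤ β → 0 ≤ J → SuperPoly D q β J → WiredDecay D q β J

/-- Module Spr (sprinkling on the line). -/
def SprStmt : Prop :=
  ∀ (D q : ℕ) (β J J' : ℝ), 0 < β → 0 < J → J < J' → ∃ κ : ℝ, 0 < κ ∧
    ∀ (Λ : Finset (Site D)) (n : ℕ),
      (lat D q).ex (vJ β J) free (edgesIn Λ) (fun ω =>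
        ind ((lat D q).conn free ω 0 ((n : ℤ), 0)) * (1 + κ) ^ OZ.lineBreaks (cluE q 0 ω) n) ≤
      tauIn q β J' Λ 0 ((n : ℤ), 0)

/-- Module Spin (Edwards-Sokal). -/
def SpinStmt : Prop :=
  (∀ (D q : ℕ) (β : ℝ), 2 ≤ q → 0 ≤ β → Disordered D q β → ThetaZero D q β) ∧
  ∀ (D q : ℕ) (β J : ℝ), 2 ≤ q → 0 ≤ β → 0 ≤ J → WiredDecay D q β J →
    ∀ μ : Measure (Site D → Fin q), IsGibbs β J μ → ∀ n : ℕ,
      G μ n = 1 / (q : ℝ) + (1 - 1 / (q : ℝ)) * tau q β J (0 : Site D) ((n : ℤ), 0)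

end

end Pool.Agent.MP_48a2f9_mp

end MrgPart0

-- ======== part 1: formerly Pool.Agent.MP_48a2f9_mp.FKSpinLat
section MrgPart1

/-!
The Edwards-Sokal identities on the lattice: no magnetisation gives no wired percolation, and the
two-point function of every Gibbs measure is given by the free connection probability.
-/

open Finset Filter Topology MeasureTheory

namespace Pool.Agent.MP_48a2f9_mp

noncomputable section
open Classical

variable {D q : ℕ}

lemma sum_glue (Λ : Finset (Site D)) (η : Site D → Fin q) (g : (Site D → Fin q) → ℝ) :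
    ∑ σ : Λ → Fin q, g (glue Λ σ η) = ∑ σ ∈ fill Λ η, g σ := by
  refine sum_nbij (fun σ => glue Λ σ η) (fun σ _ => mem_fill.2 fun x hx => dif_neg hx) ?_ ?_
    fun _ _ => rfl
  · intro s _ t _ h
    funext x
    simpa [glue] using congrFun h x
  · intro σ hσ
    refine ⟨fun x => σ x, mem_coe.2 (mem_univ _), funext fun x => ?_⟩
    by_cases hx : x ∈ Λ
    · simp [glue, hx]
    · simp [glue, hx, mem_fill.1 hσ x hx]

lemma exp_ham (β J : ℝ) (Λ : Finset (Site D)) (σ : Site D → Fin q) :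
    Real.exp (-β * ham J Λ σ) = (lat D q).sw (vJ β J) (edgesOf Λ) σ := by
  rw [ham, neg_mul_neg, mul_sum, Real.exp_sum, Gr.sw]
  refine prod_congr rfl fun e _ => ?_
  rw [← Gr.isDiag_iff lat_mk, vJ]
  by_cases h : (e.map σ).IsDiag <;> simp [h]

lemma gibbs_eq (β J : ℝ) (Λ : Finset (Site D)) (η : Site D → Fin q) (A : Set (Site D → Fin q)) :
    gibbs β J Λ η A = (∑ σ ∈ fill Λ η, (lat D q).sw (vJ β J) (edgesOf Λ) σ * ind (σ ∈ A)) /
      ∑ σ ∈ fill Λ η, (lat D q).sw (vJ β J) (edgesOf Λ) σ := by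
  simp only [gibbs, exp_ham, ← ind_eq_ite]
  rw [sum_glue Λ η fun σ => (lat D q).sw (vJ β J) (edgesOf Λ) σ * ind (σ ∈ A),
    sum_glue Λ η fun σ => (lat D q).sw (vJ β J) (edgesOf Λ) σ]

lemma lat_q_card (hq : 1 ≤ q) : (lat D q).q = Fintype.card (Fin q) := by simp [lat_q hq]

lemma gibbs_wired (hq : 1 ≤ q) {β J : ℝ} (hβ : 0 ≤ β) (hJ : 0 ≤ J) (Λ : Finset (Site D))
    (a : Fin q) (x : Site D) :
    gibbs β J Λ (fun _ => a) {ω | ω x = a} = 1 / q + (1 - 1 / q) * thW q β J Λ x := by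
  have : Nonempty (Fin q) := ⟨a⟩
  rw [gibbs_eq]
  simp only [Set.mem_ofPred_eq]
  rw [Gr.es_wired (lat_q_card hq) (vJ_nonneg hβ hJ), lat_q hq, thW]
  congr 2
  exact Gr.pr_congr fun ω _ => Gr.mem_clus_wire

theorem thetaZero_of_disordered (hq : 2 ≤ q) {β : ℝ} (hβ : 0 ≤ β) (h : Disordered D q β) :
    ThetaZero D q β := by
  have h1 := h ⟨0, by omega⟩
  simp only [gibbs_wired (by omega : 1 ≤ q) hβ zero_le_one] at h1
  have hq' : (2 : ℝ) ≤ q := by exact_mod_cast hq
  have h2 : (1 - 1 / q : ℝ) ≠ 0 := by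
    refine (sub_pos.2 ?_).ne'
    rw [div_lt_one (by linarith)]
    linarith
  have h3 := (h1.sub_const (1 / q)).div_const (1 - 1 / q)
  simp only [add_sub_cancel_left, sub_self, zero_div, mul_div_cancel_left₀ _ h2] at h3
  exact h3

theorem exists_thetaZero (hq : 2 ≤ q) {β : ℝ} (h : (β : EReal) < betaC D q) :
    ∃ b, β < b ∧ 0 ≤ b ∧ ThetaZero D q b := by
  obtain ⟨_, ⟨b, hb, rfl⟩, hlt⟩ := lt_sSup_iff.1 h
  exact ⟨b, EReal.coe_lt_coe_iff.1 hlt, hb.1, thetaZero_of_disordered hq hb.1 hb.2⟩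

lemma continuous_glue (Λ : Finset (Site D)) (σ : Λ → Fin q) : Continuous (glue Λ σ) := by
  refine continuous_pi fun x => ?_
  unfold glue
  split_ifs
  · exact continuous_const
  · exact continuous_apply x

lemma continuous_sw (v : Sym2 (Site D) → ℝ) (E : Finset (Sym2 (Site D))) :
    Continuous fun σ : Site D → Fin q => (lat D q).sw v E σ := by
  refine continuous_finsetProd _ fun e _ => continuous_const.add (continuous_const.mul ?_)
  have h1 : Continuous fun p : Fin q × Fin q => ind (p.1 = p.2) := continuous_of_discreteTopology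
  have h2 : Continuous fun σ : Site D → Fin q => (σ ((lat D q).s e), σ ((lat D q).t e)) :=
    (continuous_apply _).prodMk (continuous_apply _)
  exact h1.comp h2

lemma measurable_gibbs (β J : ℝ) (Λ : Finset (Site D)) {A : Set (Site D → Fin q)}
    (hA : MeasurableSet A) : Measurable fun η => gibbs β J Λ η A := by
  simp only [gibbs, exp_ham]
  have h1 : ∀ σ : Λ → Fin q, Measurable fun η => (lat D q).sw (vJ β J) (edgesOf Λ) (glue Λ σ η) :=
    fun σ => ((continuous_sw _ _).comp (continuous_glue Λ σ)).measurable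
  refine (Finset.measurable_sum _ fun σ _ => (h1 σ).mul ?_).div (Finset.measurable_sum _ fun σ _ => h1 σ)
  exact Measurable.ite ((continuous_glue Λ σ).measurable hA) measurable_const measurable_const

lemma gibbs_nonneg (β J : ℝ) (Λ : Finset (Site D)) (η : Site D → Fin q)
    (A : Set (Site D → Fin q)) : 0 ≤ gibbs β J Λ η A :=
  div_nonneg (sum_nonneg fun _ _ => mul_nonneg (Real.exp_pos _).le (by split_ifs <;> simp))
    (sum_nonneg fun _ _ => (Real.exp_pos _).le)

lemma gibbs_le_one (β J : ℝ) (Λ : Finset (Site D)) (η : Site D → Fin q)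
    (A : Set (Site D → Fin q)) : gibbs β J Λ η A ≤ 1 :=
  div_le_one_of_le₀ (sum_le_sum fun _ _ => mul_le_of_le_one_right (Real.exp_pos _).le
    (by split_ifs <;> simp)) (sum_nonneg fun _ _ => (Real.exp_pos _).le)

lemma IsGibbs.bounds {β J : ℝ} {μ : Measure (Site D → Fin q)} (h : IsGibbs β J μ)
    (Λ : Finset (Site D)) {A : Set (Site D → Fin q)} (hA : MeasurableSet A) {a b : ℝ}
    (hab : ∀ η, a ≤ gibbs β J Λ η A ∧ gibbs β J Λ η A ≤ b) : a ≤ μ.real A ∧ μ.real A ≤ b := by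
  have := h.1
  have hi : Integrable (fun η => gibbs β J Λ η A) μ :=
    Integrable.of_bound (measurable_gibbs β J Λ hA).aestronglyMeasurable 1
      (ae_of_all _ fun η => by
        rw [Real.norm_eq_abs, abs_of_nonneg (gibbs_nonneg _ _ _ _ _)]
        exact gibbs_le_one _ _ _ _ _)
  rw [h.2 Λ A hA]
  constructor
  · simpa using integral_mono (integrable_const a) hi fun η => (hab η).1
  · simpa using integral_mono hi (integrable_const b) fun η => (hab η).2

lemma tauIn_le_tau {β J : ℝ} (hβ : 0 ≤ β) (hJ : 0 ≤ J) (Λ : Finset (Site D)) (x y : Site D) :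
    tauIn q β J Λ x y ≤ tau q β J x y :=
  le_ciSup (f := fun Λ => tauIn q β J Λ x y)
    ⟨1, by rintro _ ⟨Λ, rfl⟩; exact Gr.pr_le_one (vJ_nonneg hβ hJ)⟩ Λ

/-- The two-point function of a Gibbs measure. -/
theorem es_tau (hq : 2 ≤ q) {β J Jm : ℝ} (hβ : 0 ≤ β) (hJ : 0 ≤ J) (hJm : J ≤ Jm)
    (hW : WiredDecay D q β Jm) {μ : Measure (Site D → Fin q)} (hμ : IsGibbs β J μ)
    (x y : Site D) : μ.real {ω | ω x = ω y} = 1 / q + (1 - 1 / q) * tau q β J x y := by
  have : Nonempty (Fin q) := ⟨⟨0, by omega⟩⟩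
  have hq1 : 1 ≤ q := by omega
  have hv := vJ_nonneg (D := D) hβ hJ
  have hq' : (2 : ℝ) ≤ q := by exact_mod_cast hq
  have h2 : (0 : ℝ) < 1 - 1 / q := by
    rw [sub_pos, div_lt_one (by linarith)]
    linarith
  have hA : MeasurableSet {ω : Site D → Fin q | ω x = ω y} :=
    measurableSet_eq_fun (measurable_pi_apply x) (measurable_pi_apply y)
  obtain ⟨C, c, hc, hW⟩ := hW
  have key : ∀ (r n : ℕ), 1 / q + (1 - 1 / q) * tauIn q β J (box x r) x y -
      2 * (#(box x r) * (C * Real.exp (-c * n))) ≤ μ.real {ω | ω x = ω y} ∧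
      μ.real {ω | ω x = ω y} ≤ 1 / q + (1 - 1 / q) * tau q β J x y +
        #(box x r) * (C * Real.exp (-c * n)) := by
    intro r n
    refine hμ.bounds (box x (r + n)) hA fun η => ?_
    have h3 := Gr.es_any (G := lat D q) (Λ := box x (r + n)) (τ := η) (E := edgesOf (box x (r + n)))
      (lat_q_card hq1) hv (Λ' := box x r) (E' := edgesIn (box x r))
      ((edgesIn_subset_edgesOf _).trans (edgesOf_mono (box_mono x (Nat.le_add_right r n))))
      (fun e he => lat_forall.2 (mem_edgesIn.1 he).2) (self_mem_box x r) y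
    have h4 : (lat D q).pr (vJ β J) (wire (↑(box x (r + n)))ᶜ) (edgesOf (box x (r + n)))
        (fun ω => ∃ z ∈ box x r, z ∈ (lat D q).clus (wire (↑(box x (r + n)))ᶜ)
          (↑(box x (r + n)))ᶜ ω) ≤ #(box x r) * (C * Real.exp (-c * n)) := by
      refine (Gr.pr_le_sum hv (box x r) (fun z => Exits q (box x (r + n)) z)
        fun ω _ ⟨z, hz, h⟩ => ⟨z, hz, Gr.mem_clus_wire.1 h⟩).trans ?_
      rw [← nsmul_eq_mul]
      refine sum_le_card_nsmul _ _ _ fun z hz => ?_
      exact (thW_anti hβ hJ (box_subset_box (by have := mem_box.1 hz; omega)) z).trans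
        (hW J hJ hJm z n)
    have h5 : (lat D q).pr (vJ β J) free (edgesOf (box x (r + n)))
        (fun ω => (lat D q).conn free ω x y) ≤ tau q β J x y :=
      (Gr.pr_holley hv hv le_rfl (edgesOf_box_subset x _) (fun _ _ => le_rfl)
        (Gr.incr_conn _ _ _ _)).trans (tauIn_le_tau hβ hJ _ x y)
    rw [gibbs_eq]
    simp only [Set.mem_ofPred_eq]
    rw [lat_q hq1] at h3
    have h6 := mul_le_mul_of_nonneg_left h5 h2.le
    unfold tauIn
    constructor <;> linarith [h3.1, h3.2]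
  have hlim : ∀ r : ℕ, Tendsto (fun n : ℕ => (#(box x r) : ℝ) * (C * Real.exp (-c * n))) atTop
      (𝓝 0) := fun r => by
    have := ((Real.tendsto_exp_atBot.comp (tendsto_natCast_atTop_atTop.const_mul_atTop_of_neg
      (neg_lt_zero.2 hc))).const_mul C).const_mul (#(box x r) : ℝ)
    simpa using this
  apply le_antisymm
  · have := (hlim 0).const_add (1 / q + (1 - 1 / q) * tau q β J x y)
    rw [add_zero] at this
    exact ge_of_tendsto' this fun n => (key 0 n).2
  · have h7 : ∀ Λ, tauIn q β J Λ x y ≤ (μ.real {ω | ω x = ω y} - 1 / q) / (1 - 1 / q) := by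
      intro Λ
      obtain ⟨r, hr⟩ := exists_subset_box x Λ
      have h8 := ((hlim r).const_mul 2).const_sub (1 / q + (1 - 1 / q) * tauIn q β J (box x r) x y)
      rw [mul_zero, sub_zero] at h8
      have h9 := le_of_tendsto' h8 fun n => (key r n).1
      have h10 : tauIn q β J Λ x y ≤ tauIn q β J (box x r) x y :=
        Gr.pr_holley hv hv le_rfl (edgesIn_mono hr) (fun _ _ => le_rfl) (Gr.incr_conn _ _ _ _)
      rw [le_div_iff₀ h2]
      nlinarith
    have := (le_div_iff₀ h2).1 (ciSup_le h7)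
    unfold tau
    linarith

theorem G_eq_tau (hq : 2 ≤ q) {β J Jm : ℝ} (hβ : 0 ≤ β) (hJ : 0 ≤ J) (hJm : J ≤ Jm)
    (hW : WiredDecay D q β Jm) {μ : Measure (Site D → Fin q)} (hμ : IsGibbs β J μ) (n : ℕ) :
    G μ n = 1 / q + (1 - 1 / q) * tau q β J (0 : Site D) ((n : ℤ), 0) :=
  es_tau hq hβ hJ hJm hW hμ _ _

end

end Pool.Agent.MP_48a2f9_mp

end MrgPart1

-- ======== part 2: formerly Pool.Agent.MP_48a2f9_mp.FKOsss
section MrgPart2

/-!
The OSSS inequality for FK measures, for the exploration given by a revealed set, and the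
derivative of FK means in the edge weights.
-/

open Finset

namespace Pool.Agent.MP_48a2f9_mp

noncomputable section
open Classical
set_option linter.unusedSectionVars false

variable {V ι : Type*} [DecidableEq ι]

namespace Gr

variable (G : Gr V ι)

/-- Conditional expectation given that the configuration on `R` is `y`. -/
def cx (v : ι → ℝ) (W : Eqv V) (E R y : Finset ι) (h : Finset ι → ℝ) : ℝ :=
  G.ex v (G.conn W y) (E \ R) fun η => h (y ∪ η)

/-- Covariance with the state of the edge `e`. -/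
def cov (v : ι → ℝ) (W : Eqv V) (E : Finset ι) (g : Finset ι → ℝ) (e : ι) : ℝ :=
  G.ex v W E (fun ω => g ω * ind (e ∈ ω)) - G.ex v W E g * G.ex v W E (fun ω => ind (e ∈ ω))

variable {G} {v : ι → ℝ} {W : Eqv V} {E R y : Finset ι}

lemma monoIn_mem (E : Finset ι) (e : ι) : MonoIn E fun ω => ind (e ∈ ω) :=
  monoIn_ind fun _ _ k _ m => k m

lemma cov_nonneg (hv : ∀ e, 0 ≤ v e) {g : Finset ι → ℝ} (hg : MonoIn E g) (e : ι) :
    0 ≤ G.cov v W E g e := sub_nonneg.2 (fkg hv hg (monoIn_mem E e))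

lemma cx_empty (h : Finset ι → ℝ) : G.cx v W E ∅ ∅ h = G.ex v W E h := by simp [cx]

lemma cx_total (hv : ∀ e, 0 ≤ v e) (R : Finset ι) (h : Finset ι → ℝ) :
    G.ex v W E (fun ω => G.cx v W E R (ω ∩ R) h) = G.ex v W E h := by
  rw [ex_tower hv (F := E \ R) sdiff_subset h]
  refine ex_congr fun ω hω => ?_
  have : ω \ (E \ R) = ω ∩ R := by
    ext e
    simp only [mem_sdiff, mem_inter]
    exact ⟨fun h => ⟨h.1, by_contra fun k => h.2 ⟨hω h.1, k⟩⟩, fun h => ⟨h.1, fun k => k.2 h.2⟩⟩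
  rw [this]
  rfl

lemma cx_mono (hv : ∀ e, 0 ≤ v e) (hR : R ⊆ E) {h : Finset ι → ℝ} (hh : MonoIn E h) :
    MonoIn R fun y => G.cx v W E R y h := by
  intro a b hab hb
  have h1 : ∀ η ⊆ E \ R, b ∪ η ⊆ E := fun η hη =>
    union_subset (hb.trans hR) (hη.trans sdiff_subset)
  refine le_trans (ex_mono hv fun η hη => hh _ (b ∪ η) (union_subset_union hab subset_rfl)
    (h1 η hη)) (holley hv hv (conn_mono le_rfl hab) subset_rfl (fun _ _ => le_rfl) ?_)
  exact fun c d hcd hd => hh _ _ (union_subset_union subset_rfl hcd) (h1 d hd)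

lemma cx_congr {h k : Finset ι → ℝ} (hhk : ∀ η ⊆ E \ R, h (y ∪ η) = k (y ∪ η)) :
    G.cx v W E R y h = G.cx v W E R y k := ex_congr hhk

lemma cx_of_const (hv : ∀ e, 0 ≤ v e) {h : Finset ι → ℝ} {c : ℝ}
    (hh : ∀ η ⊆ E \ R, h (y ∪ η) = c) : G.cx v W E R y h = c := by
  unfold cx
  rw [ex_congr (g := fun _ => c) hh, ex_const hv]

lemma cx_step (hv : ∀ e, 0 ≤ v e) {e : ι} (he : e ∈ E \ R) (h : Finset ι → ℝ) :
    G.cx v W E R y h =
      (1 - G.cx v W E R y fun ω => ind (e ∈ ω \ R)) * G.cx v W E (insert e R) y h +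
        (G.cx v W E R y fun ω => ind (e ∈ ω \ R)) * G.cx v W E (insert e R) (insert e y) h := by
  have hF : E \ insert e R ⊆ E \ R := sdiff_subset_sdiff subset_rfl (subset_insert e R)
  have e0 : (G.cx v W E R y fun ω => ind (e ∈ ω \ R)) =
      G.ex v (G.conn W y) (E \ R) fun η => ind (e ∈ η) + ind (e ∈ y) * ind (e ∉ η) := by
    refine ex_congr fun η _ => ?_
    by_cases h1 : e ∈ η <;> by_cases h2 : e ∈ y <;> simp [h1, h2, (mem_sdiff.1 he).2]
  conv_lhs => rw [cx, ex_tower hv hF]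
  by_cases hy : e ∈ y
  · rw [cx_of_const hv (c := 1) fun η _ => by simp [hy, (mem_sdiff.1 he).2], sub_self, zero_mul,
      zero_add, one_mul, insert_eq_of_mem hy]
    rw [ex_congr (g := fun _ => G.cx v W E (insert e R) y h), ex_const hv]
    intro ω hω
    have : y ∪ ω \ (E \ insert e R) = y := by
      refine union_eq_left.2 fun f hf => ?_
      have h1 := mem_sdiff.1 hf
      have h2 := mem_sdiff.1 (hω h1.1)
      have : f = e := by
        by_contra k
        exact h1.2 (mem_sdiff.2 ⟨h2.1, by simp [k, h2.2]⟩)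
      exact this ▸ hy
    simp only [conn_conn, ← union_assoc, this]
    rfl
  · rw [e0]
    simp only [ind_neg hy, zero_mul, add_zero]
    rw [← ex_const (G := G) (W := G.conn W y) (E := E \ R) hv 1, ← ex_sub, ← ex_mul_const,
      ← ex_mul_const, ← ex_add]
    refine ex_congr fun ω hω => ?_
    by_cases h1 : e ∈ ω
    · have : y ∪ ω \ (E \ insert e R) = insert e y := by
        ext f
        simp only [mem_union, mem_sdiff, mem_insert, not_and, not_not, not_or]
        constructor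
        · rintro (k | k)
          · exact Or.inr k
          · have h2 := mem_sdiff.1 (hω k.1)
            exact Or.inl (by_contra fun l => h2.2 (k.2 h2.1 l))
        · rintro (rfl | k)
          · exact Or.inr ⟨h1, fun _ l => absurd rfl l⟩
          · exact Or.inl k
      simp only [conn_conn, ← union_assoc, this, ind_pos h1, sub_self, zero_mul,
        zero_add, one_mul]
      rfl
    · have : y ∪ ω \ (E \ insert e R) = y := by
        refine union_eq_left.2 fun f hf => ?_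
        have h3 := mem_sdiff.1 hf
        have h2 := mem_sdiff.1 (hω h3.1)
        have : f = e := by
          by_contra k
          exact h3.2 (mem_sdiff.2 ⟨h2.1, by simp [k, h2.2]⟩)
        exact absurd (this ▸ h3.1) h1
      simp only [conn_conn, ← union_assoc, this, ind_neg h1, sub_zero, zero_mul,
        add_zero, one_mul]
      rfl

/-- One step of revealing, averaged. -/
lemma ex_step (hv : ∀ e, 0 ≤ v e) {e : ι} (he : e ∈ E \ R) (φ : Finset ι → ℝ) :
    G.ex v W E (fun ω => φ (ω ∩ insert e R)) = G.ex v W E fun ω =>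
      (1 - G.cx v W E R (ω ∩ R) fun ω => ind (e ∈ ω \ R)) * φ (ω ∩ R) +
        (G.cx v W E R (ω ∩ R) fun ω => ind (e ∈ ω \ R)) * φ (insert e (ω ∩ R)) := by
  rw [← cx_total hv R]
  refine ex_congr fun ω _ => ?_
  rw [cx_step hv he]
  have key : ∀ y ⊆ insert e R, G.cx v W E (insert e R) y (fun ω => φ (ω ∩ insert e R)) = φ y :=
    fun y hy => cx_of_const hv fun η hη => by rw [union_comm, union_inter_of hη hy]
  rw [key _ (inter_subset_right.trans (subset_insert e R)),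
    key _ (insert_subset_insert e inter_subset_right)]

lemma osss_aux (hv : ∀ e, 0 ≤ v e) {f g : Finset ι → ℝ} {S : Finset ι → Finset ι}
    (hf0 : ∀ ω ⊆ E, 0 ≤ f ω) (hf1 : ∀ ω ⊆ E, f ω ≤ 1) (hg : MonoIn E g)
    (hS : ∀ R ⊆ E, ∀ x ⊆ R, (∀ η ⊆ E \ R, f (x ∪ η) = f x) ∨
      ∃ e ∈ E \ R, ∀ η ⊆ E \ R, e ∈ S (x ∪ η)) (n : ℕ) :
    ∀ R ⊆ E, (E \ R).card = n → ∀ x ⊆ R, ∃ C : Finset ι → ℝ, MonoIn R C ∧
      MonoIn R (fun y => G.cx v W E R y g - C y) ∧
      G.ex v W E (fun ω => C (ω ∩ R)) ≤ G.cx v W E R x f * G.ex v W E g +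
        ∑ e ∈ E \ R, G.cx v W E R x (fun ω => ind (e ∈ S ω)) * G.cov v W E g e ∧
      C x = G.cx v W E R x fun ω => f ω * g ω := by
  have base : ∀ R ⊆ E, ∀ x ⊆ R, (∀ η ⊆ E \ R, f (x ∪ η) = f x) → ∃ C : Finset ι → ℝ,
      MonoIn R C ∧ MonoIn R (fun y => G.cx v W E R y g - C y) ∧
      G.ex v W E (fun ω => C (ω ∩ R)) ≤ G.cx v W E R x f * G.ex v W E g +
        ∑ e ∈ E \ R, G.cx v W E R x (fun ω => ind (e ∈ S ω)) * G.cov v W E g e ∧
      C x = G.cx v W E R x fun ω => f ω * g ω := by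
    intro R hR x hx hc
    have hm := cx_mono (G := G) (W := W) hv hR hg
    refine ⟨fun y => f x * G.cx v W E R y g, fun a b k l =>
      mul_le_mul_of_nonneg_left (hm a b k l) (hf0 x (hx.trans hR)), fun a b k l => ?_, ?_, ?_⟩
    · have := mul_le_mul_of_nonneg_left (hm a b k l) (sub_nonneg.2 (hf1 x (hx.trans hR)))
      simp only
      linarith
    · rw [ex_const_mul, cx_total hv, cx_of_const hv hc]
      refine le_add_of_nonneg_right (sum_nonneg fun e _ => mul_nonneg ?_ (cov_nonneg hv hg e))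
      exact ex_nonneg hv fun _ _ => ind_nonneg _
    · simp only [cx]
      rw [← ex_const_mul]
      exact ex_congr fun η hη => by rw [hc η hη]
  induction n with
  | zero =>
    intro R hR hn x hx
    refine base R hR x hx fun η hη => ?_
    rw [card_eq_zero.1 hn, subset_empty] at hη
    rw [hη, union_empty]
  | succ n ih =>
    intro R hR hn x hx
    rcases hS R hR x hx with hc | ⟨e, he, hSe⟩
    · exact base R hR x hx hc
    have heR : e ∉ R := (mem_sdiff.1 he).2
    have hR' : insert e R ⊆ E := insert_subset (mem_sdiff.1 he).1 hR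
    have hsd : E \ insert e R = (E \ R).erase e := sdiff_insert E R e
    have hn' : (E \ insert e R).card = n := by rw [hsd, card_erase_of_mem he, hn]; rfl
    obtain ⟨C0, m0, m0', s0, d0⟩ := ih _ hR' hn' x (hx.trans (subset_insert e R))
    obtain ⟨C1, m1, m1', s1, d1⟩ := ih _ hR' hn' (insert e x) (insert_subset_insert e hx)
    set P : Finset ι → ℝ := fun y => G.cx v W E R y fun ω => ind (e ∈ ω \ R) with hP
    have P0 : ∀ y, 0 ≤ P y := fun y => ex_nonneg hv fun _ _ => ind_nonneg _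
    have P1 : ∀ y, P y ≤ 1 := fun y => ex_le_const hv fun _ _ => ind_le_one _
    have Pm : MonoIn R P := cx_mono hv hR
      (monoIn_ind fun _ _ k _ m => sdiff_subset_sdiff k subset_rfl m)
    have stp : ∀ y h, G.cx v W E R y h = (1 - P y) * G.cx v W E (insert e R) y h +
        P y * G.cx v W E (insert e R) (insert e y) h := fun y h => cx_step hv he h
    set p := P x with hp
    have mix : ∀ D0 D1 : Finset ι → ℝ, MonoIn (insert e R) D0 → MonoIn (insert e R) D1 →
        MonoIn R fun y => min p (P y) * D1 (insert e y) + (p - min p (P y)) * D1 y +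
          (P y - min p (P y)) * D0 (insert e y) + (1 - p - P y + min p (P y)) * D0 y := by
      intro D0 D1 k0 k1 a b hab hb
      have hb' := hb.trans (subset_insert e R)
      have hib := insert_subset_insert e hb
      have hiab := insert_subset_insert e hab
      have a1 := k0 _ _ hab hb'
      have a2 := k0 _ _ hiab hib
      have a3 := k1 _ _ hab hb'
      have a4 := k1 _ _ hiab hib
      have a5 := k0 _ _ (subset_insert e b) hib
      have a6 := k1 _ _ (subset_insert e b) hib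
      have a7 := Pm a b hab hb
      have b1 : min p (P a) ≤ min p (P b) := min_le_min le_rfl a7
      have b2 : P a - min p (P a) ≤ P b - min p (P b) := by
        rcases le_total p (P a) with h | h
        · rw [min_eq_left h, min_eq_left (h.trans a7)]; linarith
        · rw [min_eq_right h]; linarith [min_le_right p (P b)]
      have c1 : 0 ≤ min p (P a) := le_min (P0 x) (P0 a)
      have c2 : 0 ≤ p - min p (P a) := sub_nonneg.2 (min_le_left _ _)
      have c3 : 0 ≤ P a - min p (P a) := sub_nonneg.2 (min_le_right _ _)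
      have c4 : 0 ≤ 1 - p - P a + min p (P a) := by
        rcases le_total p (P a) with h | h
        · rw [min_eq_left h]; linarith [P1 a]
        · rw [min_eq_right h]; linarith [P1 x]
      simp only
      nlinarith [mul_le_mul_of_nonneg_left a1 c4, mul_le_mul_of_nonneg_left a2 c3,
        mul_le_mul_of_nonneg_left a3 c2, mul_le_mul_of_nonneg_left a4 c1,
        mul_nonneg (sub_nonneg.2 b1) (sub_nonneg.2 a6), mul_nonneg (sub_nonneg.2 b2) (sub_nonneg.2 a5)]
    refine ⟨fun y => min p (P y) * C1 (insert e y) + (p - min p (P y)) * C1 y +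
      (P y - min p (P y)) * C0 (insert e y) + (1 - p - P y + min p (P y)) * C0 y,
      mix C0 C1 m0 m1, ?_, ?_, ?_⟩
    · intro a b hab hb
      have := mix _ _ m0' m1' a b hab hb
      simp only at this ⊢
      rw [stp a g, stp b g]
      linarith
    · -- comparison with the independent coupling
      have t0 := ex_step (G := G) (W := W) hv he C0
      have t1 := ex_step (G := G) (W := W) hv he C1
      have hge : MonoIn R fun y => G.cx v W E R y g := cx_mono hv hR hg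
      have pt : ∀ ω ⊆ E, min p (P (ω ∩ R)) * C1 (insert e (ω ∩ R)) +
          (p - min p (P (ω ∩ R))) * C1 (ω ∩ R) +
          (P (ω ∩ R) - min p (P (ω ∩ R))) * C0 (insert e (ω ∩ R)) +
          (1 - p - P (ω ∩ R) + min p (P (ω ∩ R))) * C0 (ω ∩ R) ≤
          p * ((1 - P (ω ∩ R)) * C1 (ω ∩ R) + P (ω ∩ R) * C1 (insert e (ω ∩ R))) +
          (1 - p) * ((1 - P (ω ∩ R)) * C0 (ω ∩ R) + P (ω ∩ R) * C0 (insert e (ω ∩ R))) +
          (G.cx v W E R (ω ∩ R) (fun ω => g ω * ind (e ∈ ω)) -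
            G.cx v W E R (ω ∩ R) g * P (ω ∩ R)) := by
        intro ω _
        set y := ω ∩ R with hy
        have hyR : y ⊆ R := inter_subset_right
        have hey : e ∉ y := fun k => heR (hyR k)
        have hib := insert_subset_insert e hyR
        have a5 := m0 _ _ (subset_insert e y) hib
        have a6 := m1' _ _ (subset_insert e y) hib
        have a7 := m1 _ _ (subset_insert e y) hib
        have u0 : G.cx v W E (insert e R) y (fun ω => g ω * ind (e ∈ ω)) = 0 :=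
          cx_of_const hv fun η hη => by
            rw [ind_neg, mul_zero]
            rw [mem_union, not_or]
            exact ⟨hey, fun k => (mem_sdiff.1 (hη k)).2 (mem_insert_self _ _)⟩
        have u1 : G.cx v W E (insert e R) (insert e y) (fun ω => g ω * ind (e ∈ ω)) =
            G.cx v W E (insert e R) (insert e y) g :=
          cx_congr fun η _ => by rw [ind_pos (mem_union_left _ (mem_insert_self _ _)), mul_one]
        rw [stp y (fun ω => g ω * ind (e ∈ ω)), stp y g, u0, u1]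
        have k0 : 0 ≤ min p (P y) - p * P y := by
          rcases le_total p (P y) with h | h
          · rw [min_eq_left h]; nlinarith [P0 x, P1 y]
          · rw [min_eq_right h]; nlinarith [P0 y, P1 x]
        have k1 : min p (P y) - p * P y ≤ P y * (1 - P y) := by
          rcases le_total p (P y) with h | h
          · rw [min_eq_left h]; nlinarith [P0 x, P1 y]
          · rw [min_eq_right h]; nlinarith [P0 y, P1 x]
        simp only at a6
        have k2 : 0 ≤ G.cx v W E (insert e R) (insert e y) g - G.cx v W E (insert e R) y g := by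
          linarith
        nlinarith [mul_nonneg k0 (sub_nonneg.2 a5), mul_nonneg k0 (sub_nonneg.2 a6),
          mul_nonneg (sub_nonneg.2 k1) k2]
      refine (ex_mono hv pt).trans ?_
      rw [ex_add, ex_add, ex_const_mul, ex_const_mul, ← t0, ← t1, ex_sub, cx_total hv]
      have fk := fkg (G := G) (W := W) (E := E) hv (f := fun ω => G.cx v W E R (ω ∩ R) g)
        (g := fun ω => P (ω ∩ R))
        (fun a b k _ => hge _ _ (inter_subset_inter k subset_rfl) inter_subset_right)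
        (fun a b k _ => Pm _ _ (inter_subset_inter k subset_rfl) inter_subset_right)
      have e1 : G.ex v W E (fun ω => P (ω ∩ R)) = G.ex v W E fun ω => ind (e ∈ ω) := by
        rw [hP, cx_total hv]
        exact ex_congr fun ω _ => ind_congr (by simp [heR])
      rw [cx_total hv, e1] at fk
      have e2 : G.cx v W E R x (fun ω => ind (e ∈ S ω)) = 1 :=
        cx_of_const hv fun η hη => ind_pos (hSe η hη)
      rw [← add_sum_erase _ _ he, ← hsd, e2, one_mul, stp x f,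
        sum_congr rfl fun e' _ => by rw [stp x fun ω => ind (e' ∈ S ω)]]
      simp only [add_mul, sum_add_distrib, mul_assoc, ← mul_sum]
      unfold cov at *
      have r0 := mul_le_mul_of_nonneg_left s0 (sub_nonneg.2 (P1 x))
      have r1 := mul_le_mul_of_nonneg_left s1 (P0 x)
      rw [← hp] at *
      nlinarith
    · simp only [← hp, min_self, sub_self, zero_mul, add_zero]
      rw [stp x, d0, d1, ← hp]
      ring

/-- The OSSS inequality. `S ω` is the set of edges revealed by an exploration that determines `f`. -/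
theorem osss (hv : ∀ e, 0 ≤ v e) {f g : Finset ι → ℝ} {S : Finset ι → Finset ι}
    (hf0 : ∀ ω ⊆ E, 0 ≤ f ω) (hf1 : ∀ ω ⊆ E, f ω ≤ 1) (hg : MonoIn E g)
    (hS : ∀ R ⊆ E, ∀ x ⊆ R, (∀ η ⊆ E \ R, f (x ∪ η) = f x) ∨
      ∃ e ∈ E \ R, ∀ η ⊆ E \ R, e ∈ S (x ∪ η)) :
    G.ex v W E (fun ω => f ω * g ω) - G.ex v W E f * G.ex v W E g ≤
      ∑ e ∈ E, G.pr v W E (fun ω => e ∈ S ω) * G.cov v W E g e := by
  obtain ⟨C, -, -, h3, h4⟩ := osss_aux (G := G) (W := W) hv hf0 hf1 hg hS _ ∅ (empty_subset E) rfl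
    ∅ subset_rfl
  simp only [inter_empty, ex_const hv, cx_empty, sdiff_empty] at h3 h4
  rw [h4] at h3
  unfold pr
  linarith

/-- The exploration of the cluster of `K` through the edges of `E₀`. -/
lemma explore_clus {W₀ : Eqv V} {K : Set V} {E₀ : Finset ι} (hE : E₀ ⊆ E) {f : Finset ι → ℝ}
    (hf : ∀ ω ⊆ E, ∀ ω' ⊆ E,
      ω ∩ G.touch E₀ (G.clus W₀ K (ω ∩ E₀)) = ω' ∩ G.touch E₀ (G.clus W₀ K (ω ∩ E₀)) →
        f ω' = f ω) :
    ∀ R ⊆ E, ∀ x ⊆ R, (∀ η ⊆ E \ R, f (x ∪ η) = f x) ∨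
      ∃ e ∈ E \ R, ∀ η ⊆ E \ R, e ∈ G.touch E₀ (G.clus W₀ K ((x ∪ η) ∩ E₀)) := by
  intro R hR x hx
  by_cases h : G.touch E₀ (G.clus W₀ K (x ∩ E₀)) ⊆ R
  · refine Or.inl fun η hη => hf x (hx.trans hR) _
      (union_subset (hx.trans hR) (hη.trans sdiff_subset)) ?_
    ext e
    simp only [mem_inter, mem_union]
    exact ⟨fun k => ⟨Or.inl k.1, k.2⟩,
      fun k => ⟨k.1.elim id fun l => absurd (h k.2) (mem_sdiff.1 (hη l)).2, k.2⟩⟩
  · obtain ⟨e, he, heR⟩ := not_subset.1 h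
    refine Or.inr ⟨e, mem_sdiff.2 ⟨hE (touch_subset _ _ he), heR⟩, fun η _ => ?_⟩
    exact touch_mono subset_rfl (clus_mono le_rfl subset_rfl
      (inter_subset_inter subset_union_left subset_rfl)) he

/-- The derivative of an FK mean when the logarithmic derivative of the weight of `e` is `b e`. -/
lemma hasDerivAt_ex {a : ℝ → ι → ℝ} {b : ι → ℝ} {x : ℝ} (ha0 : ∀ e, 0 ≤ a x e)
    (ha : ∀ e ∈ E, HasDerivAt (fun t => a t e) (b e * a x e) x) (W : Eqv V) (f : Finset ι → ℝ) :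
    HasDerivAt (fun t => G.ex (a t) W E f) (∑ e ∈ E, b e * G.cov (a x) W E f e) x := by
  have hw : ∀ ω ∈ E.powerset, HasDerivAt (fun t => G.wt (a t) W ω)
      (G.wt (a x) W ω * ∑ e ∈ E, b e * ind (e ∈ ω)) x := by
    intro ω hω
    have h1 := (HasDerivAt.fun_finsetProd (u := ω) (f := fun e t => a t e)
      (f' := fun e => b e * a x e) fun e he => ha e (mem_powerset.1 hω he)).mul_const
      (G.q⁻¹ ^ G.rk W ω)
    have h2 : ∑ e ∈ E, b e * ind (e ∈ ω) = ∑ e ∈ ω, b e := by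
      rw [← sum_subset (mem_powerset.1 hω) fun e _ k => by rw [ind_neg k, mul_zero]]
      exact sum_congr rfl fun e he => by rw [ind_pos he, mul_one]
    refine h1.congr_deriv ?_
    rw [h2, wt, mul_right_comm, mul_sum]
    congr 1
    refine sum_congr rfl fun e he => ?_
    rw [← mul_prod_erase ω _ he, smul_eq_mul]
    ring
  have hs : ∀ h : Finset ι → ℝ, HasDerivAt (fun t => G.sm (a t) W E h)
      (G.sm (a x) W E fun ω => h ω * ∑ e ∈ E, b e * ind (e ∈ ω)) x := by
    intro h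
    refine (HasDerivAt.fun_sum fun ω hω => (hw ω hω).mul_const (h ω)).congr_deriv ?_
    exact sum_congr rfl fun ω _ => by ring
  have hZ := hs fun _ => 1
  simp only [sm_one, one_mul] at hZ
  have hZ0 := (Z_pos (G := G) ha0 W E).ne'
  refine ((hs f).div hZ hZ0).congr_deriv ?_
  have e1 : G.ex (a x) W E (fun ω => f ω * ∑ e ∈ E, b e * ind (e ∈ ω)) =
      ∑ e ∈ E, b e * G.ex (a x) W E fun ω => f ω * ind (e ∈ ω) := by
    simp only [← ex_const_mul, ← ex_sum, mul_sum]
    exact ex_congr fun ω _ => sum_congr rfl fun e _ => by ring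
  have e2 : G.ex (a x) W E (fun ω => ∑ e ∈ E, b e * ind (e ∈ ω)) =
      ∑ e ∈ E, b e * G.ex (a x) W E fun ω => ind (e ∈ ω) := by
    simp only [← ex_const_mul, ← ex_sum]
  rw [sm_eq ha0, sm_eq ha0, sm_eq ha0, e1, e2]
  simp only [cov, mul_sub, sum_sub_distrib]
  rw [show ∑ e ∈ E, b e * (G.ex (a x) W E f * G.ex (a x) W E fun ω => ind (e ∈ ω)) =
    G.ex (a x) W E f * ∑ e ∈ E, b e * G.ex (a x) W E fun ω => ind (e ∈ ω) by
      rw [mul_sum]; exact sum_congr rfl fun e _ => by ring]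
  field_simp

end Gr

end

end Pool.Agent.MP_48a2f9_mp

end MrgPart2

-- ======== part 3: formerly Pool.Agent.MP_48a2f9_mp.FKSpinExist
section MrgPart3

/-!
Existence of a Gibbs measure, as a limit point of finite-volume measures.
-/

open Finset Filter Topology MeasureTheory
open scoped ENNReal NNReal BoundedContinuousFunction

namespace Pool.Agent.MP_48a2f9_mp

noncomputable section
open Classical

variable {D q : ℕ}

/-- Weighted average over the configurations equal to `τ` outside `Λ`. -/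
def avg (w : (Site D → Fin q) → ℝ) (Λ : Finset (Site D)) (τ : Site D → Fin q)
    (f : (Site D → Fin q) → ℝ) : ℝ := (∑ σ ∈ fill Λ τ, w σ * f σ) / ∑ σ ∈ fill Λ τ, w σ

variable {w : (Site D → Fin q) → ℝ} {Λ Λ' : Finset (Site D)} {τ : Site D → Fin q}

lemma sum_fill_pos (hw : ∀ σ, 0 < w σ) (Λ : Finset (Site D)) (τ : Site D → Fin q) :
    0 < ∑ σ ∈ fill Λ τ, w σ := sum_pos (fun σ _ => hw σ) ⟨τ, mem_fill.2 fun _ _ => rfl⟩

lemma fill_eq_of_mem {σ : Site D → Fin q} (h : σ ∈ fill Λ τ) : fill Λ σ = fill Λ τ := by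
  ext ξ
  rw [mem_fill] at h
  simp only [mem_fill]
  exact forall₂_congr fun x hx => by rw [h x hx]

lemma avg_avg (hw : ∀ σ, 0 < w σ) (h : Λ ⊆ Λ') (τ₀ : Site D → Fin q)
    (f : (Site D → Fin q) → ℝ) : avg w Λ' τ₀ (fun τ => avg w Λ τ f) = avg w Λ' τ₀ f := by
  unfold avg
  congr 1
  simp only [sum_div, mul_sum]
  rw [sum_comm' (t' := fill Λ' τ₀) (s' := fun σ => fill Λ σ)]
  · refine sum_congr rfl fun σ _ => ?_
    rw [sum_congr rfl (g := fun τ => w τ * (w σ * f σ / ∑ ξ ∈ fill Λ σ, w ξ))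
      fun τ hτ => by rw [fill_eq_of_mem hτ],
      ← sum_mul, mul_div_cancel₀ _ (sum_fill_pos hw _ _).ne']
  · intro τ σ
    simp only [mem_fill]
    constructor
    · rintro ⟨h1, h2⟩
      exact ⟨fun x hx => (h2 x hx).symm, fun x hx => (h2 x fun h' => hx (h h')).trans (h1 x hx)⟩
    · rintro ⟨h1, h2⟩
      exact ⟨fun x hx => (h1 x fun h' => hx (h h')).trans (h2 x hx), fun x hx => (h1 x hx).symm⟩

lemma avg_edges {v : Sym2 (Site D) → ℝ} (hv : ∀ e, 0 ≤ v e) (h : Λ ⊆ Λ')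
    (f : (Site D → Fin q) → ℝ) :
    avg ((lat D q).sw v (edgesOf Λ')) Λ τ f = avg ((lat D q).sw v (edgesOf Λ)) Λ τ f := by
  have h1 : ∀ σ ∈ fill Λ τ, (lat D q).sw v (edgesOf Λ') σ =
      (lat D q).sw v (edgesOf Λ' \ edgesOf Λ) τ * (lat D q).sw v (edgesOf Λ) σ := by
    intro σ hσ
    unfold Gr.sw
    rw [← prod_sdiff (edgesOf_mono h)]
    congr 1
    refine prod_congr rfl fun e he => ?_
    have h2 := mem_sdiff.1 he
    have h3 : ∀ x ∈ e, σ x = τ x := fun x hx => mem_fill.1 hσ x fun k =>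
      h2.2 (mem_edgesOf.2 ⟨(mem_edgesOf.1 h2.1).1, x, hx, k⟩)
    rw [h3 _ (lat_s_mem e), h3 _ (lat_t_mem e)]
  unfold avg
  rw [sum_congr rfl h1, sum_congr rfl fun σ hσ => by rw [h1 σ hσ, mul_assoc], ← mul_sum, ← mul_sum,
    mul_div_mul_left _ _ (Gr.sw_pos hv _ _).ne']

lemma continuous_avg (hw : ∀ σ, 0 < w σ) (hc : Continuous w) (Λ : Finset (Site D))
    {f : (Site D → Fin q) → ℝ} (hf : Continuous f) : Continuous fun τ => avg w Λ τ f := by
  have h0 : ∀ τ, ∑ σ : Λ → Fin q, w (glue Λ σ τ) ≠ 0 := fun τ => by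
    rw [sum_glue]; exact (sum_fill_pos hw _ _).ne'
  unfold avg
  simp only [← sum_glue]
  exact (continuous_finsetSum _ fun S _ => (hc.comp (continuous_glue Λ S)).mul
    (hf.comp (continuous_glue Λ S))).div
    (continuous_finsetSum _ fun S _ => hc.comp (continuous_glue Λ S)) h0

lemma avg_nonneg (hw : ∀ σ, 0 < w σ) {f : (Site D → Fin q) → ℝ} (hf : ∀ σ, 0 ≤ f σ) :
    0 ≤ avg w Λ τ f :=
  div_nonneg (sum_nonneg fun σ _ => mul_nonneg (hw σ).le (hf σ)) (sum_fill_pos hw _ _).le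

/-- The finite-volume measure. -/
def gam (w : (Site D → Fin q) → ℝ) (Λ : Finset (Site D)) (τ : Site D → Fin q) :
    Measure (Site D → Fin q) :=
  ∑ σ ∈ fill Λ τ, ENNReal.ofReal (w σ / ∑ ξ ∈ fill Λ τ, w ξ) • Measure.dirac σ

lemma lintegral_gam (hw : ∀ σ, 0 < w σ) {f : (Site D → Fin q) → ℝ} (hf : Measurable f)
    (h0 : ∀ σ, 0 ≤ f σ) :
    ∫⁻ σ, ENNReal.ofReal (f σ) ∂gam w Λ τ = ENNReal.ofReal (avg w Λ τ f) := by
  have hw' : ∀ σ, 0 ≤ w σ / ∑ ξ ∈ fill Λ τ, w ξ :=
    fun σ => div_nonneg (hw _).le (sum_fill_pos hw _ _).le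
  unfold gam avg
  rw [lintegral_finsetSum_measure, sum_div, ENNReal.ofReal_sum_of_nonneg fun σ _ =>
    div_nonneg (mul_nonneg (hw _).le (h0 σ)) (sum_fill_pos hw _ _).le]
  refine sum_congr rfl fun σ _ => ?_
  rw [lintegral_smul_measure, lintegral_dirac' _ hf.ennreal_ofReal, smul_eq_mul,
    ← ENNReal.ofReal_mul (hw' σ)]
  congr 1
  ring

lemma measurable_ind_mem {A : Set (Site D → Fin q)} (hA : MeasurableSet A) :
    Measurable fun σ => ind (σ ∈ A) := Measurable.ite hA measurable_const measurable_const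

lemma gam_apply (hw : ∀ σ, 0 < w σ) {A : Set (Site D → Fin q)} (hA : MeasurableSet A) :
    gam w Λ τ A = ENNReal.ofReal (avg w Λ τ fun σ => ind (σ ∈ A)) := by
  rw [← lintegral_gam hw (measurable_ind_mem hA) (fun σ => ind_nonneg _),
    ← lintegral_indicator_one hA]
  congr 1
  funext σ
  by_cases h : σ ∈ A <;> simp [h]

lemma isProbabilityMeasure_gam (hw : ∀ σ, 0 < w σ) : IsProbabilityMeasure (gam w Λ τ) :=
  ⟨by rw [gam_apply hw MeasurableSet.univ]; simp [avg, (sum_fill_pos hw Λ τ).ne']⟩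

/-- Gibbs measures exist. -/
theorem exists_gibbs (hq : 1 ≤ q) {β J : ℝ} (hβ : 0 ≤ β) (hJ : 0 ≤ J) :
    ∃ μ : Measure (Site D → Fin q), IsGibbs β J μ := by
  have hv := vJ_nonneg (D := D) hβ hJ
  let w : Finset (Site D) → (Site D → Fin q) → ℝ := fun Λ => (lat D q).sw (vJ β J) (edgesOf Λ)
  have hw : ∀ Λ σ, 0 < w Λ σ := fun Λ σ => Gr.sw_pos hv _ _
  let τ₀ : Site D → Fin q := fun _ => ⟨0, hq⟩
  let P : ℕ → ProbabilityMeasure (Site D → Fin q) := fun N =>
    ⟨gam (w (box 0 N)) (box 0 N) τ₀, isProbabilityMeasure_gam (hw _)⟩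
  obtain ⟨μ, -, hμ⟩ := isCompact_univ.ultrafilter_le_nhds
    ((Ultrafilter.of (atTop : Filter ℕ)).map P) (by simp)
  have hT : Tendsto P (Ultrafilter.of (atTop : Filter ℕ) : Filter ℕ) (𝓝 μ) := hμ
  have hlim : ∀ f : (Site D → Fin q) →ᵇ ℝ≥0, Tendsto (fun N => ENNReal.ofReal
      (avg (w (box 0 N)) (box 0 N) τ₀ fun σ => f σ)) (Ultrafilter.of (atTop : Filter ℕ) : Filter ℕ)
      (𝓝 (∫⁻ σ, f σ ∂(μ : Measure (Site D → Fin q)))) := by
    intro f
    refine (ProbabilityMeasure.tendsto_iff_forall_lintegral_tendsto.1 hT f).congr fun N => ?_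
    rw [← lintegral_gam (hw _) (f := fun σ => f σ)
      (NNReal.continuous_coe.comp f.continuous).measurable fun σ => (f σ).2]
    simp [P]
  refine ⟨μ, inferInstance, fun Λ A hA => ?_⟩
  have hg : ∀ τ {A : Set (Site D → Fin q)}, MeasurableSet A →
      gam (w Λ) Λ τ A = ENNReal.ofReal (gibbs β J Λ τ A) := fun τ A hA => by
    rw [gam_apply (hw _) hA, gibbs_eq, avg]
  have hm : Measurable (gam (w Λ) Λ) :=
    Measure.measurable_of_measurable_coe _ fun A hA => by
      simp only [hg _ hA]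
      exact (measurable_gibbs β J Λ hA).ennreal_ofReal
  have hp : ∀ τ, IsProbabilityMeasure (gam (w Λ) Λ τ) := fun τ => isProbabilityMeasure_gam (hw _)
  have hprob : IsProbabilityMeasure ((μ : Measure (Site D → Fin q)).bind (gam (w Λ) Λ)) :=
    ⟨by rw [Measure.bind_apply MeasurableSet.univ hm.aemeasurable]; simp⟩
  have key : (μ : Measure (Site D → Fin q)) = (μ : Measure (Site D → Fin q)).bind (gam (w Λ) Λ) := by
    refine ext_of_forall_lintegral_eq_of_IsFiniteMeasure fun f => ?_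
    have hf : Continuous fun σ => (f σ : ℝ) := NNReal.continuous_coe.comp f.continuous
    let g : (Site D → Fin q) →ᵇ ℝ≥0 := BoundedContinuousFunction.mkOfCompact
      ⟨fun τ => (avg (w Λ) Λ τ fun σ => f σ).toNNReal,
        continuous_real_toNNReal.comp (continuous_avg (hw _) (continuous_sw _ _) _ hf)⟩
    have hg : ∀ τ, (g τ : ℝ) = avg (w Λ) Λ τ fun σ => f σ := fun τ =>
      Real.coe_toNNReal _ (avg_nonneg (hw _) fun σ => (f σ).2)
    rw [Measure.lintegral_bind (f := fun σ => (f σ : ℝ≥0∞)) hm.aemeasurable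
      (measurable_coe_nnreal_ennreal.comp f.continuous.measurable).aemeasurable]
    have e : ∀ τ, ∫⁻ σ, (f σ : ℝ≥0∞) ∂gam (w Λ) Λ τ = g τ := by
      intro τ
      rw [← ENNReal.ofReal_coe_nnreal (p := g τ), hg,
        ← lintegral_gam (hw _) hf.measurable fun σ => (f σ).2]
      simp
    simp only [e]
    refine tendsto_nhds_unique (hlim f) ((hlim g).congr' ?_)
    obtain ⟨r, hr⟩ := exists_subset_box 0 Λ
    filter_upwards [(Ultrafilter.of_le atTop) (eventually_ge_atTop r)] with N hN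
    have hN' : Λ ⊆ box 0 N := hr.trans (box_mono 0 hN)
    simp only [hg]
    rw [← avg_avg (hw _) hN' τ₀ fun σ => f σ]
    simp only [w, avg_edges hv hN']
  rw [measureReal_def]
  conv_lhs => rw [key]
  rw [Measure.bind_apply hA hm.aemeasurable, integral_eq_lintegral_of_nonneg_ae
    (ae_of_all _ fun η => gibbs_nonneg β J Λ η A) (measurable_gibbs β J Λ hA).aestronglyMeasurable]
  simp only [hg _ hA]

end

end Pool.Agent.MP_48a2f9_mp

end MrgPart3

-- ======== part 4: formerly Pool.Agent.MP_48a2f9_mp.FKSpr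
section MrgPart4

/-!
Sprinkling on the edges of the line.
-/

open Finset

namespace Pool.Agent.MP_48a2f9_mp

noncomputable section
open Classical

namespace Gr

variable {V ι : Type*} [DecidableEq ι] {G : Gr V ι} {W : Eqv V} {E : Finset ι}

lemma wt_update (u : ι → ℝ) (e : ι) (η : ℝ) (ω : Finset ι) :
    G.wt (Function.update u e (u e * (1 + η))) W ω = G.wt u W ω * (1 + η * ind (e ∈ ω)) := by
  unfold wt
  by_cases h : e ∈ ω
  · rw [prod_update_of_mem h, ind_pos h, ← mul_prod_erase ω u h, sdiff_singleton_eq_erase]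
    ring
  · rw [prod_update_of_notMem h, ind_neg h]
    ring

lemma sprinkle_one {u : ι → ℝ} (hu : ∀ e, 0 ≤ u e) {e : ι} (he : e ∈ E) {η ε : ℝ} (hη : 0 ≤ η)
    (hε : ε * (1 + η * (u e / (u e + G.q))) ≤ η * (u e / (u e + G.q))) (hε1 : ε ≤ 1)
    {f : Finset ι → ℝ} (hf : MonoIn E f) :
    G.ex u W E (fun ω => (1 - ε) * f ω + ε * f (insert e ω)) ≤
      G.ex (Function.update u e (u e * (1 + η))) W E f := by
  have hZ := Z_pos (G := G) hu W E
  set p := G.ex u W E fun ω => ind (e ∈ ω) with hp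
  have hp0 : u e / (u e + G.q) ≤ p := by
    have h1 := le_ex_open (G := G) (W := W) hu he (g := fun _ => 1) fun _ _ => zero_le_one
    simp only [mul_one, ind_not, ex_sub, ex_const hu] at h1
    have := G.q_pos
    have := hu e
    rw [div_le_iff₀ (by linarith)]
    rw [div_mul_eq_mul_div, div_le_iff₀ G.q_pos] at h1
    linarith
  have hp1 : 0 ≤ p := ex_nonneg hu fun _ _ => ind_nonneg _
  have e1 : G.ex (Function.update u e (u e * (1 + η))) W E f =
      (G.ex u W E f + η * G.ex u W E fun ω => f (insert e ω) * ind (e ∈ ω)) / (1 + η * p) := by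
    have h1 : G.Z (Function.update u e (u e * (1 + η))) W E = G.Z u W E * (1 + η * p) := by
      have : 1 + η * p = G.ex u W E fun ω => 1 + η * ind (e ∈ ω) := by
        rw [ex_add, ex_const hu, ex_const_mul]
      rw [this, ← sm_eq hu]
      exact sum_congr rfl fun ω _ => wt_update u e η ω
    have h2 : G.sm (Function.update u e (u e * (1 + η))) W E f = G.Z u W E *
        (G.ex u W E f + η * G.ex u W E fun ω => f (insert e ω) * ind (e ∈ ω)) := by
      rw [← ex_const_mul, ← ex_add, ← sm_eq hu]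
      refine sum_congr rfl fun ω _ => ?_
      rw [wt_update]
      beta_reduce
      by_cases h : e ∈ ω
      · rw [insert_eq_of_mem h]; ring
      · rw [ind_neg h]; ring
    rw [ex, h1, h2, mul_div_mul_left _ _ hZ.ne']
  have h3 := fkg (G := G) (W := W) hu (f := fun ω => f (insert e ω)) (g := fun ω => ind (e ∈ ω))
    (fun a b k l => hf _ _ (insert_subset_insert e k) (insert_subset he l))
    (monoIn_ind fun a b k _ m => k m)
  have h4 : G.ex u W E f ≤ G.ex u W E fun ω => f (insert e ω) :=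
    ex_mono hu fun ω hω => hf _ _ (subset_insert e ω) (insert_subset he hω)
  have h5 : ε * (1 + η * p) ≤ η * p := by
    have := mul_le_mul_of_nonneg_left hp0 (mul_nonneg hη (sub_nonneg.2 hε1))
    linarith
  rw [e1, ex_add, ex_const_mul, ex_const_mul, le_div_iff₀ (by positivity)]
  have h6 := mul_le_mul_of_nonneg_left h3 hη
  have h7 := mul_le_mul_of_nonneg_left h5 (sub_nonneg.2 h4)
  rw [← hp] at h6
  nlinarith

lemma sprinkle_set {u : ι → ℝ} (hu : ∀ e, 0 ≤ u e) {v₀ η ε : ℝ} (hη : 0 ≤ η) (hε0 : 0 ≤ ε)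
    (hε : ε * (1 + η * (v₀ / (v₀ + G.q))) ≤ η * (v₀ / (v₀ + G.q))) (hε1 : ε ≤ 1)
    (L : Finset ι) (hL : L ⊆ E) (hv : ∀ e ∈ L, u e = v₀) {f : Finset ι → ℝ} (hf : MonoIn E f)
    (hf0 : ∀ ω, 0 ≤ f ω) :
    ∃ h : Finset ι → ℝ, (∀ ω ⊆ E, ∀ T ⊆ L, ε ^ #T * f (ω ∪ T) ≤ h ω) ∧
      G.ex u W E h ≤ G.ex (fun e => if e ∈ L then u e * (1 + η) else u e) W E f := by
  induction L using Finset.induction_on generalizing f with
  | empty => exact ⟨f, fun ω _ T hT => by simp [subset_empty.1 hT], by simp⟩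
  | insert e L he ih =>
    have heE : e ∈ E := hL (mem_insert_self _ _)
    have hL' : L ⊆ E := (subset_insert _ _).trans hL
    obtain ⟨h, h1, h2⟩ := ih hL' (fun e k => hv e (mem_insert_of_mem k))
      (f := fun ω => (1 - ε) * f ω + ε * f (insert e ω))
      (fun a b k l => add_le_add (mul_le_mul_of_nonneg_left (hf a b k l) (sub_nonneg.2 hε1))
        (mul_le_mul_of_nonneg_left (hf _ _ (insert_subset_insert e k) (insert_subset heE l)) hε0))
      fun ω => add_nonneg (mul_nonneg (sub_nonneg.2 hε1) (hf0 _)) (mul_nonneg hε0 (hf0 _))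
    refine ⟨h, fun ω hω T hT => ?_, h2.trans ?_⟩
    · by_cases k : e ∈ T
      · refine le_trans ?_ (h1 ω hω (T.erase e) (subset_insert_iff.1 hT))
        rw [← union_insert, insert_erase k, ← card_erase_add_one k, pow_succ, mul_assoc]
        exact mul_le_mul_of_nonneg_left (le_add_of_nonneg_left
          (mul_nonneg (sub_nonneg.2 hε1) (hf0 _))) (pow_nonneg hε0 _)
      · have hT' : T ⊆ L := (subset_insert_iff_of_notMem k).1 hT
        refine le_trans (mul_le_mul_of_nonneg_left ?_ (pow_nonneg hε0 _)) (h1 ω hω T hT')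
        have hs := union_subset hω (hT'.trans hL')
        have := mul_le_mul_of_nonneg_left (hf _ _ (subset_insert e (ω ∪ T))
          (insert_subset heE hs)) hε0
        linarith
    · have h3 := sprinkle_one (G := G) (W := W) (u := fun e => if e ∈ L then u e * (1 + η) else u e)
        (fun e => by
          have := hu e
          split_ifs <;> positivity) heE hη (ε := ε)
        (by simpa only [if_neg he, hv e (mem_insert_self _ _)] using hε) hε1 hf
      refine h3.trans_eq (ex_congr_v (fun x _ => ?_) W f)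
      by_cases k : x = e
      · subst k
        simp [he]
      · simp [k]

lemma wt_le_sdiff {u : ι → ℝ} (hu : ∀ e, 0 ≤ u e) {v₀ : ℝ} {ω T : Finset ι} (hT : T ⊆ ω)
    (hv : ∀ e ∈ T, u e = v₀) : G.wt u W ω ≤ v₀ ^ #T * G.wt u W (ω \ T) := by
  conv_lhs => rw [← sdiff_union_of_subset hT, wt_union u W sdiff_disjoint, mul_comm]
  refine mul_le_mul_of_nonneg_right ?_ (wt_nonneg hu W _)
  rw [wt, prod_congr rfl hv, prod_const]
  refine mul_le_of_le_one_right ?_
    (pow_le_one₀ (inv_nonneg.2 G.q_pos.le) (inv_le_one_of_one_le₀ G.hq))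
  rw [← prod_const, ← prod_congr rfl hv]
  exact prod_nonneg fun e _ => hu e

lemma sprinkle {v₀ v₁ : ℝ} (h0 : 0 < v₀) (h01 : v₀ < v₁) : ∃ κ : ℝ, 0 < κ ∧
    ∀ (W : Eqv V) (E L : Finset ι) (u u' : ι → ℝ) (A : Finset ι → Prop) (B : Finset ι → Finset ι),
      (∀ e, 0 ≤ u e) → (∀ e, u e ≤ u' e) → L ⊆ E → (∀ e ∈ L, u e = v₀ ∧ u' e = v₁) →
      Incr E A → (∀ ω ⊆ E, B ω ⊆ ω ∧ B ω ⊆ L) →
      (∀ ω₁ ⊆ E, ∀ ω₂ ⊆ E, A ω₁ → A ω₂ → ∀ T₁ ⊆ B ω₁, ∀ T₂ ⊆ B ω₂,
        ω₁ \ T₁ = ω₂ \ T₂ → T₁ = T₂) →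
      G.ex u W E (fun ω => ind (A ω) * (1 + κ) ^ #(B ω)) ≤ G.pr u' W E A := by
  have hq := G.q_pos
  set η := v₁ / v₀ - 1 with hη
  have hη0 : 0 < η := by rw [hη, sub_pos, one_lt_div h0]; exact h01
  set a := η * (v₀ / (v₀ + G.q)) with ha
  have ha0 : 0 < a := by positivity
  refine ⟨a / (1 + a) / v₀, by positivity, fun W E L u u' A B hu huu hL hv hA hB hinj => ?_⟩
  obtain ⟨h, h1, h2⟩ := sprinkle_set (G := G) (W := W) hu (v₀ := v₀) hη0.le (ε := a / (1 + a))
    (by positivity) (by rw [← ha, div_mul_cancel₀ _ (by positivity)])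
    (by rw [div_le_one (by positivity)]; linarith) L hL (fun e he => (hv e he).1) hA.monoIn
    fun _ => ind_nonneg _
  have hu' : ∀ e, 0 ≤ u' e := fun e => (hu e).trans (huu e)
  refine le_trans ?_ (h2.trans (holley (fun e => by
    have := hu e
    split_ifs <;> positivity) hu' le_rfl subset_rfl (fun e _ => ?_) hA.monoIn))
  swap
  · split_ifs with k
    · rw [(hv e k).1, (hv e k).2, hη, add_sub_cancel, mul_div_cancel₀ _ h0.ne']
    · exact huu e
  refine div_le_div_of_nonneg_right ?_ (Z_pos hu W E).le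
  let P := (E.powerset.filter A).sigma fun ω => (B ω).powerset
  calc G.sm u W E (fun ω => ind (A ω) * (1 + a / (1 + a) / v₀) ^ #(B ω))
      = ∑ p ∈ P, G.wt u W p.1 * (a / (1 + a) / v₀) ^ #p.2 := by
        rw [sm, sum_sigma, sum_filter]
        refine sum_congr rfl fun ω _ => ?_
        split_ifs with k
        · rw [ind_pos k, one_mul, ← prod_const, prod_one_add, mul_sum]
          simp only [prod_const]
        · rw [ind_neg k, zero_mul, mul_zero]
    _ ≤ ∑ p ∈ P, G.wt u W (p.1 \ p.2) * h (p.1 \ p.2) := by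
        refine sum_le_sum fun p hp => ?_
        simp only [P, mem_sigma, mem_filter, mem_powerset] at hp
        obtain ⟨⟨k1, k2⟩, k3⟩ := hp
        have k4 := k3.trans (hB _ k1).1
        have k5 := k3.trans (hB _ k1).2
        have k6 := h1 (p.1 \ p.2) (sdiff_subset.trans k1) p.2 k5
        rw [sdiff_union_of_subset k4, ind_pos k2, mul_one] at k6
        refine le_trans (mul_le_mul_of_nonneg_right
          (wt_le_sdiff hu k4 fun e he => (hv e (k5 he)).1) (by positivity)) ?_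
        rw [mul_right_comm, ← mul_pow, mul_div_cancel₀ _ h0.ne', mul_comm]
        exact mul_le_mul_of_nonneg_left k6 (wt_nonneg hu W _)
    _ = ∑ ξ ∈ P.image fun p => p.1 \ p.2, G.wt u W ξ * h ξ := by
        rw [sum_image]
        rintro ⟨ω₁, T₁⟩ k1 ⟨ω₂, T₂⟩ k2 k
        simp only [P, mem_coe, mem_sigma, mem_filter, mem_powerset] at k1 k2 k
        have k3 := hinj _ k1.1.1 _ k2.1.1 k1.1.2 k2.1.2 _ k1.2 _ k2.2 k
        subst k3
        have : ω₁ = ω₂ := by
          rw [← sdiff_union_of_subset (k1.2.trans (hB _ k1.1.1).1), k,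
            sdiff_union_of_subset (k2.2.trans (hB _ k2.1.1).1)]
        subst this
        rfl
    _ ≤ G.sm u W E h := by
        refine sum_le_sum_of_subset_of_nonneg (fun ξ hξ => ?_) fun ξ hξ _ =>
          mul_nonneg (wt_nonneg hu W _) (le_trans (mul_nonneg (by positivity) (ind_nonneg _))
            (h1 ξ (mem_powerset.1 hξ) ∅ (empty_subset _)))
        obtain ⟨p, hp, rfl⟩ := mem_image.1 hξ
        simp only [P, mem_sigma, mem_filter, mem_powerset] at hp
        exact mem_powerset.2 (sdiff_subset.trans hp.1.1)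

end Gr

variable {D q : ℕ}

lemma fwd_level {a b : Site D} (h : OZ.fwd a = OZ.fwd b) : a = b := by
  rcases Sym2.eq_iff.1 h with h | h
  · exact h.1
  · have h1 := congrArg Prod.fst h.1
    have h2 := congrArg Prod.fst h.2
    simp only [OZ.e1, Prod.fst_add] at h1 h2
    omega

lemma Adj.eq_add_e1 {a b : Site D} (h : Adj a b) (hl : a.1 < b.1) : b = a + OZ.e1 := by
  unfold Adj at h
  have h1 : 0 ≤ ∑ k, |a.2 k - b.2 k| := sum_nonneg fun k _ => abs_nonneg _
  have h2 : |a.1 - b.1| = b.1 - a.1 := by rw [abs_sub_comm, abs_of_pos (by omega)]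
  have h3 : ∑ k, |a.2 k - b.2 k| = 0 := by omega
  rw [sum_eq_zero_iff_of_nonneg fun k _ => abs_nonneg _] at h3
  refine Prod.ext (by simp only [OZ.e1, Prod.fst_add]; omega) (funext fun k => ?_)
  have := h3 k (mem_univ k)
  simp only [OZ.e1, Prod.snd_add, add_zero]
  rw [abs_eq_zero] at this
  omega

/-- The line edges that are the only crossing of their level. -/
def brk (q n : ℕ) (ω : Finset (Sym2 (Site D))) : Finset (Sym2 (Site D)) :=
  ((range n).filter fun t : ℕ => OZ.cross (cluE q 0 ω) t = {OZ.fwd ((t : ℤ), 0)}).image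
    fun t : ℕ => OZ.fwd ((t : ℤ), 0)

lemma card_brk (n : ℕ) (ω : Finset (Sym2 (Site D))) :
    #(brk q n ω) = OZ.lineBreaks (cluE q 0 ω) n :=
  card_image_of_injective _ fun s t h => by simpa using fwd_level h

lemma mem_brk {n : ℕ} {ω : Finset (Sym2 (Site D))} {e : Sym2 (Site D)} : e ∈ brk q n ω ↔
    ∃ t : ℕ, (t < n ∧ OZ.cross (cluE q 0 ω) t = {OZ.fwd ((t : ℤ), 0)}) ∧
      OZ.fwd ((t : ℤ), 0) = e := by
  simp only [brk, mem_image, mem_filter, mem_range]

lemma brk_subset (n : ℕ) (ω : Finset (Sym2 (Site D))) : brk q n ω ⊆ ω := by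
  intro e he
  obtain ⟨t, ⟨-, h⟩, rfl⟩ := mem_brk.1 he
  have : OZ.fwd ((t : ℤ), 0) ∈ OZ.cross (cluE q 0 ω) t := h ▸ mem_singleton_self _
  exact filter_subset _ _ (filter_subset _ _ this)

lemma brk_step {n : ℕ} {ω₁ ω₂ T₁ T₂ : Finset (Sym2 (Site D))} (hE : ∀ e ∈ ω₂, IsEdge e)
    (hA : (lat D q).conn free ω₂ 0 ((n : ℤ), 0)) (h1 : T₁ ⊆ brk q n ω₁) (h2 : T₂ ⊆ brk q n ω₂)
    (h : ω₁ \ T₁ = ω₂ \ T₂) {t : ℕ}
    (ih : ∀ s < t, OZ.fwd ((s : ℤ), 0) ∈ T₂ → OZ.fwd ((s : ℤ), 0) ∈ T₁)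
    (ht : OZ.fwd ((t : ℤ), 0) ∈ T₁) : OZ.fwd ((t : ℤ), 0) ∈ T₂ := by
  by_contra hc
  obtain ⟨t', ⟨htn, hx⟩, k⟩ := mem_brk.1 (h1 ht)
  obtain rfl : t' = t := by simpa using fwd_level k
  have h3 : ∀ e ∈ ω₂, e ∉ T₂ → e ∈ ω₁ ∧ e ∉ T₁ := fun e k l =>
    mem_sdiff.1 (h ▸ mem_sdiff.2 ⟨k, l⟩)
  have := conn_free_induction (P := fun z => z.1 ≤ t' ∧ (lat D q).conn free ω₁ 0 z)
    ⟨by simp, Eqv.refl' _ _⟩ (fun a b _ ha hab => by
      by_cases hb : b.1 ≤ t'
      · refine ⟨hb, Eqv.trans' _ ha.2 (lat_conn_edge _ ?_)⟩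
        by_cases k : s(a, b) ∈ T₂
        · obtain ⟨s, -, l⟩ := mem_brk.1 (h2 k)
          have hs : s < t' := by
            have : ((s : ℤ), (0 : Fin D → ℤ)) + OZ.e1 ∈ s(a, b) := l ▸ Sym2.mem_mk_right _ _
            rcases Sym2.mem_iff.1 this with m | m <;> have := congrArg Prod.fst m <;>
              simp only [OZ.e1, Prod.fst_add] at this <;> omega
          exact brk_subset n ω₁ (h1 (l ▸ ih s hs (l.symm ▸ k)))
        · exact (h3 _ hab k).1
      · exfalso
        have h4 := (isEdge_mk.1 (hE _ hab)).eq_add_e1 (by omega)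
        have h5 : a.1 = t' := by
          have := congrArg Prod.fst h4
          simp only [OZ.e1, Prod.fst_add] at this
          omega
        have h6 : s(a, b) = OZ.fwd a := by rw [h4]; rfl
        rw [h6] at hab
        by_cases k : OZ.fwd a ∈ T₂
        · obtain ⟨s, -, l⟩ := mem_brk.1 (h2 k)
          have m := fwd_level l
          have : s = t' := by
            have := congrArg Prod.fst m
            omega
          exact hc (this ▸ l.symm ▸ k)
        · have h7 : OZ.fwd a ∈ OZ.cross (cluE q 0 ω₁) t' := mem_filter.2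
            ⟨mem_filter.2 ⟨(h3 _ hab k).1, a, Sym2.mem_mk_left _ _, ha.2⟩, a, h5, rfl⟩
          rw [hx, mem_singleton] at h7
          exact (h3 _ hab k).2 (h7 ▸ ht)) hA
  simp only at this
  omega

theorem sprStmt : SprStmt := by
  intro D q β J J' hβ hJ hJJ
  obtain ⟨κ, hκ, h⟩ := Gr.sprinkle (G := lat D q) (v₀ := Real.exp (β * J) - 1)
    (v₁ := Real.exp (β * J') - 1) (sub_pos.2 (Real.one_lt_exp_iff.2 (mul_pos hβ hJ)))
    (sub_lt_sub_right (Real.exp_lt_exp.2 (mul_lt_mul_of_pos_left hJJ hβ)) 1)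
  refine ⟨κ, hκ, fun Λ n => ?_⟩
  simp only [← card_brk]
  refine h free (edgesIn Λ) ((edgesIn Λ).filter fun e => ∀ x ∈ e, x.2 = 0) _ _ _ (brk q n)
    (vJ_nonneg hβ.le hJ.le) (vJ_mono hβ.le le_rfl hJ.le hJJ.le) (filter_subset _ _)
    (fun e he => by simp only [vJ, edgeJ, if_pos (mem_filter.1 he).2, and_self])
    (Gr.incr_conn _ _ _ _) (fun ω hω => ⟨brk_subset n ω, fun e he => mem_filter.2
      ⟨hω (brk_subset n ω he), ?_⟩⟩) fun ω₁ h1 ω₂ h2 a1 a2 T₁ k1 T₂ k2 k => ?_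
  · obtain ⟨t, -, rfl⟩ := mem_brk.1 he
    intro x hx
    rcases Sym2.mem_iff.1 hx with rfl | rfl <;> simp [OZ.e1]
  · have key : ∀ t : ℕ, OZ.fwd ((t : ℤ), 0) ∈ T₁ ↔ OZ.fwd ((t : ℤ), 0) ∈ T₂ := by
      intro t
      induction t using Nat.strong_induction_on with
      | _ t ih =>
        exact ⟨brk_step (fun e he => (mem_edgesIn.1 (h2 he)).1) a2 k1 k2 k fun s hs => (ih s hs).2,
          brk_step (fun e he => (mem_edgesIn.1 (h1 he)).1) a1 k2 k1 k.symm fun s hs => (ih s hs).1⟩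
    ext e
    constructor
    · intro he
      obtain ⟨t, -, rfl⟩ := mem_brk.1 (k1 he)
      exact (key t).1 he
    · intro he
      obtain ⟨t, -, rfl⟩ := mem_brk.1 (k2 he)
      exact (key t).2 he

end

end Pool.Agent.MP_48a2f9_mp

end MrgPart4

-- ======== part 5: formerly Pool.Agent.MP_48a2f9_mp.MG2Base
section MrgPart5

/-!
Module MG2, part 1: clusters, shifts along the first axis, rays.
-/

open scoped ENNReal

namespace Pool.Agent.MP_48a2f9_mp.OZ.MG2

noncomputable section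
open Classical

variable {D : ℕ}

/-- The shift by `L` along the first axis. -/
def sh (L : ℤ) (v : Site D) : Site D := (v.1 + L, v.2)

/-- The shift of an edge set. -/
def shE (L : ℤ) (E : Finset (Ed D)) : Finset (Ed D) := E.image (Sym2.map (sh L))

/-- The edges of the ray from `a` between the positions `i₁` and `i₂`. -/
def seg (a : Site D) (i₁ i₂ : ℕ) : Finset (Ed D) :=
  (Finset.Ico i₁ i₂).image fun i : ℕ => fwd (sh (i : ℤ) a)

@[simp] lemma sh_fst (L : ℤ) (v : Site D) : (sh L v).1 = v.1 + L := rfl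
@[simp] lemma sh_snd (L : ℤ) (v : Site D) : (sh L v).2 = v.2 := rfl
@[simp] lemma e1_fst : (e1 : Site D).1 = 1 := rfl
@[simp] lemma e1_snd : (e1 : Site D).2 = 0 := rfl
lemma add_e1_fst (v : Site D) : (v + e1).1 = v.1 + 1 := rfl

lemma sh_zero (v : Site D) : sh 0 v = v := by
  ext <;> simp

lemma sh_sh (L L' : ℤ) (v : Site D) : sh L (sh L' v) = sh (L' + L) v := by
  ext
  · simp [add_assoc]
  · simp

lemma sh_add_e1 (L : ℤ) (v : Site D) : sh L (v + e1) = sh L v + e1 := by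
  ext
  · simp; ring
  · simp

lemma sh_succ (L : ℤ) (v : Site D) : sh (L + 1) v = sh L v + e1 := by
  ext
  · simp; ring
  · simp

lemma sh_inj (L : ℤ) : Function.Injective (sh (D := D) L) := by
  intro v w h
  have h1 := congrArg Prod.fst h
  have h2 := congrArg Prod.snd h
  simp at h1 h2
  exact Prod.ext h1 h2

/-- The shift as a bijection. -/
def shEquiv (L : ℤ) : Site D ≃ Site D where
  toFun := sh L
  invFun := sh (-L)
  left_inv v := by rw [sh_sh]; simp [sh_zero]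
  right_inv v := by rw [sh_sh]; simp [sh_zero]

lemma mem_fwd {v w : Site D} : w ∈ fwd v ↔ w = v ∨ w = v + e1 := by
  simp [fwd]

lemma fwd_inj {v w : Site D} (h : fwd v = fwd w) : v = w := by
  unfold fwd at h
  rcases Sym2.eq_iff.1 h with ⟨h1, _⟩ | ⟨h1, h2⟩
  · exact h1
  · have a1 := congrArg Prod.fst h1
    have a2 := congrArg Prod.fst h2
    simp at a1 a2
    omega

lemma map_fwd (L : ℤ) (v : Site D) : Sym2.map (sh L) (fwd v) = fwd (sh L v) := by
  simp [fwd, sh_add_e1]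

lemma adj_sh (L : ℤ) (x y : Site D) : Adj (sh L x) (sh L y) ↔ Adj x y := by
  unfold Adj
  simp

lemma isEdge_fwd (v : Site D) : IsEdge (fwd v) := by
  refine ⟨v, v + e1, ?_, rfl⟩
  unfold Adj
  simp

lemma isEdge_map {L : ℤ} {e : Ed D} (h : IsEdge e) : IsEdge (Sym2.map (sh L) e) := by
  obtain ⟨x, y, hxy, rfl⟩ := h
  exact ⟨sh L x, sh L y, (adj_sh L x y).2 hxy, by simp⟩

lemma edgeJ_map (J : ℝ) (L : ℤ) (e : Ed D) : edgeJ J (Sym2.map (sh L) e) = edgeJ J e := by
  induction e using Sym2.ind with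
  | h x y => simp [edgeJ]

lemma mem_verts {x v : Site D} {E : Finset (Ed D)} :
    v ∈ verts x E ↔ v = x ∨ ∃ e ∈ E, v ∈ e := by
  simp [verts]

lemma root_mem (x : Site D) (E : Finset (Ed D)) : x ∈ verts x E := mem_verts.2 (Or.inl rfl)

lemma mem_verts_of_mem {x v : Site D} {E : Finset (Ed D)} {e : Ed D} (he : e ∈ E) (hv : v ∈ e) :
    v ∈ verts x E := mem_verts.2 (Or.inr ⟨e, he, hv⟩)

lemma conn_mono {E E' : Finset (Ed D)} (h : E ⊆ E') {a b : Site D} (hc : Conn E a b) :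
    Conn E' a b :=
  Relation.ReflTransGen.mono (fun _ _ huv => h huv) _ _ hc

lemma conn_symm {E : Finset (Ed D)} {a b : Site D} (hc : Conn E a b) : Conn E b a := by
  induction hc with
  | refl => exact Relation.ReflTransGen.refl
  | tail _ h ih => exact Relation.ReflTransGen.head (by rw [Sym2.eq_swap]; exact h) ih

lemma conn_trans {E : Finset (Ed D)} {a b c : Site D} (h1 : Conn E a b) (h2 : Conn E b c) :
    Conn E a c := Relation.ReflTransGen.trans h1 h2

lemma conn_fwd {E : Finset (Ed D)} {a : Site D} (h : fwd a ∈ E) : Conn E a (a + e1) :=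
  Relation.ReflTransGen.single h

lemma mem_verts_of_conn {E : Finset (Ed D)} {x v : Site D} (hc : Conn E x v) : v ∈ verts x E := by
  induction hc with
  | refl => exact root_mem _ _
  | tail _ h _ => exact mem_verts_of_mem h (by simp)

lemma mem_shE {L : ℤ} {E : Finset (Ed D)} {e : Ed D} :
    e ∈ shE L E ↔ ∃ e' ∈ E, Sym2.map (sh L) e' = e := by
  simp [shE]

lemma map_sh_inj (L : ℤ) : Function.Injective (Sym2.map (sh (D := D) L)) :=
  Sym2.map.injective (sh_inj L)

lemma verts_shE (L : ℤ) (x : Site D) (E : Finset (Ed D)) :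
    verts (sh L x) (shE L E) = (verts x E).image (sh L) := by
  ext v
  simp only [mem_verts, Finset.mem_image, mem_shE]
  constructor
  · rintro (rfl | ⟨e, ⟨e', he', rfl⟩, hv⟩)
    · exact ⟨x, Or.inl rfl, rfl⟩
    · obtain ⟨w, hw, rfl⟩ := Sym2.mem_map.1 hv
      exact ⟨w, Or.inr ⟨e', he', hw⟩, rfl⟩
  · rintro ⟨w, rfl | ⟨e', he', hw⟩, rfl⟩
    · exact Or.inl rfl
    · exact Or.inr ⟨_, ⟨e', he', rfl⟩, Sym2.mem_map.2 ⟨w, hw, rfl⟩⟩

lemma mem_verts_shE {L : ℤ} {x v : Site D} {E : Finset (Ed D)} :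
    v ∈ verts (sh L x) (shE L E) ↔ ∃ w ∈ verts x E, sh L w = v := by
  rw [verts_shE, Finset.mem_image]

lemma conn_shE {L : ℤ} {E : Finset (Ed D)} {a b : Site D} (hc : Conn E a b) :
    Conn (shE L E) (sh L a) (sh L b) := by
  induction hc with
  | refl => exact Relation.ReflTransGen.refl
  | tail _ h ih => exact Relation.ReflTransGen.tail ih (mem_shE.2 ⟨_, h, by simp⟩)

lemma isClu_shE {L : ℤ} {x : Site D} {E : Finset (Ed D)} (h : IsClu x E) :
    IsClu (sh L x) (shE L E) := by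
  refine ⟨fun e he => ?_, fun v hv => ?_⟩
  · obtain ⟨e', he', rfl⟩ := mem_shE.1 he
    exact isEdge_map (h.1 e' he')
  · obtain ⟨w, hw, rfl⟩ := mem_verts_shE.1 hv
    exact conn_shE (h.2 w hw)

lemma shE_union (L : ℤ) (E E' : Finset (Ed D)) : shE L (E ∪ E') = shE L E ∪ shE L E' := by
  simp [shE, Finset.image_union]

/-- Gluing two clusters along forward edges. -/
lemma glue {x x' : Site D} {EA F EB : Finset (Ed D)} (hA : IsClu x EA) (hB : IsClu x' EB)
    (hne : F.Nonempty)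
    (hF : ∀ e ∈ F, ∃ a ∈ verts x EA, a + e1 ∈ verts x' EB ∧ e = fwd a) :
    IsClu x (EA ∪ F ∪ EB) ∧ verts x (EA ∪ F ∪ EB) = verts x EA ∪ verts x' EB := by
  have sA : EA ⊆ EA ∪ F ∪ EB := fun e he => by simp [he]
  have sF : F ⊆ EA ∪ F ∪ EB := fun e he => by simp [he]
  have sB : EB ⊆ EA ∪ F ∪ EB := fun e he => by simp [he]
  obtain ⟨e0, he0⟩ := hne
  obtain ⟨a0, ha0, hb0, rfl⟩ := hF e0 he0
  have hx' : Conn (EA ∪ F ∪ EB) x x' :=
    conn_trans (conn_trans (conn_mono sA (hA.2 a0 ha0)) (conn_fwd (sF he0)))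
      (conn_symm (conn_mono sB (hB.2 _ hb0)))
  have cA : ∀ v ∈ verts x EA, Conn (EA ∪ F ∪ EB) x v := fun v hv => conn_mono sA (hA.2 v hv)
  have cB : ∀ v ∈ verts x' EB, Conn (EA ∪ F ∪ EB) x v := fun v hv =>
    conn_trans hx' (conn_mono sB (hB.2 v hv))
  have hsub : ∀ v ∈ verts x (EA ∪ F ∪ EB), v ∈ verts x EA ∨ v ∈ verts x' EB := by
    intro v hv
    rcases mem_verts.1 hv with rfl | ⟨e, he, hve⟩
    · exact Or.inl (root_mem _ _)
    · rcases Finset.mem_union.1 he with he | he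
      · rcases Finset.mem_union.1 he with he | he
        · exact Or.inl (mem_verts_of_mem he hve)
        · obtain ⟨a, ha, hb, rfl⟩ := hF e he
          rcases mem_fwd.1 hve with rfl | rfl
          · exact Or.inl ha
          · exact Or.inr hb
      · exact Or.inr (mem_verts_of_mem he hve)
  refine ⟨⟨fun e he => ?_, fun v hv => ?_⟩, ?_⟩
  · rcases Finset.mem_union.1 he with he | he
    · rcases Finset.mem_union.1 he with he | he
      · exact hA.1 e he
      · obtain ⟨a, _, _, rfl⟩ := hF e he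
        exact isEdge_fwd a
    · exact hB.1 e he
  · rcases hsub v hv with h | h
    · exact cA v h
    · exact cB v h
  · ext v
    rw [Finset.mem_union]
    refine ⟨hsub v, ?_⟩
    rintro (h | h)
    · exact mem_verts_of_conn (cA v h)
    · exact mem_verts_of_conn (cB v h)

lemma mem_seg {a : Site D} {i₁ i₂ : ℕ} {e : Ed D} :
    e ∈ seg a i₁ i₂ ↔ ∃ i : ℕ, i₁ ≤ i ∧ i < i₂ ∧ e = fwd (sh (i : ℤ) a) := by
  simp only [seg, Finset.mem_image, Finset.mem_Ico]
  constructor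
  · rintro ⟨i, ⟨h1, h2⟩, rfl⟩; exact ⟨i, h1, h2, rfl⟩
  · rintro ⟨i, h1, h2, rfl⟩; exact ⟨i, ⟨h1, h2⟩, rfl⟩

lemma seg_succ (a : Site D) {i₁ m : ℕ} (h : i₁ ≤ m) :
    seg a i₁ (m + 1) = seg a i₁ m ∪ {fwd (sh (m : ℤ) a)} := by
  ext e
  simp only [mem_seg, Finset.mem_union, Finset.mem_singleton]
  constructor
  · rintro ⟨i, h1, h2, rfl⟩
    rcases Nat.lt_succ_iff_lt_or_eq.1 h2 with h3 | rfl
    · exact Or.inl ⟨i, h1, h3, rfl⟩
    · exact Or.inr rfl
  · rintro (⟨i, h1, h2, rfl⟩ | rfl)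
    · exact ⟨i, h1, by omega, rfl⟩
    · exact ⟨m, h, by omega, rfl⟩

/-- Extension of a cluster by a piece of a ray. -/
lemma extend_ray {x a : Site D} {EA : Finset (Ed D)} (hA : IsClu x EA) {i₁ : ℕ}
    (h1 : sh (i₁ : ℤ) a ∈ verts x EA) (m : ℕ) :
    IsClu x (EA ∪ seg a i₁ m) ∧ ∀ v, v ∈ verts x (EA ∪ seg a i₁ m) ↔
      v ∈ verts x EA ∨ ∃ i : ℕ, i₁ < i ∧ i ≤ m ∧ v = sh (i : ℤ) a := by
  have hc : ∀ i : ℕ, i₁ ≤ i → i ≤ m → Conn (EA ∪ seg a i₁ m) x (sh (i : ℤ) a) := by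
    intro i hi
    induction i, hi using Nat.le_induction with
    | base => exact fun _ => conn_mono Finset.subset_union_left (hA.2 _ h1)
    | succ i hi ih =>
      intro him
      have := conn_fwd (E := EA ∪ seg a i₁ m) (a := sh (i : ℤ) a)
        (Finset.mem_union_right _ (mem_seg.2 ⟨i, hi, by omega, rfl⟩))
      rw [← sh_succ] at this
      push_cast
      exact conn_trans (ih (by omega)) this
  have hv : ∀ v, v ∈ verts x (EA ∪ seg a i₁ m) ↔
      v ∈ verts x EA ∨ ∃ i : ℕ, i₁ < i ∧ i ≤ m ∧ v = sh (i : ℤ) a := by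
    intro v
    constructor
    · intro hv
      rcases mem_verts.1 hv with rfl | ⟨e, he, hve⟩
      · exact Or.inl (root_mem _ _)
      · rcases Finset.mem_union.1 he with he | he
        · exact Or.inl (mem_verts_of_mem he hve)
        · obtain ⟨i, h2, h3, rfl⟩ := mem_seg.1 he
          rcases mem_fwd.1 hve with rfl | rfl
          · rcases Nat.eq_or_lt_of_le h2 with rfl | h4
            · exact Or.inl h1
            · exact Or.inr ⟨i, h4, by omega, rfl⟩
          · refine Or.inr ⟨i + 1, by omega, by omega, ?_⟩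
            push_cast
            rw [sh_succ]
    · rintro (h | ⟨i, h2, h3, rfl⟩)
      · exact mem_verts_of_conn (conn_mono Finset.subset_union_left (hA.2 v h))
      · exact mem_verts_of_conn (hc i h2.le h3)
  refine ⟨⟨fun e he => ?_, fun v hv' => ?_⟩, hv⟩
  · rcases Finset.mem_union.1 he with he | he
    · exact hA.1 e he
    · obtain ⟨i, _, _, rfl⟩ := mem_seg.1 he
      exact isEdge_fwd _
  · rcases (hv v).1 hv' with h | ⟨i, h2, h3, rfl⟩
    · exact conn_mono Finset.subset_union_left (hA.2 v h)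
    · exact hc i h2.le h3

end

end Pool.Agent.MP_48a2f9_mp.OZ.MG2

end MrgPart5

-- ======== part 6: formerly Pool.Agent.MP_48a2f9_mp.MG2Surg
section MrgPart6

/-!
Module MG2, part 2: chains and the translation surgery at a cut.
-/

open scoped ENNReal

namespace Pool.Agent.MP_48a2f9_mp.OZ.MG2

noncomputable section
open Classical

variable {D : ℕ}

lemma chain_clu {K : ℕ} {n : ℤ} {x : Site D} {E : Finset (Ed D)} {T : List ℤ}
    (h : Chain K n x E T) : IsClu x E ∧ ∃ y ∈ verts x E, n ≤ y.1 := by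
  induction h with
  | nil x E h1 h2 => exact ⟨h1, h2⟩
  | cons x x' EA F EB u T hA _ _ hne hF _ _ _ _ _ ih =>
    obtain ⟨h1, h2⟩ := glue hA ih.1 hne (fun e he => by
      obtain ⟨a, ha, _, hb, rfl⟩ := hF e he
      exact ⟨a, ha, hb, rfl⟩)
    obtain ⟨y, hy, hn⟩ := ih.2
    exact ⟨h1, y, by rw [h2]; exact Finset.mem_union_right _ hy, hn⟩

lemma chain_range {K : ℕ} {n : ℤ} {x : Site D} {E : Finset (Ed D)} {T : List ℤ}
    (h : Chain K n x E T) : ∀ u ∈ T, x.1 + 2 * K ≤ u ∧ u < n := by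
  induction h with
  | nil x E _ _ => simp
  | cons x x' EA F EB u T _ _ _ _ _ h1 _ _ h2 h3 ih =>
    intro w hw
    rcases List.mem_cons.1 hw with rfl | hw
    · exact ⟨h2, h3⟩
    · have := ih w hw
      constructor <;> omega

lemma chain_nodup {K : ℕ} {n : ℤ} {x : Site D} {E : Finset (Ed D)} {T : List ℤ}
    (h : Chain K n x E T) : T.Nodup := by
  induction h with
  | nil x E _ _ => simp
  | cons x x' EA F EB u T _ hc _ _ _ h1 _ _ _ _ ih =>
    refine List.nodup_cons.2 ⟨fun hu => ?_, ih⟩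
    have := chain_range hc u hu
    omega

lemma chain_shift {K : ℕ} {n : ℤ} (L : ℤ) {x : Site D} {E : Finset (Ed D)} {T : List ℤ}
    (h : Chain K n x E T) : Chain K (n + L) (sh L x) (shE L E) (T.map (· + L)) := by
  induction h with
  | nil x E h1 h2 =>
    obtain ⟨y, hy, hn⟩ := h2
    exact Chain.nil _ _ (isClu_shE h1) ⟨sh L y, mem_verts_shE.2 ⟨y, hy, rfl⟩, by simp; omega⟩
  | cons x x' EA F EB u T hA _ hd hne hF h1 h2 h3 h4 h5 ih =>
    rw [shE_union, shE_union, List.map_cons]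
    refine Chain.cons _ (sh L x') _ _ _ _ _ (isClu_shE hA) ih ?_ ?_ ?_ ?_ ?_ ?_ ?_ ?_
    · rw [verts_shE, verts_shE]
      exact (Finset.disjoint_image (sh_inj L)).2 hd
    · obtain ⟨e, he⟩ := hne
      exact ⟨_, mem_shE.2 ⟨e, he, rfl⟩⟩
    · intro e he
      obtain ⟨e', he', rfl⟩ := mem_shE.1 he
      obtain ⟨a, ha, hu, hb, rfl⟩ := hF e' he'
      refine ⟨sh L a, mem_verts_shE.2 ⟨a, ha, rfl⟩, by simp [hu], ?_, map_fwd L a⟩
      exact mem_verts_shE.2 ⟨_, hb, sh_add_e1 L a⟩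
    · simp; omega
    · intro v hv
      obtain ⟨w, hw, rfl⟩ := mem_verts_shE.1 hv
      have := h2 w hw
      simp; omega
    · intro v hv
      obtain ⟨w, hw, rfl⟩ := mem_verts_shE.1 hv
      have := h3 w hw
      simp; omega
    · simp; omega
    · omega

/-- The data of a surgery. -/
structure Data (D : ℕ) where
  x' : Site D
  EA : Finset (Ed D)
  F : Finset (Ed D)
  EB : Finset (Ed D)
  a : Site D
  i₁ : ℕ
  i₂ : ℕ

/-- `E'` is obtained from `E` by cutting at level `u`, shifting the far part by `2 K` and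
joining the two parts along a ray. -/
structure Surg (K : ℕ) (x : Site D) (E : Finset (Ed D)) (u : ℤ) (E' : Finset (Ed D))
    (d : Data D) : Prop where
  cluA : IsClu x d.EA
  cluB : IsClu d.x' d.EB
  disj : Disjoint (verts x d.EA) (verts d.x' d.EB)
  hF : ∀ e ∈ d.F, ∃ a ∈ verts x d.EA, a.1 = u ∧ a + e1 ∈ verts d.x' d.EB ∧ e = fwd a
  aF : fwd d.a ∈ d.F
  lowA : ∀ v ∈ verts x d.EA, v.1 ≤ u + K
  highB : ∀ v ∈ verts d.x' d.EB, u - K < v.1
  xu : x.1 + 2 * K ≤ u
  i1le : d.i₁ ≤ K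
  i1mem : sh (d.i₁ : ℤ) d.a ∈ verts x d.EA
  i1max : ∀ i : ℕ, d.i₁ < i → sh (i : ℤ) d.a ∉ verts x d.EA
  i2ge : K + 1 ≤ d.i₂
  i2le : d.i₂ ≤ 2 * K + 1
  i2mem : sh (d.i₂ : ℤ) d.a ∈ verts (sh (2 * K) d.x') (shE (2 * K) d.EB)
  i2min : ∀ i : ℕ, i < d.i₂ → sh (i : ℤ) d.a ∉ verts (sh (2 * K) d.x') (shE (2 * K) d.EB)
  eqE : E = d.EA ∪ d.F ∪ d.EB
  eqE' : E' = d.EA ∪ seg d.a d.i₁ d.i₂ ∪ shE (2 * K) d.EB

namespace Surg

variable {K : ℕ} {x : Site D} {E E' : Finset (Ed D)} {u : ℤ} {d : Data D}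

lemma a_lev (h : Surg K x E u E' d) : d.a.1 = u := by
  obtain ⟨a, _, hu, _, he⟩ := h.hF _ h.aF
  rw [fwd_inj he]; exact hu

lemma a_mem (h : Surg K x E u E' d) : d.a ∈ verts x d.EA := by
  obtain ⟨a, ha, _, _, he⟩ := h.hF _ h.aF
  rw [fwd_inj he]; exact ha

lemma highB' (h : Surg K x E u E' d) :
    ∀ v ∈ verts (sh (2 * K) d.x') (shE (2 * K) d.EB), u + K < v.1 := by
  intro v hv
  obtain ⟨w, hw, rfl⟩ := mem_verts_shE.1 hv
  have := h.highB w hw
  simp; omega

lemma vertsE (h : Surg K x E u E' d) :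
    IsClu x E ∧ verts x E = verts x d.EA ∪ verts d.x' d.EB := by
  rw [h.eqE]
  exact glue h.cluA h.cluB ⟨_, h.aF⟩ (fun e he => by
    obtain ⟨a, ha, _, hb, rfl⟩ := h.hF e he
    exact ⟨a, ha, hb, rfl⟩)

lemma eqE'' (h : Surg K x E u E' d) :
    E' = (d.EA ∪ seg d.a d.i₁ (d.i₂ - 1)) ∪ {fwd (sh ((d.i₂ - 1 : ℕ) : ℤ) d.a)} ∪
      shE (2 * K) d.EB := by
  have h1 := h.i1le
  have h2 := h.i2ge
  have : seg d.a d.i₁ d.i₂ = seg d.a d.i₁ (d.i₂ - 1) ∪ {fwd (sh ((d.i₂ - 1 : ℕ) : ℤ) d.a)} := by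
    rw [← seg_succ d.a (by omega)]
    congr 1
    omega
  rw [h.eqE', this, ← Finset.union_assoc]

lemma last_mem (h : Surg K x E u E' d) :
    sh ((d.i₂ - 1 : ℕ) : ℤ) d.a ∈ verts x (d.EA ∪ seg d.a d.i₁ (d.i₂ - 1)) := by
  have h1 := h.i1le
  have h2 := h.i2ge
  rw [(extend_ray h.cluA h.i1mem (d.i₂ - 1)).2]
  by_cases hc : d.i₁ = d.i₂ - 1
  · rw [← hc]; exact Or.inl h.i1mem
  · exact Or.inr ⟨d.i₂ - 1, by omega, le_rfl, rfl⟩

lemma last_next (h : Surg K x E u E' d) :
    sh ((d.i₂ - 1 : ℕ) : ℤ) d.a + e1 = sh (d.i₂ : ℤ) d.a := by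
  have h2 := h.i2ge
  rw [← sh_succ]
  congr 1
  omega

lemma vertsE' (h : Surg K x E u E' d) :
    IsClu x E' ∧ ∀ v, v ∈ verts x E' ↔ v ∈ verts x d.EA ∨
      (∃ i : ℕ, d.i₁ < i ∧ i < d.i₂ ∧ v = sh (i : ℤ) d.a) ∨
      v ∈ verts (sh (2 * K) d.x') (shE (2 * K) d.EB) := by
  have h2 := h.i2ge
  obtain ⟨c1, v1⟩ := extend_ray h.cluA h.i1mem (d.i₂ - 1)
  obtain ⟨c2, v2⟩ := glue (F := {fwd (sh ((d.i₂ - 1 : ℕ) : ℤ) d.a)}) c1
    (isClu_shE (L := 2 * K) h.cluB) (by simp) (fun e he => by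
      rw [Finset.mem_singleton] at he
      exact ⟨_, h.last_mem, by rw [h.last_next]; exact h.i2mem, he⟩)
  rw [← h.eqE''] at c2 v2
  refine ⟨c2, fun v => ?_⟩
  rw [v2, Finset.mem_union, v1, or_assoc]
  constructor
  · rintro (a | ⟨i, a, b, c⟩ | a)
    · exact Or.inl a
    · exact Or.inr (Or.inl ⟨i, a, by omega, c⟩)
    · exact Or.inr (Or.inr a)
  · rintro (a | ⟨i, a, b, c⟩ | a)
    · exact Or.inl a
    · exact Or.inr (Or.inl ⟨i, a, by omega, c⟩)
    · exact Or.inr (Or.inr a)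

end Surg

/-- The surgery at the first cut. -/
lemma surg_head {K : ℕ} {n : ℤ} {x x' : Site D} {EA F EB : Finset (Ed D)} {u : ℤ} {T : List ℤ}
    (hA : IsClu x EA) (hc : Chain K n x' EB T) (hd : Disjoint (verts x EA) (verts x' EB))
    (hne : F.Nonempty)
    (hF : ∀ e ∈ F, ∃ a ∈ verts x EA, a.1 = u ∧ a + e1 ∈ verts x' EB ∧ e = fwd a)
    (h1 : u + 1 ≤ x'.1) (h2 : ∀ v ∈ verts x EA, v.1 ≤ u + K)
    (h3 : ∀ v ∈ verts x' EB, u - K < v.1) (h4 : x.1 + 2 * K ≤ u) (h5 : u < n) :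
    ∃ E' d T', Surg K x (EA ∪ F ∪ EB) u E' d ∧ Chain K (n + 2 * K) x E' T' ∧
      T'.length = T.length + 1 := by
  obtain ⟨e, he⟩ := hne
  obtain ⟨a, ha, hau, hb, rfl⟩ := hF e he
  have ex2 : ∃ i : ℕ, sh (i : ℤ) a ∈ verts (sh (2 * K) x') (shE (2 * K) EB) :=
    ⟨2 * K + 1, mem_verts_shE.2 ⟨a + e1, hb, by
      rw [sh_add_e1, ← sh_succ]; push_cast; rfl⟩⟩
  have high : ∀ v ∈ verts (sh (2 * K) x') (shE (2 * K) EB), u + K < v.1 := by
    intro v hv
    obtain ⟨w, hw, rfl⟩ := mem_verts_shE.1 hv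
    have := h3 w hw
    simp; omega
  have s1 : sh ((Nat.findGreatest (fun i : ℕ => sh (i : ℤ) a ∈ verts x EA) K : ℕ) : ℤ) a ∈
      verts x EA :=
    Nat.findGreatest_spec (P := fun i : ℕ => sh (i : ℤ) a ∈ verts x EA) (Nat.zero_le K)
      (by simpa [sh_zero] using ha)
  have hS : Surg K x (EA ∪ F ∪ EB) u
      (EA ∪ seg a (Nat.findGreatest (fun i : ℕ => sh (i : ℤ) a ∈ verts x EA) K) (Nat.find ex2) ∪
        shE (2 * K) EB)
      ⟨x', EA, F, EB, a, Nat.findGreatest (fun i : ℕ => sh (i : ℤ) a ∈ verts x EA) K,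
        Nat.find ex2⟩ := by
    refine ⟨hA, (chain_clu hc).1, hd, hF, he, h2, h3, h4, Nat.findGreatest_le K, s1, ?_, ?_, ?_,
      Nat.find_spec ex2, fun i hi => Nat.find_min ex2 hi, rfl, rfl⟩
    · intro i hi hmem
      by_cases hiK : i ≤ K
      · exact Nat.findGreatest_is_greatest hi hiK hmem
      · have := h2 _ hmem
        simp at this; omega
    · have := high _ (Nat.find_spec ex2)
      simp at this
      show K + 1 ≤ Nat.find ex2
      omega
    · exact Nat.find_min' ex2 (mem_verts_shE.2 ⟨a + e1, hb, by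
        rw [sh_add_e1, ← sh_succ]; push_cast; rfl⟩)
  refine ⟨_, _, (u + ((Nat.find ex2 - 1 : ℕ) : ℤ)) :: T.map (· + 2 * (K : ℤ)), hS, ?_, by simp⟩
  rw [hS.eqE'']
  have g2 := hS.i2ge
  have l2 := hS.i2le
  dsimp only at g2 l2 ⊢
  obtain ⟨c1, v1⟩ := extend_ray hA s1 (Nat.find ex2 - 1)
  refine Chain.cons _ (sh (2 * K) x') _ _ _ _ _ c1 (chain_shift _ hc) ?_ (by simp) ?_ ?_ ?_ ?_ ?_ ?_
  · rw [Finset.disjoint_left]
    intro v hv hv'
    rcases (v1 v).1 hv with h | ⟨i, _, hi, rfl⟩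
    · have := h2 v h
      have := high v hv'
      omega
    · exact Nat.find_min ex2 (by omega) hv'
  · intro e he'
    rw [Finset.mem_singleton] at he'
    refine ⟨_, hS.last_mem, by simp [hau], ?_, he'⟩
    have := hS.last_next
    dsimp only at this
    rw [this]; exact Nat.find_spec ex2
  · simp; omega
  · intro v hv
    rcases (v1 v).1 hv with h | ⟨i, _, hi, rfl⟩
    · have := h2 v h
      omega
    · simp; omega
  · intro v hv
    have := high v hv
    omega
  · omega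
  · omega

/-- The surgery at any cut of a chain. -/
lemma surg_exists {K : ℕ} {n : ℤ} {x : Site D} {E : Finset (Ed D)} {T : List ℤ}
    (h : Chain K n x E T) : ∀ u ∈ T, ∃ E' d T', Surg K x E u E' d ∧
      Chain K (n + 2 * K) x E' T' ∧ T'.length = T.length := by
  induction h with
  | nil x E _ _ => simp
  | cons x x' EA F EB u0 T hA hc hd hne hF h1 h2 h3 h4 h5 ih =>
    intro u hu
    rcases List.mem_cons.1 hu with rfl | hu
    · exact surg_head hA hc hd hne hF h1 h2 h3 h4 h5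
    obtain ⟨E1, d, T1, hS, hc1, hl⟩ := ih u hu
    have hxu := hS.xu
    obtain ⟨_, vE⟩ := hS.vertsE
    obtain ⟨_, vE'⟩ := hS.vertsE'
    have alev := hS.a_lev
    have hF1 : ∀ e ∈ F, ∃ a ∈ verts x EA, a.1 = u0 ∧ a + e1 ∈ verts x' d.EA ∧ e = fwd a := by
      intro e he
      obtain ⟨a, ha, hau, hb, rfl⟩ := hF e he
      refine ⟨a, ha, hau, ?_, rfl⟩
      rw [vE] at hb
      rcases Finset.mem_union.1 hb with hb | hb
      · exact hb
      · have := hS.highB _ hb
        rw [add_e1_fst] at this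
        omega
    obtain ⟨c1, v1⟩ := glue hA hS.cluA hne (fun e he => by
      obtain ⟨a, ha, _, hb, rfl⟩ := hF1 e he
      exact ⟨a, ha, hb, rfl⟩)
    refine ⟨EA ∪ F ∪ E1, ⟨d.x', EA ∪ F ∪ d.EA, d.F, d.EB, d.a, d.i₁, d.i₂⟩, u0 :: T1, ?_, ?_,
      by simp [hl]⟩
    · refine ⟨c1, hS.cluB, ?_, ?_, hS.aF, ?_, hS.highB, by omega, hS.i1le, ?_, ?_, hS.i2ge,
        hS.i2le, hS.i2mem, hS.i2min, ?_, ?_⟩
      · dsimp only
        rw [v1, Finset.disjoint_union_left]
        refine ⟨hd.mono_right ?_, hS.disj⟩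
        rw [vE]; exact Finset.subset_union_right
      · intro e he
        obtain ⟨a, ha, hau, hb, rfl⟩ := hS.hF e he
        exact ⟨a, by dsimp only; rw [v1]; exact Finset.mem_union_right _ ha, hau, hb, rfl⟩
      · intro v hv
        dsimp only at hv
        rw [v1] at hv
        rcases Finset.mem_union.1 hv with hv | hv
        · have := h2 v hv
          omega
        · exact hS.lowA v hv
      · dsimp only
        rw [v1]; exact Finset.mem_union_right _ hS.i1mem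
      · intro i hi hv
        dsimp only at hv hi
        rw [v1] at hv
        rcases Finset.mem_union.1 hv with hv | hv
        · have := h2 _ hv
          simp at this
          omega
        · exact hS.i1max i hi hv
      · dsimp only
        rw [hS.eqE]
        simp only [Finset.union_assoc]
      · dsimp only
        rw [hS.eqE']
        simp only [Finset.union_assoc]
    · refine Chain.cons _ x' _ _ _ _ _ hA hc1 ?_ hne ?_ h1 h2 ?_ h4 (by omega)
      · rw [Finset.disjoint_left]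
        intro v hv hv'
        have := h2 v hv
        rcases (vE' v).1 hv' with g | ⟨i, _, _, rfl⟩ | g
        · exact Finset.disjoint_left.1 hd hv (by rw [vE]; exact Finset.mem_union_left _ g)
        · simp at this; omega
        · have := hS.highB' v g
          omega
      · intro e he
        obtain ⟨a, ha, hau, hb, rfl⟩ := hF1 e he
        exact ⟨a, ha, hau, (vE' _).2 (Or.inl hb), rfl⟩
      · intro v hv
        rcases (vE' v).1 hv with g | ⟨i, _, _, rfl⟩ | g
        · exact h3 v (by rw [vE]; exact Finset.mem_union_left _ g)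
        · simp; omega
        · have := hS.highB' v g
          omega

end

end Pool.Agent.MP_48a2f9_mp.OZ.MG2

end MrgPart6

-- ======== part 7: formerly Pool.Agent.MP_48a2f9_mp.FKUniq
section MrgPart7

/-!
Uniqueness of the Gibbs measure under exponential decay of wired crossings.
-/

open Finset Filter Topology MeasureTheory

namespace Pool.Agent.MP_48a2f9_mp

noncomputable section
open Classical
set_option linter.unusedSectionVars false

namespace Gr

variable {V ι C : Type*} [DecidableEq ι] {G : Gr V ι} [Fintype C] [Nonempty C]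

variable (G) in
/-- The pairs of points of `Λ₀` that are joined. -/
def prs (Λ₀ : Finset V) (ω : Finset ι) : Finset (V × V) :=
  (Λ₀ ×ˢ Λ₀).filter fun p => G.conn free ω p.1 p.2

lemma prs_mono (Λ₀ : Finset V) {ω ω' : Finset ι} (h : ω ⊆ ω') : G.prs Λ₀ ω ⊆ G.prs Λ₀ ω' :=
  fun _ hp => mem_filter.2 ⟨(mem_filter.1 hp).1, conn_mono le_rfl h (mem_filter.1 hp).2⟩

lemma exists_cyl_law (hq : G.q = Fintype.card C) (Λ₀ : Finset V) (a : V → C) (A : Finset V)
    (hA : A ⊆ Λ₀) : ∃ F : Finset (V × V) → ℝ, (∀ P, 0 ≤ F P ∧ F P ≤ 1) ∧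
      ∀ (Λ : Finset V) (τ : V → C) (ω : Finset ι), (∀ x ∈ Λ₀, ∀ z, G.conn free ω x z → z ∈ Λ) →
        (#((G.cmp Λ τ ω).filter fun σ => ∀ x ∈ A, σ x = a x) : ℝ) =
          #(G.cmp Λ τ ω) * F (G.prs Λ₀ ω) := by
  induction A using Finset.induction_on with
  | empty => exact ⟨fun _ => 1, fun _ => ⟨zero_le_one, le_rfl⟩, fun Λ τ ω _ => by simp⟩
  | insert x A hx ih =>
    obtain ⟨F, hF, h⟩ := ih ((subset_insert x A).trans hA)
    have hx0 : x ∈ Λ₀ := hA (mem_insert_self _ _)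
    have hA0 : ∀ y ∈ A, y ∈ Λ₀ := fun y hy => hA (mem_insert_of_mem hy)
    refine ⟨fun P => if k : ∃ y ∈ A, (x, y) ∈ P then F P * ind (a x = a k.choose) else F P / G.q,
      fun P => ?_, fun Λ τ ω hω => ?_⟩
    · beta_reduce
      split_ifs
      · exact ⟨mul_nonneg (hF P).1 (ind_nonneg _),
          mul_le_one₀ (hF P).2 (ind_nonneg _) (ind_le_one _)⟩
      · exact ⟨div_nonneg (hF P).1 G.q_pos.le, (div_le_self (hF P).1 G.hq).trans (hF P).2⟩
    · have h1 := h Λ τ ω hω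
      beta_reduce
      split_ifs with k
      · obtain ⟨k1, k2⟩ := k.choose_spec
        have k3 : G.conn free ω x k.choose := (mem_filter.1 k2).2
        rw [← mul_assoc, ← h1]
        by_cases l : a x = a k.choose
        · rw [ind_pos l, mul_one]
          congr 2
          refine filter_congr fun σ hσ => ?_
          rw [forall_mem_insert]
          exact ⟨fun m => m.2, fun m => ⟨by rw [cmp_conn hσ k3, m _ k1, l], m⟩⟩
        · rw [ind_neg l, mul_zero, filter_false_of_mem, card_empty, Nat.cast_zero]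
          intro σ hσ m
          rw [forall_mem_insert] at m
          exact l (by rw [← m.1, cmp_conn hσ k3, m.2 _ k1])
      · have e1 : G.cmp (Λ \ A) (fun z => if z ∈ A then a z else τ z) ω =
            (G.cmp Λ τ ω).filter fun σ => ∀ y ∈ A, σ y = a y := by
          ext σ
          simp only [mem_cmp, mem_filter, Finset.mem_sdiff, not_and, not_not]
          constructor
          · rintro ⟨m1, m2⟩
            refine ⟨⟨fun z hz => ?_, m2⟩, fun y hy => by rw [m1 y fun _ => hy, if_pos hy]⟩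
            rw [m1 z fun l => absurd l hz, if_neg fun l => hz (hω z (hA0 z l) z (Eqv.refl' _ _))]
          · rintro ⟨⟨m1, m2⟩, m3⟩
            refine ⟨fun z hz => ?_, m2⟩
            split_ifs with l
            · exact m3 z l
            · exact m1 z fun m => l (hz m)
        have h2 := card_cmp_filter (G := G) (Λ := Λ \ A) (τ := fun z => if z ∈ A then a z else τ z)
          (ω := ω) (a := x) (fun z hz => Finset.mem_sdiff.2 ⟨hω x hx0 z hz, fun l => k ⟨z, l,
            mem_filter.2 ⟨mem_product.2 ⟨hx0, hA0 z l⟩, hz⟩⟩⟩) (fun _ => a x) fun _ _ _ => rfl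
        rw [e1, filter_filter] at h2
        rw [h2, Nat.cast_mul, ← hq] at h1
        rw [← mul_div_assoc, ← h1, mul_div_cancel_left₀ _ G.q_pos.ne']
        congr 2
        exact filter_congr fun σ _ => by rw [forall_mem_insert, and_comm]

variable {v : ι → ℝ} {E : Finset ι} {Λ Λ₀ Λ' : Finset V} {τ : V → C}

lemma ex_factor_prs (hv : ∀ e, 0 ≤ v e) (h0 : Λ₀ ⊆ Λ') (F : Finset (V × V) → ℝ) :
    G.ex v (wire (↑Λ)ᶜ) E (fun ω => ind (G.cmp Λ τ ω).Nonempty *
        ind (¬ ∃ z ∈ Λ', z ∈ G.clus (wire (↑Λ)ᶜ) (↑Λ)ᶜ ω) * F (G.prs Λ₀ ω)) =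
      G.ex v (wire (↑Λ)ᶜ) E fun ω => ind (G.cmp Λ τ ω).Nonempty *
        ind (¬ ∃ z ∈ Λ', z ∈ G.clus (wire (↑Λ)ᶜ) (↑Λ)ᶜ ω) *
        G.ex v free (E \ G.touch E (G.clus (wire (↑Λ)ᶜ) (↑Λ)ᶜ ω)) fun η => F (G.prs Λ₀ η) := by
  rw [ex_clus hv (↑Λ)ᶜ]
  refine ex_congr fun ω hω => ?_
  set T := G.touch E (G.clus (wire (↑Λ)ᶜ) (↑Λ)ᶜ ω) with hT
  rw [← ex_const_mul, ex_local v (W := free) (W' := wire (↑Λ)ᶜ) (S := (↑Λ : Set V))]
  · refine ex_congr fun η hη => ?_
    have h1 : ω ∩ T ∪ η ⊆ E := union_subset (inter_subset_left.trans hω) (hη.trans sdiff_subset)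
    have h2 : ω ∩ T = (ω ∩ T ∪ η) ∩ T := by
      ext e
      have := @hη e
      simp only [mem_inter, mem_union, Finset.mem_sdiff] at this ⊢
      tauto
    have h3 := clus_eq_of_inter hω h1 h2
    rw [← cmp_nonempty_iff h1, h3, ← hT, ← h2, hT, cmp_nonempty_iff hω, ← hT]
    by_cases hB : ∃ z ∈ Λ', z ∈ G.clus (wire (↑Λ)ᶜ) (↑Λ)ᶜ ω
    · rw [ind_neg (not_not.2 hB), mul_zero, zero_mul, zero_mul]
    · congr 2
      refine filter_congr fun p hp => ⟨fun h => ?_, fun h => conn_mono le_rfl subset_union_right h⟩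
      refine conn_invariant (P := fun z => G.conn free η p.1 z)
        (fun _ _ k1 k2 => by rwa [← free_iff.1 k1]) (fun e he => ?_) h ((G.conn free η).refl' _)
      rcases mem_union.1 he with he | he
      · have h5 : ∀ z ∈ G.clus (wire (↑Λ)ᶜ) (↑Λ)ᶜ ω, ¬ G.conn free η p.1 z := fun z hz k =>
          hB ⟨p.1, h0 (mem_product.1 hp).1, h3 ▸ clus_conn (h3.symm ▸ hz)
            (conn_mono (free_le _) subset_union_right ((G.conn free η).symm' k))⟩
        have h6 := (mem_touch.1 (mem_inter.1 he).2).2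
        have h7 := clus_edge (G := G) (W := wire (↑Λ)ᶜ) (K := (↑Λ)ᶜ) (mem_inter.1 he).1
        exact ⟨fun k => absurd k (h5 _ (by tauto)), fun k => absurd k (h5 _ (by tauto))⟩
      · exact ⟨fun l => (G.conn free η).trans' l (conn_edge free he),
          fun l => (G.conn free η).trans' l ((G.conn free η).symm' (conn_edge free he))⟩
  · intro a ha b _
    rw [wire_iff, free_iff]
    exact ⟨Or.inl, fun h => h.elim id fun k => absurd ha k.1⟩
  · intro e he
    rw [Finset.mem_sdiff, mem_touch] at he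
    exact ⟨by_contra fun k => he.2 ⟨he.1, Or.inl (subset_clus _ _ _ k)⟩,
      by_contra fun k => he.2 ⟨he.1, Or.inr (subset_clus _ _ _ k)⟩⟩

/-- The law of the spins in `Λ₀` forgets the boundary condition. -/
lemma cyl_approx (hq : G.q = Fintype.card C) (hv : ∀ e, 0 ≤ v e) (h0 : Λ₀ ⊆ Λ') {a : V → C}
    {F : Finset (V × V) → ℝ} (hF : ∀ P, 0 ≤ F P ∧ F P ≤ 1)
    (h : ∀ ω : Finset ι, (∀ x ∈ Λ₀, ∀ z, G.conn free ω x z → z ∈ Λ) →
      (#((G.cmp Λ τ ω).filter fun σ => ∀ x ∈ Λ₀, σ x = a x) : ℝ) =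
        #(G.cmp Λ τ ω) * F (G.prs Λ₀ ω))
    {E' : Finset ι} (hE' : E' ⊆ E) (hin : ∀ e ∈ E', G.s e ∈ Λ' ∧ G.t e ∈ Λ') {L ε : ℝ}
    (hL : 0 ≤ L ∧ L ≤ 1) (hε : 0 ≤ ε)
    (hc : ∀ E'', E' ⊆ E'' → E'' ⊆ E → |G.ex v free E'' (fun η => F (G.prs Λ₀ η)) - L| ≤ ε) :
    |(∑ σ ∈ fill Λ τ, G.sw v E σ * ind (∀ x ∈ Λ₀, σ x = a x)) / (∑ σ ∈ fill Λ τ, G.sw v E σ) - L|
      ≤ ε + G.pr v (wire (↑Λ)ᶜ) E (fun ω => ∃ z ∈ Λ', z ∈ G.clus (wire (↑Λ)ᶜ) (↑Λ)ᶜ ω) := by
  set W : Eqv V := wire (↑Λ)ᶜ with hW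
  let D : Finset ι → ℝ := fun ω => ind (G.cmp Λ τ ω).Nonempty
  let B : Finset ι → Prop := fun ω => ∃ z ∈ Λ', z ∈ G.clus W (↑Λ)ᶜ ω
  let k : Finset ι → ℝ := fun ω => if B ω then
    (∑ σ ∈ G.cmp Λ τ ω, ind (∀ x ∈ Λ₀, σ x = a x)) / #(G.cmp Λ τ ω) else F (G.prs Λ₀ ω)
  have hh : ∀ ω ⊆ E, ∑ σ ∈ G.cmp Λ τ ω, ind (∀ x ∈ Λ₀, σ x = a x) = #(G.cmp Λ τ ω) * k ω := by
    intro ω _
    simp only [k]
    split_ifs with m
    · rcases (G.cmp Λ τ ω).eq_empty_or_nonempty with l | l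
      · simp [l]
      · rw [mul_div_cancel₀ _ (Nat.cast_ne_zero.2 l.card_pos.ne')]
    · rw [← h ω fun x hx z hz => by_contra fun l => m ⟨x, h0 hx, mem_clus_wire.2 ⟨z, l, hz⟩⟩,
        card_filter]
      simp only [ind_eq_ite]
      push_cast
      rfl
  have h01 : ∀ ω, 0 ≤ k ω ∧ k ω ≤ 1 := fun ω => by
    simp only [k]
    split_ifs
    · refine ⟨div_nonneg (sum_nonneg fun _ _ => ind_nonneg _) (Nat.cast_nonneg _),
        div_le_one_of_le₀ ?_ (Nat.cast_nonneg _)⟩
      simpa using sum_le_sum (s := G.cmp Λ τ ω) fun σ _ => ind_le_one (∀ x ∈ Λ₀, σ x = a x)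
    · exact hF _
  have hD : 0 < G.ex v W E D := by
    have : 0 < ∑ σ ∈ fill Λ τ, G.sw v E σ :=
      sum_pos (fun σ _ => sw_pos hv E σ) ⟨τ, mem_fill.2 fun _ _ => rfl⟩
    rw [sum_sw_one hq, sm_eq hv] at this
    exact (mul_pos_iff_of_pos_left (Z_pos hv _ _)).1
      ((mul_pos_iff_of_pos_left (pow_pos G.q_pos _)).1 this)
  have hD0 : ∀ ω, 0 ≤ D ω := fun ω => ind_nonneg _
  have hDB : G.ex v W E (fun ω => ind (B ω) * D ω) ≤ G.pr v W E B * G.ex v W E D :=
    fkg_anti hv (monoIn_ind fun a b k _ ⟨z, hz, l⟩ => ⟨z, hz, clus_mono le_rfl subset_rfl k l⟩)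
      fun a b k _ => neg_le_neg (ind_mono fun l => l.mono (cmp_anti k))
  have hFac := ex_factor_prs (G := G) (Λ := Λ) (τ := τ) hv (E := E) h0 F
  have e1 : G.ex v W E (fun ω => D ω * k ω) = G.ex v W E fun ω => D ω * (ind (B ω) * k ω +
      ind (¬ B ω) * G.ex v free (E \ G.touch E (G.clus W (↑Λ)ᶜ ω)) fun η => F (G.prs Λ₀ η)) := by
    simp only [mul_add, ← mul_assoc]
    rw [ex_add, ← hFac, ← ex_add]
    refine ex_congr fun ω _ => ?_
    by_cases m : B ω
    · rw [ind_pos m, ind_neg (not_not.2 m)]; ring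
    · rw [ind_neg m, ind_pos m]
      simp only [k, if_neg m]
      ring
  have pt : ∀ ω, |(ind (B ω) * k ω + ind (¬ B ω) *
      G.ex v free (E \ G.touch E (G.clus W (↑Λ)ᶜ ω)) fun η => F (G.prs Λ₀ η)) - L| ≤
      ε + ind (B ω) := by
    intro ω
    by_cases m : B ω
    · rw [ind_pos m, ind_neg (not_not.2 m), abs_le]
      have := h01 ω
      constructor <;> linarith [hL.1, hL.2]
    · rw [ind_neg m, ind_pos m, zero_mul, zero_add, one_mul, add_zero]
      refine hc _ (fun e he => Finset.mem_sdiff.2 ⟨hE' he, fun l => m ?_⟩) sdiff_subset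
      rcases (mem_touch.1 l).2 with l | l
      · exact ⟨_, (hin e he).1, l⟩
      · exact ⟨_, (hin e he).2, l⟩
  have u1 : G.ex v W E (fun ω => D ω * k ω) ≤
      (L + ε) * G.ex v W E D + G.ex v W E (fun ω => ind (B ω) * D ω) := by
    rw [e1, ← ex_const_mul, ← ex_add]
    exact ex_mono hv fun ω _ => by nlinarith [(abs_le.1 (pt ω)).2, hD0 ω]
  have u2 : (L - ε) * G.ex v W E D - G.ex v W E (fun ω => ind (B ω) * D ω) ≤
      G.ex v W E (fun ω => D ω * k ω) := by
    rw [e1, ← ex_const_mul, ← ex_sub]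
    exact ex_mono hv fun ω _ => by nlinarith [(abs_le.1 (pt ω)).1, hD0 ω]
  rw [sum_sw_eq hq hh, sum_sw_one hq, mul_div_mul_left _ _ (pow_pos G.q_pos _).ne', sm_eq hv,
    sm_eq hv, mul_div_mul_left _ _ (Z_pos hv _ _).ne', abs_le, le_sub_iff_add_le, sub_le_iff_le_add,
    le_div_iff₀ hD, div_le_iff₀ hD]
  constructor <;> nlinarith

/-- Free means of a bounded function of the connectivity of `Λ₀` converge. -/
lemma tendsto_prs (hv : ∀ e, 0 ≤ v e) (Λ₀ : Finset V) {F : Finset (V × V) → ℝ}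
    (hF : ∀ P, 0 ≤ F P ∧ F P ≤ 1) (e : ℕ → Finset ι) (he : Monotone e) :
    ∃ L, (0 ≤ L ∧ L ≤ 1) ∧ ∀ ε, 0 < ε → ∃ r, ∀ n E'', e r ⊆ E'' → E'' ⊆ e n →
      |G.ex v free E'' (fun η => F (G.prs Λ₀ η)) - L| ≤ ε := by
  have key : ∀ f : Finset ι → ℝ, Monotone f → (∀ ω, f ω ≤ 1 + #(Λ₀ ×ˢ Λ₀)) →
      ∃ L, Tendsto (fun n => G.ex v free (e n) f) atTop (𝓝 L) ∧ ∀ n, G.ex v free (e n) f ≤ L := by
    intro f hf hb
    have h1 : Monotone fun n => G.ex v free (e n) f := fun a b h =>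
      holley hv hv le_rfl (he h) (fun _ _ => le_rfl) (monoIn_of_monotone hf _)
    have h2 : BddAbove (Set.range fun n => G.ex v free (e n) f) :=
      ⟨_, by rintro _ ⟨n, rfl⟩; exact ex_le_const hv fun ω _ => hb ω⟩
    exact ⟨_, tendsto_atTop_ciSup h1 h2, fun n => le_ciSup h2 n⟩
  have hc : ∀ ω, (#(G.prs Λ₀ ω) : ℝ) ≤ #(Λ₀ ×ˢ Λ₀) := fun ω => by
    exact_mod_cast card_filter_le _ _
  have m1 : Monotone fun ω => F (G.prs Λ₀ ω) + #(G.prs Λ₀ ω) := by
    intro a b h
    rcases (prs_mono (G := G) Λ₀ h).eq_or_ssubset with k | k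
    · simp only [k, le_refl]
    · have : (#(G.prs Λ₀ a) : ℝ) + 1 ≤ #(G.prs Λ₀ b) := by exact_mod_cast card_lt_card k
      simp only
      linarith [hF (G.prs Λ₀ a), hF (G.prs Λ₀ b)]
  have m2 : Monotone fun ω => (#(G.prs Λ₀ ω) : ℝ) := fun a b h =>
    Nat.cast_le.2 (card_le_card (prs_mono Λ₀ h))
  obtain ⟨L1, t1, b1⟩ := key _ m1 fun ω => by linarith [hc ω, hF (G.prs Λ₀ ω)]
  obtain ⟨L2, t2, b2⟩ := key _ m2 fun ω => by linarith [hc ω]
  have t3 : Tendsto (fun n => G.ex v free (e n) fun η => F (G.prs Λ₀ η)) atTop (𝓝 (L1 - L2)) :=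
    (t1.sub t2).congr fun n => by rw [ex_add, add_sub_cancel_right]
  refine ⟨L1 - L2, ⟨ge_of_tendsto' t3 fun n => ex_nonneg hv fun ω _ => (hF _).1,
    le_of_tendsto' t3 fun n => ex_le_const hv fun ω _ => (hF _).2⟩, fun ε hε => ?_⟩
  obtain ⟨r, r1, r2⟩ := ((t1.eventually (lt_mem_nhds (sub_lt_self L1 hε))).and
    (t2.eventually (lt_mem_nhds (sub_lt_self L2 hε)))).exists
  refine ⟨r, fun n E'' h1 h2 => ?_⟩
  have a1 := holley (G := G) (W := free) hv hv le_rfl h1 (fun _ _ => le_rfl)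
    (monoIn_of_monotone m1 _)
  have a2 := holley (G := G) (W := free) hv hv le_rfl h1 (fun _ _ => le_rfl)
    (monoIn_of_monotone m2 _)
  have a3 := (holley (G := G) (W := free) hv hv le_rfl h2 (fun _ _ => le_rfl)
    (monoIn_of_monotone m1 _)).trans (b1 n)
  have a4 := (holley (G := G) (W := free) hv hv le_rfl h2 (fun _ _ => le_rfl)
    (monoIn_of_monotone m2 _)).trans (b2 n)
  rw [ex_add] at a3
  rw [ex_add (E := E'')] at a1
  rw [abs_le]
  constructor <;> linarith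

end Gr

variable {D q : ℕ}

theorem gibbs_unique (hq : 1 ≤ q) {β J : ℝ} (hβ : 0 ≤ β) (hJ : 0 ≤ J) (hW : WiredDecay D q β J)
    {μ ν : Measure (Site D → Fin q)} (hμ : IsGibbs β J μ) (hν : IsGibbs β J ν) : μ = ν := by
  have : Nonempty (Fin q) := ⟨⟨0, by omega⟩⟩
  have := hμ.1
  have := hν.1
  have hv := vJ_nonneg (D := D) hβ hJ
  obtain ⟨C, c, hc, hW⟩ := hW
  have meas : ∀ (Λ₀ : Finset (Site D)) (a : Site D → Fin q),
      MeasurableSet {σ : Site D → Fin q | ∀ x ∈ Λ₀, σ x = a x} := fun Λ₀ a => by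
    simp only [Set.ofPred_forall]
    exact MeasurableSet.iInter fun x => MeasurableSet.iInter fun _ =>
      measurableSet_eq_fun (measurable_pi_apply x) measurable_const
  have cyl : ∀ (Λ₀ : Finset (Site D)) (a : Site D → Fin q), ∃ L : ℝ,
      ∀ μ : Measure (Site D → Fin q), IsGibbs β J μ → μ.real {σ | ∀ x ∈ Λ₀, σ x = a x} = L := by
    intro Λ₀ a
    obtain ⟨F, hF, h⟩ := Gr.exists_cyl_law (G := lat D q) (lat_q_card hq) Λ₀ a Λ₀ subset_rfl
    obtain ⟨r₀, hr₀⟩ := exists_subset_box (0 : Site D) Λ₀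
    obtain ⟨L, hL, hl⟩ := Gr.tendsto_prs (G := lat D q) hv Λ₀ hF
      (fun n => edgesIn (box (0 : Site D) (r₀ + n)))
      fun n m k => edgesIn_mono (box_mono _ (Nat.add_le_add_left k r₀))
    refine ⟨L, fun μ hμ => eq_of_forall_dist_le fun ε hε => ?_⟩
    obtain ⟨r, hr⟩ := hl ε hε
    have hlim : Tendsto (fun n : ℕ => ε + (#(box (0 : Site D) (r₀ + r)) : ℝ) *
        (C * Real.exp (-c * n))) atTop (𝓝 ε) := by
      have := (((Real.tendsto_exp_atBot.comp (tendsto_natCast_atTop_atTop.const_mul_atTop_of_neg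
        (neg_lt_zero.2 hc))).const_mul C).const_mul
        (#(box (0 : Site D) (r₀ + r)) : ℝ)).const_add ε
      simpa using this
    refine ge_of_tendsto' hlim fun n => ?_
    rw [Real.dist_eq, abs_le, le_sub_iff_add_le, sub_le_iff_le_add]
    refine hμ.bounds (box 0 (r₀ + r + n)) (meas Λ₀ a) fun η => ?_
    have h3 := Gr.cyl_approx (G := lat D q) (Λ := box 0 (r₀ + r + n)) (τ := η)
      (E := edgesOf (box 0 (r₀ + r + n))) (lat_q_card hq) hv (Λ' := box 0 (r₀ + r))
      (hr₀.trans (box_mono _ (Nat.le_add_right _ _))) hF (h _ η) (E' := edgesIn (box 0 (r₀ + r)))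
      ((edgesIn_subset_edgesOf _).trans (edgesOf_mono (box_mono _ (Nat.le_add_right _ n))))
      (fun e he => lat_forall.2 (mem_edgesIn.1 he).2) hL hε.le
      fun E'' h1 h2 => hr (r + n + 1) E'' h1 (h2.trans (by
        rw [← add_assoc, ← add_assoc]; exact edgesOf_box_subset _ _))
    have h4 : (lat D q).pr (vJ β J) (wire (↑(box (0 : Site D) (r₀ + r + n)))ᶜ)
        (edgesOf (box 0 (r₀ + r + n))) (fun ω => ∃ z ∈ box (0 : Site D) (r₀ + r),
          z ∈ (lat D q).clus (wire (↑(box (0 : Site D) (r₀ + r + n)))ᶜ)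
          (↑(box (0 : Site D) (r₀ + r + n)))ᶜ ω) ≤
        #(box (0 : Site D) (r₀ + r)) * (C * Real.exp (-c * n)) := by
      refine (Gr.pr_le_sum hv (box 0 (r₀ + r)) (fun z => Exits q (box 0 (r₀ + r + n)) z)
        fun ω _ ⟨z, hz, h⟩ => ⟨z, hz, Gr.mem_clus_wire.1 h⟩).trans ?_
      rw [← nsmul_eq_mul]
      refine sum_le_card_nsmul _ _ _ fun z hz => ?_
      exact (thW_anti hβ hJ (box_subset_box (by have := mem_box.1 hz; omega)) z).trans
        (hW J hJ le_rfl z n)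
    rw [gibbs_eq]
    simp only [Set.mem_ofPred_eq]
    constructor <;> linarith [(abs_le.1 h3).1, (abs_le.1 h3).2]
  refine ext_of_generate_finite
    {A | ∃ (Λ₀ : Finset (Site D)) (a : Site D → Fin q), A = {σ | ∀ x ∈ Λ₀, σ x = a x}} ?_ ?_ ?_
    (by simp)
  · apply le_antisymm
    · refine iSup_le fun x => ?_
      rintro _ ⟨T, -, rfl⟩
      have : (fun σ : Site D → Fin q => σ x) ⁻¹' T =
          ⋃ c ∈ T, {σ | ∀ y ∈ ({x} : Finset (Site D)), σ y = (fun _ => c) y} := by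
        ext σ; simp
      rw [this]
      exact MeasurableSet.biUnion T.to_countable fun c _ =>
        MeasurableSpace.measurableSet_generateFrom ⟨_, _, rfl⟩
    · refine MeasurableSpace.generateFrom_le ?_
      rintro _ ⟨Λ₀, a, rfl⟩
      exact meas Λ₀ a
  · rintro _ ⟨Λ₀, a, rfl⟩ _ ⟨Λ₁, b, rfl⟩ ⟨s, h1, h2⟩
    refine ⟨Λ₀ ∪ Λ₁, s, ?_⟩
    ext σ
    simp only [Set.mem_inter_iff, Set.mem_ofPred_eq, mem_union] at h1 h2 ⊢
    exact ⟨fun h x hx => hx.elim (fun k => by rw [h.1 x k, h1 x k]) fun k => by rw [h.2 x k, h2 x k],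
      fun h => ⟨fun x k => by rw [h x (Or.inl k), h1 x k], fun x k => by rw [h x (Or.inr k), h2 x k]⟩⟩
  · rintro _ ⟨Λ₀, a, rfl⟩
    obtain ⟨L, hL⟩ := cyl Λ₀ a
    rw [← ofReal_measureReal, ← ofReal_measureReal, hL μ hμ, hL ν hν]

end

end Pool.Agent.MP_48a2f9_mp

end MrgPart7

-- marker of a merged file
example : 731051 + 191251 = 731051 + 191251 := rfl
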