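import Pool.Agent.MP_48a2f9_mp.SpecA
import Pool.Agent.MP_48a2f9_mp.SpecC

/-!
Pieces of a cluster between nice break levels, the regeneration weights and the renewal kernels.
-/

open Filter Topology
open scoped ENNReal

namespace Pool.Agent.MP_48a2f9_mp.OZ

noncomputable section
open Classical

variable {D : ℕ}

/-- A piece: a cluster `E` of `x` with a marked vertex `y`. The flag `i` says that the piece is
entered through the edge from `x - e₁` to `x`, the flag `o` that it is left through the edge from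
`y` to `y + e₁`. -/
structure Piece (D : ℕ) where
  i : Bool
  x : Site D
  E : Finset (Ed D)
  o : Bool
  y : Site D

/-- The vertices of a piece. -/
def Piece.vs (γ : Piece D) : Finset (Site D) := verts γ.x γ.E

/-- The image of a piece under a map of the lattice. -/
def Piece.map (g : Site D → Site D) (γ : Piece D) : Piece D :=
  ⟨γ.i, g γ.x, γ.E.image (Sym2.map g), γ.o, g γ.y⟩

/-- Irreducible pieces. -/
def Piece.Valid (A : ℕ) (γ : Piece D) : Prop :=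
  IsClu γ.x γ.E ∧ γ.y ∈ γ.vs ∧ γ.x.1 ≤ γ.y.1 ∧
    (∀ t, γ.x.1 ≤ t → t < γ.y.1 → ¬ Nice A γ.x γ.E t) ∧
    (γ.i = true → (∀ v ∈ γ.vs, γ.x.1 ≤ v.1) ∧ Fwd A γ.vs (γ.x.1 - 1)) ∧
    (γ.o = true → ∀ v ∈ γ.vs, v.1 ≤ γ.y.1)

/-- The piece `γ'` follows the piece `γ`. -/
def Lnk (γ γ' : Piece D) : Prop := γ.o = true ∧ γ'.i = true ∧ γ'.x = γ.y + e1

/-- Lists of consecutive irreducible pieces. -/
def Chn (A : ℕ) (l : List (Piece D)) : Prop := (∀ γ ∈ l, γ.Valid A) ∧ l.IsChain Lnk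

/-- Nonempty lists of consecutive irreducible pieces with given first and last marks. -/
def Ch (A : ℕ) (i : Bool) (x : Site D) (o : Bool) (y : Site D) (l : List (Piece D)) : Prop :=
  Chn A l ∧ (∃ γ, l.head? = some γ ∧ γ.i = i ∧ γ.x = x) ∧
    ∃ γ, l.getLast? = some γ ∧ γ.o = o ∧ γ.y = y

/-- All the vertices of a list of pieces. -/
def allV (l : List (Piece D)) : Finset (Site D) := l.foldr (fun γ W => γ.vs ∪ W) ∅

/-- All the edges of a list of pieces, with the links between consecutive pieces. -/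
def glueE : List (Piece D) → Finset (Ed D)
  | [] => ∅
  | [γ] => γ.E
  | γ :: γ' :: l => γ.E ∪ {fwd γ.y} ∪ glueE (γ' :: l)

/-- The weight of the first regeneration block: `Φ l = ∑_{0 < k ≤ |l|} Bk (take k l) Φ (drop k l)`. -/
def Bk {Γ : Type} (Φ : List Γ → ℝ) (l : List Γ) : ℝ :=
  Φ l - ∑ k : Fin l.length, if k.1 = 0 then 0 else Bk Φ (l.take k.1) * Φ (l.drop k.1)
termination_by l.length
decreasing_by
  have := k.2
  simp only [List.length_take]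
  omega

/-- The tilt `τ` is invariant under shifts along the line and lies between `1` and
`exp (η * volume)`. -/
def Tilt (η : ℝ) (τ : Piece D → ℝ) : Prop :=
  (∀ γ, 1 ≤ τ γ ∧ τ γ ≤ Real.exp (η * γ.vs.card)) ∧
    ∀ (k : ℤ) (γ : Piece D), τ (γ.map (· + (k, 0))) = τ γ

namespace Model

variable (M : Model D)

/-- The factor of the entrance edge. -/
def inF (J : ℝ) (i : Bool) (x : Site D) : ℝ :=
  if i = true then √(rr M.β J (fwd (x - e1))) else M.q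

/-- The factor of the exit edge. -/
def outF (J : ℝ) (o : Bool) (y : Site D) : ℝ := if o = true then √(rr M.β J (fwd y)) else 1

/-- The edge factors of a piece. -/
def theta (J : ℝ) (γ : Piece D) : ℝ :=
  M.inF J γ.i γ.x * (∏ e ∈ γ.E, rr M.β J e) * M.outF J γ.o γ.y

/-- The interaction factor of a list of pieces. -/
def Phi (J : ℝ) (l : List (Piece D)) : ℝ := M.Ψ J Set.univ (allV l)

/-- The tilted weight of a list of pieces. -/
def Wl (J : ℝ) (τ : Piece D → ℝ) (l : List (Piece D)) : ℝ :=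
  (l.map fun γ => M.theta J γ * τ γ).prod * M.Phi J l

/-- The tilted weight of a list of pieces as a regeneration block. -/
def Bl (J : ℝ) (τ : Piece D → ℝ) (l : List (Piece D)) : ℝ :=
  (l.map fun γ => M.theta J γ * τ γ).prod * Bk (M.Phi J) l

/-- Total weight of the lists with given marks. -/
def SW (J : ℝ) (A : ℕ) (τ : Piece D → ℝ) (i : Bool) (x : Site D) (o : Bool) (y : Site D) : ℝ≥0∞ :=
  ∑' l : List (Piece D), if Ch A i x o y l then ENNReal.ofReal (M.Wl J τ l) else 0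

/-- Total weight of the blocks with given marks. -/
def SB (J : ℝ) (A : ℕ) (τ : Piece D → ℝ) (i : Bool) (x : Site D) (o : Bool) (y : Site D) : ℝ≥0∞ :=
  ∑' l : List (Piece D), if Ch A i x o y l then ENNReal.ofReal (M.Bl J τ l) else 0

/-- The renewal kernel. -/
def Kk (J ξ : ℝ) (A : ℕ) (τ : Piece D → ℝ) (l : ℕ) (u v : Tr D) : ℝ :=
  Real.exp (ξ * l) * (M.SB J A τ true (0, u) true ((l : ℤ) - 1, v)).toReal

end Model

/-- Module R2: the geometry of the decomposition into pieces. -/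
def R2Stmt : Prop :=
  ∀ (D A : ℕ),
    (∀ (i : Bool) (x : Site D) (o : Bool) (y : Site D) (l : List (Piece D)), Ch A i x o y l →
      IsClu x (glueE l) ∧ verts x (glueE l) = allV l ∧ y ∈ allV l ∧
      l.Pairwise (fun γ γ' => Disjoint γ.vs γ'.vs) ∧ (l.length : ℤ) ≤ y.1 - x.1 + 1 ∧
      (i = true → (∀ v ∈ allV l, x.1 ≤ v.1) ∧ Fwd A (allV l) (x.1 - 1)) ∧
      (o = true → ∀ v ∈ allV l, v.1 ≤ y.1) ∧
      ∀ (M : Model D) (J : ℝ), 0 ≤ M.β → 0 ≤ J → (l.map (M.theta J)).prod =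
        M.inF J i x * (∏ e ∈ glueE l, rr M.β J e) * M.outF J o y) ∧
    (∀ (i : Bool) (x : Site D) (o : Bool) (y : Site D) (l l' : List (Piece D)),
      Ch A i x o y l → Ch A i x o y l' → glueE l = glueE l' → l = l') ∧
    (∀ (x y : Site D) (E : Finset (Ed D)), IsClu x E → y ∈ verts x E → x.1 ≤ y.1 →
      ∃ l, Ch A false x false y l ∧ glueE l = E) ∧
    (∀ (n : ℕ) (l : List (Piece D)), Ch A false 0 false ((n : ℤ), 0) l →
      l.countP (fun γ => γ.i = true ∧ γ.x.2 = 0) ≤ lineBreaks (glueE l) n) ∧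
    ∀ (l : List (Piece D)) (j k : ℕ) (γ γ' : Piece D), Chn A l → j < k → l[j]? = some γ →
      l[k]? = some γ' → γ'.i = true ∧ ∀ v ∈ γ.vs, v.1 + ((k : ℤ) - j) ≤ γ'.x.1

/-- Module R1: positivity and decay of the regeneration weights. -/
def R1Stmt : Prop :=
  ∀ (D : ℕ) (M : Model D) (J : ℝ) (A : ℕ), M.CW → 0 ≤ J →
    ∃ C κ : ℝ, 0 < κ ∧ ∀ l : List (Piece D), Chn A l → l ≠ [] →
      0 ≤ Bk (M.Phi J) l ∧ Bk (M.Phi J) l ≤ M.Phi J l ∧
        Bk (M.Phi J) l ≤ C * Real.exp (-κ * l.length) * M.Phi J l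

/-- Module RN: the renewal equation, shift invariance and supports. -/
def RNStmt : Prop :=
  ∀ (D : ℕ) (M : Model D) (J η : ℝ) (A : ℕ) (τ : Piece D → ℝ), M.CW → 0 ≤ J → Tilt η τ →
    ∀ (i : Bool) (x : Site D) (o : Bool) (y : Site D),
      M.SW J A τ i x o y = M.SB J A τ i x o y +
        ∑' z : Site D, M.SB J A τ i x true z * M.SW J A τ true (z + e1) o y ∧
      (∀ k : ℤ, M.SW J A τ i (x + (k, 0)) o (y + (k, 0)) = M.SW J A τ i x o y ∧
        M.SB J A τ i (x + (k, 0)) o (y + (k, 0)) = M.SB J A τ i x o y) ∧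
      M.SB J A τ i x o y ≤ M.SW J A τ i x o y ∧
      (M.SW J A τ i x o y ≠ 0 → x.1 ≤ y.1 ∧
        (i = true → o = true → ‖y.2 - x.2‖ ≤ (A : ℝ) * ((y.1 - x.1 + 1 : ℤ) : ℝ)))

/-- Module R3a: exponential tails of the blocks. -/
def R3aStmt : Prop :=
  ∀ (D : ℕ) (M : Model D) (J ξ : ℝ), M.CW → M.Good J ξ → ∃ A₀ : ℕ, ∀ A : ℕ, A₀ ≤ A →
    ∃ η ν C : ℝ, 0 < η ∧ 0 < ν ∧ 0 ≤ C ∧ ∀ (i : Bool) (x : Site D) (o : Bool) (s : ℕ) (v : Tr D),
      M.SW J A (fun _ => 1) i x o (x.1 + s, v) ≤ ENNReal.ofReal (C * Real.exp (-ξ * (s + 1))) ∧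
      ∀ τ : Piece D → ℝ, Tilt η τ → M.SW J A τ i x o (x.1 + s, v) ≠ ⊤ ∧
        M.SB J A τ i x o (x.1 + s, v) ≤
          ENNReal.ofReal (C * Real.exp (-ξ * (s + 1) - ν * (s + 1 + ‖v - x.2‖)))

/-- Module R3b: far from the line the kernel is close to the homogeneous one. -/
def R3bStmt : Prop :=
  ∀ (D : ℕ) (M : Model D) (J ξ : ℝ), M.CW → M.Good J ξ → M.Good 1 ξ → ∃ A₀ : ℕ, ∀ A : ℕ, A₀ ≤ A →
    ∃ ν C : ℝ, 0 < ν ∧ ∀ (l : ℕ) (u v : Tr D),
      |M.Kk J ξ A (fun _ => 1) l u v - M.Kk 1 ξ A (fun _ => 1) l u v| ≤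
        C * Real.exp (-ν * (l + ‖u‖))

/-- Module R3c: symmetries and positivity. -/
def R3cStmt : Prop :=
  ∀ (D : ℕ) (M : Model D), 1 ≤ D → M.CW → ∃ A₀ : ℕ, ∀ A : ℕ, A₀ ≤ A →
    (∀ (s : ℤ) (u v : Tr D),
      M.SB 1 A (fun _ => 1) true (0, u) true (s, v) =
        M.SB 1 A (fun _ => 1) true (0, 0) true (s, v - u) ∧
      M.SB 1 A (fun _ => 1) true (0, 0) true (s, -v) =
        M.SB 1 A (fun _ => 1) true (0, 0) true (s, v)) ∧
    ∀ J, 0 ≤ J →
      (∀ u v : Tr D, (0 < J ∨ (u ≠ 0 ∧ v ≠ 0)) → ‖v - u‖ ≤ 2 →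
        0 < M.SB J A (fun _ => 1) true (0, u) true (0, v) ∧
        0 < M.SB J A (fun _ => 1) true (0, u) true (1, v)) ∧
      0 < M.SB J A (fun _ => 1) false 0 true (0, u0 D) ∧
      0 < M.SB J A (fun _ => 1) true (0, u0 D) false 0 ∧
      (J = 0 → ∀ (s : ℤ) (u v : Tr D), (u = 0 ∨ v = 0) →
        M.SB J A (fun _ => 1) true (0, u) true (s, v) = 0)

/-- The renewal structure, in the language of the analytic modules. -/
def RenStmt : Prop :=
  ∀ (D : ℕ) (M : Model D) (J ξ : ℝ), 1 ≤ D → M.CW → M.Good J ξ → M.Good 1 ξ →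
    Tendsto (fun n : ℕ => -(1 / (n : ℝ)) * Real.log (M.b 1 n)) atTop (𝓝 ξ) → (∀ n, 0 < M.b 1 n) →
    ∃ (p : ℕ → Tr D → ℝ) (K Gr : ℕ → Tr D → Tr D → ℝ) (A : ℕ) (C ν : ℝ),
      Sys p K Gr A C ν ∧ Adm K A C ν (fun n => M.b J (n - 1) * Real.exp (ξ * n)) ∧
      (J = 1 → K = hk p) ∧ (0 < J → ∀ u v, ‖v - u‖ ≤ 2 → 0 < K 2 u v) ∧
      (∀ κ : ℝ, 0 < κ → ∃ (κ' : ℝ) (K' : ℕ → Tr D → Tr D → ℝ) (t : ℕ → ℝ), 0 < κ' ∧
        KerOK K' A C ν ∧ Adm K' A C ν t ∧ (∀ l u v, K l u v ≤ K' l u v) ∧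
        (∀ l v, (1 + κ') * K l 0 v ≤ K' l 0 v) ∧
        ∀ n : ℕ, ENNReal.ofReal (t (n + 1)) ≤ ENNReal.ofReal (Real.exp (ξ * (n + 1))) *
          ∑' E : Finset (Ed D), if ((n : ℤ), 0) ∈ verts 0 E then
            M.wt J Set.univ 0 E * ENNReal.ofReal ((1 + κ) ^ lineBreaks E n) else 0) ∧
      ∀ δ : ℝ, 0 < δ → ∃ (η : ℝ) (K' : ℕ → Tr D → Tr D → ℝ) (t : ℕ → ℝ), 0 < η ∧
        KerOK K' A C ν ∧ Adm K' A C ν t ∧
        (∀ l u v, |K' l u v - K l u v| ≤ δ * Real.exp (-ν * (l + ‖u‖))) ∧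
        ∀ n : ℕ, ENNReal.ofReal (Real.exp (ξ * (n + 1))) *
          (∑' E : Finset (Ed D), if ((n : ℤ), 0) ∈ verts 0 E then M.wt J Set.univ 0 E *
            ENNReal.ofReal ((1 + η) ^ ((verts 0 E).filter fun v => v.2 = 0).card) else 0) ≤
          ENNReal.ofReal (t (n + 1))

/-- Module B6: if a boost of the row of the line keeps the sequence bounded, the kernel is
subcritical. -/
def B6Stmt : Prop :=
  ∀ (D : ℕ) (p : ℕ → Tr D → ℝ) (K Gr K' : ℕ → Tr D → Tr D → ℝ) (A : ℕ) (C ν κ B : ℝ) (t : ℕ → ℝ),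
    Sys p K Gr A C ν → (∀ u v, ‖v - u‖ ≤ 2 → 0 < K 2 u v) → 0 < κ → KerOK K' A C ν →
    Adm K' A C ν t → (∀ l u v, K l u v ≤ K' l u v) → (∀ l v, (1 + κ) * K l 0 v ≤ K' l 0 v) →
    (∀ n, 1 ≤ n → t n ≤ B) → Sub Gr

end

end Pool.Agent.MP_48a2f9_mp.OZ
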