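import Mathlib.Analysis.Subadditive
import Mathlib.RingTheory.PiTensorProduct
import Pool.Agent.MP_48a2f9_mp.SpecR
import Pool.Agent.MP_48a2f9_mp.FKUniq
import Pool.Agent.MP_48a2f9_mp.SpecC
import Pool.Agent.MP_48a2f9_mp.TPa

-- ======== part 0: formerly Pool.Agent.MP_48a2f9_mp.Main
section MrgPart0

/-!
Assembly of the final theorem from the module statements.
-/

open Finset Filter Topology MeasureTheory
open scoped ENNReal

namespace Pool.Agent.MP_48a2f9_mp.OZ

noncomputable section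
open Classical

/-- The final statement. -/
def MainStmt : Prop :=
  ∀ (D q : ℕ) (β : ℝ) (μ : ℝ → Measure (Site D → Fin q)), 1 ≤ D → 2 ≤ q → 0 < β →
    (β : EReal) < betaC D q → (∀ J, 0 ≤ J → IsGibbs β J (μ J)) →
    (∀ J, 0 ≤ J → Tendsto (fun n : ℕ => -(1 / (n : ℝ)) * Real.log (G (μ J) n - 1 / (q : ℝ)))
      atTop (𝓝 (xi (μ J)))) ∧
    BddAbove {J | 0 ≤ J ∧ xi (μ J) = xi (μ 1)} ∧
    (D + 1 ≤ 3 → Jc μ = 1) ∧ (4 ≤ D + 1 → 1 < Jc μ) ∧
    ∀ J, 0 ≤ J → J ≤ Jc μ → ∃ C : ℝ, 0 < C ∧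
      Tendsto (fun n : ℕ => (G (μ J) n - 1 / (q : ℝ)) /
        (C * (if J < Jc μ then gSub (D + 1) n else gCrit (D + 1) n) *
          Real.exp (-xi (μ 1) * n))) atTop (𝓝 1)

namespace Asm

variable {D : ℕ}

lemma ratio_one : Tendsto (fun n : ℕ => (((n + 1 : ℕ) : ℝ)) / (n : ℝ)) atTop (𝓝 1) := by
  have h := (tendsto_const_nhds (x := (1 : ℝ))).add tendsto_one_div_atTop_nhds_zero_nat
  rw [add_zero] at h
  refine h.congr' ?_
  filter_upwards [eventually_gt_atTop 0] with n hn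
  have : (n : ℝ) ≠ 0 := by positivity
  push_cast
  field_simp

lemma ratio_rpow (a : ℝ) :
    Tendsto (fun n : ℕ => (((n + 1 : ℕ) : ℝ)) ^ a / (n : ℝ) ^ a) atTop (𝓝 1) := by
  have h := ratio_one.rpow_const (p := a) (Or.inl one_ne_zero)
  rw [Real.one_rpow] at h
  refine h.congr fun n => ?_
  rw [Real.div_rpow (Nat.cast_nonneg _) (Nat.cast_nonneg _)]

lemma ratio_log :
    Tendsto (fun n : ℕ => Real.log ((n + 1 : ℕ) : ℝ) / Real.log (n : ℝ)) atTop (𝓝 1) := by
  have h1 := ratio_one.log one_ne_zero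
  rw [Real.log_one] at h1
  have h2 : Tendsto (fun n : ℕ => Real.log (n : ℝ)) atTop atTop :=
    Real.tendsto_log_atTop.comp tendsto_natCast_atTop_atTop
  have h3 := (tendsto_const_nhds (x := (1 : ℝ))).add (h1.div_atTop h2)
  rw [add_zero] at h3
  refine h3.congr' ?_
  filter_upwards [eventually_gt_atTop 1] with n hn
  have h4 : (1 : ℝ) < n := by exact_mod_cast hn
  have h5 : Real.log (n : ℝ) ≠ 0 := (Real.log_pos h4).ne'
  rw [Real.log_div (by positivity) (by positivity)]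
  field_simp
  ring

lemma ratio_inv {f : ℕ → ℝ} (h : Tendsto (fun n => f (n + 1) / f n) atTop (𝓝 1)) :
    Tendsto (fun n => (f (n + 1))⁻¹ / (f n)⁻¹) atTop (𝓝 1) := by
  have := h.inv₀ one_ne_zero
  rw [inv_one] at this
  refine this.congr fun n => ?_
  rw [inv_div, div_inv_eq_mul, div_eq_mul_inv, mul_comm]

lemma ratio_gSub (d : ℕ) :
    Tendsto (fun n : ℕ => gSub d ((n + 1 : ℕ) : ℝ) / gSub d (n : ℝ)) atTop (𝓝 1) := by
  unfold gSub
  split_ifs
  · exact ratio_rpow _
  · have h1 := ratio_inv (f := fun n : ℕ => (n : ℝ)) ratio_one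
    have h2 := ratio_inv (f := fun n : ℕ => Real.log (n : ℝ) ^ 2) (by
      have := ratio_log.pow 2
      rw [one_pow] at this
      exact this.congr fun n => div_pow _ _ _)
    have h3 := h1.mul h2
    rw [one_mul] at h3
    exact h3.congr fun n => div_mul_div_comm _ _ _ _
  · exact ratio_rpow _

lemma ratio_gCrit (d : ℕ) :
    Tendsto (fun n : ℕ => gCrit d ((n + 1 : ℕ) : ℝ) / gCrit d (n : ℝ)) atTop (𝓝 1) := by
  unfold gCrit
  split_ifs
  · exact ratio_rpow _
  · exact ratio_rpow _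
  · exact ratio_inv (f := fun n : ℕ => Real.log (n : ℝ)) ratio_log
  · simp

lemma gSub_pos (d : ℕ) {n : ℕ} (hn : 1 < n) : 0 < gSub d (n : ℝ) := by
  have h4 : (1 : ℝ) < n := by exact_mod_cast hn
  have h5 := Real.log_pos h4
  unfold gSub
  split_ifs <;> positivity

lemma gCrit_pos (d : ℕ) {n : ℕ} (hn : 1 < n) : 0 < gCrit d (n : ℝ) := by
  have h4 : (1 : ℝ) < n := by exact_mod_cast hn
  have h5 := Real.log_pos h4
  unfold gCrit
  split_ifs <;> positivity

/-- Removing the shift by one. -/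
lemma unshift {b g : ℕ → ℝ} {ξ c k : ℝ} (hc : 0 < c) (hk : 0 < k) (hg : ∀ n, 1 < n → 0 < g n)
    (hr : Tendsto (fun n => g (n + 1) / g n) atTop (𝓝 1))
    (h : Tendsto (fun n : ℕ => b (n - 1) * Real.exp (ξ * n) / g n) atTop (𝓝 c)) :
    ∃ C : ℝ, 0 < C ∧
      Tendsto (fun n : ℕ => k * b n / (C * g n * Real.exp (-ξ * n))) atTop (𝓝 1) := by
  refine ⟨k * c * Real.exp (-ξ), by positivity, ?_⟩
  have h1 := ((h.comp (tendsto_add_atTop_nat 1)).mul hr).const_mul c⁻¹
  rw [mul_one, inv_mul_cancel₀ hc.ne'] at h1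
  refine h1.congr' ?_
  filter_upwards [eventually_gt_atTop 1] with n hn
  have h2 := (hg n hn).ne'
  have h3 := (hg (n + 1) (by omega)).ne'
  have e1 : Real.exp (ξ * ((n + 1 : ℕ) : ℝ)) = (Real.exp (-ξ) * Real.exp (-ξ * n))⁻¹ := by
    rw [← Real.exp_add, ← Real.exp_neg]; congr 1; push_cast; ring
  simp only [Function.comp, Nat.add_sub_cancel, e1]
  field_simp

lemma summable_of_abel {a : ℕ → ℝ} {B : ℝ} (ha : ∀ n, 0 ≤ a n)
    (h : ∀ s : ℝ, 1 / 2 ≤ s → s < 1 → Summable (fun n => a n * s ^ n) ∧ ∑' n, a n * s ^ n ≤ B) :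
    Summable a := by
  refine summable_of_sum_range_le ha (c := B) fun N => ?_
  have h1 : Tendsto (fun s : ℝ => ∑ n ∈ range N, a n * s ^ n) (𝓝[<] 1)
      (𝓝 (∑ n ∈ range N, a n * 1 ^ n)) :=
    ((by fun_prop : Continuous fun s : ℝ => ∑ n ∈ range N, a n * s ^ n).tendsto 1).mono_left
      nhdsWithin_le_nhds
  simp only [one_pow, mul_one] at h1
  refine le_of_tendsto h1 ?_
  filter_upwards [Ioo_mem_nhdsLT (show (1 / 2 : ℝ) < 1 by norm_num)] with s hs
  obtain ⟨h2, h3⟩ := h s hs.1.le hs.2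
  exact (h2.sum_le_tsum _ fun n _ => mul_nonneg (ha n) (pow_nonneg (by linarith [hs.1]) _)).trans h3

lemma green_nonneg {K Gr : ℕ → Tr D → Tr D → ℝ} (hK : ∀ l u v, 0 ≤ K l u v) (h : IsGp K Gr) :
    ∀ n u v, 0 ≤ Gr n u v := by
  intro n
  induction n using Nat.strong_induction_on with
  | _ n ih =>
    intro u v
    rw [h n u v]
    refine add_nonneg (hK _ _ _) (sum_nonneg fun l hl => tsum_nonneg fun w => ?_)
    have := mem_Ioo.1 hl
    exact mul_nonneg (hK _ _ _) (ih _ (by omega) _ _)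

lemma sub_iff (h3 : B3Stmt) (hD : 1 ≤ D) {p : ℕ → Tr D → ℝ} {K Gr : ℕ → Tr D → Tr D → ℝ} {A : ℕ}
    {C ν : ℝ} {t : ℕ → ℝ} (hS : Sys p K Gr A C ν) (hA : Adm K A C ν t) (ht : ∀ n, 0 ≤ t n) :
    Sub Gr ↔ Summable fun n => t (n + 1) := by
  obtain ⟨c, C', hc, h⟩ := h3 D p K Gr A C ν t hD hS hA
  have hG := green_nonneg hS.ker.nonneg hS.green
  have hsum : ∀ s : ℝ, 1 / 2 ≤ s → s < 1 → Summable fun n => Gr n (u0 D) (u0 D) * s ^ n := by
    intro s h1 h2
    have h0 : 0 ≤ s := by linarith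
    exact Summable.of_nonneg_of_le (fun n => mul_nonneg (hG _ _ _) (pow_nonneg h0 _))
      (fun n => mul_le_mul_of_nonneg_right (hS.le_const _ _ _) (pow_nonneg h0 _))
      ((summable_geometric_of_lt_one h0 h2).mul_left C)
  constructor
  · intro hsub
    refine summable_of_abel (B := 2 * (|C'| * (1 + ∑' n, Gr n (u0 D) (u0 D)))) (fun n => ht _)
      fun s h1 h2 => ?_
    obtain ⟨h4, -, h5⟩ := h s h1 h2
    have h0 : 0 < s := by linarith
    have e : (fun n => t (n + 1) * s ^ n) = fun n => s⁻¹ * (t (n + 1) * s ^ (n + 1)) := by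
      funext n; rw [pow_succ]; field_simp
    rw [e, tsum_mul_left]
    refine ⟨h4.mul_left _, ?_⟩
    have h6 : genU Gr s ≤ 1 + ∑' n, Gr n (u0 D) (u0 D) := by
      unfold genU
      gcongr 1 + ?_
      exact (hsum s h1 h2).tsum_le_tsum (fun n => mul_le_of_le_one_right (hG _ _ _)
        (pow_le_one₀ h0.le h2.le)) hsub
    have h7 : 0 ≤ genU Gr s := add_nonneg zero_le_one
      (tsum_nonneg fun n => mul_nonneg (hG _ _ _) (pow_nonneg h0.le _))
    have h8 : C' * genU Gr s ≤ |C'| * (1 + ∑' n, Gr n (u0 D) (u0 D)) :=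
      mul_le_mul (le_abs_self _) h6 h7 (abs_nonneg _)
    have h9 : s⁻¹ ≤ 2 := by rw [inv_le_comm₀ h0 two_pos]; linarith
    exact mul_le_mul h9 (h5.trans h8)
      (tsum_nonneg fun n => mul_nonneg (ht _) (pow_nonneg h0.le _)) two_pos.le
  · intro hsum'
    refine summable_of_abel (B := (∑' n, t (n + 1)) / c) (fun n => hG _ _ _) fun s h1 h2 => ?_
    obtain ⟨h4, h5, -⟩ := h s h1 h2
    have h0 : 0 ≤ s := by linarith
    refine ⟨hsum s h1 h2, ?_⟩
    rw [le_div_iff₀ hc]
    have h6 : ∑' n, t (n + 1) * s ^ (n + 1) ≤ ∑' n, t (n + 1) :=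
      h4.tsum_le_tsum (fun n => mul_le_of_le_one_right (ht _) (pow_le_one₀ h0 h2.le)) hsum'
    unfold genU at h5
    nlinarith

lemma tau_ne_top {M : Model D} (hM : M.CW) {J : ℝ} (hJ : 0 ≤ J) (x y : Site D) :
    M.tau J Set.univ x y ≠ ⊤ := by
  refine ne_top_of_le_ne_top ENNReal.one_ne_top (le_trans ?_ (hM.total J hJ Set.univ x))
  refine ENNReal.tsum_le_tsum fun E => ?_
  split_ifs
  exacts [le_rfl, zero_le]

lemma card_line_edges {x : Site D} {E : Finset (Ed D)} (hE : IsClu x E) :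
    (E.filter fun e => ∀ v ∈ e, v.2 = 0).card ≤ ((verts x E).filter fun v => v.2 = 0).card := by
  refine le_trans (card_le_card ?_) (card_image_le (f := fwd))
  intro e he
  obtain ⟨he, h0⟩ := mem_filter.1 he
  obtain ⟨a, b, hab, rfl⟩ := hE.1 e he
  have ha := h0 a (Sym2.mem_mk_left _ _)
  have hb := h0 b (Sym2.mem_mk_right _ _)
  have hv : ∀ v ∈ s(a, b), v ∈ verts x E := fun v hv =>
    mem_insert_of_mem (mem_biUnion.2 ⟨_, he, Sym2.mem_toFinset.2 hv⟩)
  simp only [Adj, ha, hb, sub_self, abs_zero, sum_const_zero, add_zero] at hab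
  rcases abs_eq (zero_le_one) |>.1 hab with h | h
  · refine mem_image.2 ⟨b, mem_filter.2 ⟨hv b (Sym2.mem_mk_right _ _), hb⟩, ?_⟩
    have : b + e1 = a := Prod.ext (by simp [e1]; omega) (by simp [e1, ha, hb])
    rw [fwd, this, Sym2.eq_swap]
  · refine mem_image.2 ⟨a, mem_filter.2 ⟨hv a (Sym2.mem_mk_left _ _), ha⟩, ?_⟩
    have : a + e1 = b := Prod.ext (by simp [e1]; omega) (by simp [e1, ha, hb])
    rw [fwd, this]

lemma wt_le_tilt {M : Model D} (hM : M.CW) {J J' η : ℝ} (hJ : 0 ≤ J) (hJJ : J ≤ J') (hη : 0 ≤ η)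
    (hr : Real.exp (M.β * J') - 1 ≤ (Real.exp (M.β * J) - 1) * (1 + η)) (E : Finset (Ed D)) :
    M.wt J' Set.univ 0 E ≤ M.wt J Set.univ 0 E *
      ENNReal.ofReal ((1 + η) ^ ((verts 0 E).filter fun v => v.2 = 0).card) := by
  unfold Model.wt
  split_ifs with h
  · have hβ := hM.beta_pos.le
    have r0 : ∀ J, 0 ≤ J → ∀ e : Ed D, 0 ≤ rr M.β J e := fun J hJ e => by
      unfold rr edgeJ
      split_ifs
      · exact sub_nonneg.2 (Real.one_le_exp (mul_nonneg hβ hJ))
      · exact sub_nonneg.2 (Real.one_le_exp (mul_nonneg hβ zero_le_one))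
    have p0 : ∀ J, 0 ≤ J → 0 ≤ M.Ψ J Set.univ (verts 0 E) := fun J hJ => by
      obtain ⟨c, hc, h1⟩ := hM.pos J hJ
      exact (pow_nonneg hc.le _).trans (h1 _ _ (Set.subset_univ _))
    have h1 : ∏ e ∈ E, rr M.β J' e ≤ (∏ e ∈ E, rr M.β J e) *
        (1 + η) ^ ((verts 0 E).filter fun v => v.2 = 0).card := by
      refine le_trans ?_ (mul_le_mul_of_nonneg_left (pow_le_pow_right₀ (by linarith)
        (card_line_edges h.1)) (prod_nonneg fun e _ => r0 J hJ e))
      rw [← prod_const, prod_filter, ← prod_mul_distrib]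
      refine prod_le_prod (fun e _ => r0 J' (hJ.trans hJJ) e) fun e _ => ?_
      unfold rr edgeJ
      split_ifs
      · exact hr
      · rw [mul_one (_ - _)]
    unfold Model.wtR
    rw [← ENNReal.ofReal_mul (mul_nonneg (mul_nonneg (Nat.cast_nonneg _)
      (prod_nonneg fun e _ => r0 J hJ e)) (p0 J hJ))]
    refine ENNReal.ofReal_le_ofReal ?_
    have h2 := mul_le_mul h1 (hM.psi_anti_J J J' hJ hJJ (verts 0 E)) (p0 J' (hJ.trans hJJ))
      (mul_nonneg (prod_nonneg fun e _ => r0 J hJ e) (pow_nonneg (by linarith) _))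
    have h3 := mul_le_mul_of_nonneg_left h2 (Nat.cast_nonneg (α := ℝ) M.q)
    linarith
  · exact zero_le

lemma le_of_decay {b : ℕ → ℝ} {ξ x C : ℝ} (hb : ∀ n, 0 < b n)
    (h : Tendsto (fun n : ℕ => -(1 / (n : ℝ)) * Real.log (b n)) atTop (𝓝 x))
    (hC : ∀ n : ℕ, b n ≤ C * Real.exp (-ξ * n)) : ξ ≤ x := by
  have hC0 : 0 < C := by
    have := (hb 0).trans_le (hC 0)
    simpa using this
  have h1 := (tendsto_const_nhds (x := ξ)).sub
    (tendsto_one_div_atTop_nhds_zero_nat.mul_const (Real.log C))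
  rw [zero_mul, sub_zero] at h1
  refine le_of_tendsto_of_tendsto h1 h ?_
  filter_upwards [eventually_gt_atTop 0] with n hn
  have h2 : (0 : ℝ) < n := by exact_mod_cast hn
  have h3 := Real.log_le_log (hb n) (hC n)
  rw [Real.log_mul hC0.ne' (Real.exp_pos _).ne', Real.log_exp] at h3
  have h4 := mul_le_mul_of_nonneg_left h3 (one_div_pos.2 h2).le
  have h5 : 1 / (n : ℝ) * (Real.log C + -ξ * n) = 1 / (n : ℝ) * Real.log C - ξ := by
    field_simp
    ring
  show ξ - 1 / (n : ℝ) * Real.log C ≤ -(1 / (n : ℝ)) * Real.log (b n)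
  linarith

end Asm

open Asm in
theorem main_of (hCW : CWStmt) (hTP : TPStmt) (hRen : RenStmt) (h1 : B1Stmt) (h2 : B2Stmt)
    (h3 : B3Stmt) (h4 : B4Stmt) (h5 : B5Stmt) (h6 : B6Stmt) : MainStmt := by
  intro D q β μ hD hq hβ hβc hμ
  obtain ⟨Ψ, hM⟩ := hCW D q β hD hq hβ hβc
  set M : Model D := Model.mk q β Ψ with hMdef
  obtain ⟨tp1, tp2, tp3, tp4, tp5⟩ := hTP D M hD hM
  have hq' : (2 : ℝ) ≤ q := by exact_mod_cast hq
  have hk : (0 : ℝ) < 1 - 1 / (q : ℝ) := by
    rw [sub_pos, div_lt_one (by linarith)]; linarith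
  have hG : ∀ J, 0 ≤ J → ∀ n, G (μ J) n - 1 / (q : ℝ) = (1 - 1 / (q : ℝ)) * M.b J n := by
    intro J hJ n
    have := hM.es J hJ (μ J) (hμ J hJ) n
    change G (μ J) n = 1 / (q : ℝ) + (1 - 1 / (q : ℝ)) * M.b J n at this
    linarith
  have hlim : ∀ J, 0 ≤ J → Tendsto
      (fun n : ℕ => -(1 / (n : ℝ)) * Real.log (G (μ J) n - 1 / (q : ℝ))) atTop (𝓝 (M.xiF J)) := by
    intro J hJ
    have a1 := ((tendsto_one_div_atTop_nhds_zero_nat (𝕜 := ℝ)).neg.mul_const
      (Real.log (1 - 1 / (q : ℝ)))).add (tp1 J hJ).2.1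
    rw [neg_zero, zero_mul, zero_add] at a1
    refine a1.congr fun n => ?_
    rw [hG J hJ, Real.log_mul hk.ne' ((tp1 J hJ).1 n).ne', mul_add]
  have hxi : ∀ J, 0 ≤ J → xi (μ J) = M.xiF J := fun J hJ => (hlim J hJ).limUnder_eq
  have hset : {J | 0 ≤ J ∧ xi (μ J) = xi (μ 1)} = {J | 0 ≤ J ∧ M.xiF J = M.xiF 1} := by
    ext J
    exact and_congr_right fun hJ => by rw [hxi J hJ, hxi 1 zero_le_one]
  have hJc : Jc μ = M.JcF := by unfold Jc Model.JcF; rw [hset]
  set ξ := M.xiF 1 with hξ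
  have good1 : M.Good 1 ξ := (tp1 1 zero_le_one).2.2
  have good : ∀ J, 0 ≤ J → J ≤ M.JcF → M.Good J ξ := fun J hJ hJ' =>
    tp5 J hJ hJ' ▸ (tp1 J hJ).2.2
  have ren := fun J hJ hJ' => hRen D M J ξ hD hM (good J hJ hJ') good1 (tp1 1 zero_le_one).2.1
    (tp1 1 zero_le_one).1
  have hJc0 : 0 ≤ M.JcF := zero_le_one.trans tp4
  have tnn : ∀ J, 0 ≤ J → ∀ n : ℕ, 0 ≤ M.b J (n - 1) * Real.exp (ξ * n) := fun J hJ n =>
    mul_nonneg ((tp1 J hJ).1 _).le (Real.exp_pos _).le
  -- below the critical coupling the tilted sequence is summable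
  have summ0 : ∀ J, 0 < J → J < M.JcF →
      Summable fun n : ℕ => M.b J (n + 1 - 1) * Real.exp (ξ * ((n + 1 : ℕ) : ℝ)) := by
    intro J hJ hJ'
    obtain ⟨p, K, Gr, A, C, ν, hS, hA, -, hpos, hboost, -⟩ := ren J hJ.le hJ'.le
    obtain ⟨κ, hκ, hsp⟩ := hM.sprinkle J M.JcF hJ hJ'
    obtain ⟨κ', K', t, hκ', k1, k2, k3, k4, k5⟩ := hboost κ hκ
    refine (sub_iff h3 hD hS hA (tnn J hJ.le)).1
      (h6 D p K Gr K' A C ν κ' (Real.exp ξ) t hS (hpos hJ) hκ' k1 k2 k3 k4 fun n hn => ?_)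
    obtain ⟨n, rfl⟩ : ∃ m, n = m + 1 := ⟨n - 1, by omega⟩
    have a1 := (k5 n).trans (mul_le_mul_right ((hsp n).trans
      ((good _ hJc0 le_rfl).2.2 0 ((n : ℤ), 0))) _)
    rw [← ENNReal.ofReal_mul (Real.exp_pos _).le, ← Real.exp_add,
      ENNReal.ofReal_le_ofReal_iff (Real.exp_pos _).le] at a1
    refine a1.trans (le_of_eq ?_)
    congr 1
    simp only [Prod.fst_zero, sub_zero, Int.cast_natCast, Nat.abs_cast]
    ring
  have summ : ∀ J, 0 ≤ J → J < M.JcF →
      Summable fun n : ℕ => M.b J (n + 1 - 1) * Real.exp (ξ * ((n + 1 : ℕ) : ℝ)) := by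
    intro J hJ hJ'
    refine Summable.of_nonneg_of_le (fun n => tnn J hJ (n + 1)) (fun n => ?_)
      (summ0 ((J + M.JcF) / 2) (by linarith) (by linarith))
    refine mul_le_mul_of_nonneg_right ?_ (Real.exp_pos _).le
    exact ENNReal.toReal_mono (tau_ne_top hM (by linarith) _ _)
      (hM.tau_mono_J J _ hJ (by linarith) _ _)
  -- at the critical coupling it is not
  have crit : ¬ Summable
      fun n : ℕ => M.b M.JcF (n + 1 - 1) * Real.exp (ξ * ((n + 1 : ℕ) : ℝ)) := by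
    intro hs
    obtain ⟨p, K, Gr, A, C, ν, hS, hA, -, -, -, htilt⟩ := ren _ hJc0 le_rfl
    obtain ⟨δ, hδ, hst⟩ := h4 D p K Gr A C ν hD hS ((sub_iff h3 hD hS hA (tnn _ hJc0)).2 hs)
    obtain ⟨η, K', t, hη, k1, k2, k3, k4⟩ := htilt δ hδ
    obtain ⟨C', hC'⟩ := hst K' t k1 k3 k2
    have hr0 : 0 < Real.exp (β * M.JcF) - 1 :=
      sub_pos.2 (Real.one_lt_exp_iff.2 (mul_pos hβ (by linarith)))
    have hcont : ContinuousAt (fun J : ℝ => Real.exp (β * J) - 1) M.JcF := by fun_prop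
    have hev := hcont.eventually (gt_mem_nhds (show Real.exp (β * M.JcF) - 1 <
      (Real.exp (β * M.JcF) - 1) * (1 + η) by nlinarith))
    obtain ⟨J', hJ'1, hJ'2⟩ := ((hev.filter_mono nhdsWithin_le_nhds).and
      (self_mem_nhdsWithin (s := Set.Ioi M.JcF))).exists
    have hJ'0 : 0 ≤ J' := hJc0.trans (le_of_lt hJ'2)
    have hb : ∀ n : ℕ, M.b J' n ≤ |C'| * Real.exp (-ξ) * Real.exp (-ξ * n) := by
      intro n
      have a1 : M.tau J' Set.univ 0 ((n : ℤ), 0) ≤
          ∑' E : Finset (Ed D), if ((n : ℤ), 0) ∈ verts 0 E then M.wt M.JcF Set.univ 0 E *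
            ENNReal.ofReal ((1 + η) ^ ((verts 0 E).filter fun v => v.2 = 0).card) else 0 := by
        refine ENNReal.tsum_le_tsum fun E => ?_
        split_ifs
        exacts [wt_le_tilt hM hJc0 (le_of_lt hJ'2) hη.le hJ'1.le E, le_rfl]
      have a2 := ((mul_le_mul_right a1 _).trans (k4 n)).trans
        (ENNReal.ofReal_le_ofReal ((hC' (n + 1) (by omega)).trans (le_abs_self C')))
      have a3 := ENNReal.toReal_mono ENNReal.ofReal_ne_top a2
      rw [ENNReal.toReal_mul, ENNReal.toReal_ofReal (Real.exp_pos _).le,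
        ENNReal.toReal_ofReal (abs_nonneg _)] at a3
      have e1 : Real.exp (-ξ) * Real.exp (-ξ * n) = (Real.exp (ξ * (n + 1)))⁻¹ := by
        rw [← Real.exp_add, ← Real.exp_neg]; congr 1; ring
      rw [mul_assoc, e1, ← div_eq_mul_inv, le_div_iff₀ (Real.exp_pos _), mul_comm]
      exact a3
    have a4 := le_of_decay (tp1 J' hJ'0).1 (tp1 J' hJ'0).2.1 hb
    have a5 := tp2 1 J' zero_le_one (tp4.trans (le_of_lt hJ'2))
    exact absurd (le_csSup tp3 ⟨hJ'0, le_antisymm a5 a4⟩) (not_le.2 hJ'2)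
  -- the homogeneous model
  have hom : (Summable fun n : ℕ => M.b 1 (n + 1 - 1) * Real.exp (ξ * ((n + 1 : ℕ) : ℝ))) ↔
      3 ≤ D := by
    obtain ⟨p, K, Gr, A, C, ν, hS, hA, hK, -⟩ := ren 1 zero_le_one tp4
    rw [← sub_iff h3 hD hS hA (tnn 1 zero_le_one)]
    exact (h5 D p Gr A C ν hD hS.nu hS.hom hS.mass (hK rfl ▸ hS.green)).1
  have low : D + 1 ≤ 3 → M.JcF = 1 := fun hd => by
    refine le_antisymm (not_lt.1 fun h => ?_) tp4
    have := hom.1 (summ 1 zero_le_one h)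
    omega
  have high : 4 ≤ D + 1 → 1 < M.JcF := fun hd => by
    refine lt_of_le_of_ne tp4 fun h => crit ?_
    rw [← h]
    exact hom.2 (by omega)
  rw [hset, hJc]
  refine ⟨fun J hJ => hxi J hJ ▸ hlim J hJ, tp3, low, high, fun J hJ hJ' => ?_⟩
  obtain ⟨p, K, Gr, A, C, ν, hS, hA, hK, -⟩ := ren J hJ hJ'
  simp only [hG J hJ, hxi 1 zero_le_one]
  by_cases hlt : J < M.JcF
  · simp only [if_pos hlt]
    obtain ⟨c, hc, hl⟩ := h1 D p K Gr A C ν _ hD hS hA
      ((sub_iff h3 hD hS hA (tnn J hJ)).2 (summ J hJ hlt))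
    exact unshift (g := fun n : ℕ => gSub (D + 1) n) hc hk (fun n hn => gSub_pos _ hn)
      (ratio_gSub _) hl
  · simp only [if_neg hlt]
    have hJe : J = M.JcF := le_antisymm hJ' (not_lt.1 hlt)
    have hex : ∃ c, 0 < c ∧ Tendsto
        (fun n : ℕ => M.b J (n - 1) * Real.exp (ξ * n) / gCrit (D + 1) n) atTop (𝓝 c) := by
      by_cases hd : 3 ≤ D
      · refine h2 D p K Gr A C ν _ hd hS hA fun hs => crit ?_
        rw [← hJe]
        exact (sub_iff h3 hD hS hA (tnn J hJ)).1 hs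
      · have hK' := hK (hJe.trans (low (by omega)))
        exact (h5 D p Gr A C ν hD hS.nu hS.hom hS.mass (hK' ▸ hS.green)).2 (by omega) _ (hK' ▸ hA)
    obtain ⟨c, hc, hl⟩ := hex
    exact unshift (g := fun n : ℕ => gCrit (D + 1) n) hc hk (fun n hn => gCrit_pos _ hn)
      (ratio_gCrit _) hl

end

end Pool.Agent.MP_48a2f9_mp.OZ

end MrgPart0

-- ======== part 1: formerly Pool.Agent.MP_48a2f9_mp.B6
section MrgPart1

/-!
Module B6: a boost of one row that keeps the renewal sequence bounded forces subcriticality.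
-/

set_option autoImplicit false

open Finset Filter Topology

namespace Pool.Agent.MP_48a2f9_mp.OZ.B6

open Classical

variable {D : ℕ}

lemma summable_exp_norm {ν : ℝ} (hν : 0 < ν) :
    Summable fun w : Tr D => Real.exp (-ν * ‖w‖) := by
  set c : ℝ := ν / (D + 1) with hc
  have hc0 : 0 < c := by positivity
  have hn : Summable fun n : ℕ => Real.exp (-c * n) := by
    have := Real.summable_exp_nat_mul_iff.mpr (neg_lt_zero.mpr hc0)
    simpa [mul_comm] using this
  have hg : Summable fun a : ℤ => Real.exp (-c * |(a : ℝ)|) := by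
    refine Summable.of_nat_of_neg ?_ ?_ <;> simpa using hn
  have h1 : ∀ w : Tr D, Real.exp (-ν * ‖w‖) ≤ ∏ i, Real.exp (-c * |(w i : ℝ)|) := by
    intro w
    rw [← Real.exp_sum, ← Finset.mul_sum]
    refine Real.exp_le_exp.mpr ?_
    have h2 : ∀ i, |(w i : ℝ)| ≤ ‖w‖ := fun i => by
      have := norm_le_pi_norm w i
      rwa [Int.norm_eq_abs] at this
    have h3 := Finset.sum_le_card_nsmul Finset.univ _ _ (fun i _ => h2 i)
    rw [Finset.card_univ, Fintype.card_fin, nsmul_eq_mul] at h3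
    have e : ν = c * (D + 1) := by rw [hc]; field_simp
    have := norm_nonneg w
    rw [e]; nlinarith
  refine Summable.of_nonneg_of_le (fun w => (Real.exp_pos _).le) h1 ?_
  refine summable_of_sum_le (c := ∏ _i : Fin D, ∑' a : ℤ, Real.exp (-c * |(a : ℝ)|))
    (fun w => Finset.prod_nonneg fun i _ => (Real.exp_pos _).le) fun s => ?_
  calc ∑ w ∈ s, ∏ i, Real.exp (-c * |(w i : ℝ)|)
      ≤ ∑ w ∈ Fintype.piFinset (fun i => (s.image fun w : Tr D => w i : Finset ℤ)),
          ∏ i, Real.exp (-c * |((w i : ℤ) : ℝ)|) :=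
        Finset.sum_le_sum_of_subset_of_nonneg
          (fun w hw => Fintype.mem_piFinset.mpr fun i => Finset.mem_image_of_mem _ hw)
          fun w _ _ => Finset.prod_nonneg fun i _ => (Real.exp_pos _).le
    _ = ∏ i, ∑ a ∈ (s.image fun w : Tr D => w i : Finset ℤ), Real.exp (-c * |((a : ℤ) : ℝ)|) :=
        (Finset.prod_univ_sum _ (fun _ (a : ℤ) => Real.exp (-c * |(a : ℝ)|))).symm
    _ ≤ _ := Finset.prod_le_prod (fun i _ => Finset.sum_nonneg fun _ _ => (Real.exp_pos _).le)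
        fun i _ => hg.sum_le_tsum _ fun _ _ => (Real.exp_pos _).le

lemma ball_finite (r : ℝ) : {x : Tr D | ‖x‖ ≤ r}.Finite := by
  have h := (isCompact_closedBall (0 : Tr D) r).finite_of_discrete
  simpa [Metric.closedBall] using h

variable {K : ℕ → Tr D → Tr D → ℝ} {M : ℕ} {C ν : ℝ}

lemma supp (hK : KerOK K M C ν) (l : ℕ) (u w : Tr D)
    (hw : w ∉ (ball_finite ((M : ℝ) * l)).toFinset.image fun x => u + x) : K l u w = 0 := by
  by_contra h
  exact hw (Finset.mem_image.mpr ⟨w - u, by simpa using hK.range l u w h, by abel⟩)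

lemma summ (hK : KerOK K M C ν) (l : ℕ) (u : Tr D) (g : Tr D → ℝ) :
    Summable fun w => K l u w * g w :=
  summable_of_ne_finset_zero fun w hw => by rw [supp hK l u w hw, zero_mul]

lemma kconv_mono (hK : KerOK K M C ν) {x y : ℕ → Tr D → ℝ} {n : ℕ}
    (h : ∀ m, 1 ≤ m → m < n → ∀ w, x m w ≤ y m w) (u : Tr D) : kconv K x n u ≤ kconv K y n u := by
  refine Finset.sum_le_sum fun l hl => ?_
  have := Finset.mem_Ioo.mp hl
  exact (summ hK l u _).tsum_le_tsum (fun w => mul_le_mul_of_nonneg_left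
    (h _ (by omega) (by omega) w) (hK.nonneg l u w)) (summ hK l u _)

lemma kconv_nonneg (hK : KerOK K M C ν) {x : ℕ → Tr D → ℝ} {n : ℕ}
    (h : ∀ m, 1 ≤ m → m < n → ∀ w, 0 ≤ x m w) (u : Tr D) : 0 ≤ kconv K x n u := by
  refine Finset.sum_nonneg fun l hl => tsum_nonneg fun w => ?_
  have := Finset.mem_Ioo.mp hl
  exact mul_nonneg (hK.nonneg l u w) (h _ (by omega) (by omega) w)

lemma kconv_add (hK : KerOK K M C ν) (x y : ℕ → Tr D → ℝ) (n : ℕ) (u : Tr D) :
    kconv K (fun m w => x m w + y m w) n u = kconv K x n u + kconv K y n u := by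
  unfold kconv
  rw [← Finset.sum_add_distrib]
  refine Finset.sum_congr rfl fun l _ => ?_
  rw [← (summ hK l u _).tsum_add (summ hK l u _)]
  exact tsum_congr fun w => mul_add _ _ _

lemma kconv_single (q : ℕ → ℝ) (v : Tr D) (n : ℕ) (u : Tr D) :
    kconv K (fun m w => if w = v then q m else 0) n u = ∑ l ∈ Ioo 0 n, K l u v * q (n - l) := by
  refine Finset.sum_congr rfl fun l _ => ?_
  rw [tsum_eq_single v (fun w hw => by simp [hw])]
  simp

lemma le_kconv (hK : KerOK K M C ν) {x : ℕ → Tr D → ℝ} {n : ℕ}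
    (h : ∀ m, 1 ≤ m → m < n → ∀ w, 0 ≤ x m w) (u v : Tr D) {l : ℕ} (h0 : 0 < l) (hl : l < n) :
    K l u v * x (n - l) v ≤ kconv K x n u := by
  have h1 := kconv_mono hK (x := fun m w => if w = v then x m v else 0) (y := x) (n := n)
    (fun m a b w => by
      split_ifs with e
      · rw [e]
      · exact h m a b w) u
  rw [kconv_single (fun m => x m v)] at h1
  refine le_trans ?_ h1
  refine Finset.single_le_sum (f := fun l => K l u v * x (n - l) v) (fun j hj => ?_)
    (Finset.mem_Ioo.mpr ⟨h0, hl⟩)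
  have := Finset.mem_Ioo.mp hj
  exact mul_nonneg (hK.nonneg _ _ _) (h _ (by omega) (by omega) v)

lemma sum_swap (F : ℕ → ℕ → ℝ) (n : ℕ) :
    ∑ j ∈ Ioo 0 n, ∑ l ∈ Ioo 0 j, F l (j - l) = ∑ l ∈ Ioo 0 n, ∑ m ∈ Ioo 0 (n - l), F l m := by
  rw [Finset.sum_sigma', Finset.sum_sigma']
  refine Finset.sum_nbij' (fun a => ⟨a.2, a.1 - a.2⟩) (fun b => ⟨b.1 + b.2, b.1⟩) ?_ ?_ ?_ ?_ ?_
  · intro a ha
    simp only [Finset.mem_sigma, Finset.mem_Ioo] at ha ⊢
    omega
  · intro b hb
    simp only [Finset.mem_sigma, Finset.mem_Ioo] at hb ⊢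
    omega
  · rintro ⟨j, l⟩ ha
    simp only [Finset.mem_sigma, Finset.mem_Ioo] at ha
    have : l + (j - l) = j := by omega
    simp [this]
  · rintro ⟨l, m⟩ _
    simp
  · intro a _
    rfl

lemma green_nonneg (hK : KerOK K M C ν) {G : ℕ → Tr D → Tr D → ℝ} (hG : IsGp K G) (v : Tr D)
    (n : ℕ) : ∀ u, 0 ≤ G n u v := by
  induction n using Nat.strong_induction_on with
  | _ n ih =>
    intro u
    rw [hG n u v]
    exact add_nonneg (hK.nonneg _ _ _) (kconv_nonneg hK (fun m _ hm w => ih m hm w) u)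

lemma source (hK : KerOK K M C ν) {G : ℕ → Tr D → Tr D → ℝ} (hG : IsGp K G) (v : Tr D)
    (a : ℕ → Tr D → ℝ) (q : ℕ → ℝ)
    (ha : ∀ n, 1 ≤ n → ∀ u, (if u = v then q n else 0) + kconv K a n u ≤ a n u) (n : ℕ) :
    1 ≤ n → ∀ u, (if u = v then q n else 0) + ∑ m ∈ Ioo 0 n, G m u v * q (n - m) ≤ a n u := by
  induction n using Nat.strong_induction_on with
  | _ n ih =>
    intro hn u
    refine le_trans ?_ (ha n hn u)
    refine add_le_add le_rfl (le_trans (le_of_eq ?_) (kconv_mono hK (fun m h1 h2 w => ih m h2 h1 w) u))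
    rw [kconv_add hK, kconv_single]
    have e1 : ∀ j, G j u v * q (n - j) = K j u v * q (n - j) +
        ∑ l ∈ Ioo 0 j, (∑' w, K l u w * G (j - l) w v) * q (n - l - (j - l)) := by
      intro j
      conv_lhs => rw [hG j u v]
      rw [add_mul, kconv, Finset.sum_mul]
      congr 1
      refine Finset.sum_congr rfl fun l hl => ?_
      have := Finset.mem_Ioo.mp hl
      congr 2
      omega
    simp_rw [e1]
    rw [Finset.sum_add_distrib,
      sum_swap (fun l m => (∑' w, K l u w * G m w v) * q (n - l - m)) n]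
    congr 1
    refine Finset.sum_congr rfl fun l _ => ?_
    simp_rw [Finset.mul_sum]
    rw [Summable.tsum_finsetSum fun m _ => summ hK l u _]
    refine Finset.sum_congr rfl fun m _ => ?_
    rw [← tsum_mul_right]
    exact tsum_congr fun w => mul_assoc _ _ _

lemma unif_bound (hK : KerOK K M C ν) (hν : 0 < ν) {b x : ℕ → Tr D → ℝ} (hb : ∀ n u, b n u ≤ C)
    (hx : ∀ n u, 1 ≤ n → x n u = b n u + kconv K x n u) (n : ℕ) :
    ∃ B : ℝ, 0 ≤ B ∧ ∀ m, 1 ≤ m → m < n → ∀ u, x m u ≤ B := by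
  have hC : 0 ≤ C := by
    have h1 := (hK.nonneg 0 0 0).trans (hK.decay 0 0 0)
    simpa using h1
  induction n with
  | zero => exact ⟨0, le_rfl, fun m _ h => absurd h (Nat.not_lt_zero _)⟩
  | succ n ih =>
    obtain ⟨B, hB0, hB⟩ := ih
    let N : ℕ → ℝ := fun l => ((ball_finite (D := D) ((M : ℝ) * l)).toFinset.card : ℝ) * (C * B)
    have hN : 0 ≤ ∑ l ∈ Ioo 0 n, N l := Finset.sum_nonneg fun l _ => by positivity
    refine ⟨B + C + ∑ l ∈ Ioo 0 n, N l, by positivity, fun m h1 h2 u => ?_⟩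
    rcases Nat.lt_succ_iff_lt_or_eq.mp h2 with h | h
    · linarith [hB m h1 h u]
    · subst h
      have h3 : kconv K (fun _ _ => B) m u ≤ ∑ l ∈ Ioo 0 m, N l := by
        refine Finset.sum_le_sum fun l _ => ?_
        rw [tsum_eq_sum (fun w hw => by rw [supp hK l u w hw, zero_mul])]
        have h4 : ∀ w, K l u w * B ≤ C * B := fun w => by
          refine mul_le_mul_of_nonneg_right ((hK.decay l u w).trans ?_) hB0
          refine mul_le_of_le_one_right hC (Real.exp_le_one_iff.mpr ?_)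
          have : (0 : ℝ) ≤ l := Nat.cast_nonneg _
          nlinarith
        refine (Finset.sum_le_card_nsmul _ _ _ fun w _ => h4 w).trans ?_
        rw [nsmul_eq_mul]
        refine mul_le_mul_of_nonneg_right ?_ (by positivity)
        exact_mod_cast Finset.card_image_le
      have h5 := kconv_mono hK (y := fun _ _ => B) hB u
      rw [hx m u h1]
      linarith [hb m u]

lemma summable_of_bdd {r g : ℕ → ℝ} {c B : ℝ} (hc : 0 < c) (hg : ∀ m, 0 ≤ g m) (hg0 : g 0 = 0)
    (hr : ∀ n, 1 ≤ n → 0 < r n) (hB : ∀ n, 1 ≤ n → r n ≤ B)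
    (h : ∀ n N, N + 5 ≤ n → ∑ m ∈ Ioc 0 N, g m * (c * r (n - m - 4)) ≤ r n) : Summable g := by
  by_contra hs
  obtain ⟨N, hN⟩ := ((not_summable_iff_tendsto_nat_atTop_of_nonneg hg).mp hs |>.eventually
    (eventually_ge_atTop (2 / c))).exists
  have hN' : 2 / c ≤ ∑ m ∈ Ioc 0 N, g m := by
    refine hN.trans ?_
    have : ∑ m ∈ range N, g m ≤ ∑ m ∈ insert 0 (Ioc 0 N), g m :=
      Finset.sum_le_sum_of_subset_of_nonneg (fun m hm => by
        simp only [Finset.mem_range, Finset.mem_insert, Finset.mem_Ioc] at hm ⊢; omega)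
        fun m _ _ => hg m
    rwa [Finset.sum_insert (by simp), hg0, zero_add] at this
  have step : ∀ (x : ℝ) (n : ℕ), 0 ≤ x → N + 5 ≤ n →
      (∀ j, n - N - 4 ≤ j → j < n → x ≤ r j) → 2 * x ≤ r n := by
    intro x n hx hn hj
    refine le_trans ?_ (h n N hn)
    calc 2 * x = 2 / c * (c * x) := by field_simp
      _ ≤ (∑ m ∈ Ioc 0 N, g m) * (c * x) := by gcongr
      _ ≤ _ := by
        rw [Finset.sum_mul]
        refine Finset.sum_le_sum fun m hm => ?_
        have := Finset.mem_Ioc.mp hm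
        have h2 := hj (n - m - 4) (by omega) (by omega)
        have := hg m
        gcongr
  obtain ⟨j0, hj0, hmin⟩ := Finset.exists_min_image (Icc 1 (N + 4)) r ⟨1, by simp⟩
  have ha : 0 < r j0 := hr j0 (Finset.mem_Icc.mp hj0).1
  have base : ∀ n, 1 ≤ n → r j0 ≤ r n := by
    intro n
    induction n using Nat.strong_induction_on with
    | _ n ih =>
      intro hn
      by_cases h1 : n ≤ N + 4
      · exact hmin n (Finset.mem_Icc.mpr ⟨hn, h1⟩)
      · have := step (r j0) n ha.le (by omega) fun j h2 h3 => ih j h3 (by omega)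
        linarith
  have all : ∀ k : ℕ, ∃ n0, 1 ≤ n0 ∧ ∀ n, n0 ≤ n → 2 ^ k * r j0 ≤ r n := by
    intro k
    induction k with
    | zero => exact ⟨1, le_rfl, by simpa using base⟩
    | succ k ih =>
      obtain ⟨n0, h0, h1⟩ := ih
      refine ⟨n0 + N + 5, by omega, fun n hn => ?_⟩
      have := step (2 ^ k * r j0) n (by positivity) (by omega) fun j h2 _ => h1 j (by omega)
      rw [pow_succ]; linarith
  obtain ⟨k, hk⟩ := pow_unbounded_of_one_lt (B / r j0) (one_lt_two : (1 : ℝ) < 2)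
  obtain ⟨n0, h0, h1⟩ := all k
  rw [div_lt_iff₀ ha] at hk
  linarith [h1 n0 le_rfl, hB n0 h0]

end Pool.Agent.MP_48a2f9_mp.OZ.B6

namespace Pool.Agent.MP_48a2f9_mp.OZ

open B6 Classical

theorem b6Stmt : B6Stmt := by
  intro D p K G K' A C ν κ B t hS h2 hκ hK' hA hle hrow hB
  obtain ⟨bL, bR, tR, err, hL, hR, herr, htR, ht⟩ := hA.rep
  have hK := hS.ker
  have hν := hS.nu
  have hC : 0 ≤ C := by
    have h1 := (hK.nonneg 0 0 0).trans (hK.decay 0 0 0)
    simpa using h1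
  have t0 : ∀ n, 1 ≤ n → ∀ u, 0 ≤ tR n u := by
    intro n
    induction n using Nat.strong_induction_on with
    | _ n ih =>
      intro hn u
      rw [htR n u hn]
      exact add_nonneg (hR.nonneg _ _) (kconv_nonneg hK' (fun m h1 h2 w => ih m h2 h1 w) u)
  have t0' : ∀ n m, 1 ≤ m → m < n → ∀ w, 0 ≤ tR m w := fun _ m h _ w => t0 m h w
  -- boundedness on the marked fibre
  have bd : ∀ n, 1 ≤ n → tR n (u0 D) ≤ B / bL 1 (u0 D) := by
    intro n hn
    obtain ⟨B', hB0, hB'⟩ := unif_bound hK' hν (b := bR) (fun n u => (hR.decay n u).trans (by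
      refine mul_le_of_le_one_right hC (Real.exp_le_one_iff.mpr ?_)
      have : (0 : ℝ) ≤ n + ‖u‖ := by positivity
      nlinarith)) htR (n + 1)
    have hs : Summable fun w => bL 1 w * tR n w := by
      refine Summable.of_nonneg_of_le (fun w => mul_nonneg (hL.nonneg _ _) (t0 n hn w))
        (fun w => ?_) ((summable_exp_norm (D := D) hν).mul_left (C * B'))
      have h1 : bL 1 w ≤ C * Real.exp (-ν * ‖w‖) := by
        refine (hL.decay 1 w).trans (mul_le_mul_of_nonneg_left (Real.exp_le_exp.mpr ?_) hC)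
        push_cast; nlinarith
      calc bL 1 w * tR n w ≤ C * Real.exp (-ν * ‖w‖) * B' :=
            mul_le_mul h1 (hB' n hn (Nat.lt_succ_self n) w) (t0 n hn w) (by positivity)
        _ = _ := by ring
    have h1 : bL 1 (u0 D) * tR n (u0 D) ≤ ∑' w, bL 1 w * tR n w :=
      hs.le_tsum _ fun w _ => mul_nonneg (hL.nonneg _ _) (t0 n hn w)
    have h3 : ∑' w, bL 1 w * tR (n + 1 - 1) w ≤
        ∑ l ∈ Ioo 0 (n + 1), ∑' w, bL l w * tR (n + 1 - l) w := by
      refine Finset.single_le_sum (f := fun l => ∑' w, bL l w * tR (n + 1 - l) w)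
        (fun l hl => tsum_nonneg fun w => ?_) (Finset.mem_Ioo.mpr ⟨by omega, by omega⟩)
      have := Finset.mem_Ioo.mp hl
      exact mul_nonneg (hL.nonneg _ _) (t0 _ (by omega) w)
    rw [Nat.add_sub_cancel] at h3
    have h4 := ht (n + 1) (by omega)
    have h5 := hB (n + 1) (by omega)
    rw [le_div_iff₀' hL.pos]
    linarith [(herr (n + 1)).1]
  have pos : ∀ n, 1 ≤ n → 0 < tR n (u0 D) := by
    intro n hn
    induction n, hn using Nat.le_induction with
    | base =>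
      rw [htR 1 _ le_rfl]
      exact add_pos_of_pos_of_nonneg hR.pos (kconv_nonneg hK' (t0' 1) _)
    | succ n hn ih =>
      rw [htR (n + 1) _ (by omega)]
      refine add_pos_of_nonneg_of_pos (hR.nonneg _ _) (lt_of_lt_of_le ?_
        (le_kconv hK' (t0' (n + 1)) (u0 D) (u0 D) one_pos (by omega)))
      exact mul_pos (hS.pos1.trans_le (hle _ _ _)) ih
  -- the excess at the row of the line
  let a : ℕ → Tr D → ℝ := kconv K tR
  have a0 : ∀ n u, 0 ≤ a n u := fun n u => kconv_nonneg hK (t0' n) u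
  have ex : ∀ n, 1 ≤ n → ∀ u, (if u = 0 then κ * a n 0 else 0) + a n u ≤ tR n u := by
    intro n hn u
    rw [htR n u hn]
    refine le_trans ?_ (le_add_of_nonneg_left (hR.nonneg _ _))
    split_ifs with hu
    · subst hu
      rw [show κ * a n 0 + a n 0 = (1 + κ) * a n 0 by ring]
      show (1 + κ) * kconv K tR n 0 ≤ _
      unfold kconv
      rw [Finset.mul_sum]
      refine Finset.sum_le_sum fun l hl => ?_
      have := Finset.mem_Ioo.mp hl
      rw [← tsum_mul_left]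
      refine ((summ hK l 0 _).mul_left _).tsum_le_tsum (fun w => ?_) (summ hK' l 0 _)
      rw [← mul_assoc]
      exact mul_le_mul_of_nonneg_right (hrow l w) (t0 _ (by omega) w)
    · rw [zero_add]
      refine Finset.sum_le_sum fun l hl => ?_
      have := Finset.mem_Ioo.mp hl
      exact (summ hK l u _).tsum_le_tsum
        (fun w => mul_le_mul_of_nonneg_right (hle l u w) (t0 _ (by omega) w)) (summ hK' l u _)
  have n1 : ‖u0 D‖ ≤ 2 := (pi_norm_le_iff_of_nonneg (by norm_num)).mpr fun i => by simp [u0]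
  have k1 : 0 < K 2 0 (u0 D) := h2 _ _ (by simpa using n1)
  have k2 : 0 < K 2 (u0 D) 0 := h2 _ _ (by simpa using n1)
  let q : ℕ → ℝ := fun n =>
    if 5 ≤ n then K 2 (u0 D) 0 * (κ * K 2 0 (u0 D)) * tR (n - 4) (u0 D) else 0
  have q0 : ∀ n, 0 ≤ q n := by
    intro n
    simp only [q]
    split_ifs with h
    · have := t0 (n - 4) (by omega) (u0 D)
      positivity
    · exact le_rfl
  have src : ∀ n, 1 ≤ n → ∀ u, (if u = u0 D then q n else 0) + kconv K a n u ≤ a n u := by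
    intro n _ u
    have h1 := kconv_mono hK (n := n) (fun m h _ w => ex m h w) u
    rw [kconv_add hK] at h1
    refine le_trans (add_le_add ?_ le_rfl) h1
    have nn : ∀ m, 1 ≤ m → m < n → ∀ w : Tr D, 0 ≤ (if w = 0 then κ * a m 0 else 0) := by
      intro m _ _ w
      split_ifs
      · exact mul_nonneg hκ.le (a0 _ _)
      · exact le_rfl
    split_ifs with hu
    · subst hu
      simp only [q]
      split_ifs with h5
      · refine le_trans ?_ (le_kconv hK nn (u0 D) 0 two_pos (by omega))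
        rw [if_pos rfl, mul_assoc, mul_assoc]
        have h6 := le_kconv hK (t0' (n - 2)) 0 (u0 D) two_pos (by omega)
        rw [show n - 2 - 2 = n - 4 by omega] at h6
        exact mul_le_mul_of_nonneg_left (mul_le_mul_of_nonneg_left h6 hκ.le) k2.le
      · exact kconv_nonneg hK nn _
    · exact kconv_nonneg hK nn _
  have g0 := green_nonneg hK hS.green (u0 D)
  refine summable_of_bdd (r := fun n => tR n (u0 D)) (c := K 2 (u0 D) 0 * (κ * K 2 0 (u0 D)))
    (by positivity) (fun m => g0 m _) ?_ pos bd fun n N hn => ?_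
  · rw [hS.green 0, hK.zero]; simp [kconv]
  · have h1 := source hK hS.green (u0 D) a q src n (by omega) (u0 D)
    have h3 := ex n (by omega) (u0 D)
    have h4 : 0 ≤ (if u0 D = 0 then κ * a n 0 else 0) := by
      split_ifs
      · exact mul_nonneg hκ.le (a0 _ _)
      · exact le_rfl
    rw [if_pos rfl] at h1
    have h5 : ∑ m ∈ Ioc 0 N, G m (u0 D) (u0 D) * q (n - m) ≤
        ∑ m ∈ Ioo 0 n, G m (u0 D) (u0 D) * q (n - m) :=
      Finset.sum_le_sum_of_subset_of_nonneg (fun m hm => by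
        simp only [Finset.mem_Ioc, Finset.mem_Ioo] at hm ⊢; omega)
        fun m _ _ => mul_nonneg (g0 m _) (q0 _)
    have h6 : ∑ m ∈ Ioc 0 N, G m (u0 D) (u0 D) *
        (K 2 (u0 D) 0 * (κ * K 2 0 (u0 D)) * tR (n - m - 4) (u0 D)) =
        ∑ m ∈ Ioc 0 N, G m (u0 D) (u0 D) * q (n - m) := by
      refine Finset.sum_congr rfl fun m hm => ?_
      have := Finset.mem_Ioc.mp hm
      simp only [q]
      rw [if_pos (by omega)]
    show ∑ m ∈ Ioc 0 N, G m (u0 D) (u0 D) *
        (K 2 (u0 D) 0 * (κ * K 2 0 (u0 D)) * tR (n - m - 4) (u0 D)) ≤ tR n (u0 D)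
    linarith [q0 n]

end Pool.Agent.MP_48a2f9_mp.OZ

end MrgPart1

-- ======== part 2: formerly Pool.Agent.MP_48a2f9_mp.FKSym
section MrgPart2

/-!
Transport of FK measures along automorphisms.
-/

open Finset

namespace Pool.Agent.MP_48a2f9_mp

noncomputable section
open Classical
set_option linter.unusedSectionVars false

namespace Gr

variable {V ι : Type*} [DecidableEq ι] {G : Gr V ι} {φ : V → V} {ψ : ι → ι} {W W' : Eqv V}

/-- `ψ` maps edges to edges compatibly with `φ`. -/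
def Compat (G : Gr V ι) (φ : V → V) (ψ : ι → ι) : Prop :=
  ∀ e, (G.s (ψ e) = φ (G.s e) ∧ G.t (ψ e) = φ (G.t e)) ∨
    (G.s (ψ e) = φ (G.t e) ∧ G.t (ψ e) = φ (G.s e))

lemma conn_image (hc : G.Compat φ ψ) (hW : ∀ x y, W' (φ x) (φ y) ↔ W x y) (ω : Finset ι) :
    ∀ x y, G.conn W' (ω.image ψ) (φ x) (φ y) ↔ G.conn W ω x y := by
  induction ω using Finset.induction_on with
  | empty => simpa using hW
  | insert e ω _ ih =>
    intro x y
    rw [image_insert, conn_insert, conn_insert, join_iff, join_iff]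
    rcases hc e with ⟨h1, h2⟩ | ⟨h1, h2⟩ <;> simp only [h1, h2, ih]
    tauto

lemma rk_image (hc : G.Compat φ ψ) (hψ : Function.Injective ψ)
    (hW : ∀ x y, W' (φ x) (φ y) ↔ W x y) (ω : Finset ι) : G.rk W' (ω.image ψ) = G.rk W ω := by
  induction ω using Finset.induction_on with
  | empty => simp
  | insert e ω he ih =>
    have : ψ e ∉ ω.image ψ := by rwa [hψ.mem_finset_image]
    rw [image_insert, rk_insert _ he, rk_insert _ this, ih]
    congr 2
    rcases hc e with ⟨h1, h2⟩ | ⟨h1, h2⟩ <;> rw [h1, h2, conn_image hc hW]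
    exact propext (Eqv.comm _)

lemma ex_image (hc : G.Compat φ ψ) (hψ : Function.Injective ψ)
    (hW : ∀ x y, W' (φ x) (φ y) ↔ W x y) {v v' : ι → ℝ} {E : Finset ι}
    (hv : ∀ e ∈ E, v' (ψ e) = v e) (f : Finset ι → ℝ) :
    G.ex v' W' (E.image ψ) f = G.ex v W E fun ω => f (ω.image ψ) := by
  have key : ∀ f : Finset ι → ℝ, G.sm v' W' (E.image ψ) f = G.sm v W E fun ω => f (ω.image ψ) := by
    intro f
    unfold sm
    rw [powerset_image, sum_image fun a _ b _ h => image_injective hψ h]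
    refine sum_congr rfl fun ω hω => ?_
    unfold wt
    rw [rk_image hc hψ hW, prod_image fun a _ b _ h => hψ h,
      prod_congr rfl fun e he => hv e (mem_powerset.1 hω he)]
  unfold ex
  rw [key, ← sm_one, ← sm_one, key]

end Gr

variable {D q : ℕ}

lemma lat_compat (g : Site D → Site D) : (lat D q).Compat g (Sym2.map g) := by
  intro e
  apply Sym2.eq_iff.1
  rw [lat_mk]
  conv_lhs => rw [← lat_mk (q := q) e, Sym2.map_mk]

section aut
variable {g : Site D ≃ Site D}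

lemma sym2_map_inj (g : Site D ≃ Site D) : Function.Injective (Sym2.map g) :=
  Sym2.map.injective g.injective

lemma lat_conn_image (g : Site D ≃ Site D) (ω : Finset (Sym2 (Site D))) (x y : Site D) :
    (lat D q).conn free (ω.image (Sym2.map g)) (g x) (g y) ↔ (lat D q).conn free ω x y :=
  Gr.conn_image (lat_compat g) (fun _ _ => by simp) ω x y

lemma isEdge_map (hg : ∀ x y, Adj (g x) (g y) ↔ Adj x y) {e : Sym2 (Site D)} :
    IsEdge (e.map g) ↔ IsEdge e := by
  induction e using Sym2.ind with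
  | h x y => rw [Sym2.map_mk, isEdge_mk, isEdge_mk, hg]

lemma exists_map (g : Site D ≃ Site D) (e : Sym2 (Site D)) : ∃ e', Sym2.map g e' = e :=
  ⟨e.map g.symm, by rw [Sym2.map_map]; simp⟩

lemma edgesOf_image (hg : ∀ x y, Adj (g x) (g y) ↔ Adj x y) (Λ : Finset (Site D)) :
    edgesOf (Λ.image g) = (edgesOf Λ).image (Sym2.map g) := by
  refine Finset.ext fun e => ?_
  obtain ⟨e, rfl⟩ := exists_map g e
  rw [(sym2_map_inj g).mem_finset_image, mem_edgesOf, mem_edgesOf, isEdge_map hg]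
  refine and_congr Iff.rfl ⟨?_, ?_⟩
  · rintro ⟨x, hx, h⟩
    obtain ⟨y, hy, rfl⟩ := Sym2.mem_map.1 hx
    exact ⟨y, hy, g.injective.mem_finset_image.1 h⟩
  · rintro ⟨x, hx, h⟩
    exact ⟨g x, Sym2.mem_map.2 ⟨x, hx, rfl⟩, mem_image_of_mem _ h⟩

lemma edgesIn_image (hg : ∀ x y, Adj (g x) (g y) ↔ Adj x y) (Λ : Finset (Site D)) :
    edgesIn (Λ.image g) = (edgesIn Λ).image (Sym2.map g) := by
  refine Finset.ext fun e => ?_
  obtain ⟨e, rfl⟩ := exists_map g e
  rw [(sym2_map_inj g).mem_finset_image, mem_edgesIn, mem_edgesIn, isEdge_map hg]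
  refine and_congr Iff.rfl ⟨?_, ?_⟩
  · intro h x hx
    exact g.injective.mem_finset_image.1 (h _ (Sym2.mem_map.2 ⟨x, hx, rfl⟩))
  · intro h x hx
    obtain ⟨y, hy, rfl⟩ := Sym2.mem_map.1 hx
    exact mem_image_of_mem _ (h y hy)

lemma ex_free_image (hg : ∀ x y, Adj (g x) (g y) ↔ Adj x y) {v v' : Sym2 (Site D) → ℝ}
    (hv : ∀ e, IsEdge e → v' (e.map g) = v e) (Λ : Finset (Site D))
    (f : Finset (Sym2 (Site D)) → ℝ) :
    (lat D q).ex v' free (edgesIn (Λ.image g)) f =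
      (lat D q).ex v free (edgesIn Λ) fun ω => f (ω.image (Sym2.map g)) := by
  rw [edgesIn_image hg]
  exact Gr.ex_image (lat_compat g) (sym2_map_inj g) (fun _ _ => by simp)
    (fun e he => hv e (mem_edgesIn.1 he).1) f

lemma prW_image (hg : ∀ x y, Adj (g x) (g y) ↔ Adj x y) {v v' : Sym2 (Site D) → ℝ}
    (hv : ∀ e, IsEdge e → v' (e.map g) = v e) (Λ : Finset (Site D))
    (A : Finset (Sym2 (Site D)) → Prop) :
    prW q v' (Λ.image g) A = prW q v Λ fun ω => A (ω.image (Sym2.map g)) := by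
  unfold prW Gr.pr
  rw [edgesOf_image hg]
  refine Gr.ex_image (lat_compat g) (sym2_map_inj g) (fun x y => ?_)
    (fun e he => hv e (mem_edgesOf.1 he).1) _
  simp [wire_iff]

lemma exits_image (g : Site D ≃ Site D) (Λ : Finset (Site D)) (x : Site D)
    (ω : Finset (Sym2 (Site D))) :
    Exits q (Λ.image g) (g x) (ω.image (Sym2.map g)) ↔ Exits q Λ x ω := by
  constructor
  · rintro ⟨y, hy, h⟩
    obtain ⟨y, rfl⟩ := g.surjective y
    exact ⟨y, fun k => hy (mem_image_of_mem _ k), (lat_conn_image g ω x y).1 h⟩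
  · rintro ⟨y, hy, h⟩
    exact ⟨g y, fun k => hy (g.injective.mem_finset_image.1 k), (lat_conn_image g ω x y).2 h⟩

end aut

lemma adj_addRight (z x y : Site D) : Adj (Equiv.addRight z x) (Equiv.addRight z y) ↔ Adj x y := by
  simp [Adj]

lemma box_image_addRight (z x : Site D) (r : ℕ) :
    (box x r).image (Equiv.addRight z) = box (x + z) r := by
  ext y
  obtain ⟨y, rfl⟩ := (Equiv.addRight z).surjective y
  rw [(Equiv.addRight z).injective.mem_finset_image, mem_box, mem_box]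
  simp

end

end Pool.Agent.MP_48a2f9_mp

end MrgPart2

-- ======== part 3: formerly Pool.Agent.MP_48a2f9_mp.FKIso
section MrgPart3

/-!
Isolating a finite set of vertices; a few path lemmas.
-/

open Finset

namespace Pool.Agent.MP_48a2f9_mp

noncomputable section
open Classical
set_option linter.unusedSectionVars false

namespace Gr

variable {V ι : Type*} [DecidableEq ι] {G : Gr V ι} {v : ι → ℝ} {W : Eqv V} {E F : Finset ι}

lemma pr_closed_ge (hv : ∀ e, 0 ≤ v e) (hF : F ⊆ E) :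
    (∏ e ∈ F, (1 + v e))⁻¹ ≤ G.pr v W E fun ω => ω ∩ F = ∅ := by
  have := finite_energy (G := G) (W := W) hv hF (empty_subset F) (g := fun _ => 1)
    fun _ _ => zero_le_one
  simp only [prod_empty, one_mul, ex_const hv, mul_one] at this
  exact this

lemma conn_touch_of_mem {K : Set V} {ω : Finset ι} (hω : ω ⊆ E) {x y : V}
    (hx : x ∈ G.clus W K ω) (h : G.conn W ω x y) :
    G.conn W (ω ∩ G.touch E (G.clus W K ω)) x y := by
  have := conn_invariant (P := fun z => z ∈ G.clus W K ω ∧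
      G.conn W (ω ∩ G.touch E (G.clus W K ω)) x z)
    (fun a b h1 h2 => ⟨clus_conn h2.1 (le_conn W ω h1), Eqv.trans' _ h2.2 (le_conn W _ h1)⟩)
    (fun e he => ⟨fun l => ⟨(clus_edge he).1 l.1, Eqv.trans' _ l.2
        (conn_edge W (mem_inter.2 ⟨he, mem_touch.2 ⟨hω he, Or.inl l.1⟩⟩))⟩,
      fun l => ⟨(clus_edge he).2 l.1, Eqv.trans' _ l.2 (Eqv.symm' _
        (conn_edge W (mem_inter.2 ⟨he, mem_touch.2 ⟨hω he, Or.inr l.1⟩⟩)))⟩⟩) h
    ⟨hx, Eqv.refl' _ _⟩
  exact this.2

end Gr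

variable {D q : ℕ}

/-- No open edge has an endpoint in `A`. -/
def Iso (A : Finset (Site D)) (ω : Finset (Sym2 (Site D))) : Prop := ∀ e ∈ ω, ∀ x ∈ e, x ∉ A

lemma decr_iso (E : Finset (Sym2 (Site D))) (A : Finset (Site D)) : Gr.Decr E (Iso A) :=
  fun _ _ k _ h e he => h e (k he)

lemma iso_iff {E ω : Finset (Sym2 (Site D))} (hE : ∀ e ∈ E, IsEdge e) (hω : ω ⊆ E)
    {A : Finset (Site D)} : Iso A ω ↔ ω ∩ (E ∩ edgesOf A) = ∅ := by
  rw [eq_empty_iff_forall_notMem]
  simp only [Finset.mem_inter, mem_edgesOf, not_and, not_exists]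
  exact ⟨fun h e he _ _ x hx => h e he x hx, fun h e he x hx => h e he (hω he) (hE e (hω he)) x hx⟩

lemma Iso.eq_of_conn {A : Finset (Site D)} {ω : Finset (Sym2 (Site D))} (h : Iso A ω) {x y : Site D}
    (hx : x ∈ A) (k : (lat D q).conn free ω x y) : y = x :=
  conn_free_induction (P := fun z => z = x) rfl
    (fun a _ _ ha hab => absurd (ha ▸ hx) (h _ hab a (Sym2.mem_mk_left _ _))) k

lemma pr_iso_ge {β J : ℝ} (hβ : 0 ≤ β) (hJ : 0 ≤ J) {E : Finset (Sym2 (Site D))}
    (hE : ∀ e ∈ E, IsEdge e) (W : Eqv (Site D)) (A : Finset (Site D)) :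
    Real.exp (-(β * max J 1 * 3 ^ (D + 1))) ^ A.card ≤ (lat D q).pr (vJ β J) W E (Iso A) := by
  rw [Gr.pr_congr fun ω hω => iso_iff hE hω]
  refine le_trans ?_ (Gr.pr_closed_ge (vJ_nonneg hβ hJ) inter_subset_left)
  have h0 : 0 ≤ β * max J 1 := mul_nonneg hβ (le_max_of_le_right zero_le_one)
  have h1 : ∏ e ∈ E ∩ edgesOf A, (1 + vJ β J e) ≤ Real.exp (β * max J 1) ^ (E ∩ edgesOf A).card := by
    rw [← prod_const]
    refine prod_le_prod (fun e _ => by linarith [vJ_nonneg hβ hJ e]) fun e _ => ?_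
    rw [vJ, add_sub_cancel, Real.exp_le_exp]
    exact mul_le_mul_of_nonneg_left (edgeJ_le_max J e) hβ
  have h2 : (E ∩ edgesOf A).card ≤ 3 ^ (D + 1) * A.card :=
    (card_le_card inter_subset_right).trans (card_edgesOf_le A)
  have h3 := h1.trans (pow_le_pow_right₀ (Real.one_le_exp h0) h2)
  refine le_trans (le_of_eq ?_) (inv_anti₀ (prod_pos fun e _ => by linarith [vJ_nonneg hβ hJ e]) h3)
  rw [← Real.exp_nat_mul, ← Real.exp_nat_mul, ← Real.exp_neg]
  congr 1
  push_cast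
  ring

/-- Discrete intermediate values along an open path. -/
lemma conn_ivt {ω : Finset (Sym2 (Site D))} (hω : ∀ e ∈ ω, IsEdge e) {h : Site D → ℤ}
    (hh : ∀ a b, nrm (b - a) ≤ 1 → h b ≤ h a + 1) {x y : Site D} {k : ℤ} (hx : h x ≤ k)
    (hy : k ≤ h y) (hc : (lat D q).conn free ω x y) :
    ∃ z, h z = k ∧ (lat D q).conn free ω x z := by
  by_contra hn
  push Not at hn
  have := conn_free_induction (P := fun z => h z < k) (lt_of_le_of_ne hx fun l => hn x l
    (Eqv.refl' _ _)) (fun a b ha hk hab => by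
      have h1 := hh a b ((hω _ hab).nrm_le (Sym2.mem_mk_left a b) (Sym2.mem_mk_right a b))
      exact lt_of_le_of_ne (by omega) fun l => hn b l (Eqv.trans' _ ha (lat_conn_edge _ hab))) hc
  omega

/-- Crossing of a level along an open path. -/
lemma conn_cross {ω : Finset (Sym2 (Site D))} {P : Site D → Prop} {x y : Site D} (hx : P x)
    (hy : ¬ P y) (hc : (lat D q).conn free ω x y) :
    ∃ a b, P a ∧ ¬ P b ∧ s(a, b) ∈ ω ∧ (lat D q).conn free ω x a := by
  by_contra hn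
  push Not at hn
  exact hy (conn_free_induction (P := P) hx
    (fun a b ha hk hab => by_contra fun l => hn a b hk l hab ha) hc)

end

end Pool.Agent.MP_48a2f9_mp

end MrgPart3

-- ======== part 4: formerly Pool.Agent.MP_48a2f9_mp.FKPsi
section MrgPart4

/-!
The isolation probabilities `Ψ` and their properties.
-/

open Finset Filter Topology

namespace Pool.Agent.MP_48a2f9_mp

noncomputable section
open Classical

variable {D q : ℕ}

/-- The edges inside `S ∩ Λ`. -/
def eS (S : Set (Site D)) (Λ : Finset (Site D)) : Finset (Sym2 (Site D)) :=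
  edgesIn (Λ.filter fun x => x ∈ S)

lemma mem_eS {S : Set (Site D)} {Λ : Finset (Site D)} {e : Sym2 (Site D)} :
    e ∈ eS S Λ ↔ IsEdge e ∧ ∀ x ∈ e, x ∈ Λ ∧ x ∈ S := by
  simp only [eS, mem_edgesIn, mem_filter]

lemma eS_edge {S : Set (Site D)} {Λ : Finset (Site D)} : ∀ e ∈ eS S Λ, IsEdge e :=
  fun _ he => (mem_eS.1 he).1

lemma eS_mono {S S' : Set (Site D)} {Λ Λ' : Finset (Site D)} (h : S ⊆ S') (k : Λ ⊆ Λ') :
    eS S Λ ⊆ eS S' Λ' := fun _ he =>
  mem_eS.2 ⟨(mem_eS.1 he).1, fun x hx => ((mem_eS.1 he).2 x hx).imp (@k _) (@h _)⟩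

lemma eS_univ (Λ : Finset (Site D)) : eS Set.univ Λ = edgesIn Λ := by simp [eS]

lemma eS_sdiff (S : Set (Site D)) (Λ A : Finset (Site D)) :
    eS S Λ \ (eS S Λ ∩ edgesOf A) = eS (S \ ↑A) Λ := by
  refine Finset.ext fun e => ?_
  rw [Finset.mem_sdiff, Finset.mem_inter, mem_edgesOf, mem_eS, mem_eS]
  constructor
  · rintro ⟨h1, h2⟩
    exact ⟨h1.1, fun x hx => ⟨(h1.2 x hx).1, (h1.2 x hx).2, fun k => h2 ⟨h1, h1.1, x, hx, k⟩⟩⟩
  · rintro ⟨h1, h2⟩
    exact ⟨⟨h1, fun x hx => ⟨(h2 x hx).1, (h2 x hx).2.1⟩⟩,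
      fun ⟨_, _, x, hx, k⟩ => (h2 x hx).2.2 k⟩

/-- The probability that `A` is isolated, in finite volume. -/
def piF (q : ℕ) (β J : ℝ) (S : Set (Site D)) (A Λ : Finset (Site D)) : ℝ :=
  (lat D q).pr (vJ β J) free (eS S Λ) (Iso A)

/-- The probability that `A` is isolated in the free measure on `S`. -/
def piI (q : ℕ) (β J : ℝ) (S : Set (Site D)) (A : Finset (Site D)) : ℝ := ⨅ Λ, piF q β J S A Λ

/-- The function `Ψ` of the interface. -/
def Psi (q : ℕ) (β J : ℝ) (S : Set (Site D)) (A : Finset (Site D)) : ℝ :=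
  (q : ℝ)⁻¹ ^ A.card * piI q β J S A

variable {β J : ℝ} {S S' : Set (Site D)} {A B Λ : Finset (Site D)}

lemma piF_eq (S : Set (Site D)) (A Λ : Finset (Site D)) : piF q β J S A Λ =
    (lat D q).Z (vJ β J) free (eS (S \ ↑A) Λ) / (lat D q).Z (vJ β J) free (eS S Λ) := by
  rw [piF, Gr.pr_congr fun ω hω => iso_iff eS_edge hω, Gr.pr_closed_eq inter_subset_left, eS_sdiff]

lemma piF_le {J' : ℝ} (hβ : 0 ≤ β) (hJ : 0 ≤ J) (hJJ : J ≤ J') (hS : S ⊆ S')
    {Λ' : Finset (Site D)} (h : Λ ⊆ Λ') : piF q β J' S' A Λ' ≤ piF q β J S A Λ :=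
  Gr.pr_holley_decr (vJ_nonneg hβ hJ) (vJ_nonneg hβ (hJ.trans hJJ)) le_rfl (eS_mono hS h)
    (fun e _ => vJ_mono hβ le_rfl hJ hJJ e) (decr_iso _ A)

lemma tendsto_piF (hβ : 0 ≤ β) (hJ : 0 ≤ J) (S : Set (Site D)) (A : Finset (Site D)) :
    Tendsto (piF q β J S A) atTop (𝓝 (piI q β J S A)) :=
  tendsto_atTop_ciInf (fun _ _ h => piF_le hβ hJ le_rfl subset_rfl h)
    ⟨0, by rintro _ ⟨Λ, rfl⟩; exact Gr.pr_nonneg (vJ_nonneg hβ hJ)⟩

lemma piI_le {J' : ℝ} (hβ : 0 ≤ β) (hJ : 0 ≤ J) (hJJ : J ≤ J') (hS : S ⊆ S') :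
    piI q β J' S' A ≤ piI q β J S A :=
  le_of_tendsto_of_tendsto' (tendsto_piF hβ (hJ.trans hJJ) S' A) (tendsto_piF hβ hJ S A)
    fun _ => piF_le hβ hJ hJJ hS subset_rfl

lemma piI_le_one (hβ : 0 ≤ β) (hJ : 0 ≤ J) : piI q β J S A ≤ 1 :=
  le_of_tendsto' (tendsto_piF hβ hJ S A) fun _ => Gr.pr_le_one (vJ_nonneg hβ hJ)

lemma piI_ge (hβ : 0 ≤ β) (hJ : 0 ≤ J) :
    Real.exp (-(β * max J 1 * 3 ^ (D + 1))) ^ A.card ≤ piI q β J S A :=
  ge_of_tendsto' (tendsto_piF hβ hJ S A) fun _ => pr_iso_ge hβ hJ eS_edge free A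

lemma piI_nonneg (hβ : 0 ≤ β) (hJ : 0 ≤ J) : 0 ≤ piI q β J S A :=
  le_trans (by positivity) (piI_ge hβ hJ)

lemma piI_union (hβ : 0 ≤ β) (hJ : 0 ≤ J) (S : Set (Site D)) (A B : Finset (Site D)) :
    piI q β J S (A ∪ B) = piI q β J S A * piI q β J (S \ ↑A) B := by
  refine tendsto_nhds_unique (tendsto_piF hβ hJ S (A ∪ B))
    (((tendsto_piF hβ hJ S A).mul (tendsto_piF hβ hJ (S \ ↑A) B)).congr fun Λ => ?_)
  rw [piF_eq, piF_eq, piF_eq, coe_union, ← Set.sdiff_sdiff]
  have h1 := (Gr.Z_pos (G := lat D q) (vJ_nonneg hβ hJ) free (eS (S \ ↑A) Λ)).ne'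
  field_simp

lemma piI_off_line {J' : ℝ} (h : ∀ v ∈ S, v.2 ≠ 0) : piI q β J S A = piI q β J' S A := by
  unfold piI
  congr 1
  funext Λ
  refine Gr.ex_congr_v (fun e he => ?_) _ _
  have : ¬ ∀ x ∈ e, x.2 = 0 := fun k =>
    h _ ((mem_eS.1 he).2 _ (Sym2.out_fst_mem e)).2 (k _ (Sym2.out_fst_mem e))
  simp only [vJ, edgeJ, if_neg this]

lemma piI_image {g : Site D ≃ Site D} (hg : ∀ x y, Adj (g x) (g y) ↔ Adj x y)
    (hJ : ∀ x y, Adj x y → edgeJ J s(g x, g y) = edgeJ J s(x, y)) (S : Set (Site D))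
    (A : Finset (Site D)) : piI q β J (g '' S) (A.image g) = piI q β J S A := by
  have hs : Function.Surjective fun Λ : Finset (Site D) => Λ.image g := fun Λ =>
    ⟨Λ.image g.symm, by simp [image_image]⟩
  unfold piI
  rw [← hs.iInf_comp]
  congr 1
  funext Λ
  have e1 : ((Λ.image g).filter fun x => x ∈ g '' S) = (Λ.filter fun x => x ∈ S).image g := by
    ext x
    obtain ⟨x, rfl⟩ := g.surjective x
    simp only [mem_filter, g.injective.mem_finset_image, g.injective.mem_set_image]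
  simp only [piF, eS, e1, Gr.pr]
  rw [ex_free_image hg (v := vJ β J) (by
    rintro _ ⟨x, y, h, rfl⟩
    rw [Sym2.map_mk, vJ, vJ, hJ x y h])]
  refine Gr.ex_congr fun ω _ => ind_congr ⟨fun h e he x hx k => ?_, fun h e he x hx k => ?_⟩
  · exact h _ (mem_image_of_mem _ he) (g x) (Sym2.mem_map.2 ⟨x, hx, rfl⟩) (mem_image_of_mem _ k)
  · obtain ⟨e, he', rfl⟩ := mem_image.1 he
    obtain ⟨x, hx', rfl⟩ := Sym2.mem_map.1 hx
    exact h e he' x hx' (g.injective.mem_finset_image.1 k)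

lemma exp_le_of_bounds {c₀ x p : ℝ} (hc : 0 < c₀) (hx : 0 ≤ x) (h1 : c₀ ≤ p) (h2 : 1 - x ≤ p) :
    Real.exp (-(2 * max 1 (-Real.log c₀) * x)) ≤ p := by
  rcases le_total x (1 / 2) with h | h
  · refine le_trans ?_ h2
    have h3 : Real.exp (-(2 * max 1 (-Real.log c₀) * x)) ≤ Real.exp (-(2 * x)) :=
      Real.exp_le_exp.2 (by nlinarith [le_max_left 1 (-Real.log c₀)])
    refine h3.trans ?_
    rw [Real.exp_neg, inv_le_iff_one_le_mul₀ (Real.exp_pos _)]
    nlinarith [Real.add_one_le_exp (2 * x)]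
  · refine le_trans ?_ h1
    conv_rhs => rw [← Real.exp_log hc]
    refine Real.exp_le_exp.2 ?_
    nlinarith [le_max_left 1 (-Real.log c₀), le_max_right 1 (-Real.log c₀)]

/-- Comparison of the volumes `S' ⊆ S`: the price is the probability that `A` is not joined to
`S \ S'`. -/
lemma piF_mix (hβ : 0 ≤ β) (hJ : 0 ≤ J) :
    piF q β J S' A Λ * (lat D q).pr (vJ β J) free (eS S Λ)
      (fun ω => ∀ v ∈ A, v ∉ (lat D q).clus free (S \ S') ω) ≤ piF q β J S A Λ := by
  have hv := vJ_nonneg (D := D) hβ hJ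
  conv_rhs => rw [piF, Gr.pr, Gr.ex_clus hv (S \ S')]
  rw [Gr.pr, ← Gr.ex_const_mul]
  refine Gr.ex_mono hv fun ω hω => ?_
  by_cases h : ∀ v ∈ A, v ∉ (lat D q).clus free (S \ S') ω
  · rw [ind_pos h, mul_one]
    have h1 : eS S Λ \ (lat D q).touch (eS S Λ) ((lat D q).clus free (S \ S') ω) ⊆ eS S' Λ := by
      intro e he
      obtain ⟨h2, h3⟩ := mem_sdiff.1 he
      refine mem_eS.2 ⟨eS_edge e h2, fun x hx => ⟨((mem_eS.1 h2).2 x hx).1, by_contra fun k => ?_⟩⟩
      exact h3 (lat_mem_touch.2 ⟨h2, x, hx, Gr.subset_clus _ _ _ ⟨((mem_eS.1 h2).2 x hx).2, k⟩⟩)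
    refine le_trans (Gr.pr_holley_decr hv hv le_rfl h1 (fun _ _ => le_rfl) (decr_iso _ A))
      (Gr.ex_mono hv fun η _ => ind_mono fun k e he x hx => ?_)
    rcases mem_union.1 he with he | he
    · obtain ⟨h2, h3⟩ := mem_inter.1 he
      obtain ⟨-, y, hy, h4⟩ := lat_mem_touch.1 h3
      exact fun l => h x l (Gr.clus_conn h4 (lat_conn_of_mem free h2 hy hx))
    · exact k e he x hx
  · rw [ind_neg h, mul_zero]
    exact Gr.ex_nonneg hv fun _ _ => ind_nonneg _

lemma piI_mix (hβ : 0 ≤ β) (hJ : 0 ≤ J) (hW : WiredDecay D q β J) : ∃ C c : ℝ, 0 ≤ C ∧ 0 < c ∧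
    ∀ (S S' : Set (Site D)) (A : Finset (Site D)) (δ : Site D → ℝ),
      (↑A : Set (Site D)) ⊆ S' → (∀ v ∈ A, ∀ u ∈ S, u ∉ S' → δ v ≤ ‖u - v‖) →
      piI q β J S' A ≤ piI q β J S A * Real.exp (C * ∑ v ∈ A, Real.exp (-c * δ v)) := by
  obtain ⟨C, c, hc, hd⟩ := hW
  have hv := vJ_nonneg (D := D) hβ hJ
  set c₀ := Real.exp (-(β * max J 1 * 3 ^ (D + 1))) with hc₀
  set a := 2 * max 1 (-Real.log c₀) with ha
  have ha0 : 0 ≤ a := mul_nonneg zero_le_two (le_max_of_le_left zero_le_one)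
  set C' := max |C| 1 * Real.exp c with hC'
  have hC0 : 0 ≤ C' := by positivity
  refine ⟨a * C', c, mul_nonneg ha0 hC0, hc, fun S S' A δ hA hδ => ?_⟩
  refine le_of_tendsto_of_tendsto' (tendsto_piF hβ hJ S' A)
    ((tendsto_piF hβ hJ S A).mul_const _) fun Λ => ?_
  have one : ∀ v ∈ A, Real.exp (-(a * (C' * Real.exp (-c * δ v)))) ≤
      (lat D q).pr (vJ β J) free (eS S Λ) fun ω => v ∉ (lat D q).clus free (S \ S') ω := by
    intro v hvA
    refine exp_le_of_bounds (Real.exp_pos _) (by positivity) ?_ ?_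
    · have := pr_iso_ge (q := q) hβ hJ (eS_edge (S := S) (Λ := Λ)) free {v}
      rw [card_singleton, pow_one] at this
      refine this.trans (Gr.pr_mono hv ?_)
      rintro ω _ h ⟨u, hu, k⟩
      rw [h.eq_of_conn (mem_singleton_self v) (Eqv.symm' _ k)] at hu
      exact hu.2 (hA hvA)
    · rw [Gr.pr_not hv, sub_le_sub_iff_left]
      rcases le_or_gt (δ v) 1 with h | h
      · refine (Gr.pr_le_one hv).trans ?_
        rw [hC', mul_assoc, ← Real.exp_add]
        exact one_le_mul_of_one_le_of_one_le (le_max_right _ _) (Real.one_le_exp (by nlinarith))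
      · obtain ⟨r, hr⟩ : ∃ r, ⌈δ v⌉₊ = r + 1 :=
          Nat.exists_eq_succ_of_ne_zero (Nat.ceil_pos.2 (by linarith)).ne'
        have h1 : δ v ≤ r + 1 := by have := Nat.le_ceil (δ v); rw [hr] at this; exact_mod_cast this
        refine le_trans (Gr.pr_mono hv ?_) ((pr_exits_le hβ hJ eS_edge (free_le _) v).trans
          ((hd J hJ le_rfl v r).trans ?_))
        · rintro ω _ ⟨u, hu, k⟩
          refine ⟨u, fun l => ?_, Eqv.symm' _ k⟩
          have h2 := hδ v hvA u hu.1 hu.2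
          rw [← nrm_cast, ← Nat.ceil_le, hr] at h2
          have := mem_box.1 l
          omega
        · rw [hC', mul_assoc, ← Real.exp_add]
          exact mul_le_mul ((le_abs_self C).trans (le_max_left _ _))
            (Real.exp_le_exp.2 (by nlinarith)) (Real.exp_pos _).le (by positivity)
  have all := (prod_le_prod (fun v _ => (Real.exp_pos _).le) one).trans
    (Gr.pr_fkg_prod_decr hv A fun v _ a b k _ h l => h (Gr.clus_mono le_rfl subset_rfl k l))
  rw [← Real.exp_sum, sum_neg_distrib, ← mul_sum, ← mul_sum, ← mul_assoc, Real.exp_neg] at all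
  have h2 := (mul_le_mul_of_nonneg_left all (Gr.pr_nonneg hv)).trans
    (piF_mix (q := q) (S := S) (S' := S') (A := A) (Λ := Λ) hβ hJ)
  rwa [← div_eq_mul_inv, div_le_iff₀ (Real.exp_pos _)] at h2

end

end Pool.Agent.MP_48a2f9_mp

end MrgPart4

-- ======== part 5: formerly Pool.Agent.MP_48a2f9_mp.MG0
section MrgPart5

/-!
Module MG0: the probability that a cluster spans `a + b` levels.
-/

open MeasureTheory Filter Topology
open scoped ENNReal

namespace Pool.Agent.MP_48a2f9_mp.OZ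

noncomputable section
open Classical

namespace MG03

variable {D : ℕ}

lemma mem_verts {x v : Site D} {E : Finset (Ed D)} :
    v ∈ verts x E ↔ v = x ∨ ∃ e ∈ E, v ∈ e := by
  simp [verts, Finset.mem_insert, Finset.mem_biUnion, Sym2.mem_toFinset]

lemma self_mem_verts (x : Site D) (E : Finset (Ed D)) : x ∈ verts x E :=
  mem_verts.2 (Or.inl rfl)

lemma conn_symm {E : Finset (Ed D)} {a b : Site D} (h : Conn E a b) : Conn E b a := by
  unfold Conn at *
  induction h with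
  | refl => exact Relation.ReflTransGen.refl
  | tail _ hbc ih =>
    refine Relation.ReflTransGen.head ?_ ih
    rwa [Sym2.eq_swap]

lemma conn_trans {E : Finset (Ed D)} {a b c : Site D} (h : Conn E a b) (h' : Conn E b c) :
    Conn E a c := Relation.ReflTransGen.trans h h'

lemma mem_verts_of_conn {E : Finset (Ed D)} {x y : Site D} (h : Conn E x y) :
    y ∈ verts x E := by
  unfold Conn at h
  induction h with
  | refl => exact self_mem_verts _ _
  | tail _ hbc _ => exact mem_verts.2 (Or.inr ⟨_, hbc, Sym2.mem_mk_right _ _⟩)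

lemma verts_reroot {E : Finset (Ed D)} {x u : Site D} (h : IsClu x E) (hu : u ∈ verts x E) :
    verts u E = verts x E := by
  have hx : x ∈ verts u E := mem_verts_of_conn (conn_symm (h.2 u hu))
  ext v
  constructor
  · intro hv
    rcases mem_verts.1 hv with rfl | hv
    · exact hu
    · exact mem_verts.2 (Or.inr hv)
  · intro hv
    rcases mem_verts.1 hv with rfl | hv
    · exact hx
    · exact mem_verts.2 (Or.inr hv)

lemma isClu_reroot {E : Finset (Ed D)} {x u : Site D} (h : IsClu x E) (hu : u ∈ verts x E) :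
    IsClu u E := by
  refine ⟨h.1, fun v hv => ?_⟩
  rw [verts_reroot h hu] at hv
  exact conn_trans (conn_symm (h.2 u hu)) (h.2 v hv)

lemma wt_reroot (M : Model D) (J : ℝ) (S : Set (Site D)) {E : Finset (Ed D)} {x u : Site D}
    (h : IsClu x E) (hu : u ∈ verts x E) : M.wt J S u E = M.wt J S x E := by
  have h' := isClu_reroot h hu
  simp only [Model.wt, Model.wtR, verts_reroot h hu, h, h']

lemma wt_eq_zero (M : Model D) (J : ℝ) (S : Set (Site D)) {E : Finset (Ed D)} {x : Site D}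
    (h : ¬ IsClu x E) : M.wt J S x E = 0 := by
  simp [Model.wt, h]

lemma adj_of_edge {a b : Site D} (h : IsEdge s(a, b)) : Adj a b := by
  obtain ⟨x, y, hxy, he⟩ := h
  rcases Sym2.eq_iff.1 he with ⟨rfl, rfl⟩ | ⟨rfl, rfl⟩
  · exact hxy
  · unfold Adj at *
    rw [abs_sub_comm]
    simpa only [abs_sub_comm (a.2 _)] using hxy

lemma adj_fst {a b : Site D} (h : Adj a b) : |a.1 - b.1| ≤ 1 := by
  unfold Adj at h
  have : 0 ≤ ∑ k, |a.2 k - b.2 k| := Finset.sum_nonneg fun _ _ => abs_nonneg _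
  omega

lemma adj_snd {a b : Site D} (h : Adj a b) (k : Fin D) : |a.2 k - b.2 k| ≤ 1 := by
  unfold Adj at h
  have h1 : |a.2 k - b.2 k| ≤ ∑ k, |a.2 k - b.2 k| :=
    Finset.single_le_sum (f := fun k => |a.2 k - b.2 k|) (fun _ _ => abs_nonneg _)
      (Finset.mem_univ k)
  have := abs_nonneg (a.1 - b.1)
  omega

/-- Discrete intermediate values along a connection. -/
lemma ivt {E : Finset (Ed D)} (hE : ∀ e ∈ E, IsEdge e) (f : Site D → ℤ)
    (hf : ∀ a b, Adj a b → |f a - f b| ≤ 1) {x y : Site D} (h : Conn E x y) {t : ℤ}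
    (h1 : f x ≤ t) (h2 : t ≤ f y) : ∃ v ∈ verts x E, f v = t := by
  unfold Conn at h
  induction h with
  | refl => exact ⟨x, self_mem_verts _ _, le_antisymm h1 h2⟩
  | @tail b c hab hbc ih =>
    by_cases hb : t ≤ f b
    · exact ih hb
    · have := hf b c (adj_of_edge (hE _ hbc))
      have h3 := abs_le.1 this
      exact ⟨c, mem_verts.2 (Or.inr ⟨_, hbc, Sym2.mem_mk_right _ _⟩), by omega⟩

lemma le_card {E : Finset (Ed D)} {x y : Site D} (h : IsClu x E) (f : Site D → ℤ)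
    (hf : ∀ a b, Adj a b → |f a - f b| ≤ 1) (hy : y ∈ verts x E) :
    f y - f x ≤ (verts x E).card := by
  have hsub : Finset.Icc (f x) (f y) ⊆ (verts x E).image f := by
    intro t ht
    rw [Finset.mem_Icc] at ht
    obtain ⟨v, hv, rfl⟩ := ivt h.1 f hf (h.2 y hy) ht.1 ht.2
    exact Finset.mem_image_of_mem f hv
  have h1 := (Finset.card_le_card hsub).trans Finset.card_image_le
  rw [Int.card_Icc] at h1
  omega

lemma abs_snd_le_card {E : Finset (Ed D)} {x y : Site D} (h : IsClu x E) (hy : y ∈ verts x E)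
    (k : Fin D) : |y.2 k - x.2 k| ≤ (verts x E).card := by
  have h1 := le_card h (fun v => v.2 k) (fun a b hab => adj_snd hab k) hy
  have h2 := le_card h (fun v => -v.2 k) (fun a b hab => by
    have := adj_snd hab k
    rwa [show -a.2 k - -b.2 k = -(a.2 k - b.2 k) by ring, abs_neg]) hy
  rw [abs_le]
  constructor <;> omega

/-- The sites at level `t` within lateral distance `N` of `x`. -/
def sl (x : Site D) (t : ℤ) (N : ℕ) : Finset (Site D) :=
  (Finset.Icc (fun k => x.2 k - N) (fun k => x.2 k + N)).image fun z => (t, z)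

lemma card_sl (x : Site D) (t : ℤ) (N : ℕ) : (sl x t N).card ≤ (2 * N + 1) ^ D := by
  refine Finset.card_image_le.trans (le_of_eq ?_)
  rw [Pi.card_Icc]
  have : ∀ k : Fin D, (Finset.Icc (x.2 k - N) (x.2 k + N)).card = 2 * N + 1 := by
    intro k
    rw [Int.card_Icc]
    omega
  simp only [this, Finset.prod_const, Finset.card_univ, Fintype.card_fin]

lemma fst_of_mem_sl {x v : Site D} {t : ℤ} {N : ℕ} (h : v ∈ sl x t N) : v.1 = t := by
  obtain ⟨z, _, rfl⟩ := Finset.mem_image.1 h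
  rfl

lemma mem_sl {E : Finset (Ed D)} {x v : Site D} (h : IsClu x E) (hv : v ∈ verts x E) {N : ℕ}
    (hN : (verts x E).card ≤ N) : v ∈ sl x v.1 N := by
  refine Finset.mem_image.2 ⟨v.2, ?_, rfl⟩
  rw [Finset.mem_Icc]
  constructor
  · intro k
    have := abs_le.1 (abs_snd_le_card h hv k)
    simp only
    omega
  · intro k
    have := abs_le.1 (abs_snd_le_card h hv k)
    simp only
    omega

/-- The volume tail. -/
lemma vol_tail (M : Model D) {J ε C : ℝ} (hε : 0 < ε) {S : Set (Site D)} {x : Site D}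
    (h : ∑' E : Finset (Ed D),
      M.wt J S x E * ENNReal.ofReal (Real.exp (ε * (verts x E).card)) ≤ ENNReal.ofReal C)
    (N : ℝ) :
    (∑' E : Finset (Ed D), if N ≤ (verts x E).card then M.wt J S x E else 0) ≤
      ENNReal.ofReal (max C 0 * Real.exp (-ε * N)) := by
  calc (∑' E : Finset (Ed D), if N ≤ (verts x E).card then M.wt J S x E else 0)
      ≤ ∑' E : Finset (Ed D), (M.wt J S x E * ENNReal.ofReal (Real.exp (ε * (verts x E).card))) *
          ENNReal.ofReal (Real.exp (-ε * N)) := by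
        refine ENNReal.tsum_le_tsum fun E => ?_
        split_ifs with hc
        · rw [mul_assoc, ← ENNReal.ofReal_mul (Real.exp_pos _).le, ← Real.exp_add]
          refine le_mul_of_one_le_right' ?_
          rw [← ENNReal.ofReal_one]
          refine ENNReal.ofReal_le_ofReal (Real.one_le_exp ?_)
          nlinarith
        · exact zero_le
    _ ≤ ENNReal.ofReal C * ENNReal.ofReal (Real.exp (-ε * N)) := by
        rw [ENNReal.tsum_mul_right]
        gcongr
    _ ≤ ENNReal.ofReal (max C 0 * Real.exp (-ε * N)) := by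
        rw [ENNReal.ofReal_mul (le_max_right _ _)]
        gcongr
        exact le_max_left _ _

end MG03

open MG03 in
theorem mg0Stmt : MG0Stmt := by
  intro D M J ξ hCW hG
  obtain ⟨hJ, hξ, hτ⟩ := hG
  obtain ⟨ε, C0, hε, hvol⟩ := hCW.vol J hJ
  obtain ⟨R, hR⟩ := exists_nat_ge (ξ / ε)
  have hR' : ξ ≤ ε * R := by rwa [div_le_iff₀ hε, mul_comm] at hR
  refine ⟨(2 * R + 1) ^ (2 * D) + max C0 0, by positivity, fun S x a b => ?_⟩
  set N : ℕ := R * (a + b + 1) with hN
  set U := sl x (x.1 - a) N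
  set V := sl x (x.1 + b) N
  have key : ∀ E : Finset (Ed D), (if (∃ u ∈ verts x E, u.1 ≤ x.1 - a) ∧
      (∃ v ∈ verts x E, x.1 + b ≤ v.1) then M.wt J S x E else 0) ≤
      (∑ u ∈ U, ∑ v ∈ V, if v ∈ verts u E then M.wt J S u E else 0) +
        (if (N : ℝ) ≤ (verts x E).card then M.wt J S x E else 0) := by
    intro E
    split_ifs with h1 h2
    · exact le_add_self
    · by_cases hc : IsClu x E
      · obtain ⟨⟨u0, hu0, hu1⟩, ⟨v0, hv0, hv1⟩⟩ := h1
        have hcard : (verts x E).card ≤ N := by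
          have : ((verts x E).card : ℝ) ≤ N := (not_le.1 h2).le
          exact_mod_cast this
        obtain ⟨u, hu, hul⟩ := ivt hc.1 (fun v => -v.1) (fun a b hab => by
          have := adj_fst hab
          rwa [show -a.1 - -b.1 = -(a.1 - b.1) by ring, abs_neg]) (hc.2 u0 hu0)
          (t := -(x.1 - a)) (by omega) (by omega)
        obtain ⟨v, hv, hvl⟩ := ivt hc.1 (fun v => v.1) (fun a b hab => adj_fst hab)
          (hc.2 v0 hv0) (t := x.1 + b) (by omega) (by omega)
        have huU : u ∈ U := by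
          have := mem_sl hc hu hcard
          rwa [show u.1 = x.1 - a by omega] at this
        have hvV : v ∈ V := by
          have := mem_sl hc hv hcard
          rwa [hvl] at this
        rw [add_zero]
        refine le_trans ?_ (Finset.single_le_sum
          (f := fun u => ∑ v ∈ V, if v ∈ verts u E then M.wt J S u E else 0)
          (fun _ _ => zero_le) huU)
        refine le_trans ?_ (Finset.single_le_sum
          (f := fun v => if v ∈ verts u E then M.wt J S u E else 0)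
          (fun _ _ => zero_le) hvV)
        rw [verts_reroot hc hu, if_pos hv, wt_reroot M J S hc hu]
      · rw [wt_eq_zero M J S hc]
        exact zero_le
    · exact zero_le
    · exact zero_le
  refine (ENNReal.tsum_le_tsum key).trans ?_
  rw [ENNReal.tsum_add]
  have h1 : (∑' E : Finset (Ed D), ∑ u ∈ U, ∑ v ∈ V,
      if v ∈ verts u E then M.wt J S u E else 0) ≤
      ENNReal.ofReal ((2 * R + 1) ^ (2 * D) * ((a : ℝ) + b + 1) ^ (2 * D) *
        Real.exp (-ξ * (a + b))) := by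
    rw [Summable.tsum_finsetSum (fun _ _ => ENNReal.summable)]
    have h2 : ∀ u ∈ U, (∑' E : Finset (Ed D), ∑ v ∈ V,
        if v ∈ verts u E then M.wt J S u E else 0) ≤
        V.card • ENNReal.ofReal (Real.exp (-ξ * (a + b))) := by
      intro u hu
      rw [Summable.tsum_finsetSum (fun _ _ => ENNReal.summable)]
      refine Finset.sum_le_card_nsmul _ _ _ fun v hv => ?_
      refine (hCW.tau_mono J hJ S u v).trans ((hτ u v).trans (le_of_eq ?_))
      rw [fst_of_mem_sl hu, fst_of_mem_sl hv]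
      congr 3
      push_cast
      rw [show (x.1 : ℝ) + b - (x.1 - a) = a + b by ring, abs_of_nonneg (by positivity)]
    refine (Finset.sum_le_card_nsmul _ _ _ h2).trans ?_
    rw [← mul_nsmul', nsmul_eq_mul, ENNReal.ofReal_mul (by positivity)]
    gcongr
    rw [← ENNReal.ofReal_natCast]
    refine ENNReal.ofReal_le_ofReal ?_
    have h3 : U.card * V.card ≤ (2 * N + 1) ^ D * (2 * N + 1) ^ D :=
      Nat.mul_le_mul (card_sl _ _ _) (card_sl _ _ _)
    have h4 : (2 * N + 1) ^ D * (2 * N + 1) ^ D ≤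
        (2 * R + 1) ^ (2 * D) * (a + b + 1) ^ (2 * D) := by
      rw [← pow_add, ← two_mul, ← mul_pow]
      refine Nat.pow_le_pow_left ?_ _
      rw [hN]
      nlinarith
    exact_mod_cast h3.trans h4
  have h2 : (∑' E : Finset (Ed D), if (N : ℝ) ≤ (verts x E).card then M.wt J S x E else 0) ≤
      ENNReal.ofReal (max C0 0 * ((a : ℝ) + b + 1) ^ (2 * D) * Real.exp (-ξ * (a + b))) := by
    refine (vol_tail M hε (hvol S x) N).trans (ENNReal.ofReal_le_ofReal ?_)
    rw [mul_assoc]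
    refine mul_le_mul_of_nonneg_left ?_ (le_max_right _ _)
    have hab : (0 : ℝ) ≤ a + b := by positivity
    have h3 : Real.exp (-ε * N) ≤ Real.exp (-ξ * (a + b)) := by
      refine Real.exp_le_exp.2 ?_
      rw [hN]
      push_cast
      nlinarith
    refine h3.trans (le_mul_of_one_le_left (Real.exp_pos _).le ?_)
    exact one_le_pow₀ (by linarith)
  refine (add_le_add h1 h2).trans (le_of_eq ?_)
  rw [← ENNReal.ofReal_add (by positivity) (by positivity)]
  congr 1
  ring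

end

end Pool.Agent.MP_48a2f9_mp.OZ

end MrgPart5

-- ======== part 6: formerly Pool.Agent.MP_48a2f9_mp.MG3
section MrgPart6

/-!
Module MG3: the mass gap, from the count of breaks and a rising-sun argument.
-/

open MeasureTheory Filter Topology
open scoped ENNReal

namespace Pool.Agent.MP_48a2f9_mp.OZ

noncomputable section
open Classical

namespace MG03

variable {D : ℕ}

/-- Rising sun: few levels fail the forward volume bound. -/
lemma rising_sun (A : ℕ) : ∀ (n : ℕ) (T : Finset ℤ) (W : Finset (Site D)), T.card = n →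
    (∀ t ∈ T, ¬ Fwd A W t) → A * T.card ≤ W.card := by
  intro n
  induction n using Nat.strong_induction_on with
  | _ n ih =>
    intro T W hn hT
    rcases T.eq_empty_or_nonempty with rfl | hne
    · simp
    set t := T.min' hne with ht
    have htT : t ∈ T := T.min'_mem hne
    have hf := hT t htT
    unfold Fwd at hf
    push Not at hf
    obtain ⟨s, hts, hs⟩ := hf
    set T' := T.filter fun u => s ≤ u with hT'
    set W' := W.filter fun v => s < v.1 with hW'
    have hlt : T'.card < n := by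
      rw [← hn]
      refine Finset.card_lt_card ⟨Finset.filter_subset _ _, fun h => ?_⟩
      have := (Finset.mem_filter.1 (h htT)).2
      omega
    have h1 : A * T'.card ≤ W'.card := by
      refine ih _ hlt T' W' rfl fun u hu hfw => ?_
      obtain ⟨huT, hsu⟩ := Finset.mem_filter.1 hu
      refine hT u huT fun s' hs' => ?_
      have : slab W u s' = slab W' u s' := by
        unfold slab
        rw [hW', Finset.filter_filter]
        congr 1
        refine Finset.filter_congr fun v _ => ?_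
        constructor
        · rintro ⟨h1, h2⟩
          exact ⟨by omega, h1, h2⟩
        · rintro ⟨_, h1, h2⟩
          exact ⟨h1, h2⟩
      rw [this]
      exact hfw s' hs'
    have h2 : (T.card : ℤ) ≤ T'.card + (s - t) := by
      have hsub : T ⊆ T' ∪ Finset.Ico t s := by
        intro u hu
        rw [Finset.mem_union, Finset.mem_filter, Finset.mem_Ico]
        by_cases h : s ≤ u
        · exact Or.inl ⟨hu, h⟩
        · exact Or.inr ⟨T.min'_le u hu, by omega⟩
      have h3 := (Finset.card_le_card hsub).trans (Finset.card_union_le _ _)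
      rw [Int.card_Ico] at h3
      omega
    have h3 : W'.card + slab W t s ≤ W.card := by
      unfold slab
      rw [← Finset.card_union_of_disjoint]
      · exact Finset.card_le_card
          (Finset.union_subset (Finset.filter_subset _ _) (Finset.filter_subset _ _))
      · rw [Finset.disjoint_left]
        intro v hv hv'
        have h4 := (Finset.mem_filter.1 hv).2
        have h5 := (Finset.mem_filter.1 hv').2
        omega
    have h1' : (A : ℤ) * T'.card ≤ W'.card := by exact_mod_cast h1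
    have h3' : (W'.card : ℤ) + slab W t s ≤ W.card := by exact_mod_cast h3
    have h4 : (A : ℤ) * T.card ≤ A * (T'.card + (s - t)) :=
      mul_le_mul_of_nonneg_left h2 (Int.natCast_nonneg _)
    have h5 : (A : ℤ) * T.card ≤ W.card := by nlinarith
    exact_mod_cast h5

lemma brk_le (A : ℕ) (x : Site D) (E : Finset (Ed D)) (s : ℕ)
    (h : ∀ t, x.1 ≤ t → t < x.1 + s → ¬ Nice A x E t) :
    A * brkCount E x.1 s ≤ (verts x E).card := by
  set T0 := (Finset.range s).filter fun t : ℕ => (cross E (x.1 + t)).card = 1 with hT0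
  have hc : (T0.image fun t : ℕ => x.1 + (t : ℤ)).card = brkCount E x.1 s := by
    rw [Finset.card_image_of_injective]
    · rfl
    · intro a b hab
      simpa using hab
  rw [← hc]
  refine rising_sun A _ _ _ rfl fun t ht hf => ?_
  obtain ⟨k, hk, rfl⟩ := Finset.mem_image.1 ht
  obtain ⟨hk1, hk2⟩ := Finset.mem_filter.1 hk
  rw [Finset.mem_range] at hk1
  exact h _ (by omega) (by omega) ⟨hk2, hf⟩

end MG03

open MG03 in
theorem mg3Stmt (h2 : MG2Stmt) : MG3Stmt := by
  intro D M J ξ hCW hG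
  obtain ⟨δ, c, C, hδ, hc, hB⟩ := h2 D M J ξ hCW hG
  obtain ⟨hJ, hξ, -⟩ := hG
  obtain ⟨ε, C0, hε, hvol⟩ := hCW.vol J hJ
  obtain ⟨R, hR⟩ := exists_nat_ge ((ξ + c) / ε)
  have hR' : ξ + c ≤ ε * R := by rwa [div_le_iff₀ hε, mul_comm] at hR
  obtain ⟨A0, hA0⟩ := exists_nat_gt (R / δ)
  refine ⟨A0, c, max C 0 + max C0 0, hc, fun A hA S x s hS => ?_⟩
  have hA1 : (R : ℝ) < A * δ := by
    rw [div_lt_iff₀ hδ] at hA0
    have : (A0 : ℝ) ≤ A := by exact_mod_cast hA
    nlinarith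
  have key : ∀ E : Finset (Ed D), (if Reach x E s ∧
      (∀ t, x.1 ≤ t → t < x.1 + s → ¬ Nice A x E t) then M.wt J S x E else 0) ≤
      (if Reach x E s ∧ (brkCount E x.1 s : ℝ) ≤ δ * s then M.wt J S x E else 0) +
        (if (R : ℝ) * s ≤ (verts x E).card then M.wt J S x E else 0) := by
    intro E
    by_cases h1 : Reach x E s ∧ (∀ t, x.1 ≤ t → t < x.1 + s → ¬ Nice A x E t)
    · rw [if_pos h1]
      by_cases h3 : (brkCount E x.1 s : ℝ) ≤ δ * s
      · rw [if_pos ⟨h1.1, h3⟩]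
        exact le_self_add
      · have h4 : (A : ℝ) * brkCount E x.1 s ≤ (verts x E).card := by
          exact_mod_cast brk_le A x E s h1.2
        have h5 : (R : ℝ) * s ≤ (verts x E).card := by
          have hs : (0 : ℝ) ≤ s := Nat.cast_nonneg _
          have hA' : (0 : ℝ) ≤ A := Nat.cast_nonneg _
          have h6 := (not_le.1 h3).le
          calc (R : ℝ) * s ≤ A * δ * s := mul_le_mul_of_nonneg_right hA1.le hs
            _ = A * (δ * s) := by ring
            _ ≤ A * brkCount E x.1 s := mul_le_mul_of_nonneg_left h6 hA'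
            _ ≤ _ := h4
        rw [if_pos h5]
        exact le_add_self
    · rw [if_neg h1]
      exact zero_le
  refine (ENNReal.tsum_le_tsum key).trans ?_
  rw [ENNReal.tsum_add]
  have h3 := (hB S x s hS).trans (ENNReal.ofReal_le_ofReal
    (mul_le_mul_of_nonneg_right (le_max_left C 0) (Real.exp_pos _).le))
  have h4 : (∑' E : Finset (Ed D), if (R : ℝ) * s ≤ (verts x E).card then M.wt J S x E else 0) ≤
      ENNReal.ofReal (max C0 0 * Real.exp (-(ξ + c) * s)) := by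
    refine (vol_tail M hε (hvol S x) _).trans (ENNReal.ofReal_le_ofReal ?_)
    refine mul_le_mul_of_nonneg_left (Real.exp_le_exp.2 ?_) (le_max_right _ _)
    have hs : (0 : ℝ) ≤ s := Nat.cast_nonneg _
    nlinarith
  refine (add_le_add h3 h4).trans (le_of_eq ?_)
  rw [← ENNReal.ofReal_add (by positivity) (by positivity)]
  congr 1
  ring

end

end Pool.Agent.MP_48a2f9_mp.OZ

end MrgPart6

-- ======== part 7: formerly Pool.Agent.MP_48a2f9_mp.TP
section MrgPart7

/-! Module TP: the inverse correlation length and the critical coupling. -/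

open MeasureTheory Filter Topology
open scoped ENNReal

namespace Pool.Agent.MP_48a2f9_mp.OZ

noncomputable section
open Classical

namespace TP

variable {D : ℕ} {M : Model D}

/-- the real connection probability -/
def tr (M : Model D) (J : ℝ) (x y : Site D) : ℝ := (M.tau J Set.univ x y).toReal

theorem tr_nonneg (J : ℝ) (x y : Site D) : 0 ≤ tr M J x y := ENNReal.toReal_nonneg

theorem tr_pos (hD : 1 ≤ D) (h : M.CW) {J : ℝ} (hJ : 0 ≤ J) (x y : Site D) : 0 < tr M J x y :=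
  ENNReal.toReal_pos (tau_pos hD h hJ x y).ne' (tau_ne_top h hJ _ x y)

theorem tr_le_one (h : M.CW) {J : ℝ} (hJ : 0 ≤ J) (x y : Site D) : tr M J x y ≤ 1 :=
  ENNReal.toReal_le_of_le_ofReal zero_le_one (by simpa using tau_le_one h hJ _ x y)

theorem tr_fkg (h : M.CW) {J : ℝ} (hJ : 0 ≤ J) (x y z : Site D) :
    tr M J x y * tr M J y z ≤ tr M J x z := by
  unfold tr
  rw [← ENNReal.toReal_mul]
  exact ENNReal.toReal_mono (tau_ne_top h hJ _ x z) (h.fkg J hJ x y z)

theorem tr_symm (J : ℝ) (x y : Site D) : tr M J x y = tr M J y x := by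
  unfold tr
  rw [tau_symm]

theorem tr_shift (h : M.CW) {J : ℝ} (hJ : 0 ≤ J) (t : ℤ) (x y : Site D) :
    tr M J (x + (t, 0)) (y + (t, 0)) = tr M J x y := by
  unfold tr
  rw [tau_shift h hJ]

theorem tr_refl (h : M.CW) {J : ℝ} (hJ : 0 ≤ J) (x y : Site D) :
    tr M J x y ≤ tr M J (2 * y.1 - x.1, x.2) y :=
  ENNReal.toReal_mono (tau_ne_top h hJ _ _ _) (tau_refl h hJ x y)

theorem b_eq (J : ℝ) (n : ℕ) : M.b J n = tr M J 0 ((n : ℤ), 0) := rfl

theorem b_pos (hD : 1 ≤ D) (h : M.CW) {J : ℝ} (hJ : 0 ≤ J) (n : ℕ) : 0 < M.b J n :=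
  tr_pos hD h hJ _ _

theorem subadd (hD : 1 ≤ D) (h : M.CW) {J : ℝ} (hJ : 0 ≤ J) :
    Subadditive (fun n => -Real.log (M.b J n)) := by
  intro m n
  have h1 := tr_fkg h hJ 0 ((m : ℤ), 0) (((m + n : ℕ) : ℤ), 0)
  have h2 := tr_shift h hJ (m : ℤ) 0 ((n : ℤ), 0)
  have e : (((n : ℤ), 0) : Site D) + ((m : ℤ), 0) = (((m + n : ℕ) : ℤ), 0) := by
    ext <;> simp [add_comm]
  rw [zero_add, e] at h2
  rw [h2, ← b_eq, ← b_eq, ← b_eq] at h1
  have h3 := Real.log_le_log (mul_pos (b_pos hD h hJ m) (b_pos hD h hJ n)) h1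
  rw [Real.log_mul (b_pos hD h hJ m).ne' (b_pos hD h hJ n).ne'] at h3
  simp only
  linarith

theorem bdd (hD : 1 ≤ D) (h : M.CW) {J : ℝ} (hJ : 0 ≤ J) :
    BddBelow (Set.range fun n : ℕ => -Real.log (M.b J n) / n) := by
  refine ⟨0, ?_⟩
  rintro _ ⟨n, rfl⟩
  have := Real.log_nonpos (b_pos hD h hJ n).le (tr_le_one h hJ _ _)
  exact div_nonneg (by linarith) (Nat.cast_nonneg n)

theorem lim_aux (hD : 1 ≤ D) (h : M.CW) {J : ℝ} (hJ : 0 ≤ J) :
    Tendsto (fun n : ℕ => -(1 / (n : ℝ)) * Real.log (M.b J n)) atTop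
      (𝓝 (subadd hD h hJ).lim) :=
  ((subadd hD h hJ).tendsto_lim (bdd hD h hJ)).congr (fun n => by ring)

theorem xi_eq (hD : 1 ≤ D) (h : M.CW) {J : ℝ} (hJ : 0 ≤ J) : M.xiF J = (subadd hD h hJ).lim :=
  (lim_aux hD h hJ).limUnder_eq

theorem tendsto_xi (hD : 1 ≤ D) (h : M.CW) {J : ℝ} (hJ : 0 ≤ J) :
    Tendsto (fun n : ℕ => -(1 / (n : ℝ)) * Real.log (M.b J n)) atTop (𝓝 (M.xiF J)) := by
  rw [xi_eq hD h hJ]
  exact lim_aux hD h hJ

theorem b_le (hD : 1 ≤ D) (h : M.CW) {J : ℝ} (hJ : 0 ≤ J) (n : ℕ) :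
    M.b J n ≤ Real.exp (-M.xiF J * n) := by
  rcases Nat.eq_zero_or_pos n with rfl | hn
  · simpa [b_eq] using tr_le_one h hJ _ _
  · have h1 := (subadd hD h hJ).lim_le_div (bdd hD h hJ) hn.ne'
    rw [← xi_eq hD h hJ, le_div_iff₀ (by exact_mod_cast hn)] at h1
    rw [← Real.log_le_iff_le_exp (b_pos hD h hJ n)]
    linarith

theorem le_xi (hD : 1 ≤ D) (h : M.CW) {J : ℝ} (hJ : 0 ≤ J) {a C : ℝ}
    (hb : ∀ n : ℕ, M.b J n ≤ C * Real.exp (-a * n)) : a ≤ M.xiF J := by
  have hC : 0 < C := by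
    have := (b_pos hD h hJ 0).trans_le (hb 0)
    simpa using this
  have h1 : Tendsto (fun n : ℕ => a - Real.log C / n) atTop (𝓝 (a - 0)) :=
    tendsto_const_nhds.sub (tendsto_const_div_atTop_nhds_zero_nat _)
  rw [sub_zero] at h1
  refine le_of_tendsto_of_tendsto h1 (tendsto_xi hD h hJ) ?_
  filter_upwards [eventually_gt_atTop 0] with n hn
  have hn' : (0 : ℝ) < n := by exact_mod_cast hn
  have h2 := Real.log_le_log (b_pos hD h hJ n) (hb n)
  rw [Real.log_mul hC.ne' (Real.exp_pos _).ne', Real.log_exp] at h2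
  have e : a - Real.log C / n = -(1 / (n : ℝ)) * (Real.log C + -a * n) := by
    field_simp
    ring
  rw [e]
  exact mul_le_mul_of_nonpos_left h2 (by simp)

theorem xi_pos (hD : 1 ≤ D) (h : M.CW) {J : ℝ} (hJ : 0 ≤ J) : 0 < M.xiF J := by
  obtain ⟨ε, C, hε, hv⟩ := h.vol J hJ
  refine hε.trans_le (le_xi hD h hJ (C := max C 0) (fun n => ?_))
  refine ENNReal.toReal_le_of_le_ofReal (by positivity) ?_
  rw [ENNReal.ofReal_mul (le_max_right _ _)]
  refine le_trans ?_ (mul_le_mul_left ((hv Set.univ 0).trans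
    (ENNReal.ofReal_le_ofReal (le_max_left C 0))) _)
  rw [← ENNReal.tsum_mul_right]
  refine ENNReal.tsum_le_tsum (fun E => ?_)
  split_ifs with hn
  · by_cases hE : IsClu 0 E
    · rw [mul_assoc, ← ENNReal.ofReal_mul (Real.exp_pos _).le, ← Real.exp_add]
      refine le_mul_of_one_le_right' (ENNReal.one_le_ofReal.mpr (Real.one_le_exp ?_))
      have : (n : ℝ) ≤ (verts 0 E).card := by exact_mod_cast card_ge hE hn
      nlinarith
    · rw [wt_not M J _ hE]
      exact zero_le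
  · exact zero_le

theorem le_of_pow {c T q : ℝ} (hc : 0 < c) (hq : 0 < q)
    (h : ∀ k : ℕ, c * T ^ (2 * (k + 1)) ≤ q ^ (2 * (k + 1))) : T ≤ q := by
  by_contra hlt
  push Not at hlt
  have h1 : 1 < T / q := (one_lt_div hq).mpr hlt
  obtain ⟨k, hk⟩ := pow_unbounded_of_one_lt c⁻¹ h1
  have h2 : (T / q) ^ k ≤ (T / q) ^ (2 * (k + 1)) := pow_le_pow_right₀ h1.le (by omega)
  have h3 := h k
  have h4 : (T / q) ^ (2 * (k + 1)) ≤ c⁻¹ := by
    rw [div_pow, div_le_iff₀ (pow_pos hq _), ← div_eq_inv_mul, le_div_iff₀ hc]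
    linarith
  linarith

theorem good_aux (hD : 1 ≤ D) (h : M.CW) {J : ℝ} (hJ : 0 ≤ J) (x y : Site D) (n : ℕ)
    (hn : y.1 - x.1 = n) : tr M J x y ≤ Real.exp (-M.xiF J * n) := by
  have h1 : tr M J x y ^ 2 ≤ tr M J x (x + (2 * (n : ℤ), 0)) := by
    have e : x + (2 * (n : ℤ), 0) = (2 * y.1 - x.1, x.2) := by
      ext <;> simp
      omega
    rw [e, sq]
    refine le_trans ?_ (tr_fkg h hJ x y _)
    rw [tr_symm J y]
    exact mul_le_mul_of_nonneg_left (tr_refl h hJ x y) (tr_nonneg _ _ _)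
  have h2 : ∀ k : ℕ, tr M J x y ^ (2 * (k + 1)) ≤
      tr M J x (x + (((2 * n * (k + 1) : ℕ) : ℤ), 0)) := by
    intro k
    induction k with
    | zero => simpa using h1
    | succ k ih =>
      refine le_trans ?_ (tr_fkg h hJ x (x + (((2 * n * (k + 1) : ℕ) : ℤ), 0)) _)
      have e : x + (((2 * n * (k + 1 + 1) : ℕ) : ℤ), 0) =
          x + (2 * (n : ℤ), 0) + (((2 * n * (k + 1) : ℕ) : ℤ), 0) := by
        ext <;> simp
        ring
      rw [e, tr_shift h hJ, mul_add 2 (k + 1) 1, pow_add]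
      exact mul_le_mul ih h1 (pow_nonneg (tr_nonneg _ _ _) _) (tr_nonneg _ _ _)
  have hc := tr_pos hD h hJ (x.1, 0) x
  refine le_of_pow (mul_pos hc hc) (Real.exp_pos _) (fun k => ?_)
  set m := 2 * n * (k + 1) with hm
  have h3 := b_le hD h hJ m
  have h4 := tr_shift h hJ x.1 0 ((m : ℤ), 0)
  have e : (((m : ℤ), 0) : Site D) + (x.1, 0) = (x.1, 0) + ((m : ℤ), 0) := add_comm _ _
  rw [zero_add, e, ← b_eq] at h4
  have h5 := tr_fkg h hJ (x.1, 0) x (x + ((m : ℤ), 0))
  have h6 := tr_fkg h hJ (x.1, 0) (x + ((m : ℤ), 0)) ((x.1, 0) + ((m : ℤ), 0))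
  rw [tr_shift h hJ, tr_symm J x, h4] at h6
  have h7 : Real.exp (-M.xiF J * n) ^ (2 * (k + 1)) = Real.exp (-M.xiF J * m) := by
    rw [← Real.exp_nat_mul, hm]
    push_cast
    ring_nf
  rw [h7]
  have h8 := mul_le_mul_of_nonneg_left (h2 k) hc.le
  have h9 := mul_le_mul_of_nonneg_right (h8.trans h5) hc.le
  linarith

theorem good (hD : 1 ≤ D) (h : M.CW) {J : ℝ} (hJ : 0 ≤ J) : M.Good J (M.xiF J) := by
  refine ⟨hJ, xi_pos hD h hJ, fun x y => ?_⟩
  rw [ENNReal.le_ofReal_iff_toReal_le (tau_ne_top h hJ _ _ _) (Real.exp_pos _).le]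
  rcases le_total 0 (y.1 - x.1) with h1 | h1
  · obtain ⟨n, hn⟩ := Int.eq_ofNat_of_zero_le h1
    rw [hn, Int.cast_natCast, Nat.abs_cast]
    exact good_aux hD h hJ x y n hn
  · obtain ⟨n, hn⟩ := Int.eq_ofNat_of_zero_le (neg_nonneg.mpr h1)
    have e : y.1 - x.1 = -(n : ℤ) := by omega
    rw [e, Int.cast_neg, abs_neg, Int.cast_natCast, Nat.abs_cast, tau_symm]
    exact good_aux hD h hJ y x n (by omega)

theorem xi_anti (hD : 1 ≤ D) (h : M.CW) {J J' : ℝ} (hJ : 0 ≤ J) (hJJ : J ≤ J') :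
    M.xiF J' ≤ M.xiF J := by
  refine le_xi hD h hJ (C := 1) (fun n => ?_)
  rw [one_mul]
  exact (ENNReal.toReal_mono (tau_ne_top h (hJ.trans hJJ) _ _ _)
    (h.tau_mono_J J J' hJ hJJ _ _)).trans (b_le hD h (hJ.trans hJJ) n)

theorem tendsto_sum {α : Type} {l : Filter α} (x y : Site D) (F : Finset (Finset (Ed D)))
    (a : α → Finset (Ed D) → ℝ) (a0 : Finset (Ed D) → ℝ)
    (ha : ∀ E, Tendsto (fun p => a p E) l (𝓝 (a0 E))) :
    Tendsto (fun p => ∑ E ∈ F, (if y ∈ verts x E ∧ IsClu x E then ENNReal.ofReal (a p E) else 0))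
      l (𝓝 (∑ E ∈ F, (if y ∈ verts x E ∧ IsClu x E then ENNReal.ofReal (a0 E) else 0))) := by
  refine tendsto_finsetSum F (fun E _ => ?_)
  split_ifs
  · exact ENNReal.tendsto_ofReal (ha E)
  · exact tendsto_const_nhds

theorem xi_le_one (hD : 1 ≤ D) (h : M.CW) {J : ℝ} (hJ : 0 ≤ J) : M.xiF J ≤ M.xiF 1 := by
  refine le_xi hD h zero_le_one (C := 1) (fun n => ?_)
  rw [one_mul]
  refine ENNReal.toReal_le_of_le_ofReal (Real.exp_pos _).le ?_
  refine tau_le_of_sum M 1 _ _ (fun F => ?_)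
  obtain ⟨C, c, hC, hc, hmix⟩ := h.mix J hJ
  let k : Fin D := ⟨0, hD⟩
  obtain ⟨R0, hR0⟩ : ∃ R0 : ℕ, ∀ E ∈ F, ∀ v ∈ verts 0 E, |v.2 k| ≤ R0 := by
    refine ⟨(F.biUnion (verts 0)).sup (fun v => (v.2 k).natAbs), fun E hE v hv => ?_⟩
    have := Finset.le_sup (f := fun v : Site D => (v.2 k).natAbs)
      (Finset.mem_biUnion.mpr ⟨E, hE, hv⟩)
    rw [Int.abs_eq_natAbs]
    exact_mod_cast this
  let a : ℕ → Finset (Ed D) → ℝ := fun R E =>
    Real.exp (-(C * ((verts 0 E).card * Real.exp (-c * R)))) * M.wtR 1 Set.univ 0 E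
  refine le_of_tendsto' (tendsto_sum (l := atTop) 0 ((n : ℤ), 0) F a (M.wtR 1 Set.univ 0)
    (fun E => ?_)) (fun R => ?_)
  · have h1 : Tendsto (fun R : ℕ => Real.exp (-c * R)) atTop (𝓝 0) :=
      Real.tendsto_exp_atBot.comp
        (tendsto_natCast_atTop_atTop.const_mul_atTop_of_neg (neg_neg_of_pos hc))
    have h2 := (Real.continuous_exp.tendsto _).comp
      (((h1.const_mul ((verts 0 E).card : ℝ)).const_mul C).neg)
    have h3 := h2.mul_const (M.wtR 1 Set.univ 0 E)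
    simpa [a] using h3
  · let z : Site D := (0, Pi.single k ((R0 : ℤ) + R + 1))
    let g : Site D ≃ Site D := Equiv.addRight z
    have hg := (good hD h hJ).2.2 (g 0) (g ((n : ℤ), 0))
    have e : (g ((n : ℤ), 0)).1 - (g 0).1 = n := by simp [g, z]
    rw [e, Int.cast_natCast, Nat.abs_cast] at hg
    refine le_trans (sum_le_tau M (adj_add z) J 0 _ F _ (fun E hE _ => ?_)) hg
    have hfar : ∀ v ∈ (verts 0 E).image g, (R : ℤ) + 1 ≤ v.2 k := by
      intro v hv
      obtain ⟨u, hu, rfl⟩ := Finset.mem_image.mp hv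
      have := (abs_le.mp (hR0 E hE u hu)).1
      simp only [g, z, Equiv.coe_addRight, Prod.snd_add, Pi.add_apply, Pi.single_eq_same]
      omega
    have hoff : (↑((verts 0 E).image g) : Set (Site D)) ⊆ {v | v.2 ≠ 0} := by
      intro v hv hc
      have := hfar v hv
      rw [hc] at this
      simp only [Pi.zero_apply] at this
      omega
    have h1 := hmix Set.univ {v | v.2 ≠ 0} _ (fun _ => R) (Set.subset_univ _) hoff
      (fun v hv u _ hu => by
        have hu' : u.2 = 0 := not_not.mp hu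
        have a1 := (norm_le_pi_norm (u - v).2 k).trans (norm_snd_le (u - v))
        have a2 := hfar v hv
        rw [Prod.snd_sub, hu', zero_sub, Pi.neg_apply, norm_neg, Int.norm_eq_abs] at a1
        have a3 : ((R : ℤ) : ℝ) ≤ (v.2 k : ℝ) := by exact_mod_cast (by omega : (R : ℤ) ≤ v.2 k)
        exact (by simpa using a3 : (R : ℝ) ≤ v.2 k).trans ((le_abs_self _).trans a1))
    rw [h.off_line J 1 hJ zero_le_one _ _ hoff (fun v hv => hv), Finset.sum_const,
      Finset.card_image_of_injective _ g.injective, nsmul_eq_mul] at h1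
    have h2 := h.anti 1 zero_le_one Set.univ _ _ (Set.subset_univ _) hoff
    have h3 := h.symm 1 zero_le_one g (adj_add z) (fun _ _ _ => by simp [edgeJ]) Set.univ
      (verts 0 E) (Set.subset_univ _)
    rw [Set.image_univ, g.range_eq_univ] at h3
    have h4 : ∏ e ∈ img g E, rr M.β J e = ∏ e ∈ E, rr M.β 1 e := by
      rw [prod_img]
      refine Finset.prod_congr rfl (fun e he => ?_)
      induction e using Sym2.ind with
      | h u w =>
        have : (g u).2 ≠ 0 := hoff (Finset.mem_image_of_mem g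
          (mem_verts.mpr (Or.inr ⟨_, he, Sym2.mem_mk_left _ _⟩)))
        simp [rr, edgeJ, this]
    have h5 : 0 ≤ (M.q : ℝ) * ∏ e ∈ E, rr M.β 1 e :=
      mul_nonneg (Nat.cast_nonneg _)
        (Finset.prod_nonneg (fun e _ => rr_nonneg h.beta_pos zero_le_one e))
    change _ * _ ≤ M.wtR J Set.univ (g 0) (img g E)
    unfold Model.wtR
    rw [verts_img, h4, mul_left_comm]
    refine mul_le_mul_of_nonneg_left ?_ h5
    rw [Real.exp_neg, inv_mul_le_iff₀ (Real.exp_pos _), mul_comm, ← h3]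
    exact h2.trans h1

theorem bddAbove (hD : 1 ≤ D) (h : M.CW) : BddAbove {J : ℝ | 0 ≤ J ∧ M.xiF J = M.xiF 1} := by
  have hθ : Real.exp (-M.xiF 1) < 1 :=
    Real.exp_lt_one_iff.mpr (neg_neg_of_pos (xi_pos hD h zero_le_one))
  set θ := Real.exp (-M.xiF 1) with hθd
  refine ⟨θ * M.q / ((1 - θ) * M.β), ?_⟩
  rintro J ⟨hJ, hx⟩
  have h1 := (h.line_lower J hJ).trans (b_le hD h hJ 1)
  rw [hx, Nat.cast_one, mul_one, ← hθd] at h1
  have h2 := Real.add_one_le_exp (M.β * J)
  have h3 : 0 ≤ M.β * J := mul_nonneg h.beta_pos.le hJ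
  have h4 : (0 : ℝ) < M.q := by have := h.two_le; positivity
  rw [div_le_iff₀ (by linarith)] at h1
  rw [le_div_iff₀ (mul_pos (by linarith) h.beta_pos)]
  nlinarith

theorem xi_lt (hD : 1 ≤ D) (h : M.CW) {J : ℝ} (hJ : 0 ≤ J) (hlt : J < M.JcF) :
    M.xiF J = M.xiF 1 := by
  obtain ⟨J', ⟨-, h1⟩, h2⟩ := exists_lt_of_lt_csSup (s := {J : ℝ | 0 ≤ J ∧ M.xiF J = M.xiF 1})
    ⟨1, zero_le_one, rfl⟩ hlt
  exact le_antisymm (xi_le_one hD h hJ) (h1 ▸ xi_anti hD h hJ h2.le)

theorem one_le_Jc (hD : 1 ≤ D) (h : M.CW) : 1 ≤ M.JcF :=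
  le_csSup (bddAbove hD h) ⟨zero_le_one, rfl⟩

theorem xi_Jc (hD : 1 ≤ D) (h : M.CW) : M.xiF M.JcF = M.xiF 1 := by
  have h1 := one_le_Jc hD h
  have hJ : 0 ≤ M.JcF := zero_le_one.trans h1
  refine le_antisymm (xi_le_one hD h hJ) (le_xi hD h hJ (C := 1) (fun n => ?_))
  rw [one_mul]
  refine ENNReal.toReal_le_of_le_ofReal (Real.exp_pos _).le ?_
  refine tau_le_of_sum M _ _ _ (fun F => ?_)
  let a : ℝ → Finset (Ed D) → ℝ := fun J E =>
    (M.q : ℝ) * (∏ e ∈ E, rr M.β J e) * M.Ψ M.JcF Set.univ (verts 0 E)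
  refine le_of_tendsto (tendsto_sum (l := 𝓝[<] M.JcF) 0 ((n : ℤ), 0) F a
    (M.wtR M.JcF Set.univ 0) (fun E => ?_)) ?_
  · have hc : Continuous (fun J => a J E) := by
      refine (continuous_const.mul (continuous_finsetProd E (fun e _ => ?_))).mul continuous_const
      unfold rr edgeJ
      split_ifs <;> fun_prop
    exact (hc.tendsto _).mono_left nhdsWithin_le_nhds
  · filter_upwards [Ioo_mem_nhdsLT (show 0 < M.JcF by linarith)] with J hJ'
    have hg := (good hD h hJ'.1.le).2.2 0 ((n : ℤ), 0)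
    rw [Prod.fst_zero, sub_zero, Int.cast_natCast, Nat.abs_cast, xi_lt hD h hJ'.1.le hJ'.2] at hg
    refine le_trans (sum_le_tau M (g := Equiv.refl _) (fun _ _ => Iff.rfl) J 0 _ F _
      (fun E _ _ => ?_)) hg
    have e : img (Equiv.refl _) E = E := by simp [img]
    rw [e]
    refine mul_le_mul_of_nonneg_left (h.psi_anti_J J _ hJ'.1.le hJ'.2.le _) ?_
    exact mul_nonneg (Nat.cast_nonneg _)
      (Finset.prod_nonneg (fun e _ => rr_nonneg h.beta_pos hJ'.1.le e))

end TP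

open TP in
theorem tpStmt : TPStmt := by
  intro D M hD h
  refine ⟨fun J hJ => ⟨b_pos hD h hJ, tendsto_xi hD h hJ, good hD h hJ⟩,
    fun J J' hJ hJJ => xi_anti hD h hJ hJJ, bddAbove hD h, one_le_Jc hD h, fun J hJ hle => ?_⟩
  rcases hle.lt_or_eq with hlt | rfl
  · exact xi_lt hD h hJ hlt
  · exact xi_Jc hD h

end

end Pool.Agent.MP_48a2f9_mp.OZ

end MrgPart7

-- marker of a merged file
example : 731051 + 854796 = 731051 + 854796 := rfl
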