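import Mathlib.RingTheory.PowerSeries.Basic
import Mathlib.Analysis.Calculus.Deriv.Basic
import Pool.Agent.MP_48a2f9_mp.Defs

/-!
Interfaces of the analytic modules (no random-cluster model here).
-/

open Finset Filter Topology

namespace Pool.Agent.MP_48a2f9_mp

noncomputable section
open Classical

/-! ### Series with values in a normed ring (module Ser) -/

/-- Admissible (subexponential, summable) weight. -/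
structure Reg (ρ : ℕ → ℝ) : Prop where
  pos : ∀ n, 0 < ρ n
  summ : Summable ρ
  ratio : Tendsto (fun n => ρ n / ρ (n + 1)) atTop (𝓝 1)
  loc : ∃ C, ∀ n i, n ≤ 3 * i → i ≤ n → ρ i ≤ C * ρ n

section ser
variable {A : Type} [NormedRing A] [NormedAlgebra ℝ A]

def Lim (ρ : ℕ → ℝ) (x : PowerSeries A) (l : A) : Prop :=
  Tendsto (fun n => (ρ n)⁻¹ • PowerSeries.coeff n x) atTop (𝓝 l)

def L1 (x : PowerSeries A) : Prop := Summable fun n => ‖PowerSeries.coeff n x‖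

def SumP (x : PowerSeries A) : A := ∑' n, PowerSeries.coeff n x

end ser

/-- The weight `(n+1)^(-a)`. -/
def rpw (a : ℝ) (n : ℕ) : ℝ := ((n : ℝ) + 1) ^ (-a)

/-- The weight `1 / ((n+2) log^2 (n+2))`. -/
def rlg (n : ℕ) : ℝ := (((n : ℝ) + 2) * Real.log ((n : ℝ) + 2) ^ 2)⁻¹

def SerStmt : Prop :=
  (∀ a : ℝ, 1 < a → Reg (rpw a)) ∧ Reg rlg ∧
  (∀ (A : Type) [NormedRing A] [NormedAlgebra ℝ A] [CompleteSpace A],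
    (∀ x y : PowerSeries A, L1 x → L1 y → L1 (x * y) ∧ SumP (x * y) = SumP x * SumP y) ∧
    (∀ (r d r' d' : PowerSeries A) (B : ℝ), 0 < B → d * r = 1 → r' * d' = 1 → L1 d → L1 (r - r') →
      ∑' n, ‖PowerSeries.coeff n d‖ ≤ B → ∑' n, ‖PowerSeries.coeff n (r - r')‖ ≤ 1 / (2 * B) →
      L1 d' ∧ ∑' n, ‖PowerSeries.coeff n d'‖ ≤ 2 * B) ∧
    ∀ ρ, Reg ρ →
      (∀ (x : PowerSeries A) l, Lim ρ x l → L1 x) ∧
      (∀ (x : PowerSeries A) (C ν : ℝ), 0 < ν →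
        (∀ n, ‖PowerSeries.coeff n x‖ ≤ C * Real.exp (-ν * n)) → Lim ρ x 0) ∧
      (∀ (x y : PowerSeries A) l m, Lim ρ x l → Lim ρ y m →
        Lim ρ (x * y) (l * SumP y + SumP x * m)) ∧
      (∀ (t z : PowerSeries A) l, z = t + t * z → z = t + z * t → L1 z → Lim ρ t l →
        Lim ρ z ((1 + SumP z) * l * (1 + SumP z))))

/-! ### Scalar renewal theory (module Ren) -/

/-- `u` is the renewal sequence of `f`. -/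
def IsRen (f u : ℕ → ℝ) : Prop :=
  (∀ n, 0 ≤ f n) ∧ f 0 = 0 ∧
    ∀ n, u n = (if n = 0 then 1 else 0) + ∑ p ∈ antidiagonal n, f p.1 * u p.2

def T0Stmt : Prop :=
  ∀ (f u : ℕ → ℝ) (C : ℝ) (k : ℕ), IsRen f u → (∀ n : ℕ, u n ≤ C * ((n : ℝ) + 1) ^ k) →
    Summable f ∧ ∑' n, f n ≤ 1 ∧ (Summable u ↔ ∑' n, f n < 1)

def T1Stmt : Prop :=
  ∀ (f u : ℕ → ℝ) (c γ C : ℝ), IsRen f u → 0 < c →
    Tendsto (fun n => u n / rpw (1 / 2) n) atTop (𝓝 c) →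
    Tendsto (fun n => (u (n + 1) - u n) / rpw (3 / 2) n) atTop (𝓝 γ) →
    (∀ n, |u (n + 2) - 2 * u (n + 1) + u n| ≤ C * rpw (5 / 2) n) →
    HasSum f 1 ∧ ∃ l, Tendsto (fun n => f n / rpw (3 / 2) n) atTop (𝓝 l)

def T2Stmt : Prop :=
  ∀ (f u : ℕ → ℝ) (c C : ℝ), IsRen f u → 0 < c →
    (∀ n, |u n - c * rpw 1 n| ≤ C * rpw 2 n) →
    HasSum f 1 ∧ Tendsto (fun n => f n / rlg n) atTop (𝓝 (1 / c))

def T3Stmt : Prop :=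
  ∀ (f u : ℕ → ℝ) (c : ℝ), IsRen f u → HasSum f 1 → 0 < c →
    Tendsto (fun n => f n / rpw (3 / 2) n) atTop (𝓝 c) →
    ∃ c', 0 < c' ∧ Tendsto (fun n => u n / rpw (1 / 2) n) atTop (𝓝 c')

def T4Stmt : Prop :=
  ∀ (f u : ℕ → ℝ) (c : ℝ), IsRen f u → HasSum f 1 → 0 < f 1 → 0 < c →
    Tendsto (fun n => f n / rpw 2 n) atTop (𝓝 c) →
    Tendsto (fun n : ℕ => u n * Real.log ((n : ℝ) + 2)) atTop (𝓝 (1 / c))

def T5Stmt : Prop :=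
  ∀ (f u : ℕ → ℝ) (C : ℝ), IsRen f u → HasSum f 1 → 0 < f 1 →
    (∀ n, f n ≤ C * rpw (5 / 2) n) →
    ∃ c', 0 < c' ∧ Tendsto u atTop (𝓝 c')

/-- Summable increments under exponential tails. -/
def T6Stmt : Prop :=
  ∀ (f u : ℕ → ℝ) (C ν : ℝ), IsRen f u → HasSum f 1 → 0 < f 1 → 0 < ν →
    (∀ n : ℕ, f n ≤ C * Real.exp (-ν * n)) → Summable fun n => |u (n + 1) - u n|

/-! ### Kernels on the transverse lattice -/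

abbrev Tr (D : ℕ) : Type := Fin D → ℤ

variable {D : ℕ}

/-- The marked fibre. -/
def u0 (D : ℕ) : Tr D := fun _ => 1

def kconv (K : ℕ → Tr D → Tr D → ℝ) (g : ℕ → Tr D → ℝ) (n : ℕ) (u : Tr D) : ℝ :=
  ∑ l ∈ Ioo 0 n, ∑' w, K l u w * g (n - l) w

structure KerOK (K : ℕ → Tr D → Tr D → ℝ) (M : ℕ) (C ν : ℝ) : Prop where
  nonneg : ∀ l u v, 0 ≤ K l u v
  zero : ∀ u v, K 0 u v = 0
  range : ∀ l u v, K l u v ≠ 0 → ‖v - u‖ ≤ (M : ℝ) * l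
  decay : ∀ l u v, K l u v ≤ C * Real.exp (-ν * l)

/-- `G` is the Green kernel (at least one step) of `K`. -/
def IsGp (K G : ℕ → Tr D → Tr D → ℝ) : Prop :=
  ∀ n u v, G n u v = K n u v + kconv K (fun m w => G m w v) n u

def hk (p : ℕ → Tr D → ℝ) : ℕ → Tr D → Tr D → ℝ := fun l u v => p l (v - u)

structure HomOK (p : ℕ → Tr D → ℝ) (M : ℕ) (C ν : ℝ) : Prop where
  ker : KerOK (hk p) M C ν
  symm : ∀ l u, p l (-u) = p l u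
  pos1 : 0 < p 1 0
  pos2 : ∀ u, ‖u‖ ≤ 1 → 0 < p 2 u

def Mass (p : ℕ → Tr D → ℝ) : Prop := HasSum (fun l => ∑' u, p l u) 1

structure Bdry (b : ℕ → Tr D → ℝ) (M : ℕ) (C ν : ℝ) : Prop where
  nonneg : ∀ l v, 0 ≤ b l v
  decay : ∀ l v, b l v ≤ C * Real.exp (-ν * (l + ‖v‖))
  pos : 0 < b 1 (u0 D)

/-- Renewal representation of the sequence `t` (only `n ≥ 1` matters). -/
structure Adm (K : ℕ → Tr D → Tr D → ℝ) (M : ℕ) (C ν : ℝ) (t : ℕ → ℝ) : Prop where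
  rep : ∃ (bL bR tR : ℕ → Tr D → ℝ) (err : ℕ → ℝ), Bdry bL M C ν ∧ Bdry bR M C ν ∧
    (∀ n, 0 ≤ err n ∧ err n ≤ C * Real.exp (-ν * n)) ∧
    (∀ n u, 1 ≤ n → tR n u = bR n u + kconv K tR n u) ∧
    ∀ n, 1 ≤ n → t n = err n + ∑ l ∈ Ioo 0 n, ∑' w, bL l w * tR (n - l) w

/-- A localized perturbation `K` of the homogeneous kernel `p`, with Green kernel `G`. -/
structure Sys (p : ℕ → Tr D → ℝ) (K G : ℕ → Tr D → Tr D → ℝ) (M : ℕ) (C ν : ℝ) : Prop where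
  nu : 0 < ν
  hom : HomOK p M C ν
  mass : Mass p
  ker : KerOK K M C ν
  pert : ∀ l u v, |K l u v - p l (v - u)| ≤ C * Real.exp (-ν * (l + ‖u‖))
  irr : ∃ S : Set (Tr D), (∀ u, u ≠ 0 → u ∈ S) ∧ (∀ l u v, K l u v ≠ 0 → u ∈ S ∧ v ∈ S) ∧
    ∀ u ∈ S, ∀ v ∈ S, ‖v - u‖ ≤ 2 → 0 < K 2 u v
  pos1 : 0 < K 1 (u0 D) (u0 D)
  green : IsGp K G
  le_const : ∀ n u v, G n u v ≤ C

/-- Subcriticality. -/
def Sub (G : ℕ → Tr D → Tr D → ℝ) : Prop := Summable fun n => G n (u0 D) (u0 D)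

def MassStmt : Prop :=
  ∀ (D : ℕ) (p : ℕ → Tr D → ℝ) (G : ℕ → Tr D → Tr D → ℝ) (M : ℕ) (C ν : ℝ) (t : ℕ → ℝ),
    0 < ν → HomOK p M C ν → IsGp (hk p) G → (∀ n u v, G n u v ≤ C) → Adm (hk p) M C ν t →
    (¬ ∃ C' ε : ℝ, 0 < ε ∧ ∀ n : ℕ, 1 ≤ n → t n ≤ C' * Real.exp (-ε * n)) → Mass p

/-- `g n u` is the probability that the walk with step law `p` visits `(n, u)`. -/
def IsG (p g : ℕ → Tr D → ℝ) : Prop :=
  (∀ u, g 0 u = if u = 0 then 1 else 0) ∧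
    ∀ n u, 1 ≤ n → g n u = ∑ l ∈ Ioc 0 n, ∑' w, p l w * g (n - l) (u - w)

/-- Local limit estimates (module LLT). -/
def LLTStmt : Prop :=
  ∀ (D : ℕ) (p g : ℕ → Tr D → ℝ) (M : ℕ) (C ν : ℝ), 1 ≤ D → 0 < ν → HomOK p M C ν → Mass p →
    IsG p g →
    ∃ c C' ε : ℝ, 0 < c ∧ 0 < ε ∧
      (∀ n u, |g n u - c * rpw (D / 2) n| ≤ C' * (1 + ‖u‖ ^ 2) * rpw (D / 2 + 1) n) ∧
      (∀ n u, g n u ≤ C' * rpw (D / 2) n) ∧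
      (∀ (n : ℕ) u, g n u - g n 0 ≤ C' * Real.exp (-ε * n)) ∧
      (D = 1 →
        (∃ c', 0 < c' ∧ ∀ u, Tendsto (fun n => (g n 0 - g n u) / rpw (3 / 2) n) atTop
          (𝓝 (c' * ‖u‖ ^ 2))) ∧
        (∃ γ, Tendsto (fun n => (g (n + 1) 0 - g n 0) / rpw (3 / 2) n) atTop (𝓝 γ)) ∧
        ∀ n, |g (n + 2) 0 - 2 * g (n + 1) 0 + g n 0| ≤ C' * rpw (5 / 2) n)

/-- The generating function of returns to the marked fibre. -/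
def genU (G : ℕ → Tr D → Tr D → ℝ) (s : ℝ) : ℝ := 1 + ∑' n, G n (u0 D) (u0 D) * s ^ n

/-- Subcritical asymptotics. -/
def B1Stmt : Prop :=
  ∀ (D : ℕ) (p : ℕ → Tr D → ℝ) (K G : ℕ → Tr D → Tr D → ℝ) (M : ℕ) (C ν : ℝ) (t : ℕ → ℝ),
    1 ≤ D → Sys p K G M C ν → Adm K M C ν t → Sub G →
    ∃ c, 0 < c ∧ Tendsto (fun n : ℕ => t n / gSub (D + 1) n) atTop (𝓝 c)

/-- Critical asymptotics, `D ≥ 3`. -/
def B2Stmt : Prop :=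
  ∀ (D : ℕ) (p : ℕ → Tr D → ℝ) (K G : ℕ → Tr D → Tr D → ℝ) (M : ℕ) (C ν : ℝ) (t : ℕ → ℝ),
    3 ≤ D → Sys p K G M C ν → Adm K M C ν t → ¬ Sub G →
    ∃ c, 0 < c ∧ Tendsto (fun n : ℕ => t n / gCrit (D + 1) n) atTop (𝓝 c)

/-- Comparison of generating functions. -/
def B3Stmt : Prop :=
  ∀ (D : ℕ) (p : ℕ → Tr D → ℝ) (K G : ℕ → Tr D → Tr D → ℝ) (M : ℕ) (C ν : ℝ) (t : ℕ → ℝ),
    1 ≤ D → Sys p K G M C ν → Adm K M C ν t →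
    ∃ c C' : ℝ, 0 < c ∧ ∀ s : ℝ, 1 / 2 ≤ s → s < 1 →
      Summable (fun n => t (n + 1) * s ^ (n + 1)) ∧
      c * genU G s ≤ ∑' n, t (n + 1) * s ^ (n + 1) ∧ ∑' n, t (n + 1) * s ^ (n + 1) ≤ C' * genU G s

/-- Subcriticality is stable. -/
def B4Stmt : Prop :=
  ∀ (D : ℕ) (p : ℕ → Tr D → ℝ) (K G : ℕ → Tr D → Tr D → ℝ) (M : ℕ) (C ν : ℝ),
    1 ≤ D → Sys p K G M C ν → Sub G →
    ∃ η : ℝ, 0 < η ∧ ∀ (K' : ℕ → Tr D → Tr D → ℝ) (t : ℕ → ℝ), KerOK K' M C ν →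
      (∀ l u v, |K' l u v - K l u v| ≤ η * Real.exp (-ν * (l + ‖u‖))) → Adm K' M C ν t →
      ∃ C' : ℝ, ∀ n, 1 ≤ n → t n ≤ C'

/-- The homogeneous case. -/
def B5Stmt : Prop :=
  ∀ (D : ℕ) (p : ℕ → Tr D → ℝ) (G : ℕ → Tr D → Tr D → ℝ) (M : ℕ) (C ν : ℝ),
    1 ≤ D → 0 < ν → HomOK p M C ν → Mass p → IsGp (hk p) G →
    (Sub G ↔ 3 ≤ D) ∧
      (D ≤ 2 → ∀ t, Adm (hk p) M C ν t →
        ∃ c, 0 < c ∧ Tendsto (fun n : ℕ => t n / gCrit (D + 1) n) atTop (𝓝 c))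

/-! ### Abstract lemmas used on the random-cluster side -/

/-- Regeneration lemma (module Reg). `Φ i j` is the weight of the pieces `i, …, j - 1`. -/
def RegStmt : Prop :=
  ∀ C c : ℝ, 0 < c → ∃ C' κ : ℝ, 0 < κ ∧
    ∀ (m : ℕ) (Φ : ℕ → ℕ → ℝ) (B : ℕ → ℝ),
      (∀ i, Φ i i = 1) → (∀ i j, i ≤ j → j ≤ m → 0 < Φ i j) →
      (∀ i' i j, i' ≤ i → i ≤ j → j < m →
        Φ i (j + 1) / Φ i j ≤ Φ i' (j + 1) / Φ i' j ∧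
        Φ i' (j + 1) / Φ i' j ≤
          Real.exp (C * Real.exp (-c * ((j : ℝ) - i))) * (Φ i (j + 1) / Φ i j)) →
      (∀ j, 1 ≤ j → j ≤ m → Φ 0 j = ∑ k ∈ Ioc 0 j, B k * Φ k j) →
      ∀ j, 1 ≤ j → j ≤ m → 0 ≤ B j ∧ B j ≤ C' * Real.exp (-κ * j) * Φ 0 j

/-- The differential inequality of Duminil-Copin, Raoufi and Tassion. -/
def DiffStmt : Prop :=
  ∀ (θ θ' : ℕ → ℝ → ℝ) (a a' c : ℝ), a < a' → 0 < c →
    (∀ n, ∀ x ∈ Set.Icc a a', HasDerivAt (θ n) (θ' n x) x ∧ 0 ≤ θ n x ∧ θ n x ≤ 1) →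
    (∀ x ∈ Set.Icc a a', θ 0 x = 1) →
    (∀ n, 1 ≤ n → ∀ x ∈ Set.Icc a a', c * n * θ n x ≤ θ' n x * ∑ j ∈ range n, θ j x) →
    Tendsto (fun n => θ n a') atTop (𝓝 0) →
    ∃ C κ : ℝ, 0 < κ ∧ ∀ n : ℕ, θ n a ≤ C * Real.exp (-κ * n)

end

end Pool.Agent.MP_48a2f9_mp
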