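import Mathlib.Analysis.PSeries
import Mathlib.Analysis.Normed.Group.Tannery
import Mathlib.NumberTheory.Harmonic.Bounds
import Pool.Agent.MP_48a2f9_mp.TP
import Pool.Agent.MP_48a2f9_mp.FKUniq
import Pool.Agent.MP_48a2f9_mp.SpecA
import Pool.Agent.MP_48a2f9_mp.TPa

-- ======== part 0: formerly Pool.Agent.MP_48a2f9_mp.FKClu
section MrgPart0

/-!
The law of the cluster of a vertex, and the passage to infinite volume.
-/

open Finset Filter Topology
open scoped ENNReal

namespace Pool.Agent.MP_48a2f9_mp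

noncomputable section
open Classical

variable {D q : ℕ}

lemma oz_conn_iff {γ : Finset (Sym2 (Site D))} {a b : Site D} :
    OZ.Conn γ a b ↔ (lat D q).conn free γ a b := by
  constructor
  · intro h
    induction h with
    | refl => exact Eqv.refl' _ _
    | tail _ h ih => exact Eqv.trans' _ ih (lat_conn_edge _ h)
  · exact conn_free_induction (P := fun b => OZ.Conn γ a b) Relation.ReflTransGen.refl
      fun _ _ _ h k => h.tail k

lemma mem_verts {γ : Finset (Sym2 (Site D))} {x y : Site D} :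
    y ∈ OZ.verts x γ ↔ y = x ∨ ∃ e ∈ γ, y ∈ e := by
  simp only [OZ.verts, mem_insert, mem_biUnion, Sym2.mem_toFinset]

lemma mem_verts_of_conn {γ : Finset (Sym2 (Site D))} {x a b : Site D} (ha : a ∈ OZ.verts x γ)
    (h : (lat D q).conn free γ a b) : b ∈ OZ.verts x γ :=
  conn_free_induction (P := fun b => b ∈ OZ.verts x γ) ha
    (fun _ _ _ _ k => mem_verts.2 (Or.inr ⟨_, k, Sym2.mem_mk_right _ _⟩)) h

lemma rk_clu {γ : Finset (Sym2 (Site D))} {x : Site D} (hγ : OZ.IsClu x γ) :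
    (lat D q).rk free γ + 1 = (OZ.verts x γ).card := by
  obtain ⟨T, hT, hmax⟩ := exists_max_image (γ.powerset.filter fun T =>
    (∀ v ∈ OZ.verts x T, (lat D q).conn free T x v) ∧
      (lat D q).rk free T + 1 = (OZ.verts x T).card) card
    ⟨∅, mem_filter.2 ⟨empty_mem_powerset _, by simp [OZ.verts], by simp [OZ.verts]⟩⟩
  obtain ⟨hTγ, h1, h2⟩ := mem_filter.1 hT
  rw [mem_powerset] at hTγ
  by_cases hE : γ ⊆ T
  · rw [← subset_antisymm hTγ hE]; exact h2
  exfalso
  obtain ⟨e₀, he₀, he₀T⟩ := not_subset.1 hE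
  obtain ⟨a, b, ha, hab, habT⟩ : ∃ a b, a ∈ OZ.verts x T ∧ s(a, b) ∈ γ ∧ s(a, b) ∉ T := by
    by_cases h : (lat D q).s e₀ ∈ OZ.verts x T
    · exact ⟨_, (lat D q).t e₀, h, by rwa [lat_mk], by rwa [lat_mk]⟩
    · obtain ⟨a, b, ha, hb, hab, -⟩ := conn_cross (q := q) (P := fun z => z ∈ OZ.verts x T)
        (mem_verts.2 (Or.inl rfl)) h
        (oz_conn_iff.1 (hγ.2 _ (mem_verts.2 (Or.inr ⟨e₀, he₀, lat_s_mem e₀⟩))))
      exact ⟨a, b, ha, hab, fun k => hb (mem_verts.2 (Or.inr ⟨_, k, Sym2.mem_mk_right _ _⟩))⟩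
  have hv : OZ.verts x (insert s(a, b) T) = insert b (OZ.verts x T) := by
    ext y
    rw [mem_insert, mem_verts, mem_verts]
    simp only [mem_insert, exists_eq_or_imp, Sym2.mem_iff]
    have := mem_verts.1 ha
    constructor
    · rintro (h | (rfl | h) | h)
      exacts [Or.inr (Or.inl h), Or.inr this, Or.inl h, Or.inr (Or.inr h)]
    · rintro (h | h | h)
      exacts [Or.inr (Or.inl (Or.inr h)), Or.inl h, Or.inr (Or.inr h)]
  have hc : (lat D q).conn free T ((lat D q).s s(a, b)) ((lat D q).t s(a, b)) ↔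
      b ∈ OZ.verts x T := by
    have : (lat D q).conn free T a b ↔ b ∈ OZ.verts x T :=
      ⟨mem_verts_of_conn ha, fun h => Eqv.trans' _ (Eqv.symm' _ (h1 a ha)) (h1 b h)⟩
    rcases Sym2.eq_iff.1 (lat_mk (q := q) s(a, b)) with ⟨k, l⟩ | ⟨k, l⟩ <;> rw [k, l]
    · exact this
    · exact (Eqv.comm _).trans this
  have := hmax (insert s(a, b) T) (mem_filter.2 ⟨mem_powerset.2 (insert_subset hab hTγ), ?_, ?_⟩)
  · rw [card_insert_of_notMem habT] at this
    omega
  · intro v hv'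
    rw [hv, mem_insert] at hv'
    have m := Gr.conn_mono (G := lat D q) (W := free) le_rfl (subset_insert s(a, b) T)
    rcases hv' with rfl | hv'
    · exact Eqv.trans' _ (m (h1 a ha)) (lat_conn_edge _ (mem_insert_self _ _))
    · exact m (h1 v hv')
  · rw [Gr.rk_insert _ habT, hc, hv]
    by_cases hb : b ∈ OZ.verts x T
    · rw [Gr.gap_pos hb, insert_eq_of_mem hb, add_zero, h2]
    · rw [Gr.gap_neg hb, card_insert_of_notMem hb, h2]

lemma mem_cluE {x : Site D} {ω : Finset (Sym2 (Site D))} {e : Sym2 (Site D)} :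
    e ∈ cluE q x ω ↔ e ∈ ω ∧ ∃ y ∈ e, (lat D q).conn free ω x y := mem_filter

lemma conn_cluE {x y : Site D} {ω : Finset (Sym2 (Site D))} (h : (lat D q).conn free ω x y) :
    (lat D q).conn free (cluE q x ω) x y :=
  conn_free_induction (P := fun y => (lat D q).conn free (cluE q x ω) x y) (Eqv.refl' _ _)
    (fun a _ ha k l => Eqv.trans' _ k
      (lat_conn_edge _ (mem_cluE.2 ⟨l, a, Sym2.mem_mk_left _ _, ha⟩))) h

lemma mem_verts_cluE {x y : Site D} {ω : Finset (Sym2 (Site D))} :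
    y ∈ OZ.verts x (cluE q x ω) ↔ (lat D q).conn free ω x y := by
  refine ⟨fun h => ?_, fun h => mem_verts_of_conn (mem_verts.2 (Or.inl rfl)) (conn_cluE h)⟩
  rcases mem_verts.1 h with rfl | ⟨e, he, hy⟩
  · exact Eqv.refl' _ _
  · obtain ⟨h1, z, hz, h2⟩ := mem_cluE.1 he
    exact Eqv.trans' _ h2 (lat_conn_of_mem _ h1 hz hy)

lemma isClu_cluE {x : Site D} {ω : Finset (Sym2 (Site D))} (hω : ∀ e ∈ ω, IsEdge e) :
    OZ.IsClu x (cluE q x ω) :=
  ⟨fun e he => hω e (mem_cluE.1 he).1,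
    fun _ hv => oz_conn_iff.2 (conn_cluE (mem_verts_cluE.1 hv))⟩

lemma cluE_eq_iff {x : Site D} {γ E ω : Finset (Sym2 (Site D))} (hγ : OZ.IsClu x γ)
    (hE : ∀ e ∈ E, IsEdge e) (hγE : γ ⊆ E) (hω : ω ⊆ E) :
    cluE q x ω = γ ↔ ω ∩ (E ∩ edgesOf (OZ.verts x γ)) = γ := by
  have m : ∀ e, e ∈ ω ∩ (E ∩ edgesOf (OZ.verts x γ)) ↔ e ∈ ω ∧ ∃ y ∈ e, y ∈ OZ.verts x γ := by
    intro e
    rw [Finset.mem_inter, Finset.mem_inter, mem_edgesOf]
    exact ⟨fun h => ⟨h.1, h.2.2.2⟩, fun h => ⟨h.1, hω h.1, hE e (hω h.1), h.2⟩⟩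
  constructor
  · rintro rfl
    refine Finset.ext fun e => ?_
    simp only [m, mem_verts_cluE, mem_cluE]
  · intro h
    have hγω : γ ⊆ ω := h ▸ inter_subset_left
    have key : ∀ y, (lat D q).conn free ω x y ↔ y ∈ OZ.verts x γ := fun y =>
      ⟨conn_free_induction (P := fun y => y ∈ OZ.verts x γ) (mem_verts.2 (Or.inl rfl))
        fun a b _ ha k => mem_verts.2 (Or.inr ⟨_, h ▸ (m _).2 ⟨k, a, Sym2.mem_mk_left _ _, ha⟩,
          Sym2.mem_mk_right _ _⟩),
      fun k => Gr.conn_mono le_rfl hγω (oz_conn_iff.1 (hγ.2 y k))⟩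
    refine Finset.ext fun e => ?_
    conv_rhs => rw [← h]
    simp only [m, mem_cluE, key]

variable {β J : ℝ} {S : Set (Site D)}

/-- The cluster formula. -/
lemma pr_cluE (hq : 1 ≤ q) {x : Site D} {γ : Finset (Sym2 (Site D))}
    (hγ : OZ.IsClu x γ) (hS : (↑(OZ.verts x γ) : Set (Site D)) ⊆ S) {Λ : Finset (Site D)}
    (hΛ : OZ.verts x γ ⊆ Λ) :
    (lat D q).pr (vJ β J) free (eS S Λ) (fun ω => cluE q x ω = γ) =
      (q : ℝ) * (∏ e ∈ γ, vJ β J e) *
        ((q : ℝ)⁻¹ ^ (OZ.verts x γ).card * piF q β J S (OZ.verts x γ) Λ) := by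
  have hγE : γ ⊆ eS S Λ := fun e he => mem_eS.2 ⟨hγ.1 e he, fun y hy =>
    have := mem_verts.2 (Or.inr ⟨e, he, hy⟩ : y = x ∨ _)
    ⟨hΛ this, hS this⟩⟩
  have hγF : γ ⊆ eS S Λ ∩ edgesOf (OZ.verts x γ) := fun e he => mem_inter.2 ⟨hγE he,
    mem_edgesOf.2 ⟨hγ.1 e he, _, Sym2.out_fst_mem e,
      mem_verts.2 (Or.inr ⟨e, he, Sym2.out_fst_mem e⟩)⟩⟩
  have h1 := Gr.pr_inter_eq (G := lat D q) (v := vJ β J) (W := free) inter_subset_left hγF
    fun _ => 1
  simp only [mul_one, Gr.sm_one, eS_sdiff] at h1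
  have h2 : (lat D q).Z (vJ β J) ((lat D q).conn free γ) (eS (S \ ↑(OZ.verts x γ)) Λ) =
      (lat D q).Z (vJ β J) free (eS (S \ ↑(OZ.verts x γ)) Λ) := by
    refine sum_congr rfl fun ω hω => Gr.wt_local _ (S := (↑(OZ.verts x γ))ᶜ)
      (fun a ha b _ => ⟨fun k => ?_, fun k => Gr.le_conn _ _ k⟩) fun e he => ?_
    · exact (conn_free_induction (P := fun b => b = a) rfl (fun c d _ hc l =>
        absurd (mem_verts.2 (Or.inr ⟨_, l, hc ▸ Sym2.mem_mk_left _ _⟩)) ha) k).symm
    · have := (mem_eS.1 (mem_powerset.1 hω he)).2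
      exact ⟨(this _ (lat_s_mem e)).2.2, (this _ (lat_t_mem e)).2.2⟩
  rw [Gr.pr_congr fun ω hω => cluE_eq_iff hγ eS_edge hγE hω, Gr.pr, Gr.ex, h1, h2, piF_eq, Gr.wt,
    lat_q hq, ← rk_clu (q := q) hγ, pow_succ]
  have : (q : ℝ) ≠ 0 := by positivity
  field_simp

/-- The cluster-weight system of the FK model. -/
def mdl (D q : ℕ) (β : ℝ) : OZ.Model D := ⟨q, β, Psi q β⟩

lemma tendsto_wtR (hq : 1 ≤ q) (hβ : 0 ≤ β) (hJ : 0 ≤ J) {x : Site D}
    {γ : Finset (Sym2 (Site D))} (hγ : OZ.IsClu x γ) (hS : (↑(OZ.verts x γ) : Set (Site D)) ⊆ S) :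
    Tendsto (fun Λ => (lat D q).pr (vJ β J) free (eS S Λ) fun ω => cluE q x ω = γ) atTop
      (𝓝 ((mdl D q β).wtR J S x γ)) := by
  refine (((tendsto_piF hβ hJ S (OZ.verts x γ)).const_mul _).const_mul _).congr' ?_
  filter_upwards [eventually_ge_atTop (OZ.verts x γ)] with Λ hΛ
  exact (pr_cluE hq hγ hS hΛ).symm

lemma wtR_nonneg (hβ : 0 ≤ β) (hJ : 0 ≤ J) (x : Site D) (γ : Finset (Sym2 (Site D))) :
    0 ≤ (mdl D q β).wtR J S x γ :=
  mul_nonneg (mul_nonneg (Nat.cast_nonneg _) (prod_nonneg fun e _ => vJ_nonneg hβ hJ e))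
    (mul_nonneg (by positivity) (piI_nonneg hβ hJ))

lemma sum_wt (hβ : 0 ≤ β) (hJ : 0 ≤ J) (x : Site D) {f : Finset (Sym2 (Site D)) → ℝ}
    (hf : ∀ γ, 0 ≤ f γ) (T : Finset (Finset (Sym2 (Site D)))) :
    ∑ γ ∈ T, (mdl D q β).wt J S x γ * ENNReal.ofReal (f γ) = ENNReal.ofReal
      (∑ γ ∈ T.filter fun γ => OZ.IsClu x γ ∧ (↑(OZ.verts x γ) : Set (Site D)) ⊆ S,
        (mdl D q β).wtR J S x γ * f γ) := by
  rw [ENNReal.ofReal_sum_of_nonneg fun γ _ => mul_nonneg (wtR_nonneg hβ hJ x γ) (hf γ), sum_filter]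
  refine sum_congr rfl fun γ _ => ?_
  unfold OZ.Model.wt
  split_ifs
  · rw [ENNReal.ofReal_mul (wtR_nonneg hβ hJ x γ)]
  · rw [zero_mul]

lemma tendsto_sum_wtR (hq : 1 ≤ q) (hβ : 0 ≤ β) (hJ : 0 ≤ J) (x : Site D)
    (f : Finset (Sym2 (Site D)) → ℝ) {T : Finset (Finset (Sym2 (Site D)))}
    (hT : ∀ γ ∈ T, OZ.IsClu x γ ∧ (↑(OZ.verts x γ) : Set (Site D)) ⊆ S) :
    Tendsto (fun Λ => (lat D q).ex (vJ β J) free (eS S Λ)
      fun ω => ind (cluE q x ω ∈ T) * f (cluE q x ω)) atTop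
      (𝓝 (∑ γ ∈ T, (mdl D q β).wtR J S x γ * f γ)) := by
  refine (tendsto_finsetSum T fun γ hγ =>
    (tendsto_wtR hq hβ hJ (hT γ hγ).1 (hT γ hγ).2).mul_const (f γ)).congr fun Λ => ?_
  simp only [Gr.pr, ← Gr.ex_mul_const, ← Gr.ex_sum]
  refine Gr.ex_congr fun ω _ => ?_
  by_cases h : cluE q x ω ∈ T
  · rw [sum_eq_single_of_mem _ h fun γ _ k => by rw [ind_neg (Ne.symm k), zero_mul], ind_pos h,
      ind_pos rfl]
  · rw [ind_neg h, zero_mul]
    exact sum_eq_zero fun γ hγ => by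
      rw [ind_neg fun k : cluE q x ω = γ => h (k ▸ hγ), zero_mul]

/-- Upper bounds pass to infinite volume. -/
lemma tsum_wt_le (hq : 1 ≤ q) (hβ : 0 ≤ β) (hJ : 0 ≤ J) (x : Site D)
    {f : Finset (Sym2 (Site D)) → ℝ} (hf : ∀ γ, 0 ≤ f γ) {c : ℝ}
    (h : ∀ Λ, (lat D q).ex (vJ β J) free (eS S Λ) (fun ω => f (cluE q x ω)) ≤ c) :
    ∑' γ, (mdl D q β).wt J S x γ * ENNReal.ofReal (f γ) ≤ ENNReal.ofReal c := by
  refine ENNReal.summable.tsum_le_of_sum_le fun T => ?_
  rw [sum_wt hβ hJ x hf]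
  refine ENNReal.ofReal_le_ofReal (le_of_tendsto' (tendsto_sum_wtR hq hβ hJ x f
    fun γ hγ => (mem_filter.1 hγ).2) fun Λ => le_trans (Gr.ex_mono (vJ_nonneg hβ hJ) fun ω _ => ?_)
    (h Λ))
  exact mul_le_of_le_one_left (hf _) (ind_le_one _)

lemma tau_eq_tsum (x y : Site D) : (mdl D q β).tau J S x y =
    ∑' γ, (mdl D q β).wt J S x γ * ENNReal.ofReal (ind (y ∈ OZ.verts x γ)) := by
  unfold OZ.Model.tau
  refine tsum_congr fun γ => ?_
  split_ifs with h
  · simp [ind_pos h]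
  · simp [ind_neg h]

lemma tauIn_mono {J' : ℝ} (hβ : 0 ≤ β) (hJ : 0 ≤ J) (hJJ : J ≤ J') {Λ Λ' : Finset (Site D)}
    (h : Λ ⊆ Λ') (x y : Site D) : tauIn q β J Λ x y ≤ tauIn q β J' Λ' x y :=
  Gr.pr_holley (vJ_nonneg hβ hJ) (vJ_nonneg hβ (hJ.trans hJJ)) le_rfl (edgesIn_mono h)
    (fun e _ => vJ_mono hβ le_rfl hJ hJJ e) (Gr.incr_conn _ _ x y)

lemma tendsto_tauIn (hβ : 0 ≤ β) (hJ : 0 ≤ J) (x y : Site D) :
    Tendsto (fun Λ => tauIn q β J Λ x y) atTop (𝓝 (tau q β J x y)) :=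
  tendsto_atTop_ciSup (fun _ _ h => tauIn_mono hβ hJ le_rfl h x y)
    ⟨1, by rintro _ ⟨Λ, rfl⟩; exact Gr.pr_le_one (vJ_nonneg hβ hJ)⟩

lemma tau_nonneg (hβ : 0 ≤ β) (hJ : 0 ≤ J) (x y : Site D) : 0 ≤ tau q β J x y :=
  ge_of_tendsto' (tendsto_tauIn hβ hJ x y) fun _ => Gr.pr_nonneg (vJ_nonneg hβ hJ)

lemma mdl_tau_le (hq : 1 ≤ q) (hβ : 0 ≤ β) (hJ : 0 ≤ J) (S : Set (Site D)) (x y : Site D) :
    (mdl D q β).tau J S x y ≤ ENNReal.ofReal (tau q β J x y) := by
  rw [tau_eq_tsum]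
  refine tsum_wt_le hq hβ hJ x (f := fun γ => ind (y ∈ OZ.verts x γ)) (fun _ => ind_nonneg _)
    fun Λ => ?_
  simp only [mem_verts_cluE]
  exact tauIn_le_tau hβ hJ _ x y

lemma mdl_tau_eq (hq : 1 ≤ q) (hβ : 0 ≤ β) (hJ : 0 ≤ J) (hW : WiredDecay D q β J) (x y : Site D) :
    (mdl D q β).tau J Set.univ x y = ENNReal.ofReal (tau q β J x y) := by
  refine le_antisymm (mdl_tau_le hq hβ hJ _ x y) ?_
  have hv := vJ_nonneg (D := D) hβ hJ
  have hfin : (mdl D q β).tau J Set.univ x y ≠ ⊤ :=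
    ne_top_of_le_ne_top ENNReal.ofReal_ne_top (mdl_tau_le hq hβ hJ _ x y)
  rw [ENNReal.ofReal_le_iff_le_toReal hfin]
  obtain ⟨C, c, hc, hd⟩ := hW
  have lim : Tendsto (fun r : ℕ => ((mdl D q β).tau J Set.univ x y).toReal +
      C * Real.exp (-c * r)) atTop (𝓝 (((mdl D q β).tau J Set.univ x y).toReal + C * 0)) := by
    refine tendsto_const_nhds.add (Tendsto.const_mul _ (Real.tendsto_exp_atBot.comp ?_))
    exact tendsto_natCast_atTop_atTop.const_mul_atTop_of_neg (neg_lt_zero.2 hc)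
  rw [mul_zero, add_zero] at lim
  refine ge_of_tendsto' lim fun r => ?_
  set T := (edgesOf (box x r)).powerset.filter
    fun γ => OZ.IsClu x γ ∧ (↑(OZ.verts x γ) : Set (Site D)) ⊆ Set.univ with hT
  have h1 : ∑ γ ∈ T, (mdl D q β).wtR J Set.univ x γ * ind (y ∈ OZ.verts x γ) ≤
      ((mdl D q β).tau J Set.univ x y).toReal := by
    rw [← ENNReal.ofReal_le_iff_le_toReal hfin, tau_eq_tsum,
      ← sum_wt hβ hJ x (f := fun γ => ind (y ∈ OZ.verts x γ)) fun _ => ind_nonneg _]
    exact ENNReal.sum_le_tsum _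
  refine le_trans (le_of_tendsto_of_tendsto' (tendsto_tauIn hβ hJ x y)
    ((tendsto_sum_wtR hq hβ hJ x (fun γ => ind (y ∈ OZ.verts x γ))
      fun γ hγ => (mem_filter.1 hγ).2).add_const (C * Real.exp (-c * r))) fun Λ => ?_)
    (add_le_add h1 le_rfl)
  have h2 := (pr_exits_le (q := q) hβ hJ (E := edgesIn Λ) (fun e he => (mem_edgesIn.1 he).1)
    (Λ := box x r) (free_le _) x).trans (hd J hJ le_rfl x r)
  refine le_trans ?_ (add_le_add le_rfl h2)
  rw [eS_univ, Gr.pr, ← Gr.ex_add]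
  refine Gr.ex_mono hv fun ω hω => ?_
  have hω' : ∀ e ∈ ω, IsEdge e := fun e he => (mem_edgesIn.1 (hω he)).1
  by_cases h : Exits q (box x r) x ω
  · rw [ind_pos h]
    exact (ind_le_one _).trans (le_add_of_nonneg_left (mul_nonneg (ind_nonneg _) (ind_nonneg _)))
  · rw [ind_neg h, add_zero, ind_pos (P := _ ∈ _), one_mul, mem_verts_cluE]
    refine mem_filter.2 ⟨mem_powerset.2 fun e he => ?_, isClu_cluE hω', Set.subset_univ _⟩
    obtain ⟨h3, z, hz, h4⟩ := mem_cluE.1 he
    exact mem_edgesOf.2 ⟨hω' e h3, z, hz, by_contra fun k => h ⟨z, k, h4⟩⟩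

end

end Pool.Agent.MP_48a2f9_mp

end MrgPart0

-- ======== part 1: formerly Pool.Agent.MP_48a2f9_mp.Reg
section MrgPart1

/-! The regeneration lemma and the differential inequality. -/

open Finset Filter Topology

namespace Pool.Agent.MP_48a2f9_mp

namespace RegM

theorem lyap {C c : ℝ} (hC : 0 < C) (hc : 0 < c) : ∃ θ : ℝ, 0 < θ ∧ θ < 1 ∧ ∃ V W : ℕ → ℝ,
    V 0 = 0 ∧ 0 < V 1 ∧ (∀ i, V i ≤ V (i + 1)) ∧
    (∀ i : ℕ, (V (i + 1) - V i) * (1 - Real.exp (-(C * Real.exp (-c * i)))) ≤ W i - W (i + 1)) ∧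
    (∀ i, 0 ≤ W i) ∧ ∀ k, V k + W k ≤ θ * V (k + 1) := by
  obtain ⟨x, hx⟩ : ∃ x, x = Real.exp (-c / 2) := ⟨_, rfl⟩
  have x0 : 0 < x := hx ▸ Real.exp_pos _
  have x1 : x < 1 := by rw [hx, Real.exp_lt_one_iff]; linarith
  have x2 : 0 < 1 - x := by linarith
  have x3 : 0 < 1 - x ^ 2 := by nlinarith
  have hxi : ∀ i : ℕ, Real.exp (-c * i) = (x ^ i) ^ 2 := fun i => by
    rw [hx, ← Real.exp_nat_mul, ← Real.exp_nat_mul]; congr 1; push_cast; ring
  obtain ⟨G, hG⟩ : ∃ G, G = C / (1 - x ^ 2) := ⟨_, rfl⟩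
  have G0 : 0 < G := hG ▸ div_pos hC x3
  obtain ⟨ε, hε⟩ : ∃ ε, ε = (1 - x) / C := ⟨_, rfl⟩
  have ε0 : 0 < ε := hε ▸ div_pos x2 hC
  have εC : ε * C = 1 - x := by rw [hε]; field_simp
  obtain ⟨K, hK⟩ : ∃ K, K = (Real.exp G + ε) / (1 - x) := ⟨_, rfl⟩
  have eG := Real.exp_pos G
  have K1 : K * (1 - x) = Real.exp G + ε := by rw [hK]; field_simp
  have K0 : ε < K := by nlinarith
  have p0 : ∀ i : ℕ, 0 < x ^ i := fun i => pow_pos x0 i
  have p1 : ∀ i : ℕ, x ^ i ≤ 1 := fun i => pow_le_one₀ x0.le x1.le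
  have D0 : ∀ i : ℕ, 0 < Real.exp (G * (x ^ i) ^ 2) + ε / x ^ i := fun i => by
    have := p0 i; positivity
  have hV : ∀ k : ℕ, ∑ i ∈ range (k + 1), (Real.exp (G * (x ^ i) ^ 2) + ε / x ^ i) ≤ K / x ^ k := by
    have a : ∀ i : ℕ, Real.exp (G * (x ^ i) ^ 2) + ε / x ^ i ≤ K * (1 - x) / x ^ i := fun i => by
      rw [K1, add_div]
      refine add_le_add_left (le_trans (Real.exp_le_exp.2 ?_) (le_div_self eG.le (p0 i) (p1 i))) _
      exact mul_le_of_le_one_right G0.le (pow_le_one₀ (p0 i).le (p1 i))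
    intro k
    induction k with
    | zero => simpa using (a 0).trans (by simp; nlinarith)
    | succ k ih =>
      rw [sum_range_succ]
      refine (add_le_add ih (a _)).trans (le_of_eq ?_)
      have := p0 k
      rw [pow_succ]; field_simp; ring
  refine ⟨1 - ε / K, by rw [sub_pos, div_lt_one (ε0.trans K0)]; exact K0,
    by have := div_pos ε0 (ε0.trans K0); linarith,
    fun k => ∑ i ∈ range k, (Real.exp (G * (x ^ i) ^ 2) + ε / x ^ i),
    fun i => Real.exp (G * (x ^ i) ^ 2) - 1 + x ^ i, by simp, by simpa using D0 0,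
    fun i => by beta_reduce; rw [sum_range_succ]; linarith [D0 i], fun i => ?_, fun i => ?_,
    fun k => ?_⟩ <;> beta_reduce
  · rw [sum_range_succ, add_sub_cancel_left, hxi]
    have a1 : Real.exp (G * (x ^ (i + 1)) ^ 2) =
        Real.exp (G * (x ^ i) ^ 2) * Real.exp (-(C * (x ^ i) ^ 2)) := by
      rw [← Real.exp_add, hG]; congr 1; field_simp; ring
    have a2 : 1 - Real.exp (-(C * (x ^ i) ^ 2)) ≤ C * (x ^ i) ^ 2 := by
      linarith [Real.add_one_le_exp (-(C * (x ^ i) ^ 2))]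
    have a3 : ε / x ^ i * (1 - Real.exp (-(C * (x ^ i) ^ 2))) ≤ x ^ i - x ^ (i + 1) := by
      refine (mul_le_mul_of_nonneg_left a2 (div_pos ε0 (p0 i)).le).trans (le_of_eq ?_)
      have := p0 i
      rw [← mul_assoc, div_mul_eq_mul_div, εC, pow_succ x i]; field_simp
    rw [a1]; linarith
  · have : 1 ≤ Real.exp (G * (x ^ i) ^ 2) := Real.one_le_exp (by positivity)
    linarith [p0 i]
  · have a1 := mul_le_mul_of_nonneg_left (hV k) (div_pos ε0 (ε0.trans K0)).le
    have a2 : ε / K * (K / x ^ k) = ε / x ^ k := by have := (ε0.trans K0).ne'; field_simp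
    rw [sub_mul, one_mul]
    rw [a2] at a1
    have := sum_range_succ (fun i => Real.exp (G * (x ^ i) ^ 2) + ε / x ^ i) k
    linarith [p1 k]

theorem mono {f f' : ℝ → ℝ} {u v : ℝ} (h : ∀ x ∈ Set.Icc u v, HasDerivAt f (f' x) x ∧ 0 ≤ f' x) :
    MonotoneOn f (Set.Icc u v) :=
  monotoneOn_of_deriv_nonneg (convex_Icc u v) (fun x hx => (h x hx).1.continuousAt.continuousWithinAt)
    (fun x hx => (h x (interior_subset hx)).1.differentiableAt.differentiableWithinAt)
    fun x hx => by rw [(h x (interior_subset hx)).1.deriv]; exact (h x (interior_subset hx)).2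

theorem gron {f f' : ℝ → ℝ} {u v k : ℝ} (huv : u ≤ v) (h1 : f v ≤ 1)
    (h : ∀ x ∈ Set.Icc u v, HasDerivAt f (f' x) x ∧ k * f x ≤ f' x) :
    f u ≤ Real.exp (-(k * (v - u))) := by
  have := mono (f := fun x => Real.exp (-k * (x - u)) * f x)
    (f' := fun x => Real.exp (-k * (x - u)) * (f' x - k * f x)) (u := u) (v := v) (fun x hx =>
      ⟨by
        have a := ((((hasDerivAt_id x).sub_const u).const_mul (-k)).exp).mul (h x hx).1
        exact a.congr_deriv (by simp only [id]; ring), mul_nonneg (Real.exp_pos _).le (sub_nonneg.2 (h x hx).2)⟩)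
    (Set.left_mem_Icc.2 huv) (Set.right_mem_Icc.2 huv) huv
  simp only [sub_self, mul_zero, Real.exp_zero, one_mul, neg_mul] at this
  exact this.trans (mul_le_of_le_one_right (Real.exp_pos _).le h1)

end RegM

open RegM

theorem regStmt : RegStmt := by
  intro C c hc
  obtain ⟨θ, θ0, θ1, V, W, V0, V1, Vm, hD, W0, hV⟩ := lyap (C := |C| + 1) (by positivity) hc
  refine ⟨θ⁻¹, -Real.log θ, neg_pos.2 (Real.log_neg θ0 θ1), fun m Φ B h1 h2 h3 h4 => ?_⟩
  let Ψ : ℕ → ℕ → ℝ := fun r L => Φ 0 r - ∑ k ∈ Ioc 0 L, B k * Φ k r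
  have Ψs : ∀ r L, Ψ r (L + 1) = Ψ r L - B (L + 1) * Φ (L + 1) r := fun r L => by
    simp only [Ψ]; rw [sum_Ioc_succ_top (Nat.zero_le L)]; ring
  have Ψ0 : ∀ r, Ψ r 0 = Φ 0 r := fun r => by simp [Ψ]
  have key : ∀ r, r + 1 ≤ m → ∀ L ≤ r + 1,
      0 ≤ Ψ (r + 1) L ∧ Ψ (r + 1) L ≤ θ ^ r / V 1 * Φ 0 (r + 1) * V (r + 1 - L) := by
    have top : ∀ r, r + 1 ≤ m → Ψ (r + 1) (r + 1) = 0 := fun r hr =>
      sub_eq_zero.2 (h4 _ (by omega) hr)
    intro r
    induction r with
    | zero =>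
      intro hr L hL
      obtain rfl | rfl : L = 0 ∨ L = 1 := by omega
      · rw [Ψ0]; exact ⟨(h2 _ _ (by omega) hr).le, le_of_eq (by simp; field_simp)⟩
      · rw [top 0 hr]; simp [V0]
    | succ r ih =>
      intro hr
      replace ih := ih (by omega)
      rw [pow_succ]
      generalize r + 1 = s at *
      obtain ⟨M, hM⟩ : ∃ M, M = θ ^ r / V 1 * Φ 0 s := ⟨_, rfl⟩
      have M0 : 0 ≤ M := by have := h2 0 s (by omega) (by omega); rw [hM]; positivity
      rw [← hM] at ih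
      let A : ℕ → ℝ := fun l => Φ l (s + 1) / Φ l s
      have A0 : ∀ l ≤ s, 0 < A l := fun l hl => div_pos (h2 _ _ (by omega) hr) (h2 _ _ hl (by omega))
      have A1 : ∀ l ≤ s, Φ l (s + 1) = A l * Φ l s := fun l hl =>
        (div_mul_cancel₀ _ (h2 _ _ hl (by omega)).ne').symm
      have X : ∀ L ≤ s, 0 ≤ Ψ (s + 1) L - A L * Ψ s L ∧ Ψ (s + 1) L - A L * Ψ s L ≤
          M * ((A 0 - A L) * V (s - L) + A 0 * (W (s - L) - W s)) := by
        intro L
        induction L with
        | zero => intro _; simp [Ψ0, A1 0]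
        | succ L ih2 =>
          intro hL
          obtain ⟨b1, b2⟩ := ih2 (by omega)
          obtain ⟨b3, b4⟩ := ih L (by omega)
          have b5 : A (L + 1) ≤ A L := (h3 L (L + 1) s (by omega) hL hr).1
          obtain ⟨b6, b7⟩ := h3 0 (L + 1) s (by omega) hL hr
          obtain ⟨i, hi⟩ : ∃ i, s = i + (L + 1) := ⟨s - (L + 1), by omega⟩
          have e1 : s - L = i + 1 := by omega
          have e2 : s - (L + 1) = i := by omega
          have e3 : (s : ℝ) - (L + 1 : ℕ) = i := by rw [hi]; push_cast; ring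
          rw [e3] at b7
          have b8 : A 0 * Real.exp (-((|C| + 1) * Real.exp (-c * i))) ≤ A (L + 1) := by
            rw [Real.exp_neg, ← div_eq_mul_inv, div_le_iff₀' (Real.exp_pos _)]
            refine b7.trans (mul_le_mul_of_nonneg_right (Real.exp_le_exp.2 ?_) (A0 _ hL).le)
            exact mul_le_mul_of_nonneg_right (by linarith [le_abs_self C]) (Real.exp_pos _).le
          have b9 := mul_le_mul_of_nonneg_left (hD i) (A0 0 (by omega)).le
          have b10 := mul_le_mul_of_nonneg_left b8 (sub_nonneg.2 (Vm i))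
          have e : Ψ (s + 1) (L + 1) - A (L + 1) * Ψ s (L + 1) =
              Ψ (s + 1) L - A L * Ψ s L + (A L - A (L + 1)) * Ψ s L := by
            rw [Ψs, Ψs, A1 _ hL]; ring
          rw [e1] at b2 b4
          rw [e, e2]
          refine ⟨add_nonneg b1 (mul_nonneg (sub_nonneg.2 b5) b3), ?_⟩
          refine (add_le_add b2 (mul_le_mul_of_nonneg_left b4 (sub_nonneg.2 b5))).trans ?_
          rw [mul_left_comm, ← mul_add]
          exact mul_le_mul_of_nonneg_left (by linarith) M0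
      intro L hL
      rcases hL.eq_or_lt with rfl | hL
      · rw [top s hr]; simp [V0]
      have hL' : L ≤ s := by omega
      obtain ⟨b1, b2⟩ := X L hL'
      obtain ⟨b3, b4⟩ := ih L hL'
      have a0 := A0 0 (by omega)
      have b5 := mul_le_mul_of_nonneg_left b4 (A0 L hL').le
      have b6 := mul_le_mul_of_nonneg_left (hV (s - L)) (mul_nonneg M0 a0.le)
      have b7 := mul_nonneg (mul_nonneg M0 a0.le) (W0 s)
      refine ⟨by linarith [mul_nonneg (A0 L hL').le b3], ?_⟩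
      rw [show s + 1 - L = s - L + 1 by omega, A1 0 (by omega)]
      have : θ ^ r * θ / V 1 * (A 0 * Φ 0 s) * V (s - L + 1) = M * A 0 * (θ * V (s - L + 1)) := by
        rw [hM]; ring
      rw [this]; linarith
  intro j hj hjm
  obtain ⟨r, rfl⟩ : ∃ r, j = r + 1 := ⟨j - 1, by omega⟩
  have e : B (r + 1) = Ψ (r + 1) r := by
    have := Ψs (r + 1) r
    rw [show Ψ (r + 1) (r + 1) = 0 from sub_eq_zero.2 (h4 _ hj hjm), h1] at this
    linarith
  obtain ⟨b1, b2⟩ := key r hjm r (by omega)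
  refine ⟨e ▸ b1, e ▸ b2.trans (le_of_eq ?_)⟩
  rw [neg_neg, mul_comm (Real.log θ), Real.exp_nat_mul, Real.exp_log θ0, Nat.add_sub_cancel_left]
  field_simp; ring

theorem diffStmt : DiffStmt := by
  intro θ θ' a a' c haa hc h1 h0 h2 h3
  obtain ⟨w, hw⟩ : ∃ w, w = (a' - a) / 3 := ⟨_, rfl⟩
  have w0 : 0 < w := by rw [hw]; linarith
  have S1 : ∀ n, 1 ≤ n → ∀ x ∈ Set.Icc a a', 1 ≤ ∑ j ∈ range n, θ j x := fun n hn x hx =>
    (h0 x hx).symm.trans_le (single_le_sum (f := fun j => θ j x) (fun j _ => (h1 j x hx).2.1)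
      (mem_range.2 hn))
  have d0 : ∀ n, 1 ≤ n → ∀ x ∈ Set.Icc a a', 0 ≤ θ' n x := fun n hn x hx =>
    nonneg_of_mul_nonneg_left (le_trans (mul_nonneg (by positivity) (h1 n x hx).2.1) (h2 n hn x hx))
      (by linarith [S1 n hn x hx])
  have mo : ∀ n, ∀ x ∈ Set.Icc a a', ∀ y ∈ Set.Icc a a', x ≤ y →
      ∑ j ∈ range n, θ j x ≤ ∑ j ∈ range n, θ j y := fun n x hx y hy hxy => sum_le_sum fun j _ => by
    rcases j.eq_zero_or_pos with rfl | hj
    · rw [h0 x hx, h0 y hy]
    · exact mono (fun z hz => ⟨(h1 j z hz).1, d0 j hj z hz⟩) hx hy hxy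
  have step : ∀ n, 1 ≤ n → ∀ u ∈ Set.Icc a a', u + w ∈ Set.Icc a a' → ∀ S,
      ∑ j ∈ range n, θ j (u + w) ≤ S → θ n u ≤ Real.exp (-(c * n / S * w)) := by
    intro n hn u hu hv S hS
    have := gron (f := θ n) (f' := θ' n) (k := c * n / S) (by linarith : u ≤ u + w) (h1 n _ hv).2.2
      fun x hx => by
        have hx' : x ∈ Set.Icc a a' := ⟨hu.1.trans hx.1, hx.2.trans hv.2⟩
        refine ⟨(h1 n x hx').1, ?_⟩
        rw [div_mul_eq_mul_div, div_le_iff₀ (by linarith [S1 n hn _ hv])]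
        exact (h2 n hn x hx').trans
          (mul_le_mul_of_nonneg_left ((mo n x hx' _ hv hx.2).trans hS) (d0 n hn x hx'))
    rwa [add_sub_cancel_left] at this
  have m0 : a ∈ Set.Icc a a' := Set.left_mem_Icc.2 haa.le
  have m1 : a + w ∈ Set.Icc a a' := ⟨by linarith, by linarith⟩
  have m2 : a + w + w ∈ Set.Icc a a' := ⟨by linarith, by linarith⟩
  have m3 : a' ∈ Set.Icc a a' := Set.right_mem_Icc.2 haa.le
  have T : ∀ n, c * w * Real.log (∑ j ∈ range (n + 1), θ j (a + w + w)) ≤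
      ∑ i ∈ range n, θ (i + 1) a' / (i + 1) := by
    intro n
    have lg : ∀ x ∈ Set.Icc a a', c * Real.log (∑ j ∈ range (n + 1), θ j x) ≤
        ∑ i ∈ range n, θ' (i + 1) x / (i + 1) := by
      intro x hx
      induction n with
      | zero => simp [h0 x hx]
      | succ n ih =>
        have s1 := S1 (n + 1) (by omega) x hx
        have s2 := h2 (n + 1) (by omega) x hx
        have s3 := (h1 (n + 1) x hx).2.1
        rw [sum_range_succ _ (n + 1), sum_range_succ (fun i => θ' (i + 1) x / (i + 1)) n]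
        generalize ∑ j ∈ range (n + 1), θ j x = S at *
        have s4 : Real.log (S + θ (n + 1) x) ≤ Real.log S + θ (n + 1) x / S := by
          have := Real.log_le_sub_one_of_pos (show 0 < (S + θ (n + 1) x) / S by positivity)
          rw [Real.log_div (by positivity) (by positivity), add_div, div_self (by positivity)] at this
          linarith
        have s5 : c * (θ (n + 1) x / S) ≤ θ' (n + 1) x / (n + 1) := by
          rw [← mul_div_assoc, div_le_div_iff₀ (by positivity) (by positivity)]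
          push_cast at s2; linarith
        have s6 := mul_le_mul_of_nonneg_left s4 hc.le
        linarith
    obtain ⟨l, hl⟩ : ∃ l, l = c * Real.log (∑ j ∈ range (n + 1), θ j (a + w + w)) := ⟨_, rfl⟩
    have := mono (f := fun x => ∑ i ∈ range n, θ (i + 1) x / (i + 1) - l * x)
      (f' := fun x => ∑ i ∈ range n, θ' (i + 1) x / (i + 1) - l) (u := a + w + w) (v := a')
      (fun x hx => by
        have hx' : x ∈ Set.Icc a a' := ⟨m2.1.trans hx.1, hx.2⟩
        refine ⟨?_, sub_nonneg.2 (le_trans ?_ (lg x hx'))⟩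
        · simpa using (HasDerivAt.fun_sum fun i _ => ((h1 (i + 1) x hx').1.div_const
            ((i : ℝ) + 1))).fun_sub ((hasDerivAt_id' x).const_mul l)
        · rw [hl]
          exact mul_le_mul_of_nonneg_left (Real.log_le_log (by linarith [S1 (n + 1) (by omega) _ m2])
            (mo _ _ m2 x hx' hx.1)) hc.le)
      (Set.left_mem_Icc.2 m2.2) (Set.right_mem_Icc.2 m2.2) m2.2
    have z : 0 ≤ ∑ i ∈ range n, θ (i + 1) (a + w + w) / (i + 1) :=
      sum_nonneg fun i _ => div_nonneg (h1 _ _ m2).2.1 (by positivity)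
    have e : a' = a + w + w + w := by rw [hw]; ring
    have : l * w ≤ ∑ i ∈ range n, θ (i + 1) a' / (i + 1) := by
      have e2 : l * a' = l * (a + w + w) + l * w := by rw [e]; ring
      simp only at this; linarith
    rw [hl] at this; linarith
  obtain ⟨N, hN⟩ := eventually_atTop.1 (h3.eventually (gt_mem_nhds (show 0 < c * w / 2 by positivity)))
  have H : ∀ n : ℕ, ∑ i ∈ range n, θ (i + 1) a' / (i + 1) ≤ N + c * w / 2 * (1 + Real.log n) := by
    intro n
    have b1 : ∑ i ∈ range n, θ (i + 1) a' / (i + 1) ≤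
        ∑ i ∈ range n, ((if i ∈ range N then 1 else 0) + c * w / 2 * ((i : ℝ) + 1)⁻¹) := by
      refine sum_le_sum fun i _ => ?_
      have : 0 ≤ c * w / 2 * ((i : ℝ) + 1)⁻¹ := by positivity
      split_ifs with h
      · have := div_le_one_of_le₀ ((h1 (i + 1) a' m3).2.2.trans
          (by linarith [Nat.cast_nonneg (α := ℝ) i] : (1 : ℝ) ≤ i + 1)) (by positivity)
        linarith
      · rw [zero_add, div_eq_mul_inv]
        exact mul_le_mul_of_nonneg_right (hN _ (by simp at h; omega)).le (by positivity)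
    rw [sum_add_distrib, ← mul_sum, sum_boole] at b1
    have b2 : (((range n).filter fun i => i ∈ range N).card : ℝ) ≤ N := by
      exact_mod_cast (card_le_card fun i hi => (mem_filter.1 hi).2).trans (card_range N).le
    have b3 := harmonic_le_one_add_log n
    simp only [harmonic, Rat.cast_sum, Rat.cast_inv, Nat.cast_add, Nat.cast_one, Rat.cast_add,
      Rat.cast_natCast, Rat.cast_one] at b3
    exact b1.trans (add_le_add b2 (mul_le_mul_of_nonneg_left b3 (by positivity)))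
  obtain ⟨K, hK⟩ : ∃ K, K = Real.exp (N / (c * w) + 1 / 2) := ⟨_, rfl⟩
  have K0 : 0 < K := hK ▸ Real.exp_pos _
  have Sq : ∀ n : ℕ, 1 ≤ n → ∑ j ∈ range n, θ j (a + w + w) ≤ K * √n := by
    intro n hn
    have n0 : (0 : ℝ) < n := by exact_mod_cast hn
    have b1 := (T n).trans (H n)
    refine le_trans (sum_le_sum_of_subset_of_nonneg (range_subset_range.2 (Nat.le_succ n))
      fun j _ _ => (h1 j _ m2).2.1) ?_
    rw [← Real.log_le_log_iff (by linarith [S1 (n + 1) (by omega) _ m2]) (by positivity),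
      Real.log_mul K0.ne' (by positivity), Real.log_sqrt n0.le, hK, Real.log_exp]
    refine le_of_mul_le_mul_left (b1.trans (le_of_eq ?_)) (show 0 < c * w by positivity)
    field_simp; ring
  obtain ⟨b, hb⟩ : ∃ b, b = c * w / K := ⟨_, rfl⟩
  have b0 : 0 < b := by rw [hb]; positivity
  have sm : Summable fun n => θ n (a + w) := by
    refine (summable_nat_add_iff 1).1 (Summable.of_nonneg_of_le (fun n => (h1 _ _ m1).2.1)
      (fun n => ?_) (((summable_nat_add_iff 1).2
        (Real.summable_one_div_nat_pow.2 one_lt_two)).mul_left (24 / b ^ 4)))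
    have n0 : (0 : ℝ) < (n + 1 : ℕ) := by positivity
    refine (step (n + 1) (by omega) _ m1 m2 _ (Sq _ (by omega))).trans ?_
    generalize ((n + 1 : ℕ) : ℝ) = y at *
    obtain ⟨z, z0, rfl⟩ : ∃ z, 0 < z ∧ y = z ^ 2 := ⟨√y, by positivity, (Real.sq_sqrt n0.le).symm⟩
    rw [Real.sqrt_sq z0.le, show c * z ^ 2 / (K * z) * w = b * z by rw [hb]; field_simp,
      Real.exp_neg, inv_le_comm₀ (Real.exp_pos _) (by positivity)]
    refine le_trans (le_of_eq ?_) (Real.pow_div_factorial_le_exp _ (by positivity) 4)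
    simp only [Nat.factorial]; field_simp; norm_num
  have S0 : 1 ≤ ∑' n, θ n (a + w) :=
    (S1 1 le_rfl _ m1).trans (sm.sum_le_tsum _ fun j _ => (h1 j _ m1).2.1)
  refine ⟨1, c * w / ∑' n, θ n (a + w), by positivity, fun n => ?_⟩
  rcases n.eq_zero_or_pos with rfl | hn
  · simp [h0 a m0]
  · refine (step n hn a m0 m1 _ (sm.sum_le_tsum _ fun j _ => (h1 j _ m1).2.1)).trans (le_of_eq ?_)
    rw [one_mul]; congr 1; ring

end Pool.Agent.MP_48a2f9_mp

end MrgPart1

-- ======== part 2: formerly Pool.Agent.MP_48a2f9_mp.FKSharp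
section MrgPart2

/-!
Sharpness of the phase transition of the homogeneous model, by the OSSS inequality.
-/

open Finset Filter Topology

namespace Pool.Agent.MP_48a2f9_mp

noncomputable section
open Classical

variable {D q : ℕ}

namespace Sharp

/-- `x` is joined to distance `n`. -/
def Far (q n : ℕ) (x : Site D) (ω : Finset (Sym2 (Site D))) : Prop :=
  ∃ y, n ≤ nrm (y - x) ∧ (lat D q).conn free ω x y

lemma far_zero (x : Site D) (ω : Finset (Sym2 (Site D))) : Far q 0 x ω :=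
  ⟨x, Nat.zero_le _, Eqv.refl' _ _⟩

lemma far_succ {n : ℕ} {x : Site D} {ω : Finset (Sym2 (Site D))} :
    Far q (n + 1) x ω ↔ Exits q (box x n) x ω := by
  simp only [Far, Exits, mem_box, not_le, Nat.succ_le_iff]

lemma Far.mono {n m : ℕ} (h : m ≤ n) {x : Site D} {ω ω' : Finset (Sym2 (Site D))} (k : ω ⊆ ω') :
    Far q n x ω → Far q m x ω' :=
  fun ⟨y, hy, l⟩ => ⟨y, h.trans hy, Gr.conn_mono le_rfl k l⟩

lemma locIncr_far (n : ℕ) (x : Site D) : LocIncr (box x (2 * n)) (Far q n x) := by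
  refine ⟨fun a b k => Far.mono le_rfl k, fun ω hω h => ?_⟩
  cases n with
  | zero => exact far_zero _ _
  | succ n =>
    exact Far.mono le_rfl (inter_subset_inter subset_rfl (edgesOf_mono (box_mono x (by omega))))
      (far_succ.2 ((far_succ.1 h).inter hω))

lemma Far.inter {n : ℕ} {x : Site D} {ω : Finset (Sym2 (Site D))} (hω : ∀ e ∈ ω, IsEdge e)
    (h : Far q n x ω) : Far q n x (ω ∩ edgesIn (box x n)) := by
  cases n with
  | zero => exact far_zero _ _
  | succ n =>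
    exact Far.mono le_rfl (inter_subset_inter subset_rfl (edgesOf_box_subset x n))
      (far_succ.2 ((far_succ.1 h).inter hω))

/-- The one-arm probability used in the differential inequality. -/
def th (D q n : ℕ) (b : ℝ) : ℝ := prW q (vJ b 1) (box (0 : Site D) (2 * n)) (Far q n 0)

lemma th_shift (n : ℕ) (b : ℝ) (u : Site D) :
    prW q (vJ b 1) (box u (2 * n)) (Far q n u) = th D q n b := by
  have := prW_image (q := q) (adj_addRight u) (v := vJ b 1) (v' := vJ b 1)
    (fun e _ => by rw [vJ_one, vJ_one]) (box 0 (2 * n)) (Far q n u)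
  rw [box_image_addRight, zero_add] at this
  rw [this, th]
  congr 1
  funext ω
  apply propext
  constructor
  · rintro ⟨y, hy, h⟩
    refine ⟨y - u, by simpa using hy, (lat_conn_image (Equiv.addRight u) ω 0 (y - u)).1 ?_⟩
    simpa using h
  · rintro ⟨y, hy, h⟩
    refine ⟨y + u, by simpa using hy, ?_⟩
    simpa using (lat_conn_image (Equiv.addRight u) ω 0 y).2 h

lemma sum_th_le {t : ℕ → ℝ} (ht : ∀ i, 0 ≤ t i) {n j : ℕ} (hn : 1 ≤ n) (hj : j ≤ n) :
    ∑ k ∈ range n, t (((j - k) + (k - j)) / 2) ≤ 4 * ∑ i ∈ range n, t i := by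
  rw [← sum_fiberwise_of_maps_to (s := range n) (t := range n)
    (g := fun k => ((j - k) + (k - j)) / 2) (fun k hk => by
      rw [mem_range] at hk ⊢; omega), mul_sum]
  refine sum_le_sum fun i _ => ?_
  rw [sum_congr rfl (g := fun _ => t i) fun k hk => by rw [(mem_filter.1 hk).2], sum_const,
    nsmul_eq_mul]
  refine mul_le_mul_of_nonneg_right ?_ (ht i)
  have : ((range n).filter fun k => ((j - k) + (k - j)) / 2 = i) ⊆
      {j + 2 * i, j + 2 * i + 1, j - 2 * i, j - (2 * i + 1)} := by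
    intro k hk
    have := (mem_filter.1 hk).2
    simp only [mem_insert, mem_singleton]
    omega
  exact_mod_cast (card_le_card this).trans card_le_four

lemma osss_th {b : ℝ} (hb : 0 ≤ b) {n : ℕ} (hn : 1 ≤ n) :
    n * (th D q n b * (1 - th D q n b)) ≤ 8 * (∑ i ∈ range n, th D q i b) *
      ∑ e ∈ edgesOf (box (0 : Site D) (2 * n)), (lat D q).cov (vJ b 1)
        (wire (↑(box (0 : Site D) (2 * n)))ᶜ) (edgesOf (box (0 : Site D) (2 * n)))
        (fun ω => ind (Far q n 0 ω)) e := by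
  set Λ := box (0 : Site D) (2 * n) with hΛ
  set E := edgesOf Λ with hE
  set W : Eqv (Site D) := wire (↑Λ)ᶜ with hW
  set E₀ := edgesIn (box (0 : Site D) n) with hE₀
  have hv := vJ_nonneg (D := D) hb zero_le_one
  have hEe : ∀ e ∈ E, IsEdge e := fun e he => (mem_edgesOf.1 he).1
  have hE0 : E₀ ⊆ E := (edgesIn_subset_edgesOf _).trans (edgesOf_mono (box_mono _ (by omega)))
  have hmono : Gr.MonoIn E fun ω => ind (Far q n (0 : Site D) ω) :=
    ((locIncr_far n 0).incr E).monoIn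
  have ht0 : ∀ i, 0 ≤ th D q i b := fun i => Gr.pr_nonneg hv
  have one : ∀ k ∈ range n, th D q n b * (1 - th D q n b) ≤ ∑ e ∈ E,
      (lat D q).pr (vJ b 1) W E (fun ω => e ∈ (lat D q).touch E₀
        ((lat D q).clus free {y | nrm y = k} (ω ∩ E₀))) *
        (lat D q).cov (vJ b 1) W E (fun ω => ind (Far q n 0 ω)) e := by
    intro k hk
    have imp : ∀ ω ⊆ E, ∀ ω' ⊆ E,
        ω ∩ (lat D q).touch E₀ ((lat D q).clus free {y | nrm y = k} (ω ∩ E₀)) =
        ω' ∩ (lat D q).touch E₀ ((lat D q).clus free {y | nrm y = k} (ω ∩ E₀)) →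
        Far q n 0 ω → Far q n 0 ω' := by
      intro ω hω ω' _ h hf
      obtain ⟨y, hy, hc⟩ := hf.inter fun e he => hEe e (hω he)
      obtain ⟨z, hz, hz'⟩ := conn_ivt (q := q) (ω := ω ∩ E₀) (h := fun z => (nrm z : ℤ))
        (fun e he => hEe e (hω (mem_inter.1 he).1)) (fun a c l => by
          have := nrm_add_le (c - a) a
          rw [sub_add_cancel] at this
          omega) (k := k) (by simp) (by
          have := mem_range.1 hk
          rw [sub_zero] at hy
          omega) hc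
      have h0 : (0 : Site D) ∈ (lat D q).clus free {y | nrm y = k} (ω ∩ E₀) :=
        ⟨z, by exact_mod_cast hz, Eqv.symm' _ hz'⟩
      refine ⟨y, hy, Gr.conn_mono le_rfl ?_ (Gr.conn_touch_of_mem inter_subset_right h0 hc)⟩
      intro e he
      have : e ∈ ω ∩ (lat D q).touch E₀ ((lat D q).clus free {y | nrm y = k} (ω ∩ E₀)) :=
        mem_inter.2 ⟨(mem_inter.1 (mem_inter.1 he).1).1, (mem_inter.1 he).2⟩
      rw [h] at this
      exact (mem_inter.1 this).1
    have := Gr.osss (G := lat D q) (W := W) hv (f := fun ω => ind (Far q n 0 ω))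
      (S := fun ω => (lat D q).touch E₀ ((lat D q).clus free {y | nrm y = k} (ω ∩ E₀)))
      (fun _ _ => ind_nonneg _) (fun _ _ => ind_le_one _) hmono
      (Gr.explore_clus (W₀ := free) (K := {y | nrm y = k}) hE0 fun ω hω ω' hω' h => by
        refine ind_congr ⟨imp ω' hω' ω hω ?_, imp ω hω ω' hω' h⟩
        have e1 : ∀ ξ T : Finset (Sym2 (Site D)), T ⊆ E₀ → ξ ∩ E₀ ∩ T = ξ ∩ T := fun ξ T hT => by
          rw [inter_assoc, inter_eq_right.2 hT]
        rw [Gr.clus_eq_of_inter (E := E₀) (ω := ω ∩ E₀) inter_subset_right inter_subset_right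
          (by rw [e1 _ _ (Gr.touch_subset _ _), e1 _ _ (Gr.touch_subset _ _), h]), h])
    simp only [ind_mul_self] at this
    refine le_trans (le_of_eq ?_) this
    show th D q n b * (1 - th D q n b) = th D q n b - th D q n b * th D q n b
    ring
  have site : ∀ u ∈ box (0 : Site D) n, ∑ k ∈ range n, (lat D q).pr (vJ b 1) W E
      (fun ω => u ∈ (lat D q).clus free {y | nrm y = k} (ω ∩ E₀)) ≤
      4 * ∑ i ∈ range n, th D q i b := by
    intro u hu
    have hu' : nrm u ≤ n := by simpa [mem_box] using hu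
    refine le_trans (sum_le_sum fun k hk => ?_) (sum_th_le ht0 hn hu')
    have := mem_range.1 hk
    rw [← th_shift _ b u]
    refine le_trans (Gr.pr_mono hv ?_) (pr_loc_le hv hEe (wire_mono (Set.compl_subset_compl.2
      (coe_subset.2 (box_subset_box (by rw [sub_zero]; omega))))) (locIncr_far _ u))
    rintro ω _ ⟨y, hy, h⟩
    refine ⟨y, ?_, Gr.conn_mono le_rfl inter_subset_left (Eqv.symm' _ h)⟩
    have h1 : nrm y = k := hy
    have h2 := nrm_add_le (y - u) u
    have h3 := nrm_add_le (u - y) y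
    rw [sub_add_cancel] at h2 h3
    rw [nrm_sub_comm u y] at h3
    omega
  have edge : ∀ e ∈ E, ∑ k ∈ range n, (lat D q).pr (vJ b 1) W E (fun ω => e ∈ (lat D q).touch E₀
      ((lat D q).clus free {y | nrm y = k} (ω ∩ E₀))) ≤ 8 * ∑ i ∈ range n, th D q i b := by
    intro e _
    by_cases he : e ∈ E₀
    · have h1 := site _ ((mem_edgesIn.1 he).2 _ (lat_s_mem (q := q) e))
      have h2 := site _ ((mem_edgesIn.1 he).2 _ (lat_t_mem (q := q) e))
      refine le_trans (sum_le_sum fun k _ => le_trans (Gr.pr_mono hv fun ω _ h =>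
        (Gr.mem_touch.1 h).2) (Gr.pr_or_le hv)) ?_
      rw [sum_add_distrib]
      linarith
    · rw [sum_eq_zero fun k _ => Gr.pr_false fun ω _ h => he (Gr.mem_touch.1 h).1]
      exact mul_nonneg (by norm_num) (sum_nonneg fun i _ => ht0 i)
  have := sum_le_sum one
  rw [sum_const, card_range, nsmul_eq_mul, sum_comm] at this
  refine this.trans ?_
  rw [mul_sum]
  refine sum_le_sum fun e he => ?_
  rw [← sum_mul]
  exact mul_le_mul_of_nonneg_right (edge e he) (Gr.cov_nonneg hv hmono e)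

end Sharp

open Sharp in
theorem sharpStmt : SharpStmt := by
  intro D q β β' hβ hββ hθ
  set c0 := Real.exp (-(β' * max 1 1 * 3 ^ (D + 1))) with hc0
  have hc0' : 0 < c0 := Real.exp_pos _
  let cv : ℕ → ℝ → ℝ := fun n b => ∑ e ∈ edgesOf (box (0 : Site D) (2 * n)), (lat D q).cov (vJ b 1)
    (wire (↑(box (0 : Site D) (2 * n)))ᶜ) (edgesOf (box (0 : Site D) (2 * n)))
    (fun ω => ind (Far q n 0 ω)) e
  obtain ⟨C, κ, hκ, hC⟩ := diffStmt (th D q)
    (fun n b => Real.exp b / (Real.exp b - 1) * cv n b) β β' (c0 / 8) hββ (by positivity)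
    (fun n x hx => by
      have hx0 : 0 < x := hβ.trans_le hx.1
      have hv := vJ_nonneg (D := D) hx0.le zero_le_one
      refine ⟨?_, Gr.pr_nonneg hv, Gr.pr_le_one hv⟩
      have h1 : Real.exp x - 1 ≠ 0 := (sub_pos.2 (Real.one_lt_exp_iff.2 hx0)).ne'
      have := Gr.hasDerivAt_ex (G := lat D q) (a := fun t => vJ t 1)
        (b := fun _ => Real.exp x / (Real.exp x - 1)) (x := x) hv
        (E := edgesOf (box (0 : Site D) (2 * n))) (fun e _ => by
          simp only [vJ_one]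
          rw [div_mul_cancel₀ _ h1]
          exact (Real.hasDerivAt_exp x).sub_const 1) (wire (↑(box (0 : Site D) (2 * n)))ᶜ)
        (fun ω => ind (Far q n 0 ω))
      rw [← mul_sum] at this
      exact this)
    (fun x hx => Gr.pr_true (vJ_nonneg (hβ.le.trans hx.1) zero_le_one) fun ω _ => far_zero _ _)
    (fun n hn x hx => by
      have hx0 : 0 < x := hβ.trans_le hx.1
      have hv := vJ_nonneg (D := D) hx0.le zero_le_one
      have h1 := osss_th (D := D) (q := q) hx0.le hn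
      have h2 : c0 ≤ 1 - th D q n x := by
        rw [th, prW, ← Gr.pr_not hv]
        have h3 := pr_iso_ge (q := q) hx0.le zero_le_one (E := edgesOf (box (0 : Site D) (2 * n)))
          (fun e he => (mem_edgesOf.1 he).1) (wire (↑(box (0 : Site D) (2 * n)))ᶜ) {0}
        rw [card_singleton, pow_one] at h3
        refine le_trans (Real.exp_le_exp.2 ?_) (h3.trans (Gr.pr_mono hv ?_))
        · have := hx.2
          gcongr
        · rintro ω _ h ⟨y, hy, k⟩
          rw [h.eq_of_conn (mem_singleton_self _) k] at hy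
          simp at hy
          omega
      have h4 : 0 ≤ cv n x := sum_nonneg fun e _ =>
        Gr.cov_nonneg hv ((locIncr_far n 0).incr _).monoIn e
      have h5 : 1 ≤ Real.exp x / (Real.exp x - 1) := by
        rw [le_div_iff₀ (sub_pos.2 (Real.one_lt_exp_iff.2 hx0))]; linarith
      have h6 : 0 ≤ ∑ i ∈ range n, th D q i x := sum_nonneg fun i _ => Gr.pr_nonneg hv
      have h7 : 0 ≤ th D q n x := Gr.pr_nonneg hv
      have h8 : (n : ℝ) * (th D q n x * c0) ≤ n * (th D q n x * (1 - th D q n x)) := by gcongr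
      have h9 := mul_le_mul_of_nonneg_right h5 (mul_nonneg h4 h6)
      change _ ≤ 8 * _ * cv n x at h1
      nlinarith)
    (by
      have hv := vJ_nonneg (D := D) (hβ.trans hββ).le zero_le_one
      rw [← tendsto_add_atTop_iff_nat 1]
      refine squeeze_zero (fun n => Gr.pr_nonneg hv) (fun n => ?_) hθ
      refine le_trans (Gr.pr_mono hv fun ω _ => far_succ.1) (pr_exits_le (hβ.trans hββ).le
        zero_le_one (fun e he => (mem_edgesOf.1 he).1) (wire_mono (Set.compl_subset_compl.2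
          (coe_subset.2 (box_mono _ (by omega))))) 0))
  refine ⟨|C| * Real.exp (κ / 2), κ / 2, by positivity, fun x n => ?_⟩
  have hv := vJ_nonneg (D := D) hβ.le zero_le_one
  have h1 : thW q β 1 (box x n) x ≤ th D q (n / 2) β := by
    rw [← th_shift _ β x]
    refine (thW_anti hβ.le zero_le_one (box_mono x (show 2 * (n / 2) ≤ n by omega)) x).trans ?_
    exact Gr.pr_mono hv fun ω _ h => Far.mono (by omega) subset_rfl (far_succ.2 h)
  refine h1.trans ((hC _).trans ?_)
  rw [mul_assoc, ← Real.exp_add]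
  refine mul_le_mul (le_abs_self C) (Real.exp_le_exp.2 ?_) (Real.exp_pos _).le (abs_nonneg C)
  have : (n : ℝ) ≤ 2 * ((n / 2 : ℕ) : ℝ) + 1 := by
    exact_mod_cast (show n ≤ 2 * (n / 2) + 1 by omega)
  nlinarith

end

end Pool.Agent.MP_48a2f9_mp

end MrgPart2

-- ======== part 3: formerly Pool.Agent.MP_48a2f9_mp.FKSpin
section MrgPart3

/-!
The spin module.
-/

namespace Pool.Agent.MP_48a2f9_mp

theorem spinStmt : SpinStmt :=
  ⟨fun _ _ _ hq hβ h => thetaZero_of_disordered hq hβ h,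
    fun _ _ _ _ hq hβ hJ hW _ hμ n => G_eq_tau hq hβ hJ le_rfl hW hμ n⟩

end Pool.Agent.MP_48a2f9_mp

end MrgPart3

-- ======== part 4: formerly Pool.Agent.MP_48a2f9_mp.FKVol
section MrgPart4

/-!
Exponential moment of the volume of a cluster, from the wired exponential decay.
-/

open Finset Filter Topology

namespace Pool.Agent.MP_48a2f9_mp

noncomputable section
open Classical

namespace Vol

section animals
variable {α : Type*} [DecidableEq α]

/-- Every point of `T` is reached inside `T` from a point of `Y`. -/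
def Rooted (N : α → Finset α) (Y T : Finset α) : Prop :=
  ∀ t ∈ T, ∃ y ∈ Y, y ∈ T ∧ Relation.ReflTransGen (fun a b => b ∈ N a ∧ b ∈ T) y t

lemma rooted_erase {N : α → Finset α} {Y T : Finset α} {y : α} (h : Rooted N Y T) :
    Rooted N (Y.erase y ∪ N y) (T.erase y) := by
  intro t ht
  obtain ⟨hty, htT⟩ := mem_erase.1 ht
  obtain ⟨z, hzY, hzT, hp⟩ := h t htT
  have key : ∀ t, Relation.ReflTransGen (fun a b => b ∈ N a ∧ b ∈ T) z t → t = y ∨
      ∃ w ∈ Y.erase y ∪ N y, w ∈ T.erase y ∧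
        Relation.ReflTransGen (fun a b => b ∈ N a ∧ b ∈ T.erase y) w t := by
    intro t hp
    induction hp with
    | refl =>
      by_cases hz : z = y
      · exact Or.inl hz
      · exact Or.inr ⟨z, mem_union_left _ (mem_erase.2 ⟨hz, hzY⟩), mem_erase.2 ⟨hz, hzT⟩,
          Relation.ReflTransGen.refl⟩
    | @tail b c _ h2 ih =>
      by_cases hc : c = y
      · exact Or.inl hc
      · rcases ih with rfl | ⟨w, hw, hw', hp⟩
        · exact Or.inr ⟨c, mem_union_right _ h2.1, mem_erase.2 ⟨hc, h2.2⟩,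
            Relation.ReflTransGen.refl⟩
        · exact Or.inr ⟨w, hw, hw', hp.tail ⟨h2.1, mem_erase.2 ⟨hc, h2.2⟩⟩⟩
  exact (key t hp).resolve_left hty

/-- Generating function of lattice animals. -/
lemma animals {N : α → Finset α} {Δ : ℕ} (hN : ∀ a, (N a).card ≤ Δ) {δ b : ℝ} (hδ : 0 ≤ δ)
    (hb : 0 ≤ b) (h : δ * (1 + b) ^ Δ ≤ b) (S Y : Finset α) :
    ∑ T ∈ S.powerset, ind (Rooted N Y T) * δ ^ T.card ≤ (1 + b) ^ Y.card := by
  induction S using Finset.strongInduction generalizing Y with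
  | H S ih =>
    have h1b : (1 : ℝ) ≤ 1 + b := by linarith
    by_cases hY : ∃ y ∈ Y, y ∈ S
    · obtain ⟨y, hyY, hyS⟩ := hY
      have hlt : S.erase y ⊂ S := erase_ssubset hyS
      rw [← insert_erase hyS, sum_powerset_insert (notMem_erase y S)]
      have e1 : ∑ T ∈ (S.erase y).powerset, ind (Rooted N Y T) * δ ^ T.card ≤
          (1 + b) ^ (Y.erase y).card := by
        refine le_trans (sum_le_sum fun T hT => ?_) (ih _ hlt (Y.erase y))
        refine mul_le_mul_of_nonneg_right (ind_mono fun hr t ht => ?_) (pow_nonneg hδ _)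
        obtain ⟨z, hzY, hzT, hp⟩ := hr t ht
        exact ⟨z, mem_erase.2 ⟨(mem_erase.1 (mem_powerset.1 hT hzT)).1, hzY⟩, hzT, hp⟩
      have e2 : ∑ T ∈ (S.erase y).powerset, ind (Rooted N Y (insert y T)) * δ ^ (insert y T).card ≤
          δ * (1 + b) ^ (Y.erase y ∪ N y).card := by
        refine le_trans ?_ (mul_le_mul_of_nonneg_left (ih _ hlt (Y.erase y ∪ N y)) hδ)
        rw [mul_sum]
        refine sum_le_sum fun T hT => ?_
        have hyT : y ∉ T := fun k => notMem_erase y S (mem_powerset.1 hT k)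
        rw [card_insert_of_notMem hyT, pow_succ]
        have := ind_mono (P := Rooted N Y (insert y T)) (Q := Rooted N (Y.erase y ∪ N y) T)
          fun hr => by simpa only [erase_insert hyT] using rooted_erase (y := y) hr
        have := mul_le_mul_of_nonneg_right this (mul_nonneg (pow_nonneg hδ T.card) hδ)
        linarith
      have e3 : (1 + b) ^ (Y.erase y ∪ N y).card ≤ (1 + b) ^ (Y.erase y).card * (1 + b) ^ Δ := by
        rw [← pow_add]
        exact pow_le_pow_right₀ h1b ((card_union_le _ _).trans (Nat.add_le_add_left (hN y) _))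
      have e4 : (1 + b) ^ Y.card = (1 + b) ^ (Y.erase y).card * (1 + b) := by
        rw [← pow_succ, card_erase_add_one hyY]
      have e5 : 0 ≤ (1 + b) ^ (Y.erase y).card := pow_nonneg (by linarith) _
      have e6 := mul_le_mul_of_nonneg_left e3 hδ
      have e7 := mul_le_mul_of_nonneg_left h e5
      rw [e4]
      nlinarith
    · rw [sum_eq_single ∅]
      · simp only [card_empty, pow_zero, mul_one]
        exact (ind_le_one _).trans (one_le_pow₀ h1b)
      · intro T hT hne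
        obtain ⟨t, ht⟩ := nonempty_iff_ne_empty.2 hne
        rw [ind_neg, zero_mul]
        intro hr
        obtain ⟨z, hzY, hzT, -⟩ := hr t ht
        exact hY ⟨z, hzY, mem_powerset.1 hT hzT⟩
      · intro k
        exact absurd (empty_mem_powerset S) k

end animals

variable {D q : ℕ}

/-- Points at mutual distance more than `2 R + 1`. -/
def Sep (R : ℕ) (T : Finset (Site D)) : Prop :=
  ∀ z ∈ T, ∀ z' ∈ T, z ≠ z' → 2 * R + 1 < nrm (z - z')

lemma disjoint_edgesOf {R : ℕ} {z z' : Site D} (h : 2 * R + 1 < nrm (z - z')) :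
    Disjoint (edgesOf (box z R)) (edgesOf (box z' R)) := by
  rw [disjoint_left]
  intro e he he'
  obtain ⟨h1, u, hu, hu'⟩ := mem_edgesOf.1 he
  obtain ⟨-, w, hw, hw'⟩ := mem_edgesOf.1 he'
  have a1 := h1.nrm_le hw hu
  have a2 := mem_box.1 hu'
  have a3 := mem_box.1 hw'
  have a4 := nrm_triangle z u z'
  have a5 := nrm_triangle u w z'
  rw [nrm_sub_comm z u] at a4
  omega

lemma ex_prod_exits_le {β J θ : ℝ} (hβ : 0 ≤ β) (hJ : 0 ≤ J) {R : ℕ}
    (hθ : ∀ z : Site D, thW q β J (box z R) z ≤ θ) {E : Finset (Sym2 (Site D))}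
    (hE : ∀ e ∈ E, IsEdge e) (T : Finset (Site D)) (hT : Sep R T) :
    (lat D q).ex (vJ β J) free E
      (fun ω => ∏ z ∈ T, ind (Exits q (box z R) z (ω ∩ edgesOf (box z R)))) ≤ θ ^ T.card := by
  have hv := vJ_nonneg (D := D) hβ hJ
  have hθ0 : 0 ≤ θ := (thW_nonneg hβ hJ _ _).trans (hθ 0)
  induction T using Finset.induction_on with
  | empty => simp [Gr.ex_const hv]
  | insert a T ha ih =>
    have ih' := ih fun z hz z' hz' => hT z (mem_insert_of_mem hz) z' (mem_insert_of_mem hz')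
    have key : ∀ ω : Finset (Sym2 (Site D)),
        ∏ z ∈ T, ind (Exits q (box z R) z ((ω \ edgesOf (box a R)) ∩ edgesOf (box z R))) =
        ∏ z ∈ T, ind (Exits q (box z R) z (ω ∩ edgesOf (box z R))) := by
      intro ω
      refine prod_congr rfl fun z hz => ?_
      have hd := disjoint_left.1 (disjoint_edgesOf
        (hT a (mem_insert_self _ _) z (mem_insert_of_mem hz) fun k => ha (k ▸ hz)))
      congr 2
      refine Finset.ext fun e => ?_
      rw [Finset.mem_inter, Finset.mem_inter, Finset.mem_sdiff]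
      exact ⟨fun h => ⟨h.1.1, h.2⟩, fun h => ⟨⟨h.1, fun k => hd k h.2⟩, h.2⟩⟩
    have h1 := ex_mul_exits_le (q := q) hβ hJ hE (Λ := box a R) (free_le _) a
      (g := fun ξ => ∏ z ∈ T, ind (Exits q (box z R) z (ξ ∩ edgesOf (box z R))))
      fun ξ => prod_nonneg fun z _ => ind_nonneg _
    simp only [key] at h1
    rw [card_insert_of_notMem ha, pow_succ']
    refine le_trans (Gr.ex_mono hv fun ω _ => ?_) (h1.trans (mul_le_mul (hθ a) ih'
      (Gr.ex_nonneg hv fun ω _ => prod_nonneg fun z _ => ind_nonneg _) hθ0))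
    rw [prod_insert ha, mul_comm]
    exact mul_le_mul_of_nonneg_left
      (ind_mono fun h => incr_exits ω _ a _ _ inter_subset_left subset_rfl h)
      (prod_nonneg fun z _ => ind_nonneg _)

/-- A maximal separated subset of a cluster. -/
lemma exists_net (R : ℕ) {ω : Finset (Sym2 (Site D))} (hω : ∀ e ∈ ω, IsEdge e) (x : Site D)
    {C : Finset (Site D)} (hC : ∀ y, y ∈ C ↔ (lat D q).conn free ω x y) :
    ∃ T ⊆ C, Sep R T ∧ Rooted (fun z => box z (4 * R + 3)) {x} T ∧
      C.card ≤ T.card * (4 * R + 3) ^ (D + 1) := by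
  have hx : x ∈ C := (hC x).2 (Eqv.refl' _ _)
  obtain ⟨T, hT, hmax⟩ := exists_max_image (C.powerset.filter fun T => x ∈ T ∧ Sep R T) card
    ⟨{x}, mem_filter.2 ⟨mem_powerset.2 (singleton_subset_iff.2 hx), mem_singleton_self x,
      fun z hz z' hz' hne => absurd ((mem_singleton.1 hz).trans (mem_singleton.1 hz').symm) hne⟩⟩
  obtain ⟨hTC, hxT, hsep⟩ := mem_filter.1 hT
  rw [mem_powerset] at hTC
  have cov : ∀ v ∈ C, ∃ z ∈ T, nrm (v - z) ≤ 2 * R + 1 := by
    intro v hv
    by_contra hc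
    push Not at hc
    have hvT : v ∉ T := fun k => by simpa using hc v k
    have := hmax (insert v T) (mem_filter.2 ⟨mem_powerset.2 (insert_subset hv hTC),
      mem_insert_of_mem hxT, fun z hz z' hz' hne => by
        rcases mem_insert.1 hz with k | k <;> rcases mem_insert.1 hz' with k' | k'
        · exact absurd (k.trans k'.symm) hne
        · exact k ▸ hc z' k'
        · rw [nrm_sub_comm]; exact k' ▸ hc z k
        · exact hsep z k z' k' hne⟩)
    rw [card_insert_of_notMem hvT] at this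
    omega
  refine ⟨T, hTC, hsep, fun t ht => ⟨x, mem_singleton_self x, hxT, ?_⟩, ?_⟩
  · obtain ⟨z, hz, hp⟩ := conn_free_induction (P := fun v => ∃ z, nrm (v - z) ≤ 2 * R + 1 ∧
        Relation.ReflTransGen (fun a b => b ∈ box a (4 * R + 3) ∧ b ∈ T) x z)
      ⟨x, by simp, Relation.ReflTransGen.refl⟩ (fun a b ha ⟨z, hz, hp⟩ hab => by
        obtain ⟨z', hz', h1⟩ := cov b ((hC b).2 (Eqv.trans' _ ha (lat_conn_edge _ hab)))
        refine ⟨z', h1, hp.tail ⟨mem_box.2 ?_, hz'⟩⟩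
        have a1 := (hω _ hab).nrm_le (Sym2.mem_mk_left a b) (Sym2.mem_mk_right a b)
        have a2 := nrm_triangle z' b z
        have a3 := nrm_triangle b a z
        rw [nrm_sub_comm z' b] at a2
        omega) ((hC t).1 (hTC ht))
    exact hp.tail ⟨mem_box.2 (by omega), ht⟩
  · have : C ⊆ T.biUnion fun z => box z (2 * R + 1) := fun v hv => by
      obtain ⟨z, hz, h⟩ := cov v hv
      exact mem_biUnion.2 ⟨z, hz, mem_box.2 h⟩
    refine (card_le_card this).trans (card_biUnion_le_card_mul _ _ _ fun z _ => ?_)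
    rw [card_box]
    exact le_of_eq (by congr 1; ring)

lemma exists_radius {C c : ℝ} (hc : 0 < c) (D : ℕ) :
    ∃ R : ℕ, C * Real.exp (-c * R) * Real.exp 2 * ((8 * R + 7 : ℕ) : ℝ) ^ (D + 1) ≤ 1 := by
  have h1 := Real.tendsto_pow_mul_exp_neg_atTop_nhds_zero (D + 1)
  have h2 : Tendsto (fun R : ℕ => c * ((R : ℝ) + 1)) atTop atTop :=
    (tendsto_atTop_add_const_right _ 1 tendsto_natCast_atTop_atTop).const_mul_atTop hc
  have h3 := (h1.comp h2).const_mul (|C| * Real.exp 2 * Real.exp c * (8 / c) ^ (D + 1))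
  rw [mul_zero] at h3
  obtain ⟨R, hR⟩ := (h3.eventually (gt_mem_nhds one_pos)).exists
  refine ⟨R, le_trans ?_ hR.le⟩
  simp only [Function.comp]
  have e1 : ((8 * R + 7 : ℕ) : ℝ) ^ (D + 1) ≤ (8 / c) ^ (D + 1) * (c * ((R : ℝ) + 1)) ^ (D + 1) := by
    rw [← mul_pow]
    refine pow_le_pow_left₀ (Nat.cast_nonneg _) ?_ _
    push_cast
    field_simp
    linarith
  have e2 : Real.exp (-c * R) = Real.exp c * Real.exp (-(c * ((R : ℝ) + 1))) := by
    rw [← Real.exp_add]; congr 1; ring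
  calc C * Real.exp (-c * R) * Real.exp 2 * ((8 * R + 7 : ℕ) : ℝ) ^ (D + 1)
      ≤ |C| * Real.exp (-c * R) * Real.exp 2 *
        ((8 / c) ^ (D + 1) * (c * ((R : ℝ) + 1)) ^ (D + 1)) := by
        gcongr
        exact le_abs_self C
    _ = _ := by rw [e2]; ring

end Vol

open Vol in
/-- Exponential moment of the volume of the cluster of `x`, uniformly in the finite edge set. -/
theorem vol_moment {D q : ℕ} {β J : ℝ} (hβ : 0 ≤ β) (hJ : 0 ≤ J) (h : WiredDecay D q β J) :
    ∃ ε C : ℝ, 0 < ε ∧ ∀ (E : Finset (Sym2 (Site D))), (∀ e ∈ E, IsEdge e) → ∀ x : Site D,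
      (lat D q).ex (vJ β J) free E
        (fun ω => Real.exp (ε * ({y | (lat D q).conn free ω x y}.ncard : ℝ))) ≤ C := by
  obtain ⟨C, c, hc, hd⟩ := h
  obtain ⟨R, hR⟩ := exists_radius (C := C) hc D
  have hv := vJ_nonneg (D := D) hβ hJ
  set θ := C * Real.exp (-c * R) with hθ
  have hθ0 : 0 ≤ θ := (thW_nonneg hβ hJ _ _).trans (hd J hJ le_rfl 0 R)
  set m : ℕ := (4 * R + 3) ^ (D + 1) with hm
  have hm0 : (0 : ℝ) < m := by rw [hm]; positivity
  set Δ : ℕ := (8 * R + 7) ^ (D + 1) with hΔ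
  have hΔ0 : (0 : ℝ) < Δ := by rw [hΔ]; positivity
  have hΔ1 : (1 : ℝ) ≤ Δ := by exact_mod_cast Nat.one_le_iff_ne_zero.2 (by rw [hΔ]; positivity)
  refine ⟨1 / m, Real.exp 1 + 2, by positivity, fun E hE x => ?_⟩
  set S : Finset (Site D) := insert x (E.biUnion Sym2.toFinset) with hS
  have hb : (0 : ℝ) ≤ 1 / Δ := by positivity
  have han := animals (N := fun z : Site D => box z (4 * R + 3)) (Δ := Δ)
    (fun z => by rw [card_box]; exact le_of_eq (by rw [hΔ]; congr 1; ring))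
    (δ := Real.exp 1 * θ) (b := 1 / Δ) (by positivity) hb (by
      have e1 : (1 + 1 / (Δ : ℝ)) ^ Δ ≤ Real.exp 1 := by
        calc (1 + 1 / (Δ : ℝ)) ^ Δ ≤ Real.exp (1 / Δ) ^ Δ :=
              pow_le_pow_left₀ (by positivity) (by linarith [Real.add_one_le_exp (1 / (Δ : ℝ))]) _
          _ = Real.exp 1 := by rw [← Real.exp_nat_mul]; congr 1; field_simp
      have e2 : Real.exp 2 = Real.exp 1 * Real.exp 1 := by rw [← Real.exp_add]; norm_num
      have e3 : θ * Real.exp 2 * Δ ≤ 1 := by rw [hΔ]; push_cast at hR ⊢; exact hR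
      rw [le_div_iff₀ hΔ0]
      calc Real.exp 1 * θ * (1 + 1 / (Δ : ℝ)) ^ Δ * Δ ≤ Real.exp 1 * θ * Real.exp 1 * Δ := by gcongr
        _ = θ * Real.exp 2 * Δ := by rw [e2]; ring
        _ ≤ 1 := e3) S {x}
  rw [card_singleton, pow_one] at han
  let g : Finset (Site D) → Finset (Sym2 (Site D)) → ℝ := fun T ω =>
    (ind (Rooted (fun z : Site D => box z (4 * R + 3)) {x} T ∧ Sep R T) * Real.exp 1 ^ T.card) *
      ∏ z ∈ T, ind (Exits q (box z R) z (ω ∩ edgesOf (box z R)))
  have hg0 : ∀ T ω, 0 ≤ g T ω := fun T ω =>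
    mul_nonneg (mul_nonneg (ind_nonneg _) (by positivity)) (prod_nonneg fun z _ => ind_nonneg _)
  have hpt : ∀ ω ⊆ E, Real.exp (1 / m * ({y | (lat D q).conn free ω x y}.ncard : ℝ)) ≤
      Real.exp 1 + ∑ T ∈ S.powerset, g T ω := by
    intro ω hω
    have hω' : ∀ e ∈ ω, IsEdge e := fun e he => hE e (hω he)
    set Cl := S.filter fun y => (lat D q).conn free ω x y with hCl
    have hC : ∀ y, y ∈ Cl ↔ (lat D q).conn free ω x y := fun y => by
      refine ⟨fun k => (mem_filter.1 k).2, fun k => mem_filter.2 ⟨?_, k⟩⟩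
      exact conn_free_induction (P := fun y => y ∈ S) (mem_insert_self _ _) (fun a b _ _ hab =>
        mem_insert_of_mem (mem_biUnion.2 ⟨_, hω hab, Sym2.mem_toFinset.2 (Sym2.mem_mk_right a b)⟩)) k
    have hn : {y | (lat D q).conn free ω x y}.ncard = Cl.card := by
      rw [← Set.ncard_coe_finset]
      congr 1
      ext y
      exact (hC y).symm
    obtain ⟨T, hTC, hsep, hroot, hcard⟩ := exists_net R hω' x hC
    have h1 : Real.exp (1 / m * (Cl.card : ℝ)) ≤ Real.exp 1 ^ T.card := by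
      rw [← Real.exp_nat_mul, mul_one, Real.exp_le_exp, one_div, inv_mul_le_iff₀ hm0]
      rw [mul_comm]
      exact_mod_cast hcard
    rw [hn]
    refine h1.trans ?_
    have hs : 0 ≤ ∑ T ∈ S.powerset, g T ω := sum_nonneg fun T _ => hg0 T ω
    by_cases hT : T.card ≤ 1
    · have : Real.exp 1 ^ T.card ≤ Real.exp 1 ^ 1 :=
        pow_le_pow_right₀ (Real.one_le_exp zero_le_one) hT
      rw [pow_one] at this
      linarith
    · have h2 : g T ω = Real.exp 1 ^ T.card := by
        simp only [g]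
        rw [ind_pos ⟨hroot, hsep⟩, one_mul, prod_eq_one, mul_one]
        intro z hz
        obtain ⟨z', hz', hne⟩ := exists_mem_ne (show 1 < T.card by omega) z
        refine ind_pos (Exits.inter hω' ⟨z', fun k => ?_, Eqv.trans' _
          (Eqv.symm' _ ((hC z).1 (hTC hz))) ((hC z').1 (hTC hz'))⟩)
        have := hsep z' hz' z hz hne
        have := mem_box.1 k
        omega
      have h3 := single_le_sum (f := fun T => g T ω) (fun T _ => hg0 T ω)
        (mem_powerset.2 (hTC.trans (filter_subset _ _)))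
      simp only [h2] at h3
      linarith [Real.exp_pos 1]
  refine (Gr.ex_mono hv hpt).trans ?_
  rw [Gr.ex_add, Gr.ex_const hv, Gr.ex_sum]
  have h4 : ∑ T ∈ S.powerset, (lat D q).ex (vJ β J) free E (g T) ≤
      ∑ T ∈ S.powerset, ind (Rooted (fun z : Site D => box z (4 * R + 3)) {x} T) *
        (Real.exp 1 * θ) ^ T.card := by
    refine sum_le_sum fun T _ => ?_
    simp only [g]
    rw [Gr.ex_const_mul]
    by_cases hsep : Sep R T
    · rw [ind_congr (and_iff_left hsep), mul_pow, mul_assoc]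
      refine mul_le_mul_of_nonneg_left (mul_le_mul_of_nonneg_left ?_ (by positivity)) (ind_nonneg _)
      exact ex_prod_exits_le hβ hJ (fun z => hd J hJ le_rfl z R) hE T hsep
    · rw [ind_neg (fun k => hsep k.2), zero_mul, zero_mul]
      exact mul_nonneg (ind_nonneg _) (by positivity)
  have h5 : 1 / (Δ : ℝ) ≤ 1 := by rw [div_le_one hΔ0]; exact hΔ1
  linarith

end

end Pool.Agent.MP_48a2f9_mp

end MrgPart4

-- ======== part 5: formerly Pool.Agent.MP_48a2f9_mp.FKWD
section MrgPart5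

/-!
Coarse graining: superpolynomial decay at one scale gives exponential decay.
-/

open Finset Filter Topology

namespace Pool.Agent.MP_48a2f9_mp

noncomputable section
open Classical

variable {D q : ℕ}

lemma mem_cluIn_iff {Λ : Finset (Site D)} {x : Site D} (hx : x ∈ Λ)
    (ω : Finset (Sym2 (Site D))) (y : Site D) :
    y ∈ cluIn q Λ x ω ↔ (lat D q).conn free (ω ∩ edgesIn Λ) x y := by
  refine ⟨fun k => (mem_filter.1 k).2, fun k => mem_filter.2 ⟨?_, k⟩⟩
  exact conn_free_induction (P := fun y => y ∈ Λ) hx (fun a b _ _ hab =>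
    (mem_edgesIn.1 (mem_inter.1 hab).2).2 b (Sym2.mem_mk_right a b)) k

lemma card_cluIn_ge {x : Site D} {r n : ℕ} (hr : r ≤ n) {ω : Finset (Sym2 (Site D))}
    (hω : ∀ e ∈ ω, IsEdge e) (h : Exits q (box x n) x ω) :
    r + 1 ≤ (cluIn q (box x r) x ω).card := by
  obtain ⟨y, hy, h⟩ := h
  obtain ⟨a, -, b, hb, hab, h1⟩ := conn_exit hω (self_mem_box x r)
    (fun k => hy (box_mono x hr k)) h
  have h2 := conn_free_induction
    (P := fun v => ∀ k ≤ nrm (v - x), ∃ w ∈ cluIn q (box x r) x ω, nrm (w - x) = k)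
    (fun k hk => ⟨x, (mem_cluIn_iff (self_mem_box x r) ω x).2 (Eqv.refl' _ _), by
      simp only [sub_self, nrm_zero] at hk ⊢; omega⟩)
    (fun u v hu ih huv k hk => by
      by_cases hk' : k ≤ nrm (u - x)
      · exact ih k hk'
      · refine ⟨v, (mem_cluIn_iff (self_mem_box x r) ω v).2
          (Eqv.trans' _ hu (lat_conn_edge _ huv)), ?_⟩
        have a1 := (hω _ (mem_inter.1 huv).1).nrm_le (Sym2.mem_mk_left u v) (Sym2.mem_mk_right u v)
        have a2 := nrm_triangle v u x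
        omega) h1
  have h3 : r ≤ nrm (a - x) := by
    have a1 := (hω _ hab).nrm_le (Sym2.mem_mk_left a b) (Sym2.mem_mk_right a b)
    have a2 := nrm_triangle b a x
    rw [mem_box] at hb
    omega
  have h4 : range (r + 1) ⊆ (cluIn q (box x r) x ω).image fun w => nrm (w - x) := fun k hk => by
    obtain ⟨w, hw, h5⟩ := h2 k (by have := mem_range.1 hk; omega)
    exact mem_image.2 ⟨w, hw, h5⟩
  simpa using (card_le_card h4).trans card_image_le

open Vol in
theorem wdStmt : WDStmt := by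
  intro D q β J hβ hJ h
  obtain ⟨R, hR⟩ := h (D + 1) (1 / (Real.exp 2 * 8 ^ (D + 1))) (by positivity)
  have hv := vJ_nonneg (D := D) hβ hJ
  set θ : ℝ := 1 / (Real.exp 2 * 8 ^ (D + 1)) / ((R : ℝ) + 1) ^ (D + 1) with hθ
  have hθ0 : 0 ≤ θ := by positivity
  have hθ1 : ∀ z : Site D, thW q β J (box z R) z ≤ θ := fun z => by
    rw [hθ, le_div_iff₀ (by positivity), mul_comm]
    exact hR z
  set m : ℕ := (4 * R + 3) ^ (D + 1) with hm
  have hm0 : (0 : ℝ) < m := by rw [hm]; positivity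
  set Δ : ℕ := (8 * R + 7) ^ (D + 1) with hΔ
  have hΔ0 : (0 : ℝ) < Δ := by rw [hΔ]; positivity
  have hΔ1 : (1 : ℝ) ≤ Δ := by exact_mod_cast Nat.one_le_iff_ne_zero.2 (by rw [hΔ]; positivity)
  have hb : (0 : ℝ) ≤ 1 / Δ := by positivity
  have h5 : 1 / (Δ : ℝ) ≤ 1 := by rw [div_le_one hΔ0]; exact hΔ1
  have han := fun (S : Finset (Site D)) (x : Site D) =>
    animals (N := fun z : Site D => box z (4 * R + 3)) (Δ := Δ)
    (fun z => by rw [card_box]; exact le_of_eq (by rw [hΔ]; congr 1; ring))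
    (δ := Real.exp 1 * θ) (b := 1 / Δ) (by positivity) hb (by
      have e1 : (1 + 1 / (Δ : ℝ)) ^ Δ ≤ Real.exp 1 := by
        calc (1 + 1 / (Δ : ℝ)) ^ Δ ≤ Real.exp (1 / Δ) ^ Δ :=
              pow_le_pow_left₀ (by positivity) (by linarith [Real.add_one_le_exp (1 / (Δ : ℝ))]) _
          _ = Real.exp 1 := by rw [← Real.exp_nat_mul]; congr 1; field_simp
      have e2 : Real.exp 2 = Real.exp 1 * Real.exp 1 := by rw [← Real.exp_add]; norm_num
      have e4 : (Δ : ℝ) ≤ 8 ^ (D + 1) * ((R : ℝ) + 1) ^ (D + 1) := by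
        rw [← mul_pow, hΔ]
        push_cast
        exact pow_le_pow_left₀ (by positivity) (by linarith) _
      have e3 : θ * Real.exp 2 * Δ ≤ 1 := by
        calc θ * Real.exp 2 * Δ ≤ θ * Real.exp 2 * (8 ^ (D + 1) * ((R : ℝ) + 1) ^ (D + 1)) := by
              gcongr
          _ = 1 := by rw [hθ]; field_simp
      rw [le_div_iff₀ hΔ0]
      calc Real.exp 1 * θ * (1 + 1 / (Δ : ℝ)) ^ Δ * Δ ≤ Real.exp 1 * θ * Real.exp 1 * Δ := by gcongr
        _ = θ * Real.exp 2 * Δ := by rw [e2]; ring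
        _ ≤ 1 := e3) S {x}
  simp only [card_singleton, pow_one] at han
  refine ⟨2 * Real.exp (R / m), 1 / m, by positivity, fun J' hJ' hJJ x n => ?_⟩
  refine (thW_mono hβ le_rfl hJ' hJJ _ _).trans ?_
  have e5 : 2 * Real.exp (R / m) * Real.exp (-(1 / m) * n) = 2 * Real.exp (-(((n : ℝ) - R) / m)) := by
    rw [mul_assoc, ← Real.exp_add]; congr 2; ring
  rw [e5]
  by_cases hn : n < R
  · refine (thW_le_one hβ hJ _ _).trans ?_
    have : (n : ℝ) < R := by exact_mod_cast hn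
    have : 0 ≤ -(((n : ℝ) - R) / m) := by
      rw [← neg_div]; exact div_nonneg (by linarith) hm0.le
    linarith [Real.one_le_exp this]
  rw [not_lt] at hn
  set S := box x (n - R) with hS
  let g : Finset (Site D) → Finset (Sym2 (Site D)) → ℝ := fun T ω =>
    (ind (Rooted (fun z : Site D => box z (4 * R + 3)) {x} T ∧ Sep R T) * Real.exp 1 ^ T.card) *
      ind (∀ z ∈ T, Exits q (box z R) z ω)
  have hg0 : ∀ T ω, 0 ≤ g T ω := fun T ω =>
    mul_nonneg (mul_nonneg (ind_nonneg _) (by positivity)) (ind_nonneg _)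
  have hsub : ∀ z ∈ S, box z R ⊆ box x n := fun z hz =>
    box_subset_box (by have := mem_box.1 hz; omega)
  have hE : ∀ e ∈ edgesOf (box x n), IsEdge e := fun e he => (mem_edgesOf.1 he).1
  have hpt : ∀ ω ⊆ edgesOf (box x n), ind (Exits q (box x n) x ω) ≤
      Real.exp (-(((n : ℝ) - R) / m)) * ∑ T ∈ S.powerset, g T ω := by
    intro ω hω
    have hs : 0 ≤ ∑ T ∈ S.powerset, g T ω := sum_nonneg fun T _ => hg0 T ω
    by_cases hex : Exits q (box x n) x ω
    · have hω' : ∀ e ∈ ω, IsEdge e := fun e he => hE e (hω he)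
      have hC := mem_cluIn_iff (q := q) (self_mem_box x (n - R)) ω
      obtain ⟨T, hTC, hsep, hroot, hcard⟩ :=
        exists_net R (fun e he => hω' e (mem_inter.1 he).1) x hC
      have hTS : T ⊆ S := hTC.trans (filter_subset _ _)
      have h1 := (card_cluIn_ge (Nat.sub_le n R) hω' hex).trans hcard
      have h2 : g T ω = Real.exp 1 ^ T.card := by
        simp only [g]
        rw [ind_pos ⟨hroot, hsep⟩, one_mul, ind_pos, mul_one]
        intro z hz
        obtain ⟨y, hy, hc⟩ := hex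
        exact ⟨y, fun k => hy (hsub z (hTS hz) k), Eqv.trans' _ (Eqv.symm' _
          (Gr.conn_mono le_rfl inter_subset_left ((hC z).1 (hTC hz)))) hc⟩
      have h3 := single_le_sum (f := fun T => g T ω) (fun T _ => hg0 T ω) (mem_powerset.2 hTS)
      simp only [h2] at h3
      rw [ind_pos hex]
      refine le_trans ?_ (mul_le_mul_of_nonneg_left h3 (Real.exp_pos _).le)
      rw [← Real.exp_nat_mul, mul_one, ← Real.exp_add]
      refine Real.one_le_exp ?_
      have h4 : ((n - R : ℕ) : ℝ) + 1 ≤ T.card * m := by exact_mod_cast h1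
      rw [Nat.cast_sub hn] at h4
      have : ((n : ℝ) - R) / m ≤ T.card := by rw [div_le_iff₀ hm0]; linarith
      linarith
    · rw [ind_neg hex]
      exact mul_nonneg (Real.exp_pos _).le hs
  refine (Gr.ex_mono hv hpt).trans ?_
  rw [Gr.ex_const_mul, Gr.ex_sum, mul_comm]
  refine mul_le_mul_of_nonneg_right ?_ (Real.exp_pos _).le
  refine le_trans (sum_le_sum fun T hT => ?_) ((han S x).trans (by linarith))
  simp only [g]
  rw [Gr.ex_const_mul]
  by_cases hsep : Sep R T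
  · rw [ind_congr (and_iff_left hsep), mul_pow, mul_assoc]
    refine mul_le_mul_of_nonneg_left (mul_le_mul_of_nonneg_left ?_ (by positivity)) (ind_nonneg _)
    refine (pr_all_loc_le (q := q) hv hE T (fun z => box z R) (fun z => Exits q (box z R) z)
      (fun z hz => wire_mono (Set.compl_subset_compl.2 (coe_subset.2
        (hsub z (mem_powerset.1 hT hz))))) (fun z _ => locIncr_exits _ _)
      fun z hz z' hz' hne => disjoint_edgesOf (hsep z hz z' hz' hne)).trans ?_
    rw [← prod_const]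
    exact prod_le_prod (fun z _ => thW_nonneg hβ hJ _ _) fun z _ => hθ1 z
  · rw [ind_neg (fun k => hsep k.2), zero_mul, zero_mul]
    exact mul_nonneg (ind_nonneg _) (by positivity)

end

end Pool.Agent.MP_48a2f9_mp

end MrgPart5

-- ======== part 6: formerly Pool.Agent.MP_48a2f9_mp.FKCW
section MrgPart6

/-!
The cluster-weight system of the FK model has all the properties of the interface.
-/

open Finset Filter Topology
open scoped ENNReal

namespace Pool.Agent.MP_48a2f9_mp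

noncomputable section
open Classical

variable {D q : ℕ} {β : ℝ}

lemma tau_fkg {J : ℝ} (hβ : 0 ≤ β) (hJ : 0 ≤ J) (x y z : Site D) :
    tau q β J x y * tau q β J y z ≤ tau q β J x z :=
  le_of_tendsto_of_tendsto' ((tendsto_tauIn hβ hJ x y).mul (tendsto_tauIn hβ hJ y z))
    (tendsto_tauIn hβ hJ x z) fun _ =>
    (Gr.pr_fkg (vJ_nonneg hβ hJ) (Gr.incr_conn _ _ x y) (Gr.incr_conn _ _ y z)).trans
      (Gr.pr_mono (vJ_nonneg hβ hJ) fun _ _ h => Eqv.trans' _ h.1 h.2)

lemma tau_line_lower {J : ℝ} (hq : 1 ≤ q) (hβ : 0 ≤ β) (hJ : 0 ≤ J) :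
    (Real.exp (β * J) - 1) / (Real.exp (β * J) - 1 + q) ≤
      tau q β J (0 : Site D) (((1 : ℕ) : ℤ), 0) := by
  have hv := vJ_nonneg (D := D) hβ hJ
  set y : Site D := (((1 : ℕ) : ℤ), 0) with hy
  have he : s((0 : Site D), y) ∈ edgesIn {0, y} :=
    mem_edgesIn.2 ⟨isEdge_mk.2 (by simp [Adj, hy]), fun x hx => by simpa using hx⟩
  have h1 := Gr.le_ex_open (G := lat D q) (W := free) hv he (g := fun _ => 1)
    fun _ _ => zero_le_one
  simp only [mul_one, ind_not] at h1
  rw [Gr.ex_sub, Gr.ex_const hv, lat_q hq] at h1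
  have h2 : vJ β J s((0 : Site D), y) = Real.exp (β * J) - 1 := by
    simp [vJ, edgeJ, hy]
  have h3 := hv s((0 : Site D), y)
  rw [h2] at h1 h3
  have hq' : (0 : ℝ) < q := by exact_mod_cast hq
  refine le_trans ?_ ((Gr.pr_mono hv fun ω _ h => lat_conn_edge free h).trans
    (tauIn_le_tau hβ hJ {0, y} 0 y))
  rw [div_le_iff₀ (by linarith)]
  rw [div_mul_eq_mul_div, div_le_iff₀ hq'] at h1
  unfold Gr.pr
  linarith

theorem cw_of_decay (hq : 2 ≤ q) (hβ : 0 < β) (hW : ∀ J, 0 ≤ J → WiredDecay D q β J) :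
    (mdl D q β).CW := by
  have hq1 : 1 ≤ q := by omega
  have hq' : (1 : ℝ) ≤ q := by exact_mod_cast hq1
  have hb := hβ.le
  have teq := fun J hJ => mdl_tau_eq (D := D) hq1 hb hJ (hW J hJ)
  have beq : ∀ J, 0 ≤ J → ∀ n : ℕ, (mdl D q β).b J n = tau q β J (0 : Site D) ((n : ℤ), 0) :=
    fun J hJ n => by rw [OZ.Model.b, teq J hJ, ENNReal.toReal_ofReal (tau_nonneg hb hJ _ _)]
  refine ⟨hq, hβ, fun J hJ => ?_, fun J hJ S A _ => ?_, fun J hJ S S' A h _ => ?_,
    fun J hJ S A B h _ _ => ?_, fun J hJ => ?_, fun J _ g h1 h2 S A _ => ?_,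
    fun J J' _ _ S A _ h => ?_, fun J hJ S x => ?_, fun J hJ => ?_, fun J hJ S x y => ?_,
    fun J hJ x y z => ?_, fun J J' hJ h A => ?_, fun J J' hJ h x y => ?_, fun J hJ => ?_,
    fun J J' hJ h => ?_, fun J hJ μ hμ n => ?_⟩
  · refine ⟨(q : ℝ)⁻¹ * Real.exp (-(β * max J 1 * 3 ^ (D + 1))), by positivity, fun S A _ => ?_⟩
    rw [mul_pow]
    exact mul_le_mul_of_nonneg_left (piI_ge hb hJ) (by positivity)
  · exact mul_le_one₀ (pow_le_one₀ (by positivity) (inv_le_one_of_one_le₀ hq'))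
      (piI_nonneg hb hJ) (piI_le_one hb hJ)
  · exact mul_le_mul_of_nonneg_left (piI_le hb hJ le_rfl h) (by positivity)
  · show Psi q β J S (A ∪ B) = Psi q β J S A * Psi q β J (S \ ↑A) B
    rw [Psi, Psi, Psi, card_union_of_disjoint h, piI_union hb hJ, pow_add]
    ring
  · obtain ⟨C, c, hC, hc, h⟩ := piI_mix hb hJ (hW J hJ)
    refine ⟨C, c, hC, hc, fun S S' A δ _ h1 h2 => ?_⟩
    show Psi q β J S' A ≤ Psi q β J S A * _
    rw [Psi, Psi, mul_assoc]
    exact mul_le_mul_of_nonneg_left (h S S' A δ h1 h2) (by positivity)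
  · show Psi q β J _ _ = Psi q β J S A
    rw [Psi, Psi, piI_image h1 h2, card_image_of_injective _ g.injective]
  · show Psi q β J S A = Psi q β J' S A
    rw [Psi, Psi, piI_off_line h]
  · have := tsum_wt_le (S := S) hq1 hb hJ x (f := fun _ => 1) (fun _ => zero_le_one) (c := 1)
      fun Λ => (Gr.ex_const (vJ_nonneg hb hJ) 1).le
    simpa using this
  · obtain ⟨ε, C, hε, h⟩ := vol_moment hb hJ (hW J hJ)
    refine ⟨ε, C, hε, fun S x => tsum_wt_le hq1 hb hJ x
      (f := fun γ => Real.exp (ε * (OZ.verts x γ).card)) (fun _ => (Real.exp_pos _).le) fun Λ => ?_⟩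
    refine le_trans (le_of_eq (Gr.ex_congr fun ω _ => ?_)) (h _ eS_edge x)
    rw [← Set.ncard_coe_finset]
    congr 4
    ext y
    exact mem_verts_cluE
  · rw [teq J hJ]
    exact mdl_tau_le hq1 hb hJ S x y
  · rw [teq J hJ, teq J hJ, teq J hJ, ← ENNReal.ofReal_mul (tau_nonneg hb hJ _ _)]
    exact ENNReal.ofReal_le_ofReal (tau_fkg hb hJ x y z)
  · exact mul_le_mul_of_nonneg_left (piI_le hb hJ h subset_rfl) (by positivity)
  · rw [teq J hJ, teq J' (hJ.trans h)]
    exact ENNReal.ofReal_le_ofReal (le_of_tendsto_of_tendsto' (tendsto_tauIn hb hJ x y)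
      (tendsto_tauIn hb (hJ.trans h) x y) fun _ => tauIn_mono hb hJ h subset_rfl x y)
  · rw [beq J hJ]
    exact tau_line_lower hq1 hb hJ
  · obtain ⟨κ, hκ, hs⟩ := sprStmt D q β J J' hβ hJ h
    refine ⟨κ, hκ, fun n => ?_⟩
    rw [teq J' (hJ.le.trans h.le)]
    refine le_trans (le_of_eq (tsum_congr fun γ => ?_)) (tsum_wt_le (S := Set.univ) hq1 hb hJ.le 0
      (f := fun γ => ind (((n : ℤ), 0) ∈ OZ.verts 0 γ) * (1 + κ) ^ OZ.lineBreaks γ n)
      (fun _ => mul_nonneg (ind_nonneg _) (by positivity)) fun Λ => ?_)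
    · split_ifs with k
      · rw [ind_pos k, one_mul]
      · simp [ind_neg k]
    · simp only [mem_verts_cluE, eS_univ]
      exact (hs Λ n).trans (tauIn_le_tau hb (hJ.le.trans h.le) Λ _ _)
  · rw [beq J hJ]
    exact spinStmt.2 D q β J hq hb hJ (hW J hJ) μ hμ n

theorem wiredDecay_of_lt (hL : LineStmt) (hq : 2 ≤ q) (hβ : 0 < β) (h : (β : EReal) < betaC D q)
    (J : ℝ) (hJ : 0 ≤ J) : WiredDecay D q β J := by
  obtain ⟨b, h1, -, h2⟩ := exists_thetaZero hq h
  exact wdStmt D q β J hβ.le hJ (hL D q β J hβ.le hJ (sharpStmt D q β b hβ h1 h2))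

theorem cwStmt_of_line (hL : LineStmt) : OZ.CWStmt := fun D q β _ hq hβ h =>
  ⟨Psi q β, cw_of_decay (D := D) hq hβ (wiredDecay_of_lt hL hq hβ h)⟩

end

end Pool.Agent.MP_48a2f9_mp

end MrgPart6

-- ======== part 7: formerly Pool.Agent.MP_48a2f9_mp.OpB5
section MrgPart7

/-!
The homogeneous case of the renewal analysis.
-/

open Finset Filter Topology

namespace Pool.Agent.MP_48a2f9_mp

noncomputable section
open Classical

namespace B5

variable {D : ℕ}

lemma summable_exp_norm {ν : ℝ} (hν : 0 < ν) (D : ℕ) :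
    Summable fun u : Tr D => Real.exp (-ν * ‖u‖) := by
  set κ := ν / (D + 1) with hκ
  have hκ0 : 0 < κ := by positivity
  have h1 : Summable fun k : ℤ => Real.exp (-κ * |(k : ℝ)|) := by
    have h2 : Summable fun n : ℕ => Real.exp (-κ * n) := by
      simpa only [mul_comm (-κ), Real.exp_nat_mul] using
        summable_geometric_of_lt_one (Real.exp_pos (-κ)).le (Real.exp_lt_one_iff.2 (by linarith))
    refine Summable.of_nat_of_neg ?_ ?_ <;> simpa using h2
  refine summable_of_sum_le (fun u => (Real.exp_pos _).le)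
    (c := (∑' k : ℤ, Real.exp (-κ * |(k : ℝ)|)) ^ D) fun S => ?_
  have hS : S ⊆ Fintype.piFinset fun k : Fin D => S.image fun u : Tr D => (u k : ℤ) := fun u hu =>
    Fintype.mem_piFinset.2 fun k => mem_image_of_mem _ hu
  calc ∑ u ∈ S, Real.exp (-ν * ‖u‖) ≤ ∑ u ∈ S, ∏ k, Real.exp (-κ * |(u k : ℝ)|) := by
        refine sum_le_sum fun u _ => ?_
        rw [← Real.exp_sum, Real.exp_le_exp, ← mul_sum]
        have h3 : ∑ k, |(u k : ℝ)| ≤ D * ‖u‖ := by
          refine (sum_le_card_nsmul _ _ ‖u‖ fun k _ => ?_).trans (by simp)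
          rw [← Int.norm_eq_abs]
          exact norm_le_pi_norm u k
        have h4 : κ * (D * ‖u‖) ≤ ν * ‖u‖ := by
          rw [← mul_assoc]
          refine mul_le_mul_of_nonneg_right ?_ (norm_nonneg _)
          rw [hκ, div_mul_eq_mul_div, div_le_iff₀ (by positivity)]
          nlinarith
        nlinarith [mul_le_mul_of_nonneg_left h3 hκ0.le]
    _ ≤ ∑ u ∈ Fintype.piFinset fun k : Fin D => S.image fun u : Tr D => (u k : ℤ),
          ∏ k, Real.exp (-κ * |((u k : ℤ) : ℝ)|) :=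
        sum_le_sum_of_subset_of_nonneg hS fun u _ _ => prod_nonneg fun k _ => (Real.exp_pos _).le
    _ = ∏ k : Fin D, ∑ j ∈ S.image fun u : Tr D => (u k : ℤ), Real.exp (-κ * |((j : ℤ) : ℝ)|) :=
        (prod_univ_sum _ fun _ (j : ℤ) => Real.exp (-κ * |(j : ℝ)|)).symm
    _ ≤ ∏ _k : Fin D, ∑' j : ℤ, Real.exp (-κ * |(j : ℝ)|) :=
        prod_le_prod (fun k _ => sum_nonneg fun j _ => (Real.exp_pos _).le)
          fun k _ => h1.sum_le_tsum _ fun j _ => (Real.exp_pos _).le
    _ = _ := by simp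

lemma rpw_pos (a : ℝ) (n : ℕ) : 0 < rpw a n := Real.rpow_pos_of_pos (by positivity) _

lemma rpw_sub_le {a : ℝ} (ha : 0 ≤ a) (n l : ℕ) :
    rpw a (n - l) ≤ ((l : ℝ) + 1) ^ a * rpw a n := by
  unfold rpw
  rw [Real.rpow_neg (by positivity), Real.rpow_neg (by positivity), ← div_eq_mul_inv,
    le_div_iff₀ (by positivity), inv_mul_le_iff₀ (by positivity),
    ← Real.mul_rpow (by positivity) (by positivity)]
  refine Real.rpow_le_rpow (by positivity) ?_ ha
  have : n + 1 ≤ (n - l + 1) * (l + 1) := by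
    have : n ≤ n - l + l := by omega
    nlinarith [Nat.zero_le ((n - l) * l)]
  exact_mod_cast this

lemma rpw_ratio (a : ℝ) (l : ℕ) :
    Tendsto (fun n => rpw a (n - l) / rpw a n) atTop (𝓝 1) := by
  have h0 : Tendsto (fun n : ℕ => 1 - (l : ℝ) / ((n : ℝ) + 1)) atTop (𝓝 (1 - 0)) :=
    tendsto_const_nhds.sub (tendsto_const_nhds.div_atTop
      (tendsto_atTop_add_const_right _ 1 tendsto_natCast_atTop_atTop))
  rw [sub_zero] at h0
  have h := h0.rpow_const (p := -a) (Or.inl one_ne_zero)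
  rw [Real.one_rpow] at h
  refine h.congr' ?_
  filter_upwards [eventually_ge_atTop l] with n hn
  unfold rpw
  rw [← Real.div_rpow (by positivity) (by positivity), Nat.cast_sub hn]
  congr 1
  field_simp
  ring

lemma summable_weight {ν a : ℝ} (hν : 0 < ν) (_ha : 0 ≤ a) :
    Summable fun l : ℕ => ((l : ℝ) + 1) ^ a * Real.exp (-ν * l) := by
  obtain ⟨k, hk⟩ := exists_nat_ge a
  have h1 := (summable_nat_add_iff 1).2 (summable_pow_mul_geometric_of_norm_lt_one (R := ℝ) k
    (r := Real.exp (-ν)) (by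
      rw [Real.norm_eq_abs, abs_of_pos (Real.exp_pos _)]
      exact Real.exp_lt_one_iff.2 (by linarith)))
  refine Summable.of_nonneg_of_le (fun l => by positivity) (fun l => ?_) (h1.mul_left (Real.exp ν))
  have e1 : Real.exp (-ν * l) = Real.exp ν * Real.exp (-ν) ^ (l + 1) := by
    rw [← Real.exp_nat_mul, ← Real.exp_add]; congr 1; push_cast; ring
  have e2 : ((l : ℝ) + 1) ^ a ≤ ((l + 1 : ℕ) : ℝ) ^ k := by
    push_cast
    rw [← Real.rpow_natCast]
    exact Real.rpow_le_rpow_of_exponent_le (by linarith [Nat.cast_nonneg (α := ℝ) l]) hk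
  rw [e1, mul_left_comm]
  gcongr

/-- Convolution with an exponentially decaying weight. -/
lemma conv_lim {b : ℕ → Tr D → ℝ} {C ν a : ℝ} (hν : 0 < ν) (ha : 0 ≤ a) (hb0 : ∀ l u, 0 ≤ b l u)
    (hb : ∀ l u, b l u ≤ C * Real.exp (-ν * (l + ‖u‖))) (hpos : 0 < b 1 (u0 D)) :
    ∃ S B₀ : ℝ, 0 < S ∧ 0 ≤ B₀ ∧ ∀ (s : ℕ → Finset ℕ) (x : ℕ → Tr D → ℝ) (B c : ℝ),
      (∀ n, ∀ l ∈ s n, 0 < l) → (∀ l, 0 < l → ∀ᶠ n in atTop, l ∈ s n) →
      (∀ n u, |x n u| ≤ B * rpw a n) →
      (∀ n, |∑ l ∈ s n, ∑' u, b l u * x (n - l) u| ≤ B₀ * B * rpw a n) ∧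
      ((∀ u, Tendsto (fun n => x n u / rpw a n) atTop (𝓝 c)) →
        Tendsto (fun n => (∑ l ∈ s n, ∑' u, b l u * x (n - l) u) / rpw a n) atTop (𝓝 (S * c))) := by
  have hC : 0 ≤ C := by
    have := hpos.trans_le (hb 1 (u0 D))
    exact nonneg_of_mul_nonneg_left this.le (Real.exp_pos _)
  let w : ℕ × Tr D → ℝ := fun p => C * (((p.1 : ℝ) + 1) ^ a * Real.exp (-ν * p.1) *
    Real.exp (-ν * ‖p.2‖))
  have hw : Summable w := ((summable_weight hν ha).mul_of_nonneg (summable_exp_norm hν D)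
    (fun l => by positivity) fun u => (Real.exp_pos _).le).mul_left C
  have hbw : ∀ p : ℕ × Tr D, ((p.1 : ℝ) + 1) ^ a * b p.1 p.2 ≤ w p := fun p => by
    have := mul_le_mul_of_nonneg_left (hb p.1 p.2) (by positivity : 0 ≤ ((p.1 : ℝ) + 1) ^ a)
    rw [mul_add, Real.exp_add] at this
    simp only [w]
    linarith
  have hbw' : ∀ p : ℕ × Tr D, b p.1 p.2 ≤ w p := fun p => le_trans (le_mul_of_one_le_left (hb0 _ _)
    (Real.one_le_rpow (by linarith [Nat.cast_nonneg (α := ℝ) p.1]) ha)) (hbw p)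
  let b' : ℕ × Tr D → ℝ := fun p => if 0 < p.1 then b p.1 p.2 else 0
  have hb'0 : ∀ p, 0 ≤ b' p := fun p => by simp only [b']; split_ifs; exacts [hb0 _ _, le_rfl]
  have hb' : Summable b' := Summable.of_nonneg_of_le hb'0 (fun p => by
    simp only [b']; split_ifs; exacts [hbw' p, (hb0 _ _).trans (hbw' p)]) hw
  refine ⟨∑' p, b' p, ∑' p, w p, hb'.tsum_pos hb'0 (1, u0 D) (by simpa [b'] using hpos),
    tsum_nonneg fun p => (hb0 _ _).trans (hbw' p), fun s x B c hs1 hs2 hx => ?_⟩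
  have hB : 0 ≤ B := by
    have := (abs_nonneg _).trans (hx 0 0)
    exact nonneg_of_mul_nonneg_left this (rpw_pos a 0)
  let F : ℕ → ℕ × Tr D → ℝ := fun n p =>
    if p.1 ∈ s n then b p.1 p.2 * x (n - p.1) p.2 / rpw a n else 0
  have hF : ∀ n p, ‖F n p‖ ≤ w p * B := fun n p => by
    simp only [F]
    split_ifs
    · rw [Real.norm_eq_abs, abs_div, abs_mul, abs_of_nonneg (hb0 _ _), abs_of_pos (rpw_pos a n),
        div_le_iff₀ (rpw_pos a n)]
      have h1 := (hx (n - p.1) p.2).trans (mul_le_mul_of_nonneg_left (rpw_sub_le ha n p.1) hB)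
      have h2 := mul_le_mul_of_nonneg_left h1 (hb0 p.1 p.2)
      have h3 := mul_le_mul_of_nonneg_right (hbw p) (mul_nonneg hB (rpw_pos a n).le)
      linarith
    · rw [norm_zero]
      exact mul_nonneg ((hb0 _ _).trans (hbw' p)) hB
  have hFs : ∀ n, Summable (F n) := fun n => Summable.of_norm_bounded (hw.mul_right B) (hF n)
  have hFe : ∀ n, (∑ l ∈ s n, ∑' u, b l u * x (n - l) u) / rpw a n = ∑' p, F n p := fun n => by
    rw [(hFs n).tsum_prod, tsum_eq_sum (s := s n) fun l hl => by simp [F, hl], sum_div]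
    refine sum_congr rfl fun l hl => ?_
    simp only [F, if_pos hl]
    rw [tsum_div_const]
  refine ⟨fun n => ?_, fun hc => ?_⟩
  · have h1 := tsum_of_norm_bounded (hw.mul_right B).hasSum (hF n)
    rw [← hFe, tsum_mul_right, Real.norm_eq_abs, abs_div, abs_of_pos (rpw_pos a n),
      div_le_iff₀ (rpw_pos a n)] at h1
    exact h1
  · simp only [hFe]
    rw [← tsum_mul_right]
    refine tendsto_tsum_of_dominated_convergence (hw.mul_right B) (fun p => ?_)
      (Eventually.of_forall hF)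
    by_cases hp : 0 < p.1
    · have h1 := ((((hc p.2).comp (tendsto_sub_atTop_nat p.1)).mul (rpw_ratio a p.1)).const_mul
        (b p.1 p.2))
      simp only [b', if_pos hp]
      rw [mul_one] at h1
      refine h1.congr' ?_
      filter_upwards [hs2 p.1 hp] with n hn
      simp only [F, if_pos hn, Function.comp]
      have := (rpw_pos a (n - p.1)).ne'
      field_simp
    · simp only [b', if_neg hp, zero_mul]
      refine tendsto_const_nhds.congr fun n => ?_
      simp only [F]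
      rw [if_neg fun k => hp (hs1 n _ k)]

lemma green_shift {p : ℕ → Tr D → ℝ} {G : ℕ → Tr D → Tr D → ℝ} (hG : IsGp (hk p) G) :
    ∀ n u v, G n u v = G n 0 (v - u) := by
  intro n
  induction n using Nat.strong_induction_on with
  | _ n ih =>
    intro u v
    rw [hG n u v, hG n 0 (v - u)]
    simp only [hk, kconv, sub_zero]
    congr 1
    refine sum_congr rfl fun l hl => ?_
    have hl' := mem_Ioo.1 hl
    rw [← (Equiv.addRight u).tsum_eq]
    refine tsum_congr fun w => ?_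
    rw [ih _ (by omega) w, ih _ (by omega) (Equiv.addRight u w)]
    simp only [Equiv.coe_addRight, add_sub_cancel_right]
    congr 2
    abel

/-- The visiting probabilities. -/
def gOf (G : ℕ → Tr D → Tr D → ℝ) (n : ℕ) (u : Tr D) : ℝ :=
  if n = 0 then (if u = 0 then 1 else 0) else G n 0 u

lemma isG_gOf {p : ℕ → Tr D → ℝ} {G : ℕ → Tr D → Tr D → ℝ} (hG : IsGp (hk p) G) :
    IsG p (gOf G) := by
  refine ⟨fun u => by simp [gOf], fun n u hn => ?_⟩
  rw [← Ioo_insert_right hn, sum_insert (by simp), gOf, if_neg (by omega), hG n 0 u]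
  simp only [hk, kconv, sub_zero, Nat.sub_self]
  congr 1
  · rw [tsum_eq_single u]
    · simp [gOf]
    · intro w hw
      simp [gOf, sub_eq_zero, Ne.symm hw]
  · refine sum_congr rfl fun l hl => tsum_congr fun w => ?_
    have hl' := mem_Ioo.1 hl
    rw [gOf, if_neg (by omega), green_shift hG]

lemma exists_supp {p : ℕ → Tr D → ℝ} {M : ℕ} {C ν : ℝ} (hp : HomOK p M C ν) (l : ℕ) :
    ∃ S : Finset (Tr D), ∀ w, w ∉ S → p l w = 0 := by
  refine ⟨Fintype.piFinset fun _ => Icc (-((M * l : ℕ) : ℤ)) (M * l : ℕ), fun w hw => ?_⟩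
  by_contra h
  have h1 := hp.ker.range l 0 w (by simpa [hk] using h)
  refine hw (Fintype.mem_piFinset.2 fun k => mem_Icc.2 (abs_le.1 ?_))
  have h2 := (norm_le_pi_norm w k).trans (by simpa using h1)
  rw [Int.norm_eq_abs] at h2
  exact_mod_cast h2

lemma solve {p g bR tR : ℕ → Tr D → ℝ} {M : ℕ} {C ν B : ℝ} (hp : HomOK p M C ν) (hg : IsG p g)
    (hgB : ∀ n u, |g n u| ≤ B) (hb : ∀ m, Summable fun w => |bR m w|)
    (ht : ∀ n u, 1 ≤ n → tR n u = bR n u + kconv (hk p) tR n u) :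
    ∀ n u, 1 ≤ n → tR n u = ∑ m ∈ Ioc 0 n, ∑' w, bR m w * g (n - m) (w - u) := by
  have hs : ∀ m k (v : Tr D), Summable fun w => bR m w * g k (w - v) := fun m k v =>
    Summable.of_norm_bounded ((hb m).mul_right B) fun w => by
      rw [Real.norm_eq_abs, abs_mul]
      exact mul_le_mul_of_nonneg_left (hgB _ _) (abs_nonneg _)
  intro n
  induction n using Nat.strong_induction_on with
  | _ n ih =>
    intro u hn
    rw [ht n u hn, ← Ioo_insert_right hn, sum_insert (by simp), Nat.sub_self]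
    congr 1
    · rw [tsum_eq_single u]
      · simp [hg.1]
      · intro w hw
        simp [hg.1, sub_eq_zero, hw]
    · unfold kconv
      have e1 : ∀ l ∈ Ioo 0 n, ∑' v, hk p l u v * tR (n - l) v =
          ∑ m ∈ Ioc 0 (n - l), ∑' w, bR m w * ∑' v, p l v * g (n - m - l) (w - u - v) := by
        intro l hl
        have hl' := mem_Ioo.1 hl
        obtain ⟨S, hS⟩ := exists_supp hp l
        rw [← (Equiv.addRight u).tsum_eq, tsum_eq_sum (s := S) fun v hv => by simp [hk, hS v hv]]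
        simp only [hk, Equiv.coe_addRight, add_sub_cancel_right]
        rw [sum_congr rfl fun v _ => by rw [ih (n - l) (by omega) (v + u) (by omega), mul_sum],
          sum_comm]
        refine sum_congr rfl fun m _ => ?_
        simp only [← tsum_mul_left]
        rw [← Summable.tsum_finsetSum fun v _ => (hs m _ _).mul_left _]
        refine tsum_congr fun w => ?_
        rw [tsum_eq_sum (s := S) fun v hv => by simp [hS v hv]]
        refine sum_congr rfl fun v _ => ?_
        rw [show n - l - m = n - m - l by omega, show w - (v + u) = w - u - v by abel]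
        ring
      rw [sum_congr rfl e1]
      have e2 : ∀ m ∈ Ioo 0 n, ∑' w, bR m w * g (n - m) (w - u) =
          ∑ l ∈ Ioc 0 (n - m), ∑' w, bR m w * ∑' v, p l v * g (n - m - l) (w - u - v) := by
        intro m hm
        have hm' := mem_Ioo.1 hm
        rw [← Summable.tsum_finsetSum]
        · refine tsum_congr fun w => ?_
          rw [hg.2 (n - m) (w - u) (by omega), mul_sum]
        · intro l _
          obtain ⟨S, hS⟩ := exists_supp hp l
          have : (fun w => bR m w * ∑' v, p l v * g (n - m - l) (w - u - v)) =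
              fun w => ∑ v ∈ S, p l v * (bR m w * g (n - m - l) (w - (u + v))) := by
            funext w
            rw [tsum_eq_sum (s := S) fun v hv => by simp [hS v hv], mul_sum]
            refine sum_congr rfl fun v _ => ?_
            rw [sub_sub]
            ring
          rw [this]
          exact summable_sum fun v _ => (hs m _ _).mul_left _
      rw [sum_congr rfl e2]
      refine sum_comm' fun l m => ?_
      simp only [mem_Ioo, mem_Ioc]
      omega

end B5

open B5 in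
theorem b5Stmt (hL : LLTStmt) : B5Stmt := by
  intro D p G M C ν hD hν hp hm hG
  have hg := isG_gOf hG
  obtain ⟨c, C', ε, hc, -, l1, l2, -, -⟩ := hL D p (gOf G) M C ν hD hν hp hm hg
  have hsum : ∀ a : ℝ, Summable (rpw a) ↔ 1 < a := fun a => by
    have h1 : Summable (rpw a) ↔ Summable fun n : ℕ => (n : ℝ) ^ (-a) := by
      rw [← summable_nat_add_iff 1 (f := fun n : ℕ => (n : ℝ) ^ (-a))]
      unfold rpw
      simp only [Nat.cast_add, Nat.cast_one]
    rw [h1, Real.summable_nat_rpow]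
    constructor <;> intro h <;> linarith
  have hD0 : (0 : ℝ) < D := by exact_mod_cast hD
  have hlim : ∀ u, Tendsto (fun n => gOf G n u / rpw (D / 2) n) atTop (𝓝 c) := fun u => by
    rw [tendsto_iff_norm_sub_tendsto_zero]
    have h0 : Tendsto (fun n : ℕ => C' * (1 + ‖u‖ ^ 2) / ((n : ℝ) + 1)) atTop (𝓝 0) :=
      tendsto_const_nhds.div_atTop (tendsto_atTop_add_const_right _ 1 tendsto_natCast_atTop_atTop)
    refine squeeze_zero (fun n => norm_nonneg _) (fun n => ?_) h0
    have h1 := l1 n u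
    have h2 : rpw (D / 2 + 1) n = rpw (D / 2) n / ((n : ℝ) + 1) := by
      unfold rpw
      rw [neg_add, Real.rpow_add (by positivity), Real.rpow_neg_one]
      exact (div_eq_mul_inv _ _).symm
    have h3 := rpw_pos (D / 2) n
    rw [Real.norm_eq_abs, div_sub' h3.ne', abs_div, abs_of_pos h3, div_le_iff₀ h3, mul_comm _ c]
    rw [h2] at h1
    refine h1.trans (le_of_eq ?_)
    ring
  refine ⟨?_, fun hD2 t ⟨bL, bR, tR, err, hbL, hbR, herr, ht1, ht2⟩ => ?_⟩
  · have e1 : Sub G ↔ Summable fun n => gOf G n 0 := by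
      unfold Sub
      rw [← summable_nat_add_iff 1, ← summable_nat_add_iff 1 (f := fun n => gOf G n 0)]
      refine iff_of_eq (congrArg Summable (funext fun n => ?_))
      rw [green_shift hG, sub_self, gOf, if_neg (by omega)]
    have e2 : Summable fun n => gOf G n 0 - c * rpw (D / 2) n :=
      Summable.of_norm_bounded (((hsum (D / 2 + 1)).2 (by linarith)).mul_left _) fun n => l1 n 0
    have e3 : (Summable fun n => gOf G n 0) ↔ Summable (rpw (D / 2)) := by
      constructor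
      · intro h
        have := (h.sub e2).mul_left c⁻¹
        refine this.congr fun n => ?_
        field_simp
        ring
      · intro h
        exact (e2.add (h.mul_left c)).congr fun n => by ring
    rw [e1, e3, hsum, lt_div_iff₀ two_pos]
    constructor
    · intro h
      have : (2 : ℝ) < D := by linarith
      exact_mod_cast this
    · intro h
      have : (3 : ℝ) ≤ D := by exact_mod_cast h
      linarith
  · have ha : (0 : ℝ) ≤ D / 2 := by positivity
    have hG0 : ∀ n u v, 0 ≤ G n u v := by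
      intro n
      induction n using Nat.strong_induction_on with
      | _ n ih =>
        intro u v
        rw [hG n u v]
        refine add_nonneg (hp.ker.nonneg _ _ _) (sum_nonneg fun l hl => tsum_nonneg fun w => ?_)
        have := mem_Ioo.1 hl
        exact mul_nonneg (hp.ker.nonneg _ _ _) (ih _ (by omega) _ _)
    have hg0 : ∀ n u, 0 ≤ gOf G n u := fun n u => by
      unfold gOf
      split_ifs
      exacts [zero_le_one, le_rfl, hG0 _ _ _]
    have hgb : ∀ n u, |gOf G n u| ≤ C' * rpw (D / 2) n := fun n u => by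
      rw [abs_of_nonneg (hg0 n u)]; exact l2 n u
    have hC' : 0 ≤ C' := nonneg_of_mul_nonneg_left ((abs_nonneg _).trans (hgb 0 0)) (rpw_pos _ 0)
    have hsol := solve (B := C') hp hg (fun n u => (hgb n u).trans (mul_le_of_le_one_right hC'
      (Real.rpow_le_one_of_one_le_of_nonpos (by linarith [Nat.cast_nonneg (α := ℝ) n])
        (by linarith)))) (fun m => by
      refine Summable.of_nonneg_of_le (fun w => abs_nonneg _) (fun w => ?_)
        ((summable_exp_norm hν D).mul_left (C * Real.exp (-ν * m)))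
      rw [abs_of_nonneg (hbR.nonneg _ _), mul_assoc, ← Real.exp_add, ← mul_add]
      exact hbR.decay m w) ht1
    obtain ⟨SR, BR, hSR, -, kR⟩ := conv_lim hν ha hbR.nonneg hbR.decay hbR.pos
    obtain ⟨SL, BL, hSL, -, kL⟩ := conv_lim hν ha hbL.nonneg hbL.decay hbL.pos
    have kR' := fun u : Tr D => kR (fun n => Ioc 0 n) (fun n w => gOf G n (w - u)) C' c
      (fun n l hl => (mem_Ioc.1 hl).1)
      (fun l hl => (eventually_ge_atTop l).mono fun n hn => mem_Ioc.2 ⟨hl, hn⟩)
      fun n w => hgb n _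
    have kL' := (kL (fun n => Ioo 0 n)
      (fun n u => ∑ m ∈ Ioc 0 n, ∑' w, bR m w * gOf G (n - m) (w - u)) (BR * C') (SR * c)
      (fun n l hl => (mem_Ioo.1 hl).1)
      (fun l hl => (eventually_gt_atTop l).mono fun n hn => mem_Ioo.2 ⟨hl, hn⟩)
      fun n u => (kR' u).1 n).2 fun u => (kR' u).2 fun w => hlim _
    have herr0 : Tendsto (fun n => err n / rpw (D / 2) n) atTop (𝓝 0) := by
      have h0 := ((summable_weight hν ha).mul_left C).tendsto_atTop_zero
      refine squeeze_zero (fun n => div_nonneg (herr n).1 (rpw_pos _ n).le) (fun n => ?_) h0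
      rw [div_le_iff₀ (rpw_pos _ n)]
      refine (herr n).2.trans (le_of_eq ?_)
      unfold rpw
      rw [Real.rpow_neg (by positivity)]
      field_simp
    have hrat : Tendsto (fun n : ℕ => rpw (D / 2) n / gCrit (D + 1) n) atTop (𝓝 1) := by
      have h0 := (rpw_ratio (D / 2) 1).inv₀ one_ne_zero
      rw [inv_one] at h0
      refine h0.congr' ?_
      filter_upwards [eventually_ge_atTop 1] with n hn
      rw [inv_div, gCrit, if_pos (by omega)]
      congr 1
      unfold rpw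
      rw [Nat.cast_sub hn]
      congr 1
      · simp
      · push_cast; ring
    refine ⟨SL * (SR * c), by positivity, ?_⟩
    have h1 := (herr0.add kL').mul hrat
    rw [zero_add, mul_one] at h1
    refine h1.congr' ?_
    filter_upwards [eventually_ge_atTop 1] with n hn
    rw [ht2 n hn, ← add_div, div_mul_div_cancel₀ (rpw_pos _ n).ne']
    congr 2
    refine sum_congr rfl fun l hl => tsum_congr fun u => ?_
    have := mem_Ioo.1 hl
    rw [hsol (n - l) u (by omega)]

end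

end Pool.Agent.MP_48a2f9_mp

end MrgPart7

-- ======== part 8: formerly Pool.Agent.MP_48a2f9_mp.FKLine2
section MrgPart8

/-!
A defect line does not destroy the fast decay of wired crossings.
-/

open Finset Filter Topology

namespace Pool.Agent.MP_48a2f9_mp

noncomputable section
open Classical

namespace Line

variable {D q : ℕ}

/-- The distance to the line. -/
def ht (y : Site D) : ℕ := nrm (((0 : ℤ), y.2) : Site D)

lemma abs_le_ht (y : Site D) (k : Fin D) : |y.2 k| ≤ ht y :=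
  abs_snd_le_nrm (((0 : ℤ), y.2) : Site D) k

lemma ht_le (y z : Site D) : ht y ≤ ht z + nrm (y - z) := by
  refine nrm_le_iff.2 ⟨by simp only [abs_zero]; positivity, fun k => ?_⟩
  have h1 := abs_le_ht z k
  have h2 := abs_snd_le_nrm (y - z) k
  rw [Prod.snd_sub, Pi.sub_apply] at h2
  have h3 := abs_add_le (z.2 k) (y.2 k - z.2 k)
  rw [add_sub_cancel] at h3
  push_cast
  linarith

lemma nrm_sub_le {y z : Site D} {r : ℕ} (h1 : |y.1 - z.1| ≤ r) (h2 : ht y + ht z ≤ r) :
    nrm (y - z) ≤ r := by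
  refine nrm_le_iff.2 ⟨h1, fun k => ?_⟩
  rw [Prod.snd_sub, Pi.sub_apply]
  have h3 := abs_sub (y.2 k) (z.2 k)
  have h4 : ((ht y + ht z : ℕ) : ℤ) ≤ r := by exact_mod_cast h2
  push_cast at h4
  linarith [abs_le_ht y k, abs_le_ht z k]

lemma ht_of_zero {y : Site D} (h : y.2 = 0) : ht y = 0 := by
  unfold ht
  rw [h]
  exact nrm_zero

lemma ht_cast (y : Site D) : (ht y : ℝ) = ‖y.2‖ := by
  unfold ht
  rw [nrm_cast, Prod.norm_def, norm_zero, max_eq_right (norm_nonneg _)]

lemma ht_pos {y : Site D} (h : y.2 ≠ 0) : 0 < ht y := by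
  have := norm_pos_iff.2 h
  rw [← ht_cast] at this
  exact_mod_cast this

lemma thW_off (β J : ℝ) {y : Site D} {s : ℕ} (h : s < ht y) :
    thW q β J (box y s) y = thW q β 1 (box y s) y := by
  refine Gr.ex_congr_v (fun e he => ?_) _ _
  obtain ⟨-, a, ha, ha'⟩ := mem_edgesOf.1 he
  have h1 := mem_box.1 ha'
  have h2 := ht_le y a
  have h3 := nrm_sub_comm y a
  unfold vJ
  rw [edgeJ_one, edgeJ, if_neg fun k => ?_]
  have := ht_of_zero (k a ha)
  omega

/-- Some vertex of the level `t` close to the line has a long connection. -/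
def Cross (q r : ℕ) (t : ℤ) (ω : Finset (Sym2 (Site D))) : Prop :=
  ∃ y : Site D, y.1 = t ∧ ht y ≤ r ∧ Exits q (box y (ht y - 1)) y ω

lemma box_subset {r : ℕ} {t : ℤ} {y : Site D} (h1 : y.1 = t) (h2 : ht y ≤ r) :
    box y (ht y - 1) ⊆ box ((t, 0) : Site D) (2 * r) := by
  have : nrm (y - ((t, 0) : Site D)) ≤ r :=
    nrm_sub_le (by simp [h1]) (by rw [ht_of_zero (y := (t, 0)) rfl]; omega)
  exact box_subset_box (by omega)

lemma locIncr_cross (r : ℕ) (t : ℤ) : LocIncr (box ((t, 0) : Site D) (2 * r)) (Cross q r t) :=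
  ⟨fun a b k ⟨y, h1, h2, h3⟩ => ⟨y, h1, h2, (locIncr_exits _ y).mono a b k h3⟩,
    fun ω hω ⟨y, h1, h2, h3⟩ =>
      ⟨y, h1, h2, ((locIncr_exits _ y).subset (box_subset h1 h2)).loc ω hω h3⟩⟩

variable {β J C c : ℝ}

lemma prW_cross_le (hβ : 0 ≤ β) (hJ : 0 ≤ J) (hc : 0 < c)
    (hC : ∀ (x : Site D) (n : ℕ), thW q β 1 (box x n) x ≤ C * Real.exp (-c * n)) :
    ∃ ρ : ℝ, 0 < ρ ∧ ρ < 1 ∧ ∀ (r : ℕ) (t : ℤ),
      prW q (vJ β J) (box ((t, 0) : Site D) (2 * r)) (Cross q r t) ≤ ρ := by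
  have hv := vJ_nonneg (D := D) hβ hJ
  obtain ⟨s, hs⟩ := ((B5.summable_exp_norm hc D).mul_left (C * Real.exp c)).vanishing
    (Iio_mem_nhds (show (0 : ℝ) < 1 / 2 by norm_num))
  set c1 := Real.exp (-(β * max J 1 * 3 ^ (D + 1))) with hc1
  have h1 : 0 < c1 := Real.exp_pos _
  have h2 : c1 ≤ 1 := Real.exp_le_one_iff.2 (neg_nonpos.2 (mul_nonneg (mul_nonneg hβ
    (le_max_of_le_right zero_le_one)) (by positivity)))
  have h3 : c1 ^ (insert 0 s).card ≤ 1 := pow_le_one₀ h1.le h2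
  have h4 : 0 < c1 ^ (insert 0 s).card := pow_pos h1 _
  refine ⟨1 - c1 ^ (insert 0 s).card * (1 / 2), by linarith, by linarith, fun r t => ?_⟩
  set Λ := box ((t, 0) : Site D) (2 * r) with hΛ
  have hE : ∀ e ∈ edgesOf Λ, IsEdge e := fun e he => (mem_edgesOf.1 he).1
  let T := (box ((t, 0) : Site D) r).image Prod.snd \ insert 0 s
  let B : (Fin D → ℤ) → Finset (Sym2 (Site D)) → Prop := fun u =>
    Exits q (box ((t, u) : Site D) (ht ((t, u) : Site D) - 1)) (t, u)
  have k1 : (lat D q).pr (vJ β J) (wire (↑Λ)ᶜ) (edgesOf Λ) (fun ω => ∃ u ∈ T, B u ω) ≤ 1 / 2 := by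
    refine (Gr.pr_le_sum hv T B fun ω _ h => h).trans (le_trans (sum_le_sum fun u hu => ?_)
      (hs T (disjoint_left.2 fun u hu k => (mem_sdiff.1 hu).2 (mem_insert_of_mem k))).le)
    obtain ⟨hu1, hu2⟩ := mem_sdiff.1 hu
    obtain ⟨y, hy, rfl⟩ := mem_image.1 hu1
    have l1 : 0 < ht ((t, y.2) : Site D) := ht_pos fun k => hu2 (mem_insert.2 (Or.inl k))
    have l2 : ht ((t, y.2) : Site D) ≤ r := by
      have := ht_le y (t, 0)
      rw [ht_of_zero (y := (t, 0)) rfl] at this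
      have := mem_box.1 hy
      show ht y ≤ r
      omega
    refine (pr_exits_le hβ hJ hE (wire_mono (Set.compl_subset_compl.2
      (box_subset rfl l2))) _).trans ?_
    rw [thW_off β J (by omega)]
    refine (hC _ _).trans (le_of_eq ?_)
    rw [Nat.cast_sub l1, ht_cast, mul_assoc, ← Real.exp_add]
    congr 2
    push_cast
    ring
  let A : Finset (Site D) := (insert 0 s).image fun u => (t, u)
  have k2 : c1 ^ (insert 0 s).card ≤ (lat D q).pr (vJ β J) (wire (↑Λ)ᶜ) (edgesOf Λ) (Iso A) :=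
    (pow_le_pow_of_le_one h1.le h2 card_image_le).trans (pr_iso_ge hβ hJ hE _ A)
  have k3 := Gr.pr_fkg_decr (G := lat D q) (W := wire (↑Λ)ᶜ) hv (decr_iso (edgesOf Λ) A)
    (Gr.Incr.not (A := fun ω => ∃ u ∈ T, B u ω) fun a b k l ⟨u, hu, h⟩ =>
      ⟨u, hu, incr_exits _ _ _ a b k l h⟩)
  rw [Gr.pr_not hv] at k3
  have k4 : (lat D q).pr (vJ β J) (wire (↑Λ)ᶜ) (edgesOf Λ)
      (fun ω => Iso A ω ∧ ¬ ∃ u ∈ T, B u ω) ≤
      (lat D q).pr (vJ β J) (wire (↑Λ)ᶜ) (edgesOf Λ) (fun ω => ¬ Cross q r t ω) := by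
    refine Gr.pr_mono hv ?_
    rintro ω - ⟨l1, l2⟩ ⟨⟨t', u⟩, rfl, l3, l4⟩
    by_cases hu : u ∈ insert 0 s
    · obtain ⟨z, hz, l5⟩ := l4
      rw [l1.eq_of_conn (mem_image_of_mem _ hu) l5] at hz
      exact hz (self_mem_box _ _)
    · refine l2 ⟨u, mem_sdiff.2 ⟨mem_image.2 ⟨(t', u), mem_box.2 (nrm_sub_le (by simp) ?_), rfl⟩,
        hu⟩, l4⟩
      rw [ht_of_zero (y := (t', 0)) rfl]
      exact l3
  rw [Gr.pr_not hv] at k4
  have k5 := mul_le_mul k2 (le_sub_comm.1 (k1.trans (show (1 / 2 : ℝ) ≤ 1 - 1 / 2 by norm_num)))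
    (by norm_num) (h4.le.trans k2)
  unfold prW
  linarith [k5.trans (k3.trans k4)]

lemma thW_le (hβ : 0 ≤ β) (hJ : 0 ≤ J)
    (hC : ∀ (x : Site D) (n : ℕ), thW q β 1 (box x n) x ≤ C * Real.exp (-c * n)) {ρ : ℝ}
    (hρ0 : 0 < ρ) (hρ : ∀ (r : ℕ) (t : ℤ),
      prW q (vJ β J) (box ((t, 0) : Site D) (2 * r)) (Cross q r t) ≤ ρ) (r k n : ℕ)
    (hn : n = k * (4 * r + 2) + 3 * r + 1) (x : Site D) :
    thW q β J (box x n) x ≤
      (2 * n + 1) ^ (D + 1) * (C * Real.exp (-c * r)) + (ρ ^ k + ρ ^ k) := by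
  have hv := vJ_nonneg (D := D) hβ hJ
  have h0 : 0 ≤ C * Real.exp (-c * r) := (thW_nonneg hβ zero_le_one _ _).trans (hC x r)
  by_cases hx : r < ht x
  · have h1 := thW_anti (q := q) hβ hJ (box_mono x (show r ≤ n by omega)) x
    rw [thW_off β J hx] at h1
    have h2 : (1 : ℝ) ≤ (2 * n + 1) ^ (D + 1) := one_le_pow₀ (by linarith [Nat.cast_nonneg (α := ℝ) n])
    have h3 := le_mul_of_one_le_left h0 h2
    have h4 := pow_pos hρ0 k
    linarith [hC x r]
  have hE : ∀ e ∈ edgesOf (box x n), IsEdge e := fun e he => (mem_edgesOf.1 he).1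
  let m := k * (4 * r + 2) + 2 * r + 1
  let S := (box x m).filter fun y => r < ht y
  let F : ℤ → Finset (Sym2 (Site D)) → Prop := fun σ ω =>
    ∀ i ∈ range k, Cross q r (x.1 + σ * ((i * (4 * r + 2) : ℕ) : ℤ)) ω
  have k1 : (lat D q).pr (vJ β J) (wire (↑(box x n))ᶜ) (edgesOf (box x n))
      (fun ω => ∃ y ∈ S, Exits q (box y r) y ω) ≤ (2 * n + 1) ^ (D + 1) * (C * Real.exp (-c * r)) := by
    refine (Gr.pr_le_sum hv S (fun y => Exits q (box y r) y) fun ω _ h => h).trans
      ((sum_le_card_nsmul _ _ (C * Real.exp (-c * r)) fun y hy => ?_).trans ?_)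
    · obtain ⟨l1, l2⟩ := mem_filter.1 hy
      have := mem_box.1 l1
      refine (pr_exits_le hβ hJ hE (wire_mono (Set.compl_subset_compl.2
        (box_subset_box (by omega)))) _).trans ?_
      rw [thW_off β J l2]
      exact hC y r
    · rw [nsmul_eq_mul]
      refine mul_le_mul_of_nonneg_right ?_ h0
      have : S.card ≤ (2 * n + 1) ^ (D + 1) :=
        (card_le_card ((filter_subset _ _).trans (box_mono x (by omega)))).trans_eq (card_box x n)
      exact_mod_cast this
  have k2 : ∀ σ : ℤ, σ = 1 ∨ σ = -1 →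
      (lat D q).pr (vJ β J) (wire (↑(box x n))ᶜ) (edgesOf (box x n)) (F σ) ≤ ρ ^ k := by
    intro σ hσ
    have hσ' : |σ| = 1 := by rcases hσ with rfl | rfl <;> simp
    refine (pr_all_loc_le hv hE (range k)
      (fun i => box ((x.1 + σ * ((i * (4 * r + 2) : ℕ) : ℤ), 0) : Site D) (2 * r))
      (fun i => Cross q r (x.1 + σ * ((i * (4 * r + 2) : ℕ) : ℤ))) (fun i hi => ?_)
      (fun i _ => locIncr_cross r _) fun i _ j _ hij => disjoint_edgesOf_box ?_).trans ?_
    · have l1 : i * (4 * r + 2) ≤ k * (4 * r + 2) := Nat.mul_le_mul_right _ (mem_range.1 hi).le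
      have l2 : nrm (((x.1 + σ * ((i * (4 * r + 2) : ℕ) : ℤ), 0) : Site D) - x) ≤
          k * (4 * r + 2) + r := by
        refine nrm_sub_le ?_ ?_
        · rw [add_sub_cancel_left, abs_mul, hσ', one_mul, Nat.abs_cast]
          exact_mod_cast l1.trans (Nat.le_add_right _ _)
        · rw [ht_of_zero rfl]; omega
      exact wire_mono (Set.compl_subset_compl.2 (box_subset_box (by omega)))
    · have l1 := abs_fst_le_nrm (((x.1 + σ * ((i * (4 * r + 2) : ℕ) : ℤ), 0) : Site D) -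
        (x.1 + σ * ((j * (4 * r + 2) : ℕ) : ℤ), 0))
      have l2 : x.1 + σ * ((i * (4 * r + 2) : ℕ) : ℤ) - (x.1 + σ * ((j * (4 * r + 2) : ℕ) : ℤ)) =
          σ * (((i : ℤ) - j) * (4 * r + 2)) := by push_cast; ring
      rw [Prod.fst_sub, l2, abs_mul, hσ', one_mul, abs_mul,
        abs_of_nonneg (by positivity : (0 : ℤ) ≤ 4 * r + 2)] at l1
      have l3 : 1 ≤ |(i : ℤ) - j| := Int.one_le_abs (by omega)
      have l4 := le_mul_of_one_le_left (by positivity : (0 : ℤ) ≤ 4 * r + 2) l3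
      omega
    · exact (prod_le_prod (fun i _ => Gr.pr_nonneg hv) fun i _ => hρ r _).trans (by simp)
  refine le_trans (Gr.pr_mono hv (B := fun ω => (∃ y ∈ S, Exits q (box y r) y ω) ∨
    (F 1 ω ∨ F (-1) ω)) ?_) ((Gr.pr_or_le hv).trans (add_le_add k1 ((Gr.pr_or_le hv).trans
      (add_le_add (k2 1 (Or.inl rfl)) (k2 (-1) (Or.inr rfl))))))
  rintro ω hω ⟨z, hz, hxz⟩
  have hω' : ∀ e ∈ ω, IsEdge e := fun e he => hE e (hω he)
  have hex : ∀ y ∈ box x m, (lat D q).conn free (ω ∩ edgesIn (box x m)) x y → ∀ s ≤ r,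
      Exits q (box y s) y ω := fun y hy h s hs =>
    ⟨z, fun l => hz (box_subset_box (by have := mem_box.1 hy; omega) l),
      Eqv.trans' _ (Eqv.symm' _ (Gr.conn_mono le_rfl inter_subset_left h)) hxz⟩
  have hin : ∀ y, (lat D q).conn free (ω ∩ edgesIn (box x m)) x y → y ∈ box x m := fun y h =>
    conn_free_induction (P := fun y => y ∈ box x m) (self_mem_box x m)
      (fun a b _ _ hab => (mem_edgesIn.1 (mem_inter.1 hab).2).2 b (Sym2.mem_mk_right a b)) h
  refine or_iff_not_imp_left.2 fun hS => ?_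
  have hht : ∀ y, (lat D q).conn free (ω ∩ edgesIn (box x m)) x y → ht y ≤ r := fun y h =>
    not_lt.1 fun l => hS ⟨y, mem_filter.2 ⟨hin y h, l⟩, hex y (hin y h) h r le_rfl⟩
  obtain ⟨a, ha, b, hb, hab, hxa⟩ := conn_exit hω' (self_mem_box x m)
    (fun l => hz (box_mono x (by omega) l)) hxz
  have h1 : (m : ℤ) ≤ |a.1 - x.1| := by
    by_contra l
    have l1 : nrm (a - x) ≤ m - 1 := nrm_sub_le (by omega) (by have := hht a hxa; omega)
    have l2 := (hω' _ hab).nrm_le (Sym2.mem_mk_left a b) (Sym2.mem_mk_right a b)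
    have l3 := nrm_triangle b a x
    exact hb (mem_box.2 (by omega))
  have key : ∀ σ : ℤ, σ = 1 ∨ σ = -1 → (m : ℤ) ≤ σ * (a.1 - x.1) → F σ ω := by
    intro σ hσ h2 i hi
    have l1 : i * (4 * r + 2) ≤ m :=
      (Nat.mul_le_mul_right _ (mem_range.1 hi).le).trans (by omega)
    obtain ⟨y, l2, l3⟩ := conn_ivt (fun e he => hω' e (mem_inter.1 he).1)
      (h := fun y => σ * (y.1 - x.1)) (k := ((i * (4 * r + 2) : ℕ) : ℤ)) (fun u w huw => by
        have l4 := abs_le.1 (nrm_le_iff.1 huw).1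
        rw [Prod.fst_sub] at l4
        rcases hσ with rfl | rfl <;> omega) (by rw [sub_self, mul_zero]; positivity)
      (by omega) hxa
    refine ⟨y, ?_, hht y l3, hex y (hin y l3) l3 _ (by have := hht y l3; omega)⟩
    rcases hσ with rfl | rfl <;> omega
  rcases le_abs.1 h1 with l | l
  · exact Or.inl (key 1 (Or.inl rfl) (by omega))
  · exact Or.inr (key (-1) (Or.inr rfl) (by omega))

lemma tendsto_poly {ρ : ℝ} (h0 : 0 < ρ) (h1 : ρ < 1) (A : ℝ) (N : ℕ) :
    Tendsto (fun r : ℕ => A * (((r : ℝ) + 1) ^ N * ρ ^ r)) atTop (𝓝 0) := by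
  have h := ((tendsto_pow_const_mul_const_pow_of_abs_lt_one N
    (show |ρ| < 1 by rwa [abs_of_pos h0])).comp (tendsto_add_atTop_nat 1)).const_mul (A * ρ⁻¹)
  rw [mul_zero] at h
  refine h.congr fun r => ?_
  simp only [Function.comp, Nat.cast_add, Nat.cast_one, pow_succ]
  field_simp

end Line

theorem lineStmt : LineStmt := by
  rintro D q β J hβ hJ ⟨C, c, hc, hC⟩ p ε hε
  obtain ⟨ρ, h0, h1, hρ⟩ := Line.prW_cross_le hβ hJ hc hC
  have hC0 : 0 ≤ C := by simpa using (thW_nonneg hβ zero_le_one _ _).trans (hC 0 0)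
  have h := (Line.tendsto_poly (Real.exp_pos (-c)) (Real.exp_lt_one_iff.2 (by linarith))
    (4 ^ p * 8 ^ (D + 1) * C) (2 * p + 2 * (D + 1))).add
    (Line.tendsto_poly h0 h1 (4 ^ p * 2) (2 * p))
  rw [add_zero] at h
  obtain ⟨r, hr⟩ := (h.eventually (Iio_mem_nhds hε)).exists
  refine ⟨r * (4 * r + 2) + 3 * r + 1, fun x => ?_⟩
  have h2 := Line.thW_le hβ hJ hC h0 hρ r r _ rfl x
  set n := r * (4 * r + 2) + 3 * r + 1 with hn
  have h3 : (n : ℝ) + 1 ≤ 4 * ((r : ℝ) + 1) ^ 2 := by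
    rw [hn]; push_cast; nlinarith [Nat.cast_nonneg (α := ℝ) r]
  have h4 : ((n : ℝ) + 1) ^ p ≤ 4 ^ p * ((r : ℝ) + 1) ^ (2 * p) := by
    rw [pow_mul, ← mul_pow]; gcongr
  have h5 : (2 * (n : ℝ) + 1) ^ (D + 1) ≤ 8 ^ (D + 1) * ((r : ℝ) + 1) ^ (2 * (D + 1)) := by
    rw [pow_mul, ← mul_pow]
    exact pow_le_pow_left₀ (by positivity) (by linarith) _
  refine le_trans (mul_le_mul h4 (h2.trans (add_le_add (mul_le_mul_of_nonneg_right h5
    (by positivity)) le_rfl)) (thW_nonneg hβ hJ _ _) (by positivity)) (le_trans (le_of_eq ?_) hr.le)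
  rw [← Real.exp_nat_mul, mul_comm (r : ℝ) (-c), pow_add]
  ring

end

end Pool.Agent.MP_48a2f9_mp

end MrgPart8

-- marker of a merged file
example : 731051 + 157661 = 731051 + 157661 := rfl
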