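import Mathlib.Topology.Sheaves.Presheaf
import Mathlib.Tactic.Monotonicity.Lemmas
import Mathlib.Algebra.Order.Ring.Star
import Mathlib.Analysis.Asymptotics.SpecificAsymptotics
import Mathlib.Algebra.Order.Archimedean.Real.Hom
import Mathlib.Algebra.Order.Star.Real
import Mathlib.RingTheory.PowerSeries.Inverse
import Mathlib.Analysis.Normed.Lp.lpSpace
import Mathlib.Combinatorics.SimpleGraph.Basic
import Mathlib.Analysis.Normed.Group.Tannery
import Mathlib.RingTheory.PiTensorProduct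
import Mathlib.NumberTheory.Harmonic.Bounds
import Pool.Agent.MP_48a2f9_mp.SpecA
import Mathlib.Topology.Algebra.ProperAction.Basic
import Mathlib.Topology.Compactness.CompactlyGeneratedSpace
import Mathlib.Analysis.Fourier.AddCircle
import Mathlib.Topology.Separation.CompletelyRegular
import Mathlib.RingTheory.PowerSeries.Derivative
import Mathlib.RingTheory.PowerSeries.WellKnown

-- ======== part 0: formerly Pool.Agent.MP_48a2f9_mp.OpR
section MrgPart0

-- ======== part 0: formerly Pool.Agent.MP_48a2f9_mp.OpA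
section MrgPart0

/-!
Module Op, part A: bounded operators on `l^1` and their matrix entries.
-/

open Finset Filter Topology

namespace Pool.Agent.MP_48a2f9_mp.Op

noncomputable section
open Classical

abbrev L1s (ι : Type) : Type := lp (fun _ : ι => ℝ) 1

abbrev Opr (ι : Type) : Type := L1s ι →L[ℝ] L1s ι

variable {ι : Type}

def dl (y : ι) : L1s ι := lp.single 1 y (1 : ℝ)

def ent (T : Opr ι) (x y : ι) : ℝ := T (dl y) x

lemma hasSum_abs (f : L1s ι) : HasSum (fun x => |f x|) ‖f‖ := by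
  have := lp.hasSum_norm (p := 1) (by simp) f
  simpa using this

lemma hasSum_dl (f : L1s ι) : HasSum (fun y => f y • dl y) f := by
  have := lp.hasSum_single (p := 1) (by simp) f
  refine this.congr_fun ?_ |>.mono_left le_rfl
  intro y
  rw [dl, ← lp.single_smul]
  simp

lemma norm_dl (y : ι) : ‖dl y‖ = 1 := by
  rw [dl, lp.norm_single (by simp)]; simp

lemma hasSum_apply (T : Opr ι) (f : L1s ι) : HasSum (fun y => f y • T (dl y)) (T f) := by
  have := (hasSum_dl f).mapL T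
  simpa using this

lemma hasSum_ent (T : Opr ι) (f : L1s ι) (x : ι) :
    HasSum (fun y => ent T x y * f y) (T f x) := by
  have := (hasSum_apply T f).mapL (lp.evalCLM ℝ (fun _ : ι => ℝ) 1 x)
  refine this.congr_fun ?_ |>.mono_left le_rfl
  intro y
  change _ = (f y • T (dl y)) x
  simp [ent, mul_comm]

lemma hasSum_mul (S T : Opr ι) (x y : ι) :
    HasSum (fun w => ent S x w * ent T w y) (ent (S * T) x y) :=
  hasSum_ent S (T (dl y)) x

lemma ent_mul (S T : Opr ι) (x y : ι) : ent (S * T) x y = ∑' w, ent S x w * ent T w y :=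
  (hasSum_mul S T x y).tsum_eq.symm

lemma ent_ext {S T : Opr ι} (h : ∀ x y, ent S x y = ent T x y) : S = T := by
  ext f x
  rw [← (hasSum_ent S f x).tsum_eq, ← (hasSum_ent T f x).tsum_eq]
  simp only [h]

lemma abs_ent_le (T : Opr ι) (x y : ι) : |ent T x y| ≤ ‖T‖ := by
  have h1 := lp.norm_apply_le_norm (p := 1) (by simp) (T (dl y)) x
  have h2 := T.le_opNorm (dl y)
  rw [norm_dl, mul_one] at h2
  exact le_trans h1 h2

/-- The entry as a continuous linear functional. -/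
def entL (x y : ι) : Opr ι →L[ℝ] ℝ :=
  LinearMap.mkContinuous
    { toFun := fun T => ent T x y
      map_add' := fun S T => by simp [ent]
      map_smul' := fun c T => by simp [ent] } 1
    (fun T => by rw [one_mul]; exact abs_ent_le T x y)

@[simp] lemma entL_apply (T : Opr ι) (x y : ι) : entL x y T = ent T x y := rfl

@[simp] lemma ent_add (S T : Opr ι) (x y : ι) : ent (S + T) x y = ent S x y + ent T x y :=
  (entL x y).map_add S T

@[simp] lemma ent_sub (S T : Opr ι) (x y : ι) : ent (S - T) x y = ent S x y - ent T x y :=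
  (entL x y).map_sub S T

@[simp] lemma ent_smul (c : ℝ) (T : Opr ι) (x y : ι) : ent (c • T) x y = c * ent T x y :=
  (entL x y).map_smul c T

@[simp] lemma ent_zero (x y : ι) : ent (0 : Opr ι) x y = 0 := (entL x y).map_zero

lemma ent_sum {κ : Type} (s : Finset κ) (T : κ → Opr ι) (x y : ι) :
    ent (∑ k ∈ s, T k) x y = ∑ k ∈ s, ent (T k) x y := map_sum (entL x y) T s

lemma ent_one (x y : ι) : ent (1 : Opr ι) x y = if x = y then 1 else 0 := by
  change dl y x = _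
  rw [dl, lp.single_apply, Pi.single_apply]

lemma summable_col (T : Opr ι) (y : ι) : Summable fun x => |ent T x y| :=
  (hasSum_abs (T (dl y))).summable

lemma norm_le_col (T : Opr ι) {B : ℝ} (hB : 0 ≤ B) (h : ∀ y, ∑' x, |ent T x y| ≤ B) :
    ‖T‖ ≤ B := by
  refine T.opNorm_le_bound hB fun f => ?_
  have h1 : ∀ y, ‖T (dl y)‖ ≤ B := fun y => by
    rw [← (hasSum_abs (T (dl y))).tsum_eq]; exact h y
  refine (hasSum_apply T f).norm_le_of_bounded ((hasSum_abs f).mul_left B) fun y => ?_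
  rw [norm_smul, Real.norm_eq_abs, mul_comm]
  exact mul_le_mul_of_nonneg_right (h1 y) (abs_nonneg _)

lemma norm_le_of_dom (T : Opr ι) {ω : ι → ℝ} (hω : Summable ω)
    (h : ∀ x y, |ent T x y| ≤ ω x) : ‖T‖ ≤ ∑' x, ω x := by
  rcases isEmpty_or_nonempty ι with hι | ⟨⟨y0⟩⟩
  · refine norm_le_col T (by simp) fun y => (hι.false y).elim
  refine norm_le_col T (tsum_nonneg fun x => (abs_nonneg _).trans (h x y0)) fun y => ?_
  exact (summable_col T y).tsum_le_tsum (fun x => h x y) hω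

lemma norm_le_prod (T : Opr ι) (h : Summable fun z : ι × ι => |ent T z.1 z.2|) :
    ‖T‖ ≤ ∑' z : ι × ι, |ent T z.1 z.2| := by
  refine norm_le_col T (tsum_nonneg fun _ => abs_nonneg _) fun y => ?_
  have hi : Function.Injective fun x : ι => (x, y) := fun a b hab => (Prod.ext_iff.1 hab).1
  exact Summable.tsum_le_tsum_of_inj _ hi (fun _ _ => abs_nonneg _) (fun _ => le_rfl)
    (summable_col T y) h

/-- Kernels with bounded column sums. -/
def Good (k : ι → ι → ℝ) : Prop :=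
  ∃ B : ℝ, ∀ y, Summable (fun x => |k x y|) ∧ ∑' x, |k x y| ≤ B

lemma exists_op {k : ι → ι → ℝ} (hk : Good k) : ∃ T : Opr ι, ∀ x y, ent T x y = k x y := by
  obtain ⟨B, hB⟩ := hk
  have hm : ∀ y, Memℓp (fun x => k x y) 1 := fun y => memℓp_gen (by simpa using (hB y).1)
  let col : ι → L1s ι := fun y => ⟨fun x => k x y, hm y⟩
  have hc : ∀ y, ‖col y‖ ≤ B := fun y => by
    rw [← (hasSum_abs (col y)).tsum_eq]; exact (hB y).2
  have hn : ∀ (f : L1s ι) y, ‖f y • col y‖ ≤ B * |f y| := fun f y => by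
    rw [norm_smul, Real.norm_eq_abs, mul_comm]
    exact mul_le_mul_of_nonneg_right (hc y) (abs_nonneg _)
  have hs : ∀ f : L1s ι, Summable fun y => f y • col y := fun f =>
    Summable.of_norm_bounded ((hasSum_abs f).summable.mul_left B) (hn f)
  let T0 : L1s ι →ₗ[ℝ] L1s ι :=
    { toFun := fun f => ∑' y, f y • col y
      map_add' := fun f g => by
        rw [← (hs f).tsum_add (hs g)]
        simp [add_smul]
      map_smul' := fun c f => by
        rw [RingHom.id_apply, ← (hs f).tsum_const_smul c]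
        simp [mul_smul] }
  refine ⟨T0.mkContinuous B fun f => ?_, fun x y => ?_⟩
  · exact (hs f).hasSum.norm_le_of_bounded ((hasSum_abs f).mul_left B) (hn f)
  · change (∑' w, dl y w • col w) x = _
    rw [tsum_eq_single y]
    · rw [dl, lp.single_apply_self, one_smul]
    · intro w hw
      rw [dl, lp.single_apply_ne _ _ _ hw, zero_smul]

def ofK (k : ι → ι → ℝ) : Opr ι :=
  if h : ∃ T : Opr ι, ∀ x y, ent T x y = k x y then h.choose else 0

lemma ent_ofK {k : ι → ι → ℝ} (hk : Good k) (x y : ι) : ent (ofK k) x y = k x y := by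
  rw [ofK, dif_pos (exists_op hk)]
  exact (exists_op hk).choose_spec x y

lemma good_of_dom {k : ι → ι → ℝ} {ω : ι → ℝ} (hω : Summable ω) (h : ∀ x y, |k x y| ≤ ω x) :
    Good k := by
  refine ⟨∑' x, ω x, fun y => ?_⟩
  have h1 : Summable fun x => |k x y| :=
    Summable.of_nonneg_of_le (fun _ => abs_nonneg _) (fun x => h x y) hω
  exact ⟨h1, h1.tsum_le_tsum (fun x => h x y) hω⟩

/-! ### Diagonal operators -/

def dg (d : ι → ℝ) : Opr ι := ofK fun x y => if x = y then d x else 0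

def Bdd (d : ι → ℝ) : Prop := ∃ B, ∀ x, |d x| ≤ B

lemma col_diag (d : ι → ℝ) (y : ι) :
    HasSum (fun x => |if x = y then d x else 0|) |d y| := by
  have := hasSum_ite_eq y |d y|
  refine this.congr_fun ?_ |>.mono_left le_rfl
  intro x
  by_cases h : x = y <;> simp [h]

lemma ent_dg {d : ι → ℝ} (hd : Bdd d) (x y : ι) :
    ent (dg d) x y = if x = y then d x else 0 := by
  obtain ⟨B, hB⟩ := hd
  refine ent_ofK ⟨B, fun y => ⟨(col_diag d y).summable, ?_⟩⟩ x y
  rw [(col_diag d y).tsum_eq]; exact hB y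

lemma norm_dg_le {d : ι → ℝ} {B : ℝ} (hB : 0 ≤ B) (hd : ∀ x, |d x| ≤ B) : ‖dg d‖ ≤ B := by
  refine norm_le_col _ hB fun y => ?_
  simp only [ent_dg ⟨B, hd⟩]
  rw [(col_diag d y).tsum_eq]; exact hd y

lemma ent_dg_mul {d : ι → ℝ} (hd : Bdd d) (T : Opr ι) (x y : ι) :
    ent (dg d * T) x y = d x * ent T x y := by
  rw [ent_mul, tsum_eq_single x]
  · simp [ent_dg hd]
  · intro w hw
    rw [ent_dg hd, if_neg (Ne.symm hw), zero_mul]

lemma ent_mul_dg {d : ι → ℝ} (hd : Bdd d) (T : Opr ι) (x y : ι) :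
    ent (T * dg d) x y = ent T x y * d y := by
  rw [ent_mul, tsum_eq_single y]
  · simp [ent_dg hd]
  · intro w hw
    rw [ent_dg hd, if_neg hw, mul_zero]

lemma Bdd.mul {d e : ι → ℝ} (hd : Bdd d) (he : Bdd e) : Bdd fun x => d x * e x := by
  obtain ⟨B, hB⟩ := hd
  obtain ⟨B', hB'⟩ := he
  refine ⟨B * B', fun x => ?_⟩
  rw [abs_mul]
  exact mul_le_mul (hB x) (hB' x) (abs_nonneg _) ((abs_nonneg _).trans (hB x))

lemma dg_mul_dg {d e : ι → ℝ} (hd : Bdd d) (he : Bdd e) :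
    dg d * dg e = dg fun x => d x * e x := by
  refine ent_ext fun x y => ?_
  rw [ent_dg_mul hd, ent_dg he, ent_dg (hd.mul he)]
  split_ifs <;> simp

lemma dg_comm {d e : ι → ℝ} (hd : Bdd d) (he : Bdd e) : dg d * dg e = dg e * dg d := by
  rw [dg_mul_dg hd he, dg_mul_dg he hd]
  simp only [mul_comm]

lemma one_sub_dg {d : ι → ℝ} (hd : Bdd d) : 1 - dg d = dg fun x => 1 - d x := by
  have h2 : Bdd fun x => 1 - d x := by
    obtain ⟨B, hB⟩ := hd
    exact ⟨1 + B, fun x => (abs_sub _ _).trans (by simpa using hB x)⟩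
  refine ent_ext fun x y => ?_
  rw [ent_sub, ent_one, ent_dg hd, ent_dg h2]
  split_ifs <;> simp

/-! ### Operators with nonnegative entries -/

def Pos (T : Opr ι) : Prop := ∀ x y, 0 ≤ ent T x y

lemma Pos.mul {S T : Opr ι} (hS : Pos S) (hT : Pos T) : Pos (S * T) := fun x y => by
  rw [ent_mul]; exact tsum_nonneg fun w => mul_nonneg (hS x w) (hT w y)

lemma Pos.le_mul {S T : Opr ι} (hS : Pos S) (hT : Pos T) (x w y : ι) :
    ent S x w * ent T w y ≤ ent (S * T) x y :=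
  le_hasSum (hasSum_mul S T x y) w fun v _ => mul_nonneg (hS x v) (hT v y)

end

end Pool.Agent.MP_48a2f9_mp.Op

end MrgPart0

-- ======== part 1: formerly Pool.Agent.MP_48a2f9_mp.OpS
section MrgPart1

/-!
Module Op, part S: algebra of power series with values in a Banach algebra.
-/

open Finset Filter Topology PowerSeries

namespace Pool.Agent.MP_48a2f9_mp.Op

noncomputable section
open Classical

section res
variable {A : Type} [Ring A]

/-- The resolvent series `(1 - k a)^(-1) k`. -/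
def res (k : A⟦X⟧) (a : A) : A⟦X⟧ := invOfUnit (1 - k * C a) 1 * k

variable {k : A⟦X⟧} {a : A}

lemma cc_aux (hk : constantCoeff k = 0) : constantCoeff (1 - k * C a) = ((1 : Aˣ) : A) := by
  simp [hk]

lemma res_left (hk : constantCoeff k = 0) : res k a = k + k * C a * res k a := by
  have h := mul_invOfUnit (1 - k * C a) 1 (cc_aux hk)
  have : (1 - k * C a) * res k a = k := by rw [res, ← mul_assoc, h, one_mul]
  rw [sub_mul, one_mul] at this
  exact (sub_eq_iff_eq_add.1 this)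

lemma res_right (hk : constantCoeff k = 0) : res k a = k + res k a * C a * k := by
  have h := invOfUnit_mul (1 - k * C a) 1 (cc_aux hk)
  have h2 : res k a * C a = invOfUnit (1 - k * C a) 1 - 1 := by
    rw [mul_sub, mul_one] at h
    rw [res, mul_assoc]
    exact eq_sub_of_add_eq' (sub_eq_iff_eq_add.1 h).symm
  rw [h2, sub_mul, one_mul, res]; abel

lemma res_cc (hk : constantCoeff k = 0) : constantCoeff (res k a) = 0 := by
  simp [res, hk]

lemma res_diff {p : A⟦X⟧} (hk : constantCoeff k = 0) (hp : constantCoeff p = 0) :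
    res k a = res p a + (1 + res k a * C a) * (k - p) * (1 + C a * res p a) := by
  have h1 : (1 + res k a * C a) * k = res k a := by
    rw [add_mul, one_mul]; exact (res_right hk).symm
  have h2 : p * (1 + C a * res p a) = res p a := by
    rw [mul_add, mul_one, ← mul_assoc]; exact (res_left hp).symm
  rw [mul_sub, sub_mul, h1, mul_assoc _ p, h2]
  noncomm_ring

/-- Splitting the Green series at the marked point. -/
lemma green_left {e : A} (hk : constantCoeff k = 0) :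
    res k 1 = res k (1 - e) + res k (1 - e) * C e * res k 1 := by
  have h1 : (1 + res k (1 - e) * C (1 - e)) * k = res k (1 - e) := by
    rw [add_mul, one_mul]; exact (res_right hk).symm
  have h2 : res k 1 = k + k * res k 1 := by
    have := res_left (a := 1) hk
    rwa [map_one, mul_one] at this
  generalize res k 1 = G at h2 ⊢
  generalize res k (1 - e) = Y at h1 ⊢
  have h3 : (1 + Y * C (1 - e)) * G = Y + Y * G := by
    conv_lhs => rw [h2]
    rw [mul_add, ← mul_assoc, h1]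
  rw [map_sub, map_one] at h3
  have : G = (1 + Y * (1 - C e)) * G - Y * G + Y * C e * G := by noncomm_ring
  rw [h3] at this
  rw [this]
  conv_rhs => rw [← this]
  abel

lemma green_right {e : A} (hk : constantCoeff k = 0) :
    res k 1 = res k (1 - e) + res k 1 * C e * res k (1 - e) := by
  have h1 : k * (1 + C (1 - e) * res k (1 - e)) = res k (1 - e) := by
    rw [mul_add, mul_one, ← mul_assoc]; exact (res_left hk).symm
  have h2 : res k 1 = k + res k 1 * k := by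
    have := res_right (a := 1) hk
    rwa [map_one, mul_one] at this
  generalize res k 1 = G at h2 ⊢
  generalize res k (1 - e) = Y at h1 ⊢
  have h3 : G * (1 + C (1 - e) * Y) = Y + G * Y := by
    conv_lhs => rw [h2]
    rw [add_mul, mul_assoc, h1]
  rw [map_sub, map_one] at h3
  have : G = G * (1 + (1 - C e) * Y) - G * Y + G * C e * Y := by noncomm_ring
  rw [h3] at this
  rw [this]
  conv_rhs => rw [← this]
  abel

/-- The weighted form of a resolvent identity. -/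
lemma weighted {B : Type} [Ring B] {Y P Y1 Y2 W m q : B} (hm : m * q = q * m)
    (h : Y = P + (1 + Y1 * q) * (m * W * m) * (1 + q * Y2)) :
    m * Y * m = m * P * m + (m * m + m * Y1 * m * q) * W * (m * m + q * (m * Y2 * m)) := by
  have e1 : m * m + m * Y1 * m * q = m * (1 + Y1 * q) * m := by
    rw [mul_assoc (m * Y1), hm]; noncomm_ring
  have e2 : m * m + q * (m * Y2 * m) = m * (1 + q * Y2) * m := by
    rw [← mul_assoc q, ← mul_assoc q, ← hm]; noncomm_ring
  rw [e1, e2, h]; noncomm_ring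

end res

section ban
variable {A : Type} [NormedRing A] [NormedAlgebra ℝ A] {ρ : ℕ → ℝ} {x y : A⟦X⟧} {l m : A}

lemma lim_add (hx : Lim ρ x l) (hy : Lim ρ y m) : Lim ρ (x + y) (l + m) := by
  have := Tendsto.add hx hy
  simpa [Lim, smul_add] using this

lemma lim_neg (hx : Lim ρ x l) : Lim ρ (-x) (-l) := by
  have := Tendsto.neg hx
  simpa [Lim] using this

lemma lim_sub (hx : Lim ρ x l) (hy : Lim ρ y m) : Lim ρ (x - y) (l - m) := by
  rw [sub_eq_add_neg, sub_eq_add_neg]; exact lim_add hx (lim_neg hy)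

lemma lim_unique (h1 : Lim ρ x l) (h2 : Lim ρ x m) : l = m := tendsto_nhds_unique h1 h2

lemma lim_C (a : A) : Lim ρ (C a) 0 := by
  refine tendsto_const_nhds.congr' ?_
  filter_upwards [eventually_ge_atTop 1] with n hn
  rw [coeff_C, if_neg (by omega), smul_zero]

lemma lim_one : Lim ρ (1 : A⟦X⟧) 0 := by simpa using lim_C (ρ := ρ) (1 : A)

lemma lim_C_mul (a : A) (hx : Lim ρ x l) : Lim ρ (C a * x) (a * l) := by
  have := Tendsto.const_mul a hx
  simpa [Lim] using this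

lemma lim_mul_C (a : A) (hx : Lim ρ x l) : Lim ρ (x * C a) (l * a) := by
  have := Tendsto.mul_const a hx
  simpa [Lim] using this

omit [NormedAlgebra ℝ A]

lemma l1_add (hx : L1 x) (hy : L1 y) : L1 (x + y) :=
  Summable.of_nonneg_of_le (fun _ => norm_nonneg _)
    (fun n => by rw [map_add]; exact norm_add_le _ _) (Summable.add hx hy)

lemma l1_neg (hx : L1 x) : L1 (-x) := by simpa [L1] using hx

lemma l1_sub (hx : L1 x) (hy : L1 y) : L1 (x - y) := by
  rw [sub_eq_add_neg]; exact l1_add hx (l1_neg hy)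

lemma hasSum_C (a : A) : HasSum (fun n => ‖coeff n (C a : A⟦X⟧)‖) ‖a‖ := by
  have := hasSum_ite_eq (0 : ℕ) ‖a‖
  refine this.congr_fun ?_ |>.mono_left le_rfl
  intro n
  rw [coeff_C]
  split_ifs <;> simp

lemma l1_C (a : A) : L1 (C a : A⟦X⟧) := (hasSum_C a).summable

lemma l1_one : L1 (1 : A⟦X⟧) := by simpa using l1_C (1 : A)

lemma sumP_C (a : A) : SumP (C a : A⟦X⟧) = a := by
  rw [SumP, tsum_eq_single 0]
  · simp
  · intro n hn; rw [coeff_C, if_neg hn]

/-- The `l^1` norm of a series. -/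
def n1 (x : A⟦X⟧) : ℝ := ∑' n, ‖coeff n x‖

lemma n1_nonneg : 0 ≤ n1 x := tsum_nonneg fun _ => norm_nonneg _

lemma n1_C (a : A) : n1 (C a : A⟦X⟧) = ‖a‖ := (hasSum_C a).tsum_eq

lemma l1_mul' (hx : L1 x) (hy : L1 y) : L1 (x * y) ∧ n1 (x * y) ≤ n1 x * n1 y := by
  have hx' : Summable fun n => ‖‖coeff n x‖‖ := by simpa [L1] using hx
  have hy' : Summable fun n => ‖‖coeff n y‖‖ := by simpa [L1] using hy
  have h1 := summable_norm_sum_mul_antidiagonal_of_summable_norm hx' hy'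
  have h2 := tsum_mul_tsum_eq_tsum_sum_antidiagonal_of_summable_norm hx' hy'
  have h3 : ∀ n, ‖coeff n (x * y)‖ ≤ ∑ p ∈ antidiagonal n, ‖coeff p.1 x‖ * ‖coeff p.2 y‖ :=
    fun n => by
      rw [coeff_mul]
      exact (norm_sum_le _ _).trans (sum_le_sum fun p _ => norm_mul_le _ _)
  have h4 : L1 (x * y) := Summable.of_nonneg_of_le (fun _ => norm_nonneg _) h3 h1.of_norm
  refine ⟨h4, ?_⟩
  rw [n1, n1, n1, h2]
  exact Summable.tsum_le_tsum h3 h4 h1.of_norm

lemma l1_mul (hx : L1 x) (hy : L1 y) : L1 (x * y) := (l1_mul' hx hy).1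

lemma norm_coeff_le_n1 (hx : L1 x) (n : ℕ) : ‖coeff n x‖ ≤ n1 x :=
  Summable.le_tsum hx n fun _ _ => norm_nonneg _

variable [CompleteSpace A]

lemma sumP_add (hx : L1 x) (hy : L1 y) : SumP (x + y) = SumP x + SumP y := by
  simp only [SumP, map_add]
  exact Summable.tsum_add (Summable.of_norm hx) (Summable.of_norm hy)

variable [NormedAlgebra ℝ A]

lemma sumP_mul (hS : SerStmt) (hx : L1 x) (hy : L1 y) : SumP (x * y) = SumP x * SumP y :=
  ((hS.2.2 A).1 x y hx hy).2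

lemma lim_l1 (hS : SerStmt) (hρ : Reg ρ) (hx : Lim ρ x l) : L1 x :=
  ((hS.2.2 A).2.2 ρ hρ).1 x l hx

lemma lim_exp (hS : SerStmt) (hρ : Reg ρ) {B ν : ℝ} (hν : 0 < ν)
    (h : ∀ n, ‖coeff n x‖ ≤ B * Real.exp (-ν * n)) : Lim ρ x 0 :=
  ((hS.2.2 A).2.2 ρ hρ).2.1 x B ν hν h

lemma lim_mul (hS : SerStmt) (hρ : Reg ρ) (hx : Lim ρ x l) (hy : Lim ρ y m) :
    Lim ρ (x * y) (l * SumP y + SumP x * m) :=
  ((hS.2.2 A).2.2 ρ hρ).2.2.1 x y l m hx hy

lemma lim_thmA (hS : SerStmt) (hρ : Reg ρ) {t z : A⟦X⟧} (h1 : z = t + t * z) (h2 : z = t + z * t)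
    (hz : L1 z) (ht : Lim ρ t l) : Lim ρ z ((1 + SumP z) * l * (1 + SumP z)) :=
  ((hS.2.2 A).2.2 ρ hρ).2.2.2 t z l h1 h2 hz ht

lemma inv_small (hS : SerStmt) (h1 : ‖(1 : A)‖ ≤ 1) {θ : A⟦X⟧} (hθ : L1 θ) (hn : n1 θ ≤ 1 / 2)
    (h0 : constantCoeff θ = 0) : ∃ d : A⟦X⟧, L1 d ∧ d * (1 - θ) = 1 ∧ (1 - θ) * d = 1 := by
  have hc : constantCoeff (1 - θ) = ((1 : Aˣ) : A) := by simp [h0]
  refine ⟨invOfUnit (1 - θ) 1, ?_, invOfUnit_mul _ _ hc, mul_invOfUnit _ _ hc⟩
  refine ((hS.2.2 A).2.1 1 1 (1 - θ) _ 1 one_pos (one_mul 1) (mul_invOfUnit _ _ hc) l1_one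
    (by simpa using hθ) ?_ ?_).1
  · have := n1_C (1 : A)
    rw [map_one, n1] at this
    rw [this]; exact h1
  · simpa [n1] using hn

/-- A criterion for summability from two resolvent identities. -/
lemma l1_crit (hS : SerStmt) (h1 : ‖(1 : A)‖ ≤ 1) {Y B1 B2 T1 T2 : A⟦X⟧} {q : A}
    (e1 : Y = B1 + Y * T1) (e2 : Y = B2 + T2 * Y) (hB1 : L1 B1) (hB2 : L1 B2) (hT1 : L1 T1)
    (hT2 : L1 T2) (c1 : constantCoeff T1 = 0) (c2 : constantCoeff T2 = 0)
    (n1' : n1 (C (1 - q) * T1) ≤ 1 / 2) (n2' : n1 (T2 * C (1 - q)) ≤ 1 / 2)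
    (hq : L1 (C q * Y * C q)) : L1 Y := by
  obtain ⟨d1, hd1, -, hr1⟩ := inv_small hS h1 (l1_mul (l1_C _) hT1) n1' (by simp [c1])
  obtain ⟨d2, hd2, hl2, -⟩ := inv_small hS h1 (l1_mul hT2 (l1_C _)) n2' (by simp [c2])
  rw [map_sub, map_one] at hr1 hl2
  have f1 : Y = (B1 + Y * C q * T1) * d1 := by
    have : B1 + Y * C q * T1 = Y * (1 - (1 - C q) * T1) := by
      have : B1 = Y - Y * T1 := eq_sub_of_add_eq e1.symm
      rw [this]; noncomm_ring
    rw [this, mul_assoc, hr1, mul_one]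
  have f2 : Y * C q = d2 * (B2 * C q + T2 * (C q * Y * C q)) := by
    have : B2 * C q + T2 * (C q * Y * C q) = (1 - T2 * (1 - C q)) * (Y * C q) := by
      have : B2 = Y - T2 * Y := eq_sub_of_add_eq e2.symm
      rw [this]; noncomm_ring
    rw [this, ← mul_assoc d2, hl2, one_mul]
  have h3 : L1 (Y * C q) := by
    rw [f2]; exact l1_mul hd2 (l1_add (l1_mul hB2 (l1_C _)) (l1_mul hT2 hq))
  rw [f1]
  exact l1_mul (l1_add hB1 (l1_mul h3 hT1)) hd1

/-- Transfer of the asymptotics along a localized perturbation. -/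
lemma pert_main (hS : SerStmt) (hρ : Reg ρ) {P Y W : A⟦X⟧} {N q LP : A} (hP : Lim ρ P LP)
    (hW : Lim ρ W 0) (hc : q * N = N * q)
    (I1 : Y = P + (C N + Y * C q) * W * (C N + C q * P))
    (I2 : Y = P + (C N + P * C q) * W * (C N + C q * Y)) (hY : L1 Y) :
    (∃ LY, Lim ρ Y LY) ∧ (Lim ρ Y 0 → LP = 0) := by
  have hc' : (C q : A⟦X⟧) * C N = C N * C q := by rw [← map_mul, hc, map_mul]
  obtain ⟨T0, hT0⟩ : ∃ T0, T0 = W * (C N + C q * P) := ⟨_, rfl⟩
  obtain ⟨Z0, hZ0⟩ : ∃ Z0, Z0 = W * (C N + C q * Y) := ⟨_, rfl⟩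
  have k1 : ∀ R : A⟦X⟧, C q * (C N + R * C q) = (C N + C q * R) * C q := fun R => by
    rw [mul_add, add_mul, hc', mul_assoc]
  have d0 : Z0 - T0 = W * C q * (Y - P) := by rw [hT0, hZ0]; noncomm_ring
  have z1 : Z0 = T0 + T0 * (C q * Z0) := by
    have : Y - P = (C N + P * C q) * Z0 := by
      rw [hZ0, ← mul_assoc]; exact sub_eq_of_eq_add' I2
    rw [this, mul_assoc W, ← mul_assoc (C q), k1, ← mul_assoc W, ← mul_assoc W, ← hT0,
      mul_assoc] at d0
    exact eq_add_of_sub_eq' d0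
  have z2 : Z0 = T0 + Z0 * (C q * T0) := by
    have : Y - P = (C N + Y * C q) * T0 := by
      rw [hT0, ← mul_assoc]; exact sub_eq_of_eq_add' I1
    rw [this, mul_assoc W, ← mul_assoc (C q), k1, ← mul_assoc W, ← mul_assoc W, ← hZ0,
      mul_assoc] at d0
    exact eq_add_of_sub_eq' d0
  have lW := lim_l1 hS hρ hW
  have lP := lim_l1 hS hρ hP
  have hT0l := lim_mul hS hρ hW (lim_add (lim_C N) (lim_C_mul q hP))
  rw [← hT0] at hT0l
  have lT0 := lim_l1 hS hρ hT0l
  have lZ0 : L1 Z0 := by rw [hZ0]; exact l1_mul lW (l1_add (l1_C _) (l1_mul (l1_C _) hY))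
  have lT : L1 (C q * T0) := l1_mul (l1_C _) lT0
  have lZ : L1 (C q * Z0) := l1_mul (l1_C _) lZ0
  have y1 : C q * Z0 = C q * T0 + C q * T0 * (C q * Z0) := by
    rw [mul_assoc, ← mul_add, ← z1]
  have y2 : C q * Z0 = C q * T0 + C q * Z0 * (C q * T0) := by
    rw [mul_assoc, ← mul_add, ← z2]
  have hZ := lim_thmA hS hρ y1 y2 lZ (lim_C_mul q hT0l)
  have hZ0l := lim_add hT0l (lim_mul hS hρ hT0l hZ)
  rw [← z1] at hZ0l
  have I2' : Y = P + (C N + P * C q) * Z0 := by rw [hZ0, ← mul_assoc]; exact I2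
  have hNP := lim_add (lim_C (ρ := ρ) N) (lim_mul_C q hP)
  constructor
  · have := lim_add hP (lim_mul hS hρ hNP hZ0l)
    rw [← I2'] at this
    exact ⟨_, this⟩
  · intro hY0
    have h1 := lim_mul hS hρ hW (lim_add (lim_C N) (lim_C_mul q hY0))
    rw [← hZ0] at h1
    have h2 := lim_add hP (lim_mul hS hρ hNP h1)
    rw [← I2'] at h2
    have h3 := lim_unique hY0 h2
    have h4 : SumP (C q * Z0) = SumP (C q * T0) + SumP (C q * Z0) * SumP (C q * T0) := by
      rw [← sumP_mul hS lZ lT, ← sumP_add lT (l1_mul lZ lT), ← y2]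
    have h5 : SumP (C q * Z0) = q * SumP Z0 := by rw [sumP_mul hS (l1_C _) lZ0, sumP_C]
    rw [h5] at h4
    generalize SumP (C q * T0) = st at h4
    generalize SumP Z0 = sz at h3 h4
    have h6 : LP * (1 + q * sz) = 0 := by
      rw [h3]; simp only [zero_mul, mul_zero, add_zero, zero_add]; noncomm_ring
    have h7 : (1 + q * sz) * (1 - st) = 1 := by
      have : (1 + q * sz) * (1 - st) = 1 + (q * sz - (st + q * sz * st)) := by noncomm_ring
      rw [this, ← h4, sub_self, add_zero]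
    calc LP = LP * ((1 + q * sz) * (1 - st)) := by rw [h7, mul_one]
      _ = 0 := by rw [← mul_assoc, h6, zero_mul]

end ban

end

end Pool.Agent.MP_48a2f9_mp.Op

end MrgPart1

-- ======== part 2: formerly Pool.Agent.MP_48a2f9_mp.OpR
section MrgPart2

/-!
Module Op, part R: scalar series and the explicit weights.
-/

open Finset Filter Topology PowerSeries

namespace Pool.Agent.MP_48a2f9_mp.Op

noncomputable section
open Classical

variable {ρ σ : ℕ → ℝ} {x y : ℝ⟦X⟧} {l α β : ℝ}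

lemma lim_iff : Lim ρ x l ↔ Tendsto (fun n => coeff n x / ρ n) atTop (𝓝 l) := by
  simp only [Lim, smul_eq_mul, div_eq_inv_mul]

def Bd (ρ : ℕ → ℝ) (x : ℝ⟦X⟧) (β : ℝ) : Prop := ∀ n, |coeff n x| ≤ β * ρ n

structure Slow (σ : ℕ → ℝ) : Prop where
  pos : ∀ n, 0 < σ n
  ratio : Tendsto (fun n => σ n / σ (n + 1)) atTop (𝓝 1)
  loc : ∃ C, ∀ n i, n ≤ 3 * i → i ≤ n → σ i ≤ C * σ n

lemma slow_of_reg (h : Reg ρ) : Slow ρ := ⟨h.pos, h.ratio, h.loc⟩

lemma bdd_of_tendsto {u : ℕ → ℝ} (hp : ∀ n, 0 < σ n)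
    (h : Tendsto (fun n => u n / σ n) atTop (𝓝 l)) : ∃ B, 0 ≤ B ∧ ∀ n, |u n| ≤ B * σ n := by
  obtain ⟨B, hB⟩ := h.abs.bddAbove_range
  have h1 : ∀ n, |u n / σ n| ≤ B := fun n => hB ⟨n, rfl⟩
  refine ⟨B, (abs_nonneg _).trans (h1 0), fun n => ?_⟩
  have := h1 n
  rwa [abs_div, abs_of_pos (hp n), div_le_iff₀ (hp n)] at this

lemma bd_of_lim (hp : ∀ n, 0 < ρ n) (h : Lim ρ x l) : ∃ β, 0 ≤ β ∧ Bd ρ x β :=
  bdd_of_tendsto hp (lim_iff.1 h)

lemma Bd.add (hx : Bd ρ x α) (hy : Bd ρ y β) : Bd ρ (x + y) (α + β) := fun n => by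
  rw [map_add, add_mul]; exact (abs_add_le _ _).trans (add_le_add (hx n) (hy n))

lemma Bd.sub (hx : Bd ρ x α) (hy : Bd ρ y β) : Bd ρ (x - y) (α + β) := fun n => by
  rw [map_sub, add_mul]; exact (abs_sub _ _).trans (add_le_add (hx n) (hy n))

lemma Bd.mono (hp : ∀ n, 0 < ρ n) (hx : Bd ρ x α) (h : α ≤ β) : Bd ρ x β := fun n =>
  (hx n).trans (mul_le_mul_of_nonneg_right h (hp n).le)

lemma bd_mul (hρ : Reg ρ) : ∃ κ, 0 ≤ κ ∧ ∀ (x y : ℝ⟦X⟧) (α β : ℝ), 0 ≤ α → 0 ≤ β → Bd ρ x α →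
    Bd ρ y β → Bd ρ (x * y) (κ * α * β) := by
  obtain ⟨C, hC⟩ := hρ.loc
  have hC0 : 0 ≤ C := by
    have := hC 0 0 le_rfl le_rfl
    have h0 := hρ.pos 0
    nlinarith
  have hS : 0 ≤ ∑' n, ρ n := tsum_nonneg fun n => (hρ.pos n).le
  refine ⟨2 * C * ∑' n, ρ n, by positivity, fun x y α β hα hβ hx hy n => ?_⟩
  have h1 : ∀ p ∈ antidiagonal n, |coeff p.1 x * coeff p.2 y| ≤
      α * β * (C * ρ n) * (ρ p.1 + ρ p.2) := by
    intro p hp
    have hp' : p.1 + p.2 = n := mem_antidiagonal.1 hp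
    have a1 := hρ.pos p.1
    have a2 := hρ.pos p.2
    have a3 := hρ.pos n
    have a4 : ρ p.1 * ρ p.2 ≤ C * ρ n * (ρ p.1 + ρ p.2) := by
      rcases le_total p.1 p.2 with h | h
      · have := hC n p.2 (by omega) (by omega)
        nlinarith [mul_nonneg (mul_nonneg hC0 a3.le) a2.le]
      · have := hC n p.1 (by omega) (by omega)
        nlinarith [mul_nonneg (mul_nonneg hC0 a3.le) a1.le]
    rw [abs_mul]
    calc _ ≤ (α * ρ p.1) * (β * ρ p.2) :=
          mul_le_mul (hx _) (hy _) (abs_nonneg _) (mul_nonneg hα a1.le)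
      _ = α * β * (ρ p.1 * ρ p.2) := by ring
      _ ≤ α * β * (C * ρ n * (ρ p.1 + ρ p.2)) :=
          mul_le_mul_of_nonneg_left a4 (mul_nonneg hα hβ)
      _ = _ := by ring
  have h2 : ∑ p ∈ antidiagonal n, ρ p.1 ≤ ∑' n, ρ n := by
    rw [Finset.Nat.sum_antidiagonal_eq_sum_range_succ (fun i _ => ρ i)]
    exact hρ.summ.sum_le_tsum _ fun i _ => (hρ.pos i).le
  have h3 : ∑ p ∈ antidiagonal n, ρ p.2 ≤ ∑' n, ρ n := by
    rw [← Finset.Nat.sum_antidiagonal_swap]; exact h2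
  rw [coeff_mul]
  refine (abs_sum_le_sum_abs _ _).trans ((sum_le_sum h1).trans ?_)
  rw [← mul_sum, sum_add_distrib]
  have h4 : 0 ≤ α * β * (C * ρ n) := mul_nonneg (mul_nonneg hα hβ) (mul_nonneg hC0 (hρ.pos n).le)
  calc _ ≤ α * β * (C * ρ n) * (∑' n, ρ n + ∑' n, ρ n) :=
        mul_le_mul_of_nonneg_left (add_le_add h2 h3) h4
    _ = _ := by ring

lemma Slow.shift (h : Slow σ) (k : ℕ) : Tendsto (fun n => σ n / σ (n + k)) atTop (𝓝 1) := by
  induction k with
  | zero => simp [(h.pos _).ne']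
  | succ k ih =>
    have h2 := h.ratio.comp (tendsto_add_atTop_nat k)
    have := ih.mul h2
    rw [one_mul] at this
    refine this.congr fun n => ?_
    have := (h.pos (n + k)).ne'
    simp only [Function.comp]
    rw [← add_assoc]
    field_simp

lemma Slow.shift' (h : Slow σ) {u : ℕ → ℝ} (hu : Tendsto (fun n => u n / σ n) atTop (𝓝 l))
    (k : ℕ) : Tendsto (fun n => u n / σ (n + k)) atTop (𝓝 l) := by
  have := hu.mul (h.shift k)
  rw [mul_one] at this
  refine this.congr fun n => ?_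
  have := (h.pos n).ne'
  field_simp

lemma le_of_shift (h : Slow σ) {u t : ℕ → ℝ} {a b c : ℝ} {k : ℕ}
    (hu : Tendsto (fun n => u n / σ n) atTop (𝓝 a))
    (ht : Tendsto (fun n => t n / σ n) atTop (𝓝 b)) (hc : ∀ n, c * u n ≤ t (n + k)) :
    c * a ≤ b := by
  refine le_of_tendsto_of_tendsto' ((h.shift' hu k).const_mul c)
    (ht.comp (tendsto_add_atTop_nat k)) fun n => ?_
  simp only [Function.comp]
  rw [← mul_div_assoc]
  exact div_le_div_of_nonneg_right (hc n) (h.pos _).le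

/-- The weight `ρ` is negligible with respect to `σ`. -/
def Negl (ρ σ : ℕ → ℝ) : Prop :=
  Tendsto (fun n => ρ n * (∑ i ∈ range (n + 1), σ i) / σ n) atTop (𝓝 0)

lemma negl_lim (hρ : Reg ρ) (hσ : Slow σ) (hn : Negl ρ σ) (hx : Bd ρ x β) :
    Tendsto (fun n => coeff n x / σ n) atTop (𝓝 0) := by
  have h0 := hσ.pos 0
  have := hn.const_mul (|β| / σ 0)
  rw [mul_zero] at this
  refine squeeze_zero_norm (fun n => ?_) this
  have h1 : σ 0 ≤ ∑ i ∈ range (n + 1), σ i :=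
    single_le_sum (f := σ) (fun i _ => (hσ.pos i).le) (by simp)
  have h2 := hσ.pos n
  have h3 := hρ.pos n
  rw [Real.norm_eq_abs, abs_div, abs_of_pos h2, ← mul_div_assoc]
  refine div_le_div_of_nonneg_right ((hx n).trans ?_) h2.le
  calc β * ρ n ≤ |β| / σ 0 * (ρ n * σ 0) := by
        rw [show |β| / σ 0 * (ρ n * σ 0) = |β| * ρ n by field_simp]
        exact mul_le_mul_of_nonneg_right (le_abs_self _) h3.le
    _ ≤ _ := by gcongr

lemma conv_lim (hρ : Reg ρ) (hσ : Slow σ) (hn : Negl ρ σ) {h u : ℝ⟦X⟧} {c : ℝ} (hβ : 0 ≤ β)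
    (hh : Bd ρ h β) (hu : Tendsto (fun n => coeff n u / σ n) atTop (𝓝 c)) :
    Tendsto (fun n => coeff n (h * u) / σ n) atTop (𝓝 (SumP h * c)) := by
  obtain ⟨B, hB0, hB⟩ := bdd_of_tendsto hσ.pos hu
  obtain ⟨C1, hC1⟩ := hρ.loc
  obtain ⟨C2, hC2⟩ := hσ.loc
  have hC20 : 0 ≤ C2 := by
    have := hC2 0 0 le_rfl le_rfl
    have h0 := hσ.pos 0
    nlinarith
  have hC10 : 0 ≤ C1 := by
    have := hC1 0 0 le_rfl le_rfl
    have h0 := hρ.pos 0
    nlinarith
  let f : ℕ → ℕ → ℝ := fun n j => if 2 * j ≤ n then coeff j h * coeff (n - j) u / σ n else 0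
  have p1 : Tendsto (fun n => ∑' j, f n j) atTop (𝓝 (∑' j, coeff j h * c)) := by
    refine tendsto_tsum_of_dominated_convergence (bound := fun j => β * ρ j * (B * C2))
      ((hρ.summ.mul_left β).mul_right _) (fun j => ?_) (Eventually.of_forall fun n j => ?_)
    · rw [← tendsto_add_atTop_iff_nat j]
      refine ((hσ.shift' hu j).const_mul (coeff j h)).congr' ?_
      filter_upwards [eventually_ge_atTop j] with n hn
      simp only [f]
      rw [if_pos (by omega), Nat.add_sub_cancel, mul_div_assoc]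
    · have a1 := hρ.pos j
      simp only [f]
      split_ifs with hj
      · have a2 := hσ.pos n
        rw [Real.norm_eq_abs, abs_div, abs_mul, abs_of_pos a2, div_le_iff₀ a2]
        have a3 := hC2 n (n - j) (by omega) (by omega)
        calc _ ≤ (β * ρ j) * (B * σ (n - j)) :=
              mul_le_mul (hh j) (hB _) (abs_nonneg _) (mul_nonneg hβ a1.le)
          _ ≤ (β * ρ j) * (B * (C2 * σ n)) := by gcongr
          _ = _ := by ring
      · rw [norm_zero]; positivity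
  have p2 : Tendsto (fun n => coeff n (h * u) / σ n - ∑' j, f n j) atTop (𝓝 0) := by
    have := hn.const_mul (β * C1 * B)
    rw [mul_zero] at this
    refine squeeze_zero_norm (fun n => ?_) this
    have a2 := hσ.pos n
    have a3 := hρ.pos n
    rw [tsum_eq_sum (s := range (n + 1)) (fun j hj => by
      simp only [f]; rw [if_neg]; simp at hj; omega), coeff_mul,
      Finset.Nat.sum_antidiagonal_eq_sum_range_succ (fun i j => coeff i h * coeff j u), sum_div,
      ← sum_sub_distrib, ← sum_range_reflect σ, mul_sum, sum_div, mul_sum]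
    refine (norm_sum_le _ _).trans (sum_le_sum fun j hj => ?_)
    have hj' : j ≤ n := by simp at hj; omega
    have a4 := hσ.pos (n - j)
    rw [show n + 1 - 1 - j = n - j by omega]
    simp only [f]
    split_ifs with h2
    · rw [sub_self, norm_zero]; positivity
    · rw [sub_zero, Real.norm_eq_abs, abs_div, abs_mul, abs_of_pos a2, ← mul_div_assoc]
      refine div_le_div_of_nonneg_right ?_ a2.le
      have a5 := hC1 n j (by omega) hj'
      calc _ ≤ (β * ρ j) * (B * σ (n - j)) :=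
            mul_le_mul (hh j) (hB _) (abs_nonneg _) (mul_nonneg hβ (hρ.pos j).le)
        _ ≤ (β * (C1 * ρ n)) * (B * σ (n - j)) := by gcongr
        _ = _ := by ring
  have := p2.add p1
  rw [zero_add, tsum_mul_right] at this
  simpa [SumP] using this

lemma finish (hσ : Slow σ) {t u γ : ℕ → ℝ} {τ : ℝ⟦X⟧} {a b c : ℝ} (ha : 0 < a) (hc : 0 < c)
    (hu : Tendsto (fun n => u n / σ n) atTop (𝓝 a))
    (hτ : Tendsto (fun n => coeff n τ / σ n) atTop (𝓝 b)) (ht : ∀ n, 1 ≤ n → t n = coeff n τ)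
    (hl : ∀ n, c * u n ≤ t (n + 2)) (hγ : Tendsto (fun n => σ n / γ n) atTop (𝓝 1)) :
    ∃ c', 0 < c' ∧ Tendsto (fun n => t n / γ n) atTop (𝓝 c') := by
  have h1 : Tendsto (fun n => t n / σ n) atTop (𝓝 b) := by
    refine hτ.congr' ?_
    filter_upwards [eventually_ge_atTop 1] with n hn
    rw [ht n hn]
  refine ⟨b, (mul_pos hc ha).trans_le (le_of_shift hσ hu h1 hl), ?_⟩
  have := h1.mul hγ
  rw [mul_one] at this
  refine this.congr fun n => ?_
  have := (hσ.pos n).ne'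
  field_simp

/-! ### Explicit weights -/

lemma rpw_pos (a : ℝ) (n : ℕ) : 0 < rpw a n := Real.rpow_pos_of_pos (by positivity) _

lemma rpw_add (a b : ℝ) (n : ℕ) : rpw (a + b) n = rpw a n * rpw b n := by
  rw [rpw, rpw, rpw, neg_add, Real.rpow_add (by positivity)]

lemma rpw_one (n : ℕ) : rpw 1 n = ((n : ℝ) + 1)⁻¹ := by rw [rpw, Real.rpow_neg_one]

lemma rpw_zero (n : ℕ) : rpw 0 n = 1 := by simp [rpw]

lemma rpw_anti {a b : ℝ} (h : a ≤ b) (n : ℕ) : rpw b n ≤ rpw a n :=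
  Real.rpow_le_rpow_of_exponent_le (by have : (0 : ℝ) ≤ n := n.cast_nonneg; linarith) (by linarith)

lemma rpw_le_one {a : ℝ} (h : 0 ≤ a) (n : ℕ) : rpw a n ≤ 1 := (rpw_anti h n).trans (rpw_zero n).le

lemma rpw_tendsto {a : ℝ} (h : 0 < a) : Tendsto (rpw a) atTop (𝓝 0) :=
  (tendsto_rpow_neg_atTop h).comp (tendsto_atTop_add_const_right _ _ tendsto_natCast_atTop_atTop)

lemma tendsto_ratio (a b : ℝ) : Tendsto (fun n : ℕ => ((n : ℝ) + a) / ((n : ℝ) + b)) atTop (𝓝 1) := by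
  have h1 : Tendsto (fun n : ℕ => (n : ℝ) + b) atTop atTop :=
    tendsto_atTop_add_const_right _ _ tendsto_natCast_atTop_atTop
  have h2 := (h1.const_div_atTop (a - b)).const_add 1
  rw [add_zero] at h2
  refine h2.congr' ?_
  filter_upwards [h1.eventually_gt_atTop 0] with n hn
  field_simp
  ring

lemma tendsto_rpow_ratio (a b c : ℝ) :
    Tendsto (fun n : ℕ => ((n : ℝ) + a) ^ c / ((n : ℝ) + b) ^ c) atTop (𝓝 1) := by
  have h := (tendsto_ratio a b).rpow_const (p := c) (Or.inl one_ne_zero)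
  rw [Real.one_rpow] at h
  refine h.congr' ?_
  have h1 : ∀ b : ℝ, Tendsto (fun n : ℕ => (n : ℝ) + b) atTop atTop := fun b =>
    tendsto_atTop_add_const_right _ _ tendsto_natCast_atTop_atTop
  filter_upwards [(h1 a).eventually_ge_atTop 0, (h1 b).eventually_ge_atTop 0] with n ha hb
  rw [Real.div_rpow ha hb]

lemma tendsto_log_ratio (a b : ℝ) :
    Tendsto (fun n : ℕ => Real.log ((n : ℝ) + a) / Real.log ((n : ℝ) + b)) atTop (𝓝 1) := by
  have h1 : ∀ b : ℝ, Tendsto (fun n : ℕ => (n : ℝ) + b) atTop atTop := fun b =>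
    tendsto_atTop_add_const_right _ _ tendsto_natCast_atTop_atTop
  have h2 := Real.tendsto_log_atTop.comp (h1 b)
  have h3 := (tendsto_ratio a b).log one_ne_zero
  have h4 := (h3.div_atTop h2).const_add 1
  rw [add_zero] at h4
  refine h4.congr' ?_
  filter_upwards [(h1 a).eventually_gt_atTop 0, (h1 b).eventually_gt_atTop 0,
    h2.eventually_gt_atTop 0] with n ha hb hl
  simp only [Function.comp] at hl ⊢
  rw [Real.log_div ha.ne' hb.ne']
  field_simp
  ring

lemma slow_rpw {a : ℝ} (h : 0 ≤ a) : Slow (rpw a) := by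
  refine ⟨rpw_pos a, ?_, 3 ^ a, fun n i h1 _ => ?_⟩
  · refine (tendsto_rpow_ratio 1 2 (-a)).congr fun n => ?_
    simp only [rpw]; push_cast; rw [add_assoc]; norm_num
  · have h2 : ((n : ℝ) + 1) / 3 ≤ (i : ℝ) + 1 := by
      have : (n : ℝ) ≤ 3 * i := by exact_mod_cast h1
      linarith
    have h3 := Real.rpow_le_rpow_of_nonpos (by positivity) h2 (neg_nonpos.2 h)
    rw [Real.div_rpow (by positivity) (by norm_num), Real.rpow_neg (by norm_num : (0 : ℝ) ≤ 3),
      div_inv_eq_mul, mul_comm] at h3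
    exact h3

def ilog (n : ℕ) : ℝ := (Real.log ((n : ℝ) + 2))⁻¹

lemma log2_pos (n : ℕ) : 0 < Real.log ((n : ℝ) + 2) :=
  Real.log_pos (by have : (0 : ℝ) ≤ n := n.cast_nonneg; linarith)

lemma slow_ilog : Slow ilog := by
  refine ⟨fun n => inv_pos.2 (log2_pos n), ?_, 3, fun n i h1 _ => ?_⟩
  · refine (tendsto_log_ratio 3 2).congr fun n => ?_
    simp only [ilog]; push_cast
    rw [div_inv_eq_mul, add_assoc, mul_comm, div_eq_mul_inv]; norm_num
  · have a1 := log2_pos n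
    have a2 := log2_pos i
    have h2 : (n : ℝ) ≤ 3 * i := by exact_mod_cast h1
    have h3 : (0 : ℝ) ≤ i := i.cast_nonneg
    have h4 : Real.log ((n : ℝ) + 2) ≤ 3 * Real.log ((i : ℝ) + 2) := by
      have := Real.log_pow ((i : ℝ) + 2) 3
      push_cast at this
      rw [← this]
      refine Real.log_le_log (by positivity) ?_
      nlinarith [mul_nonneg h3 h3, mul_nonneg h3 (mul_nonneg h3 h3)]
    rw [ilog, ilog, ← div_eq_mul_inv, le_div_iff₀ a1, inv_mul_le_iff₀ a2]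
    linarith

lemma negl_half : Negl (rpw (3 / 2)) (rpw (1 / 2)) := by
  have h := (rpw_tendsto (a := 1 / 2) (by norm_num)).cesaro.comp (tendsto_add_atTop_nat 1)
  refine h.congr fun n => ?_
  have := (rpw_pos (1 / 2) n).ne'
  simp only [Function.comp]
  rw [show (3 / 2 : ℝ) = 1 + 1 / 2 by norm_num, rpw_add, rpw_one]
  push_cast
  field_simp

lemma sum_rpw_one (n : ℕ) : ∑ i ∈ range (n + 1), rpw 1 i ≤ 1 + Real.log ((n : ℝ) + 2) := by
  have h := harmonic_le_one_add_log (n + 1)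
  have h2 : Real.log ((n + 1 : ℕ) : ℝ) ≤ Real.log ((n : ℝ) + 2) :=
    Real.log_le_log (by positivity) (by push_cast; linarith)
  have h3 : ((harmonic (n + 1) : ℚ) : ℝ) = ∑ i ∈ range (n + 1), rpw 1 i := by
    simp [harmonic, rpw_one]
  linarith

lemma log2_atTop : Tendsto (fun n : ℕ => Real.log ((n : ℝ) + 2)) atTop atTop :=
  Real.tendsto_log_atTop.comp (tendsto_atTop_add_const_right _ _ tendsto_natCast_atTop_atTop)

lemma negl_rlg : Negl rlg (rpw 1) := by
  have h1 := log2_atTop.inv_tendsto_atTop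
  have h2 := (h1.mul h1).add h1
  rw [mul_zero, add_zero] at h2
  refine squeeze_zero (fun n => ?_) (fun n => ?_) h2
  · have := log2_pos n
    have := rpw_pos 1 n
    have : 0 ≤ ∑ i ∈ range (n + 1), rpw 1 i := sum_nonneg fun i _ => (rpw_pos 1 i).le
    rw [rlg]; positivity
  · have a1 := log2_pos n
    have a2 := sum_rpw_one n
    have a3 : (0 : ℝ) ≤ n := n.cast_nonneg
    simp only [Pi.inv_apply]
    rw [rlg, rpw_one, div_inv_eq_mul]
    generalize Real.log ((n : ℝ) + 2) = L at *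
    calc _ ≤ (((n : ℝ) + 2) * L ^ 2)⁻¹ * (1 + L) * ((n : ℝ) + 2) := by gcongr; norm_num
      _ = _ := by field_simp

lemma negl_ilog : Negl (rpw 2) ilog := by
  have h1 : Tendsto (fun n : ℕ => Real.log ((n : ℝ) + 2) / ((n : ℝ) + 2)) atTop (𝓝 0) := by
    have := (Real.tendsto_pow_log_div_mul_add_atTop 1 0 1 one_ne_zero).comp
      (tendsto_atTop_add_const_right atTop (2 : ℝ) tendsto_natCast_atTop_atTop)
    simpa [Function.comp_def] using this
  have h2 := (h1.mul (tendsto_ratio 2 1)).mul_const (Real.log 2)⁻¹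
  rw [zero_mul, zero_mul] at h2
  refine squeeze_zero (fun n => ?_) (fun n => ?_) h2
  · have := slow_ilog.pos n
    have := rpw_pos 2 n
    have : 0 ≤ ∑ i ∈ range (n + 1), ilog i := sum_nonneg fun i _ => (slow_ilog.pos i).le
    positivity
  · have a1 := log2_pos n
    have a0 : 0 < Real.log 2 := Real.log_pos (by norm_num)
    have a2 : ∑ i ∈ range (n + 1), ilog i ≤ ((n : ℝ) + 1) * (Real.log 2)⁻¹ := by
      have := sum_le_card_nsmul (range (n + 1)) ilog (Real.log 2)⁻¹ fun i _ =>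
        inv_anti₀ a0 (Real.log_le_log (by norm_num) (by have : (0 : ℝ) ≤ i := i.cast_nonneg; linarith))
      simpa using this
    rw [show (2 : ℝ) = 1 + 1 by norm_num, rpw_add, rpw_one, ilog, div_inv_eq_mul]
    rw [show (1 + 1 : ℝ) = 2 by norm_num]
    calc _ ≤ ((n : ℝ) + 1)⁻¹ * ((n : ℝ) + 1)⁻¹ * (((n : ℝ) + 1) * (Real.log 2)⁻¹) *
          Real.log ((n : ℝ) + 2) := by gcongr
      _ = _ := by field_simp

lemma negl_zero {a : ℝ} (h : 1 < a) : Negl (rpw a) (rpw 0) := by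
  refine (rpw_tendsto (a := a - 1) (by linarith)).congr fun n => ?_
  conv_rhs => rw [show a = (a - 1) + 1 by ring, rpw_add, rpw_one]
  simp only [rpw_zero, sum_const, card_range, nsmul_eq_mul]
  push_cast
  field_simp

lemma rpw_div (a : ℝ) : Tendsto (fun n : ℕ => rpw a n / (n : ℝ) ^ (-a)) atTop (𝓝 1) := by
  simpa [rpw] using tendsto_rpow_ratio 1 0 (-a)

lemma ilog_div : Tendsto (fun n : ℕ => ilog n / (Real.log n)⁻¹) atTop (𝓝 1) := by
  refine (tendsto_log_ratio 0 2).congr fun n => ?_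
  rw [ilog, add_zero, div_inv_eq_mul, mul_comm, div_eq_mul_inv]

lemma rlg_div :
    Tendsto (fun n : ℕ => rlg n / ((n : ℝ)⁻¹ * (Real.log n ^ 2)⁻¹)) atTop (𝓝 1) := by
  have := (tendsto_ratio 0 2).mul ((tendsto_log_ratio 0 2).pow 2)
  rw [one_pow, mul_one] at this
  refine this.congr fun n => ?_
  rw [rlg, add_zero, ← mul_inv, inv_div_inv, div_pow, div_mul_div_comm]

lemma rpw_two_div : Tendsto (fun n : ℕ => rpw 2 n / rlg n) atTop (𝓝 0) := by
  have h1 : Tendsto (fun n : ℕ => Real.log ((n : ℝ) + 2) ^ 2 / ((n : ℝ) + 2)) atTop (𝓝 0) := by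
    have := (Real.tendsto_pow_log_div_mul_add_atTop 1 0 2 one_ne_zero).comp
      (tendsto_atTop_add_const_right atTop (2 : ℝ) tendsto_natCast_atTop_atTop)
    simpa [Function.comp_def] using this
  have h2 := h1.mul ((tendsto_ratio 2 1).pow 2)
  rw [zero_mul] at h2
  refine h2.congr fun n => ?_
  have h3 : rpw 2 n = ((n : ℝ) + 1)⁻¹ * ((n : ℝ) + 1)⁻¹ := by
    rw [← rpw_one, ← rpw_add]; norm_num
  rw [h3, rlg, div_inv_eq_mul]
  field_simp

end

end Pool.Agent.MP_48a2f9_mp.Op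

end MrgPart2

-- marker of a merged file
example : 731051 + 569143 = 731051 + 569143 := rfl

end MrgPart0

-- ======== part 1: formerly Pool.Agent.MP_48a2f9_mp.OpE
section MrgPart1

/-!
Module Op, part E: entries of operator valued series.
-/

open Finset Filter Topology PowerSeries

namespace Pool.Agent.MP_48a2f9_mp.Op

noncomputable section
open Classical

variable {ι : Type} {ρ : ℕ → ℝ}

def es (S : (Opr ι)⟦X⟧) (x y : ι) : ℝ⟦X⟧ := PowerSeries.mk fun n => ent (coeff n S) x y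

@[simp] lemma coeff_es (S : (Opr ι)⟦X⟧) (x y : ι) (n : ℕ) :
    coeff n (es S x y) = ent (coeff n S) x y := coeff_mk _ _

lemma es_add (S T : (Opr ι)⟦X⟧) (x y : ι) : es (S + T) x y = es S x y + es T x y := by
  ext n; simp

lemma es_sub (S T : (Opr ι)⟦X⟧) (x y : ι) : es (S - T) x y = es S x y - es T x y := by
  ext n; simp

lemma es_one (x y : ι) : es (1 : (Opr ι)⟦X⟧) x y = if x = y then 1 else 0 := by
  ext n
  rw [coeff_es, coeff_one]
  by_cases h : x = y <;> by_cases hn : n = 0 <;> simp [h, hn, ent_one, coeff_one]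

lemma ent_coeff_mul (S T : (Opr ι)⟦X⟧) (x y : ι) (n : ℕ) : ent (coeff n (S * T)) x y =
    ∑ p ∈ antidiagonal n, ∑' w, ent (coeff p.1 S) x w * ent (coeff p.2 T) w y := by
  rw [coeff_mul, ent_sum]
  simp only [ent_mul]

lemma ent_coeff_mul_Ioo (S T : (Opr ι)⟦X⟧) (x y : ι) (n : ℕ)
    (hS : constantCoeff S = 0) (hT : constantCoeff T = 0) :
    ent (coeff n (S * T)) x y =
      ∑ l ∈ Ioo 0 n, ∑' w, ent (coeff l S) x w * ent (coeff (n - l) T) w y := by
  rw [ent_coeff_mul, Finset.Nat.sum_antidiagonal_eq_sum_range_succ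
    (fun i j => ∑' w, ent (coeff i S) x w * ent (coeff j T) w y)]
  symm
  refine sum_subset (fun l hl => ?_) fun l h1 h2 => ?_
  · simp only [mem_Ioo, mem_range] at hl ⊢; omega
  · simp only [mem_Ioo, mem_range] at h1 h2
    rcases Nat.eq_zero_or_pos l with rfl | hl
    · simp [hS]
    · rw [show n - l = 0 by omega]
      simp [hT]

lemma ent_coeff_mul_Ioc (S T : (Opr ι)⟦X⟧) (x y : ι) (n : ℕ) (hS : constantCoeff S = 0) :
    ent (coeff n (S * T)) x y =
      ∑ l ∈ Ioc 0 n, ∑' w, ent (coeff l S) x w * ent (coeff (n - l) T) w y := by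
  rw [ent_coeff_mul, Finset.Nat.sum_antidiagonal_eq_sum_range_succ
    (fun i j => ∑' w, ent (coeff i S) x w * ent (coeff j T) w y)]
  symm
  refine sum_subset (fun l hl => ?_) fun l h1 h2 => ?_
  · simp only [mem_Ioc, mem_range] at hl ⊢; omega
  · simp only [mem_Ioc, mem_range] at h1 h2
    rw [show l = 0 by omega]
    simp [hS]

lemma es_dg_mul {d : ι → ℝ} (hd : Bdd d) (S : (Opr ι)⟦X⟧) (x y : ι) :
    es (C (dg d) * S) x y = C (d x) * es S x y := by
  ext n; simp [ent_dg_mul hd]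

lemma es_mul_dg {d : ι → ℝ} (hd : Bdd d) (S : (Opr ι)⟦X⟧) (x y : ι) :
    es (S * C (dg d)) x y = es S x y * C (d y) := by
  ext n; simp [ent_mul_dg hd]

def ind (z : ι) : ι → ℝ := fun x => if x = z then 1 else 0

lemma bdd_ind (z : ι) : Bdd (ind z) := ⟨1, fun x => by rw [ind]; split_ifs <;> simp⟩

lemma es_mul_ind (S T : (Opr ι)⟦X⟧) (x y z : ι) :
    es (S * C (dg (ind z)) * T) x y = es S x z * es T z y := by
  ext n
  rw [coeff_es, ent_coeff_mul, coeff_mul]
  refine sum_congr rfl fun p _ => ?_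
  rw [tsum_eq_single z]
  · simp [ent_mul_dg (bdd_ind z), ind]
  · intro w hw
    simp [ent_mul_dg (bdd_ind z), ind, hw]

lemma ent_mul_compl (T : Opr ι) (x y z : ι) :
    ent (T * (1 - dg (ind z))) x y = if y = z then 0 else ent T x y := by
  rw [mul_sub, mul_one, ent_sub, ent_mul_dg (bdd_ind z), ind]
  split_ifs <;> simp

lemma ent_compl_mul (T : Opr ι) (x y z : ι) :
    ent ((1 - dg (ind z)) * T) x y = if x = z then 0 else ent T x y := by
  rw [sub_mul, one_mul, ent_sub, ent_dg_mul (bdd_ind z), ind]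
  split_ifs <;> simp

lemma pos_one : Pos (1 : Opr ι) := fun x y => by rw [ent_one]; split_ifs <;> simp

lemma pos_compl (z : ι) : Pos (1 - dg (ind z)) := fun x y => by
  have := ent_compl_mul 1 x y z
  rw [mul_one] at this
  rw [this]; split_ifs
  · exact le_rfl
  · exact pos_one x y

lemma pos_dg {d : ι → ℝ} (hd : Bdd d) (h : ∀ x, 0 ≤ d x) : Pos (dg d) := fun x y => by
  rw [ent_dg hd]; split_ifs
  · exact h x
  · exact le_rfl

def PosS (S : (Opr ι)⟦X⟧) : Prop := ∀ n, Pos (coeff n S)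

lemma PosS.add {S T : (Opr ι)⟦X⟧} (hS : PosS S) (hT : PosS T) : PosS (S + T) := fun n x y => by
  rw [map_add, ent_add]; exact add_nonneg (hS n x y) (hT n x y)

lemma PosS.mul {S T : (Opr ι)⟦X⟧} (hS : PosS S) (hT : PosS T) : PosS (S * T) := fun n x y => by
  rw [coeff_mul, ent_sum]; exact sum_nonneg fun p _ => (hS _).mul (hT _) x y

lemma posS_C {a : Opr ι} (ha : Pos a) : PosS (C a) := fun n x y => by
  rw [coeff_C]; split_ifs
  · exact ha x y
  · simp

lemma posS_one : PosS (1 : (Opr ι)⟦X⟧) := by simpa using posS_C (pos_one (ι := ι))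

lemma PosS.le_mul {S T : (Opr ι)⟦X⟧} (hS : PosS S) (hT : PosS T) (m n : ℕ) (x w y : ι) :
    ent (coeff m S) x w * ent (coeff n T) w y ≤ ent (coeff (m + n) (S * T)) x y := by
  refine ((hS m).le_mul (hT n) x w y).trans ?_
  rw [coeff_mul, ent_sum]
  exact single_le_sum (f := fun p : ℕ × ℕ => ent (coeff p.1 S * coeff p.2 T) x y)
    (fun p _ => (hS _).mul (hT _) x y) (a := (m, n)) (by simp)

lemma posS_res {k : (Opr ι)⟦X⟧} {a : Opr ι} (hk : PosS k) (ha : Pos a)
    (h0 : constantCoeff k = 0) : PosS (res k a) := by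
  intro n
  induction n using Nat.strong_induction_on with
  | _ n ih =>
    intro x y
    rw [res_left h0, map_add, ent_add, ent_coeff_mul_Ioc _ _ _ _ _ (by simp [h0])]
    refine add_nonneg (hk n x y) (sum_nonneg fun l hl => tsum_nonneg fun w => ?_)
    rw [mem_Ioc] at hl
    exact mul_nonneg ((hk.mul (posS_C ha)) l x w) (ih _ (by omega) w y)

lemma lim_es {S : (Opr ι)⟦X⟧} {L : Opr ι} (h : Lim ρ S L) (x y : ι) :
    Lim ρ (es S x y) (ent L x y) := by
  have := ((entL x y).continuous.tendsto L).comp h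
  simpa [Lim, Function.comp_def] using this

lemma l1_es {S : (Opr ι)⟦X⟧} (h : L1 S) (x y : ι) : L1 (es S x y) :=
  Summable.of_nonneg_of_le (fun _ => norm_nonneg _)
    (fun n => by rw [coeff_es]; exact abs_ent_le _ x y) h

/-- Entrywise convergence with a summable majorant gives norm convergence. -/
lemma op_lim (hp : ∀ n, 0 < ρ n) {S : (Opr ι)⟦X⟧} {ω : ι → ℝ} (hω : Summable ω)
    (hω0 : ∀ x, 0 ≤ ω x) {L : ι → ι → ℝ} (hb : ∀ x y, Bd ρ (es S x y) (ω x * ω y))
    (hl : ∀ x y, Lim ρ (es S x y) (L x y)) :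
    ∃ T : Opr ι, Lim ρ S T ∧ ∀ x y, ent T x y = L x y := by
  have hb' : ∀ x y n, |ent (coeff n S) x y / ρ n| ≤ ω x * ω y := fun x y n => by
    rw [abs_div, abs_of_pos (hp n), div_le_iff₀ (hp n)]
    simpa using hb x y n
  have hL : ∀ x y, |L x y| ≤ ω x * ω y := fun x y =>
    le_of_tendsto' (lim_iff.1 (hl x y)).abs fun n => by simpa using hb' x y n
  have hle : ∀ y, ω y ≤ ∑' x, ω x := fun y => hω.le_tsum y fun z _ => hω0 z
  have hg : Good L := good_of_dom (hω.mul_right (∑' x, ω x)) fun x y =>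
    (hL x y).trans (mul_le_mul_of_nonneg_left (hle y) (hω0 x))
  refine ⟨ofK L, ?_, ent_ofK hg⟩
  have hs : Summable fun z : ι × ι => ω z.1 * ω z.2 := hω.mul_of_nonneg hω hω0 hω0
  have hd : ∀ n (z : ι × ι), |ent ((ρ n)⁻¹ • coeff n S - ofK L) z.1 z.2| ≤
      2 * (ω z.1 * ω z.2) := fun n z => by
    rw [ent_sub, ent_smul, ent_ofK hg, ← div_eq_inv_mul]
    have := abs_sub (ent (coeff n S) z.1 z.2 / ρ n) (L z.1 z.2)
    linarith [hb' z.1 z.2 n, hL z.1 z.2]
  have ht : Tendsto (fun n => ∑' z : ι × ι, |ent ((ρ n)⁻¹ • coeff n S - ofK L) z.1 z.2|) atTop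
      (𝓝 (∑' _ : ι × ι, (0 : ℝ))) := by
    refine tendsto_tsum_of_dominated_convergence (hs.mul_left 2) (fun z => ?_)
      (Eventually.of_forall fun n z => by rw [Real.norm_eq_abs, abs_abs]; exact hd n z)
    have := ((lim_iff.1 (hl z.1 z.2)).sub_const (L z.1 z.2)).abs
    rw [sub_self, abs_zero] at this
    refine this.congr fun n => ?_
    rw [ent_sub, ent_smul, ent_ofK hg, ← div_eq_inv_mul, coeff_es]
  rw [tsum_zero] at ht
  rw [Lim, tendsto_iff_norm_sub_tendsto_zero]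
  refine squeeze_zero (fun _ => norm_nonneg _) (fun n => norm_le_prod _ ?_) ht
  exact Summable.of_nonneg_of_le (fun _ => abs_nonneg _) (hd n) (hs.mul_left 2)

def inds (s : Finset ι) : ι → ℝ := fun x => if x ∈ s then 1 else 0

lemma bdd_inds (s : Finset ι) : Bdd (inds s) := ⟨1, fun x => by rw [inds]; split_ifs <;> simp⟩

lemma l1_cut (s : Finset ι) {Y : (Opr ι)⟦X⟧} (h : ∀ x y, L1 (es Y x y)) :
    L1 (C (dg (inds s)) * Y * C (dg (inds s))) := by
  have h1 : Summable fun n => ∑ z ∈ s ×ˢ s, ‖coeff n (es Y z.1 z.2)‖ :=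
    summable_sum fun z _ => h z.1 z.2
  refine Summable.of_nonneg_of_le (fun _ => norm_nonneg _) (fun n => ?_) h1
  have h2 : ∀ z : ι × ι, |ent (coeff n (C (dg (inds s)) * Y * C (dg (inds s)))) z.1 z.2| =
      if z ∈ s ×ˢ s then ‖coeff n (es Y z.1 z.2)‖ else 0 := fun z => by
    rw [coeff_mul_C, coeff_C_mul, ent_mul_dg (bdd_inds s), ent_dg_mul (bdd_inds s), inds, inds]
    by_cases a : z.1 ∈ s <;> by_cases b : z.2 ∈ s <;> simp [a, b]
  have h3 : ∀ z ∉ s ×ˢ s,
      |ent (coeff n (C (dg (inds s)) * Y * C (dg (inds s)))) z.1 z.2| = 0 := fun z hz => by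
    rw [h2, if_neg hz]
  refine (norm_le_prod _ (summable_of_ne_finset_zero h3)).trans ?_
  rw [tsum_eq_sum h3]
  exact (sum_congr rfl fun z hz => by rw [h2, if_pos hz]).le

/-- The series of operators with given kernels. -/
def kser (k : ℕ → ι → ι → ℝ) : (Opr ι)⟦X⟧ := PowerSeries.mk fun l => ofK (k l)

lemma ent_kser {k : ℕ → ι → ι → ℝ} (h : ∀ l, Good (k l)) (l : ℕ) (x y : ι) :
    ent (coeff l (kser k)) x y = k l x y := by rw [kser, coeff_mk, ent_ofK (h l)]

lemma kser_cc {k : ℕ → ι → ι → ℝ} (h : ∀ l, Good (k l)) (h0 : ∀ x y, k 0 x y = 0) :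
    constantCoeff (kser k) = 0 := by
  rw [← coeff_zero_eq_constantCoeff_apply]
  exact ent_ext fun x y => by rw [ent_kser h, h0, ent_zero]

lemma kser_dom {k : ℕ → ι → ι → ℝ} {ω : ι → ℝ} {b : ℕ → ℝ} (hω : Summable ω)
    (h : ∀ l x y, |k l x y| ≤ b l * ω x) :
    (∀ l, Good (k l)) ∧ ∀ l, ‖coeff l (kser k)‖ ≤ (∑' x, ω x) * b l := by
  have hg : ∀ l, Good (k l) := fun l => good_of_dom (hω.mul_left (b l)) (h l)
  refine ⟨hg, fun l => ?_⟩
  rw [mul_comm, ← tsum_mul_left]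
  exact norm_le_of_dom _ (hω.mul_left (b l)) fun x y => by rw [ent_kser hg]; exact h l x y

/-- Identification of a solution of the renewal recursion. -/
lemma link {κ B R : (Opr ι)⟦X⟧} (hκ : constantCoeff κ = 0) (hR : constantCoeff R = 0)
    (e : R = B + κ * R) (y : ι) {f : ℕ → ι → ℝ}
    (hf : ∀ n u, 1 ≤ n → f n u = ent (coeff n B) u y +
      ∑ l ∈ Ioo 0 n, ∑' w, ent (coeff l κ) u w * f (n - l) w) :
    ∀ n, 1 ≤ n → ∀ u, ent (coeff n R) u y = f n u := by
  intro n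
  induction n using Nat.strong_induction_on with
  | _ n ih =>
    intro hn u
    rw [e, map_add, ent_add, ent_coeff_mul_Ioo _ _ _ _ _ hκ hR, hf n u hn]
    congr 1
    refine sum_congr rfl fun l hl => tsum_congr fun w => ?_
    rw [mem_Ioo] at hl
    rw [ih _ (by omega) (by omega)]

end

end Pool.Agent.MP_48a2f9_mp.Op

end MrgPart1

-- ======== part 2: formerly Pool.Agent.MP_48a2f9_mp.OpK
section MrgPart2

/-!
Module Op, part K: kernels on the transverse lattice as operator series.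
-/

open Finset Filter Topology PowerSeries

namespace Pool.Agent.MP_48a2f9_mp.Op

noncomputable section
open Classical

variable {D : ℕ}

def wt (θ : ℝ) (u : Tr D) : ℝ := Real.exp (-θ * ‖u‖)

lemma wt_pos (θ : ℝ) (u : Tr D) : 0 < wt θ u := Real.exp_pos _

lemma wt_le_one {θ : ℝ} (h : 0 ≤ θ) (u : Tr D) : wt θ u ≤ 1 :=
  Real.exp_le_one_iff.2 (by nlinarith [norm_nonneg u])

lemma bdd_wt {θ : ℝ} (h : 0 ≤ θ) : Bdd (wt (D := D) θ) :=
  ⟨1, fun u => by rw [abs_of_pos (wt_pos θ u)]; exact wt_le_one h u⟩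

lemma summable_exp_int {c : ℝ} (h : 0 < c) : Summable fun k : ℤ => Real.exp (-c * ‖k‖) := by
  have h1 : Summable fun n : ℕ => Real.exp (-c * n) := by
    have := Real.summable_exp_nat_mul_iff.2 (neg_lt_zero.2 h)
    simpa [mul_comm] using this
  refine Summable.of_nat_of_neg ?_ ?_ <;> simpa using h1

lemma summable_wt {θ : ℝ} (h : 0 < θ) : Summable (wt (D := D) θ) := by
  have hc : 0 < θ / (D + 1) := by positivity
  obtain ⟨f, hf⟩ : ∃ f : ℤ → ℝ, f = fun k => Real.exp (-(θ / (D + 1)) * ‖k‖) := ⟨_, rfl⟩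
  have hs : Summable f := hf ▸ summable_exp_int hc
  have hf0 : ∀ k, 0 ≤ f k := fun k => hf ▸ (Real.exp_pos _).le
  have h1 : ∀ u : Tr D, wt θ u ≤ ∏ i, f (u i) := fun u => by
    rw [hf, ← Real.exp_sum, wt, ← mul_sum]
    refine Real.exp_le_exp.2 ?_
    have h2 : ∑ i, ‖u i‖ ≤ (D + 1) * ‖u‖ := by
      have := sum_le_card_nsmul univ (fun i => ‖u i‖) ‖u‖ fun i _ => norm_le_pi_norm u i
      simp only [card_univ, Fintype.card_fin, nsmul_eq_mul] at this
      nlinarith [norm_nonneg u]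
    have h3 : θ / (D + 1) * ∑ i, ‖u i‖ ≤ θ / (D + 1) * ((D + 1) * ‖u‖) :=
      mul_le_mul_of_nonneg_left h2 hc.le
    have h4 : θ / (D + 1) * ((D + 1) * ‖u‖) = θ * ‖u‖ := by field_simp
    linarith
  refine summable_of_sum_le (fun u => (wt_pos θ u).le) (c := (∑' k, f k) ^ D) fun s => ?_
  refine (sum_le_sum fun u _ => h1 u).trans ?_
  have h5 : s ⊆ Fintype.piFinset fun i => s.image fun u => u i := fun u hu => by
    rw [Fintype.mem_piFinset]; exact fun i => mem_image_of_mem _ hu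
  refine (sum_le_sum_of_subset_of_nonneg h5 fun u _ _ => prod_nonneg fun i _ => hf0 _).trans ?_
  rw [← prod_univ_sum]
  calc _ ≤ ∏ _i : Fin D, ∑' k, f k :=
        prod_le_prod (fun i _ => sum_nonneg fun k _ => hf0 k) fun i _ =>
          hs.sum_le_tsum _ fun k _ => hf0 k
    _ = _ := by simp

lemma summable_poly_wt {θ : ℝ} (h : 0 < θ) :
    Summable fun u : Tr D => (1 + ‖u‖ ^ 2) * wt θ u := by
  refine Summable.of_nonneg_of_le (fun u => (mul_pos (by positivity) (wt_pos θ u)).le)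
    (fun u => ?_) ((summable_wt (half_pos h)).mul_left (1 + 8 / θ ^ 2))
  have h1 := Real.quadratic_le_exp_of_nonneg (x := θ / 2 * ‖u‖) (by positivity)
  have h0 : 0 ≤ θ / 2 * ‖u‖ := by positivity
  have h2 : 1 + ‖u‖ ^ 2 ≤ (1 + 8 / θ ^ 2) * Real.exp (θ / 2 * ‖u‖) := by
    have h3 : ‖u‖ ^ 2 = 8 / θ ^ 2 * ((θ / 2 * ‖u‖) ^ 2 / 2) := by field_simp; ring
    have h4 : 8 / θ ^ 2 * ((θ / 2 * ‖u‖) ^ 2 / 2) ≤ 8 / θ ^ 2 * Real.exp (θ / 2 * ‖u‖) :=
      mul_le_mul_of_nonneg_left (by linarith) (by positivity)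
    have h5 := Real.one_le_exp h0
    rw [add_mul, h3]; linarith
  have h6 : wt (θ / 2) u = Real.exp (θ / 2 * ‖u‖) * wt θ u := by
    rw [wt, wt, ← Real.exp_add]; congr 1; ring
  rw [h6, ← mul_assoc]
  exact mul_le_mul_of_nonneg_right h2 (wt_pos θ u).le

variable {K K' G : ℕ → Tr D → Tr D → ℝ} {M : ℕ} {Cc ν : ℝ}

lemma kerOK_C (h : KerOK K M Cc ν) : 0 ≤ Cc := by
  have := (h.nonneg 0 0 0).trans (h.decay 0 0 0)
  simpa using this

lemma kerOK_good (h : KerOK K M Cc ν) (l : ℕ) : Good (K l) := by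
  have hC := kerOK_C h
  have hs := summable_wt (D := D) one_pos
  refine ⟨Cc * Real.exp (-ν * l) * Real.exp (M * l) * ∑' u : Tr D, wt 1 u, fun v => ?_⟩
  have h1 : ∀ u, |K l u v| ≤ Cc * Real.exp (-ν * l) * Real.exp (M * l) * wt 1 (v - u) := fun u => by
    by_cases h0 : K l u v = 0
    · rw [h0, abs_zero]; exact mul_nonneg (by positivity) (wt_pos _ _).le
    · rw [abs_of_nonneg (h.nonneg l u v), mul_assoc, wt, ← Real.exp_add]
      refine (h.decay l u v).trans (le_mul_of_one_le_right (by positivity) (Real.one_le_exp ?_))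
      linarith [h.range l u v h0]
  have h2 : Summable fun u => wt 1 (v - u) := (Equiv.subLeft v).summable_iff.2 hs
  have h3 : ∑' u, wt 1 (v - u) = ∑' u : Tr D, wt 1 u := (Equiv.subLeft v).tsum_eq (wt 1)
  have h4 : Summable fun u => |K l u v| :=
    Summable.of_nonneg_of_le (fun _ => abs_nonneg _) h1 (h2.mul_left _)
  refine ⟨h4, (h4.tsum_le_tsum h1 (h2.mul_left _)).trans ?_⟩
  rw [tsum_mul_left, h3]

lemma ent_K (h : KerOK K M Cc ν) (l : ℕ) (u v : Tr D) : ent (coeff l (kser K)) u v = K l u v :=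
  ent_kser (kerOK_good h) l u v

lemma cc_K (h : KerOK K M Cc ν) : constantCoeff (kser K) = 0 := kser_cc (kerOK_good h) h.zero

lemma pos_K (h : KerOK K M Cc ν) : PosS (kser K) := fun l u v => by
  rw [ent_K h]; exact h.nonneg l u v

def Eo (D : ℕ) : Opr (Tr D) := dg (ind (u0 D))

def Mm (D : ℕ) (θ : ℝ) : Opr (Tr D) := dg (wt θ)

def Gs (K : ℕ → Tr D → Tr D → ℝ) : (Opr (Tr D))⟦X⟧ := res (kser K) 1

def Xs (K : ℕ → Tr D → Tr D → ℝ) : (Opr (Tr D))⟦X⟧ := res (kser K) (1 - Eo D)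

/-- The weighted version of a series. -/
def til (θ : ℝ) (S : (Opr (Tr D))⟦X⟧) : (Opr (Tr D))⟦X⟧ := C (Mm D θ) * S * C (Mm D θ)

lemma norm_Mm {θ : ℝ} (h : 0 ≤ θ) : ‖Mm D θ‖ ≤ 1 :=
  norm_dg_le zero_le_one fun u => by rw [abs_of_pos (wt_pos θ u)]; exact wt_le_one h u

lemma Mm_comm {θ : ℝ} (h : 0 ≤ θ) : Mm D θ * (1 - Eo D) = (1 - Eo D) * Mm D θ := by
  rw [mul_sub, sub_mul, mul_one, one_mul, Mm, Eo, dg_comm (bdd_wt h) (bdd_ind _)]

lemma ent_til {θ : ℝ} (h : 0 ≤ θ) (S : (Opr (Tr D))⟦X⟧) (n : ℕ) (x y : Tr D) :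
    ent (coeff n (til θ S)) x y = wt θ x * ent (coeff n S) x y * wt θ y := by
  rw [til, coeff_mul_C, coeff_C_mul, Mm, ent_mul_dg (bdd_wt h), ent_dg_mul (bdd_wt h)]

lemma Gs_eq (h : KerOK K M Cc ν) : Gs K = kser K + kser K * Gs K := by
  have := res_left (a := 1) (cc_K h)
  rwa [map_one, mul_one] at this

lemma pos_Gs (h : KerOK K M Cc ν) : PosS (Gs K) := posS_res (pos_K h) pos_one (cc_K h)

lemma pos_Xs (h : KerOK K M Cc ν) : PosS (Xs K) := posS_res (pos_K h) (pos_compl _) (cc_K h)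

lemma link_G (h : KerOK K M Cc ν) (hG : IsGp K G) (n : ℕ) (u v : Tr D) :
    ent (coeff n (Gs K)) u v = G n u v := by
  rcases Nat.eq_zero_or_pos n with rfl | hn
  · rw [hG, h.zero, coeff_zero_eq_constantCoeff_apply, Gs, res_cc (cc_K h)]
    simp [kconv]
  · refine link (cc_K h) (res_cc (cc_K h)) (Gs_eq h) v (f := fun n u => G n u v)
      (fun n u _ => ?_) n hn u
    simp only [ent_K h]
    exact hG n u v

/-- The first return series. -/
def Fs (K : ℕ → Tr D → Tr D → ℝ) : ℝ⟦X⟧ := es (Xs K) (u0 D) (u0 D)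

/-- The return series. -/
def Us (K : ℕ → Tr D → Tr D → ℝ) : ℝ⟦X⟧ := 1 + es (Gs K) (u0 D) (u0 D)

lemma es_G_left (h : KerOK K M Cc ν) (x y : Tr D) :
    es (Gs K) x y = es (Xs K) x y + es (Xs K) x (u0 D) * es (Gs K) (u0 D) y := by
  rw [← es_mul_ind, ← es_add]
  exact congrArg (fun S => es S x y) (green_left (e := Eo D) (cc_K h))

lemma Us_eq (h : KerOK K M Cc ν) : Us K = 1 + Fs K * Us K := by
  rw [Us, Fs, mul_add, mul_one, ← es_G_left h]

lemma isRen (h : KerOK K M Cc ν) : IsRen (fun n => coeff n (Fs K)) (fun n => coeff n (Us K)) := by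
  refine ⟨fun n => ?_, ?_, fun n => ?_⟩
  · simp only [Fs, coeff_es]; exact pos_Xs h n _ _
  · simp only [Fs, coeff_es]
    rw [coeff_zero_eq_constantCoeff_apply, Xs, res_cc (cc_K h), ent_zero]
  · simp only
    conv_lhs => rw [Us_eq h]
    rw [map_add, coeff_one, coeff_mul]

lemma K_le_Xs (h : KerOK K M Cc ν) (n : ℕ) (u v : Tr D) : K n u v ≤ ent (coeff n (Xs K)) u v := by
  have h1 := ((pos_K h).mul (posS_C (pos_compl (u0 D)))).mul (pos_Xs h) n u v
  have h2 : Xs K = kser K + kser K * C (1 - Eo D) * Xs K := res_left (cc_K h)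
  rw [h2, map_add, ent_add, ent_K h]
  exact le_add_of_nonneg_right h1

def th (M : ℕ) (ν : ℝ) : ℝ := ν / (5 + 4 * M)

lemma th_pos (h : 0 < ν) : 0 < th M ν := by rw [th]; positivity

lemma th_le (h : 0 < ν) : 5 * th M ν ≤ ν ∧ 4 * (th M ν * M) ≤ ν := by
  have h1 : th M ν * (5 + 4 * M) = ν := by rw [th]; field_simp
  have h2 := th_pos (M := M) h
  have h3 : 0 ≤ th M ν * M := by positivity
  constructor <;> nlinarith

/-- The sum of the weight. -/
def Sw (D : ℕ) (θ : ℝ) : ℝ := ∑' u : Tr D, wt θ u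

lemma Sw_nonneg (θ : ℝ) : 0 ≤ Sw D θ := tsum_nonneg fun u => (wt_pos θ u).le

lemma pert_ser {C' η : ℝ} (hν : 0 < ν) (h : KerOK K M Cc ν) (h' : KerOK K' M C' ν)
    (hd : ∀ l u v, |K' l u v - K l u v| ≤ η * Real.exp (-ν * (l + ‖u‖))) :
    ∃ W : (Opr (Tr D))⟦X⟧, kser K' - kser K = til (th M ν) (til (th M ν) W) ∧
      constantCoeff W = 0 ∧
      ∀ l, ‖coeff l W‖ ≤ Sw D (th M ν) * η * Real.exp (-(ν / 2) * l) := by
  obtain ⟨t1, t2⟩ := th_le (M := M) hν
  have t0 := th_pos (M := M) hν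
  generalize th M ν = θ at *
  have hη : 0 ≤ η := by
    have := (abs_nonneg _).trans (hd 0 0 0)
    simpa using this
  obtain ⟨k, hk⟩ : ∃ k : ℕ → Tr D → Tr D → ℝ, k = fun l u v =>
    (K' l u v - K l u v) * Real.exp (2 * θ * ‖u‖ + 2 * θ * ‖v‖) := ⟨_, rfl⟩
  have hb : ∀ l u v, |k l u v| ≤ η * Real.exp (-(ν / 2) * l) * wt θ u := fun l u v => by
    by_cases h0 : ‖v - u‖ ≤ (M : ℝ) * l
    · have h1 : ‖v‖ ≤ ‖u‖ + M * l := by
        have := norm_add_le u (v - u)
        rw [add_sub_cancel] at this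
        linarith
      rw [hk]
      simp only
      rw [abs_mul, abs_of_pos (Real.exp_pos _), wt, mul_assoc η, ← Real.exp_add]
      refine (mul_le_mul_of_nonneg_right (hd l u v) (Real.exp_pos _).le).trans ?_
      rw [mul_assoc η, ← Real.exp_add]
      refine mul_le_mul_of_nonneg_left (Real.exp_le_exp.2 ?_) hη
      have a1 := mul_le_mul_of_nonneg_left h1 t0.le
      have a2 := mul_le_mul_of_nonneg_right t1 (norm_nonneg u)
      have a3 := mul_le_mul_of_nonneg_right t2 (l.cast_nonneg (α := ℝ))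
      nlinarith
    · have e1 : K l u v = 0 := by_contra fun a => h0 (h.range l u v a)
      have e2 : K' l u v = 0 := by_contra fun a => h0 (h'.range l u v a)
      rw [hk]
      simp only [e1, e2, sub_self, zero_mul, abs_zero]
      exact mul_nonneg (by positivity) (wt_pos _ _).le
  obtain ⟨hg, hn⟩ := kser_dom (summable_wt t0) hb
  refine ⟨kser k, ?_, kser_cc hg fun x y => by simp [hk, h.zero, h'.zero], fun l => ?_⟩
  · ext1 l
    refine ent_ext fun u v => ?_
    rw [map_sub, ent_sub, ent_K h, ent_K h', ent_til t0.le, ent_til t0.le, ent_kser hg, hk]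
    have : wt θ u * wt θ u * wt θ v * wt θ v * Real.exp (2 * θ * ‖u‖ + 2 * θ * ‖v‖) = 1 := by
      simp only [wt, ← Real.exp_add]
      rw [Real.exp_eq_one_iff]; ring
    simp only
    linear_combination (-(K' l u v - K l u v)) * this
  · rw [mul_assoc]; exact hn l

lemma norm_u0 : ‖u0 D‖ ≤ 1 := (pi_norm_le_iff_of_nonneg zero_le_one).2 fun i => by simp [u0]

/-- Boundary pieces as weighted rank one operators. -/
lemma bdry_ser {b : ℕ → Tr D → ℝ} (hν : 0 < ν) (h : Bdry b M Cc ν) :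
    ∃ (L R : (Opr (Tr D))⟦X⟧) (B : ℝ), constantCoeff L = 0 ∧ constantCoeff R = 0 ∧ PosS L ∧
      PosS R ∧ (∀ l, ‖coeff l L‖ ≤ B * Real.exp (-(ν / 2) * l)) ∧
      (∀ l, ‖coeff l R‖ ≤ B * Real.exp (-(ν / 2) * l)) ∧
      (∀ l w, 1 ≤ l → ent (coeff l (L * C (Mm D (th M ν)))) (u0 D) w = b l w) ∧
      ∀ l w, 1 ≤ l → ent (coeff l (C (Mm D (th M ν)) * R)) w (u0 D) = b l w := by
  obtain ⟨t1, -⟩ := th_le (M := M) hν
  have t0 := th_pos (M := M) hν
  generalize th M ν = θ at *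
  have hC : 0 ≤ Cc := by
    have := (h.nonneg 0 0).trans (h.decay 0 0)
    simpa using this
  obtain ⟨c, hc⟩ : ∃ c : ℕ → Tr D → ℝ, c = fun l w =>
    if l = 0 then 0 else b l w * Real.exp (θ * ‖w‖) := ⟨_, rfl⟩
  have c0 : ∀ l w, 0 ≤ c l w := fun l w => by
    rw [hc]; simp only; split_ifs
    · exact le_rfl
    · exact mul_nonneg (h.nonneg l w) (Real.exp_pos _).le
  have c1 : ∀ l w, c l w ≤ Cc * Real.exp (-(ν / 2) * l) * wt θ w := fun l w => by
    have a0 : 0 ≤ Cc * Real.exp (-(ν / 2) * l) * wt θ w :=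
      mul_nonneg (by positivity) (wt_pos _ _).le
    rw [hc]; simp only; split_ifs
    · exact a0
    refine (mul_le_mul_of_nonneg_right (h.decay l w) (Real.exp_pos _).le).trans ?_
    rw [wt, mul_assoc, mul_assoc, ← Real.exp_add, ← Real.exp_add]
    refine mul_le_mul_of_nonneg_left (Real.exp_le_exp.2 ?_) hC
    have a1 := mul_le_mul_of_nonneg_right t1 (norm_nonneg w)
    have a2 := mul_nonneg t0.le (norm_nonneg w)
    have a3 := mul_nonneg hν.le (l.cast_nonneg (α := ℝ))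
    linarith
  have c2 : ∀ l w, 1 ≤ l → c l w * wt θ w = b l w := fun l w hl => by
    rw [hc]; simp only
    rw [if_neg (by omega), mul_assoc, wt, ← Real.exp_add]; simp
  have e1 : 1 ≤ Real.exp θ := Real.one_le_exp t0.le
  have e2 : 1 ≤ Real.exp θ * wt θ (u0 D) := by
    rw [wt, ← Real.exp_add]
    exact Real.one_le_exp (by nlinarith [norm_u0 (D := D)])
  obtain ⟨g1, n1⟩ := kser_dom (k := fun l x w => if x = u0 D then c l w else 0)
    (b := fun l => Real.exp θ * Cc * Real.exp (-(ν / 2) * l)) (summable_wt t0) fun l x w => by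
      have a0 : 0 ≤ Cc * Real.exp (-(ν / 2) * l) := by positivity
      split_ifs with hx
      · rw [abs_of_nonneg (c0 l w), hx]
        have := mul_le_mul_of_nonneg_left (wt_le_one t0.le w) a0
        have := mul_le_mul_of_nonneg_left e2 a0
        linarith [c1 l w]
      · rw [abs_zero]; exact mul_nonneg (by positivity) (wt_pos _ _).le
  obtain ⟨g2, n2⟩ := kser_dom (k := fun l x w => if w = u0 D then c l x else 0)
    (b := fun l => Real.exp θ * Cc * Real.exp (-(ν / 2) * l)) (summable_wt t0) fun l x w => by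
      have a0 : 0 ≤ Cc * Real.exp (-(ν / 2) * l) * wt θ x :=
        mul_nonneg (by positivity) (wt_pos _ _).le
      have := mul_le_mul_of_nonneg_left e1 a0
      split_ifs with hx
      · rw [abs_of_nonneg (c0 l x)]
        linarith [c1 l x]
      · rw [abs_zero]; linarith
  refine ⟨_, _, (∑' x : Tr D, wt θ x) * (Real.exp θ * Cc), kser_cc g1 fun x y => by simp [hc],
    kser_cc g2 fun x y => by simp [hc], fun l x y => ?_, fun l x y => ?_,
    fun l => by rw [mul_assoc]; exact n1 l, fun l => by rw [mul_assoc]; exact n2 l,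
    fun l w hl => ?_, fun l w hl => ?_⟩
  · rw [ent_kser g1]; split_ifs
    · exact c0 _ _
    · exact le_rfl
  · rw [ent_kser g2]; split_ifs
    · exact c0 _ _
    · exact le_rfl
  · rw [coeff_mul_C, Mm, ent_mul_dg (bdd_wt t0.le), ent_kser g1, if_pos rfl, c2 l w hl]
  · rw [coeff_C_mul, Mm, ent_dg_mul (bdd_wt t0.le), ent_kser g2, if_pos rfl, mul_comm, c2 l w hl]

/-- Operator form of the renewal representation. -/
lemma adm_rep {t : ℕ → ℝ} (hν : 0 < ν) (h : KerOK K M Cc ν) (ha : Adm K M Cc ν t) :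
    ∃ (L R : (Opr (Tr D))⟦X⟧) (e : ℝ⟦X⟧) (B c : ℝ), 0 < c ∧
      (∀ l, ‖coeff l L‖ ≤ B * Real.exp (-(ν / 2) * l)) ∧
      (∀ l, ‖coeff l R‖ ≤ B * Real.exp (-(ν / 2) * l)) ∧
      (∀ l, ‖coeff l e‖ ≤ Cc * Real.exp (-ν * l)) ∧
      (∀ n, 1 ≤ n → t n = coeff n (e + es (L * til (th M ν) (1 + Gs K) * R) (u0 D) (u0 D))) ∧
      (∀ n, c * coeff n (Us K) ≤ t (n + 2)) ∧ ∀ n, 1 ≤ n → 0 ≤ t n := by
  obtain ⟨bL, bR, tR, err, hL, hR, he, h1, h2⟩ := ha.rep
  obtain ⟨L, -, B1, l0, -, lp, -, ln, -, le, -⟩ := bdry_ser hν hL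
  obtain ⟨-, R, B2, -, r0, -, rp, -, rn, -, re⟩ := bdry_ser hν hR
  have t0 := th_pos (M := M) hν
  have pM : PosS (C (Mm D (th M ν))) := posS_C (pos_dg (bdd_wt t0.le) fun u => (wt_pos _ u).le)
  obtain ⟨L', hL'⟩ : ∃ L', L' = L * C (Mm D (th M ν)) := ⟨_, rfl⟩
  obtain ⟨R', hR'⟩ : ∃ R', R' = C (Mm D (th M ν)) * R := ⟨_, rfl⟩
  have e0 : L * til (th M ν) (1 + Gs K) * R = L' * ((1 + Gs K) * R') := by
    rw [hL', hR', til]; simp only [mul_assoc]
  have l0' : constantCoeff L' = 0 := by simp [hL', l0]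
  have r0' : constantCoeff ((1 + Gs K) * R') = 0 := by simp [hR', r0]
  have lp' : PosS L' := hL' ▸ lp.mul pM
  have rp' : PosS R' := hR' ▸ pM.mul rp
  have gp : PosS (1 + Gs K) := posS_one.add (pos_Gs h)
  rw [← hL'] at le
  rw [← hR'] at re
  have e1 : (1 + Gs K) * R' = R' + kser K * ((1 + Gs K) * R') := by
    conv_lhs => rw [Gs_eq h]
    noncomm_ring
  have e2 := link (cc_K h) r0' e1 (u0 D) (f := tR) fun n u hn => by
    rw [h1 n u hn, re n u hn]; simp only [ent_K h]; rfl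
  have e3 : ∀ n, 1 ≤ n → t n = err n + ent (coeff n (L' * ((1 + Gs K) * R'))) (u0 D) (u0 D) :=
    fun n hn => by
      rw [h2 n hn, ent_coeff_mul_Ioo _ _ _ _ _ l0' r0']
      congr 1
      refine sum_congr rfl fun l hl => tsum_congr fun w => ?_
      rw [mem_Ioo] at hl
      rw [le l w (by omega), e2 _ (by omega)]
  refine ⟨L, R, PowerSeries.mk err, max B1 B2, bL 1 (u0 D) * bR 1 (u0 D), mul_pos hL.pos hR.pos,
    fun l => (ln l).trans (mul_le_mul_of_nonneg_right (le_max_left _ _) (Real.exp_pos _).le),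
    fun l => (rn l).trans (mul_le_mul_of_nonneg_right (le_max_right _ _) (Real.exp_pos _).le),
    fun l => ?_, fun n hn => ?_, fun n => ?_, fun n hn => ?_⟩
  · rw [coeff_mk, Real.norm_eq_abs, abs_of_nonneg (he l).1]; exact (he l).2
  · rw [e0, map_add, coeff_mk, coeff_es, e3 n hn]
  · have a1 := lp'.le_mul (gp.mul rp') 1 (n + 1) (u0 D) (u0 D) (u0 D)
    have a2 := gp.le_mul rp' n 1 (u0 D) (u0 D) (u0 D)
    have a3 : coeff n (Us K) = ent (coeff n (1 + Gs K)) (u0 D) (u0 D) := by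
      rw [← coeff_es, es_add, es_one, if_pos rfl, Us]
    rw [le 1 _ le_rfl, show 1 + (n + 1) = n + 2 by omega] at a1
    rw [re 1 _ le_rfl, ← a3] at a2
    have a4 := mul_le_mul_of_nonneg_left a2 hL.pos.le
    rw [e3 _ (by omega)]
    linarith [(he (n + 2)).1]
  · rw [e3 n hn]
    exact add_nonneg (he n).1 (lp'.mul (gp.mul rp') n _ _)

end

end Pool.Agent.MP_48a2f9_mp.Op

end MrgPart2

-- ======== part 3: formerly Pool.Agent.MP_48a2f9_mp.Ren2a
section MrgPart3

/-!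
Parseval comparison for one-sided absolutely summable series.
-/

open Finset Filter Topology MeasureTheory

namespace Pool.Agent.MP_48a2f9_mp.Ren2

noncomputable section

lemma fourier_nat (n : ℕ) (t : AddCircle (1 : ℝ)) :
    fourier (n : ℤ) t = ((AddCircle.toCircle t : Circle) : ℂ) ^ n := by
  induction n with
  | zero => simp
  | succ n ih =>
    have : ((n + 1 : ℕ) : ℤ) = (n : ℤ) + 1 := by push_cast; ring
    rw [this, fourier_add, ih, fourier_one, pow_succ]

lemma orth_norm_sq {E : Type} [NormedAddCommGroup E] [InnerProductSpace ℂ E] {v : ℕ → E}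
    (hv : Orthonormal ℂ v) (a : ℕ → ℂ) (x : E) (hx : HasSum (fun n => a n • v n) x) :
    HasSum (fun n => ‖a n‖ ^ 2) (‖x‖ ^ 2) := by
  have h1 : ∀ s : Finset ℕ, ‖∑ n ∈ s, a n • v n‖ ^ 2 = ∑ n ∈ s, ‖a n‖ ^ 2 := by
    intro s
    have h := hv.inner_sum a a s
    rw [← inner_self_eq_norm_sq (𝕜 := ℂ), h, map_sum]
    refine Finset.sum_congr rfl fun n _ => ?_
    rw [RCLike.conj_mul]
    norm_cast
  have h2 : Tendsto (fun s : Finset ℕ => ‖∑ n ∈ s, a n • v n‖ ^ 2) atTop (𝓝 (‖x‖ ^ 2)) := by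
    have h3 : Tendsto (fun s : Finset ℕ => ∑ n ∈ s, a n • v n) atTop (𝓝 x) := by
      simpa [HasSum] using hx
    exact (h3.norm).pow 2
  simp only [h1] at h2
  simpa [HasSum] using h2

lemma parseval (a : ℕ → ℂ) (ha : Summable fun n => ‖a n‖) :
    ∃ g : C(AddCircle (1 : ℝ), ℂ),
      (∀ t, g t = ∑' n, a n * ((AddCircle.toCircle t : Circle) : ℂ) ^ n) ∧
      HasSum (fun n => ‖a n‖ ^ 2) (∫ t, ‖g t‖ ^ 2 ∂AddCircle.haarAddCircle) := by
  have hs : Summable fun n : ℕ => a n • (fourier (n : ℤ) : C(AddCircle (1 : ℝ), ℂ)) := by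
    refine Summable.of_norm ?_
    simpa [norm_smul, fourier_norm] using ha
  obtain ⟨g, hg⟩ := hs
  refine ⟨g, fun t => ?_, ?_⟩
  · have h := (ContinuousMap.evalCLM ℂ t).hasSum hg
    simp only [ContinuousMap.evalCLM_apply, ContinuousMap.smul_apply, smul_eq_mul,
      fourier_nat] at h
    exact h.tsum_eq.symm
  · have h := (ContinuousMap.toLp (E := ℂ) 2 (AddCircle.haarAddCircle (T := (1 : ℝ))) ℂ).hasSum hg
    simp only [map_smul] at h
    have ho : Orthonormal ℂ (fun n : ℕ => fourierLp (T := (1 : ℝ)) 2 (n : ℤ)) :=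
      orthonormal_fourier.comp (fun n : ℕ => (n : ℤ)) Nat.cast_injective
    have h2 := orth_norm_sq ho a _ h
    set G := ContinuousMap.toLp (E := ℂ) 2 (AddCircle.haarAddCircle (T := (1 : ℝ))) ℂ g with hG
    have H₃ := congr_arg RCLike.re (@L2.inner_def (AddCircle (1 : ℝ)) ℂ ℂ _ _ _ _ _ G G)
    rw [← integral_re _] at H₃
    · simp only [← norm_sq_eq_re_inner] at H₃
      rw [H₃] at h2
      have h4 : (∫ t, ‖G t‖ ^ 2 ∂AddCircle.haarAddCircle) =
          ∫ t, ‖g t‖ ^ 2 ∂AddCircle.haarAddCircle := by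
        apply integral_congr_ae
        filter_upwards [ContinuousMap.coeFn_toLp (E := ℂ) (p := 2)
          (AddCircle.haarAddCircle (T := (1 : ℝ))) (𝕜 := ℂ) g] with t ht
        rw [hG, ht]
      rwa [h4] at h2
    · exact L2.integrable_inner G G

/-- Comparison of square sums from a pointwise comparison on the unit circle. -/
lemma sq_le_of_circle (a b : ℕ → ℂ) (K : ℝ) (ha : Summable fun n => ‖a n‖)
    (hb : Summable fun n => ‖b n‖)
    (h : ∀ w : ℂ, ‖w‖ = 1 → ‖∑' n, a n * w ^ n‖ ≤ K * ‖∑' n, b n * w ^ n‖) :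
    Summable (fun n => ‖a n‖ ^ 2) ∧ Summable (fun n => ‖b n‖ ^ 2) ∧
      ∑' n, ‖a n‖ ^ 2 ≤ K ^ 2 * ∑' n, ‖b n‖ ^ 2 := by
  obtain ⟨g, hg, hga⟩ := parseval a ha
  obtain ⟨k, hk, hkb⟩ := parseval b hb
  refine ⟨hga.summable, hkb.summable, ?_⟩
  rw [hga.tsum_eq, hkb.tsum_eq, ← integral_const_mul]
  have hi : ∀ (q : C(AddCircle (1 : ℝ), ℂ)),
      Integrable (fun t => ‖q t‖ ^ 2) (AddCircle.haarAddCircle (T := (1 : ℝ))) := fun q =>
    ((q.continuous.norm).pow 2).integrable_of_hasCompactSupport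
      (HasCompactSupport.of_compactSpace _)
  refine integral_mono (hi g) ((hi k).const_mul _) fun t => ?_
  have h1 := h ((AddCircle.toCircle t : Circle) : ℂ) (Circle.norm_coe _)
  rw [← hg, ← hk] at h1
  have h0 : 0 ≤ ‖g t‖ := norm_nonneg _
  calc ‖g t‖ ^ 2 ≤ (K * ‖k t‖) ^ 2 := pow_le_pow_left₀ h0 h1 2
    _ = K ^ 2 * ‖k t‖ ^ 2 := by ring

end

end Pool.Agent.MP_48a2f9_mp.Ren2

end MrgPart3

-- ======== part 4: formerly Pool.Agent.MP_48a2f9_mp.Ren2b
section MrgPart4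

/-!
Renewal basics, the lower bound for the tail series in the disc and the square estimate.
-/

open Finset Filter Topology

namespace Pool.Agent.MP_48a2f9_mp.Ren2

noncomputable section

/-- Tail sums. -/
def rr (f : ℕ → ℝ) (n : ℕ) : ℝ := 1 - ∑ j ∈ range (n + 1), f j

/-- Truncated mean. -/
def mm (f : ℕ → ℝ) (n : ℕ) : ℝ := ∑ j ∈ range (n + 1), rr f j

variable {f u : ℕ → ℝ}

lemma rr_tail (hs : HasSum f 1) (n : ℕ) : HasSum (fun j => f (j + (n + 1))) (rr f n) :=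
  (hasSum_nat_add_iff' (n + 1)).2 hs

lemma rr_nonneg (h : IsRen f u) (hs : HasSum f 1) (n : ℕ) : 0 ≤ rr f n :=
  (rr_tail hs n).nonneg fun _ => h.1 _

lemma rr_zero (h : IsRen f u) : rr f 0 = 1 := by simp [rr, h.2.1]

lemma rr_succ (n : ℕ) : rr f (n + 1) = rr f n - f (n + 1) := by
  simp only [rr, sum_range_succ _ (n + 1)]; ring

lemma rr_anti (h : IsRen f u) : Antitone (rr f) :=
  antitone_nat_of_succ_le fun n => by rw [rr_succ]; linarith [h.1 (n + 1)]

lemma rr_le_one (h : IsRen f u) (n : ℕ) : rr f n ≤ 1 := by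
  rw [← rr_zero h]; exact rr_anti h (Nat.zero_le n)

lemma mm_mono (h : IsRen f u) (hs : HasSum f 1) : Monotone (mm f) :=
  monotone_nat_of_le_succ fun n => by
    simp only [mm, sum_range_succ _ (n + 1)]; linarith [rr_nonneg h hs (n + 1)]

lemma one_le_mm (h : IsRen f u) (hs : HasSum f 1) (n : ℕ) : 1 ≤ mm f n := by
  have : mm f 0 = 1 := by simp [mm, rr_zero h]
  rw [← this]; exact mm_mono h hs (Nat.zero_le n)

lemma u_zero (h : IsRen f u) : u 0 = 1 := by
  have := h.2.2 0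
  simpa [h.2.1] using this

lemma u_bounds (h : IsRen f u) (hs : HasSum f 1) (n : ℕ) : 0 ≤ u n ∧ u n ≤ 1 := by
  induction n using Nat.strong_induction_on with
  | _ n ih =>
    rcases Nat.eq_zero_or_pos n with rfl | hn
    · simp [u_zero h]
    · have e := h.2.2 n
      rw [if_neg hn.ne', zero_add] at e
      have key : ∀ p ∈ antidiagonal n, 0 ≤ f p.1 * u p.2 ∧ f p.1 * u p.2 ≤ f p.1 := by
        intro p hp
        rw [HasAntidiagonal.mem_antidiagonal] at hp
        rcases Nat.eq_zero_or_pos p.1 with h0 | h0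
        · simp [h0, h.2.1]
        · have := ih p.2 (by omega)
          exact ⟨mul_nonneg (h.1 _) this.1, by nlinarith [h.1 p.1, this.2]⟩
      rw [e]
      refine ⟨sum_nonneg fun p hp => (key p hp).1, ?_⟩
      refine (sum_le_sum fun p hp => (key p hp).2).trans ?_
      rw [Finset.Nat.sum_antidiagonal_eq_sum_range_succ (fun i _ => f i)]
      exact sum_le_hasSum _ (fun i _ => h.1 i) hs

open PowerSeries in
lemma ps_U (h : IsRen f u) : (PowerSeries.mk u : PowerSeries ℝ) = 1 + PowerSeries.mk f * PowerSeries.mk u := by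
  ext n
  rw [map_add, coeff_mul, coeff_one, coeff_mk, h.2.2 n]
  simp only [coeff_mk]

open PowerSeries in
lemma ps_R (h : IsRen f u) : (PowerSeries.mk (rr f) : PowerSeries ℝ) * (1 - X) = 1 - PowerSeries.mk f := by
  ext n
  rw [mul_sub, mul_one, map_sub, map_sub]
  cases n with
  | zero => simp [rr_zero h, h.2.1]
  | succ n => rw [coeff_succ_mul_X]; simp [rr_succ, coeff_one]

open PowerSeries in
lemma ps_DR (h : IsRen f u) : (PowerSeries.mk u * (1 - X) : PowerSeries ℝ) * PowerSeries.mk (rr f) = 1 := by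
  have h1 := ps_U h
  have h2 := ps_R h
  calc (PowerSeries.mk u * (1 - X) : PowerSeries ℝ) * PowerSeries.mk (rr f) = PowerSeries.mk u * (PowerSeries.mk (rr f) * (1 - X)) := by ring
    _ = PowerSeries.mk u - PowerSeries.mk f * PowerSeries.mk u := by rw [h2]; ring
    _ = 1 := by nth_rewrite 1 [h1]; ring

open PowerSeries in
lemma conv_one (h : IsRen f u) (n : ℕ) : ∑ j ∈ range (n + 1), rr f j * u (n - j) = 1 := by
  have h1 := ps_DR h
  have h2 := mk_one_mul_one_sub_eq_one ℝ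
  have h3 : (PowerSeries.mk (rr f) : PowerSeries ℝ) * PowerSeries.mk u = PowerSeries.mk 1 := by
    calc (PowerSeries.mk (rr f) : PowerSeries ℝ) * PowerSeries.mk u = PowerSeries.mk (rr f) * PowerSeries.mk u * (PowerSeries.mk 1 * (1 - X)) := by
          rw [h2, mul_one]
      _ = PowerSeries.mk 1 * ((PowerSeries.mk u * (1 - X)) * PowerSeries.mk (rr f)) := by ring
      _ = PowerSeries.mk 1 := by rw [h1, mul_one]
  have h4 := congrArg (coeff n) h3
  rw [coeff_mul] at h4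
  simp only [coeff_mk, Pi.one_apply] at h4
  rw [← h4, Finset.Nat.sum_antidiagonal_eq_sum_range_succ (fun i j => rr f i * u j)]

/-- Weighted increments. -/
def xx (u : ℕ → ℝ) (n : ℕ) : ℝ := (u (n + 1) - u n) * ((n : ℝ) + 1)

/-- Weighted tails. -/
def yy (f : ℕ → ℝ) (n : ℕ) : ℝ := rr f (n + 1) * ((n : ℝ) + 1)

open PowerSeries in
lemma ps_deriv (h : IsRen f u) :
    (PowerSeries.mk (xx u) : PowerSeries ℝ) * PowerSeries.mk (rr f) * PowerSeries.mk (rr f) = -PowerSeries.mk (yy f) := by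
  have h1 := ps_DR h
  have h2 := congrArg (derivative ℝ) h1
  rw [Derivation.leibniz, Derivation.map_one_eq_zero] at h2
  have e1 : derivative ℝ (PowerSeries.mk u * (1 - X) : PowerSeries ℝ) = PowerSeries.mk (xx u) := by
    ext n
    rw [coeff_derivative, mul_sub, mul_one, map_sub, coeff_succ_mul_X]
    simp [xx]
  have e2 : derivative ℝ (PowerSeries.mk (rr f) : PowerSeries ℝ) = PowerSeries.mk (yy f) := by
    ext n
    rw [coeff_derivative]
    simp [yy]
  rw [e1, e2, smul_eq_mul, smul_eq_mul] at h2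
  have h3 := congrArg (· * (PowerSeries.mk (rr f) : PowerSeries ℝ)) h2
  simp only [zero_mul] at h3
  have : (PowerSeries.mk u * (1 - X) * PowerSeries.mk (yy f) + PowerSeries.mk (rr f) * PowerSeries.mk (xx u)) * (PowerSeries.mk (rr f) : PowerSeries ℝ) =
      (PowerSeries.mk u * (1 - X) * PowerSeries.mk (rr f)) * PowerSeries.mk (yy f) + PowerSeries.mk (xx u) * PowerSeries.mk (rr f) * PowerSeries.mk (rr f) := by ring
  rw [this, h1, one_mul] at h3
  exact eq_neg_of_add_eq_zero_right h3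

/-- Absolute convergence at `z`. -/
def Sm (A : PowerSeries ℝ) (z : ℂ) : Prop :=
  Summable fun n => ‖((PowerSeries.coeff n A : ℝ) : ℂ) * z ^ n‖

/-- Value at `z`. -/
def ev (A : PowerSeries ℝ) (z : ℂ) : ℂ := ∑' n, ((PowerSeries.coeff n A : ℝ) : ℂ) * z ^ n

lemma ev_mul {A B : PowerSeries ℝ} {z : ℂ} (hA : Sm A z) (hB : Sm B z) :
    Sm (A * B) z ∧ ev (A * B) z = ev A z * ev B z := by
  have e : ∀ n, ((PowerSeries.coeff n (A * B) : ℝ) : ℂ) * z ^ n =
      ∑ p ∈ antidiagonal n, (((PowerSeries.coeff p.1 A : ℝ) : ℂ) * z ^ p.1) *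
        (((PowerSeries.coeff p.2 B : ℝ) : ℂ) * z ^ p.2) := by
    intro n
    rw [PowerSeries.coeff_mul]
    push_cast
    rw [sum_mul]
    refine sum_congr rfl fun p hp => ?_
    rw [HasAntidiagonal.mem_antidiagonal] at hp
    rw [← hp, pow_add]; ring
  have k1 := summable_norm_sum_mul_antidiagonal_of_summable_norm
    (f := fun n => ((PowerSeries.coeff n A : ℝ) : ℂ) * z ^ n)
    (g := fun n => ((PowerSeries.coeff n B : ℝ) : ℂ) * z ^ n) hA hB
  have k2 := tsum_mul_tsum_eq_tsum_sum_antidiagonal_of_summable_norm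
    (f := fun n => ((PowerSeries.coeff n A : ℝ) : ℂ) * z ^ n)
    (g := fun n => ((PowerSeries.coeff n B : ℝ) : ℂ) * z ^ n) hA hB
  simp only [← e] at k1 k2
  exact ⟨k1, k2.symm⟩

lemma summ_of_bound {a : ℕ → ℝ} {z : ℂ} (hz : ‖z‖ < 1) (ha : ∀ n, |a n| ≤ (n : ℝ) + 1) :
    Summable fun n => ‖((a n : ℝ) : ℂ) * z ^ n‖ := by
  have h1 : Summable fun n : ℕ => (n : ℝ) ^ 1 * ‖z‖ ^ n :=
    summable_pow_mul_geometric_of_norm_lt_one 1 (by simpa using hz)
  have h2 : Summable fun n : ℕ => ‖z‖ ^ n := summable_geometric_of_lt_one (norm_nonneg _) hz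
  refine Summable.of_nonneg_of_le (fun _ => norm_nonneg _) (fun n => ?_) (h1.add h2)
  rw [norm_mul, norm_pow, Complex.norm_real, Real.norm_eq_abs]
  have : 0 ≤ ‖z‖ ^ n := by positivity
  nlinarith [ha n]

lemma sm_mk {a : ℕ → ℝ} {z : ℂ} (hz : ‖z‖ < 1) (ha : ∀ n, |a n| ≤ (n : ℝ) + 1) :
    Sm (PowerSeries.mk a) z := by
  unfold Sm
  simp only [PowerSeries.coeff_mk]
  exact summ_of_bound hz ha

lemma abs_rr_le (h : IsRen f u) (hs : HasSum f 1) (n : ℕ) : |rr f n| ≤ (n : ℝ) + 1 := by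
  rw [abs_of_nonneg (rr_nonneg h hs n)]
  have : (0 : ℝ) ≤ n := n.cast_nonneg
  linarith [rr_le_one h n]

lemma abs_f_le (h : IsRen f u) (hs : HasSum f 1) (n : ℕ) : |f n| ≤ (n : ℝ) + 1 := by
  rw [abs_of_nonneg (h.1 n)]
  have : (0 : ℝ) ≤ n := n.cast_nonneg
  linarith [le_hasSum hs n fun j _ => h.1 j]

lemma abs_xx_le (h : IsRen f u) (hs : HasSum f 1) (n : ℕ) : |xx u n| ≤ (n : ℝ) + 1 := by
  have h1 := u_bounds h hs n
  have h2 := u_bounds h hs (n + 1)
  have : (0 : ℝ) ≤ (n : ℝ) + 1 := by positivity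
  rw [xx, abs_mul, abs_of_nonneg this]
  have : |u (n + 1) - u n| ≤ 1 := abs_le.2 ⟨by linarith, by linarith⟩
  nlinarith

lemma abs_yy_le (h : IsRen f u) (hs : HasSum f 1) (n : ℕ) : |yy f n| ≤ (n : ℝ) + 1 := by
  have : (0 : ℝ) ≤ (n : ℝ) + 1 := by positivity
  rw [yy, abs_mul, abs_of_nonneg this, abs_of_nonneg (rr_nonneg h hs _)]
  nlinarith [rr_le_one h (n + 1)]

lemma fin_id (h : IsRen f u) (z : ℂ) (N : ℕ) :
    (1 - z) * ∑ j ∈ range (N + 1), ((rr f j : ℝ) : ℂ) * z ^ j =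
      1 - ∑ j ∈ range (N + 1), ((f j : ℝ) : ℂ) * z ^ j - ((rr f N : ℝ) : ℂ) * z ^ (N + 1) := by
  induction N with
  | zero => simp [rr_zero h, h.2.1]
  | succ N ih =>
    rw [sum_range_succ _ (N + 1), sum_range_succ _ (N + 1), mul_add, ih, rr_succ]
    push_cast
    ring

lemma full_id (h : IsRen f u) (hs : HasSum f 1) {z : ℂ} (hz : ‖z‖ < 1) :
    (1 - z) * ∑' j, ((rr f j : ℝ) : ℂ) * z ^ j = 1 - ∑' j, ((f j : ℝ) : ℂ) * z ^ j := by
  have h1 := (summ_of_bound hz (abs_rr_le h hs)).of_norm.hasSum.tendsto_sum_nat.comp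
    (tendsto_add_atTop_nat 1)
  have h2 := (summ_of_bound hz (abs_f_le h hs)).of_norm.hasSum.tendsto_sum_nat.comp
    (tendsto_add_atTop_nat 1)
  have h3 : Tendsto (fun N : ℕ => ((rr f N : ℝ) : ℂ) * z ^ (N + 1)) atTop (𝓝 0) := by
    have h4 := ((summ_of_bound hz (abs_rr_le h hs)).of_norm.tendsto_atTop_zero).mul_const z
    simpa [pow_succ, mul_assoc] using h4
  have h5 := (h1.const_mul (1 - z))
  have h6 := (h2.const_sub 1).sub h3
  simp only [Function.comp_def, fin_id h] at h5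
  simp only [Function.comp_def, sub_zero] at h6
  exact tendsto_nhds_unique h5 h6

lemma far_bound (h : IsRen f u) (hs : HasSum f 1) {z : ℂ} (hz : ‖z‖ < 1) :
    f 1 * ‖1 - z‖ / 2 ≤ ‖∑' j, ((rr f j : ℝ) : ℂ) * z ^ j‖ := by
  have hF := (summ_of_bound hz (abs_f_le h hs)).of_norm.hasSum
  have hre := Complex.hasSum_re hF
  have h1 := hs.sub hre
  have hterm : ∀ j, 0 ≤ f j - (((f j : ℝ) : ℂ) * z ^ j).re := by
    intro j
    rw [Complex.re_ofReal_mul]
    have : (z ^ j).re ≤ 1 := by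
      refine (Complex.re_le_norm _).trans ?_
      rw [norm_pow]; exact pow_le_one₀ (norm_nonneg _) hz.le
    nlinarith [h.1 j]
  have h2 := le_hasSum h1 1 fun j _ => hterm j
  rw [Complex.re_ofReal_mul, pow_one] at h2
  have h3 : 1 - (∑' j, ((f j : ℝ) : ℂ) * z ^ j).re ≤
      ‖1 - z‖ * ‖∑' j, ((rr f j : ℝ) : ℂ) * z ^ j‖ := by
    rw [← norm_mul, full_id h hs hz]
    refine le_trans (le_of_eq ?_) (Complex.re_le_norm _)
    simp
  have h4 : ‖1 - z‖ ^ 2 ≤ 2 * (1 - z.re) := by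
    have h5 : ‖z‖ ^ 2 ≤ 1 := pow_le_one₀ (norm_nonneg _) hz.le
    rw [Complex.sq_norm, Complex.normSq_apply] at h5 ⊢
    simp only [Complex.sub_re, Complex.one_re, Complex.sub_im, Complex.one_im]
    nlinarith
  have h6 : 0 < ‖1 - z‖ := by
    rw [norm_pos_iff, sub_ne_zero]
    rintro rfl
    simp at hz
  have h7 := h.1 1
  have h8 : ‖1 - z‖ * (f 1 * ‖1 - z‖ / 2) ≤ ‖1 - z‖ * ‖∑' j, ((rr f j : ℝ) : ℂ) * z ^ j‖ := by
    nlinarith
  exact le_of_mul_le_mul_left h8 h6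

lemma norm_one_sub_pow_le {z : ℂ} (hz : ‖z‖ ≤ 1) (j : ℕ) : ‖1 - z ^ j‖ ≤ j * ‖1 - z‖ := by
  induction j with
  | zero => simp
  | succ j ih =>
    have e : 1 - z ^ (j + 1) = (1 - z ^ j) + z ^ j * (1 - z) := by ring
    rw [e]
    refine (norm_add_le _ _).trans ?_
    rw [norm_mul, norm_pow]
    have : ‖z‖ ^ j ≤ 1 := pow_le_one₀ (norm_nonneg _) hz
    push_cast
    nlinarith [norm_nonneg (1 - z)]

lemma near_bound (h : IsRen f u) (hs : HasSum f 1) {z : ℂ} (hz : ‖z‖ < 1) (N : ℕ)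
    (h1 : (N : ℝ) * ‖1 - z‖ ≤ 1 / 2) (h2 : 1 / 2 ≤ ((N : ℝ) + 1) * ‖1 - z‖) :
    mm f N / 2 - 4 * (((N : ℝ) + 1) * rr f N) ≤ ‖∑' j, ((rr f j : ℝ) : ℂ) * z ^ j‖ := by
  set R := ∑' j, ((rr f j : ℝ) : ℂ) * z ^ j with hR
  set RN := ∑ j ∈ range (N + 1), ((rr f j : ℝ) : ℂ) * z ^ j with hRN
  have a1 : mm f N / 2 ≤ ‖RN‖ := by
    refine le_trans ?_ (Complex.re_le_norm _)
    rw [hRN, Complex.re_sum, mm, sum_div]
    refine sum_le_sum fun j hj => ?_
    rw [Complex.re_ofReal_mul]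
    have hj' : (j : ℝ) ≤ N := by exact_mod_cast Nat.lt_succ_iff.1 (mem_range.1 hj)
    have b1 := norm_one_sub_pow_le hz.le j
    have b2 : (1 - z ^ j).re ≤ ‖1 - z ^ j‖ := Complex.re_le_norm _
    simp only [Complex.sub_re, Complex.one_re] at b2
    have b3 : (j : ℝ) * ‖1 - z‖ ≤ N * ‖1 - z‖ := mul_le_mul_of_nonneg_right hj' (norm_nonneg _)
    have b4 : 1 / 2 ≤ (z ^ j).re := by linarith
    nlinarith [rr_nonneg h hs j]
  have hF := (summ_of_bound hz (abs_f_le h hs)).of_norm.hasSum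
  have hFt := (hasSum_nat_add_iff' (N + 1)).2 hF
  have a2 : ‖∑' j, ((f j : ℝ) : ℂ) * z ^ j - ∑ j ∈ range (N + 1), ((f j : ℝ) : ℂ) * z ^ j‖ ≤
      rr f N := by
    refine hFt.norm_le_of_bounded (rr_tail hs N) fun j => ?_
    rw [norm_mul, norm_pow, Complex.norm_real, Real.norm_eq_abs, abs_of_nonneg (h.1 _)]
    have : ‖z‖ ^ (j + (N + 1)) ≤ 1 := pow_le_one₀ (norm_nonneg _) hz.le
    nlinarith [h.1 (j + (N + 1))]
  have a3 : ‖((rr f N : ℝ) : ℂ) * z ^ (N + 1)‖ ≤ rr f N := by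
    rw [norm_mul, norm_pow, Complex.norm_real, Real.norm_eq_abs,
      abs_of_nonneg (rr_nonneg h hs _)]
    have : ‖z‖ ^ (N + 1) ≤ 1 := pow_le_one₀ (norm_nonneg _) hz.le
    nlinarith [rr_nonneg h hs N]
  have a4 : (1 - z) * (R - RN) = ((rr f N : ℝ) : ℂ) * z ^ (N + 1) -
      (∑' j, ((f j : ℝ) : ℂ) * z ^ j - ∑ j ∈ range (N + 1), ((f j : ℝ) : ℂ) * z ^ j) := by
    rw [mul_sub, hR, hRN, full_id h hs hz, fin_id h]; ring
  have a5 : ‖1 - z‖ * ‖R - RN‖ ≤ 2 * rr f N := by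
    rw [← norm_mul, a4]
    linarith [norm_sub_le (((rr f N : ℝ) : ℂ) * z ^ (N + 1))
      (∑' j, ((f j : ℝ) : ℂ) * z ^ j - ∑ j ∈ range (N + 1), ((f j : ℝ) : ℂ) * z ^ j)]
  have a6 : ‖R - RN‖ ≤ 4 * (((N : ℝ) + 1) * rr f N) := by
    have c1 : (0 : ℝ) ≤ (N : ℝ) + 1 := by positivity
    have c2 := mul_le_mul_of_nonneg_left a5 c1
    nlinarith [norm_nonneg (R - RN)]
  have a7 : ‖RN‖ ≤ ‖R‖ + ‖R - RN‖ := by
    have : RN = R - (R - RN) := by ring
    calc ‖RN‖ = ‖R - (R - RN)‖ := by rw [← this]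
      _ ≤ _ := norm_sub_le _ _
  linarith

lemma lower_bound (h : IsRen f u) (hs : HasSum f 1) (hf : 0 < f 1)
    (H : Tendsto (fun n : ℕ => ((n : ℝ) + 1) * rr f n / mm f n) atTop (𝓝 0)) :
    ∃ c : ℝ, 0 < c ∧ ∀ z : ℂ, ‖z‖ < 1 → c ≤ ‖∑' j, ((rr f j : ℝ) : ℂ) * z ^ j‖ := by
  obtain ⟨N0, hN0⟩ := eventually_atTop.1 (H.eventually (gt_mem_nhds (show (0 : ℝ) < 1 / 16 by norm_num)))
  refine ⟨min (1 / 4) (f 1 * (1 / (2 * ((N0 : ℝ) + 1))) / 2), by positivity, fun z hz => ?_⟩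
  have h6 : 0 < ‖1 - z‖ := by
    rw [norm_pos_iff, sub_ne_zero]
    rintro rfl
    simp at hz
  by_cases hc : 1 / (2 * ((N0 : ℝ) + 1)) ≤ ‖1 - z‖
  · refine (min_le_right _ _).trans (le_trans ?_ (far_bound h hs hz))
    gcongr
  · push Not at hc
    refine (min_le_left _ _).trans ?_
    set N := ⌊1 / (2 * ‖1 - z‖)⌋₊ with hN
    have b1 : (N : ℝ) ≤ 1 / (2 * ‖1 - z‖) := Nat.floor_le (by positivity)
    have b2 : 1 / (2 * ‖1 - z‖) < (N : ℝ) + 1 := Nat.lt_floor_add_one _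
    rw [le_div_iff₀ (by positivity)] at b1
    rw [div_lt_iff₀ (by positivity)] at b2
    have b3 : N0 ≤ N := by
      rw [hN]
      apply Nat.le_floor
      rw [le_div_iff₀ (by positivity)]
      rw [lt_div_iff₀ (by positivity)] at hc
      nlinarith
    have b4 := hN0 N b3
    have b5 := one_le_mm h hs N
    rw [div_lt_iff₀ (by linarith)] at b4
    have b6 := near_bound h hs hz N (by linarith) (by linarith)
    linarith

lemma sq_bound (h : IsRen f u) (hs : HasSum f 1) (hf : 0 < f 1)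
    (H : Tendsto (fun n : ℕ => ((n : ℝ) + 1) * rr f n / mm f n) atTop (𝓝 0)) :
    ∃ K : ℝ, 0 ≤ K ∧ ∀ t : ℝ, 0 ≤ t → t < 1 → Summable (fun n => yy f n ^ 2 * t ^ n) ∧
      ∀ N, ∑ n ∈ range N, xx u n ^ 2 * t ^ n ≤ K * ∑' n, yy f n ^ 2 * t ^ n := by
  obtain ⟨c, hc, hR⟩ := lower_bound h hs hf H
  refine ⟨(1 / c ^ 2) ^ 2, by positivity, fun t ht0 ht1 => ?_⟩
  set s := Real.sqrt t with hsdef
  have s0 : 0 ≤ s := Real.sqrt_nonneg _
  have s2 : s ^ 2 = t := Real.sq_sqrt ht0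
  have s1 : s < 1 := by nlinarith
  have hs' : ‖(s : ℂ)‖ < 1 := by rwa [Complex.norm_real, Real.norm_eq_abs, abs_of_nonneg s0]
  have e : ∀ (a : ℝ) (n : ℕ), ‖(a : ℂ) * (s : ℂ) ^ n‖ ^ 2 = a ^ 2 * t ^ n := by
    intro a n
    rw [norm_mul, norm_pow, Complex.norm_real, Complex.norm_real, Real.norm_eq_abs,
      Real.norm_eq_abs, abs_of_nonneg s0, mul_pow, sq_abs, ← pow_mul, mul_comm n 2, pow_mul, s2]
  have key := sq_le_of_circle (fun n => ((xx u n : ℝ) : ℂ) * (s : ℂ) ^ n)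
    (fun n => ((yy f n : ℝ) : ℂ) * (s : ℂ) ^ n) (1 / c ^ 2)
    (summ_of_bound hs' (abs_xx_le h hs)) (summ_of_bound hs' (abs_yy_le h hs)) (by
      intro w hw
      have hz : ‖(s : ℂ) * w‖ < 1 := by rwa [norm_mul, hw, mul_one]
      have m1 := ev_mul (sm_mk hz (abs_xx_le h hs)) (sm_mk hz (abs_rr_le h hs))
      have m2 := (ev_mul m1.1 (sm_mk hz (abs_rr_le h hs))).2
      rw [m1.2, ps_deriv h] at m2
      have m3 := congrArg norm m2
      simp only [ev, map_neg, PowerSeries.coeff_mk, Complex.ofReal_neg, neg_mul, tsum_neg,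
        norm_neg, norm_mul] at m3
      simp only [mul_assoc, ← mul_pow]
      rw [m3]
      have m4 := hR _ hz
      have m5 : c ^ 2 ≤ ‖∑' j, ((rr f j : ℝ) : ℂ) * ((s : ℂ) * w) ^ j‖ *
          ‖∑' j, ((rr f j : ℝ) : ℂ) * ((s : ℂ) * w) ^ j‖ := by nlinarith
      rw [one_div, ← div_eq_inv_mul, le_div_iff₀ (by positivity), mul_assoc]
      exact mul_le_mul_of_nonneg_left m5 (norm_nonneg _))
  simp only [e] at key
  exact ⟨key.2.1, fun N => (key.1.sum_le_tsum _ fun n _ => by positivity).trans key.2.2⟩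

end

end Pool.Agent.MP_48a2f9_mp.Ren2

end MrgPart4

-- marker of a merged file
example : 731051 + 86104 = 731051 + 86104 := rfl
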