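import Mathlib.Analysis.PSeries
import Mathlib.Topology.Separation.CompletelyRegular
import Pool.Agent.MP_48a2f9_mp.Ren2b
import Mathlib.Topology.Sheaves.Presheaf
import Mathlib.Algebra.Order.Ring.Star
import Mathlib.Algebra.Order.Star.Real
import Mathlib.RingTheory.PowerSeries.Inverse
import Mathlib.Analysis.SpecialFunctions.Trigonometric.Bounds
import Mathlib.RingTheory.PiTensorProduct
import Mathlib.RingTheory.PowerSeries.WellKnown
import Pool.Agent.MP_48a2f9_mp.SpecA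

-- ======== part 0: formerly Pool.Agent.MP_48a2f9_mp.OpM
section MrgPart0

-- ======== part 0: formerly Pool.Agent.MP_48a2f9_mp.OpH
section MrgPart0

/-!
Module Op, part H: the taboo kernel of the homogeneous walk.
-/

open Finset Filter Topology PowerSeries

namespace Pool.Agent.MP_48a2f9_mp.Op

noncomputable section
open Classical

variable {D : ℕ} {p : ℕ → Tr D → ℝ} {M : ℕ} {Cc ν : ℝ}

def gf (p : ℕ → Tr D → ℝ) (n : ℕ) (u : Tr D) : ℝ := ent (coeff n (1 + Gs (hk p))) 0 u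

lemma W_rec (h : KerOK (hk p) M Cc ν) {n : ℕ} (hn : 1 ≤ n) (x y : Tr D) :
    ent (coeff n (1 + Gs (hk p))) x y =
      ∑ l ∈ Ioc 0 n, ∑' w, p l (w - x) * ent (coeff (n - l) (1 + Gs (hk p))) w y := by
  have e : 1 + Gs (hk p) = 1 + kser (hk p) * (1 + Gs (hk p)) := by
    rw [mul_add, mul_one, ← Gs_eq h]
  conv_lhs => rw [e]
  rw [map_add, coeff_one, if_neg (by omega), zero_add, ent_coeff_mul_Ioc _ _ _ _ _ (cc_K h)]
  simp only [ent_K h, hk]

lemma W_zero (h : KerOK (hk p) M Cc ν) (x y : Tr D) :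
    ent (coeff 0 (1 + Gs (hk p))) x y = if x = y then 1 else 0 := by
  rw [coeff_zero_eq_constantCoeff_apply, map_add, map_one, Gs, res_cc (cc_K h), add_zero, ent_one]
  split_ifs <;> rfl

lemma trans_inv (h : KerOK (hk p) M Cc ν) (n : ℕ) :
    ∀ x y, ent (coeff n (1 + Gs (hk p))) x y = gf p n (y - x) := by
  induction n using Nat.strong_induction_on with
  | _ n ih =>
    intro x y
    rcases Nat.eq_zero_or_pos n with rfl | hn
    · rw [gf, W_zero h, W_zero h]
      by_cases e : x = y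
      · simp [e]
      · rw [if_neg e, if_neg fun a => e (sub_eq_zero.1 a.symm).symm]
    · rw [gf, W_rec h hn, W_rec h hn]
      refine sum_congr rfl fun l hl => ?_
      rw [mem_Ioc] at hl
      simp only [ih (n - l) (by omega)]
      rw [← (Equiv.addRight x).tsum_eq]
      refine tsum_congr fun w => ?_
      simp only [Equiv.coe_addRight, add_sub_cancel_right, sub_zero]
      congr 2; abel

lemma isG (h : KerOK (hk p) M Cc ν) : IsG p (gf p) := by
  refine ⟨fun u => ?_, fun n u hn => ?_⟩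
  · rw [gf, W_zero h]; simp only [eq_comm]
  · rw [gf, W_rec h hn]; simp only [trans_inv h, sub_zero]

lemma coeff_Us (p : ℕ → Tr D → ℝ) (h : KerOK (hk p) M Cc ν) (n : ℕ) :
    coeff n (Us (hk p)) = gf p n 0 := by
  rw [← sub_self (u0 D), ← trans_inv h, ← coeff_es, es_add, es_one, if_pos rfl, Us]

/-- The potential series. -/
def As (p : ℕ → Tr D → ℝ) (u : Tr D) : ℝ⟦X⟧ := Us (hk p) - es (Gs (hk p)) 0 u

lemma es_G_hom (h : KerOK (hk p) M Cc ν) (x y : Tr D) :
    es (Gs (hk p)) x y = Us (hk p) - As p (y - x) := by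
  rw [As, sub_sub_cancel]
  ext n
  have h1 := trans_inv h n x y
  rw [gf, map_add, ent_add, ent_add] at h1
  have h2 : ent (coeff n (1 : (Opr (Tr D))⟦X⟧)) x y =
      ent (coeff n (1 : (Opr (Tr D))⟦X⟧)) 0 (y - x) := by
    rw [← coeff_es, ← coeff_es, es_one, es_one]
    by_cases e : x = y
    · simp [e]
    · rw [if_neg e, if_neg fun a => e (sub_eq_zero.1 a.symm).symm]
  rw [coeff_es, coeff_es]; linarith

lemma As_zero (h : KerOK (hk p) M Cc ν) : As p 0 = 1 := by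
  have := es_G_hom h (u0 D) (u0 D)
  rw [sub_self, Us] at this
  linear_combination this

lemma coeff_As (h : KerOK (hk p) M Cc ν) (u : Tr D) (n : ℕ) :
    coeff n (As p u) = if n = 0 then 1 else gf p n 0 - gf p n u := by
  rw [As, map_sub, coeff_Us p h, coeff_es]
  split_ifs with hn
  · rw [hn, (isG h).1, if_pos rfl, coeff_zero_eq_constantCoeff_apply, Gs, res_cc (cc_K h)]
    simp
  · rw [gf, gf, map_add, coeff_one, if_neg hn, zero_add]

lemma es_X_hom (h : KerOK (hk p) M Cc ν) (x y : Tr D) :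
    es (Xs (hk p)) x y = As p (u0 D - x) + As p (y - u0 D) - As p (y - x) -
      As p (u0 D - x) * (1 - Fs (hk p)) * As p (y - u0 D) := by
  have h1 := es_G_left h x y
  have h2 := es_G_left h x (u0 D)
  have h3 := Us_eq h
  have h4 : es (Gs (hk p)) (u0 D) (u0 D) = Us (hk p) - 1 := by rw [Us]; ring
  rw [h4, es_G_hom h] at h2
  rw [es_G_hom h, es_G_hom h] at h1
  generalize Us (hk p) = U at *
  generalize Fs (hk p) = F at *
  generalize es (Xs (hk p)) x (u0 D) = Z at *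
  generalize As p (u0 D - x) = a at *
  generalize As p (y - u0 D) = b at *
  have h5 : Z = (U - a) * (1 - F) := by
    linear_combination (-(1 - F)) * h2 - Z * h3
  rw [h5] at h1
  linear_combination -h1 - (U - a - b) * h3

def rho (D : ℕ) : ℕ → ℝ := if D = 1 then rpw (3 / 2) else if D = 2 then rlg else rpw (D / 2)

lemma rho_one : rho 1 = rpw (3 / 2) := by simp [rho]

lemma rho_two : rho 2 = rlg := by simp [rho]

lemma rho_ge (h : 3 ≤ D) : rho D = rpw (D / 2) := by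
  rw [rho, if_neg (by omega), if_neg (by omega)]

lemma one_lt_half (h : 3 ≤ D) : (1 : ℝ) < D / 2 := by
  have : (3 : ℝ) ≤ D := by exact_mod_cast h
  linarith

lemma reg_rho (hS : SerStmt) (h : 1 ≤ D) : Reg (rho D) := by
  rcases (by omega : D = 1 ∨ D = 2 ∨ 3 ≤ D) with rfl | rfl | h3
  · rw [rho_one]; exact hS.1 _ (by norm_num)
  · rw [rho_two]; exact hS.2.1
  · rw [rho_ge h3]; exact hS.1 _ (one_lt_half h3)

lemma rho_small (h : 2 ≤ D) :
    Tendsto (fun n => rpw (D / 2 + 1) n / rho D n) atTop (𝓝 0) := by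
  rcases (by omega : D = 2 ∨ 3 ≤ D) with rfl | h3
  · rw [rho_two, show ((2 : ℕ) : ℝ) / 2 + 1 = 2 by norm_num]; exact rpw_two_div
  · rw [rho_ge h3]
    refine (rpw_tendsto one_pos).congr fun n => ?_
    have := (rpw_pos (D / 2) n).ne'
    rw [rpw_add]; field_simp

lemma rho_dom (hS : SerStmt) (h : 1 ≤ D) :
    ∃ κ, 0 ≤ κ ∧ ∀ n, rpw (D / 2 + 1) n ≤ κ * rho D n := by
  rcases (by omega : D = 1 ∨ 2 ≤ D) with rfl | h2
  · refine ⟨1, zero_le_one, fun n => ?_⟩
    rw [rho_one, one_mul, show ((1 : ℕ) : ℝ) / 2 + 1 = 3 / 2 by norm_num]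
  · obtain ⟨B, h0, hB⟩ := bdd_of_tendsto (reg_rho hS h).pos (rho_small h2)
    exact ⟨B, h0, fun n => (le_abs_self _).trans (hB n)⟩

lemma llt_lim {a c B : ℝ} {u : ℕ → ℝ} (h : ∀ n, |u n - c * rpw a n| ≤ B * rpw (a + 1) n) :
    Tendsto (fun n => u n / rpw a n) atTop (𝓝 c) := by
  rw [tendsto_iff_norm_sub_tendsto_zero]
  have := (rpw_tendsto one_pos).const_mul B
  rw [mul_zero] at this
  refine squeeze_zero (fun _ => norm_nonneg _) (fun n => ?_) this
  have a1 := rpw_pos a n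
  have e : u n / rpw a n - c = (u n - c * rpw a n) / rpw a n := by field_simp
  rw [e, Real.norm_eq_abs, abs_div, abs_of_pos a1, div_le_iff₀ a1]
  refine (h n).trans_eq ?_
  rw [rpw_add]; ring

lemma sumP_one_sub {F : ℝ⟦X⟧} (hF : L1 F) : SumP (1 - F) = 1 - SumP F := by
  have := sumP_add (l1_sub l1_one hF) hF
  rw [sub_add_cancel, ← map_one C, sumP_C, map_one] at this
  linarith

lemma weight_le (x y : Tr D) : 1 + ‖y - x‖ ^ 2 ≤ 2 * ((1 + ‖x‖ ^ 2) * (1 + ‖y‖ ^ 2)) := by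
  have h1 := norm_sub_le y x
  have h2 := norm_nonneg (y - x)
  have h3 : ‖y - x‖ ^ 2 ≤ (‖y‖ + ‖x‖) ^ 2 := pow_le_pow_left₀ h2 h1 2
  nlinarith [sq_nonneg (‖y‖ - ‖x‖), sq_nonneg (‖x‖ * ‖y‖)]

lemma weight_u0 (x : Tr D) : 1 + ‖u0 D - x‖ ^ 2 ≤ 4 * (1 + ‖x‖ ^ 2) := by
  have h1 := weight_le x (u0 D)
  have h2 : ‖u0 D‖ ^ 2 ≤ 1 := pow_le_one₀ (norm_nonneg _) norm_u0
  nlinarith [sq_nonneg ‖x‖]

lemma u0_ne (h : 1 ≤ D) : u0 D ≠ 0 := fun e => by
  have := congrFun e ⟨0, h⟩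
  simp [u0] at this

/-- Asymptotics of the weighted taboo kernel from those of `As` and `Fs`. -/
lemma hom_aux (hS : SerStmt) {ρ : ℕ → ℝ} (hρ : Reg ρ) (h : KerOK (hk p) M Cc ν) {θ B l : ℝ}
    (hθ : 0 < θ) (hB : 0 ≤ B) {LA : Tr D → ℝ} (hb : ∀ u, Bd ρ (As p u) (B * (1 + ‖u‖ ^ 2)))
    (hA : ∀ u, Lim ρ (As p u) (LA u)) (hF : Lim ρ (Fs (hk p)) l)
    (hne : l ≠ 0 ∨ (SumP (Fs (hk p)) = 1 ∧ LA (u0 D) + LA (-u0 D) ≠ 0)) :
    ∃ LP, Lim ρ (til θ (Xs (hk p))) LP ∧ LP ≠ 0 := by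
  obtain ⟨κ, hκ, hm⟩ := bd_mul hρ
  have hF1 := lim_sub lim_one hF
  obtain ⟨β, hβ, hFb⟩ := bd_of_lim hρ.pos hF1
  obtain ⟨L, hL⟩ : ∃ L : Tr D → Tr D → ℝ, L = fun x y => LA (u0 D - x) + LA (y - u0 D) - LA (y - x) -
    ((LA (u0 D - x) * SumP (1 - Fs (hk p)) + SumP (As p (u0 D - x)) * (0 - l)) *
      SumP (As p (y - u0 D)) + SumP (As p (u0 D - x) * (1 - Fs (hk p))) * LA (y - u0 D)) :=
    ⟨_, rfl⟩
  have hl : ∀ x y, Lim ρ (es (Xs (hk p)) x y) (L x y) := fun x y => by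
    rw [es_X_hom h, hL]
    exact lim_sub (lim_sub (lim_add (hA _) (hA _)) (hA _))
      (lim_mul hS hρ (lim_mul hS hρ (hA _) hF1) (hA _))
  obtain ⟨B2, hB2⟩ : ∃ B2, B2 = 10 * B + 16 * (κ * κ * β * B * B) := ⟨_, rfl⟩
  have hB20 : 0 ≤ B2 := by rw [hB2]; positivity
  have hx : ∀ x y, Bd ρ (es (Xs (hk p)) x y) (B2 * ((1 + ‖x‖ ^ 2) * (1 + ‖y‖ ^ 2))) := fun x y => by
    rw [es_X_hom h]
    have a1 := (hb (u0 D - x)).mono hρ.pos (mul_le_mul_of_nonneg_left (weight_u0 x) hB)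
    have a0 := weight_u0 y
    rw [norm_sub_rev] at a0
    have a2 := (hb (y - u0 D)).mono hρ.pos (mul_le_mul_of_nonneg_left a0 hB)
    clear a0
    have a3 := (hb (y - x)).mono hρ.pos (mul_le_mul_of_nonneg_left (weight_le x y) hB)
    have a4 := hm _ _ _ _ (by positivity) (by positivity)
      (hm _ _ _ _ (by positivity) hβ a1 hFb) a2
    refine (((a1.add a2).sub a3).sub a4).mono hρ.pos ?_
    have b1 : 1 ≤ 1 + ‖x‖ ^ 2 := by nlinarith [sq_nonneg ‖x‖]
    have b2 : 1 ≤ 1 + ‖y‖ ^ 2 := by nlinarith [sq_nonneg ‖y‖]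
    generalize 1 + ‖x‖ ^ 2 = s at *
    generalize 1 + ‖y‖ ^ 2 = t at *
    have b3 : B * s ≤ B * (s * t) := mul_le_mul_of_nonneg_left (by nlinarith) hB
    have b4 : B * t ≤ B * (s * t) := mul_le_mul_of_nonneg_left (by nlinarith) hB
    rw [hB2]; linarith
  have hw : ∀ x y, es (til θ (Xs (hk p))) x y =
      C (wt θ x) * es (Xs (hk p)) x y * C (wt θ y) := fun x y => by
    rw [til, Mm, es_mul_dg (bdd_wt hθ.le), es_dg_mul (bdd_wt hθ.le)]
  obtain ⟨T, hT, hTe⟩ := op_lim hρ.pos (S := til θ (Xs (hk p)))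
    ((summable_poly_wt hθ).mul_left (√B2))
    (fun x => (mul_nonneg (Real.sqrt_nonneg _) (mul_pos (by positivity) (wt_pos θ x)).le))
    (L := fun x y => wt θ x * L x y * wt θ y) (fun x y n => by
      rw [hw, coeff_mul_C, coeff_C_mul, abs_mul, abs_mul, abs_of_pos (wt_pos θ x),
        abs_of_pos (wt_pos θ y)]
      have := mul_le_mul_of_nonneg_right (mul_le_mul_of_nonneg_left (hx x y n) (wt_pos θ x).le)
        (wt_pos θ y).le
      refine this.trans_eq ?_
      conv_lhs => rw [← Real.mul_self_sqrt hB20]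
      ring)
    (fun x y => by rw [hw]; exact lim_mul_C _ (lim_C_mul _ (hl x y)))
  refine ⟨T, hT, fun h0 => ?_⟩
  have hz : ∀ x y, L x y = 0 := fun x y => by
    have := hTe x y
    rw [h0, ent_zero] at this
    have a1 := wt_pos θ x
    have a2 := wt_pos θ y
    rcases mul_eq_zero.1 this.symm with a | a
    · exact (mul_eq_zero.1 a).resolve_left a1.ne'
    · exact (a2.ne' a).elim
  have hl0 : l = 0 := by rw [← hz (u0 D) (u0 D)]; exact lim_unique hF (hl _ _)
  rcases hne with a | ⟨a, b⟩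
  · exact a hl0
  · have lF := lim_l1 hS hρ hF
    have c1 : SumP (1 - Fs (hk p)) = 0 := by rw [sumP_one_sub lF, a, sub_self]
    have c2 : LA 0 = 0 := by
      have := hA 0
      rw [As_zero h] at this
      exact lim_unique this lim_one
    have := hz 0 0
    rw [hL] at this
    simp only [sub_zero, zero_sub, sub_self] at this
    rw [sumP_mul hS (lim_l1 hS hρ (hA _)) (lim_l1 hS hρ hF1), c1, c2, hl0] at this
    apply b
    linarith

lemma l1_of_nonneg {F : ℝ⟦X⟧} (h0 : ∀ n, 0 ≤ coeff n F) (h : Summable fun n => coeff n F) :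
    L1 F := h.congr fun n => (Real.norm_of_nonneg (h0 n)).symm

theorem hom_main (hS : SerStmt) (h0 : T0Stmt) (h1 : T1Stmt) (h2 : T2Stmt) (hL : LLTStmt)
    (hD : 1 ≤ D) (hν : 0 < ν) (h : HomOK p M Cc ν) (hm : Mass p) {θ : ℝ} (hθ : 0 < θ) :
    (∃ LP, Lim (rho D) (til θ (Xs (hk p))) LP ∧ LP ≠ 0) ∧
      ∃ c, 0 < c ∧ Tendsto (fun n => coeff n (Us (hk p)) / rpw (D / 2) n) atTop (𝓝 c) := by
  obtain ⟨c, C', ε, hc, -, b1, b2, -, b4⟩ := hL D p (gf p) M Cc ν hD hν h hm (isG h.ker)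
  have hk' := h.ker
  have hρ := reg_rho hS hD
  have b0 : ∀ n, |coeff n (Us (hk p)) - c * rpw (D / 2) n| ≤ C' * rpw (D / 2 + 1) n := fun n => by
    simpa [coeff_Us p hk'] using b1 n 0
  have hU := llt_lim b0
  refine ⟨?_, c, hc, hU⟩
  have hC' : 0 ≤ C' := by
    have := (abs_nonneg _).trans (b0 0)
    simpa [rpw] using this
  have hA : ∀ u n, |coeff n (As p u)| ≤ (2 * C' + 1) * (1 + ‖u‖ ^ 2) * rpw (D / 2 + 1) n :=
    fun u n => by
      have a1 : 0 ≤ ‖u‖ ^ 2 := by positivity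
      rw [coeff_As hk']
      split_ifs with hn
      · rw [hn]; simp only [rpw, Nat.cast_zero, zero_add, Real.one_rpow, abs_one]; nlinarith
      · have a2 := b1 n 0
        have a3 := b1 n u
        have a4 := rpw_pos (D / 2 + 1) n
        have a5 := abs_sub (gf p n 0 - c * rpw (D / 2) n) (gf p n u - c * rpw (D / 2) n)
        rw [sub_sub_sub_cancel_right] at a5
        simp only [norm_zero] at a2
        nlinarith [mul_nonneg a1 a4.le, mul_nonneg hC' (mul_nonneg a1 a4.le)]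
  obtain ⟨κ, hκ, hd⟩ := rho_dom hS hD
  have hb : ∀ u, Bd (rho D) (As p u) (κ * (2 * C' + 1) * (1 + ‖u‖ ^ 2)) := fun u n => by
    refine (hA u n).trans ((mul_le_mul_of_nonneg_left (hd n) (by positivity)).trans_eq ?_)
    ring
  have hz : 2 ≤ D → ∀ u, Lim (rho D) (As p u) 0 := fun h2 u => by
    have := (rho_small h2).const_mul ((2 * C' + 1) * (1 + ‖u‖ ^ 2))
    rw [mul_zero] at this
    refine lim_iff.2 (squeeze_zero_norm (fun n => ?_) this)
    rw [Real.norm_eq_abs, abs_div, abs_of_pos (hρ.pos n), ← mul_div_assoc]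
    exact div_le_div_of_nonneg_right (hA u n) (hρ.pos n).le
  have hR := isRen hk'
  rcases (by omega : D = 1 ∨ D = 2 ∨ 3 ≤ D) with rfl | rfl | h3
  · obtain ⟨⟨c', hc', e1⟩, ⟨γ, e2⟩, e3⟩ := b4 rfl
    obtain ⟨s1, l, s2⟩ := h1 _ _ c γ C' hR hc (by simpa using hU)
      (by simpa only [coeff_Us p hk'] using e2) (by simpa only [coeff_Us p hk'] using e3)
    refine hom_aux hS hρ hk' hθ (by positivity) hb (LA := fun u => c' * ‖u‖ ^ 2) (l := l)
      (fun u => ?_) (by rw [rho_one]; exact lim_iff.2 s2) (Or.inr ⟨s1.tsum_eq, ?_⟩)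
    · rw [rho_one, lim_iff]
      refine (e1 u).congr' ?_
      filter_upwards [eventually_ge_atTop 1] with n hn
      rw [coeff_As hk', if_neg (by omega)]
    · have : 0 < ‖u0 1‖ := norm_pos_iff.2 (u0_ne le_rfl)
      rw [norm_neg]
      positivity
  · obtain ⟨-, s2⟩ := h2 _ _ c C' hR hc fun n => by
      have := b0 n
      rwa [show ((2 : ℕ) : ℝ) / 2 + 1 = 2 by norm_num, show ((2 : ℕ) : ℝ) / 2 = 1 by norm_num]
        at this
    exact hom_aux hS hρ hk' hθ (by positivity) hb (hz le_rfl) (l := 1 / c)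
      (by rw [rho_two]; exact lim_iff.2 s2) (Or.inl (by positivity))
  · have hU' : Lim (rho D) (Us (hk p)) c := by rw [rho_ge h3]; exact lim_iff.2 hU
    obtain ⟨s1, -, s3⟩ := h0 _ _ C' 0 hR fun n => by
      have := (b2 n 0).trans (mul_le_mul_of_nonneg_left (rpw_le_one (by positivity) n) hC')
      simpa [coeff_Us p hk'] using this
    have s4 := s3.1 (Summable.of_norm (lim_l1 hS hρ hU'))
    have lF : L1 (Fs (hk p)) := l1_of_nonneg hR.1 s1
    have e := Us_eq hk'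
    have := lim_neg (lim_thmA hS hρ (t := 1 - Us (hk p)) (z := -Fs (hk p))
      (by linear_combination e) (by linear_combination e) (l1_neg lF) (lim_sub lim_one hU'))
    rw [neg_neg] at this
    refine hom_aux hS hρ hk' hθ (by positivity) hb (hz (by omega)) this (Or.inl ?_)
    have e2 : SumP (-Fs (hk p)) = -∑' n, coeff n (Fs (hk p)) := by
      simp [SumP, tsum_neg]
    rw [e2]
    have : 0 < 1 + -∑' n, coeff n (Fs (hk p)) := by linarith
    simp only [zero_sub, mul_neg, neg_mul, neg_neg]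
    positivity

end

end Pool.Agent.MP_48a2f9_mp.Op

end MrgPart0

-- ======== part 1: formerly Pool.Agent.MP_48a2f9_mp.OpP
section MrgPart1

/-!
Module Op, part P: the taboo kernel of the perturbed walk.
-/

open Finset Filter Topology PowerSeries

namespace Pool.Agent.MP_48a2f9_mp.Op

noncomputable section
open Classical

variable {D : ℕ} {p : ℕ → Tr D → ℝ} {K G : ℕ → Tr D → Tr D → ℝ} {M : ℕ} {Cc ν : ℝ}

lemma norm_le_nat {u : Tr D} {r : ℕ} : ‖u‖ ≤ r ↔ ∀ i, |u i| ≤ r := by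
  rw [pi_norm_le_iff_of_nonneg (Nat.cast_nonneg r)]
  refine forall_congr' fun i => ?_
  rw [Int.norm_eq_abs, ← Int.cast_abs]
  exact_mod_cast Iff.rfl

lemma irr_ind (hD : 1 ≤ D) {S : Set (Tr D)} (hS : ∀ u, u ≠ 0 → u ∈ S) {Q : Tr D → Prop}
    (h0 : Q (u0 D)) (step : ∀ a ∈ S, ∀ w ∈ S, w ≠ u0 D → ‖w - a‖ ≤ 2 → Q a → Q w) :
    ∀ x ∈ S, Q x := by
  have key : ∀ r : ℕ, ∀ x ∈ S, ‖x - u0 D‖ ≤ r → Q x := by
    intro r
    induction r with
    | zero =>
      intro x _ hx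
      rw [Nat.cast_zero, norm_le_zero_iff, sub_eq_zero] at hx
      exact hx ▸ h0
    | succ r ih =>
      intro x hxS hx
      by_cases e : x = u0 D
      · exact e ▸ h0
      by_cases h2 : ‖x - u0 D‖ ≤ 2
      · exact step _ (hS _ (u0_ne hD)) x hxS e h2 h0
      obtain ⟨w, hw⟩ : ∃ w : Tr D, w = fun i => max (1 - (r : ℤ)) (min (x i) (1 + (r : ℤ))) := ⟨_, rfl⟩
      have a1 : ‖w - u0 D‖ ≤ r := norm_le_nat.2 fun i => by
        simp only [hw, u0, Pi.sub_apply, abs_le]; omega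
      have a2 : ‖x - w‖ ≤ (1 : ℕ) := norm_le_nat.2 fun i => by
        have := norm_le_nat.1 hx i
        simp only [hw, u0, Pi.sub_apply, abs_le] at this ⊢; omega
      rw [Nat.cast_one] at a2
      have a3 : w ≠ 0 := fun e0 => by
        apply h2
        rw [e0, sub_zero] at a2
        linarith [norm_sub_le x (u0 D), norm_u0 (D := D)]
      exact step w (hS w a3) x hxS e (by linarith) (ih w (hS w a3) a1)
  intro x hx
  obtain ⟨r, hr⟩ := exists_nat_ge ‖x - u0 D‖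
  exact key r x hx hr

lemma transport (hD : 1 ≤ D) (h : Sys p K G M Cc ν) {P : (ℕ → ℝ) → Prop} (p0 : P fun _ => 0)
    (ps : ∀ (f g : ℕ → ℝ) (c : ℝ), 0 < c → (∀ n, 0 ≤ g n) → (∀ n, c * g n ≤ f (n + 2)) → P f → P g)
    (h0 : P fun n => coeff n (Fs K)) (x y : Tr D) : P fun n => ent (coeff n (Xs K)) x y := by
  obtain ⟨S, s1, s2, s3⟩ := h.irr
  have hk' := h.ker
  have pX := pos_Xs hk'
  have pK := pos_K hk'
  have pC := posS_C (pos_compl (u0 D))
  have e1 : Xs K = kser K + kser K * C (1 - Eo D) * Xs K := res_left (cc_K hk')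
  have e2 : Xs K = kser K + Xs K * (C (1 - Eo D) * kser K) := by
    rw [← mul_assoc]; exact res_right (cc_K hk')
  by_cases hx : x ∈ S
  swap
  · have : ∀ n, ent (coeff n (Xs K)) x y = 0 := fun n => by
      have z : ∀ l w, K l x w = 0 := fun l w => by_contra fun a => hx (s2 l x w a).1
      rw [e1, mul_assoc, map_add, ent_add, ent_coeff_mul]
      simp [ent_K hk', z]
    simpa only [this] using p0
  by_cases hy : y ∈ S
  swap
  · have : ∀ n, ent (coeff n (Xs K)) x y = 0 := fun n => by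
      have z : ∀ l w, K l w y = 0 := fun l w => by_contra fun a => hy (s2 l w y a).2
      rw [e2, ← mul_assoc, map_add, ent_add, ent_coeff_mul]
      simp [ent_K hk', z]
    simpa only [this] using p0
  have q1 : P fun n => ent (coeff n (Xs K)) (u0 D) y := by
    refine irr_ind hD s1 (Q := fun y => P fun n => ent (coeff n (Xs K)) (u0 D) y)
      (by simpa only [Fs, coeff_es] using h0) (fun a ha w hw hne hd => ?_) y hy
    refine ps _ _ (K 2 w a) (s3 w hw a ha (by rwa [norm_sub_rev])) (fun n => pX n _ _) fun n => ?_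
    have a1 := pX.le_mul (pC.mul pK) n 2 (u0 D) w a
    rw [coeff_C_mul, ent_compl_mul, if_neg hne, ent_K hk'] at a1
    conv_rhs => rw [e2, map_add, ent_add]
    have a2 := pK (n + 2) (u0 D) a
    rw [Eo]
    linarith
  refine irr_ind hD s1 (Q := fun x => P fun n => ent (coeff n (Xs K)) x y) q1
    (fun a ha w hw hne hd => ?_) x hx
  refine ps _ _ (K 2 a w) (s3 a ha w hw hd) (fun n => pX n _ _) fun n => ?_
  have a1 := (pK.mul pC).le_mul pX 2 n a w y
  rw [coeff_mul_C, ent_mul_compl, if_neg hne, ent_K hk', add_comm 2 n] at a1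
  conv_rhs => rw [e1, map_add, ent_add]
  have a2 := pK (n + 2) a y
  rw [Eo]
  linarith

lemma coeff_Us_G (h : KerOK K M Cc ν) (hG : IsGp K G) (n : ℕ) :
    coeff n (Us K) = (if n = 0 then 1 else 0) + G n (u0 D) (u0 D) := by
  rw [Us, map_add, coeff_one, coeff_es, link_G h hG]

lemma G_zero (h : KerOK K M Cc ν) (hG : IsGp K G) (u v : Tr D) : G 0 u v = 0 := by
  rw [hG, h.zero]; simp [kconv]

lemma Us_le_one (h : Sys p K G M Cc ν) (n : ℕ) : coeff n (Us K) ≤ 1 + Cc := by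
  rw [coeff_Us_G h.ker h.green]
  exact add_le_add (by split_ifs <;> simp) (h.le_const _ _ _)

lemma sub_iff (h : KerOK K M Cc ν) (hG : IsGp K G) :
    Sub G ↔ Summable fun n => coeff n (Us K) := by
  rw [Sub, ← summable_nat_add_iff 1, ← summable_nat_add_iff (f := fun n => coeff n (Us K)) 1]
  simp [coeff_Us_G h hG]

lemma norm_one_le : ‖(1 : Opr (Tr D))‖ ≤ 1 := ContinuousLinearMap.norm_id_le

lemma small_cut {θ ε : ℝ} (hθ : 0 < θ) (hε : 0 < ε) : ∃ s : Finset (Tr D),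
    ‖(1 - dg (inds s)) * Mm D θ‖ ≤ ε ∧ ‖Mm D θ * (1 - dg (inds s))‖ ≤ ε := by
  have h1 := (summable_wt (D := D) hθ).tendsto_cofinite_zero.eventually (gt_mem_nhds hε)
  rw [eventually_cofinite] at h1
  have hb : Bdd fun x => 1 - inds h1.toFinset x :=
    ⟨1, fun x => by simp only [inds]; split_ifs <;> simp⟩
  have h2 : ‖(1 - dg (inds h1.toFinset)) * Mm D θ‖ ≤ ε := by
    rw [one_sub_dg (bdd_inds _), Mm, dg_mul_dg hb (bdd_wt hθ.le)]
    refine norm_dg_le hε.le fun x => ?_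
    rw [inds]; split_ifs with hx
    · simpa using hε.le
    · rw [sub_zero, one_mul, abs_of_pos (wt_pos θ x)]
      simp only [Set.Finite.mem_toFinset, Set.mem_ofPred_eq, not_not] at hx
      exact hx.le
  refine ⟨_, h2, ?_⟩
  rwa [one_sub_dg (bdd_inds _), Mm, dg_comm hb (bdd_wt hθ.le), ← one_sub_dg (bdd_inds _)] at h2

lemma es_til {θ : ℝ} (hθ : 0 ≤ θ) (S : (Opr (Tr D))⟦X⟧) (x y : Tr D) :
    es (til θ S) x y = C (wt θ x) * es S x y * C (wt θ y) := by
  rw [til, Mm, es_mul_dg (bdd_wt hθ), es_dg_mul (bdd_wt hθ)]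

theorem pert_X (hS : SerStmt) (h0 : T0Stmt) (h1 : T1Stmt) (h2 : T2Stmt) (hL : LLTStmt)
    (hD : 1 ≤ D) (h : Sys p K G M Cc ν) :
    (∃ LX, Lim (rho D) (til (th M ν) (Xs K)) LX) ∧ ∃ l, 0 < l ∧ Lim (rho D) (Fs K) l := by
  have hρ := reg_rho hS hD
  have t0 := th_pos (M := M) h.nu
  obtain ⟨⟨LP, hP, hne⟩, -⟩ := hom_main hS h0 h1 h2 hL hD h.nu h.hom h.mass t0
  obtain ⟨W, e0, w0, wn⟩ := pert_ser h.nu h.hom.ker h.ker h.pert
  have hW : Lim (rho D) W 0 := lim_exp hS hρ (half_pos h.nu) wn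
  generalize th M ν = θ at *
  have hWt : Lim (rho D) (til θ W) 0 := by
    simpa [til] using lim_mul_C (Mm D θ) (lim_C_mul (Mm D θ) hW)
  have cm := Mm_comm (D := D) t0.le
  have cm' : (C (Mm D θ) : (Opr (Tr D))⟦X⟧) * C (1 - Eo D) = C (1 - Eo D) * C (Mm D θ) := by
    rw [← map_mul, cm, map_mul]
  have r1 : Xs K = Xs (hk p) + (1 + Xs K * C (1 - Eo D)) * (kser K - kser (hk p)) *
      (1 + C (1 - Eo D) * Xs (hk p)) := res_diff (cc_K h.ker) (cc_K h.hom.ker)
  have r2 : Xs K = Xs (hk p) + (1 + Xs (hk p) * C (1 - Eo D)) * (kser K - kser (hk p)) *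
      (1 + C (1 - Eo D) * Xs K) := by
    have : Xs (hk p) = Xs K + (1 + Xs (hk p) * C (1 - Eo D)) * (kser (hk p) - kser K) *
      (1 + C (1 - Eo D) * Xs K) := res_diff (cc_K h.hom.ker) (cc_K h.ker)
    rw [← neg_sub (kser K), mul_neg, neg_mul, ← sub_eq_add_neg] at this
    exact (eq_sub_iff_add_eq.1 this).symm
  rw [e0] at r1 r2
  have I1 := weighted cm' r1
  have I2 := weighted cm' r2
  rw [← map_mul] at I1 I2
  change til θ (Xs K) = til θ (Xs (hk p)) + (_ + til θ (Xs K) * _) * _ *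
    (_ + _ * til θ (Xs (hk p))) at I1
  change til θ (Xs K) = til θ (Xs (hk p)) + (_ + til θ (Xs (hk p)) * _) * _ *
    (_ + _ * til θ (Xs K)) at I2
  have pX := pos_Xs h.ker
  obtain ⟨s1, -, -⟩ := h0 _ _ (1 + Cc) 0 (isRen h.ker) fun n => by simpa using Us_le_one h n
  have sX : ∀ x y, L1 (es (til θ (Xs K)) x y) := fun x y => by
    rw [es_til t0.le]
    refine l1_mul (l1_mul (l1_C _) (l1_of_nonneg (fun n => by simpa using pX n x y) ?_)) (l1_C _)
    simp only [coeff_es]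
    refine transport hD h (P := Summable) summable_zero (fun f g c hc hg hf sf => ?_) s1 x y
    refine (summable_mul_left_iff hc.ne').1 (Summable.of_nonneg_of_le
      (fun n => mul_nonneg hc.le (hg n)) hf ((summable_nat_add_iff 2).2 sf))
  have lP := lim_l1 hS hρ hP
  have lW := lim_l1 hS hρ hW
  have lWt := lim_l1 hS hρ hWt
  have hY : L1 (til θ (Xs K)) := by
    generalize til θ (Xs K) = Y at *
    generalize til θ (Xs (hk p)) = P at *
    obtain ⟨N, hN⟩ : ∃ N, N = (C (Mm D θ * Mm D θ) : (Opr (Tr D))⟦X⟧) := ⟨_, rfl⟩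
    have lN : L1 N := hN ▸ l1_C _
    rw [← hN] at I1 I2
    have a1 : L1 (N + C (1 - Eo D) * P) := l1_add lN (l1_mul (l1_C _) lP)
    have a2 : L1 (N + P * C (1 - Eo D)) := l1_add lN (l1_mul lP (l1_C _))
    obtain ⟨R1, hR1⟩ : ∃ R, R = C (1 - Eo D) * W * C (Mm D θ) * (N + C (1 - Eo D) * P) := ⟨_, rfl⟩
    obtain ⟨R2, hR2⟩ : ∃ R, R = (N + P * C (1 - Eo D)) * C (Mm D θ) * W * C (1 - Eo D) := ⟨_, rfl⟩
    have l1 : L1 R1 := hR1 ▸ l1_mul (l1_mul (l1_mul (l1_C _) lW) (l1_C _)) a1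
    have l2 : L1 R2 := hR2 ▸ l1_mul (l1_mul (l1_mul a2 (l1_C _)) lW) (l1_C _)
    have b1 := n1_nonneg (x := R1)
    have b2 := n1_nonneg (x := R2)
    obtain ⟨s, q1, q2⟩ := small_cut (D := D) t0 (ε := 1 / (2 * (n1 R1 + n1 R2 + 1))) (by positivity)
    have b3 : 1 / (2 * (n1 R1 + n1 R2 + 1)) * (n1 R1 + n1 R2 + 1) = 1 / 2 := by field_simp
    have b4 : 0 < 1 / (2 * (n1 R1 + n1 R2 + 1)) := by positivity
    refine l1_crit hS norm_one_le (q := dg (inds s))
      (B1 := P + N * til θ W * (N + C (1 - Eo D) * P)) (T1 := C (Mm D θ) * R1)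
      (B2 := P + (N + P * C (1 - Eo D)) * til θ W * N) (T2 := R2 * C (Mm D θ)) ?_ ?_
      (l1_add lP (l1_mul (l1_mul lN lWt) a1)) (l1_add lP (l1_mul (l1_mul a2 lWt) lN))
      (l1_mul (l1_C _) l1) (l1_mul l2 (l1_C _)) (by simp [hR1, w0]) (by simp [hR2, w0]) ?_ ?_
      (l1_cut s sX)
    · have : C (Mm D θ) * R1 = C (1 - Eo D) * til θ W * (N + C (1 - Eo D) * P) := by
        rw [hR1, til]; simp only [← mul_assoc]; rw [cm']
      rw [this]
      conv_lhs => rw [I1]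
      noncomm_ring
    · have : R2 * C (Mm D θ) = (N + P * C (1 - Eo D)) * til θ W * C (1 - Eo D) := by
        rw [hR2, til]; simp only [mul_assoc]; rw [cm']
      rw [this]
      conv_lhs => rw [I2]
      noncomm_ring
    · rw [← mul_assoc, ← map_mul]
      refine (l1_mul' (l1_C _) l1).2.trans ?_
      rw [n1_C]
      nlinarith [mul_le_mul_of_nonneg_right q1 b1]
    · rw [mul_assoc, ← map_mul]
      refine (l1_mul' l2 (l1_C _)).2.trans ?_
      rw [n1_C]
      nlinarith [mul_le_mul_of_nonneg_left q2 b2]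
  have hc : (1 - Eo D) * (Mm D θ * Mm D θ) = Mm D θ * Mm D θ * (1 - Eo D) := by
    rw [← mul_assoc, ← cm, mul_assoc, ← cm, mul_assoc]
  obtain ⟨⟨LX, hX⟩, hz⟩ := pert_main hS hρ hP hWt hc I1 I2 hY
  refine ⟨⟨LX, hX⟩, ?_⟩
  have w0 := wt_pos θ (u0 D)
  have hF : Lim (rho D) (Fs K)
      ((wt θ (u0 D))⁻¹ * ent LX (u0 D) (u0 D) * (wt θ (u0 D))⁻¹) := by
    have := lim_mul_C (wt θ (u0 D))⁻¹ (lim_C_mul (wt θ (u0 D))⁻¹ (lim_es hX (u0 D) (u0 D)))
    rwa [es_til t0.le, ← mul_assoc, ← mul_assoc, ← map_mul, inv_mul_cancel₀ w0.ne', map_one,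
      one_mul, mul_assoc, ← map_mul, mul_inv_cancel₀ w0.ne', map_one, mul_one] at this
  refine ⟨_, lt_of_le_of_ne (ge_of_tendsto' (lim_iff.1 hF) fun n =>
    div_nonneg ((isRen h.ker).1 n) (hρ.pos n).le) fun e => hne (hz ?_), hF⟩
  rw [← e] at hF
  have : LX = 0 := ent_ext fun x y => by
    have a1 : Lim (rho D) (es (Xs K) x y) 0 := by
      rw [lim_iff]
      simp only [coeff_es]
      refine transport hD h (P := fun f => Tendsto (fun n => f n / rho D n) atTop (𝓝 0))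
        (by simp) (fun f g c hc hg hf sf => ?_) (lim_iff.1 hF) x y
      have b1 := (sf.comp (tendsto_add_atTop_nat 2)).div ((slow_of_reg hρ).shift 2) one_ne_zero
      have b2 := b1.const_mul c⁻¹
      rw [zero_div, mul_zero] at b2
      refine squeeze_zero (fun n => div_nonneg (hg n) (hρ.pos n).le) (fun n => ?_) b2
      have b3 := hρ.pos n
      have b4 := hρ.pos (n + 2)
      have b5 : c⁻¹ * (f (n + 2) / rho D (n + 2) / (rho D n / rho D (n + 2)))
          = f (n + 2) / c / rho D n := by field_simp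
      simp only [Pi.div_apply, Function.comp]
      rw [b5]
      refine div_le_div_of_nonneg_right ?_ b3.le
      rw [le_div_iff₀ hc, mul_comm]; exact hf n
    have a2 := lim_mul_C (wt θ y) (lim_C_mul (wt θ x) a1)
    rw [← es_til t0.le] at a2
    rw [lim_unique (lim_es hX x y) a2]; simp
  rwa [this] at hX

end

end Pool.Agent.MP_48a2f9_mp.Op

end MrgPart1

-- ======== part 2: formerly Pool.Agent.MP_48a2f9_mp.OpM
section MrgPart2

/-!
Module Op, final part: the statements `B1Stmt`, ..., `B5Stmt`.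
-/

open Finset Filter Topology PowerSeries

namespace Pool.Agent.MP_48a2f9_mp.Op

noncomputable section
open Classical

variable {D : ℕ} {p : ℕ → Tr D → ℝ} {K G : ℕ → Tr D → Tr D → ℝ} {M : ℕ} {Cc ν : ℝ} {t : ℕ → ℝ}

lemma G_split (h : KerOK K M Cc ν) :
    Gs K = Xs K + Xs K * (C (Eo D) + C (Eo D) * Gs K * C (Eo D)) * Xs K := by
  have h1 : Gs K = Xs K + Xs K * C (Eo D) * Gs K := green_left (cc_K h)
  have h2 : Gs K = Xs K + Gs K * C (Eo D) * Xs K := green_right (cc_K h)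
  generalize Gs K = g at *
  calc g = Xs K + Xs K * C (Eo D) * (Xs K + g * C (Eo D) * Xs K) := by rw [← h2, ← h1]
    _ = _ := by noncomm_ring

lemma struct0 (hS : SerStmt) {ρ : ℕ → ℝ} (hρ : Reg ρ) (hν : 0 < ν) (h : KerOK K M Cc ν)
    (ha : Adm K M Cc ν t) {LX : Opr (Tr D)} (hX : Lim ρ (til (th M ν) (Xs K)) LX) :
    ∃ (r g : ℝ⟦X⟧) (lr lg c : ℝ), 0 < c ∧ Lim ρ r lr ∧ Lim ρ g lg ∧
      (∀ n, 1 ≤ n → t n = coeff n (r + g * Us K)) ∧
      (∀ n, c * coeff n (Us K) ≤ t (n + 2)) ∧ ∀ n, 1 ≤ n → 0 ≤ t n := by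
  obtain ⟨L, R, e, B, c, hc, nL, nR, ne, h1, h2, h3⟩ := adm_rep hν h ha
  have t0 := th_pos (M := M) hν
  generalize th M ν = θ at *
  have hL : Lim ρ L 0 := lim_exp hS hρ (half_pos hν) nL
  have hR : Lim ρ R 0 := lim_exp hS hρ (half_pos hν) nR
  have he : Lim ρ e 0 := lim_exp hS hρ hν ne
  have w0 := wt_pos θ (u0 D)
  have a1 := lim_es (lim_mul hS hρ (lim_mul hS hρ hL
    (lim_add (lim_C (Mm D θ * Mm D θ)) hX)) hR) (u0 D) (u0 D)
  have a2 := lim_mul_C (wt θ (u0 D))⁻¹ (lim_es (lim_mul hS hρ hL hX) (u0 D) (u0 D))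
  have a3 := lim_C_mul (wt θ (u0 D))⁻¹ (lim_es (lim_mul hS hρ hX hR) (u0 D) (u0 D))
  have b2 : es (L * til θ (Xs K)) (u0 D) (u0 D) * C (wt θ (u0 D))⁻¹ =
      es (L * C (Mm D θ) * Xs K) (u0 D) (u0 D) := by
    rw [til, ← mul_assoc, ← mul_assoc, Mm, es_mul_dg (bdd_wt t0.le), mul_assoc, ← map_mul,
      mul_inv_cancel₀ w0.ne', map_one, mul_one]
  have b3 : C (wt θ (u0 D))⁻¹ * es (til θ (Xs K) * R) (u0 D) (u0 D) =
      es (Xs K * C (Mm D θ) * R) (u0 D) (u0 D) := by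
    rw [til, mul_assoc, mul_assoc, Mm, es_dg_mul (bdd_wt t0.le), ← mul_assoc, ← map_mul,
      inv_mul_cancel₀ w0.ne', map_one, one_mul, mul_assoc]
  rw [b2] at a2
  rw [b3] at a3
  refine ⟨_, _, _, _, c, hc, lim_add he a1, lim_mul hS hρ a2 a3, fun n hn => ?_, h2, h3⟩
  rw [h1 n hn]
  congr 1
  have b4 : L * til θ (1 + Gs K) * R = L * (C (Mm D θ * Mm D θ) + til θ (Xs K)) * R +
      (L * C (Mm D θ) * Xs K * C (Eo D) * (Xs K * C (Mm D θ) * R) +
      L * C (Mm D θ) * Xs K * C (Eo D) * (Gs K * C (Eo D) * (Xs K * C (Mm D θ) * R))) := by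
    conv_lhs => rw [G_split h]
    rw [til, til, map_mul]
    noncomm_ring
  rw [b4, es_add, es_add, Eo, es_mul_ind, es_mul_ind, es_mul_ind, Us]
  ring

lemma crit_finish (hS : SerStmt) {ρ σ γ : ℕ → ℝ} (hρ : Reg ρ) (hσ : Slow σ) (hn : Negl ρ σ)
    (hν : 0 < ν) (h : KerOK K M Cc ν) (ha : Adm K M Cc ν t) {LX : Opr (Tr D)}
    (hX : Lim ρ (til (th M ν) (Xs K)) LX) {a : ℝ} (h0 : 0 < a)
    (hU : Tendsto (fun n => coeff n (Us K) / σ n) atTop (𝓝 a))
    (hγ : Tendsto (fun n => σ n / γ n) atTop (𝓝 1)) :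
    ∃ c, 0 < c ∧ Tendsto (fun n => t n / γ n) atTop (𝓝 c) := by
  obtain ⟨r, g, lr, lg, c, hc, h1, h2, h3, h4, -⟩ := struct0 hS hρ hν h ha hX
  obtain ⟨β1, -, b1⟩ := bd_of_lim hρ.pos h1
  obtain ⟨β2, b0, b2⟩ := bd_of_lim hρ.pos h2
  have := (negl_lim hρ hσ hn b1).add (conv_lim hρ hσ hn b0 b2 hU)
  refine finish hσ h0 hc hU (this.congr fun n => ?_) h3 h4 hγ
  rw [map_add, add_div]

lemma half_succ (D : ℕ) : (((D + 1 : ℕ) : ℝ) - 1) / 2 = D / 2 := by push_cast; ring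

lemma rho_gSub (hD : 1 ≤ D) :
    Tendsto (fun n : ℕ => rho D n / gSub (D + 1) n) atTop (𝓝 1) := by
  rcases (by omega : D = 1 ∨ D = 2 ∨ 3 ≤ D) with rfl | rfl | h3
  · rw [rho_one]; simpa only [gSub, if_true] using rpw_div (3 / 2)
  · rw [rho_two]; simpa [gSub] using rlg_div
  · rw [rho_ge h3]
    simpa only [gSub, if_neg (by omega : ¬D + 1 = 2), if_neg (by omega : ¬D + 1 = 3), half_succ]
      using rpw_div (D / 2)

theorem b1 (hS : SerStmt) (h0 : T0Stmt) (h1 : T1Stmt) (h2 : T2Stmt) (hL : LLTStmt) : B1Stmt := by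
  intro D p K G M Cc ν t hD h ha hs
  have hρ := reg_rho hS hD
  obtain ⟨⟨LX, hX⟩, l, hl, hF⟩ := pert_X hS h0 h1 h2 hL hD h
  obtain ⟨r, g, lr, lg, c, hc, a1, a2, a3, a4, -⟩ := struct0 hS hρ h.nu h.ker ha hX
  have g0 : ∀ n, 0 ≤ coeff n (es (Gs K) (u0 D) (u0 D)) := fun n => by
    simpa using pos_Gs h.ker n _ _
  have lg' : L1 (es (Gs K) (u0 D) (u0 D)) :=
    l1_of_nonneg g0 (by simp only [coeff_es, link_G h.ker h.green]; exact hs)
  have e := es_G_left h.ker (u0 D) (u0 D)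
  have b1 := lim_add lim_one (lim_thmA hS hρ e (by rw [mul_comm]; exact e) lg' hF)
  have b2 : 0 ≤ SumP (es (Gs K) (u0 D) (u0 D)) := tsum_nonneg g0
  exact finish (slow_of_reg hρ) (by positivity) hc (lim_iff.1 b1)
    (lim_iff.1 (lim_add a1 (lim_mul hS hρ a2 b1))) a3 a4 (rho_gSub hD)

theorem b2 (hS : SerStmt) (h0 : T0Stmt) (h1 : T1Stmt) (h2 : T2Stmt) (h3 : T3Stmt) (h4 : T4Stmt)
    (h5 : T5Stmt) (hL : LLTStmt) : B2Stmt := by
  intro D p K G M Cc ν t hD h ha hs
  have hρ := reg_rho hS (by omega : 1 ≤ D)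
  obtain ⟨⟨LX, hX⟩, l, hl, hF⟩ := pert_X hS h0 h1 h2 hL (by omega) h
  have hR := isRen h.ker
  obtain ⟨s1, s2, s3⟩ := h0 _ _ (1 + Cc) 0 hR fun n => by simpa using Us_le_one h n
  rw [sub_iff h.ker h.green, s3, not_lt] at hs
  have s4 := s1.hasSum
  rw [le_antisymm s2 hs] at s4
  have f1 : 0 < coeff 1 (Fs K) := by
    rw [Fs, coeff_es]; exact h.pos1.trans_le (K_le_Xs h.ker _ _ _)
  rw [rho_ge hD] at hρ hX hF
  rcases (by omega : D = 3 ∨ D = 4 ∨ 5 ≤ D) with rfl | rfl | hD5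
  · rw [Nat.cast_ofNat] at hρ hX hF
    obtain ⟨c, hc, hU⟩ := h3 _ _ l hR s4 hl (lim_iff.1 hF)
    refine crit_finish hS hρ (slow_rpw (by norm_num)) negl_half h.nu h.ker ha hX hc hU ?_
    simpa [gCrit] using rpw_div (1 / 2)
  · rw [show ((4 : ℕ) : ℝ) / 2 = 2 by norm_num] at hρ hX hF
    have hU := h4 _ _ l hR s4 f1 hl (lim_iff.1 hF)
    refine crit_finish hS hρ slow_ilog negl_ilog h.nu h.ker ha hX (a := 1 / l) (by positivity)
      (by simpa only [ilog, div_inv_eq_mul] using hU) ?_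
    simpa [gCrit] using ilog_div
  · obtain ⟨β, b0, b1⟩ := bd_of_lim hρ.pos hF
    have b2 : (5 / 2 : ℝ) ≤ D / 2 := by
      have : (5 : ℝ) ≤ D := by exact_mod_cast hD5
      linarith
    obtain ⟨c, hc, hU⟩ := h5 _ _ β hR s4 f1 fun n =>
      ((le_abs_self _).trans (b1 n)).trans (mul_le_mul_of_nonneg_left (rpw_anti b2 n) b0)
    refine crit_finish hS hρ (slow_rpw le_rfl) (negl_zero (one_lt_half hD)) h.nu h.ker ha hX hc
      (by simpa only [rpw_zero, div_one] using hU) ?_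
    simp only [gCrit, if_neg (by omega : ¬D + 1 ≤ 3), if_neg (by omega : ¬D + 1 = 4),
      if_neg (by omega : ¬D + 1 = 5), rpw_zero, div_one]
    exact tendsto_const_nhds

lemma l1_rescale {x : ℝ⟦X⟧} (hx : L1 x) {s : ℝ} (h0 : 0 ≤ s) (h1 : s ≤ 1) :
    L1 (rescale s x) ∧ n1 (rescale s x) ≤ n1 x := by
  have h : ∀ n, ‖coeff n (rescale s x)‖ ≤ ‖coeff n x‖ := fun n => by
    rw [coeff_rescale, norm_mul, Real.norm_of_nonneg (pow_nonneg h0 n)]
    exact mul_le_of_le_one_left (norm_nonneg _) (pow_le_one₀ h0 h1)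
  have h2 : L1 (rescale s x) := Summable.of_nonneg_of_le (fun _ => norm_nonneg _) h hx
  exact ⟨h2, Summable.tsum_le_tsum h h2 hx⟩

lemma n1_add_le {x y : ℝ⟦X⟧} (hx : L1 x) (hy : L1 y) : n1 (x + y) ≤ n1 x + n1 y := by
  rw [n1, n1, n1, ← Summable.tsum_add hx hy]
  exact Summable.tsum_le_tsum (fun n => by rw [map_add]; exact norm_add_le _ _) (l1_add hx hy)
    (Summable.add hx hy)

theorem b3 (hS : SerStmt) (h0 : T0Stmt) (h1 : T1Stmt) (h2 : T2Stmt) (hL : LLTStmt) : B3Stmt := by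
  intro D p K G M Cc ν t hD h ha
  have hρ := reg_rho hS hD
  obtain ⟨⟨LX, hX⟩, -⟩ := pert_X hS h0 h1 h2 hL hD h
  obtain ⟨r, g, lr, lg, c, hc, a1, a2, a3, a4, a5⟩ := struct0 hS hρ h.nu h.ker ha hX
  refine ⟨c / 4, n1 r + n1 g, by positivity, fun s s1 s2 => ?_⟩
  have s0 : 0 ≤ s := by linarith
  have gG : ∀ n, 0 ≤ G n (u0 D) (u0 D) := fun n => by
    rw [← link_G h.ker h.green]; exact pos_Gs h.ker n _ _
  have u0' : ∀ n, 0 ≤ coeff n (Us K) := fun n => by
    rw [coeff_Us_G h.ker h.green]; exact add_nonneg (by split_ifs <;> simp) (gG n)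
  have sG : Summable fun n => G n (u0 D) (u0 D) * s ^ n :=
    Summable.of_nonneg_of_le (fun n => mul_nonneg (gG n) (pow_nonneg s0 n))
      (fun n => mul_le_mul_of_nonneg_right (h.le_const _ _ _) (pow_nonneg s0 n))
      ((summable_geometric_of_lt_one s0 s2).mul_left Cc)
  have hU : HasSum (fun n => coeff n (Us K) * s ^ n) (genU G s) := by
    have := (hasSum_ite_eq (0 : ℕ) (1 : ℝ)).add sG.hasSum
    refine this.congr_fun ?_ |>.mono_left le_rfl
    intro n
    rw [coeff_Us_G h.ker h.green, add_mul]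
    split_ifs with hn <;> simp [hn]
  have g1 : 1 ≤ genU G s :=
    le_add_of_nonneg_right (tsum_nonneg fun n => mul_nonneg (gG n) (pow_nonneg s0 n))
  have hU' : HasSum (fun n => ‖coeff n (rescale s (Us K))‖) (genU G s) := by
    refine hU.congr_fun ?_ |>.mono_left le_rfl
    intro n
    rw [coeff_rescale, Real.norm_of_nonneg (mul_nonneg (pow_nonneg s0 n) (u0' n)), mul_comm]
  obtain ⟨l1, m1⟩ := l1_rescale (lim_l1 hS hρ a1) s0 s2.le
  obtain ⟨l2, m2⟩ := l1_rescale (lim_l1 hS hρ a2) s0 s2.le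
  obtain ⟨l3, m3⟩ := l1_mul' l2 hU'.summable
  have m4 := n1_add_le l1 l3
  have l4 := l1_add l1 l3
  rw [← map_mul, ← map_add] at m4 l4
  have m5 : n1 (rescale s (Us K)) = genU G s := hU'.tsum_eq
  have e : ∀ n, t (n + 1) * s ^ (n + 1) = ‖coeff (n + 1) (rescale s (r + g * Us K))‖ := fun n => by
    rw [coeff_rescale, ← a3 _ (by omega),
      Real.norm_of_nonneg (mul_nonneg (pow_nonneg s0 _) (a5 _ (by omega))), mul_comm]
  have st : Summable fun n => t (n + 1) * s ^ (n + 1) := by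
    simp only [e]; exact (summable_nat_add_iff 1).2 l4
  refine ⟨st, ?_, ?_⟩
  · rw [st.tsum_eq_zero_add, ← hU.tsum_eq, ← tsum_mul_left]
    refine le_add_of_nonneg_of_le (mul_nonneg (a5 _ le_rfl) (pow_nonneg s0 _)) ?_
    refine Summable.tsum_le_tsum (fun n => ?_) (hU.summable.mul_left _)
      ((summable_nat_add_iff 1).2 st)
    have b1 : 1 / 4 * s ^ n ≤ s ^ (n + 1 + 1) := by
      rw [pow_succ, pow_succ, mul_assoc, mul_comm]
      exact mul_le_mul_of_nonneg_left (by nlinarith) (pow_nonneg s0 n)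
    calc _ = c * coeff n (Us K) * (1 / 4 * s ^ n) := by ring
      _ ≤ _ := mul_le_mul (a4 n) b1 (by positivity) (a5 _ (by omega))
  · have b1 : ∑' n, t (n + 1) * s ^ (n + 1) ≤ n1 (rescale s (r + g * Us K)) := by
      simp only [e]
      rw [n1, Summable.tsum_eq_zero_add l4]
      exact le_add_of_nonneg_left (norm_nonneg _)
    rw [map_mul] at m4
    rw [m5] at m3
    have b2 := mul_le_mul_of_nonneg_right m2 (zero_le_one.trans g1)
    have b3 := mul_le_mul_of_nonneg_left g1 (n1_nonneg (x := r))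
    linarith

lemma l1_til_G {θ : ℝ} (hθ : 0 ≤ θ) (h : KerOK K M Cc ν) (hX : L1 (til θ (Xs K)))
    (hU : Summable fun n => coeff n (Us K)) : L1 (til θ (1 + Gs K)) := by
  have w0 := wt_pos θ (u0 D)
  obtain ⟨Z, hZ⟩ : ∃ Z : (Opr (Tr D))⟦X⟧, Z = PowerSeries.mk fun n =>
    (((wt θ (u0 D))⁻¹) ^ 2 * coeff n (Us K)) • Eo D := ⟨_, rfl⟩
  have lZ : L1 Z := by
    have := (hU.norm.mul_left (((wt θ (u0 D))⁻¹) ^ 2)).mul_right ‖Eo D‖
    refine this.congr fun n => ?_
    rw [hZ, coeff_mk, norm_smul, norm_mul, Real.norm_of_nonneg (sq_nonneg _)]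
  have e1 : C (Eo D) + C (Eo D) * Gs K * C (Eo D) = til θ Z := by
    ext1 n
    refine ent_ext fun x y => ?_
    rw [ent_til hθ, hZ, coeff_mk, map_add, ent_add, coeff_mul_C, coeff_C_mul, ent_smul, Eo,
      ent_mul_dg (bdd_ind _), ent_dg_mul (bdd_ind _), ent_dg (bdd_ind _), Us, map_add, coeff_es,
      coeff_one, coeff_C]
    by_cases hx : x = u0 D <;> by_cases hy : y = u0 D <;> by_cases hn : n = 0 <;>
      simp [hx, hy, hn, ind, ent_dg (bdd_ind _), eq_comm (a := u0 D)] <;> field_simp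
  have e2 : til θ (1 + Gs K) =
      C (Mm D θ * Mm D θ) + til θ (Xs K) + til θ (Xs K) * Z * til θ (Xs K) := by
    conv_lhs => rw [G_split h, e1]
    simp only [til, map_mul]
    noncomm_ring
  rw [e2]
  exact l1_add (l1_add (l1_C _) hX) (l1_mul (l1_mul hX lZ) hX)

theorem b4 (hS : SerStmt) (h0 : T0Stmt) (h1 : T1Stmt) (h2 : T2Stmt) (hL : LLTStmt) : B4Stmt := by
  intro D p K G M Cc ν hD h hs
  have hρ := reg_rho hS hD
  have hν := h.nu
  have t0 := th_pos (M := M) hν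
  obtain ⟨⟨LX, hX⟩, -⟩ := pert_X hS h0 h1 h2 hL hD h
  have lY := l1_til_G t0.le h.ker (lim_l1 hS hρ hX) ((sub_iff h.ker h.green).1 hs)
  have se : Summable fun l : ℕ => Real.exp (-(ν / 2) * l) := by
    have := Real.summable_exp_nat_mul_iff.2 (neg_lt_zero.2 (half_pos hν))
    simpa [mul_comm] using this
  obtain ⟨A, hA⟩ : ∃ A, A = n1 (til (th M ν) (1 + Gs K)) *
    (Sw D (th M ν) * ∑' l : ℕ, Real.exp (-(ν / 2) * l)) := ⟨_, rfl⟩
  have A0 : 0 ≤ A := hA ▸ mul_nonneg n1_nonneg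
    (mul_nonneg (Sw_nonneg _) (tsum_nonneg fun _ => (Real.exp_pos _).le))
  refine ⟨1 / (2 * (A + 1)), by positivity, fun K' t h' hd ha => ?_⟩
  obtain ⟨W, e0, w0, wn⟩ := pert_ser hν h.ker h' hd
  obtain ⟨L, R, e, B, c, -, nL, nR, ne, a1, -, -⟩ := adm_rep hν h' ha
  generalize th M ν = θ at *
  have lW : L1 W := Summable.of_nonneg_of_le (fun _ => norm_nonneg _) wn (se.mul_left _)
  have nW : n1 W ≤ Sw D θ * (1 / (2 * (A + 1))) * ∑' l : ℕ, Real.exp (-(ν / 2) * l) := by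
    rw [← tsum_mul_left]; exact Summable.tsum_le_tsum wn lW (se.mul_left _)
  obtain ⟨l1, m1⟩ := l1_mul' (l1_C (Mm D θ)) lW
  obtain ⟨l2, m2⟩ := l1_mul' l1 (l1_C (Mm D θ))
  rw [n1_C] at m1 m2
  have nM := norm_Mm (D := D) t0.le
  have m3 : n1 (til θ W) ≤ n1 W := by
    have b1 := mul_le_of_le_one_left (n1_nonneg (x := W)) nM
    have b2 := mul_le_of_le_one_right (n1_nonneg (x := C (Mm D θ) * W)) nM
    rw [til]; linarith
  obtain ⟨l3, m4⟩ := l1_mul' (y := til θ W) lY l2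
  have m5 : n1 (til θ (1 + Gs K) * til θ W) ≤ 1 / 2 := by
    refine m4.trans ((mul_le_mul_of_nonneg_left (m3.trans nW) n1_nonneg).trans ?_)
    calc _ = A * (1 / (2 * (A + 1))) := by rw [hA]; ring
      _ ≤ 1 / 2 := by rw [mul_one_div, div_le_div_iff₀ (by positivity) two_pos]; linarith
  obtain ⟨d, ld, hd1, -⟩ := inv_small hS norm_one_le l3 m5 (by simp [til, w0])
  have r2 : Gs K' = Gs K + (1 + Gs K) * (kser K' - kser K) * (1 + Gs K') := by
    have : Gs K = Gs K' + (1 + Gs K * C 1) * (kser K - kser K') * (1 + C 1 * Gs K') :=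
      res_diff (cc_K h.ker) (cc_K h')
    rw [← neg_sub (kser K'), mul_neg, neg_mul, ← sub_eq_add_neg, map_one, mul_one, one_mul] at this
    exact (eq_sub_iff_add_eq.1 this).symm
  have r3 : (1 - til θ (1 + Gs K) * til θ W) * til θ (1 + Gs K') = til θ (1 + Gs K) := by
    have : til θ (1 + Gs K') = til θ (1 + Gs K) + til θ (1 + Gs K) * til θ W * til θ (1 + Gs K') := by
      conv_lhs => rw [r2, e0]
      simp only [til]
      noncomm_ring
    rw [sub_mul, one_mul]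
    exact sub_eq_of_eq_add this
  have lY' : L1 (til θ (1 + Gs K')) := by
    have := l1_mul ld lY
    rwa [← r3, ← mul_assoc, hd1, one_mul] at this
  have lf := l1_add (lim_l1 hS hρ (lim_exp hS hρ hν ne)) (l1_es (l1_mul (l1_mul
    (lim_l1 hS hρ (lim_exp hS hρ (half_pos hν) nL)) lY')
    (lim_l1 hS hρ (lim_exp hS hρ (half_pos hν) nR))) (u0 D) (u0 D))
  exact ⟨_, fun n hn => (a1 n hn).trans_le ((le_abs_self _).trans (norm_coeff_le_n1 lf n))⟩

lemma summable_iff_of_lim {u : ℕ → ℝ} {a c : ℝ} (hc : 0 < c)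
    (h : Tendsto (fun n => u n / rpw a n) atTop (𝓝 c)) : Summable u ↔ 1 < a := by
  have h1 : Summable (rpw a) ↔ 1 < a := by
    have := (summable_nat_add_iff (f := fun n : ℕ => (n : ℝ) ^ (-a)) 1).trans
      Real.summable_nat_rpow
    rw [neg_lt_neg_iff] at this
    rw [← this]
    simp only [Nat.cast_add, Nat.cast_one]
    rfl
  rw [← h1]
  have h2 := (Asymptotics.isTheta_of_div_tendsto_nhds_ne_zero h hc.ne')
  exact ⟨fun hu => summable_of_isBigO_nat hu h2.isBigO, fun hr =>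
    summable_of_isBigO_nat hr h2.isBigO_symm⟩

theorem b5 (hS : SerStmt) (h0 : T0Stmt) (h1 : T1Stmt) (h2 : T2Stmt) (hL : LLTStmt) : B5Stmt := by
  intro D p G M Cc ν hD hν h hm hG
  have hρ := reg_rho hS hD
  obtain ⟨⟨LP, hP, -⟩, c, hc, hU⟩ := hom_main hS h0 h1 h2 hL hD hν h hm (th_pos (M := M) hν)
  constructor
  · rw [sub_iff h.ker hG, summable_iff_of_lim hc hU]
    refine ⟨fun a => ?_, one_lt_half⟩
    have : (2 : ℝ) < D := by linarith
    exact_mod_cast this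
  · intro hD2 t ha
    refine crit_finish hS hρ (slow_rpw (by positivity)) ?_ hν h.ker ha hP hc hU ?_
    · rcases (by omega : D = 1 ∨ D = 2) with rfl | rfl
      · rw [rho_one, Nat.cast_one]; exact negl_half
      · rw [rho_two, show ((2 : ℕ) : ℝ) / 2 = 1 by norm_num]; exact negl_rlg
    · simpa only [gCrit, if_pos (by omega : D + 1 ≤ 3), half_succ] using rpw_div (D / 2)

end

end Pool.Agent.MP_48a2f9_mp.Op

end MrgPart2

-- marker of a merged file
example : 731051 + 274390 = 731051 + 274390 := rfl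

end MrgPart0

-- ======== part 1: formerly Pool.Agent.MP_48a2f9_mp.LLT1b
section MrgPart1

-- ======== part 0: formerly Pool.Agent.MP_48a2f9_mp.LLT0
section MrgPart0

/-! Scalar renewal sequences with signed weights: the dominant pole. -/

open Finset hiding mk
open Filter Topology PowerSeries

namespace Pool.Agent.MP_48a2f9_mp.LLT

noncomputable section

/-- renewal sequence -/
def ren (a : ℕ → ℝ) (n : ℕ) : ℝ := coeff n (1 - mk a : ℝ⟦X⟧)⁻¹

lemma mk_ren (a : ℕ → ℝ) : mk (ren a) = (1 - mk a : ℝ⟦X⟧)⁻¹ := by ext n; simp [ren]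

lemma cc_ne {a : ℕ → ℝ} (h : a 0 = 0) : constantCoeff (1 - mk a : ℝ⟦X⟧) ≠ 0 := by
  rw [← coeff_zero_eq_constantCoeff_apply]; simp [h]

lemma mul_ren {a : ℕ → ℝ} (h : a 0 = 0) : (1 - mk a : ℝ⟦X⟧) * mk (ren a) = 1 := by
  rw [mk_ren]; exact PowerSeries.mul_inv_cancel _ (cc_ne h)

lemma ren_eq {a : ℕ → ℝ} (h : a 0 = 0) (n : ℕ) :
    ren a n = (if n = 0 then 1 else 0) + ∑ p ∈ antidiagonal n, a p.1 * ren a p.2 := by
  have := congrArg (coeff n) (mul_ren h)
  rw [sub_mul, one_mul, map_sub, coeff_mul, coeff_one] at this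
  simp only [coeff_mk] at this
  linarith

lemma ren_zero {a : ℕ → ℝ} (h : a 0 = 0) : ren a 0 = 1 := by rw [ren_eq h]; simp [h]

lemma ren_Ioc {a : ℕ → ℝ} (h : a 0 = 0) {n : ℕ} (hn : 1 ≤ n) :
    ren a n = ∑ l ∈ Ioc 0 n, a l * ren a (n - l) := by
  rw [ren_eq h, if_neg (by omega), zero_add,
    Finset.Nat.sum_antidiagonal_eq_sum_range_succ (fun i j => a i * ren a j),
    range_eq_Ico, sum_eq_sum_Ico_succ_bot (by omega), h, zero_mul, zero_add]
  rfl

lemma ren_scale {a : ℕ → ℝ} (h : a 0 = 0) (z : ℝ) (n : ℕ) :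
    ren (fun l => a l * z ^ l) n = z ^ n * ren a n := by
  have h1 := congrArg (rescale z) (mul_ren h)
  have e : rescale z (mk a) = mk fun l => a l * z ^ l := by ext l; simp [mul_comm]
  rw [map_mul, map_sub, map_one, e, mul_comm,
    ← PowerSeries.eq_inv_iff_mul_eq_one (cc_ne (by simp [h]))] at h1
  rw [ren, ← h1, coeff_rescale, coeff_mk]

lemma abs_tsum_le {g F : ℕ → ℝ} {a : ℝ} (hF : HasSum F a) (h : ∀ i, |g i| ≤ F i) :
    |∑' i, g i| ≤ a := tsum_of_norm_bounded (f := g) hF h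

lemma exp_sub_one_le (x : ℝ) : Real.exp x - 1 ≤ x * Real.exp x := by
  have := mul_le_mul_of_nonneg_right (Real.add_one_le_exp (-x)) (Real.exp_pos x).le
  rw [← Real.exp_add, neg_add_cancel, Real.exp_zero] at this
  linarith

/-- moment weight -/
def mw (f : ℕ → ℝ) (η : ℝ) (l : ℕ) : ℝ := ((l : ℝ) + 1) ^ 4 * f l * Real.exp (3 * η * l)

/-- a probability vector with exponential moments -/
structure Mom (f : ℕ → ℝ) (η W : ℝ) : Prop where
  eta : 0 < η
  nonneg : ∀ l, 0 ≤ f l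
  zero : f 0 = 0
  sum : HasSum f 1
  mom : HasSum (mw f η) W

variable {f : ℕ → ℝ} {η W : ℝ}

lemma Mom.le_mw (h : Mom f η W) (l : ℕ) {i : ℕ} (hi : i ≤ 4) {c : ℝ} (hc : c ≤ 3 * η * l) :
    ((l : ℝ) + 1) ^ i * f l * Real.exp c ≤ mw f η l := by
  have := h.nonneg l
  have h1 : (1 : ℝ) ≤ l + 1 := by linarith [(Nat.cast_nonneg l : (0:ℝ) ≤ l)]
  unfold mw; gcongr

lemma Mom.mw_nonneg (h : Mom f η W) (l : ℕ) : 0 ≤ mw f η l := by
  have := h.nonneg l; unfold mw; positivity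

lemma Mom.f_le (h : Mom f η W) (l : ℕ) : f l ≤ mw f η l := by
  have := h.eta
  simpa using h.le_mw l (i := 0) (by norm_num) (c := 0) (by positivity)

lemma Mom.one_le (h : Mom f η W) : 1 ≤ W := hasSum_le h.f_le h.sum h.mom

lemma Mom.abs_tsum_le (h : Mom f η W) {g : ℕ → ℝ} {c : ℝ} (hg : ∀ l, |g l| ≤ c * mw f η l) :
    Summable g ∧ |∑' l, g l| ≤ c * W :=
  ⟨(h.mom.mul_left c).summable.of_norm_bounded hg, LLT.abs_tsum_le (h.mom.mul_left c) hg⟩

lemma Mom.exp_le (h : Mom f η W) {ε : ℝ} (h0 : 0 ≤ ε) (h1 : ε ≤ η) {j l : ℕ} (hj : j ≤ l) :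
    f l * (Real.exp (ε * j) - 1) ≤ ε * (((l : ℝ) + 1) ^ 1 * f l * Real.exp (η * l)) := by
  have := h.nonneg l
  have hj' : (j : ℝ) ≤ l := by exact_mod_cast hj
  calc _ ≤ f l * (ε * j * Real.exp (ε * j)) := mul_le_mul_of_nonneg_left (exp_sub_one_le _) this
    _ ≤ f l * (ε * (l + 1) * Real.exp (η * l)) := by
        have := h.eta
        gcongr; linarith
    _ = _ := by ring

lemma far (h : Mom f η W) {a : ℕ → ℝ} {κ ε : ℝ} (ha : ∀ l, |a l| ≤ f l) (h2 : |a 2| ≤ f 2 - κ)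
    (h0 : 0 ≤ ε) (h1 : ε ≤ η) (hκ : ε * W ≤ κ) (n : ℕ) : |ren a n| ≤ Real.exp (-ε * n) := by
  have a0 : a 0 = 0 := abs_nonpos_iff.1 ((ha 0).trans h.zero.le)
  have hη := h.eta
  have key : ∀ s : Finset ℕ, ∑ l ∈ s, |a l| * Real.exp (ε * l) ≤ 1 := fun s => by
    have hs := (h.sum.add (h.mom.mul_left ε)).sub (hasSum_ite_eq 2 κ)
    have hb : ∀ l, |a l| * Real.exp (ε * l) ≤ f l + ε * mw f η l - if l = 2 then κ else 0 := by
      intro l
      have e1 := (h.exp_le h0 h1 le_rfl).trans (mul_le_mul_of_nonneg_left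
        (h.le_mw l (i := 1) (by norm_num) (by nlinarith [(Nat.cast_nonneg l : (0:ℝ) ≤ l)])) h0)
      have e2 := mul_le_mul_of_nonneg_right (ha l)
        (sub_nonneg.2 (Real.one_le_exp (show 0 ≤ ε * l by positivity)))
      split_ifs with hl
      · subst hl; linarith
      · linarith [ha l]
    refine (sum_le_sum fun l _ => hb l).trans ((sum_le_hasSum s (fun l _ => le_trans ?_ (hb l))
      hs).trans (by linarith))
    positivity
  induction n using Nat.strong_induction_on with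
  | _ n ih =>
    rcases Nat.eq_zero_or_pos n with rfl | hn
    · simp [ren_zero a0]
    rw [ren_Ioc a0 hn]
    refine (abs_sum_le_sum_abs _ _).trans (le_trans (sum_le_sum fun l hl => ?_)
      ((sum_mul _ _ _).symm.le.trans (mul_le_of_le_one_left (Real.exp_pos _).le (key _))))
    rw [mem_Ioc] at hl
    rw [abs_mul, mul_assoc, ← Real.exp_add]
    refine mul_le_mul_of_nonneg_left ((ih _ (by omega)).trans (le_of_eq ?_)) (abs_nonneg _)
    rw [Nat.cast_sub hl.2]; congr 1; ring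

/-- tail sequence -/
def tl (b : ℕ → ℝ) : ℝ⟦X⟧ := (1 - mk b) * mk 1

lemma coeff_tl {b : ℕ → ℝ} (hb : HasSum b 1) (j : ℕ) :
    coeff j (tl b) = ∑' i, b (i + (j + 1)) := by
  have := hb.summable.sum_add_tsum_nat_add (j + 1)
  rw [hb.tsum_eq] at this
  rw [tl, sub_mul, one_mul, map_sub, coeff_mul,
    Finset.Nat.sum_antidiagonal_eq_sum_range_succ (fun i j => coeff i (mk b) * coeff j (mk 1))]
  simp only [coeff_mk, Pi.one_apply, mul_one]
  linarith

lemma diff_mul_tl {b : ℕ → ℝ} (h : b 0 = 0) : ((1 - X) * mk (ren b)) * tl b = 1 := by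
  calc _ = ((1 - mk b) * mk (ren b)) * (mk 1 * (1 - X)) := by rw [tl]; ring
    _ = 1 := by rw [mul_ren h, mk_one_mul_one_sub_eq_one, one_mul]

lemma sum_diff (v : ℕ → ℝ) (n : ℕ) :
    ∑ i ∈ range (n + 1), coeff i ((1 - X) * mk v : ℝ⟦X⟧) = v n := by
  induction n with
  | zero => simp [sub_mul]
  | succ n ih => rw [sum_range_succ, ih, sub_mul, one_mul, map_sub, coeff_succ_X_mul]; simp

lemma tail_le (h : Mom f η W) {b : ℕ → ℝ} {y ε : ℝ} (hb : HasSum b 1) (hy : 0 ≤ y)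
    (hbf : ∀ l, |b l - f l| ≤ y * (((l : ℝ) + 1) ^ 2 * f l * Real.exp (η * l)))
    (h0 : 0 ≤ ε) (h1 : ε ≤ η) (j : ℕ) :
    |coeff j (tl f) - Real.exp ε ^ j * coeff j (tl b)| ≤ (y + ε) * W * Real.exp (-η) ^ j := by
  have hη := h.eta
  rw [coeff_tl hb, coeff_tl h.sum, ← tsum_mul_left, ← Summable.tsum_sub
    ((summable_nat_add_iff _).2 h.sum.summable)
    (((summable_nat_add_iff _).2 hb.summable).mul_left _)]
  have hm := (summable_nat_add_iff (j + 1)).2 h.mom.summable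
  refine (abs_tsum_le (hm.hasSum.mul_left ((y + ε) * Real.exp (-η) ^ j))
    fun i => ?_).trans ?_
  · set l := i + (j + 1)
    have hjl : j ≤ l := by omega
    have hjl' : (j : ℝ) ≤ l := by exact_mod_cast hjl
    have hl0 : (0 : ℝ) ≤ l := Nat.cast_nonneg l
    rw [← Real.exp_nat_mul, ← Real.exp_nat_mul, mul_comm (j : ℝ) ε,
      show f l - Real.exp (ε * j) * b l = -(f l * (Real.exp (ε * j) - 1))
        - Real.exp (ε * j) * (b l - f l) by ring]
    have e1 := h.le_mw l (i := 1) (by norm_num) (c := η * l + η * j) (by nlinarith)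
    have e2 := h.le_mw l (i := 2) (by norm_num) (c := η * l + ε * j + η * j) (by nlinarith)
    have e3 : Real.exp (η * j) * Real.exp (j * -η) = 1 := by rw [← Real.exp_add]; simp [mul_comm]
    have e4 := Real.exp_pos (j * -η)
    rw [Real.exp_add] at e1
    rw [Real.exp_add, Real.exp_add] at e2
    refine (abs_sub _ _).trans ?_
    rw [abs_neg, abs_mul (Real.exp _), abs_of_pos (Real.exp_pos _), abs_of_nonneg
      (mul_nonneg (h.nonneg l) (sub_nonneg.2 (Real.one_le_exp (by positivity))))]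
    refine (add_le_add (h.exp_le h0 h1 hjl)
      (mul_le_mul_of_nonneg_left (hbf l) (Real.exp_pos _).le)).trans ?_
    have e5 := mul_le_mul_of_nonneg_left (mul_le_mul_of_nonneg_right e1 e4.le) h0
    have e6 := mul_le_mul_of_nonneg_left (mul_le_mul_of_nonneg_right e2 e4.le) hy
    linear_combination e5 + e6 - (ε * ((l + 1) ^ 1 * f l * Real.exp (η * l))
      + Real.exp (ε * j) * (y * ((l + 1) ^ 2 * f l * Real.exp (η * l)))) * e3
  · have := h.mom.summable.sum_add_tsum_nat_add (j + 1)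
    rw [h.mom.tsum_eq] at this
    have h2 := sum_nonneg fun i (_ : i ∈ range (j + 1)) => h.mw_nonneg i
    calc _ ≤ (y + ε) * Real.exp (-η) ^ j * W := by gcongr; linarith
      _ = _ := by ring

lemma geom_bound {g : ℕ → ℝ} {c q : ℝ} (hq0 : 0 ≤ q) (hq : q < 1) (h : ∀ j, |g j| ≤ c * q ^ j) :
    Summable (fun j => ‖g j‖) ∧ ∑' j, ‖g j‖ ≤ c * (1 - q)⁻¹ := by
  have hs := (hasSum_geometric_of_lt_one hq0 hq).mul_left c
  have h1 : Summable fun j => ‖g j‖ := hs.summable.of_nonneg_of_le (fun _ => norm_nonneg _) h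
  exact ⟨h1, hasSum_le h h1.hasSum hs⟩

lemma pole_core (hS : SerStmt) (hT : T6Stmt) (h : Mom f η W) (h1 : 0 < f 1) :
    ∃ r0 B y0 ε : ℝ, 0 < r0 ∧ 0 < B ∧ 0 < y0 ∧ 0 < ε ∧ ∀ (y : ℝ) (b : ℕ → ℝ), 0 ≤ y → y ≤ y0 →
      b 0 = 0 → HasSum b 1 →
      (∀ l, |b l - f l| ≤ y * (((l : ℝ) + 1) ^ 2 * f l * Real.exp (η * l))) →
      ∃ r, 0 ≤ r ∧ |r - r0| ≤ B * y ∧ ∀ n : ℕ, |ren b n - r| ≤ B * Real.exp (-ε * n) := by
  obtain ⟨hmul, hpert, -⟩ := hS.2.2 ℝ
  have hη := h.eta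
  have hW := h.one_le
  have hd : L1 ((1 - X) * mk (ren f) : ℝ⟦X⟧) := by
    refine (summable_nat_add_iff 1).1 ((hT f (ren f) W (3 * η) ⟨h.nonneg, h.zero, ren_eq h.zero⟩
      h.sum h1 (by linarith) fun n => ?_).congr fun n => ?_)
    · have e1 := (h.le_mw n (i := 0) (by norm_num) le_rfl).trans
        (le_hasSum h.mom n fun j _ => h.mw_nonneg j)
      rw [neg_mul, Real.exp_neg, ← div_eq_mul_inv, le_div_iff₀ (Real.exp_pos _)]
      simpa using e1
    · simp [sub_mul, coeff_succ_X_mul]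
  set B := ∑' n, ‖coeff n ((1 - X) * mk (ren f) : ℝ⟦X⟧)‖ + 1 with hB
  have hB1 : 1 ≤ B := le_add_of_nonneg_left (tsum_nonneg fun _ => norm_nonneg _)
  set q := Real.exp (-η)
  have hq0 : 0 < q := Real.exp_pos _
  have hq : q < 1 := Real.exp_lt_one_iff.2 (by linarith)
  set G := W * (1 - q)⁻¹ with hG
  have hG0 : 0 < G := mul_pos (by linarith) (inv_pos.2 (by linarith))
  set y0 := min η (1 / (4 * B * G))
  have hy0 : 0 < y0 := lt_min hη (by positivity)
  have hy1 : y0 * G ≤ 1 / (4 * B) := by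
    refine (mul_le_mul_of_nonneg_right (min_le_right _ _) hG0.le).trans (le_of_eq ?_)
    field_simp
  have hL : L1 (tl f) := by
    refine (geom_bound (c := W) hq0.le hq fun j => ?_).1
    rw [coeff_tl h.sum]
    have hm := (summable_nat_add_iff (j + 1)).2 h.mom.summable
    refine (abs_tsum_le (hm.hasSum.mul_left (q ^ j)) fun i => ?_).trans ?_
    · have e1 := h.le_mw (i + (j + 1)) (i := 0) (by norm_num) (c := η * j) (by
        push_cast; nlinarith [(Nat.cast_nonneg j : (0:ℝ) ≤ j), (Nat.cast_nonneg i : (0:ℝ) ≤ i)])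
      rw [abs_of_nonneg (h.nonneg _), ← Real.exp_nat_mul, mul_neg, Real.exp_neg,
        ← div_eq_inv_mul, le_div_iff₀ (Real.exp_pos _), mul_comm (j : ℝ)]
      simpa using e1
    · have := h.mom.summable.sum_add_tsum_nat_add (j + 1)
      rw [h.mom.tsum_eq] at this
      have h2 := sum_nonneg fun i (_ : i ∈ range (j + 1)) => h.mw_nonneg i
      rw [mul_comm]; gcongr; linarith
  have hμ : 1 ≤ SumP (tl f) := by
    have := le_hasSum hL.of_norm.hasSum 0 fun j _ => by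
      rw [coeff_tl h.sum]; exact tsum_nonneg fun _ => h.nonneg _
    refine le_trans (le_of_eq ?_) this
    simp [tl, h.zero]
  refine ⟨1 / SumP (tl f), 2 * (B + G), y0, y0, by positivity, by positivity, hy0, hy0,
    fun y b hy hyy b0 hb hbf => ?_⟩
  have t0 := geom_bound hq0.le hq (tail_le h hb hy hbf le_rfl hη.le)
  simp only [Real.exp_zero, one_pow, one_mul, add_zero, ← map_sub] at t0
  have t1 := geom_bound hq0.le hq (tail_le h hb hy hbf hy0.le (min_le_left _ _))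
  simp only [← coeff_rescale, ← map_sub] at t1
  obtain ⟨p1, p2⟩ := hpert (tl f) _ (rescale (Real.exp y0) (tl b))
    (rescale (Real.exp y0) ((1 - X) * mk (ren b))) B (by linarith) (diff_mul_tl h.zero)
    (by rw [← map_mul, mul_comm, diff_mul_tl b0, map_one]) hd t1.1 (by linarith)
    (t1.2.trans (by
      rw [mul_assoc, ← hG, show 1 / (2 * B) = 2 * (1 / (4 * B)) by field_simp; ring]
      nlinarith))
  set d := (1 - X) * mk (ren b)
  have hdn : ∀ n i : ℕ, n ≤ i → ‖coeff i d‖ ≤ Real.exp (-y0 * n) *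
      ‖coeff i (rescale (Real.exp y0) d)‖ := fun n i hi => by
    rw [coeff_rescale, norm_mul, ← mul_assoc, ← Real.exp_nat_mul,
      Real.norm_of_nonneg (Real.exp_pos _).le, ← Real.exp_add]
    refine le_mul_of_one_le_left (norm_nonneg _) (Real.one_le_exp ?_)
    have : (n : ℝ) ≤ i := by exact_mod_cast hi
    nlinarith
  have hdL : L1 d := (p1.mul_left _).of_nonneg_of_le (fun _ => norm_nonneg _)
    fun i => hdn 0 i (Nat.zero_le _)
  have hbL : L1 (tl b) := by
    refine (hL.add t0.1).of_nonneg_of_le (fun _ => norm_nonneg _) fun j => ?_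
    rw [map_sub]; exact norm_le_norm_add_norm_sub _ _
  have e1 := (hmul _ _ hdL hbL).2
  rw [diff_mul_tl b0] at e1
  have e2 : SumP (1 : ℝ⟦X⟧) = 1 := by
    simp only [SumP, coeff_one]; exact (hasSum_ite_eq 0 (1 : ℝ)).tsum_eq
  have e3 : |SumP (tl f) - SumP (tl b)| ≤ y * G := by
    rw [SumP, SumP, ← hL.of_norm.tsum_sub hbL.of_norm, hG, ← mul_assoc]
    simp only [← map_sub]
    exact (norm_tsum_le_tsum_norm t0.1).trans t0.2
  have e4 : y * G ≤ 1 / 4 := ((mul_le_mul_of_nonneg_right hyy hG0.le).trans hy1).trans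
    (one_div_le_one_div_of_le (by norm_num) (by linarith))
  have e5 : 1 / 2 ≤ SumP (tl b) := by linarith [(abs_le.1 e3).2]
  have e6 : SumP d = 1 / SumP (tl b) := by rw [eq_div_iff (by linarith), ← e1, e2]
  refine ⟨SumP d, by rw [e6]; positivity, ?_, fun n => ?_⟩
  · rw [e6, div_sub_div _ _ (by linarith) (by linarith), one_mul, mul_one, abs_div,
      abs_of_pos (a := SumP (tl b) * _) (by positivity), div_le_iff₀ (by positivity)]
    refine e3.trans ?_
    have : 1 / 2 ≤ SumP (tl b) * SumP (tl f) := by nlinarith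
    calc _ ≤ 2 * (B + G) * y * (1 / 2) := by nlinarith
      _ ≤ _ := by gcongr
  · rw [← sum_diff (ren b) n, SumP, ← hdL.of_norm.sum_add_tsum_nat_add (n + 1), sub_add_cancel_left,
      abs_neg]
    have hm := (summable_nat_add_iff (n + 1)).2 p1
    refine (abs_tsum_le (hm.hasSum.mul_left _) fun i => hdn n _ (by omega)).trans ?_
    have := p1.sum_add_tsum_nat_add (n + 1)
    have h2 := sum_nonneg fun i (_ : i ∈ range (n + 1)) =>
      norm_nonneg (coeff i (rescale (Real.exp y0) d))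
    rw [mul_comm]; gcongr; linarith

lemma pow_sub_le {x : ℝ} (hx : 0 ≤ x) (l : ℕ) :
    (1 + x) ^ l - 1 ≤ l * x * (1 + x) ^ l ∧ (1 + x) ^ l - 1 - l * x ≤ (l * x) ^ 2 * (1 + x) ^ l := by
  have h1 : ∀ n : ℕ, 1 ≤ (1 + x) ^ n := fun n => one_le_pow₀ (by linarith)
  induction l with
  | zero => simp
  | succ l ih =>
    have hl : (0 : ℝ) ≤ l := Nat.cast_nonneg l
    have := h1 l
    have h2 : 0 ≤ l * x := by positivity
    rw [pow_succ]; push_cast
    constructor
    · have h6 : 0 ≤ (l + 1) * x * (1 + x) ^ l * x := by positivity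
      linarith [ih.1]
    · have h3 := mul_le_mul_of_nonneg_left ih.1 hx
      have h4 : 0 ≤ x ^ 2 * (1 + x) ^ l := by positivity
      have h5 : 0 ≤ ((l + 1) * x) ^ 2 * (1 + x) ^ l * x := by positivity
      linarith [mul_nonneg hl h4, ih.2]

lemma root (h : Mom f η W) {a : ℕ → ℝ} {y : ℝ} (hy : 0 ≤ y) (hyW : y * W ≤ η)
    (ha : ∀ l, |a l| ≤ f l) (haf : ∀ l, f l - a l ≤ y * (l ^ 2 * f l)) :
    ∃ x, 0 ≤ x ∧ x ≤ y * W ∧ HasSum (fun l => a l * (1 + x) ^ l) 1 ∧
      (∀ l, |a l * (1 + x) ^ l - f l|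
        ≤ 2 * (y * W) * (((l : ℝ) + 1) ^ 2 * f l * Real.exp (η * l))) ∧
      |(∑' l, l * f l) * x - ∑' l, (f l - a l)| ≤ 2 * (y * W) ^ 2 * W := by
  have hη := h.eta
  have hW := h.one_le
  have hz : ∀ x, 0 ≤ x → x ≤ y * W → ∀ l : ℕ, (1 + x) ^ l ≤ Real.exp (η * l) := fun x h0 h1 l => by
    rw [mul_comm, Real.exp_nat_mul]
    exact pow_le_pow_left₀ (by linarith) (by linarith [Real.add_one_le_exp η]) l
  have hm : ∀ (l i : ℕ), i ≤ 4 → (l : ℝ) ^ i * f l * Real.exp (η * l) ≤ mw f η l := fun l i hi => by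
    have := h.nonneg l
    refine le_trans ?_ (h.le_mw l hi (c := η * l) (by nlinarith [(Nat.cast_nonneg l : (0:ℝ) ≤ l)]))
    gcongr; linarith
  have hb : ∀ x, 0 ≤ x → x ≤ y * W → ∀ l, |a l * (1 + x) ^ l| ≤ 1 * mw f η l := fun x h0 h1 l => by
    rw [abs_mul, abs_of_nonneg (a := (1 + x) ^ l) (by positivity), one_mul]
    refine (mul_le_mul (ha l) (hz x h0 h1 l) (by positivity) (h.nonneg l)).trans ?_
    simpa using hm l 0 (by norm_num)
  have hlf : ∀ l : ℕ, |l * f l| ≤ 1 * mw f η l := fun l => by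
    have := h.nonneg l
    rw [abs_of_nonneg (by positivity), one_mul]
    refine le_trans ?_ (hm l 1 (by norm_num))
    rw [pow_one]; exact le_mul_of_one_le_right (by positivity) (Real.one_le_exp (by positivity))
  have sa : Summable a := h.sum.summable.of_norm_bounded ha
  have hyW0 : 0 ≤ y * W := by positivity
  obtain ⟨x, ⟨x0, x1⟩, hx⟩ := intermediate_value_Icc hyW0
    (f := fun x => ∑' l, a l * (1 + x) ^ l)
    (continuousOn_tsum (fun l => by fun_prop) (h.mom.summable.mul_left 1)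
      fun l x hx => hb x hx.1 hx.2 l) (show (1 : ℝ) ∈ _ from ⟨by
        simp only [add_zero, one_pow, mul_one]
        exact hasSum_le (fun l => (abs_le.1 (ha l)).2) sa.hasSum h.sum, by
        have hs := (h.sum.add (h.sum.mul_left (y * W))).sub (h.mom.mul_left y)
        refine le_trans (by linarith) (hasSum_le (fun l => ?_) hs
          (h.abs_tsum_le (hb _ hyW0 le_rfl)).1.hasSum)
        have e1 : f l + y * W * f l ≤ f l * (1 + y * W) ^ l := by
          rcases Nat.eq_zero_or_pos l with rfl | hl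
          · simp [h.zero]
          · have := mul_le_mul_of_nonneg_left
              (le_self_pow₀ (show 1 ≤ 1 + y * W by linarith) hl.ne') (h.nonneg l)
            linarith
        have e2 := mul_le_mul (haf l) (hz _ hyW0 le_rfl l) (by positivity)
          (by have := h.nonneg l; positivity)
        have e3 := mul_le_mul_of_nonneg_left (hm l 2 (by norm_num)) hy
        linarith⟩)
  have sx := (h.abs_tsum_le (hb x x0 x1)).1
  have hs : HasSum (fun l => a l * (1 + x) ^ l) 1 := by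
    have := sx.hasSum; rwa [show ∑' l, a l * (1 + x) ^ l = 1 from hx] at this
  have hyy : y ≤ y * W := le_mul_of_one_le_right hy hW
  refine ⟨x, x0, x1, hs, fun l => ?_, ?_⟩
  · have f0 := h.nonneg l
    have hl : (0 : ℝ) ≤ l := Nat.cast_nonneg l
    have e1 : 0 ≤ f l - a l := by linarith [(abs_le.1 (ha l)).2]
    have e2 := (pow_sub_le x0 l).1
    have e3 : 1 ≤ (1 + x) ^ l := one_le_pow₀ (by linarith)
    rw [show a l * (1 + x) ^ l - f l = f l * ((1 + x) ^ l - 1) - (f l - a l) * (1 + x) ^ l by ring]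
    refine (abs_sub _ _).trans ?_
    rw [abs_of_nonneg (mul_nonneg f0 (by linarith)), abs_of_nonneg (by positivity)]
    have e4 := hz x x0 x1 l
    calc _ ≤ f l * ((l + 1) ^ 2 * (y * W) * Real.exp (η * l))
          + (y * W) * ((l + 1) ^ 2 * f l) * Real.exp (η * l) := by
          refine add_le_add (mul_le_mul_of_nonneg_left (e2.trans ?_) f0)
            (mul_le_mul ((haf l).trans ?_) e4 (by positivity) (by positivity))
          · gcongr; nlinarith
          · gcongr; linarith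
      _ = _ := by ring
  · have e : (∑' l, l * f l) * x - ∑' l, (f l - a l) = ∑' l, ((f l - a l) * ((1 + x) ^ l - 1)
        - f l * ((1 + x) ^ l - 1 - l * x)) := by
      have := ((((h.abs_tsum_le hlf).1.hasSum.mul_right x).sub
        (h.sum.summable.sub sa).hasSum).sub (hs.sub h.sum)).tsum_eq
      rw [sub_self, sub_zero] at this
      rw [← this]; exact tsum_congr fun l => by ring
    rw [e]
    refine (h.abs_tsum_le fun l => ?_).2
    have f0 := h.nonneg l
    have hl : (0 : ℝ) ≤ l := Nat.cast_nonneg l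
    have e1 : 0 ≤ f l - a l := by linarith [(abs_le.1 (ha l)).2]
    obtain ⟨e2, e5⟩ := pow_sub_le x0 l
    have e3 : 1 ≤ (1 + x) ^ l := one_le_pow₀ (by linarith)
    have e4 := hz x x0 x1 l
    have e6 := one_add_mul_le_pow (show -2 ≤ x by linarith) l
    refine (abs_sub _ _).trans ?_
    rw [abs_of_nonneg (mul_nonneg e1 (by linarith)), abs_of_nonneg (mul_nonneg f0 (by linarith))]
    calc _ ≤ (y * W) * (l ^ 2 * f l) * (l * (y * W) * Real.exp (η * l))
          + f l * ((l * (y * W)) ^ 2 * Real.exp (η * l)) := by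
          refine add_le_add (mul_le_mul ((haf l).trans ?_) (e2.trans ?_) (by linarith)
            (by positivity)) (mul_le_mul_of_nonneg_left (e5.trans ?_) f0) <;> gcongr
      _ = (y * W) ^ 2 * (l ^ 3 * f l * Real.exp (η * l) + l ^ 2 * f l * Real.exp (η * l)) := by
          ring
      _ ≤ (y * W) ^ 2 * (mw f η l + mw f η l) := by
          gcongr; exacts [hm l 3 (by norm_num), hm l 2 (by norm_num)]
      _ = _ := by ring

end

end Pool.Agent.MP_48a2f9_mp.LLT

end MrgPart0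

-- ======== part 1: formerly Pool.Agent.MP_48a2f9_mp.LLT1
section MrgPart1

/-! The characteristic function of the step law and its dominant pole. -/

open Finset Filter Topology Real

namespace Pool.Agent.MP_48a2f9_mp.LLT

noncomputable section

variable {D : ℕ}

/-- lattice ball -/
def bx (u : Tr D) (R : ℕ) : Finset (Tr D) := Fintype.piFinset fun i => Icc (u i - R) (u i + R)

lemma mem_bx {u v : Tr D} {R : ℕ} : v ∈ bx u R ↔ ‖v - u‖ ≤ R := by
  rw [bx, Fintype.mem_piFinset, pi_norm_le_iff_of_nonneg (Nat.cast_nonneg R)]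
  refine forall_congr' fun i => ?_
  rw [mem_Icc, Int.norm_eq_abs, Pi.sub_apply, ← Int.cast_abs, ← Int.cast_natCast (R := ℝ),
    Int.cast_le, abs_le]
  omega

lemma card_bx (u : Tr D) (R : ℕ) : ((bx u R).card : ℝ) = (2 * R + 1) ^ D := by
  have : ∀ i, (Icc (u i - R) (u i + R)).card = 2 * R + 1 := fun i => by
    rw [Int.card_Icc]; omega
  rw [bx, Fintype.card_piFinset]; simp [this]

lemma poly_exp (d : ℕ) {a ν : ℝ} (ha : 0 ≤ a) (hν : 0 < ν) :
    ∃ K, 0 < K ∧ ∀ l : ℕ, (a * l + 1) ^ d ≤ K * exp (ν * l) := by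
  refine ⟨(a + 1) ^ d * d.factorial / ν ^ d * exp ν, by positivity, fun l => ?_⟩
  have hl : (0 : ℝ) ≤ l := Nat.cast_nonneg l
  have h1 := pow_div_factorial_le_exp (ν * (l + 1)) (by positivity) d
  rw [div_le_iff₀ (by positivity), mul_pow, mul_add, mul_one, exp_add] at h1
  calc _ ≤ ((a + 1) * (l + 1)) ^ d := by gcongr; nlinarith
    _ = (a + 1) ^ d / ν ^ d * (ν ^ d * (l + 1) ^ d) := by rw [mul_pow]; field_simp
    _ ≤ (a + 1) ^ d / ν ^ d * (exp (ν * l) * exp ν * d.factorial) := by gcongr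
    _ = _ := by ring

/-- scalar product -/
def dot (k : Fin D → ℝ) (u : Tr D) : ℝ := ∑ i, k i * u i

lemma abs_dot_le (k : Fin D → ℝ) (u : Tr D) : |dot k u| ≤ D * (‖k‖ * ‖u‖) := by
  refine (abs_sum_le_sum_abs _ _).trans ((sum_le_sum fun i _ =>
    show _ ≤ ‖k‖ * ‖u‖ from ?_).trans (by simp))
  rw [abs_mul]
  exact mul_le_mul (norm_le_pi_norm k i) (by rw [← Int.norm_eq_abs]; exact norm_le_pi_norm u i)
    (abs_nonneg _) (norm_nonneg _)

lemma dot_neg (k : Fin D → ℝ) (u : Tr D) : dot k (-u) = -dot k u := by simp [dot]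

lemma dot_sub (k : Fin D → ℝ) (u w : Tr D) : dot k (u - w) = dot k u - dot k w := by
  simp [dot, mul_sub]

lemma dot_smul (t : ℝ) (k : Fin D → ℝ) (u : Tr D) : dot (t • k) u = t * dot k u := by
  simp [dot, mul_sum, mul_assoc]

lemma dot_single (k : Fin D → ℝ) (i : Fin D) : dot k (Pi.single i 1) = k i := by
  simp [dot, Pi.single_apply]

@[simp] lemma dot_zero (k : Fin D → ℝ) : dot k 0 = 0 := by simp [dot]

@[fun_prop] lemma continuous_dot (u : Tr D) : Continuous fun k : Fin D → ℝ => dot k u := by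
  unfold dot; fun_prop

lemma cos_taylor (θ : ℝ) : |1 - cos θ - θ ^ 2 / 2| ≤ 3 * θ ^ 4 := by
  have h0 : 0 ≤ θ ^ 4 := by positivity
  rcases le_total |θ| 1 with h | h
  · have := cos_bound h
    rw [pow_abs, abs_of_nonneg h0, abs_sub_comm] at this
    rw [show 1 - cos θ - θ ^ 2 / 2 = 1 - θ ^ 2 / 2 - cos θ by ring]; linarith
  · have h1 : 1 ≤ θ ^ 2 := by rw [← sq_abs]; exact one_le_pow₀ h
    rw [abs_le]
    constructor <;> nlinarith [cos_le_one θ, neg_one_le_cos θ]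

/-- average of a function over the steps of length `l` -/
def av (p : ℕ → Tr D → ℝ) (M l : ℕ) (φ : Tr D → ℝ) : ℝ := ∑ u ∈ bx 0 (M * l), p l u * φ u

/-- marginal -/
def mf (p : ℕ → Tr D → ℝ) (l : ℕ) : ℝ := ∑' u, p l u

/-- characteristic function -/
def ah (p : ℕ → Tr D → ℝ) (M : ℕ) (k : Fin D → ℝ) (l : ℕ) : ℝ := av p M l fun u => cos (dot k u)

/-- quadratic form -/
def Qs (p : ℕ → Tr D → ℝ) (M : ℕ) (k : Fin D → ℝ) : ℝ :=
  ∑' l, av p M l fun u => dot k u ^ 2 / 2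

variable {p : ℕ → Tr D → ℝ} {M : ℕ} {C ν η W : ℝ}

lemma p_nonneg (hp : HomOK p M C ν) (l : ℕ) (u : Tr D) : 0 ≤ p l u := by
  simpa [hk] using hp.ker.nonneg l 0 u

lemma p_zero (hp : HomOK p M C ν) (u : Tr D) : p 0 u = 0 := by simpa [hk] using hp.ker.zero 0 u

lemma tsum_p (hp : HomOK p M C ν) (l : ℕ) (φ : Tr D → ℝ) : ∑' u, p l u * φ u = av p M l φ := by
  refine tsum_eq_sum fun u hu => ?_
  by_contra h
  exact hu (mem_bx.2 (by simpa [hk] using hp.ker.range l 0 u (by simpa [hk] using left_ne_zero_of_mul h)))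

lemma mf_eq (hp : HomOK p M C ν) (l : ℕ) : mf p l = av p M l fun _ => 1 := by
  rw [← tsum_p hp]; simp [mf]

lemma mf_nonneg (hp : HomOK p M C ν) (l : ℕ) : 0 ≤ mf p l := tsum_nonneg (p_nonneg hp l)

lemma mf_zero (hp : HomOK p M C ν) : mf p 0 = 0 := by simp [mf, p_zero hp]

lemma C_nonneg (hp : HomOK p M C ν) : 0 ≤ C := by
  simpa using (hp.ker.nonneg 0 0 0).trans (hp.ker.decay 0 0 0)

lemma mf_le (hp : HomOK p M C ν) (l : ℕ) : mf p l ≤ (2 * M * l + 1) ^ D * (C * exp (-ν * l)) := by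
  rw [mf_eq hp, av]
  refine (sum_le_sum fun u _ => show _ ≤ C * exp (-ν * l) by
    simpa [hk] using hp.ker.decay l 0 u).trans (le_of_eq ?_)
  rw [sum_const, nsmul_eq_mul, card_bx]; push_cast; ring

lemma summable_mw (hp : HomOK p M C ν) (hν : 0 < ν) : Summable (mw (mf p) (ν / 8)) := by
  obtain ⟨K, hK0, hK⟩ := poly_exp (4 + D) (a := 2 * M + 1) (by positivity) (show 0 < ν / 8 by linarith)
  have hC := C_nonneg hp
  refine ((summable_pow_mul_exp_neg_nat_mul 0 (show 0 < ν / 2 by linarith)).mul_left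
    (K * C)).of_nonneg_of_le (fun l => by have := mf_nonneg hp l; unfold mw; positivity) fun l => ?_
  have hl : (0 : ℝ) ≤ l := Nat.cast_nonneg l
  have hM : (0 : ℝ) ≤ M * l := by positivity
  calc _ ≤ ((2 * M + 1) * l + 1) ^ 4 * (((2 * M + 1) * l + 1) ^ D * (C * exp (-ν * l)))
        * exp (3 * (ν / 8) * l) := by
        have := mf_nonneg hp l
        have e1 : (l : ℝ) + 1 ≤ (2 * M + 1) * l + 1 := by linarith
        have e2 : mf p l ≤ ((2 * M + 1) * l + 1) ^ D * (C * exp (-ν * l)) :=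
          (mf_le hp l).trans (by gcongr; linarith)
        unfold mw; gcongr
    _ = ((2 * M + 1) * l + 1) ^ (4 + D) * (C * (exp (-ν * l) * exp (3 * (ν / 8) * l))) := by ring
    _ ≤ K * exp (ν / 8 * l) * (C * (exp (-ν * l) * exp (3 * (ν / 8) * l))) := by gcongr; exact hK l
    _ = K * C * exp (ν / 8 * l + (-ν * l + 3 * (ν / 8) * l)) := by rw [exp_add, exp_add]; ring
    _ = _ := by rw [pow_zero, one_mul]; congr 2; ring

lemma abs_av_le (hp : HomOK p M C ν) (l : ℕ) {φ : Tr D → ℝ} {c : ℝ}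
    (h : ∀ u : Tr D, ‖u‖ ≤ M * l → |φ u| ≤ c) : |av p M l φ| ≤ c * mf p l := by
  rw [mf_eq hp, av, av, mul_sum]
  refine (abs_sum_le_sum_abs _ _).trans (sum_le_sum fun u hu => ?_)
  rw [abs_mul, abs_of_nonneg (p_nonneg hp l u), mul_one, mul_comm c]
  exact mul_le_mul_of_nonneg_left (h u (by simpa using mem_bx.1 hu)) (p_nonneg hp l u)

lemma av_sub (l : ℕ) (φ ψ : Tr D → ℝ) :
    av p M l φ - av p M l ψ = av p M l fun u => φ u - ψ u := by
  simp [av, mul_sub]

lemma le_av (hp : HomOK p M C ν) {φ : Tr D → ℝ} (h : ∀ u, 0 ≤ φ u) {u : Tr D} (hu : ‖u‖ ≤ 1) :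
    p 2 u * φ u ≤ av p M 2 φ := by
  refine single_le_sum (f := fun u => p 2 u * φ u)
    (fun v _ => mul_nonneg (p_nonneg hp _ _) (h v)) (mem_bx.2 ?_)
  simpa [hk] using hp.ker.range 2 0 u (by simpa [hk] using (hp.pos2 u hu).ne')

lemma dot_sq_le (k : Fin D → ℝ) {u : Tr D} {l : ℕ} (hu : ‖u‖ ≤ M * l) :
    dot k u ^ 2 ≤ (D * M) ^ 2 * ‖k‖ ^ 2 * l ^ 2 := by
  rw [← sq_abs]
  calc _ ≤ (D * (‖k‖ * (M * l))) ^ 2 := by gcongr; exact (abs_dot_le k u).trans (by gcongr)
    _ = _ := by ring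

lemma abs_ah_le (hp : HomOK p M C ν) (k : Fin D → ℝ) (l : ℕ) : |ah p M k l| ≤ mf p l := by
  simpa [ah] using abs_av_le hp l (c := 1) fun u _ => abs_cos_le_one (dot k u)

lemma ah_zero (hp : HomOK p M C ν) (k : Fin D → ℝ) : ah p M k 0 = 0 := by
  simp [ah, av, p_zero hp]

lemma sub_ah_le (hp : HomOK p M C ν) (k : Fin D → ℝ) (l : ℕ) :
    mf p l - ah p M k l ≤ (D * M) ^ 2 * ‖k‖ ^ 2 * (l ^ 2 * mf p l) := by
  rw [← mul_assoc]
  refine le_trans (le_of_eq ?_) ((le_abs_self _).trans (abs_av_le hp l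
    (φ := fun u => 1 - cos (dot k u)) fun u hu => ?_))
  · rw [mf_eq hp, ah, av_sub]
  · rw [abs_of_nonneg (by linarith [cos_le_one (dot k u)])]
    nlinarith [dot_sq_le k hu, one_sub_sq_div_two_le_cos (x := dot k u), sq_nonneg (dot k u)]

lemma pow_mf_le (h : Mom (mf p) η W) (l : ℕ) {i : ℕ} (hi : i ≤ 4) :
    (l : ℝ) ^ i * mf p l ≤ mw (mf p) η l := by
  have := h.nonneg l
  have hη := h.eta
  refine le_trans ?_ (h.le_mw l hi (c := 0) (by positivity))
  rw [exp_zero, mul_one]; gcongr; linarith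

lemma abs_q_le (hp : HomOK p M C ν) (h : Mom (mf p) η W) (k : Fin D → ℝ) (l : ℕ) :
    |av p M l fun u => dot k u ^ 2 / 2| ≤ (D * M) ^ 2 * ‖k‖ ^ 2 * mw (mf p) η l := by
  refine (abs_av_le hp l (c := (D * M) ^ 2 * ‖k‖ ^ 2 * l ^ 2) fun u hu => ?_).trans ?_
  · rw [abs_of_nonneg (by positivity)]; linarith [dot_sq_le k hu, sq_nonneg (dot k u)]
  · rw [mul_assoc]; exact mul_le_mul_of_nonneg_left (pow_mf_le h l (by norm_num)) (by positivity)

lemma continuous_Qs (hp : HomOK p M C ν) (h : Mom (mf p) η W) : Continuous (Qs p M) := by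
  refine continuous_iff_continuousAt.2 fun k => ContinuousOn.continuousAt
    (s := Metric.ball 0 (‖k‖ + 1)) ?_ (Metric.isOpen_ball.mem_nhds (by simp))
  refine continuousOn_tsum (fun l => by unfold av; fun_prop)
    (h.mom.summable.mul_left ((D * M) ^ 2 * (‖k‖ + 1) ^ 2)) fun l x hx =>
      (abs_q_le hp h x l).trans ?_
  have := h.mw_nonneg l
  gcongr; exact (mem_ball_zero_iff.1 hx).le

lemma Qs_smul (t : ℝ) (k : Fin D → ℝ) : Qs p M (t • k) = t ^ 2 * Qs p M k := by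
  rw [Qs, Qs, ← tsum_mul_left]
  refine tsum_congr fun l => ?_
  rw [av, av, mul_sum]
  exact sum_congr rfl fun u _ => by rw [dot_smul]; ring

lemma Qs_approx (hp : HomOK p M C ν) (h : Mom (mf p) η W) (k : Fin D → ℝ) :
    |∑' l, (mf p l - ah p M k l) - Qs p M k| ≤ 3 * ((D * M) ^ 2 * ‖k‖ ^ 2) ^ 2 * W := by
  rw [Qs, ← (h.sum.summable.sub (h.sum.summable.of_norm_bounded (abs_ah_le hp k))).tsum_sub
    (h.abs_tsum_le (abs_q_le hp h k)).1]
  refine (h.abs_tsum_le fun l => ?_).2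
  rw [mf_eq hp, ah, av_sub, av_sub]
  refine (abs_av_le hp l (c := 3 * ((D * M) ^ 2 * ‖k‖ ^ 2) ^ 2 * l ^ 4) fun u hu =>
    (cos_taylor _).trans ?_).trans ?_
  · calc _ = 3 * (dot k u ^ 2) ^ 2 := by ring
      _ ≤ 3 * ((D * M) ^ 2 * ‖k‖ ^ 2 * l ^ 2) ^ 2 := by gcongr; exact dot_sq_le k hu
      _ = _ := by ring
  · rw [mul_assoc]; exact mul_le_mul_of_nonneg_left (pow_mf_le h l le_rfl) (by positivity)

lemma exists_coord (hD : 1 ≤ D) (k : Fin D → ℝ) : ∃ i, |k i| = ‖k‖ := by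
  have : Nonempty (Fin D) := ⟨⟨0, hD⟩⟩
  obtain ⟨i, hi⟩ := Finite.exists_max fun i => |k i|
  exact ⟨i, le_antisymm (norm_le_pi_norm k i)
    ((pi_norm_le_iff_of_nonneg (abs_nonneg _)).2 hi)⟩

/-- the description of the renewal sequence by its dominant pole -/
structure Pole (G : (Fin D → ℝ) → ℕ → ℝ) (Q : (Fin D → ℝ) → ℝ) (c K ε r0 : ℝ) : Prop where
  c_pos : 0 < c
  one_le : 1 ≤ K
  eps : 0 < ε
  r0_pos : 0 < r0
  r0_le : r0 ≤ K
  cont : Continuous Q
  hom : ∀ (t : ℝ) k, Q (t • k) = t ^ 2 * Q k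
  lo : ∀ k, c * ‖k‖ ^ 2 ≤ Q k
  hi : ∀ k, Q k ≤ K * ‖k‖ ^ 2
  pole : ∀ k, ‖k‖ ≤ π → ∃ r l : ℝ, 0 ≤ r ∧ r ≤ K ∧ 0 ≤ l ∧ l ≤ exp (-(c * ‖k‖ ^ 2)) ∧
    |l - 1 + Q k| ≤ K * (‖k‖ ^ 2) ^ 2 ∧ |r - r0| ≤ K * ‖k‖ ^ 2 ∧
    ∀ n : ℕ, |G k n - r * l ^ n| ≤ K * exp (-ε * n)

end

end Pool.Agent.MP_48a2f9_mp.LLT

end MrgPart1

-- ======== part 2: formerly Pool.Agent.MP_48a2f9_mp.LLT1b
section MrgPart2

/-! Existence of the dominant pole. -/

open Finset Filter Topology Real

namespace Pool.Agent.MP_48a2f9_mp.LLT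

noncomputable section

variable {D : ℕ} {p : ℕ → Tr D → ℝ} {M : ℕ} {C ν : ℝ}

theorem exists_pole (hS : SerStmt) (hT : T6Stmt) (hD : 1 ≤ D) (hν : 0 < ν) (hp : HomOK p M C ν)
    (hm : Mass p) : ∃ Q c K ε r0, Pole (fun k => ren (ah p M k)) Q c K ε r0 := by
  set η := ν / 8
  set W := ∑' l, mw (mf p) η l
  have h : Mom (mf p) η W := ⟨by positivity, mf_nonneg hp, mf_zero hp, hm,
    (summable_mw hp hν).hasSum⟩
  clear_value η W
  have hW := h.one_le
  have hη := h.eta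
  have f1 : 0 < mf p 1 := by
    rw [mf_eq hp, av]
    refine lt_of_lt_of_le (by simpa using hp.pos1) (single_le_sum
      (f := fun u => p 1 u * 1) (fun u _ => by simpa using p_nonneg hp 1 u) (a := 0)
      (mem_bx.2 (by simp)))
  obtain ⟨r0, B, y0, ε, hr0, hB, hy0, hε, core⟩ := pole_core hS hT h f1
  obtain ⟨o, ho⟩ := Finite.exists_min fun o : Option (Fin D) => p 2 (o.elim 0 (Pi.single · 1))
  set c0 := p 2 (o.elim 0 (Pi.single · 1))
  have n1 : ∀ i : Fin D, ‖(Pi.single i 1 : Tr D)‖ ≤ 1 := fun i => by rw [Pi.norm_single]; simp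
  have hc0 : 0 < c0 := hp.pos2 _ (by cases o; exacts [by simp, n1 _])
  set μ := ∑' l : ℕ, l * mf p l
  have hμ := h.abs_tsum_le (g := fun l : ℕ => l * mf p l) (c := 1) fun l => by
    have := h.nonneg l
    rw [abs_of_nonneg (by positivity), one_mul]; simpa using pow_mf_le h l (i := 1) (by norm_num)
  have hμ1 : 1 ≤ μ := hasSum_le (fun l => by
    rcases Nat.eq_zero_or_pos l with rfl | hl
    · simp [h.zero]
    · exact le_mul_of_one_le_left (h.nonneg l) (by exact_mod_cast hl)) h.sum hμ.1.hasSum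
  have hμ2 : μ ≤ W := by simpa using (abs_le.1 hμ.2).2
  set A : ℝ := (D * M) ^ 2 with hA
  have hA0 : 0 ≤ A := by positivity
  set c := c0 / (4 * W) with hc
  have hc' : 0 < c := by positivity
  have lo : ∀ k, 2 * c * ‖k‖ ^ 2 ≤ Qs p M k / μ := fun k => by
    obtain ⟨i, hi⟩ := exists_coord hD k
    have e1 := le_av hp (φ := fun u => dot k u ^ 2 / 2) (fun u => by positivity) (n1 i)
    have e2 : av p M 2 (fun u => dot k u ^ 2 / 2) ≤ Qs p M k :=
      (h.abs_tsum_le (abs_q_le hp h k)).1.le_tsum 2 fun l _ =>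
        sum_nonneg fun u _ => mul_nonneg (p_nonneg hp _ _) (by positivity)
    rw [dot_single, ← sq_abs, hi] at e1
    have e3 := mul_le_mul_of_nonneg_right (ho (some i)) (show 0 ≤ ‖k‖ ^ 2 / 2 by positivity)
    rw [le_div_iff₀ (by linarith)]
    calc _ ≤ 2 * c * ‖k‖ ^ 2 * W := by gcongr
      _ = c0 * (‖k‖ ^ 2 / 2) := by rw [hc]; field_simp; ring
      _ ≤ _ := e3.trans (e1.trans e2)
  have hi : ∀ k, Qs p M k / μ ≤ A * W * ‖k‖ ^ 2 := fun k => by
    have := (abs_le.1 (h.abs_tsum_le (abs_q_le hp h k)).2).2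
    rw [div_le_iff₀ (by linarith)]
    calc _ ≤ A * W * ‖k‖ ^ 2 * 1 := by rw [Qs]; linarith
      _ ≤ _ := by gcongr
  set δ := min (min η (y0 / 2) / (A * W + 1)) (c / (6 * A ^ 2 * W ^ 3 + 1))
  have hδ : 0 < δ := lt_min (by have := lt_min hη (half_pos hy0); positivity) (by positivity)
  set κ := c0 * (2 / π ^ 2 * δ)
  have hκ : 0 < κ := by positivity
  obtain ⟨K, K0, K1, K2, K3, K4, K5, K6, K7⟩ : ∃ K, 1 ≤ K ∧ 6 * A ^ 2 * W ^ 3 ≤ K ∧ B ≤ K ∧
      B * (2 * A * W) ≤ K ∧ r0 + B * y0 ≤ K ∧ A * W ≤ K ∧ 1 / δ ^ 2 + A * W / δ ≤ K ∧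
      r0 / δ ≤ K := by
    have a1 : 0 ≤ 6 * A ^ 2 * W ^ 3 := by positivity
    have a2 : 0 ≤ B * (2 * A * W) := by positivity
    have a3 : 0 ≤ r0 + B * y0 := by positivity
    have a4 : 0 ≤ A * W := by positivity
    have a5 : 0 ≤ 1 / δ ^ 2 + A * W / δ := by positivity
    have a6 : 0 ≤ r0 / δ := by positivity
    exact ⟨1 + 6 * A ^ 2 * W ^ 3 + B + B * (2 * A * W) + (r0 + B * y0) + A * W
      + (1 / δ ^ 2 + A * W / δ) + r0 / δ, by linarith, by linarith, by linarith, by linarith,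
      by linarith, by linarith, by linarith, by linarith⟩
  have hε' : 0 < min ε (min η (κ / W)) := lt_min hε (lt_min hη (by positivity))
  refine ⟨fun k => Qs p M k / μ, c, K, min ε (min η (κ / W)), r0, hc', K0, hε', hr0,
    by linarith [mul_pos hB hy0], (continuous_Qs hp h).div_const _, fun t k => by rw [Qs_smul, mul_div_assoc],
    fun k => le_trans (by linarith [mul_nonneg hc'.le (sq_nonneg ‖k‖)]) (lo k),
    fun k => (hi k).trans (by gcongr), fun k hk => ?_⟩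
  set x := ‖k‖ ^ 2 with hx
  have hx0 : 0 ≤ x := by positivity
  rcases le_total x δ with hxδ | hxδ
  · have s1 : A * x * W ≤ min η (y0 / 2) := by
      have := (le_div_iff₀ (by positivity)).1 (hxδ.trans (min_le_left _ _))
      linarith
    have s2 : 6 * A ^ 2 * W ^ 3 * x ≤ c := by
      have := (le_div_iff₀ (by positivity)).1 (hxδ.trans (min_le_right _ _))
      linarith
    obtain ⟨z, z0, z1, hs, hb, he⟩ := root h (a := ah p M k) (y := A * x) (by positivity)
      (s1.trans (min_le_left _ _)) (abs_ah_le hp k) (sub_ah_le hp k)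
    obtain ⟨r, r1, r2, r3⟩ := core (2 * (A * x * W)) _ (by positivity)
      (by linarith [s1.trans (min_le_right _ _)]) (by simp [ah_zero hp]) hs hb
    have hz : 0 < 1 + z := by linarith
    have e1 : |z - Qs p M k / μ| ≤ 5 * A ^ 2 * W ^ 3 * x ^ 2 := by
      have t1 := Qs_approx hp h k
      rw [show z - Qs p M k / μ = (μ * z - Qs p M k) / μ by field_simp, abs_div,
        abs_of_pos (a := μ) (by linarith), div_le_iff₀ (by linarith)]
      have t2 := abs_sub_le (μ * z) (∑' l, (mf p l - ah p M k l)) (Qs p M k)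
      have t3 : W ≤ W ^ 3 := le_self_pow₀ hW (by norm_num)
      calc _ ≤ 2 * (A * x * W) ^ 2 * W + 3 * (A * x) ^ 2 * W ^ 3 :=
            t2.trans (add_le_add he (t1.trans (by gcongr)))
        _ = 5 * A ^ 2 * W ^ 3 * x ^ 2 * 1 := by ring
        _ ≤ _ := by gcongr
    have e2 : |(1 + z)⁻¹ - 1 + z| ≤ A ^ 2 * W ^ 3 * x ^ 2 := by
      rw [show (1 + z)⁻¹ - 1 + z = z ^ 2 / (1 + z) by field_simp; ring,
        abs_of_nonneg (by positivity)]
      calc _ ≤ (A * x * W) ^ 2 / 1 := by gcongr; linarith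
        _ = A ^ 2 * W ^ 2 * x ^ 2 := by ring
        _ ≤ _ := by gcongr; norm_num
    have e3 : |(1 + z)⁻¹ - 1 + Qs p M k / μ| ≤ 6 * A ^ 2 * W ^ 3 * x ^ 2 := by
      rw [abs_le] at e1 e2 ⊢
      constructor <;> linarith [e1.1, e1.2, e2.1, e2.2]
    refine ⟨r, (1 + z)⁻¹, r1, ?_, by positivity, ?_, e3.trans (by gcongr),
      r2.trans (by linarith [mul_le_mul_of_nonneg_right K3 hx0]), fun n => ?_⟩
    · have := mul_le_mul_of_nonneg_left (s1.trans (min_le_right _ _)) hB.le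
      linarith [(abs_le.1 r2).2]
    · have := mul_le_mul_of_nonneg_right s2 hx0
      linarith [(abs_le.1 e3).2, lo k, add_one_le_exp (-(c * x))]
    · have t := r3 n
      rw [ren_scale (ah_zero hp k)] at t
      rw [show ren (ah p M k) n - r * (1 + z)⁻¹ ^ n
        = (1 + z)⁻¹ ^ n * ((1 + z) ^ n * ren (ah p M k) n - r) by
          rw [inv_pow]; field_simp, abs_mul, abs_of_nonneg (by positivity)]
      refine (mul_le_of_le_one_left (abs_nonneg _) (pow_le_one₀ (by positivity)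
        (inv_le_one_of_one_le₀ (by linarith)))).trans (t.trans ?_)
      gcongr; exact min_le_left _ _
  · refine ⟨0, 0, le_rfl, by linarith, le_rfl, (exp_pos _).le, ?_, ?_, fun n => ?_⟩
    · have t1 : 1 ≤ x / δ := (one_le_div hδ).2 hxδ
      have t2 := lo k
      have t3 := hi k
      have t4 : 0 ≤ c * x := by positivity
      calc _ ≤ 1 ^ 2 + A * W * x * 1 := abs_le.2 ⟨by linarith, by linarith⟩
        _ ≤ (x / δ) ^ 2 + A * W * x * (x / δ) := by gcongr
        _ = (1 / δ ^ 2 + A * W / δ) * x ^ 2 := by field_simp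
        _ ≤ _ := by gcongr
    · rw [zero_sub, abs_neg, abs_of_pos hr0]
      calc _ = r0 / δ * δ := by field_simp
        _ ≤ _ := by gcongr
    · obtain ⟨i, hi⟩ := exists_coord hD k
      have t0 : x ≤ π ^ 2 := by rw [hx]; gcongr
      have t1 := le_av hp (φ := fun u => 1 - cos (dot k u))
        (fun u => by linarith [cos_le_one (dot k u)]) (n1 i)
      have t2 := le_av hp (φ := fun u => 1 - -cos (dot k u))
        (fun u => by linarith [neg_one_le_cos (dot k u)]) (u := 0) (by simp)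
      have t3 := cos_le_one_sub_mul_cos_sq (hi.le.trans hk)
      rw [← sq_abs (k i), hi, ← hx] at t3
      rw [← av_sub, ← mf_eq hp, dot_single] at t1
      change _ ≤ mf p 2 - ah p M k 2 at t1
      rw [← av_sub, ← mf_eq hp, dot_zero, cos_zero,
        show av p M 2 (fun u => -cos (dot k u)) = -ah p M k 2 by simp [ah, av]] at t2
      have t4 : 2 / π ^ 2 * δ ≤ 1 - cos (k i) := by
        have : 2 / π ^ 2 * δ ≤ 2 / π ^ 2 * x := by gcongr
        linarith
      have t5 : 2 / π ^ 2 * δ ≤ 1 - -1 := by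
        rw [div_mul_eq_mul_div, div_le_iff₀ (by positivity)]; linarith
      have t6 := mul_le_mul (ho (some i)) t4 (by positivity) (p_nonneg hp _ _)
      have t7 := mul_le_mul (ho none) t5 (by positivity) (p_nonneg hp _ _)
      rw [zero_mul, sub_zero]
      refine (far h (κ := κ) (abs_ah_le hp k) (abs_le.2 ⟨by linarith [t7.trans t2],
        by linarith [t6.trans t1]⟩) hε'.le ((min_le_right _ _).trans (min_le_left _ _))
        ((le_div_iff₀ (by linarith)).1 ((min_le_right _ _).trans (min_le_right _ _))) n).trans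
        (le_mul_of_one_le_left (exp_pos _).le K0)

end

end Pool.Agent.MP_48a2f9_mp.LLT

end MrgPart2

-- marker of a merged file
example : 731051 + 266296 = 731051 + 266296 := rfl

end MrgPart1

-- marker of a merged file
example : 731051 + 266296 = 731051 + 266296 := rfl
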