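import Mathlib.Tactic.Monotonicity.Lemmas
import Mathlib.Data.Int.Star
import Mathlib.Algebra.Order.Ring.Star
import Mathlib.Algebra.Order.Star.Real
import Pool.Agent.MP_48a2f9_mp.SpecR

/-!
Shared lemmas on connections, clusters and cluster weights.
-/

open Filter Topology Finset
open scoped ENNReal

namespace Pool.Agent.MP_48a2f9_mp.OZ

noncomputable section
open Classical

variable {D : ℕ} {E E' : Finset (Ed D)} {x y z u v : Site D}

lemma Conn.refl (E : Finset (Ed D)) (x : Site D) : Conn E x x := Relation.ReflTransGen.refl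

lemma Conn.trans (h : Conn E x y) (k : Conn E y z) : Conn E x z := Relation.ReflTransGen.trans h k

lemma Conn.single (h : s(x, y) ∈ E) : Conn E x y := Relation.ReflTransGen.single h

lemma Conn.tail (h : Conn E x y) (k : s(y, z) ∈ E) : Conn E x z := Relation.ReflTransGen.tail h k

lemma Conn.symm (h : Conn E x y) : Conn E y x := by
  induction h with
  | refl => exact Conn.refl _ _
  | tail _ h2 ih => exact (Conn.single (by rwa [Sym2.eq_swap])).trans ih

lemma Conn.mono (hE : E ⊆ E') (h : Conn E x y) : Conn E' x y := by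
  induction h with
  | refl => exact Conn.refl _ _
  | tail _ h2 ih => exact ih.tail (hE h2)

lemma mem_verts : v ∈ verts x E ↔ v = x ∨ ∃ e ∈ E, v ∈ e := by
  simp [verts]

lemma root_mem_verts (x : Site D) (E : Finset (Ed D)) : x ∈ verts x E := mem_verts.2 (Or.inl rfl)

lemma mem_verts_of_mem {e : Ed D} (he : e ∈ E) (hv : v ∈ e) : v ∈ verts x E :=
  mem_verts.2 (Or.inr ⟨e, he, hv⟩)

lemma left_mem_verts (h : s(u, v) ∈ E) : u ∈ verts x E := mem_verts_of_mem h (by simp)

lemma right_mem_verts (h : s(u, v) ∈ E) : v ∈ verts x E := mem_verts_of_mem h (by simp)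

lemma verts_mono (hE : E ⊆ E') : verts x E ⊆ verts x E' := by
  intro v hv
  rcases mem_verts.1 hv with rfl | ⟨e, he, hv⟩
  exacts [root_mem_verts _ _, mem_verts_of_mem (hE he) hv]

@[simp] lemma verts_empty (x : Site D) : verts x (∅ : Finset (Ed D)) = {x} := by simp [verts]

lemma card_verts_pos (x : Site D) (E : Finset (Ed D)) : 0 < (verts x E).card :=
  card_pos.2 ⟨x, root_mem_verts x E⟩

lemma Conn.mem_verts (h : Conn E x y) : y ∈ verts x E := by
  induction h with
  | refl => exact root_mem_verts _ _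
  | tail _ h2 _ => exact right_mem_verts h2

lemma IsClu.conn (h : IsClu x E) (hv : v ∈ verts x E) : Conn E x v := h.2 v hv

lemma IsClu.verts_eq (h : IsClu x E) (hu : u ∈ verts x E) : verts u E = verts x E := by
  ext v
  constructor
  · intro hv
    rcases mem_verts.1 hv with rfl | ⟨e, he, hv⟩
    exacts [hu, mem_verts_of_mem he hv]
  · intro hv
    exact ((h.conn hu).symm.trans (h.conn hv)).mem_verts

lemma IsClu.reroot (h : IsClu x E) (hu : u ∈ verts x E) : IsClu u E :=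
  ⟨h.1, fun _ hv => (h.conn hu).symm.trans (h.conn (h.verts_eq hu ▸ hv))⟩

lemma isClu_empty (x : Site D) : IsClu x (∅ : Finset (Ed D)) :=
  ⟨by simp, fun v hv => by rw [verts_empty, mem_singleton] at hv; exact hv ▸ Conn.refl _ _⟩

lemma adj_symm (h : Adj x y) : Adj y x := by
  unfold Adj at h ⊢
  rw [← h, abs_sub_comm]
  congr 1
  exact sum_congr rfl fun k _ => abs_sub_comm _ _

lemma isEdge_mk : IsEdge s(x, y) ↔ Adj x y := by
  constructor
  · rintro ⟨a, b, h, hab⟩
    rcases Sym2.eq_iff.1 hab with ⟨rfl, rfl⟩ | ⟨rfl, rfl⟩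
    exacts [h, adj_symm h]
  · exact fun h => ⟨x, y, h, rfl⟩

@[simp] lemma e1_fst : (e1 : Site D).1 = 1 := rfl
@[simp] lemma e1_snd : (e1 : Site D).2 = 0 := rfl

lemma adj_e1 (x : Site D) : Adj x (x + e1) := by simp [Adj]

lemma isEdge_fwd (x : Site D) : IsEdge (fwd x) := isEdge_mk.2 (adj_e1 x)

lemma mem_fwd : v ∈ fwd x ↔ v = x ∨ v = x + e1 := by simp [fwd]

lemma fwd_inj : fwd x = fwd y ↔ x = y := by
  refine ⟨fun h => ?_, fun h => h ▸ rfl⟩
  rcases Sym2.eq_iff.1 h with ⟨h, -⟩ | ⟨h1, h2⟩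
  · exact h
  · have a := congrArg Prod.fst h1
    have b := congrArg Prod.fst h2
    simp at a b
    omega

lemma adj_lev (h : Adj x y) : |x.1 - y.1| ≤ 1 := by
  unfold Adj at h
  have : 0 ≤ ∑ k, |x.2 k - y.2 k| := sum_nonneg fun _ _ => abs_nonneg _
  omega

/-- An edge that changes the level upward is a forward edge. -/
lemma eq_add_e1_of_adj (h : Adj x y) (hl : x.1 < y.1) : y = x + e1 := by
  unfold Adj at h
  have h0 : 0 ≤ ∑ k, |x.2 k - y.2 k| := sum_nonneg fun _ _ => abs_nonneg _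
  have h1 : 1 ≤ |x.1 - y.1| := by rw [abs_of_neg (by omega)]; omega
  have h2 : ∑ k, |x.2 k - y.2 k| = 0 := by omega
  have h3 : |x.1 - y.1| = 1 := by omega
  rw [sum_eq_zero_iff_of_nonneg fun _ _ => abs_nonneg _] at h2
  rw [abs_of_neg (by omega)] at h3
  refine Prod.ext (by simp; omega) (funext fun k => ?_)
  have := h2 k (mem_univ k)
  simp only [abs_eq_zero] at this
  simp; omega

lemma norm_sub_le_one_of_adj (h : Adj x y) : ‖y - x‖ ≤ 1 := by
  have h1 := adj_lev h
  unfold Adj at h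
  rw [Prod.norm_def, max_le_iff]
  constructor
  · rw [abs_sub_comm] at h1
    rw [Prod.fst_sub, Int.norm_eq_abs]
    exact_mod_cast h1
  · refine (pi_norm_le_iff_of_nonneg zero_le_one).2 fun k => ?_
    have h2 : |x.2 k - y.2 k| ≤ ∑ k, |x.2 k - y.2 k| :=
      single_le_sum (f := fun k => |x.2 k - y.2 k|) (fun _ _ => abs_nonneg _) (mem_univ k)
    have h3 := abs_nonneg (x.1 - y.1)
    have h4 : |x.2 k - y.2 k| ≤ 1 := by omega
    rw [abs_sub_comm] at h4
    rw [Prod.snd_sub, Pi.sub_apply, Int.norm_eq_abs]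
    exact_mod_cast h4

/-- Discrete intermediate values for an integer function that moves by at most one. -/
lemma Conn.exists_val (hE : ∀ e ∈ E, IsEdge e) (f : Site D → ℤ)
    (hf : ∀ a b, Adj a b → f b ≤ f a + 1) (h : Conn E x y) {t : ℤ} (h1 : f x ≤ t) (h2 : t ≤ f y) :
    ∃ w, Conn E x w ∧ f w = t := by
  induction h with
  | refl => exact ⟨x, Conn.refl _ _, le_antisymm h1 h2⟩
  | @tail b c hb hbc ih =>
    by_cases h3 : t ≤ f b
    · exact ih h3
    · have := hf b c (isEdge_mk.1 (hE _ hbc))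
      exact ⟨c, Conn.tail hb hbc, by omega⟩

lemma IsClu.exists_lev_up (h : IsClu x E) (hy : y ∈ verts x E) {t : ℤ} (h1 : x.1 ≤ t)
    (h2 : t ≤ y.1) : ∃ w ∈ verts x E, w.1 = t := by
  obtain ⟨w, hw, e⟩ := (h.conn hy).exists_val h.1 (fun v => v.1)
    (fun a b hab => by have := abs_le.1 (adj_lev hab); omega) h1 h2
  exact ⟨w, hw.mem_verts, e⟩

lemma IsClu.exists_lev_down (h : IsClu x E) (hy : y ∈ verts x E) {t : ℤ} (h1 : t ≤ x.1)
    (h2 : y.1 ≤ t) : ∃ w ∈ verts x E, w.1 = t := by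
  obtain ⟨w, hw, e⟩ := (h.conn hy).exists_val h.1 (fun v => -v.1)
    (fun a b hab => by have := abs_le.1 (adj_lev hab); omega) (t := -t) (by omega) (by omega)
  exact ⟨w, hw.mem_verts, by omega⟩

lemma IsClu.val_lt_card (h : IsClu x E) (hy : y ∈ verts x E) (f : Site D → ℤ)
    (hf : ∀ a b, Adj a b → f b ≤ f a + 1) : f y - f x + 1 ≤ (verts x E).card := by
  by_cases hxy : f x ≤ f y
  · have : Icc (f x) (f y) ⊆ (verts x E).image f := by
      intro t ht
      obtain ⟨w, hw, e⟩ := (h.conn hy).exists_val h.1 f hf (mem_Icc.1 ht).1 (mem_Icc.1 ht).2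
      exact mem_image.2 ⟨w, hw.mem_verts, e⟩
    have h2 := (card_le_card this).trans card_image_le
    rw [Int.card_Icc] at h2
    omega
  · have := card_verts_pos x E
    omega

/-- A cluster has at least as many vertices as its diameter. -/
lemma IsClu.norm_le_card (h : IsClu x E) (hy : y ∈ verts x E) :
    ‖y - x‖ + 1 ≤ ((verts x E).card : ℝ) := by
  have key : ∀ g : Site D → ℤ, (∀ a b, Adj a b → |g a - g b| ≤ 1) →
      ‖g y - g x‖ ≤ ((verts x E).card : ℝ) - 1 := by
    intro g hg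
    have h1 := h.val_lt_card hy g fun a b hab => by have := abs_le.1 (hg a b hab); omega
    have h2 := h.val_lt_card hy (fun v => -g v) fun a b hab => by
      have := abs_le.1 (hg a b hab); omega
    have h3 : |g y - g x| ≤ ((verts x E).card : ℤ) - 1 := abs_le.2 ⟨by omega, by omega⟩
    rw [Int.norm_eq_abs]
    exact_mod_cast h3
  have hp : (1 : ℝ) ≤ (verts x E).card := by exact_mod_cast card_verts_pos x E
  rw [← le_sub_iff_add_le, Prod.norm_def, max_le_iff]
  refine ⟨key (fun v => v.1) fun a b => adj_lev, ?_⟩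
  refine (pi_norm_le_iff_of_nonneg (by linarith)).2 fun k => ?_
  refine key (fun v => v.2 k) fun a b hab => ?_
  unfold Adj at hab
  have h2 : |a.2 k - b.2 k| ≤ ∑ k, |a.2 k - b.2 k| :=
    single_le_sum (f := fun k => |a.2 k - b.2 k|) (fun _ _ => abs_nonneg _) (mem_univ k)
  have h3 := abs_nonneg (a.1 - b.1)
  omega

lemma mem_cross {e : Ed D} {t : ℤ} : e ∈ cross E t ↔ e ∈ E ∧ ∃ v : Site D, v.1 = t ∧ e = fwd v := by
  simp [cross]

lemma edgeJ_nonneg {J : ℝ} (hJ : 0 ≤ J) (e : Ed D) : 0 ≤ edgeJ J e := by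
  unfold edgeJ; split_ifs <;> simp [hJ]

lemma rr_nonneg {β J : ℝ} (hβ : 0 ≤ β) (hJ : 0 ≤ J) (e : Ed D) : 0 ≤ rr β J e := by
  unfold rr
  have := Real.one_le_exp (mul_nonneg hβ (edgeJ_nonneg hJ e))
  linarith

lemma rr_le {β J : ℝ} (hβ : 0 ≤ β) (e : Ed D) : rr β J e ≤ Real.exp (β * max J 1) := by
  unfold rr
  have : β * edgeJ J e ≤ β * max J 1 := by
    refine mul_le_mul_of_nonneg_left ?_ hβ
    unfold edgeJ; split_ifs <;> simp
  have := Real.exp_le_exp.2 this
  linarith

lemma rr_fwd (β J : ℝ) (x : Site D) :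
    rr β J (fwd x) = if x.2 = 0 then Real.exp (β * J) - 1 else Real.exp β - 1 := by
  unfold rr edgeJ
  by_cases h : x.2 = 0 <;> simp [fwd, h]

lemma rr_off {β J : ℝ} {e : Ed D} (hv : v ∈ e) (h : v.2 ≠ 0) : rr β J e = Real.exp β - 1 := by
  unfold rr edgeJ
  rw [if_neg fun k => h (k v hv), mul_one]

/-! ### Images under injective maps -/

section map
variable {g : Site D → Site D}

lemma verts_image (g : Site D → Site D) (x : Site D) (E : Finset (Ed D)) :
    verts (g x) (E.image (Sym2.map g)) = (verts x E).image g := by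
  ext v
  simp only [mem_verts, mem_image]
  constructor
  · rintro (rfl | ⟨e, ⟨e', he', rfl⟩, hv⟩)
    · exact ⟨x, Or.inl rfl, rfl⟩
    · obtain ⟨w, hw, rfl⟩ := Sym2.mem_map.1 hv
      exact ⟨w, Or.inr ⟨e', he', hw⟩, rfl⟩
  · rintro ⟨w, rfl | ⟨e, he, hw⟩, rfl⟩
    · exact Or.inl rfl
    · exact Or.inr ⟨_, ⟨e, he, rfl⟩, Sym2.mem_map.2 ⟨w, hw, rfl⟩⟩

lemma Conn.image (g : Site D → Site D) (h : Conn E x y) :
    Conn (E.image (Sym2.map g)) (g x) (g y) := by
  induction h with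
  | refl => exact Conn.refl _ _
  | tail _ h2 ih => exact ih.tail (mem_image.2 ⟨_, h2, by simp⟩)

lemma IsClu.image (hg : ∀ a b, Adj a b → Adj (g a) (g b)) (h : IsClu x E) :
    IsClu (g x) (E.image (Sym2.map g)) := by
  constructor
  · intro e he
    obtain ⟨e', he', rfl⟩ := mem_image.1 he
    obtain ⟨a, b, hab, rfl⟩ := h.1 e' he'
    exact ⟨g a, g b, hg a b hab, by simp⟩
  · intro v hv
    rw [verts_image] at hv
    obtain ⟨w, hw, rfl⟩ := mem_image.1 hv
    exact (h.conn hw).image g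

lemma prod_rr_image {β J : ℝ} (hg : Function.Injective g) (hE : ∀ e ∈ E, IsEdge e)
    (hJ : ∀ a b, Adj a b → edgeJ J s(g a, g b) = edgeJ J s(a, b)) :
    ∏ e ∈ E.image (Sym2.map g), rr β J e = ∏ e ∈ E, rr β J e := by
  rw [prod_image fun a _ b _ h => Sym2.map.injective hg h]
  refine prod_congr rfl fun e he => ?_
  obtain ⟨a, b, hab, rfl⟩ := hE e he
  unfold rr
  rw [Sym2.map_mk, hJ a b hab]

end map

/-- The shift along the line. -/
def shiftE (k : ℤ) : Site D ≃ Site D := Equiv.addRight (k, 0)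

@[simp] lemma shiftE_apply (k : ℤ) (v : Site D) : shiftE k v = v + (k, 0) := rfl

lemma adj_add (a : Site D) : Adj (x + a) (y + a) ↔ Adj x y := by simp [Adj]

lemma edgeJ_shift (J : ℝ) (k : ℤ) (a b : Site D) :
    edgeJ J s(a + (k, 0), b + (k, 0)) = edgeJ J s(a, b) := by
  simp [edgeJ]

namespace Model

variable {M : Model D} {J : ℝ} {S : Set (Site D)}

lemma CW.q_pos (h : M.CW) : (0 : ℝ) < M.q := by
  have := h.two_le
  exact_mod_cast (by omega : 0 < M.q)

lemma CW.psi_pos (h : M.CW) (hJ : 0 ≤ J) {W : Finset (Site D)} (hW : (↑W : Set (Site D)) ⊆ S) :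
    0 < M.Ψ J S W := by
  obtain ⟨c, hc, h1⟩ := h.pos J hJ
  exact (pow_pos hc _).trans_le (h1 S W hW)

lemma CW.psi_empty (h : M.CW) (hJ : 0 ≤ J) (S : Set (Site D)) : M.Ψ J S ∅ = 1 := by
  obtain ⟨c, hc, h1⟩ := h.pos J hJ
  exact le_antisymm (h.le_one J hJ S ∅ (by simp)) (by simpa using h1 S ∅ (by simp))

lemma CW.rr_nonneg (h : M.CW) (hJ : 0 ≤ J) (e : Ed D) : 0 ≤ rr M.β J e :=
  OZ.rr_nonneg h.beta_pos.le hJ e

lemma CW.wtR_nonneg (h : M.CW) (hJ : 0 ≤ J) (hS : (↑(verts x E) : Set (Site D)) ⊆ S) :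
    0 ≤ M.wtR J S x E :=
  mul_nonneg (mul_nonneg h.q_pos.le (prod_nonneg fun e _ => h.rr_nonneg hJ e))
    (h.psi_pos hJ hS).le

lemma CW.psi_shift (h : M.CW) (hJ : 0 ≤ J) (k : ℤ) (W : Finset (Site D)) :
    M.Ψ J Set.univ (W.image (· + (k, 0))) = M.Ψ J Set.univ W := by
  have := h.symm J hJ (shiftE k) (fun a b => adj_add _) (fun a b _ => edgeJ_shift J k a b)
    Set.univ W (Set.subset_univ _)
  rwa [Set.image_univ_of_surjective (shiftE k).surjective] at this

lemma wt_of (hE : IsClu x E) (hS : (↑(verts x E) : Set (Site D)) ⊆ S) :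
    M.wt J S x E = ENNReal.ofReal (M.wtR J S x E) := if_pos ⟨hE, hS⟩

lemma wt_ne_zero (h : M.wt J S x E ≠ 0) : IsClu x E ∧ (↑(verts x E) : Set (Site D)) ⊆ S := by
  by_contra k
  exact h (if_neg k)

lemma wt_reroot (hE : IsClu x E) (hu : u ∈ verts x E) : M.wt J S u E = M.wt J S x E := by
  unfold wt wtR
  rw [hE.verts_eq hu]
  simp [hE, hE.reroot hu]

lemma tau_symm (M : Model D) (J : ℝ) (S : Set (Site D)) (x y : Site D) :
    M.tau J S x y = M.tau J S y x := by
  unfold tau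
  refine tsum_congr fun E => ?_
  by_cases h1 : IsClu x E ∧ y ∈ verts x E
  · rw [if_pos h1.2, if_pos (by rw [h1.1.verts_eq h1.2]; exact root_mem_verts _ _),
      wt_reroot h1.1 h1.2]
  · by_cases h2 : IsClu y E ∧ x ∈ verts y E
    · exact absurd ⟨h2.1.reroot h2.2, by rw [h2.1.verts_eq h2.2]; exact root_mem_verts _ _⟩ h1
    · have a : (if y ∈ verts x E then M.wt J S x E else 0) = 0 := by
        split_ifs with h
        · by_contra k; exact h1 ⟨(wt_ne_zero k).1, h⟩
        · rfl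
      have b : (if x ∈ verts y E then M.wt J S y E else 0) = 0 := by
        split_ifs with h
        · by_contra k; exact h2 ⟨(wt_ne_zero k).1, h⟩
        · rfl
      rw [a, b]

lemma CW.tau_le_one (h : M.CW) (hJ : 0 ≤ J) (S : Set (Site D)) (x y : Site D) :
    M.tau J S x y ≤ 1 :=
  (ENNReal.tsum_le_tsum fun E => by split_ifs <;> simp).trans (h.total J hJ S x)

lemma CW.tau_ne_top (h : M.CW) (hJ : 0 ≤ J) (S : Set (Site D)) (x y : Site D) :
    M.tau J S x y ≠ ⊤ := ((h.tau_le_one hJ S x y).trans_lt ENNReal.one_lt_top).ne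

/-- The tail of the volume. -/
lemma CW.vol_tail (h : M.CW) (hJ : 0 ≤ J) : ∃ ε C : ℝ, 0 < ε ∧ 0 ≤ C ∧
    ∀ (η N : ℝ), η ≤ ε → ∀ (S : Set (Site D)) (x : Site D),
      (∑' E : Finset (Ed D), if N ≤ ((verts x E).card : ℝ) then
        M.wt J S x E * ENNReal.ofReal (Real.exp (η * (verts x E).card)) else 0) ≤
      ENNReal.ofReal (C * Real.exp (-(ε - η) * N)) := by
  obtain ⟨ε, C, hε, hC⟩ := h.vol J hJ
  refine ⟨ε, max C 0, hε, le_max_right _ _, fun η N hη S x => ?_⟩
  calc _ ≤ ∑' E : Finset (Ed D), M.wt J S x E * ENNReal.ofReal (Real.exp (ε * (verts x E).card)) *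
        ENNReal.ofReal (Real.exp (-(ε - η) * N)) := by
        refine ENNReal.tsum_le_tsum fun E => ?_
        split_ifs with hN
        · rw [mul_assoc, ← ENNReal.ofReal_mul (Real.exp_pos _).le, ← Real.exp_add]
          gcongr
          nlinarith
        · exact zero_le
    _ ≤ ENNReal.ofReal C * ENNReal.ofReal (Real.exp (-(ε - η) * N)) := by
        rw [ENNReal.tsum_mul_right]
        gcongr
        exact hC S x
    _ ≤ _ := by
        rw [ENNReal.ofReal_mul (le_max_right _ _)]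
        gcongr
        exact le_max_left _ _

end Model

end

end Pool.Agent.MP_48a2f9_mp.OZ
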