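import Mathlib.Combinatorics.Matroid.Basic
import Mathlib.RingTheory.PiTensorProduct
import Pool.Agent.MP_48a2f9_mp.FKUniq
import Pool.Agent.MP_48a2f9_mp.OZBase

-- ======== part 0: formerly Pool.Agent.MP_48a2f9_mp.MG2Geo
section MrgPart0

/-!
Module MG2, part 3: volume, breaks and reconstruction under the surgery.
-/

open scoped ENNReal

namespace Pool.Agent.MP_48a2f9_mp.OZ.MG2

noncomputable section
open Classical

variable {D : ℕ}

lemma mem_cross {E : Finset (Ed D)} {t : ℤ} {e : Ed D} :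
    e ∈ cross E t ↔ e ∈ E ∧ ∃ v : Site D, v.1 = t ∧ e = fwd v := by
  simp [cross]

lemma fwd_left (v : Site D) : v ∈ fwd v := mem_fwd.2 (Or.inl rfl)
lemma fwd_right (v : Site D) : v + e1 ∈ fwd v := mem_fwd.2 (Or.inr rfl)

/-- The inner vertices of the joining segment. -/
def inner (d : Data D) : Finset (Site D) :=
  (Finset.Ioo d.i₁ d.i₂).image fun i : ℕ => sh (i : ℤ) d.a

lemma mem_inner {d : Data D} {v : Site D} :
    v ∈ inner d ↔ ∃ i : ℕ, d.i₁ < i ∧ i < d.i₂ ∧ v = sh (i : ℤ) d.a := by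
  simp only [inner, Finset.mem_image, Finset.mem_Ioo]
  constructor
  · rintro ⟨i, ⟨h1, h2⟩, rfl⟩; exact ⟨i, h1, h2, rfl⟩
  · rintro ⟨i, h1, h2, rfl⟩; exact ⟨i, ⟨h1, h2⟩, rfl⟩

namespace Surg

variable {K : ℕ} {x : Site D} {E E' : Finset (Ed D)} {u : ℤ} {d : Data D}

lemma verts_eq (h : Surg K x E u E' d) : verts x E' =
    verts x d.EA ∪ (inner d ∪ verts (sh (2 * K) d.x') (shE (2 * K) d.EB)) := by
  ext v
  rw [h.vertsE'.2, Finset.mem_union, Finset.mem_union, mem_inner]

lemma card_inner (h : Surg K x E u E' d) : (inner d).card ≤ 2 * K := by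
  have := h.i2le
  refine Finset.card_image_le.trans ?_
  rw [Nat.card_Ioo]
  omega

lemma card_le (h : Surg K x E u E' d) : (verts x E').card ≤ (verts x E).card + 2 * K := by
  rw [h.verts_eq, h.vertsE.2, Finset.card_union_of_disjoint h.disj]
  have h1 := Finset.card_union_le (verts x d.EA)
    (inner d ∪ verts (sh (2 * K) d.x') (shE (2 * K) d.EB))
  have h2 := Finset.card_union_le (inner d) (verts (sh (2 * K) d.x') (shE (2 * K) d.EB))
  have h3 : (verts (sh (2 * K) d.x') (shE (2 * K) d.EB)).card = (verts d.x' d.EB).card := by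
    rw [verts_shE, Finset.card_image_of_injective _ (sh_inj _)]
  have h4 := h.card_inner
  omega

lemma cross_low (h : Surg K x E u E' d) (hK : 1 ≤ K) {t : ℤ} (ht : t ≤ u - K) :
    cross E' t = cross E t := by
  have alev := h.a_lev
  ext e
  rw [mem_cross, mem_cross]
  refine and_congr_left ?_
  rintro ⟨v, hv, rfl⟩
  rw [h.eqE, h.eqE']
  simp only [Finset.mem_union]
  constructor
  · rintro ((g | g) | g)
    · exact Or.inl (Or.inl g)
    · obtain ⟨i, _, _, hi⟩ := mem_seg.1 g
      have := congrArg Prod.fst (fwd_inj hi)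
      simp at this; omega
    · have := h.highB' v (mem_verts_of_mem g (fwd_left v))
      omega
  · rintro ((g | g) | g)
    · exact Or.inl (Or.inl g)
    · obtain ⟨a, _, hau, _, he⟩ := h.hF _ g
      have := fwd_inj he
      subst this
      omega
    · have := h.highB v (mem_verts_of_mem g (fwd_left v))
      omega

lemma cross_high (h : Surg K x E u E' d) (hK : 1 ≤ K) {t : ℤ} (ht : u + K ≤ t) :
    cross E' (t + 2 * K) = shE (2 * K) (cross E t) := by
  have alev := h.a_lev
  have i2 := h.i2le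
  ext e
  rw [mem_cross, mem_shE]
  constructor
  · rintro ⟨he, v, hv, rfl⟩
    rw [h.eqE'] at he
    simp only [Finset.mem_union] at he
    rcases he with (g | g) | g
    · have := h.lowA v (mem_verts_of_mem g (fwd_left v))
      omega
    · obtain ⟨i, _, _, hi⟩ := mem_seg.1 g
      have := congrArg Prod.fst (fwd_inj hi)
      simp at this; omega
    · obtain ⟨e', he', hm⟩ := mem_shE.1 g
      have hv' : fwd v = Sym2.map (sh (2 * K)) (fwd (sh (-(2 * K)) v)) := by
        rw [map_fwd, sh_sh]; simp [sh_zero]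
      have : e' = fwd (sh (-(2 * K)) v) := map_sh_inj _ (by rw [hm, hv'])
      refine ⟨e', mem_cross.2 ⟨by rw [h.eqE]; exact Finset.mem_union_right _ he',
        sh (-(2 * K)) v, by simp; omega, this⟩, hm⟩
  · rintro ⟨e', he', rfl⟩
    obtain ⟨he', v, hv, rfl⟩ := mem_cross.1 he'
    refine ⟨?_, sh (2 * K) v, by simp; omega, map_fwd _ _⟩
    rw [h.eqE] at he'
    simp only [Finset.mem_union] at he'
    rcases he' with (g | g) | g
    · have := h.lowA _ (mem_verts_of_mem g (fwd_right v))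
      rw [add_e1_fst] at this
      omega
    · obtain ⟨a, _, hau, _, he⟩ := h.hF _ g
      have := fwd_inj he
      subst this
      omega
    · rw [h.eqE']
      exact Finset.mem_union_right _ (mem_shE.2 ⟨_, g, rfl⟩)

lemma cross_mid (h : Surg K x E u E' d) : cross E' (u + K) = {fwd (sh (K : ℤ) d.a)} := by
  have alev := h.a_lev
  have i1 := h.i1le
  have i2 := h.i2ge
  ext e
  rw [mem_cross, Finset.mem_singleton]
  constructor
  · rintro ⟨he, v, hv, rfl⟩
    rw [h.eqE'] at he
    simp only [Finset.mem_union] at he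
    rcases he with (g | g) | g
    · have := h.lowA _ (mem_verts_of_mem g (fwd_right v))
      rw [add_e1_fst] at this
      omega
    · obtain ⟨i, _, _, hi⟩ := mem_seg.1 g
      have := congrArg Prod.fst (fwd_inj hi)
      simp at this
      have hiK : i = K := by omega
      rw [hi, hiK]
    · have := h.highB' v (mem_verts_of_mem g (fwd_left v))
      omega
  · rintro rfl
    refine ⟨?_, _, by simp [alev], rfl⟩
    rw [h.eqE']
    exact Finset.mem_union_left _ (Finset.mem_union_right _ (mem_seg.2 ⟨K, i1, by omega, rfl⟩))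

lemma brk_le (h : Surg K x E u E' d) (hK : 1 ≤ K) {s : ℕ} (hs : u < x.1 + s) :
    brkCount E' x.1 (s + 2 * K) ≤ brkCount E x.1 s + 4 * K := by
  have xu := h.xu
  unfold brkCount
  set B' := (Finset.range (s + 2 * K)).filter fun t : ℕ => (cross E' (x.1 + t)).card = 1 with hB'
  have hsplit := Finset.card_filter_add_card_filter_not (s := B')
    (fun t : ℕ => u - K < x.1 + t ∧ x.1 + t < u + 3 * K)
  have h1 : (B'.filter fun t : ℕ => u - K < x.1 + t ∧ x.1 + t < u + 3 * K).card ≤ 4 * K := by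
    have := Finset.card_le_card_of_injOn
      (s := B'.filter fun t : ℕ => u - K < x.1 + t ∧ x.1 + t < u + 3 * K)
      (t := Finset.range (4 * K)) (fun t : ℕ => (x.1 + t - (u - K)).toNat)
      (fun t ht => by
        have := (Finset.mem_filter.1 (Finset.mem_coe.1 ht)).2
        simp only [Finset.coe_range, Set.mem_Iio]
        omega)
      (fun t ht t' ht' htt => by
        have := (Finset.mem_filter.1 (Finset.mem_coe.1 ht)).2
        have := (Finset.mem_filter.1 (Finset.mem_coe.1 ht')).2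
        dsimp only at htt
        omega)
    simpa using this
  have h2 : (B'.filter fun t : ℕ => ¬ (u - K < x.1 + t ∧ x.1 + t < u + 3 * K)).card ≤
      ((Finset.range s).filter fun t : ℕ => (cross E (x.1 + t)).card = 1).card := by
    refine Finset.card_le_card_of_injOn
      (fun t : ℕ => if x.1 + t ≤ u - K then t else t - 2 * K) (fun t ht => ?_)
      (fun t ht t' ht' htt => ?_)
    · obtain ⟨ht1, ht2⟩ := Finset.mem_filter.1 (Finset.mem_coe.1 ht)
      obtain ⟨ht3, ht4⟩ := Finset.mem_filter.1 ht1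
      rw [Finset.mem_range] at ht3
      refine Finset.mem_coe.2 (Finset.mem_filter.2 ?_)
      dsimp only
      split_ifs with hc
      · exact ⟨Finset.mem_range.2 (by omega), by rw [← h.cross_low hK hc]; exact ht4⟩
      · refine ⟨Finset.mem_range.2 (by omega), ?_⟩
        have e1 : x.1 + (t : ℤ) = x.1 + ((t - 2 * K : ℕ) : ℤ) + 2 * K := by omega
        rw [e1, h.cross_high hK (by omega), shE,
          Finset.card_image_of_injective _ (map_sh_inj _)] at ht4
        exact ht4
    · have := (Finset.mem_filter.1 (Finset.mem_coe.1 ht)).2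
      have := (Finset.mem_filter.1 (Finset.mem_coe.1 ht')).2
      dsimp only at htt
      split_ifs at htt <;> omega
  omega

lemma seg_notA (h : Surg K x E u E' d) {e : Ed D} (he : e ∈ seg d.a d.i₁ d.i₂) : e ∉ d.EA := by
  intro g
  obtain ⟨i, h1, _, rfl⟩ := mem_seg.1 he
  have := mem_verts_of_mem (x := x) g (fwd_right _)
  rw [← sh_succ] at this
  exact h.i1max (i + 1) (by omega) (by push_cast; exact this)

lemma seg_notB (h : Surg K x E u E' d) {e : Ed D} (he : e ∈ seg d.a d.i₁ d.i₂) :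
    e ∉ shE (2 * K) d.EB := by
  intro g
  obtain ⟨i, _, h2, rfl⟩ := mem_seg.1 he
  exact h.i2min i h2 (mem_verts_of_mem g (fwd_left _))

lemma EA_eq (h : Surg K x E u E' d) :
    d.EA = (E' \ seg d.a d.i₁ d.i₂).filter fun e => ∀ v ∈ e, v.1 ≤ u + K := by
  ext e
  rw [Finset.mem_filter, Finset.mem_sdiff, h.eqE']
  simp only [Finset.mem_union]
  constructor
  · intro g
    exact ⟨⟨Or.inl (Or.inl g), fun g' => h.seg_notA g' g⟩,
      fun v hv => h.lowA v (mem_verts_of_mem g hv)⟩
  · rintro ⟨⟨(g | g) | g, g'⟩, g''⟩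
    · exact g
    · exact absurd g g'
    · have h1 := g'' e.out.1 (Sym2.out_fst_mem e)
      have h2 := h.highB' _ (mem_verts_of_mem g (Sym2.out_fst_mem e))
      omega

lemma EB_eq (h : Surg K x E u E' d) :
    shE (2 * K) d.EB = (E' \ seg d.a d.i₁ d.i₂).filter fun e => ¬ ∀ v ∈ e, v.1 ≤ u + K := by
  ext e
  rw [Finset.mem_filter, Finset.mem_sdiff, h.eqE']
  simp only [Finset.mem_union]
  constructor
  · intro g
    refine ⟨⟨Or.inr g, fun g' => h.seg_notB g' g⟩, fun g'' => ?_⟩
    have h1 := g'' e.out.1 (Sym2.out_fst_mem e)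
    have h2 := h.highB' _ (mem_verts_of_mem g (Sym2.out_fst_mem e))
    omega
  · rintro ⟨⟨(g | g) | g, g'⟩, g''⟩
    · exact absurd (fun v hv => h.lowA v (mem_verts_of_mem g hv)) g''
    · exact absurd g g'
    · exact g

/-- The cluster before the surgery is determined by few data. -/
lemma recon {E₂ : Finset (Ed D)} {d₂ : Data D} (h : Surg K x E u E' d)
    (h₂ : Surg K x E₂ u E' d₂) (e1 : d.i₁ = d₂.i₁) (e2 : d.i₂ = d₂.i₂) (e3 : d.F = d₂.F) :
    E = E₂ := by
  have ha : d.a = d₂.a := by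
    have := h.cross_mid.symm.trans h₂.cross_mid
    exact sh_inj _ (fwd_inj (Finset.singleton_injective this))
  have hA : d.EA = d₂.EA := by rw [h.EA_eq, h₂.EA_eq, ha, e1, e2]
  have hB : d.EB = d₂.EB := by
    have : shE (2 * K) d.EB = shE (2 * K) d₂.EB := by rw [h.EB_eq, h₂.EB_eq, ha, e1, e2]
    exact Finset.image_injective (map_sh_inj _) this
  rw [h.eqE, h₂.eqE, hA, hB, e3]

lemma F_sub (h : Surg K x E u E' d) :
    d.F ⊆ ((verts x E').filter fun v => v.1 = u).image fwd := by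
  intro e he
  obtain ⟨a, ha, hu, _, rfl⟩ := h.hF e he
  exact Finset.mem_image.2 ⟨a, Finset.mem_filter.2 ⟨(h.vertsE'.2 a).2 (Or.inl ha), hu⟩, rfl⟩

lemma slice_sub (h : Surg K x E u E' d) :
    ((verts x E').filter fun v => v.1 = u) ⊆ (verts x E).filter fun v => v.1 = u := by
  intro v hv
  obtain ⟨h1, h2⟩ := Finset.mem_filter.1 hv
  refine Finset.mem_filter.2 ⟨?_, h2⟩
  have alev := h.a_lev
  rcases (h.vertsE'.2 v).1 h1 with g | ⟨i, g, _, rfl⟩ | g
  · rw [h.vertsE.2]; exact Finset.mem_union_left _ g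
  · simp at h2; omega
  · have := h.highB' v g
    omega

end Surg

end

end Pool.Agent.MP_48a2f9_mp.OZ.MG2

end MrgPart0

-- ======== part 1: formerly Pool.Agent.MP_48a2f9_mp.MG2Wt
section MrgPart1

/-!
Module MG2, part 4: the weight under the surgery.
-/

open scoped ENNReal

namespace Pool.Agent.MP_48a2f9_mp.OZ.MG2

noncomputable section
open Classical

variable {D : ℕ}

/-- The weighted number of vertices near and above a cut. -/
def load (c : ℝ) (K : ℕ) (W : Finset (Site D)) (u : ℤ) : ℝ :=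
  ∑ v ∈ W.filter (fun v => u - K < v.1), Real.exp (-c * ((v.1 : ℝ) - u - K))

lemma slice_le_load {c : ℝ} (hc : 0 < c) {K : ℕ} (hK : 1 ≤ K) (W : Finset (Site D)) (u : ℤ) :
    ((W.filter fun v => v.1 = u).card : ℝ) ≤ load c K W u := by
  unfold load
  rw [Finset.card_eq_sum_ones, Nat.cast_sum]
  calc ∑ _v ∈ W.filter (fun v => v.1 = u), ((1 : ℕ) : ℝ)
      ≤ ∑ v ∈ W.filter (fun v => v.1 = u), Real.exp (-c * ((v.1 : ℝ) - u - K)) := by
        refine Finset.sum_le_sum fun v hv => ?_
        rw [(Finset.mem_filter.1 hv).2, Nat.cast_one]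
        apply Real.one_le_exp
        have : (0 : ℝ) ≤ K := Nat.cast_nonneg K
        nlinarith
    _ ≤ _ := by
        refine Finset.sum_le_sum_of_subset_of_nonneg (fun v hv => ?_)
          (fun _ _ _ => (Real.exp_pos _).le)
        obtain ⟨h1, h2⟩ := Finset.mem_filter.1 hv
        exact Finset.mem_filter.2 ⟨h1, by omega⟩

lemma rr_bounds {β J : ℝ} (hβ : 0 < β) (hJ : 0 ≤ J) : ∃ ρ R : ℝ, 0 < ρ ∧ ρ ≤ 1 ∧ 1 ≤ R ∧
    ∀ e : Ed D, 0 ≤ rr β J e ∧ rr β J e ≤ R ∧ (rr β J e = 0 ∨ ρ ≤ rr β J e) := by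
  have h1 : 0 < Real.exp (β * 1) - 1 := by
    have := Real.add_one_lt_exp (x := β * 1) (by positivity)
    linarith
  have h2 : 0 ≤ Real.exp (β * J) - 1 := by
    have := Real.one_le_exp (x := β * J) (by positivity)
    linarith
  have hv : ∀ e : Ed D, rr β J e = Real.exp (β * J) - 1 ∨ rr β J e = Real.exp (β * 1) - 1 := by
    intro e
    unfold rr edgeJ
    split_ifs
    · exact Or.inl rfl
    · exact Or.inr rfl
  rcases h2.eq_or_lt with h3 | h3
  · refine ⟨min 1 (Real.exp (β * 1) - 1), max 1 (Real.exp (β * 1) - 1), lt_min one_pos h1,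
      min_le_left _ _, le_max_left _ _, fun e => ?_⟩
    rcases hv e with g | g
    · rw [g, ← h3]
      exact ⟨le_rfl, le_trans zero_le_one (le_max_left _ _), Or.inl rfl⟩
    · rw [g]
      exact ⟨h1.le, le_max_right _ _, Or.inr (min_le_right _ _)⟩
  · refine ⟨min 1 (min (Real.exp (β * J) - 1) (Real.exp (β * 1) - 1)),
      max 1 (max (Real.exp (β * J) - 1) (Real.exp (β * 1) - 1)), lt_min one_pos (lt_min h3 h1),
      min_le_left _ _, le_max_left _ _, fun e => ?_⟩
    rcases hv e with g | g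
    · rw [g]
      exact ⟨h2, le_trans (le_max_left _ _) (le_max_right _ _),
        Or.inr (le_trans (min_le_right _ _) (min_le_left _ _))⟩
    · rw [g]
      exact ⟨h1.le, le_trans (le_max_right _ _) (le_max_right _ _),
        Or.inr (le_trans (min_le_right _ _) (min_le_right _ _))⟩

lemma rr_map (β J : ℝ) (L : ℤ) (e : Ed D) : rr β J (Sym2.map (sh L) e) = rr β J e := by
  unfold rr
  rw [edgeJ_map]

namespace Surg

variable {K : ℕ} {x : Site D} {E E' : Finset (Ed D)} {u : ℤ} {d : Data D}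

lemma prod_E (h : Surg K x E u E' d) (f : Ed D → ℝ) :
    ∏ e ∈ E, f e = (∏ e ∈ d.EA, f e) * (∏ e ∈ d.F, f e) * ∏ e ∈ d.EB, f e := by
  have hd := Finset.disjoint_left.1 h.disj
  rw [h.eqE, Finset.prod_union, Finset.prod_union]
  · rw [Finset.disjoint_left]
    intro e g g'
    obtain ⟨a, _, _, hb, rfl⟩ := h.hF e g'
    exact hd (mem_verts_of_mem g (fwd_right a)) hb
  · rw [Finset.disjoint_left]
    intro e g g'
    rcases Finset.mem_union.1 g with g | g
    · exact hd (mem_verts_of_mem g (Sym2.out_fst_mem e)) (mem_verts_of_mem g' (Sym2.out_fst_mem e))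
    · obtain ⟨a, ha, _, _, rfl⟩ := h.hF e g
      exact hd ha (mem_verts_of_mem g' (fwd_left a))

lemma prod_E' (h : Surg K x E u E' d) (β J : ℝ) :
    ∏ e ∈ E', rr β J e = (∏ e ∈ d.EA, rr β J e) * (∏ e ∈ seg d.a d.i₁ d.i₂, rr β J e) *
      ∏ e ∈ d.EB, rr β J e := by
  rw [h.eqE', Finset.prod_union, Finset.prod_union]
  · congr 1
    rw [shE, Finset.prod_image (fun _ _ _ _ g => map_sh_inj _ g)]
    exact Finset.prod_congr rfl fun e _ => rr_map β J _ e
  · rw [Finset.disjoint_right]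
    exact fun e g => h.seg_notA g
  · rw [Finset.disjoint_left]
    intro e g g'
    rcases Finset.mem_union.1 g with g | g
    · have h1 := h.lowA _ (mem_verts_of_mem g (Sym2.out_fst_mem e))
      have h2 := h.highB' _ (mem_verts_of_mem g' (Sym2.out_fst_mem e))
      omega
    · exact h.seg_notB g g'

lemma card_F (h : Surg K x E u E' d) :
    d.F.card ≤ ((verts x E).filter fun v => v.1 = u).card :=
  ((Finset.card_le_card h.F_sub).trans Finset.card_image_le).trans
    (Finset.card_le_card h.slice_sub)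

lemma card_seg (h : Surg K x E u E' d) : (seg d.a d.i₁ d.i₂).card ≤ 2 * K + 1 := by
  have := h.i2le
  refine Finset.card_image_le.trans ?_
  rw [Nat.card_Ico]
  omega

end Surg

lemma psi_shift {M : Model D} (hM : M.CW) {J : ℝ} (hJ : 0 ≤ J) (L : ℤ) (W : Finset (Site D)) :
    M.Ψ J Set.univ (W.image (sh L)) = M.Ψ J Set.univ W := by
  have := hM.symm J hJ (shEquiv L) (fun x y => adj_sh L x y)
    (fun x y _ => edgeJ_map J L s(x, y)) Set.univ W (Set.subset_univ _)
  rw [Set.image_univ, Equiv.range_eq_univ] at this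
  exact this

/-- The weight before the surgery is bounded by a constant times the weight after it. -/
lemma wt_le {M : Model D} (hM : M.CW) {J : ℝ} (hJ : 0 ≤ J) : ∃ c : ℝ, 0 < c ∧
    ∀ (K V : ℕ), 1 ≤ K → ∃ Λ : ℝ, 0 < Λ ∧ ∀ (S : Set (Site D)) (x : Site D)
      (E E' : Finset (Ed D)) (u : ℤ) (d : Data D), (∀ v : Site D, x.1 ≤ v.1 → v ∈ S) →
      Surg K x E u E' d → load c K (verts x E) u ≤ V →
      M.wt J S x E ≤ ENNReal.ofReal Λ * M.wt J S x E' := by
  obtain ⟨C, c, hC, hc, hmix⟩ := hM.mix J hJ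
  obtain ⟨p, hp, hpos⟩ := hM.pos J hJ
  obtain ⟨ρ, R, hρ, hρ1, hR, hr⟩ := rr_bounds (D := D) hM.beta_pos hJ
  refine ⟨c, hc, fun K V hK => ?_⟩
  have hp' : 0 < min p 1 := lt_min hp one_pos
  refine ⟨R ^ V * Real.exp (C * V) / (min p 1 ^ (2 * K) * ρ ^ (2 * K + 1)), by positivity, ?_⟩
  intro S x E E' u d hS h hV
  unfold Model.wt
  by_cases hE : IsClu x E ∧ (↑(verts x E) : Set (Site D)) ⊆ S
  swap
  · rw [if_neg hE]; exact zero_le
  have alev := h.a_lev
  have xu := h.xu
  have hAS : (↑(verts x d.EA) : Set (Site D)) ⊆ S := fun v hv =>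
    hE.2 (by rw [h.vertsE.2]; exact Finset.mem_coe.2 (Finset.mem_union_left _ hv))
  have hBS : (↑(verts d.x' d.EB) : Set (Site D)) ⊆ S := fun v hv =>
    hE.2 (by rw [h.vertsE.2]; exact Finset.mem_coe.2 (Finset.mem_union_right _ hv))
  have hIS : (↑(inner d) : Set (Site D)) ⊆ S \ ↑(verts x d.EA) := by
    intro v hv
    obtain ⟨i, h1, _, rfl⟩ := mem_inner.1 (Finset.mem_coe.1 hv)
    exact ⟨hS _ (by simp; omega), h.i1max i h1⟩
  have hB'S : (↑(verts (sh (2 * K) d.x') (shE (2 * K) d.EB)) : Set (Site D)) ⊆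
      (S \ ↑(verts x d.EA)) \ ↑(inner d) := by
    intro v hv
    have g := h.highB' v hv
    refine ⟨⟨hS _ (by omega), fun g' => ?_⟩, fun g' => ?_⟩
    · have := h.lowA v g'
      omega
    · obtain ⟨i, _, h2, rfl⟩ := mem_inner.1 (Finset.mem_coe.1 g')
      exact h.i2min i h2 hv
  have hJS : (↑(inner d ∪ verts (sh (2 * K) d.x') (shE (2 * K) d.EB)) : Set (Site D)) ⊆
      S \ ↑(verts x d.EA) := by
    rw [Finset.coe_union]
    exact Set.union_subset hIS fun v hv => (hB'S hv).1
  have hE' : IsClu x E' ∧ (↑(verts x E') : Set (Site D)) ⊆ S := by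
    refine ⟨h.vertsE'.1, ?_⟩
    rw [h.verts_eq, Finset.coe_union]
    exact Set.union_subset hAS fun v hv => (hJS hv).1
  rw [if_pos hE, if_pos hE', ← ENNReal.ofReal_mul (by positivity)]
  refine ENNReal.ofReal_le_ofReal ?_
  unfold Model.wtR
  have hBS' : (↑(verts d.x' d.EB) : Set (Site D)) ⊆ S \ ↑(verts x d.EA) := fun v hv =>
    ⟨hBS hv, fun g => Finset.disjoint_left.1 h.disj g hv⟩
  have e1 : M.Ψ J S (verts x E) =
      M.Ψ J S (verts x d.EA) * M.Ψ J (S \ ↑(verts x d.EA)) (verts d.x' d.EB) := by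
    rw [h.vertsE.2]; exact hM.cocycle J hJ S _ _ h.disj hAS hBS
  have e2 : M.Ψ J S (verts x E') = M.Ψ J S (verts x d.EA) *
      (M.Ψ J (S \ ↑(verts x d.EA)) (inner d) * M.Ψ J ((S \ ↑(verts x d.EA)) \ ↑(inner d))
        (verts (sh (2 * K) d.x') (shE (2 * K) d.EB))) := by
    rw [h.verts_eq, hM.cocycle J hJ S _ _ ?_ hAS (fun v hv => (hJS hv).1),
      hM.cocycle J hJ _ _ _ ?_ hIS (fun v hv => (hB'S hv).1)]
    · exact Finset.disjoint_right.2 fun v hv g => (hB'S hv).2 g
    · exact Finset.disjoint_right.2 fun v hv g => (hJS hv).2 g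
  have m1 : M.Ψ J (S \ ↑(verts x d.EA)) (verts d.x' d.EB) ≤
      M.Ψ J Set.univ (verts d.x' d.EB) * Real.exp (C * V) := by
    refine (hmix Set.univ _ _ (fun v => (v.1 : ℝ) - u - K) (Set.subset_univ _) hBS' ?_).trans ?_
    · intro v _ w _ hw
      have hw' : w.1 ≤ u + K := by
        by_contra hlt
        exact hw ⟨hS w (by omega), fun g => hlt (h.lowA w g)⟩
      have h1 : ‖(w - v).1‖ ≤ ‖w - v‖ := norm_fst_le _
      rw [Int.norm_eq_abs] at h1
      have h2 : (w.1 : ℝ) ≤ u + K := by exact_mod_cast hw'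
      have h3 := neg_abs_le (((w - v).1 : ℤ) : ℝ)
      simp only [Prod.fst_sub, Int.cast_sub] at h1 h3
      linarith
    · refine mul_le_mul_of_nonneg_left (Real.exp_le_exp.2 (mul_le_mul_of_nonneg_left ?_ hC))
        (le_trans (by positivity) (hpos _ _ (Set.subset_univ _)))
      refine le_trans ?_ hV
      refine Finset.sum_le_sum_of_subset_of_nonneg (fun v hv => ?_)
        (fun _ _ _ => (Real.exp_pos _).le)
      exact Finset.mem_filter.2 ⟨by rw [h.vertsE.2]; exact Finset.mem_union_right _ hv,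
        h.highB v hv⟩
  have m2 : M.Ψ J Set.univ (verts d.x' d.EB) ≤ M.Ψ J ((S \ ↑(verts x d.EA)) \ ↑(inner d))
      (verts (sh (2 * K) d.x') (shE (2 * K) d.EB)) := by
    rw [← psi_shift hM hJ (2 * K), ← verts_shE]
    exact hM.anti J hJ _ _ _ (Set.subset_univ _) hB'S
  have m3 : min p 1 ^ (2 * K) ≤ M.Ψ J (S \ ↑(verts x d.EA)) (inner d) :=
    ((pow_le_pow_of_le_one hp'.le (min_le_right _ _) h.card_inner).trans
      (pow_le_pow_left₀ hp'.le (min_le_left _ _) _)).trans (hpos _ _ hIS)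
  have pA : 0 ≤ M.Ψ J S (verts x d.EA) := le_trans (by positivity) (hpos _ _ hAS)
  have pB : 0 ≤ M.Ψ J (S \ ↑(verts x d.EA)) (verts d.x' d.EB) :=
    le_trans (by positivity) (hpos _ _ hBS')
  have pB' : 0 ≤ M.Ψ J ((S \ ↑(verts x d.EA)) \ ↑(inner d))
      (verts (sh (2 * K) d.x') (shE (2 * K) d.EB)) := le_trans (by positivity) (hpos _ _ hB'S)
  have rA : 0 ≤ ∏ e ∈ d.EA, rr M.β J e := Finset.prod_nonneg fun e _ => (hr e).1
  have rB : 0 ≤ ∏ e ∈ d.EB, rr M.β J e := Finset.prod_nonneg fun e _ => (hr e).1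
  have rS : 0 ≤ ∏ e ∈ seg d.a d.i₁ d.i₂, rr M.β J e := Finset.prod_nonneg fun e _ => (hr e).1
  have hFV : d.F.card ≤ V := by
    have := (slice_le_load hc hK (verts x E) u).trans hV
    have h2 : ((d.F.card : ℕ) : ℝ) ≤ ((verts x E).filter fun v => v.1 = u).card := by
      exact_mod_cast h.card_F
    exact_mod_cast h2.trans this
  have rF : (∏ e ∈ d.F, rr M.β J e) * ρ ^ (2 * K + 1) ≤
      R ^ V * ∏ e ∈ seg d.a d.i₁ d.i₂, rr M.β J e := by
    rcases (hr (fwd d.a)).2.2 with g | g
    · rw [Finset.prod_eq_zero h.aF g, zero_mul]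
      positivity
    · refine mul_le_mul ?_ ?_ (by positivity) (by positivity)
      · refine le_trans ?_ (pow_le_pow_right₀ hR hFV)
        rw [← Finset.prod_const]
        exact Finset.prod_le_prod (fun e _ => (hr e).1) fun e _ => (hr e).2.1
      · refine (pow_le_pow_of_le_one hρ.le hρ1 h.card_seg).trans ?_
        rw [← Finset.prod_const]
        refine Finset.prod_le_prod (fun _ _ => hρ.le) fun e he => ?_
        obtain ⟨i, _, _, rfl⟩ := mem_seg.1 he
        rw [← map_fwd, rr_map]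
        exact g
  rw [e1, e2, h.prod_E, h.prod_E', div_mul_eq_mul_div, le_div_iff₀ (by positivity)]
  have m4 : M.Ψ J (S \ ↑(verts x d.EA)) (verts d.x' d.EB) * min p 1 ^ (2 * K) ≤
      Real.exp (C * V) * (M.Ψ J (S \ ↑(verts x d.EA)) (inner d) *
        M.Ψ J ((S \ ↑(verts x d.EA)) \ ↑(inner d))
          (verts (sh (2 * K) d.x') (shE (2 * K) d.EB))) := by
    calc _ ≤ (M.Ψ J ((S \ ↑(verts x d.EA)) \ ↑(inner d))
          (verts (sh (2 * K) d.x') (shE (2 * K) d.EB)) * Real.exp (C * V)) *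
          M.Ψ J (S \ ↑(verts x d.EA)) (inner d) :=
          mul_le_mul (m1.trans (mul_le_mul_of_nonneg_right m2 (Real.exp_pos _).le)) m3
            (by positivity) (by positivity)
      _ = _ := by ring
  have m5 := mul_le_mul rF m4 (by positivity) (by positivity)
  have m6 := mul_le_mul_of_nonneg_left m5 (show 0 ≤ (M.q : ℝ) * (∏ e ∈ d.EA, rr M.β J e) *
    (∏ e ∈ d.EB, rr M.β J e) * M.Ψ J S (verts x d.EA) by positivity)
  calc _ = _ := by ring
    _ ≤ _ := m6
    _ = _ := by ring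

end

end Pool.Agent.MP_48a2f9_mp.OZ.MG2

end MrgPart1

-- ======== part 2: formerly Pool.Agent.MP_48a2f9_mp.MG2Cnt
section MrgPart2

/-!
Module MG2, part 5: counting.
-/

open scoped ENNReal

namespace Pool.Agent.MP_48a2f9_mp.OZ.MG2

noncomputable section
open Classical

variable {D : ℕ}

/-- The multi-valued map principle. -/
lemma mvm {α γ : Type*} (w : α → ℝ≥0∞) (G G' : α → Prop) (R : α → γ → α → Prop) (m Λ N : ℝ≥0∞)
    (h1 : ∀ E, G E → ∃ U : Finset γ, m ≤ U.card ∧
      ∀ u ∈ U, ∃ E', R E u E' ∧ G' E' ∧ w E ≤ Λ * w E')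
    (h2 : ∀ E', G' E' → ∀ P : Finset (α × γ), (∀ p ∈ P, R p.1 p.2 E') → (P.card : ℝ≥0∞) ≤ N) :
    m * ∑' E, (if G E then w E else 0) ≤ Λ * N * ∑' E', (if G' E' then w E' else 0) := by
  have step1 : ∀ E, m * (if G E then w E else 0) ≤
      ∑' u, ∑' E', Λ * (if R E u E' ∧ G' E' then w E' else 0) := by
    intro E
    split_ifs with hG
    · obtain ⟨U, hU, hU'⟩ := h1 E hG
      calc m * w E ≤ U.card * w E := by gcongr
        _ = ∑ _u ∈ U, w E := by rw [Finset.sum_const, nsmul_eq_mul]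
        _ ≤ ∑ u ∈ U, ∑' E', Λ * (if R E u E' ∧ G' E' then w E' else 0) := by
          refine Finset.sum_le_sum fun u hu => ?_
          obtain ⟨E', g1, g2, g3⟩ := hU' u hu
          refine le_trans ?_ (ENNReal.le_tsum E')
          rw [if_pos ⟨g1, g2⟩]
          exact g3
        _ ≤ _ := ENNReal.sum_le_tsum U
    · simp
  have step2 : ∀ E', ∑' p : α × γ, Λ * (if R p.1 p.2 E' ∧ G' E' then w E' else 0) ≤
      Λ * N * (if G' E' then w E' else 0) := by
    intro E'
    by_cases hG : G' E'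
    swap
    · simp [hG]
    rw [if_pos hG, ENNReal.tsum_eq_iSup_sum]
    refine iSup_le fun P => ?_
    rw [← Finset.mul_sum, ← Finset.sum_filter, Finset.sum_const, nsmul_eq_mul, mul_assoc]
    gcongr
    exact h2 E' hG _ fun p hp => (Finset.mem_filter.1 hp).2.1
  calc m * ∑' E, (if G E then w E else 0) = ∑' E, m * (if G E then w E else 0) :=
        ENNReal.tsum_mul_left.symm
    _ ≤ ∑' E, ∑' u, ∑' E', Λ * (if R E u E' ∧ G' E' then w E' else 0) :=
        ENNReal.tsum_le_tsum step1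
    _ = ∑' p : α × γ, ∑' E', Λ * (if R p.1 p.2 E' ∧ G' E' then w E' else 0) :=
        (ENNReal.tsum_prod (f := fun E u => ∑' E',
          Λ * (if R E u E' ∧ G' E' then w E' else 0))).symm
    _ = ∑' E', ∑' p : α × γ, Λ * (if R p.1 p.2 E' ∧ G' E' then w E' else 0) :=
        ENNReal.tsum_comm
    _ ≤ ∑' E', Λ * N * (if G' E' then w E' else 0) := ENNReal.tsum_le_tsum step2
    _ = _ := ENNReal.tsum_mul_left

lemma geo_sum {c : ℝ} (hc : 0 < c) (K : ℕ) (T : Finset ℤ) (a : ℤ) :
    ∑ u ∈ T.filter (fun u => u - K < a), Real.exp (-c * ((a : ℝ) - u - K)) ≤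
      Real.exp (2 * K * c) * (1 - Real.exp (-c))⁻¹ := by
  have hlt : Real.exp (-c) < 1 := Real.exp_lt_one_iff.2 (by linarith)
  have hs := summable_geometric_of_lt_one (Real.exp_pos (-c)).le hlt
  calc ∑ u ∈ T.filter (fun u => u - K < a), Real.exp (-c * ((a : ℝ) - u - K))
      = ∑ u ∈ T.filter (fun u => u - K < a),
          Real.exp (2 * K * c) * Real.exp (-c) ^ (a - u + K).toNat := by
        refine Finset.sum_congr rfl fun u hu => ?_
        have h1 := (Finset.mem_filter.1 hu).2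
        have h2 : (((a - u + K).toNat : ℕ) : ℝ) = (a : ℝ) - u + K := by
          have : (((a - u + K).toNat : ℕ) : ℤ) = a - u + K := by omega
          exact_mod_cast this
        rw [← Real.exp_nat_mul, ← Real.exp_add, h2]
        congr 1
        ring
    _ = Real.exp (2 * K * c) * ∑ n ∈ (T.filter (fun u => u - K < a)).image
          (fun u => (a - u + K).toNat), Real.exp (-c) ^ n := by
        rw [← Finset.mul_sum, Finset.sum_image]
        intro u hu v hv huv
        have h1 := (Finset.mem_filter.1 (Finset.mem_coe.1 hu)).2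
        have h2 := (Finset.mem_filter.1 (Finset.mem_coe.1 hv)).2
        dsimp only at huv
        omega
    _ ≤ _ := by
        rw [← tsum_geometric_of_lt_one (Real.exp_pos (-c)).le hlt]
        exact mul_le_mul_of_nonneg_left (hs.sum_le_tsum _ fun _ _ => by positivity)
          (Real.exp_pos _).le

lemma sum_load {c : ℝ} (hc : 0 < c) (K : ℕ) (W : Finset (Site D)) (T : Finset ℤ) :
    ∑ u ∈ T, load c K W u ≤ Real.exp (2 * K * c) * (1 - Real.exp (-c))⁻¹ * W.card := by
  unfold load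
  simp only [Finset.sum_filter]
  rw [Finset.sum_comm, mul_comm, ← nsmul_eq_mul, ← Finset.sum_const]
  refine Finset.sum_le_sum fun v _ => ?_
  rw [← Finset.sum_filter]
  exact geo_sum hc K T v.1

lemma load_nonneg (c : ℝ) (K : ℕ) (W : Finset (Site D)) (u : ℤ) : 0 ≤ load c K W u :=
  Finset.sum_nonneg fun _ _ => (Real.exp_pos _).le

/-- Most cuts have a bounded load. -/
lemma usable {c : ℝ} (hc : 0 < c) (K : ℕ) (W : Finset (Site D)) (T : Finset ℤ) {V m : ℝ}
    (hV : 0 < V) (hm : 2 * m ≤ T.card)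
    (hW : Real.exp (2 * K * c) * (1 - Real.exp (-c))⁻¹ * W.card ≤ V * m) :
    m ≤ (T.filter fun u => load c K W u ≤ V).card := by
  have h1 := Finset.card_filter_add_card_filter_not (s := T) (fun u => load c K W u ≤ V)
  have h2 : V * (T.filter fun u => ¬ load c K W u ≤ V).card ≤ V * m := by
    refine le_trans ?_ ((sum_load hc K W T).trans hW)
    rw [mul_comm, ← nsmul_eq_mul, ← Finset.sum_const]
    refine le_trans (Finset.sum_le_sum fun u hu => (not_le.1 (Finset.mem_filter.1 hu).2).le) ?_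
    exact Finset.sum_le_sum_of_subset_of_nonneg (Finset.filter_subset _ _)
      fun _ _ _ => load_nonneg _ _ _ _
  have h3 := le_of_mul_le_mul_left h2 hV
  have h4 : ((T.filter fun u => load c K W u ≤ V).card : ℝ) +
      (T.filter fun u => ¬ load c K W u ≤ V).card = T.card := by exact_mod_cast h1
  linarith

/-- The size of a fibre of the surgery. -/
lemma fibre {c : ℝ} (hc : 0 < c) {K V : ℕ} (hK : 1 ≤ K) (x : Site D) (s : ℕ)
    (E' : Finset (Ed D)) (P : Finset (Finset (Ed D) × ℤ))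
    (hP : ∀ p ∈ P, (∃ d, Surg K x p.1 p.2 E' d) ∧ load c K (verts x p.1) p.2 ≤ V ∧
      p.2 < x.1 + s) :
    P.card ≤ (K + 1) * ((2 * K + 2) * 2 ^ V) * brkCount E' x.1 (s + 2 * K) := by
  have hd : ∀ p : Finset (Ed D) × ℤ, ∃ d : Data D, p ∈ P → Surg K x p.1 p.2 E' d := by
    intro p
    by_cases hp : p ∈ P
    · obtain ⟨d, hd⟩ := (hP p hp).1
      exact ⟨d, fun _ => hd⟩
    · exact ⟨⟨x, ∅, ∅, ∅, x, 0, 0⟩, fun g => absurd g hp⟩
  choose d hd using hd
  unfold brkCount
  refine Finset.card_le_mul_card_image_of_maps_to (f := fun p => (p.2 + K - x.1).toNat)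
    (fun p hp => ?_) _ (fun b _ => ?_)
  · have h := hd p hp
    have h1 := h.xu
    have h2 := (hP p hp).2.2
    refine Finset.mem_filter.2 ⟨Finset.mem_range.2 (by omega), ?_⟩
    have : x.1 + ((p.2 + K - x.1).toNat : ℕ) = p.2 + K := by omega
    rw [this, h.cross_mid, Finset.card_singleton]
  · rcases (P.filter fun p => (p.2 + K - x.1).toNat = b).eq_empty_or_nonempty with he | ⟨p0, hp0⟩
    · rw [he]; simp
    have lev : ∀ p ∈ P.filter fun p => (p.2 + K - x.1).toNat = b, p.2 = p0.2 := by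
      intro p hp
      obtain ⟨g1, g2⟩ := Finset.mem_filter.1 hp
      obtain ⟨g3, g4⟩ := Finset.mem_filter.1 hp0
      have := (hd p g1).xu
      have := (hd p0 g3).xu
      omega
    have hsl : (((verts x E').filter fun v => v.1 = p0.2).image fwd).card ≤ V := by
      have g3 := (Finset.mem_filter.1 hp0).1
      have g1 := (slice_le_load hc hK (verts x p0.1) p0.2).trans (hP p0 g3).2.1
      have g2 : ((verts x p0.1).filter fun v => v.1 = p0.2).card ≤ V := by exact_mod_cast g1
      exact (Finset.card_image_le.trans (Finset.card_le_card (hd p0 g3).slice_sub)).trans g2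
    refine le_trans (Finset.card_le_card_of_injOn
      (t := Finset.range (K + 1) ×ˢ Finset.range (2 * K + 2) ×ˢ
        (((verts x E').filter fun v => v.1 = p0.2).image fwd).powerset)
      (fun p => ((d p).i₁, (d p).i₂, (d p).F)) (fun p hp => ?_) (fun p hp p' hp' hpp => ?_)) ?_
    · have hp := Finset.mem_coe.1 hp
      have h := hd p (Finset.mem_filter.1 hp).1
      have h1 := h.i1le
      have h2 := h.i2le
      have h3 := h.F_sub
      rw [lev p hp] at h3
      simp only [Finset.mem_coe, Finset.mem_product, Finset.mem_range, Finset.mem_powerset]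
      exact ⟨by omega, by omega, h3⟩
    · have hp := Finset.mem_coe.1 hp
      have hp' := Finset.mem_coe.1 hp'
      have h := hd p (Finset.mem_filter.1 hp).1
      have h' := hd p' (Finset.mem_filter.1 hp').1
      have e2 : p.2 = p'.2 := (lev p hp).trans (lev p' hp').symm
      rw [← e2] at h'
      simp only [Prod.mk.injEq] at hpp
      exact Prod.ext (h.recon h' hpp.1 hpp.2.1 hpp.2.2) e2
    · rw [Finset.card_product, Finset.card_product, Finset.card_range, Finset.card_range,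
        Finset.card_powerset]
      gcongr
      norm_num

lemma poly_le_exp (a η : ℝ) (ha : 0 ≤ a) (hη : 0 < η) (n : ℕ) : ∃ C : ℝ, 0 ≤ C ∧
    ∀ s : ℝ, 0 ≤ s → (a * s + 1) ^ n ≤ C * Real.exp (η * s) := by
  refine ⟨(a / η + 1) ^ n * n.factorial * Real.exp 1, by positivity, fun s hs => ?_⟩
  have h1 : a * s + 1 ≤ (a / η + 1) * (η * s + 1) := by
    have : (a / η + 1) * (η * s + 1) = a * s + 1 + (a / η + η * s) := by
      field_simp
      ring
    rw [this]
    have : 0 ≤ a / η + η * s := by positivity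
    linarith
  have h2 := Real.pow_div_factorial_le_exp (η * s + 1) (by positivity) n
  rw [div_le_iff₀ (by positivity), Real.exp_add] at h2
  calc (a * s + 1) ^ n ≤ ((a / η + 1) * (η * s + 1)) ^ n := by gcongr
    _ = (a / η + 1) ^ n * (η * s + 1) ^ n := mul_pow _ _ _
    _ ≤ (a / η + 1) ^ n * (Real.exp (η * s) * Real.exp 1 * n.factorial) := by gcongr
    _ = _ := by ring

end

end Pool.Agent.MP_48a2f9_mp.OZ.MG2

end MrgPart2

-- ======== part 3: formerly Pool.Agent.MP_48a2f9_mp.MG2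
section MrgPart3

/-!
Module MG2: long clusters have many breaks.
-/

open scoped ENNReal

namespace Pool.Agent.MP_48a2f9_mp.OZ

noncomputable section
open Classical

namespace MG2

variable {D : ℕ}

/-- The class of clusters after `j` surgeries. -/
def Cls (K N : ℕ) (κ δ : ℝ) (x : Site D) (s j : ℕ) (E : Finset (Ed D)) : Prop :=
  (∃ T, Chain K (x.1 + ((s + j * (2 * K) : ℕ) : ℤ)) x E T ∧ κ * s ≤ T.length) ∧
    (brkCount E x.1 (s + j * (2 * K)) : ℝ) ≤ δ * s + 4 * K * j ∧
    (verts x E).card ≤ N * (s + 1) + j * (2 * K)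

/-- One step of the iteration. -/
lemma step {M : Model D} (hM : M.CW) {J : ℝ} (hJ : 0 ≤ J) {K : ℕ} (hK : 1 ≤ K) (N : ℕ) {κ : ℝ}
    (hκ : 0 < κ) : ∃ δ : ℝ, 0 < δ ∧ δ ≤ 1 ∧ ∀ (S : Set (Site D)) (x : Site D) (s j : ℕ),
      (∀ v : Site D, x.1 ≤ v.1 → v ∈ S) → ((j : ℝ) + 1 ≤ δ * s) →
      (∑' E, if Cls K N κ δ x s j E then M.wt J S x E else 0) ≤ ENNReal.ofReal (Real.exp (-1)) *
        ∑' E, if Cls K N κ δ x s (j + 1) E then M.wt J S x E else 0 := by
  obtain ⟨c, hc, hw⟩ := wt_le hM hJ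
  have hlt : Real.exp (-c) < 1 := Real.exp_lt_one_iff.2 (by linarith)
  have hΓ : 0 < Real.exp (2 * K * c) * (1 - Real.exp (-c))⁻¹ :=
    mul_pos (Real.exp_pos _) (inv_pos.2 (by linarith))
  set Γ := Real.exp (2 * K * c) * (1 - Real.exp (-c))⁻¹ with hΓd
  obtain ⟨V, hV⟩ := exists_nat_gt (2 * Γ * (2 * N + 2 * K) / κ)
  have hV0 : (0 : ℝ) < V := lt_of_le_of_lt (by positivity) hV
  rw [div_lt_iff₀ hκ] at hV
  obtain ⟨Λ, hΛ, hw⟩ := hw K V hK
  set n0 : ℕ := (K + 1) * ((2 * K + 2) * 2 ^ V) with hn0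
  have hn : (0 : ℝ) < n0 := by rw [hn0]; positivity
  refine ⟨min 1 (κ / 2 * Real.exp (-1) / (Λ * n0 * (1 + 4 * K))), by positivity,
    min_le_left _ _, fun S x s j hS hj => ?_⟩
  set δ := min 1 (κ / 2 * Real.exp (-1) / (Λ * n0 * (1 + 4 * K))) with hδ
  have hδ1 : δ ≤ 1 := min_le_left _ _
  have hδ0 : 0 < δ := by positivity
  have hδ2 : δ * (Λ * n0 * (1 + 4 * K)) ≤ κ / 2 * Real.exp (-1) := by
    rw [← le_div_iff₀ (by positivity)]; exact min_le_right _ _
  have hj0 : (0 : ℝ) ≤ j := Nat.cast_nonneg j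
  have hs0 : (0 : ℝ) ≤ s := Nat.cast_nonneg s
  have hjs : (j : ℝ) + 1 ≤ s := hj.trans (by nlinarith)
  have hs1 : (1 : ℝ) ≤ s := by linarith
  have key := mvm (fun E => M.wt J S x E) (Cls K N κ δ x s j) (Cls K N κ δ x s (j + 1))
    (fun E (u : ℤ) E' => (∃ d, Surg K x E u E' d) ∧ load c K (verts x E) u ≤ V ∧
      u < x.1 + ((s + j * (2 * K) : ℕ) : ℤ))
    (ENNReal.ofReal (κ * s / 2)) (ENNReal.ofReal Λ)
    (ENNReal.ofReal (n0 * (δ * s * (1 + 4 * K)))) ?_ ?_
  · rw [← ENNReal.ofReal_mul hΛ.le] at key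
    have h1 : ENNReal.ofReal (Λ * (n0 * (δ * s * (1 + 4 * K)))) ≤
        ENNReal.ofReal (κ * s / 2) * ENNReal.ofReal (Real.exp (-1)) := by
      rw [← ENNReal.ofReal_mul (by positivity)]
      refine ENNReal.ofReal_le_ofReal ?_
      have := mul_le_mul_of_nonneg_left hδ2 hs0
      calc _ = s * (δ * (Λ * n0 * (1 + 4 * K))) := by ring
        _ ≤ _ := this
        _ = _ := by ring
    refine (ENNReal.mul_le_mul_iff_right (a := ENNReal.ofReal (κ * s / 2))
      (by rw [Ne, ENNReal.ofReal_eq_zero, not_le]; positivity) ENNReal.ofReal_ne_top).1 ?_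
    refine key.trans ?_
    refine le_trans (mul_le_mul_left h1 _) ?_
    rw [mul_assoc]
  · rintro E ⟨⟨T, hT, hlen⟩, hbrk, hcard⟩
    refine ⟨T.toFinset.filter fun u => load c K (verts x E) u ≤ V, ?_, fun u hu => ?_⟩
    · rw [← ENNReal.ofReal_natCast]
      refine ENNReal.ofReal_le_ofReal (usable hc K _ _ hV0 ?_ ?_)
      · rw [List.toFinset_card_of_nodup (chain_nodup hT)]
        linarith
      · have h1 : ((verts x E).card : ℝ) ≤ N * (s + 1) + j * (2 * K) := by exact_mod_cast hcard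
        have h2 : (N : ℝ) * (s + 1) + j * (2 * K) ≤ (2 * N + 2 * K) * s := by
          have a1 : (N : ℝ) * 1 ≤ N * s := by gcongr
          have a2 : (j : ℝ) * (2 * K) ≤ s * (2 * K) :=
            mul_le_mul_of_nonneg_right (by linarith) (by positivity)
          linarith
        calc Γ * ((verts x E).card : ℝ) ≤ Γ * ((2 * N + 2 * K) * s) := by
              gcongr; exact h1.trans h2
          _ = 2 * Γ * (2 * N + 2 * K) * (s / 2) := by ring
          _ ≤ V * κ * (s / 2) := by gcongr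
          _ = _ := by ring
    · obtain ⟨hu1, hu2⟩ := Finset.mem_filter.1 hu
      rw [List.mem_toFinset] at hu1
      obtain ⟨E', d, T', h, hT', hl⟩ := surg_exists hT u hu1
      have hr := (chain_range hT u hu1).2
      have es : s + (j + 1) * (2 * K) = s + j * (2 * K) + 2 * K := by ring
      refine ⟨E', ⟨⟨d, h⟩, hu2, hr⟩, ⟨⟨T', ?_, by rw [hl]; exact hlen⟩, ?_, ?_⟩,
        hw S x E E' u d hS h hu2⟩
      · rw [es]
        push_cast at hT' ⊢
        rw [← add_assoc]
        exact hT'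
      · rw [es]
        have h1 : (brkCount E' x.1 (s + j * (2 * K) + 2 * K) : ℝ) ≤
            brkCount E x.1 (s + j * (2 * K)) + 4 * K := by exact_mod_cast h.brk_le hK hr
        push_cast
        linarith
      · have := h.card_le
        have e2 : (j + 1) * (2 * K) = j * (2 * K) + 2 * K := by ring
        omega
  · rintro E' ⟨_, hbrk, _⟩ P hP
    have h1 := fibre hc hK x (s + j * (2 * K)) E' P hP
    have es : s + (j + 1) * (2 * K) = s + j * (2 * K) + 2 * K := by ring
    rw [← es] at h1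
    rw [← ENNReal.ofReal_natCast]
    refine ENNReal.ofReal_le_ofReal ?_
    have h2 : (P.card : ℝ) ≤ n0 * brkCount E' x.1 (s + (j + 1) * (2 * K)) := by exact_mod_cast h1
    refine h2.trans (mul_le_mul_of_nonneg_left (hbrk.trans ?_) hn.le)
    push_cast
    have : 4 * (K : ℝ) * (j + 1) ≤ 4 * K * (δ * s) := by gcongr
    linarith

/-- The weight of the initial class. -/
lemma cls_zero (h0 : MG0Stmt) {M : Model D} (hM : M.CW) {J ξ : ℝ} (hG : M.Good J ξ) {K : ℕ}
    (hK : 1 ≤ K) (N : ℕ) {κ : ℝ} (hκ : 0 < κ) : ∃ δ C : ℝ, 0 < δ ∧ δ ≤ 1 ∧ 0 ≤ C ∧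
      ∀ (S : Set (Site D)) (x : Site D) (s : ℕ), (∀ v : Site D, x.1 ≤ v.1 → v ∈ S) →
      (∑' E, if Cls K N κ δ x s 0 E then M.wt J S x E else 0) ≤
        ENNReal.ofReal (C * Real.exp (-(ξ + δ / 2) * s)) := by
  obtain ⟨δ, hδ, hδ1, hstep⟩ := step hM hG.1 hK N hκ
  obtain ⟨C0, hC0, hb⟩ := h0 D M J ξ hM hG
  obtain ⟨C1, hC1, hp⟩ := poly_le_exp (1 + 2 * K) (δ / 2) (by positivity) (by positivity) (2 * D)
  refine ⟨δ, Real.exp 1 * C0 * C1, hδ, hδ1, by positivity, fun S x s hS => ?_⟩
  have hs0 : (0 : ℝ) ≤ s := Nat.cast_nonneg s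
  have it : ∀ k : ℕ, (k : ℝ) ≤ δ * s →
      (∑' E, if Cls K N κ δ x s 0 E then M.wt J S x E else 0) ≤
        ENNReal.ofReal (Real.exp (-k)) *
          ∑' E, if Cls K N κ δ x s k E then M.wt J S x E else 0 := by
    intro k
    induction k with
    | zero => intro _; simp
    | succ k ih =>
      intro hk
      push_cast at hk
      refine (ih (by linarith)).trans ?_
      have : ENNReal.ofReal (Real.exp (-((k + 1 : ℕ) : ℝ))) =
          ENNReal.ofReal (Real.exp (-k)) * ENNReal.ofReal (Real.exp (-1)) := by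
        rw [← ENNReal.ofReal_mul (Real.exp_pos _).le, ← Real.exp_add]
        push_cast
        congr 2
        ring
      rw [this, mul_assoc]
      gcongr
      exact hstep S x s k hS hk
  have hk1 : (⌊δ * s⌋₊ : ℝ) ≤ δ * s := Nat.floor_le (by positivity)
  have hk2 : δ * s < ⌊δ * s⌋₊ + 1 := Nat.lt_floor_add_one _
  set k := ⌊δ * s⌋₊
  have hk0 : (0 : ℝ) ≤ k := Nat.cast_nonneg k
  have hks : (k : ℝ) ≤ s := hk1.trans (by nlinarith)
  refine (it k hk1).trans ?_
  have h1 : (∑' E, if Cls K N κ δ x s k E then M.wt J S x E else 0) ≤ _ :=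
    le_trans (ENNReal.tsum_le_tsum fun E => ?_) (hb S x 0 (s + k * (2 * K)))
  swap
  · by_cases hc : Cls K N κ δ x s k E
    · obtain ⟨T, hT, _⟩ := hc.1
      rw [if_pos hc, if_pos ⟨⟨x, root_mem _ _, by simp⟩, (chain_clu hT).2⟩]
    · rw [if_neg hc]; exact zero_le
  refine le_trans (mul_le_mul_right h1 _) ?_
  rw [← ENNReal.ofReal_mul (Real.exp_pos _).le]
  refine ENNReal.ofReal_le_ofReal ?_
  push_cast
  have a1 : ((0 : ℝ) + (s + k * (2 * K)) + 1) ^ (2 * D) ≤ C1 * Real.exp (δ / 2 * s) := by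
    refine le_trans ?_ (hp s hs0)
    have : (k : ℝ) * (2 * K) ≤ s * (2 * K) := by gcongr
    gcongr
    linarith
  have a2 : Real.exp (-ξ * (0 + (s + k * (2 * K)))) ≤ Real.exp (-ξ * s) := by
    refine Real.exp_le_exp.2 ?_
    have := hG.2.1
    have : 0 ≤ ξ * ((k : ℝ) * (2 * K)) := by positivity
    linarith
  have a3 : Real.exp (-(k : ℝ)) ≤ Real.exp (1 - δ * s) := Real.exp_le_exp.2 (by linarith)
  calc _ ≤ Real.exp (1 - δ * s) * (C0 * (C1 * Real.exp (δ / 2 * s)) * Real.exp (-ξ * s)) := by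
        gcongr
    _ = C0 * C1 * (Real.exp (1 - δ * s) * Real.exp (δ / 2 * s) * Real.exp (-ξ * s)) := by ring
    _ = C0 * C1 * (Real.exp 1 * Real.exp (-(ξ + δ / 2) * s)) := by
        rw [← Real.exp_add, ← Real.exp_add, ← Real.exp_add]
        congr 2
        ring
    _ = _ := by ring

/-- The weight of large clusters. -/
lemma big {M : Model D} (hM : M.CW) {J : ℝ} (hJ : 0 ≤ J) (a : ℝ) : ∃ (N : ℕ) (C : ℝ), 0 ≤ C ∧
    ∀ (S : Set (Site D)) (x : Site D) (s : ℕ),
      (∑' E, if N * (s + 1) < (verts x E).card then M.wt J S x E else 0) ≤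
        ENNReal.ofReal (C * Real.exp (-a * s)) := by
  obtain ⟨ε, C, hε, hv⟩ := hM.vol J hJ
  obtain ⟨N, hN⟩ := exists_nat_gt (a / ε)
  rw [div_lt_iff₀ hε] at hN
  refine ⟨N, max C 0, le_max_right _ _, fun S x s => ?_⟩
  have hs0 : (0 : ℝ) ≤ s := Nat.cast_nonneg s
  calc _ ≤ ∑' E, M.wt J S x E * ENNReal.ofReal (Real.exp (ε * (verts x E).card)) *
          ENNReal.ofReal (Real.exp (-a * s)) := by
        refine ENNReal.tsum_le_tsum fun E => ?_
        split_ifs with hc
        · rw [mul_assoc, ← ENNReal.ofReal_mul (Real.exp_pos _).le, ← Real.exp_add]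
          refine le_mul_of_one_le_right zero_le (ENNReal.one_le_ofReal.2 (Real.one_le_exp ?_))
          have h1 : (N : ℝ) * (s + 1) ≤ (verts x E).card := by exact_mod_cast hc.le
          have h2 : ε * ((N : ℝ) * (s + 1)) ≤ ε * (verts x E).card := by gcongr
          have h3 : a * s ≤ N * ε * s := by gcongr
          have h4 : 0 ≤ ε * N := by positivity
          linarith
        · exact zero_le
    _ ≤ ENNReal.ofReal (max C 0) * ENNReal.ofReal (Real.exp (-a * s)) := by
        rw [ENNReal.tsum_mul_right]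
        gcongr
        exact (hv S x).trans (ENNReal.ofReal_le_ofReal (le_max_left _ _))
    _ = _ := (ENNReal.ofReal_mul (le_max_right _ _)).symm

end MG2

/-- Module MG2. -/
theorem mg2Stmt (h0 : MG0Stmt) (h1 : MG1Stmt) : MG2Stmt := by
  intro D M J ξ hM hG
  obtain ⟨K, κ, c1, C1, hK, hκ, hc1, hb1⟩ := h1 D M J ξ hM hG
  obtain ⟨N, C2, hC2, hb2⟩ := MG2.big hM hG.1 (ξ + c1)
  obtain ⟨δ, C3, hδ, _, hC3, hb3⟩ := MG2.cls_zero h0 hM hG hK N hκ
  refine ⟨δ, min c1 (δ / 2), max C1 0 + C2 + C3, hδ, lt_min hc1 (by positivity),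
    fun S x s hS => ?_⟩
  have hs0 : (0 : ℝ) ≤ s := Nat.cast_nonneg s
  have m1 : Real.exp (-(ξ + c1) * s) ≤ Real.exp (-(ξ + min c1 (δ / 2)) * s) := by
    have := min_le_left c1 (δ / 2)
    gcongr
  have m2 : Real.exp (-(ξ + δ / 2) * s) ≤ Real.exp (-(ξ + min c1 (δ / 2)) * s) := by
    have := min_le_right c1 (δ / 2)
    gcongr
  calc _ ≤ ∑' E : Finset (Ed D), ((if Reach x E s ∧
            ¬ ∃ T, Chain K (x.1 + s) x E T ∧ κ * s ≤ T.length then M.wt J S x E else 0) +
          (if N * (s + 1) < (verts x E).card then M.wt J S x E else 0) +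
          (if MG2.Cls K N κ δ x s 0 E then M.wt J S x E else 0)) := by
        refine ENNReal.tsum_le_tsum fun E => ?_
        by_cases hc : Reach x E s ∧ (brkCount E x.1 s : ℝ) ≤ δ * s
        swap
        · rw [if_neg hc]; exact zero_le
        rw [if_pos hc]
        by_cases g1 : ∃ T, Chain K (x.1 + s) x E T ∧ κ * s ≤ T.length
        · by_cases g2 : N * (s + 1) < (verts x E).card
          · rw [if_pos g2]
            exact le_add_right le_add_self
          · have g3 : MG2.Cls K N κ δ x s 0 E :=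
              ⟨by simpa using g1, by simpa using hc.2, by simpa using g2⟩
            rw [if_pos g3]
            exact le_add_self
        · rw [if_pos ⟨hc.1, g1⟩]
          exact le_add_right (le_add_right le_rfl)
    _ ≤ ENNReal.ofReal (max C1 0 * Real.exp (-(ξ + min c1 (δ / 2)) * s)) +
          ENNReal.ofReal (C2 * Real.exp (-(ξ + min c1 (δ / 2)) * s)) +
          ENNReal.ofReal (C3 * Real.exp (-(ξ + min c1 (δ / 2)) * s)) := by
        rw [ENNReal.tsum_add, ENNReal.tsum_add]
        refine add_le_add (add_le_add ((hb1 S x s).trans ?_) ((hb2 S x s).trans ?_))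
          ((hb3 S x s hS).trans ?_)
        · exact ENNReal.ofReal_le_ofReal (mul_le_mul (le_max_left _ _) m1 (Real.exp_pos _).le
            (le_max_right _ _))
        · exact ENNReal.ofReal_le_ofReal (mul_le_mul_of_nonneg_left m1 hC2)
        · exact ENNReal.ofReal_le_ofReal (mul_le_mul_of_nonneg_left m2 hC3)
    _ = _ := by
        have : 0 ≤ max C1 0 := le_max_right _ _
        rw [← ENNReal.ofReal_add (by positivity) (by positivity),
          ← ENNReal.ofReal_add (by positivity) (by positivity)]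
        congr 1
        ring

end

end Pool.Agent.MP_48a2f9_mp.OZ

end MrgPart3

-- ======== part 4: formerly Pool.Agent.MP_48a2f9_mp.R3aA
section MrgPart4

/-!
Module R3a, first part: sums over lists of pieces are bounded by sums over clusters.
-/

open Filter Topology Finset
open scoped ENNReal

namespace Pool.Agent.MP_48a2f9_mp.OZ

noncomputable section
open Classical

namespace R3a

variable {D : ℕ}

lemma tsum_le_of_inj {α β : Type*} (f : α → ℝ≥0∞) (g : β → ℝ≥0∞) (P : α → Prop)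
    [DecidablePred P] (φ : α → β)
    (hinj : ∀ a a', P a → P a' → φ a = φ a' → a = a') (hle : ∀ a, P a → f a ≤ g (φ a)) :
    (∑' a, if P a then f a else 0) ≤ ∑' b, g b := by
  have h1 : (∑' a, if P a then f a else 0) = ∑' a : {a // P a}, f a := by
    rw [show (∑' a : {a // P a}, f a) = ∑' a : ({a | P a} : Set α), f a from rfl,
      _root_.tsum_subtype]
    refine tsum_congr fun a => ?_
    by_cases h : P a <;> simp [Set.indicator, h]
  rw [h1]
  calc _ ≤ ∑' a : {a // P a}, g (φ a) := ENNReal.tsum_le_tsum fun a => hle a a.2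
    _ ≤ _ := ENNReal.tsum_comp_le_tsum_of_injective (f := fun a : {a // P a} => φ a)
        (fun a a' h => Subtype.ext (hinj a a' a.2 a'.2 h)) g

lemma tsum_list_le {α : Type*} (f : List α → ℝ≥0∞) :
    ∑' l, f l ≤ f [] + ∑' a, ∑' l, f (a :: l) := by
  rw [ENNReal.tsum_eq_add_tsum_ite []]
  gcongr
  rw [← ENNReal.tsum_prod (f := fun a l => f (a :: l))]
  have hi : Function.Injective fun p : α × List α => p.1 :: p.2 := by
    rintro ⟨a, l⟩ ⟨a', l'⟩ h
    simp only [List.cons.injEq] at h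
    exact Prod.ext h.1 h.2
  rw [← hi.tsum_eq]
  · exact ENNReal.tsum_le_tsum fun p => by simp
  · intro l hl
    cases l with
    | nil => simp at hl
    | cons a l => exact ⟨(a, l), rfl⟩

/-- A bound for the product of the entrance and exit factors. -/
def K0 (M : Model D) (J : ℝ) : ℝ :=
  (√(Real.exp (M.β * max J 1)) + M.q) * (√(Real.exp (M.β * max J 1)) + 1)

variable {M : Model D} {J : ℝ}

lemma K0_nonneg (M : Model D) (J : ℝ) : 0 ≤ K0 M J := by unfold K0; positivity

lemma inF_nonneg (M : Model D) (J : ℝ) (i : Bool) (x : Site D) : 0 ≤ M.inF J i x := by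
  unfold Model.inF; split_ifs <;> positivity

lemma outF_nonneg (M : Model D) (J : ℝ) (o : Bool) (y : Site D) : 0 ≤ M.outF J o y := by
  unfold Model.outF; split_ifs <;> positivity

lemma inout_le (h : M.CW) (J : ℝ) (i : Bool) (x : Site D) (o : Bool) (y : Site D) :
    M.inF J i x * M.outF J o y ≤ K0 M J := by
  have hq : (0 : ℝ) ≤ M.q := Nat.cast_nonneg _
  have hs := Real.sqrt_nonneg (Real.exp (M.β * max J 1))
  have hr : ∀ e : Ed D, √(rr M.β J e) ≤ √(Real.exp (M.β * max J 1)) := fun e =>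
    Real.sqrt_le_sqrt (rr_le h.beta_pos.le e)
  refine mul_le_mul ?_ ?_ (outF_nonneg M J o y) (by positivity)
  · unfold Model.inF; split_ifs
    · linarith [hr (fwd (x - e1))]
    · linarith
  · unfold Model.outF; split_ifs
    · linarith [hr (fwd y)]
    · linarith

lemma theta_nonneg (h : M.CW) (hJ : 0 ≤ J) (γ : Piece D) : 0 ≤ M.theta J γ :=
  mul_nonneg (mul_nonneg (inF_nonneg _ _ _ _) (prod_nonneg fun e _ => h.rr_nonneg hJ e))
    (outF_nonneg _ _ _ _)

lemma thetas_nonneg (h : M.CW) (hJ : 0 ≤ J) (l : List (Piece D)) :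
    0 ≤ (l.map (M.theta J)).prod :=
  List.prod_nonneg fun a ha => by
    obtain ⟨γ, -, rfl⟩ := List.mem_map.1 ha
    exact theta_nonneg h hJ γ

/-- The edge factors times the interaction factor are bounded by the cluster weight. -/
lemma edge_le (h : M.CW) (hJ : 0 ≤ J) {S : Set (Site D)} (i : Bool) (x : Site D) (o : Bool)
    (y : Site D) {E : Finset (Ed D)} (hS : (↑(verts x E) : Set (Site D)) ⊆ S) :
    M.inF J i x * (∏ e ∈ E, rr M.β J e) * M.outF J o y * M.Ψ J S (verts x E) ≤
      K0 M J * M.wtR J S x E := by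
  have h1 := inout_le h J i x o y
  have h2 : 0 ≤ ∏ e ∈ E, rr M.β J e := prod_nonneg fun e _ => h.rr_nonneg hJ e
  have h3 := (h.psi_pos hJ hS).le
  have h4 : (1 : ℝ) ≤ M.q := by have := h.two_le; exact_mod_cast (by omega : 1 ≤ M.q)
  have h5 := K0_nonneg M J
  unfold Model.wtR
  calc _ = (M.inF J i x * M.outF J o y) * ((∏ e ∈ E, rr M.β J e) * M.Ψ J S (verts x E)) := by ring
    _ ≤ (K0 M J * M.q) * ((∏ e ∈ E, rr M.β J e) * M.Ψ J S (verts x E)) :=
        mul_le_mul_of_nonneg_right (by nlinarith) (mul_nonneg h2 h3)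
    _ = _ := by ring

@[simp] lemma allV_nil : allV ([] : List (Piece D)) = ∅ := rfl

@[simp] lemma allV_cons (γ : Piece D) (l : List (Piece D)) : allV (γ :: l) = γ.vs ∪ allV l := rfl

lemma mem_allV {v : Site D} {l : List (Piece D)} : v ∈ allV l ↔ ∃ γ ∈ l, v ∈ γ.vs := by
  induction l with
  | nil => simp
  | cons γ l ih => simp [ih]

lemma tilt_one : Tilt 0 (fun _ : Piece D => (1 : ℝ)) := ⟨fun _ => by simp, fun _ _ => rfl⟩

lemma tilt_prod {η : ℝ} {τ : Piece D → ℝ} (hτ : Tilt η τ) {l : List (Piece D)}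
    (hl : l.Pairwise fun γ γ' => Disjoint γ.vs γ'.vs) :
    0 ≤ (l.map τ).prod ∧ (l.map τ).prod ≤ Real.exp (η * (allV l).card) := by
  induction l with
  | nil => simp
  | cons γ l ih =>
    rw [List.pairwise_cons] at hl
    obtain ⟨h0, h1⟩ := ih hl.2
    have hd : Disjoint γ.vs (allV l) := by
      rw [disjoint_left]
      intro v hv hv'
      obtain ⟨γ', hγ', hv'⟩ := mem_allV.1 hv'
      exact disjoint_left.1 (hl.1 γ' hγ') hv hv'
    have h2 := hτ.1 γ
    rw [List.map_cons, List.prod_cons, allV_cons, card_union_of_disjoint hd, Nat.cast_add, mul_add,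
      Real.exp_add]
    exact ⟨mul_nonneg (by linarith) h0, mul_le_mul h2.2 h1 h0 (Real.exp_pos _).le⟩

lemma Wl_eq (τ : Piece D → ℝ) (l : List (Piece D)) :
    M.Wl J τ l = (l.map τ).prod * ((l.map (M.theta J)).prod * M.Phi J l) := by
  unfold Model.Wl
  rw [List.prod_map_mul]
  ring

lemma Bl_eq (τ : Piece D → ℝ) (l : List (Piece D)) :
    M.Bl J τ l = (l.map τ).prod * ((l.map (M.theta J)).prod * Bk (M.Phi J) l) := by
  unfold Model.Bl
  rw [List.prod_map_mul]
  ring

lemma ne_nil {A : ℕ} {i o : Bool} {x y : Site D} {l : List (Piece D)} (h : Ch A i x o y l) :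
    l ≠ [] := by
  rintro rfl
  obtain ⟨-, ⟨γ, hγ, -⟩, -⟩ := h
  simp at hγ

/-- Sums over lists of pieces are bounded by sums over clusters. -/
lemma transfer (h2 : R2Stmt) (h : M.CW) (hJ : 0 ≤ J) {η : ℝ} {τ : Piece D → ℝ} (hτ : Tilt η τ)
    (A : ℕ) (i : Bool) (x : Site D) (o : Bool) (y : Site D) (N : ℝ) :
    (∑' l : List (Piece D), if Ch A i x o y l ∧ N ≤ ((allV l).card : ℝ) then
      ENNReal.ofReal (M.Wl J τ l) else 0) ≤
    ENNReal.ofReal (K0 M J) * ∑' E : Finset (Ed D),
      if y ∈ verts x E ∧ N ≤ ((verts x E).card : ℝ) then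
        M.wt J Set.univ x E * ENNReal.ofReal (Real.exp (η * (verts x E).card)) else 0 := by
  rw [← ENNReal.tsum_mul_left]
  refine tsum_le_of_inj _ _ _ glueE
    (fun l l' hl hl' e => (h2 D A).2.1 i x o y l l' hl.1 hl'.1 e) fun l hl => ?_
  obtain ⟨hclu, hv, hy, hp, -, -, -, hth⟩ := (h2 D A).1 i x o y l hl.1
  have hS : (↑(verts x (glueE l)) : Set (Site D)) ⊆ Set.univ := Set.subset_univ _
  rw [if_pos (by rw [hv]; exact ⟨hy, hl.2⟩), Model.wt_of hclu hS,
    ← ENNReal.ofReal_mul (h.wtR_nonneg hJ hS), ← ENNReal.ofReal_mul (K0_nonneg M J)]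
  refine ENNReal.ofReal_le_ofReal ?_
  obtain ⟨t0, t1⟩ := tilt_prod hτ hp
  have e1 := edge_le h hJ i x o y hS
  have e0 : 0 ≤ (l.map (M.theta J)).prod * M.Phi J l :=
    mul_nonneg (thetas_nonneg h hJ l) (h.psi_pos hJ (Set.subset_univ _)).le
  rw [Wl_eq, hv]
  calc _ ≤ Real.exp (η * (allV l).card) * (K0 M J * M.wtR J Set.univ x (glueE l)) := by
        refine mul_le_mul t1 ?_ e0 (Real.exp_pos _).le
        rw [hth M J h.beta_pos.le hJ, Model.Phi, ← hv]
        exact e1
    _ = _ := by ring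

/-- The total weight decays at rate `ξ`. -/
lemma SW_one_le (h2 : R2Stmt) (h : M.CW) {ξ : ℝ} (hg : M.Good J ξ) (A : ℕ) (i : Bool)
    (x : Site D) (o : Bool) (s : ℕ) (v : Tr D) :
    M.SW J A (fun _ => 1) i x o (x.1 + s, v) ≤
      ENNReal.ofReal (K0 M J * Real.exp ξ * Real.exp (-ξ * (s + 1))) := by
  have h1 := transfer h2 h hg.1 tilt_one A i x o (x.1 + s, v) 0
  simp only [Nat.cast_nonneg, and_true, zero_mul, Real.exp_zero, ENNReal.ofReal_one,
    mul_one] at h1
  have h3 := hg.2.2 x (x.1 + s, v)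
  refine le_trans h1 (le_trans (mul_le_mul_right h3 _) (le_of_eq ?_))
  rw [← ENNReal.ofReal_mul (K0_nonneg M J), mul_assoc, ← Real.exp_add]
  congr 3
  simp
  ring

/-- The tail of the volume for lists of pieces. -/
lemma tail (h2 : R2Stmt) (h : M.CW) (hJ : 0 ≤ J) : ∃ ε C : ℝ, 0 < ε ∧ 0 ≤ C ∧
    ∀ (η N : ℝ) (τ : Piece D → ℝ), η ≤ ε → Tilt η τ →
      ∀ (A : ℕ) (i : Bool) (x : Site D) (o : Bool) (y : Site D),
      (∑' l : List (Piece D), if Ch A i x o y l ∧ N ≤ ((allV l).card : ℝ) then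
        ENNReal.ofReal (M.Wl J τ l) else 0) ≤ ENNReal.ofReal (C * Real.exp (-(ε - η) * N)) := by
  obtain ⟨ε, C, hε, hC, hv⟩ := h.vol_tail hJ
  refine ⟨ε, K0 M J * C, hε, mul_nonneg (K0_nonneg M J) hC, fun η N τ hη hτ A i x o y => ?_⟩
  refine (transfer h2 h hJ hτ A i x o y N).trans ?_
  rw [mul_assoc, ENNReal.ofReal_mul (K0_nonneg M J)]
  refine mul_le_mul_right (le_trans (ENNReal.tsum_le_tsum fun E => ?_) (hv η N hη Set.univ x)) _
  by_cases h1 : N ≤ ((verts x E).card : ℝ)
  · rw [if_pos h1]; split_ifs <;> simp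
  · rw [if_neg fun k => h1 k.2]; simp

end R3a

end

end Pool.Agent.MP_48a2f9_mp.OZ

end MrgPart4

-- ======== part 5: formerly Pool.Agent.MP_48a2f9_mp.R3aB
section MrgPart5

/-!
Module R3a, second part: lists with few pieces are exponentially unlikely.
-/

open Filter Topology Finset
open scoped ENNReal

namespace Pool.Agent.MP_48a2f9_mp.OZ

noncomputable section
open Classical

namespace R3a

variable {D : ℕ} {M : Model D} {J : ℝ}

/-- The conclusion of the mass-gap module for given constants. -/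
def Gap (M : Model D) (J ξ : ℝ) (A : ℕ) (c C : ℝ) : Prop :=
  ∀ (S : Set (Site D)) (x : Site D) (s : ℕ), (∀ v : Site D, x.1 ≤ v.1 → v ∈ S) →
    (∑' E : Finset (Ed D), if Reach x E s ∧
        (∀ t, x.1 ≤ t → t < x.1 + s → ¬ Nice A x E t) then M.wt J S x E else 0) ≤
      ENNReal.ofReal (C * Real.exp (-(ξ + c) * s))

lemma le_exp_div {δ t : ℝ} (hδ : 0 < δ) : t ≤ 1 / δ * Real.exp (δ * t) := by
  have := Real.add_one_le_exp (δ * t)
  rw [one_div, inv_mul_eq_div, le_div_iff₀ hδ]
  linarith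

/-- The mass gap with a volume factor. -/
lemma gap_card (h : M.CW) (hJ : 0 ≤ J) {ξ c C : ℝ} (hξ : 0 < ξ) (hc : 0 < c) (hC : 0 ≤ C) {A : ℕ}
    (hG : Gap M J ξ A c C) : ∃ B b : ℝ, 0 ≤ B ∧ 0 < b ∧
    ∀ (S : Set (Site D)) (x : Site D) (s : ℕ), (∀ v : Site D, x.1 ≤ v.1 → v ∈ S) →
      ENNReal.ofReal (Real.exp ((ξ + c / 2) * (s + 1))) *
        (∑' E : Finset (Ed D), if Reach x E s ∧
          (∀ t, x.1 ≤ t → t < x.1 + s → ¬ Nice A x E t) then
            M.wt J S x E * ((verts x E).card : ℝ≥0∞) else 0) ≤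
      ENNReal.ofReal (B * Real.exp (-b) ^ s) := by
  obtain ⟨ε, Cv, hε, hCv, hv⟩ := h.vol_tail hJ
  set a := ξ + c / 2 with ha
  have ha0 : 0 < a := by positivity
  set R := 2 * (a + 1) / ε with hR
  have hR0 : 0 < R := by positivity
  set b := min (c / 4) 1 with hb
  have hb0 : 0 < b := by positivity
  refine ⟨R * C * Real.exp a * (1 / (c / 4)) * Real.exp (c / 4) + 1 / (ε / 2) * Cv, b,
    by positivity, hb0, fun S x s hS => ?_⟩
  have hs0 : (0 : ℝ) ≤ s := Nat.cast_nonneg s
  have key : (∑' E : Finset (Ed D), if Reach x E s ∧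
        (∀ t, x.1 ≤ t → t < x.1 + s → ¬ Nice A x E t) then
          M.wt J S x E * ((verts x E).card : ℝ≥0∞) else 0) ≤
      ENNReal.ofReal (R * (s + 1)) * ENNReal.ofReal (C * Real.exp (-(ξ + c) * s)) +
      ENNReal.ofReal (1 / (ε / 2)) *
        ENNReal.ofReal (Cv * Real.exp (-(ε - ε / 2) * (R * (s + 1)))) := by
    refine le_trans ?_ (add_le_add (mul_le_mul_right (hG S x s hS) _)
      (mul_le_mul_right (hv (ε / 2) (R * (s + 1)) (by linarith) S x) _))
    rw [← ENNReal.tsum_mul_left, ← ENNReal.tsum_mul_left, ← ENNReal.tsum_add]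
    refine ENNReal.tsum_le_tsum fun E => ?_
    by_cases h1 : Reach x E s ∧ (∀ t, x.1 ≤ t → t < x.1 + s → ¬ Nice A x E t)
    · rw [if_pos h1, if_pos h1, ← ENNReal.ofReal_natCast]
      by_cases h2 : R * (s + 1) ≤ ((verts x E).card : ℝ)
      · rw [if_pos h2]
        refine le_trans ?_ le_add_self
        rw [mul_left_comm, ← ENNReal.ofReal_mul (by positivity)]
        exact mul_le_mul_right (ENNReal.ofReal_le_ofReal (le_exp_div (by positivity))) _
      · refine le_trans ?_ le_self_add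
        rw [mul_comm]
        exact mul_le_mul_left (ENNReal.ofReal_le_ofReal (not_le.1 h2).le) _
    · rw [if_neg h1]; exact zero_le
  refine (mul_le_mul_right key _).trans ?_
  rw [← ENNReal.ofReal_mul (by positivity), ← ENNReal.ofReal_mul (by positivity),
    ← ENNReal.ofReal_add (by positivity) (by positivity), ← ENNReal.ofReal_mul (by positivity)]
  refine ENNReal.ofReal_le_ofReal ?_
  rw [← Real.exp_nat_mul, mul_add (Real.exp _), add_mul _ _ (Real.exp _)]
  have hb1 : b ≤ c / 4 := min_le_left _ _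
  have hb2 : b ≤ 1 := min_le_right _ _
  refine add_le_add ?_ ?_
  · have h1 : (s : ℝ) + 1 ≤ 1 / (c / 4) * Real.exp (c / 4 * (s + 1)) := le_exp_div (by positivity)
    calc _ = R * C * (s + 1) * (Real.exp (a * (s + 1)) * Real.exp (-(ξ + c) * s)) := by ring
      _ ≤ R * C * (1 / (c / 4) * Real.exp (c / 4 * (s + 1))) *
          (Real.exp (a * (s + 1)) * Real.exp (-(ξ + c) * s)) := by gcongr
      _ = R * C * (1 / (c / 4)) * Real.exp (c / 4 * (s + 1) + (a * (s + 1) + -(ξ + c) * s)) := by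
          rw [Real.exp_add, Real.exp_add]; ring
      _ ≤ R * C * (1 / (c / 4)) * Real.exp (a + (c / 4 + s * -b)) := by
          refine mul_le_mul_of_nonneg_left (Real.exp_le_exp.2 ?_) (by positivity)
          rw [ha]
          nlinarith
      _ = _ := by rw [Real.exp_add a, Real.exp_add (c / 4)]; ring
  · have h1 : ε * R = 2 * (a + 1) := by rw [hR]; field_simp
    calc _ = 1 / (ε / 2) * Cv * Real.exp (a * (s + 1) + -(ε - ε / 2) * (R * (s + 1))) := by
          rw [Real.exp_add]; ring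
      _ ≤ _ := by
          refine mul_le_mul_of_nonneg_left (Real.exp_le_exp.2 ?_) (by positivity)
          have : -(ε - ε / 2) * (R * (s + 1)) = -((ε * R) / 2) * (s + 1) := by ring
          rw [this, h1]
          nlinarith

/-- The weight of one piece in the domain `S`, with an exponential factor in its length. -/
def pw (M : Model D) (J a : ℝ) (S : Set (Site D)) (γ : Piece D) : ℝ :=
  M.theta J γ * M.Ψ J S γ.vs * Real.exp (a * ((γ.y.1 - γ.x.1 + 1 : ℤ) : ℝ))

/-- The domain contains everything that a piece with entrance flag `i` at `x` can visit. -/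
def Dom (S : Set (Site D)) (i : Bool) (x : Site D) : Prop :=
  ∀ v : Site D, (i = true → x.1 ≤ v.1) → v ∈ S

lemma vs_subset {A : ℕ} {S : Set (Site D)} {γ : Piece D} (hγ : γ.Valid A) (hS : Dom S γ.i γ.x) :
    (↑γ.vs : Set (Site D)) ⊆ S := fun v hv =>
  hS v fun hi => (hγ.2.2.2.2.1 hi).1 v hv

/-- The total weight of one piece is bounded. -/
lemma one_piece (h : M.CW) (hJ : 0 ≤ J) {ξ c C : ℝ} (hξ : 0 < ξ) (hc : 0 < c) (hC : 0 ≤ C) {A : ℕ}
    (hG : Gap M J ξ A c C) : ∃ C₁ : ℝ, 1 ≤ C₁ ∧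
    ∀ (S : Set (Site D)) (i : Bool) (x : Site D), Dom S i x →
      (∑' γ : Piece D, if γ.Valid A ∧ γ.i = i ∧ γ.x = x then
        ENNReal.ofReal (pw M J (ξ + c / 2) S γ) else 0) ≤ ENNReal.ofReal C₁ := by
  obtain ⟨B, b, hB, hb, hs⟩ := gap_card h hJ hξ hc hC hG
  have hr : Real.exp (-b) < 1 := Real.exp_lt_one_iff.2 (by linarith)
  have hsum : Summable fun s : ℕ => B * Real.exp (-b) ^ s :=
    (summable_geometric_of_lt_one (Real.exp_pos _).le hr).mul_left B
  have hT : 0 ≤ ∑' s : ℕ, B * Real.exp (-b) ^ s := tsum_nonneg fun s => by positivity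
  have hK := K0_nonneg M J
  refine ⟨max 1 (2 * (K0 M J * ∑' s : ℕ, B * Real.exp (-b) ^ s)), le_max_left _ _,
    fun S i x hS => ?_⟩
  set g : Bool × ℕ × Finset (Ed D) × Site D → ℝ≥0∞ := fun p =>
    ENNReal.ofReal (K0 M J) * (ENNReal.ofReal (Real.exp ((ξ + c / 2) * (p.2.1 + 1))) *
      if Reach x p.2.2.1 p.2.1 ∧ (∀ t, x.1 ≤ t → t < x.1 + p.2.1 → ¬ Nice A x p.2.2.1 t) then
        M.wt J S x p.2.2.1 * (if p.2.2.2 ∈ verts x p.2.2.1 then 1 else 0) else 0) with hg
  refine (tsum_le_of_inj _ g _ (fun γ => (γ.o, (γ.y.1 - x.1).toNat, γ.E, γ.y)) ?_ ?_).trans ?_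
  · rintro ⟨i1, x1, E1, o1, y1⟩ ⟨i2, x2, E2, o2, y2⟩ h1 h2 e
    simp only [Prod.mk.injEq] at e
    obtain ⟨-, rfl, rfl⟩ := h1
    obtain ⟨-, e1, e2⟩ := h2
    simp only at e1 e2
    obtain ⟨rfl, -, rfl, rfl⟩ := e
    rw [e1, e2]
  · rintro γ ⟨hγ, rfl, rfl⟩
    have hsub := vs_subset hγ hS
    obtain ⟨hclu, hy, hxy, hn, -, -⟩ := hγ
    have hs : (((γ.y.1 - γ.x.1).toNat : ℕ) : ℤ) = γ.y.1 - γ.x.1 := Int.toNat_of_nonneg (by omega)
    have hs' : (((γ.y.1 - γ.x.1).toNat : ℕ) : ℝ) = ((γ.y.1 - γ.x.1 : ℤ) : ℝ) := by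
      exact_mod_cast hs
    simp only [hg]
    rw [if_pos ⟨⟨γ.y, hy, by omega⟩, fun t h1 h2 => hn t h1 (by omega)⟩,
      if_pos (show γ.y ∈ verts γ.x γ.E from hy), mul_one,
      Model.wt_of hclu hsub, ← ENNReal.ofReal_mul (Real.exp_pos _).le, ← ENNReal.ofReal_mul hK]
    refine ENNReal.ofReal_le_ofReal ?_
    have e1 := edge_le h hJ γ.i γ.x γ.o γ.y hsub
    unfold pw
    rw [hs', Int.cast_add, Int.cast_one]
    calc _ ≤ K0 M J * M.wtR J S γ.x γ.E *
          Real.exp ((ξ + c / 2) * (((γ.y.1 - γ.x.1 : ℤ) : ℝ) + 1)) :=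
          mul_le_mul_of_nonneg_right e1 (Real.exp_pos _).le
      _ = _ := by ring
  · have h1 : ∀ o : Bool, ∑' p : ℕ × Finset (Ed D) × Site D, g (o, p) ≤
        ENNReal.ofReal (K0 M J * ∑' s : ℕ, B * Real.exp (-b) ^ s) := by
      intro o
      rw [ENNReal.ofReal_mul hK, ENNReal.ofReal_tsum_of_nonneg (fun s => by positivity) hsum,
        ← ENNReal.tsum_mul_left, ENNReal.tsum_prod']
      refine ENNReal.tsum_le_tsum fun s => ?_
      simp only [hg]
      rw [ENNReal.tsum_mul_left, ENNReal.tsum_mul_left]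
      refine mul_le_mul_right (le_trans (mul_le_mul_right (le_of_eq ?_) _)
        (hs S x s fun v hv => hS v fun _ => hv)) _
      rw [ENNReal.tsum_prod']
      refine tsum_congr fun E => ?_
      by_cases h2 : Reach x E s ∧ (∀ t, x.1 ≤ t → t < x.1 + s → ¬ Nice A x E t)
      · simp only [if_pos h2]
        rw [ENNReal.tsum_mul_left, tsum_eq_sum (s := verts x E) fun v hv => if_neg hv]
        congr 1
        rw [sum_congr rfl fun v hv => if_pos hv]
        simp
      · simp only [if_neg h2, tsum_zero]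
    rw [ENNReal.tsum_prod', tsum_fintype, Fintype.sum_bool]
    refine (add_le_add (h1 true) (h1 false)).trans ?_
    rw [← ENNReal.ofReal_add (by positivity) (by positivity)]
    exact ENNReal.ofReal_le_ofReal (le_trans (by linarith) (le_max_right _ _))

/-- The number of levels covered by a list of pieces. -/
def span (l : List (Piece D)) : ℤ := (l.map fun γ => γ.y.1 - γ.x.1 + 1).sum

lemma chn_tail {A : ℕ} {γ : Piece D} {l : List (Piece D)} (h : Chn A (γ :: l)) : Chn A l :=
  ⟨fun γ' h' => h.1 γ' (List.mem_cons_of_mem _ h'), h.2.tail⟩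

lemma span_eq {A : ℕ} : ∀ (l : List (Piece D)) (γ γ' : Piece D), Chn A l → l.head? = some γ →
    l.getLast? = some γ' → span l = γ'.y.1 - γ.x.1 + 1
  | [], _, _, _, h, _ => by simp at h
  | [a], γ, γ', _, h1, h2 => by
    simp only [List.head?_cons, Option.some.injEq, List.getLast?_singleton] at h1 h2
    subst h1 h2
    simp [span]
  | a :: b :: l, γ, γ', h, h1, h2 => by
    simp only [List.head?_cons, Option.some.injEq] at h1
    subst h1
    have ih := span_eq (b :: l) b γ' (chn_tail h) rfl (by simpa using h2)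
    have hl : Lnk a b := (List.isChain_cons_cons.1 h.2).1
    have hx : b.x.1 = a.y.1 + 1 := by rw [hl.2.2]; rfl
    have : span (a :: b :: l) = (a.y.1 - a.x.1 + 1) + span (b :: l) := by simp [span]
    omega

lemma lev_le {A : ℕ} : ∀ (l : List (Piece D)) (γ : Piece D), Chn A (γ :: l) → γ.i = true →
    ∀ v ∈ allV (γ :: l), γ.x.1 ≤ v.1
  | [], γ, h, hi, v, hv => by
    simp only [allV_cons, allV_nil, union_empty] at hv
    exact ((h.1 γ (by simp)).2.2.2.2.1 hi).1 v hv
  | b :: l, γ, h, hi, v, hv => by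
    rw [allV_cons, mem_union] at hv
    have hγ := h.1 γ (by simp)
    rcases hv with hv | hv
    · exact (hγ.2.2.2.2.1 hi).1 v hv
    · have hl : Lnk γ b := (List.isChain_cons_cons.1 h.2).1
      have ih := lev_le l b (chn_tail h) hl.2.1 v hv
      have hx : b.x.1 = γ.y.1 + 1 := by rw [hl.2.2]; rfl
      have := hγ.2.2.1
      omega

/-- The weight of a list of pieces in the domain `S`, with an exponential factor in its span. -/
def lw (M : Model D) (J a : ℝ) (S : Set (Site D)) (l : List (Piece D)) : ℝ :=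
  (l.map (M.theta J)).prod * M.Ψ J S (allV l) * Real.exp (a * (span l : ℝ))

/-- Lists of at most `k` pieces that start at a given mark. -/
def St (A k : ℕ) (i : Bool) (x : Site D) (l : List (Piece D)) : Prop :=
  Chn A l ∧ l.length ≤ k ∧ ∀ γ, l.head? = some γ → γ.i = i ∧ γ.x = x

/-- The domain left for the pieces after `γ`. -/
def nxt (S : Set (Site D)) (γ : Piece D) : Set (Site D) :=
  if γ.o = true then S \ ↑γ.vs else Set.univ

lemma dom_nxt {A : ℕ} {S : Set (Site D)} {γ : Piece D} (hγ : γ.Valid A) (hS : Dom S γ.i γ.x) :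
    Dom (nxt S γ) true (γ.y + e1) := by
  intro v hv
  have hv' : γ.y.1 + 1 ≤ v.1 := hv rfl
  have h1 := hγ.2.2.1
  unfold nxt
  split_ifs with ho
  · refine ⟨hS v fun _ => by omega, fun hm => ?_⟩
    have := hγ.2.2.2.2.2 ho v hm
    omega
  · trivial

lemma lw_cons (h : M.CW) (hJ : 0 ≤ J) (a : ℝ) {A : ℕ} {S : Set (Site D)} {γ : Piece D}
    {l : List (Piece D)} (hl : Chn A (γ :: l)) (hS : Dom S γ.i γ.x) :
    lw M J a S (γ :: l) = pw M J a S γ * lw M J a (nxt S γ) l := by
  have hγ := hl.1 γ (by simp)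
  have hsp : span (γ :: l) = (γ.y.1 - γ.x.1 + 1) + span l := by simp [span]
  have hΨ : M.Ψ J S (allV (γ :: l)) = M.Ψ J S γ.vs * M.Ψ J (nxt S γ) (allV l) := by
    cases l with
    | nil => simp [h.psi_empty hJ]
    | cons b l =>
      have hk : Lnk γ b := (List.isChain_cons_cons.1 hl.2).1
      have hsub : (↑(allV (b :: l)) : Set (Site D)) ⊆ nxt S γ := fun v hv =>
        dom_nxt hγ hS v fun _ => by
          rw [← hk.2.2]; exact lev_le l b (chn_tail hl) hk.2.1 v hv
      unfold nxt at hsub ⊢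
      rw [if_pos hk.1] at hsub ⊢
      rw [allV_cons γ]
      refine h.cocycle J hJ S _ _ ?_ (vs_subset hγ hS) fun v hv => (hsub hv).1
      exact disjoint_left.2 fun v hv hv' => (hsub hv').2 hv
  unfold lw pw
  rw [hΨ, hsp, List.map_cons, List.prod_cons, Int.cast_add (γ.y.1 - γ.x.1 + 1), mul_add a,
    Real.exp_add]
  ring

lemma few_aux (h : M.CW) (hJ : 0 ≤ J) {a C₁ : ℝ} (hC : 1 ≤ C₁) {A : ℕ}
    (h1 : ∀ (S : Set (Site D)) (i : Bool) (x : Site D), Dom S i x →
      (∑' γ : Piece D, if γ.Valid A ∧ γ.i = i ∧ γ.x = x then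
        ENNReal.ofReal (pw M J a S γ) else 0) ≤ ENNReal.ofReal C₁) (k : ℕ) :
    ∀ (S : Set (Site D)) (i : Bool) (x : Site D), Dom S i x →
      (∑' l : List (Piece D), if St A k i x l then ENNReal.ofReal (lw M J a S l) else 0) ≤
        ENNReal.ofReal ((2 * C₁) ^ k) := by
  have h0 : ∀ (k : ℕ) (S : Set (Site D)) (i : Bool) (x : Site D),
      (if St A k i x [] then ENNReal.ofReal (lw M J a S []) else 0) ≤ 1 := by
    intro k S i x
    split_ifs
    · simp [lw, span, h.psi_empty hJ]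
    · exact zero_le
  induction k with
  | zero =>
    intro S i x _
    refine (tsum_list_le _).trans ?_
    have : ∀ (γ : Piece D) (l : List (Piece D)), ¬ St A 0 i x (γ :: l) := fun γ l hl => by
      simpa using hl.2.1
    simpa [this] using h0 0 S i x
  | succ k ih =>
    intro S i x hS
    refine (tsum_list_le _).trans ?_
    have key : ∀ γ : Piece D, (∑' l : List (Piece D), if St A (k + 1) i x (γ :: l) then
        ENNReal.ofReal (lw M J a S (γ :: l)) else 0) ≤
        (if γ.Valid A ∧ γ.i = i ∧ γ.x = x then ENNReal.ofReal (pw M J a S γ) else 0) *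
          ENNReal.ofReal ((2 * C₁) ^ k) := by
      intro γ
      by_cases hγ : γ.Valid A ∧ γ.i = i ∧ γ.x = x
      · obtain ⟨hv, rfl, rfl⟩ := hγ
        rw [if_pos ⟨hv, rfl, rfl⟩]
        refine le_trans ?_ (mul_le_mul_right (ih _ _ _ (dom_nxt hv hS)) _)
        rw [← ENNReal.tsum_mul_left]
        refine ENNReal.tsum_le_tsum fun l => ?_
        split_ifs with k1 k2
        · have hp : 0 ≤ pw M J a S γ :=
            mul_nonneg (mul_nonneg (theta_nonneg h hJ γ) (h.psi_pos hJ (vs_subset hv hS)).le)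
              (Real.exp_pos _).le
          rw [lw_cons h hJ a k1.1 hS, ENNReal.ofReal_mul hp]
        · refine absurd ⟨chn_tail k1.1, by simpa using k1.2.1, fun b hb => ?_⟩ k2
          cases l with
          | nil => simp at hb
          | cons b' l =>
            simp only [List.head?_cons, Option.some.injEq] at hb
            subst hb
            exact (List.isChain_cons_cons.1 k1.1.2).1.2
        · exact zero_le
        · exact zero_le
      · have : ∀ l, ¬ St A (k + 1) i x (γ :: l) := fun l hl =>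
          hγ ⟨hl.1.1 γ (by simp), hl.2.2 γ rfl⟩
        simp [this]
    have hp : (1 : ℝ) ≤ (2 * C₁) ^ k := one_le_pow₀ (by linarith)
    calc _ ≤ 1 + ENNReal.ofReal C₁ * ENNReal.ofReal ((2 * C₁) ^ k) := by
          refine add_le_add (h0 _ S i x) ((ENNReal.tsum_le_tsum key).trans ?_)
          rw [ENNReal.tsum_mul_right]
          exact mul_le_mul_left (h1 S i x hS) _
      _ ≤ _ := by
          rw [← ENNReal.ofReal_mul (by linarith), ← ENNReal.ofReal_one,
            ← ENNReal.ofReal_add (by linarith) (by positivity)]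
          refine ENNReal.ofReal_le_ofReal ?_
          rw [pow_succ]
          nlinarith

/-- Lists with few pieces. -/
lemma few (h : M.CW) (hJ : 0 ≤ J) {ξ c C : ℝ} (hξ : 0 < ξ) (hc : 0 < c) (hC : 0 ≤ C) {A : ℕ}
    (hG : Gap M J ξ A c C) : ∃ α : ℝ, 0 < α ∧
    ∀ (i : Bool) (x : Site D) (o : Bool) (s : ℕ) (v : Tr D),
      (∑' l : List (Piece D), if Ch A i x o (x.1 + s, v) l ∧ (l.length : ℝ) ≤ α * (s + 1) then
        ENNReal.ofReal (M.Wl J (fun _ => 1) l) else 0) ≤
      ENNReal.ofReal (Real.exp (-(ξ + c / 4) * (s + 1))) := by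
  obtain ⟨C₁, hC₁, h1⟩ := one_piece h hJ hξ hc hC hG
  have hL : 0 < Real.log (2 * C₁) := Real.log_pos (by linarith)
  refine ⟨c / 4 / Real.log (2 * C₁), by positivity, fun i x o s v => ?_⟩
  set α := c / 4 / Real.log (2 * C₁) with hα
  have hα0 : 0 ≤ α * (s + 1) := by positivity
  have h2 := few_aux h hJ hC₁ h1 ⌊α * (s + 1)⌋₊ Set.univ i x fun _ _ => trivial
  calc _ ≤ ENNReal.ofReal (Real.exp (-(ξ + c / 2) * (s + 1))) * ∑' l : List (Piece D),
        if St A ⌊α * (s + 1)⌋₊ i x l then ENNReal.ofReal (lw M J (ξ + c / 2) Set.univ l) else 0 := by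
        rw [← ENNReal.tsum_mul_left]
        refine ENNReal.tsum_le_tsum fun l => ?_
        by_cases hl : Ch A i x o (x.1 + s, v) l ∧ (l.length : ℝ) ≤ α * (s + 1)
        · obtain ⟨⟨hch, ⟨γ, hγ, hi, hx⟩, γ', hγ', ho, hy⟩, hlen⟩ := hl
          rw [if_pos ⟨⟨hch, ⟨γ, hγ, hi, hx⟩, γ', hγ', ho, hy⟩, hlen⟩,
            if_pos ⟨hch, Nat.le_floor hlen, fun b hb => by
              rw [hγ, Option.some.injEq] at hb; exact hb ▸ ⟨hi, hx⟩⟩,
            ← ENNReal.ofReal_mul (Real.exp_pos _).le]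
          refine ENNReal.ofReal_le_ofReal (le_of_eq ?_)
          have hsp : (span l : ℝ) = s + 1 := by
            rw [span_eq l γ γ' hch hγ hγ', hx, hy]; push_cast; ring
          have he : Real.exp (-(ξ + c / 2) * (s + 1)) * Real.exp ((ξ + c / 2) * (s + 1)) = 1 := by
            rw [← Real.exp_add, ← Real.exp_zero]; congr 1; ring
          rw [Wl_eq, lw, hsp, Model.Phi, mul_left_comm (Real.exp _), he]
          simp
        · rw [if_neg hl]; exact zero_le
    _ ≤ ENNReal.ofReal (Real.exp (-(ξ + c / 2) * (s + 1))) *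
        ENNReal.ofReal ((2 * C₁) ^ ⌊α * (s + 1)⌋₊) := mul_le_mul_right h2 _
    _ ≤ _ := by
        rw [← ENNReal.ofReal_mul (Real.exp_pos _).le]
        refine ENNReal.ofReal_le_ofReal ?_
        rw [← Real.exp_log (show 0 < 2 * C₁ by linarith), ← Real.exp_nat_mul, ← Real.exp_add]
        refine Real.exp_le_exp.2 ?_
        have h3 : (⌊α * (s + 1)⌋₊ : ℝ) * Real.log (2 * C₁) ≤ α * (s + 1) * Real.log (2 * C₁) :=
          mul_le_mul_of_nonneg_right (Nat.floor_le hα0) hL.le
        have h4 : α * (s + 1) * Real.log (2 * C₁) = c / 4 * (s + 1) := by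
          rw [hα]; field_simp
        linarith

end R3a

end

end Pool.Agent.MP_48a2f9_mp.OZ

end MrgPart5

-- ======== part 6: formerly Pool.Agent.MP_48a2f9_mp.R3a
section MrgPart6

/-!
Module R3a: exponential tails of the regeneration blocks.
-/

open Filter Topology Finset
open scoped ENNReal

namespace Pool.Agent.MP_48a2f9_mp.OZ

noncomputable section
open Classical

namespace R3a

variable {D : ℕ} {M : Model D} {J : ℝ}

/-- The untilted blocks decay at a rate larger than `ξ`. -/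
lemma SB_one_le (h1 : R1Stmt) (h2 : R2Stmt) (h : M.CW) {ξ c C : ℝ} (hg : M.Good J ξ) (hc : 0 < c)
    (hC : 0 ≤ C) {A : ℕ} (hG : Gap M J ξ A c C) : ∃ c' C' : ℝ, 0 < c' ∧ 0 ≤ C' ∧
    ∀ (i : Bool) (x : Site D) (o : Bool) (s : ℕ) (v : Tr D),
      M.SB J A (fun _ => 1) i x o (x.1 + s, v) ≤
        ENNReal.ofReal (C' * Real.exp (-(ξ + c') * (s + 1))) := by
  have hJ := hg.1
  obtain ⟨α, hα, hf⟩ := few h hJ hg.2.1 hc hC hG
  obtain ⟨C₀, κ, hκ, hB⟩ := h1 D M J A h hJ
  have hK := K0_nonneg M J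
  have hm : 0 ≤ max C₀ 0 := le_max_right _ _
  refine ⟨min (c / 4) (κ * α), 1 + max C₀ 0 * (K0 M J * Real.exp ξ), by positivity, by positivity,
    fun i x o s v => ?_⟩
  have hs : (0 : ℝ) ≤ s + 1 := by positivity
  calc _ ≤ (∑' l : List (Piece D),
        if Ch A i x o (x.1 + s, v) l ∧ (l.length : ℝ) ≤ α * (s + 1) then
          ENNReal.ofReal (M.Wl J (fun _ => 1) l) else 0) +
        ENNReal.ofReal (max C₀ 0 * Real.exp (-κ * (α * (s + 1)))) *
          M.SW J A (fun _ => 1) i x o (x.1 + s, v) := by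
        unfold Model.SB Model.SW
        rw [← ENNReal.tsum_mul_left, ← ENNReal.tsum_add]
        refine ENNReal.tsum_le_tsum fun l => ?_
        by_cases hl : Ch A i x o (x.1 + s, v) l
        · obtain ⟨-, b1, b2⟩ := hB l hl.1 (ne_nil hl)
          have t0 := thetas_nonneg h hJ l
          have p0 : 0 ≤ M.Phi J l := (h.psi_pos hJ (Set.subset_univ _)).le
          rw [if_pos hl, if_pos hl]
          by_cases hn : (l.length : ℝ) ≤ α * (s + 1)
          · rw [if_pos ⟨hl, hn⟩]
            refine le_trans (ENNReal.ofReal_le_ofReal ?_) le_self_add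
            rw [Wl_eq, Bl_eq]
            simpa using mul_le_mul_of_nonneg_left b1 t0
          · refine le_trans ?_ le_add_self
            rw [← ENNReal.ofReal_mul (by positivity)]
            refine ENNReal.ofReal_le_ofReal ?_
            have b3 : Bk (M.Phi J) l ≤ max C₀ 0 * Real.exp (-κ * (α * (s + 1))) * M.Phi J l := by
              refine b2.trans (mul_le_mul_of_nonneg_right (mul_le_mul (le_max_left _ _)
                (Real.exp_le_exp.2 ?_) (Real.exp_pos _).le hm) p0)
              have := not_le.1 hn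
              nlinarith
            rw [Wl_eq, Bl_eq]
            simp only [List.map_const', List.prod_replicate, one_pow, one_mul]
            rw [mul_left_comm]
            exact mul_le_mul_of_nonneg_left b3 t0
        · rw [if_neg hl]; exact zero_le
    _ ≤ ENNReal.ofReal (Real.exp (-(ξ + c / 4) * (s + 1))) +
        ENNReal.ofReal (max C₀ 0 * Real.exp (-κ * (α * (s + 1)))) *
          ENNReal.ofReal (K0 M J * Real.exp ξ * Real.exp (-ξ * (s + 1))) :=
        add_le_add (hf i x o s v) (mul_le_mul_right (SW_one_le h2 h hg A i x o s v) _)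
    _ ≤ _ := by
        rw [← ENNReal.ofReal_mul (by positivity),
          ← ENNReal.ofReal_add (by positivity) (by positivity)]
        refine ENNReal.ofReal_le_ofReal ?_
        have m1 := mul_le_mul_of_nonneg_right (min_le_left (c / 4) (κ * α)) hs
        have m2 := mul_le_mul_of_nonneg_right (min_le_right (c / 4) (κ * α)) hs
        rw [add_mul 1, one_mul]
        refine add_le_add (Real.exp_le_exp.2 (by linarith)) ?_
        calc _ = max C₀ 0 * (K0 M J * Real.exp ξ) *
              Real.exp (-κ * (α * (s + 1)) + -ξ * (s + 1)) := by rw [Real.exp_add]; ring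
          _ ≤ _ := mul_le_mul_of_nonneg_left (Real.exp_le_exp.2 (by linarith)) (by positivity)

end R3a

open R3a in
theorem r3aStmt (h3 : MG3Stmt) (h1 : R1Stmt) (h2 : R2Stmt) : R3aStmt := by
  intro D M J ξ h hg
  have hJ := hg.1
  have hξ := hg.2.1
  obtain ⟨A₀, c, C₃, hc, hG⟩ := h3 D M J ξ h hg
  refine ⟨A₀, fun A hA => ?_⟩
  have hG' : Gap M J ξ A c (max C₃ 0) := fun S x s hS =>
    (hG A hA S x s hS).trans (ENNReal.ofReal_le_ofReal
      (mul_le_mul_of_nonneg_right (le_max_left _ _) (Real.exp_pos _).le))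
  obtain ⟨c', C', hc', hC', hSB⟩ := SB_one_le h1 h2 h hg hc (le_max_right _ _) hG'
  obtain ⟨ε, Cv, hε, hCv, ht⟩ := tail h2 h hJ
  obtain ⟨C₀, κ, -, hB⟩ := h1 D M J A h hJ
  have hK := K0_nonneg M J
  obtain ⟨R, hR0, hR⟩ : ∃ R : ℝ, 0 < R ∧ ε * R = 4 * (ξ + 1) :=
    ⟨4 * (ξ + 1) / ε, by positivity, by field_simp⟩
  obtain ⟨η, hη0, hη1, hη2⟩ : ∃ η : ℝ, 0 < η ∧ η ≤ ε / 2 ∧ η * R ≤ c' / 2 :=
    ⟨min (ε / 2) (c' / 2 / R), by positivity, min_le_left _ _,
      (le_div_iff₀ hR0).1 (min_le_right _ _)⟩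
  obtain ⟨ν, hν0, hν1, hν2, hν3⟩ : ∃ ν : ℝ, 0 < ν ∧ ν ≤ 1 ∧ ν ≤ ε / 4 ∧ ν * (1 + R) ≤ c' / 2 :=
    ⟨min (min 1 (ε / 4)) (c' / 2 / (1 + R)), by positivity,
      (min_le_left _ _).trans (min_le_left _ _), (min_le_left _ _).trans (min_le_right _ _),
      (le_div_iff₀ (by positivity)).1 (min_le_right _ _)⟩
  refine ⟨η, ν, K0 M J * Real.exp ξ + (Cv + C'), hη0, hν0, by positivity, fun i x o s v =>
    ⟨(SW_one_le h2 h hg A i x o s v).trans (ENNReal.ofReal_le_ofReal
      (mul_le_mul_of_nonneg_right (by linarith) (Real.exp_pos _).le)), fun τ hτ => ⟨?_, ?_⟩⟩⟩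
  · have := ht η 0 τ (by linarith) hτ A i x o (x.1 + s, v)
    simp only [Nat.cast_nonneg, and_true] at this
    exact ne_top_of_le_ne_top ENNReal.ofReal_ne_top this
  obtain ⟨n, hn⟩ : ∃ n : ℝ, n = s + 1 := ⟨_, rfl⟩
  obtain ⟨d, hd⟩ : ∃ d : ℝ, d = ‖v - x.2‖ := ⟨_, rfl⟩
  have hn0 : 0 ≤ n := by rw [hn]; positivity
  have hd0 : 0 ≤ d := by rw [hd]; positivity
  have hSB' := hSB i x o s v
  rw [← hn] at hSB'
  rw [← hn, ← hd]
  calc _ ≤ (∑' l : List (Piece D),
        if Ch A i x o (x.1 + s, v) l ∧ (R * n + d) / 2 ≤ ((allV l).card : ℝ) then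
          ENNReal.ofReal (M.Wl J τ l) else 0) +
        ENNReal.ofReal (Real.exp (c' * n - ν * (n + d))) *
          M.SB J A (fun _ => 1) i x o (x.1 + s, v) := by
        unfold Model.SB
        rw [← ENNReal.tsum_mul_left, ← ENNReal.tsum_add]
        refine ENNReal.tsum_le_tsum fun l => ?_
        by_cases hl : Ch A i x o (x.1 + s, v) l
        · obtain ⟨b0, b1, -⟩ := hB l hl.1 (ne_nil hl)
          obtain ⟨hclu, hv, hy, hp, -⟩ := (h2 D A).1 _ _ _ _ l hl
          obtain ⟨u0, u1⟩ := tilt_prod hτ hp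
          have t0 := thetas_nonneg h hJ l
          rw [if_pos hl, if_pos hl]
          by_cases hN : (R * n + d) / 2 ≤ ((allV l).card : ℝ)
          · rw [if_pos ⟨hl, hN⟩]
            refine le_trans (ENNReal.ofReal_le_ofReal ?_) le_self_add
            rw [Wl_eq, Bl_eq]
            exact mul_le_mul_of_nonneg_left (mul_le_mul_of_nonneg_left b1 t0) u0
          · refine le_trans ?_ le_add_self
            rw [← ENNReal.ofReal_mul (Real.exp_pos _).le]
            refine ENNReal.ofReal_le_ofReal ?_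
            have k1 := hclu.norm_le_card (hv ▸ hy)
            have k2 : d ≤ ‖((x.1 + s, v) : Site D) - x‖ := by
              rw [hd]; exact norm_snd_le (((x.1 + s, v) : Site D) - x)
            rw [hv] at k1
            have k3 := not_le.1 hN
            have k4 : d ≤ R * n := by linarith
            have k5 : ((allV l).card : ℝ) ≤ R * n := by linarith
            rw [Bl_eq, Bl_eq]
            simp only [List.map_const', List.prod_replicate, one_pow, one_mul]
            refine mul_le_mul_of_nonneg_right (u1.trans (Real.exp_le_exp.2 ?_)) (mul_nonneg t0 b0)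
            have m1 := mul_le_mul_of_nonneg_left k5 hη0.le
            have m2 := mul_le_mul_of_nonneg_right hη2 hn0
            have m3 := mul_le_mul_of_nonneg_right hν3 hn0
            have m4 := mul_le_mul_of_nonneg_left k4 hν0.le
            linarith
        · rw [if_neg hl]; exact zero_le
    _ ≤ ENNReal.ofReal (Cv * Real.exp (-(ε - η) * ((R * n + d) / 2))) +
        ENNReal.ofReal (Real.exp (c' * n - ν * (n + d))) *
          ENNReal.ofReal (C' * Real.exp (-(ξ + c') * n)) :=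
        add_le_add (ht η _ τ (by linarith) hτ A i x o _) (mul_le_mul_right hSB' _)
    _ ≤ _ := by
        rw [← ENNReal.ofReal_mul (by positivity),
          ← ENNReal.ofReal_add (by positivity) (by positivity)]
        refine ENNReal.ofReal_le_ofReal ?_
        have e1 : Real.exp (-(ε - η) * ((R * n + d) / 2)) ≤ Real.exp (-ξ * n - ν * (n + d)) := by
          refine Real.exp_le_exp.2 ?_
          have m1 : ε / 2 * ((R * n + d) / 2) ≤ (ε - η) * ((R * n + d) / 2) :=
            mul_le_mul_of_nonneg_right (by linarith) (by positivity)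
          have m2 : ε * R * n = 4 * (ξ + 1) * n := by rw [hR]
          have m3 := mul_le_mul_of_nonneg_right hν1 hn0
          have m4 := mul_le_mul_of_nonneg_right hν2 hd0
          linarith
        have e2 : Real.exp (c' * n - ν * (n + d)) * (C' * Real.exp (-(ξ + c') * n)) =
            C' * Real.exp (-ξ * n - ν * (n + d)) := by
          rw [mul_left_comm, ← Real.exp_add]; congr 2; ring
        have e3 := mul_le_mul_of_nonneg_left e1 hCv
        have e4 : 0 ≤ K0 M J * Real.exp ξ * Real.exp (-ξ * n - ν * (n + d)) := by positivity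
        rw [e2]
        linarith

end

end Pool.Agent.MP_48a2f9_mp.OZ

end MrgPart6

-- marker of a merged file
example : 731051 + 110185 = 731051 + 110185 := rfl
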