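import Pool.Agent.MP_48a2f9_mp.R2Cut
import Pool.Agent.MP_48a2f9_mp.OZBase

-- ======== part 0: formerly Pool.Agent.MP_48a2f9_mp.R2
section MrgPart0

/-! Module R2: the decomposition of a cluster into pieces. -/

namespace Pool.Agent.MP_48a2f9_mp.OZ

noncomputable section
open Classical

namespace R2

variable {D A : ℕ}

theorem ch_nil {i o : Bool} {x y : Site D} : ¬ Ch A i x o y [] := by simp [Ch]

theorem ch_single {i o : Bool} {x y : Site D} {γ : Piece D} :
    Ch A i x o y [γ] ↔ γ.Valid A ∧ γ.i = i ∧ γ.x = x ∧ γ.o = o ∧ γ.y = y := by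
  simp [Ch, Chn, and_assoc]

theorem chn_cons {γ γ' : Piece D} {l : List (Piece D)} :
    Chn A (γ :: γ' :: l) ↔ γ.Valid A ∧ Lnk γ γ' ∧ Chn A (γ' :: l) := by
  simp only [Chn, List.forall_mem_cons (a := γ), List.isChain_cons_cons]
  tauto

theorem ch_cons {i o : Bool} {x y : Site D} {γ γ' : Piece D} {l : List (Piece D)} :
    Ch A i x o y (γ :: γ' :: l) ↔ γ.Valid A ∧ γ.i = i ∧ γ.x = x ∧ γ.o = true ∧
      Ch A true (γ.y + e1) o y (γ' :: l) := by
  simp only [Ch, chn_cons, Lnk, List.head?_cons, Option.some.injEq, exists_eq_left',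
    List.getLast?_cons_cons]
  tauto

theorem allV_cons (γ : Piece D) (l : List (Piece D)) : allV (γ :: l) = γ.vs ∪ allV l := rfl

theorem allV_single (γ : Piece D) : allV [γ] = γ.vs := by simp [allV]

theorem sub_allV {γ : Piece D} {l : List (Piece D)} (h : γ ∈ l) : γ.vs ⊆ allV l := by
  induction l with
  | nil => simp at h
  | cons g l ih =>
    rw [allV_cons]
    rcases List.mem_cons.1 h with rfl | h
    exacts [Finset.subset_union_left, (ih h).trans Finset.subset_union_right]

theorem rr_nonneg {β J : ℝ} (hβ : 0 ≤ β) (hJ : 0 ≤ J) (e : Ed D) : 0 ≤ rr β J e := by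
  have : 0 ≤ β * edgeJ J e := mul_nonneg hβ (by unfold edgeJ; split_ifs <;> simp [hJ])
  have := Real.one_le_exp this
  unfold rr
  linarith

/-- The conclusions of the first part. -/
def P1 (A : ℕ) (i : Bool) (x : Site D) (o : Bool) (y : Site D) (l : List (Piece D)) : Prop :=
  IsClu x (glueE l) ∧ verts x (glueE l) = allV l ∧ y ∈ allV l ∧
    l.Pairwise (fun γ γ' => Disjoint γ.vs γ'.vs) ∧ (l.length : ℤ) ≤ y.1 - x.1 + 1 ∧
    (i = true → (∀ v ∈ allV l, x.1 ≤ v.1) ∧ Fwd A (allV l) (x.1 - 1)) ∧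
    (o = true → ∀ v ∈ allV l, v.1 ≤ y.1) ∧
    ∀ (M : Model D) (J : ℝ), 0 ≤ M.β → 0 ≤ J → (l.map (M.theta J)).prod =
      M.inF J i x * (∏ e ∈ glueE l, rr M.β J e) * M.outF J o y

theorem cut_of {γ : Piece D} {l : List (Piece D)} {o : Bool} {y : Site D} (hv : γ.Valid A)
    (ho : γ.o = true) (h : P1 A true (γ.y + e1) o y l) : Cut A γ.x γ.y γ.E (glueE l) := by
  obtain ⟨p1, p2, -, -, -, p6, -⟩ := h
  obtain ⟨p7, p8⟩ := p6 rfl
  rw [add_e1_fst, add_sub_cancel_right, ← p2] at p8
  exact ⟨hv.1, hv.2.1, hv.2.2.2.2.2 ho, p1, fun v h => p7 v (p2 ▸ h), p8⟩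

theorem part1 {o : Bool} {y : Site D} (l : List (Piece D)) :
    ∀ (i : Bool) (x : Site D), Ch A i x o y l → P1 A i x o y l := by
  induction l with
  | nil => exact fun i x h => (ch_nil h).elim
  | cons γ l ih =>
    intro i x h
    cases l with
    | nil =>
      obtain ⟨⟨v1, v2, v3, -, v5, v6⟩, rfl, rfl, rfl, rfl⟩ := ch_single.1 h
      unfold P1
      rw [allV_single]
      refine ⟨v1, rfl, v2, by simp, by simp only [List.length_singleton]; omega, v5, v6,
        fun M J _ _ => by simp [Model.theta, glueE]⟩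
    | cons γ' l =>
      obtain ⟨hv, rfl, rfl, ho, ht⟩ := ch_cons.1 h
      have hp := ih _ _ ht
      have hc := cut_of hv ho hp
      obtain ⟨-, p2, p3, p4, p5, -, p7, p8⟩ := hp
      obtain ⟨-, -, v3, -, v5, -⟩ := hv
      have hge : ∀ v ∈ allV (γ' :: l), γ.y.1 < v.1 := fun v hv => hc.ge v (p2 ▸ hv)
      rw [add_e1_fst] at p5
      refine ⟨hc.isClu, ?_, Finset.mem_union_right _ p3, List.pairwise_cons.2 ⟨fun g hg => ?_, p4⟩,
        ?_, fun hi => ⟨fun v hv => ?_, ?_⟩, fun ho' v hv => ?_, fun M J hβ hJ => ?_⟩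
      · rw [allV_cons, ← p2]; exact hc.verts_eq
      · refine Finset.disjoint_left.2 fun v h1 h2 => ?_
        have := hc.le v h1
        have := hge v (sub_allV hg h2)
        omega
      · rw [List.length_cons]; push_cast; omega
      · rcases Finset.mem_union.1 hv with h1 | h1
        · exact (v5 hi).1 v h1
        · have := hge v h1
          omega
      · rw [allV_cons]
        exact fwd_union (by omega) hc.le hge (fun _ => (v5 hi).2) (p2 ▸ hc.fw)
      · rcases Finset.mem_union.1 hv with h1 | h1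
        · have := hc.le v h1
          have := hge y p3
          omega
        · exact p7 ho' v h1
      · rw [List.map_cons, List.prod_cons, p8 M J hβ hJ]
        change _ = _ * (∏ e ∈ γ.E ∪ {fwd γ.y} ∪ glueE (γ' :: l), rr M.β J e) * _
        rw [hc.prod_eq]
        simp only [Model.theta, Model.outF, ho, Model.inF, if_true, add_sub_cancel_right]
        have := Real.mul_self_sqrt (rr_nonneg hβ hJ (fwd γ.y))
        generalize √(rr M.β J (fwd γ.y)) = s at this
        rw [← this]
        ring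

theorem cut_cons {i o : Bool} {x y : Site D} {γ γ' : Piece D} {l : List (Piece D)}
    (h : Ch A i x o y (γ :: γ' :: l)) :
    Cut A x γ.y γ.E (glueE (γ' :: l)) ∧ x.1 ≤ γ.y.1 ∧ γ.y.1 < y.1 := by
  obtain ⟨hv, rfl, rfl, ho, ht⟩ := ch_cons.1 h
  have hp := part1 _ _ _ ht
  have hc := cut_of hv ho hp
  exact ⟨hc, hv.2.2.1, hc.ge y (hp.2.1 ▸ hp.2.2.1)⟩

theorem piece_ext {γ γ' : Piece D} (h1 : γ.i = γ'.i) (h2 : γ.x = γ'.x) (h3 : γ.E = γ'.E)
    (h4 : γ.o = γ'.o) (h5 : γ.y = γ'.y) : γ = γ' := by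
  cases γ; cases γ'; simp_all

theorem not_single {i o : Bool} {x y : Site D} {g γ γ' : Piece D} {l : List (Piece D)}
    (h : Ch A i x o y [g]) (h' : Ch A i x o y (γ :: γ' :: l))
    (he : g.E = glueE (γ :: γ' :: l)) : False := by
  obtain ⟨hv, -, rfl, -, rfl⟩ := ch_single.1 h
  obtain ⟨hc, p1, p2⟩ := cut_cons h'
  exact hv.2.2.2.1 _ p1 p2 (he ▸ hc.nice_eq)

theorem not_lt_level {i o : Bool} {x y : Site D} {g g' γ γ' : Piece D} {l l' : List (Piece D)}
    (h : Ch A i x o y (g :: g' :: l')) (h' : Ch A i x o y (γ :: γ' :: l))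
    (he : glueE (g :: g' :: l') = glueE (γ :: γ' :: l)) : ¬ γ.y.1 < g.y.1 := by
  intro hlt
  obtain ⟨hc, -, -⟩ := cut_cons h
  obtain ⟨hc', p1, -⟩ := cut_cons h'
  obtain ⟨hv, -, rfl, -⟩ := ch_cons.1 h
  have h1 : Nice A g.x (glueE (γ :: γ' :: l)) γ.y.1 := hc'.nice_eq
  rw [← he] at h1
  exact hv.2.2.2.1 _ p1 hlt ((hc.nice_lt hlt).1 h1)

theorem part2 {o : Bool} {y : Site D} (l : List (Piece D)) :
    ∀ (i : Bool) (x : Site D) (l' : List (Piece D)), Ch A i x o y l → Ch A i x o y l' →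
      glueE l = glueE l' → l = l' := by
  induction l with
  | nil => exact fun i x _ h => (ch_nil h).elim
  | cons γ l ih =>
    intro i x l' h h' he
    match l, l' with
    | _, [] => exact (ch_nil h').elim
    | [], [g] =>
      obtain ⟨-, a1, a2, a3, a4⟩ := ch_single.1 h
      obtain ⟨-, b1, b2, b3, b4⟩ := ch_single.1 h'
      rw [piece_ext (a1.trans b1.symm) (a2.trans b2.symm) he (a3.trans b3.symm)
        (a4.trans b4.symm)]
    | [], g :: g' :: l' => exact (not_single h h' he).elim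
    | γ' :: l, [g] => exact (not_single h' h he.symm).elim
    | γ' :: l, g :: g' :: l' =>
      have e1' : γ.y.1 = g.y.1 :=
        le_antisymm (not_lt.1 (not_lt_level h h' he)) (not_lt.1 (not_lt_level h' h he.symm))
      obtain ⟨hc, -, -⟩ := cut_cons h
      obtain ⟨hc', -, -⟩ := cut_cons h'
      change γ.E ∪ {fwd γ.y} ∪ glueE (γ' :: l) = g.E ∪ {fwd g.y} ∪ glueE (g' :: l') at he
      have e2 : γ.y = g.y := by
        have := hc.cross_eq
        rw [he, e1', hc'.cross_eq] at this
        exact (fwd_inj (Finset.singleton_injective this)).symm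
      have e3 : γ.E = g.E := by rw [hc.left_eq, he, e1', ← hc'.left_eq]
      have e4 : glueE (γ' :: l) = glueE (g' :: l') := by
        rw [hc.right_eq, he, e1', ← hc'.right_eq]
      obtain ⟨-, a1, a2, a3, a4⟩ := ch_cons.1 h
      obtain ⟨-, b1, b2, b3, b4⟩ := ch_cons.1 h'
      rw [piece_ext (a1.trans b1.symm) (a2.trans b2.symm) e3 (a3.trans b3.symm) e2,
        ih _ _ _ a4 (e2 ▸ b4) e4]

theorem part3 {y : Site D} (n : ℕ) : ∀ (i : Bool) (x : Site D) (E : Finset (Ed D)), IsClu x E →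
    y ∈ verts x E → x.1 ≤ y.1 → y.1 - x.1 < n →
    (i = true → (∀ v ∈ verts x E, x.1 ≤ v.1) ∧ Fwd A (verts x E) (x.1 - 1)) →
    ∃ l, Ch A i x false y l ∧ glueE l = E := by
  induction n with
  | zero => intro i x E _ _ h1 h2; omega
  | succ n ih =>
    intro i x E hE hy h1 h2 hi
    by_cases hn : ∃ t, x.1 ≤ t ∧ t < y.1 ∧ Nice A x E t
    swap
    · exact ⟨[⟨i, x, E, false, y⟩], ch_single.2 ⟨⟨hE, hy, h1,
        fun t p q r => hn ⟨t, p, q, r⟩, hi, by simp⟩, rfl, rfl, rfl, rfl⟩, rfl⟩
    obtain ⟨t, ⟨t1, t2, t3⟩, tm⟩ := Int.exists_least_of_bdd ⟨x.1, fun t ht => ht.1⟩ hn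
    obtain ⟨a, EL, ER, rfl, hc, rfl⟩ := exists_cut hE hy t1 t2 t3
    rw [hc.verts_eq] at hy hi
    have hy' : y ∈ verts (a + e1) ER := (Finset.mem_union.1 hy).resolve_left fun h => by
      have := hc.le y h
      omega
    obtain ⟨l, hl, rfl⟩ := ih true (a + e1) ER hc.cr hy' t2 (by rw [add_e1_fst]; omega)
      fun _ => ⟨hc.ge, by rw [add_e1_fst, add_sub_cancel_right]; exact hc.fw⟩
    cases l with
    | nil => exact (ch_nil hl).elim
    | cons γ' l =>
      refine ⟨⟨i, x, EL, true, a⟩ :: γ' :: l, ch_cons.2 ⟨⟨hc.cl, hc.ma, t1, fun s p q r => ?_,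
        fun h => ⟨fun v hv => (hi h).1 v (Finset.mem_union_left _ hv),
          fwd_mono Finset.subset_union_left (hi h).2⟩, fun _ => hc.le⟩, rfl, rfl, rfl, hl⟩, rfl⟩
      have := tm s ⟨p, lt_trans q t2, (hc.nice_lt q).2 r⟩
      exact absurd q (not_lt.2 this)

theorem part4 {o : Bool} {y : Site D} (l : List (Piece D)) :
    ∀ (i : Bool) (x : Site D) (γ : Piece D), Ch A i x o y (γ :: l) →
      l.countP (fun γ => γ.i = true ∧ γ.x.2 = 0) ≤
        ((Finset.Ico x.1 y.1).filter fun t : ℤ => cross (glueE (γ :: l)) t = {fwd (t, 0)}).card := by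
  induction l with
  | nil => simp
  | cons γ' l ih =>
    intro i x γ h
    obtain ⟨hc, p1, p2⟩ := cut_cons h
    obtain ⟨-, -, -, -, ht⟩ := ch_cons.1 h
    have h1 := ih _ _ _ ht
    have hx : γ'.x = γ.y + e1 := by
      obtain ⟨-, ⟨g, hg, -, hx⟩, -⟩ := ht
      rw [List.head?_cons, Option.some.injEq] at hg
      rw [hg, hx]
    set S := (Finset.Ico (γ.y + e1).1 y.1).filter
      fun t : ℤ => cross (glueE (γ' :: l)) t = {fwd (t, 0)}
    set T := (Finset.Ico x.1 y.1).filter
      fun t : ℤ => cross (glueE (γ :: γ' :: l)) t = {fwd (t, 0)}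
    have hS : S ⊆ T := fun t ht => by
      simp only [S, T, Finset.mem_filter, Finset.mem_Ico, add_e1_fst] at ht ⊢
      exact ⟨⟨by omega, ht.1.2⟩, (hc.cross_gt (by omega)).trans ht.2⟩
    rw [List.countP_cons]
    split_ifs with h0
    · have h2 : γ.y.2 = 0 := by
        simp only [hx, add_e1_snd, decide_eq_true_eq] at h0
        exact h0.2
      have h3 : γ.y.1 ∈ T := by
        simp only [T, Finset.mem_filter, Finset.mem_Ico]
        refine ⟨⟨p1, p2⟩, ?_⟩
        rw [← h2]
        exact hc.cross_eq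
      have h4 : γ.y.1 ∉ S := by simp [S, e1]
      have := Finset.card_lt_card (Finset.ssubset_iff_of_subset hS |>.2 ⟨_, h3, h4⟩)
      omega
    · exact h1.trans (Finset.card_le_card hS)

theorem part5a (l : List (Piece D)) : ∀ (g γ' : Piece D) (k : ℕ), Chn A (g :: l) →
    l[k]? = some γ' → γ'.i = true ∧ g.o = true ∧ g.y.1 + (k + 1) ≤ γ'.x.1 := by
  induction l with
  | nil => simp
  | cons g' l ih =>
    intro g γ' k h hk
    obtain ⟨-, ⟨l1, l2, l3⟩, ht⟩ := chn_cons.1 h
    cases k with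
    | zero =>
      obtain rfl : g' = γ' := by simpa using hk
      exact ⟨l2, l1, by rw [l3, add_e1_fst]; simp⟩
    | succ k =>
      obtain ⟨a1, -, a3⟩ := ih g' γ' k ht (by simpa using hk)
      have a4 := (ht.1 g' (by simp)).2.2.1
      rw [l3, add_e1_fst] at a4
      exact ⟨a1, l1, by push_cast; omega⟩

theorem part5 (l : List (Piece D)) : ∀ (j k : ℕ) (γ γ' : Piece D), Chn A l → j < k →
    l[j]? = some γ → l[k]? = some γ' →
    γ'.i = true ∧ ∀ v ∈ γ.vs, v.1 + ((k : ℤ) - j) ≤ γ'.x.1 := by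
  induction l with
  | nil => simp
  | cons g l ih =>
    intro j k γ γ' h hjk hj hk
    obtain ⟨k, rfl⟩ : ∃ k', k = k' + 1 := ⟨k - 1, by omega⟩
    rw [List.getElem?_cons_succ] at hk
    cases j with
    | zero =>
      obtain rfl : g = γ := by simpa using hj
      obtain ⟨a1, a2, a3⟩ := part5a l g γ' k h hk
      refine ⟨a1, fun v hv => ?_⟩
      have := (h.1 g (by simp)).2.2.2.2.2 a2 v hv
      push_cast; omega
    | succ j =>
      rw [List.getElem?_cons_succ] at hj
      obtain ⟨a1, a2⟩ := ih j k γ γ' ⟨fun g' hg => h.1 g' (by simp [hg]), h.2.tail⟩ (by omega)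
        hj hk
      refine ⟨a1, fun v hv => ?_⟩
      have := a2 v hv
      push_cast; omega

end R2

open R2 in
theorem r2Stmt : R2Stmt := by
  intro D A
  refine ⟨fun i x o y l h => part1 l i x h, fun i x o y l l' => part2 l i x l',
    fun x y E h1 h2 h3 => part3 ((y.1 - x.1).toNat + 1) false x E h1 h2 h3 (by omega) (by simp),
    fun n l h => ?_, part5⟩
  cases l with
  | nil => simp
  | cons γ l =>
    have hi : γ.i = false := by
      obtain ⟨-, ⟨g, hg, hi, -⟩, -⟩ := h
      rw [List.head?_cons, Option.some.injEq] at hg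
      rw [hg, hi]
    rw [List.countP_cons, if_neg (by simp [hi]), add_zero]
    refine (part4 l _ _ _ h).trans (Finset.card_le_card_of_injOn Int.toNat (fun t ht => ?_)
      fun s hs t ht hst => ?_)
    · simp only [Finset.coe_filter, Finset.mem_Ico, Set.mem_ofPred_eq, Prod.fst_zero,
        Finset.mem_range] at ht ⊢
      rw [Int.toNat_of_nonneg ht.1.1]
      exact ⟨by omega, ht.2⟩
    · simp only [Finset.coe_filter, Finset.mem_Ico, Set.mem_ofPred_eq, Prod.fst_zero] at hs ht
      omega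

end

end Pool.Agent.MP_48a2f9_mp.OZ

end MrgPart0

-- ======== part 1: formerly Pool.Agent.MP_48a2f9_mp.RNa
section MrgPart1

/-!
Invariance of the weights of lists of pieces under lattice symmetries that commute with `e₁`.
-/

open Filter Topology Finset
open scoped ENNReal

namespace Pool.Agent.MP_48a2f9_mp.OZ

noncomputable section
open Classical

namespace RN

variable {D : ℕ}

/-- Symmetries of the model that shift the level by `k`. -/
structure Sy (J : ℝ) (g : Site D ≃ Site D) (k : ℤ) : Prop where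
  adj : ∀ a b, Adj (g a) (g b) ↔ Adj a b
  edge : ∀ a b, Adj a b → edgeJ J s(g a, g b) = edgeJ J s(a, b)
  lev : ∀ v, (g v).1 = v.1 + k
  step : ∀ v, g (v + e1) = g v + e1

variable {J : ℝ} {g : Site D ≃ Site D} {k : ℤ}

lemma Sy.symm (h : Sy J g k) : Sy J g.symm (-k) where
  adj a b := by rw [← h.adj]; simp
  edge a b hab := by
    have := h.edge (g.symm a) (g.symm b) (by rw [← h.adj]; simpa)
    simpa using this.symm
  lev v := by
    have := h.lev (g.symm v)
    simp only [Equiv.apply_symm_apply] at this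
    omega
  step v := by
    apply g.injective
    rw [h.step]
    simp

lemma Sy.step' (h : Sy J g k) (v : Site D) : g (v - e1) = g v - e1 := by
  have := h.step (v - e1)
  rw [sub_add_cancel] at this
  rw [this, add_sub_cancel_right]

lemma Sy.map_fwd (h : Sy J g k) (v : Site D) : Sym2.map g (fwd v) = fwd (g v) := by
  simp [fwd, h.step]

lemma Sy.rr_fwd (h : Sy J g k) (β : ℝ) (v : Site D) : rr β J (fwd (g v)) = rr β J (fwd v) := by
  unfold rr fwd
  rw [← h.step, h.edge _ _ (adj_e1 v)]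

lemma Sy.cross_image (h : Sy J g k) (E : Finset (Ed D)) (t : ℤ) :
    cross (E.image (Sym2.map g)) (t + k) = (cross E t).image (Sym2.map g) := by
  ext e
  simp only [mem_cross, mem_image]
  constructor
  · rintro ⟨⟨e', he', rfl⟩, v, hv, hev⟩
    refine ⟨e', ⟨he', g.symm v, ?_, ?_⟩, rfl⟩
    · have := h.symm.lev v
      omega
    · apply Sym2.map.injective g.injective
      rw [hev, h.map_fwd, Equiv.apply_symm_apply]
  · rintro ⟨e', ⟨he', v, hv, rfl⟩, rfl⟩
    exact ⟨⟨_, he', rfl⟩, g v, by rw [h.lev, hv], h.map_fwd v⟩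

lemma Sy.slab_image (h : Sy J g k) (W : Finset (Site D)) (t s : ℤ) :
    slab (W.image g) (t + k) (s + k) = slab W t s := by
  unfold slab
  rw [filter_image, card_image_of_injective _ g.injective]
  congr 1
  refine filter_congr fun v _ => ?_
  rw [h.lev]
  omega

lemma Sy.fwd_image (h : Sy J g k) (A : ℕ) (W : Finset (Site D)) (t : ℤ) :
    Fwd A (W.image g) (t + k) ↔ Fwd A W t := by
  constructor
  · intro hf s hs
    have := hf (s + k) (by omega)
    rwa [h.slab_image, show s + k - (t + k) = s - t by ring] at this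
  · intro hf s hs
    have := hf (s - k) (by omega)
    rwa [← h.slab_image, sub_add_cancel, show s - k - t = s - (t + k) by ring] at this

lemma Sy.nice_image (h : Sy J g k) (A : ℕ) (x : Site D) (E : Finset (Ed D)) (t : ℤ) :
    Nice A (g x) (E.image (Sym2.map g)) (t + k) ↔ Nice A x E t := by
  unfold Nice
  rw [h.cross_image, card_image_of_injective _ (Sym2.map.injective g.injective), verts_image,
    h.fwd_image]

lemma vs_map (g : Site D → Site D) (γ : Piece D) : (γ.map g).vs = γ.vs.image g :=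
  verts_image g γ.x γ.E

lemma Sy.valid (h : Sy J g k) {A : ℕ} {γ : Piece D} (hγ : γ.Valid A) : (γ.map g).Valid A := by
  obtain ⟨h1, h2, h3, h4, h5, h6⟩ := hγ
  refine ⟨h1.image fun a b hab => (h.adj a b).2 hab, ?_, ?_, ?_, ?_, ?_⟩
  · rw [vs_map]
    exact mem_image_of_mem _ h2
  · change (g γ.x).1 ≤ (g γ.y).1
    rw [h.lev, h.lev]
    omega
  · intro t ht1 ht2
    change (g γ.x).1 ≤ t at ht1
    change t < (g γ.y).1 at ht2
    rw [h.lev] at ht1 ht2
    change ¬ Nice A (g γ.x) (γ.E.image (Sym2.map g)) t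
    rw [show t = t - k + k by ring, h.nice_image]
    exact h4 _ (by omega) (by omega)
  · intro hi
    obtain ⟨h7, h8⟩ := h5 hi
    rw [vs_map]
    constructor
    · intro v hv
      obtain ⟨w, hw, rfl⟩ := mem_image.1 hv
      change (g γ.x).1 ≤ (g w).1
      rw [h.lev, h.lev]
      have := h7 w hw
      omega
    · change Fwd A _ ((g γ.x).1 - 1)
      rw [h.lev, show γ.x.1 + k - 1 = γ.x.1 - 1 + k by ring, h.fwd_image]
      exact h8
  · intro ho v hv
    rw [vs_map] at hv
    obtain ⟨w, hw, rfl⟩ := mem_image.1 hv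
    change (g w).1 ≤ (g γ.y).1
    rw [h.lev, h.lev]
    have := h6 ho w hw
    omega

lemma Sy.ch (h : Sy J g k) {A : ℕ} {i o : Bool} {x y : Site D} {l : List (Piece D)}
    (hl : Ch A i x o y l) : Ch A i (g x) o (g y) (l.map (Piece.map g)) := by
  obtain ⟨⟨h1, h2⟩, ⟨a, ha, ha1, ha2⟩, b, hb, hb1, hb2⟩ := hl
  refine ⟨⟨?_, ?_⟩, ⟨a.map g, ?_, ha1, ?_⟩, b.map g, ?_, hb1, ?_⟩
  · intro γ hγ
    obtain ⟨γ', hγ', rfl⟩ := List.mem_map.1 hγ
    exact h.valid (h1 γ' hγ')
  · refine List.isChain_map_of_isChain _ (fun γ γ' hh => ?_) h2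
    obtain ⟨k1, k2, k3⟩ := hh
    refine ⟨k1, k2, ?_⟩
    change g γ'.x = g γ.y + e1
    rw [k3, h.step]
  · rw [List.head?_map, ha]; rfl
  · change g a.x = g x
    rw [ha2]
  · rw [List.getLast?_map, hb]; rfl
  · change g b.y = g y
    rw [hb2]

lemma Sy.theta (h : Sy J g k) (M : Model D) {A : ℕ} {γ : Piece D} (hγ : γ.Valid A) :
    M.theta J (γ.map g) = M.theta J γ := by
  unfold Model.theta Model.inF Model.outF
  change (if γ.i = true then √(rr M.β J (fwd (g γ.x - e1))) else M.q) *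
    (∏ e ∈ γ.E.image (Sym2.map g), rr M.β J e) *
    (if γ.o = true then √(rr M.β J (fwd (g γ.y))) else 1) = _
  rw [← h.step', h.rr_fwd, h.rr_fwd, prod_rr_image g.injective hγ.1.1 h.edge]

lemma allV_map (g : Site D → Site D) (l : List (Piece D)) :
    allV (l.map (Piece.map g)) = (allV l).image g := by
  induction l with
  | nil => simp [allV]
  | cons γ l ih =>
    change (γ.map g).vs ∪ allV (l.map (Piece.map g)) = (γ.vs ∪ allV l).image g
    rw [ih, vs_map, image_union]

lemma Sy.phi (h : Sy J g k) {M : Model D} (hM : M.CW) (hJ : 0 ≤ J) (l : List (Piece D)) :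
    M.Phi J (l.map (Piece.map g)) = M.Phi J l := by
  unfold Model.Phi
  rw [allV_map]
  have := hM.symm J hJ g h.adj h.edge Set.univ (allV l) (Set.subset_univ _)
  rwa [Set.image_univ_of_surjective g.surjective] at this

lemma Bk_eq {Γ : Type} (Φ : List Γ → ℝ) (l : List Γ) :
    Bk Φ l = Φ l - ∑ k ∈ range l.length,
      if k = 0 then 0 else Bk Φ (l.take k) * Φ (l.drop k) := by
  rw [Bk, Fin.sum_univ_eq_sum_range
    (fun k => if k = 0 then 0 else Bk Φ (l.take k) * Φ (l.drop k))]

lemma Bk_map {Γ : Type} (Φ : List Γ → ℝ) (f : Γ → Γ) (hf : ∀ l, Φ (l.map f) = Φ l) :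
    ∀ (n : ℕ) (l : List Γ), l.length = n → Bk Φ (l.map f) = Bk Φ l := by
  intro n
  induction n using Nat.strong_induction_on with
  | _ n ih =>
    intro l hl
    rw [Bk_eq, Bk_eq Φ l, hf, List.length_map]
    congr 1
    refine sum_congr rfl fun k hk => ?_
    rw [mem_range] at hk
    rw [← List.map_take, ← List.map_drop, hf, ih (l.take k).length (by
      rw [List.length_take]; omega) _ rfl]

lemma piece_map_inj (g : Site D ≃ Site D) : Function.Injective (Piece.map (D := D) g) := by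
  rintro ⟨i, x, E, o, y⟩ ⟨i', x', E', o', y'⟩ h
  simp only [Piece.map, Piece.mk.injEq, EmbeddingLike.apply_eq_iff_eq] at h
  obtain ⟨rfl, rfl, h3, rfl, rfl⟩ := h
  rw [image_injective (Sym2.map.injective g.injective) h3]

lemma piece_map_symm (g : Site D ≃ Site D) (γ : Piece D) : (γ.map g.symm).map g = γ := by
  obtain ⟨i, x, E, o, y⟩ := γ
  simp only [Piece.map, Equiv.apply_symm_apply, image_image, Piece.mk.injEq, true_and, and_true]
  have : (Sym2.map g ∘ Sym2.map g.symm) = id := by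
    rw [← Sym2.map_comp]
    simp
  rw [this, image_id]

lemma Sy.prod (h : Sy J g k) (M : Model D) {A : ℕ} {τ : Piece D → ℝ}
    (hτ : ∀ γ, τ (γ.map g) = τ γ) {l : List (Piece D)} (hl : ∀ γ ∈ l, γ.Valid A) :
    ((l.map (Piece.map g)).map fun γ => M.theta J γ * τ γ).prod =
      (l.map fun γ => M.theta J γ * τ γ).prod := by
  rw [List.map_map]
  congr 1
  refine List.map_congr_left fun γ hγ => ?_
  simp only [Function.comp]
  rw [h.theta M (hl γ hγ), hτ]

lemma Sy.le (h : Sy J g k) {M : Model D} (hM : M.CW) (hJ : 0 ≤ J) (A : ℕ) {τ : Piece D → ℝ}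
    (hτ : ∀ γ, τ (γ.map g) = τ γ) (i o : Bool) (x y : Site D) :
    M.SW J A τ i x o y ≤ M.SW J A τ i (g x) o (g y) ∧
      M.SB J A τ i x o y ≤ M.SB J A τ i (g x) o (g y) := by
  have hinj : Function.Injective (List.map (Piece.map (D := D) g)) :=
    List.map_injective_iff.2 (piece_map_inj g)
  constructor
  · refine le_trans (ENNReal.tsum_le_tsum fun l => ?_)
      (ENNReal.tsum_comp_le_tsum_of_injective hinj _)
    split_ifs with h1 h2
    · unfold Model.Wl
      rw [h.prod M hτ h1.1.1, h.phi hM hJ]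
    · exact absurd (h.ch h1) h2
    · exact zero_le
    · exact zero_le
  · refine le_trans (ENNReal.tsum_le_tsum fun l => ?_)
      (ENNReal.tsum_comp_le_tsum_of_injective hinj _)
    split_ifs with h1 h2
    · unfold Model.Bl
      rw [h.prod M hτ h1.1.1, Bk_map _ _ (h.phi hM hJ) _ l rfl]
    · exact absurd (h.ch h1) h2
    · exact zero_le
    · exact zero_le

/-- Invariance of the total weights. -/
lemma Sy.eq (h : Sy J g k) {M : Model D} (hM : M.CW) (hJ : 0 ≤ J) (A : ℕ) {τ : Piece D → ℝ}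
    (hτ : ∀ γ, τ (γ.map g) = τ γ) (i o : Bool) (x y : Site D) :
    M.SW J A τ i (g x) o (g y) = M.SW J A τ i x o y ∧
      M.SB J A τ i (g x) o (g y) = M.SB J A τ i x o y := by
  have h1 := h.le hM hJ A hτ i o x y
  have h2 := h.symm.le hM hJ A (τ := τ) (fun γ => by rw [← hτ, piece_map_symm]) i o (g x) (g y)
  simp only [Equiv.symm_apply_apply] at h2
  exact ⟨le_antisymm h2.1 h1.1, le_antisymm h2.2 h1.2⟩

lemma sy_shift (J : ℝ) (k : ℤ) : Sy J (shiftE (D := D) k) k where
  adj _ _ := adj_add _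
  edge a b _ := edgeJ_shift J k a b
  lev _ := rfl
  step v := by simp only [shiftE_apply]; abel

end RN

end

end Pool.Agent.MP_48a2f9_mp.OZ

end MrgPart1

-- ======== part 2: formerly Pool.Agent.MP_48a2f9_mp.RN
section MrgPart2

/-!
Module RN: the renewal equation, shift invariance and supports.
-/

open Filter Topology Finset
open scoped ENNReal

namespace Pool.Agent.MP_48a2f9_mp.OZ

noncomputable section
open Classical

namespace RN

variable {D : ℕ} {A : ℕ} {i o : Bool} {x y : Site D}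

lemma Ch.ne_nil {l : List (Piece D)} (h : Ch A i x o y l) : l ≠ [] := by
  rintro rfl
  obtain ⟨-, ⟨a, ha, -⟩, -⟩ := h
  simp at ha

lemma ch_append {b l : List (Piece D)} {z : Site D} (h1 : Ch A i x true z b)
    (h2 : Ch A true (z + e1) o y l) : Ch A i x o y (b ++ l) := by
  obtain ⟨⟨v1, c1⟩, ⟨a, ha, ha1, ha2⟩, a', ha', ha3, ha4⟩ := h1
  obtain ⟨⟨v2, c2⟩, ⟨d, hd, hd1, hd2⟩, d', hd', hd3, hd4⟩ := h2
  refine ⟨⟨?_, c1.append c2 ?_⟩, ⟨a, ?_, ha1, ha2⟩, d', ?_, hd3, hd4⟩
  · intro γ hγ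
    rcases List.mem_append.1 hγ with h | h
    exacts [v1 γ h, v2 γ h]
  · intro p hp q hq
    rw [ha'] at hp
    rw [hd] at hq
    obtain rfl : a' = p := by simpa using hp
    obtain rfl : d = q := by simpa using hq
    exact ⟨ha3, hd1, by rw [hd2, ha4]⟩
  · rw [List.head?_append, ha]; rfl
  · rw [List.getLast?_append, hd']; rfl

lemma ch_split {b l : List (Piece D)} (h : Ch A i x o y (b ++ l)) (hb : b ≠ []) (hl : l ≠ []) :
    ∃ z, Ch A i x true z b ∧ Ch A true (z + e1) o y l := by
  obtain ⟨⟨v, c⟩, ⟨a, ha, ha1, ha2⟩, d', hd', hd3, hd4⟩ := h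
  obtain ⟨c1, c2, c3⟩ := List.isChain_append.1 c
  obtain ⟨p, hp⟩ : ∃ p, b.getLast? = some p := ⟨_, List.getLast?_eq_some_getLast hb⟩
  obtain ⟨q, hq⟩ : ∃ q, l.head? = some q := ⟨_, List.head?_eq_some_head hl⟩
  obtain ⟨p', hp'⟩ : ∃ p, b.head? = some p := ⟨_, List.head?_eq_some_head hb⟩
  obtain ⟨q', hq'⟩ : ∃ q, l.getLast? = some q := ⟨_, List.getLast?_eq_some_getLast hl⟩
  obtain ⟨k1, k2, k3⟩ := c3 p (by rw [hp]; rfl) q (by rw [hq]; rfl)
  rw [List.head?_append, hp'] at ha
  rw [List.getLast?_append, hq'] at hd'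
  obtain rfl : p' = a := by simpa using ha
  obtain rfl : q' = d' := by simpa using hd'
  exact ⟨p.y, ⟨⟨fun γ hγ => v γ (List.mem_append_left _ hγ), c1⟩, ⟨_, hp', ha1, ha2⟩,
      p, hp, k1, rfl⟩,
    ⟨fun γ hγ => v γ (List.mem_append_right _ hγ), c2⟩, ⟨q, hq, k2, k3⟩, _, hq', hd3, hd4⟩

lemma Ch.end_unique {l : List (Piece D)} {o' : Bool} {y' : Site D} (h : Ch A i x o y l)
    (h' : Ch A i x o' y' l) : y = y' := by
  obtain ⟨-, -, a, ha, -, rfl⟩ := h
  obtain ⟨-, -, b, hb, -, rfl⟩ := h'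
  rw [ha] at hb
  rw [Option.some.inj hb]

/-- Splitting a list into two nonempty parts. -/
lemma tsum_split (f g : List (Piece D) → ℝ≥0∞) :
    (∑' l : List (Piece D), if Ch A i x o y l then
      ∑ k ∈ range l.length, (if k = 0 then 0 else f (l.take k) * g (l.drop k)) else 0) =
    ∑' z : Site D, (∑' b : List (Piece D), if Ch A i x true z b then f b else 0) *
      ∑' l : List (Piece D), if Ch A true (z + e1) o y l then g l else 0 := by
  set F : List (Piece D) × List (Piece D) → ℝ≥0∞ := fun p =>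
    if ∃ z, Ch A i x true z p.1 ∧ Ch A true (z + e1) o y p.2 then f p.1 * g p.2 else 0 with hF
  set G : List (Piece D) × ℕ → ℝ≥0∞ := fun p =>
    if Ch A i x o y p.1 ∧ p.2 < p.1.length ∧ p.2 ≠ 0 then f (p.1.take p.2) * g (p.1.drop p.2)
    else 0 with hG
  have h1 : (∑' l : List (Piece D), if Ch A i x o y l then
      ∑ k ∈ range l.length, (if k = 0 then 0 else f (l.take k) * g (l.drop k)) else 0) =
      ∑' p, G p := by
    rw [ENNReal.tsum_prod' (f := G)]
    refine tsum_congr fun l => ?_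
    rw [tsum_eq_sum (s := range l.length) (fun k hk => by
      rw [mem_range] at hk
      simp only [hG]
      rw [if_neg fun h => hk h.2.1])]
    split_ifs with h
    · refine sum_congr rfl fun k hk => ?_
      rw [mem_range] at hk
      simp only [hG]
      by_cases h0 : k = 0
      · rw [if_pos h0, if_neg fun h => h.2.2 h0]
      · rw [if_neg h0, if_pos ⟨h, hk, h0⟩]
    · refine (sum_eq_zero fun k _ => ?_).symm
      simp only [hG]
      rw [if_neg fun h' => h h'.1]
  have h2 : (∑' z : Site D, (∑' b : List (Piece D), if Ch A i x true z b then f b else 0) *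
      ∑' l : List (Piece D), if Ch A true (z + e1) o y l then g l else 0) = ∑' p, F p := by
    rw [ENNReal.tsum_prod' (f := F)]
    have e1' : ∀ z : Site D, (∑' b : List (Piece D), if Ch A i x true z b then f b else 0) *
        (∑' l : List (Piece D), if Ch A true (z + e1) o y l then g l else 0) =
        ∑' b : List (Piece D), ∑' l : List (Piece D), (if Ch A i x true z b then f b else 0) *
          (if Ch A true (z + e1) o y l then g l else 0) := by
      intro z
      rw [← ENNReal.tsum_mul_right]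
      refine tsum_congr fun b => ?_
      rw [← ENNReal.tsum_mul_left]
    rw [tsum_congr e1', ENNReal.tsum_comm]
    refine tsum_congr fun b => ?_
    rw [ENNReal.tsum_comm]
    refine tsum_congr fun l => ?_
    simp only [hF]
    split_ifs with h
    · obtain ⟨z, hz1, hz2⟩ := h
      rw [tsum_eq_single z, if_pos hz1, if_pos hz2]
      intro z' hz'
      rw [if_neg fun h => hz' (Ch.end_unique h hz1), zero_mul]
    · refine ENNReal.tsum_eq_zero.2 fun z => ?_
      by_cases k1 : Ch A i x true z b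
      · rw [if_neg (fun k2 => h ⟨z, k1, k2⟩), mul_zero]
      · rw [if_neg k1, zero_mul]
  rw [h1, h2]
  refine tsum_eq_tsum_of_ne_zero_bij (fun p => (p.1.1 ++ p.1.2, p.1.1.length)) ?_ ?_ ?_
  · rintro ⟨⟨b, l⟩, _⟩ ⟨⟨b', l'⟩, _⟩ h
    simp only [Prod.mk.injEq] at h
    obtain ⟨rfl, rfl⟩ := List.append_inj h.1 h.2
    rfl
  · rintro ⟨l, k⟩ hp
    rw [Function.mem_support] at hp
    simp only [hG] at hp
    split_ifs at hp with h
    · obtain ⟨hc, hk, hk0⟩ := h
      have hc' : Ch A i x o y (l.take k ++ l.drop k) := by rwa [List.take_append_drop]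
      have hlen : (l.take k).length = k := by rw [List.length_take]; omega
      have := ch_split hc' (fun h => by rw [h] at hlen; exact hk0 hlen.symm)
        (fun h => by
          have := congrArg List.length h
          rw [List.length_drop, List.length_nil] at this
          omega)
      refine ⟨⟨(l.take k, l.drop k), ?_⟩, ?_⟩
      · rw [Function.mem_support]
        simp only [hF]
        rwa [if_pos this]
      · simp only [List.take_append_drop, hlen]
    · exact absurd rfl hp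
  · rintro ⟨⟨b, l⟩, hp⟩
    rw [Function.mem_support] at hp
    simp only [hF] at hp
    simp only [hF, hG]
    split_ifs at hp with h
    · obtain ⟨z, hz1, hz2⟩ := h
      have n1 := List.length_pos_iff.2 (Ch.ne_nil hz1)
      have n2 := List.length_pos_iff.2 (Ch.ne_nil hz2)
      rw [if_pos ⟨ch_append hz1 hz2, by rw [List.length_append]; omega,
        by omega⟩, if_pos ⟨z, hz1, hz2⟩, List.take_left, List.drop_left]
    · exact absurd rfl hp

lemma theta_nonneg {M : Model D} (hM : M.CW) {J : ℝ} (hJ : 0 ≤ J) (γ : Piece D) :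
    0 ≤ M.theta J γ := by
  unfold Model.theta Model.inF Model.outF
  have := hM.q_pos
  refine mul_nonneg (mul_nonneg ?_ (prod_nonneg fun e _ => hM.rr_nonneg hJ e)) ?_
  · split_ifs <;> positivity
  · split_ifs <;> positivity

lemma prod_nonneg' {M : Model D} (hM : M.CW) {J : ℝ} (hJ : 0 ≤ J) {τ : Piece D → ℝ}
    (hτ : ∀ γ, 0 ≤ τ γ) (l : List (Piece D)) : 0 ≤ (l.map fun γ => M.theta J γ * τ γ).prod := by
  refine List.prod_nonneg fun a ha => ?_
  obtain ⟨γ, -, rfl⟩ := List.mem_map.1 ha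
  exact mul_nonneg (theta_nonneg hM hJ γ) (hτ γ)

lemma Wl_eq (M : Model D) (J : ℝ) (τ : Piece D → ℝ) (l : List (Piece D)) :
    M.Wl J τ l = M.Bl J τ l + ∑ k ∈ range l.length,
      if k = 0 then 0 else M.Bl J τ (l.take k) * M.Wl J τ (l.drop k) := by
  unfold Model.Wl Model.Bl
  rw [Bk_eq _ l, mul_sub, mul_sum, sub_add_eq_add_sub, eq_sub_iff_add_eq, add_right_inj]
  refine sum_congr rfl fun k _ => ?_
  split_ifs
  · rw [mul_zero]
  · conv_lhs => rw [← List.take_append_drop k l, List.map_append, List.prod_append,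
      List.take_append_drop]
    ring

end RN

open RN in
theorem rnStmt (h1 : R1Stmt) (h2 : R2Stmt) : RNStmt := by
  intro D M J η A τ hM hJ hτ i x o y
  obtain ⟨C, κ, -, hB⟩ := h1 D M J A hM hJ
  have hτ0 : ∀ γ, 0 ≤ τ γ := fun γ => zero_le_one.trans (hτ.1 γ).1
  have hW : ∀ l, 0 ≤ M.Wl J τ l := fun l =>
    mul_nonneg (prod_nonneg' hM hJ hτ0 l) (hM.psi_pos hJ (Set.subset_univ _)).le
  have hBl : ∀ l, Chn A l → l ≠ [] → 0 ≤ M.Bl J τ l := fun l hl hne =>
    mul_nonneg (prod_nonneg' hM hJ hτ0 l) (hB l hl hne).1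
  have main : M.SW J A τ i x o y = M.SB J A τ i x o y +
      ∑' z : Site D, M.SB J A τ i x true z * M.SW J A τ true (z + e1) o y := by
    unfold Model.SW Model.SB
    rw [← tsum_split, ← ENNReal.tsum_add]
    refine tsum_congr fun l => ?_
    split_ifs with h
    · have hk : ∀ k ∈ range l.length, k ≠ 0 → 0 ≤ M.Bl J τ (l.take k) := by
        intro k hk hk0
        rw [mem_range] at hk
        refine hBl _ ⟨fun γ hγ => h.1.1 γ (List.mem_of_mem_take hγ), h.1.2.take k⟩ fun h0 => ?_
        have := congrArg List.length h0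
        rw [List.length_take, List.length_nil] at this
        omega
      have hk' : ∀ k ∈ range l.length,
          0 ≤ if k = 0 then 0 else M.Bl J τ (l.take k) * M.Wl J τ (l.drop k) := by
        intro k hk1
        split_ifs with h0
        · exact le_rfl
        · exact mul_nonneg (hk k hk1 h0) (hW _)
      rw [Wl_eq, ENNReal.ofReal_add (hBl l h.1 (Ch.ne_nil h)) (sum_nonneg hk'),
        ENNReal.ofReal_sum_of_nonneg hk']
      congr 1
      refine sum_congr rfl fun k hk1 => ?_
      split_ifs with h0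
      · exact ENNReal.ofReal_zero
      · exact ENNReal.ofReal_mul (hk k hk1 h0)
    · rw [add_zero]
  refine ⟨main, fun k => ?_, main ▸ le_self_add, fun hne => ?_⟩
  · exact (sy_shift J k).eq hM hJ A (hτ.2 k) i o x y
  · obtain ⟨l, hl⟩ : ∃ l, Ch A i x o y l := by
      by_contra hc
      refine hne (ENNReal.tsum_eq_zero.2 fun l => if_neg fun h => hc ⟨l, h⟩)
    obtain ⟨k1, k2, k3, -, k5, k6, k7, -⟩ := (h2 D A).1 i x o y l hl
    have n1 := List.length_pos_iff.2 (Ch.ne_nil hl)
    have hxy : x.1 ≤ y.1 := by omega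
    refine ⟨hxy, fun hi ho => ?_⟩
    obtain ⟨k8, k9⟩ := k6 hi
    have k10 := k9 y.1 (by omega)
    have k11 : slab (allV l) (x.1 - 1) y.1 = (allV l).card := by
      unfold slab
      rw [filter_true_of_mem]
      intro v hv
      exact ⟨by have := k8 v hv; omega, k7 ho v hv⟩
    have k12 := k1.norm_le_card (k2 ▸ k3)
    rw [k11, show y.1 - (x.1 - 1) = y.1 - x.1 + 1 by ring] at k10
    rw [k2] at k12
    have k13 : ((allV l).card : ℝ) ≤ (A : ℝ) * ((y.1 - x.1 + 1 : ℤ) : ℝ) := by exact_mod_cast k10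
    have k14 : ‖y.2 - x.2‖ ≤ ‖y - x‖ := norm_snd_le (y - x)
    linarith

end

end Pool.Agent.MP_48a2f9_mp.OZ

end MrgPart2

-- ======== part 3: formerly Pool.Agent.MP_48a2f9_mp.R3c
section MrgPart3

/-!
Module R3c: lateral symmetries of the homogeneous kernel and positivity.
-/

open Filter Topology Finset
open scoped ENNReal

namespace Pool.Agent.MP_48a2f9_mp.OZ

noncomputable section
open Classical

namespace RN

variable {D : ℕ}

lemma edgeJ_one (e : Ed D) : edgeJ 1 e = 1 := by
  unfold edgeJ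
  split_ifs <;> rfl

lemma sy_lat (w : Tr D) : Sy 1 (Equiv.addRight ((0, w) : Site D)) 0 where
  adj _ _ := adj_add _
  edge a b _ := by rw [edgeJ_one, edgeJ_one]
  lev v := by simp
  step v := by simp only [Equiv.coe_addRight]; abel

/-- The lateral reflection. -/
def negE (D : ℕ) : Site D ≃ Site D := (Equiv.refl ℤ).prodCongr (Equiv.neg (Fin D → ℤ))

lemma negE_apply (v : Site D) : negE D v = (v.1, -v.2) := rfl

lemma sy_neg : Sy 1 (negE D) 0 where
  adj a b := by
    unfold Adj
    simp only [negE_apply, Pi.neg_apply]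
    have : ∀ k, |-a.2 k - -b.2 k| = |a.2 k - b.2 k| := fun k => by
      rw [show -a.2 k - -b.2 k = -(a.2 k - b.2 k) by ring, abs_neg]
    simp only [this]
  edge a b _ := by rw [edgeJ_one, edgeJ_one]
  lev v := by simp [negE_apply]
  step v := by
    simp only [negE_apply]
    refine Prod.ext rfl ?_
    simp

/-- Small clusters between two levels that use edges off the line only. -/
structure Sm (x : Site D) (E : Finset (Ed D)) (n : ℕ) (lo hi : ℤ) : Prop where
  clu : IsClu x E
  card : (verts x E).card ≤ n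
  lev : ∀ w ∈ verts x E, lo ≤ w.1 ∧ w.1 ≤ hi
  off : ∀ e ∈ E, ∃ w ∈ e, w.2 ≠ 0

variable {x : Site D} {E : Finset (Ed D)} {n : ℕ} {lo hi : ℤ}

lemma Sm.empty (h1 : lo ≤ x.1) (h2 : x.1 ≤ hi) : Sm x ∅ 1 lo hi where
  clu := isClu_empty x
  card := by simp
  lev w hw := by
    rw [verts_empty, mem_singleton] at hw
    rw [hw]
    exact ⟨h1, h2⟩
  off := by simp

lemma Sm.mono (h : Sm x E n lo hi) {m : ℕ} (hm : n ≤ m) : Sm x E m lo hi :=
  ⟨h.clu, h.card.trans hm, h.lev, h.off⟩

lemma Sm.add (h : Sm x E n lo hi) {a b : Site D} (ha : a ∈ verts x E) (hab : Adj a b)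
    (h1 : lo ≤ b.1) (h2 : b.1 ≤ hi) (h3 : a.2 ≠ 0 ∨ b.2 ≠ 0) :
    Sm x (insert s(a, b) E) (n + 1) lo hi := by
  have hv : ∀ w ∈ verts x (insert s(a, b) E), w = b ∨ w ∈ verts x E := by
    intro w hw
    rcases mem_verts.1 hw with rfl | ⟨e, he, hwe⟩
    · exact Or.inr (root_mem_verts _ _)
    · rcases mem_insert.1 he with rfl | he
      · rcases Sym2.mem_iff.1 hwe with rfl | rfl
        exacts [Or.inr ha, Or.inl rfl]
      · exact Or.inr (mem_verts_of_mem he hwe)
  refine ⟨⟨fun e he => ?_, fun w hw => ?_⟩, ?_, fun w hw => ?_, fun e he => ?_⟩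
  · rcases mem_insert.1 he with rfl | he
    exacts [isEdge_mk.2 hab, h.clu.1 e he]
  · rcases hv w hw with rfl | hw
    · exact ((h.clu.conn ha).mono (subset_insert _ _)).tail (mem_insert_self _ _)
    · exact (h.clu.conn hw).mono (subset_insert _ _)
  · have : verts x (insert s(a, b) E) ⊆ insert b (verts x E) := fun w hw => mem_insert.2 (hv w hw)
    exact (card_le_card this).trans ((card_insert_le _ _).trans (Nat.succ_le_succ h.card))
  · rcases hv w hw with rfl | hw
    exacts [⟨h1, h2⟩, h.lev w hw]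
  · rcases mem_insert.1 he with rfl | he
    · rcases h3 with h3 | h3
      exacts [⟨a, by simp, h3⟩, ⟨b, by simp, h3⟩]
    · exact h.off e he

/-- The lateral distance. -/
def ds (u v : Tr D) : ℕ := ∑ k, (v k - u k).natAbs

lemma ds_update (u v : Tr D) (k : Fin D) (c : ℤ) :
    ds u (Function.update v k c) + (v k - u k).natAbs = ds u v + (c - u k).natAbs := by
  unfold ds
  rw [← add_sum_erase _ _ (mem_univ k), ← add_sum_erase _ (fun k => (v k - u k).natAbs) (mem_univ k)]
  have : ∑ j ∈ univ.erase k, (Function.update v k c j - u j).natAbs =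
      ∑ j ∈ univ.erase k, (v j - u j).natAbs :=
    sum_congr rfl fun j hj => by rw [Function.update_of_ne (ne_of_mem_erase hj)]
  rw [this, Function.update_self]
  ring

lemma adj_update (t : ℤ) (v : Tr D) (k : Fin D) (c : ℤ) (hc : |c - v k| = 1) :
    Adj ((t, Function.update v k c) : Site D) (t, v) := by
  unfold Adj
  rw [← add_sum_erase _ _ (mem_univ k), sum_eq_zero]
  · simpa using hc
  · intro j hj
    simp [Function.update_of_ne (ne_of_mem_erase hj)]

lemma Sm.path (h : Sm x E n lo hi) {t : ℤ} {u : Tr D} (hu : (t, u) ∈ verts x E) :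
    ∀ (m : ℕ) (v : Tr D), ds u v = m →
      ∃ E', E ⊆ E' ∧ Sm x E' (n + m) lo hi ∧ (t, v) ∈ verts x E' := by
  intro m
  induction m with
  | zero =>
    intro v hv
    have : v = u := by
      funext k
      have := (sum_eq_zero_iff.1 hv) k (mem_univ k)
      omega
    exact ⟨E, subset_rfl, h, this ▸ hu⟩
  | succ m ih =>
    intro v hv
    obtain ⟨k, hk⟩ : ∃ k, v k ≠ u k := by
      by_contra hc
      push Not at hc
      have : ds u v = 0 := sum_eq_zero fun k _ => by rw [hc k]; simp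
      omega
    obtain ⟨c, hc1, hc2⟩ : ∃ c : ℤ, |c - v k| = 1 ∧ (c - u k).natAbs + 1 = (v k - u k).natAbs := by
      rcases lt_or_gt_of_ne hk with h1 | h1
      · exact ⟨v k + 1, by simp, by omega⟩
      · exact ⟨v k - 1, by simp, by omega⟩
    have h2 := ds_update u v k c
    obtain ⟨E', hE, hs, hv'⟩ := ih (Function.update v k c) (by omega)
    have hl := h.lev _ hu
    refine ⟨_, hE.trans (subset_insert _ _), hs.add hv' (adj_update t v k c hc1) hl.1 hl.2 ?_,
      right_mem_verts (mem_insert_self _ _)⟩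
    by_contra hz
    push Not at hz
    have a1 := congrFun hz.1 k
    have a2 := congrFun hz.2 k
    simp only [Function.update_self, Pi.zero_apply] at a1 a2
    rw [a1, a2] at hc1
    simp at hc1

lemma ds_le {u v : Tr D} (h : ‖v - u‖ ≤ 2) : ds u v ≤ 2 * D := by
  have : ∀ k, (v k - u k).natAbs ≤ 2 := by
    intro k
    have h1 := (norm_le_pi_norm (v - u) k).trans h
    rw [Pi.sub_apply, Int.norm_eq_abs] at h1
    have h2 : |v k - u k| ≤ 2 := by exact_mod_cast h1
    have := abs_le.1 h2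
    omega
  refine (sum_le_card_nsmul _ _ 2 fun k _ => this k).trans ?_
  simp [mul_comm]

lemma ds_symm (u v : Tr D) : ds u v = ds v u :=
  sum_congr rfl fun k _ => by omega

lemma ds_self (u : Tr D) : ds u u = 0 := by simp [ds]

lemma sb_pos {M : Model D} (hM : M.CW) {J : ℝ} (hJ : 0 ≤ J) {A : ℕ} {y : Site D} {i o : Bool}
    (h : Sm x E A x.1 y.1) (hy : y ∈ verts x E)
    (hc : ∀ t, x.1 ≤ t → t < y.1 → 2 ≤ (cross E t).card)
    (hi : 0 < M.inF J i x) (ho : 0 < M.outF J o y) :
    0 < M.SB J A (fun _ => 1) i x o y := by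
  set γ : Piece D := ⟨i, x, E, o, y⟩ with hγ
  have hv : γ.Valid A := by
    refine ⟨h.clu, hy, (h.lev y hy).1, fun t h1 h2 hn => ?_, fun _ => ⟨fun v hv => (h.lev v hv).1,
      fun s hs => ?_⟩, fun _ v hv => (h.lev v hv).2⟩
    · have := hc t h1 h2
      have h3 : (cross E t).card = 1 := hn.1
      omega
    · have h1 : slab γ.vs (γ.x.1 - 1) s ≤ A := (card_filter_le _ _).trans h.card
      have h2 : (slab γ.vs (γ.x.1 - 1) s : ℤ) ≤ A := by exact_mod_cast h1
      have h3 : (1 : ℤ) ≤ s - (γ.x.1 - 1) := by omega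
      nlinarith [Int.natCast_nonneg A]
  have hch : Ch A i x o y [γ] :=
    ⟨⟨by simpa using hv, List.isChain_singleton _⟩, ⟨γ, rfl, rfl, rfl⟩, γ, rfl, rfl, rfl⟩
  refine lt_of_lt_of_le ?_ (ENNReal.le_tsum [γ])
  rw [if_pos hch, ENNReal.ofReal_pos]
  unfold Model.Bl
  rw [Bk_eq]
  simp only [List.map_cons, List.map_nil, List.prod_cons, List.prod_nil, mul_one,
    List.length_singleton, range_one, sum_singleton, if_true, sub_zero]
  refine mul_pos (mul_pos (mul_pos hi (prod_pos fun e he => ?_)) ho)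
    (hM.psi_pos hJ (Set.subset_univ _))
  obtain ⟨w, hw, hw0⟩ := h.off e he
  rw [rr_off hw hw0]
  have := Real.add_one_lt_exp hM.beta_pos.ne'
  linarith [hM.beta_pos]

lemma rr_fwd_pos {M : Model D} (hM : M.CW) {J : ℝ} {x : Site D} (h : 0 < J ∨ x.2 ≠ 0) :
    0 < rr M.β J (fwd x) := by
  rw [rr_fwd]
  split_ifs with h0
  · have h1 : 0 < M.β * J := mul_pos hM.beta_pos (h.resolve_right fun h => h h0)
    have := Real.add_one_lt_exp h1.ne'
    linarith
  · have := Real.add_one_lt_exp hM.beta_pos.ne'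
    linarith [hM.beta_pos]

lemma inF_pos {M : Model D} (hM : M.CW) {J : ℝ} {x : Site D} (h : 0 < J ∨ x.2 ≠ 0) :
    0 < M.inF J true x := by
  unfold Model.inF
  rw [if_pos rfl]
  exact Real.sqrt_pos.2 (rr_fwd_pos hM (by simpa using h))

lemma outF_pos {M : Model D} (hM : M.CW) {J : ℝ} {x : Site D} (h : 0 < J ∨ x.2 ≠ 0) :
    0 < M.outF J true x := by
  unfold Model.outF
  rw [if_pos rfl]
  exact Real.sqrt_pos.2 (rr_fwd_pos hM h)

lemma flat (u v : Tr D) : ∃ E, Sm ((0, u) : Site D) E (1 + ds u v) 0 0 ∧ (0, v) ∈ verts (0, u) E := by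
  obtain ⟨E, -, h1, h2⟩ := (Sm.empty (x := ((0, u) : Site D)) (lo := 0) (hi := 0) le_rfl le_rfl).path
    (root_mem_verts _ _) _ v rfl
  exact ⟨E, h1, h2⟩

lemma two (hD : 1 ≤ D) (u v : Tr D) : ∃ E, Sm ((0, u) : Site D) E (7 + ds u v) 0 1 ∧
    (1, v) ∈ verts (0, u) E ∧ 2 ≤ (cross E 0).card := by
  set k : Fin D := ⟨0, hD⟩
  obtain ⟨c, c', h1, h2, h3, h4, h5⟩ : ∃ c c' : ℤ, c ≠ 0 ∧ c' ≠ 0 ∧ c ≠ c' ∧
      (c - u k).natAbs = 1 ∧ (c' - u k).natAbs = 2 := by
    rcases le_total 0 (u k) with h | h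
    · exact ⟨u k + 1, u k + 2, by omega, by omega, by omega, by omega, by omega⟩
    · exact ⟨u k - 1, u k - 2, by omega, by omega, by omega, by omega, by omega⟩
  set a := Function.update u k c with ha
  set b := Function.update u k c' with hb
  have ha0 : a ≠ 0 := fun h => h1 (by simpa [ha] using congrFun h k)
  have hb0 : b ≠ 0 := fun h => h2 (by simpa [hb] using congrFun h k)
  have hab : a ≠ b := fun h => h3 (by simpa [ha, hb] using congrFun h k)
  have da : ds u a = 1 := by
    have := ds_update u u k c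
    rw [ds_self, ← ha, h4, sub_self] at this
    simpa using this
  have db : ds u b = 2 := by
    have := ds_update u u k c'
    rw [ds_self, ← hb, h5, sub_self] at this
    simpa using this
  have dv : ds a v ≤ ds u v + 1 := by
    have := ds_update v u k c
    rw [ds_symm a v, ds_symm u v]
    rw [← ha] at this
    have h6 : (c - v k).natAbs ≤ (u k - v k).natAbs + 1 := by
      clear this
      generalize u k = p at *
      generalize v k = q at *
      omega
    omega
  obtain ⟨E1, -, s1, m1⟩ := (Sm.empty (x := ((0, u) : Site D)) (lo := 0) (hi := 1) le_rfl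
    zero_le_one).path (root_mem_verts _ _) _ a da
  obtain ⟨E2, i2, s2, m2⟩ := s1.path (root_mem_verts _ _) _ b db
  have s3 := s2.add m2 (adj_e1 _) (by simp) (by simp) (Or.inl hb0)
  have s4 := s3.add (verts_mono (i2.trans (subset_insert _ _)) m1) (adj_e1 _) (by simp) (by simp)
    (Or.inl ha0)
  have m4 : ((1 : ℤ), a) ∈ verts (0, u) (insert s((0, a), (0, a) + e1)
      (insert s((0, b), (0, b) + e1) E2)) := by
    have : ((1 : ℤ), a) = (0, a) + e1 := by simp [e1]
    rw [this]
    exact right_mem_verts (mem_insert_self _ _)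
  obtain ⟨E5, i5, s5, m5⟩ := s4.path m4 _ v rfl
  refine ⟨E5, s5.mono (by omega), m5, ?_⟩
  refine one_lt_card.2 ⟨fwd (0, a), mem_cross.2 ⟨i5 (mem_insert_self _ _), _, rfl, rfl⟩,
    fwd (0, b), mem_cross.2 ⟨i5 (mem_insert_of_mem (mem_insert_self _ _)), _, rfl, rfl⟩, ?_⟩
  rw [Ne, fwd_inj]
  exact fun h => hab (congrArg Prod.snd h)

end RN

open RN in
theorem r3cStmt : R3cStmt := by
  intro D M hD hM
  refine ⟨2 * D + 7, fun A hA => ⟨fun s u v => ⟨?_, ?_⟩, fun J hJ => ⟨fun u v h1 h2 => ⟨?_, ?_⟩,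
    ?_, ?_, ?_⟩⟩⟩
  · have := ((sy_lat (-u)).eq hM zero_le_one A (τ := fun _ => 1) (fun _ => rfl) true true
      (0, u) (s, v)).2
    simpa [sub_eq_add_neg] using this.symm
  · have := ((sy_neg (D := D)).eq hM zero_le_one A (τ := fun _ => 1) (fun _ => rfl) true true
      (0, 0) (s, v)).2
    simpa [negE_apply] using this
  · obtain ⟨E, s1, m1⟩ := flat u v
    have := ds_le h2
    exact sb_pos hM hJ (s1.mono (by omega)) m1 (fun t h3 h4 => absurd h4 (not_lt.2 h3))
      (inF_pos hM (h1.imp_right And.left)) (outF_pos hM (h1.imp_right And.right))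
  · obtain ⟨E, s1, m1, c1⟩ := two hD u v
    have := ds_le h2
    refine sb_pos hM hJ (s1.mono (by omega)) m1 (fun t h3 h4 => ?_)
      (inF_pos hM (h1.imp_right And.left)) (outF_pos hM (h1.imp_right And.right))
    obtain rfl : t = 0 := by
      change 0 ≤ t at h3
      change t < 1 at h4
      omega
    exact c1
  · obtain ⟨E, s1, m1⟩ := flat (0 : Tr D) (u0 D)
    have h0 : u0 D ≠ 0 := fun h => by simpa [u0] using congrFun h ⟨0, hD⟩
    have : ds 0 (u0 D) = D := by simp [ds, u0]
    refine sb_pos (x := (0, 0)) hM hJ (s1.mono (by omega)) m1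
      (fun t h3 h4 => absurd h4 (not_lt.2 h3)) ?_ (outF_pos hM (Or.inr h0))
    simpa [Model.inF] using hM.q_pos
  · obtain ⟨E, s1, m1⟩ := flat (u0 D) (0 : Tr D)
    have h0 : u0 D ≠ 0 := fun h => by simpa [u0] using congrFun h ⟨0, hD⟩
    have : ds (u0 D) 0 = D := by simp [ds, u0]
    refine sb_pos (y := (0, 0)) hM hJ (s1.mono (by omega)) m1
      (fun t h3 h4 => absurd h4 (not_lt.2 h3)) (inF_pos hM (Or.inr h0)) ?_
    simp [Model.outF]
  · rintro rfl s u v huv
    refine ENNReal.tsum_eq_zero.2 fun l => ?_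
    split_ifs with h
    · obtain ⟨-, ⟨a, ha, ha1, ha2⟩, b, hb, hb1, hb2⟩ := h
      have : (l.map fun γ => M.theta 0 γ * 1).prod = 0 := by
        refine List.prod_eq_zero (List.mem_map.2 ?_)
        rcases huv with rfl | rfl
        · refine ⟨a, List.mem_of_mem_head? (by rw [ha]; rfl), ?_⟩
          unfold Model.theta Model.inF
          rw [if_pos ha1, ha2, rr_fwd]
          simp
        · refine ⟨b, List.mem_of_mem_getLast? (by rw [hb]; rfl), ?_⟩
          unfold Model.theta Model.outF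
          rw [if_pos hb1, hb2, rr_fwd]
          simp
      unfold Model.Bl
      rw [this, zero_mul, ENNReal.ofReal_zero]
    · rfl

end

end Pool.Agent.MP_48a2f9_mp.OZ

end MrgPart3

-- marker of a merged file
example : 731051 + 600925 = 731051 + 600925 := rfl
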