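import Mathlib.Topology.Sheaves.Presheaf
import Mathlib.Tactic.ENatToNat
import Mathlib.Tactic.Monotonicity.Lemmas
import Mathlib.Data.Int.Star
import Mathlib.Algebra.Order.Ring.Star
import Mathlib.Algebra.Order.Star.Real
import Mathlib.RingTheory.PiTensorProduct
import Mathlib.RingTheory.PowerSeries.WellKnown
import Mathlib.RingTheory.WittVector.IsPoly
import Mathlib.Tactic.Polynomial.Basic
import Mathlib.Tactic.ReduceModChar
import Pool.Agent.MP_48a2f9_mp.SpecA

-- ======== part 0: formerly Pool.Agent.MP_48a2f9_mp.Ren1A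
section MrgPart0

/-!
Convolution of real sequences, Toeplitz limits, Abel summation, bootstrap lemmas.
-/

open Finset Filter Topology

namespace Pool.Agent.MP_48a2f9_mp.Ren1

noncomputable section

/-- Convolution. -/
def cv (a b : ℕ → ℝ) (n : ℕ) : ℝ := ∑ j ∈ range (n + 1), a j * b (n - j)

/-- Running sums. -/
def ps (a : ℕ → ℝ) (n : ℕ) : ℝ := ∑ j ∈ range (n + 1), a j

lemma cv_eq_anti (a b : ℕ → ℝ) (n : ℕ) : cv a b n = ∑ p ∈ antidiagonal n, a p.1 * b p.2 := by
  rw [cv, Finset.Nat.sum_antidiagonal_eq_sum_range_succ (fun i j => a i * b j)]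

lemma mk_cv (a b : ℕ → ℝ) :
    PowerSeries.mk (cv a b) = PowerSeries.mk a * PowerSeries.mk b := by
  ext n
  rw [PowerSeries.coeff_mul, PowerSeries.coeff_mk, cv_eq_anti]
  simp

lemma mk_inj {a b : ℕ → ℝ} (h : PowerSeries.mk a = PowerSeries.mk b) : a = b := by
  funext n
  have := congrArg (PowerSeries.coeff n) h
  simpa using this

lemma cv_comm (a b : ℕ → ℝ) : cv a b = cv b a := by
  apply mk_inj; rw [mk_cv, mk_cv, mul_comm]

lemma cv_assoc (a b c : ℕ → ℝ) : cv (cv a b) c = cv a (cv b c) := by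
  apply mk_inj; simp only [mk_cv, mul_assoc]

lemma cv_one (a : ℕ → ℝ) : cv a (fun _ => 1) = ps a := by
  funext n; simp [cv, ps]

lemma mk_ps (a : ℕ → ℝ) :
    PowerSeries.mk (ps a) = PowerSeries.mk a * PowerSeries.mk (fun _ => (1 : ℝ)) := by
  rw [← cv_one, mk_cv]

lemma ones_mul : (PowerSeries.mk (fun _ => (1 : ℝ))) * (1 - PowerSeries.X) = 1 :=
  PowerSeries.mk_one_mul_one_sub_eq_one ℝ

lemma ps_zero (a : ℕ → ℝ) : ps a 0 = a 0 := by simp [ps]

lemma ps_succ (a : ℕ → ℝ) (n : ℕ) : ps a (n + 1) = ps a n + a (n + 1) := by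
  simp only [ps]; rw [sum_range_succ]

lemma cv_sub_smul (a b b' : ℕ → ℝ) (t : ℝ) (n : ℕ) :
    cv a (fun i => b i - t * b' i) n = cv a b n - t * cv a b' n := by
  simp only [cv, mul_sum, ← sum_sub_distrib]
  exact sum_congr rfl fun j _ => by ring

lemma ps_sub_smul (b b' : ℕ → ℝ) (t : ℝ) (n : ℕ) :
    ps (fun i => b i - t * b' i) n = ps b n - t * ps b' n := by
  simp only [ps, mul_sum, ← sum_sub_distrib]

lemma ps_rev (a : ℕ → ℝ) (n : ℕ) : ∑ j ∈ range (n + 1), a (n - j) = ps a n := by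
  have := congrFun (cv_comm (fun _ => 1) a) n
  rw [cv_one] at this
  simpa [cv] using this

/-- The Euler operator `n x_n`. -/
def Dd (x : PowerSeries ℝ) : PowerSeries ℝ :=
  PowerSeries.mk fun n => (n : ℝ) * PowerSeries.coeff n x

lemma Dd_mk (a : ℕ → ℝ) : Dd (PowerSeries.mk a) = PowerSeries.mk fun n => (n : ℝ) * a n := by
  ext n; simp [Dd]

lemma Dd_mul (x y : PowerSeries ℝ) : Dd (x * y) = Dd x * y + x * Dd y := by
  ext n
  simp only [Dd, PowerSeries.coeff_mk, map_add, PowerSeries.coeff_mul, mul_sum,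
    ← sum_add_distrib]
  refine sum_congr rfl fun p hp => ?_
  have : (n : ℝ) = p.1 + p.2 := by
    rw [← mem_antidiagonal.1 hp]; push_cast; ring
  rw [this]; ring

lemma Dd_one : Dd 1 = 0 := by
  ext n
  simp only [Dd, PowerSeries.coeff_mk, PowerSeries.coeff_one, map_zero]
  split_ifs with h
  · simp [h]
  · simp

lemma Dd_sub (x y : PowerSeries ℝ) : Dd (x - y) = Dd x - Dd y := by
  ext n; simp [Dd, mul_sub]

/-! ### Abel summation -/

lemma abel (g τ : ℕ → ℝ) (n m : ℕ) (hm : m ≤ n) :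
    cv g τ n = ∑ j ∈ range m, g j * τ (n - j) + g m * ps τ (n - m) +
      ∑ j ∈ Ico m n, (g (j + 1) - g j) * ps τ (n - (j + 1)) := by
  obtain ⟨k, hk⟩ := Nat.exists_eq_add_of_le hm
  induction k generalizing m with
  | zero =>
    simp only [add_zero] at hk
    subst hk
    simp [cv, sum_range_succ, ps_zero]
  | succ k ih =>
    rw [ih (m + 1) (by omega) (by omega), sum_range_succ,
      sum_eq_sum_Ico_succ_bot (show m < n by omega)]
    have e1 : n - m = (n - (m + 1)) + 1 := by omega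
    rw [e1, ps_succ]
    ring

/-! ### Toeplitz -/

lemma toeplitz {a : ℕ → ℕ → ℝ} {ε : ℕ → ℝ} (K : ℝ) (ha0 : ∀ n j, 0 ≤ a n j)
    (hK : ∀ n, ∑ j ∈ range (n + 1), a n j ≤ K)
    (hj : ∀ j, Tendsto (fun n => a n j) atTop (𝓝 0)) (hε : Tendsto ε atTop (𝓝 0)) :
    Tendsto (fun n => ∑ j ∈ range (n + 1), a n j * |ε j|) atTop (𝓝 0) := by
  have hK0 : 0 ≤ K := le_trans (sum_nonneg fun j _ => ha0 0 j) (hK 0)
  rw [Metric.tendsto_atTop]
  intro δ hδ
  obtain ⟨N, hN⟩ := Metric.tendsto_atTop.1 hε (δ / (2 * (K + 1))) (by positivity)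
  have h1 : Tendsto (fun n => ∑ j ∈ range N, a n j * |ε j|) atTop (𝓝 0) := by
    have := tendsto_finsetSum (range N) fun j _ => (hj j).mul_const |ε j|
    simpa using this
  obtain ⟨N1, hN1⟩ := Metric.tendsto_atTop.1 h1 (δ / 2) (by positivity)
  refine ⟨N1, fun n hn => ?_⟩
  have h2 := hN1 n hn
  rw [Real.dist_eq, sub_zero] at h2 ⊢
  have h3 : ∑ j ∈ range (n + 1), a n j * |ε j| ≤
      ∑ j ∈ range N, a n j * |ε j| + δ / (2 * (K + 1)) * K := by
    calc ∑ j ∈ range (n + 1), a n j * |ε j|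
        ≤ ∑ j ∈ range (n + 1), ((if j ∈ range N then a n j * |ε j| else 0) +
            δ / (2 * (K + 1)) * a n j) := by
          refine sum_le_sum fun j _ => ?_
          split_ifs with h
          · have := ha0 n j
            have : 0 ≤ δ / (2 * (K + 1)) * a n j := by positivity
            linarith
          · have h4 := hN j (by simpa using h)
            rw [Real.dist_eq, sub_zero] at h4
            have := mul_le_mul_of_nonneg_left h4.le (ha0 n j)
            linarith
      _ ≤ _ := by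
          rw [sum_add_distrib, ← mul_sum, ← sum_filter]
          refine add_le_add ?_ (mul_le_mul_of_nonneg_left (hK n) (by positivity))
          refine sum_le_sum_of_subset_of_nonneg (fun j hj => (mem_filter.1 hj).2) ?_
          intro j _ _
          exact mul_nonneg (ha0 n j) (abs_nonneg _)
  have h5 : δ / (2 * (K + 1)) * K < δ / 2 := by
    rw [div_mul_eq_mul_div, div_lt_div_iff₀ (by positivity) (by positivity)]
    nlinarith
  rw [abs_of_nonneg (sum_nonneg fun j _ => mul_nonneg (ha0 n j) (abs_nonneg _))]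
  have := le_abs_self (∑ j ∈ range N, a n j * |ε j|)
  linarith

lemma tendsto_zero_of_abs_le {x y : ℕ → ℝ} (hy : Tendsto y atTop (𝓝 0))
    (h : ∀ n, |x n| ≤ y n) : Tendsto x atTop (𝓝 0) :=
  squeeze_zero_norm (fun n => by simpa using h n) hy

lemma cesaro_abs {ε : ℕ → ℝ} (hε : Tendsto ε atTop (𝓝 0)) :
    Tendsto (fun n : ℕ => ps (fun i => |ε i|) n / ((n : ℝ) + 1)) atTop (𝓝 0) := by
  have := toeplitz (a := fun n _ => 1 / ((n : ℝ) + 1)) (ε := ε) 1
    (fun n j => by positivity)
    (fun n => by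
      simp only [sum_const, card_range, nsmul_eq_mul]
      push_cast
      rw [mul_one_div_cancel (by positivity)])
    (fun j => tendsto_one_div_add_atTop_nhds_zero_nat) hε
  refine this.congr fun n => ?_
  simp only [ps, sum_div]
  exact sum_congr rfl fun j _ => by ring

/-! ### Bootstrap -/

lemma bdd_of_boot {x : ℕ → ℝ} (A : ℝ)
    (h : ∀ᶠ n in atTop, ∀ M, 0 ≤ M → (∀ i ≤ n, x i ≤ M) → x n ≤ A + M / 2) :
    ∃ B, 0 ≤ B ∧ ∀ n, x n ≤ B := by
  obtain ⟨N, hN⟩ := eventually_atTop.1 h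
  refine ⟨2 * |A| + ∑ i ∈ range N, |x i|, by positivity, fun n => ?_⟩
  induction n using Nat.strong_induction_on with
  | _ n ih =>
    have hs : 0 ≤ ∑ i ∈ range N, |x i| := by positivity
    by_cases hn : n < N
    · have : |x n| ≤ ∑ i ∈ range N, |x i| :=
        single_le_sum (f := fun i => |x i|) (fun i _ => abs_nonneg _) (mem_range.2 hn)
      have := le_abs_self (x n)
      have := abs_nonneg A
      linarith
    · by_contra hc
      push Not at hc hn
      have hA := abs_nonneg A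
      have := hN n hn (x n) (by linarith) (fun i hi => by
        rcases hi.lt_or_eq with h1 | h1
        · exact (ih i h1).trans hc.le
        · rw [h1])
      have := le_abs_self A
      linarith

lemma exists_abs_bound {p : ℕ → ℝ} {l : ℝ} (hp : Tendsto p atTop (𝓝 l)) :
    ∃ P, 0 < P ∧ ∀ n, |p n| ≤ P := by
  obtain ⟨P, hP⟩ := (hp.abs).bddAbove_range
  refine ⟨|P| + 1, by positivity, fun n => ?_⟩
  have := hP ⟨n, rfl⟩
  have := le_abs_self P
  simp only at *
  linarith

lemma boot_lim {x p : ℕ → ℝ} {l : ℝ} (hp : Tendsto p atTop (𝓝 l))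
    (h : ∀ ε > 0, ∀ᶠ n in atTop, ∀ M, 0 ≤ M → (∀ i ≤ n, x i ≤ M) →
      |x n - p n| ≤ ε * (1 + M)) : Tendsto x atTop (𝓝 l) := by
  obtain ⟨P, -, hP⟩ := exists_abs_bound hp
  obtain ⟨B, hB0, hB⟩ := bdd_of_boot (x := x) (P + 1 / 2) (by
    filter_upwards [h (1 / 2) (by norm_num)] with n hn M hM hx
    have h1 := (abs_le.1 (hn M hM hx)).2
    have h2 := (abs_le.1 (hP n)).2
    linarith)
  have h0 : Tendsto (fun n => x n - p n) atTop (𝓝 0) := by
    rw [Metric.tendsto_nhds]
    intro δ hδ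
    filter_upwards [h (δ / (2 * (1 + B))) (by positivity)] with n hn
    have h1 := hn B hB0 fun i _ => hB i
    rw [Real.dist_eq, sub_zero]
    have : δ / (2 * (1 + B)) * (1 + B) = δ / 2 := by field_simp
    linarith
  simpa using h0.add hp

lemma exists_pos_lb {x : ℕ → ℝ} {l : ℝ} (hx : ∀ n, 0 < x n) (h : Tendsto x atTop (𝓝 l))
    (hl : 0 < l) : ∃ c, 0 < c ∧ ∀ n, c ≤ x n := by
  obtain ⟨P, hP0, hP⟩ := exists_abs_bound (h.inv₀ hl.ne')
  refine ⟨P⁻¹, by positivity, fun n => ?_⟩
  have h1 := (abs_le.1 (hP n)).2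
  exact (inv_le_comm₀ hP0 (hx n)).2 h1

end

end Pool.Agent.MP_48a2f9_mp.Ren1

end MrgPart0

-- ======== part 1: formerly Pool.Agent.MP_48a2f9_mp.Ren1B
section MrgPart1

/-!
The scale `sqrt (n+1)` and the central binomial sequence.
-/

open Finset Filter Topology

namespace Pool.Agent.MP_48a2f9_mp.Ren1

noncomputable section

/-- `sqrt (n+1)`. -/
def rt (n : ℕ) : ℝ := Real.sqrt ((n : ℝ) + 1)

lemma rt_sq (n : ℕ) : rt n ^ 2 = (n : ℝ) + 1 := Real.sq_sqrt (by positivity)

lemma rt_pos (n : ℕ) : 0 < rt n := Real.sqrt_pos.2 (by positivity)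

lemma one_le_rt (n : ℕ) : 1 ≤ rt n := by
  rw [rt, Real.one_le_sqrt]; have : (0 : ℝ) ≤ n := by positivity
  linarith

lemma rt_le_mul {n m : ℕ} {L : ℝ} (hL : 0 ≤ L) (h : (n : ℝ) + 1 ≤ L ^ 2 * ((m : ℝ) + 1)) :
    rt n ≤ L * rt m := by
  have h1 := rt_pos m
  refine (pow_le_pow_iff_left₀ (rt_pos n).le (by positivity) two_ne_zero).1 ?_
  rw [mul_pow, rt_sq, rt_sq]; exact h

lemma rt_mono {n m : ℕ} (h : n ≤ m) : rt n ≤ rt m := by
  have := rt_le_mul (n := n) (m := m) zero_le_one (by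
    have : (n : ℝ) ≤ m := by exact_mod_cast h
    linarith)
  simpa using this

lemma rt_atTop : Tendsto rt atTop atTop :=
  Real.tendsto_sqrt_atTop.comp (tendsto_atTop_add_const_right _ _ tendsto_natCast_atTop_atTop)

lemma inv_rt_zero : Tendsto (fun n => (rt n)⁻¹) atTop (𝓝 0) := rt_atTop.inv_tendsto_atTop

lemma ratio_nat : Tendsto (fun n : ℕ => (n : ℝ) / ((n : ℝ) + 1)) atTop (𝓝 1) :=
  tendsto_natCast_div_add_atTop 1

lemma ratio_nat' (t : ℝ) : Tendsto (fun n : ℕ => ((n : ℝ) + t) / (n : ℝ)) atTop (𝓝 1) := by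
  have h : Tendsto (fun n : ℕ => 1 + t / (n : ℝ)) atTop (𝓝 (1 + 0)) :=
    tendsto_const_nhds.add (tendsto_const_div_atTop_nhds_zero_nat t)
  rw [add_zero] at h
  refine h.congr' ?_
  filter_upwards [eventually_gt_atTop 0] with n hn
  have : (n : ℝ) ≠ 0 := by positivity
  field_simp

lemma rt_ratio : Tendsto (fun n => rt n / rt (n + 1)) atTop (𝓝 1) := by
  have h := (ratio_nat.comp (tendsto_add_atTop_nat 1)).sqrt
  rw [Real.sqrt_one] at h
  refine h.congr fun n => ?_
  simp only [Function.comp, rt]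
  rw [Real.sqrt_div (by positivity)]
  push_cast; rfl

lemma sum_inv_rt (m : ℕ) : ∑ j ∈ range m, (rt j)⁻¹ ≤ 2 * Real.sqrt m := by
  induction m with
  | zero => simp
  | succ m ih =>
    rw [sum_range_succ]
    have e : Real.sqrt ((m + 1 : ℕ) : ℝ) = rt m := by simp [rt]
    rw [e]
    have h1 := rt_pos m
    have h2 := rt_sq m
    have h3 : Real.sqrt m ^ 2 = m := Real.sq_sqrt (by positivity)
    have h4 := Real.sqrt_nonneg (m : ℝ)
    have : (rt m)⁻¹ ≤ 2 * (rt m - Real.sqrt m) := by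
      rw [inv_eq_one_div, div_le_iff₀ h1]
      nlinarith [sq_nonneg (rt m - Real.sqrt m)]
    linarith

lemma sum_inv_rt' (n : ℕ) : ∑ j ∈ range (n + 1), (rt j)⁻¹ ≤ 2 * rt n := by
  have := sum_inv_rt (n + 1)
  simpa [rt] using this

/-- The central binomial sequence. -/
def hh : ℕ → ℝ
  | 0 => 1
  | n + 1 => hh n * (2 * n + 1) / (2 * n + 2)

lemma hh_succ (n : ℕ) : hh (n + 1) = hh n * (2 * n + 1) / (2 * n + 2) := rfl

lemma hh_pos (n : ℕ) : 0 < hh n := by
  induction n with
  | zero => simp [hh]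
  | succ n ih => rw [hh_succ]; positivity

lemma hh_anti : Antitone hh := antitone_nat_of_succ_le fun n => by
  rw [hh_succ, div_le_iff₀ (by positivity)]
  have := hh_pos n
  nlinarith

lemma ps_hh (n : ℕ) : ps hh n = (2 * n + 1) * hh n := by
  induction n with
  | zero => simp [ps_zero]
  | succ n ih => rw [ps_succ, ih, hh_succ]; push_cast; field_simp

lemma cv_hh : cv hh hh = fun _ => 1 := by
  set H := PowerSeries.mk hh with hH
  have h1 : 2 * Dd H = PowerSeries.X * (2 * Dd H + H) := by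
    ext n
    rw [hH, Dd_mk]
    cases n with
    | zero => simp [two_mul]
    | succ n =>
      rw [PowerSeries.coeff_succ_X_mul]
      simp only [two_mul, map_add, PowerSeries.coeff_mk, hh_succ]
      push_cast; field_simp; ring
  have h2 : Dd (H * H) = PowerSeries.X * (Dd (H * H) + H * H) := by
    rw [Dd_mul]; linear_combination H * h1
  rw [← mk_cv, Dd_mk] at h2
  funext n
  induction n with
  | zero => simp [cv, hh]
  | succ n ih =>
    have := congrArg (PowerSeries.coeff (n + 1)) h2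
    rw [PowerSeries.coeff_succ_X_mul] at this
    simp only [map_add, PowerSeries.coeff_mk, ih] at this
    push_cast at this
    have h3 : (n : ℝ) + 1 ≠ 0 := by positivity
    apply mul_left_cancel₀ h3
    linarith

lemma hh_lower (n : ℕ) : 1 ≤ (4 * (n : ℝ) + 1) * hh n ^ 2 := by
  induction n with
  | zero => simp [hh]
  | succ n ih =>
    refine ih.trans ?_
    rw [hh_succ, div_pow, mul_pow, ← mul_div_assoc, le_div_iff₀ (by positivity)]
    push_cast
    nlinarith [sq_nonneg (hh n)]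

lemma rt_hh_ge (n : ℕ) : 1 / 2 ≤ rt n * hh n := by
  have h1 := rt_pos n
  have h2 := hh_pos n
  refine (pow_le_pow_iff_left₀ (by norm_num) (by positivity) two_ne_zero).1 ?_
  rw [mul_pow, rt_sq]
  nlinarith [hh_lower n, sq_nonneg (hh n)]

lemma rt_hh_anti : Antitone fun n => rt n * hh n := antitone_nat_of_succ_le fun n => by
  have h1 := rt_pos n
  have h2 := hh_pos n
  have h3 := rt_pos (n + 1)
  have h4 := hh_pos (n + 1)
  refine (pow_le_pow_iff_left₀ (by positivity) (by positivity) two_ne_zero).1 ?_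
  rw [mul_pow, mul_pow, rt_sq, rt_sq, hh_succ, div_pow, mul_pow, ← mul_div_assoc,
    div_le_iff₀ (by positivity)]
  push_cast
  have : (0 : ℝ) ≤ n := by positivity
  nlinarith [sq_nonneg (hh n), mul_nonneg this (sq_nonneg (hh n))]

lemma hh_le (n : ℕ) : hh n ≤ 1 / rt n := by
  have := rt_hh_anti (Nat.zero_le n)
  simp only [rt, hh, Nat.cast_zero, zero_add, Real.sqrt_one, mul_one] at this
  rw [le_div_iff₀ (rt_pos n), mul_comm]; exact this

lemma inv_rt_le (n : ℕ) : (rt n)⁻¹ ≤ 2 * hh n := by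
  rw [inv_eq_one_div, div_le_iff₀ (rt_pos n)]
  nlinarith [rt_hh_ge n]

/-- The limit of `sqrt (n+1) h_n`. -/
def eta : ℝ := ⨅ n, rt n * hh n

lemma eta_lim : Tendsto (fun n => rt n * hh n) atTop (𝓝 eta) :=
  tendsto_atTop_ciInf rt_hh_anti ⟨1 / 2, by rintro _ ⟨n, rfl⟩; exact rt_hh_ge n⟩

lemma eta_pos : 0 < eta :=
  lt_of_lt_of_le (by norm_num) (ge_of_tendsto' eta_lim rt_hh_ge)

lemma ps_hh_lim : Tendsto (fun n => ps hh n / rt n) atTop (𝓝 (2 * eta)) := by
  have h := ((tendsto_const_nhds (x := (1 : ℝ))).add ratio_nat).mul eta_lim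
  rw [one_add_one_eq_two] at h
  refine h.congr fun n => ?_
  have h1 := rt_pos n
  rw [ps_hh, ← rt_sq n]
  have : (n : ℝ) = rt n ^ 2 - 1 := by rw [rt_sq]; ring
  field_simp
  linear_combination (-hh n) * this

lemma exists_rt_bound {a : ℕ → ℝ} {α : ℝ} (h : Tendsto (fun n => rt n * a n) atTop (𝓝 α)) :
    ∃ B, 0 < B ∧ ∀ n, |a n| ≤ B / rt n := by
  obtain ⟨B, hB0, hB⟩ := exists_abs_bound h
  refine ⟨B, hB0, fun n => ?_⟩
  have := hB n
  rw [abs_mul, abs_of_pos (rt_pos n)] at this
  rw [le_div_iff₀ (rt_pos n)]; linarith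

lemma abs_eq_rt (a : ℝ) (j : ℕ) : |a| = (rt j)⁻¹ * |rt j * a| := by
  rw [abs_mul, abs_of_pos (rt_pos j), ← mul_assoc, inv_mul_cancel₀ (rt_pos j).ne', one_mul]

lemma cv_lim1 {e w : ℕ → ℝ} {W : ℝ} (he : Tendsto (fun n => rt n * e n) atTop (𝓝 0))
    (hw : ∀ n, |w n| ≤ W) : Tendsto (fun n => cv e w n / rt n) atTop (𝓝 0) := by
  have hW : 0 ≤ W := (abs_nonneg _).trans (hw 0)
  have := toeplitz (a := fun n j => W * (rt j)⁻¹ * (rt n)⁻¹) (2 * W)
    (fun n j => by have := rt_pos n; have := rt_pos j; positivity)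
    (fun n => by
      rw [← sum_mul, ← mul_sum]
      have h1 := mul_le_mul_of_nonneg_left (sum_inv_rt' n) hW
      rw [← div_eq_mul_inv, div_le_iff₀ (rt_pos n)]; linarith)
    (fun j => by simpa using inv_rt_zero.const_mul (W * (rt j)⁻¹)) he
  refine tendsto_zero_of_abs_le this fun n => ?_
  rw [abs_div, abs_of_pos (rt_pos n), div_le_iff₀ (rt_pos n), sum_mul]
  refine (abs_sum_le_sum_abs _ _).trans (sum_le_sum fun j _ => ?_)
  rw [abs_mul, abs_eq_rt (e j) j]
  have h1 := rt_pos n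
  have h2 := rt_pos j
  have h3 := mul_le_mul_of_nonneg_left (hw (n - j))
    (show 0 ≤ (rt j)⁻¹ * |rt j * e j| by positivity)
  refine h3.trans (le_of_eq ?_)
  field_simp

lemma cv_lim2 {e b : ℕ → ℝ} {B : ℝ} (he : Tendsto e atTop (𝓝 0))
    (hb : ∀ n, |b n| ≤ B / rt n) : Tendsto (fun n => cv e b n / rt n) atTop (𝓝 0) := by
  have hB : 0 ≤ B := by
    have := (abs_nonneg _).trans (hb 0)
    exact (div_nonneg_iff.1 this).elim (·.1) fun h => absurd h.2 (not_le.2 (rt_pos 0))
  have := toeplitz (a := fun n j => B * (rt (n - j))⁻¹ * (rt n)⁻¹) (2 * B)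
    (fun n j => by have := rt_pos n; have := rt_pos (n - j); positivity)
    (fun n => by
      rw [← sum_mul, ← mul_sum, ps_rev (fun j => (rt j)⁻¹)]
      have h1 := mul_le_mul_of_nonneg_left (sum_inv_rt' n) hB
      rw [← div_eq_mul_inv, div_le_iff₀ (rt_pos n), ps]; linarith)
    (fun j => by
      have h1 := (inv_rt_zero.comp (tendsto_sub_atTop_nat j)).const_mul B
      simpa using h1.mul inv_rt_zero) he
  refine tendsto_zero_of_abs_le this fun n => ?_
  rw [abs_div, abs_of_pos (rt_pos n), div_le_iff₀ (rt_pos n), sum_mul]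
  refine (abs_sum_le_sum_abs _ _).trans (sum_le_sum fun j _ => ?_)
  rw [abs_mul]
  have h1 := rt_pos n
  have h2 := rt_pos (n - j)
  have h3 := mul_le_mul_of_nonneg_left (hb (n - j)) (abs_nonneg (e j))
  refine h3.trans (le_of_eq ?_)
  field_simp

lemma cv_lim3 {e b : ℕ → ℝ} {B : ℝ} (he : Tendsto (fun n => rt n * e n) atTop (𝓝 0))
    (hb : ∀ n, |b n| ≤ B / rt n) : Tendsto (cv e b) atTop (𝓝 0) := by
  have hB : 0 ≤ B := by
    have := (abs_nonneg _).trans (hb 0)
    exact (div_nonneg_iff.1 this).elim (·.1) fun h => absurd h.2 (not_le.2 (rt_pos 0))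
  have := toeplitz (a := fun n j => B * ((rt j)⁻¹ * (rt (n - j))⁻¹)) (4 * B)
    (fun n j => by have := rt_pos j; have := rt_pos (n - j); positivity)
    (fun n => by
      rw [← mul_sum]
      have h1 : ∑ j ∈ range (n + 1), (rt j)⁻¹ * (rt (n - j))⁻¹ ≤ 4 := by
        have h2 : cv hh hh n = 1 := congrFun cv_hh n
        calc _ ≤ ∑ j ∈ range (n + 1), 4 * (hh j * hh (n - j)) := by
              refine sum_le_sum fun j _ => ?_
              have := mul_le_mul (inv_rt_le j) (inv_rt_le (n - j))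
                (inv_nonneg.2 (rt_pos _).le) (by have := hh_pos j; positivity)
              linarith
          _ = 4 := by rw [← mul_sum, ← cv, h2, mul_one]
      have := mul_le_mul_of_nonneg_left h1 hB
      linarith)
    (fun j => by
      have h1 := ((inv_rt_zero.comp (tendsto_sub_atTop_nat j)).const_mul (rt j)⁻¹).const_mul B
      simpa using h1) he
  refine tendsto_zero_of_abs_le this fun n => ?_
  refine (abs_sum_le_sum_abs _ _).trans (sum_le_sum fun j _ => ?_)
  rw [abs_mul, abs_eq_rt (e j) j]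
  have h2 := rt_pos j
  have h1 := rt_pos (n - j)
  have h3 := mul_le_mul_of_nonneg_left (hb (n - j))
    (show 0 ≤ (rt j)⁻¹ * |rt j * e j| by positivity)
  refine h3.trans (le_of_eq ?_)
  field_simp

lemma sub_hh_lim {a : ℕ → ℝ} {α : ℝ} (h : Tendsto (fun n => rt n * a n) atTop (𝓝 α)) :
    Tendsto (fun n => rt n * (a n - α / eta * hh n)) atTop (𝓝 0) := by
  have h1 := h.sub (eta_lim.const_mul (α / eta))
  rw [div_mul_cancel₀ _ eta_pos.ne', sub_self] at h1
  exact h1.congr fun n => by ring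

lemma abs_hh_le (n : ℕ) : |hh n| ≤ 1 / rt n := by
  rw [abs_of_pos (hh_pos n)]; exact hh_le n

lemma cv_hh_lim {a : ℕ → ℝ} {α : ℝ} (h : Tendsto (fun n => rt n * a n) atTop (𝓝 α)) :
    Tendsto (cv hh a) atTop (𝓝 (α / eta)) := by
  have h1 := cv_lim3 (sub_hh_lim h) abs_hh_le
  rw [cv_comm] at h1
  have h2 := h1.add_const (α / eta)
  rw [zero_add] at h2
  refine h2.congr fun n => ?_
  rw [cv_sub_smul, cv_hh]; ring

lemma ps_lim {a : ℕ → ℝ} {α : ℝ} (h : Tendsto (fun n => rt n * a n) atTop (𝓝 α)) :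
    Tendsto (fun n => ps a n / rt n) atTop (𝓝 (2 * α)) := by
  have h1 := cv_lim1 (w := fun _ => 1) (W := 1) (sub_hh_lim h) (fun _ => by simp)
  rw [cv_one] at h1
  have h2 := h1.add (ps_hh_lim.const_mul (α / eta))
  have e : 0 + α / eta * (2 * eta) = 2 * α := by have := eta_pos; field_simp; ring
  rw [e] at h2
  refine h2.congr fun n => ?_
  rw [ps_sub_smul]; ring

/-- Running sums of the convolution inverse. -/
lemma ps_inv_lim {a b : ℕ → ℝ} {α B : ℝ} (hab : cv a b = fun _ => 1) (hα : 0 < α)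
    (h : Tendsto (fun n => rt n * a n) atTop (𝓝 α)) (hb : ∀ n, |b n| ≤ B / rt n) :
    Tendsto (fun n => ps (fun i => b i - eta / α * hh i) n / rt n) atTop (𝓝 0) := by
  have h1 := (cv_hh_lim h).sub_const (α / eta)
  rw [sub_self] at h1
  have h2 := (cv_lim2 h1 hb).const_mul (-(eta / α))
  rw [mul_zero] at h2
  refine h2.congr fun n => ?_
  have e : cv (fun k => cv hh a k - α / eta) b n = ps hh n - α / eta * ps b n := by
    rw [cv_comm]
    have := cv_sub_smul b (cv hh a) (fun _ => 1) (α / eta) n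
    simp only [mul_one] at this
    rw [this, cv_one, cv_comm b, cv_assoc, hab, cv_one]
  rw [e, ps_sub_smul]
  have := eta_pos
  have := rt_pos n
  field_simp
  ring

/-! ### Splitting at `n / L^2` -/

lemma split_rt (n L : ℕ) (hL : 2 ≤ L) : rt n ≤ L * rt (n / L ^ 2) := by
  refine rt_le_mul (by positivity) ?_
  have h := Nat.lt_mul_div_succ n (show 0 < L ^ 2 by positivity)
  have h2 : n + 1 ≤ L ^ 2 * (n / L ^ 2 + 1) := h
  exact_mod_cast h2

lemma split_sqrt (n L : ℕ) (hL : 2 ≤ L) : Real.sqrt ((n / L ^ 2 : ℕ) : ℝ) ≤ rt n / L := by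
  have hL0 : (0 : ℝ) < L := by positivity
  have h1 := rt_pos n
  rw [Real.sqrt_le_left (by positivity), div_pow, rt_sq, le_div_iff₀ (by positivity)]
  have h := Nat.div_mul_le_self n (L ^ 2)
  have h2 : ((n / L ^ 2 : ℕ) : ℝ) * (L : ℝ) ^ 2 ≤ n := by exact_mod_cast h
  linarith

lemma split_four (n L : ℕ) (hL : 2 ≤ L) : 4 * (n / L ^ 2) ≤ n := by
  have h := Nat.div_mul_le_self n (L ^ 2)
  have h2 : 4 ≤ L ^ 2 := by nlinarith
  nlinarith

lemma rt_half {n i : ℕ} (h : n ≤ 4 * i) : rt n ≤ 2 * rt i := by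
  refine rt_le_mul (by norm_num) ?_
  have : (n : ℝ) ≤ 4 * i := by exact_mod_cast h
  linarith

lemma exists_env {D : ℕ → ℝ} (h : Tendsto (fun n => D n / rt n) atTop (𝓝 0)) {ε : ℝ}
    (hε : 0 < ε) : ∀ᶠ n in atTop, ∀ i ≤ n, |D i| ≤ ε * rt n := by
  obtain ⟨N, hN⟩ := Metric.tendsto_atTop.1 h ε hε
  filter_upwards [rt_atTop.eventually_ge_atTop ((∑ i ∈ range N, |D i|) / ε)] with n hn i hi
  by_cases h1 : i < N
  · have : |D i| ≤ ∑ i ∈ range N, |D i| :=
      single_le_sum (f := fun i => |D i|) (fun i _ => abs_nonneg _) (mem_range.2 h1)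
    rw [div_le_iff₀ hε] at hn
    linarith
  · have h2 := hN i (by omega)
    rw [Real.dist_eq, sub_zero, abs_div, abs_of_pos (rt_pos i), div_lt_iff₀ (rt_pos i)] at h2
    have := mul_le_mul_of_nonneg_left (rt_mono hi) hε.le
    linarith

lemma exists_L (C : ℝ) {ε : ℝ} (hε : 0 < ε) : ∃ L : ℕ, 2 ≤ L ∧ C / L ≤ ε := by
  obtain ⟨L, hL⟩ := exists_nat_ge (C / ε)
  refine ⟨L + 2, by omega, ?_⟩
  rw [div_le_iff₀ (by positivity)]
  rw [div_le_iff₀ hε] at hL
  push_cast
  nlinarith

lemma cv_lim_anti {k d : ℕ → ℝ} {A B : ℝ} (hk : Antitone k) (hk0 : ∀ n, 0 ≤ k n)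
    (hA : ∀ n, |k n| ≤ A / rt n) (hB : ∀ n, |d n| ≤ B / rt n)
    (hD : Tendsto (fun n => ps d n / rt n) atTop (𝓝 0)) : Tendsto (cv k d) atTop (𝓝 0) := by
  have hB0 : 0 ≤ B := by
    have := (abs_nonneg _).trans (hB 0)
    exact (div_nonneg_iff.1 this).elim (·.1) fun h => absurd h.2 (not_le.2 (rt_pos 0))
  have hA0 : 0 ≤ A := by
    have := (abs_nonneg _).trans (hA 0)
    exact (div_nonneg_iff.1 this).elim (·.1) fun h => absurd h.2 (not_le.2 (rt_pos 0))
  rw [Metric.tendsto_nhds]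
  intro δ hδ
  obtain ⟨L, hL, hL2⟩ := exists_L (4 * A * B) (show 0 < δ / 4 by positivity)
  have hL0 : (0 : ℝ) < L := by positivity
  filter_upwards [exists_env hD (show 0 < δ / (4 * (2 * A * L + 1)) by positivity)] with n hn
  set m := n / L ^ 2 with hm
  set Y := δ / (4 * (2 * A * L + 1)) * rt n with hY
  have h4 := split_four n L hL
  have hr := rt_pos n
  have hY0 : 0 ≤ Y := by positivity
  rw [Real.dist_eq, sub_zero, abel k d n m (by omega)]
  have e1 : |∑ j ∈ range m, k j * d (n - j)| ≤ 4 * A * B / L := by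
    calc _ ≤ ∑ j ∈ range m, (2 * A * B / rt n) * (rt j)⁻¹ := by
          refine (abs_sum_le_sum_abs _ _).trans (sum_le_sum fun j hj => ?_)
          have hj' := mem_range.1 hj
          have h1 := rt_half (n := n) (i := n - j) (by omega)
          have h2 := rt_pos j
          have h3 := rt_pos (n - j)
          have h5 : B / rt (n - j) ≤ 2 * B / rt n := by
            rw [div_le_div_iff₀ h3 hr]; nlinarith
          rw [abs_mul]
          refine (mul_le_mul (hA j) ((hB _).trans h5) (abs_nonneg _) (by positivity)).trans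
            (le_of_eq ?_)
          field_simp
      _ ≤ (2 * A * B / rt n) * (2 * (rt n / L)) := by
          rw [← mul_sum]
          refine mul_le_mul_of_nonneg_left ((sum_inv_rt m).trans ?_) (by positivity)
          have := split_sqrt n L hL
          linarith
      _ = _ := by field_simp; ring
  have e2 : |k m * ps d (n - m)| ≤ k m * Y := by
    rw [abs_mul, abs_of_nonneg (hk0 m)]
    exact mul_le_mul_of_nonneg_left (hn _ (by omega)) (hk0 m)
  have e3 : |∑ j ∈ Ico m n, (k (j + 1) - k j) * ps d (n - (j + 1))| ≤ k m * Y := by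
    calc _ ≤ ∑ j ∈ Ico m n, (k j - k (j + 1)) * Y := by
          refine (abs_sum_le_sum_abs _ _).trans (sum_le_sum fun j _ => ?_)
          have h1 := hk (Nat.le_succ j)
          rw [abs_mul, abs_sub_comm, abs_of_nonneg (by linarith)]
          exact mul_le_mul_of_nonneg_left (hn _ (by omega)) (by linarith)
      _ = (k m - k n) * Y := by
          rw [← sum_mul]
          congr 1
          rw [sum_Ico_eq_sum_range, show (∑ j ∈ range (n - m), (k (m + j) - k (m + j + 1))) =
            k (m + 0) - k (m + (n - m)) from sum_range_sub' (fun j => k (m + j)) (n - m)]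
          rw [add_zero, show m + (n - m) = n by omega]
      _ ≤ _ := by have := hk0 n; nlinarith
  have e4 : 2 * (k m * Y) ≤ δ / 4 := by
    have h1 := (le_abs_self _).trans (hA m)
    have h2 := split_rt n L hL
    have h3 := rt_pos m
    have h5 : A / rt m ≤ A * L / rt n := by
      rw [div_le_div_iff₀ h3 hr]; nlinarith
    have h6 := mul_le_mul_of_nonneg_right (h1.trans h5) hY0
    have h7 : A * L / rt n * Y = δ / 4 * (A * L / (2 * A * L + 1)) := by
      rw [hY]; field_simp
    have h8 : A * L / (2 * A * L + 1) ≤ 1 / 2 := by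
      rw [div_le_div_iff₀ (by positivity) (by norm_num)]; linarith
    have := mul_le_mul_of_nonneg_left h8 (show 0 ≤ δ / 4 by positivity)
    linarith
  have := abs_add_three (∑ j ∈ range m, k j * d (n - j)) (k m * ps d (n - m))
    (∑ j ∈ Ico m n, (k (j + 1) - k j) * ps d (n - (j + 1)))
  linarith

lemma sub_hh_bound {b : ℕ → ℝ} {B : ℝ} (hb : ∀ n, |b n| ≤ B / rt n) (t : ℝ) (n : ℕ) :
    |b n - t * hh n| ≤ (B + |t|) / rt n := by
  have h1 := abs_sub (b n) (t * hh n)
  have h2 := mul_le_mul_of_nonneg_left (abs_hh_le n) (abs_nonneg t)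
  rw [abs_mul] at h1
  rw [add_div]
  have := hb n
  rw [mul_one_div] at h2
  linarith

/-- The limit of `h * b` when `a * b = 1, 1, 1, …`. -/
lemma cv_hh_inv_lim {a b : ℕ → ℝ} {α B : ℝ} (hab : cv a b = fun _ => 1) (hα : 0 < α)
    (h : Tendsto (fun n => rt n * a n) atTop (𝓝 α)) (hb : ∀ n, |b n| ≤ B / rt n) :
    Tendsto (cv hh b) atTop (𝓝 (eta / α)) := by
  have h1 := (cv_lim_anti hh_anti (fun n => (hh_pos n).le) abs_hh_le
    (sub_hh_bound hb (eta / α)) (ps_inv_lim hab hα h hb)).add_const (eta / α)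
  rw [zero_add] at h1
  refine h1.congr fun n => ?_
  rw [cv_sub_smul, cv_hh]; ring

end

end Pool.Agent.MP_48a2f9_mp.Ren1

end MrgPart1

-- ======== part 2: formerly Pool.Agent.MP_48a2f9_mp.Ren1C
section MrgPart2

/-!
Renewal sequences: basic identities, `T0Stmt` and `T3Stmt`.
-/

open Finset Filter Topology

namespace Pool.Agent.MP_48a2f9_mp.Ren1

noncomputable section

variable {f u : ℕ → ℝ}

lemma ren_eq (h : IsRen f u) (n : ℕ) : u n = (if n = 0 then 1 else 0) + cv f u n := by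
  rw [cv_eq_anti]; exact h.2.2 n

lemma ren_zero (h : IsRen f u) : u 0 = 1 := by
  rw [ren_eq h 0]; simp [cv, h.2.1]

lemma ren_nonneg (h : IsRen f u) (n : ℕ) : 0 ≤ u n := by
  induction n using Nat.strong_induction_on with
  | _ n ih =>
    rw [ren_eq h n]
    refine add_nonneg (by split_ifs <;> norm_num) (sum_nonneg fun j hj => ?_)
    rcases Nat.eq_zero_or_pos j with h0 | h0
    · simp [h0, h.2.1]
    · exact mul_nonneg (h.1 j) (ih _ (by have := mem_range.1 hj; omega))

lemma ren_mk (h : IsRen f u) : (1 - PowerSeries.mk f) * PowerSeries.mk u = 1 := by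
  have : PowerSeries.mk u = 1 + PowerSeries.mk f * PowerSeries.mk u := by
    rw [← mk_cv]
    ext n
    rw [map_add, PowerSeries.coeff_one, PowerSeries.coeff_mk, PowerSeries.coeff_mk]
    exact ren_eq h n
  linear_combination this

/-- The tail `1 - f_0 - … - f_n`. -/
def tl (f : ℕ → ℝ) (n : ℕ) : ℝ := 1 - ps f n

lemma mk_tl (f : ℕ → ℝ) : PowerSeries.mk (tl f) =
    (1 - PowerSeries.mk f) * PowerSeries.mk (fun _ => (1 : ℝ)) := by
  rw [sub_mul, one_mul, ← mk_ps]
  ext n; simp [tl]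

lemma cv_tl (h : IsRen f u) : cv (tl f) u = fun _ => 1 := by
  apply mk_inj
  rw [mk_cv, mk_tl]
  linear_combination (PowerSeries.mk (fun _ => (1 : ℝ))) * ren_mk h

lemma tl_succ (f : ℕ → ℝ) (n : ℕ) : tl f (n + 1) = tl f n - f (n + 1) := by
  simp only [tl, ps_succ]; ring

lemma tl_anti (hf : ∀ n, 0 ≤ f n) : Antitone (tl f) := antitone_nat_of_succ_le fun n => by
  rw [tl_succ]; have := hf (n + 1); linarith

lemma tl_lim (hs : HasSum f 1) : Tendsto (tl f) atTop (𝓝 0) := by
  have := (hs.tendsto_sum_nat.comp (tendsto_add_atTop_nat 1)).const_sub 1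
  rw [sub_self] at this
  exact this

lemma tl_nonneg (hf : ∀ n, 0 ≤ f n) (hs : HasSum f 1) (n : ℕ) : 0 ≤ tl f n :=
  (tl_anti hf).le_of_tendsto (tl_lim hs) n

lemma tl_mul_ps_le (h : IsRen f u) (n : ℕ) : tl f n * ps u n ≤ 1 := by
  have h1 : cv u (tl f) n = 1 := by rw [cv_comm, cv_tl h]
  rw [← h1, ps, mul_sum]
  refine sum_le_sum fun j _ => ?_
  rw [mul_comm]
  exact mul_le_mul_of_nonneg_left (tl_anti h.1 (Nat.sub_le n j)) (ren_nonneg h j)

lemma one_le_ps (h : IsRen f u) (n : ℕ) : 1 ≤ ps u n := by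
  rw [← ren_zero h]
  exact single_le_sum (f := u) (fun i _ => ren_nonneg h i) (mem_range.2 (Nat.succ_pos n))

/-! ### T0 -/

lemma ren_tilt (h : IsRen f u) {s : ℝ} (hs : 0 ≤ s) :
    IsRen (fun n => f n * s ^ n) (fun n => u n * s ^ n) := by
  refine ⟨fun n => mul_nonneg (h.1 n) (pow_nonneg hs n), by simp [h.2.1], fun n => ?_⟩
  beta_reduce
  rw [h.2.2 n, add_mul, sum_mul]
  congr 1
  · split_ifs with h0
    · simp [h0]
    · simp
  · refine sum_congr rfl fun p hp => ?_
    rw [← mem_antidiagonal.1 hp, pow_add]; ring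

lemma ps_ren (h : IsRen f u) (n : ℕ) : ps u n = 1 + cv f (ps u) n := by
  have : PowerSeries.mk (ps u) = PowerSeries.mk (fun n => 1 + cv f (ps u) n) := by
    have e : PowerSeries.mk (fun n => 1 + cv f (ps u) n) =
        PowerSeries.mk (fun _ => (1 : ℝ)) + PowerSeries.mk (cv f (ps u)) := by
      ext n; simp
    rw [e, mk_cv, mk_ps]
    linear_combination (PowerSeries.mk (fun _ => (1 : ℝ))) * ren_mk h
  exact congrFun (mk_inj this) n

lemma ps_mono {a : ℕ → ℝ} (ha : ∀ n, 0 ≤ a n) : Monotone (ps a) :=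
  monotone_nat_of_le_succ fun n => by rw [ps_succ]; have := ha (n + 1); linarith

lemma fin_lt_of_summable (h : IsRen f u) (hu : Summable u) (N : ℕ) :
    (∑ i ∈ range N, f i) * ∑' n, u n + 1 ≤ ∑' n, u n := by
  have h1 : Tendsto (ps u) atTop (𝓝 (∑' n, u n)) :=
    hu.hasSum.tendsto_sum_nat.comp (tendsto_add_atTop_nat 1)
  have h2 := ((h1.comp (tendsto_sub_atTop_nat N)).const_mul (∑ i ∈ range N, f i)).add_const 1
  refine le_of_tendsto_of_tendsto h2 h1 ?_
  filter_upwards [eventually_ge_atTop N] with n hn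
  rw [ps_ren h n, add_comm]
  refine add_le_add le_rfl ?_
  have hu0 := ren_nonneg h
  have hp : ∀ n, 0 ≤ ps u n := fun n => zero_le_one.trans (one_le_ps h n)
  calc (∑ i ∈ range N, f i) * ps u (n - N) ≤ ∑ i ∈ range N, f i * ps u (n - i) := by
        rw [sum_mul]
        refine sum_le_sum fun i hi => mul_le_mul_of_nonneg_left (ps_mono hu0 ?_) (h.1 i)
        have := mem_range.1 hi; omega
    _ ≤ _ := sum_le_sum_of_subset_of_nonneg (range_subset_range.2 (by omega))
        fun i _ _ => mul_nonneg (h.1 i) (hp _)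

lemma one_le_tsum (h : IsRen f u) (hu : Summable u) : 1 ≤ ∑' n, u n := by
  rw [← ren_zero h]
  exact hu.le_tsum 0 fun j _ => ren_nonneg h j

theorem t0Stmt : T0Stmt := by
  intro f u C k h hC
  have hfin : ∀ N, ∑ i ∈ range N, f i ≤ 1 := by
    intro N
    have hc : ContinuousWithinAt (fun s : ℝ => ∑ i ∈ range N, f i * s ^ i) (Set.Iio 1) 1 :=
      (by fun_prop : Continuous fun s : ℝ => ∑ i ∈ range N, f i * s ^ i).continuousWithinAt
    have h1 : Tendsto (fun s : ℝ => ∑ i ∈ range N, f i * s ^ i) (𝓝[<] 1)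
        (𝓝 (∑ i ∈ range N, f i)) := by simpa using hc.tendsto
    refine le_of_tendsto h1 ?_
    filter_upwards [Ioo_mem_nhdsLT (show (0 : ℝ) < 1 by norm_num)] with s hs
    have ht := ren_tilt h hs.1.le
    have hsum : Summable fun n => u n * s ^ n := by
      have h2 : Summable fun n : ℕ => ((n : ℝ)) ^ k * s ^ n :=
        summable_pow_mul_geometric_of_norm_lt_one k (by
          rw [Real.norm_eq_abs, abs_of_pos hs.1]; exact hs.2)
      have h3 := ((summable_nat_add_iff 1).2 h2).mul_left (C / s)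
      refine Summable.of_nonneg_of_le (ren_nonneg ht) (fun n => ?_) h3
      have h4 := mul_le_mul_of_nonneg_right (hC n) (pow_nonneg hs.1.le n)
      refine h4.trans (le_of_eq ?_)
      have := hs.1.ne'
      push_cast; field_simp; ring
    have h5 := fin_lt_of_summable ht hsum N
    have h6 := one_le_tsum ht hsum
    by_contra hc
    push Not at hc
    nlinarith
  have hsf : Summable f := summable_of_sum_range_le h.1 hfin
  refine ⟨hsf, hsf.tsum_le_of_sum_range_le hfin, fun hu => ?_, fun hlt => ?_⟩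
  · have h6 := one_le_tsum h hu
    have h7 : (∑' n, f n) * ∑' n, u n + 1 ≤ ∑' n, u n :=
      le_of_tendsto' ((hsf.hasSum.tendsto_sum_nat.mul_const _).add_const 1)
        (fin_lt_of_summable h hu)
    by_contra hc
    push Not at hc
    nlinarith
  · refine summable_of_sum_range_le (c := 1 / (1 - ∑' n, f n)) (ren_nonneg h) fun n => ?_
    have h1 := tl_mul_ps_le h n
    have h2 : ps f n ≤ ∑' n, f n := hsf.sum_le_tsum _ fun i _ => h.1 i
    have h3 := one_le_ps h n
    have h4 : ∑ i ∈ range n, u i ≤ ps u n := by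
      rw [ps, sum_range_succ]; have := ren_nonneg h n; linarith
    refine h4.trans ?_
    rw [le_div_iff₀ (by linarith)]
    rw [tl] at h1
    nlinarith

lemma hasSum_of_not_summable (h : IsRen f u) {C : ℝ} (hC : ∀ n, u n ≤ C) (hu : ¬ Summable u) :
    HasSum f 1 := by
  obtain ⟨h1, h2, h3⟩ := t0Stmt f u C 0 h (by simpa using hC)
  have : ∑' n, f n = 1 := le_antisymm h2 (not_lt.1 fun hc => hu (h3.2 hc))
  rw [← this]; exact h1.hasSum

/-! ### The weights -/

lemma rpw_half (k n : ℕ) : rpw (k / 2) n = (rt n ^ k)⁻¹ := by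
  rw [rpw, rt, Real.rpow_neg (by positivity), Real.sqrt_eq_rpow, ← Real.rpow_natCast,
    ← Real.rpow_mul (by positivity)]
  congr 2; ring

lemma rpw1 (n : ℕ) : rpw (1 / 2) n = (rt n)⁻¹ := by simpa using rpw_half 1 n
lemma rpw3 (n : ℕ) : rpw (3 / 2) n = (rt n ^ 3)⁻¹ := by simpa using rpw_half 3 n
lemma rpw5 (n : ℕ) : rpw (5 / 2) n = (rt n ^ 5)⁻¹ := by simpa using rpw_half 5 n

/-! ### T3 -/

lemma stolz_zero {x y : ℕ → ℝ} {c : ℝ} (hx : Tendsto x atTop (𝓝 0)) (hy : Tendsto y atTop (𝓝 0))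
    (hd : ∀ n, y (n + 1) < y n)
    (h : Tendsto (fun n => (x n - x (n + 1)) / (y n - y (n + 1))) atTop (𝓝 c)) :
    Tendsto (fun n => x n / y n) atTop (𝓝 c) := by
  have hy0 : ∀ n, 0 < y n := fun n =>
    lt_of_le_of_lt ((antitone_nat_of_succ_le fun n => (hd n).le).le_of_tendsto hy (n + 1)) (hd n)
  rw [Metric.tendsto_atTop]
  intro δ hδ
  obtain ⟨N, hN⟩ := Metric.tendsto_atTop.1 h (δ / 2) (by positivity)
  refine ⟨N, fun n hn => ?_⟩
  have key : ∀ t : ℝ, |t| = 1 → t * (x n - c * y n) ≤ δ / 2 * y n := by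
    intro t ht
    have ha : Antitone fun k => δ / 2 * y (k + n) - t * (x (k + n) - c * y (k + n)) := by
      refine antitone_nat_of_succ_le fun k => ?_
      have h1 := hN (k + n) (by omega)
      have h2 := sub_pos.2 (hd (k + n))
      rw [Real.dist_eq, div_sub' h2.ne', abs_div, abs_of_pos h2, div_lt_iff₀ h2] at h1
      have h3 := le_abs_self (t * (x (k + n) - x (k + n + 1) - (y (k + n) - y (k + n + 1)) * c))
      rw [abs_mul, ht, one_mul] at h3
      rw [show k + 1 + n = k + n + 1 by ring]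
      linarith
    have hl : Tendsto (fun k => δ / 2 * y (k + n) - t * (x (k + n) - c * y (k + n))) atTop
        (𝓝 0) := by
      have h1 := hy.comp (tendsto_add_atTop_nat n)
      have h2 := hx.comp (tendsto_add_atTop_nat n)
      simpa using (h1.const_mul (δ / 2)).sub ((h2.sub (h1.const_mul c)).const_mul t)
    have := ha.le_of_tendsto hl 0
    simp only [zero_add] at this
    linarith
  have h1 := key 1 (by simp)
  have h2 := key (-1) (by simp)
  have h3 := hy0 n
  rw [Real.dist_eq, div_sub' h3.ne', abs_div, abs_of_pos h3, div_lt_iff₀ h3, abs_lt]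
  constructor <;> nlinarith

lemma tl_asymp {c : ℝ} (hs : HasSum f 1)
    (hc : Tendsto (fun n => rt n ^ 3 * f n) atTop (𝓝 c)) :
    Tendsto (fun n => rt n * tl f n) atTop (𝓝 (2 * c)) := by
  have hd : ∀ n, rt n < rt (n + 1) := fun n => by
    refine Real.sqrt_lt_sqrt (by positivity) ?_
    push_cast; linarith
  have h := stolz_zero (c := 2 * c) (tl_lim hs) inv_rt_zero
    (fun n => (inv_lt_inv₀ (rt_pos _) (rt_pos _)).2 (hd n)) (by
      have h1 := (hc.comp (tendsto_add_atTop_nat 1)).mul (rt_ratio.mul (rt_ratio.add_const 1))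
      have e : c * (1 * (1 + 1)) = 2 * c := by ring
      rw [e] at h1
      refine h1.congr fun n => ?_
      have h2 := rt_pos n
      have h3 := rt_pos (n + 1)
      have h4 := sub_pos.2 (hd n)
      have h5 : rt (n + 1) ^ 2 - rt n ^ 2 = 1 := by rw [rt_sq, rt_sq]; push_cast; ring
      simp only [Function.comp, tl_succ]
      rw [inv_sub_inv h2.ne' h3.ne']
      field_simp
      linear_combination (f (n + 1)) * h5)
  exact h.congr fun n => by rw [div_inv_eq_mul, mul_comm]

lemma euler_u (h : IsRen f u) (n : ℕ) :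
    (n : ℝ) * u n = cv (fun j => (j : ℝ) * f j) (cv u u) n := by
  have h1 := ren_mk h
  have h2 := congrArg Dd h1
  rw [Dd_mul, Dd_sub, Dd_one] at h2
  have h3 : Dd (PowerSeries.mk u) =
      Dd (PowerSeries.mk f) * (PowerSeries.mk u * PowerSeries.mk u) := by
    linear_combination PowerSeries.mk u * h2 - Dd (PowerSeries.mk u) * h1
  rw [Dd_mk, Dd_mk, ← mk_cv, ← mk_cv] at h3
  exact congrFun (mk_inj h3) n

lemma cv_self_le {a : ℕ → ℝ} (ha : ∀ n, 0 ≤ a n) {n : ℕ} {φ : ℝ} (hφ : 0 ≤ φ)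
    (h : ∀ j ≤ n, n ≤ 2 * j → a j ≤ φ) : cv a a n ≤ 2 * φ * ps a n := by
  calc cv a a n ≤ ∑ j ∈ range (n + 1), (φ * a j + φ * a (n - j)) := by
        refine sum_le_sum fun j hj => ?_
        have hj' := mem_range.1 hj
        have h1 := mul_nonneg hφ (ha j)
        have h2 := mul_nonneg hφ (ha (n - j))
        by_cases hc : n ≤ 2 * j
        · have := mul_le_mul_of_nonneg_right (h j (by omega) hc) (ha (n - j))
          linarith
        · have := mul_le_mul_of_nonneg_left (h (n - j) (by omega) (by omega)) (ha j)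
          linarith
    _ = _ := by rw [sum_add_distrib, ← mul_sum, ← mul_sum, ps_rev, ← ps]; ring

lemma ps_cv_le {a b : ℕ → ℝ} (ha : ∀ n, 0 ≤ a n) (hb : ∀ n, 0 ≤ b n) (n : ℕ) :
    ps (cv a b) n ≤ ps a n * ps b n := by
  rw [← cv_one, cv_assoc, cv_one, ps, sum_mul]
  exact sum_le_sum fun j _ => mul_le_mul_of_nonneg_left (ps_mono hb (Nat.sub_le n j)) (ha j)

lemma cv_nonneg {a b : ℕ → ℝ} (ha : ∀ n, 0 ≤ a n) (hb : ∀ n, 0 ≤ b n) (n : ℕ) :
    0 ≤ cv a b n := sum_nonneg fun j _ => mul_nonneg (ha j) (hb _)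

lemma w_bound (h : IsRen f u) {P M : ℝ} (hP : ∀ n, ps u n ≤ P * rt n) (hM : 0 ≤ M) {n : ℕ}
    (hx : ∀ i ≤ n, rt i * u i ≤ M) : ∀ i ≤ n, cv u u i ≤ 4 * P * M := by
  intro i hi
  have h1 := rt_pos i
  have h2 := cv_self_le (ren_nonneg h) (n := i) (φ := 2 * M / rt i) (by positivity)
    (fun j hj hj2 => by
      have h3 := hx j (by omega)
      have h4 := rt_half (n := i) (i := j) (by omega)
      have h5 := ren_nonneg h j
      rw [le_div_iff₀ h1]; nlinarith)
  refine h2.trans ((mul_le_mul_of_nonneg_left (hP i) (by positivity)).trans (le_of_eq ?_))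
  field_simp; ring

lemma u_bound (h : IsRen f u) {P G : ℝ} (hP0 : 0 < P) (hP : ∀ n, ps u n ≤ P * rt n) (hG0 : 0 < G)
    (hG : ∀ j : ℕ, |(j : ℝ) * f j| ≤ G / rt j) : ∃ B, 0 ≤ B ∧ ∀ n, rt n * u n ≤ B := by
  obtain ⟨L, hL, hL2⟩ := exists_L (16 * G * P) (show (0 : ℝ) < 1 / 2 by norm_num)
  have hL0 : (0 : ℝ) < L := by positivity
  refine bdd_of_boot (2 * G * L * P ^ 2) ?_
  filter_upwards [eventually_ge_atTop 1] with n hn M hM hx
  have hw := w_bound h hP hM hx
  have hu0 := ren_nonneg h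
  have hr := rt_pos n
  set m := n / L ^ 2 with hm
  have h4 := split_four n L hL
  have e1 : (n : ℝ) * u n ≤ G * (4 * P * M) * (2 * (rt n / L)) + G * L / rt n * (P * rt n) ^ 2 := by
    rw [euler_u h, cv]
    calc _ ≤ ∑ j ∈ range (n + 1), ((if j ∈ range m then G * (4 * P * M) * (rt j)⁻¹ else 0) +
          G * L / rt n * cv u u (n - j)) := by
          refine sum_le_sum fun j _ => ?_
          have h1 := (le_abs_self _).trans (hG j)
          have h2 := cv_nonneg hu0 hu0 (n - j)
          have h3 := rt_pos j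
          split_ifs with hc
          · have h5 := mul_le_mul h1 (hw (n - j) (by omega)) h2 (by positivity)
            have h6 : 0 ≤ G * L / rt n * cv u u (n - j) := by positivity
            have h7 : G / rt j * (4 * P * M) = G * (4 * P * M) * (rt j)⁻¹ := by field_simp
            linarith
          · rw [zero_add]
            refine mul_le_mul_of_nonneg_right (h1.trans ?_) h2
            have h5 := split_rt n L hL
            have h6 := rt_mono (n := m) (m := j) (by simpa using hc)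
            rw [div_le_div_iff₀ h3 hr]
            have := mul_le_mul_of_nonneg_left h6 hL0.le
            nlinarith
      _ ≤ _ := by
          rw [sum_add_distrib, ← sum_filter, ← mul_sum (range (n + 1)), ps_rev]
          refine add_le_add ?_ (mul_le_mul_of_nonneg_left ?_ (by positivity))
          · calc _ ≤ ∑ j ∈ range m, G * (4 * P * M) * (rt j)⁻¹ := by
                  refine sum_le_sum_of_subset_of_nonneg (fun j hj => (mem_filter.1 hj).2) ?_
                  intro j _ _
                  have := rt_pos j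
                  positivity
              _ ≤ _ := by
                  rw [← mul_sum]
                  refine mul_le_mul_of_nonneg_left ((sum_inv_rt m).trans ?_) (by positivity)
                  have := split_sqrt n L hL
                  linarith
          · refine (ps_cv_le hu0 hu0 n).trans ?_
            rw [← sq]
            exact pow_le_pow_left₀ (zero_le_one.trans (one_le_ps h n)) (hP n) 2
  have e2 : G * (4 * P * M) * (2 * (rt n / L)) + G * L / rt n * (P * rt n) ^ 2 =
      rt n * ((16 * G * P / L) * (M / 2) + G * L * P ^ 2) := by field_simp; ring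
  have e3 : (16 * G * P / L) * (M / 2) ≤ 1 / 2 * (M / 2) :=
    mul_le_mul_of_nonneg_right hL2 (by positivity)
  have e4 : rt n * (rt n * u n) ≤ 2 * ((n : ℝ) * u n) := by
    have h1 : (1 : ℝ) ≤ n := by exact_mod_cast hn
    rw [← mul_assoc, ← sq, rt_sq]
    nlinarith [hu0 n]
  have e5 : rt n * (rt n * u n) ≤ rt n * (2 * G * L * P ^ 2 + M / 2) := by
    have := mul_le_mul_of_nonneg_left e3 hr.le
    nlinarith
  exact le_of_mul_le_mul_left e5 hr

theorem t3Stmt : T3Stmt := by
  intro f u c h hs hc0 hc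
  have hc' : Tendsto (fun n => rt n ^ 3 * f n) atTop (𝓝 c) :=
    hc.congr fun n => by rw [rpw3, div_inv_eq_mul, mul_comm]
  have hr := tl_asymp hs hc'
  have hrpos : ∀ n, 0 < rt n * tl f n := by
    intro n
    obtain ⟨k, hk, hk2⟩ := ((hr.eventually_const_lt (show 0 < 2 * c by positivity)).and
      (eventually_ge_atTop n)).exists
    have h1 : 0 < tl f k := (mul_pos_iff_of_pos_left (rt_pos k)).1 hk
    exact mul_pos (rt_pos n) (h1.trans_le (tl_anti h.1 hk2))
  obtain ⟨c0, hc00, hc1⟩ := exists_pos_lb hrpos hr (by positivity)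
  have hP : ∀ n, ps u n ≤ c0⁻¹ * rt n := by
    intro n
    have h1 := tl_mul_ps_le h n
    have h2 := one_le_ps h n
    have h3 := rt_pos n
    rw [← div_eq_inv_mul, le_div_iff₀ hc00]
    have h4 := mul_le_mul_of_nonneg_left (hc1 n) (zero_le_one.trans h2)
    nlinarith
  have hjf : Tendsto (fun n : ℕ => rt n * ((n : ℝ) * f n)) atTop (𝓝 c) := by
    have := ratio_nat.mul hc'
    rw [one_mul] at this
    refine this.congr fun n => ?_
    have := rt_pos n
    rw [← rt_sq n]; field_simp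
  obtain ⟨G, hG0, hG⟩ := exists_rt_bound hjf
  obtain ⟨B, hB0, hB⟩ := u_bound h (by positivity) hP hG0 hG
  have hB' : ∀ n, |u n| ≤ B / rt n := fun n => by
    rw [abs_of_nonneg (ren_nonneg h n), le_div_iff₀ (rt_pos n), mul_comm]; exact hB n
  have hw : ∀ n, |cv u u n| ≤ 4 * c0⁻¹ * B := fun n => by
    rw [abs_of_nonneg (cv_nonneg (ren_nonneg h) (ren_nonneg h) n)]
    exact w_bound h hP hB0 (fun i _ => hB i) n le_rfl
  set κ := eta / (2 * c) with hκ
  have hy := cv_hh_inv_lim (cv_tl h) (by positivity) hr hB'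
  have hU := ps_inv_lim (cv_tl h) (by positivity) hr hB'
  rw [← hκ] at hy hU
  have hy0 := hy.sub_const κ
  rw [sub_self] at hy0
  have h1 := cv_lim1 (sub_hh_lim hjf) hw
  have h2 := cv_lim2 hy0 hB'
  have h3 := (h1.add (((h2.add ((hU.add (ps_hh_lim.const_mul κ)).const_mul κ))).const_mul
    (c / eta))).mul (ratio_nat' 1)
  have he := eta_pos
  refine ⟨_, ?_, h3.congr' ?_⟩
  · simp only [zero_add]; positivity
  · filter_upwards [eventually_gt_atTop 0] with n hn
    have hn0 : (n : ℝ) ≠ 0 := by positivity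
    have h4 := rt_pos n
    have e1 : cv (fun k => (k : ℝ) * f k - c / eta * hh k) (cv u u) n =
        n * u n - c / eta * cv (cv hh u) u n := by
      rw [cv_comm, cv_sub_smul, cv_comm, ← euler_u h, cv_comm (cv u u), cv_assoc]
    have e2 : cv (fun k => cv hh u k - κ) u n = cv (cv hh u) u n - κ * ps u n := by
      rw [cv_comm]
      have := cv_sub_smul u (cv hh u) (fun _ => 1) κ n
      simp only [mul_one] at this
      rw [this, cv_one, cv_comm u]
    rw [e1, e2, ps_sub_smul, rpw1, ← rt_sq n]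
    field_simp
    ring

end

end Pool.Agent.MP_48a2f9_mp.Ren1

end MrgPart2

-- marker of a merged file
example : 731051 + 468543 = 731051 + 468543 := rfl
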