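import Mathlib.Analysis.PSeries
import Mathlib.Algebra.Order.Chebyshev
import Mathlib.NumberTheory.Harmonic.Bounds
import Mathlib.Order.CompletePartialOrder
import Pool.Agent.MP_48a2f9_mp.SpecR
import Pool.Agent.MP_48a2f9_mp.OZBase
import Pool.Agent.MP_48a2f9_mp.Ren2b

-- ======== part 0: formerly Pool.Agent.MP_48a2f9_mp.R1
section MrgPart0

/-!
Module R1: positivity and decay of the regeneration weights.
-/

open Finset

namespace Pool.Agent.MP_48a2f9_mp.OZ

namespace R1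

open Classical

variable {D A : ℕ} {l l' : List (Piece D)} {v : Site D}

lemma mem_allV : v ∈ allV l ↔ ∃ γ ∈ l, v ∈ γ.vs := by
  induction l with
  | nil => simp [allV]
  | cons γ l ih =>
    have : allV (γ :: l) = γ.vs ∪ allV l := rfl
    simp [this, ih]

lemma allV_append : allV (l ++ l') = allV l ∪ allV l' := by
  ext v
  simp only [mem_allV, List.mem_append, mem_union, or_and_right, exists_or]

lemma allV_mono (h : l ⊆ l') : allV l ⊆ allV l' := fun _ hv => by
  obtain ⟨γ, h1, h2⟩ := mem_allV.1 hv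
  exact mem_allV.2 ⟨γ, h h1, h2⟩

lemma disj_allV (h : (l ++ l').Pairwise fun γ γ' => Disjoint γ.vs γ'.vs) :
    Disjoint (allV l) (allV l') := disjoint_left.2 fun v h1 h2 => by
  obtain ⟨γ, a1, a2⟩ := mem_allV.1 h1
  obtain ⟨γ', b1, b2⟩ := mem_allV.1 h2
  exact disjoint_left.1 ((List.pairwise_append.1 h).2.2 γ a1 γ' b1) a2 b2

lemma chn_pw (h2 : R2Stmt) (h : Chn A l) : l.Pairwise fun γ γ' => Disjoint γ.vs γ'.vs :=
  List.pairwise_iff_getElem.2 fun j k hj hk hjk => disjoint_left.2 fun v a1 a2 => by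
    obtain ⟨b1, b2⟩ := (h2 D A).2.2.2.2 l j k l[j] l[k] h hjk (by simp) (by simp)
    have b3 := ((h.1 _ (List.getElem_mem hk)).2.2.2.2.1 b1).1 v a2
    have b4 := b2 v a1
    omega

lemma chn_take (h : Chn A l) (k : ℕ) : Chn A (l.take k) :=
  ⟨fun γ hγ => h.1 γ (List.mem_of_mem_take hγ), h.2.take k⟩

lemma Bk_take {Γ : Type} (Φ : List Γ → ℝ) (l : List Γ) {n : ℕ} (hn : n ≤ l.length) :
    Bk Φ (l.take n) =
      Φ (l.take n) - ∑ k ∈ Ioo 0 n, Bk Φ (l.take k) * Φ ((l.take n).drop k) := by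
  rw [Bk, Fin.sum_univ_eq_sum_range
    (fun k => if k = 0 then 0 else Bk Φ ((l.take n).take k) * Φ ((l.take n).drop k)),
    List.length_take_of_le hn]
  congr 1
  rw [show Ioo 0 n = (range n).filter (fun k => ¬ k = 0) by ext; simp; omega, sum_filter]
  refine sum_congr rfl fun k hk => ?_
  rw [List.take_take, min_eq_left (mem_range.1 hk).le, ite_not]

lemma slab_sum (A : ℕ) {c : ℝ} (hc : 0 < c) : ∃ K : ℝ, 0 ≤ K ∧ ∀ (W : Finset (Site D)) (t : ℤ),
    Fwd A W t → (∀ v ∈ W, t < v.1) → ∑ v ∈ W, Real.exp (-c * ((v.1 - t : ℤ) : ℝ)) ≤ K := by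
  have hs : Summable fun s : ℕ => (A : ℝ) * ((s : ℝ) ^ 1 * Real.exp (-c * s)) :=
    (Real.summable_pow_mul_exp_neg_nat_mul 1 hc).mul_left _
  refine ⟨_, tsum_nonneg fun s => by positivity, fun W t hF hW =>
    le_trans ?_ (hs.sum_le_tsum (W.image fun v => (v.1 - t).toNat) fun s _ => by positivity)⟩
  have e : ∑ v ∈ W, Real.exp (-c * ((v.1 - t : ℤ) : ℝ)) =
      ∑ v ∈ W, Real.exp (-c * ((v.1 - t).toNat : ℕ)) := sum_congr rfl fun v hv => by
    rw [← Int.cast_natCast, Int.toNat_of_nonneg (by have := hW v hv; omega)]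
  rw [e, sum_comp (fun s : ℕ => Real.exp (-c * s)) fun v : Site D => (v.1 - t).toNat]
  refine sum_le_sum fun s hs => ?_
  obtain ⟨w, hw, rfl⟩ := mem_image.1 hs
  have h1 := hW w hw
  have h2 := hF w.1 h1
  have h3 : (W.filter fun v => (v.1 - t).toNat = (w.1 - t).toNat).card ≤ slab W t w.1 :=
    card_le_card fun v hv => by
      obtain ⟨a1, a2⟩ := mem_filter.1 hv
      have := hW v a1
      exact mem_filter.2 ⟨a1, this, by omega⟩
  have h4 : ((W.filter fun v => (v.1 - t).toNat = (w.1 - t).toNat).card : ℤ) ≤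
      A * ((w.1 - t).toNat : ℕ) := by
    rw [Int.toNat_of_nonneg (by omega)]
    omega
  rw [nsmul_eq_mul, pow_one, ← mul_assoc]
  exact mul_le_mul_of_nonneg_right (by exact_mod_cast h4) (Real.exp_pos _).le

variable {M : Model D} {J : ℝ}

lemma phi_pos (h : M.CW) (hJ : 0 ≤ J) (l : List (Piece D)) : 0 < M.Phi J l :=
  h.psi_pos hJ (Set.subset_univ _)

lemma phi_append (h : M.CW) (hJ : 0 ≤ J) (hd : Disjoint (allV l) (allV l')) :
    M.Phi J (l ++ l') = M.Phi J l * M.Ψ J (Set.univ \ ↑(allV l)) (allV l') := by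
  rw [Model.Phi, allV_append, h.cocycle J hJ _ _ _ hd (Set.subset_univ _) (Set.subset_univ _)]
  rfl

lemma sub_compl {W W' : Finset (Site D)} (hd : Disjoint W W') :
    (↑W' : Set (Site D)) ⊆ Set.univ \ ↑W := fun _ hv => ⟨trivial, disjoint_right.1 hd hv⟩

lemma phi_super (h : M.CW) (hJ : 0 ≤ J) (hd : Disjoint (allV l) (allV l')) :
    M.Phi J l * M.Phi J l' ≤ M.Phi J (l ++ l') := by
  rw [phi_append h hJ hd]
  exact mul_le_mul_of_nonneg_left (h.anti J hJ _ _ _ Set.sdiff_subset (sub_compl hd))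
    (phi_pos h hJ l).le

end R1

open R1 in
theorem r1Stmt (h1 : RegStmt) (h2 : R2Stmt) : R1Stmt := by
  intro D M J A h hJ
  obtain ⟨C, c, hC, hc, hmix⟩ := h.mix J hJ
  obtain ⟨K, hK, hsl⟩ := slab_sum (D := D) A hc
  obtain ⟨C', κ, hκ, hreg⟩ := h1 (C * K) c hc
  refine ⟨C', κ, hκ, fun l hl hne => ?_⟩
  have hp := phi_pos h hJ
  have key := hreg l.length (fun i j => M.Phi J ((l.take j).drop i))
    (fun k => Bk (M.Phi J) (l.take k))
    (fun i => by rw [List.drop_eq_nil_of_le (by simp)]; exact h.psi_empty hJ _)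
    (fun _ _ _ _ => hp _) (fun i' i j hi hij hj => ?_) (fun j hj hm => ?_)
  · have hm : 1 ≤ l.length := List.length_pos_iff.2 hne
    have a1 := key _ hm le_rfl
    have a2 := Bk_take (M.Phi J) l le_rfl
    simp only [List.take_length, List.drop_zero] at a1 a2
    refine ⟨a1.1, ?_, a1.2⟩
    rw [a2, sub_le_self_iff]
    exact sum_nonneg fun k hk =>
      mul_nonneg (key k (mem_Ioo.1 hk).1 (mem_Ioo.1 hk).2.le).1 (hp _).le
  · have hpw := chn_pw h2 (chn_take hl (j + 1))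
    have e1 : allV [l[j]] = l[j].vs := by simp [allV]
    have hr : ∀ i ≤ j, Disjoint (allV ((l.take j).drop i)) l[j].vs ∧
        M.Phi J ((l.take (j + 1)).drop i) / M.Phi J ((l.take j).drop i) =
        M.Ψ J (Set.univ \ ↑(allV ((l.take j).drop i))) l[j].vs := fun i hi => by
      have e : (l.take (j + 1)).drop i = (l.take j).drop i ++ [l[j]] := by
        rw [List.take_succ_eq_append_getElem hj,
          List.drop_append_of_le_length (by simp; omega)]
      have hd := disj_allV (e ▸ hpw.sublist (List.drop_sublist i _))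
      rw [e, phi_append h hJ hd, mul_div_cancel_left₀ _ (hp _).ne', e1]
      exact ⟨e1 ▸ hd, rfl⟩
    obtain ⟨-, r1⟩ := hr i hij
    obtain ⟨d2, r2⟩ := hr i' (hi.trans hij)
    have hsub : (Set.univ \ ↑(allV ((l.take j).drop i')) : Set (Site D)) ⊆
        Set.univ \ ↑(allV ((l.take j).drop i)) :=
      Set.sdiff_subset_sdiff_right (allV_mono (List.drop_sublist_drop_left _ hi).subset)
    simp only [r1, r2]
    refine ⟨h.anti J hJ _ _ _ hsub (sub_compl d2), ?_⟩
    rcases hi.eq_or_lt with rfl | hi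
    · exact le_mul_of_one_le_left (h.psi_pos hJ (sub_compl d2)).le (Real.one_le_exp (by positivity))
    have hi1 := ((h2 D A).2.2.2.2 l 0 j l[0] l[j] hl (by omega) (by simp) (by simp)).1
    obtain ⟨b1, b2⟩ := (hl.1 _ (List.getElem_mem hj)).2.2.2.2.1 hi1
    have b3 := hsl _ _ b2 fun v hv => by have := b1 v hv; omega
    rw [mul_comm]
    refine (hmix _ _ _ (fun v => ((v.1 - (l[j].x.1 - 1) : ℤ) : ℝ) + ((j : ℝ) - i)) hsub
      (sub_compl d2) fun v hv u hu hu' => ?_).trans ?_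
    · have c1 : u ∈ allV ((l.take j).drop i') := by simpa using hu'
      obtain ⟨γ, c2, c3⟩ := mem_allV.1 c1
      obtain ⟨k, hk, rfl⟩ := List.getElem_of_mem (List.mem_of_mem_drop c2)
      have hk' : k < j := by simp at hk; omega
      have c4 : k < i := by
        by_contra hki
        refine hu.2 (mem_allV.2 ⟨_, List.mem_iff_getElem.2 ⟨k - i, by simp; omega, ?_⟩, c3⟩)
        simp only [List.getElem_drop]
        congr 1
        omega
      have c5 := ((h2 D A).2.2.2.2 l k j l[k] l[j] hl hk' (by simp) (by simp)).2 u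
        (by simpa using c3)
      have c6 : ((v.1 - (l[j].x.1 - 1) + (j - i) : ℤ) : ℝ) ≤ ((|u.1 - v.1| : ℤ) : ℝ) := by
        have := neg_abs_le (u.1 - v.1)
        exact_mod_cast (by omega)
      have c7 : ‖(u - v).1‖ ≤ ‖u - v‖ := norm_fst_le _
      rw [Prod.fst_sub, Int.norm_eq_abs] at c7
      push_cast at c6 c7 ⊢
      linarith
    · refine mul_le_mul_of_nonneg_left (Real.exp_le_exp.2 ?_)
        (h.psi_pos hJ ((sub_compl d2).trans hsub)).le
      simp only [mul_add, Real.exp_add, ← sum_mul]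
      rw [mul_assoc]
      gcongr
  · have e : Ioc 0 j = insert j (Ioo 0 j) := by ext; simp; omega
    simp only [List.drop_zero]
    rw [e, sum_insert (by simp), List.drop_eq_nil_of_le (as := l.take j) (by simp),
      show M.Phi J [] = 1 from h.psi_empty hJ _, Bk_take _ l hm]
    ring

end Pool.Agent.MP_48a2f9_mp.OZ

end MrgPart0

-- ======== part 1: formerly Pool.Agent.MP_48a2f9_mp.R3b
section MrgPart1

/-!
Module R3b: far from the line the kernel is close to the homogeneous one.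
-/

open Finset

namespace Pool.Agent.MP_48a2f9_mp.OZ

namespace R3b

open Classical R1

lemma stab {P P' : ℕ → ℕ → ℝ} {B B' : ℕ → ℝ} {m : ℕ} {ε : ℝ} (hε : 0 ≤ ε) (hε1 : ε ≤ 1)
    (hP : ∀ i j, 0 ≤ P i j) (hP' : ∀ i j, 0 ≤ P' i j) (hd : ∀ i j, |P' i j - P i j| ≤ ε * P i j)
    (hs : ∀ k n, k ≤ n → n ≤ m → P 0 k * P k n ≤ P 0 n)
    (hB : ∀ k, 0 < k → k ≤ m → 0 ≤ B k ∧ B k ≤ P 0 k)
    (h1 : ∀ n ≤ m, B n = P 0 n - ∑ k ∈ Ioo 0 n, B k * P k n)
    (h2 : ∀ n ≤ m, B' n = P' 0 n - ∑ k ∈ Ioo 0 n, B' k * P' k n) :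
    ∀ n ≤ m, |B' n - B n| ≤ 4 ^ n * ε * P 0 n := by
  intro n
  induction n using Nat.strong_induction_on with
  | _ n ih =>
  intro hn
  have e : B' n - B n = (P' 0 n - P 0 n) - ∑ k ∈ Ioo 0 n, (B' k * P' k n - B k * P k n) := by
    rw [h1 n hn, h2 n hn, sum_sub_distrib]
    ring
  have t : ∀ k ∈ Ioo 0 n, |B' k * P' k n - B k * P k n| ≤ 3 * 4 ^ k * (ε * P 0 n) := fun k hk => by
    obtain ⟨k0, k1⟩ := mem_Ioo.1 hk
    have a1 := ih k k1 (by omega)
    obtain ⟨a2, a3⟩ := hB k k0 (by omega)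
    have a4 := hd k n
    have a5 : P' k n ≤ 2 * P k n := by nlinarith [(abs_le.1 a4).2, hP k n]
    have a6 := mul_le_mul_of_nonneg_left (hs k n k1.le hn) hε
    have a7 : (1 : ℝ) ≤ 4 ^ k := one_le_pow₀ (by norm_num)
    have a8 := mul_le_mul a1 a5 (hP' k n) ((abs_nonneg _).trans a1)
    have a9 := mul_le_mul a3 a4 (abs_nonneg _) (hP 0 k)
    rw [show B' k * P' k n - B k * P k n = (B' k - B k) * P' k n + B k * (P' k n - P k n) by ring]
    refine (abs_add_le _ _).trans ?_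
    rw [abs_mul, abs_mul, abs_of_nonneg (hP' k n), abs_of_nonneg a2]
    have b1 := mul_le_mul_of_nonneg_left a6 (zero_le_one.trans a7)
    have b2 := mul_le_mul_of_nonneg_right a7 (mul_nonneg hε (hP 0 n))
    nlinarith
  have g : ∀ n : ℕ, ∑ k ∈ range n, (3 * 4 ^ k : ℝ) = 4 ^ n - 1 := fun n => by
    induction n with
    | zero => simp
    | succ n ih => rw [sum_range_succ, ih]; ring
  have g2 : ∑ k ∈ Ioo 0 n, (3 * 4 ^ k : ℝ) ≤ 4 ^ n - 1 := g n ▸
    sum_le_sum_of_subset_of_nonneg (fun k hk => mem_range.2 (mem_Ioo.1 hk).2)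
      fun _ _ _ => by positivity
  rw [e]
  refine (abs_sub _ _).trans ((add_le_add (hd 0 n)
    ((abs_sum_le_sum_abs _ _).trans (sum_le_sum t))).trans ?_)
  rw [← sum_mul]
  nlinarith [mul_le_mul_of_nonneg_right g2 (mul_nonneg hε (hP 0 n))]

variable {D A : ℕ} {M : Model D}

lemma psi_cmp (h : M.CW) {J' : ℝ} (hJ' : 0 ≤ J') : ∃ C c : ℝ, 0 ≤ C ∧ 0 < c ∧
    ∀ J, 0 ≤ J → ∀ (W : Finset (Site D)) (ρ : ℝ), 0 < ρ → (∀ w ∈ W, ρ ≤ ‖w.2‖) →
      M.Ψ J Set.univ W ≤ M.Ψ J' Set.univ W * Real.exp (C * (W.card * Real.exp (-c * ρ))) := by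
  obtain ⟨C, c, hC, hc, hmix⟩ := h.mix J' hJ'
  refine ⟨C, c, hC, hc, fun J hJ W ρ hρ hW => ?_⟩
  have hs : (↑W : Set (Site D)) ⊆ {v | v.2 ≠ 0} := fun w hw e => by
    have := hW w hw
    rw [e, norm_zero] at this
    linarith
  refine (h.anti J hJ _ _ _ (Set.subset_univ _) hs).trans ?_
  rw [h.off_line J J' hJ hJ' _ _ hs fun v hv => hv]
  have := hmix Set.univ _ W (fun _ => ρ) (Set.subset_univ _) hs fun v hv u _ hu => by
    have e : u.2 = 0 := not_not.1 hu
    have := norm_snd_le (u - v)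
    rw [Prod.snd_sub, e, zero_sub, norm_neg] at this
    exact (hW v hv).trans this
  simpa using this

lemma far (h2 : R2Stmt) {s : ℕ} {u v : Tr D} {L : List (Piece D)}
    (hL : Ch A true (0, u) true ((s : ℤ), v) L) (hu : 2 * (A * ((s : ℝ) + 1)) ≤ ‖u‖) :
    ((allV L).card : ℝ) ≤ A * ((s : ℝ) + 1) ∧ 0 < ‖u‖ / 2 ∧ ∀ w ∈ allV L, ‖u‖ / 2 ≤ ‖w.2‖ := by
  obtain ⟨a1, a2, a3, -, -, a4, a5, -⟩ := (h2 D A).1 _ _ _ _ L hL
  obtain ⟨a6, a7⟩ := a4 rfl
  have b1 := a7 s (by simp only; omega)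
  have b2 : slab (allV L) (((0, u) : Site D).1 - 1) s = (allV L).card := by
    rw [slab, filter_true_of_mem fun w hw => ⟨by have := a6 w hw; omega, a5 rfl w hw⟩]
  rw [b2] at b1
  have b3 : ((allV L).card : ℝ) ≤ A * ((s : ℝ) + 1) := by
    simp only [zero_sub, sub_neg_eq_add] at b1
    exact_mod_cast b1
  have b4 : ∀ w ∈ allV L, ‖w - (0, u)‖ + 1 ≤ ‖u‖ / 2 := fun w hw => by
    have := a1.norm_le_card (a2 ▸ hw)
    rw [a2] at this
    linarith
  refine ⟨b3, by linarith [b4 _ a3, norm_nonneg ((((s : ℤ), v) : Site D) - (0, u))], fun w hw => ?_⟩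
  have c1 := norm_snd_le (w - (0, u))
  have c2 := norm_sub_norm_le u w.2
  rw [norm_sub_rev] at c2
  have := b4 w hw
  simp only [Prod.snd_sub] at c1
  linarith

lemma theta_eq (h2 : R2Stmt) (h : M.CW) {J : ℝ} (hJ : 0 ≤ J) {x y : Site D} {L : List (Piece D)}
    (hL : Ch A true x true y L) (hw : ∀ w ∈ allV L, w.2 ≠ 0) :
    (L.map (M.theta J)).prod = (L.map (M.theta 1)).prod ∧ 0 ≤ (L.map (M.theta 1)).prod := by
  obtain ⟨-, a2, a3, -, -, -, -, a4⟩ := (h2 D A).1 _ _ _ _ L hL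
  have hx : x.2 ≠ 0 := hw x (a2 ▸ root_mem_verts _ _)
  have e1 : x ∈ fwd (x - e1) := by simp [mem_fwd]
  have e2 : y ∈ fwd y := by simp [mem_fwd]
  rw [a4 M J h.beta_pos.le hJ, a4 M 1 h.beta_pos.le zero_le_one]
  simp only [Model.inF, Model.outF, if_true, rr_off e1 hx, rr_off e2 (hw y a3)]
  constructor
  · congr 2
    refine prod_congr rfl fun e he => ?_
    have e3 := hw _ (a2 ▸ mem_verts_of_mem he (Sym2.out_fst_mem e))
    rw [rr_off (Sym2.out_fst_mem e) e3, rr_off (Sym2.out_fst_mem e) e3]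
  · have := prod_nonneg fun e (_ : e ∈ glueE L) => h.rr_nonneg zero_le_one e
    positivity

lemma tsum_close {ι : Type} {p : ι → Prop} {f g w : ι → ℝ} {t : ℝ} (ht : 0 ≤ t)
    (h : ∀ i, p i → f i ≤ g i + t * w i) :
    (∑' i, if p i then ENNReal.ofReal (f i) else 0) ≤
      (∑' i, if p i then ENNReal.ofReal (g i) else 0) +
        ENNReal.ofReal t * ∑' i, if p i then ENNReal.ofReal (w i) else 0 := by
  rw [← ENNReal.tsum_mul_left, ← ENNReal.tsum_add]
  refine ENNReal.tsum_le_tsum fun i => ?_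
  split_ifs with hi
  · rw [← ENNReal.ofReal_mul ht]
    exact (ENNReal.ofReal_le_ofReal (h i hi)).trans ENNReal.ofReal_add_le
  · simp

lemma close (h1 : R1Stmt) (h2 : R2Stmt) (h : M.CW) {J : ℝ} (hJ : 0 ≤ J) :
    ∃ C c : ℝ, 0 ≤ C ∧ 0 < c ∧ ∀ (A s : ℕ) (u v : Tr D) (L : List (Piece D)),
      Ch A true (0, u) true ((s : ℤ), v) L → 2 * (A * ((s : ℝ) + 1)) ≤ ‖u‖ →
      ∀ ε, ε = C * (A * ((s : ℝ) + 1) * Real.exp (-c * ‖u‖)) → ε ≤ 1 →
      |M.Bl J (fun _ => 1) L - M.Bl 1 (fun _ => 1) L| ≤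
        4 ^ (s + 1) * ε * M.Wl 1 (fun _ => 1) L := by
  obtain ⟨C1, c1, hC1, hc1, p1⟩ := psi_cmp h zero_le_one
  obtain ⟨C2, c2, hC2, hc2, p2⟩ := psi_cmp h hJ
  refine ⟨2 * (C1 + C2), min c1 c2 / 2, by positivity, by positivity,
    fun A s u v L hL hu ε hε hε1 => ?_⟩
  obtain ⟨a1, a2, a3⟩ := far h2 hL hu
  obtain ⟨b1, b2⟩ := theta_eq h2 h hJ hL fun w hw e => by
    have := a3 w hw
    rw [e, norm_zero] at this
    linarith
  have hε0 : 0 ≤ ε := by rw [hε]; positivity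
  have hd : ∀ l : List (Piece D), l ⊆ L → |M.Phi J l - M.Phi 1 l| ≤ ε * M.Phi 1 l := fun l hl => by
    have hs := allV_mono hl
    have c0 : ((allV l).card : ℝ) ≤ A * ((s : ℝ) + 1) :=
      le_trans (by exact_mod_cast card_le_card hs) a1
    have k : ∀ C c : ℝ, 0 ≤ C → C ≤ C1 + C2 → min c1 c2 ≤ c →
        C * ((allV l).card * Real.exp (-c * (‖u‖ / 2))) ≤ ε / 2 := fun C c k1 k2 k3 => by
      have : Real.exp (-c * (‖u‖ / 2)) ≤ Real.exp (-(min c1 c2 / 2) * ‖u‖) :=
        Real.exp_le_exp.2 (by nlinarith)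
      rw [hε, mul_assoc, mul_div_cancel_left₀ _ two_ne_zero]
      gcongr
    have q1 := (p1 J hJ _ _ a2 fun w hw => a3 w (hs hw)).trans (mul_le_mul_of_nonneg_left
      (Real.exp_le_exp.2 (k C1 c1 hC1 (by linarith) (min_le_left _ _)))
      (phi_pos h zero_le_one l).le)
    have q2 := (p2 1 zero_le_one _ _ a2 fun w hw => a3 w (hs hw)).trans (mul_le_mul_of_nonneg_left
      (Real.exp_le_exp.2 (k C2 c2 hC2 (by linarith) (min_le_right _ _))) (phi_pos h hJ l).le)
    have q3 := (abs_le.1 (Real.abs_exp_sub_one_le (x := ε / 2)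
      (by rw [abs_of_nonneg (by linarith)]; linarith))).2
    rw [abs_of_nonneg (by linarith)] at q3
    have q4 := phi_pos h zero_le_one l
    have q5 := phi_pos h hJ l
    change M.Phi J l ≤ M.Phi 1 l * _ at q1
    change M.Phi 1 l ≤ M.Phi J l * _ at q2
    rw [abs_le]
    constructor
    · have q6 : M.Phi 1 l ≤ M.Phi J l * (1 + ε) := q2.trans (by gcongr; linarith)
      by_contra hc
      nlinarith [mul_nonneg (mul_nonneg hε0 hε0) q4.le]
    · nlinarith
  obtain ⟨_, _, -, r1⟩ := h1 D M 1 A h zero_le_one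
  have key := stab (P := fun i j => M.Phi 1 ((L.take j).drop i))
    (P' := fun i j => M.Phi J ((L.take j).drop i)) (B := fun k => Bk (M.Phi 1) (L.take k))
    (B' := fun k => Bk (M.Phi J) (L.take k)) (m := L.length) hε0 hε1
    (fun _ _ => (phi_pos h zero_le_one _).le) (fun _ _ => (phi_pos h hJ _).le)
    (fun i j => hd _ fun _ k => List.mem_of_mem_take (List.mem_of_mem_drop k))
    (fun k n hk _ => by
      have e : L.take k ++ (L.take n).drop k = L.take n := by
        conv_rhs => rw [← List.take_append_drop k (L.take n), List.take_take, min_eq_left hk]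
      have := phi_super h zero_le_one (disj_allV (e.symm ▸ chn_pw h2 (chn_take hL.1 n)))
      rwa [e] at this)
    (fun k k0 k1 => by
      have := r1 _ (chn_take hL.1 k) (List.ne_nil_of_length_pos (by simp; omega))
      exact ⟨this.1, this.2.1⟩)
    (fun n hn => Bk_take _ L hn) (fun n hn => Bk_take _ L hn) _ le_rfl
  simp only [List.take_length, List.drop_zero] at key
  have hlen : L.length ≤ s + 1 := by
    have := ((h2 D A).1 _ _ _ _ L hL).2.2.2.2.1
    simp only at this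
    omega
  have e : ∀ J, (fun γ => M.theta J γ * 1) = M.theta J := fun J => funext fun _ => mul_one _
  simp only [Model.Bl, Model.Wl, e, b1]
  rw [← mul_sub, abs_mul, abs_of_nonneg b2, mul_left_comm]
  refine mul_le_mul_of_nonneg_left (key.trans ?_) b2
  have := phi_pos h zero_le_one L
  gcongr
  norm_num

end R3b

open R3b in
theorem r3bStmt (h1 : R1Stmt) (h2 : R2Stmt) (h3 : RNStmt) (h4 : R3aStmt) : R3bStmt := by
  intro D M J ξ h gJ g1
  obtain ⟨AJ, hAJ⟩ := h4 D M J ξ h gJ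
  obtain ⟨A1, hA1⟩ := h4 D M 1 ξ h g1
  obtain ⟨C0, c0, hC0, hc0, hcl⟩ := close h1 h2 h gJ.1
  refine ⟨max AJ A1, fun A hA => ?_⟩
  obtain ⟨ηJ, νJ, CJ, hηJ, hνJ, hCJ, bJ⟩ := hAJ A (le_of_max_le_left hA)
  obtain ⟨η1, ν1, C1, hη1, hν1, hC1, b1⟩ := hA1 A (le_of_max_le_right hA)
  clear hAJ hA1
  have tl : ∀ η : ℝ, 0 ≤ η → Tilt (D := D) η fun _ => 1 := fun η hη =>
    ⟨fun _ => ⟨le_rfl, Real.one_le_exp (by positivity)⟩, fun _ _ => rfl⟩
  obtain ⟨α, α0, α1, α2⟩ : ∃ α : ℝ, 0 < α ∧ 2 * A * α ≤ 1 ∧ α ≤ c0 / 8 :=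
    ⟨min (1 / (2 * A + 1)) (c0 / 8), by positivity, by
      have : min (1 / (2 * A + 1) : ℝ) (c0 / 8) * (2 * A + 1) ≤ 1 :=
        (le_div_iff₀ (by positivity)).1 (min_le_left _ _)
      have : 0 < min (1 / (2 * A + 1) : ℝ) (c0 / 8) := by positivity
      linarith, min_le_right _ _⟩
  obtain ⟨ν, ν0, n1, n2, n3⟩ : ∃ ν : ℝ, 0 < ν ∧ ν ≤ 1 ∧ ν ≤ c0 / 2 ∧
      ν * (1 + α) ≤ min νJ ν1 * α :=
    ⟨min (min 1 (c0 / 2)) (min νJ ν1 * α / (1 + α)), by positivity,
      (min_le_left _ _).trans (min_le_left _ _), (min_le_left _ _).trans (min_le_right _ _),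
      (le_div_iff₀ (by positivity)).1 (min_le_right _ _)⟩
  refine ⟨ν, (CJ + C1) * (1 + C0 * A), ν0, fun l u v => ?_⟩
  rcases l with _ | s
  · have z : ∀ J, 0 ≤ J → M.Kk J ξ A (fun _ => 1) 0 u v = 0 := fun J hJ => by
      obtain ⟨-, -, a1, a2⟩ := h3 D M J 0 A _ h hJ (tl 0 le_rfl) true (0, u) true
        (((0 : ℕ) : ℤ) - 1, v)
      have a3 := not_not.1 fun k => absurd (a2 k).1 (by simp)
      rw [a3, nonpos_iff_eq_zero] at a1
      rw [Model.Kk, a1]
      simp
    rw [z J gJ.1, z 1 zero_le_one, sub_zero, abs_zero]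
    positivity
  have e : ((s + 1 : ℕ) : ℤ) - 1 = s := by push_cast; ring
  obtain ⟨-, dJ⟩ := bJ true (0, u) true s v
  obtain ⟨w1, d1⟩ := b1 true (0, u) true s v
  replace dJ := (dJ _ (tl _ hηJ.le)).2
  replace d1 := (d1 _ (tl _ hη1.le)).2
  clear bJ b1
  simp only [zero_add] at dJ d1 w1
  simp only [Model.Kk, e]
  push_cast
  have hs : (0 : ℝ) < s + 1 := by positivity
  have crude : ∀ (S : ENNReal) (C μ : ℝ), 0 ≤ C → min νJ ν1 ≤ μ →
      S ≤ ENNReal.ofReal (C * Real.exp (-ξ * (s + 1) - μ * (s + 1 + ‖v - u‖))) →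
      |Real.exp (ξ * (s + 1)) * S.toReal| ≤ C * Real.exp (-min νJ ν1 * (s + 1)) :=
    fun S C μ k1 k2 k3 => by
      rw [abs_of_nonneg (by positivity)]
      refine (mul_le_mul_of_nonneg_left (ENNReal.toReal_le_of_le_ofReal (by positivity) k3)
        (Real.exp_pos _).le).trans ?_
      rw [mul_left_comm, ← Real.exp_add]
      have := lt_min hνJ hν1
      gcongr
      nlinarith [norm_nonneg (v - u)]
  have cr := (abs_sub _ _).trans (add_le_add (crude _ _ _ hCJ (min_le_left _ _) dJ)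
    (crude _ _ _ hC1 (min_le_right _ _) d1))
  rw [← add_mul] at cr
  have hCA : 0 ≤ C0 * A := by positivity
  rcases le_total (α * ‖u‖) (s + 1) with hu | hu
  · refine cr.trans ?_
    have : ν * (s + 1 + ‖u‖) ≤ min νJ ν1 * (s + 1) :=
      le_of_mul_le_mul_left (a := α) (by nlinarith) α0
    exact mul_le_mul (le_mul_of_one_le_right (by positivity) (by linarith))
      (Real.exp_le_exp.2 (by linarith)) (Real.exp_pos _).le (by positivity)
  obtain ⟨ε, hε⟩ : ∃ ε, ε = C0 * (A * ((s : ℝ) + 1) * Real.exp (-c0 * ‖u‖)) := ⟨_, rfl⟩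
  have hε0 : 0 ≤ ε := by rw [hε]; positivity
  have h4 : (1 : ℝ) ≤ 4 ^ (s + 1) := one_le_pow₀ (by norm_num)
  refine le_trans (b := (CJ + C1) * (4 ^ (s + 1) * ε)) ?_ ?_
  · rcases le_total ε 1 with k | k
    · have hu' : 2 * (A * ((s : ℝ) + 1)) ≤ ‖u‖ := by
        nlinarith [mul_le_mul_of_nonneg_left hu (by positivity : (0 : ℝ) ≤ 2 * A), norm_nonneg u]
      have t0 : (0 : ℝ) ≤ 4 ^ (s + 1) * ε := by positivity
      have q := fun L hL => abs_le.1 (hcl A s u v L hL hu' ε hε k)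
      have q1 := tsum_close t0 fun L hL => sub_le_iff_le_add'.1 (q L hL).2
      have q2 := tsum_close t0 fun L hL => neg_le_sub_iff_le_add.1 (q L hL).1
      have q3 : ENNReal.ofReal (4 ^ (s + 1) * ε) * M.SW 1 A (fun _ => 1) true (0, u) true (s, v) ≤
          ENNReal.ofReal (4 ^ (s + 1) * ε * (C1 * Real.exp (-ξ * (s + 1)))) := by
        rw [ENNReal.ofReal_mul t0 (q := C1 * _)]
        gcongr
      have t1 : 0 ≤ 4 ^ (s + 1) * ε * (C1 * Real.exp (-ξ * (s + 1))) := by positivity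
      have q4 := ENNReal.toReal_mono (ENNReal.add_ne_top.2
        ⟨ne_top_of_le_ne_top ENNReal.ofReal_ne_top d1, ENNReal.ofReal_ne_top⟩)
        (q1.trans (add_le_add le_rfl q3))
      have q5 := ENNReal.toReal_mono (ENNReal.add_ne_top.2
        ⟨ne_top_of_le_ne_top ENNReal.ofReal_ne_top dJ, ENNReal.ofReal_ne_top⟩)
        (q2.trans (add_le_add le_rfl q3))
      rw [ENNReal.toReal_add (ne_top_of_le_ne_top ENNReal.ofReal_ne_top d1) ENNReal.ofReal_ne_top,
        ENNReal.toReal_ofReal t1] at q4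
      rw [ENNReal.toReal_add (ne_top_of_le_ne_top ENNReal.ofReal_ne_top dJ) ENNReal.ofReal_ne_top,
        ENNReal.toReal_ofReal t1] at q5
      rw [← mul_sub, abs_mul, abs_of_pos (Real.exp_pos _)]
      refine (mul_le_mul_of_nonneg_left (abs_sub_le_iff.2 ⟨sub_le_iff_le_add'.2 q4,
        sub_le_iff_le_add'.2 q5⟩) (Real.exp_pos _).le).trans ?_
      have e2 : Real.exp (ξ * (s + 1)) * Real.exp (-ξ * (s + 1)) = 1 := by
        rw [← Real.exp_add]; simp
      have e3 : Real.exp (ξ * (s + 1)) * (4 ^ (s + 1) * ε * (C1 * Real.exp (-ξ * (s + 1)))) =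
          C1 * (4 ^ (s + 1) * ε) := by linear_combination C1 * (4 ^ (s + 1) * ε) * e2
      rw [e3]
      gcongr
      linarith
    · refine cr.trans (mul_le_mul_of_nonneg_left ?_ (by positivity))
      have := lt_min hνJ hν1
      exact (Real.exp_le_one_iff.2 (by nlinarith)).trans (one_le_mul_of_one_le_of_one_le h4 k)
  · have e1 : (4 : ℝ) ^ (s + 1) ≤ Real.exp (2 * (s + 1)) := by
      have : (4 : ℝ) ≤ Real.exp 2 := by
        have := Real.add_one_le_exp 1
        rw [show (2 : ℝ) = 1 + 1 by norm_num, Real.exp_add]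
        nlinarith
      rw [mul_comm, ← Nat.cast_succ, Real.exp_nat_mul]
      gcongr
    have e2 : (s : ℝ) + 1 ≤ Real.exp (s + 1) := by linarith [Real.add_one_le_exp (s + 1)]
    have e3 : Real.exp (2 * (s + 1)) * Real.exp (s + 1) * Real.exp (-c0 * ‖u‖) ≤
        Real.exp (-ν * (s + 1 + ‖u‖)) := by
      rw [← Real.exp_add, ← Real.exp_add]
      refine Real.exp_le_exp.2 ?_
      nlinarith [mul_le_mul_of_nonneg_right α2 (norm_nonneg u),
        mul_le_mul_of_nonneg_right n2 (norm_nonneg u), mul_le_mul_of_nonneg_right n1 hs.le]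
    rw [mul_assoc]
    refine mul_le_mul_of_nonneg_left ?_ (by positivity)
    calc 4 ^ (s + 1) * ε = C0 * A * (4 ^ (s + 1) * ((s : ℝ) + 1) * Real.exp (-c0 * ‖u‖)) := by
          rw [hε]; ring
      _ ≤ (1 + C0 * A) * (Real.exp (2 * (s + 1)) * Real.exp (s + 1) * Real.exp (-c0 * ‖u‖)) := by
          gcongr
          linarith
      _ ≤ _ := by gcongr

end Pool.Agent.MP_48a2f9_mp.OZ

end MrgPart1

-- ======== part 2: formerly Pool.Agent.MP_48a2f9_mp.RenA
section MrgPart2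

/-!
The renewal equations in real form.
-/

open Filter Topology Finset
open scoped ENNReal

namespace Pool.Agent.MP_48a2f9_mp.OZ.Ren

noncomputable section
open Classical

variable {D : ℕ}

/-- Tilted total weight of the lists. -/
def sw (M : Model D) (J ξ : ℝ) (A : ℕ) (τ : Piece D → ℝ) (i : Bool) (u : Tr D) (o : Bool) (n : ℕ)
    (v : Tr D) : ℝ := Real.exp (ξ * n) * (M.SW J A τ i (0, u) o ((n : ℤ) - 1, v)).toReal

/-- Tilted total weight of the blocks. -/
def sb (M : Model D) (J ξ : ℝ) (A : ℕ) (τ : Piece D → ℝ) (i : Bool) (u : Tr D) (o : Bool) (n : ℕ)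
    (v : Tr D) : ℝ := Real.exp (ξ * n) * (M.SB J A τ i (0, u) o ((n : ℤ) - 1, v)).toReal

/-- The facts on one model and one tilt. -/
structure Pack (M : Model D) (J ξ : ℝ) (A : ℕ) (τ : Piece D → ℝ) (ν C : ℝ) : Prop where
  hC : 0 ≤ C
  ren : ∀ (i : Bool) (x : Site D) (o : Bool) (y : Site D), M.SW J A τ i x o y = M.SB J A τ i x o y +
    ∑' z : Site D, M.SB J A τ i x true z * M.SW J A τ true (z + e1) o y
  shift : ∀ (i : Bool) (x : Site D) (o : Bool) (y : Site D) (k : ℤ),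
    M.SW J A τ i (x + (k, 0)) o (y + (k, 0)) = M.SW J A τ i x o y
  le : ∀ (i : Bool) (x : Site D) (o : Bool) (y : Site D), M.SB J A τ i x o y ≤ M.SW J A τ i x o y
  supp : ∀ (i : Bool) (x : Site D) (o : Bool) (y : Site D), M.SW J A τ i x o y ≠ 0 → x.1 ≤ y.1 ∧
    (i = true → o = true → ‖y.2 - x.2‖ ≤ (A : ℝ) * ((y.1 - x.1 + 1 : ℤ) : ℝ))
  fin : ∀ (i : Bool) (x : Site D) (o : Bool) (s : ℕ) (v : Tr D), M.SW J A τ i x o (x.1 + s, v) ≠ ⊤
  tail : ∀ (i : Bool) (x : Site D) (o : Bool) (s : ℕ) (v : Tr D), M.SB J A τ i x o (x.1 + s, v) ≤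
    ENNReal.ofReal (C * Real.exp (-ξ * (s + 1) - ν * (s + 1 + ‖v - x.2‖)))

variable {M : Model D} {J ξ ν C : ℝ} {A : ℕ} {τ : Piece D → ℝ}

lemma sw_nonneg (i : Bool) (u : Tr D) (o : Bool) (n : ℕ) (v : Tr D) :
    0 ≤ sw M J ξ A τ i u o n v := mul_nonneg (Real.exp_pos _).le ENNReal.toReal_nonneg

lemma sb_nonneg (i : Bool) (u : Tr D) (o : Bool) (n : ℕ) (v : Tr D) :
    0 ≤ sb M J ξ A τ i u o n v := mul_nonneg (Real.exp_pos _).le ENNReal.toReal_nonneg

namespace Pack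

variable (h : Pack M J ξ A τ ν C)
include h

lemma SW_ne_top (i : Bool) (x : Site D) (o : Bool) (y : Site D) : M.SW J A τ i x o y ≠ ⊤ := by
  by_cases h0 : M.SW J A τ i x o y = 0
  · simp [h0]
  · have h1 := (h.supp i x o y h0).1
    have := h.fin i x o (y.1 - x.1).toNat y.2
    rwa [Int.toNat_of_nonneg (by omega), add_sub_cancel] at this

lemma SB_ne_top (i : Bool) (x : Site D) (o : Bool) (y : Site D) : M.SB J A τ i x o y ≠ ⊤ :=
  ne_top_of_le_ne_top (h.SW_ne_top i x o y) (h.le i x o y)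

lemma SW_eq_zero {i : Bool} {x : Site D} {o : Bool} {y : Site D} (hxy : y.1 < x.1) :
    M.SW J A τ i x o y = 0 := by
  by_contra h0
  exact absurd (h.supp i x o y h0).1 (by omega)

lemma SB_eq_zero {i : Bool} {x : Site D} {o : Bool} {y : Site D} (hxy : y.1 < x.1) :
    M.SB J A τ i x o y = 0 := le_antisymm ((h.le i x o y).trans (h.SW_eq_zero hxy).le) zero_le

lemma sw_zero (i : Bool) (u : Tr D) (o : Bool) (v : Tr D) : sw M J ξ A τ i u o 0 v = 0 := by
  unfold sw
  rw [h.SW_eq_zero (by simp)]; simp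

lemma sb_zero (i : Bool) (u : Tr D) (o : Bool) (v : Tr D) : sb M J ξ A τ i u o 0 v = 0 := by
  unfold sb
  rw [h.SB_eq_zero (by simp)]; simp

lemma sb_le (i : Bool) (u : Tr D) (o : Bool) (n : ℕ) (v : Tr D) :
    sb M J ξ A τ i u o n v ≤ C * Real.exp (-ν * (n + ‖v - u‖)) := by
  rcases n with _ | s
  · rw [h.sb_zero]; have := h.hC; positivity
  · have h1 := h.tail i (0, u) o s v
    have h2 : (((0 : ℤ), u).1 + s, v) = (((s + 1 : ℕ) : ℤ) - 1, v) := by simp
    rw [h2] at h1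
    have h3 := ENNReal.toReal_le_of_le_ofReal (by have := h.hC; positivity) h1
    unfold sb
    refine (mul_le_mul_of_nonneg_left h3 (Real.exp_pos _).le).trans (le_of_eq ?_)
    rw [mul_left_comm, ← Real.exp_add]
    congr 2
    push_cast; ring

lemma sb_range {u v : Tr D} {n : ℕ} (h0 : sb M J ξ A τ true u true n v ≠ 0) :
    ‖v - u‖ ≤ (A : ℝ) * n := by
  have h1 : M.SW J A τ true (0, u) true ((n : ℤ) - 1, v) ≠ 0 := by
    intro k
    refine h0 ?_
    unfold sb
    rw [le_antisymm ((h.le _ _ _ _).trans k.le) zero_le]; simp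
  simpa using (h.supp _ _ _ _ h1).2 rfl rfl

/-- The renewal equation in real form. -/
lemma sw_eq (i : Bool) (u : Tr D) (o : Bool) (n : ℕ) (v : Tr D) :
    sw M J ξ A τ i u o n v = sb M J ξ A τ i u o n v +
      ∑ l ∈ Ioo 0 n, ∑' w, sb M J ξ A τ i u true l w * sw M J ξ A τ true w o (n - l) v := by
  set F : ℤ → ℝ≥0∞ := fun a => ∑' w : Tr D, M.SB J A τ i (0, u) true (a, w) *
    M.SW J A τ true (0, w) o ((n : ℤ) - 1 - (a + 1), v) with hF
  have e1' : ∑' z : Site D, M.SB J A τ i (0, u) true z *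
      M.SW J A τ true (z + e1) o ((n : ℤ) - 1, v) = ∑' a, F a := by
    rw [ENNReal.tsum_prod']
    refine tsum_congr fun a => tsum_congr fun w => ?_
    rw [← h.shift true (0, w) o ((n : ℤ) - 1 - (a + 1), v) (a + 1)]
    congr 2 <;> ext <;> simp
  have e2 : ∑' a, F a = ∑ l ∈ Ioo 0 n, F ((l : ℤ) - 1) := by
    rw [tsum_eq_sum (s := (Ioo 0 n).image fun l : ℕ => (l : ℤ) - 1), sum_image]
    · intro a _ b _ hab
      simp only at hab
      omega
    · intro a ha
      simp only [hF]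
      refine ENNReal.tsum_eq_zero.2 fun w => ?_
      by_cases h1 : a < 0
      · rw [h.SB_eq_zero (by simpa using h1), zero_mul]
      · rw [h.SW_eq_zero, mul_zero]
        by_contra h2
        refine ha (mem_image.2 ⟨(a + 1).toNat, mem_Ioo.2 ⟨by omega, ?_⟩, by omega⟩)
        simp only [not_lt] at h2
        omega
  have e3 := h.ren i (0, u) o ((n : ℤ) - 1, v)
  rw [e1', e2] at e3
  have hfin : ∑ l ∈ Ioo 0 n, F ((l : ℤ) - 1) ≠ ⊤ := by
    refine ne_top_of_le_ne_top (h.SW_ne_top i (0, u) o ((n : ℤ) - 1, v)) ?_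
    rw [e3]; exact le_add_self
  unfold sw sb
  rw [e3, ENNReal.toReal_add (h.SB_ne_top _ _ _ _) hfin, mul_add,
    ENNReal.toReal_sum fun l hl => ENNReal.sum_ne_top.1 hfin l hl, mul_sum]
  congr 1
  refine sum_congr rfl fun l hl => ?_
  have hl' := mem_Ioo.1 hl
  simp only [hF]
  rw [ENNReal.tsum_toReal_eq fun w => ENNReal.mul_ne_top (h.SB_ne_top _ _ _ _) (h.SW_ne_top _ _ _ _),
    ← tsum_mul_left]
  refine tsum_congr fun w => ?_
  have c1 : ((n - l : ℕ) : ℤ) - 1 = (n : ℤ) - 1 - ((l : ℤ) - 1 + 1) := by omega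
  have c2 : Real.exp (ξ * n) = Real.exp (ξ * l) * Real.exp (ξ * (n - l : ℕ)) := by
    rw [← Real.exp_add, Nat.cast_sub hl'.2.le]; congr 1; ring
  rw [c1, c2, ENNReal.toReal_mul]; ring

lemma kerOK {ν' C' : ℝ} (hν : 0 ≤ ν) (h1 : ν' ≤ ν) (h2 : C ≤ C') :
    KerOK (M.Kk J ξ A τ) A C' ν' := by
  refine ⟨fun l u v => sb_nonneg true u true l v, fun u v => h.sb_zero true u true v,
    fun l u v h0 => h.sb_range h0, fun l u v => (h.sb_le true u true l v).trans ?_⟩
  refine mul_le_mul h2 (Real.exp_le_exp.2 ?_) (Real.exp_pos _).le (h.hC.trans h2)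
  have := norm_nonneg (v - u)
  have : (0 : ℝ) ≤ l := Nat.cast_nonneg l
  nlinarith

lemma isGp : IsGp (M.Kk J ξ A τ) fun n u v => sw M J ξ A τ true u true n v :=
  fun n u v => h.sw_eq true u true n v

lemma adm {ν' C' : ℝ} (h1 : ν' ≤ ν) (h2 : C ≤ C')
    (pL : 0 < M.SB J A τ false 0 true (0, u0 D)) (pR : 0 < M.SB J A τ true (0, u0 D) false 0)
    {t : ℕ → ℝ} (ht : ∀ n, 1 ≤ n → t n = sw M J ξ A τ false 0 false n 0) :
    Adm (M.Kk J ξ A τ) A C' ν' t := by
  have key : ∀ (n : ℕ) (r : ℝ), 0 ≤ r → C * Real.exp (-ν * (n + r)) ≤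
      C' * Real.exp (-ν' * (n + r)) := fun n r hr =>
    mul_le_mul h2 (Real.exp_le_exp.2 (by
      have : (0 : ℝ) ≤ n := Nat.cast_nonneg n
      nlinarith)) (Real.exp_pos _).le (h.hC.trans h2)
  refine ⟨fun l v => sb M J ξ A τ false 0 true l v, fun l u => sb M J ξ A τ true u false l 0,
    fun l u => sw M J ξ A τ true u false l 0, fun n => sb M J ξ A τ false 0 false n 0,
    ⟨fun l v => sb_nonneg _ _ _ _ _, fun l v => ?_, ?_⟩,
    ⟨fun l v => sb_nonneg _ _ _ _ _, fun l v => ?_, ?_⟩,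
    fun n => ⟨sb_nonneg _ _ _ _ _, ?_⟩, fun n u _ => h.sw_eq true u false n 0, fun n hn => ?_⟩
  · have := h.sb_le false 0 true l v
    rw [sub_zero] at this
    exact this.trans (key l _ (norm_nonneg _))
  · refine mul_pos (Real.exp_pos _) (ENNReal.toReal_pos ?_ (h.SB_ne_top _ _ _ _))
    rw [Nat.cast_one, sub_self]; exact pL.ne'
  · have := h.sb_le true v false l 0
    rw [zero_sub, norm_neg] at this
    exact this.trans (key l _ (norm_nonneg _))
  · refine mul_pos (Real.exp_pos _) (ENNReal.toReal_pos ?_ (h.SB_ne_top _ _ _ _))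
    rw [Nat.cast_one, sub_self]; exact pR.ne'
  · have := h.sb_le false 0 false n 0
    have k := key n 0 le_rfl
    simp only [sub_self, norm_zero, add_zero] at this k
    exact this.trans k
  · rw [ht n hn]; exact h.sw_eq false 0 false n 0

end Pack

end

end Pool.Agent.MP_48a2f9_mp.OZ.Ren

end MrgPart2

-- ======== part 3: formerly Pool.Agent.MP_48a2f9_mp.RenB
section MrgPart3

/-!
Tilted weights, and the passage from lists of pieces to clusters.
-/

open Filter Topology Finset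
open scoped ENNReal

namespace Pool.Agent.MP_48a2f9_mp.OZ.Ren

noncomputable section
open Classical

variable {D : ℕ} {M : Model D} {J : ℝ} {A : ℕ}

lemma theta_nonneg (h : M.CW) (hJ : 0 ≤ J) (γ : Piece D) : 0 ≤ M.theta J γ := by
  unfold Model.theta Model.inF Model.outF
  refine mul_nonneg (mul_nonneg ?_ (prod_nonneg fun e _ => h.rr_nonneg hJ e)) ?_
  · split_ifs
    exacts [Real.sqrt_nonneg _, h.q_pos.le]
  · split_ifs
    exacts [Real.sqrt_nonneg _, zero_le_one]

lemma Wl_eq (τ : Piece D → ℝ) (l : List (Piece D)) :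
    M.Wl J τ l = M.Wl J (fun _ => 1) l * (l.map τ).prod := by
  unfold Model.Wl
  rw [List.prod_map_mul]
  simp only [mul_one]
  ring

lemma Bl_eq (τ : Piece D → ℝ) (l : List (Piece D)) :
    M.Bl J τ l = M.Bl J (fun _ => 1) l * (l.map τ).prod := by
  unfold Model.Bl
  rw [List.prod_map_mul]
  simp only [mul_one]
  ring

lemma ch_ne_nil {i o : Bool} {x y : Site D} {l : List (Piece D)} (h : Ch A i x o y l) : l ≠ [] := by
  rintro rfl
  obtain ⟨γ, h1, -⟩ := h.2.1
  simp at h1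

lemma Bl_nonneg (h1 : R1Stmt) (h : M.CW) (hJ : 0 ≤ J) {i o : Bool} {x y : Site D}
    {l : List (Piece D)} (hl : Ch A i x o y l) : 0 ≤ M.Bl J (fun _ => 1) l := by
  obtain ⟨C, κ, -, hB⟩ := h1 D M J A h hJ
  refine mul_nonneg (List.prod_nonneg fun a ha => ?_) (hB l hl.1 (ch_ne_nil hl)).1
  obtain ⟨γ, -, rfl⟩ := List.mem_map.1 ha
  simpa using theta_nonneg h hJ γ

/-- Comparison of tilted block sums through the products of the tilts. -/
lemma SB_le_SB (h1 : R1Stmt) (h : M.CW) (hJ : 0 ≤ J) {i o : Bool} {x y : Site D}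
    {τ τ' : Piece D → ℝ} {a b : ℝ} (ha : 0 ≤ a) (hb : 0 ≤ b)
    (hτ : ∀ l, Ch A i x o y l → a * (l.map τ).prod ≤ b * (l.map τ').prod) :
    ENNReal.ofReal a * M.SB J A τ i x o y ≤ ENNReal.ofReal b * M.SB J A τ' i x o y := by
  unfold Model.SB
  rw [← ENNReal.tsum_mul_left, ← ENNReal.tsum_mul_left]
  refine ENNReal.tsum_le_tsum fun l => ?_
  split_ifs with hl
  · rw [← ENNReal.ofReal_mul ha, ← ENNReal.ofReal_mul hb, Bl_eq τ, Bl_eq τ']
    refine ENNReal.ofReal_le_ofReal ?_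
    have := mul_le_mul_of_nonneg_left (hτ l hl) (Bl_nonneg h1 h hJ hl)
    linarith
  · simp

lemma one_le_prod {τ : Piece D → ℝ} (hτ : ∀ γ, 1 ≤ τ γ) (l : List (Piece D)) :
    1 ≤ (l.map τ).prod := by
  induction l with
  | nil => simp
  | cons γ l ih => simpa using one_le_mul_of_one_le_of_one_le (hτ γ) ih

lemma SB_one_le (h1 : R1Stmt) (h : M.CW) (hJ : 0 ≤ J) (i o : Bool) (x y : Site D)
    {τ : Piece D → ℝ} (hτ : ∀ γ, 1 ≤ τ γ) :
    M.SB J A (fun _ => 1) i x o y ≤ M.SB J A τ i x o y := by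
  have := SB_le_SB (A := A) (i := i) (o := o) (x := x) (y := y) (τ := fun _ => 1) (τ' := τ) h1 h hJ
    zero_le_one zero_le_one fun l _ => by simpa using one_le_prod hτ l
  simpa using this

/-- Sums over lists of pieces are sums over clusters. -/
lemma tsum_lists (h2 : R2Stmt) (h : M.CW) (hJ : 0 ≤ J) (A : ℕ) {x y : Site D} (hxy : x.1 ≤ y.1)
    (f : Finset (Ed D) → ℝ≥0∞) :
    (∑' E : Finset (Ed D), if y ∈ verts x E then M.wt J Set.univ x E * f E else 0) =
      ∑' l : List (Piece D), if Ch A false x false y l then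
        ENNReal.ofReal (M.Wl J (fun _ => 1) l) * f (glueE l) else 0 := by
  obtain ⟨ha, hb, hc, -, -⟩ := h2 D A
  refine tsum_eq_tsum_of_ne_zero_bij (fun l => glueE l.1) ?_ ?_ ?_
  · rintro ⟨l, hl⟩ ⟨l', hl'⟩ e
    have k : Ch A false x false y l := by
      by_contra k; exact hl (if_neg k)
    have k' : Ch A false x false y l' := by
      by_contra k; exact hl' (if_neg k)
    exact Subtype.ext (hb _ _ _ _ l l' k k' e)
  · intro E hE
    have k1 : y ∈ verts x E := by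
      by_contra k; exact hE (if_neg k)
    have hE' : M.wt J Set.univ x E * f E ≠ 0 := by
      have := hE
      rwa [Function.mem_support, if_pos k1] at this
    have k2 := (Model.wt_ne_zero (left_ne_zero_of_mul hE')).1
    obtain ⟨l, hl, rfl⟩ := hc x y E k2 k1 hxy
    obtain ⟨a1, a2, a3, -, -, -, -, a8⟩ := ha _ _ _ _ l hl
    refine ⟨⟨l, ?_⟩, rfl⟩
    rw [Function.mem_support, if_pos hl]
    rw [Model.wt_of a1 (Set.subset_univ _)] at hE'
    have : M.Wl J (fun _ => 1) l = M.wtR J Set.univ x (glueE l) := by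
      unfold Model.Wl Model.wtR Model.Phi
      simp only [mul_one]
      rw [a8 M J h.beta_pos.le hJ, a2]
      simp [Model.inF, Model.outF]
    rwa [this]
  · rintro ⟨l, hl⟩
    have k : Ch A false x false y l := by
      by_contra k; exact hl (if_neg k)
    obtain ⟨a1, a2, a3, -, -, -, -, a8⟩ := ha _ _ _ _ l k
    have : M.Wl J (fun _ => 1) l = M.wtR J Set.univ x (glueE l) := by
      unfold Model.Wl Model.wtR Model.Phi
      simp only [mul_one]
      rw [a8 M J h.beta_pos.le hJ, a2]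
      simp [Model.inF, Model.outF]
    simp only
    rw [if_pos k, if_pos (a2 ▸ a3), Model.wt_of a1 (Set.subset_univ _), this]

lemma Wl_nonneg (h : M.CW) (hJ : 0 ≤ J) (l : List (Piece D)) : 0 ≤ M.Wl J (fun _ => 1) l := by
  refine mul_nonneg (List.prod_nonneg fun a ha => ?_) (h.psi_pos hJ (Set.subset_univ _)).le
  obtain ⟨γ, -, rfl⟩ := List.mem_map.1 ha
  simpa using theta_nonneg h hJ γ

lemma SW_eq (h : M.CW) (hJ : 0 ≤ J) (τ : Piece D → ℝ) (i o : Bool) (x y : Site D) :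
    M.SW J A τ i x o y = ∑' l : List (Piece D), if Ch A i x o y l then
      ENNReal.ofReal (M.Wl J (fun _ => 1) l) * ENNReal.ofReal (l.map τ).prod else 0 := by
  unfold Model.SW
  refine tsum_congr fun l => ?_
  rw [Wl_eq τ, ENNReal.ofReal_mul (Wl_nonneg h hJ l)]

lemma SW_one (h2 : R2Stmt) (h : M.CW) (hJ : 0 ≤ J) (A : ℕ) {x y : Site D} (hxy : x.1 ≤ y.1) :
    M.SW J A (fun _ => 1) false x false y = M.tau J Set.univ x y := by
  have := tsum_lists h2 h hJ A hxy fun _ => 1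
  simp only [mul_one] at this
  exact this.symm

/-! ### The two tilts -/

/-- The tilt that counts the pieces entered along the line. -/
def tK (κ : ℝ) (γ : Piece D) : ℝ := if γ.i = true ∧ γ.x.2 = 0 then 1 + κ else 1

/-- The tilt that counts the vertices on the line. -/
def tL (η : ℝ) (γ : Piece D) : ℝ := (1 + η) ^ (γ.vs.filter fun v => v.2 = 0).card

lemma one_add_le_exp_mul {κ η : ℝ} (hκ : 0 ≤ κ) (h : κ ≤ η) {n k : ℕ} (hn : k ≤ n) :
    (1 + κ) ^ k ≤ Real.exp (η * n) := by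
  calc (1 + κ) ^ k ≤ (1 + κ) ^ n := pow_le_pow_right₀ (by linarith) hn
    _ ≤ Real.exp η ^ n := pow_le_pow_left₀ (by linarith) (by linarith [Real.add_one_le_exp η]) n
    _ = _ := by rw [← Real.exp_nat_mul, mul_comm]

lemma tilt_one {η : ℝ} (hη : 0 ≤ η) : Tilt η (fun _ : Piece D => (1 : ℝ)) :=
  ⟨fun γ => ⟨le_rfl, Real.one_le_exp (by positivity)⟩, fun _ _ => rfl⟩

lemma tilt_tK {κ η : ℝ} (hκ : 0 ≤ κ) (h : κ ≤ η) : Tilt η (tK (D := D) κ) := by
  refine ⟨fun γ => ?_, fun k γ => by simp [tK, Piece.map]⟩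
  unfold tK
  split_ifs
  · exact ⟨by linarith, by simpa [Piece.vs] using one_add_le_exp_mul hκ h (card_verts_pos γ.x γ.E)⟩
  · exact ⟨le_rfl, Real.one_le_exp (mul_nonneg (hκ.trans h) (Nat.cast_nonneg _))⟩

lemma tilt_tL {κ η : ℝ} (hκ : 0 ≤ κ) (h : κ ≤ η) : Tilt η (tL (D := D) κ) := by
  refine ⟨fun γ => ⟨one_le_pow₀ (by linarith), one_add_le_exp_mul hκ h (card_filter_le _ _)⟩,
    fun k γ => ?_⟩
  unfold tL Piece.vs Piece.map
  simp only
  rw [verts_image (· + ((k, 0) : Site D)), filter_image,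
    card_image_of_injective _ (add_left_injective _)]
  simp

lemma prod_tK (κ : ℝ) (l : List (Piece D)) :
    (l.map (tK κ)).prod = (1 + κ) ^ l.countP (fun γ => γ.i = true ∧ γ.x.2 = 0) := by
  induction l with
  | nil => simp
  | cons γ l ih =>
    rw [List.map_cons, List.prod_cons, ih, List.countP_cons]
    unfold tK
    by_cases h : γ.i = true ∧ γ.x.2 = 0
    · rw [if_pos h, if_pos (by simpa using h), pow_succ]; ring
    · rw [if_neg h, if_neg (by simpa using h)]; simp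

lemma mem_allV {l : List (Piece D)} {v : Site D} : v ∈ allV l ↔ ∃ γ ∈ l, v ∈ γ.vs := by
  induction l with
  | nil => simp [allV]
  | cons γ l ih =>
    have : allV (γ :: l) = γ.vs ∪ allV l := rfl
    simp [this, ih]

lemma prod_tL (η : ℝ) {l : List (Piece D)} (hl : l.Pairwise fun γ γ' => Disjoint γ.vs γ'.vs) :
    (l.map (tL η)).prod = (1 + η) ^ ((allV l).filter fun v => v.2 = 0).card := by
  induction l with
  | nil => simp [allV]
  | cons γ l ih =>
    rw [List.pairwise_cons] at hl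
    have e : allV (γ :: l) = γ.vs ∪ allV l := rfl
    have hd : Disjoint γ.vs (allV l) := by
      rw [disjoint_left]
      intro v hv hv'
      obtain ⟨γ', h1, h2⟩ := mem_allV.1 hv'
      exact disjoint_left.1 (hl.1 γ' h1) hv h2
    rw [List.map_cons, List.prod_cons, ih hl.2, e, filter_union,
      card_union_of_disjoint (disjoint_filter_filter hd), pow_add]
    rfl

lemma SW_tK_le (h2 : R2Stmt) (h : M.CW) (hJ : 0 ≤ J) (A n : ℕ) {κ κ' : ℝ} (h0 : 0 ≤ κ')
    (hκ : κ' ≤ κ) : M.SW J A (tK κ') false 0 false ((n : ℤ), 0) ≤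
      ∑' E : Finset (Ed D), if ((n : ℤ), 0) ∈ verts 0 E then
        M.wt J Set.univ 0 E * ENNReal.ofReal ((1 + κ) ^ lineBreaks E n) else 0 := by
  rw [tsum_lists h2 h hJ A (by simp), SW_eq h hJ]
  refine ENNReal.tsum_le_tsum fun l => ?_
  split_ifs with hl
  · gcongr
    rw [prod_tK]
    calc _ ≤ (1 + κ') ^ lineBreaks (glueE l) n :=
          pow_le_pow_right₀ (by linarith) ((h2 D A).2.2.2.1 n l hl)
      _ ≤ _ := pow_le_pow_left₀ (by linarith) (by linarith) _
  · exact le_rfl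

lemma SW_tL_eq (h2 : R2Stmt) (h : M.CW) (hJ : 0 ≤ J) (A n : ℕ) (η : ℝ) :
    (∑' E : Finset (Ed D), if ((n : ℤ), 0) ∈ verts 0 E then M.wt J Set.univ 0 E *
        ENNReal.ofReal ((1 + η) ^ ((verts 0 E).filter fun v => v.2 = 0).card) else 0) =
      M.SW J A (tL η) false 0 false ((n : ℤ), 0) := by
  rw [tsum_lists h2 h hJ A (by simp), SW_eq h hJ]
  refine tsum_congr fun l => ?_
  split_ifs with hl
  · obtain ⟨-, a2, -, a4, -⟩ := (h2 D A).1 _ _ _ _ l hl
    rw [prod_tL η a4, a2]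
  · rfl

lemma prod_tK_ge {κ : ℝ} (hκ : 0 ≤ κ) {y : Site D} {l : List (Piece D)}
    (hl : Ch A true (0, 0) true y l) : 1 + κ ≤ (l.map (tK κ)).prod := by
  obtain ⟨γ, h1, h2, h3⟩ := hl.2.1
  obtain ⟨l', rfl⟩ : ∃ l', l = γ :: l' := by
    cases l with
    | nil => simp at h1
    | cons a l' => exact ⟨l', by simp at h1; rw [h1]⟩
  rw [List.map_cons, List.prod_cons]
  have : tK κ γ = 1 + κ := if_pos ⟨h2, by rw [h3]⟩
  rw [this]
  exact le_mul_of_one_le_right (by linarith) (one_le_prod (fun γ => ((tilt_tK hκ le_rfl).1 γ).1) l')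

lemma prod_tL_le (h2 : R2Stmt) {η : ℝ} (hη : 0 ≤ η) {u v : Tr D} {n : ℕ} {l : List (Piece D)}
    (hl : Ch A true (0, u) true ((n : ℤ) - 1, v) l) :
    (l.map (tL η)).prod ≤ if ‖u‖ ≤ (A : ℝ) * n then Real.exp (η * (A * n)) else 1 := by
  obtain ⟨a1, a2, a3, a4, a5, a6, a7, -⟩ := (h2 D A).1 _ _ _ _ l hl
  obtain ⟨b1, b2⟩ := a6 rfl
  have hn : (0 : ℤ) ≤ (n : ℤ) - 1 := b1 _ a3
  have hc : (allV l).card ≤ A * n := by
    have := b2 ((n : ℤ) - 1) (by simp only; omega)
    unfold slab at this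
    rw [filter_true_of_mem fun w hw => ⟨by have := b1 w hw; omega, a7 rfl w hw⟩] at this
    simp only [zero_sub, sub_neg_eq_add, sub_add_cancel] at this
    exact_mod_cast this
  rw [prod_tL η a4]
  split_ifs with hu
  · have := one_add_le_exp_mul hη le_rfl ((card_filter_le (allV l) fun v => v.2 = 0).trans hc)
    simpa using this
  · rw [filter_false_of_mem, card_empty, pow_zero]
    intro w hw hw0
    refine hu ?_
    have h3 := a1.norm_le_card (a2 ▸ hw)
    have h4 : ‖(w - (0, u)).2‖ ≤ ‖w - (0, u)‖ := norm_snd_le _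
    rw [Prod.snd_sub, hw0, zero_sub, norm_neg] at h4
    rw [a2] at h3
    have h5 : ((allV l).card : ℝ) ≤ A * n := by exact_mod_cast hc
    linarith

end

end Pool.Agent.MP_48a2f9_mp.OZ.Ren

end MrgPart3

-- ======== part 4: formerly Pool.Agent.MP_48a2f9_mp.Ren
section MrgPart4

/-!
The renewal structure of the two-point function.
-/

open Filter Topology Finset
open scoped ENNReal

namespace Pool.Agent.MP_48a2f9_mp.OZ

namespace Ren

noncomputable section
open Classical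

variable {D : ℕ} {M : Model D} {J ξ : ℝ} {A : ℕ}

lemma exists_pack (hN : RNStmt) (h : M.CW) (hG : M.Good J ξ) {η ν C : ℝ} (hC : 0 ≤ C)
    (ha : ∀ (i : Bool) (x : Site D) (o : Bool) (s : ℕ) (v : Tr D),
      M.SW J A (fun _ => 1) i x o (x.1 + s, v) ≤ ENNReal.ofReal (C * Real.exp (-ξ * (s + 1))) ∧
      ∀ τ : Piece D → ℝ, Tilt η τ → M.SW J A τ i x o (x.1 + s, v) ≠ ⊤ ∧
        M.SB J A τ i x o (x.1 + s, v) ≤
          ENNReal.ofReal (C * Real.exp (-ξ * (s + 1) - ν * (s + 1 + ‖v - x.2‖))))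
    {τ : Piece D → ℝ} (hτ : Tilt η τ) : Pack M J ξ A τ ν C :=
  ⟨hC, fun i x o y => (hN D M J η A τ h hG.1 hτ i x o y).1,
    fun i x o y k => ((hN D M J η A τ h hG.1 hτ i x o y).2.1 k).1,
    fun i x o y => (hN D M J η A τ h hG.1 hτ i x o y).2.2.1,
    fun i x o y => (hN D M J η A τ h hG.1 hτ i x o y).2.2.2,
    fun i x o s v => ((ha i x o s v).2 τ hτ).1, fun i x o s v => ((ha i x o s v).2 τ hτ).2⟩

lemma sw_le {ν C : ℝ} (hP : Pack M J ξ A (fun _ => 1) ν C)
    (ha : ∀ (i : Bool) (x : Site D) (o : Bool) (s : ℕ) (v : Tr D),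
      M.SW J A (fun _ => 1) i x o (x.1 + s, v) ≤ ENNReal.ofReal (C * Real.exp (-ξ * (s + 1))))
    (i : Bool) (u : Tr D) (o : Bool) (n : ℕ) (v : Tr D) :
    sw M J ξ A (fun _ => 1) i u o n v ≤ C := by
  rcases n with _ | s
  · rw [hP.sw_zero]; exact hP.hC
  · have h1 := ha i (0, u) o s v
    have h2 : (((0 : ℤ), u).1 + s, v) = (((s + 1 : ℕ) : ℤ) - 1, v) := by simp
    rw [h2] at h1
    have h3 := ENNReal.toReal_le_of_le_ofReal (by have := hP.hC; positivity) h1
    unfold sw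
    refine (mul_le_mul_of_nonneg_left h3 (Real.exp_pos _).le).trans (le_of_eq ?_)
    rw [mul_left_comm, ← Real.exp_add]
    push_cast
    rw [show ξ * ((s : ℝ) + 1) + -ξ * (s + 1) = 0 by ring, Real.exp_zero, mul_one]

lemma sw_b (h2 : R2Stmt) (h : M.CW) (hJ : 0 ≤ J) (n : ℕ) (hn : 1 ≤ n) :
    M.b J (n - 1) * Real.exp (ξ * n) = sw M J ξ A (fun _ => 1) false 0 false n 0 := by
  unfold sw Model.b
  have e : ((n - 1 : ℕ) : ℤ) = (n : ℤ) - 1 := by omega
  rw [e, mul_comm, ← SW_one h2 h hJ A (x := 0) (by simp only [Prod.fst_zero]; omega)]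
  rfl

lemma not_decay {b : ℕ → ℝ} (hb : ∀ n, 0 < b n)
    (hl : Tendsto (fun n : ℕ => -(1 / (n : ℝ)) * Real.log (b n)) atTop (𝓝 ξ)) :
    ¬ ∃ C' ε : ℝ, 0 < ε ∧ ∀ n : ℕ, 1 ≤ n →
      b (n - 1) * Real.exp (ξ * n) ≤ C' * Real.exp (-ε * n) := by
  rintro ⟨C', ε, hε, hC⟩
  have hC' : 0 < C' := by
    have := (mul_pos (hb _) (Real.exp_pos _)).trans_le (hC 1 le_rfl)
    exact (mul_pos_iff_of_pos_right (Real.exp_pos _)).1 this
  have key : ∀ n : ℕ, 1 ≤ n → ξ + ε - (Real.log C' - ξ - ε) * (1 / (n : ℝ)) ≤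
      -(1 / (n : ℝ)) * Real.log (b n) := by
    intro n hn
    have h1 := Real.log_le_log (mul_pos (hb _) (Real.exp_pos _)) (hC (n + 1) (by omega))
    rw [Real.log_mul (hb _).ne' (Real.exp_pos _).ne', Real.log_mul hC'.ne' (Real.exp_pos _).ne',
      Real.log_exp, Real.log_exp, Nat.add_sub_cancel] at h1
    push_cast at h1
    have hn' : (0 : ℝ) < n := by exact_mod_cast hn
    have h2 : Real.log (b n) ≤ (Real.log C' - ξ - ε) - (ξ + ε) * n := by linarith
    have h3 := mul_le_mul_of_nonneg_left h2 (one_div_pos.2 hn').le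
    have h4 : 1 / (n : ℝ) * ((ξ + ε) * n) = ξ + ε := by field_simp
    nlinarith
  have h5 : Tendsto (fun n : ℕ => ξ + ε - (Real.log C' - ξ - ε) * (1 / (n : ℝ))) atTop
      (𝓝 (ξ + ε - (Real.log C' - ξ - ε) * 0)) :=
    tendsto_const_nhds.sub (tendsto_one_div_atTop_nhds_zero_nat.const_mul _)
  have := le_of_tendsto_of_tendsto h5 hl (eventually_atTop.2 ⟨1, key⟩)
  linarith

lemma Kk_pos {τ : Piece D → ℝ} {ν C : ℝ} (hP : Pack M J ξ A τ ν C) {l : ℕ} {u v : Tr D}
    (h : 0 < M.SB J A τ true (0, u) true ((l : ℤ) - 1, v)) : 0 < M.Kk J ξ A τ l u v :=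
  mul_pos (Real.exp_pos _) (ENNReal.toReal_pos h.ne' (hP.SB_ne_top _ _ _ _))

lemma Kk_le {τ τ' : Piece D → ℝ} {ν C a b : ℝ} (hP : Pack M J ξ A τ' ν C) (ha : 0 ≤ a) (hb : 0 ≤ b)
    {l : ℕ} {u v : Tr D}
    (h : ENNReal.ofReal a * M.SB J A τ true (0, u) true ((l : ℤ) - 1, v) ≤
      ENNReal.ofReal b * M.SB J A τ' true (0, u) true ((l : ℤ) - 1, v)) :
    a * M.Kk J ξ A τ l u v ≤ b * M.Kk J ξ A τ' l u v := by
  have := ENNReal.toReal_mono (ENNReal.mul_ne_top ENNReal.ofReal_ne_top (hP.SB_ne_top _ _ _ _)) h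
  rw [ENNReal.toReal_mul, ENNReal.toReal_mul, ENNReal.toReal_ofReal ha,
    ENNReal.toReal_ofReal hb] at this
  unfold Model.Kk
  have := mul_le_mul_of_nonneg_left this (Real.exp_pos (ξ * l)).le
  linarith

lemma small_tilt {C ν₀ ν η δ l r : ℝ} {A : ℕ} (hC : 0 ≤ C) (h0 : 0 < ν₀) (hν : 0 ≤ ν)
    (h1 : ν * (1 + A) ≤ ν₀ / 2) (hη : 0 ≤ η) (h2 : η * A ≤ ν₀ / 4) (h3 : C * (η * A) ≤ δ * (ν₀ / 4))
    (hl : 0 ≤ l) (hr : r ≤ A * l) :
    (Real.exp (η * (A * l)) - 1) * (C * Real.exp (-ν₀ * l)) ≤ δ * Real.exp (-ν * (l + r)) := by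
  have hy : 0 ≤ η * (A * l) := by positivity
  have a1 : Real.exp (η * (A * l)) - 1 ≤ η * (A * l) * Real.exp (η * (A * l)) := by
    have := Real.add_one_le_exp (-(η * (A * l)))
    have h4 := mul_le_mul_of_nonneg_right this (Real.exp_pos (η * (A * l))).le
    rw [← Real.exp_add, neg_add_cancel, Real.exp_zero] at h4
    linarith
  have a2 : ν₀ / 4 * l ≤ Real.exp (ν₀ / 4 * l) := by linarith [Real.add_one_le_exp (ν₀ / 4 * l)]
  have hδ : 0 ≤ δ := by
    have : 0 ≤ δ * (ν₀ / 4) := le_trans (by positivity) h3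
    exact nonneg_of_mul_nonneg_left this (by positivity)
  calc _ ≤ η * (A * l) * Real.exp (η * (A * l)) * (C * Real.exp (-ν₀ * l)) := by gcongr
    _ = C * (η * A) * l * (Real.exp (η * (A * l)) * Real.exp (-ν₀ * l)) := by ring
    _ ≤ δ * (ν₀ / 4) * l * (Real.exp (η * (A * l)) * Real.exp (-ν₀ * l)) := by gcongr
    _ = δ * ((ν₀ / 4 * l) * (Real.exp (η * (A * l)) * Real.exp (-ν₀ * l))) := by ring
    _ ≤ δ * (Real.exp (ν₀ / 4 * l) * (Real.exp (η * (A * l)) * Real.exp (-ν₀ * l))) := by gcongr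
    _ ≤ _ := by
      rw [← Real.exp_add, ← Real.exp_add]
      gcongr
      have b1 := mul_le_mul_of_nonneg_right h1 hl
      have b2 := mul_le_mul_of_nonneg_right h2 hl
      have b3 := mul_le_mul_of_nonneg_left hr hν
      nlinarith

end

end Ren

open Ren in
theorem renStmt (hM : MassStmt) (h1 : R1Stmt) (h2 : R2Stmt) (hN : RNStmt) (ha : R3aStmt)
    (hb : R3bStmt) (hc : R3cStmt) : RenStmt := by
  intro D M J ξ hD h hG hG1 hlim hpos
  have hJ := hG.1
  obtain ⟨A1, ha1⟩ := ha D M J ξ h hG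
  obtain ⟨A2, ha2⟩ := ha D M 1 ξ h hG1
  obtain ⟨A3, hb1⟩ := hb D M J ξ h hG hG1
  obtain ⟨A4, hc1⟩ := hc D M hD h
  set A := A1 + A2 + A3 + A4 with hA
  obtain ⟨η₁, ν₁, C₁, hη₁, hν₁, hC₁, hb₁⟩ := ha1 A (by omega)
  obtain ⟨η₂, ν₂, C₂, hη₂, hν₂, hC₂, hb₂⟩ := ha2 A (by omega)
  obtain ⟨ν₃, C₃, hν₃, hb₃⟩ := hb1 A (by omega)
  obtain ⟨hsym, hp⟩ := hc1 A (by omega)
  set C := max C₁ (max C₂ C₃) with hC
  set ν := min (ν₁ / 2 / (1 + A)) (min ν₂ ν₃) with hν
  have hA0 : (0 : ℝ) ≤ A := Nat.cast_nonneg A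
  have hν0 : 0 < ν := lt_min (by positivity) (lt_min hν₂ hν₃)
  have hνa : ν * (1 + A) ≤ ν₁ / 2 := (le_div_iff₀ (by positivity)).1 (min_le_left _ _)
  have hν1 : ν ≤ ν₁ := by nlinarith
  have hν2 : ν ≤ ν₂ := (min_le_right _ _).trans (min_le_left _ _)
  have hν3 : ν ≤ ν₃ := (min_le_right _ _).trans (min_le_right _ _)
  have c1 : C₁ ≤ C := le_max_left _ _
  have c2 : C₂ ≤ C := (le_max_left _ _).trans (le_max_right _ _)
  have c3 : C₃ ≤ C := (le_max_right _ _).trans (le_max_right _ _)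
  have P : ∀ τ : Piece D → ℝ, Tilt η₁ τ → Pack M J ξ A τ ν₁ C₁ :=
    fun τ hτ => exists_pack hN h hG hC₁ hb₁ hτ
  have PJ := P _ (tilt_one hη₁.le)
  have P1 : Pack M 1 ξ A (fun _ => 1) ν₂ C₂ := exists_pack hN h hG1 hC₂ hb₂ (tilt_one hη₂.le)
  obtain ⟨pJ1, pJ2, pJ3, pJ4⟩ := hp J hJ
  obtain ⟨p11, p12, p13, -⟩ := hp 1 zero_le_one
  have hhk : hk (fun l u => M.Kk 1 ξ A (fun _ => 1) l 0 u) = M.Kk 1 ξ A (fun _ => 1) := by
    funext l u v
    unfold hk Model.Kk
    rw [(hsym _ u v).1]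
  have hom : HomOK (fun l u => M.Kk 1 ξ A (fun _ => 1) l 0 u) A C ν := by
    refine ⟨by rw [hhk]; exact P1.kerOK hν₂.le hν2 c2, fun l u => ?_, Kk_pos P1 ?_, fun u hu => Kk_pos P1 ?_⟩
    · unfold Model.Kk
      rw [(hsym _ 0 u).2]
    · rw [Nat.cast_one, sub_self]
      exact (p11 0 0 (Or.inl one_pos) (by simp)).1
    · exact (p11 0 u (Or.inl one_pos) (by rw [sub_zero]; linarith)).2
  have admT : ∀ τ : Piece D → ℝ, Tilt η₁ τ → ∀ t : ℕ → ℝ,
      (∀ n, 1 ≤ n → t n = sw M J ξ A τ false 0 false n 0) → Adm (M.Kk J ξ A τ) A C ν t :=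
    fun τ hτ t ht => (P τ hτ).adm hν1 c1
      (pJ2.trans_le (SB_one_le h1 h hJ _ _ _ _ fun γ => (hτ.1 γ).1))
      (pJ3.trans_le (SB_one_le h1 h hJ _ _ _ _ fun γ => (hτ.1 γ).1)) ht
  have monoT : ∀ τ : Piece D → ℝ, Tilt η₁ τ → ∀ l u v,
      M.Kk J ξ A (fun _ => 1) l u v ≤ M.Kk J ξ A τ l u v := fun τ hτ l u v => by
    have := Kk_le (τ := fun _ => 1) (l := l) (u := u) (v := v) (P τ hτ) zero_le_one zero_le_one
      (by simpa using SB_one_le h1 h hJ _ _ _ _ fun γ => (hτ.1 γ).1)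
    simpa using this
  have hu0 : u0 D ≠ 0 := fun k => by simpa [u0] using congrFun k ⟨0, hD⟩
  refine ⟨fun l u => M.Kk 1 ξ A (fun _ => 1) l 0 u, M.Kk J ξ A (fun _ => 1),
    fun n u v => sw M J ξ A (fun _ => 1) true u true n v, A, C, ν,
    ⟨hν0, hom, ?_, PJ.kerOK hν₁.le hν1 c1, fun l u v => ?_, ?_, Kk_pos PJ ?_, PJ.isGp,
      fun n u v => (sw_le PJ (fun i x o s v => (hb₁ i x o s v).1) _ _ _ _ _).trans c1⟩,
    admT _ (tilt_one hη₁.le) _ fun n hn => sw_b h2 h hJ n hn, ?_, ?_, ?_, ?_⟩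
  · refine hM D _ (fun n u v => sw M 1 ξ A (fun _ => 1) true u true n v) A C ν
      (fun n => M.b 1 (n - 1) * Real.exp (ξ * n)) hν0 hom (by rw [hhk]; exact P1.isGp)
      (fun n u v => (sw_le P1 (fun i x o s v => (hb₂ i x o s v).1) _ _ _ _ _).trans c2)
      (by rw [hhk]; exact P1.adm hν2 c2 p12 p13 fun n hn => sw_b h2 h zero_le_one n hn)
      (not_decay hpos hlim)
  · have e : M.Kk 1 ξ A (fun _ => 1) l 0 (v - u) = M.Kk 1 ξ A (fun _ => 1) l u v :=
      congrFun (congrFun (congrFun hhk l) u) v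
    simp only [e]
    refine (hb₃ l u v).trans (mul_le_mul c3 (Real.exp_le_exp.2 ?_) (Real.exp_pos _).le
      (hC₁.trans c1))
    have : (0 : ℝ) ≤ l + ‖u‖ := by positivity
    nlinarith
  · refine ⟨{u | 0 < J ∨ u ≠ 0}, fun u hu => Or.inr hu, fun l u v h0 => ?_,
      fun u hu v hv huv => Kk_pos PJ (pJ1 u v ?_ huv).2⟩
    · rcases hJ.lt_or_eq with k | k
      · exact ⟨Or.inl k, Or.inl k⟩
      · constructor <;> refine Or.inr fun k' => h0 ?_ <;> unfold Model.Kk
        · rw [pJ4 k.symm _ u v (Or.inl k')]; simp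
        · rw [pJ4 k.symm _ u v (Or.inr k')]; simp
    · rcases hu with k | k
      · exact Or.inl k
      · rcases hv with k' | k'
        exacts [Or.inl k', Or.inr ⟨k, k'⟩]
  · rw [Nat.cast_one, sub_self]
    exact (pJ1 _ _ (Or.inr ⟨hu0, hu0⟩) (by simp)).1
  · rintro rfl
    exact hhk.symm
  · exact fun k u v huv => Kk_pos PJ (pJ1 u v (Or.inl k) huv).2
  · intro κ hκ
    have k0 : 0 < min κ η₁ := lt_min hκ hη₁
    have hτ : Tilt η₁ (tK (D := D) (min κ η₁)) := tilt_tK k0.le (min_le_right _ _)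
    refine ⟨min κ η₁, M.Kk J ξ A (tK (min κ η₁)),
      fun n => sw M J ξ A (tK (min κ η₁)) false 0 false n 0, k0, (P _ hτ).kerOK hν₁.le hν1 c1,
      admT _ hτ _ fun _ _ => rfl, monoT _ hτ, fun l v => ?_, fun n => ?_⟩
    · have := Kk_le (τ := fun _ => 1) (l := l) (u := 0) (v := v) (P _ hτ) (a := 1 + min κ η₁)
        (by linarith) zero_le_one (SB_le_SB h1 h hJ (by linarith) zero_le_one fun l hl => by
          simpa using prod_tK_ge k0.le hl)
      simpa using this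
    · unfold sw
      rw [ENNReal.ofReal_mul (Real.exp_pos _).le, ENNReal.ofReal_toReal ((P _ hτ).SW_ne_top _ _ _ _)]
      push_cast
      rw [add_sub_cancel_right]
      gcongr
      exact SW_tK_le h2 h hJ A n k0.le (min_le_left _ _)
  · intro δ hδ
    set η := min η₁ (min (ν₁ / 4 / (A + 1)) (δ * (ν₁ / 4) / ((C₁ + 1) * (A + 1)))) with hη
    have k0 : 0 < η := lt_min hη₁ (lt_min (by positivity) (by positivity))
    have k1 : η * (A + 1) ≤ ν₁ / 4 :=
      (le_div_iff₀ (by positivity)).1 ((min_le_right _ _).trans (min_le_left _ _))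
    have k2 : η * ((C₁ + 1) * (A + 1)) ≤ δ * (ν₁ / 4) :=
      (le_div_iff₀ (by positivity)).1 ((min_le_right _ _).trans (min_le_right _ _))
    have hτ : Tilt η₁ (tL (D := D) η) := tilt_tL k0.le (min_le_left _ _)
    refine ⟨η, M.Kk J ξ A (tL η), fun n => sw M J ξ A (tL η) false 0 false n 0, k0,
      (P _ hτ).kerOK hν₁.le hν1 c1, admT _ hτ _ fun _ _ => rfl, fun l u v => ?_, fun n => ?_⟩
    · rw [abs_of_nonneg (sub_nonneg.2 (monoT _ hτ l u v))]
      have b0 : 0 ≤ if ‖u‖ ≤ (A : ℝ) * l then Real.exp (η * (A * l)) else 1 := by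
        split_ifs <;> positivity
      have b1 := Kk_le (τ := tL η) (l := l) (u := u) (v := v) PJ zero_le_one b0
        (SB_le_SB h1 h hJ zero_le_one b0 fun l hl => by simpa using prod_tL_le h2 k0.le hl)
      have b2 := (PJ.kerOK hν₁.le le_rfl le_rfl).decay l u v
      split_ifs at b1 with hu
      · have b3 := small_tilt (δ := δ) hC₁ hν₁ hν0.le hνa k0.le (by nlinarith) (by nlinarith)
          (Nat.cast_nonneg l) hu
        have b4 : 0 ≤ Real.exp (η * (A * l)) - 1 :=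
          sub_nonneg.2 (Real.one_le_exp (by positivity))
        have b5 := mul_le_mul_of_nonneg_left b2 b4
        linarith
      · have : 0 ≤ δ * Real.exp (-ν * (l + ‖u‖)) := by positivity
        linarith
    · unfold sw
      rw [ENNReal.ofReal_mul (Real.exp_pos _).le, ENNReal.ofReal_toReal ((P _ hτ).SW_ne_top _ _ _ _),
        SW_tL_eq h2 h hJ A n η]
      push_cast
      rw [add_sub_cancel_right]
      exact le_rfl

end Pool.Agent.MP_48a2f9_mp.OZ

end MrgPart4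

-- ======== part 5: formerly Pool.Agent.MP_48a2f9_mp.Ren2c
section MrgPart5

/-!
The strong renewal theorem `u n * m n -> 1` when `(n+1) r n` is bounded and `o (m n)`.
-/

open Finset Filter Topology

namespace Pool.Agent.MP_48a2f9_mp.Ren2

noncomputable section

variable {f u : ℕ → ℝ}

lemma lin_bound (h : IsRen f u) (hs : HasSum f 1) (hf : 0 < f 1)
    (H : Tendsto (fun n : ℕ => ((n : ℝ) + 1) * rr f n / mm f n) atTop (𝓝 0)) {B : ℝ}
    (hB : ∀ n : ℕ, ((n : ℝ) + 1) * rr f n ≤ B) :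
    ∃ A : ℝ, 0 ≤ A ∧ ∀ n : ℕ, ∑ i ∈ range n, xx u i ^ 2 ≤ A * n := by
  obtain ⟨K, hK, hsq⟩ := sq_bound h hs hf H
  refine ⟨4 * K * B ^ 2, by positivity, fun n => ?_⟩
  rcases Nat.eq_zero_or_pos n with rfl | hn
  · simp
  have hn' : (1 : ℝ) ≤ n := by exact_mod_cast hn
  set a : ℝ := 1 / (2 * n) with ha
  have a0 : 0 < a := by positivity
  have a1 : a * n = 1 / 2 := by rw [ha]; field_simp
  have a2 : a ≤ 1 / 2 := by nlinarith
  obtain ⟨hsum, hle⟩ := hsq (1 - a) (by linarith) (by linarith)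
  have hy : ∀ i, yy f i ^ 2 ≤ B ^ 2 := by
    intro i
    have b0 : 0 ≤ yy f i := mul_nonneg (rr_nonneg h hs _) (by positivity)
    have b1 : yy f i ≤ B := by
      have := hB (i + 1)
      have b2 := rr_nonneg h hs (i + 1)
      push_cast at this
      rw [yy]; nlinarith
    exact pow_le_pow_left₀ b0 b1 2
  have hg := hasSum_geometric_of_lt_one (r := 1 - a) (by linarith) (by linarith)
  have c1 : ∑' i, yy f i ^ 2 * (1 - a) ^ i ≤ B ^ 2 * (2 * n) := by
    have c2 : (1 - (1 - a))⁻¹ = 2 * n := by rw [ha]; field_simp; ring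
    rw [← c2]
    refine hasSum_le (fun i => ?_) hsum.hasSum (hg.mul_left _)
    exact mul_le_mul_of_nonneg_right (hy i) (pow_nonneg (by linarith) _)
  have c3 : ∑ i ∈ range n, xx u i ^ 2 * (1 / 2) ≤ ∑ i ∈ range n, xx u i ^ 2 * (1 - a) ^ i := by
    refine sum_le_sum fun i hi => mul_le_mul_of_nonneg_left ?_ (sq_nonneg _)
    have d1 := one_add_mul_le_pow (a := -a) (by linarith) i
    have d2 : (i : ℝ) ≤ n := by exact_mod_cast (mem_range.1 hi).le
    rw [← sub_eq_add_neg] at d1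
    nlinarith
  rw [← sum_mul] at c3
  have c4 := hle n
  have c5 := mul_le_mul_of_nonneg_left c1 hK
  nlinarith

lemma osc_bound {A : ℝ} (hA0 : 0 ≤ A) (hA : ∀ n : ℕ, ∑ i ∈ range n, xx u i ^ 2 ≤ A * n)
    {n j : ℕ} (hn : 0 < n) (hj : 2 * j ≤ n) :
    |u n - u (n - j)| ≤ 2 * Real.sqrt A * Real.sqrt j / Real.sqrt n := by
  have hn' : (0 : ℝ) < n := by exact_mod_cast hn
  have e : u n - u (n - j) = ∑ i ∈ Ico (n - j) n, (u (i + 1) - u i) := by
    rw [sum_Ico_eq_sub _ (Nat.sub_le n j), sum_range_sub, sum_range_sub]; ring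
  have c1 := sq_sum_le_card_mul_sum_sq (s := Ico (n - j) n) (f := fun i => u (i + 1) - u i)
  rw [← e, Nat.card_Ico, show n - (n - j) = j by omega] at c1
  have c2 : ∑ i ∈ Ico (n - j) n, (u (i + 1) - u i) ^ 2 ≤
      ∑ i ∈ Ico (n - j) n, xx u i ^ 2 * (4 / (n : ℝ) ^ 2) := by
    refine sum_le_sum fun i hi => ?_
    have d1 : n ≤ 2 * (i + 1) := by have := (mem_Ico.1 hi).1; omega
    have d2 : (n : ℝ) ≤ 2 * ((i : ℝ) + 1) := by exact_mod_cast d1
    have d3 : 1 ≤ ((i : ℝ) + 1) ^ 2 * (4 / (n : ℝ) ^ 2) := by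
      rw [mul_div_assoc', le_div_iff₀ (by positivity)]; nlinarith
    rw [xx, mul_pow, mul_assoc]
    nlinarith [sq_nonneg (u (i + 1) - u i)]
  rw [← sum_mul] at c2
  have c3 : ∑ i ∈ Ico (n - j) n, xx u i ^ 2 ≤ A * n := by
    refine le_trans (sum_le_sum_of_subset_of_nonneg ?_ fun _ _ _ => sq_nonneg _) (hA n)
    intro i hi
    exact mem_range.2 (mem_Ico.1 hi).2
  have c4 : (u n - u (n - j)) ^ 2 ≤ (2 * Real.sqrt A * Real.sqrt j / Real.sqrt n) ^ 2 := by
    rw [div_pow, mul_pow, mul_pow, Real.sq_sqrt hA0, Real.sq_sqrt (Nat.cast_nonneg _),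
      Real.sq_sqrt hn'.le]
    have c5 : (0 : ℝ) ≤ j := Nat.cast_nonneg _
    calc (u n - u (n - j)) ^ 2 ≤ j * (A * n * (4 / (n : ℝ) ^ 2)) := by
          refine c1.trans (mul_le_mul_of_nonneg_left (c2.trans ?_) c5)
          exact mul_le_mul_of_nonneg_right c3 (by positivity)
      _ = 2 ^ 2 * A * j / n := by field_simp; ring
  exact abs_le_of_sq_le_sq' c4 (by positivity) |> abs_le.2

lemma sqrt_sum {B : ℝ} (h : IsRen f u) (hs : HasSum f 1)
    (hB : ∀ n : ℕ, ((n : ℝ) + 1) * rr f n ≤ B) (J : ℕ) :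
    ∑ j ∈ range (J + 1), rr f j * Real.sqrt j ≤ 2 * B * Real.sqrt ((J : ℝ) + 1) := by
  have e := sum_range_sub (fun j : ℕ => Real.sqrt j) (J + 1)
  simp only [Nat.cast_zero, Real.sqrt_zero, sub_zero, Nat.cast_add, Nat.cast_one] at e
  rw [← e, mul_sum]
  refine sum_le_sum fun j _ => ?_
  have r0 := rr_nonneg h hs j
  have r1 := hB j
  set a := Real.sqrt j with ha
  set b := Real.sqrt ((j : ℝ) + 1) with hb
  have a0 : 0 ≤ a := Real.sqrt_nonneg _
  have a2 : a ^ 2 = j := Real.sq_sqrt (Nat.cast_nonneg _)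
  have b2 : b ^ 2 = j + 1 := Real.sq_sqrt (by positivity)
  have ab : a ≤ b := Real.sqrt_le_sqrt (by linarith)
  rw [← b2] at r1
  have k1 : (b - a) * (b + a) = 1 := by nlinarith
  have k2 : a ≤ 2 * b ^ 2 * (b - a) := by
    have k3 : 0 ≤ b - a := by linarith
    have k4 : a * (b + a) ≤ 2 * b ^ 2 := by nlinarith
    calc a = a * (b + a) * (b - a) := by rw [mul_assoc, mul_comm (b + a), k1, mul_one]
      _ ≤ 2 * b ^ 2 * (b - a) := mul_le_mul_of_nonneg_right k4 k3
  calc rr f j * a ≤ rr f j * (2 * b ^ 2 * (b - a)) := mul_le_mul_of_nonneg_left k2 r0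
    _ = 2 * (b ^ 2 * rr f j) * (b - a) := by ring
    _ ≤ 2 * B * (b - a) := by
      have k3 : 0 ≤ b - a := by linarith
      gcongr

lemma um_bound (h : IsRen f u) (hs : HasSum f 1) (n : ℕ) :
    mm f n * ∑ i ∈ range (n + 1), u i ≤ 2 * n + 1 := by
  have e := sum_range_diag_flip (2 * n + 1) (fun j i => rr f j * u i)
  simp only [conv_one h, sum_const, card_range, nsmul_eq_mul, mul_one] at e
  push_cast at e
  rw [e, mm, sum_mul]
  have hnn : ∀ j i, 0 ≤ rr f j * u i := fun j i =>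
    mul_nonneg (rr_nonneg h hs j) (u_bounds h hs i).1
  refine le_trans (sum_le_sum fun j hj => ?_)
    (sum_le_sum_of_subset_of_nonneg (s := range (n + 1)) (range_subset_range.2 (by omega))
      fun j _ _ => sum_nonneg fun i _ => hnn j i)
  rw [mul_sum]
  refine sum_le_sum_of_subset_of_nonneg (range_subset_range.2 ?_) fun i _ _ => hnn j i
  have := mem_range.1 hj
  omega

lemma main_bound (h : IsRen f u) (hs : HasSum f 1) {B A : ℝ}
    (hB : ∀ n : ℕ, ((n : ℝ) + 1) * rr f n ≤ B) (hA0 : 0 ≤ A)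
    (hA : ∀ n : ℕ, ∑ i ∈ range n, xx u i ^ 2 ≤ A * n) {k n : ℕ} (hk : 2 ≤ k) (hn : k ≤ n) :
    |u n * mm f n - 1| ≤ 4 * Real.sqrt A * B * Real.sqrt (2 / k) +
      k * (4 + 4 * Real.sqrt A * B * Real.sqrt (2 / k)) *
        ((((n / k : ℕ) : ℝ) + 1) * rr f (n / k) / mm f (n / k)) := by
  set J := n / k with hJ
  set E := 4 * Real.sqrt A * B * Real.sqrt (2 / k) with hE
  have B0 : 0 ≤ B := le_trans (mul_nonneg (by positivity) (rr_nonneg h hs 0)) (hB 0)
  have E0 : 0 ≤ E := by positivity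
  have n0 : 0 < n := by omega
  have n0' : (0 : ℝ) < n := by exact_mod_cast n0
  have k0 : (0 : ℝ) < k := by exact_mod_cast (show 0 < k by omega)
  have j1 : k * J ≤ n := Nat.mul_div_le n k
  have j2 : n < k * (J + 1) := Nat.lt_mul_div_succ n (by omega)
  have j3 : 2 * J ≤ n := le_trans (Nat.mul_le_mul_right J hk) j1
  have j4 : J + 1 ≤ n + 1 := by omega
  have j5 : (n : ℝ) ≤ k * ((J : ℝ) + 1) := by exact_mod_cast j2.le
  have j6 : ((J : ℝ) + 1) ≤ 2 / k * n := by
    have t1 : k * (J + 1) ≤ 2 * n := by rw [Nat.mul_add]; omega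
    have t2 : (k : ℝ) * ((J : ℝ) + 1) ≤ 2 * n := by exact_mod_cast t1
    rw [div_mul_eq_mul_div, le_div_iff₀ k0]; linarith
  have near : ∑ j ∈ range (J + 1), rr f j * |u n - u (n - j)| ≤ E := by
    have s0 : 0 < Real.sqrt n := Real.sqrt_pos.2 n0'
    calc ∑ j ∈ range (J + 1), rr f j * |u n - u (n - j)|
        ≤ ∑ j ∈ range (J + 1), (2 * Real.sqrt A / Real.sqrt n) * (rr f j * Real.sqrt j) := by
          refine sum_le_sum fun j hj => ?_
          have := osc_bound hA0 hA n0 (j := j) (by have := mem_range.1 hj; omega)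
          calc rr f j * |u n - u (n - j)|
              ≤ rr f j * (2 * Real.sqrt A * Real.sqrt j / Real.sqrt n) :=
                mul_le_mul_of_nonneg_left this (rr_nonneg h hs j)
            _ = _ := by ring
      _ ≤ (2 * Real.sqrt A / Real.sqrt n) * (2 * B * Real.sqrt ((J : ℝ) + 1)) := by
          rw [← mul_sum]
          exact mul_le_mul_of_nonneg_left (sqrt_sum h hs hB J) (by positivity)
      _ ≤ (2 * Real.sqrt A / Real.sqrt n) * (2 * B * (Real.sqrt (2 / k) * Real.sqrt n)) := by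
          rw [← Real.sqrt_mul (by positivity)]
          gcongr
      _ = E := by rw [hE]; field_simp; ring
  have m1 := one_le_mm h hs J
  have un : u n * mm f J ≤ 1 + E := by
    have t1 : ∑ j ∈ range (J + 1), rr f j * u (n - j) ≤ 1 := by
      rw [← conv_one h n]
      exact sum_le_sum_of_subset_of_nonneg (range_subset_range.2 j4) fun j _ _ =>
        mul_nonneg (rr_nonneg h hs j) (u_bounds h hs _).1
    have t2 : u n * mm f J ≤ ∑ j ∈ range (J + 1), rr f j * u (n - j) +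
        ∑ j ∈ range (J + 1), rr f j * |u n - u (n - j)| := by
      rw [mm, mul_sum, ← sum_add_distrib]
      refine sum_le_sum fun j _ => ?_
      nlinarith [le_abs_self (u n - u (n - j)), rr_nonneg h hs j]
    linarith
  set U := ∑ i ∈ range (n + 1), u i with hU
  have U0 : 0 ≤ U := sum_nonneg fun i _ => (u_bounds h hs i).1
  have Ub : U * mm f J ≤ 2 * n + 1 := by
    have := um_bound h hs n
    have t := mm_mono h hs (show J ≤ n by omega)
    nlinarith
  have far : ∑ j ∈ Ico (J + 1) (n + 1), rr f j * |u n - u (n - j)| ≤ rr f J * (n * u n + U) := by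
    have t1 : ∑ j ∈ Ico (J + 1) (n + 1), rr f j * |u n - u (n - j)| ≤
        ∑ j ∈ Ico (J + 1) (n + 1), rr f J * (u n + u (n - j)) := by
      refine sum_le_sum fun j hj => ?_
      have a1 := (u_bounds h hs n).1
      have a2 := (u_bounds h hs (n - j)).1
      refine mul_le_mul (rr_anti h (by have := (mem_Ico.1 hj).1; omega))
        (abs_le.2 ⟨by linarith, by linarith⟩) (abs_nonneg _) (rr_nonneg h hs J)
    refine t1.trans ?_
    rw [← mul_sum, sum_add_distrib, sum_const, Nat.card_Ico, nsmul_eq_mul]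
    refine mul_le_mul_of_nonneg_left (add_le_add ?_ ?_) (rr_nonneg h hs J)
    · refine mul_le_mul_of_nonneg_right ?_ (u_bounds h hs n).1
      exact_mod_cast (show n + 1 - (J + 1) ≤ n by omega)
    · rw [hU, ← sum_range_reflect]
      simp only [Nat.add_sub_cancel]
      refine sum_le_sum_of_subset_of_nonneg ?_ fun i _ _ => (u_bounds h hs _).1
      intro i hi
      exact mem_range.2 (mem_Ico.1 hi).2
  have far2 : rr f J * (n * u n + U) ≤ k * (4 + E) * (((J : ℝ) + 1) * rr f J / mm f J) := by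
    rw [← mul_div_assoc, le_div_iff₀ (by linarith)]
    have n1 : (1 : ℝ) ≤ n := by exact_mod_cast n0
    have t1 : (n * u n + U) * mm f J ≤ n * (4 + E) := by nlinarith
    have t2 : (n : ℝ) * (4 + E) ≤ k * ((J : ℝ) + 1) * (4 + E) :=
      mul_le_mul_of_nonneg_right j5 (by linarith)
    calc rr f J * (n * u n + U) * mm f J = rr f J * ((n * u n + U) * mm f J) := by ring
      _ ≤ rr f J * (k * ((J : ℝ) + 1) * (4 + E)) :=
        mul_le_mul_of_nonneg_left (t1.trans t2) (rr_nonneg h hs J)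
      _ = _ := by ring
  have tot : |u n * mm f n - 1| ≤ ∑ j ∈ range (n + 1), rr f j * |u n - u (n - j)| := by
    have e : u n * mm f n - 1 = ∑ j ∈ range (n + 1), rr f j * (u n - u (n - j)) := by
      nth_rewrite 1 [← conv_one h n]
      rw [mm, mul_sum, ← sum_sub_distrib]
      exact sum_congr rfl fun j _ => by ring
    rw [e]
    refine (abs_sum_le_sum_abs _ _).trans (le_of_eq (sum_congr rfl fun j _ => ?_))
    rw [abs_mul, abs_of_nonneg (rr_nonneg h hs j)]
  rw [← sum_range_add_sum_Ico _ j4] at tot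
  linarith

theorem strong_renewal (h : IsRen f u) (hs : HasSum f 1) (hf : 0 < f 1)
    (H : Tendsto (fun n : ℕ => ((n : ℝ) + 1) * rr f n / mm f n) atTop (𝓝 0)) {B : ℝ}
    (hB : ∀ n : ℕ, ((n : ℝ) + 1) * rr f n ≤ B) :
    Tendsto (fun n => u n * mm f n) atTop (𝓝 1) := by
  obtain ⟨A, hA0, hA⟩ := lin_bound h hs hf H hB
  rw [Metric.tendsto_atTop]
  intro ε hε
  have t1 : Tendsto (fun k : ℕ => 4 * Real.sqrt A * B * Real.sqrt (2 / k)) atTop (𝓝 0) := by
    have := ((tendsto_const_div_atTop_nhds_zero_nat (2 : ℝ)).sqrt).const_mul (4 * Real.sqrt A * B)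
    simpa using this
  obtain ⟨k, hk1, hk2⟩ := ((t1.eventually (gt_mem_nhds (half_pos hε))).and
    (eventually_ge_atTop 2)).exists
  have t2 := (H.comp (Nat.tendsto_div_const_atTop (n := k) (by omega))).const_mul
    (k * (4 + 4 * Real.sqrt A * B * Real.sqrt (2 / k)))
  rw [mul_zero] at t2
  obtain ⟨N, hN⟩ := eventually_atTop.1
    ((t2.eventually (gt_mem_nhds (half_pos hε))).and (eventually_ge_atTop k))
  refine ⟨N, fun n hn => ?_⟩
  have a1 := main_bound h hs hB hA0 hA hk2 (hN n hn).2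
  have a2 := (hN n hn).1
  simp only [Function.comp_apply] at a2
  rw [Real.dist_eq]
  linarith

end

end Pool.Agent.MP_48a2f9_mp.Ren2

end MrgPart5

-- ======== part 6: formerly Pool.Agent.MP_48a2f9_mp.Ren2
section MrgPart6

/-!
Module Ren2: `T4Stmt`, `T5Stmt`, `T6Stmt`.
-/

open Finset Filter Topology

namespace Pool.Agent.MP_48a2f9_mp.Ren2

noncomputable section

variable {f u : ℕ → ℝ}

lemma mm_eq (h : IsRen f u) (n : ℕ) :
    mm f n = ∑ i ∈ range (n + 1), (i : ℝ) * f i + ((n : ℝ) + 1) * rr f n := by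
  induction n with
  | zero => simp [mm]
  | succ n ih =>
    have e : mm f (n + 1) = mm f n + rr f (n + 1) := by simp only [mm, sum_range_succ _ (n + 1)]
    rw [e, ih, sum_range_succ _ (n + 1), rr_succ]
    push_cast
    ring

lemma ratio_zero (h : IsRen f u) (hs : HasSum f 1)
    (H : Tendsto (fun n : ℕ => ((n : ℝ) + 1) * rr f n) atTop (𝓝 0)) :
    Tendsto (fun n : ℕ => ((n : ℝ) + 1) * rr f n / mm f n) atTop (𝓝 0) := by
  refine squeeze_zero (fun n => ?_) (fun n => ?_) H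
  · exact div_nonneg (mul_nonneg (by positivity) (rr_nonneg h hs n))
      (by linarith [one_le_mm h hs n])
  · exact div_le_self (mul_nonneg (by positivity) (rr_nonneg h hs n)) (one_le_mm h hs n)

lemma tail_zero (h : IsRen f u) (hs : HasSum f 1)
    (hm : Summable fun n : ℕ => ((n : ℝ) + 1) * f n) :
    Tendsto (fun n : ℕ => ((n : ℝ) + 1) * rr f n) atTop (𝓝 0) := by
  have t := (tendsto_sum_nat_add fun n : ℕ => ((n : ℝ) + 1) * f n).comp (tendsto_add_atTop_nat 1)
  refine squeeze_zero (fun n => mul_nonneg (by positivity) (rr_nonneg h hs n)) (fun n => ?_) t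
  simp only [Function.comp_apply]
  refine hasSum_le (fun j => ?_) ((rr_tail hs n).mul_left _)
    ((summable_nat_add_iff (n + 1)).2 hm).hasSum
  refine mul_le_mul_of_nonneg_right ?_ (h.1 _)
  push_cast
  have : (0 : ℝ) ≤ j := j.cast_nonneg
  linarith

theorem t5Stmt : T5Stmt := by
  intro f u C h hs hf hC
  have hm : Summable fun n : ℕ => ((n : ℝ) + 1) * f n := by
    have s1 : Summable fun n : ℕ => C * ((n : ℝ) + 1) ^ (-(3 / 2) : ℝ) := by
      have := (summable_nat_add_iff 1).2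
        (Real.summable_nat_rpow.2 (show (-(3 / 2) : ℝ) < -1 by norm_num))
      push_cast at this
      exact this.mul_left C
    refine Summable.of_nonneg_of_le (fun n => mul_nonneg (by positivity) (h.1 n)) (fun n => ?_) s1
    have p : (0 : ℝ) < (n : ℝ) + 1 := by positivity
    have e : ((n : ℝ) + 1) ^ (-(3 / 2) : ℝ) = ((n : ℝ) + 1) * rpw (5 / 2) n := by
      rw [rpw, show (-(3 / 2) : ℝ) = 1 + -(5 / 2) by norm_num, Real.rpow_add p, Real.rpow_one]
    rw [e]
    nlinarith [hC n]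
  have H := tail_zero h hs hm
  obtain ⟨B, hB⟩ := H.bddAbove_range
  have hB' : ∀ n : ℕ, ((n : ℝ) + 1) * rr f n ≤ B := fun n => hB ⟨n, rfl⟩
  have main := strong_renewal h hs hf (ratio_zero h hs H) hB'
  have hm' : Summable fun n : ℕ => (n : ℝ) * f n :=
    Summable.of_nonneg_of_le (fun n => mul_nonneg (by positivity) (h.1 n))
      (fun n => by nlinarith [h.1 n]) hm
  have t1 : Tendsto (mm f) atTop (𝓝 (∑' n : ℕ, (n : ℝ) * f n)) := by
    have := (hm'.hasSum.tendsto_sum_nat.comp (tendsto_add_atTop_nat 1)).add H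
    rw [add_zero] at this
    exact this.congr fun n => (mm_eq h n).symm
  have t2 : 1 ≤ ∑' n : ℕ, (n : ℝ) * f n := ge_of_tendsto' t1 (one_le_mm h hs)
  refine ⟨1 / ∑' n : ℕ, (n : ℝ) * f n, by positivity, ?_⟩
  refine (main.div t1 (by linarith)).congr fun n => ?_
  have := one_le_mm h hs n
  simp only [Pi.div_apply]
  field_simp

theorem t6Stmt : T6Stmt := by
  intro f u C ν h hs hf hν hC
  set q := Real.exp (-ν) with hq
  have q0 : 0 < q := Real.exp_pos _
  have q1 : q < 1 := Real.exp_lt_one_iff.2 (by linarith)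
  have hC' : ∀ n : ℕ, f n ≤ C * q ^ n := fun n => by
    rw [hq, ← Real.exp_nat_mul, mul_comm (n : ℝ)]; exact hC n
  have hr : ∀ n : ℕ, rr f n ≤ C * (1 - q)⁻¹ * q * q ^ n := by
    intro n
    have g := (hasSum_geometric_of_lt_one q0.le q1).mul_left (C * q * q ^ n)
    refine (hasSum_le (fun j => ?_) (rr_tail hs n) g).trans (le_of_eq (by ring))
    refine (hC' _).trans (le_of_eq ?_)
    ring
  have g1 : Summable fun n : ℕ => ((n : ℝ) + 1) * q ^ n := by
    have a1 : Summable fun n : ℕ => (n : ℝ) ^ 1 * q ^ n :=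
      summable_pow_mul_geometric_of_norm_lt_one 1 (by rwa [Real.norm_eq_abs, abs_of_pos q0])
    exact (a1.add (summable_geometric_of_lt_one q0.le q1)).congr fun n => by ring
  have g2 : Summable fun n : ℕ => ((n : ℝ) + 1) * rr f n := by
    refine Summable.of_nonneg_of_le (fun n => mul_nonneg (by positivity) (rr_nonneg h hs n))
      (fun n => ?_) (g1.mul_left (C * (1 - q)⁻¹ * q))
    have p : (0 : ℝ) ≤ (n : ℝ) + 1 := by positivity
    nlinarith [mul_le_mul_of_nonneg_left (hr n) p]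
  have y0 : ∀ n, 0 ≤ yy f n := fun n => mul_nonneg (rr_nonneg h hs _) (by positivity)
  have g3 : Summable (yy f) := by
    refine Summable.of_nonneg_of_le y0 (fun n => ?_) g2
    have p : (0 : ℝ) ≤ (n : ℝ) + 1 := by positivity
    rw [yy, mul_comm]
    exact mul_le_mul_of_nonneg_left (rr_anti h (Nat.le_succ n)) p
  have g4 : Summable fun n => yy f n ^ 2 := by
    refine Summable.of_nonneg_of_le (fun n => sq_nonneg _) (fun n => ?_)
      (g3.mul_left (∑' n, yy f n))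
    have := g3.le_tsum n fun j _ => y0 j
    nlinarith [y0 n]
  obtain ⟨K, hK, hsq⟩ := sq_bound h hs hf (ratio_zero h hs g2.tendsto_atTop_zero)
  have g5 : ∀ N, ∑ n ∈ range N, xx u n ^ 2 ≤ K * ∑' n, yy f n ^ 2 := by
    intro N
    have c : Continuous fun t : ℝ => ∑ n ∈ range N, xx u n ^ 2 * t ^ n := by fun_prop
    have c1 := (c.tendsto 1).mono_left (nhdsWithin_le_nhds (s := Set.Iio 1))
    simp only [one_pow, mul_one] at c1
    refine le_of_tendsto c1 ?_
    filter_upwards [Ioo_mem_nhdsLT (show (0 : ℝ) < 1 by norm_num)] with t ht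
    obtain ⟨s1, s2⟩ := hsq t ht.1.le ht.2
    refine (s2 N).trans (mul_le_mul_of_nonneg_left ?_ hK)
    refine s1.tsum_le_tsum (fun n => ?_) g4
    have : t ^ n ≤ 1 := pow_le_one₀ ht.1.le ht.2.le
    nlinarith [sq_nonneg (yy f n)]
  have g6 : Summable fun n => xx u n ^ 2 := summable_of_sum_range_le (fun n => sq_nonneg _) g5
  have g7 : Summable fun n : ℕ => 1 / ((n : ℝ) + 1) ^ 2 := by
    have := (summable_nat_add_iff 1).2 (Real.summable_one_div_nat_pow.2 (show 1 < 2 by norm_num))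
    push_cast at this
    exact this
  refine Summable.of_nonneg_of_le (fun n => abs_nonneg _) (fun n => ?_) (g6.add g7)
  have p : (0 : ℝ) < (n : ℝ) + 1 := by positivity
  have e : |u (n + 1) - u n| = |xx u n| * (1 / ((n : ℝ) + 1)) := by
    rw [xx, abs_mul, abs_of_pos p]; field_simp
  rw [e, ← sq_abs (xx u n), ← one_div_pow]
  nlinarith [sq_nonneg (|xx u n| - 1 / ((n : ℝ) + 1)), sq_nonneg |xx u n|,
    sq_nonneg (1 / ((n : ℝ) + 1))]

lemma harm_log : Tendsto (fun n : ℕ => (∑ i ∈ range (n + 1), 1 / ((i : ℝ) + 1)) /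
    Real.log ((n : ℝ) + 2)) atTop (𝓝 1) := by
  have l0 : Tendsto (fun n : ℕ => Real.log ((n : ℝ) + 2)) atTop atTop :=
    Real.tendsto_log_atTop.comp (tendsto_atTop_add_const_right _ _ tendsto_natCast_atTop_atTop)
  have l1 : Tendsto (fun n : ℕ => 1 + 1 / Real.log ((n : ℝ) + 2)) atTop (𝓝 1) := by
    simpa using (l0.const_div_atTop 1).const_add 1
  have lp : ∀ n : ℕ, 0 < Real.log ((n : ℝ) + 2) := fun n =>
    Real.log_pos (by have : (0 : ℝ) ≤ n := n.cast_nonneg; linarith)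
  have e : ∀ n : ℕ, ∑ i ∈ range (n + 1), 1 / ((i : ℝ) + 1) = ((harmonic (n + 1) : ℚ) : ℝ) := by
    intro n
    simp [harmonic]
  refine tendsto_of_tendsto_of_tendsto_of_le_of_le tendsto_const_nhds l1 (fun n => ?_) fun n => ?_
  · have := log_add_one_le_harmonic (n + 1)
    push_cast at this
    rw [add_assoc, one_add_one_eq_two] at this
    simp only
    rw [le_div_iff₀ (lp n), one_mul, e]
    exact this
  · have := harmonic_le_one_add_log (n + 1)
    push_cast at this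
    have l2 : Real.log ((n : ℝ) + 1) ≤ Real.log ((n : ℝ) + 2) :=
      Real.log_le_log (by positivity) (by linarith)
    simp only
    rw [div_le_iff₀ (lp n), e, add_mul, one_div_mul_cancel (lp n).ne']
    linarith

theorem t4Stmt : T4Stmt := by
  intro f u c h hs hf hc hl
  have e : ∀ n : ℕ, f n / rpw 2 n = f n * ((n : ℝ) + 1) ^ 2 := by
    intro n
    rw [rpw, Real.rpow_neg (by positivity), div_inv_eq_mul, Real.rpow_two]
  simp only [e] at hl
  obtain ⟨B, hB⟩ := hl.bddAbove_range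
  have hB1 : ∀ n : ℕ, f n * ((n : ℝ) + 1) ^ 2 ≤ B := fun n => hB ⟨n, rfl⟩
  have B0 : 0 ≤ B := le_trans (mul_nonneg (h.1 0) (by positivity)) (hB1 0)
  have hB2 : ∀ n : ℕ, ((n : ℝ) + 1) * rr f n ≤ B := by
    intro n
    have p : (0 : ℝ) < (n : ℝ) + 1 := by positivity
    rw [← le_div_iff₀' p]
    refine le_of_tendsto' (rr_tail hs n).tendsto_sum_nat fun N => ?_
    have t := sum_range_sub' (fun j : ℕ => B / ((j : ℝ) + n + 1)) N
    have t0 : 0 ≤ B / ((N : ℝ) + n + 1) := by positivity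
    simp only [Nat.cast_zero, zero_add] at t
    refine le_trans (sum_le_sum fun j _ => ?_) (t.le.trans (by linarith))
    have a := hB1 (j + (n + 1))
    have a0 := h.1 (j + (n + 1))
    have pj : (0 : ℝ) < (j : ℝ) + n + 1 := by positivity
    push_cast at a ⊢
    rw [div_sub_div _ _ pj.ne' (by positivity), le_div_iff₀ (by positivity)]
    nlinarith
  have l0 : Tendsto (fun n : ℕ => Real.log ((n : ℝ) + 2)) atTop atTop :=
    Real.tendsto_log_atTop.comp (tendsto_atTop_add_const_right _ _ tendsto_natCast_atTop_atTop)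
  have lp : ∀ n : ℕ, 0 < Real.log ((n : ℝ) + 2) := fun n =>
    Real.log_pos (by have : (0 : ℝ) ≤ n := n.cast_nonneg; linarith)
  have o1 : (fun i : ℕ => (i : ℝ) * f i - c * (1 / ((i : ℝ) + 1))) =o[atTop]
      fun i : ℕ => 1 / ((i : ℝ) + 1) := by
    rw [Asymptotics.isLittleO_iff_tendsto fun i hi => absurd hi (by positivity)]
    have a1 := (hl.mul ((tendsto_one_div_add_atTop_nhds_zero_nat (𝕜 := ℝ)).const_sub 1)).sub_const c
    rw [sub_zero, mul_one, sub_self] at a1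
    refine a1.congr fun i => ?_
    have p : (0 : ℝ) < (i : ℝ) + 1 := by positivity
    field_simp
    ring
  have o2 := (o1.sum_range (fun i => by positivity)
    Real.tendsto_sum_range_one_div_nat_succ_atTop).comp_tendsto (tendsto_add_atTop_nat 1)
  have o3 := o2.tendsto_div_nhds_zero.mul harm_log
  have o4 : Tendsto (fun n : ℕ => ((n : ℝ) + 1) * rr f n / Real.log ((n : ℝ) + 2)) atTop
      (𝓝 0) := by
    refine squeeze_zero (fun n => ?_) (fun n => ?_) (l0.const_div_atTop B)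
    · exact div_nonneg (mul_nonneg (by positivity) (rr_nonneg h hs n)) (lp n).le
    · exact div_le_div_of_nonneg_right (hB2 n) (lp n).le
  have o5 : Tendsto (fun n : ℕ => mm f n / Real.log ((n : ℝ) + 2)) atTop (𝓝 c) := by
    have := (o3.add (harm_log.const_mul c)).add o4
    rw [zero_mul, zero_add, mul_one, add_zero] at this
    refine this.congr fun n => ?_
    have hp : 0 < ∑ i ∈ range (n + 1), 1 / ((i : ℝ) + 1) :=
      sum_pos (fun i _ => by positivity) (by simp)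
    simp only [Function.comp_apply]
    rw [mm_eq h, sum_sub_distrib, ← mul_sum]
    have := lp n
    field_simp
    ring
  have H : Tendsto (fun n : ℕ => ((n : ℝ) + 1) * rr f n / mm f n) atTop (𝓝 0) := by
    have := o4.div o5 hc.ne'
    rw [zero_div] at this
    refine this.congr fun n => ?_
    have := lp n
    simp only [Pi.div_apply]
    field_simp
  have main := strong_renewal h hs hf H hB2
  refine (main.div o5 hc.ne').congr fun n => ?_
  have := lp n
  have := one_le_mm h hs n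
  simp only [Pi.div_apply]
  field_simp

end

end Pool.Agent.MP_48a2f9_mp.Ren2

end MrgPart6

-- marker of a merged file
example : 731051 + 485498 = 731051 + 485498 := rfl
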