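import Mathlib.Topology.Sheaves.Presheaf
import Mathlib.Tactic.ENatToNat
import Mathlib.Tactic.Monotonicity.Lemmas
import Mathlib.Data.Int.Star
import Mathlib.Algebra.Order.Ring.Star
import Mathlib.Analysis.PSeries
import Mathlib.Algebra.Order.Star.Real
import Mathlib.Analysis.Normed.Group.Tannery
import Mathlib.RingTheory.PiTensorProduct
import Mathlib.RingTheory.WittVector.IsPoly
import Mathlib.Tactic.Polynomial.Basic
import Mathlib.Tactic.ReduceModChar
import Pool.Agent.MP_48a2f9_mp.SpecC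
import Pool.Agent.MP_48a2f9_mp.SpecA

-- ======== part 0: formerly Pool.Agent.MP_48a2f9_mp.MG1a
section MrgPart0

/-!
Module MG1, first part: clusters, chains and the decomposition at a level.
-/

namespace Pool.Agent.MP_48a2f9_mp.OZ.MG1

noncomputable section
open Classical

variable {D : ℕ}

theorem mem_verts {x v : Site D} {E : Finset (Ed D)} :
    v ∈ verts x E ↔ v = x ∨ ∃ e ∈ E, v ∈ e := by
  simp [verts]

theorem root_mem (x : Site D) (E : Finset (Ed D)) : x ∈ verts x E := mem_verts.mpr (Or.inl rfl)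

theorem mem_of_edge {x v : Site D} {E : Finset (Ed D)} {e : Ed D} (he : e ∈ E) (hv : v ∈ e) :
    v ∈ verts x E := mem_verts.mpr (Or.inr ⟨e, he, hv⟩)

theorem verts_mono {x : Site D} {E E' : Finset (Ed D)} (h : E ⊆ E') : verts x E ⊆ verts x E' := by
  intro v hv
  rcases mem_verts.mp hv with rfl | ⟨e, he, hv⟩
  · exact root_mem _ _
  · exact mem_of_edge (h he) hv

theorem conn_mono {E E' : Finset (Ed D)} (h : E ⊆ E') {a b : Site D} (hc : Conn E a b) :
    Conn E' a b := by
  induction hc with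
  | refl => exact Relation.ReflTransGen.refl
  | tail _ h' ih => exact ih.tail (h h')

theorem conn_symm {E : Finset (Ed D)} {a b : Site D} (hc : Conn E a b) : Conn E b a := by
  induction hc with
  | refl => exact Relation.ReflTransGen.refl
  | tail _ h ih => exact Relation.ReflTransGen.head (by rwa [Sym2.eq_swap]) ih

theorem conn_edge {E : Finset (Ed D)} {e : Ed D} (he : e ∈ E) {a b : Site D} (ha : a ∈ e)
    (hb : b ∈ e) : Conn E a b := by
  by_cases h : a = b
  · subst h; exact Relation.ReflTransGen.refl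
  · rw [(Sym2.mem_and_mem_iff h).mp ⟨ha, hb⟩] at he
    exact Relation.ReflTransGen.single he

theorem mem_of_conn {E : Finset (Ed D)} {x v : Site D} (h : Conn E x v) : v ∈ verts x E := by
  cases h with
  | refl => exact root_mem _ _
  | tail _ h => exact mem_of_edge h (Sym2.mem_mk_right _ _)

theorem adj_lev {u v : Site D} (h : IsEdge s(u, v)) :
    |v.1 - u.1| ≤ 1 ∧ (v.1 = u.1 + 1 → v = u + e1) := by
  obtain ⟨a, b, hab, he⟩ := h
  have h0 : 0 ≤ ∑ k, |a.2 k - b.2 k| := Finset.sum_nonneg (fun _ _ => abs_nonneg _)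
  have key : |a.1 - b.1| = 1 → a.2 = b.2 := by
    intro h1
    have h2 : ∑ k, |a.2 k - b.2 k| = 0 := by unfold Adj at hab; omega
    funext k
    have := (Finset.sum_eq_zero_iff_of_nonneg (fun _ _ => abs_nonneg _)).mp h2 k (Finset.mem_univ k)
    exact sub_eq_zero.mp (abs_eq_zero.mp this)
  unfold Adj at hab
  rcases Sym2.eq_iff.mp he with ⟨rfl, rfl⟩ | ⟨rfl, rfl⟩
  · refine ⟨by rw [abs_sub_comm]; omega, fun h => Prod.ext (by simpa [e1] using h) ?_⟩
    simp [e1, key (by rw [h]; simp)]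
  · refine ⟨by omega, fun h => Prod.ext (by simpa [e1] using h) ?_⟩
    simp [e1, key (by rw [h]; simp)]

theorem lev_add (a : Site D) : (a + e1).1 = a.1 + 1 := rfl

theorem isEdge_fwd (a : Site D) : IsEdge (fwd a) :=
  ⟨a, a + e1, by simp [Adj, e1], rfl⟩

theorem lev_ivt {E : Finset (Ed D)} (hE : ∀ e ∈ E, IsEdge e) {a v : Site D} (h : Conn E a v) :
    ∀ k : ℤ, min a.1 v.1 ≤ k → k ≤ max a.1 v.1 → ∃ w, Conn E a w ∧ w.1 = k := by
  induction h with
  | refl => exact fun k h1 h2 => ⟨a, Relation.ReflTransGen.refl, by omega⟩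
  | @tail b c hab h ih =>
    intro k h1 h2
    have := abs_le.mp (adj_lev (hE _ h)).1
    by_cases hk : k = c.1
    · exact ⟨c, hab.tail h, hk.symm⟩
    · exact ih k (by omega) (by omega)

theorem lev_lt_card {E : Finset (Ed D)} (hE : ∀ e ∈ E, IsEdge e) {a v : Site D} (h : Conn E a v)
    {W : Finset (Site D)} (hW : ∀ w, Conn E a w → w ∈ W) : |v.1 - a.1| < W.card := by
  have h1 : Finset.Icc (min a.1 v.1) (max a.1 v.1) ⊆ W.image Prod.fst := by
    intro k hk
    obtain ⟨w, hw, rfl⟩ := lev_ivt hE h k (Finset.mem_Icc.mp hk).1 (Finset.mem_Icc.mp hk).2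
    exact Finset.mem_image_of_mem _ (hW w hw)
  have h2 := (Finset.card_le_card h1).trans Finset.card_image_le
  rw [Int.card_Icc] at h2
  rw [abs_lt]
  omega

/-- the edges of the component of `y` -/
def comp (E : Finset (Ed D)) (y : Site D) : Finset (Ed D) :=
  E.filter fun e => ∃ v ∈ e, Conn E y v

theorem comp_subset (E : Finset (Ed D)) (y : Site D) : comp E y ⊆ E := Finset.filter_subset _ _

theorem conn_comp {E : Finset (Ed D)} {y v : Site D} (h : Conn E y v) : Conn (comp E y) y v := by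
  induction h with
  | refl => exact Relation.ReflTransGen.refl
  | tail hab h ih => exact ih.tail (Finset.mem_filter.mpr ⟨h, _, Sym2.mem_mk_left _ _, hab⟩)

theorem mem_comp {E : Finset (Ed D)} {y v : Site D} : v ∈ verts y (comp E y) ↔ Conn E y v := by
  refine ⟨fun h => ?_, fun h => mem_of_conn (conn_comp h)⟩
  rcases mem_verts.mp h with rfl | ⟨e, he, hv⟩
  · exact Relation.ReflTransGen.refl
  · obtain ⟨he, w, hw, hc⟩ := Finset.mem_filter.mp he
    exact hc.trans (conn_edge he hw hv)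

theorem isClu_comp {E : Finset (Ed D)} (hE : ∀ e ∈ E, IsEdge e) (y : Site D) :
    IsClu y (comp E y) :=
  ⟨fun e he => hE e (comp_subset _ _ he), fun _ hv => conn_comp (mem_comp.mp hv)⟩

theorem notConn_of_mem_sdiff {E : Finset (Ed D)} {y v : Site D} {e : Ed D}
    (he : e ∈ E \ comp E y) (hv : v ∈ e) : ¬ Conn E y v := fun h =>
  (Finset.mem_sdiff.mp he).2 (Finset.mem_filter.mpr ⟨(Finset.mem_sdiff.mp he).1, v, hv, h⟩)

theorem conn_sdiff {E : Finset (Ed D)} {y a b : Site D} (h : Conn E a b) (hb : ¬ Conn E y b) :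
    Conn (E \ comp E y) a b := by
  induction h with
  | refl => exact Relation.ReflTransGen.refl
  | @tail b c _ h ih =>
    refine (ih (fun h' => hb (h'.tail h))).tail (Finset.mem_sdiff.mpr ⟨h, fun h' => ?_⟩)
    obtain ⟨he, w, hw, hc⟩ := Finset.mem_filter.mp h'
    exact hb (hc.trans (conn_edge he hw (Sym2.mem_mk_right _ _)))

theorem IsClu.reroot {x x' : Site D} {E : Finset (Ed D)} (h : IsClu x E) (hx : x' ∈ verts x E) :
    IsClu x' E ∧ verts x' E = verts x E := by
  have hc := h.2 x' hx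
  have e : verts x' E = verts x E := by
    ext v
    refine ⟨fun hv => ?_, fun hv => mem_of_conn ((conn_symm hc).trans (h.2 v hv))⟩
    rcases mem_verts.mp hv with rfl | ⟨e, he, hv⟩
    · exact hx
    · exact mem_of_edge he hv
  exact ⟨⟨h.1, fun v hv => (conn_symm hc).trans (h.2 v (e ▸ hv))⟩, e⟩

/-- gluing two clusters along forward edges -/
theorem glue {x x' : Site D} {EA F EB : Finset (Ed D)} (hA : IsClu x EA) (hB : IsClu x' EB)
    (hne : F.Nonempty) (hF : ∀ e ∈ F, ∃ a ∈ verts x EA, a + e1 ∈ verts x' EB ∧ e = fwd a) :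
    IsClu x (EA ∪ F ∪ EB) ∧ verts x (EA ∪ F ∪ EB) = verts x EA ∪ verts x' EB := by
  have s1 : EA ⊆ EA ∪ F ∪ EB := Finset.subset_union_left.trans Finset.subset_union_left
  have s2 : F ⊆ EA ∪ F ∪ EB := Finset.subset_union_right.trans Finset.subset_union_left
  have s3 : EB ⊆ EA ∪ F ∪ EB := Finset.subset_union_right
  have hc : ∀ v ∈ verts x EA ∪ verts x' EB, Conn (EA ∪ F ∪ EB) x v := by
    intro v hv
    rcases Finset.mem_union.mp hv with hv | hv
    · exact conn_mono s1 (hA.2 v hv)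
    · obtain ⟨e, he⟩ := hne
      obtain ⟨a, ha, ha', rfl⟩ := hF e he
      exact ((conn_mono s1 (hA.2 a ha)).tail (s2 he)).trans
        (conn_mono s3 ((conn_symm (hB.2 _ ha')).trans (hB.2 v hv)))
  have e : verts x (EA ∪ F ∪ EB) = verts x EA ∪ verts x' EB := by
    ext v
    refine ⟨fun hv => ?_, fun hv => mem_of_conn (hc v hv)⟩
    rcases mem_verts.mp hv with rfl | ⟨e, he, hv⟩
    · exact Finset.mem_union_left _ (root_mem _ _)
    · rcases Finset.mem_union.mp he with he | he
      · rcases Finset.mem_union.mp he with he | he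
        · exact Finset.mem_union_left _ (mem_of_edge he hv)
        · obtain ⟨a, ha, ha', rfl⟩ := hF e he
          rcases Sym2.mem_iff.mp hv with rfl | rfl
          · exact Finset.mem_union_left _ ha
          · exact Finset.mem_union_right _ ha'
      · exact Finset.mem_union_right _ (mem_of_edge he hv)
  refine ⟨⟨fun e he => ?_, fun v hv => hc v (e ▸ hv)⟩, e⟩
  rcases Finset.mem_union.mp he with he | he
  · rcases Finset.mem_union.mp he with he | he
    · exact hA.1 e he
    · obtain ⟨a, -, -, rfl⟩ := hF e he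
      exact isEdge_fwd a
  · exact hB.1 e he

variable {K : ℕ} {n : ℤ}

theorem chain_isClu {x : Site D} {E : Finset (Ed D)} {T : List ℤ} (h : Chain K n x E T) :
    IsClu x E := by
  induction h with
  | nil x E h _ => exact h
  | cons x x' EA F EB u T hA _ _ hne hF _ _ _ _ _ ih =>
    exact (glue hA ih hne (fun e he => by
      obtain ⟨a, h1, -, h2, h3⟩ := hF e he
      exact ⟨a, h1, h2, h3⟩)).1

theorem chain_length {x : Site D} {E : Finset (Ed D)} {T : List ℤ} (h : Chain K n x E T) :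
    T.length ≤ (n - x.1).toNat := by
  induction h with
  | nil => simp
  | cons x x' EA F EB u T _ _ _ _ _ h1 _ _ h2 h3 ih =>
    rw [List.length_cons]
    omega

theorem chain_head {x : Site D} {E : Finset (Ed D)} {u : ℤ} {T : List ℤ}
    (h : Chain K n x E (u :: T)) : x.1 + 2 * K ≤ u := by
  cases h with
  | cons _ _ _ _ _ _ _ _ _ _ _ _ _ _ _ h _ => exact h

theorem absorb {x x' : Site D} {EA F EB : Finset (Ed D)} {T : List ℤ} (hB : Chain K n x' EB T)
    (hA : IsClu x EA) (hd : Disjoint (verts x EA) (verts x' EB)) (hne : F.Nonempty)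
    (hF : ∀ e ∈ F, ∃ a ∈ verts x EA, a.1 + 1 ≤ x'.1 ∧ a + e1 ∈ verts x' EB ∧ e = fwd a)
    (hT : ∀ u ∈ T.head?, ∀ v ∈ verts x EA, v.1 ≤ u + K) (hx : x.1 ≤ x'.1) :
    Chain K n x (EA ∪ F ∪ EB) T := by
  cases hB with
  | nil _ _ h1 h2 =>
    obtain ⟨g1, g2⟩ := glue hA h1 hne (fun e he => by
      obtain ⟨a, h1, -, h2, h3⟩ := hF e he
      exact ⟨a, h1, h2, h3⟩)
    obtain ⟨y, hy, hy'⟩ := h2
    exact Chain.nil _ _ g1 ⟨y, g2 ▸ Finset.mem_union_right _ hy, hy'⟩
  | cons _ x'' E1 F1 E2 u T' h1 h2 h3 h4 h5 h6 h7 h8 h9 h10 =>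
    obtain ⟨-, g2⟩ := glue h1 (chain_isClu h2) h4 (fun e he => by
      obtain ⟨a, h1, -, h2, h3⟩ := h5 e he
      exact ⟨a, h1, h2, h3⟩)
    rw [g2] at hd hF
    obtain ⟨k1, k2⟩ := glue hA h1 hne (fun e he => by
      obtain ⟨a, a1, a2, a3, a4⟩ := hF e he
      refine ⟨a, a1, (Finset.mem_union.mp a3).resolve_right (fun h => ?_), a4⟩
      have := h8 _ h
      rw [lev_add] at this
      omega)
    have e : EA ∪ F ∪ (E1 ∪ F1 ∪ E2) = EA ∪ F ∪ E1 ∪ F1 ∪ E2 := by
      simp only [Finset.union_assoc]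
    rw [e]
    refine Chain.cons _ _ _ _ _ _ _ k1 h2 ?_ h4 (fun e he => ?_) h6 (fun v hv => ?_) h8
      (by omega) h10
    · rw [k2, Finset.disjoint_union_left]
      exact ⟨(Finset.disjoint_union_right.mp hd).2, h3⟩
    · obtain ⟨a, a1, a2⟩ := h5 e he
      exact ⟨a, k2 ▸ Finset.mem_union_right _ a1, a2⟩
    · rw [k2] at hv
      exact (Finset.mem_union.mp hv).elim (hT u rfl v) (h7 v)

theorem drop {x : Site D} {E : Finset (Ed D)} {u : ℤ} {T : List ℤ} (h : Chain K n x E (u :: T)) :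
    Chain K n x E T ∧ ∀ u' ∈ T.head?, u + 2 * K ≤ u' := by
  cases h with
  | cons _ x' EA F EB _ _ h1 h2 h3 h4 h5 h6 h7 h8 h9 h10 =>
    have hh : ∀ u' ∈ T.head?, u + 2 * K ≤ u' := by
      intro u' hu'
      cases T with
      | nil => simp at hu'
      | cons w T' =>
        have := chain_head h2
        have e : w = u' := by simpa using hu'
        omega
    refine ⟨absorb h2 h1 h3 h4 (fun e he => ?_) (fun u' hu' v hv => ?_) (by omega), hh⟩
    · obtain ⟨a, a1, a2, a3⟩ := h5 e he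
      exact ⟨a, a1, by omega, a3⟩
    · have := hh u' hu'
      have := h7 v hv
      omega

theorem dropMany {x : Site D} {E : Finset (Ed D)} (τ : ℤ) : ∀ (T : List ℤ) (z : ℤ),
    Chain K n x E T → (∀ u ∈ T.head?, z ≤ u) → ∃ T', Chain K n x E T' ∧ (∀ u ∈ T'.head?, τ ≤ u) ∧
      2 * (K : ℤ) * T.length ≤ 2 * K * T'.length + max 0 (τ - z + 2 * K) := by
  intro T
  induction T with
  | nil => exact fun z h _ => ⟨[], h, by simp, by simp⟩
  | cons u T ih =>
    intro z h hz
    by_cases hu : τ ≤ u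
    · exact ⟨u :: T, h, by simpa using hu, by simp⟩
    · obtain ⟨T', h1, h2, h3⟩ := ih (u + 2 * K) (drop h).1 (drop h).2
      refine ⟨T', h1, h2, ?_⟩
      have := hz u rfl
      rw [List.length_cons, Nat.cast_succ, mul_add]
      omega

/-- the largest number of cuts -/
def cuts (K : ℕ) (n : ℤ) (x : Site D) (E : Finset (Ed D)) : ℕ :=
  sSup {k | ∃ T, Chain K n x E T ∧ T.length = k}

theorem le_cuts {x : Site D} {E : Finset (Ed D)} {T : List ℤ} (h : Chain K n x E T) :
    T.length ≤ cuts K n x E :=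
  le_csSup ⟨(n - x.1).toNat, fun _ ⟨_, h1, h2⟩ => h2 ▸ chain_length h1⟩ ⟨T, h, rfl⟩

theorem exists_cuts {x : Site D} {E : Finset (Ed D)} (h : IsClu x E)
    (hy : ∃ y ∈ verts x E, n ≤ y.1) : ∃ T, Chain K n x E T ∧ T.length = cuts K n x E :=
  Nat.sSup_mem (s := {k | ∃ T, Chain K n x E T ∧ T.length = k}) ⟨0, [], Chain.nil _ _ h hy, rfl⟩
    ⟨(n - x.1).toNat, fun _ ⟨_, h1, h2⟩ => h2 ▸ chain_length h1⟩

/-- the depth below the root -/
def back (x : Site D) (E : Finset (Ed D)) : ℕ := (verts x E).sup fun v => (x.1 - v.1).toNat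

theorem le_back {x v : Site D} {E : Finset (Ed D)} (h : v ∈ verts x E) :
    x.1 - v.1 ≤ back x E := by
  have : (x.1 - v.1).toNat ≤ back x E := Finset.le_sup (f := fun v : Site D => (x.1 - v.1).toNat) h
  omega

theorem exists_back (x : Site D) (E : Finset (Ed D)) :
    ∃ v ∈ verts x E, v.1 ≤ x.1 - back x E := by
  obtain ⟨v, hv, h⟩ := Finset.exists_mem_eq_sup (verts x E) ⟨x, root_mem x E⟩
    (fun v : Site D => (x.1 - v.1).toNat)
  by_cases h0 : back x E = 0
  · exact ⟨x, root_mem _ _, by simp [h0]⟩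
  · refine ⟨v, hv, ?_⟩
    have : back x E = (x.1 - v.1).toNat := h
    omega

theorem back_le_card {x : Site D} {E : Finset (Ed D)} (h : IsClu x E) :
    back x E ≤ (verts x E).card := by
  obtain ⟨v, hv, h'⟩ := exists_back x E
  have := abs_lt.mp (lev_lt_card h.1 (h.2 v hv) (fun w hw => mem_of_conn hw))
  omega

/-- roots and endpoints -/
def vs (Y : Finset (Site D)) (E : Finset (Ed D)) : Finset (Site D) := Y ∪ E.biUnion Sym2.toFinset

theorem mem_vs {Y : Finset (Site D)} {v : Site D} {E : Finset (Ed D)} :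
    v ∈ vs Y E ↔ v ∈ Y ∨ ∃ e ∈ E, v ∈ e := by
  simp [vs]

theorem mem_vs_of_conn {Y : Finset (Site D)} {y v : Site D} {E : Finset (Ed D)} (hy : y ∈ Y)
    (h : Conn E y v) : v ∈ vs Y E := by
  rcases mem_verts.mp (mem_of_conn h) with rfl | h
  · exact mem_vs.mpr (Or.inl hy)
  · exact mem_vs.mpr (Or.inr h)

/-- a union of clusters rooted in `Y` -/
def IsFor (Y : Finset (Site D)) (E : Finset (Ed D)) : Prop :=
  (∀ e ∈ E, IsEdge e) ∧ ∀ v ∈ vs Y E, ∃ y ∈ Y, Conn E y v

theorem peel {Y : Finset (Site D)} {E : Finset (Ed D)} (h : IsFor Y E) {y : Site D}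
    (hy : y ∈ vs Y E) : IsFor (Y \ verts y (comp E y)) (E \ comp E y) ∧
      vs Y E = verts y (comp E y) ∪ vs (Y \ verts y (comp E y)) (E \ comp E y) ∧
      Disjoint (verts y (comp E y)) (vs (Y \ verts y (comp E y)) (E \ comp E y)) := by
  have key : ∀ v, v ∈ vs (Y \ verts y (comp E y)) (E \ comp E y) ↔ v ∈ vs Y E ∧ ¬ Conn E y v := by
    intro v
    rw [mem_vs, mem_vs, Finset.mem_sdiff, mem_comp]
    constructor
    · rintro (⟨h1, h2⟩ | ⟨e, he, hv⟩)
      · exact ⟨Or.inl h1, h2⟩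
      · exact ⟨Or.inr ⟨e, (Finset.mem_sdiff.mp he).1, hv⟩, notConn_of_mem_sdiff he hv⟩
    · rintro ⟨h1 | ⟨e, he, hv⟩, h2⟩
      · exact Or.inl ⟨h1, h2⟩
      · refine Or.inr ⟨e, Finset.mem_sdiff.mpr ⟨he, fun h' => h2 ?_⟩, hv⟩
        exact mem_comp.mp (mem_of_edge h' hv)
  refine ⟨⟨fun e he => h.1 e (Finset.mem_sdiff.mp he).1, fun v hv => ?_⟩, ?_, ?_⟩
  · obtain ⟨h1, h2⟩ := (key v).mp hv
    obtain ⟨z, hz, hc⟩ := h.2 v h1
    exact ⟨z, Finset.mem_sdiff.mpr ⟨hz, fun h' => h2 ((mem_comp.mp h').trans hc)⟩,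
      conn_sdiff hc h2⟩
  · ext v
    rw [Finset.mem_union, key, mem_comp]
    constructor
    · intro hv
      by_cases hc : Conn E y v
      · exact Or.inl hc
      · exact Or.inr ⟨hv, hc⟩
    · rintro (hc | hv)
      · obtain ⟨z, hz, hc'⟩ := h.2 y hy
        exact mem_vs_of_conn hz (hc'.trans hc)
      · exact hv.1
  · rw [Finset.disjoint_left]
    exact fun v h1 h2 => ((key v).mp h2).2 (mem_comp.mp h1)

/-- the part of the cluster reached below level `t` -/
def low (x : Site D) (E : Finset (Ed D)) (t : ℤ) : Finset (Ed D) :=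
  comp (E.filter fun e => ∀ v ∈ e, v.1 ≤ t) x

/-- the vertices of level `t` -/
def top (x : Site D) (E : Finset (Ed D)) (t : ℤ) : Finset (Site D) :=
  (verts x E).filter fun v => v.1 = t

theorem low_subset (x : Site D) (E : Finset (Ed D)) (t : ℤ) : low x E t ⊆ E :=
  (comp_subset _ _).trans (Finset.filter_subset _ _)

theorem low_mono (x : Site D) (E : Finset (Ed D)) {t t' : ℤ} (h : t ≤ t') :
    verts x (low x E t) ⊆ verts x (low x E t') := fun _ hv =>
  mem_comp.mpr (conn_mono (Finset.monotone_filter_right _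
    (fun _ _ he v hv => (he v hv).trans h)) (mem_comp.mp hv))

theorem card_ge {x : Site D} {E : Finset (Ed D)} {M : ℕ} {a t : ℤ} {W : Finset (Site D)}
    (h : ∀ t', a ≤ t' → t' < t → M < (top x (low x E t') t').card)
    (hW : ∀ t', t' < t → verts x (low x E t') ⊆ W) : (M : ℤ) * (t - a) ≤ W.card := by
  have h1 := Finset.sum_card_fiberwise_eq_card_filter W (Finset.Ico a t) Prod.fst
  have h2 : (Finset.Ico a t).card • M ≤ ∑ j ∈ Finset.Ico a t, (W.filter fun v => v.1 = j).card :=
    Finset.card_nsmul_le_sum _ _ _ (fun j hj => by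
      obtain ⟨j1, j2⟩ := Finset.mem_Ico.mp hj
      exact (h j j1 j2).le.trans (Finset.card_le_card (Finset.filter_subset_filter _ (hW j j2))))
  have h3 := Finset.card_filter_le W (fun v => v.1 ∈ Finset.Ico a t)
  rw [h1, Int.card_Ico, smul_eq_mul] at h2
  have h4 : (((t - a).toNat * M : ℕ) : ℤ) ≤ W.card := by exact_mod_cast h2.trans h3
  have h5 : (M : ℤ) * (t - a) ≤ M * ((t - a).toNat : ℤ) :=
    mul_le_mul_of_nonneg_left (Int.self_le_toNat _) (Int.natCast_nonneg _)
  push_cast at h4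
  linarith

/-- the upper ends of the edges of `F` -/
def ends (X : Finset (Site D)) (F : Finset (Ed D)) : Finset (Site D) :=
  (X.filter fun a => fwd a ∈ F).image (· + e1)

theorem mem_ends {X : Finset (Site D)} {F : Finset (Ed D)} {v : Site D} :
    v ∈ ends X F ↔ ∃ a ∈ X, fwd a ∈ F ∧ a + e1 = v := by
  simp only [ends, Finset.mem_image, Finset.mem_filter, and_assoc]

theorem card_ends (X : Finset (Site D)) (F : Finset (Ed D)) : (ends X F).card ≤ X.card :=
  Finset.card_image_le.trans (Finset.card_filter_le _ _)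

theorem split_low {x : Site D} {E : Finset (Ed D)} (h : IsClu x E) {t : ℤ} (ht : x.1 ≤ t) :
    ∃ F R : Finset (Ed D), IsClu x (low x E t) ∧ (∀ v ∈ verts x (low x E t), v.1 ≤ t) ∧
      F ⊆ (top x (low x E t) t).image fwd ∧ IsFor (ends (top x (low x E t) t) F) R ∧
      E = low x E t ∪ F ∪ R ∧ Disjoint (low x E t) F ∧ Disjoint (low x E t ∪ F) R ∧
      verts x E = verts x (low x E t) ∪ vs (ends (top x (low x E t) t) F) R ∧
      Disjoint (verts x (low x E t)) (vs (ends (top x (low x E t) t) F) R) := by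
  set EA := low x E t with hEA
  set A := verts x EA with hA
  have hAt : ∀ v ∈ A, v.1 ≤ t := by
    intro v hv
    rcases mem_verts.mp hv with rfl | ⟨e, he, hv⟩
    · exact ht
    · exact (Finset.mem_filter.mp (comp_subset _ _ he)).2 v hv
  have hin : ∀ a b, s(a, b) ∈ E → a ∈ A → b.1 ≤ t → s(a, b) ∈ EA := by
    intro a b he ha hb
    refine Finset.mem_filter.mpr ⟨Finset.mem_filter.mpr ⟨he, fun v hv => ?_⟩, a,
      Sym2.mem_mk_left _ _, mem_comp.mp ha⟩
    rcases Sym2.mem_iff.mp hv with rfl | rfl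
    exacts [hAt _ ha, hb]
  have hout : ∀ a b, s(a, b) ∈ E → a ∈ A → b ∉ A → a.1 = t ∧ b = a + e1 := by
    intro a b he ha hb
    have h1 : t < b.1 := by
      by_contra hc
      exact hb (mem_of_edge (hin a b he ha (not_lt.mp hc)) (Sym2.mem_mk_right _ _))
    obtain ⟨h2, h3⟩ := adj_lev (h.1 _ he)
    have := abs_le.mp h2
    have := hAt a ha
    exact ⟨by omega, h3 (by omega)⟩
  let F := E.filter fun e => (∃ v ∈ e, v ∈ A) ∧ ∃ v ∈ e, v ∉ A
  let R := E.filter fun e => ∀ v ∈ e, v ∉ A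
  have hF : ∀ a b, s(a, b) ∈ E → a ∈ A → b ∉ A → b ∈ ends (top x EA t) F := by
    intro a b he ha hb
    obtain ⟨h1, rfl⟩ := hout a b he ha hb
    exact mem_ends.mpr ⟨a, Finset.mem_filter.mpr ⟨ha, h1⟩, Finset.mem_filter.mpr
      ⟨he, ⟨_, Sym2.mem_mk_left _ _, ha⟩, _, Sym2.mem_mk_right _ _, hb⟩, rfl⟩
  have hconn : ∀ v, Conn E x v → v ∈ A ∨ ∃ y ∈ ends (top x EA t) F, Conn R y v := by
    intro v hv
    induction hv with
    | refl => exact Or.inl (root_mem _ _)
    | @tail b c _ he ih =>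
      by_cases hc : c ∈ A
      · exact Or.inl hc
      · by_cases hb : b ∈ A
        · exact Or.inr ⟨c, hF b c he hb hc, Relation.ReflTransGen.refl⟩
        · obtain ⟨y, hy, hyb⟩ := ih.resolve_left hb
          refine Or.inr ⟨y, hy, hyb.tail (Finset.mem_filter.mpr ⟨he, fun v hv => ?_⟩)⟩
          rcases Sym2.mem_iff.mp hv with rfl | rfl
          exacts [hb, hc]
  have hvs : ∀ v ∈ vs (ends (top x EA t) F) R, v ∈ verts x E ∧ v ∉ A := by
    intro v hv
    rcases mem_vs.mp hv with hv | ⟨e, he, hv⟩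
    · obtain ⟨a, ha, hf, rfl⟩ := mem_ends.mp hv
      refine ⟨mem_of_edge (Finset.mem_filter.mp hf).1 (Sym2.mem_mk_right _ _), fun h' => ?_⟩
      have := hAt _ h'
      rw [lev_add, (Finset.mem_filter.mp ha).2] at this
      omega
    · exact ⟨mem_of_edge (Finset.mem_filter.mp he).1 hv, (Finset.mem_filter.mp he).2 v hv⟩
  refine ⟨F, R, isClu_comp (fun e he => h.1 e (Finset.mem_filter.mp he).1) x, hAt, ?_,
    ⟨fun e he => h.1 e (Finset.mem_filter.mp he).1, fun v hv => ?_⟩, ?_, ?_, ?_, ?_, ?_⟩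
  · intro e he
    obtain ⟨he, ⟨a, ha, ha'⟩, b, hb, hb'⟩ := Finset.mem_filter.mp he
    have hab : a ≠ b := fun h' => hb' (h' ▸ ha')
    rw [(Sym2.mem_and_mem_iff hab).mp ⟨ha, hb⟩] at he ⊢
    obtain ⟨h1, rfl⟩ := hout a b he ha' hb'
    exact Finset.mem_image.mpr ⟨a, Finset.mem_filter.mpr ⟨ha', h1⟩, rfl⟩
  · exact (hconn v (h.2 v (hvs v hv).1)).resolve_left (hvs v hv).2
  · ext e
    simp only [Finset.mem_union]
    constructor
    · intro he
      by_cases h1 : ∀ v ∈ e, v ∉ A
      · exact Or.inr (Finset.mem_filter.mpr ⟨he, h1⟩)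
      · by_cases h2 : ∃ v ∈ e, v ∉ A
        · refine Or.inl (Or.inr (Finset.mem_filter.mpr ⟨he, ?_, h2⟩))
          by_contra h3
          exact h1 (fun v hv hv' => h3 ⟨v, hv, hv'⟩)
        · have h3 : ∀ v ∈ e, v ∈ A := fun v hv => by
            by_contra h'
            exact h2 ⟨v, hv, h'⟩
          induction e using Sym2.ind with
          | h a b =>
            exact Or.inl (Or.inl (hin a b he (h3 a (Sym2.mem_mk_left _ _))
              (hAt b (h3 b (Sym2.mem_mk_right _ _)))))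
    · rintro ((he | he) | he)
      exacts [low_subset _ _ _ he, (Finset.mem_filter.mp he).1, (Finset.mem_filter.mp he).1]
  · rw [Finset.disjoint_left]
    intro e h1 h2
    obtain ⟨-, -, v, hv, hv'⟩ := Finset.mem_filter.mp h2
    exact hv' (mem_of_edge h1 hv)
  · rw [Finset.disjoint_left]
    intro e h1 h2
    have h3 := (Finset.mem_filter.mp h2).2
    rcases Finset.mem_union.mp h1 with h1 | h1
    · exact h3 _ e.out_fst_mem (mem_of_edge h1 e.out_fst_mem)
    · obtain ⟨-, ⟨v, hv, hv'⟩, -⟩ := Finset.mem_filter.mp h1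
      exact h3 v hv hv'
  · ext v
    rw [Finset.mem_union]
    constructor
    · intro hv
      exact (hconn v (h.2 v hv)).imp_right (fun ⟨y, hy, hc⟩ => mem_vs_of_conn hy hc)
    · rintro (hv | hv)
      exacts [verts_mono (low_subset _ _ _) hv, (hvs v hv).1]
  · rw [Finset.disjoint_right]
    exact fun v hv => (hvs v hv).2

theorem clu_for {x : Site D} {EA F R : Finset (Ed D)} {Y : Finset (Site D)} (hA : IsClu x EA)
    (hR : IsFor Y R) (hF : ∀ e ∈ F, ∃ a ∈ verts x EA, a + e1 ∈ Y ∧ e = fwd a)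
    (hY : ∀ y ∈ Y, ∃ a ∈ verts x EA, fwd a ∈ F ∧ a + e1 = y) :
    IsClu x (EA ∪ F ∪ R) ∧ verts x (EA ∪ F ∪ R) = verts x EA ∪ vs Y R := by
  have s1 : EA ⊆ EA ∪ F ∪ R := Finset.subset_union_left.trans Finset.subset_union_left
  have s2 : F ⊆ EA ∪ F ∪ R := Finset.subset_union_right.trans Finset.subset_union_left
  have s3 : R ⊆ EA ∪ F ∪ R := Finset.subset_union_right
  have hc : ∀ v ∈ verts x EA ∪ vs Y R, Conn (EA ∪ F ∪ R) x v := by
    intro v hv
    rcases Finset.mem_union.mp hv with hv | hv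
    · exact conn_mono s1 (hA.2 v hv)
    · obtain ⟨y, hy, hyv⟩ := hR.2 v hv
      obtain ⟨a, ha, hf, rfl⟩ := hY y hy
      exact ((conn_mono s1 (hA.2 a ha)).tail (s2 hf)).trans (conn_mono s3 hyv)
  have e : verts x (EA ∪ F ∪ R) = verts x EA ∪ vs Y R := by
    ext v
    refine ⟨fun hv => ?_, fun hv => mem_of_conn (hc v hv)⟩
    rcases mem_verts.mp hv with rfl | ⟨e, he, hv⟩
    · exact Finset.mem_union_left _ (root_mem _ _)
    · rcases Finset.mem_union.mp he with he | he
      · rcases Finset.mem_union.mp he with he | he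
        · exact Finset.mem_union_left _ (mem_of_edge he hv)
        · obtain ⟨a, ha, ha', rfl⟩ := hF e he
          rcases Sym2.mem_iff.mp hv with rfl | rfl
          · exact Finset.mem_union_left _ ha
          · exact Finset.mem_union_right _ (mem_vs.mpr (Or.inl ha'))
      · exact Finset.mem_union_right _ (mem_vs.mpr (Or.inr ⟨e, he, hv⟩))
  refine ⟨⟨fun e he => ?_, fun v hv => hc v (e ▸ hv)⟩, e⟩
  rcases Finset.mem_union.mp he with he | he
  · rcases Finset.mem_union.mp he with he | he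
    · exact hA.1 e he
    · obtain ⟨a, -, -, rfl⟩ := hF e he
      exact isEdge_fwd a
  · exact hR.1 e he

theorem fwd_inj {a b : Site D} (h : fwd a = fwd b) : a = b := by
  rcases Sym2.eq_iff.mp h with ⟨h1, -⟩ | ⟨h1, h2⟩
  · exact h1
  · have a1 := congrArg Prod.fst h1
    have a2 := congrArg Prod.fst h2
    rw [lev_add] at a1 a2
    omega

theorem gain {x x' : Site D} {EA F EB R : Finset (Ed D)} {t : ℤ} (hA : IsClu x EA)
    (hAt : ∀ v ∈ verts x EA, v.1 ≤ t) (hF : F ⊆ (top x EA t).image fwd)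
    (hx' : x' ∈ ends (top x EA t) F) (hB : IsClu x' EB) (hy : ∃ y ∈ verts x' EB, n ≤ y.1)
    (hR : IsFor (ends (top x EA t) F \ verts x' EB) R)
    (d1 : Disjoint (verts x EA) (verts x' EB))
    (d2 : Disjoint (verts x' EB) (vs (ends (top x EA t) F \ verts x' EB) R))
    (h1 : x.1 + 2 * K ≤ t) (h2 : t < n) :
    2 * ((back x (EA ∪ F ∪ (EB ∪ R)) : ℤ) - K * cuts K n x (EA ∪ F ∪ (EB ∪ R))) ≤
      2 * (back x' EB - K * cuts K n x' EB) - 2 * K + 2 * back x EA +
        5 * (vs (ends (top x EA t) F \ verts x' EB) R).card := by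
  set B := verts x' EB with hBdef
  set Y := ends (top x EA t) F \ B with hY
  set W := vs Y R with hW
  have hlev : ∀ y ∈ ends (top x EA t) F, y.1 = t + 1 := by
    intro y hy
    obtain ⟨a, ha, -, rfl⟩ := mem_ends.mp hy
    rw [lev_add, (Finset.mem_filter.mp ha).2]
  have hx1 := hlev x' hx'
  have hWl : ∀ v ∈ W, |v.1 - (t + 1)| < W.card := by
    intro v hv
    obtain ⟨y, hy, hc⟩ := hR.2 v hv
    rw [← hlev y (Finset.mem_sdiff.mp hy).1]
    exact lev_lt_card hR.1 hc (fun w hw => mem_vs_of_conn hy hw)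
  let FB := F.filter fun e => ∃ a, e = fwd a ∧ a + e1 ∈ B
  let FD := F.filter fun e => ¬ ∃ a, e = fwd a ∧ a + e1 ∈ B
  obtain ⟨c1, c2⟩ := clu_for (F := FD) hA hR (by
      intro e he
      obtain ⟨he, he'⟩ := Finset.mem_filter.mp he
      obtain ⟨a, ha, rfl⟩ := Finset.mem_image.mp (hF he)
      exact ⟨a, (Finset.mem_filter.mp ha).1, Finset.mem_sdiff.mpr
        ⟨mem_ends.mpr ⟨a, ha, he, rfl⟩, fun h => he' ⟨a, rfl, h⟩⟩, rfl⟩) (by
      intro y hy
      obtain ⟨hy, hy'⟩ := Finset.mem_sdiff.mp hy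
      obtain ⟨a, ha, hf, rfl⟩ := mem_ends.mp hy
      refine ⟨a, (Finset.mem_filter.mp ha).1, Finset.mem_filter.mpr ⟨hf, ?_⟩, rfl⟩
      rintro ⟨b, hb, hb'⟩
      exact hy' (fwd_inj hb ▸ hb'))
  have hE : EA ∪ F ∪ (EB ∪ R) = EA ∪ FD ∪ R ∪ FB ∪ EB := by
    have : F = FD ∪ FB := by
      rw [Finset.union_comm]; exact (Finset.filter_union_filter_not_eq _ _).symm
    ext e
    conv_lhs => rw [this]
    simp only [Finset.mem_union]
    tauto
  have hne : FB.Nonempty := by
    obtain ⟨a, -, hf, ha⟩ := mem_ends.mp hx'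
    exact ⟨fwd a, Finset.mem_filter.mpr ⟨hf, a, rfl, ha ▸ root_mem _ _⟩⟩
  have hFB : ∀ e ∈ FB, ∃ a ∈ verts x (EA ∪ FD ∪ R), a.1 = t ∧ a + e1 ∈ B ∧ e = fwd a := by
    intro e he
    obtain ⟨he, b, rfl, hb⟩ := Finset.mem_filter.mp he
    obtain ⟨a, ha, hab⟩ := Finset.mem_image.mp (hF he)
    rw [fwd_inj hab] at ha
    exact ⟨b, c2 ▸ Finset.mem_union_left _ (Finset.mem_filter.mp ha).1,
      (Finset.mem_filter.mp ha).2, hb, rfl⟩
  have hd : Disjoint (verts x (EA ∪ FD ∪ R)) B := by
    rw [c2, Finset.disjoint_union_left]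
    exact ⟨d1, d2.symm⟩
  have hup : ∀ v ∈ verts x (EA ∪ FD ∪ R), v.1 ≤ t + W.card := by
    intro v hv
    rw [c2] at hv
    rcases Finset.mem_union.mp hv with hv | hv
    · have := hAt v hv
      omega
    · have := abs_lt.mp (hWl v hv)
      omega
  obtain ⟨T, hT, hTl⟩ := exists_cuts (K := K) hB hy
  have g1 : 2 * (K : ℤ) * cuts K n x' EB ≤ 2 * K * cuts K n x (EA ∪ F ∪ (EB ∪ R)) + W.card := by
    obtain ⟨T', t1, t2, t3⟩ := dropMany (t + W.card - K) T (x'.1 + 2 * K) hT (by
      intro u hu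
      cases T with
      | nil => simp at hu
      | cons w T' =>
        have := chain_head hT
        have e : w = u := by simpa using hu
        omega)
    have t4 := le_cuts (absorb t1 c1 hd hne (fun e he => by
        obtain ⟨a, a1, a2, a3⟩ := hFB e he
        exact ⟨a, a1, by omega, a3⟩) (fun u hu v hv => by
        have := t2 u hu
        have := hup v hv
        omega) (by omega))
    rw [← hE] at t4
    rw [hTl] at t3
    have t5 : 2 * (K : ℤ) * T'.length ≤ 2 * K * cuts K n x (EA ∪ F ∪ (EB ∪ R)) :=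
      mul_le_mul_of_nonneg_left (by exact_mod_cast t4) (by positivity)
    omega
  have g2 : W.card ≤ K → back x' EB ≤ K →
      (K : ℤ) * cuts K n x' EB + K ≤ K * cuts K n x (EA ∪ F ∪ (EB ∪ R)) := by
    intro w1 w2
    have t4 := le_cuts (Chain.cons _ _ _ _ _ t _ c1 hT hd hne hFB hx1.ge (fun v hv => by
      have := hup v hv
      omega) (fun v hv => by
      have := le_back hv
      omega) h1 h2)
    rw [← hE, List.length_cons, hTl] at t4
    have t5 : (K : ℤ) * ((cuts K n x' EB + 1 : ℕ) : ℤ) ≤ K * cuts K n x (EA ∪ F ∪ (EB ∪ R)) :=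
      mul_le_mul_of_nonneg_left (by exact_mod_cast t4) (by positivity)
    push_cast at t5
    linarith
  have g3 : (back x (EA ∪ F ∪ (EB ∪ R)) : ℤ) ≤
      back x EA + W.card + max 0 ((back x' EB : ℤ) - 2 * K) := by
    obtain ⟨v, hv, hv'⟩ := exists_back x (EA ∪ F ∪ (EB ∪ R))
    have hv2 := hv
    rw [hE, (glue c1 hB hne (fun e he => by
      obtain ⟨a, a1, -, a3⟩ := hFB e he
      exact ⟨a, a1, a3⟩)).2, c2] at hv2
    rcases Finset.mem_union.mp hv2 with hv2 | hv2
    · rcases Finset.mem_union.mp hv2 with hv2 | hv2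
      · have := le_back hv2
        omega
      · have := abs_lt.mp (hWl v hv2)
        omega
    · have := le_back hv2
      omega
  rw [mul_assoc, mul_assoc] at g1
  by_cases w : W.card ≤ K ∧ back x' EB ≤ K
  · have := g2 w.1 w.2
    omega
  · omega

end

end Pool.Agent.MP_48a2f9_mp.OZ.MG1

end MrgPart0

-- ======== part 1: formerly Pool.Agent.MP_48a2f9_mp.MG1b
section MrgPart1

/-!
Module MG1, second part: the forest bound, the bound for the first block and the recursion.
-/

open Filter Topology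
open scoped ENNReal

namespace Pool.Agent.MP_48a2f9_mp.OZ.MG1

noncomputable section
open Classical

variable {D : ℕ}

theorem tsum_le_of_exists {α β : Type} (π : β → α) (g : α → ℝ≥0∞) (h : β → ℝ≥0∞)
    (hh : ∀ a, g a ≠ 0 → ∃ p, π p = a ∧ g a ≤ h p) : ∑' a, g a ≤ ∑' p, h p := by
  calc ∑' a, g a ≤ ∑' a, ∑' p, if a = π p then h p else 0 := by
        refine ENNReal.tsum_le_tsum (fun a => ?_)
        by_cases ha : g a = 0
        · rw [ha]; exact zero_le
        · obtain ⟨p, h1, h2⟩ := hh a ha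
          refine le_trans ?_ (ENNReal.le_tsum p)
          rwa [if_pos h1.symm]
    _ = ∑' p, h p := by
        rw [ENNReal.tsum_comm]
        exact tsum_congr (fun p => tsum_ite_eq (π p) (fun _ => h p))

theorem tsum6 {α β γ δ η θ : Type} (a : α → β → ℝ≥0∞) (b : α → β → γ → ℝ≥0∞)
    (c : α → β → γ → δ → ℝ≥0∞) (d : α → β → δ → η → ℝ≥0∞) (f : α → β → γ → δ → η → θ → ℝ≥0∞) :
    ∑' p : α × β × γ × δ × η × θ, a p.1 p.2.1 * (b p.1 p.2.1 p.2.2.1 *
      (c p.1 p.2.1 p.2.2.1 p.2.2.2.1 * (d p.1 p.2.1 p.2.2.2.1 p.2.2.2.2.1 *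
        f p.1 p.2.1 p.2.2.1 p.2.2.2.1 p.2.2.2.2.1 p.2.2.2.2.2))) =
    ∑' i, ∑' j, a i j * ∑' k, b i j k * ∑' l, c i j k l * ∑' m, d i j l m * ∑' n, f i j k l m n := by
  simp only [← ENNReal.tsum_mul_left, ENNReal.tsum_prod']

theorem rr_nonneg {β J : ℝ} (hβ : 0 < β) (hJ : 0 ≤ J) (e : Ed D) : 0 ≤ rr β J e := by
  have : 0 ≤ β * edgeJ J e := mul_nonneg hβ.le (by unfold edgeJ; split_ifs <;> linarith)
  have := Real.one_le_exp this
  unfold rr
  linarith

theorem rr_le {β J : ℝ} (hβ : 0 < β) (hJ : 0 ≤ J) (e : Ed D) :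
    rr β J e ≤ Real.exp (β * (J + 1)) := by
  have : β * edgeJ J e ≤ β * (J + 1) :=
    mul_le_mul_of_nonneg_left (by unfold edgeJ; split_ifs <;> linarith) hβ.le
  have := Real.exp_le_exp.mpr this
  unfold rr
  linarith

variable {M : Model D} {J : ℝ}

theorem psi_nonneg (h : M.CW) (hJ : 0 ≤ J) {S : Set (Site D)} {W : Finset (Site D)}
    (hW : (↑W : Set (Site D)) ⊆ S) : 0 ≤ M.Ψ J S W := by
  obtain ⟨c, hc, h'⟩ := h.pos J hJ
  exact (pow_pos hc _).le.trans (h' S W hW)

theorem one_le_q (h : M.CW) : (1 : ℝ) ≤ M.q := by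
  have := h.two_le
  exact_mod_cast (by omega : 1 ≤ M.q)

theorem wtR_nonneg (h : M.CW) (hJ : 0 ≤ J) {S : Set (Site D)} {x : Site D} {E : Finset (Ed D)}
    (hW : (↑(verts x E) : Set (Site D)) ⊆ S) : 0 ≤ M.wtR J S x E :=
  mul_nonneg (mul_nonneg (Nat.cast_nonneg _)
    (Finset.prod_nonneg (fun e _ => rr_nonneg h.beta_pos hJ e))) (psi_nonneg h hJ hW)

theorem wt_ne {S : Set (Site D)} {x : Site D} {E : Finset (Ed D)} (h : M.wt J S x E ≠ 0) :
    IsClu x E ∧ (↑(verts x E) : Set (Site D)) ⊆ S := by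
  by_contra hc
  exact h (if_neg hc)

theorem sub_diff {S : Set (Site D)} {A B : Finset (Site D)} (hB : (↑B : Set (Site D)) ⊆ S)
    (hd : Disjoint A B) : (↑B : Set (Site D)) ⊆ S \ ↑A :=
  fun _ hv => ⟨hB hv, fun h => Finset.disjoint_left.mp hd h hv⟩

variable (M J) in
/-- the weight of a union of clusters -/
def forW (ε : ℝ) (S : Set (Site D)) (Y : Finset (Site D)) (E : Finset (Ed D)) : ℝ≥0∞ :=
  if IsFor Y E ∧ (↑(vs Y E) : Set (Site D)) ⊆ S then
    ENNReal.ofReal ((∏ e ∈ E, rr M.β J e) * M.Ψ J S (vs Y E) * Real.exp (ε * (vs Y E).card))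
  else 0

theorem forest (h : M.CW) (hJ : 0 ≤ J) {ε : ℝ} {C0 : ℝ≥0∞} (h1 : 1 ≤ C0)
    (hv : ∀ (S : Set (Site D)) (x : Site D), ∑' E : Finset (Ed D),
      M.wt J S x E * ENNReal.ofReal (Real.exp (ε * (verts x E).card)) ≤ C0) :
    ∀ (N : ℕ) (Y : Finset (Site D)), Y.card ≤ N → ∀ S, ∑' E, forW M J ε S Y E ≤ C0 ^ N := by
  have hemp : ∀ S, ∑' E, forW M J ε S ∅ E ≤ 1 := by
    intro S
    refine (tsum_le_of_exists (fun _ : Unit => (∅ : Finset (Ed D))) _ (fun _ => 1)
      (fun E hE => ?_)).trans (by simp)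
    have hc : IsFor ∅ E ∧ (↑(vs ∅ E) : Set (Site D)) ⊆ S := by
      by_contra hc
      exact hE (if_neg hc)
    have he : E = ∅ := by
      rw [Finset.eq_empty_iff_forall_notMem]
      intro e he
      obtain ⟨y, hy, -⟩ := hc.1.2 _ (mem_vs.mpr (Or.inr ⟨e, he, e.out_fst_mem⟩))
      exact Finset.notMem_empty _ hy
    subst he
    refine ⟨(), rfl, ?_⟩
    rw [forW, if_pos hc]
    have := h.le_one J hJ S _ hc.2
    simpa [vs] using this
  intro N
  induction N with
  | zero =>
    intro Y hY S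
    rw [Finset.card_eq_zero.mp (Nat.le_zero.mp hY), pow_zero]
    exact hemp S
  | succ N ih =>
    intro Y hY S
    rcases Y.eq_empty_or_nonempty with rfl | ⟨y, hy⟩
    · exact (hemp S).trans (one_le_pow₀ h1)
    refine (tsum_le_of_exists (fun p : Finset (Ed D) × Finset (Ed D) => p.1 ∪ p.2) _
      (fun p => M.wt J S y p.1 * ENNReal.ofReal (Real.exp (ε * (verts y p.1).card)) *
        forW M J ε (S \ ↑(verts y p.1)) (Y \ verts y p.1) p.2) (fun E hE => ?_)).trans ?_
    · have hc : IsFor Y E ∧ (↑(vs Y E) : Set (Site D)) ⊆ S := by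
        by_contra hc
        exact hE (if_neg hc)
      obtain ⟨p1, p2, p3⟩ := peel hc.1 (mem_vs.mpr (Or.inl hy))
      have s1 : (↑(verts y (comp E y)) : Set (Site D)) ⊆ S := fun v hv =>
        hc.2 (p2 ▸ Finset.mem_union_left _ hv)
      have s2 : (↑(vs (Y \ verts y (comp E y)) (E \ comp E y)) : Set (Site D)) ⊆ S := fun v hv =>
        hc.2 (p2 ▸ Finset.mem_union_right _ hv)
      refine ⟨(comp E y, E \ comp E y), Finset.union_sdiff_of_subset (comp_subset _ _), ?_⟩
      simp only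
      rw [forW, if_pos hc, forW, if_pos ⟨p1, sub_diff s2 p3⟩, Model.wt,
        if_pos ⟨isClu_comp hc.1.1 y, s1⟩, ← ENNReal.ofReal_mul (wtR_nonneg h hJ s1),
        ← ENNReal.ofReal_mul (mul_nonneg (wtR_nonneg h hJ s1) (Real.exp_pos _).le)]
      apply ENNReal.ofReal_le_ofReal
      rw [← Finset.prod_sdiff (comp_subset E y), Model.wtR]
      conv_lhs => rw [p2, h.cocycle J hJ S _ _ p3 s1 s2, Finset.card_union_of_disjoint p3,
        Nat.cast_add, mul_add, Real.exp_add]
      have a1 := Finset.prod_nonneg (s := E \ comp E y) (fun e _ => rr_nonneg h.beta_pos hJ e)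
      have a2 := Finset.prod_nonneg (s := comp E y) (fun e _ => rr_nonneg h.beta_pos hJ e)
      have a3 := psi_nonneg h hJ s1
      have a4 := psi_nonneg h hJ (sub_diff s2 p3)
      refine (le_mul_of_one_le_left (by positivity) (one_le_q h)).trans (le_of_eq ?_)
      ring
    · rw [ENNReal.tsum_prod', pow_succ']
      simp only [ENNReal.tsum_mul_left]
      refine le_trans (ENNReal.tsum_le_tsum (fun E => mul_le_mul_right (ih _ ?_ _) _)) ?_
      · have : Y \ verts y E ⊆ Y.erase y := fun v hv => Finset.mem_erase.mpr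
          ⟨fun h' => (Finset.mem_sdiff.mp hv).2 (h' ▸ root_mem _ _), (Finset.mem_sdiff.mp hv).1⟩
        have := Finset.card_le_card this
        rw [Finset.card_erase_of_mem hy] at this
        omega
      · rw [ENNReal.tsum_mul_right]
        exact mul_le_mul_left (hv S y) _

theorem tsum_geo {A r : ℝ} (hA : 0 ≤ A) (hr : r < 0) :
    ∑' a : ℕ, ENNReal.ofReal (A * Real.exp (r * a)) = ENNReal.ofReal (A * (1 - Real.exp r)⁻¹) := by
  have h1 : Real.exp r < 1 := Real.exp_lt_one_iff.mpr hr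
  have h2 : ∀ a : ℕ, Real.exp (r * a) = Real.exp r ^ a := fun a => by
    rw [mul_comm, Real.exp_nat_mul]
  simp only [h2]
  rw [← ENNReal.ofReal_tsum_of_nonneg (fun a => by positivity)
    ((summable_geometric_of_lt_one (Real.exp_pos r).le h1).mul_left A), tsum_mul_left,
    tsum_geometric_of_lt_one (Real.exp_pos r).le h1]

theorem poly_le (N : ℕ) {c : ℝ} (hc : 0 < c) : ∃ C : ℝ, 0 ≤ C ∧ ∀ x : ℝ, 0 ≤ x →
    (x + 1) ^ N ≤ C * Real.exp (c * x) := by
  refine ⟨N.factorial / c ^ N * Real.exp c, by positivity, fun x hx => ?_⟩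
  have h1 := Real.pow_div_factorial_le_exp (c * (x + 1)) (by positivity) N
  rw [div_le_iff₀ (by positivity), mul_pow, mul_add, mul_one, Real.exp_add] at h1
  rw [div_mul_eq_mul_div, div_mul_eq_mul_div, le_div_iff₀ (by positivity)]
  linarith

variable (M J) in
/-- the weight of the first block -/
def blk (ε : ℝ) (N K : ℕ) (S : Set (Site D)) (x : Site D) (l : ℕ) (E : Finset (Ed D)) : ℝ≥0∞ :=
  if Reach x E l ∧ (N : ℤ) * (l - 2 * K) ≤ (verts x E).card then
    M.wt J S x E * ENNReal.ofReal (Real.exp (ε * back x E)) else 0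

theorem blk_bound (h0 : MG0Stmt) (h : M.CW) {ξ : ℝ} (hg : M.Good J ξ) {ε ε0 C0 : ℝ} (hε : 0 < ε)
    (hε1 : ε ≤ ξ / 2) (hε2 : ε ≤ ε0 / 3)
    (hv : ∀ (S : Set (Site D)) (x : Site D), ∑' E : Finset (Ed D),
      M.wt J S x E * ENNReal.ofReal (Real.exp (ε0 * (verts x E).card)) ≤ ENNReal.ofReal C0)
    {N : ℕ} (hN : ξ + ε / 12 ≤ ε0 * N / 4) :
    ∃ C : ℝ, 0 < C ∧ ∀ (K : ℕ) (S : Set (Site D)) (x : Site D) (l : ℕ),
      ∑' E, blk M J ε N K S x l E ≤
        ENNReal.ofReal (C * Real.exp (ε * K / 2) * Real.exp (-(ξ + ε / 12) * l)) := by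
  obtain ⟨C1, hC1, h1⟩ := h0 D M J ξ h hg
  obtain ⟨C2, hC2, h2⟩ := poly_le (2 * D) (show 0 < ε / 24 by positivity)
  have hr : ε - ξ + ε / 24 < 0 := by linarith
  have hi : 0 ≤ (1 - Real.exp (ε - ξ + ε / 24))⁻¹ :=
    inv_nonneg.mpr (sub_nonneg.mpr (Real.exp_lt_one_iff.mpr hr).le)
  refine ⟨C1 * C2 * (1 - Real.exp (ε - ξ + ε / 24))⁻¹ + |C0| + 1, by positivity,
    fun K S x l => ?_⟩
  have hK : 1 ≤ Real.exp (ε * K / 2) := Real.one_le_exp (by positivity)
  by_cases hl : l ≤ 4 * K
  · calc ∑' E, blk M J ε N K S x l E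
        ≤ ∑' E : Finset (Ed D), ∑' a : ℕ, ENNReal.ofReal (Real.exp (ε * a)) *
          (if (∃ u ∈ verts x E, u.1 ≤ x.1 - a) ∧ (∃ v ∈ verts x E, x.1 + l ≤ v.1)
            then M.wt J S x E else 0) := by
          refine ENNReal.tsum_le_tsum (fun E => ?_)
          unfold blk
          split_ifs with hc
          · refine le_trans ?_ (ENNReal.le_tsum (back x E))
            rw [if_pos ⟨exists_back x E, hc.1⟩, mul_comm]
          · exact zero_le
      _ ≤ ∑' a : ℕ, ENNReal.ofReal (C1 * C2 * Real.exp (-(ξ - ε / 24) * l) *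
            Real.exp ((ε - ξ + ε / 24) * a)) := by
          rw [ENNReal.tsum_comm]
          refine ENNReal.tsum_le_tsum (fun a => ?_)
          rw [ENNReal.tsum_mul_left]
          refine (mul_le_mul_right (h1 S x a l) _).trans ?_
          rw [← ENNReal.ofReal_mul (Real.exp_pos _).le]
          apply ENNReal.ofReal_le_ofReal
          calc Real.exp (ε * a) * (C1 * ((a : ℝ) + l + 1) ^ (2 * D) * Real.exp (-ξ * (a + l)))
              ≤ Real.exp (ε * a) * (C1 * (C2 * Real.exp (ε / 24 * (a + l))) *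
                Real.exp (-ξ * (a + l))) := by
                gcongr
                exact h2 _ (by positivity)
            _ = C1 * C2 * (Real.exp (ε * a) * Real.exp (ε / 24 * (a + l)) *
                Real.exp (-ξ * (a + l))) := by ring
            _ = _ := by
                rw [mul_assoc (C1 * C2), ← Real.exp_add, ← Real.exp_add, ← Real.exp_add]
                congr 2
                ring
      _ ≤ _ := by
          rw [tsum_geo (by positivity) hr]
          apply ENNReal.ofReal_le_ofReal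
          have h3 : Real.exp (-(ξ - ε / 24) * l) ≤
              Real.exp (ε * K / 2) * Real.exp (-(ξ + ε / 12) * l) := by
            rw [← Real.exp_add, Real.exp_le_exp]
            have : (l : ℝ) ≤ 4 * K := by exact_mod_cast hl
            nlinarith
          calc C1 * C2 * Real.exp (-(ξ - ε / 24) * l) * (1 - Real.exp (ε - ξ + ε / 24))⁻¹
              = C1 * C2 * (1 - Real.exp (ε - ξ + ε / 24))⁻¹ * Real.exp (-(ξ - ε / 24) * l) := by
                ring
            _ ≤ (C1 * C2 * (1 - Real.exp (ε - ξ + ε / 24))⁻¹ + |C0| + 1) *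
                (Real.exp (ε * K / 2) * Real.exp (-(ξ + ε / 12) * l)) := by
                gcongr
                linarith [abs_nonneg C0]
            _ = _ := by ring
  · calc ∑' E, blk M J ε N K S x l E
        ≤ ∑' E : Finset (Ed D), M.wt J S x E *
            ENNReal.ofReal (Real.exp (ε0 * (verts x E).card)) *
            ENNReal.ofReal (Real.exp (-(ξ + ε / 12) * l)) := by
          refine ENNReal.tsum_le_tsum (fun E => ?_)
          unfold blk
          split_ifs with hc
          · by_cases hw : M.wt J S x E = 0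
            · rw [hw, zero_mul]; exact zero_le
            rw [mul_assoc, ← ENNReal.ofReal_mul (Real.exp_pos _).le, ← Real.exp_add]
            refine mul_le_mul_right (ENNReal.ofReal_le_ofReal (Real.exp_le_exp.mpr ?_)) _
            have a1 : (back x E : ℝ) ≤ (verts x E).card := by
              exact_mod_cast back_le_card (wt_ne hw).1
            have a2 : (N : ℝ) * (l - 2 * K) ≤ (verts x E).card := by exact_mod_cast hc.2
            have a3 : 4 * (K : ℝ) ≤ l := by exact_mod_cast (not_le.mp hl).le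
            have a4 : (N : ℝ) * l / 2 ≤ (verts x E).card := by
              have : (0 : ℝ) ≤ N * (l - 4 * K) := mul_nonneg (Nat.cast_nonneg _) (by linarith)
              linarith
            have a5 : (ξ + ε / 12) * l ≤ ε0 * N / 4 * l :=
              mul_le_mul_of_nonneg_right hN (Nat.cast_nonneg _)
            have a6 : ε * back x E ≤ ε0 / 3 * (verts x E).card :=
              mul_le_mul hε2 a1 (Nat.cast_nonneg _) (by linarith)
            have a7 : ε0 * (N * l / 2) ≤ ε0 * (verts x E).card :=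
              mul_le_mul_of_nonneg_left a4 (by linarith)
            have a8 : 0 ≤ ε0 * (verts x E).card := mul_nonneg (by linarith) (Nat.cast_nonneg _)
            linarith
          · exact zero_le
      _ ≤ _ := by
          rw [ENNReal.tsum_mul_right]
          refine (mul_le_mul_left ((hv S x).trans
            (ENNReal.ofReal_le_ofReal (le_abs_self C0))) _).trans ?_
          rw [← ENNReal.ofReal_mul (abs_nonneg _)]
          apply ENNReal.ofReal_le_ofReal
          refine mul_le_mul_of_nonneg_right ?_ (Real.exp_pos _).le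
          refine le_trans ?_ (le_mul_of_one_le_right (by positivity) hK)
          have : 0 ≤ C1 * C2 * (1 - Real.exp (ε - ξ + ε / 24))⁻¹ := by positivity
          linarith

theorem sum_F (h : M.CW) (hJ : 0 ≤ J) (X : Finset (Ed D)) {N : ℕ} (hX : X.card ≤ N) :
    (∑' F : Finset (Ed D), if F ⊆ X then ENNReal.ofReal (∏ e ∈ F, rr M.β J e) else 0) ≤
      ENNReal.ofReal ((2 * Real.exp (M.β * (J + 1))) ^ N) := by
  have h1 : 1 ≤ Real.exp (M.β * (J + 1)) :=
    Real.one_le_exp (mul_nonneg h.beta_pos.le (by linarith))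
  rw [tsum_eq_sum (s := X.powerset) (fun F hF => if_neg (fun h' => hF (Finset.mem_powerset.mpr h')))]
  refine (Finset.sum_le_card_nsmul _ _ (ENNReal.ofReal (Real.exp (M.β * (J + 1)) ^ N))
    (fun F hF => ?_)).trans ?_
  · rw [if_pos (Finset.mem_powerset.mp hF)]
    apply ENNReal.ofReal_le_ofReal
    refine (Finset.prod_le_prod (fun e _ => rr_nonneg h.beta_pos hJ e)
      (fun e _ => rr_le h.beta_pos hJ e)).trans ?_
    rw [Finset.prod_const]
    exact pow_le_pow_right₀ h1 ((Finset.card_le_card (Finset.mem_powerset.mp hF)).trans hX)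
  · rw [Finset.card_powerset, nsmul_eq_mul, mul_pow, ENNReal.ofReal_mul (by positivity)]
    refine mul_le_mul_left ?_ _
    rw [ENNReal.ofReal_pow (by norm_num), ENNReal.ofReal_ofNat]
    push_cast
    exact pow_le_pow_right₀ one_le_two hX

variable (M J) in
/-- the tilted weight -/
def tw (ε : ℝ) (K : ℕ) (S : Set (Site D)) (x : Site D) (s : ℕ) (E : Finset (Ed D)) : ℝ≥0∞ :=
  if Reach x E s then M.wt J S x E *
    ENNReal.ofReal (Real.exp (ε * (back x E - K * cuts K (x.1 + s) x E))) else 0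

theorem step (h : M.CW) (hJ : 0 ≤ J) {ε ε0 : ℝ} (hε : 0 < ε) (hε2 : ε ≤ ε0 / 3) (N K : ℕ)
    (S : Set (Site D)) (x : Site D) (s : ℕ) :
    ∑' E, tw M J ε K S x s E ≤ ∑' E, blk M J ε N K S x s E +
      ∑' l : ℕ, ∑' EA, (if l < s ∧ (top x EA (x.1 + l)).card ≤ N then
          blk M J ε N K S x l EA * ENNReal.ofReal (Real.exp (-(ε * K))) else 0) *
        ∑' F : Finset (Ed D), (if F ⊆ (top x EA (x.1 + l)).image fwd then
            ENNReal.ofReal (∏ e ∈ F, rr M.β J e) else 0) *
          ∑' x' : Site D, (if x' ∈ ends (top x EA (x.1 + l)) F then 1 else 0) *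
            ∑' EB, tw M J ε K (S \ ↑(verts x EA)) x' (s - l - 1) EB *
              ∑' R, forW M J ε0 ((S \ ↑(verts x EA)) \ ↑(verts x' EB))
                (ends (top x EA (x.1 + l)) F \ verts x' EB) R := by
  let P : Finset (Ed D) → ℕ → Prop := fun E l => 2 * K ≤ l ∧ l < s ∧
    (top x (low x E (x.1 + l)) (x.1 + l)).card ≤ N
  have hfirst : ∀ (E : Finset (Ed D)) (l : ℕ), l ≤ s → (∀ l' < l, ¬ P E l') →
      ∀ W : Finset (Site D), (∀ t' < x.1 + l, verts x (low x E t') ⊆ W) →
        (N : ℤ) * (l - 2 * K) ≤ W.card := by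
    intro E l hl hP W hW
    have := card_ge (x := x) (E := E) (M := N) (a := x.1 + 2 * K) (t := x.1 + l) (fun t' h1 h2 => by
      obtain ⟨l', rfl⟩ : ∃ l' : ℕ, t' = x.1 + l' := ⟨(t' - x.1).toNat, by omega⟩
      by_contra hc
      exact hP l' (by omega) ⟨by omega, by omega, not_lt.mp hc⟩) hW
    rwa [show x.1 + l - (x.1 + 2 * K) = l - 2 * K by ring] at this
  calc ∑' E, tw M J ε K S x s E
      ≤ ∑' E, (blk M J ε N K S x s E + if ∃ l, P E l then tw M J ε K S x s E else 0) := by
        refine ENNReal.tsum_le_tsum (fun E => ?_)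
        split_ifs with hc
        · exact le_add_self
        · rw [add_zero]
          unfold tw blk
          by_cases hr : Reach x E s
          · rw [if_pos hr, if_pos ⟨hr, hfirst E s le_rfl (fun l' _ h' => hc ⟨l', h'⟩) _
              (fun t' _ => verts_mono (low_subset _ _ _))⟩]
            refine mul_le_mul_right (ENNReal.ofReal_le_ofReal (Real.exp_le_exp.mpr
              (mul_le_mul_of_nonneg_left (sub_le_self _ (by positivity)) hε.le))) _
          · rw [if_neg hr]; exact zero_le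
    _ ≤ _ := by
        rw [ENNReal.tsum_add]
        refine add_le_add_right ?_ _
        refine (tsum_le_of_exists (fun p : ℕ × Finset (Ed D) × Finset (Ed D) × Site D ×
            Finset (Ed D) × Finset (Ed D) => p.2.1 ∪ p.2.2.1 ∪ (p.2.2.2.2.1 ∪ p.2.2.2.2.2)) _
          (fun p => (if p.1 < s ∧ (top x p.2.1 (x.1 + p.1)).card ≤ N then
            blk M J ε N K S x p.1 p.2.1 * ENNReal.ofReal (Real.exp (-(ε * K))) else 0) *
            ((if p.2.2.1 ⊆ (top x p.2.1 (x.1 + p.1)).image fwd then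
              ENNReal.ofReal (∏ e ∈ p.2.2.1, rr M.β J e) else 0) *
            ((if p.2.2.2.1 ∈ ends (top x p.2.1 (x.1 + p.1)) p.2.2.1 then 1 else 0) *
            (tw M J ε K (S \ ↑(verts x p.2.1)) p.2.2.2.1 (s - p.1 - 1) p.2.2.2.2.1 *
            forW M J ε0 ((S \ ↑(verts x p.2.1)) \ ↑(verts p.2.2.2.1 p.2.2.2.2.1))
              (ends (top x p.2.1 (x.1 + p.1)) p.2.2.1 \ verts p.2.2.2.1 p.2.2.2.2.1)
              p.2.2.2.2.2)))) (fun E hE => ?_)).trans (le_of_eq ?_)
        swap
        · exact tsum6 (fun (l : ℕ) EA => if l < s ∧ (top x EA (x.1 + l)).card ≤ N then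
              blk M J ε N K S x l EA * ENNReal.ofReal (Real.exp (-(ε * K))) else 0)
            (fun (l : ℕ) EA (F : Finset (Ed D)) => if F ⊆ (top x EA (x.1 + l)).image fwd then
              ENNReal.ofReal (∏ e ∈ F, rr M.β J e) else 0)
            (fun (l : ℕ) EA F x' => if x' ∈ ends (top x EA (x.1 + l)) F then 1 else 0)
            (fun (l : ℕ) EA x' EB => tw M J ε K (S \ ↑(verts x EA)) x' (s - l - 1) EB)
            (fun (l : ℕ) EA F x' EB R => forW M J ε0 ((S \ ↑(verts x EA)) \ ↑(verts x' EB))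
                (ends (top x EA (x.1 + l)) F \ verts x' EB) R)
        have hex : ∃ l, P E l := by
          by_contra hc
          exact hE (if_neg hc)
        rw [if_pos hex] at hE ⊢
        have hr : Reach x E s := by
          by_contra hc
          exact hE (if_neg hc)
        rw [tw, if_pos hr] at hE ⊢
        obtain ⟨hclu, hS⟩ := wt_ne (left_ne_zero_of_mul hE)
        obtain ⟨l, ⟨l1, l2, l3⟩, hmin⟩ : ∃ l, P E l ∧ ∀ l' < l, ¬ P E l' :=
          ⟨Nat.find hex, Nat.find_spec hex, fun l' h' => Nat.find_min hex h'⟩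
        obtain ⟨F, R, a1, a2, a3, a4, a5, a6, a7, a8, a9⟩ :=
          split_low hclu (t := x.1 + l) (by omega)
        have hcard := hfirst E l l2.le hmin _ (fun t' ht' => low_mono x E ht'.le)
        generalize low x E (x.1 + l) = EA at a1 a2 a3 a4 a5 a6 a7 a8 a9 l3 hcard
        obtain ⟨y, hy, hy'⟩ := hr
        have hyR : y ∈ vs (ends (top x EA (x.1 + l)) F) R := by
          refine (Finset.mem_union.mp (a8 ▸ hy)).resolve_left (fun h' => ?_)
          have := a2 y h'
          omega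
        obtain ⟨x', hx', hc⟩ := a4.2 y hyR
        obtain ⟨p1, p2, p3⟩ := peel a4 (mem_vs.mpr (Or.inl hx'))
        have b1 := isClu_comp a4.1 x'
        have b2 : y ∈ verts x' (comp R x') := mem_comp.mpr hc
        have b3 : R = comp R x' ∪ (R \ comp R x') :=
          (Finset.union_sdiff_of_subset (comp_subset _ _)).symm
        have b4 : Disjoint (comp R x') (R \ comp R x') := Finset.disjoint_sdiff
        generalize R \ comp R x' = R' at p1 p2 p3 b3 b4
        generalize comp R x' = EB at p1 p2 p3 b1 b2 b3 b4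
        subst b3
        obtain ⟨a, ha, -, hax⟩ := mem_ends.mp hx'
        have hx1 : x'.1 = x.1 + l + 1 := by rw [← hax, lev_add, (Finset.mem_filter.mp ha).2]
        have hn : x'.1 + ((s - l - 1 : ℕ) : ℤ) = x.1 + s := by omega
        rw [p2] at a8 a9
        obtain ⟨d1, d2⟩ := Finset.disjoint_union_right.mp a9
        have hg := gain (K := K) (n := x.1 + s) a1 a2 a3 hx' b1 ⟨y, b2, hy'⟩ p1 d1 p3 (by omega)
          (by omega)
        rw [← a5] at hg
        set W := vs (ends (top x EA (x.1 + l)) F \ verts x' EB) R' with hW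
        rw [a8] at hS
        have s1 : (↑(verts x EA) : Set (Site D)) ⊆ S := fun v hv =>
          hS (Finset.mem_union_left _ hv)
        have s4 : (↑(verts x' EB ∪ W) : Set (Site D)) ⊆ S := fun v hv =>
          hS (Finset.mem_union_right _ hv)
        have s2 : (↑(verts x' EB) : Set (Site D)) ⊆ S \ ↑(verts x EA) := fun v hv =>
          sub_diff s4 a9 (Finset.mem_union_left _ hv)
        have s5 : (↑W : Set (Site D)) ⊆ S \ ↑(verts x EA) := fun v hv =>
          sub_diff s4 a9 (Finset.mem_union_right _ hv)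
        have s3 := sub_diff s5 p3
        refine ⟨(l, EA, F, x', EB, R'), a5.symm, ?_⟩
        simp only
        have c1 := Finset.prod_nonneg (s := EA) (fun e _ => rr_nonneg h.beta_pos hJ e)
        have c2 := Finset.prod_nonneg (s := F) (fun e _ => rr_nonneg h.beta_pos hJ e)
        have c3 := Finset.prod_nonneg (s := EB) (fun e _ => rr_nonneg h.beta_pos hJ e)
        have c4 := Finset.prod_nonneg (s := R') (fun e _ => rr_nonneg h.beta_pos hJ e)
        have c5 := psi_nonneg h hJ s1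
        have c6 := psi_nonneg h hJ s2
        have c7 := psi_nonneg h hJ s3
        have c8 := wtR_nonneg h hJ s1
        have c9 := wtR_nonneg h hJ s2
        have c10 := wtR_nonneg h hJ (a8 ▸ hS : (↑(verts x E) : Set (Site D)) ⊆ S)
        rw [if_pos ⟨l2, l3⟩, if_pos a3, if_pos hx', one_mul, blk,
          if_pos ⟨⟨a, (Finset.mem_filter.mp ha).1, (Finset.mem_filter.mp ha).2.ge⟩, hcard⟩, tw,
          if_pos ⟨y, b2, hn ▸ hy'⟩, forW, if_pos ⟨p1, s3⟩, Model.wt, if_pos ⟨hclu, a8 ▸ hS⟩,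
          Model.wt, if_pos ⟨a1, s1⟩, Model.wt, if_pos ⟨b1, s2⟩, ← ENNReal.ofReal_mul c10,
          ← ENNReal.ofReal_mul c8, ← ENNReal.ofReal_mul c9, ← ENNReal.ofReal_mul (by positivity),
          ← ENNReal.ofReal_mul (by positivity), ← ENNReal.ofReal_mul c2,
          ← ENNReal.ofReal_mul (by positivity)]
        apply ENNReal.ofReal_le_ofReal
        have e1 : M.wtR J S x E = M.q * ((∏ e ∈ EA, rr M.β J e) * (∏ e ∈ F, rr M.β J e) *
            ((∏ e ∈ EB, rr M.β J e) * ∏ e ∈ R', rr M.β J e)) * (M.Ψ J S (verts x EA) *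
            (M.Ψ J (S \ ↑(verts x EA)) (verts x' EB) *
              M.Ψ J ((S \ ↑(verts x EA)) \ ↑(verts x' EB)) W)) := by
          rw [Model.wtR, a8, h.cocycle J hJ S _ _ a9 s1 s4, h.cocycle J hJ _ _ _ p3 s2 s5]
          conv_lhs => rw [a5, Finset.prod_union a7, Finset.prod_union a6, Finset.prod_union b4]
        have e2 : Real.exp (ε * (back x E - K * cuts K (x.1 + s) x E)) ≤
            Real.exp (ε * back x EA) * Real.exp (-(ε * K)) *
            Real.exp (ε * (back x' EB - K * cuts K (x.1 + s) x' EB)) * Real.exp (ε0 * W.card) := by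
          rw [← Real.exp_add, ← Real.exp_add, ← Real.exp_add, Real.exp_le_exp]
          have g1 : 2 * ((back x E : ℝ) - K * cuts K (x.1 + s) x E) ≤
              2 * (back x' EB - K * cuts K (x.1 + s) x' EB) - 2 * K + 2 * back x EA +
                5 * W.card := by exact_mod_cast hg
          have g2 := mul_le_mul_of_nonneg_left g1 hε.le
          have g3 : ε * W.card ≤ ε0 / 3 * W.card :=
            mul_le_mul_of_nonneg_right hε2 (Nat.cast_nonneg _)
          have g4 : 0 ≤ ε * W.card := by positivity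
          linarith
        rw [hn]
        refine (mul_le_mul_of_nonneg_left e2 c10).trans ?_
        refine (le_mul_of_one_le_left (by positivity) (one_le_q h)).trans (le_of_eq ?_)
        rw [e1, Model.wtR, Model.wtR]
        ring

theorem recursion (h0 : MG0Stmt) (h : M.CW) {ξ : ℝ} (hg : M.Good J ξ) :
    ∃ (K : ℕ) (ε C : ℝ), 1 ≤ K ∧ 0 < ε ∧ ∀ (s : ℕ) (S : Set (Site D)) (x : Site D),
      ∑' E, tw M J ε K S x s E ≤ ENNReal.ofReal (C * Real.exp (-(ξ + ε / 24) * s)) := by
  have hJ := hg.1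
  have hξ := hg.2.1
  obtain ⟨ε0, C0, hε0, hv⟩ := h.vol J hJ
  obtain ⟨ε, hε, hε1, hε2⟩ : ∃ ε : ℝ, 0 < ε ∧ ε ≤ ξ / 2 ∧ ε ≤ ε0 / 3 :=
    ⟨min (ξ / 2) (ε0 / 3), by positivity, min_le_left _ _, min_le_right _ _⟩
  obtain ⟨N, hN⟩ := exists_nat_ge ((ξ + ε / 12) * 4 / ε0)
  obtain ⟨CH, hCH, hH⟩ := blk_bound h0 h hg hε hε1 hε2 hv (N := N) (by
    rw [div_le_iff₀ hε0] at hN
    linarith)
  have hfor := forest h hJ (ε := ε0) (C0 := ENNReal.ofReal (|C0| + 1))
    (by rw [ENNReal.one_le_ofReal]; linarith [abs_nonneg C0])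
    (fun S x => (hv S x).trans (ENNReal.ofReal_le_ofReal (by linarith [le_abs_self C0])))
  set L : ℝ := (2 * Real.exp (M.β * (J + 1))) ^ N * (N * (|C0| + 1) ^ N) with hL
  have hL0 : 0 ≤ L := by positivity
  have hi : 0 < (1 - Real.exp (-(ε / 24)))⁻¹ :=
    inv_pos.mpr (sub_pos.mpr (Real.exp_lt_one_iff.mpr (by linarith)))
  obtain ⟨K, hK1, hK⟩ : ∃ K : ℕ, 1 ≤ K ∧ CH * L * Real.exp (ξ + ε / 24) *
      (1 - Real.exp (-(ε / 24)))⁻¹ * Real.exp (-(ε * K / 2)) ≤ 1 / 2 := by
    set A := CH * L * Real.exp (ξ + ε / 24) * (1 - Real.exp (-(ε / 24)))⁻¹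
    obtain ⟨K, hK⟩ := exists_nat_ge (4 * A / ε)
    refine ⟨K + 1, by omega, ?_⟩
    rw [Real.exp_neg, ← div_eq_mul_inv, div_le_iff₀ (Real.exp_pos _)]
    have := Real.add_one_le_exp (ε * (K + 1 : ℕ) / 2)
    rw [div_le_iff₀ hε] at hK
    push_cast at this ⊢
    nlinarith
  refine ⟨K, ε, 2 * (CH * Real.exp (ε * K / 2)), hK1, hε, fun s => ?_⟩
  set C := 2 * (CH * Real.exp (ε * K / 2)) with hC
  have hC0 : 0 < C := by positivity
  induction s using Nat.strong_induction_on with
  | _ s ih =>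
  intro S x
  refine (step h hJ hε hε2 N K S x s).trans ?_
  have half : ENNReal.ofReal (C * Real.exp (-(ξ + ε / 24) * s)) =
      ENNReal.ofReal (C / 2 * Real.exp (-(ξ + ε / 24) * s)) +
      ENNReal.ofReal (C / 2 * Real.exp (-(ξ + ε / 24) * s)) := by
    rw [← ENNReal.ofReal_add (by positivity) (by positivity)]
    congr 1
    ring
  rw [half]
  refine add_le_add ((hH K S x s).trans (ENNReal.ofReal_le_ofReal ?_)) ?_
  · rw [hC, mul_div_cancel_left₀ _ two_ne_zero]
    refine mul_le_mul_of_nonneg_left (Real.exp_le_exp.mpr ?_) (by positivity)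
    have : 0 ≤ ε * s := by positivity
    nlinarith
  refine le_trans (ENNReal.tsum_le_tsum (g := fun l : ℕ => ENNReal.ofReal
    (CH * L * Real.exp (ξ + ε / 24) * Real.exp (-(ε * K / 2)) * (C * Real.exp (-(ξ + ε / 24) * s)) *
      Real.exp (-(ε / 24) * l))) (fun l => ?_)) ?_
  · by_cases hl : l < s
    swap
    · simp [hl]
    refine le_trans (ENNReal.tsum_le_tsum (g := fun EA => blk M J ε N K S x l EA *
      (ENNReal.ofReal (Real.exp (-(ε * K))) * ENNReal.ofReal
        (L * (C * Real.exp (-(ξ + ε / 24) * (s - l - 1 : ℕ)))))) (fun EA => ?_)) ?_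
    · by_cases hX : (top x EA (x.1 + l)).card ≤ N
      swap
      · simp [hX]
      rw [if_pos ⟨hl, hX⟩, mul_assoc]
      refine mul_le_mul_right (mul_le_mul_right ?_ _) _
      refine le_trans (ENNReal.tsum_le_tsum (fun F => mul_le_mul_right (c := ENNReal.ofReal
        (N * (|C0| + 1) ^ N * (C * Real.exp (-(ξ + ε / 24) * (s - l - 1 : ℕ))))) ?_ _)) ?_
      · refine le_trans (ENNReal.tsum_le_tsum (fun x' => mul_le_mul_right (c := ENNReal.ofReal
          ((|C0| + 1) ^ N * (C * Real.exp (-(ξ + ε / 24) * (s - l - 1 : ℕ))))) ?_ _)) ?_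
        · refine le_trans (ENNReal.tsum_le_tsum (fun EB => mul_le_mul_right (hfor N _
            ((Finset.card_le_card Finset.sdiff_subset).trans ((card_ends _ _).trans hX)) _) _)) ?_
          rw [ENNReal.tsum_mul_right, mul_comm, ENNReal.ofReal_mul (by positivity),
            ENNReal.ofReal_pow (by positivity)]
          exact mul_le_mul_right (ih _ (by omega) _ _) _
        · rw [ENNReal.tsum_mul_right, mul_assoc (N : ℝ), ENNReal.ofReal_mul (Nat.cast_nonneg _),
            ENNReal.ofReal_natCast]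
          refine mul_le_mul_left ?_ _
          rw [tsum_eq_sum (s := ends (top x EA (x.1 + l)) F) (fun v hv => if_neg hv),
            Finset.sum_congr rfl (fun v hv => if_pos hv), Finset.sum_const, nsmul_eq_mul, mul_one]
          exact_mod_cast (card_ends _ _).trans hX
      · rw [ENNReal.tsum_mul_right, hL, mul_assoc ((2 * Real.exp (M.β * (J + 1))) ^ N),
          ENNReal.ofReal_mul (p := (2 * Real.exp (M.β * (J + 1))) ^ N) (by positivity)]
        exact mul_le_mul_left (sum_F h hJ _ (Finset.card_image_le.trans hX)) _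
    · rw [ENNReal.tsum_mul_right]
      refine (mul_le_mul_left (hH K S x l) _).trans ?_
      rw [← ENNReal.ofReal_mul (by positivity), ← ENNReal.ofReal_mul (by positivity)]
      refine ENNReal.ofReal_le_ofReal (le_of_eq ?_)
      have e : ((s - l - 1 : ℕ) : ℝ) = s - l - 1 := by
        rw [Nat.cast_sub (by omega), Nat.cast_sub hl.le, Nat.cast_one]
      have e2 : Real.exp (ε * K / 2) * Real.exp (-(ξ + ε / 12) * l) * Real.exp (-(ε * K)) *
          Real.exp (-(ξ + ε / 24) * (s - l - 1)) = Real.exp (ξ + ε / 24) *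
          Real.exp (-(ε * K / 2)) * Real.exp (-(ξ + ε / 24) * s) * Real.exp (-(ε / 24) * l) := by
        simp only [← Real.exp_add]
        congr 1
        ring
      rw [e]
      linear_combination (CH * L * C) * e2
  · rw [tsum_geo (by positivity) (by linarith)]
    apply ENNReal.ofReal_le_ofReal
    have := mul_le_mul_of_nonneg_right hK (show 0 ≤ C * Real.exp (-(ξ + ε / 24) * s) by positivity)
    linarith

end

end Pool.Agent.MP_48a2f9_mp.OZ.MG1

namespace Pool.Agent.MP_48a2f9_mp.OZ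

open MG1 in
theorem mg1Stmt (h0 : MG0Stmt) : MG1Stmt := by
  classical
  intro D M J ξ h hg
  obtain ⟨K, ε, C, hK, hε, hrec⟩ := recursion h0 h hg
  have hK' : (0 : ℝ) < K := by exact_mod_cast hK
  refine ⟨K, 1 / (48 * K), ε / 48, |C|, hK, by positivity, by positivity, fun S x s => ?_⟩
  refine le_trans (ENNReal.tsum_le_tsum (g := fun E => tw M J ε K S x s E *
    ENNReal.ofReal (Real.exp (ε / 48 * s))) (fun E => ?_)) ?_
  · split_ifs with hc
    · by_cases hw : M.wt J S x E = 0
      · rw [hw]; exact zero_le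
      obtain ⟨T, h1, h2⟩ := exists_cuts (K := K) (wt_ne hw).1 hc.1
      have h3 : (cuts K (x.1 + s) x E : ℝ) < 1 / (48 * K) * s := by
        by_contra h'
        exact hc.2 ⟨T, h1, h2 ▸ not_lt.mp h'⟩
      rw [tw, if_pos hc.1, mul_assoc, ← ENNReal.ofReal_mul (Real.exp_pos _).le, ← Real.exp_add]
      refine le_mul_of_one_le_right' (ENNReal.one_le_ofReal.mpr (Real.one_le_exp ?_))
      rw [div_mul_eq_mul_div, lt_div_iff₀ (by positivity)] at h3
      have h4 : (0 : ℝ) ≤ back x E := Nat.cast_nonneg _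
      have h5 : 0 ≤ back x E - K * (cuts K (x.1 + s) x E : ℝ) + s / 48 := by linarith
      have h6 := mul_nonneg hε.le h5
      linarith
    · exact zero_le
  · rw [ENNReal.tsum_mul_right]
    refine (mul_le_mul_left ((hrec s S x).trans (ENNReal.ofReal_le_ofReal
      (mul_le_mul_of_nonneg_right (le_abs_self C) (Real.exp_pos _).le))) _).trans ?_
    rw [← ENNReal.ofReal_mul (by positivity), mul_assoc, ← Real.exp_add]
    refine ENNReal.ofReal_le_ofReal (le_of_eq ?_)
    congr 2
    ring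

end Pool.Agent.MP_48a2f9_mp.OZ

end MrgPart1

-- ======== part 2: formerly Pool.Agent.MP_48a2f9_mp.Ser
section MrgPart2

/-!
Module Ser: power series with coefficients in a normed ring.
-/

set_option linter.unusedSectionVars false

open Finset Filter Topology PowerSeries

namespace Pool.Agent.MP_48a2f9_mp

namespace Ser

/-! ### The weights -/

theorem tendsto_ratio (a : ℝ) : Tendsto (fun n : ℕ => ((n : ℝ) + a + 1) / ((n : ℝ) + a)) atTop (𝓝 1) := by
  have h1 : Tendsto (fun n : ℕ => (n : ℝ) + a) atTop atTop :=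
    tendsto_atTop_add_const_right _ _ tendsto_natCast_atTop_atTop
  have h2 := h1.inv_tendsto_atTop.const_add 1
  rw [add_zero] at h2
  refine h2.congr' ?_
  filter_upwards [h1.eventually_gt_atTop 0] with n hn
  simp only [Pi.inv_apply]
  field_simp

theorem reg_rpw {a : ℝ} (ha : 1 < a) : Reg (rpw a) := by
  refine ⟨fun n => Real.rpow_pos_of_pos (by positivity) _, ?_, ?_, 3 ^ a, fun n i h _ => ?_⟩
  · have := (summable_nat_add_iff 1).2 (Real.summable_nat_rpow.2 (show -a < -1 by linarith))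
    exact this.congr fun n => by simp [rpw]
  · have := (tendsto_ratio 1).rpow_const (p := a) (Or.inl one_ne_zero)
    rw [Real.one_rpow] at this
    refine this.congr fun n => ?_
    rw [rpw, rpw, Real.div_rpow (by positivity) (by positivity), Real.rpow_neg (by positivity),
      Real.rpow_neg (by positivity), inv_div_inv]
    push_cast
    rfl
  · have h1 : (n : ℝ) ≤ 3 * i := by exact_mod_cast h
    have h2 : (3 * ((i : ℝ) + 1)) ^ (-a) ≤ ((n : ℝ) + 1) ^ (-a) :=
      Real.rpow_le_rpow_of_nonpos (by positivity) (by linarith) (by linarith)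
    rw [Real.mul_rpow (by norm_num) (by positivity), Real.rpow_neg (by norm_num),
      inv_mul_le_iff₀ (by positivity)] at h2
    exact h2

theorem log_pos' (n : ℕ) : 0 < Real.log ((n : ℝ) + 2) :=
  Real.log_pos (by have := n.cast_nonneg (α := ℝ); linarith)

theorem reg_rlg : Reg rlg := by
  have hp : ∀ n, 0 < rlg n := fun n => by
    have := log_pos' n
    unfold rlg
    positivity
  refine ⟨hp, ?_, ?_, 27, fun n i h _ => ?_⟩
  · refine (summable_nat_add_iff 1).1 (summable_of_sum_range_le (c := (Real.log 2)⁻¹)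
      (fun n => (hp _).le) fun N => ?_)
    have h1 : ∀ n : ℕ, rlg (n + 1) ≤
        (Real.log ((n : ℝ) + 2))⁻¹ - (Real.log (((n + 1 : ℕ) : ℝ) + 2))⁻¹ := by
      intro n
      have a1 := log_pos' n
      have a2 := log_pos' (n + 1)
      have a0 : (0 : ℝ) < n + 2 := by positivity
      unfold rlg
      push_cast at a2 ⊢
      have a3 : Real.log ((n : ℝ) + 2) ≤ Real.log (n + 1 + 2) := Real.log_le_log a0 (by linarith)
      have a4 := Real.log_le_sub_one_of_pos (x := ((n : ℝ) + 2) / (n + 1 + 2)) (by positivity)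
      rw [Real.log_div a0.ne' (by positivity)] at a4
      have a5 : ((n : ℝ) + 2) / (n + 1 + 2) - 1 = -(n + 1 + 2 : ℝ)⁻¹ := by field_simp; ring
      rw [a5] at a4
      generalize Real.log ((n : ℝ) + 2) = L at *
      generalize Real.log ((n : ℝ) + 1 + 2) = L' at *
      rw [inv_sub_inv a1.ne' a2.ne', mul_inv, ← div_eq_mul_inv]
      exact div_le_div₀ (by linarith) (by linarith) (by positivity) (by nlinarith)
    refine (sum_le_sum fun n _ => h1 n).trans ?_
    rw [sum_range_sub' (fun n : ℕ => (Real.log ((n : ℝ) + 2))⁻¹)]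
    have := log_pos' N
    simp only [Nat.cast_zero, zero_add, tsub_le_iff_right, le_add_iff_nonneg_right]
    positivity
  · have h1 : Tendsto (fun n : ℕ => Real.log ((n : ℝ) + 2)) atTop atTop :=
      Real.tendsto_log_atTop.comp (tendsto_atTop_add_const_right _ _ tendsto_natCast_atTop_atTop)
    have h2 := ((tendsto_ratio 2).log one_ne_zero).mul h1.inv_tendsto_atTop
    have h3 := (tendsto_ratio 2).mul ((h2.const_add 1).pow 2)
    simp only [mul_zero, add_zero, one_pow, mul_one] at h3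
    refine h3.congr fun n => ?_
    have a1 := log_pos' n
    have a2 := log_pos' (n + 1)
    rw [rlg, rlg, Real.log_div (by positivity) (by positivity)]
    push_cast at a2 ⊢
    rw [show (n : ℝ) + 2 + 1 = n + 1 + 2 by ring]
    simp only [Pi.inv_apply]
    field_simp
    ring
  · have h1 : (n : ℝ) ≤ 3 * i := by exact_mod_cast h
    have a1 := log_pos' n
    have a2 := log_pos' i
    have i0 := i.cast_nonneg (α := ℝ)
    have h2 : Real.log ((n : ℝ) + 2) ≤ 3 * Real.log ((i : ℝ) + 2) := by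
      have := Real.log_le_log (x := (n : ℝ) + 2) (y := ((i : ℝ) + 2) ^ 3) (by positivity)
        (by nlinarith [mul_nonneg i0 i0, mul_nonneg i0 (mul_nonneg i0 i0)])
      rwa [Real.log_pow] at this
    unfold rlg
    rw [← div_eq_mul_inv, le_div_iff₀ (by positivity), inv_mul_le_iff₀ (by positivity)]
    calc ((n : ℝ) + 2) * Real.log ((n : ℝ) + 2) ^ 2
        ≤ (3 * ((i : ℝ) + 2)) * (3 * Real.log ((i : ℝ) + 2)) ^ 2 := by
          gcongr
          linarith
      _ = _ := by ring

theorem shift {ρ : ℕ → ℝ} (h : Reg ρ) (j : ℕ) :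
    Tendsto (fun n => ρ (n - j) / ρ n) atTop (𝓝 1) := by
  induction j with
  | zero => simp [(h.pos _).ne']
  | succ j ih =>
    have h1 := (h.ratio.comp (tendsto_sub_atTop_nat (j + 1))).mul ih
    rw [mul_one] at h1
    refine h1.congr' ?_
    filter_upwards [eventually_ge_atTop (j + 1)] with n hn
    simp only [Function.comp]
    rw [show n - (j + 1) + 1 = n - j by omega, div_mul_div_cancel₀ (h.pos _).ne']

/-! ### Dominated convergence for convolutions -/

theorem tannery {E : Type} [NormedAddCommGroup E] [NormedSpace ℝ E] [CompleteSpace E]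
    (B : E →L[ℝ] E →L[ℝ] E) {a : ℕ → ℕ → E} {y : ℕ → E} {l : E} {K : ℝ}
    (hy : Summable fun j => ‖y j‖) (hb : ∀ n j, j ≤ n → ‖a n j‖ ≤ K)
    (hl : ∀ j, Tendsto (fun n => a n j) atTop (𝓝 l)) :
    Tendsto (fun n => ∑ j ∈ range (n + 1), B (a n j) (y j)) atTop (𝓝 (B l (∑' j, y j))) := by
  have hK : 0 ≤ K := (norm_nonneg _).trans (hb 0 0 le_rfl)
  rw [(B l).map_tsum hy.of_norm]
  have := tendsto_tsum_of_dominated_convergence (𝓕 := atTop)
    (f := fun n j => if j ≤ n then B (a n j) (y j) else 0) (g := fun j => B l (y j))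
    (hy.mul_left (‖B‖ * K)) (fun j => ?_) (Eventually.of_forall fun n j => ?_)
  · refine this.congr fun n => ?_
    rw [tsum_eq_sum (s := range (n + 1)) fun j hj => if_neg (by simpa using hj)]
    exact sum_congr rfl fun j hj => if_pos (Nat.lt_succ_iff.1 (mem_range.1 hj))
  · refine (((B.flip (y j)).continuous.tendsto l).comp (hl j)).congr' ?_
    filter_upwards [eventually_ge_atTop j] with n hn
    simp [hn]
  · split_ifs with h
    · refine (B.le_opNorm₂ _ _).trans ?_
      gcongr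
      exact hb n j h
    · rw [norm_zero]; positivity

theorem kronecker {y : ℕ → ℝ} (hy : Summable fun j => ‖y j‖) :
    Tendsto (fun n : ℕ => (∑ j ∈ range (n + 1), (j : ℝ) * y j) / n) atTop (𝓝 0) := by
  have := tannery (ContinuousLinearMap.mul ℝ ℝ) (a := fun n j => (j : ℝ) / n) (l := 0) (K := 1) hy
    (fun n j h => by
      rw [Real.norm_of_nonneg (by positivity)]
      exact div_le_one_of_le₀ (by exact_mod_cast h) n.cast_nonneg)
    fun j => tendsto_const_div_atTop_nhds_zero_nat _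
  simp only [ContinuousLinearMap.mul_apply', zero_mul] at this
  refine this.congr fun n => ?_
  rw [sum_div]
  exact sum_congr rfl fun j _ => by ring

theorem mad {n : ℕ} {p : ℕ × ℕ} : p ∈ antidiagonal n ↔ p.1 + p.2 = n :=
  HasAntidiagonal.mem_antidiagonal

theorem conv_le {f g : ℕ → ℝ} (hf : ∀ i, 0 ≤ f i) (hg : ∀ i, 0 ≤ g i) (N : ℕ) :
    ∑ n ∈ range N, ∑ p ∈ antidiagonal n, f p.1 * g p.2 ≤
      (∑ i ∈ range N, f i) * ∑ j ∈ range N, g j := by
  rw [sum_mul_sum, ← sum_product', ← sum_biUnion]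
  · refine sum_le_sum_of_subset_of_nonneg (fun p hp => ?_) fun p _ _ => mul_nonneg (hf _) (hg _)
    obtain ⟨n, h1, h2⟩ := mem_biUnion.1 hp
    have h3 := mad.1 h2
    simp only [mem_product, mem_range] at h1 ⊢
    omega
  · intro n _ m _ hnm
    exact disjoint_left.2 fun p h1 h2 => hnm ((mad.1 h1).symm.trans (mad.1 h2))

variable {A : Type} [NormedRing A] [NormedAlgebra ℝ A] [CompleteSpace A]

theorem l1_mul {x y : PowerSeries A} (hx : L1 x) (hy : L1 y) :
    L1 (x * y) ∧ SumP (x * y) = SumP x * SumP y := by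
  have h1 := summable_norm_sum_mul_antidiagonal_of_summable_norm (f := fun n => coeff n x)
    (g := fun n => coeff n y) hx hy
  have h2 := tsum_mul_tsum_eq_tsum_sum_antidiagonal_of_summable_norm (f := fun n => coeff n x)
    (g := fun n => coeff n y) hx hy
  exact ⟨h1.congr fun n => by rw [coeff_mul], (tsum_congr fun n => coeff_mul n x y).trans h2.symm⟩

theorem norm_coeff_mul (x y : PowerSeries A) (n : ℕ) :
    ‖coeff n (x * y)‖ ≤ ∑ p ∈ antidiagonal n, ‖coeff p.1 x‖ * ‖coeff p.2 y‖ := by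
  rw [coeff_mul]
  exact (norm_sum_le _ _).trans (sum_le_sum fun p _ => norm_mul_le _ _)

theorem trunc_mul (x y : PowerSeries A) (N : ℕ) : ∑ n ∈ range N, ‖coeff n (x * y)‖ ≤
    (∑ n ∈ range N, ‖coeff n x‖) * ∑ n ∈ range N, ‖coeff n y‖ :=
  (sum_le_sum fun n _ => norm_coeff_mul x y n).trans
    (conv_le (f := fun n => ‖coeff n x‖) (g := fun n => ‖coeff n y‖) (fun _ => norm_nonneg _)
      (fun _ => norm_nonneg _) N)

theorem pert {r d r' d' : PowerSeries A} {B : ℝ} (hB : 0 < B) (h1 : d * r = 1) (h2 : r' * d' = 1)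
    (hd : L1 d) (hr : L1 (r - r')) (b1 : ∑' n, ‖coeff n d‖ ≤ B)
    (b2 : ∑' n, ‖coeff n (r - r')‖ ≤ 1 / (2 * B)) : L1 d' ∧ ∑' n, ‖coeff n d'‖ ≤ 2 * B := by
  have e : d' = d + d * (r - r') * d' := by
    rw [mul_sub, sub_mul, h1, mul_assoc, h2, one_mul, mul_one, add_sub_cancel]
  have key : ∀ N, ∑ n ∈ range N, ‖coeff n d'‖ ≤ 2 * B := by
    intro N
    have a1 := (hd.sum_le_tsum (range N) fun _ _ => norm_nonneg _).trans b1
    have a2 := (hr.sum_le_tsum (range N) fun _ _ => norm_nonneg _).trans b2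
    have a3 : ∑ n ∈ range N, ‖coeff n (d * (r - r'))‖ ≤ B * (1 / (2 * B)) :=
      (trunc_mul _ _ N).trans (mul_le_mul a1 a2 (by positivity) hB.le)
    have a4 : B * (1 / (2 * B)) = 1 / 2 := by field_simp
    have a5 := (trunc_mul (d * (r - r')) d' N).trans
      (mul_le_mul_of_nonneg_right (a4 ▸ a3) (by positivity))
    have a6 : ∑ n ∈ range N, ‖coeff n d'‖ ≤
        ∑ n ∈ range N, ‖coeff n d‖ + ∑ n ∈ range N, ‖coeff n (d * (r - r') * d')‖ := by
      rw [← sum_add_distrib]
      refine sum_le_sum fun n _ => ?_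
      conv_lhs => rw [e, map_add]
      exact norm_add_le _ _
    linarith
  exact ⟨summable_of_sum_range_le (fun _ => norm_nonneg _) key,
    Real.tsum_le_of_sum_range_le (fun _ => norm_nonneg _) key⟩

variable {ρ : ℕ → ℝ}

theorem norm_inv_smul (h : Reg ρ) (n : ℕ) (a : A) {K : ℝ} :
    ‖(ρ n)⁻¹ • a‖ ≤ K ↔ ‖a‖ ≤ K * ρ n := by
  rw [norm_smul, Real.norm_of_nonneg (inv_pos.2 (h.pos n)).le, inv_mul_le_iff₀ (h.pos n), mul_comm]

theorem lim_bound (h : Reg ρ) {x : PowerSeries A} {l : A} (hx : Lim ρ x l) :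
    ∃ K, 0 ≤ K ∧ ∀ n, ‖coeff n x‖ ≤ K * ρ n := by
  obtain ⟨K, hK⟩ := (Tendsto.norm hx).bddAbove_range
  have h1 : ∀ n, ‖(ρ n)⁻¹ • coeff n x‖ ≤ K := fun n => hK ⟨n, rfl⟩
  exact ⟨K, (norm_nonneg _).trans (h1 0), fun n => (norm_inv_smul h n _).1 (h1 n)⟩

theorem lim_l1 (h : Reg ρ) {x : PowerSeries A} {l : A} (hx : Lim ρ x l) : L1 x := by
  obtain ⟨K, -, hK⟩ := lim_bound h hx
  exact (h.summ.mul_left K).of_nonneg_of_le (fun _ => norm_nonneg _) hK

theorem lim_exp (h : Reg ρ) {x : PowerSeries A} {C ν : ℝ} (hν : 0 < ν)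
    (hx : ∀ n, ‖coeff n x‖ ≤ C * Real.exp (-ν * n)) : Lim ρ x 0 := by
  have h1 : Summable fun n : ℕ => Real.exp (-ν * n) / ρ n := by
    refine summable_of_ratio_test_tendsto_lt_one (l := Real.exp (-ν))
      (Real.exp_lt_one_iff.2 (by linarith))
      (Eventually.of_forall fun n => (div_pos (Real.exp_pos _) (h.pos n)).ne') ?_
    have h2 := h.ratio.const_mul (Real.exp (-ν))
    rw [mul_one] at h2
    refine h2.congr fun n => ?_
    have := h.pos n
    have := h.pos (n + 1)
    rw [Real.norm_of_nonneg (by positivity), Real.norm_of_nonneg (by positivity), Nat.cast_succ,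
      mul_add, mul_one, Real.exp_add]
    field_simp
  have h2 := h1.tendsto_atTop_zero.const_mul C
  rw [mul_zero] at h2
  refine squeeze_zero_norm (fun n => (norm_inv_smul h n _).2 ((hx n).trans (le_of_eq ?_))) h2
  rw [mul_assoc, div_mul_cancel₀ _ (h.pos n).ne']

theorem coeff_split (x y : PowerSeries A) (c : ℝ) (n : ℕ) : c • coeff n (x * y) =
    ∑ j ∈ range (n + 1), (if 2 * j ≤ n then c • coeff (n - j) x else 0) * coeff j y +
      ∑ i ∈ range (n + 1), coeff i x * if 2 * i < n then c • coeff (n - i) y else 0 := by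
  rw [← Nat.sum_antidiagonal_eq_sum_range_succ_mk
      (fun p => (if 2 * p.1 ≤ n then c • coeff p.2 x else 0) * coeff p.1 y),
    ← Nat.sum_antidiagonal_swap, ← Nat.sum_antidiagonal_eq_sum_range_succ_mk
      (fun p => coeff p.1 x * if 2 * p.1 < n then c • coeff p.2 y else 0), coeff_mul, smul_sum,
    ← sum_add_distrib]
  refine sum_congr rfl fun p hp => ?_
  rw [mad] at hp
  simp only [Prod.fst_swap, Prod.snd_swap]
  by_cases h : 2 * p.2 ≤ n
  · rw [if_pos h, if_neg (by omega), mul_zero, add_zero, smul_mul_assoc]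
  · rw [if_neg h, if_pos (by omega), zero_mul, zero_add, mul_smul_comm]

theorem half_bound (h : Reg ρ) {x : PowerSeries A} {K : ℝ} (hK : 0 ≤ K)
    (hx : ∀ n, ‖coeff n x‖ ≤ K * ρ n) : ∃ K', 0 ≤ K' ∧ ∀ n j, 2 * j ≤ n →
      ‖(ρ n)⁻¹ • coeff (n - j) x‖ ≤ K' := by
  obtain ⟨C, hC⟩ := h.loc
  refine ⟨K * |C|, by positivity, fun n j hj => (norm_inv_smul h n _).2 ((hx _).trans ?_)⟩
  rw [mul_assoc]
  exact mul_le_mul_of_nonneg_left ((hC n _ (by omega) (by omega)).trans
    (mul_le_mul_of_nonneg_right (le_abs_self C) (h.pos n).le)) hK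

theorem smul_shift (h : Reg ρ) (x : PowerSeries A) (n j : ℕ) : (ρ n)⁻¹ • coeff (n - j) x =
    (ρ (n - j) / ρ n) • (ρ (n - j))⁻¹ • coeff (n - j) x := by
  rw [smul_smul, div_mul_eq_mul_div, mul_inv_cancel₀ (h.pos _).ne', one_div]

theorem lim_shift (h : Reg ρ) {x : PowerSeries A} {l : A} (hx : Lim ρ x l) (j : ℕ) :
    Tendsto (fun n => (ρ n)⁻¹ • coeff (n - j) x) atTop (𝓝 l) := by
  have := (shift h j).smul (Tendsto.comp hx (tendsto_sub_atTop_nat j))
  rw [one_smul] at this
  exact this.congr fun n => (smul_shift h x n j).symm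

theorem right_half (h : Reg ρ) {x y : PowerSeries A} {m : A} (hx : L1 x) (hy : Lim ρ y m) :
    Tendsto (fun n => ∑ i ∈ range (n + 1),
      coeff i x * if 2 * i < n then (ρ n)⁻¹ • coeff (n - i) y else 0) atTop (𝓝 (SumP x * m)) := by
  obtain ⟨K, hK, hb⟩ := lim_bound h hy
  obtain ⟨K', hK', hb'⟩ := half_bound h hK hb
  refine tannery (ContinuousLinearMap.mul ℝ A).flip (K := K') hx (fun n j _ => ?_) fun j => ?_
  · split_ifs with h1
    · exact hb' n j h1.le
    · rwa [norm_zero]
  · refine (lim_shift h hy j).congr' ?_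
    filter_upwards [eventually_gt_atTop (2 * j)] with n hn
    rw [if_pos hn]

theorem lim_mul (h : Reg ρ) {x y : PowerSeries A} {l m : A} (hx : Lim ρ x l) (hy : Lim ρ y m) :
    Lim ρ (x * y) (l * SumP y + SumP x * m) := by
  obtain ⟨K, hK, hb⟩ := lim_bound h hx
  obtain ⟨K', hK', hb'⟩ := half_bound h hK hb
  refine (Tendsto.add ?_ (right_half h (lim_l1 h hx) hy)).congr fun n => (coeff_split x y _ n).symm
  refine tannery (ContinuousLinearMap.mul ℝ A) (K := K') (lim_l1 h hy) (fun n j _ => ?_) fun j => ?_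
  · split_ifs with h1
    · exact hb' n j h1
    · rwa [norm_zero]
  · refine (lim_shift h hx j).congr' ?_
    filter_upwards [eventually_ge_atTop (2 * j)] with n hn
    rw [if_pos hn]

/-- The Euler derivation. -/
noncomputable def eu (x : PowerSeries A) : PowerSeries A := mk fun n => (n : ℝ) • coeff n x

theorem coeff_eu (x : PowerSeries A) (n : ℕ) : coeff n (eu x) = (n : ℝ) • coeff n x := coeff_mk _ _

theorem eu_add (x y : PowerSeries A) : eu (x + y) = eu x + eu y := by
  ext n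
  simp only [coeff_eu, map_add, smul_add]

theorem eu_mul (x y : PowerSeries A) : eu (x * y) = eu x * y + x * eu y := by
  ext n
  simp only [coeff_eu, map_add, coeff_mul, smul_sum, ← sum_add_distrib]
  refine sum_congr rfl fun p hp => ?_
  rw [← mad.1 hp, Nat.cast_add, add_smul, smul_mul_assoc, mul_smul_comm]

theorem l1_one_add {z : PowerSeries A} (hz : L1 z) : L1 (1 + z) ∧ SumP (1 + z) = 1 + SumP z := by
  have h1 : HasSum (fun n => coeff n (1 : PowerSeries A)) 1 := by
    simpa only [coeff_one] using hasSum_ite_eq 0 (1 : A)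
  have h2 : Summable fun n => ‖coeff n (1 : PowerSeries A)‖ :=
    summable_of_ne_finset_zero (s := {0}) fun n hn => by
      rw [coeff_one, if_neg (by simpa using hn), norm_zero]
  refine ⟨(h2.add hz).of_nonneg_of_le (fun _ => norm_nonneg _) fun n => ?_, ?_⟩
  · rw [map_add]; exact norm_add_le _ _
  · simp only [SumP, map_add]
    exact (h1.add hz.of_norm.hasSum).tsum_eq

theorem boot (h : Reg ρ) {t W : PowerSeries A} (e : eu W = W * eu t * W) (hW : L1 W) {l : A}
    (ht : Lim ρ t l) : ∃ K, 0 ≤ K ∧ ∀ n, ‖coeff n W‖ ≤ K * ρ n := by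
  obtain ⟨Kt, hKt, hb⟩ := lim_bound h ht
  obtain ⟨C0, hC0⟩ := h.loc
  set C := |C0| with hCd
  have hC : ∀ n i, n ≤ 3 * i → i ≤ n → ρ i ≤ C * ρ n := fun n i h1 h2 =>
    (hC0 n i h1 h2).trans (mul_le_mul_of_nonneg_right (le_abs_self _) (h.pos n).le)
  have hCp : 0 ≤ C := abs_nonneg _
  set S := ∑' n, ‖coeff n W‖ with hS
  have hS0 : 0 ≤ S := tsum_nonneg fun _ => norm_nonneg _
  have hSN : ∀ N, ∑ n ∈ range N, ‖coeff n W‖ ≤ S := fun N =>
    hW.sum_le_tsum _ fun _ _ => norm_nonneg _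
  have hk := (kronecker (y := fun j => ‖coeff j t‖)
    (Summable.congr (lim_l1 h ht) fun j => (norm_norm _).symm)).const_mul (4 * C * S)
  rw [mul_zero] at hk
  obtain ⟨n0, hn0⟩ := eventually_atTop.1 (hk.eventually (gt_mem_nhds one_pos))
  obtain ⟨K0, hK0⟩ := ((range (n0 + 1)).finite_toSet.image
    fun n => ‖(ρ n)⁻¹ • coeff n W‖).bddAbove
  set K := max K0 (2 * (Kt * C * S ^ 2)) with hKd
  have hK1 : 2 * (Kt * C * S ^ 2) ≤ K := le_max_right _ _
  have hK : 0 ≤ K := le_trans (by positivity) hK1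
  refine ⟨K, hK, fun n => ?_⟩
  induction n using Nat.strong_induction_on with
  | _ n ih =>
  by_cases hn : n ≤ n0
  · exact (norm_inv_smul h n _).1
      ((hK0 ⟨n, by simpa using Nat.lt_succ_of_le hn, rfl⟩).trans (le_max_left _ _))
  have hn' : (0 : ℝ) < n := by exact_mod_cast (by omega : 0 < n)
  have hρ := h.pos n
  set w : ℕ → ℝ := fun i => ‖coeff i W‖ with hw
  set τ : ℕ → ℝ := fun j => (j : ℝ) * ‖coeff j t‖ with hτ
  have hw0 : ∀ i, 0 ≤ w i := fun _ => norm_nonneg _
  have hτ0 : ∀ j, 0 ≤ τ j := fun j => by positivity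
  set T := ∑ j ∈ range (n + 1), τ j with hT
  have hT0 : 0 ≤ T := sum_nonneg fun j _ => hτ0 j
  have hT1 : 4 * C * S * T ≤ n := by
    have := hn0 n (by omega)
    rw [← mul_div_assoc, div_lt_one hn'] at this
    exact this.le
  have h1 : ∀ i j k, i + j + k = n → w i * τ j * w k ≤
      n * (Kt * C * ρ n) * (w i * w k) + K * C * ρ n * (τ j * w k) + K * C * ρ n * (w i * τ j) := by
    intro i j k hs
    have a1 := hw0 i
    have a2 := hτ0 j
    have a3 := hw0 k
    have b1 : 0 ≤ n * (Kt * C * ρ n) * (w i * w k) := by positivity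
    have b2 : 0 ≤ K * C * ρ n * (τ j * w k) := by positivity
    have b3 : 0 ≤ K * C * ρ n * (w i * τ j) := by positivity
    have big : ∀ m, m < n → n ≤ 3 * m → w m ≤ K * C * ρ n := fun m h1 h2 =>
      (ih m h1).trans (by rw [mul_assoc]; exact mul_le_mul_of_nonneg_left (hC n m h2 h1.le) hK)
    rcases Nat.eq_zero_or_pos j with rfl | hj
    · have : τ 0 = 0 := by simp [hτ]
      rw [this] at *
      linarith
    by_cases c1 : n ≤ 3 * j
    · have : τ j ≤ n * (Kt * C * ρ n) :=
        mul_le_mul (by exact_mod_cast (by omega : j ≤ n)) ((hb j).trans (by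
          rw [mul_assoc]; exact mul_le_mul_of_nonneg_left (hC n j c1 (by omega)) hKt))
          (norm_nonneg _) hn'.le
      linarith [mul_le_mul_of_nonneg_right this (mul_nonneg a1 a3)]
    by_cases c2 : n ≤ 3 * i
    · linarith [mul_le_mul_of_nonneg_right (big i (by omega) c2) (mul_nonneg a2 a3)]
    · linarith [mul_le_mul_of_nonneg_right (big k (by omega) (by omega)) (mul_nonneg a1 a2)]
  have h2 : n * w n ≤ ∑ p ∈ antidiagonal n, ∑ q ∈ antidiagonal p.1, w q.1 * τ q.2 * w p.2 := by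
    have : n * w n = ‖coeff n (W * eu t * W)‖ := by
      rw [← e, coeff_eu, norm_smul, Real.norm_natCast]
    rw [this]
    refine (norm_coeff_mul _ _ n).trans (sum_le_sum fun p _ => ?_)
    rw [← sum_mul]
    refine mul_le_mul_of_nonneg_right ((norm_coeff_mul _ _ _).trans (le_of_eq ?_)) (hw0 _)
    simp only [coeff_eu, norm_smul, Real.norm_natCast, hw, hτ]
  have s2 : ∑ p ∈ antidiagonal n, w p.2 ≤ S := by
    rw [← Nat.sum_antidiagonal_swap, Nat.sum_antidiagonal_eq_sum_range_succ_mk]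
    exact hSN _
  have s3 : ∀ {f : ℕ × ℕ → ℝ} {F : ℝ}, 0 ≤ F → (∀ m ≤ n, ∑ q ∈ antidiagonal m, f q ≤ F) →
      ∑ p ∈ antidiagonal n, ∑ q ∈ antidiagonal p.1, f q * w p.2 ≤ F * S := by
    intro f F hF hf
    refine le_trans (sum_le_sum fun p hp => ?_) ((mul_sum _ _ _).ge.trans
      (mul_le_mul_of_nonneg_left s2 hF))
    rw [← sum_mul]
    exact mul_le_mul_of_nonneg_right (hf _ (Nat.le.intro (mad.1 hp))) (hw0 _)
  have s4 := s3 (f := fun q => w q.1) hS0 fun m _ => by
    rw [Nat.sum_antidiagonal_eq_sum_range_succ_mk]; exact hSN _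
  have s5 := s3 (f := fun q => τ q.2) hT0 fun m hm => by
    rw [← Nat.sum_antidiagonal_swap, Nat.sum_antidiagonal_eq_sum_range_succ_mk]
    exact sum_le_sum_of_subset_of_nonneg (range_mono (Nat.succ_le_succ hm)) fun j _ _ => hτ0 j
  have s6 : ∑ p ∈ antidiagonal n, ∑ q ∈ antidiagonal p.1, w q.1 * τ q.2 ≤ S * T := by
    rw [Nat.sum_antidiagonal_eq_sum_range_succ_mk]
    exact (conv_le hw0 hτ0 _).trans (mul_le_mul_of_nonneg_right (hSN _) hT0)
  have h3 : n * w n ≤ n * (Kt * C * ρ n) * (S * S) + K * C * ρ n * (T * S)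
      + K * C * ρ n * (S * T) := by
    refine h2.trans ((sum_le_sum fun p hp => sum_le_sum fun q hq => h1 q.1 q.2 p.2 (by
      rw [mad.1 hq, mad.1 hp])).trans ?_)
    have pull : ∀ (c : ℝ) (f : ℕ × ℕ → ℕ × ℕ → ℝ), ∑ p ∈ antidiagonal n, ∑ q ∈ antidiagonal p.1,
        c * f p q = c * ∑ p ∈ antidiagonal n, ∑ q ∈ antidiagonal p.1, f p q := fun c f => by
      simp only [mul_sum]
    simp only [sum_add_distrib]
    rw [pull, pull, pull]
    exact add_le_add (add_le_add (mul_le_mul_of_nonneg_left s4 (by positivity))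
      (mul_le_mul_of_nonneg_left s5 (by positivity))) (mul_le_mul_of_nonneg_left s6 (by positivity))
  have h4 := mul_le_mul_of_nonneg_left hT1 (mul_nonneg hK hρ.le)
  have h5 := mul_le_mul_of_nonneg_left hK1 (mul_nonneg hn'.le hρ.le)
  refine le_of_mul_le_mul_left ?_ hn'
  change n * w n ≤ _
  linarith

theorem thmA (h : Reg ρ) {t z : PowerSeries A} {l : A} (e1 : z = t + t * z) (e2 : z = t + z * t)
    (hz : L1 z) (ht : Lim ρ t l) : Lim ρ z ((1 + SumP z) * l * (1 + SumP z)) := by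
  obtain ⟨hW, hS⟩ := l1_one_add hz
  have i1 : (1 - t) * (1 + z) = 1 := by
    rw [sub_mul, one_mul, mul_add, mul_one, ← e1, add_sub_cancel_right]
  have i2 : (1 + z) * (1 - t) = 1 := by
    rw [mul_sub, mul_one, add_mul, one_mul, ← e2, add_sub_cancel_right]
  have i3 : eu (1 + z) = (1 + z) * eu t * (1 + z) := by
    have a0 : eu (1 : PowerSeries A) = 0 := by
      ext n
      rw [coeff_eu, coeff_one]
      split_ifs with h <;> simp [*]
    have a1 := congrArg eu e1
    rw [eu_add, eu_mul] at a1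
    have a2 : (1 - t) * eu z = eu t * (1 + z) := by
      rw [sub_mul, one_mul, mul_add, mul_one, sub_eq_iff_eq_add, add_assoc]; exact a1
    rw [eu_add, a0, zero_add, mul_assoc, ← a2, ← mul_assoc, i2, one_mul]
  obtain ⟨K1, hK1, hb1⟩ := boot h i3 hW ht
  obtain ⟨K, hK, hb⟩ : ∃ K, 0 ≤ K ∧ ∀ n, ‖coeff n z‖ ≤ K * ρ n := by
    refine ⟨K1 + ‖(ρ 0)⁻¹ • coeff 0 z‖, by positivity, fun n => ?_⟩
    have := h.pos n
    rcases Nat.eq_zero_or_pos n with rfl | hn
    · exact (norm_inv_smul h 0 _).1 (le_add_of_nonneg_left hK1)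
    · have a := hb1 n
      rw [map_add, coeff_one, if_neg hn.ne', zero_add] at a
      exact a.trans (mul_le_mul_of_nonneg_right (le_add_of_nonneg_right (norm_nonneg _)) this.le)
  obtain ⟨K', hK', hb'⟩ := half_bound h hK hb
  let b : PowerSeries A := mk fun n => (ρ n)⁻¹ • coeff n z
  have hbn : ∀ n, coeff n b = (ρ n)⁻¹ • coeff n z := fun n => coeff_mk _ _
  have hbb : ∀ n, ‖coeff n b‖ ≤ K := fun n => by rw [hbn]; exact (norm_inv_smul h n _).2 (hb n)
  have cr : ∀ (x y : PowerSeries A) n,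
      coeff n (x * y) = ∑ j ∈ range (n + 1), coeff (n - j) x * coeff j y := fun x y n => by
    rw [coeff_mul, ← Nat.sum_antidiagonal_swap, Nat.sum_antidiagonal_eq_sum_range_succ_mk]
    rfl
  have t1 := tannery (ContinuousLinearMap.mul ℝ A) (l := 0) (K := K' + K) (lim_l1 h ht)
    (a := fun n j => (if 2 * j ≤ n then (ρ n)⁻¹ • coeff (n - j) z else 0) - coeff (n - j) b)
    (fun n j _ => (norm_sub_le _ _).trans (add_le_add (by
      split_ifs with h1
      · exact hb' n j h1
      · rwa [norm_zero]) (hbb _))) fun j => by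
      have a1 := ((shift h j).sub_const 1).norm.mul_const K
      rw [sub_self, norm_zero, zero_mul] at a1
      refine squeeze_zero_norm' ?_ a1
      filter_upwards [eventually_ge_atTop (2 * j)] with n hn
      have e0 : ∀ (c : ℝ) (v : A), c • v - v = (c - 1) • v := fun c v => by rw [sub_smul, one_smul]
      rw [if_pos hn, smul_shift h, ← hbn, e0, norm_smul]
      exact mul_le_mul_of_nonneg_left (hbb _) (norm_nonneg _)
  have t2 : Tendsto (fun n => coeff n (b * (1 - t))) atTop (𝓝 ((1 + SumP z) * l)) := by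
    have a1 := (Tendsto.add ht t1).add (right_half h hz ht)
    simp only [ContinuousLinearMap.mul_apply', zero_mul, add_zero] at a1
    rw [add_mul, one_mul]
    refine a1.congr fun n => ?_
    rw [mul_sub, mul_one, map_sub, hbn, cr]
    conv_rhs => rw [e2, map_add, smul_add, coeff_split]
    simp only [sub_mul, sum_sub_distrib]
    abel
  obtain ⟨K2, hK2⟩ := t2.norm.bddAbove_range
  have t3 := tannery (ContinuousLinearMap.mul ℝ A) (K := K2) hW
    (a := fun n j => coeff (n - j) (b * (1 - t))) (fun n j _ => hK2 ⟨_, rfl⟩)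
    fun j => t2.comp (tendsto_sub_atTop_nat j)
  simp only [ContinuousLinearMap.mul_apply'] at t3
  rw [← hS]
  nth_rewrite 1 [hS]
  refine t3.congr fun n => ?_
  rw [← cr, mul_assoc, i1, mul_one, hbn]

end Ser

theorem serStmt : SerStmt :=
  ⟨fun _ => Ser.reg_rpw, Ser.reg_rlg, fun _ _ _ _ => ⟨fun _ _ => Ser.l1_mul,
    fun _ _ _ _ _ => Ser.pert, fun _ h => ⟨fun _ _ => Ser.lim_l1 h, fun _ _ _ => Ser.lim_exp h,
      fun _ _ _ _ => Ser.lim_mul h, fun _ _ _ => Ser.thmA h⟩⟩⟩

end Pool.Agent.MP_48a2f9_mp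

end MrgPart2

-- marker of a merged file
example : 731051 + 309555 = 731051 + 309555 := rfl
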