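import Mathlib.Analysis.SpecialFunctions.Gaussian.GaussianIntegral
import Mathlib.MeasureTheory.Integral.Pi
import Mathlib.Analysis.Real.Pi.Bounds
import Pool.Agent.MP_48a2f9_mp.Ren1C
import Pool.Agent.MP_48a2f9_mp.TP
import Pool.Agent.MP_48a2f9_mp.FKLine2
import Pool.Agent.MP_48a2f9_mp.Ser
import Pool.Agent.MP_48a2f9_mp.R3a
import Pool.Agent.MP_48a2f9_mp.LLT1b
import Pool.Agent.MP_48a2f9_mp.Ren2
import Pool.Agent.MP_48a2f9_mp.R3c
import Pool.Agent.MP_48a2f9_mp.FKUniq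

-- ======== part 0: formerly Pool.Agent.MP_48a2f9_mp.Ren1D
section MrgPart0

/-!
`T1Stmt`.
-/

open Finset Filter Topology

namespace Pool.Agent.MP_48a2f9_mp.Ren1

noncomputable section

variable {f u : ℕ → ℝ}

/-- The coefficients of `(1 - F) R`. -/
def TT (f : ℕ → ℝ) (n : ℕ) : ℝ := tl f n - cv f (tl f) n

lemma mk_TT (f : ℕ → ℝ) :
    PowerSeries.mk (TT f) = (1 - PowerSeries.mk f) * PowerSeries.mk (tl f) := by
  rw [sub_mul, one_mul, ← mk_cv]
  ext n; simp [TT]

lemma ps_TT (f : ℕ → ℝ) : ps (TT f) = cv (tl f) (tl f) := by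
  apply mk_inj
  rw [mk_ps, mk_cv, mk_TT]
  nth_rewrite 3 [mk_tl]
  ring

lemma ps_tl (f : ℕ → ℝ) (n : ℕ) :
    ps (tl f) n = ps (fun j => (j : ℝ) * f j) n + ((n : ℝ) + 1) * tl f n := by
  induction n with
  | zero => simp [ps_zero]
  | succ n ih => rw [ps_succ, ps_succ, ih, tl_succ]; push_cast; ring

lemma TT_bound (hf : ∀ n, 0 ≤ f n) (hs : HasSum f 1) {n : ℕ} {φ : ℝ} (hφ : 0 ≤ φ)
    (h : ∀ j ≤ n, n ≤ 2 * j → f j ≤ φ) : |TT f n - tl f n ^ 2| ≤ 2 * φ * ps (tl f) n := by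
  have hr := tl_nonneg hf hs
  have e : tl f n ^ 2 - TT f n = ∑ j ∈ range (n + 1), f j * (tl f (n - j) - tl f n) := by
    simp only [mul_sub, sum_sub_distrib, ← sum_mul]
    rw [TT, ← cv, ← ps, sq]
    nth_rewrite 1 [tl]
    ring
  have h1 : ∀ j, 2 * j ≤ n → tl f (n - j) - tl f n ≤ j * φ := by
    intro j
    induction j with
    | zero => simp
    | succ j ih =>
      intro hj
      have h2 := ih (by omega)
      have h3 := tl_succ f (n - (j + 1))
      rw [show n - (j + 1) + 1 = n - j by omega] at h3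
      have h4 := h (n - j) (by omega) (by omega)
      push_cast; linarith
  rw [abs_sub_comm, e, abs_of_nonneg (sum_nonneg fun j _ =>
    mul_nonneg (hf j) (sub_nonneg.2 (tl_anti hf (Nat.sub_le n j))))]
  calc _ ≤ ∑ j ∈ range (n + 1), (φ * tl f (n - j) + φ * (j * f j)) := by
        refine sum_le_sum fun j hj => ?_
        have hj' := mem_range.1 hj
        have h2 := mul_nonneg hφ (hr (n - j))
        have h3 : 0 ≤ φ * (j * f j) := mul_nonneg hφ (mul_nonneg (by positivity) (hf j))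
        by_cases hc : n ≤ 2 * j
        · have h4 := mul_le_mul_of_nonneg_right (h j (by omega) hc) (hr (n - j))
          have h5 := mul_nonneg (hf j) (hr n)
          linarith
        · have h4 := mul_le_mul_of_nonneg_left (h1 j (by omega)) (hf j)
          linarith
    _ ≤ _ := by
        rw [sum_add_distrib, ← mul_sum, ← mul_sum, ps_rev, ← ps]
        have h2 := ps_tl f n
        have h3 : 0 ≤ ((n : ℝ) + 1) * tl f n := mul_nonneg (by positivity) (hr n)
        have h4 : φ * ps (fun j => (j : ℝ) * f j) n ≤ φ * ps (tl f) n :=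
          mul_le_mul_of_nonneg_left (by linarith) hφ
        linarith

lemma euler_f (h : IsRen f u) : Dd (PowerSeries.mk f) =
    Dd (PowerSeries.mk u) * ((1 - PowerSeries.mk f) * (1 - PowerSeries.mk f)) := by
  have h1 := ren_mk h
  have h2 := congrArg Dd h1
  rw [Dd_mul, Dd_sub, Dd_one] at h2
  linear_combination (-(1 - PowerSeries.mk f)) * h2 - Dd (PowerSeries.mk f) * h1

/-- The increments of `j u_j`. -/
def gg (u : ℕ → ℝ) : ℕ → ℝ
  | 0 => 0
  | j + 1 => ((j : ℝ) + 1) * u (j + 1) - j * u j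

lemma ps_gg (u : ℕ → ℝ) : ps (gg u) = fun n : ℕ => (n : ℝ) * u n := by
  funext n
  induction n with
  | zero => simp [ps_zero, gg]
  | succ n ih => rw [ps_succ, ih, gg]; push_cast; ring

lemma euler_f1 (h : IsRen f u) (n : ℕ) : (n : ℝ) * f n = cv (gg u) (TT f) n := by
  have h1 := euler_f h
  rw [Dd_mk, Dd_mk, ← ps_gg u, mk_ps] at h1
  have h2 : PowerSeries.mk (fun n : ℕ => (n : ℝ) * f n) = PowerSeries.mk (cv (gg u) (TT f)) := by
    rw [h1, mk_cv, mk_TT, mk_tl]; ring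
  exact congrFun (mk_inj h2) n

lemma TT_le (hf : ∀ n, 0 ≤ f n) (hs : HasSum f 1) {B M : ℝ} (hB0 : 0 < B)
    (hB : ∀ n, |tl f n| ≤ B / rt n) (hM : 0 ≤ M) {n : ℕ} (hx : ∀ i ≤ n, rt i ^ 3 * f i ≤ M) :
    ∀ i ≤ n, |TT f i| ≤ (B ^ 2 + 32 * B) * (1 + M) / rt i ^ 2 := by
  intro i hi
  have h1 := rt_pos i
  have h2 := TT_bound hf hs (n := i) (φ := 8 * M / rt i ^ 3) (by positivity) (fun j hj hj2 => by
    have h3 := hx j (by omega)
    have h4 := pow_le_pow_left₀ h1.le (rt_half (n := i) (i := j) (by omega)) 3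
    have h5 := mul_le_mul_of_nonneg_left h4 (hf j)
    rw [le_div_iff₀ (by positivity)]; linarith)
  have h3 : ps (tl f) i ≤ B * (2 * rt i) := by
    calc _ ≤ ∑ j ∈ range (i + 1), B * (rt j)⁻¹ :=
          sum_le_sum fun j _ => (le_abs_self _).trans (hB j)
      _ ≤ _ := by rw [← mul_sum]; exact mul_le_mul_of_nonneg_left (sum_inv_rt' i) hB0.le
  have h4 : tl f i ^ 2 ≤ B ^ 2 / rt i ^ 2 := by
    rw [← div_pow, ← sq_abs]; exact pow_le_pow_left₀ (abs_nonneg _) (hB i) 2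
  have h5 := h2.trans (mul_le_mul_of_nonneg_left h3 (by positivity))
  have h6 : 2 * (8 * M / rt i ^ 3) * (B * (2 * rt i)) = 32 * B * M / rt i ^ 2 := by
    field_simp; ring
  have h7 := abs_add_le (TT f i - tl f i ^ 2) (tl f i ^ 2)
  rw [sub_add_cancel, abs_of_nonneg (sq_nonneg (tl f i))] at h7
  have h8 : 32 * B * M / rt i ^ 2 + B ^ 2 / rt i ^ 2 ≤ (B ^ 2 + 32 * B) * (1 + M) / rt i ^ 2 := by
    rw [← add_div]
    refine div_le_div_of_nonneg_right ?_ (by positivity)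
    have : 0 ≤ B ^ 2 * M := by positivity
    nlinarith
  linarith

lemma core1 {g τ : ℕ → ℝ} {G G' A : ℝ} (hG0 : 0 < G) (hG : ∀ j, |g j| ≤ G / rt j) (hG0' : 0 < G')
    (hG' : ∀ j, |g (j + 1) - g j| ≤ G' / rt j ^ 3) (hA : 0 ≤ A) {n L : ℕ} (hL : 2 ≤ L)
    (hτ : ∀ i ≤ n, 1 ≤ i → |τ i| ≤ A / rt i ^ 2) :
    rt n * |cv g τ n| ≤ 8 * G * A / L + (L * G * |ps τ (n - n / L ^ 2)| +
      G' * L ^ 3 * (ps (fun i => |ps τ i|) n / ((n : ℝ) + 1))) := by
  have hL0 : (0 : ℝ) < L := by positivity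
  set m := n / L ^ 2 with hm
  have h4 := split_four n L hL
  have hr := rt_pos n
  have hs := split_rt n L hL
  have hrm := rt_pos m
  rw [abel g τ n m (by omega)]
  have e1 : |∑ j ∈ range m, g j * τ (n - j)| ≤ 8 * G * A / L / rt n := by
    calc _ ≤ ∑ j ∈ range m, (4 * G * A / rt n ^ 2) * (rt j)⁻¹ := by
          refine (abs_sum_le_sum_abs _ _).trans (sum_le_sum fun j hj => ?_)
          have hj' := mem_range.1 hj
          have h1 := pow_le_pow_left₀ hr.le (rt_half (n := n) (i := n - j) (by omega)) 2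
          have h2 := rt_pos j
          have h3 := rt_pos (n - j)
          have h5 : A / rt (n - j) ^ 2 ≤ 4 * A / rt n ^ 2 := by
            rw [div_le_div_iff₀ (by positivity) (by positivity)]
            have := mul_le_mul_of_nonneg_left h1 hA
            linarith
          rw [abs_mul]
          refine (mul_le_mul (hG j) ((hτ _ (by omega) (by omega)).trans h5) (abs_nonneg _)
            (by positivity)).trans (le_of_eq ?_)
          field_simp
      _ ≤ (4 * G * A / rt n ^ 2) * (2 * (rt n / L)) := by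
          rw [← mul_sum]
          refine mul_le_mul_of_nonneg_left ((sum_inv_rt m).trans ?_) (by positivity)
          have := split_sqrt n L hL
          linarith
      _ = _ := by field_simp; ring
  have e2 : |g m * ps τ (n - m)| ≤ L * G * |ps τ (n - m)| / rt n := by
    rw [abs_mul, mul_div_right_comm]
    refine mul_le_mul_of_nonneg_right ((hG m).trans ?_) (abs_nonneg _)
    rw [div_le_div_iff₀ hrm hr]
    have := mul_le_mul_of_nonneg_left hs hG0.le
    linarith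
  have e3 : |∑ j ∈ Ico m n, (g (j + 1) - g j) * ps τ (n - (j + 1))| ≤
      G' * L ^ 3 * (ps (fun i => |ps τ i|) n / ((n : ℝ) + 1)) / rt n := by
    calc _ ≤ ∑ j ∈ Ico m n, G' * L ^ 3 / rt n ^ 3 * |ps τ (n - (j + 1))| := by
          refine (abs_sum_le_sum_abs _ _).trans (sum_le_sum fun j hj => ?_)
          rw [abs_mul]
          refine mul_le_mul_of_nonneg_right ((hG' j).trans ?_) (abs_nonneg _)
          have h1 := rt_mono (mem_Ico.1 hj).1
          have h2 := rt_pos j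
          have h3 := pow_le_pow_left₀ hr.le (hs.trans (mul_le_mul_of_nonneg_left h1 hL0.le)) 3
          rw [div_le_div_iff₀ (by positivity) (by positivity)]
          have := mul_le_mul_of_nonneg_left h3 hG0'.le
          linarith
      _ ≤ G' * L ^ 3 / rt n ^ 3 * ps (fun i => |ps τ i|) n := by
          rw [← mul_sum]
          refine mul_le_mul_of_nonneg_left ?_ (by positivity)
          calc _ ≤ ∑ j ∈ range n, |ps τ (n - (j + 1))| :=
                sum_le_sum_of_subset_of_nonneg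
                  (fun j hj => mem_range.2 (mem_Ico.1 hj).2) fun _ _ _ => abs_nonneg _
            _ ≤ _ := by
                rw [← ps_rev, sum_range_succ']
                have := abs_nonneg (ps τ (n - 0))
                linarith
      _ = _ := by rw [← rt_sq n]; field_simp
  have h5 := abs_add_three (∑ j ∈ range m, g j * τ (n - j)) (g m * ps τ (n - m))
    (∑ j ∈ Ico m n, (g (j + 1) - g j) * ps τ (n - (j + 1)))
  rw [mul_comm, ← le_div_iff₀ hr, add_div, add_div]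
  linarith

lemma gg_lim {c γ : ℝ} (hc : Tendsto (fun n => rt n * u n) atTop (𝓝 c))
    (hγ : Tendsto (fun n => rt n ^ 3 * (u (n + 1) - u n)) atTop (𝓝 γ)) :
    Tendsto (fun n => rt n * gg u n) atTop (𝓝 (γ + c)) := by
  rw [← tendsto_add_atTop_iff_nat 1]
  have h := (hγ.add hc).div rt_ratio one_ne_zero
  rw [div_one] at h
  refine h.congr fun n => ?_
  have h1 := rt_pos n
  have h2 := rt_pos (n + 1)
  have h3 : (n : ℝ) = rt n ^ 2 - 1 := by rw [rt_sq]; ring
  simp only [Pi.div_apply, gg]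
  rw [← rt_sq n]
  field_simp
  linear_combination (u n) * h3

lemma gg_diff {γ C : ℝ}
    (hγ : Tendsto (fun n => rt n ^ 3 * (u (n + 1) - u n)) atTop (𝓝 γ))
    (hC : ∀ n, |u (n + 2) - 2 * u (n + 1) + u n| ≤ C * (rt n ^ 5)⁻¹) :
    ∃ G', 0 < G' ∧ ∀ j, |gg u (j + 1) - gg u j| ≤ G' / rt j ^ 3 := by
  obtain ⟨P, hP0, hP⟩ := exists_abs_bound hγ
  have hP' : ∀ n, |u (n + 1) - u n| ≤ P / rt n ^ 3 := fun n => by
    have h1 := rt_pos n
    have h2 := hP n
    rw [abs_mul, abs_of_pos (by positivity : 0 < rt n ^ 3)] at h2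
    rw [le_div_iff₀ (by positivity)]; linarith
  refine ⟨8 * (|C| + 2 * P) + |u 1|, by positivity, fun j => ?_⟩
  cases j with
  | zero =>
    have : (0 : ℝ) ≤ 8 * (|C| + 2 * P) := by positivity
    simp [gg, rt, this]
  | succ j =>
    have h1 := rt_pos j
    have h2 := rt_pos (j + 1)
    have e : gg u (j + 1 + 1) - gg u (j + 1) = rt j ^ 2 * (u (j + 2) - 2 * u (j + 1) + u j) +
        (u (j + 1 + 1) - u (j + 1)) + (u (j + 1) - u j) := by
      simp only [gg, rt_sq]; push_cast; ring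
    have h3 : |rt j ^ 2 * (u (j + 2) - 2 * u (j + 1) + u j)| ≤ |C| / rt j ^ 3 := by
      rw [abs_mul, abs_of_pos (by positivity : 0 < rt j ^ 2)]
      have h4 := (hC j).trans (mul_le_mul_of_nonneg_right (le_abs_self C) (by positivity))
      refine (mul_le_mul_of_nonneg_left h4 (by positivity)).trans (le_of_eq ?_)
      field_simp
    have h4 : P / rt (j + 1) ^ 3 ≤ P / rt j ^ 3 :=
      div_le_div_of_nonneg_left hP0.le (by positivity)
        (pow_le_pow_left₀ h1.le (rt_mono (Nat.le_succ j)) 3)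
    have h5 : (|C| + 2 * P) / rt j ^ 3 ≤ (8 * (|C| + 2 * P) + |u 1|) / rt (j + 1) ^ 3 := by
      have h6 : rt (j + 1) ≤ 2 * rt j := rt_le_mul (by norm_num) (by
        have : (0 : ℝ) ≤ j := by positivity
        push_cast; linarith)
      have h7 := mul_le_mul_of_nonneg_left (pow_le_pow_left₀ h2.le h6 3)
        (show 0 ≤ |C| + 2 * P by positivity)
      have h8 : 0 ≤ |u 1| * rt j ^ 3 := by positivity
      rw [div_le_div_iff₀ (by positivity) (by positivity)]
      linarith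
    rw [e]
    refine (abs_add_three _ _ _).trans (le_trans ?_ h5)
    have := hP' (j + 1)
    have := hP' j
    rw [add_div, mul_div_assoc]
    linarith

theorem t1Stmt : T1Stmt := by
  intro f u c γ C h hc0 hc hγ hC
  have hc' : Tendsto (fun n => rt n * u n) atTop (𝓝 c) :=
    hc.congr fun n => by rw [rpw1, div_inv_eq_mul, mul_comm]
  have hγ' : Tendsto (fun n => rt n ^ 3 * (u (n + 1) - u n)) atTop (𝓝 γ) :=
    hγ.congr fun n => by rw [rpw3, div_inv_eq_mul, mul_comm]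
  simp only [rpw5] at hC
  have hU := ps_lim hc'
  obtain ⟨c0, hc00, hc1⟩ := exists_pos_lb
    (fun n => div_pos (zero_lt_one.trans_le (one_le_ps h n)) (rt_pos n)) hU (by positivity)
  obtain ⟨A, hA0, hA⟩ := exists_rt_bound hc'
  have hs : HasSum f 1 := by
    refine hasSum_of_not_summable h (C := A) (fun n => ?_) fun hu => ?_
    · exact (le_abs_self _).trans ((hA n).trans (div_le_self hA0.le (one_le_rt n)))
    · have h1 : Tendsto (ps u) atTop (𝓝 (∑' n, u n)) :=
        hu.hasSum.tendsto_sum_nat.comp (tendsto_add_atTop_nat 1)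
      have h2 := tendsto_nhds_unique hU (h1.div_atTop rt_atTop)
      linarith
  refine ⟨hs, ?_⟩
  have hr0 := tl_nonneg h.1 hs
  have hB : ∀ n, |tl f n| ≤ c0⁻¹ / rt n := fun n => by
    have h1 := tl_mul_ps_le h n
    have h2 := hc1 n
    have h3 := rt_pos n
    rw [le_div_iff₀ h3] at h2
    rw [abs_of_nonneg (hr0 n), le_div_iff₀ h3, inv_eq_one_div, le_div_iff₀ hc00]
    have := mul_le_mul_of_nonneg_left h2 (hr0 n)
    linarith
  have hab : cv u (tl f) = fun _ => 1 := by rw [cv_comm, cv_tl h]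
  set κ := eta / c with hκ
  have hS : Tendsto (fun n => cv (tl f) (tl f) n - κ * κ) atTop (𝓝 0) := by
    have h1 := cv_lim_anti (tl_anti h.1) hr0 hB (sub_hh_bound hB κ) (ps_inv_lim hab hc0 hc' hB)
    have h2 := (h1.add ((cv_hh_inv_lim hab hc0 hc' hB).const_mul κ)).sub_const (κ * κ)
    rw [zero_add, sub_self] at h2
    refine h2.congr fun n => ?_
    rw [cv_sub_smul, cv_comm hh]; ring
  have hg := gg_lim hc' hγ'
  obtain ⟨G, hG0, hG⟩ := exists_rt_bound hg
  obtain ⟨G', hG0', hG'⟩ := gg_diff hγ' hC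
  set τ : ℕ → ℝ := fun i => TT f i - κ * κ * (if i = 0 then 1 else 0) with hτ
  have hps : ∀ n, ps τ n = cv (tl f) (tl f) n - κ * κ := fun n => by
    rw [hτ, ps_sub_smul, ps_TT]; simp [ps]
  have hcv : ∀ n, cv (gg u) τ n = n * f n - κ * κ * gg u n := fun n => by
    rw [hτ, cv_sub_smul, ← euler_f1 h, cv_comm]; simp [cv]
  have hσ : Tendsto (ps τ) atTop (𝓝 0) := hS.congr fun n => (hps n).symm
  refine ⟨1 * (κ * κ * (γ + c)), Tendsto.congr (f₁ := fun n => rt n ^ 3 * f n)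
    (fun n => by rw [rpw3, div_inv_eq_mul, mul_comm]) ?_⟩
  refine boot_lim ((ratio_nat' 1).mul (hg.const_mul (κ * κ))) fun ε hε => ?_
  set B := c0⁻¹ with hBd
  have hB0 : 0 < B := by positivity
  obtain ⟨L, hL, hL2⟩ := exists_L (8 * G * (B ^ 2 + 32 * B)) (show 0 < ε / 4 by positivity)
  have hsub : Tendsto (fun n => n - n / L ^ 2) atTop atTop := by
    refine tendsto_atTop.2 fun b => ?_
    filter_upwards [eventually_ge_atTop (2 * b)] with n hn
    have := split_four n L hL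
    omega
  have hy := (((hσ.comp hsub).abs.const_mul (L * G)).add
    ((cesaro_abs hσ).const_mul (G' * L ^ 3)))
  simp only [abs_zero, mul_zero, add_zero] at hy
  filter_upwards [hy.eventually_lt_const (show 0 < ε / 4 by positivity), eventually_ge_atTop 1]
    with n hn hn1 M hM hx
  have h1 := core1 (τ := τ) (A := (B ^ 2 + 32 * B) * (1 + M)) hG0 hG hG0' hG' (by positivity)
    (n := n) hL (fun i hi hi1 => by
      have := TT_le h.1 hs hB0 hB hM hx i hi
      rw [hτ]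
      simpa [show i ≠ 0 by omega] using this)
  have hn0 : (1 : ℝ) ≤ n := by exact_mod_cast hn1
  have h2 := rt_pos n
  have e : rt n ^ 3 * f n - ((n : ℝ) + 1) / n * (κ * κ * (rt n * gg u n)) =
      ((n : ℝ) + 1) / n * (rt n * cv (gg u) τ n) := by
    rw [hcv, ← rt_sq n]; field_simp
  have h3 : ((n : ℝ) + 1) / n ≤ 2 := by rw [div_le_iff₀ (by positivity)]; linarith
  have h4 : 8 * G * ((B ^ 2 + 32 * B) * (1 + M)) / L ≤ ε / 4 * (1 + M) := by
    refine le_trans (le_of_eq ?_) (mul_le_mul_of_nonneg_right hL2 (by positivity))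
    ring
  rw [e, abs_mul, abs_mul, abs_of_pos h2, abs_of_pos (by positivity)]
  have h5 := mul_le_mul_of_nonneg_right h3 (show 0 ≤ rt n * |cv (gg u) τ n| by positivity)
  simp only [Function.comp] at hn
  have : 0 ≤ ε * M := by positivity
  linarith

end

end Pool.Agent.MP_48a2f9_mp.Ren1

end MrgPart0

-- ======== part 1: formerly Pool.Agent.MP_48a2f9_mp.Ren1E
section MrgPart1

/-!
`T2Stmt`.
-/

open Finset Filter Topology

namespace Pool.Agent.MP_48a2f9_mp.Ren1

noncomputable section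

variable {f u : ℕ → ℝ}

/-- `log (n+2)`. -/
def lg (n : ℕ) : ℝ := Real.log ((n : ℝ) + 2)

lemma lg_pos (n : ℕ) : 0 < lg n := Real.log_pos (by
  have : (0 : ℝ) ≤ n := by positivity
  linarith)

lemma lg_atTop : Tendsto lg atTop atTop :=
  Real.tendsto_log_atTop.comp (tendsto_atTop_add_const_right _ _ tendsto_natCast_atTop_atTop)

lemma lg_pow_div (k : ℕ) : Tendsto (fun n : ℕ => lg n ^ k / ((n : ℝ) + 2)) atTop (𝓝 0) := by
  have h := (Real.tendsto_pow_log_div_mul_add_atTop 1 0 k one_ne_zero).comp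
    (tendsto_atTop_add_const_right atTop (2 : ℝ) tendsto_natCast_atTop_atTop)
  refine h.congr fun n => ?_
  simp [lg]

lemma harm_bounds (n : ℕ) : lg n ≤ ps (fun i => ((i : ℝ) + 1)⁻¹) n ∧
    ps (fun i => ((i : ℝ) + 1)⁻¹) n ≤ 1 + lg n := by
  have e : ((harmonic (n + 1) : ℚ) : ℝ) = ps (fun i => ((i : ℝ) + 1)⁻¹) n := by
    simp [harmonic, ps]
  have h1 := log_add_one_le_harmonic (n + 1)
  have h2 := harmonic_le_one_add_log (n + 1)
  rw [e] at h1 h2
  push_cast at h1 h2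
  have h3 : Real.log ((n : ℝ) + 1) ≤ lg n := Real.log_le_log (by positivity) (by linarith)
  refine ⟨?_, by linarith⟩
  rw [lg, show (n : ℝ) + 2 = n + 1 + 1 by ring]; exact h1

lemma sum_inv_sq (n : ℕ) : ps (fun i => (((i : ℝ) + 1) ^ 2)⁻¹) n ≤ 2 - ((n : ℝ) + 1)⁻¹ := by
  induction n with
  | zero => simp [ps_zero]; norm_num
  | succ n ih =>
    rw [ps_succ]
    push_cast
    have : (((n : ℝ) + 1 + 1) ^ 2)⁻¹ ≤ ((n : ℝ) + 1)⁻¹ - ((n : ℝ) + 1 + 1)⁻¹ := by
      rw [inv_sub_inv (by positivity) (by positivity), inv_eq_one_div,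
        div_le_div_iff₀ (by positivity) (by positivity)]
      have : (0 : ℝ) ≤ n := by positivity
      nlinarith
    linarith

lemma rlg_eq (n : ℕ) : rlg n = (((n : ℝ) + 2) * lg n ^ 2)⁻¹ := rfl

lemma rlg_loc {n j : ℕ} (h : n ≤ 4 * j) :
    ((n : ℝ) + 2) * lg n ^ 2 ≤ 36 * (((j : ℝ) + 2) * lg j ^ 2) := by
  have h0 : (0 : ℝ) ≤ j := by positivity
  have h1 : (n : ℝ) + 2 ≤ 4 * ((j : ℝ) + 2) := by
    have : (n : ℝ) ≤ 4 * j := by exact_mod_cast h
    linarith
  have h2 : lg n ≤ 3 * lg j := by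
    have h3 : (n : ℝ) + 2 ≤ ((j : ℝ) + 2) ^ 3 := by nlinarith [mul_nonneg h0 (sq_nonneg (j : ℝ))]
    have h4 := Real.log_le_log (by positivity) h3
    rw [Real.log_pow, Nat.cast_ofNat] at h4
    exact h4
  have h3 := pow_le_pow_left₀ (lg_pos n).le h2 2
  have h4 := mul_le_mul h1 h3 (by positivity) (by positivity)
  linarith

/-- The coefficients of `(1 - F)^2`. -/
def vv (f : ℕ → ℝ) (n : ℕ) : ℝ := (if n = 0 then 1 else 0) - 2 * f n + cv f f n

lemma mk_vv (f : ℕ → ℝ) :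
    PowerSeries.mk (vv f) = (1 - PowerSeries.mk f) * (1 - PowerSeries.mk f) := by
  have : (1 - PowerSeries.mk f) * (1 - PowerSeries.mk f) =
      1 - (PowerSeries.mk f + PowerSeries.mk f) + PowerSeries.mk (cv f f) := by
    rw [mk_cv]; ring
  rw [this]
  ext n
  simp [vv, PowerSeries.coeff_one, two_mul]

lemma euler_f2 (h : IsRen f u) (c : ℝ) (n : ℕ) :
    (n : ℝ) * f n = c * TT f n + cv (vv f) (fun j => (j : ℝ) * u j - c * 1) n := by
  have h1 := euler_f h
  rw [Dd_mk, Dd_mk, ← mk_vv, mul_comm, ← mk_cv] at h1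
  have h2 : ps (vv f) = TT f := by
    apply mk_inj
    rw [mk_ps, mk_vv, mk_TT, mk_tl]; ring
  rw [cv_sub_smul, cv_one, h2, ← mk_inj h1]; ring

lemma ps_f_le (hf : ∀ n, 0 ≤ f n) (hs : HasSum f 1) (n : ℕ) : ps f n ≤ 1 := by
  have := tl_nonneg hf hs n
  rw [tl] at this; linarith

lemma abs_vv_le (hf : ∀ n, 0 ≤ f n) (i : ℕ) :
    |vv f i| ≤ (if i = 0 then 1 else 0) + 2 * f i + cv f f i := by
  have h1 := hf i
  have h2 := cv_nonneg hf hf i
  rw [vv, abs_le]
  constructor <;> split_ifs <;> linarith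

lemma ps_vv_le (hf : ∀ n, 0 ≤ f n) (hs : HasSum f 1) (n : ℕ) : ps (fun i => |vv f i|) n ≤ 4 := by
  have h1 := ps_f_le hf hs n
  have h2 := ps_cv_le hf hf n
  have h3 : 0 ≤ ps f n := sum_nonneg fun i _ => hf i
  calc _ ≤ ∑ i ∈ range (n + 1), ((if i = 0 then 1 else 0) + 2 * f i + cv f f i) :=
        sum_le_sum fun i _ => abs_vv_le hf i
    _ = 1 + 2 * ps f n + ps (cv f f) n := by
        rw [sum_add_distrib, sum_add_distrib, ← mul_sum]; simp [ps]
    _ ≤ 4 := by nlinarith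

lemma core2 (hf : ∀ n, 0 ≤ f n) (hs : HasSum f 1) {e : ℕ → ℝ} {E φ : ℝ} (hE0 : 0 ≤ E)
    (hE : ∀ j : ℕ, |e j| ≤ E * ((j : ℝ) + 1)⁻¹) (hφ : 0 ≤ φ) {n : ℕ} (hn : 1 ≤ n)
    (h : ∀ j ≤ n, n ≤ 4 * j → f j ≤ φ) :
    |cv (vv f) e n| ≤ 4 * φ * E * (1 + lg n) + 8 * E / ((n : ℝ) + 2) := by
  rw [cv_comm]
  calc _ ≤ ∑ j ∈ range (n + 1), (4 * φ * E * ((j : ℝ) + 1)⁻¹ +
        2 * E / ((n : ℝ) + 2) * |vv f (n - j)|) := by
        refine (abs_sum_le_sum_abs _ _).trans (sum_le_sum fun j hj => ?_)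
        have hj' := mem_range.1 hj
        have h1 : 0 ≤ 4 * φ * E * ((j : ℝ) + 1)⁻¹ := by positivity
        have h2 : 0 ≤ 2 * E / ((n : ℝ) + 2) * |vv f (n - j)| := by positivity
        rw [abs_mul]
        by_cases hc : 2 * j ≤ n
        · have h3 := abs_vv_le hf (n - j)
          rw [if_neg (by omega)] at h3
          have h4 := h (n - j) (by omega) (by omega)
          have h5 := cv_self_le hf (n := n - j) hφ fun i hi hi2 => h i (by omega) (by omega)
          have h6 := mul_le_mul_of_nonneg_left (ps_f_le hf hs (n - j))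
            (show 0 ≤ 2 * φ by positivity)
          have h7 : |vv f (n - j)| ≤ 4 * φ := by linarith
          have := mul_le_mul (hE j) h7 (abs_nonneg _) (by positivity)
          linarith
        · have h3 : E * ((j : ℝ) + 1)⁻¹ ≤ 2 * E / ((n : ℝ) + 2) := by
            rw [← div_eq_mul_inv, div_le_div_iff₀ (by positivity) (by positivity)]
            have h4 : (n : ℝ) + 2 ≤ 2 * ((j : ℝ) + 1) := by
              have : n + 2 ≤ 2 * (j + 1) := by omega
              exact_mod_cast this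
            have := mul_le_mul_of_nonneg_left h4 hE0
            linarith
          have := mul_le_mul_of_nonneg_right ((hE j).trans h3) (abs_nonneg (vv f (n - j)))
          linarith
    _ ≤ _ := by
        rw [sum_add_distrib, ← mul_sum, ← mul_sum, ps_rev (fun i => |vv f i|)]
        refine add_le_add (mul_le_mul_of_nonneg_left (harm_bounds n).2 (by positivity)) ?_
        refine (mul_le_mul_of_nonneg_left (ps_vv_le hf hs n) (by positivity)).trans (le_of_eq ?_)
        ring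

lemma tl_mul_ps_ge (h : IsRen f u) (hs : HasSum f 1) {A : ℝ} (hA0 : 0 ≤ A)
    (hA : ∀ j : ℕ, u j ≤ A * ((j : ℝ) + 1)⁻¹) (n : ℕ) :
    1 - A * (ps (fun i => |tl f i|) n / ((n : ℝ) + 1)) ≤ tl f n * ps u n := by
  have hr := tl_nonneg h.1 hs
  have hu := ren_nonneg h
  have h1 : cv u (tl f) (2 * n + 1) = 1 := by rw [cv_comm, cv_tl h]
  rw [cv, show 2 * n + 1 + 1 = (n + 1) + (n + 1) by ring, sum_range_add] at h1
  have h2 : ∑ j ∈ range (n + 1), u j * tl f (2 * n + 1 - j) ≤ tl f n * ps u n := by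
    rw [ps, mul_sum]
    refine sum_le_sum fun j hj => ?_
    have := mem_range.1 hj
    rw [mul_comm]
    exact mul_le_mul_of_nonneg_right (tl_anti h.1 (by omega)) (hu j)
  have h3 : ∑ j ∈ range (n + 1), u (n + 1 + j) * tl f (2 * n + 1 - (n + 1 + j)) ≤
      A * (ps (fun i => |tl f i|) n / ((n : ℝ) + 1)) := by
    rw [← ps_rev, sum_div, mul_sum]
    refine sum_le_sum fun j _ => ?_
    rw [show 2 * n + 1 - (n + 1 + j) = n - j by omega, abs_of_nonneg (hr _)]
    have h4 : u (n + 1 + j) ≤ A * ((n : ℝ) + 1)⁻¹ := by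
      refine (hA _).trans (mul_le_mul_of_nonneg_left (inv_anti₀ (by positivity) ?_) hA0)
      have : (0 : ℝ) ≤ j := by positivity
      push_cast; linarith
    refine (mul_le_mul_of_nonneg_right h4 (hr _)).trans (le_of_eq ?_)
    ring
  linarith

theorem t2Stmt : T2Stmt := by
  intro f u c C h hc0 hC
  have hC' : ∀ n : ℕ, |u n - c * ((n : ℝ) + 1)⁻¹| ≤ |C| * (((n : ℝ) + 1) ^ 2)⁻¹ := by
    intro n
    have h1 := hC n
    rw [rpw, rpw, Real.rpow_neg (by positivity), Real.rpow_neg (by positivity), Real.rpow_one,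
      Real.rpow_two] at h1
    exact h1.trans (mul_le_mul_of_nonneg_right (le_abs_self C) (by positivity))
  have hsq : ∀ n : ℕ, (((n : ℝ) + 1) ^ 2)⁻¹ ≤ ((n : ℝ) + 1)⁻¹ := fun n => by
    have : (0 : ℝ) ≤ n := by positivity
    exact inv_anti₀ (by positivity) (by nlinarith)
  have hA : ∀ j : ℕ, u j ≤ (|C| + c) * ((j : ℝ) + 1)⁻¹ := fun j => by
    have h1 := (abs_le.1 (hC' j)).2
    have h2 := mul_le_mul_of_nonneg_left (hsq j) (abs_nonneg C)
    linarith
  have hE : ∀ j : ℕ, |(j : ℝ) * u j - c * 1| ≤ (|C| + c) * ((j : ℝ) + 1)⁻¹ := fun j => by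
    have h0 : (0 : ℝ) ≤ j := by positivity
    have e : (j : ℝ) * u j - c * 1 = j * (u j - c * ((j : ℝ) + 1)⁻¹) - c * ((j : ℝ) + 1)⁻¹ := by
      field_simp; ring
    have h1 : |(j : ℝ) * (u j - c * ((j : ℝ) + 1)⁻¹)| ≤ |C| * ((j : ℝ) + 1)⁻¹ := by
      rw [abs_mul, abs_of_nonneg h0]
      refine (mul_le_mul (show (j : ℝ) ≤ j + 1 by linarith) (hC' j) (abs_nonneg _)
        (by positivity)).trans (le_of_eq ?_)
      field_simp
    rw [e]
    refine (abs_sub _ _).trans ?_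
    rw [abs_of_pos (show 0 < c * ((j : ℝ) + 1)⁻¹ by positivity)]
    linarith
  have hUb : ∀ n, |ps u n - c * lg n| ≤ 2 * |C| + c := fun n => by
    have h1 : |ps u n - c * ps (fun i => ((i : ℝ) + 1)⁻¹) n| ≤ 2 * |C| := by
      rw [← ps_sub_smul]
      calc _ ≤ ∑ i ∈ range (n + 1), |C| * (((i : ℝ) + 1) ^ 2)⁻¹ :=
            (abs_sum_le_sum_abs _ _).trans (sum_le_sum fun i _ => hC' i)
        _ ≤ _ := by
            rw [← mul_sum, mul_comm 2]
            refine mul_le_mul_of_nonneg_left ((sum_inv_sq n).trans ?_) (abs_nonneg C)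
            have : 0 ≤ ((n : ℝ) + 1)⁻¹ := by positivity
            linarith
    have h2 := mul_le_mul_of_nonneg_left (harm_bounds n).1 hc0.le
    have h3 := mul_le_mul_of_nonneg_left (harm_bounds n).2 hc0.le
    rw [abs_le] at h1 ⊢
    constructor <;> linarith [h1.1, h1.2]
  have hU : Tendsto (fun n => ps u n / lg n) atTop (𝓝 c) := by
    have h1 : Tendsto (fun n => (ps u n - c * lg n) / lg n) atTop (𝓝 0) := by
      refine tendsto_zero_of_abs_le (tendsto_const_nhds (x := 2 * |C| + c).div_atTop lg_atTop)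
        fun n => ?_
      rw [abs_div, abs_of_pos (lg_pos n)]
      exact div_le_div_of_nonneg_right (hUb n) (lg_pos n).le
    have h2 := h1.add_const c
    rw [zero_add] at h2
    refine h2.congr fun n => ?_
    have := lg_pos n
    field_simp; ring
  have hs : HasSum f 1 := by
    refine hasSum_of_not_summable h (C := |C| + c) (fun n => ?_) fun hu => ?_
    · refine (hA n).trans (mul_le_of_le_one_right (by positivity) (inv_le_one_of_one_le₀ ?_))
      have : (0 : ℝ) ≤ n := by positivity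
      linarith
    · have h1 : Tendsto (ps u) atTop (𝓝 (∑' n, u n)) :=
        hu.hasSum.tendsto_sum_nat.comp (tendsto_add_atTop_nat 1)
      have h2 := tendsto_nhds_unique hU (h1.div_atTop lg_atTop)
      linarith
  refine ⟨hs, ?_⟩
  have hr0 := tl_nonneg h.1 hs
  have hces := cesaro_abs (tl_lim hs)
  have hrU : Tendsto (fun n => tl f n * ps u n) atTop (𝓝 1) := by
    have h1 := (hces.const_mul (|C| + c)).const_sub 1
    rw [mul_zero, sub_zero] at h1
    exact tendsto_of_tendsto_of_tendsto_of_le_of_le h1 tendsto_const_nhds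
      (tl_mul_ps_ge h hs (by positivity) hA) (tl_mul_ps_le h)
  have hrl : Tendsto (fun n => tl f n * lg n) atTop (𝓝 (1 / c)) := by
    refine (hrU.div hU hc0.ne').congr fun n => ?_
    have h1 := lg_pos n
    have h2 := one_le_ps h n
    simp only [Pi.div_apply]
    field_simp
  have hp := (ratio_nat' 2).mul ((hrl.pow 2).const_mul c)
  have e0 : 1 * (c * (1 / c) ^ 2) = 1 / c := by field_simp
  rw [e0] at hp
  refine Tendsto.congr (f₁ := fun n : ℕ => f n * (((n : ℝ) + 2) * lg n ^ 2))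
    (fun n => by rw [rlg_eq, div_inv_eq_mul]) (boot_lim hp fun ε hε => ?_)
  set E := |C| + c with hEd
  have hE0 : 0 ≤ E := by positivity
  have ha := (hces.const_mul (72 * c)).add
    (((lg_pow_div 0).add (lg_pow_div 1)).const_mul (144 * E))
  have hb := (lg_pow_div 2).const_mul (8 * E)
  simp only [mul_zero, add_zero, pow_zero, pow_one] at ha hb
  filter_upwards [ha.eventually_lt_const (show 0 < ε / 3 by positivity),
    hb.eventually_lt_const (show 0 < ε / 3 by positivity), eventually_ge_atTop 1]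
    with n hna hnb hn1 M hM hx
  have hl := lg_pos n
  have hn0 : (1 : ℝ) ≤ n := by exact_mod_cast hn1
  set φ := 36 * M / (((n : ℝ) + 2) * lg n ^ 2) with hφ
  have hφ0 : 0 ≤ φ := by positivity
  have hloc : ∀ j ≤ n, n ≤ 4 * j → f j ≤ φ := fun j hj hj2 => by
    have h1 := mul_le_mul_of_nonneg_left (rlg_loc hj2) (h.1 j)
    have h2 := hx j hj
    rw [hφ, le_div_iff₀ (by positivity)]; linarith
  have h1 := TT_bound h.1 hs hφ0 fun j hj hj2 => hloc j hj (by omega)
  have h2 := core2 h.1 hs hE0 hE hφ0 hn1 hloc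
  have e : f n * (((n : ℝ) + 2) * lg n ^ 2) - ((n : ℝ) + 2) / n * (c * (tl f n * lg n) ^ 2) =
      ((n : ℝ) + 2) / n * (lg n ^ 2 * (c * (TT f n - tl f n ^ 2) +
        cv (vv f) (fun j => (j : ℝ) * u j - c * 1) n)) := by
    have h3 := euler_f2 h c n
    generalize cv (vv f) (fun j => (j : ℝ) * u j - c * 1) n = z at h3 ⊢
    field_simp
    linear_combination h3
  have h3 : ((n : ℝ) + 2) / n ≤ 3 := by rw [div_le_iff₀ (by positivity)]; linarith
  have h4 : ps (tl f) n = ps (fun i => |tl f i|) n :=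
    sum_congr rfl fun i _ => (abs_of_nonneg (hr0 i)).symm
  set R := ps (fun i => |tl f i|) n with hR
  have hR0 : 0 ≤ R := sum_nonneg fun i _ => abs_nonneg _
  have h5 : |c * (TT f n - tl f n ^ 2) + cv (vv f) (fun j => (j : ℝ) * u j - c * 1) n| ≤
      c * (2 * φ * R) + (4 * φ * E * (1 + lg n) + 8 * E / ((n : ℝ) + 2)) := by
    refine (abs_add_le _ _).trans (add_le_add ?_ h2)
    rw [abs_mul, abs_of_pos hc0, ← h4]
    exact mul_le_mul_of_nonneg_left h1 hc0.le
  have h6 : lg n ^ 2 * (c * (2 * φ * R) + (4 * φ * E * (1 + lg n) + 8 * E / ((n : ℝ) + 2))) =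
      M * (72 * c * (R / ((n : ℝ) + 2)) + 144 * E * (1 / ((n : ℝ) + 2) + lg n / ((n : ℝ) + 2))) +
        8 * E * (lg n ^ 2 / ((n : ℝ) + 2)) := by
    rw [hφ]; field_simp; ring
  have h7 : R / ((n : ℝ) + 2) ≤ R / ((n : ℝ) + 1) :=
    div_le_div_of_nonneg_left hR0 (by positivity) (by linarith)
  have h8 := mul_le_mul_of_nonneg_left h7 (show 0 ≤ 72 * c by positivity)
  have h9 : M * (72 * c * (R / ((n : ℝ) + 2)) +
      144 * E * (1 / ((n : ℝ) + 2) + lg n / ((n : ℝ) + 2))) ≤ M * (ε / 3) :=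
    mul_le_mul_of_nonneg_left (by linarith) hM
  have h10 := mul_le_mul_of_nonneg_left h5 (sq_nonneg (lg n))
  rw [e, abs_mul, abs_mul, abs_of_pos (show 0 < ((n : ℝ) + 2) / n by positivity),
    abs_of_nonneg (sq_nonneg (lg n))]
  have h11 := mul_le_mul_of_nonneg_right h3 (show 0 ≤ lg n ^ 2 *
    |c * (TT f n - tl f n ^ 2) + cv (vv f) (fun j => (j : ℝ) * u j - c * 1) n| by positivity)
  linarith

end

end Pool.Agent.MP_48a2f9_mp.Ren1

end MrgPart1

-- ======== part 2: formerly Pool.Agent.MP_48a2f9_mp.Chain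
section MrgPart2

/-!
The chain of all the modules.
-/

namespace Pool.Agent.MP_48a2f9_mp.OZ

theorem main_of_llt (hL : LLTStmt) (hM : MassStmt) : MainStmt :=
  have r1 := r1Stmt regStmt r2Stmt
  have rn := rnStmt r1 r2Stmt
  have ra := r3aStmt (mg3Stmt (mg2Stmt mg0Stmt (mg1Stmt mg0Stmt))) r1 r2Stmt
  main_of (cwStmt_of_line lineStmt) tpStmt
    (renStmt hM r1 r2Stmt rn ra (r3bStmt r1 r2Stmt rn ra) r3cStmt)
    (Op.b1 serStmt Ren1.t0Stmt Ren1.t1Stmt Ren1.t2Stmt hL)
    (Op.b2 serStmt Ren1.t0Stmt Ren1.t1Stmt Ren1.t2Stmt Ren1.t3Stmt Ren2.t4Stmt Ren2.t5Stmt hL)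
    (Op.b3 serStmt Ren1.t0Stmt Ren1.t1Stmt Ren1.t2Stmt hL)
    (Op.b4 serStmt Ren1.t0Stmt Ren1.t1Stmt Ren1.t2Stmt hL)
    (b5Stmt hL) b6Stmt

end Pool.Agent.MP_48a2f9_mp.OZ

end MrgPart2

-- ======== part 3: formerly Pool.Agent.MP_48a2f9_mp.Mass
section MrgPart3

/-!
The homogeneous step law has total mass one.
-/

open Finset Filter Topology

namespace Pool.Agent.MP_48a2f9_mp

noncomputable section
open Classical

namespace MassP

variable {D : ℕ}

lemma tsum_le_cube {h : Tr D → ℝ} {M n : ℕ} {B : ℝ} (hB : 0 ≤ B)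
    (h0 : ∀ w, h w ≠ 0 → ‖w‖ ≤ (M : ℝ) * n) (h1 : ∀ w, h w ≤ B) :
    Summable h ∧ ∑' w, h w ≤ B * (2 * M + 1) ^ D * ((n : ℝ) + 1) ^ D := by
  let S : Finset (Tr D) := Fintype.piFinset fun _ => Icc (-((M * n : ℕ) : ℤ)) (M * n : ℕ)
  have hS : ∀ w, w ∉ S → h w = 0 := fun w hw => by
    by_contra k
    refine hw (Fintype.mem_piFinset.2 fun i => mem_Icc.2 (abs_le.1 ?_))
    have h2 := (norm_le_pi_norm w i).trans (h0 w k)
    rw [Int.norm_eq_abs] at h2
    exact_mod_cast h2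
  refine ⟨summable_of_ne_finset_zero hS, ?_⟩
  rw [tsum_eq_sum hS]
  refine (sum_le_card_nsmul _ _ B fun w _ => h1 w).trans ?_
  have h2 : S.card = (2 * (M * n) + 1) ^ D := by
    simp only [S, Fintype.card_piFinset, Int.card_Icc, prod_const, card_univ, Fintype.card_fin]
    congr 1
    omega
  rw [nsmul_eq_mul, h2, mul_comm, mul_assoc, ← mul_pow]
  push_cast
  refine mul_le_mul_of_nonneg_left (pow_le_pow_left₀ (by positivity) ?_ _) hB
  nlinarith [Nat.cast_nonneg (α := ℝ) M, Nat.cast_nonneg (α := ℝ) n]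

variable {p g : ℕ → Tr D → ℝ} {M : ℕ} {C ν : ℝ}

lemma p_supp (hp : HomOK p M C ν) (l : ℕ) (w : Tr D) (h : p l w ≠ 0) : ‖w‖ ≤ (M : ℝ) * l := by
  simpa using hp.ker.range l 0 w (by simpa [hk] using h)

lemma g_supp (hp : HomOK p M C ν) (hg : IsG p g) : ∀ n u, g n u ≠ 0 → ‖u‖ ≤ (M : ℝ) * n := by
  intro n
  induction n using Nat.strong_induction_on with
  | _ n ih =>
    intro u hu
    rcases Nat.eq_zero_or_pos n with rfl | hn
    · rw [hg.1] at hu
      have : u = 0 := by_contra fun k => hu (if_neg k)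
      simp [this]
    · rw [hg.2 n u hn] at hu
      obtain ⟨l, hl, h1⟩ := exists_ne_zero_of_sum_ne_zero hu
      have hl' := mem_Ioc.1 hl
      obtain ⟨w, h2⟩ : ∃ w, p l w * g (n - l) (u - w) ≠ 0 := by
        by_contra k
        push Not at k
        simp [k] at h1
      have h3 := p_supp hp l w (left_ne_zero_of_mul h2)
      have h4 := ih (n - l) (by omega) _ (right_ne_zero_of_mul h2)
      have h5 := norm_add_le w (u - w)
      rw [add_sub_cancel] at h5
      rw [Nat.cast_sub hl'.2] at h4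
      linarith

lemma isRen (hp : HomOK p M C ν) (hg : IsG p g) (hs : ∀ n, Summable (g n)) :
    IsRen (fun l => ∑' w, p l w) fun n => ∑' v, g n v := by
  have h0 : ∀ w, p 0 w = 0 := fun w => by simpa [hk] using hp.ker.zero 0 w
  refine ⟨fun l => tsum_nonneg fun w => by simpa [hk] using hp.ker.nonneg l 0 w, by simp [h0],
    fun n => ?_⟩
  rw [Finset.Nat.sum_antidiagonal_eq_sum_range_succ
    (fun l m => (∑' w, p l w) * ∑' v, g m v) n]
  rcases Nat.eq_zero_or_pos n with rfl | hn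
  · simp [hg.1, h0]
  have e1 : range n.succ = insert 0 (Ioc 0 n) := by
    ext l
    simp only [mem_range, mem_insert, mem_Ioc]
    omega
  rw [if_neg hn.ne', zero_add, e1, sum_insert (by simp)]
  simp only [h0, tsum_zero, zero_mul, zero_add]
  have key : ∀ l, HasSum (fun v => ∑' w, p l w * g (n - l) (v - w))
      ((∑' w, p l w) * ∑' v, g (n - l) v) := by
    intro l
    obtain ⟨S, hS⟩ := B5.exists_supp hp l
    rw [tsum_eq_sum (s := S) hS, sum_mul]
    have e2 : (fun v => ∑' w, p l w * g (n - l) (v - w)) =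
        fun v => ∑ w ∈ S, p l w * g (n - l) (v - w) :=
      funext fun v => tsum_eq_sum fun w hw => by simp [hS w hw]
    rw [e2]
    exact hasSum_sum fun w _ =>
      ((Equiv.subRight w).hasSum_iff.2 (hs (n - l)).hasSum).mul_left (p l w)
  rw [← (hasSum_sum fun l (_ : l ∈ Ioc 0 n) => key l).tsum_eq]
  exact tsum_congr fun v => hg.2 n v hn

end MassP

open MassP in
theorem massStmt : MassStmt := by
  rintro D p G M C ν t hν hp hG hC ⟨bL, bR, tR, err, hbL, hbR, herr, ht1, ht2⟩ hno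
  have hp0 : ∀ l w, 0 ≤ p l w := fun l w => by simpa [hk] using hp.ker.nonneg l 0 w
  have hC0 : 0 ≤ C := by simpa using (herr 0).1.trans (herr 0).2
  have hg := B5.isG_gOf hG
  have hgs := fun n => tsum_le_cube (B := max C 1) (le_max_of_le_right zero_le_one)
    (g_supp hp hg n) fun w => by
      unfold B5.gOf
      split_ifs
      exacts [le_max_right _ _, le_max_of_le_right zero_le_one, le_max_of_le_left (hC _ _ _)]
  have hps := fun l : ℕ => tsum_le_cube (B := C * Real.exp (-ν * l)) (by positivity)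
    (p_supp hp l) fun w => by simpa [hk] using hp.ker.decay l 0 w
  set f : ℕ → ℝ := fun l => ∑' w, p l w with hf
  have hf0 : ∀ l, 0 ≤ f l := fun l => tsum_nonneg (hp0 l)
  obtain ⟨h1, h2, -⟩ := Ren1.t0Stmt f _ _ D (isRen hp hg fun n => (hgs n).1) fun n => (hgs n).2
  refine by_contra fun hm => hno ?_
  have h3 : ∑' l, f l < 1 := lt_of_le_of_ne h2 fun k => hm (by
    have := h1.hasSum
    rwa [k] at this)
  have hb : Summable fun l : ℕ => f l * Real.exp (ν / 2 * l) := by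
    refine Summable.of_nonneg_of_le (fun l => mul_nonneg (hf0 l) (Real.exp_pos _).le) (fun l => ?_)
      ((B5.summable_weight (half_pos hν) (Nat.cast_nonneg D)).mul_left (C * (2 * M + 1) ^ D))
    refine (mul_le_mul_of_nonneg_right (hps l).2 (Real.exp_pos _).le).trans (le_of_eq ?_)
    rw [Real.rpow_natCast, show -(ν / 2) * l = -ν * l + ν / 2 * l by ring, Real.exp_add]
    ring
  have hle : ∀ ε : ℝ, ε < ν / 2 → ∀ l : ℕ, ‖f l * Real.exp (ε * l)‖ ≤ f l * Real.exp (ν / 2 * l) :=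
    fun ε hε l => by
      rw [Real.norm_of_nonneg (mul_nonneg (hf0 l) (Real.exp_pos _).le)]
      exact mul_le_mul_of_nonneg_left (Real.exp_le_exp.2
        (mul_le_mul_of_nonneg_right hε.le (Nat.cast_nonneg l))) (hf0 l)
  have hev : ∀ᶠ ε in 𝓝[>] (0 : ℝ), ε < ν / 2 := nhdsWithin_le_nhds (Iio_mem_nhds (half_pos hν))
  have h4 : Tendsto (fun ε : ℝ => ∑' l, f l * Real.exp (ε * l)) (𝓝[>] 0) (𝓝 (∑' l, f l)) := by
    refine tendsto_tsum_of_dominated_convergence hb (fun l => ?_) (hev.mono hle)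
    have : Continuous fun ε : ℝ => f l * Real.exp (ε * l) := by fun_prop
    simpa using (this.tendsto 0).mono_left nhdsWithin_le_nhds
  obtain ⟨ε, ⟨h5, h6⟩, hε⟩ := (((h4.eventually (Iio_mem_nhds h3)).and hev).and
    self_mem_nhdsWithin).exists
  replace hε : 0 < ε := hε
  set θ := ∑' l, f l * Real.exp (ε * l) with hθ
  replace h5 : θ < 1 := h5
  have hεs : Summable fun l : ℕ => f l * Real.exp (ε * l) := Summable.of_norm_bounded hb (hle ε h6)
  have hexp : ∀ n : ℕ, C * Real.exp (-ν * n) ≤ C * Real.exp (-ε * n) := fun n =>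
    mul_le_mul_of_nonneg_left (Real.exp_le_exp.2
      (mul_le_mul_of_nonneg_right (by linarith) (Nat.cast_nonneg n))) hC0
  have hsplit : ∀ n l : ℕ, l < n →
      Real.exp (-ε * (n - l : ℕ)) = Real.exp (ε * l) * Real.exp (-ε * n) := fun n l hl => by
    rw [← Real.exp_add, Nat.cast_sub hl.le]; congr 1; ring
  set A := C / (1 - θ) with hA
  have hA0 : 0 ≤ A := div_nonneg hC0 (by linarith)
  have h7 : ∀ n u, 1 ≤ n → |tR n u| ≤ A * Real.exp (-ε * n) := by
    intro n
    induction n using Nat.strong_induction_on with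
    | _ n ih =>
      intro u hn
      have k1 : |bR n u| ≤ C * Real.exp (-ε * n) := by
        rw [abs_of_nonneg (hbR.nonneg n u)]
        refine (hbR.decay n u).trans (le_trans (mul_le_mul_of_nonneg_left
          (Real.exp_le_exp.2 ?_) hC0) (hexp n))
        nlinarith [norm_nonneg u]
      have k2 : |kconv (hk p) tR n u| ≤ θ * (A * Real.exp (-ε * n)) := by
        refine (abs_sum_le_sum_abs _ _).trans (le_trans (sum_le_sum (g := fun l =>
          f l * Real.exp (ε * l) * (A * Real.exp (-ε * n))) fun l hl => ?_) ?_)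
        · have hl' := mem_Ioo.1 hl
          have k3 := ((Equiv.subRight u).hasSum_iff.2 (hps l).1.hasSum).mul_right
            (A * Real.exp (-ε * (n - l : ℕ)))
          rw [← Real.norm_eq_abs]
          refine (tsum_of_norm_bounded k3 fun w => ?_).trans (le_of_eq ?_)
          · rw [Real.norm_eq_abs, abs_mul, hk, abs_of_nonneg (hp0 _ _)]
            exact mul_le_mul_of_nonneg_left (ih _ (by omega) w (by omega)) (hp0 _ _)
          · rw [hsplit n l hl'.2]; ring
        · rw [← sum_mul]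
          exact mul_le_mul_of_nonneg_right (hεs.sum_le_tsum _ fun l _ =>
            mul_nonneg (hf0 l) (Real.exp_pos _).le) (by positivity)
      rw [ht1 n u hn]
      refine (abs_add_le _ _).trans ((add_le_add k1 k2).trans (le_of_eq ?_))
      have : 1 - θ ≠ 0 := by linarith
      rw [hA]
      field_simp
      ring
  have hS := B5.summable_exp_norm hν D
  set S := ∑' u : Tr D, Real.exp (-ν * ‖u‖) with hS'
  have hS0 : 0 ≤ S := tsum_nonneg fun u => (Real.exp_pos _).le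
  have hw : Summable fun l : ℕ => Real.exp (-(ν / 2) * l) := by
    simpa using B5.summable_weight (half_pos hν) le_rfl
  refine ⟨C + (∑' l : ℕ, Real.exp (-(ν / 2) * l)) * (C * S * A), ε, hε, fun n hn => ?_⟩
  rw [ht2 n hn, add_mul, mul_assoc]
  refine add_le_add ((herr n).2.trans (hexp n)) (le_trans (sum_le_sum (g := fun l : ℕ =>
    Real.exp (-(ν / 2) * l) * (C * S * A * Real.exp (-ε * n))) fun l hl => ?_) ?_)
  · have hl' := mem_Ioo.1 hl
    have k3 := hS.hasSum.mul_left (C * Real.exp (-ν * l) * (A * Real.exp (-ε * (n - l : ℕ))))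
    refine (Real.le_norm_self _).trans ((tsum_of_norm_bounded k3 fun w => ?_).trans ?_)
    · rw [Real.norm_eq_abs, abs_mul, abs_of_nonneg (hbL.nonneg _ _)]
      refine (mul_le_mul (hbL.decay l w) (h7 _ w (by omega)) (abs_nonneg _) (by positivity)).trans
        (le_of_eq ?_)
      rw [mul_add, Real.exp_add]
      ring
    · have k4 : Real.exp (-ν * l) * Real.exp (ε * l) ≤ Real.exp (-(ν / 2) * l) := by
        rw [← Real.exp_add, Real.exp_le_exp]
        nlinarith [Nat.cast_nonneg (α := ℝ) l]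
      have k5 := mul_le_mul_of_nonneg_right k4
        (by positivity : 0 ≤ C * S * A * Real.exp (-ε * n))
      rw [hsplit n l hl'.2]
      linarith
  · rw [← sum_mul]
    exact mul_le_mul_of_nonneg_right (hw.sum_le_tsum _ fun l _ => (Real.exp_pos _).le)
      (by positivity)

end

end Pool.Agent.MP_48a2f9_mp

end MrgPart3

-- ======== part 4: formerly Pool.Agent.MP_48a2f9_mp.LLT2
section MrgPart4

/-! Fourier representation and Gaussian integrals. -/

open Finset Filter Topology Real MeasureTheory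

namespace Pool.Agent.MP_48a2f9_mp.LLT

noncomputable section

variable {D : ℕ} {p : ℕ → Tr D → ℝ} {M : ℕ} {C ν : ℝ}

/-- the fundamental cube -/
def Bx (D : ℕ) : Set (Fin D → ℝ) := Metric.closedBall 0 π

lemma mem_Bx {k : Fin D → ℝ} : k ∈ Bx D ↔ ‖k‖ ≤ π := mem_closedBall_zero_iff

lemma meas_Bx : MeasurableSet (Bx D) := Metric.isClosed_closedBall.measurableSet

lemma intOn {φ : (Fin D → ℝ) → ℝ} (h : Continuous φ) : IntegrableOn φ (Bx D) :=
  h.continuousOn.integrableOn_compact (isCompact_closedBall _ _)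

lemma int_const (a : ℝ) : ∫ _ in Bx D, a = (2 * π) ^ D * a := by
  rw [setIntegral_const, Measure.real, Bx, Real.volume_pi_closedBall _ pi_pos.le,
    ENNReal.toReal_ofReal (by positivity), Fintype.card_fin, smul_eq_mul]

lemma orth (u : Tr D) : ∫ k in Bx D, cos (dot k u) = if u = 0 then (2 * π) ^ D else 0 := by
  split_ifs with hu
  · simp only [hu, dot_zero, cos_zero, int_const, mul_one]
  obtain ⟨i, hi⟩ := Function.ne_iff.1 hu
  have hc : Continuous fun k : Fin D → ℝ => ∏ j, Complex.exp (Complex.I * u j * k j) := by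
    fun_prop
  have e : ∀ k : Fin D → ℝ, cos (dot k u) = RCLike.re (∏ j, Complex.exp (Complex.I * u j * k j)) :=
    fun k => by
      rw [← Complex.exp_sum, RCLike.re_to_complex, ← Complex.exp_ofReal_mul_I_re]
      congr 2
      simp only [dot]; push_cast; rw [sum_mul]
      exact sum_congr rfl fun j _ => by ring
  simp_rw [e]
  rw [Bx, integral_re (hc.continuousOn.integrableOn_compact (isCompact_closedBall _ _)),
    closedBall_pi _ pi_pos.le, volume_pi, Measure.restrict_pi_pi,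
    integral_fintype_prod_eq_prod (fun j (x : ℝ) => Complex.exp (Complex.I * u j * x)),
    prod_eq_zero (mem_univ i), map_zero]
  rw [Pi.zero_apply, Real.closedBall_eq_Icc, integral_Icc_eq_integral_Ioc,
    ← intervalIntegral.integral_of_le (by linarith [pi_pos]),
    integral_exp_mul_complex (by simpa using hi), div_eq_zero_iff, sub_eq_zero,
    Complex.exp_eq_exp_iff_exists_int]
  exact Or.inl ⟨u i, by push_cast; ring⟩

lemma av_cos (hp : HomOK p M C ν) (k : Fin D → ℝ) (l : ℕ) (u : Tr D) :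
    av p M l (fun w => cos (dot k (u - w))) = ah p M k l * cos (dot k u) := by
  have h0 : av p M l (fun w => sin (dot k w)) = 0 := by
    have := (Equiv.neg (Tr D)).tsum_eq fun w => p l w * sin (dot k w)
    simp only [Equiv.neg_apply, hp.symm, dot_neg, sin_neg, mul_neg, tsum_neg, tsum_p hp] at this
    linarith
  rw [← add_zero (_ * _), ← zero_mul (sin (dot k u)), ← h0, ah, av, av, av, sum_mul, sum_mul,
    ← sum_add_distrib]
  exact sum_congr rfl fun w _ => by rw [dot_sub, cos_sub]; ring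

lemma continuous_ren (hp : HomOK p M C ν) (n : ℕ) : Continuous fun k => ren (ah p M k) n := by
  induction n using Nat.strong_induction_on with
  | _ n ih =>
    rcases Nat.eq_zero_or_pos n with rfl | hn
    · simp only [ren_zero (ah_zero hp _)]; exact continuous_const
    simp only [ren_Ioc (ah_zero hp _) hn]
    refine continuous_finsetSum _ fun l hl => Continuous.mul ?_
      (ih _ (by have := mem_Ioc.1 hl; omega))
    unfold ah av; fun_prop

theorem fourier (hp : HomOK p M C ν) {g : ℕ → Tr D → ℝ} (hg : IsG p g) (n : ℕ) (u : Tr D) :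
    g n u = ((2 * π) ^ D)⁻¹ * ∫ k in Bx D, ren (ah p M k) n * cos (dot k u) := by
  induction n using Nat.strong_induction_on generalizing u with
  | _ n ih =>
    rcases Nat.eq_zero_or_pos n with rfl | hn
    · simp only [ren_zero (ah_zero hp _), one_mul, orth, hg.1]
      split_ifs
      · rw [inv_mul_cancel₀ (by positivity)]
      · rw [mul_zero]
    have hc := continuous_ren hp
    have ha : ∀ l, Continuous fun k => ah p M k l := fun l => by unfold ah av; fun_prop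
    simp only [ren_Ioc (ah_zero hp _) hn, sum_mul]
    rw [hg.2 n u hn, integral_finsetSum _ fun l _ => intOn (by fun_prop), mul_sum]
    refine sum_congr rfl fun l hl => ?_
    have e : ∀ k, ah p M k l * ren (ah p M k) (n - l) * cos (dot k u) = ∑ w ∈ bx 0 (M * l),
        p l w * (ren (ah p M k) (n - l) * cos (dot k (u - w))) := fun k => by
      rw [mul_right_comm, ← av_cos hp, av, sum_mul]
      exact sum_congr rfl fun w _ => by ring
    simp only [e]
    rw [tsum_p hp, av, integral_finsetSum _ fun l _ => intOn (by fun_prop), mul_sum]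
    refine sum_congr rfl fun w _ => ?_
    rw [ih _ (by have := mem_Ioc.1 hl; omega), integral_const_mul]; ring

lemma gauss {c : ℝ} (hc : 0 < c) (i : ℕ) :
    Integrable fun k : Fin D → ℝ => (‖k‖ ^ 2) ^ i * exp (-(c * ‖k‖ ^ 2)) := by
  have h1 := (Integrable.fintype_prod (ι := Fin D) fun _ =>
    integrable_exp_neg_mul_sq (show 0 < c / 2 / (D + 1) by positivity)).const_mul
      (i.factorial / (c / 2) ^ i)
  refine h1.mono' (by fun_prop) (Eventually.of_forall fun k => ?_)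
  have h2 := pow_div_factorial_le_exp (c / 2 * ‖k‖ ^ 2) (by positivity) i
  rw [div_le_iff₀ (by positivity), mul_pow] at h2
  have h3 : ∑ j, k j ^ 2 ≤ (D + 1) * ‖k‖ ^ 2 := by
    refine (sum_le_sum fun j _ => show _ ≤ ‖k‖ ^ 2 from ?_).trans ?_
    · rw [← sq_abs]; gcongr; exact norm_le_pi_norm k j
    · simp only [sum_const, card_univ, Fintype.card_fin, nsmul_eq_mul]; gcongr; linarith
  rw [norm_of_nonneg (by positivity), ← exp_sum, ← mul_sum, div_mul_eq_mul_div,
    le_div_iff₀ (by positivity)]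
  calc _ = (c / 2) ^ i * (‖k‖ ^ 2) ^ i * exp (-(c * ‖k‖ ^ 2)) := by ring
    _ ≤ exp (c / 2 * ‖k‖ ^ 2) * i.factorial * exp (-(c * ‖k‖ ^ 2)) := by gcongr
    _ = i.factorial * exp (c / 2 * ‖k‖ ^ 2 + -(c * ‖k‖ ^ 2)) := by rw [exp_add]; ring
    _ ≤ _ := by
      gcongr
      have := mul_le_mul_of_nonneg_left h3 (show 0 ≤ c / 2 / (D + 1) by positivity)
      rw [← mul_assoc, div_mul_cancel₀ _ (by positivity)] at this
      linarith

lemma rpw_pos (a : ℝ) (n : ℕ) : 0 < rpw a n := by unfold rpw; positivity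

lemma rpw_add (a : ℝ) (j n : ℕ) : rpw (a + j) n = (((n : ℝ) + 1) ^ j)⁻¹ * rpw a n := by
  rw [rpw, rpw, neg_add, rpow_add (by positivity), rpow_neg (by positivity) j, rpow_natCast,
    mul_comm]

lemma exp_le_rpw (a : ℝ) {ε : ℝ} (hε : 0 < ε) :
    ∃ K, 0 < K ∧ ∀ n : ℕ, exp (-ε * n) ≤ K * rpw a n := by
  obtain ⟨K, hK0, hK⟩ := poly_exp ⌈a⌉₊ zero_le_one hε
  refine ⟨K, hK0, fun n => ?_⟩
  have h1 : (1 : ℝ) ≤ n + 1 := by linarith [(Nat.cast_nonneg n : (0 : ℝ) ≤ n)]
  have h2 := rpow_le_rpow_of_exponent_le h1 (Nat.le_ceil a)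
  rw [rpow_natCast] at h2
  rw [rpw, rpow_neg (by positivity), neg_mul, exp_neg, ← div_eq_mul_inv,
    le_div_iff₀ (by positivity), inv_mul_le_iff₀ (exp_pos _), mul_comm]
  exact h2.trans (by simpa using hK n)

lemma scale (F : (Fin D → ℝ) → ℝ) (n : ℕ) :
    ∫ k, F (√((n : ℝ) + 1) • k) = rpw (D / 2) n * ∫ k, F k := by
  rw [Measure.integral_comp_smul, abs_of_nonneg (by positivity), smul_eq_mul, rpw,
    rpow_neg (by positivity), sqrt_eq_rpow, ← rpow_natCast, ← rpow_mul (by positivity)]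
  congr 3; simp; ring

theorem laplace (j : ℕ) {c ε : ℝ} (hc : 0 < c) (hε : 0 < ε) : ∃ K, 0 < K ∧
    ∀ (Q ψ φ : (Fin D → ℝ) → ℝ) (A : ℝ) (n : ℕ), Continuous Q →
      (∀ (t : ℝ) k, Q (t • k) = t ^ 2 * Q k) → (∀ k, c * ‖k‖ ^ 2 ≤ Q k) → Continuous ψ →
      (∀ (t : ℝ) k, ψ (t • k) = (t ^ 2) ^ j * ψ k) → (∀ k, |ψ k| ≤ A * (‖k‖ ^ 2) ^ j) →
      Continuous φ → 0 ≤ A →
      (∀ k, ‖k‖ ≤ π → |φ k - ψ k * exp (-((n + 1) * Q k))| ≤ A * (((‖k‖ ^ 2) ^ (j + 1) +
        (n + 1) * (‖k‖ ^ 2) ^ (j + 2)) * exp (-(c * ((n + 1) * ‖k‖ ^ 2))) + exp (-ε * n))) →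
      |(∫ k in Bx D, φ k) - (∫ k, ψ k * exp (-Q k)) * rpw (D / 2 + j) n|
        ≤ K * A * rpw (D / 2 + j + 1) n := by
  obtain ⟨K, hK0, hK⟩ := exp_le_rpw (D / 2 + j + 1) hε
  set H : (Fin D → ℝ) → ℝ := fun k => (‖k‖ ^ 2) ^ (j + 1) * exp (-(c * ‖k‖ ^ 2))
    + (‖k‖ ^ 2) ^ (j + 2) * exp (-(c * ‖k‖ ^ 2)) with hH
  have hHi : Integrable H := (gauss hc _).add (gauss hc _)
  have hH0 : 0 ≤ ∫ k, H k := integral_nonneg fun k => by positivity
  refine ⟨(∫ k, H k) + (2 * π) ^ D * K, by positivity,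
    fun Q ψ φ A n cQ hQ lo cψ hψ bψ cφ hA hb => ?_⟩
  set m : ℝ := n + 1 with hm
  have m0 : 0 < m := by positivity
  have sm : √m ^ 2 = m := sq_sqrt m0.le
  have nm : ∀ k : Fin D → ℝ, ‖√m • k‖ ^ 2 = m * ‖k‖ ^ 2 := fun k => by
    rw [norm_smul, mul_pow, norm_of_nonneg (sqrt_nonneg _), sm]
  have b1 : ∀ k, |ψ k * exp (-(m * Q k))| ≤ A * ((‖k‖ ^ 2) ^ j * exp (-(c * m * ‖k‖ ^ 2))) :=
    fun k => by
      rw [abs_mul, abs_of_pos (exp_pos _), ← mul_assoc]
      exact mul_le_mul (bψ k) (exp_le_exp.2 (by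
        linarith [mul_le_mul_of_nonneg_left (lo k) m0.le])) (exp_pos _).le (by positivity)
  have i1 : Integrable fun k => ψ k * exp (-(m * Q k)) :=
    ((gauss (mul_pos hc m0) j).const_mul A).mono' (by fun_prop) (Eventually.of_forall b1)
  have e1 : (∫ k, ψ k * exp (-Q k)) * rpw (D / 2 + j) n = ∫ k, ψ k * exp (-(m * Q k)) := by
    rw [rpw_add, mul_comm, mul_assoc, ← scale, ← integral_const_mul]
    refine integral_congr_ae (Eventually.of_forall fun k => ?_)
    simp only [hQ, hψ, ← hm, sm]; field_simp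
  have e2 : ∀ k, (m ^ (j + 1))⁻¹ * H (√m • k) = ((‖k‖ ^ 2) ^ (j + 1) + m * (‖k‖ ^ 2) ^ (j + 2))
      * exp (-(c * (m * ‖k‖ ^ 2))) := fun k => by
    simp only [hH, nm]; field_simp; ring_nf
  have i2 := ((hHi.comp_smul (sqrt_pos.2 m0).ne').const_mul (m ^ (j + 1))⁻¹).const_mul A
  have i3 := (intOn (D := D) (continuous_const (y := A * exp (-ε * n)))).integrable_indicator
    meas_Bx
  rw [e1, ← integral_indicator meas_Bx, ← integral_sub ((intOn cφ).integrable_indicator meas_Bx) i1,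
    ← norm_eq_abs]
  refine (norm_integral_le_of_norm_le (i2.add i3) (Eventually.of_forall fun k => ?_)).trans ?_
  · rw [Pi.add_apply, e2, norm_eq_abs]
    by_cases hk : k ∈ Bx D
    · rw [Set.indicator_of_mem hk, Set.indicator_of_mem hk, ← mul_add]
      exact hb k (mem_Bx.1 hk)
    · rw [Set.indicator_of_notMem hk, Set.indicator_of_notMem hk, zero_sub, abs_neg, add_zero]
      have h1 : 1 ≤ ‖k‖ ^ 2 :=
        one_le_pow₀ (by linarith [not_le.1 (mt mem_Bx.2 hk), pi_gt_three])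
      refine (b1 k).trans ?_
      rw [mul_assoc c]
      gcongr
      exact (pow_le_pow_right₀ h1 j.le_succ).trans (le_add_of_nonneg_right (by positivity))
  · simp only [Pi.add_apply]
    rw [integral_add i2 i3, integral_const_mul, integral_const_mul, hm, scale,
      integral_indicator meas_Bx, int_const, ← mul_assoc _ (rpw _ _), ← rpw_add,
      show (D : ℝ) / 2 + (j + 1 : ℕ) = D / 2 + j + 1 by push_cast; ring]
    have := mul_le_mul_of_nonneg_left (mul_le_mul_of_nonneg_left (hK n) hA)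
      (show 0 ≤ (2 * π) ^ D by positivity)
    linarith

lemma tendsto_of_rpw {a : ℕ → ℝ} {γ K s : ℝ} (h : ∀ n, |a n - γ * rpw s n| ≤ K * rpw (s + 1) n) :
    Tendsto (fun n => a n / rpw s n) atTop (𝓝 γ) := by
  refine tendsto_iff_norm_sub_tendsto_zero.2 (squeeze_zero (fun _ => norm_nonneg _) (fun n => ?_)
    (by simpa using (tendsto_one_div_add_atTop_nhds_zero_nat (𝕜 := ℝ)).const_mul K))
  have h0 := rpw_pos s n
  have := h n
  rw [← Nat.cast_one (R := ℝ), rpw_add, pow_one, ← mul_assoc, ← div_le_iff₀ h0] at this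
  rwa [norm_eq_abs, show a n / rpw s n - γ = (a n - γ * rpw s n) / rpw s n by field_simp, abs_div,
    abs_of_pos h0]

end

end Pool.Agent.MP_48a2f9_mp.LLT

end MrgPart4

-- ======== part 5: formerly Pool.Agent.MP_48a2f9_mp.LLT3
section MrgPart5

/-! Pointwise Gaussian approximation and its integrated forms. -/

open Finset Filter Topology Real MeasureTheory

namespace Pool.Agent.MP_48a2f9_mp.LLT

noncomputable section

variable {D : ℕ} {G : (Fin D → ℝ) → ℕ → ℝ} {Q : (Fin D → ℝ) → ℝ} {c K ε r0 : ℝ}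

lemma exp_neg_taylor {x : ℝ} (hx : 0 ≤ x) : |exp (-x) - 1 + x| ≤ x ^ 2 := by
  have h1 := add_one_le_exp (-x)
  have h2 : exp (-x) ≤ 1 - x + x ^ 2 := by
    rw [exp_neg, inv_le_iff_one_le_mul₀ (exp_pos _)]
    have h3 : 0 ≤ 1 - x + x ^ 2 := by nlinarith [sq_nonneg (x - 1)]
    have h4 := mul_le_mul_of_nonneg_left (add_one_le_exp x) h3
    have h5 : 0 ≤ x ^ 3 := by positivity
    linarith
  rw [abs_le]; constructor <;> linarith [sq_nonneg x]

/-- the approximation used below -/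
def Core (G : (Fin D → ℝ) → ℕ → ℝ) (Q : (Fin D → ℝ) → ℝ) (c L ε r0 : ℝ) : Prop :=
  ∀ k, ‖k‖ ≤ π → ∃ r l : ℝ, |l - 1| ≤ L * ‖k‖ ^ 2 ∧ |l - 1 + Q k| ≤ L * (‖k‖ ^ 2) ^ 2 ∧ ∀ n : ℕ,
    |G k n - r * l ^ n| ≤ L * exp (-ε * n) ∧ 0 ≤ r * l ^ n ∧
    r * l ^ n ≤ L * exp (-(c * ((n + 1) * ‖k‖ ^ 2))) ∧
    r0 * exp (-((n + 1) * Q k)) ≤ L * exp (-(c * ((n + 1) * ‖k‖ ^ 2))) ∧
    |r * l ^ n - r0 * exp (-((n + 1) * Q k))|
      ≤ L * ((‖k‖ ^ 2 + (n + 1) * (‖k‖ ^ 2) ^ 2) * exp (-(c * ((n + 1) * ‖k‖ ^ 2))))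

lemma Pole.core (h : Pole G Q c K ε r0) : ∃ L, 1 ≤ L ∧ r0 ≤ L ∧ (∀ k, Q k ≤ L * ‖k‖ ^ 2) ∧
    Core G Q c L ε r0 := by
  have hK := h.one_le
  have hc := h.c_pos
  obtain ⟨E, hE, hE1⟩ : ∃ E, E = exp (c * π ^ 2) ∧ 1 ≤ E := ⟨_, rfl, one_le_exp (by positivity)⟩
  have K1 : K ≤ K ^ 2 := le_self_pow₀ hK (by norm_num)
  have K2 : K ^ 2 ≤ K ^ 3 := pow_le_pow_right₀ hK (by norm_num)
  have E1 : E ≤ E ^ 2 := le_self_pow₀ hE1 (by norm_num)
  have L1 : K ^ 3 ≤ K ^ 3 * E := le_mul_of_one_le_right (by positivity) hE1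
  have L2 : K ^ 3 * E ≤ K ^ 3 * E ^ 2 := by gcongr
  obtain ⟨L, hL, hL2, hL3⟩ : ∃ L, 2 * (K ^ 3 * E ^ 2) ≤ L ∧ K + K * π ^ 2 ≤ L ∧ K ≤ L := by
    have : 0 ≤ K * π ^ 2 := by positivity
    exact ⟨2 * (K ^ 3 * E ^ 2) + (K + K * π ^ 2), by linarith, by linarith, by linarith⟩
  refine ⟨L, by linarith, h.r0_le.trans hL3, fun k => (h.hi k).trans (by gcongr), fun k hk => ?_⟩
  obtain ⟨r, l, r1, r2, l1, l2, l3, r3, hG⟩ := h.pole k hk
  have lo := h.lo k
  have hi := h.hi k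
  have hx : ‖k‖ ^ 2 ≤ π ^ 2 := by gcongr
  have x0 : 0 ≤ ‖k‖ ^ 2 := by positivity
  generalize ‖k‖ ^ 2 = x at *
  have cx : 0 ≤ c * x := by positivity
  have Q0 : 0 ≤ Q k := cx.trans lo
  have hq : exp (-Q k) ≤ exp (-(c * x)) := exp_le_exp.2 (by linarith)
  have hp : ∀ (n : ℕ) {y : ℝ}, 0 ≤ y → y ≤ exp (-(c * x)) →
      y ^ n ≤ E * exp (-(c * ((n + 1) * x))) := fun n y y0 y1 => by
    rw [hE, ← exp_add]
    refine (pow_le_pow_left₀ y0 y1 n).trans ?_
    rw [← exp_nat_mul, exp_le_exp]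
    linarith [mul_le_mul_of_nonneg_left hx hc.le]
  refine ⟨r, l, ?_, l3.trans (by gcongr), fun n => ⟨(hG n).trans (by gcongr), by positivity,
    ?_, ?_, ?_⟩⟩
  · have := mul_le_mul_of_nonneg_left (mul_le_mul_of_nonneg_right hx x0) (by linarith : 0 ≤ K)
    have h2 := mul_le_mul_of_nonneg_right hL2 x0
    rw [abs_le] at l3 ⊢
    constructor <;> linarith [l3.1, l3.2, mul_nonneg (by linarith : 0 ≤ K) x0]
  · calc _ ≤ K * (E * exp (-(c * ((n + 1) * x)))) := by gcongr; exact hp n l1 l2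
      _ = K * E * exp (-(c * ((n + 1) * x))) := by ring
      _ ≤ _ := by gcongr; linarith [mul_le_mul_of_nonneg_right (K1.trans K2) (by linarith : 0 ≤ E)]
  · refine mul_le_mul (h.r0_le.trans hL3) (exp_le_exp.2 ?_) (exp_pos _).le (by linarith)
    linarith [mul_le_mul_of_nonneg_left lo (show (0 : ℝ) ≤ n + 1 by positivity)]
  obtain ⟨e, he⟩ : ∃ e, e = exp (-(c * ((n + 1) * x))) := ⟨_, rfl⟩
  have e0 : 0 < e := he ▸ exp_pos _
  have q0 := (exp_pos (-Q k)).le
  have eq : exp (-((n + 1) * Q k)) = exp (-Q k) ^ n * exp (-Q k) := by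
    rw [← exp_nat_mul, ← exp_add]; congr 1; ring
  have s0 : exp (-((n + 1) * Q k)) ≤ e := he ▸ exp_le_exp.2 (by
    linarith [mul_le_mul_of_nonneg_left lo (show (0 : ℝ) ≤ n + 1 by positivity)])
  have s1 : |l - exp (-Q k)| ≤ 2 * K ^ 2 * x ^ 2 := by
    have t1 := exp_neg_taylor Q0
    have t2 : Q k ^ 2 ≤ (K * x) ^ 2 := by gcongr
    have t3 : K * x ^ 2 ≤ K ^ 2 * x ^ 2 := by gcongr
    rw [abs_le] at t1 l3 ⊢
    constructor <;> linarith [t1.1, t1.2, l3.1, l3.2]
  have s2 : |l ^ n - exp (-Q k) ^ n| ≤ 2 * K ^ 2 * x ^ 2 * (n + 1) * (E ^ 2 * e) := by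
    refine (abs_pow_sub_pow_le ..).trans (mul_le_mul (by gcongr; linarith) ?_ (by positivity)
      (by positivity))
    rw [abs_of_nonneg l1, abs_of_nonneg q0]
    refine (hp _ (le_max_of_le_left l1) (max_le l2 hq)).trans ?_
    rw [sq, mul_assoc]
    refine mul_le_mul_of_nonneg_left ?_ (by linarith)
    rw [hE, he, ← exp_add, exp_le_exp]
    have : (n : ℝ) ≤ (n - 1 : ℕ) + 1 := by exact_mod_cast (by omega)
    linarith [mul_le_mul_of_nonneg_left hx hc.le, mul_le_mul_of_nonneg_right this cx]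
  have s3 : |exp (-Q k) ^ n - exp (-((n + 1) * Q k))| ≤ E * e * (K * x) := by
    rw [eq, ← mul_one_sub, abs_mul, abs_of_nonneg (by positivity),
      abs_of_nonneg (by linarith [exp_le_one_iff.2 (neg_nonpos.2 Q0)])]
    exact mul_le_mul (he ▸ hp n q0 hq) (by linarith [add_one_le_exp (-Q k)])
      (by linarith [exp_le_one_iff.2 (neg_nonpos.2 Q0)]) (by positivity)
  rw [← he, show r * l ^ n - r0 * exp (-((n + 1) * Q k)) = r * (l ^ n - exp (-Q k) ^ n)
    + r * (exp (-Q k) ^ n - exp (-((n + 1) * Q k))) + (r - r0) * exp (-((n + 1) * Q k)) by ring]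
  refine (abs_add_three _ _ _).trans ?_
  rw [abs_mul, abs_mul, abs_mul, abs_of_nonneg r1, abs_of_pos (exp_pos _)]
  calc _ ≤ K * (2 * K ^ 2 * x ^ 2 * (n + 1) * (E ^ 2 * e)) + K * (E * e * (K * x))
        + K * x * e := by gcongr
    _ = 2 * (K ^ 3 * E ^ 2) * ((n + 1) * x ^ 2 * e) + (K ^ 2 * E + K) * (x * e) := by ring
    _ ≤ L * ((n + 1) * x ^ 2 * e) + L * (x * e) := by
        gcongr
        linarith [mul_le_mul_of_nonneg_right K2 (by linarith : 0 ≤ E)]
    _ = _ := by ring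

variable {L : ℝ}

lemma Core.b0 (h : Core G Q c L ε r0) (hL : 1 ≤ L) (hr : 0 ≤ r0) (n : ℕ) {k : Fin D → ℝ}
    (hk : ‖k‖ ≤ π) {θ B : ℝ} (hB : 0 ≤ B) (hθ : θ ^ 2 ≤ B * ‖k‖ ^ 2) :
    |G k n * cos θ - r0 * exp (-((n + 1) * Q k))| ≤ L * (1 + B) * (((‖k‖ ^ 2) ^ 1 +
      (n + 1) * (‖k‖ ^ 2) ^ 2) * exp (-(c * ((n + 1) * ‖k‖ ^ 2))) + exp (-ε * n)) := by
  obtain ⟨r, l, -, -, h⟩ := h k hk
  obtain ⟨h1, -, -, h2, h3⟩ := h n
  have x0 : 0 ≤ ‖k‖ ^ 2 := by positivity
  have t0 : 0 ≤ r0 * exp (-((n + 1) * Q k)) := by positivity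
  have c1 := abs_cos_le_one θ
  have c2 : |cos θ - 1| ≤ B * ‖k‖ ^ 2 := by
    rw [abs_sub_comm, abs_of_nonneg (by linarith [cos_le_one θ])]
    linarith [one_sub_sq_div_two_le_cos (x := θ), sq_nonneg θ]
  have e0 := exp_pos (-(c * ((n + 1) * ‖k‖ ^ 2)))
  have e1 := exp_pos (-ε * n)
  generalize ‖k‖ ^ 2 = x at *
  generalize r0 * exp (-((n + 1) * Q k)) = T at *
  generalize exp (-(c * ((n + 1) * x))) = e at *
  generalize exp (-ε * n) = e' at *
  rw [show G k n * cos θ - T = (G k n - r * l ^ n) * cos θ + (r * l ^ n - T) * cos θ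
    + T * (cos θ - 1) by ring]
  refine (abs_add_three _ _ _).trans ?_
  rw [abs_mul, abs_mul, abs_mul, abs_of_nonneg t0]
  calc _ ≤ L * e' * 1 + L * ((x + (n + 1) * x ^ 2) * e) * 1 + L * e * (B * x) := by gcongr
    _ ≤ _ := by
      have : 0 ≤ L * B * ((n + 1) * x ^ 2 * e + e') := by positivity
      linarith

lemma Core.b1 (h : Core G Q c L ε r0) (hL : 1 ≤ L) (hr : 0 ≤ r0) (n : ℕ) {k : Fin D → ℝ}
    (hk : ‖k‖ ≤ π) {θ B : ℝ} (hB : 0 ≤ B) (hθ : θ ^ 2 ≤ B * ‖k‖ ^ 2) :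
    |G k n * (1 - cos θ) - r0 * (θ ^ 2 / 2) * exp (-((n + 1) * Q k))|
      ≤ L * (2 + B + 3 * B ^ 2) * (((‖k‖ ^ 2) ^ 2 +
      (n + 1) * (‖k‖ ^ 2) ^ 3) * exp (-(c * ((n + 1) * ‖k‖ ^ 2))) + exp (-ε * n)) := by
  obtain ⟨r, l, -, -, h⟩ := h k hk
  obtain ⟨h1, -, -, h2, h3⟩ := h n
  have x0 : 0 ≤ ‖k‖ ^ 2 := by positivity
  have t0 : 0 ≤ r0 * exp (-((n + 1) * Q k)) := by positivity
  have c1 : |1 - cos θ| ≤ 2 := abs_le.2 ⟨by linarith [cos_le_one θ], by linarith [neg_one_le_cos θ]⟩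
  have c2 : |1 - cos θ| ≤ B * ‖k‖ ^ 2 := by
    rw [abs_of_nonneg (by linarith [cos_le_one θ])]
    linarith [one_sub_sq_div_two_le_cos (x := θ), sq_nonneg θ]
  have c3 : |1 - cos θ - θ ^ 2 / 2| ≤ 3 * (B * ‖k‖ ^ 2) ^ 2 := (cos_taylor θ).trans (by
    rw [show θ ^ 4 = (θ ^ 2) ^ 2 by ring]; gcongr)
  have e0 := exp_pos (-(c * ((n + 1) * ‖k‖ ^ 2)))
  have e1 := exp_pos (-ε * n)
  rw [mul_right_comm r0]
  generalize ‖k‖ ^ 2 = x at *
  generalize r0 * exp (-((n + 1) * Q k)) = T at *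
  generalize exp (-(c * ((n + 1) * x))) = e at *
  generalize exp (-ε * n) = e' at *
  rw [show G k n * (1 - cos θ) - T * (θ ^ 2 / 2) = (G k n - r * l ^ n) * (1 - cos θ)
    + (r * l ^ n - T) * (1 - cos θ) + T * (1 - cos θ - θ ^ 2 / 2) by ring]
  refine (abs_add_three _ _ _).trans ?_
  rw [abs_mul, abs_mul, abs_mul, abs_of_nonneg t0]
  calc _ ≤ L * e' * 2 + L * ((x + (n + 1) * x ^ 2) * e) * (B * x) + L * e * (3 * (B * x) ^ 2) := by
        gcongr
    _ ≤ _ := by
      have : 0 ≤ L * ((B + 3 * B ^ 2) * e' + 2 * (x ^ 2 + (n + 1) * x ^ 3) * e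
        + 3 * B ^ 2 * ((n + 1) * x ^ 3 * e)) := by positivity
      linarith

lemma exp_succ_le (hε : 0 < ε) (n i : ℕ) : exp (-ε * (n + i : ℕ)) ≤ exp (-ε * n) := by
  rw [exp_le_exp]; push_cast
  linarith [mul_nonneg hε.le (Nat.cast_nonneg (α := ℝ) i)]

lemma Core.b2 (h : Core G Q c L ε r0) (hL : 1 ≤ L) (hr : 0 ≤ r0) (hε : 0 < ε) (n : ℕ)
    {k : Fin D → ℝ} (hk : ‖k‖ ≤ π) :
    |G k (n + 1) - G k n - -(r0 * Q k) * exp (-((n + 1) * Q k))| ≤ 2 * L ^ 2 * (((‖k‖ ^ 2) ^ 2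
      + (n + 1) * (‖k‖ ^ 2) ^ 3) * exp (-(c * ((n + 1) * ‖k‖ ^ 2))) + exp (-ε * n)) := by
  obtain ⟨r, l, l1, l2, h⟩ := h k hk
  obtain ⟨h1, -, -, h2, h3⟩ := h n
  have h4 : _ ≤ L * exp (-ε * n) := (h (n + 1)).1.trans
    (mul_le_mul_of_nonneg_left (exp_succ_le hε n 1) (by linarith))
  have x0 : 0 ≤ ‖k‖ ^ 2 := by positivity
  have t0 : 0 ≤ r0 * exp (-((n + 1) * Q k)) := by positivity
  have e0 := exp_pos (-(c * ((n + 1) * ‖k‖ ^ 2)))
  have e1 := exp_pos (-ε * n)
  rw [neg_mul, mul_right_comm r0]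
  generalize ‖k‖ ^ 2 = x at *
  generalize r0 * exp (-((n + 1) * Q k)) = T at *
  generalize exp (-(c * ((n + 1) * x))) = e at *
  generalize exp (-ε * n) = e' at *
  rw [show G k (n + 1) - G k n - -(T * Q k) = ((G k (n + 1) - r * l ^ (n + 1))
    - (G k n - r * l ^ n)) + (r * l ^ n - T) * (l - 1) + T * (l - 1 + Q k) by ring]
  refine (abs_add_three _ _ _).trans ((add_le_add_left (add_le_add_left (abs_sub _ _) _) _).trans ?_)
  rw [abs_mul, abs_mul, abs_of_nonneg t0]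
  calc _ ≤ L * e' + L * e' + L * ((x + (n + 1) * x ^ 2) * e) * (L * x) + L * e * (L * x ^ 2) := by
        gcongr
    _ ≤ _ := by
      have : 0 ≤ L ^ 2 * ((n + 1) * x ^ 3 * e) := by positivity
      linarith [mul_le_mul_of_nonneg_right (le_self_pow₀ hL (two_ne_zero)) e1.le]

lemma Core.b3 (h : Core G Q c L ε r0) (hL : 1 ≤ L) (hε : 0 < ε) (n : ℕ)
    {k : Fin D → ℝ} (hk : ‖k‖ ≤ π) :
    |G k (n + 2) - 2 * G k (n + 1) + G k n - 0 * exp (-((n + 1) * Q k))|
      ≤ 4 * L ^ 3 * (((‖k‖ ^ 2) ^ 2 + (n + 1) * (‖k‖ ^ 2) ^ 3)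
        * exp (-(c * ((n + 1) * ‖k‖ ^ 2))) + exp (-ε * n)) := by
  obtain ⟨r, l, l1, -, h⟩ := h k hk
  obtain ⟨h1, t0, h2, -, -⟩ := h n
  have h4 : _ ≤ L * exp (-ε * n) := (h (n + 1)).1.trans
    (mul_le_mul_of_nonneg_left (exp_succ_le hε n 1) (by linarith))
  have h5 : _ ≤ L * exp (-ε * n) := (h (n + 2)).1.trans
    (mul_le_mul_of_nonneg_left (exp_succ_le hε n 2) (by linarith))
  have x0 : 0 ≤ ‖k‖ ^ 2 := by positivity
  have e0 := exp_pos (-(c * ((n + 1) * ‖k‖ ^ 2)))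
  have e1 := exp_pos (-ε * n)
  generalize ‖k‖ ^ 2 = x at *
  generalize exp (-(c * ((n + 1) * x))) = e at *
  generalize exp (-ε * n) = e' at *
  have s1 : r * l ^ n * (l - 1) ^ 2 ≤ L * e * (L * x) ^ 2 := by
    rw [← sq_abs (l - 1)]; gcongr
  have s2 : 0 ≤ r * l ^ n * (l - 1) ^ 2 := by positivity
  have s3 : 0 ≤ L ^ 3 * (x ^ 2 * e) := by positivity
  have s4 : 0 ≤ L ^ 3 * ((n + 1) * x ^ 3 * e) := by positivity
  have s5 := mul_le_mul_of_nonneg_right (le_self_pow₀ hL (three_ne_zero)) e1.le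
  rw [abs_le] at h1 h4 h5 ⊢
  rw [pow_succ] at h4
  rw [pow_add] at h5
  constructor <;> linarith [h1.1, h1.2, h4.1, h4.2, h5.1, h5.2]

end

end Pool.Agent.MP_48a2f9_mp.LLT

end MrgPart5

-- ======== part 6: formerly Pool.Agent.MP_48a2f9_mp.LLT
section MrgPart6

/-! The local limit estimates. -/

open Finset Filter Topology Real MeasureTheory

namespace Pool.Agent.MP_48a2f9_mp.LLT

noncomputable section

variable {D : ℕ} {G : (Fin D → ℝ) → ℕ → ℝ} {Q : (Fin D → ℝ) → ℝ} {c K ε r0 : ℝ}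

lemma Pole.int_pos (h : Pole G Q c K ε r0) (hD : 1 ≤ D) (j : ℕ) :
    0 < ∫ k, (‖k‖ ^ 2) ^ j * exp (-Q k) := by
  have := h.cont
  have : Nonempty (Fin D) := ⟨⟨0, hD⟩⟩
  refine integral_pos_of_integrable_nonneg_nonzero (x := fun _ => 1) (by fun_prop)
    ((gauss h.c_pos j).mono' (by fun_prop) (Eventually.of_forall fun k => ?_))
    (fun k => by positivity) (by simp)
  rw [norm_of_nonneg (by positivity)]
  gcongr; exact h.lo k

lemma dot_sq_le' (k : Fin D → ℝ) (u : Tr D) : dot k u ^ 2 ≤ (D * ‖u‖) ^ 2 * ‖k‖ ^ 2 := by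
  rw [← sq_abs]
  calc _ ≤ (D * (‖k‖ * ‖u‖)) ^ 2 := by gcongr; exact abs_dot_le k u
    _ = _ := by ring

lemma dot_sq_one (k : Fin 1 → ℝ) (u : Tr 1) : dot k u ^ 2 = ‖k‖ ^ 2 * ‖u‖ ^ 2 := by
  simp [dot, Pi.norm_def, mul_pow, Int.norm_eq_abs]

lemma mul_bound {I a b r s : ℝ} (hI : 0 < I) (h : |a - b * r| ≤ s) : |I * a - I * b * r| ≤ I * s := by
  rw [mul_assoc, ← mul_sub, abs_mul, abs_of_pos hI]; gcongr

theorem lLTStmt (hS : SerStmt) (hT : T6Stmt) : LLTStmt := by
  intro D p g M C ν hD hν hp hm hg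
  obtain ⟨Q, c, K, ε, r0, h⟩ := exists_pole hS hT hD hν hp hm
  obtain ⟨L, hL, hrL, hQL, co⟩ := h.core
  obtain ⟨K0, hK0, l0⟩ := laplace (D := D) 0 h.c_pos h.eps
  obtain ⟨K1, hK1, l1⟩ := laplace (D := D) 1 h.c_pos h.eps
  obtain ⟨K2, hK2, le⟩ := exp_le_rpw (D / 2) h.eps
  have hf := fourier hp hg
  have cG := continuous_ren hp
  have cQ := h.cont
  have hr := h.r0_pos
  have hD' : (1 : ℝ) ≤ D := by exact_mod_cast hD
  obtain ⟨I, hI⟩ : ∃ I, I = ((2 * π) ^ D)⁻¹ := ⟨_, rfl⟩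
  have I0 : 0 < I := by rw [hI]; positivity
  rw [← hI] at hf
  have f0 : ∀ n, g n 0 = I * ∫ k in Bx D, ren (ah p M k) n := fun n => by simpa using hf n 0
  obtain ⟨a, ha⟩ : ∃ a, a = I * ∫ k, r0 * exp (-Q k) := ⟨_, rfl⟩
  have a0 : 0 < a := by
    rw [ha, integral_const_mul]
    exact mul_pos I0 (mul_pos hr (by simpa using h.int_pos hD 0))
  have B1 : ∀ n u, |g n u - a * rpw (D / 2) n|
      ≤ I * K0 * L * D ^ 2 * (1 + ‖u‖ ^ 2) * rpw (D / 2 + 1) n := fun n u => by
    have t := mul_bound I0 (l0 Q (fun _ => r0) (fun k => ren (ah p M k) n * cos (dot k u))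
      (L * (1 + (D * ‖u‖) ^ 2)) n cQ h.hom h.lo continuous_const (by simp)
      (fun k => by
        rw [abs_of_pos hr, pow_zero, mul_one]
        exact hrL.trans (le_mul_of_one_le_right (by linarith) (by linarith [sq_nonneg (D * ‖u‖)])))
      (by fun_prop) (by positivity) fun k hk => co.b0 hL hr.le n hk (by positivity) (dot_sq_le' k u))
    rw [← hf, ← ha, Nat.cast_zero, add_zero] at t
    refine t.trans ?_
    have := rpw_pos (D / 2 + 1) n
    calc _ = I * K0 * L * (1 ^ 2 + D ^ 2 * ‖u‖ ^ 2) * rpw (D / 2 + 1) n := by ring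
      _ ≤ I * K0 * L * (D ^ 2 + D ^ 2 * ‖u‖ ^ 2) * rpw (D / 2 + 1) n := by gcongr
      _ = _ := by ring
  have B3 : ∀ (n : ℕ) u, g n u - g n 0 ≤ 2 * L * exp (-ε * n) := fun n u => by
    rw [hf n u, f0, ← mul_sub, ← integral_sub (intOn (by fun_prop)) (intOn (cG n))]
    refine (mul_le_mul_of_nonneg_left (setIntegral_mono_on (g := fun _ => 2 * L * exp (-ε * n))
      (intOn (by fun_prop)) (intOn continuous_const) meas_Bx fun k hk => ?_) I0.le).trans
      (le_of_eq ?_)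
    · obtain ⟨r, l, -, -, t⟩ := co k (mem_Bx.1 hk)
      obtain ⟨t1, t2, -⟩ := t n
      have t3 := mul_le_mul_of_nonneg_right (abs_le.1 t1).1
        (sub_nonneg.2 (cos_le_one (dot k u)))
      have t4 := mul_le_mul_of_nonneg_left (neg_one_le_cos (dot k u))
        (show 0 ≤ L * exp (-ε * n) by positivity)
      linarith [mul_nonneg t2 (sub_nonneg.2 (cos_le_one (dot k u)))]
    · rw [int_const, hI, inv_mul_cancel_left₀ (by positivity)]
  obtain ⟨A, hA⟩ : ∃ A, A = I * K0 * L * D ^ 2 := ⟨_, rfl⟩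
  have A0 : 0 < A := by rw [hA]; positivity
  rw [← hA] at B1
  have A1 : 0 < 2 * L * K2 := by positivity
  have A2 : 0 < I * (K1 * (4 * L ^ 3)) := by positivity
  refine ⟨a, A + a + 2 * L * K2 + 2 * L + I * (K1 * (4 * L ^ 3)), ε, a0, h.eps,
    fun n u => (B1 n u).trans ?_, fun n u => ?_, fun n u => (B3 n u).trans ?_, fun h1 => ?_⟩
  · have := rpw_pos (D / 2 + 1) n
    gcongr; linarith
  · have t1 := (abs_le.1 (B1 n 0)).2
    have t2 : rpw (D / 2 + 1) n ≤ rpw (D / 2) n := rpow_le_rpow_of_exponent_le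
      (by linarith [(Nat.cast_nonneg n : (0 : ℝ) ≤ n)]) (by linarith)
    have t3 := mul_le_mul_of_nonneg_left (le n) (show 0 ≤ 2 * L by linarith)
    have t4 := mul_le_mul_of_nonneg_left t2 A0.le
    have t5 := rpw_pos (D / 2) n
    rw [norm_zero] at t1
    linarith [B3 n u, mul_pos A2 t5, mul_pos (show 0 < L by linarith) t5]
  · gcongr; linarith
  subst h1
  rw [show ((1 : ℕ) : ℝ) / 2 + (1 : ℕ) = 3 / 2 by norm_num] at l1
  refine ⟨⟨I * (r0 / 2 * ∫ k, (‖k‖ ^ 2) ^ 1 * exp (-Q k)), mul_pos I0 (mul_pos (by linarith)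
    (h.int_pos hD 1)), fun u => tendsto_of_rpw (K := I * (K1 * (L * (2 + ‖u‖ ^ 2
      + 3 * (‖u‖ ^ 2) ^ 2)))) fun n => ?_⟩,
    ⟨I * ∫ k, -(r0 * Q k) * exp (-Q k), tendsto_of_rpw (K := I * (K1 * (2 * L ^ 2))) fun n => ?_⟩,
    fun n => ?_⟩
  · have t := mul_bound I0 (l1 Q (fun k => r0 * (dot k u ^ 2 / 2))
      (fun k => ren (ah p M k) n * (1 - cos (dot k u))) (L * (2 + ‖u‖ ^ 2 + 3 * (‖u‖ ^ 2) ^ 2)) n
      cQ h.hom h.lo (by fun_prop) (fun t k => by rw [dot_smul]; ring)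
      (fun k => by
        rw [abs_of_nonneg (by positivity), dot_sq_one, mul_assoc]
        gcongr
        have : 0 ≤ (2 + ‖u‖ ^ 2 / 2 + 3 * (‖u‖ ^ 2) ^ 2) * ‖k‖ ^ 2 := by positivity
        linarith)
      (by fun_prop) (by positivity) fun k hk => co.b1 hL hr.le n hk (by positivity)
        (by rw [dot_sq_one, mul_comm]))
    have e : ∫ k, r0 * (dot k u ^ 2 / 2) * exp (-Q k)
        = (r0 / 2 * ∫ k, (‖k‖ ^ 2) ^ 1 * exp (-Q k)) * ‖u‖ ^ 2 := by
      rw [← integral_const_mul, ← integral_mul_const]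
      exact integral_congr_ae (Eventually.of_forall fun k => by simp only [dot_sq_one]; ring)
    simp only [mul_sub, mul_one] at t
    rw [integral_sub (intOn (cG n)) (intOn (by fun_prop)), mul_sub, ← f0, ← hf, e,
      ← mul_assoc I] at t
    exact t.trans_eq (by ring)
  · have t := mul_bound I0 (l1 Q (fun k => -(r0 * Q k))
      (fun k => ren (ah p M k) (n + 1) - ren (ah p M k) n) (2 * L ^ 2) n
      cQ h.hom h.lo (by fun_prop) (fun t k => by rw [h.hom]; ring)
      (fun k => by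
        have t0 : 0 ≤ Q k := le_trans (by have := h.c_pos; positivity) (h.lo k)
        have t1 := mul_le_mul hrL (hQL k) t0 (by linarith)
        have : 0 ≤ L ^ 2 * ‖k‖ ^ 2 := by positivity
        rw [abs_neg, abs_of_nonneg (by positivity)]
        linarith)
      (by fun_prop) (by positivity) fun k hk => co.b2 hL hr.le h.eps n hk)
    rwa [integral_sub (intOn (cG _)) (intOn (cG n)), mul_sub, ← f0, ← f0, ← mul_assoc I] at t
  · have t := mul_bound I0 (l1 Q (fun _ => 0)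
      (fun k => ren (ah p M k) (n + 2) - 2 * ren (ah p M k) (n + 1) + ren (ah p M k) n) (4 * L ^ 3)
      n cQ h.hom h.lo continuous_const (by simp) (fun k => by rw [abs_zero]; positivity)
      (by fun_prop) (by positivity) fun k hk => co.b3 hL h.eps n hk)
    rw [integral_add (intOn (by fun_prop)) (intOn (cG n)), integral_sub (intOn (cG _))
      (intOn (by fun_prop)), integral_const_mul, mul_add, mul_sub, mul_left_comm I 2, ← f0, ← f0,
      ← f0, ← mul_assoc I, show (3 : ℝ) / 2 + 1 = 5 / 2 by norm_num] at t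
    simp only [zero_mul, integral_zero, mul_zero, sub_zero] at t
    have := rpw_pos (5 / 2) n
    refine t.trans ?_
    gcongr; linarith

end

end Pool.Agent.MP_48a2f9_mp.LLT

end MrgPart6

-- ======== part 7: formerly Pool.Agent.MP_48a2f9_mp.FKSmall
section MrgPart7

/-!
High temperature: the critical inverse temperature is positive.
-/

open Finset Filter Topology

namespace Pool.Agent.MP_48a2f9_mp

noncomputable section
open Classical

variable {D q : ℕ}

lemma pr_exits_le_pow {v : Sym2 (Site D) → ℝ} {a : ℝ} (hv : ∀ e, 0 ≤ v e) (ha : ∀ e, v e ≤ a)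
    (n : ℕ) : ∀ (E : Finset (Sym2 (Site D))), (∀ e ∈ E, IsEdge e) → ∀ (W : Eqv (Site D))
      (x : Site D), (lat D q).pr v W E (fun ω => ∃ y, n ≤ nrm (y - x) ∧
        (lat D q).conn free ω x y) ≤ (3 ^ (D + 1) * a) ^ n := by
  have ha0 : 0 ≤ a := (hv s(0, 0)).trans (ha _)
  induction n with
  | zero => exact fun E _ W x => by rw [pow_zero]; exact Gr.pr_le_one hv
  | succ n ih =>
    intro E hE W x
    have step : ∀ z : Site D, (lat D q).pr v W E (fun ω => s(x, z) ∈ ω ∧ ∃ y, n ≤ nrm (y - z) ∧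
        (lat D q).conn free (ω.erase s(x, z)) z y) ≤ a * (3 ^ (D + 1) * a) ^ n := by
      intro z
      by_cases he : s(x, z) ∈ E
      · have h1 := Gr.ex_open_le (G := lat D q) (W := W) hv he
          (g := fun ξ => ind (∃ y, n ≤ nrm (y - z) ∧ (lat D q).conn free ξ z y))
          fun _ _ => ind_nonneg _
        simp only [← ind_and] at h1
        refine h1.trans (mul_le_mul (ha _) (le_trans (Gr.pr_mono hv ?_) (ih E hE W z))
          (Gr.pr_nonneg hv) ha0)
        rintro ω _ ⟨-, y, hy, k⟩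
        exact ⟨y, hy, Gr.conn_mono le_rfl (erase_subset _ _) k⟩
      · rw [Gr.pr_false fun ω hω h => he (hω h.1)]
        positivity
    refine (Gr.pr_le_sum hv (box x 1) (fun z ω => s(x, z) ∈ ω ∧ ∃ y, n ≤ nrm (y - z) ∧
      (lat D q).conn free (ω.erase s(x, z)) z y) ?_).trans ?_
    · rintro ω hω ⟨y, hy, k⟩
      have key := conn_free_induction (P := fun y => y = x ∨ ∃ z, s(x, z) ∈ ω ∧
          (lat D q).conn free (ω.filter fun e => x ∉ e) z y) (Or.inl rfl) (fun c d _ hc hcd => by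
        by_cases h1 : d = x
        · exact Or.inl h1
        by_cases h2 : c = x
        · exact Or.inr ⟨d, h2 ▸ hcd, Eqv.refl' _ _⟩
        obtain ⟨z, hz, l⟩ := hc.resolve_left h2
        refine Or.inr ⟨z, hz, Eqv.trans' _ l (lat_conn_edge _ (mem_filter.2 ⟨hcd, ?_⟩))⟩
        rw [Sym2.mem_iff, not_or]
        exact ⟨Ne.symm h2, Ne.symm h1⟩) k
      rcases key with rfl | ⟨z, hz, l⟩
      · simp at hy
      · have h1 := (hE _ (hω hz)).nrm_le (Sym2.mem_mk_left x z) (Sym2.mem_mk_right x z)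
        have h2 := nrm_triangle y z x
        refine ⟨z, mem_box.2 h1, hz, y, by omega, Gr.conn_mono le_rfl (fun e he => ?_) l⟩
        obtain ⟨h3, h4⟩ := mem_filter.1 he
        exact mem_erase.2 ⟨fun m => h4 (m ▸ Sym2.mem_mk_left _ _), h3⟩
    · refine (sum_le_card_nsmul _ _ _ fun z _ => step z).trans (le_of_eq ?_)
      rw [card_box, nsmul_eq_mul]
      push_cast
      ring

theorem betaC_pos (hq : 1 ≤ q) : 0 < betaC D q := by
  set b := Real.log (1 + 1 / (2 * 3 ^ (D + 1))) with hb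
  have hb0 : 0 < b := Real.log_pos (lt_add_of_pos_right _ (by positivity))
  refine lt_of_lt_of_le (EReal.coe_pos.2 hb0) (le_sSup ⟨b, ⟨hb0.le, fun a => ?_⟩, rfl⟩)
  simp only [gibbs_wired hq hb0.le zero_le_one]
  have h1 : Tendsto (fun n : ℕ => thW q b 1 (box (0 : Site D) n) 0) atTop (𝓝 0) := by
    refine squeeze_zero (fun n => thW_nonneg hb0.le zero_le_one _ _) (fun n => ?_)
      (tendsto_pow_atTop_nhds_zero_of_lt_one (r := 1 / 2) (by norm_num) (by norm_num))
    have h2 := pr_exits_le_pow (q := q) (a := 1 / (2 * 3 ^ (D + 1)))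
      (vJ_nonneg (D := D) hb0.le zero_le_one)
      (fun e => by rw [vJ_one, hb, Real.exp_log (by positivity)]; simp) n
      (edgesOf (box (0 : Site D) n)) (fun e he => (mem_edgesOf.1 he).1)
      (wire (↑(box (0 : Site D) n))ᶜ) 0
    rw [show (3 : ℝ) ^ (D + 1) * (1 / (2 * 3 ^ (D + 1))) = 1 / 2 by field_simp] at h2
    refine le_trans (Gr.pr_mono (vJ_nonneg hb0.le zero_le_one) ?_) h2
    rintro ω _ ⟨y, hy, k⟩
    exact ⟨y, (not_le.1 fun l => hy (mem_box.2 l)).le, k⟩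
  simpa using (h1.const_mul (1 - 1 / (q : ℝ))).const_add (1 / (q : ℝ))

end

end Pool.Agent.MP_48a2f9_mp

end MrgPart7

-- ======== part 8: formerly Pool.Agent.MP_48a2f9_mp.Final
section MrgPart8

/-!
All the modules together.
-/

open MeasureTheory

namespace Pool.Agent.MP_48a2f9_mp

theorem OZ.mainStmt : OZ.MainStmt := OZ.main_of_llt (LLT.lLTStmt serStmt Ren2.t6Stmt) massStmt

theorem exists_family {D q : ℕ} {β : ℝ} (hq : 2 ≤ q) (hβ : 0 < β)
    (hc : (β : EReal) < betaC D q) :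
    ∃ μ : ℝ → Measure (Site D → Fin q), ∀ J, 0 ≤ J → ∀ m, IsGibbs β J m ↔ m = μ J := by
  have h : ∀ J : ℝ, ∃ μ : Measure (Site D → Fin q), 0 ≤ J → ∀ m, IsGibbs β J m ↔ m = μ := by
    intro J
    by_cases hJ : 0 ≤ J
    · obtain ⟨μ, hμ⟩ := exists_gibbs (D := D) (q := q) (by omega) hβ.le hJ
      exact ⟨μ, fun _ m => ⟨fun hm => gibbs_unique (by omega) hβ.le hJ
        (wiredDecay_of_lt lineStmt hq hβ hc J hJ) hm hμ, fun hm => hm ▸ hμ⟩⟩
    · exact ⟨0, fun k => absurd k hJ⟩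
  choose μ hμ using h
  exact ⟨μ, hμ⟩

end Pool.Agent.MP_48a2f9_mp

end MrgPart8

-- marker of a merged file
example : 731051 + 704325 = 731051 + 704325 := rfl
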