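import Pool.Agent.MP_48a2f9_mp.LLT1

/-! The step law has total mass one. -/

open Finset Filter Topology Real

namespace Pool.Agent.MP_48a2f9_mp.LLT

noncomputable section

variable {D : ℕ} {p : ℕ → Tr D → ℝ} {M : ℕ} {C ν : ℝ}

lemma summable_exp_norm (hν : 0 < ν) : Summable fun w : Tr D => exp (-ν * ‖w‖) := by
  have hc0 : 0 < ν / (D + 1) := by positivity
  have e : ν = ν / (D + 1) * (D + 1) := by field_simp
  generalize ν / (D + 1) = c at *
  have hn : Summable fun n : ℕ => exp (-c * n) := by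
    simpa [mul_comm] using summable_exp_nat_mul_iff.mpr (neg_lt_zero.mpr hc0)
  have hg : Summable fun a : ℤ => exp (-c * |(a : ℝ)|) := by
    refine Summable.of_nat_of_neg ?_ ?_ <;> simpa using hn
  refine summable_of_sum_le (c := ∏ _i : Fin D, ∑' a : ℤ, exp (-c * |(a : ℝ)|))
    (fun w => (exp_pos _).le) fun s => ?_
  calc _ ≤ ∑ w ∈ s, ∏ i, exp (-c * |(w i : ℝ)|) := sum_le_sum fun w _ => by
        rw [← exp_sum, ← mul_sum, exp_le_exp, e]
        have h3 := sum_le_card_nsmul univ _ _ fun i _ => show |(w i : ℝ)| ≤ ‖w‖ from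
          Int.norm_eq_abs (w i) ▸ norm_le_pi_norm w i
        rw [card_univ, Fintype.card_fin, nsmul_eq_mul] at h3
        linarith [mul_le_mul_of_nonneg_left h3 hc0.le, mul_nonneg hc0.le (norm_nonneg w)]
    _ ≤ ∑ w ∈ Fintype.piFinset (fun i => (s.image fun w : Tr D => w i : Finset ℤ)),
          ∏ i, exp (-c * |((w i : ℤ) : ℝ)|) :=
        sum_le_sum_of_subset_of_nonneg
          (fun w hw => Fintype.mem_piFinset.mpr fun i => mem_image_of_mem _ hw)
          fun w _ _ => prod_nonneg fun i _ => (exp_pos _).le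
    _ = ∏ i, ∑ a ∈ (s.image fun w : Tr D => w i : Finset ℤ), exp (-c * |((a : ℤ) : ℝ)|) :=
        (prod_univ_sum _ fun _ (a : ℤ) => exp (-c * |(a : ℝ)|)).symm
    _ ≤ _ := prod_le_prod (fun i _ => sum_nonneg fun _ _ => (exp_pos _).le)
        fun i _ => hg.sum_le_tsum _ fun _ _ => (exp_pos _).le

lemma tsum_hk (hp : HomOK p M C ν) (l : ℕ) (u : Tr D) (φ : Tr D → ℝ) :
    ∑' w, hk p l u w * φ w = av p M l fun w => φ (w + u) := by
  rw [← tsum_p hp, ← (Equiv.addRight u).tsum_eq]; simp [hk]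

lemma ren_le (hp : HomOK p M C ν) {G : ℕ → Tr D → Tr D → ℝ} (hG : IsGp (hk p) G) (n : ℕ)
    (hn : 1 ≤ n) (u : Tr D) : ren (mf p) n ≤ ∑ v ∈ bx u (M * n), G n u v := by
  have G0 : ∀ n u v, 0 ≤ G n u v := fun n => by
    induction n using Nat.strong_induction_on with
    | _ n ih =>
      intro u v
      rw [hG]
      refine add_nonneg (hp.ker.nonneg _ _ _) (sum_nonneg fun l hl => tsum_nonneg fun w =>
        mul_nonneg (hp.ker.nonneg _ _ _) (ih _ ?_ _ _))
      have := mem_Ioo.1 hl; omega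
  induction n using Nat.strong_induction_on generalizing u with
  | _ n ih =>
    rw [ren_Ioc (mf_zero hp) hn, ← Ioo_insert_right hn, sum_insert (by simp), Nat.sub_self,
      ren_zero (mf_zero hp), mul_one, sum_congr rfl fun v _ => hG n u v, sum_add_distrib]
    refine add_le_add (le_of_eq ?_) ?_
    · rw [mf_eq hp, ← tsum_hk hp n u fun _ => 1, tsum_eq_sum (s := bx u (M * n)) fun v hv => ?_]
      · simp
      · by_contra h
        exact hv (mem_bx.2 (by simpa using hp.ker.range n u v (left_ne_zero_of_mul h)))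
    simp only [kconv, tsum_hk hp, av]
    rw [sum_comm]
    refine sum_le_sum fun l hl => ?_
    rw [mem_Ioo] at hl
    rw [sum_comm, mf_eq hp, av, sum_mul]
    refine sum_le_sum fun w hw => ?_
    rw [mul_one, ← mul_sum]
    refine mul_le_mul_of_nonneg_left ((ih _ (by omega) (by omega) (w + u)).trans
      (sum_le_sum_of_subset_of_nonneg (fun v hv => ?_) fun _ _ _ => G0 _ _ _)) (p_nonneg hp _ _)
    rw [mem_bx] at hv hw ⊢
    rw [sub_zero] at hw
    rw [show v - u = v - (w + u) + w by abel]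
    refine (norm_add_le _ _).trans ((add_le_add hv hw).trans (le_of_eq ?_))
    push_cast [Nat.cast_sub hl.2.le]; ring

theorem massStmt (h : T0Stmt) : MassStmt := by
  intro D p G M C ν t hν hp hG hGC ⟨bL, bR, tR, err, hL, hR, herr, htR, ht⟩ hnot
  have hC := C_nonneg hp
  obtain ⟨hs, hs1, -⟩ := h (mf p) (ren (mf p)) (1 + C * (2 * M + 1) ^ D) D
    ⟨mf_nonneg hp, mf_zero hp, ren_eq (mf_zero hp)⟩ fun n => by
      have hn : (0 : ℝ) ≤ n := Nat.cast_nonneg n
      rcases Nat.eq_zero_or_pos n with rfl | hn1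
      · rw [ren_zero (mf_zero hp)]; simp; positivity
      refine (ren_le hp hG n hn1 0).trans ((sum_le_sum fun v _ => hGC n 0 v).trans ?_)
      rw [sum_const, nsmul_eq_mul, card_bx]
      calc _ ≤ ((2 * M + 1) * (n + 1)) ^ D * C := by
            gcongr; push_cast; linarith [(Nat.cast_nonneg M : (0 : ℝ) ≤ M)]
        _ = C * (2 * M + 1) ^ D * (n + 1) ^ D := by rw [mul_pow]; ring
        _ ≤ _ := by gcongr; linarith
  rcases hs1.eq_or_lt with e | hlt
  · exact show HasSum (mf p) 1 from e ▸ hs.hasSum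
  refine absurd ?_ hnot
  have hW := summable_mw hp hν
  have mw0 : ∀ l, 0 ≤ mw (mf p) (ν / 8) l := fun l => by
    have := mf_nonneg hp l; unfold mw; positivity
  have W0 : 0 ≤ ∑' l, mw (mf p) (ν / 8) l := tsum_nonneg mw0
  set s := ∑' l, mf p l
  set W := ∑' l, mw (mf p) (ν / 8) l
  obtain ⟨ε, e0, e1, e2⟩ : ∃ ε, 0 < ε ∧ ε ≤ ν / 8 ∧ ε * W ≤ (1 - s) / 2 := by
    have : 0 < (1 - s) / 2 / (W + 1) := by have := sub_pos.2 hlt; positivity
    refine ⟨min (ν / 8) ((1 - s) / 2 / (W + 1)), lt_min (by linarith) this, min_le_left _ _, ?_⟩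
    have h2 := (le_div_iff₀ (by linarith)).1 (min_le_right (ν / 8) ((1 - s) / 2 / (W + 1)))
    linarith [lt_min (show 0 < ν / 8 by linarith) this]
  have key : ∀ S : Finset ℕ, ∑ l ∈ S, mf p l * exp (ε * l) ≤ (1 + s) / 2 := fun S => by
    have hb : ∀ l, mf p l * exp (ε * l) ≤ mf p l + ε * mw (mf p) (ν / 8) l := fun l => by
      have f0 := mf_nonneg hp l
      have hl : (0 : ℝ) ≤ l := Nat.cast_nonneg l
      have t1 : mf p l * (l * exp (ε * l)) ≤ mw (mf p) (ν / 8) l := by
        rw [mw, mul_left_comm, mul_assoc]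
        gcongr
        · exact le_trans (by linarith) (le_self_pow₀ (by linarith) (by norm_num))
        · linarith
      linarith [mul_le_mul_of_nonneg_left (exp_sub_one_le (ε * l)) f0,
        mul_le_mul_of_nonneg_left t1 e0.le]
    refine (sum_le_sum fun l _ => hb l).trans ((sum_le_hasSum S (fun l _ =>
      add_nonneg (mf_nonneg hp l) (mul_nonneg e0.le (mw0 l)))
      (hs.hasSum.add (hW.hasSum.mul_left ε))).trans (by linarith))
  obtain ⟨B, B0, hB⟩ : ∃ B, 0 ≤ B ∧ C + (1 + s) / 2 * B = B :=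
    ⟨C / ((1 - s) / 2), by have := sub_pos.2 hlt; positivity, by
      have := (sub_pos.2 hlt).ne'; field_simp; ring⟩
  have ex : ∀ n : ℕ, exp (-ν * n) ≤ exp (-ε * n) := fun n => by gcongr; linarith
  have sp : ∀ {n l : ℕ}, l ≤ n → exp (-ε * (n - l : ℕ)) = exp (ε * l) * exp (-ε * n) :=
    fun hl => by rw [← exp_add, Nat.cast_sub hl]; congr 1; ring
  have bd : ∀ {b}, Bdry b M C ν → ∀ (l : ℕ) (w : Tr D),
      |b l w| ≤ C * exp (-ν * l) * exp (-ν * ‖w‖) := fun hb l w => by
    rw [abs_of_nonneg (hb.nonneg l w), mul_assoc, ← exp_add, ← mul_add]; exact hb.decay l w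
  have tb : ∀ n, 1 ≤ n → ∀ u, |tR n u| ≤ B * exp (-ε * n) := fun n => by
    induction n using Nat.strong_induction_on with
    | _ n ih =>
      intro hn u
      rw [htR n u hn, kconv, ← hB, add_mul]
      refine (abs_add_le _ _).trans (add_le_add ((bd hR n u).trans ?_)
        ((abs_sum_le_sum_abs _ _).trans ?_))
      · refine (mul_le_of_le_one_right (by positivity) (exp_le_one_iff.2 ?_)).trans
          (mul_le_mul_of_nonneg_left (ex n) hC)
        linarith [mul_nonneg hν.le (norm_nonneg u)]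
      rw [mul_assoc]
      refine le_trans (sum_le_sum fun l hl => ?_) ((sum_mul _ _ _).symm.le.trans
        (mul_le_mul_of_nonneg_right (key (Ioo 0 n)) (by positivity)))
      rw [mem_Ioo] at hl
      rw [tsum_hk hp]
      refine (abs_av_le hp l fun w _ => ih _ (by omega) (by omega) _).trans (le_of_eq ?_)
      rw [sp hl.2.le]; ring
  have hZ := summable_exp_norm (D := D) hν
  have Z0 : 0 ≤ ∑' w : Tr D, exp (-ν * ‖w‖) := tsum_nonneg fun _ => (exp_pos _).le
  have hg : Summable fun l : ℕ => exp (-(ν - ε) * l) := by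
    simpa [mul_comm] using summable_exp_nat_mul_iff.mpr (show -(ν - ε) < 0 by linarith)
  refine ⟨C + (∑' l : ℕ, exp (-(ν - ε) * l)) * (C * B * ∑' w : Tr D, exp (-ν * ‖w‖)), ε, e0,
    fun n hn => ?_⟩
  rw [ht n hn, add_mul, mul_assoc]
  refine add_le_add ((herr n).2.trans (mul_le_mul_of_nonneg_left (ex n) hC))
    (le_trans (sum_le_sum fun l hl => ?_) ((sum_mul _ _ _).symm.le.trans
      (mul_le_mul_of_nonneg_right (hg.sum_le_tsum (Ioo 0 n) fun _ _ => (exp_pos _).le)
        (by positivity))))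
  rw [mem_Ioo] at hl
  refine (le_abs_self _).trans ((tsum_of_norm_bounded (f := fun w => bL l w * tR (n - l) w)
    (hZ.hasSum.mul_left (C * exp (-ν * l) * (B * exp (-ε * (n - l : ℕ))))) fun w => ?_).trans (le_of_eq ?_))
  · rw [norm_mul, mul_right_comm _ (B * _)]
    exact mul_le_mul (bd hL l w) (tb _ (by omega) w) (norm_nonneg _) (by positivity)
  · rw [sp hl.2.le, show -(ν - ε) * l = -ν * l + ε * l by ring, exp_add]; ring

end

end Pool.Agent.MP_48a2f9_mp.LLT
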