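import Mathlib.Data.Int.Star
import Mathlib.Algebra.Order.Ring.Star
import Pool.Agent.MP_48a2f9_mp.SpecR

/-! Cutting a cluster at a break level. -/

namespace Pool.Agent.MP_48a2f9_mp.OZ.R2

noncomputable section
open Classical

variable {D : ℕ}

theorem add_e1_fst (a : Site D) : (a + e1).1 = a.1 + 1 := rfl
theorem add_e1_snd (a : Site D) : (a + e1).2 = a.2 := by simp [e1]

theorem mem_verts {x v : Site D} {E : Finset (Ed D)} :
    v ∈ verts x E ↔ v = x ∨ ∃ e ∈ E, v ∈ e := by simp [verts]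

theorem root_mem (x : Site D) (E : Finset (Ed D)) : x ∈ verts x E := mem_verts.2 (Or.inl rfl)

theorem mem_fwd {a v : Site D} : v ∈ fwd a ↔ v = a ∨ v = a + e1 := by simp [fwd]

theorem fwd_inj {a b : Site D} (h : fwd a = fwd b) : a = b := by
  have h1 : a ∈ fwd b := h ▸ mem_fwd.2 (Or.inl rfl)
  have h2 : b ∈ fwd a := h ▸ mem_fwd.2 (Or.inl rfl)
  rcases mem_fwd.1 h1 with h1 | h1
  · exact h1
  rcases mem_fwd.1 h2 with h2 | h2
  · exact h2.symm
  have h3 := congrArg Prod.fst h1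
  have h4 := congrArg Prod.fst h2
  simp only [add_e1_fst] at h3 h4
  omega

theorem isEdge_fwd (a : Site D) : IsEdge (fwd a) := ⟨a, a + e1, by simp [Adj, e1], rfl⟩

theorem adj_cross {u v : Site D} {t : ℤ} (h : Adj u v) (h1 : u.1 ≤ t) (h2 : t < v.1) :
    u.1 = t ∧ v = u + e1 := by
  unfold Adj at h
  have h3 : 0 ≤ ∑ k, |u.2 k - v.2 k| := Finset.sum_nonneg fun k _ => abs_nonneg _
  have h4 : |u.1 - v.1| = v.1 - u.1 := by rw [abs_sub_comm, abs_of_nonneg (by omega)]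
  have h5 : ∑ k, |u.2 k - v.2 k| = 0 := by omega
  refine ⟨by omega, Prod.ext (by simp only [add_e1_fst]; omega) ?_⟩
  rw [add_e1_snd]
  funext k
  have := (Finset.sum_eq_zero_iff_of_nonneg fun k _ => abs_nonneg _).1 h5 k (Finset.mem_univ k)
  have := abs_eq_zero.1 this
  omega

theorem adj_symm {u v : Site D} (h : Adj u v) : Adj v u := by
  unfold Adj at h ⊢
  simpa only [abs_sub_comm v.1, abs_sub_comm (v.2 _)] using h

theorem edge_cross {u v : Site D} {t : ℤ} (h : IsEdge s(u, v)) (h1 : u.1 ≤ t) (h2 : t < v.1) :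
    u.1 = t ∧ v = u + e1 := by
  obtain ⟨p, q, h, h'⟩ := h
  rcases Sym2.eq_iff.1 h' with ⟨rfl, rfl⟩ | ⟨rfl, rfl⟩
  exacts [adj_cross h h1 h2, adj_cross (adj_symm h) h1 h2]

theorem mem_cross {E : Finset (Ed D)} {t : ℤ} {e : Ed D} :
    e ∈ cross E t ↔ e ∈ E ∧ ∃ v : Site D, v.1 = t ∧ e = fwd v := by simp [cross]

theorem conn_mono {E E' : Finset (Ed D)} (h : E ⊆ E') {a b : Site D} (c : Conn E a b) :
    Conn E' a b := by
  induction c with
  | refl => exact .refl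
  | tail _ h' ih => exact ih.tail (h h')

theorem conn_mem {E : Finset (Ed D)} {a b : Site D} (c : Conn E a b) : b ∈ verts a E := by
  induction c with
  | refl => exact root_mem _ _
  | tail _ h _ => exact mem_verts.2 (Or.inr ⟨_, h, Sym2.mem_mk_right _ _⟩)

theorem fwd_mono {A : ℕ} {W W' : Finset (Site D)} {t : ℤ} (h : W ⊆ W') (f : Fwd A W' t) :
    Fwd A W t := fun s hs => by
  refine le_trans ?_ (f s hs)
  exact_mod_cast Finset.card_le_card (Finset.filter_subset_filter _ h)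

theorem fwd_union {A : ℕ} {W W' : Finset (Site D)} {t u : ℤ} (htu : t ≤ u)
    (h : ∀ v ∈ W, v.1 ≤ u) (h' : ∀ v ∈ W', u < v.1) (f : t < u → Fwd A W t) (f' : Fwd A W' u) :
    Fwd A (W ∪ W') t := fun s hs => by
  rcases le_or_gt s u with hsu | hsu
  · refine le_trans ?_ (f (by omega) s hs)
    refine Int.ofNat_le.2 (Finset.card_le_card fun v hv => ?_)
    simp only [Finset.mem_filter, Finset.mem_union] at hv ⊢
    refine ⟨hv.1.resolve_right fun h2 => ?_, hv.2⟩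
    have := h' v h2
    omega
  · have h1 : slab (W ∪ W') t s ≤ slab W t u + slab W' u s := by
      refine le_trans (Finset.card_le_card fun v hv => ?_) (Finset.card_union_le _ _)
      simp only [Finset.mem_filter, Finset.mem_union] at hv ⊢
      rcases hv with ⟨h2 | h2, h3, h4⟩
      exacts [Or.inl ⟨h2, h3, h v h2⟩, Or.inr ⟨h2, h' v h2, h4⟩]
    have h2 : (slab W t u : ℤ) ≤ A * (u - t) := by
      rcases htu.eq_or_lt with rfl | h2
      · have : slab W t t = 0 := by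
          simp only [slab, Finset.card_eq_zero, Finset.filter_eq_empty_iff]
          intro v _; omega
        simp [this]
      · exact f h2 u h2
    have h3 := f' s hsu
    have h4 : (slab (W ∪ W') t s : ℤ) ≤ slab W t u + slab W' u s := by exact_mod_cast h1
    linarith

/-- Two clusters on both sides of the edge from `a` to `a + e₁`. -/
structure Cut (A : ℕ) (x a : Site D) (EL ER : Finset (Ed D)) : Prop where
  cl : IsClu x EL
  ma : a ∈ verts x EL
  le : ∀ v ∈ verts x EL, v.1 ≤ a.1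
  cr : IsClu (a + e1) ER
  ge : ∀ v ∈ verts (a + e1) ER, a.1 < v.1
  fw : Fwd A (verts (a + e1) ER) a.1

namespace Cut

variable {A : ℕ} {x a : Site D} {EL ER : Finset (Ed D)} (h : Cut A x a EL ER)
include h

theorem le' {e : Ed D} (he : e ∈ EL) {v : Site D} (hv : v ∈ e) : v.1 ≤ a.1 :=
  h.le v (mem_verts.2 (Or.inr ⟨e, he, hv⟩))

theorem ge' {e : Ed D} (he : e ∈ ER) {v : Site D} (hv : v ∈ e) : a.1 < v.1 :=
  h.ge v (mem_verts.2 (Or.inr ⟨e, he, hv⟩))

theorem verts_eq : verts x (EL ∪ {fwd a} ∪ ER) = verts x EL ∪ verts (a + e1) ER := by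
  ext v
  simp only [Finset.mem_union, mem_verts, Finset.mem_singleton]
  constructor
  · rintro (h1 | ⟨e, (h1 | rfl) | h1, h2⟩)
    · exact Or.inl (Or.inl h1)
    · exact Or.inl (Or.inr ⟨e, h1, h2⟩)
    · rcases mem_fwd.1 h2 with rfl | rfl
      exacts [Or.inl (mem_verts.1 h.ma), Or.inr (Or.inl rfl)]
    · exact Or.inr (Or.inr ⟨e, h1, h2⟩)
  · rintro ((h1 | ⟨e, h1, h2⟩) | (rfl | ⟨e, h1, h2⟩))
    · exact Or.inl h1
    · exact Or.inr ⟨e, Or.inl (Or.inl h1), h2⟩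
    · exact Or.inr ⟨_, Or.inl (Or.inr rfl), mem_fwd.2 (Or.inr rfl)⟩
    · exact Or.inr ⟨e, Or.inr h1, h2⟩

theorem isClu : IsClu x (EL ∪ {fwd a} ∪ ER) := by
  have s1 : EL ⊆ EL ∪ {fwd a} ∪ ER := Finset.subset_union_left.trans Finset.subset_union_left
  refine ⟨fun e he => ?_, fun v hv => ?_⟩
  · simp only [Finset.mem_union, Finset.mem_singleton] at he
    rcases he with (he | rfl) | he
    exacts [h.cl.1 e he, isEdge_fwd a, h.cr.1 e he]
  · rw [h.verts_eq, Finset.mem_union] at hv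
    rcases hv with hv | hv
    · exact conn_mono s1 (h.cl.2 v hv)
    · refine Relation.ReflTransGen.trans (Relation.ReflTransGen.tail
        (conn_mono s1 (h.cl.2 a h.ma)) ?_) (conn_mono Finset.subset_union_right (h.cr.2 v hv))
      simp [fwd]

theorem cross_lt {t : ℤ} (ht : t < a.1) : cross (EL ∪ {fwd a} ∪ ER) t = cross EL t := by
  ext e
  simp only [mem_cross, Finset.mem_union, Finset.mem_singleton]
  refine ⟨fun ⟨h1, v, h2, h3⟩ => ⟨?_, v, h2, h3⟩, fun ⟨h1, h2⟩ => ⟨Or.inl (Or.inl h1), h2⟩⟩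
  rcases h1 with (h1 | h1) | h1
  · exact h1
  · have := fwd_inj (h1.symm.trans h3)
    subst this; omega
  · have := h.ge' h1 (h3 ▸ mem_fwd.2 (Or.inl rfl))
    omega

theorem cross_gt {t : ℤ} (ht : a.1 < t) : cross (EL ∪ {fwd a} ∪ ER) t = cross ER t := by
  ext e
  simp only [mem_cross, Finset.mem_union, Finset.mem_singleton]
  refine ⟨fun ⟨h1, v, h2, h3⟩ => ⟨?_, v, h2, h3⟩, fun ⟨h1, h2⟩ => ⟨Or.inr h1, h2⟩⟩
  rcases h1 with (h1 | h1) | h1
  · have := h.le' h1 (h3 ▸ mem_fwd.2 (Or.inl rfl))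
    omega
  · have := fwd_inj (h1.symm.trans h3)
    subst this; omega
  · exact h1

theorem cross_eq : cross (EL ∪ {fwd a} ∪ ER) a.1 = {fwd a} := by
  ext e
  simp only [mem_cross, Finset.mem_union, Finset.mem_singleton]
  refine ⟨fun ⟨h1, v, h2, h3⟩ => ?_, fun h1 => ⟨Or.inl (Or.inr h1), a, rfl, h1⟩⟩
  rcases h1 with (h1 | h1) | h1
  · have := h.le' h1 (h3 ▸ mem_fwd.2 (Or.inr rfl))
    simp only [add_e1_fst] at this
    omega
  · exact h1
  · have := h.ge' h1 (h3 ▸ mem_fwd.2 (Or.inl rfl))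
    omega

theorem nice_eq : Nice A x (EL ∪ {fwd a} ∪ ER) a.1 :=
  ⟨by rw [h.cross_eq]; rfl, by
    rw [h.verts_eq]; exact fwd_union le_rfl h.le h.ge (fun c => absurd c (lt_irrefl _)) h.fw⟩

theorem nice_lt {t : ℤ} (ht : t < a.1) : Nice A x (EL ∪ {fwd a} ∪ ER) t ↔ Nice A x EL t := by
  unfold Nice
  rw [h.cross_lt ht, h.verts_eq]
  exact and_congr_right fun _ => ⟨fwd_mono Finset.subset_union_left,
    fun f => fwd_union ht.le h.le h.ge (fun _ => f) h.fw⟩

theorem left_eq : EL = (EL ∪ {fwd a} ∪ ER).filter fun e => ∀ v ∈ e, v.1 ≤ a.1 := by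
  ext e
  simp only [Finset.mem_filter, Finset.mem_union, Finset.mem_singleton]
  refine ⟨fun h1 => ⟨Or.inl (Or.inl h1), fun v hv => h.le' h1 hv⟩, ?_⟩
  rintro ⟨(h1 | rfl) | h1, h2⟩
  · exact h1
  · have := h2 _ (mem_fwd.2 (Or.inr rfl))
    simp only [add_e1_fst] at this
    omega
  · have h3 := h2 _ (Sym2.out_fst_mem e)
    have := h.ge' h1 (Sym2.out_fst_mem e)
    omega

theorem right_eq : ER = (EL ∪ {fwd a} ∪ ER).filter fun e => ∀ v ∈ e, a.1 < v.1 := by
  ext e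
  simp only [Finset.mem_filter, Finset.mem_union, Finset.mem_singleton]
  refine ⟨fun h1 => ⟨Or.inr h1, fun v hv => h.ge' h1 hv⟩, ?_⟩
  rintro ⟨(h1 | rfl) | h1, h2⟩
  · have h3 := h2 _ (Sym2.out_fst_mem e)
    have := h.le' h1 (Sym2.out_fst_mem e)
    omega
  · have := h2 _ (mem_fwd.2 (Or.inl rfl))
    omega
  · exact h1

theorem prod_eq (f : Ed D → ℝ) :
    ∏ e ∈ EL ∪ {fwd a} ∪ ER, f e = (∏ e ∈ EL, f e) * f (fwd a) * ∏ e ∈ ER, f e := by
  rw [Finset.prod_union, Finset.prod_union, Finset.prod_singleton]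
  · rw [Finset.disjoint_singleton_right]
    intro h1
    have := h.le' h1 (mem_fwd.2 (Or.inr rfl))
    simp only [add_e1_fst] at this
    omega
  · rw [Finset.disjoint_left]
    intro e h1 h2
    simp only [Finset.mem_union, Finset.mem_singleton] at h1
    rcases h1 with h1 | rfl
    · have := h.le' h1 (Sym2.out_fst_mem e)
      have := h.ge' h2 (Sym2.out_fst_mem e)
      omega
    · have := h.ge' h2 (mem_fwd.2 (Or.inl rfl))
      omega

end Cut

theorem exists_cut {A : ℕ} {x y : Site D} {E : Finset (Ed D)} {t : ℤ} (hE : IsClu x E)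
    (hy : y ∈ verts x E) (h1 : x.1 ≤ t) (h2 : t < y.1) (hn : Nice A x E t) :
    ∃ a EL ER, a.1 = t ∧ Cut A x a EL ER ∧ EL ∪ {fwd a} ∪ ER = E := by
  obtain ⟨e0, he0⟩ := Finset.card_eq_one.1 hn.1
  obtain ⟨ha, a, rfl, rfl⟩ := mem_cross.1 (he0 ▸ Finset.mem_singleton_self e0)
  have uniq : ∀ u v, s(u, v) ∈ E → u.1 ≤ a.1 → a.1 < v.1 → u = a ∧ v = a + e1 := by
    intro u v h hu hv
    obtain ⟨p1, p2⟩ := edge_cross (hE.1 _ h) hu hv
    have : s(u, v) ∈ cross E a.1 := mem_cross.2 ⟨h, u, p1, by rw [p2]; rfl⟩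
    rw [he0, Finset.mem_singleton, p2] at this
    have : u = a := fwd_inj this
    subst this
    exact ⟨rfl, p2⟩
  set EL := E.filter fun e => ∀ v ∈ e, v.1 ≤ a.1
  set ER := E.filter fun e => ∀ v ∈ e, a.1 < v.1
  have inv : ∀ v, Conn E x v → (v.1 ≤ a.1 → Conn EL x v) ∧
      (a.1 < v.1 → Conn EL x a ∧ Conn ER (a + e1) v) := by
    intro v hv
    induction hv with
    | refl => exact ⟨fun _ => .refl, fun h => by omega⟩
    | @tail u v _ h ih =>
      rcases le_or_gt u.1 a.1 with hu | hu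
      · refine ⟨fun hv => (ih.1 hu).tail (Finset.mem_filter.2 ⟨h, by simp [hu, hv]⟩),
          fun hv => ?_⟩
        obtain ⟨rfl, rfl⟩ := uniq u v h hu hv
        exact ⟨ih.1 hu, .refl⟩
      · refine ⟨fun hv => ?_, fun hv => ⟨(ih.2 hu).1,
          (ih.2 hu).2.tail (Finset.mem_filter.2 ⟨h, by simp [hu, hv]⟩)⟩⟩
        obtain ⟨rfl, -⟩ := uniq v u (by rwa [Sym2.eq_swap]) hv hu
        exact (ih.2 hu).1
  have sL : ∀ v ∈ verts x EL, v ∈ verts x E ∧ v.1 ≤ a.1 := fun v hv => by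
    rcases mem_verts.1 hv with rfl | ⟨e, p1, p2⟩
    · exact ⟨root_mem _ _, h1⟩
    · obtain ⟨p3, p4⟩ := Finset.mem_filter.1 p1
      exact ⟨mem_verts.2 (Or.inr ⟨e, p3, p2⟩), p4 v p2⟩
  have sR : ∀ v ∈ verts (a + e1) ER, v ∈ verts x E ∧ a.1 < v.1 := fun v hv => by
    rcases mem_verts.1 hv with rfl | ⟨e, p1, p2⟩
    · exact ⟨mem_verts.2 (Or.inr ⟨_, ha, mem_fwd.2 (Or.inr rfl)⟩), by simp [e1]⟩
    · obtain ⟨p3, p4⟩ := Finset.mem_filter.1 p1
      exact ⟨mem_verts.2 (Or.inr ⟨e, p3, p2⟩), p4 v p2⟩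
  refine ⟨a, EL, ER, rfl, ⟨⟨fun e he => hE.1 e (Finset.mem_filter.1 he).1,
    fun v hv => (inv v (hE.2 v (sL v hv).1)).1 (sL v hv).2⟩,
    conn_mem ((inv y (hE.2 y hy)).2 h2).1, fun v hv => (sL v hv).2,
    ⟨fun e he => hE.1 e (Finset.mem_filter.1 he).1,
    fun v hv => ((inv v (hE.2 v (sR v hv).1)).2 (sR v hv).2).2⟩, fun v hv => (sR v hv).2,
    fwd_mono (fun v hv => (sR v hv).1) hn.2⟩, ?_⟩
  ext e
  simp only [Finset.mem_union, Finset.mem_singleton, EL, ER, Finset.mem_filter]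
  refine ⟨?_, fun he => ?_⟩
  · rintro ((h | rfl) | h)
    exacts [h.1, ha, h.1]
  · induction e using Sym2.ind with
    | _ u v =>
      rcases le_or_gt u.1 a.1 with hu | hu <;> rcases le_or_gt v.1 a.1 with hv | hv
      · exact Or.inl (Or.inl ⟨he, by simp [hu, hv]⟩)
      · obtain ⟨rfl, rfl⟩ := uniq u v he hu hv
        exact Or.inl (Or.inr rfl)
      · obtain ⟨rfl, rfl⟩ := uniq v u (by rwa [Sym2.eq_swap]) hv hu
        exact Or.inl (Or.inr Sym2.eq_swap)
      · exact Or.inr ⟨he, by simp [hu, hv]⟩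

end

end Pool.Agent.MP_48a2f9_mp.OZ.R2
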